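import Pool.Agent.P.MP_f12b6c_an.Half

namespace Pool.Agent.P.MP_f12b6c_an

open Metric Set Filter Topology Matrix
open scoped RealInnerProductSpace

/-- Six times the polarisation of the cubic form. -/
def pol (c : Fin 3 → Fin 3 → Fin 3 → ℝ) (a b d : E 3) : ℝ :=
  ∑ i, ∑ j, ∑ k, c i j k * (a i * b j * d k + a i * d j * b k + b i * a j * d k + b i * d j * a k
    + d i * a j * b k + d i * b j * a k)

lemma cubic_expand (c : Fin 3 → Fin 3 → Fin 3 → ℝ) (z h : E 3) (s t : ℝ) :
    cubic c (s • z + t • h) = s ^ 3 * cubic c z + s ^ 2 * t * (pol c h z z / 2)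
      + s * t ^ 2 * (pol c z h h / 2) + t ^ 3 * cubic c h := by
  simp only [cubic, pol, Fin.sum_univ_three, PiLp.add_apply, PiLp.smul_apply, smul_eq_mul]
  ring

lemma pol_expand (c : Fin 3 → Fin 3 → Fin 3 → ℝ) (z e k : E 3) (s t : ℝ) :
    pol c z (s • e + t • k) (s • e + t • k) = s ^ 2 * pol c z e e + 2 * s * t * pol c z e k
      + t ^ 2 * pol c z k k := by
  simp only [pol, Fin.sum_univ_three, PiLp.add_apply, PiLp.smul_apply, smul_eq_mul]
  ring

lemma pol_swap (c : Fin 3 → Fin 3 → Fin 3 → ℝ) (z e k : E 3) : pol c z e k = pol c e z k := by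
  simp only [pol, Fin.sum_univ_three]
  ring

lemma pol_neg (c : Fin 3 → Fin 3 → Fin 3 → ℝ) (z e k : E 3) : pol c (-z) e k = -pol c z e k := by
  simp only [pol, Fin.sum_univ_three, PiLp.neg_apply]
  ring

lemma inner3 (a b : E 3) : ⟪a, b⟫ = a 0 * b 0 + a 1 * b 1 + a 2 * b 2 := by
  simp [PiLp.inner_apply, Fin.sum_univ_three]; ring

lemma norm_rot {a b : E 3} (ha : ‖a‖ = 1) (hb : ‖b‖ = 1) (hab : ⟪a, b⟫ = 0) (θ : ℝ) :
    ‖Real.cos θ • a + Real.sin θ • b‖ = 1 := by
  have h : ‖Real.cos θ • a + Real.sin θ • b‖ ^ 2 = 1 := by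
    rw [norm_add_sq_real, norm_smul, norm_smul, inner_smul_left, inner_smul_right, ha, hb, hab]
    simp
  exact (sq_eq_sq₀ (norm_nonneg _) zero_le_one).1 (by simpa using h)

lemma frame (a0 a1 a2 b0 b1 b2 x0 x1 x2 : ℝ) (ha : a0 * a0 + a1 * a1 + a2 * a2 = 1)
    (hb : b0 * b0 + b1 * b1 + b2 * b2 = 1) (hab : a0 * b0 + a1 * b1 + a2 * b2 = 0)
    (hbx : b0 * x0 + b1 * x1 + b2 * x2 = 0) :
    x0 = (a0 * x0 + a1 * x1 + a2 * x2) * a0 +
      ((a1 * b2 - a2 * b1) * x0 + (a2 * b0 - a0 * b2) * x1 + (a0 * b1 - a1 * b0) * x2)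
        * (a1 * b2 - a2 * b1) := by
  linear_combination (-x0 * (b0 * b0 + b1 * b1 + b2 * b2)) * ha
    + ((a0 * x0 + a1 * x1 + a2 * x2) * a0 - x0) * hb
    + (x0 * (a0 * b0 + a1 * b1 + a2 * b2) - a0 * (b0 * x0 + b1 * x1 + b2 * x2)
      - b0 * (a0 * x0 + a1 * x1 + a2 * x2)) * hab
    + (b0 * (a0 * a0 + a1 * a1 + a2 * a2)) * hbx

lemma exists_perp {n : ℕ} (hn : 2 ≤ n) (ξ : E n) : ∃ e : E n, e ≠ 0 ∧ ⟪ξ, e⟫ = 0 := by
  have h : LinearMap.ker ((innerSL ℝ ξ : E n →L[ℝ] ℝ) : E n →ₗ[ℝ] ℝ) ≠ ⊥ :=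
    LinearMap.ker_ne_bot_of_finrank_lt (by simp; omega)
  obtain ⟨e, he, he0⟩ := Submodule.exists_mem_ne_zero_of_ne_bot h
  exact ⟨e, he0, by simpa using he⟩

lemma contDiff_cubic (c : Fin 3 → Fin 3 → Fin 3 → ℝ) : ContDiff ℝ 2 (cubic c) := by
  unfold cubic; fun_prop

/-- For every ternary cubic form there is a direction `e` whose polar conic is semidefinite
on the plane orthogonal to `e`. -/
lemma exists_good (c : Fin 3 → Fin 3 → Fin 3 → ℝ) :
    ∃ e : E 3, e ≠ 0 ∧ ∀ y : E 3, ⟪e, y⟫ = 0 → 0 ≤ pol c e y y := by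
  obtain ⟨z, hz, hzm⟩ := (isCompact_sphere (0 : E 3) 1).exists_isMaxOn
    (NormedSpace.sphere_nonempty.2 zero_le_one) (contDiff_cubic c).continuous.continuousOn
  have hz1 : ‖z‖ = 1 := by simpa using hz
  have hK : IsCompact (sphere (0 : E 3) 1 ∩ {y | ⟪z, y⟫ = 0}) :=
    (isCompact_sphere 0 _).inter_right (isClosed_eq (by fun_prop) continuous_const)
  have hne : (sphere (0 : E 3) 1 ∩ {y | ⟪z, y⟫ = 0}).Nonempty := by
    obtain ⟨w, hw0, hw⟩ := exists_perp (n := 3) (by norm_num) z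
    refine ⟨‖w‖⁻¹ • w, by simp [norm_smul, hw0], ?_⟩
    simp [inner_smul_right, hw]
  obtain ⟨e, he, hem⟩ := hK.exists_isMaxOn hne (f := fun y => pol c z y y)
    (by unfold pol; fun_prop)
  have he1 : ‖e‖ = 1 := by simpa using he.1
  have hze : ⟪z, e⟫ = 0 := he.2
  have he0 : e ≠ 0 := by rintro rfl; simp at he1
  have hzz : z 0 * z 0 + z 1 * z 1 + z 2 * z 2 = 1 := by
    rw [← inner3, real_inner_self_eq_norm_sq, hz1]; simp
  have hee : e 0 * e 0 + e 1 * e 1 + e 2 * e 2 = 1 := by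
    rw [← inner3, real_inner_self_eq_norm_sq, he1]; simp
  have hze' := hze
  rw [inner3] at hze'
  set k : E 3 := !₂[z 1 * e 2 - z 2 * e 1, z 2 * e 0 - z 0 * e 2, z 0 * e 1 - z 1 * e 0] with hk
  have k0 : k 0 = z 1 * e 2 - z 2 * e 1 := by simp [hk]
  have k1 : k 1 = z 2 * e 0 - z 0 * e 2 := by simp [hk]
  have k2 : k 2 = z 0 * e 1 - z 1 * e 0 := by simp [hk]
  have hk1 : ‖k‖ = 1 := by
    refine (sq_eq_sq₀ (norm_nonneg _) zero_le_one).1 ?_
    rw [← real_inner_self_eq_norm_sq, inner3, k0, k1, k2]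
    linear_combination (e 0 * e 0 + e 1 * e 1 + e 2 * e 2) * hzz + hee
      - (z 0 * e 0 + z 1 * e 1 + z 2 * e 2) * hze'
  have hzk : ⟪z, k⟫ = 0 := by rw [inner3, k0, k1, k2]; ring
  have hek : ⟪e, k⟫ = 0 := by rw [inner3, k0, k1, k2]; ring
  have c0 := Real.hasDerivAt_cos 0
  have s0 := Real.hasDerivAt_sin 0
  have p1 : pol c e z z = 0 := by
    have hm : IsLocalMax (fun θ : ℝ => Real.cos θ ^ 3 * cubic c z
        + Real.cos θ ^ 2 * Real.sin θ * (pol c e z z / 2)
        + Real.cos θ * Real.sin θ ^ 2 * (pol c z e e / 2) + Real.sin θ ^ 3 * cubic c e) 0 := by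
      refine Eventually.of_forall fun θ => ?_
      have := hzm (show Real.cos θ • z + Real.sin θ • e ∈ sphere (0 : E 3) 1 by
        simpa using norm_rot hz1 he1 hze θ)
      simp only [mem_ofPred_eq, cubic_expand] at this
      simpa using this
    have := hm.hasDerivAt_eq_zero (((((c0.pow 3).mul_const _).add
      (((c0.pow 2).mul s0).mul_const _)).add ((c0.mul (s0.pow 2)).mul_const _)).add
      ((s0.pow 3).mul_const _))
    simpa using this
  have p2 : pol c z e k = 0 := by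
    have hm : IsLocalMax (fun θ : ℝ => Real.cos θ ^ 2 * pol c z e e
        + 2 * Real.cos θ * Real.sin θ * pol c z e k + Real.sin θ ^ 2 * pol c z k k) 0 := by
      refine Eventually.of_forall fun θ => ?_
      have := hem (show Real.cos θ • e + Real.sin θ • k ∈
          sphere (0 : E 3) 1 ∩ {y | ⟪z, y⟫ = 0} from
        ⟨by simpa using norm_rot he1 hk1 hek θ, by
          simp [inner_add_right, inner_smul_right, hze, hzk]⟩)
      simp only [mem_ofPred_eq, pol_expand] at this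
      simpa using this
    have := hm.hasDerivAt_eq_zero ((((c0.pow 2).mul_const _).add
      (((c0.const_mul 2).mul s0).mul_const _)).add ((s0.pow 2).mul_const _))
    simpa using this
  have key : ∀ y : E 3, ⟪e, y⟫ = 0 → pol c e y y = ⟪k, y⟫ ^ 2 * pol c e k k := by
    intro y hy
    have hy' := hy
    rw [inner3] at hy'
    have dec : y = ⟪z, y⟫ • z + ⟪k, y⟫ • k := by
      ext i
      simp only [PiLp.add_apply, PiLp.smul_apply, smul_eq_mul, inner3]
      fin_cases i
      · simp only [Fin.zero_eta, k0, k1, k2]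
        exact frame _ _ _ _ _ _ _ _ _ hzz hee hze' hy'
      · simp only [Fin.mk_one, k0, k1, k2]
        linear_combination frame (z 1) (z 2) (z 0) (e 1) (e 2) (e 0) (y 1) (y 2) (y 0)
          (by linarith) (by linarith) (by linarith) (by linarith)
      · simp only [Fin.reduceFinMk, k0, k1, k2]
        linear_combination frame (z 2) (z 0) (z 1) (e 2) (e 0) (e 1) (y 2) (y 0) (y 1)
          (by linarith) (by linarith) (by linarith) (by linarith)
    conv_lhs => rw [dec, pol_expand, p1, ← pol_swap c z e k, p2]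
    ring
  rcases le_total 0 (pol c e k k) with h | h
  · exact ⟨e, he0, fun y hy => by rw [key y hy]; positivity⟩
  · refine ⟨-e, neg_ne_zero.2 he0, fun y hy => ?_⟩
    rw [pol_neg, key y (by simpa using hy)]
    nlinarith [sq_nonneg ⟪k, y⟫]

/-- No cubic form over a power `|x|^δ`, `1 < δ < 2`, solves the equation in dimension three. -/
theorem no_cubic {lam Lam δ : ℝ} {F : Mat 3 → ℝ} (c : Fin 3 → Fin 3 → Fin 3 → ℝ) (hlam : 0 < lam)
    (hLam : lam ≤ Lam) (hF : UnifElliptic lam Lam F) (h1 : 1 < δ) (h2 : δ < 2)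
    (hu : IsViscSol F (fun x => cubic c x / ‖x‖ ^ δ)) : ∀ x, cubic c x = 0 := by
  obtain ⟨e, he, hpol⟩ := exists_good c
  have hc : ∀ x : E 3, x ≠ 0 → ContDiffAt ℝ 2 (fun x => cubic c x / ‖x‖ ^ δ) x := fun x hx =>
    (contDiff_cubic c).contDiffAt.div ((contDiffAt_norm ℝ hx).rpow_const_of_ne
      (norm_ne_zero_iff.2 hx)) (Real.rpow_pos_of_pos (norm_pos_iff.2 hx) _).ne'
  have hz := sign_change (β := 3 - δ) hlam hLam hF hu
    (fun x hx => (hc x hx).contDiffWithinAt) (by linarith) (by linarith)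
    (fun x t ht => by
      have e1 := cubic_expand c x x t 0
      simp only [zero_smul, add_zero] at e1
      have e2 : t ^ (3 - δ) = t ^ 3 / t ^ δ := by
        rw [Real.rpow_sub ht]; norm_cast
      have e3 := Real.rpow_pos_of_pos ht δ
      rw [e1, norm_smul, Real.norm_of_nonneg ht.le, Real.mul_rpow ht.le (norm_nonneg x), e2]
      by_cases hx : ‖x‖ ^ δ = 0
      · simp [hx]
      · field_simp; ring) he he
    (fun x hx hex => by
      have hl : HasDerivAt (fun t : ℝ => x + t • e) e 0 := by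
        simpa using ((hasDerivAt_id (0 : ℝ)).smul_const e).const_add x
      have d1 : HasDerivAt (fun t : ℝ => cubic c (x + t • e) / ‖x + t • e‖ ^ δ)
          (fderiv ℝ (fun x => cubic c x / ‖x‖ ^ δ) x e) 0 :=
        HasFDerivAt.comp_hasDerivAt_of_eq 0
          ((hc x hx).differentiableAt (by simp)).hasFDerivAt hl (by simp)
      have hn : 0 < ‖x‖ := norm_pos_iff.2 hx
      have d2 : HasDerivAt (fun t : ℝ => cubic c (x + t • e)) (pol c e x x / 2) 0 := by
        have e1 : (fun t : ℝ => cubic c (x + t • e)) = fun t => cubic c x + t * (pol c e x x / 2)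
            + t ^ 2 * (pol c x e e / 2) + t ^ 3 * cubic c e := by
          funext t
          have := cubic_expand c x e 1 t
          simpa using this
        rw [e1]
        have := ((((hasDerivAt_id (0 : ℝ)).mul_const (pol c e x x / 2)).const_add (cubic c x)).add
          ((hasDerivAt_pow 2 (0 : ℝ)).mul_const (pol c x e e / 2))).add
          ((hasDerivAt_pow 3 (0 : ℝ)).mul_const (cubic c e))
        exact this.congr_deriv (by simp)
      have d3 : HasDerivAt (fun t : ℝ => ‖x + t • e‖ ^ δ) 0 0 := by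
        have e1 : (fun t : ℝ => ‖x + t • e‖ ^ δ) = fun t => (‖x + t • e‖ ^ 2) ^ (δ / 2) := by
          funext t
          rw [← Real.rpow_natCast, ← Real.rpow_mul (norm_nonneg _)]
          congr 1; push_cast; ring
        rw [e1]
        have := hl.norm_sq.rpow_const (p := δ / 2) (Or.inl (by simpa using hx))
        exact this.congr_deriv (by simp [real_inner_comm, hex])
      have hp : 0 < ‖x + (0 : ℝ) • e‖ ^ δ := Real.rpow_pos_of_pos (by simpa using hx) _
      have d4 := d2.div d3 hp.ne'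
      rw [d1.unique d4]
      have := hpol x hex
      simp only [mul_zero, sub_zero]
      positivity)
  intro x
  by_cases hx : x = 0
  · subst hx; simp [cubic]
  · have := hz x
    simp only [div_eq_zero_iff] at this
    exact this.resolve_right (Real.rpow_pos_of_pos (norm_pos_iff.2 hx) _).ne'

/-- Homogeneous solutions that are even or odd under a reflection vanish. -/
theorem no_reflection {n : ℕ} {lam Lam β : ℝ} {F : Mat n → ℝ} {u : E n → ℝ} (hlam : 0 < lam)
    (hLam : lam ≤ Lam) (hF : UnifElliptic lam Lam F) (hu : IsViscSol F u)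
    (h2 : ContDiffOn ℝ 2 u {0}ᶜ) (hβ1 : 1 < β) (hβ2 : β < 2)
    (hom : ∀ x, ∀ t : ℝ, 0 < t → u (t • x) = t ^ β * u x) {ξ : E n} (hξ : ‖ξ‖ = 1)
    (hs : (∀ x, u (x - (2 * ⟪ξ, x⟫) • ξ) = u x) ∨
      (2 ≤ n ∧ ∀ x, u (x - (2 * ⟪ξ, x⟫) • ξ) = -u x)) : ∀ x, u x = 0 := by
  have hd := hom_differentiable hβ1 h2 hom
  have hξ0 : ξ ≠ 0 := by rintro rfl; simp at hξ
  have hl : ∀ x e : E n, HasDerivAt (fun t : ℝ => u (x + t • e)) (fderiv ℝ u x e) 0 := by
    intro x e
    simpa using line_deriv hd x e 0 0 0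
  rcases hs with hs | ⟨hn, hs⟩
  · refine sign_change hlam hLam hF hu h2 hβ1 hβ2 hom hξ0 hξ0 fun x _ hx => ?_
    have e1 : (fun t : ℝ => u (x + t • ξ)) = fun t : ℝ => u (x + t • (-ξ)) := by
      funext t
      rw [← hs (x + t • ξ), inner_add_right, inner_smul_right, hx, real_inner_self_eq_norm_sq, hξ]
      congr 1
      module
    have d1 := hl x ξ
    rw [e1] at d1
    have := d1.unique (hl x (-ξ))
    rw [map_neg] at this
    linarith
  · obtain ⟨e, he0, he⟩ := exists_perp hn ξ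
    refine sign_change hlam hLam hF hu h2 hβ1 hβ2 hom he0 hξ0 fun x _ hx => ?_
    have e1 : (fun t : ℝ => u (x + t • e)) = fun _ : ℝ => 0 := by
      funext t
      have := hs (x + t • e)
      rw [inner_add_right, inner_smul_right, hx, he] at this
      simp only [mul_zero, add_zero, zero_smul, sub_zero] at this
      linarith
    have d1 := hl x e
    rw [e1] at d1
    exact (d1.unique (hasDerivAt_const _ _)).ge

end Pool.Agent.P.MP_f12b6c_an
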