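import Mathlib

/-!
Definitions for uniformly elliptic equations `F(D²u) = 0` and their viscosity solutions
in the unit ball of `ℝⁿ`.
-/

namespace Pool.Agent.P.MP_f12b6c_an

/-- Euclidean space `ℝⁿ`. -/
abbrev E (n : ℕ) : Type := EuclideanSpace ℝ (Fin n)

/-- Real `n × n` matrices. -/
abbrev Mat (n : ℕ) : Type := Matrix (Fin n) (Fin n) ℝ

/-- The operator norm of a matrix acting on Euclidean space. -/
noncomputable def opNorm {n : ℕ} (N : Mat n) : ℝ :=
  ‖Matrix.toEuclideanCLM (n := Fin n) (𝕜 := ℝ) N‖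

/-- `F` is uniformly elliptic on symmetric matrices with constants `lam`, `Lam`:
`lam ‖N‖ ≤ F (M + N) - F M ≤ Lam ‖N‖` for `M` symmetric and `N` positive semidefinite. -/
def UnifElliptic {n : ℕ} (lam Lam : ℝ) (F : Mat n → ℝ) : Prop :=
  ∀ M N : Mat n, M.IsSymm → N.PosSemidef →
    lam * opNorm N ≤ F (M + N) - F M ∧ F (M + N) - F M ≤ Lam * opNorm N

/-- The Hessian matrix of `φ` at `x`. -/
noncomputable def hess {n : ℕ} (φ : E n → ℝ) (x : E n) : Mat n :=
  Matrix.of fun i j =>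
    fderiv ℝ (fderiv ℝ φ) x (EuclideanSpace.single i 1) (EuclideanSpace.single j 1)

/-- `u` is a continuous viscosity solution of `F(D²u) = 0` in the open unit ball: whenever a
function `φ` that is `C²` near a point `x` of the ball touches `u` from above at `x`,
`F(D²φ(x)) ≥ 0`, and whenever it touches from below, `F(D²φ(x)) ≤ 0`. -/
def IsViscSol {n : ℕ} (F : Mat n → ℝ) (u : E n → ℝ) : Prop :=
  ContinuousOn u (Metric.ball 0 1) ∧
    ∀ x ∈ Metric.ball (0 : E n) 1, ∀ φ : E n → ℝ, ContDiffAt ℝ 2 φ x →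
      (IsLocalMax (fun y => u y - φ y) x → 0 ≤ F (hess φ x)) ∧
      (IsLocalMin (fun y => u y - φ y) x → F (hess φ x) ≤ 0)

/-- The cubic form with coefficients `c`. -/
def cubic (c : Fin 3 → Fin 3 → Fin 3 → ℝ) (x : E 3) : ℝ :=
  ∑ i, ∑ j, ∑ k, c i j k * x i * x j * x k

end Pool.Agent.P.MP_f12b6c_an
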