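import Pool.Agent.P.MP_f12b6c_an.Smp

namespace Pool.Agent.P.MP_f12b6c_an

open Metric Set Filter Topology Matrix Asymptotics
open scoped RealInnerProductSpace

variable {n : ℕ}

lemma smp' {lam Lam : ℝ} {F : Mat n → ℝ} {u : E n → ℝ} (hlam : 0 < lam) (hLam : lam ≤ Lam)
    (hF : UnifElliptic lam Lam F) (hu : IsViscSol F u) (h2 : ContDiffOn ℝ 2 u {0}ᶜ)
    (hd : Differentiable ℝ u) {e b y0 xs : E n} {c R1 : ℝ} (he : e ≠ 0)
    (hsub : ball y0 R1 ⊆ ball 0 1) (hge : ∀ y ∈ ball y0 R1, c + ⟪b, y⟫ ≤ fderiv ℝ u y e)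
    (hy0 : y0 ≠ 0) (hpos : c + ⟪b, y0⟫ < fderiv ℝ u y0 e)
    (hx : xs ∈ ball y0 R1) : c + ⟪b, xs⟫ < fderiv ℝ u xs e := by
  have hc : ContinuousAt (fderiv ℝ u) y0 :=
    ((h2.contDiffAt (isOpen_compl_singleton.mem_nhds hy0)).fderiv_right (m := 1)
      (by norm_num)).continuousAt
  have hc2 : ContinuousAt (fun y => fderiv ℝ u y e - (c + ⟪b, y⟫)) y0 := by fun_prop
  set μ := (fderiv ℝ u y0 e - (c + ⟪b, y0⟫)) / 2 with hμ
  have hμ0 : 0 < μ := by linarith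
  have hev : ∀ᶠ y in 𝓝 y0, μ < fderiv ℝ u y e - (c + ⟪b, y⟫) :=
    hc2.eventually (lt_mem_nhds (by linarith))
  obtain ⟨ρ1, hρ, hball⟩ := Metric.eventually_nhds_iff_ball.1 hev
  exact smp hlam hLam hF hu h2 hd he hsub hge hρ hμ0
    (fun y hy => by have := hball y hy; linarith) hx

lemma hom_zero {u : E n → ℝ} {β : ℝ} (hβ : 1 < β)
    (hom : ∀ x, ∀ t : ℝ, 0 < t → u (t • x) = t ^ β * u x) : u 0 = 0 := by
  have h := hom 0 2 two_pos
  have : (1 : ℝ) < 2 ^ β := Real.one_lt_rpow (by norm_num) (by linarith)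
  rw [smul_zero] at h
  have h' : (2 ^ β - 1) * u 0 = 0 := by linarith
  rcases mul_eq_zero.1 h' with h1 | h1
  · linarith
  · exact h1

lemma hom_hasFDerivAt_zero {u : E n → ℝ} {β : ℝ} (hβ : 1 < β) (h2 : ContDiffOn ℝ 2 u {0}ᶜ)
    (hom : ∀ x, ∀ t : ℝ, 0 < t → u (t • x) = t ^ β * u x) :
    HasFDerivAt u (0 : E n →L[ℝ] ℝ) 0 := by
  obtain ⟨C, hC⟩ := (isCompact_sphere (0 : E n) 1).exists_bound_of_continuousOn
    (h2.continuousOn.mono (fun x hx h0 => by
      rw [mem_singleton_iff] at h0; subst h0; simp at hx))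
  rw [hasFDerivAt_iff_isLittleO_nhds_zero, isLittleO_iff]
  intro c hc
  have ht : ContinuousAt (fun y : E n => C * ‖y‖ ^ (β - 1)) 0 :=
    continuousAt_const.mul (continuous_norm.continuousAt.rpow_const (Or.inr (by linarith)))
  have hev : ∀ᶠ y : E n in 𝓝 0, C * ‖y‖ ^ (β - 1) < c :=
    ht.eventually (gt_mem_nhds (by simpa [Real.zero_rpow (by linarith : β - 1 ≠ 0)] using hc))
  filter_upwards [hev] with y hy
  rw [zero_add, hom_zero hβ hom]
  by_cases hy0 : y = 0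
  · subst hy0; simp [hom_zero hβ hom]
  · have hn : 0 < ‖y‖ := norm_pos_iff.2 hy0
    have h1 := hom (‖y‖⁻¹ • y) ‖y‖ hn
    rw [smul_inv_smul₀ hn.ne'] at h1
    have h3 := hC (‖y‖⁻¹ • y) (by simp [norm_smul, hn.ne'])
    have h4 : ‖y‖ ^ β = ‖y‖ ^ (β - 1) * ‖y‖ := by
      rw [← Real.rpow_add_one hn.ne']; simp
    have h5 : 0 < ‖y‖ ^ (β - 1) := Real.rpow_pos_of_pos hn _
    simp only [sub_zero, _root_.zero_apply]
    rw [h1, norm_mul, Real.norm_of_nonneg (Real.rpow_pos_of_pos hn β).le, h4]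
    have := mul_le_mul_of_nonneg_left h3 h5.le
    nlinarith

lemma hom_differentiable {u : E n → ℝ} {β : ℝ} (hβ : 1 < β) (h2 : ContDiffOn ℝ 2 u {0}ᶜ)
    (hom : ∀ x, ∀ t : ℝ, 0 < t → u (t • x) = t ^ β * u x) : Differentiable ℝ u := by
  intro x
  by_cases hx : x = 0
  · subst hx; exact (hom_hasFDerivAt_zero hβ h2 hom).differentiableAt
  · exact (h2.contDiffAt (isOpen_compl_singleton.mem_nhds hx)).differentiableAt (by simp)

lemma hom_fderiv {u : E n → ℝ} {β : ℝ} (hd : Differentiable ℝ u)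
    (hom : ∀ x, ∀ t : ℝ, 0 < t → u (t • x) = t ^ β * u x) (x e : E n) {t : ℝ} (ht : 0 < t) :
    fderiv ℝ u (t • x) e = t ^ (β - 1) * fderiv ℝ u x e := by
  have h1 : HasFDerivAt (fun y => u (t • y))
      ((fderiv ℝ u (t • x)).comp (t • ContinuousLinearMap.id ℝ (E n))) x :=
    (hd (t • x)).hasFDerivAt.comp x ((hasFDerivAt_id x).const_smul t)
  have h2 : HasFDerivAt (fun y => u (t • y)) (t ^ β • fderiv ℝ u x) x := by
    have : (fun y => u (t • y)) = fun y => t ^ β * u y := funext fun y => hom y t ht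
    rw [this]; exact (hd x).hasFDerivAt.const_mul _
  have h3 := congrArg (fun L => L e) (h1.unique h2)
  have h4 : t ^ β = t * t ^ (β - 1) := by
    rw [mul_comm, ← Real.rpow_add_one ht.ne']; simp
  simp only [ContinuousLinearMap.comp_apply, _root_.smul_apply, ContinuousLinearMap.id_apply,
    map_smul, smul_eq_mul] at h3
  rw [h4, mul_assoc] at h3
  exact mul_left_cancel₀ ht.ne' h3

lemma lip_bound {u : E n → ℝ} (h2 : ContDiffOn ℝ 2 u {0}ᶜ) {e ξ : E n} (hξ : ‖ξ‖ = 1)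
    (hH : ∀ x, x ≠ 0 → ⟪ξ, x⟫ = 0 → 0 ≤ fderiv ℝ u x e) :
    ∃ C : ℝ, 0 ≤ C ∧ ∀ x : E n, ‖x‖ = 1 / 2 → 0 ≤ ⟪ξ, x⟫ → ⟪ξ, x⟫ ≤ 1 / 4 →
      -(C * ⟪ξ, x⟫) ≤ fderiv ℝ u x e := by
  set v : E n → ℝ := fun y => fderiv ℝ u y e with hv
  have hv1 : ∀ y : E n, y ≠ 0 → ContDiffAt ℝ 1 v y := fun y hy =>
    ((h2.contDiffAt (isOpen_compl_singleton.mem_nhds hy)).fderiv_right (m := 1)
      (by norm_num)).clm_apply contDiffAt_const
  set A : Set (E n) := closedBall 0 1 \ ball 0 (1 / 4) with hA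
  have hAc : IsCompact A := (isCompact_closedBall 0 1).diff isOpen_ball
  have hA0 : ∀ y ∈ A, y ≠ 0 := by
    rintro y hy rfl
    exact hy.2 (by simp)
  obtain ⟨C, hC⟩ := hAc.exists_bound_of_continuousOn (f := fderiv ℝ v) (fun y hy =>
    (((hv1 y (hA0 y hy)).fderiv_right (m := 0) (by norm_num)).continuousAt).continuousWithinAt)
  refine ⟨max C 0, le_max_right _ _, fun x hx h0 h1 => ?_⟩
  set τ := ⟪ξ, x⟫ with hτ
  have hs : closedBall x τ ⊆ A := by
    intro y hy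
    have a1 := abs_le.1 ((abs_norm_sub_norm_le y x).trans (mem_closedBall_iff_norm.1 hy))
    constructor
    · rw [mem_closedBall_zero_iff]; linarith [a1.2]
    · rw [mem_ball_zero_iff]; linarith [a1.1]
  have hy : x - τ • ξ ∈ closedBall x τ := by
    rw [mem_closedBall_iff_norm]; simp [norm_smul, hξ, abs_of_nonneg h0]
  have hm := (convex_closedBall x τ).norm_image_sub_le_of_norm_fderiv_le (𝕜 := ℝ) (f := v)
    (C := max C 0) (fun y hy => (hv1 y (hA0 y (hs hy))).differentiableAt (by simp))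
    (fun y hy => (hC y (hs hy)).trans (le_max_left _ _)) (mem_closedBall_self h0) hy
  have e1 : ‖x - τ • ξ - x‖ = τ := by simp [norm_smul, hξ, abs_of_nonneg h0]
  rw [e1, Real.norm_eq_abs] at hm
  have e2 : 0 ≤ v (x - τ • ξ) := hH _ (hA0 _ (hs hy)) (by
    rw [inner_sub_right, inner_smul_right, real_inner_self_eq_norm_sq, hξ]; simp [hτ])
  have := (abs_le.1 hm).2
  change -(max C 0 * τ) ≤ v x
  linarith

lemma rpow_tangent {α τ σ : ℝ} (h0 : 0 < α) (h1 : α < 1) (hτ : 0 < τ) (hσ : 0 < σ) :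
    τ ^ α ≤ (1 - α) * σ ^ α + α * (σ ^ α / σ) * τ ∧
      (τ ≠ σ → τ ^ α < (1 - α) * σ ^ α + α * (σ ^ α / σ) * τ) := by
  have hs : -1 ≤ τ / σ - 1 := by have := div_pos hτ hσ; linarith
  have hp : 0 < σ ^ α := Real.rpow_pos_of_pos hσ _
  have e1 : τ ^ α = σ ^ α * (1 + (τ / σ - 1)) ^ α := by
    rw [← Real.mul_rpow hσ.le (by linarith)]; congr 1; field_simp; ring
  have e2 : (1 - α) * σ ^ α + α * (σ ^ α / σ) * τ = σ ^ α * (1 + α * (τ / σ - 1)) := by
    field_simp; ring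
  rw [e1, e2]
  refine ⟨mul_le_mul_of_nonneg_left (rpow_one_add_le_one_add_mul_self hs h0.le h1.le) hp.le,
    fun hne => mul_lt_mul_of_pos_left (rpow_one_add_lt_one_add_mul_self hs ?_ h0 h1) hp⟩
  intro h
  apply hne
  field_simp at h
  linarith

/-- Half-space lemma. -/
lemma half_space {lam Lam β : ℝ} {F : Mat n → ℝ} {u : E n → ℝ} (hlam : 0 < lam) (hLam : lam ≤ Lam)
    (hF : UnifElliptic lam Lam F) (hu : IsViscSol F u) (h2 : ContDiffOn ℝ 2 u {0}ᶜ)
    (hβ1 : 1 < β) (hβ2 : β < 2) (hom : ∀ x, ∀ t : ℝ, 0 < t → u (t • x) = t ^ β * u x)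
    {e ξ : E n} (he : e ≠ 0) (hξ : ‖ξ‖ = 1)
    (hH : ∀ x, x ≠ 0 → ⟪ξ, x⟫ = 0 → 0 ≤ fderiv ℝ u x e) :
    ∀ x, 0 < ⟪ξ, x⟫ → 0 ≤ fderiv ℝ u x e := by
  have hd := hom_differentiable hβ1 h2 hom
  set α := β - 1 with hα
  have hα0 : 0 < α := by linarith
  have hα1 : α < 1 := by linarith
  obtain ⟨C, hC0, hC⟩ := lip_bound h2 hξ hH
  have scale : ∀ x : E n, 0 < ⟪ξ, x⟫ → ∃ y : E n, ∃ t : ℝ, 0 < t ∧ ‖y‖ = 1 / 2 ∧ x = t • y ∧
      0 < ⟪ξ, y⟫ := by
    intro x hx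
    have hx0 : x ≠ 0 := by rintro rfl; simp at hx
    have hn : 0 < ‖x‖ := norm_pos_iff.2 hx0
    refine ⟨(2 * ‖x‖)⁻¹ • x, 2 * ‖x‖, by positivity, ?_, ?_, ?_⟩
    · rw [norm_smul, Real.norm_of_nonneg (by positivity)]; field_simp
    · rw [smul_inv_smul₀ (by positivity)]
    · rw [inner_smul_right]; positivity
  by_contra hcon
  push Not at hcon
  obtain ⟨x0, hx0, hv0⟩ := hcon
  obtain ⟨x1, t1, ht1, hn1, rfl, hτ1⟩ := scale x0 hx0
  rw [hom_fderiv hd hom x1 e ht1] at hv0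
  have hv1 : fderiv ℝ u x1 e < 0 := by
    by_contra h; push Not at h
    have := mul_nonneg (Real.rpow_pos_of_pos ht1 (β - 1)).le h
    linarith
  set m1 := -(fderiv ℝ u x1 e / ⟪ξ, x1⟫ ^ α) with hm1
  have hm10 : 0 < m1 := neg_pos.2 (div_neg_of_neg_of_pos hv1 (Real.rpow_pos_of_pos hτ1 _))
  have hcont : ContinuousAt (fun t : ℝ => C * t ^ (1 - α)) 0 :=
    continuousAt_const.mul (continuousAt_id.rpow_const (Or.inr (by linarith)))
  have hev : ∀ᶠ t : ℝ in 𝓝 0, C * t ^ (1 - α) < m1 :=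
    hcont.eventually (gt_mem_nhds (by
      simpa [Real.zero_rpow (by linarith : 1 - α ≠ 0)] using hm10))
  obtain ⟨r, hr, hrb⟩ := Metric.eventually_nhds_iff_ball.1 hev
  set τ0 := min (min r (1 / 4)) ⟪ξ, x1⟫ with hτ0
  have hτ00 : 0 < τ0 := lt_min (lt_min hr (by norm_num)) hτ1
  set K : Set (E n) := sphere 0 (1 / 2) ∩ {y | τ0 ≤ ⟪ξ, y⟫} with hK
  have hKc : IsCompact K :=
    (isCompact_sphere 0 _).inter_right (isClosed_le continuous_const (by fun_prop))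
  have hx1K : x1 ∈ K := ⟨by simpa using hn1, (min_le_right _ _ : τ0 ≤ ⟪ξ, x1⟫)⟩
  have hρc : ContinuousOn (fun y => fderiv ℝ u y e / ⟪ξ, y⟫ ^ α) K := by
    intro y hy
    have hy1 : 0 < ⟪ξ, y⟫ := lt_of_lt_of_le hτ00 hy.2
    have hy0 : y ≠ 0 := by rintro rfl; simp at hy1
    have hc : ContinuousAt (fderiv ℝ u) y :=
      ((h2.contDiffAt (isOpen_compl_singleton.mem_nhds hy0)).fderiv_right (m := 1)
        (by norm_num)).continuousAt
    have hc1 : ContinuousAt (fun y : E n => ⟪ξ, y⟫) y := by fun_prop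
    exact (ContinuousAt.div (by fun_prop) (hc1.rpow_const (Or.inl hy1.ne'))
      (Real.rpow_pos_of_pos hy1 _).ne').continuousWithinAt
  obtain ⟨xs, hxs, hmin⟩ := hKc.exists_isMinOn ⟨x1, hx1K⟩ hρc
  set σ := ⟪ξ, xs⟫ with hσ
  have hσ0 : 0 < σ := lt_of_lt_of_le hτ00 hxs.2
  have hxsn : ‖xs‖ = 1 / 2 := by simpa using hxs.1
  have hσ1 : σ ≤ 1 / 2 := by
    have := real_inner_le_norm ξ xs
    rw [hξ, hxsn] at this; linarith
  set m := -(fderiv ℝ u xs e / σ ^ α) with hm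
  have hmm : m1 ≤ m := neg_le_neg (hmin hx1K)
  have hm0 : 0 < m := by linarith
  have hlow : ∀ x, 0 < ⟪ξ, x⟫ → -(m * ⟪ξ, x⟫ ^ α) ≤ fderiv ℝ u x e := by
    intro x hx
    obtain ⟨y, t, ht, hn, rfl, hτ⟩ := scale x hx
    have hp := Real.rpow_pos_of_pos hτ α
    have hy : -(m * ⟪ξ, y⟫ ^ α) ≤ fderiv ℝ u y e := by
      by_cases hc : τ0 ≤ ⟪ξ, y⟫
      · have h1 : -m ≤ fderiv ℝ u y e / ⟪ξ, y⟫ ^ α := by
          rw [hm, neg_neg]; exact hmin (⟨by simpa using hn, hc⟩ : y ∈ K)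
        rw [le_div_iff₀ hp] at h1
        linarith
      · push Not at hc
        have c1 : ⟪ξ, y⟫ < r := lt_of_lt_of_le hc ((min_le_left _ _).trans (min_le_left _ _))
        have c2 : ⟪ξ, y⟫ ≤ 1 / 4 := hc.le.trans ((min_le_left _ _).trans (min_le_right _ _))
        have c3 := hC y hn hτ.le c2
        have c4 := hrb ⟪ξ, y⟫ (by simpa [abs_of_pos hτ] using c1)
        have c5 : ⟪ξ, y⟫ = ⟪ξ, y⟫ ^ (1 - α) * ⟪ξ, y⟫ ^ α := by
          rw [← Real.rpow_add hτ]; simp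
        have c6 : C * ⟪ξ, y⟫ ≤ m * ⟪ξ, y⟫ ^ α := by
          calc C * ⟪ξ, y⟫ = C * ⟪ξ, y⟫ ^ (1 - α) * ⟪ξ, y⟫ ^ α := by rw [mul_assoc, ← c5]
            _ ≤ m * ⟪ξ, y⟫ ^ α := mul_le_mul_of_nonneg_right (by linarith) hp.le
        linarith
    rw [hom_fderiv hd hom y e ht, inner_smul_right, Real.mul_rpow ht.le hτ.le]
    have := mul_le_mul_of_nonneg_left hy (Real.rpow_pos_of_pos ht α).le
    linarith
  have hσp : 0 < σ ^ α := Real.rpow_pos_of_pos hσ0 _
  have hl : ∀ y : E n, -(m * ((1 - α) * σ ^ α)) + ⟪(-(m * (α * (σ ^ α / σ)))) • ξ, y⟫ =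
      -(m * ((1 - α) * σ ^ α + α * (σ ^ α / σ) * ⟪ξ, y⟫)) := by
    intro y; rw [real_inner_smul_left]; ring
  have hy0τ : ⟪ξ, xs + (σ / 4) • ξ⟫ = σ + σ / 4 := by
    rw [inner_add_right, inner_smul_right, real_inner_self_eq_norm_sq, hξ]; simp [hσ]
  have hdist : ‖xs - (xs + (σ / 4) • ξ)‖ = σ / 4 := by
    simp [norm_smul, hξ, abs_of_pos hσ0]
  have hballτ : ∀ y ∈ ball (xs + (σ / 4) • ξ) (σ / 2), 0 < ⟪ξ, y⟫ := by
    intro y hy
    have h1 := abs_real_inner_le_norm ξ (y - (xs + (σ / 4) • ξ))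
    rw [inner_sub_right, hy0τ, hξ, one_mul] at h1
    have h3 := mem_ball_iff_norm.1 hy
    have := (abs_le.1 h1).1
    linarith
  have hfin := smp' hlam hLam hF hu h2 hd (b := (-(m * (α * (σ ^ α / σ)))) • ξ)
    (c := -(m * ((1 - α) * σ ^ α))) (y0 := xs + (σ / 4) • ξ) (R1 := σ / 2) (xs := xs) he
    (fun y hy => by
      have h3 := mem_ball_iff_norm.1 hy
      have h4 := norm_add_le (y - (xs + (σ / 4) • ξ)) (xs + (σ / 4) • ξ)
      have h5 := norm_add_le xs ((σ / 4) • ξ)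
      rw [norm_smul, hξ, Real.norm_of_nonneg (by positivity), hxsn] at h5
      rw [sub_add_cancel] at h4
      rw [mem_ball_zero_iff]; linarith)
    (fun y hy => by
      rw [hl]
      have h1 := hlow y (hballτ y hy)
      have h3 := mul_le_mul_of_nonneg_left (rpow_tangent hα0 hα1 (hballτ y hy) hσ0).1 hm0.le
      linarith)
    (by intro h; rw [h] at hy0τ; simp at hy0τ; linarith)
    (by
      rw [hl]
      have hp : 0 < ⟪ξ, xs + (σ / 4) • ξ⟫ := by rw [hy0τ]; linarith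
      have h1 := hlow _ hp
      have h3 := mul_lt_mul_of_pos_left ((rpow_tangent hα0 hα1 hp hσ0).2
        (by rw [hy0τ]; linarith)) hm0
      linarith)
    (by rw [mem_ball_iff_norm, hdist]; linarith)
  rw [hl, ← hσ] at hfin
  have e1 : (1 - α) * σ ^ α + α * (σ ^ α / σ) * σ = σ ^ α := by field_simp; ring
  have e2 : m * σ ^ α = -fderiv ℝ u xs e := by rw [hm]; field_simp
  rw [e1, e2] at hfin
  linarith

/-- If a directional derivative has a sign on a hyperplane through the origin, then `u = 0`. -/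
theorem sign_change {lam Lam β : ℝ} {F : Mat n → ℝ} {u : E n → ℝ} (hlam : 0 < lam)
    (hLam : lam ≤ Lam) (hF : UnifElliptic lam Lam F) (hu : IsViscSol F u)
    (h2 : ContDiffOn ℝ 2 u {0}ᶜ) (hβ1 : 1 < β) (hβ2 : β < 2)
    (hom : ∀ x, ∀ t : ℝ, 0 < t → u (t • x) = t ^ β * u x) {e ξ : E n} (he : e ≠ 0) (hξ : ξ ≠ 0)
    (hH : ∀ x, x ≠ 0 → ⟪ξ, x⟫ = 0 → 0 ≤ fderiv ℝ u x e) : ∀ x, u x = 0 := by
  have hd := hom_differentiable hβ1 h2 hom
  have hz : fderiv ℝ u 0 = 0 := (hom_hasFDerivAt_zero hβ1 h2 hom).fderiv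
  have hn : 0 < ‖ξ‖ := norm_pos_iff.2 hξ
  have hall : ∀ x, 0 ≤ fderiv ℝ u x e := by
    intro x
    rcases lt_trichotomy 0 ⟪ξ, x⟫ with h | h | h
    · refine half_space hlam hLam hF hu h2 hβ1 hβ2 hom he (ξ := ‖ξ‖⁻¹ • ξ)
        (by simp [norm_smul, hn.ne']) (fun y hy h0 => hH y hy ?_) x ?_
      · rw [real_inner_smul_left] at h0
        exact (mul_eq_zero.1 h0).resolve_left (inv_ne_zero hn.ne')
      · rw [real_inner_smul_left]; positivity
    · by_cases hx : x = 0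
      · subst hx; simp [hz]
      · exact hH x hx h.symm
    · refine half_space hlam hLam hF hu h2 hβ1 hβ2 hom he (ξ := -‖ξ‖⁻¹ • ξ)
        (by simp [norm_smul, hn.ne']) (fun y hy h0 => hH y hy ?_) x ?_
      · rw [real_inner_smul_left] at h0
        exact (mul_eq_zero.1 h0).resolve_left (neg_ne_zero.2 (inv_ne_zero hn.ne'))
      · rw [real_inner_smul_left]
        exact mul_pos_of_neg_of_neg (neg_neg_of_pos (inv_pos.2 hn)) h
  have hzero : ∀ x, fderiv ℝ u x e = 0 := by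
    intro x
    by_contra hne
    have hx0 : x ≠ 0 := by rintro rfl; simp [hz] at hne
    have hxn : 0 < ‖x‖ := norm_pos_iff.2 hx0
    have ht : 0 < (4 * ‖x‖)⁻¹ := by positivity
    have hn4 : ‖(4 * ‖x‖)⁻¹ • x‖ = 1 / 4 := by
      rw [norm_smul, Real.norm_of_nonneg ht.le]; field_simp
    have hfin := smp' hlam hLam hF hu h2 hd (b := 0) (c := 0) (y0 := (4 * ‖x‖)⁻¹ • x)
      (R1 := 1 / 2) (xs := 0) he
      (fun y hy => by
        have h3 := mem_ball_iff_norm.1 hy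
        have h4 := norm_add_le (y - (4 * ‖x‖)⁻¹ • x) ((4 * ‖x‖)⁻¹ • x)
        rw [sub_add_cancel, hn4] at h4
        rw [mem_ball_zero_iff]; linarith)
      (fun y _ => by simpa using hall y) (smul_ne_zero ht.ne' hx0)
      (by
        rw [hom_fderiv hd hom x e ht]
        simpa using mul_pos (Real.rpow_pos_of_pos ht (β - 1))
          (lt_of_le_of_ne (hall x) (Ne.symm hne)))
      (by rw [mem_ball_iff_norm, zero_sub, norm_neg, hn4]; norm_num)
    simp [hz] at hfin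
  have hper : (fun y => u (y + e)) = u := by
    funext y
    have h1 := line_incr hd y e 0 0 0 1 zero_le_one (fun t _ => by simp [hzero])
    have h3 := line_incr hd (y + e) (-e) 0 0 0 1 zero_le_one (fun t _ => by simp [hzero])
    simp at h1 h3
    linarith
  have hper' : ∀ y, fderiv ℝ u (y + e) = fderiv ℝ u y := by
    intro y; rw [← fderiv_comp_add_right e, hper]
  have hde : DifferentiableAt ℝ (fderiv ℝ u) e :=
    ((h2.contDiffAt (isOpen_compl_singleton.mem_nhds he)).fderiv_right (m := 1)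
      (by norm_num)).differentiableAt (by simp)
  have hd0 : DifferentiableAt ℝ (fderiv ℝ u) 0 := by
    have h1 : DifferentiableAt ℝ (fun y => fderiv ℝ u (y + e)) 0 :=
      DifferentiableAt.comp (g := fderiv ℝ u) 0 (by simpa using hde) (by fun_prop)
    simpa [hper'] using h1
  have hD : ∀ x, fderiv ℝ u x = 0 := by
    intro x
    ext w
    have h1 : DifferentiableAt ℝ (fun t : ℝ => fderiv ℝ u (t • x) w) 0 :=
      (DifferentiableAt.comp (g := fderiv ℝ u) 0 (by simpa using hd0) (by fun_prop)).clm_apply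
        (differentiableAt_const w)
    have h3 := h1.hasDerivAt.tendsto_slope_zero_right
    have h4 : Tendsto (fun t : ℝ => t ^ (2 - β)) (𝓝[>] 0) (𝓝 0) := by
      have : ContinuousAt (fun t : ℝ => t ^ (2 - β)) 0 :=
        continuousAt_id.rpow_const (Or.inr (by linarith))
      have h5 := this.tendsto.mono_left (nhdsWithin_le_nhds (s := Ioi 0))
      rwa [Real.zero_rpow (by linarith)] at h5
    have h5 := h4.mul h3
    rw [zero_mul] at h5
    have h6 : Tendsto (fun _ : ℝ => fderiv ℝ u x w) (𝓝[>] 0) (𝓝 0) := by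
      refine h5.congr' ?_
      filter_upwards [self_mem_nhdsWithin] with t ht
      have ht' : 0 < t := ht
      simp only [zero_add, zero_smul, hz, smul_eq_mul]
      rw [hom_fderiv hd hom x w ht']
      have : t ^ (2 - β) * t ^ (β - 1) = t := by
        rw [← Real.rpow_add ht']; norm_num
      simp only [_root_.zero_apply, sub_zero]
      calc t ^ (2 - β) * (t⁻¹ * (t ^ (β - 1) * fderiv ℝ u x w))
          = (t ^ (2 - β) * t ^ (β - 1)) * t⁻¹ * fderiv ℝ u x w := by ring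
        _ = fderiv ℝ u x w := by rw [this, mul_inv_cancel₀ ht'.ne', one_mul]
    exact tendsto_nhds_unique tendsto_const_nhds h6
  intro x
  rw [is_const_of_fderiv_eq_zero hd hD x 0, hom_zero hβ1 hom]

end Pool.Agent.P.MP_f12b6c_an
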