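import Pool.Agent.P.MP_f12b6c_an.S4Hess

/-! From the coordinate form of the pair condition to the matrix form. -/

namespace Pool.Agent.P.MP_f12b6c_an

theorem s4b_dot (a h : Ten ℝ) : (a.mat * h.mat).trace = dotR a h := by
  simp [Matrix.trace, Fin.sum_univ_four, Ten.mat, dotR]
  ring

theorem s4b_Q (a : Ten ℝ) : (a.mat * Qh).trace = 14 * (a.f00 + a.f11) - 40 * (a.f22 + a.f33) := by
  simp [Matrix.trace, Fin.sum_univ_four, Ten.mat, Qh]
  ring

theorem s4b_tr (a : Ten ℝ) : a.mat.trace = a.f00 + a.f11 + a.f22 + a.f33 := by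
  simp [Matrix.trace, Fin.sum_univ_four, Ten.mat]

theorem s4b_quad (a : Ten ℝ) (v : Fin 4 → ℝ) :
    v ⬝ᵥ a.mat.mulVec v = quadR a (v 0) (v 1) (v 2) (v 3) := by
  simp [Matrix.mulVec, dotProduct, Fin.sum_univ_four, Ten.mat, quadR]
  ring

theorem s4b_herm (a : Ten ℝ) : a.mat.IsHermitian := by
  ext i j
  fin_cases i <;> fin_cases j <;> simp [Ten.mat]

theorem pair_of_pairOK (x y : E 4) (hx : x ≠ 0) (hy : y ≠ 0)
    (h : PairOK (x 0) (x 1) (x 2) (x 3) (y 0) (y 1) (y 2) (y 3)) : Pair x y := by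
  obtain ⟨a, ⟨h1, h2, h3⟩, h4⟩ := h
  refine ⟨(65536 / (a.f00 + a.f11 + a.f22 + a.f33)) • a.mat, ?_, ?_, ?_⟩
  · refine Matrix.PosSemidef.of_dotProduct_mulVec_nonneg
      (((s4b_herm a).smul (IsSelfAdjoint.all _)).sub Matrix.isHermitian_one) fun v => ?_
    have e : v ⬝ᵥ v = sq4 (v 0) (v 1) (v 2) (v 3) := by
      simp [dotProduct, Fin.sum_univ_four, sq4, sq]
    rw [star_trivial, Matrix.sub_mulVec, Matrix.smul_mulVec, Matrix.one_mulVec, dotProduct_sub,
      dotProduct_smul, s4b_quad, e, smul_eq_mul, sub_nonneg, div_mul_eq_mul_div, le_div_iff₀ h2,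
      mul_comm]
    exact h3 _ _ _ _
  · rw [Matrix.trace_smul, s4b_tr, smul_eq_mul, div_mul_cancel₀ _ h2.ne']
  · rw [Matrix.smul_mul, Matrix.trace_smul, smul_eq_mul]
    refine mul_nonneg (by positivity) ?_
    rw [hess_U4 x hx, hess_U4 y hy, Matrix.mul_sub, Matrix.mul_add, Matrix.mul_add,
      Matrix.trace_sub, Matrix.trace_add, Matrix.trace_add, Matrix.mul_smul, Matrix.mul_smul,
      Matrix.trace_smul, Matrix.trace_smul, s4b_dot, s4b_dot, s4b_Q,
      show 14 * (a.f00 + a.f11) - 40 * (a.f22 + a.f33) = 0 by linarith]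
    simpa using h4

end Pool.Agent.P.MP_f12b6c_an
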