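import Pool.Agent.P.MP_f12b6c_an.Touch

/-! Construction of a uniformly elliptic operator vanishing on a given set of matrices. -/

namespace Pool.Agent.P.MP_f12b6c_an

open Matrix
open scoped MatrixOrder

lemma s4f_entry {n : ℕ} (N : Mat n) (i j : Fin n) : |N i j| ≤ opNorm N := by
  have h := (Matrix.toEuclideanCLM (n := Fin n) (𝕜 := ℝ) N).le_opNorm (EuclideanSpace.single j 1)
  have h2 := PiLp.norm_apply_le
    (Matrix.toEuclideanCLM (n := Fin n) (𝕜 := ℝ) N (EuclideanSpace.single j 1)) i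
  rw [ofLp_toEuclideanCLM] at h2
  have h3 := h2.trans h
  simpa [opNorm] using h3

lemma s4f_op_le_trace {n : ℕ} {N : Mat n} (hN : N.PosSemidef) : opNorm N ≤ N.trace := by
  obtain ⟨B, rfl⟩ := CStarAlgebra.nonneg_iff_eq_star_mul_self.mp hN.nonneg
  have e : (star B * B).trace = ∑ i, ∑ j, B i j ^ 2 := by
    rw [Finset.sum_comm]
    simp [Matrix.trace, Matrix.mul_apply, sq]
  have ht : 0 ≤ ∑ i, ∑ j, B i j ^ 2 := by positivity
  unfold opNorm
  rw [map_mul, map_star]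
  refine (ContinuousLinearMap.norm_adjoint_comp_self
    (Matrix.toEuclideanCLM (n := Fin n) (𝕜 := ℝ) B)).le.trans ?_
  rw [e, ← sq, ← Real.le_sqrt (norm_nonneg _) ht]
  refine ContinuousLinearMap.opNorm_le_bound _ (Real.sqrt_nonneg _) fun x => ?_
  rw [EuclideanSpace.norm_eq, EuclideanSpace.norm_eq, ← Real.sqrt_mul ht, Finset.sum_mul]
  refine Real.sqrt_le_sqrt (Finset.sum_le_sum fun i _ => ?_)
  rw [ofLp_toEuclideanCLM]
  simp only [Real.norm_eq_abs, sq_abs]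
  exact Finset.sum_mul_sq_le_sq_mul_sq Finset.univ (B i) x.ofLp

lemma s4f_trace_mul {n : ℕ} {P N : Mat n} (hP : P.PosSemidef) (hN : N.PosSemidef) :
    0 ≤ (P * N).trace := by
  obtain ⟨B, rfl⟩ := CStarAlgebra.nonneg_iff_eq_star_mul_self.mp hN.nonneg
  rw [← mul_assoc, trace_mul_comm, ← mul_assoc]
  exact (hP.mul_mul_conjTranspose_same B).trace_nonneg

lemma s4f_upper {n : ℕ} {A : Mat n} {K : ℝ} (hA : (A - 1).PosSemidef) (hK : A.trace ≤ K)
    (X : Mat n) : (A * X).trace ≤ ∑ i, ∑ j, K * |X j i| := by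
  have h1 : A.PosSemidef := by simpa using hA.add PosSemidef.one
  simp only [Matrix.trace, diag_apply, Matrix.mul_apply]
  refine Finset.sum_le_sum fun i _ => Finset.sum_le_sum fun j _ => (le_abs_self _).trans ?_
  rw [abs_mul]
  exact mul_le_mul_of_nonneg_right (((s4f_entry A i j).trans (s4f_op_le_trace h1)).trans hK)
    (abs_nonneg _)

lemma s4f_ell {n : ℕ} {A N : Mat n} {K : ℝ} (hA : (A - 1).PosSemidef) (hK : A.trace ≤ K)
    (hN : N.PosSemidef) :
    opNorm N ≤ (A * N).trace ∧ (A * N).trace ≤ max 1 (K * n ^ 2) * opNorm N := by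
  have h1 : A.PosSemidef := by simpa using hA.add PosSemidef.one
  have hK0 : 0 ≤ K := h1.trace_nonneg.trans hK
  constructor
  · have h2 := s4f_trace_mul hA hN
    rw [sub_mul, one_mul, trace_sub] at h2
    linarith [s4f_op_le_trace hN]
  · refine (s4f_upper hA hK N).trans (le_trans ?_
      (mul_le_mul_of_nonneg_right (le_max_right _ _) (norm_nonneg _)))
    refine (Finset.sum_le_sum fun i _ => Finset.sum_le_sum fun j _ =>
      mul_le_mul_of_nonneg_left (s4f_entry N j i) hK0).trans (le_of_eq ?_)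
    simp only [Finset.sum_const, Finset.card_univ, Fintype.card_fin, nsmul_eq_mul, opNorm]
    ring

theorem exists_F {n : ℕ} (Sg : Set (Mat n)) (hne : Sg.Nonempty) (K : ℝ)
    (hpair : ∀ N ∈ Sg, ∀ N' ∈ Sg, ∃ A : Mat n, (A - 1).PosSemidef ∧ A.trace ≤ K ∧
      0 ≤ (A * (N - N')).trace) :
    ∃ (lam Lam : ℝ) (F : Mat n → ℝ), 0 < lam ∧ lam ≤ Lam ∧ UnifElliptic lam Lam F ∧
      ∀ N ∈ Sg, F N = 0 := by
  obtain ⟨N₀, hN₀⟩ := hne
  obtain ⟨A₀, hA₀, hK₀, -⟩ := hpair N₀ hN₀ N₀ hN₀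
  let S := {A : Mat n // (A - 1).PosSemidef ∧ A.trace ≤ K}
  have : Nonempty S := ⟨⟨A₀, hA₀, hK₀⟩⟩
  have : Nonempty Sg := ⟨⟨N₀, hN₀⟩⟩
  obtain ⟨G, hle, hge⟩ : ∃ G : Mat n → ℝ, (∀ (A : S) X, (A.1 * X).trace ≤ G X) ∧
      ∀ X c, (∀ A : S, (A.1 * X).trace ≤ c) → G X ≤ c :=
    ⟨fun X => ⨆ A : S, (A.1 * X).trace, fun A X => le_ciSup (f := fun A : S => (A.1 * X).trace)
      ⟨_, by rintro _ ⟨B, rfl⟩; exact s4f_upper B.2.1 B.2.2 X⟩ A, fun X c h => ciSup_le h⟩
  have hadd : ∀ X Y, G (X + Y) ≤ G X + G Y := fun X Y => hge _ _ fun A => by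
    rw [mul_add, trace_add]
    exact add_le_add (hle A X) (hle A Y)
  have hp : ∀ N ∈ Sg, ∀ N' ∈ Sg, 0 ≤ G (N - N') := fun N hN N' hN' => by
    obtain ⟨A, h1, h2, h3⟩ := hpair N hN N' hN'
    exact h3.trans (hle ⟨A, h1, h2⟩ _)
  obtain ⟨F, fle, fge⟩ : ∃ F : Mat n → ℝ, (∀ M, ∀ N : Sg, F M ≤ G (M - N)) ∧
      ∀ M c, (∀ N : Sg, c ≤ G (M - N)) → c ≤ F M := by
    refine ⟨fun M => ⨅ N : Sg, G (M - N), fun M N => ciInf_le (f := fun N : Sg => G (M - N))
      ⟨-G (N₀ - M), ?_⟩ N, fun M c h => le_ciInf h⟩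
    rintro _ ⟨N', rfl⟩
    have h1 := hadd (N₀ - M) (M - N')
    rw [sub_add_sub_cancel] at h1
    linarith [hp N₀ hN₀ N' N'.2]
  refine ⟨1, max 1 (K * n ^ 2), F, one_pos, le_max_left _ _, fun M N _ hN => ⟨?_, ?_⟩,
    fun N hN => le_antisymm ((fle N ⟨N, hN⟩).trans (hge _ _ fun A => by simp))
      (fge _ _ fun N' => hp N hN N' N'.2)⟩
  · have h1 := fge (M + N) (F M + opNorm N) fun N' => by
      have h2 := hge (M - N') (G (M + N - N') - opNorm N) fun A => by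
        have h3 := hle A (M + N - N')
        rw [add_sub_right_comm, mul_add, trace_add] at h3
        rw [add_sub_right_comm]
        linarith [(s4f_ell A.2.1 A.2.2 hN).1]
      linarith [fle M N']
    linarith
  · have h1 := fge M (F (M + N) - max 1 (K * n ^ 2) * opNorm N) fun N' => by
      have h2 := hge (M + N - N') (G (M - N') + max 1 (K * n ^ 2) * opNorm N) fun A => by
        rw [add_sub_right_comm, mul_add, trace_add]
        exact add_le_add (hle A _) (s4f_ell A.2.1 A.2.2 hN).2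
      linarith [fle (M + N) N']
    linarith

end Pool.Agent.P.MP_f12b6c_an
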