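import Pool.Agent.P.MP_f12b6c_an.S4Poly

/-! Reduction of the pair condition to first points in the two slices. -/

namespace Pool.Agent.P.MP_f12b6c_an

open Matrix

theorem s4s_second {n : ℕ} {f : E n → ℝ} (L : E n ≃L[ℝ] E n) (h : ∀ y, f (L y) = f y)
    (x v w : E n) :
    fderiv ℝ (fderiv ℝ f) x v w = fderiv ℝ (fderiv ℝ f) (L x) (L v) (L w) := by
  have h0 : f ∘ L = f := funext h
  have h1 : fderiv ℝ f = (L.symm.arrowCongr (ContinuousLinearEquiv.refl ℝ ℝ)) ∘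
      (fderiv ℝ f ∘ L) := funext fun y => by
    have h2 := L.comp_right_fderiv (f := f) (x := y)
    rw [h0] at h2
    rw [h2]
    rfl
  have h3 : fderiv ℝ (fderiv ℝ f) x = fderiv ℝ ((L.symm.arrowCongr
      (ContinuousLinearEquiv.refl ℝ ℝ)) ∘ (fderiv ℝ f ∘ L)) x := by rw [← h1]
  rw [h3, ContinuousLinearEquiv.comp_fderiv, L.comp_right_fderiv]
  rfl

/-- The linear map of a matrix. -/
noncomputable def s4sL {n : ℕ} (R : Mat n) : E n →L[ℝ] E n :=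
  Matrix.toEuclideanCLM (n := Fin n) (𝕜 := ℝ) R

theorem s4s_apply {n : ℕ} (R : Mat n) (y : E n) (i : Fin n) : s4sL R y i = ∑ k, R i k * y k := rfl

theorem s4s_inv {n : ℕ} {R S : Mat n} (h : S * R = 1) (y : E n) : s4sL S (s4sL R y) = y := by
  have h1 : s4sL S * s4sL R = 1 := by
    rw [s4sL, s4sL, ← map_mul, h, map_one]
  exact congrArg (fun T : E n →L[ℝ] E n => T y) h1

theorem s4s_single {n : ℕ} (R : Mat n) (i : Fin n) : s4sL R (EuclideanSpace.single i 1) =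
    ∑ k, R k i • (EuclideanSpace.single k 1 : E n) := by
  ext j
  simp [s4s_apply, Pi.single_apply]

theorem s4s_hess {n : ℕ} {f : E n → ℝ} {R : Mat n} (hR : Rᵀ * R = 1)
    (h : ∀ y, f (s4sL R y) = f y) (x : E n) : hess f x = Rᵀ * hess f (s4sL R x) * R := by
  ext i j
  have h1 := s4s_second (f := f) (ContinuousLinearEquiv.equivOfInverse (s4sL R) (s4sL Rᵀ)
    (s4s_inv hR) (s4s_inv (mul_eq_one_comm.1 hR))) h x (EuclideanSpace.single i 1)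
    (EuclideanSpace.single j 1)
  simp only [ContinuousLinearEquiv.equivOfInverse_apply, s4s_single, map_sum, map_smul,
    _root_.sum_apply, _root_.smul_apply, smul_eq_mul] at h1
  simp only [hess, Matrix.of_apply, Matrix.mul_apply, Matrix.transpose_apply, h1]
  exact Finset.sum_congr rfl fun l _ => mul_comm _ _

theorem s4s_pair {R : Mat 4} (hR : Rᵀ * R = 1) (h : ∀ y, U4 (s4sL R y) = U4 y) {x y : E 4}
    (hp : Pair (s4sL R x) (s4sL R y)) : Pair x y := by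
  obtain ⟨A, h1, h2, h3⟩ := hp
  have hR' : R * Rᵀ = 1 := mul_eq_one_comm.1 hR
  refine ⟨Rᵀ * A * R, ?_, ?_, ?_⟩
  · have h4 := h1.conjTranspose_mul_mul_same R
    rwa [Matrix.conjTranspose_eq_transpose_of_trivial, Matrix.mul_sub, Matrix.sub_mul,
      Matrix.mul_one, hR] at h4
  · rwa [Matrix.trace_mul_cycle, hR', Matrix.one_mul]
  · rw [s4s_hess hR h x, s4s_hess hR h y, ← Matrix.sub_mul, ← Matrix.mul_sub]
    generalize hess U4 (s4sL R x) - hess U4 (s4sL R y) = H at h3 ⊢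
    have e : Rᵀ * A * R * (Rᵀ * H * R) = Rᵀ * (A * H) * R := by
      calc _ = Rᵀ * A * (R * Rᵀ) * H * R := by simp only [Matrix.mul_assoc]
        _ = _ := by simp only [hR', Matrix.mul_one, Matrix.mul_assoc]
    rwa [e, Matrix.trace_mul_cycle, hR', Matrix.one_mul]

/-- The symmetries. -/
def s4sR (c s e : ℝ) : Mat 4 :=
  !![c, -s, 0, 0; e * s, e * c, 0, 0; 0, 0, c ^ 2 - s ^ 2, -(2 * c * s);
    0, 0, e * (2 * c * s), e * (c ^ 2 - s ^ 2)]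

theorem s4s_coord (c s e : ℝ) (y : E 4) : s4sL (s4sR c s e) y 0 = c * y 0 - s * y 1 ∧
    s4sL (s4sR c s e) y 1 = e * (s * y 0 + c * y 1) ∧
    s4sL (s4sR c s e) y 2 = (c ^ 2 - s ^ 2) * y 2 - 2 * c * s * y 3 ∧
    s4sL (s4sR c s e) y 3 = e * (2 * c * s * y 2 + (c ^ 2 - s ^ 2) * y 3) := by
  refine ⟨?_, ?_, ?_, ?_⟩ <;> simp [s4s_apply, s4sR, Fin.sum_univ_four] <;> ring

theorem s4s_orth {c s e : ℝ} (h : c ^ 2 + s ^ 2 = 1) (he : e = 1 ∨ e = -1) :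
    (s4sR c s e)ᵀ * s4sR c s e = 1 := by
  have h2 : (c ^ 2 - s ^ 2) ^ 2 + (2 * c * s) ^ 2 = 1 := by
    linear_combination (c ^ 2 + s ^ 2 + 1) * h
  ext i j
  rcases he with rfl | rfl <;> fin_cases i <;> fin_cases j <;>
    simp [s4sR, Matrix.mul_apply, Fin.sum_univ_four] <;>
    first | ring1 | linear_combination h | linear_combination h2

theorem s4s_sq {c s e : ℝ} (h : c ^ 2 + s ^ 2 = 1) (he : e = 1 ∨ e = -1) (y : E 4) :
    s4sL (s4sR c s e) y 0 ^ 2 + s4sL (s4sR c s e) y 1 ^ 2 = y 0 ^ 2 + y 1 ^ 2 ∧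
    s4sL (s4sR c s e) y 2 ^ 2 + s4sL (s4sR c s e) y 3 ^ 2 = y 2 ^ 2 + y 3 ^ 2 := by
  obtain ⟨h0, h1, h2, h3⟩ := s4s_coord c s e y
  rw [h0, h1, h2, h3]
  rcases he with rfl | rfl <;> constructor <;>
    first
    | linear_combination (y 0 ^ 2 + y 1 ^ 2) * h
    | linear_combination (y 2 ^ 2 + y 3 ^ 2) * (c ^ 2 + s ^ 2 + 1) * h

theorem s4s_U4 {c s e : ℝ} (h : c ^ 2 + s ^ 2 = 1) (he : e = 1 ∨ e = -1) (y : E 4) :
    U4 (s4sL (s4sR c s e) y) = U4 y := by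
  obtain ⟨a1, a2⟩ := s4s_sq h he y
  have a3 : ‖s4sL (s4sR c s e) y‖ = ‖y‖ := by
    rw [EuclideanSpace.norm_eq, EuclideanSpace.norm_eq]
    simp only [Fin.sum_univ_four, Real.norm_eq_abs, sq_abs]
    congr 1
    linarith
  obtain ⟨h0, h1, h2, h3⟩ := s4s_coord c s e y
  have a4 : (s4sL (s4sR c s e) y 0 ^ 2 - s4sL (s4sR c s e) y 1 ^ 2) * s4sL (s4sR c s e) y 2 +
      2 * s4sL (s4sR c s e) y 0 * s4sL (s4sR c s e) y 1 * s4sL (s4sR c s e) y 3 =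
      (y 0 ^ 2 - y 1 ^ 2) * y 2 + 2 * y 0 * y 1 * y 3 := by
    rw [h0, h1, h2, h3]
    rcases he with rfl | rfl <;>
      linear_combination ((y 0 ^ 2 - y 1 ^ 2) * y 2 + 2 * y 0 * y 1 * y 3) *
        (c ^ 2 + s ^ 2 + 1) * h
  rw [U4, U4, a1, a2, a3, a4]

theorem s4s_sign (t : ℝ) : ∃ e : ℝ, (e = 1 ∨ e = -1) ∧ 0 ≤ e * t := by
  rcases le_total 0 t with h | h
  · exact ⟨1, Or.inl rfl, by linarith⟩
  · exact ⟨-1, Or.inr rfl, by linarith⟩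

theorem s4s_polar {a b : ℝ} (h : 0 < a ^ 2 + b ^ 2) :
    ∃ ρ p q : ℝ, 0 < ρ ∧ p ^ 2 + q ^ 2 = 1 ∧ a = ρ * p ∧ b = ρ * q := by
  have h1 := Real.sqrt_pos.2 h
  have h2 := Real.sq_sqrt h.le
  refine ⟨√(a ^ 2 + b ^ 2), a / √(a ^ 2 + b ^ 2), b / √(a ^ 2 + b ^ 2), h1, ?_, ?_, ?_⟩
  · rw [div_pow, div_pow, h2, ← add_div, div_self h.ne']
  · field_simp
  · field_simp

theorem s4s_root {p q : ℝ} (h : p ^ 2 + q ^ 2 = 1) :
    ∃ c s : ℝ, c ^ 2 + s ^ 2 = 1 ∧ c ^ 2 - s ^ 2 = p ∧ 2 * c * s = -q := by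
  obtain ⟨z, hz⟩ := IsAlgClosed.exists_pow_nat_eq (⟨p, -q⟩ : ℂ) two_pos
  have h1 : z.re ^ 2 - z.im ^ 2 = p := by
    simpa [pow_two] using congrArg Complex.re hz
  have h2 : 2 * z.re * z.im = -q := by
    have := congrArg Complex.im hz
    simp only [pow_two, Complex.mul_im] at this
    linarith
  refine ⟨z.re, z.im, ?_, h1, h2⟩
  have h3 : (z.re ^ 2 + z.im ^ 2) ^ 2 = 1 := by
    linear_combination h + (z.re ^ 2 - z.im ^ 2 + p) * h1 + (2 * z.re * z.im - q) * h2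
  exact (pow_eq_one_iff_of_nonneg (by positivity) two_ne_zero).1 h3

theorem s4s_slice {x : E 4} (hx : x ≠ 0) : ∃ c s e : ℝ, c ^ 2 + s ^ 2 = 1 ∧ (e = 1 ∨ e = -1) ∧
    InSlice (s4sL (s4sR c s e) x) := by
  have h0 : 0 < x 0 ^ 2 + x 1 ^ 2 + x 2 ^ 2 + x 3 ^ 2 := by
    have := pow_pos (norm_pos_iff.2 hx) 2
    rwa [EuclideanSpace.real_norm_sq_eq, Fin.sum_univ_four] at this
  rcases le_total (x 2 ^ 2 + x 3 ^ 2) (x 0 ^ 2 + x 1 ^ 2) with h | h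
  · obtain ⟨ρ, p, q, hρ, h1, h2, h3⟩ := s4s_polar (a := x 0) (b := x 1) (by linarith)
    obtain ⟨e, he, h4⟩ := s4s_sign (2 * p * -q * x 2 + (p ^ 2 - (-q) ^ 2) * x 3)
    have h5 : p ^ 2 + (-q) ^ 2 = 1 := by rw [neg_sq, h1]
    obtain ⟨a0, a1, -, a3⟩ := s4s_coord p (-q) e x
    obtain ⟨b1, b2⟩ := s4s_sq h5 he x
    have c1 : s4sL (s4sR p (-q) e) x 1 = 0 := by
      rw [a1, h2, h3]
      ring
    have c0 : s4sL (s4sR p (-q) e) x 0 = ρ := by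
      rw [a0, h2, h3]
      linear_combination ρ * h1
    refine ⟨p, -q, e, h5, he, Or.inl ⟨c1, c0 ▸ hρ, a3 ▸ h4, ?_⟩⟩
    rw [c1] at b1
    linarith
  · obtain ⟨ρ, p, q, hρ, h1, h2, h3⟩ := s4s_polar (a := x 2) (b := x 3) (by linarith)
    obtain ⟨c', s', g1, g2, g3⟩ := s4s_root h1
    obtain ⟨d, hd, g4⟩ := s4s_sign (c' * x 0 - s' * x 1)
    obtain ⟨c, s, k1, k2, k3, k4⟩ : ∃ c s : ℝ, c ^ 2 + s ^ 2 = 1 ∧ c ^ 2 - s ^ 2 = p ∧
        2 * c * s = -q ∧ 0 ≤ c * x 0 - s * x 1 := by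
      rcases hd with rfl | rfl
      · exact ⟨c', s', g1, g2, g3, by linarith⟩
      · exact ⟨-c', -s', by linarith, by linarith, by linarith, by linarith⟩
    obtain ⟨e, he, h4⟩ := s4s_sign (s * x 0 + c * x 1)
    obtain ⟨a0, a1, a2, a3⟩ := s4s_coord c s e x
    obtain ⟨b1, b2⟩ := s4s_sq k1 he x
    have c3 : s4sL (s4sR c s e) x 3 = 0 := by
      rw [a3, k2, k3, h2, h3]
      ring
    have c2 : s4sL (s4sR c s e) x 2 = ρ := by
      rw [a2, k2, k3, h2, h3]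
      linear_combination ρ * h1
    refine ⟨c, s, e, k1, he, Or.inr ⟨c3, c2 ▸ hρ, a0 ▸ k4, a1 ▸ h4, ?_⟩⟩
    rw [c3] at b2
    linarith

theorem pair_all (hs : ∀ x y : E 4, InSlice x → y ≠ 0 → Pair x y) (x y : E 4) (hx : x ≠ 0)
    (hy : y ≠ 0) : Pair x y := by
  obtain ⟨c, s, e, h, he, h1⟩ := s4s_slice hx
  refine s4s_pair (s4s_orth h he) (s4s_U4 h he) (hs _ _ h1 fun h0 => hy ?_)
  rw [← s4s_inv (s4s_orth h he) y, h0, map_zero]

end Pool.Agent.P.MP_f12b6c_an
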