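import Pool.Agent.P.MP_f12b6c_an.Touch

/-! A classical solution off the origin that no test function touches at the origin is a
viscosity solution. -/

namespace Pool.Agent.P.MP_f12b6c_an

open Filter Topology Matrix

theorem s4visc_line {n : ℕ} {ψ : E n → ℝ} {x : E n} (h : ContDiffAt ℝ 2 ψ x) (hm : IsLocalMin ψ x)
    (v : E n) : 0 ≤ fderiv ℝ (fderiv ℝ ψ) x v v := by
  by_contra hq
  set q := fderiv ℝ (fderiv ℝ ψ) x v v with hq'
  have hl : ∀ t : ℝ, HasDerivAt (fun t : ℝ => x + t • v) v t := fun t => by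
    simpa using ((hasDerivAt_id t).smul_const v).const_add x
  have ht : Tendsto (fun t : ℝ => x + t • v) (𝓝 0) (𝓝 x) := by
    simpa using (hl 0).continuousAt.tendsto
  have h1 : ∀ᶠ t : ℝ in 𝓝 0, HasDerivAt (fun t : ℝ => ψ (x + t • v) - q / 4 * t ^ 2)
      (fderiv ℝ ψ (x + t • v) v - q / 2 * t) t := by
    filter_upwards [ht.eventually (h.eventually (by simp))] with t h1
    refine (((h1.differentiableAt (by simp)).hasFDerivAt.comp_hasDerivAt t (hl t)).sub
      ((hasDerivAt_pow 2 t).const_mul (q / 4))).congr_deriv ?_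
    simp
    ring
  have h2 : HasDerivAt (fun t : ℝ => fderiv ℝ ψ (x + t • v) v - q / 2 * t) (q / 2) 0 := by
    have d1 : HasFDerivAt (fderiv ℝ ψ) (fderiv ℝ (fderiv ℝ ψ) x) (x + (0 : ℝ) • v) := by
      simpa using ((h.fderiv_right (m := 1) (by norm_num)).differentiableAt (by simp)).hasFDerivAt
    refine (((d1.comp_hasDerivAt 0 (hl 0)).clm_apply (hasDerivAt_const 0 v)).sub
      ((hasDerivAt_id' (0 : ℝ)).const_mul (q / 2))).congr_deriv ?_
    simp only [map_zero, add_zero, ← hq']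
    ring
  have h3 := isLocalMax_of_deriv_deriv_neg (f := fun t : ℝ => ψ (x + t • v) - q / 4 * t ^ 2)
    (x₀ := 0) (by
      rw [(h2.congr_of_eventuallyEq (h1.mono fun t ht => ht.deriv)).deriv]
      linarith)
    (by simp [h1.self_of_nhds.deriv, hm.fderiv_eq_zero]) h1.self_of_nhds.continuousAt
  obtain ⟨t, ⟨a1, a2⟩, a3⟩ := (((h3.and (ht.eventually hm)).filter_mono
    (nhdsWithin_le_nhds (s := {0}ᶜ))).and self_mem_nhdsWithin).exists
  have a4 : 0 < t ^ 2 := sq_pos_of_ne_zero a3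
  simp only [zero_smul, add_zero] at a1
  nlinarith

theorem s4visc_psd {n : ℕ} {ψ : E n → ℝ} {x : E n} (h : ContDiffAt ℝ 2 ψ x)
    (hm : IsLocalMin ψ x) : (hess ψ x).PosSemidef := by
  refine PosSemidef.of_dotProduct_mulVec_nonneg ?_ fun v => ?_
  · rw [IsHermitian, conjTranspose_eq_transpose_of_trivial]
    exact hess_symm h
  · refine (s4visc_line h hm (∑ i, v i • EuclideanSpace.single i 1)).trans_eq ?_
    simp only [map_sum, map_smul, _root_.sum_apply, _root_.smul_apply,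
      smul_eq_mul, dotProduct, mulVec, hess, of_apply, star_trivial, Finset.mul_sum]
    rw [Finset.sum_comm]
    exact Finset.sum_congr rfl fun i _ => Finset.sum_congr rfl fun j _ => by ring

theorem s4visc_le {n : ℕ} {lam Lam : ℝ} {F : Mat n → ℝ} (hlam : 0 < lam)
    (hF : UnifElliptic lam Lam F) {f g : E n → ℝ} {x : E n} (hf : ContDiffAt ℝ 2 f x)
    (hg : ContDiffAt ℝ 2 g x) (hm : IsLocalMin (fun y => f y + -g y) x) :
    F (hess g x) ≤ F (hess f x) := by
  have h1 := (hF _ _ (hess_symm hg) (s4visc_psd (hf.add hg.neg) hm)).1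
  rw [hess_add hf hg.neg, hess_neg, add_comm (hess f x), add_neg_cancel_left] at h1
  exact sub_nonneg.1 ((mul_nonneg hlam.le (norm_nonneg _)).trans h1)

theorem visc_of_classical {n : ℕ} {lam Lam : ℝ} {F : Mat n → ℝ} {u : E n → ℝ} (hlam : 0 < lam)
    (hF : UnifElliptic lam Lam F) (hc : Continuous u)
    (h2 : ∀ x, x ≠ 0 → ContDiffAt ℝ 2 u x) (h0 : ∀ x, x ≠ 0 → F (hess u x) = 0)
    (hup : ∀ φ : E n → ℝ, ContDiffAt ℝ 2 φ 0 → ¬ IsLocalMax (fun y => u y - φ y) 0)
    (hlo : ∀ φ : E n → ℝ, ContDiffAt ℝ 2 φ 0 → ¬ IsLocalMin (fun y => u y - φ y) 0) :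
    IsViscSol F u := by
  refine ⟨hc.continuousOn, fun x _ φ hφ => ?_⟩
  rcases eq_or_ne x 0 with rfl | hx
  · exact ⟨fun h => (hup φ hφ h).elim, fun h => (hlo φ hφ h).elim⟩
  exact ⟨fun h => (h0 x hx).symm.trans_le (s4visc_le hlam hF hφ (h2 x hx)
      (h.neg.congr (.of_forall fun y => by simp only; ring))),
    fun h => (s4visc_le hlam hF (h2 x hx) hφ
      (h.congr (.of_forall fun y => sub_eq_add_neg _ _))).trans_eq (h0 x hx)⟩

end Pool.Agent.P.MP_f12b6c_an
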