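import Pool.Agent.P.MP_f12b6c_an.S4Defs

/-! Behaviour of `U4` at the origin. -/

namespace Pool.Agent.P.MP_f12b6c_an

open Filter Topology Set

theorem s4z_bound {x : E 4} (h1 : ‖x‖ ≤ 1) : |U4 x| ≤ 149 * ‖x‖ := by
  rcases eq_or_ne x 0 with rfl | hx
  · simp [U4]
  have hr : 0 < ‖x‖ := norm_pos_iff.2 hx
  have hs : ‖x‖ ^ 2 = x 0 ^ 2 + x 1 ^ 2 + x 2 ^ 2 + x 3 ^ 2 := by
    rw [EuclideanSpace.real_norm_sq_eq, Fin.sum_univ_four]
  have hi : ∀ i, |x i| ≤ ‖x‖ := fun i => by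
    simpa only [Real.norm_eq_abs] using PiLp.norm_apply_le x i
  have hl := (Real.abs_log_mul_self_lt _ hr h1).le
  unfold U4
  generalize ‖x‖ = r at *
  have a0 := sq_nonneg (x 0)
  have a1 := sq_nonneg (x 1)
  have a2 := sq_nonneg (x 2)
  have a3 := sq_nonneg (x 3)
  have hr2 : r ^ 2 ≤ r := by nlinarith
  have t1 : |(7 * (x 0 ^ 2 + x 1 ^ 2) - 20 * (x 2 ^ 2 + x 3 ^ 2)) * Real.log r| ≤ 20 * r := by
    have e : |7 * (x 0 ^ 2 + x 1 ^ 2) - 20 * (x 2 ^ 2 + x 3 ^ 2)| ≤ 20 * r ^ 2 :=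
      abs_le.2 ⟨by linarith, by linarith⟩
    rw [abs_mul, abs_of_pos hr] at hl
    rw [abs_mul]
    refine (mul_le_mul_of_nonneg_right e (abs_nonneg _)).trans ?_
    nlinarith
  have t2 : |30 * ((x 0 ^ 2 - x 1 ^ 2) * x 2 + 2 * x 0 * x 1 * x 3) / r| ≤ 120 * r := by
    have e1 : |x 0 ^ 2 - x 1 ^ 2| ≤ r ^ 2 := abs_le.2 ⟨by linarith, by linarith⟩
    have e2 : |2 * x 0 * x 1| ≤ r ^ 2 :=
      abs_le.2 ⟨by nlinarith [sq_nonneg (x 0 + x 1)], by nlinarith [sq_nonneg (x 0 - x 1)]⟩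
    have e3 := abs_add_le ((x 0 ^ 2 - x 1 ^ 2) * x 2) (2 * x 0 * x 1 * x 3)
    rw [abs_mul, abs_mul _ (x 3)] at e3
    have e4 := mul_le_mul e1 (hi 2) (abs_nonneg _) (sq_nonneg r)
    have e5 := mul_le_mul e2 (hi 3) (abs_nonneg _) (sq_nonneg r)
    rw [abs_div, abs_of_pos hr, div_le_iff₀ hr, abs_mul, abs_of_pos (show (0 : ℝ) < 30 by norm_num)]
    nlinarith
  have t3 : |9 * ((x 0 ^ 2 + x 1 ^ 2) * (x 2 ^ 2 + x 3 ^ 2)) / r ^ 2| ≤ 9 * r := by
    rw [abs_of_nonneg (by positivity), div_le_iff₀ (by positivity)]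
    have e1 : (x 0 ^ 2 + x 1 ^ 2) * (x 2 ^ 2 + x 3 ^ 2) ≤ r * r ^ 2 :=
      mul_le_mul (by linarith) (by linarith) (by positivity) hr.le
    linarith
  have := abs_le.1 t1
  have := abs_le.1 t2
  have := abs_le.1 t3
  exact abs_le.2 ⟨by linarith, by linarith⟩

theorem U4_continuous : Continuous U4 := by
  refine continuous_iff_continuousAt.2 fun x => ?_
  rcases eq_or_ne x 0 with rfl | hx
  · have h0 : U4 0 = 0 := by simp [U4]
    rw [ContinuousAt, h0]
    refine squeeze_zero_norm' (a := fun x => 149 * ‖x‖) ?_ ?_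
    · filter_upwards [Metric.closedBall_mem_nhds (0 : E 4) one_pos] with y hy
      exact s4z_bound (mem_closedBall_zero_iff.1 hy)
    · exact Continuous.tendsto' (by fun_prop) _ _ (by simp)
  · have hr : ‖x‖ ≠ 0 := norm_ne_zero_iff.2 hx
    have hr2 : ‖x‖ ^ 2 ≠ 0 := pow_ne_zero _ hr
    unfold U4
    fun_prop (disch := assumption)

theorem s4z_second {g : ℝ → ℝ} (h : ContDiffAt ℝ 2 g 0) :
    ∃ C : ℝ, ∀ᶠ t in 𝓝[>] (0 : ℝ), g t + g (-t) - 2 * g 0 ≤ C * t ^ 2 := by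
  have h1 : ContDiffAt ℝ 1 (deriv g) 0 := by
    have := (h.fderiv_right (m := 1) (by norm_num)).clm_apply (contDiffAt_const (c := (1 : ℝ)))
    exact this
  obtain ⟨K, s, hs, hK⟩ := h1.exists_lipschitzOnWith
  have h2 : ∀ᶠ t in 𝓝 (0 : ℝ), HasDerivAt g (deriv g t) t :=
    (h.eventually (by simp)).mono fun t ht => (ht.differentiableAt (by norm_num)).hasDerivAt
  obtain ⟨δ, hδ, hb⟩ := Metric.eventually_nhds_iff.1 (h2.and hs)
  refine ⟨2 * K, ?_⟩
  filter_upwards [Ioo_mem_nhdsGT hδ] with t ht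
  have hm : ∀ u ∈ Icc 0 t, dist u 0 < δ ∧ dist (-u) 0 < δ := fun u hu => by
    simp only [Real.dist_eq, sub_zero, abs_neg, abs_of_nonneg hu.1, and_self]
    exact hu.2.trans_lt ht.2
  have key := norm_image_sub_le_of_norm_deriv_le_segment' (f := fun u => g u + g (-u))
    (f' := fun u => deriv g u - deriv g (-u)) (a := 0) (b := t) (C := 2 * K * t)
    (fun u hu => by
      have e1 := (hb (hm u hu).1).1
      have e2 := (hb (hm u hu).2).1.comp u (hasDerivAt_neg u)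
      rw [mul_neg, mul_one] at e2
      rw [sub_eq_add_neg]
      exact (e1.add e2).hasDerivWithinAt)
    (fun u hu => by
      have hu' := Ico_subset_Icc_self hu
      have e1 := hK.dist_le_mul u (hb (hm u hu').1).2 (-u) (hb (hm u hu').2).2
      rw [dist_eq_norm, Real.dist_eq, sub_neg_eq_add, abs_of_nonneg (by linarith [hu.1])] at e1
      refine e1.trans ?_
      have := mul_le_mul_of_nonneg_left hu.2.le K.2
      simp only [NNReal.val_eq_coe] at this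
      linarith) t ⟨ht.1.le, le_rfl⟩
  rw [Real.norm_eq_abs, neg_zero] at key
  have := (abs_le.1 key).2
  linarith

theorem s4z_line {g : ℝ → ℝ} (h : ContDiffAt ℝ 2 g 0) {c : ℝ} (hc : 0 < c) :
    ¬ IsLocalMax (fun t : ℝ => -(c * (t ^ 2 * Real.log t)) - g t) 0 := by
  intro hm
  obtain ⟨C, hC⟩ := s4z_second h
  have hn : Tendsto (fun t : ℝ => -t) (𝓝 0) (𝓝 0) := Continuous.tendsto' (by fun_prop) _ _ (by simp)
  have h1 := hn.eventually hm
  have h2 : ∀ᶠ t in 𝓝[>] (0 : ℝ), Real.log t < -(C / (2 * c)) :=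
    Real.tendsto_log_nhdsGT_zero.eventually (eventually_lt_atBot _)
  obtain ⟨t, ⟨⟨a1, a2⟩, a3, a4⟩, a5⟩ := ((((hm.and h1).filter_mono nhdsWithin_le_nhds).and
    (hC.and h2)).and self_mem_nhdsWithin).exists
  have a6 : 0 < t ^ 2 := pow_pos a5 2
  simp only [Real.log_neg_eq_log, even_two, Even.neg_pow, ne_eq, OfNat.ofNat_ne_zero,
    not_false_eq_true, zero_pow, zero_mul, mul_zero, neg_zero, zero_sub] at a1 a2
  have a7 : 2 * c * Real.log t < -C := by
    have := mul_lt_mul_of_pos_left a4 (show 0 < 2 * c by positivity)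
    rwa [mul_neg, mul_div_cancel₀ _ (by positivity)] at this
  nlinarith

theorem s4z_comp (φ : E 4 → ℝ) (h : ContDiffAt ℝ 2 φ 0) (e : E 4) :
    ContDiffAt ℝ 2 (fun t : ℝ => φ (t • e)) 0 :=
  ContDiffAt.comp (0 : ℝ) (by rwa [zero_smul]) (by fun_prop)

theorem U4_not_max (φ : E 4 → ℝ) (h : ContDiffAt ℝ 2 φ 0) :
    ¬ IsLocalMax (fun y => U4 y - φ y) 0 := by
  intro hm
  refine s4z_line (s4z_comp φ h (EuclideanSpace.single 2 1)) (c := 20) (by norm_num) ?_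
  have h1 := IsLocalMax.comp_continuous (f := fun y => U4 y - φ y)
    (g := fun t : ℝ => t • (EuclideanSpace.single 2 1 : E 4)) (b := 0) (by rwa [zero_smul])
    (by fun_prop)
  refine h1.congr (Eventually.of_forall fun t => ?_)
  simp [U4, norm_smul]
  ring

theorem U4_not_min (φ : E 4 → ℝ) (h : ContDiffAt ℝ 2 φ 0) :
    ¬ IsLocalMin (fun y => U4 y - φ y) 0 := by
  intro hm
  refine s4z_line (s4z_comp φ h (EuclideanSpace.single 0 1)).neg (c := 7) (by norm_num) ?_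
  have h1 := (IsLocalMin.comp_continuous (f := fun y => U4 y - φ y)
    (g := fun t : ℝ => t • (EuclideanSpace.single 0 1 : E 4)) (b := 0) (by rwa [zero_smul])
    (by fun_prop)).neg
  refine h1.congr (Eventually.of_forall fun t => ?_)
  simp [U4, norm_smul]
  ring

end Pool.Agent.P.MP_f12b6c_an
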