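import Pool.Agent.P.MP_f12b6c_an.S4Tri

/-! Homogeneity and directional derivatives of `Hm`. -/

namespace Pool.Agent.P.MP_f12b6c_an

theorem s4der_GER_smul (l x0 x1 x2 x3 : ℝ) :
    GER (l * x0) (l * x1) (l * x2) (l * x3) = Ten.map (fun e => l ^ 6 * e) (GER x0 x1 x2 x3) := by
  simp only [GER, GE, Ten.map, rsm, Ten.mk.injEq]
  refine ⟨?_, ?_, ?_, ?_, ?_, ?_, ?_, ?_, ?_, ?_⟩ <;> push_cast <;> ring

theorem s4der_GOR_smul (l x0 x1 x2 x3 : ℝ) :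
    GOR (l * x0) (l * x1) (l * x2) (l * x3) = Ten.map (fun e => l ^ 5 * e) (GOR x0 x1 x2 x3) := by
  simp only [GOR, GO, Ten.map, rsm, Ten.mk.injEq]
  refine ⟨?_, ?_, ?_, ?_, ?_, ?_, ?_, ?_, ?_, ?_⟩ <;> push_cast <;> ring

theorem s4der_hom (l : ℝ) (hl : 0 < l) (ρ r e o : ℝ) :
    (l ^ 6 * e + l * r * (l ^ 5 * o)) / (l ^ 2 * ρ) ^ 3 = (e + r * o) / ρ ^ 3 := by
  have h1 : l ^ 6 * e + l * r * (l ^ 5 * o) = l ^ 6 * (e + r * o) := by ring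
  have h2 : (l ^ 2 * ρ) ^ 3 = l ^ 6 * ρ ^ 3 := by ring
  rw [h1, h2, mul_div_mul_left _ _ (by positivity)]

theorem Hm_smul (l : ℝ) (hl : 0 < l) (x0 x1 x2 x3 : ℝ) :
    Hm (l * x0) (l * x1) (l * x2) (l * x3) = Hm x0 x1 x2 x3 := by
  have h1 : sq4 (l * x0) (l * x1) (l * x2) (l * x3) = l ^ 2 * sq4 x0 x1 x2 x3 := by
    simp only [sq4]; ring
  have h2 : Real.sqrt (l ^ 2 * sq4 x0 x1 x2 x3) = l * Real.sqrt (sq4 x0 x1 x2 x3) := by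
    rw [Real.sqrt_mul (by positivity), Real.sqrt_sq hl.le]
  unfold Hm
  rw [s4der_GER_smul, s4der_GOR_smul, h1, h2]
  simp only [Ten.zip, Ten.map, s4der_hom l hl]

/-- A real function with its value and its derivative at `0` in formal terms. -/
structure S4DerDF (e0 e1 e2 : ℝ) where
  f : ℝ → ℝ
  t : Tri ℝ
  hv : f 0 = t.v
  hd : HasDerivAt f (e0 * t.d0 + e1 * t.d1 + e2 * t.d2) 0

/-- Sum. -/
def S4DerDF.ad {e0 e1 e2 : ℝ} (a b : S4DerDF e0 e1 e2) : S4DerDF e0 e1 e2 :=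
  ⟨fun s => a.f s + b.f s, tad (· + ·) a.t b.t, by simp only [tad, a.hv, b.hv], by
    have h := a.hd.fun_add b.hd
    refine h.congr_deriv ?_
    simp only [tad]; ring⟩

/-- Difference. -/
def S4DerDF.sb {e0 e1 e2 : ℝ} (a b : S4DerDF e0 e1 e2) : S4DerDF e0 e1 e2 :=
  ⟨fun s => a.f s - b.f s, tad (· - ·) a.t b.t, by simp only [tad, a.hv, b.hv], by
    have h := a.hd.fun_sub b.hd
    refine h.congr_deriv ?_
    simp only [tad]; ring⟩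

/-- Product. -/
def S4DerDF.mu {e0 e1 e2 : ℝ} (a b : S4DerDF e0 e1 e2) : S4DerDF e0 e1 e2 :=
  ⟨fun s => a.f s * b.f s, tmu (· + ·) (· * ·) a.t b.t, by simp only [tmu, a.hv, b.hv], by
    have h := a.hd.fun_mul b.hd
    refine h.congr_deriv ?_
    simp only [tmu, a.hv, b.hv]; ring⟩

/-- Multiple by a natural number. -/
def S4DerDF.sm {e0 e1 e2 : ℝ} (k : ℕ) (a : S4DerDF e0 e1 e2) : S4DerDF e0 e1 e2 :=
  ⟨fun s => rsm k (a.f s), tsm rsm k a.t, by simp only [tsm, a.hv], by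
    have h := a.hd.const_mul (k : ℝ)
    refine h.congr_deriv ?_
    simp only [tsm, rsm]; ring⟩

/-- A coordinate along the line. -/
def S4DerDF.line (e0 e1 e2 : ℝ) (X : Tri ℝ) : S4DerDF e0 e1 e2 :=
  ⟨fun s => X.v + s * (e0 * X.d0 + e1 * X.d1 + e2 * X.d2), X, by simp, by
    have h := ((hasDerivAt_id (0 : ℝ)).mul_const (e0 * X.d0 + e1 * X.d1 + e2 * X.d2)).const_add X.v
    simpa using h⟩

theorem s4der_scalar {E O ρ : ℝ → ℝ} {E' O' u : ℝ} (hE : HasDerivAt E E' 0)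
    (hO : HasDerivAt O O' 0) (hρ : HasDerivAt ρ (2 * u) 0) (h0 : 0 < ρ 0) :
    HasDerivAt (fun s => (E s + Real.sqrt (ρ s) * O s) / ρ s ^ 3)
      ((ρ 0 * E' - 6 * u * E 0 + Real.sqrt (ρ 0) * (ρ 0 * O' - 5 * u * O 0)) / ρ 0 ^ 4) 0 := by
  have h1 := hρ.sqrt h0.ne'
  have h2 := (hE.fun_add (h1.fun_mul hO)).fun_div (hρ.fun_pow 3) (pow_ne_zero 3 h0.ne')
  refine h2.congr_deriv ?_
  have hr : 0 < Real.sqrt (ρ 0) := Real.sqrt_pos.2 h0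
  have hs : ρ 0 = Real.sqrt (ρ 0) ^ 2 := (Real.sq_sqrt h0.le).symm
  generalize Real.sqrt (ρ 0) = r at hr hs ⊢
  rw [hs]
  have hr' := hr.ne'
  push_cast
  field_simp
  ring

theorem s4der_entry {e0 e1 e2 : ℝ} {ρ : ℝ → ℝ} {ρ0 u0 u1 u2 : ℝ} (hv : ρ 0 = ρ0)
    (hρ : HasDerivAt ρ (2 * (e0 * u0 + e1 * u1 + e2 * u2)) 0) (h0 : 0 < ρ0)
    (A B : S4DerDF e0 e1 e2) :
    HasDerivAt (fun s => (A.f s + Real.sqrt (ρ s) * B.f s) / ρ s ^ 3)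
      ((e0 * (ρ0 * A.t.d0 - 6 * u0 * A.t.v + Real.sqrt ρ0 * (ρ0 * B.t.d0 - 5 * u0 * B.t.v)) +
        e1 * (ρ0 * A.t.d1 - 6 * u1 * A.t.v + Real.sqrt ρ0 * (ρ0 * B.t.d1 - 5 * u1 * B.t.v)) +
        e2 * (ρ0 * A.t.d2 - 6 * u2 * A.t.v + Real.sqrt ρ0 * (ρ0 * B.t.d2 - 5 * u2 * B.t.v))) /
        ρ0 ^ 4) 0 := by
  subst hv
  refine (s4der_scalar A.hd B.hd hρ h0).congr_deriv ?_
  rw [A.hv, B.hv]
  ring

theorem s4der_ten {e0 e1 e2 : ℝ} {ρ : ℝ → ℝ} {ρ0 u0 u1 u2 : ℝ} (hv : ρ 0 = ρ0)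
    (hρ : HasDerivAt ρ (2 * (e0 * u0 + e1 * u1 + e2 * u2)) 0) (h0 : 0 < ρ0) (a : Ten ℝ)
    (TE TO : Ten (S4DerDF e0 e1 e2)) :
    HasDerivAt (fun s => dotR a (Ten.zip (fun e o => (e + Real.sqrt (ρ s) * o) / ρ s ^ 3)
        (Ten.map (fun D => D.f s) TE) (Ten.map (fun D => D.f s) TO)))
      ((e0 * dotR a (Ten.zip (fun e o => e + Real.sqrt ρ0 * o)
          (KD (· * ·) (· - ·) ρ0 (6 * u0) Tri.d0 (Ten.map (fun D => D.t) TE))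
          (KD (· * ·) (· - ·) ρ0 (5 * u0) Tri.d0 (Ten.map (fun D => D.t) TO))) +
        e1 * dotR a (Ten.zip (fun e o => e + Real.sqrt ρ0 * o)
          (KD (· * ·) (· - ·) ρ0 (6 * u1) Tri.d1 (Ten.map (fun D => D.t) TE))
          (KD (· * ·) (· - ·) ρ0 (5 * u1) Tri.d1 (Ten.map (fun D => D.t) TO))) +
        e2 * dotR a (Ten.zip (fun e o => e + Real.sqrt ρ0 * o)
          (KD (· * ·) (· - ·) ρ0 (6 * u2) Tri.d2 (Ten.map (fun D => D.t) TE))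
          (KD (· * ·) (· - ·) ρ0 (5 * u2) Tri.d2 (Ten.map (fun D => D.t) TO)))) / ρ0 ^ 4) 0 := by
  have e := fun A B => s4der_entry hv hρ h0 A B
  have h := (((((e TE.f00 TO.f00).const_mul a.f00).fun_add
    ((e TE.f11 TO.f11).const_mul a.f11)).fun_add ((e TE.f22 TO.f22).const_mul a.f22)).fun_add
    ((e TE.f33 TO.f33).const_mul a.f33)).fun_add
    ((((((((e TE.f01 TO.f01).const_mul a.f01).fun_add
      ((e TE.f02 TO.f02).const_mul a.f02)).fun_add ((e TE.f03 TO.f03).const_mul a.f03)).fun_add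
      ((e TE.f12 TO.f12).const_mul a.f12)).fun_add ((e TE.f13 TO.f13).const_mul a.f13)).fun_add
      ((e TE.f23 TO.f23).const_mul a.f23)).const_mul (2 : ℝ))
  simp only [dotR, Ten.zip, Ten.map, KD]
  refine h.congr_deriv ?_
  ring

theorem hasDerivAt_dot (a : Ten ℝ) (X0 X1 X2 X3 : Tri ℝ) (e0 e1 e2 : ℝ)
    (hX : 0 < sq4 X0.v X1.v X2.v X3.v) :
    HasDerivAt
      (fun s : ℝ => dotR a (Hm (X0.v + s * (e0 * X0.d0 + e1 * X0.d1 + e2 * X0.d2))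
        (X1.v + s * (e0 * X1.d0 + e1 * X1.d1 + e2 * X1.d2))
        (X2.v + s * (e0 * X2.d0 + e1 * X2.d1 + e2 * X2.d2))
        (X3.v + s * (e0 * X3.d0 + e1 * X3.d1 + e2 * X3.d2))))
      ((e0 * dotR a (KR X0 X1 X2 X3 Tri.d0) + e1 * dotR a (KR X0 X1 X2 X3 Tri.d1) +
        e2 * dotR a (KR X0 X1 X2 X3 Tri.d2)) / sq4 X0.v X1.v X2.v X3.v ^ 4) 0 := by
  let D0 := S4DerDF.line e0 e1 e2 X0
  let D1 := S4DerDF.line e0 e1 e2 X1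
  let D2 := S4DerDF.line e0 e1 e2 X2
  let D3 := S4DerDF.line e0 e1 e2 X3
  have hρ : HasDerivAt (fun s => sq4 (D0.f s) (D1.f s) (D2.f s) (D3.f s))
      (2 * (e0 * (X0.v * X0.d0 + X1.v * X1.d0 + X2.v * X2.d0 + X3.v * X3.d0) +
        e1 * (X0.v * X0.d1 + X1.v * X1.d1 + X2.v * X2.d1 + X3.v * X3.d1) +
        e2 * (X0.v * X0.d2 + X1.v * X1.d2 + X2.v * X2.d2 + X3.v * X3.d2))) 0 := by
    have h := (((D0.hd.fun_pow 2).fun_add (D1.hd.fun_pow 2)).fun_add (D2.hd.fun_pow 2)).fun_add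
      (D3.hd.fun_pow 2)
    refine h.congr_deriv ?_
    rw [D0.hv, D1.hv, D2.hv, D3.hv]
    simp only [D0, D1, D2, D3, S4DerDF.line]
    push_cast
    ring
  have hv : (fun s => sq4 (D0.f s) (D1.f s) (D2.f s) (D3.f s)) 0 = sq4 X0.v X1.v X2.v X3.v := by
    simp only [D0.hv, D1.hv, D2.hv, D3.hv]
    rfl
  have h := s4der_ten hv hρ hX a (GE S4DerDF.ad S4DerDF.mu S4DerDF.sb S4DerDF.sm D0 D1 D2 D3)
    (GO S4DerDF.ad S4DerDF.mu S4DerDF.sb S4DerDF.sm D0 D1 D2 D3)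
  have a1 := GE_map (fun D : S4DerDF e0 e1 e2 => D.t) S4DerDF.ad S4DerDF.mu S4DerDF.sb S4DerDF.sm
    (tad (· + ·)) (tmu (· + ·) (· * ·)) (tad (· - ·)) (tsm rsm) (fun _ _ => rfl) (fun _ _ => rfl)
    (fun _ _ => rfl) (fun _ _ => rfl) D0 D1 D2 D3
  have a2 := GO_map (fun D : S4DerDF e0 e1 e2 => D.t) S4DerDF.ad S4DerDF.mu S4DerDF.sb S4DerDF.sm
    (tad (· + ·)) (tmu (· + ·) (· * ·)) (tad (· - ·)) (tsm rsm) (fun _ _ => rfl) (fun _ _ => rfl)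
    (fun _ _ => rfl) (fun _ _ => rfl) D0 D1 D2 D3
  have a3 := fun s : ℝ => GE_map (fun D : S4DerDF e0 e1 e2 => D.f s) S4DerDF.ad S4DerDF.mu
    S4DerDF.sb S4DerDF.sm (· + ·) (· * ·) (· - ·) rsm (fun _ _ => rfl) (fun _ _ => rfl)
    (fun _ _ => rfl) (fun _ _ => rfl) D0 D1 D2 D3
  have a4 := fun s : ℝ => GO_map (fun D : S4DerDF e0 e1 e2 => D.f s) S4DerDF.ad S4DerDF.mu
    S4DerDF.sb S4DerDF.sm (· + ·) (· * ·) (· - ·) rsm (fun _ _ => rfl) (fun _ _ => rfl)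
    (fun _ _ => rfl) (fun _ _ => rfl) D0 D1 D2 D3
  rw [a1, a2] at h
  simp only [a3, a4] at h
  exact h

end Pool.Agent.P.MP_f12b6c_an
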