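import Pool.Agent.P.MP_f12b6c_an.S4Prop
import Pool.Agent.P.MP_f12b6c_an.S4Der

/-! The sixteen root pairs of boxes cover all pairs with first point in a slice. -/

namespace Pool.Agent.P.MP_f12b6c_an

theorem s4c_scale {l m : ℝ} (hl : 0 < l) (hm : 0 < m) {x0 x1 x2 x3 y0 y1 y2 y3 : ℝ}
    (h : PairOK (l * x0) (l * x1) (l * x2) (l * x3) (m * y0) (m * y1) (m * y2) (m * y3)) :
    PairOK x0 x1 x2 x3 y0 y1 y2 y3 := by
  unfold PairOK at h ⊢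
  rwa [Hm_smul l hl, Hm_smul m hm] at h

theorem s4c_abs {l m t : ℝ} (hl : 0 < l) (h : l * m = 128) (ht : |t| ≤ m) :
    -128 ≤ l * t ∧ l * t ≤ 128 := by
  obtain ⟨h1, h2⟩ := abs_le.1 ht
  constructor <;> nlinarith

theorem s4c_abs' {l m t : ℝ} (hl : 0 < l) (h : l * m = 128) (ht : |t| < 5 / 4 * m) :
    -160 < l * t ∧ l * t < 160 := by
  obtain ⟨h1, h2⟩ := abs_lt.1 ht
  constructor <;> nlinarith

theorem s4c_eq {l m t : ℝ} (h : l * m = 128) (ht : |t| = m) :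
    l * t = 128 ∨ l * t = -128 := by
  rcases abs_cases t with ⟨h1, _⟩ | ⟨h1, _⟩
  · left; rw [← h, ← ht, h1]
  · right; rw [← h, ← ht, h1]; ring

theorem s4c_norm (a b c d : ℝ) (h : a ≠ 0 ∨ b ≠ 0 ∨ c ≠ 0 ∨ d ≠ 0) : ∃ l : ℝ, 0 < l ∧
    ((l * a = 128 ∧ (-160 < l * b ∧ l * b < 160) ∧ (-160 < l * c ∧ l * c < 160) ∧
        (-160 < l * d ∧ l * d < 160)) ∨
      ((-128 ≤ l * a ∧ l * a < 103) ∧ (-128 ≤ l * b ∧ l * b ≤ 128) ∧
        (-128 ≤ l * c ∧ l * c ≤ 128) ∧ (-128 ≤ l * d ∧ l * d ≤ 128) ∧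
        (l * a = -128 ∨ (l * b = 128 ∨ l * b = -128) ∨ (l * c = 128 ∨ l * c = -128) ∨
          (l * d = 128 ∨ l * d = -128)))) := by
  by_cases h0 : 0 < a ∧ |b| < 5 / 4 * a ∧ |c| < 5 / 4 * a ∧ |d| < 5 / 4 * a
  · obtain ⟨ha, hb, hc, hd⟩ := h0
    have hl : 0 < 128 / a := by positivity
    have he : 128 / a * a = 128 := by field_simp
    exact ⟨128 / a, hl, Or.inl ⟨he, s4c_abs' hl he hb, s4c_abs' hl he hc, s4c_abs' hl he hd⟩⟩
  · obtain ⟨m, hma, hmb, hmc, hmd, hme⟩ : ∃ m : ℝ, |a| ≤ m ∧ |b| ≤ m ∧ |c| ≤ m ∧ |d| ≤ m ∧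
        (|a| = m ∨ |b| = m ∨ |c| = m ∨ |d| = m) := by
      refine ⟨max (max |a| |b|) (max |c| |d|), ?_, ?_, ?_, ?_, ?_⟩
      · exact (le_max_left _ _).trans (le_max_left _ _)
      · exact (le_max_right _ _).trans (le_max_left _ _)
      · exact (le_max_left _ _).trans (le_max_right _ _)
      · exact (le_max_right _ _).trans (le_max_right _ _)
      · rcases max_choice (max |a| |b|) (max |c| |d|) with h1 | h1 <;> rw [h1]
        · rcases max_choice |a| |b| with h2 | h2 <;> rw [h2] <;> simp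
        · rcases max_choice |c| |d| with h2 | h2 <;> rw [h2] <;> simp
    have hm : 0 < m := by
      rcases h with h | h | h | h
      · exact (abs_pos.2 h).trans_le hma
      · exact (abs_pos.2 h).trans_le hmb
      · exact (abs_pos.2 h).trans_le hmc
      · exact (abs_pos.2 h).trans_le hmd
    have hl : 0 < 128 / m := by positivity
    have he : 128 / m * m = 128 := by field_simp
    have ham : a ≤ 4 / 5 * m := by
      by_contra hc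
      push Not at hc
      exact h0 ⟨by linarith, by linarith, by linarith, by linarith⟩
    generalize 128 / m = l at hl he
    have hla : l * a < 103 := by nlinarith
    refine ⟨l, hl, Or.inr ⟨⟨(s4c_abs hl he hma).1, hla⟩, s4c_abs hl he hmb, s4c_abs hl he hmc,
      s4c_abs hl he hmd, ?_⟩⟩
    rcases hme with h1 | h1 | h1 | h1
    · rcases s4c_eq he h1 with h2 | h2
      · linarith
      · exact Or.inl h2
    · exact Or.inr (Or.inl (s4c_eq he h1))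
    · exact Or.inr (Or.inr (Or.inl (s4c_eq he h1)))
    · exact Or.inr (Or.inr (Or.inr (s4c_eq he h1)))

theorem s4c_use {ax ay : Ax} {sg : Bool} {pm : ℕ} {X Y : Box} (g : Good ax ay sg pm X Y)
    (u0 u1 u2 w0 w1 w2 : ℝ) (hX : InBox X (u0 + 256) (u1 + 256) (u2 + 256))
    (hY : InBox Y (w0 + 256) (w1 + 256) (w2 + 256)) (hu : u0 ^ 2 + u1 ^ 2 ≤ 16384)
    (hn : NeedY pm (w0 + 256) (w1 + 256) (w2 + 256)) :
    ∃ a : Ten ℝ, Adm a ∧ dotR a (emb ay (hgt sg) w0 w1 w2 Hm) ≤ dotR a (emb ax 128 u0 u1 u2 Hm) := by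
  have h := g _ _ _ _ _ _ hX hY (by simpa using hu) hn
  unfold PairE HmE at h
  simp only [add_sub_cancel_right] at h
  exact h

theorem s4c_box {w0 w1 w2 : ℝ} (h0 : -128 ≤ w0 ∧ w0 ≤ 128) (h1 : -128 ≤ w1 ∧ w1 ≤ 128)
    (h2 : -128 ≤ w2 ∧ w2 ≤ 128) :
    InBox ⟨128, 384, 128, 384, 128, 384⟩ (w0 + 256) (w1 + 256) (w2 + 256) := by
  simp only [InBox]
  push_cast
  refine ⟨?_, ?_, ?_, ?_, ?_, ?_⟩ <;> linarith [h0.1, h0.2, h1.1, h1.2, h2.1, h2.2]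

theorem s4c_big {w0 w1 w2 : ℝ} (h0 : -160 < w0 ∧ w0 < 160) (h1 : -160 < w1 ∧ w1 < 160)
    (h2 : -160 < w2 ∧ w2 < 160) :
    InBox ⟨0, 512, 0, 512, 0, 512⟩ (w0 + 256) (w1 + 256) (w2 + 256) ∧
      NeedY 0 (w0 + 256) (w1 + 256) (w2 + 256) := by
  simp only [InBox, NeedY]
  push_cast
  refine ⟨⟨?_, ?_, ?_, ?_, ?_, ?_⟩, fun _ => ⟨?_, ?_, ?_, ?_, ?_, ?_⟩, ?_, ?_, ?_⟩
  all_goals first | (intro h; cases h) | linarith [h0.1, h0.2, h1.1, h1.2, h2.1, h2.2]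

theorem s4c_n1 {w0 w1 w2 : ℝ} (h : w0 < 103) : NeedY 1 (w0 + 256) w1 w2 :=
  ⟨fun e => absurd e (by decide), fun _ => by linarith, fun e => absurd e (by decide),
    fun e => absurd e (by decide)⟩

theorem s4c_n2 {w0 w1 w2 : ℝ} (h : w1 < 103) : NeedY 2 w0 (w1 + 256) w2 :=
  ⟨fun e => absurd e (by decide), fun e => absurd e (by decide), fun _ => by linarith,
    fun e => absurd e (by decide)⟩

theorem s4c_n3 {w0 w1 w2 : ℝ} (h : w2 < 103) : NeedY 3 w0 w1 (w2 + 256) :=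
  ⟨fun e => absurd e (by decide), fun e => absurd e (by decide), fun e => absurd e (by decide),
    fun _ => by linarith⟩

theorem s4c_n4 {w0 w1 w2 : ℝ} : NeedY 4 w0 w1 w2 :=
  ⟨fun e => absurd e (by decide), fun e => absurd e (by decide), fun e => absurd e (by decide),
    fun e => absurd e (by decide)⟩

theorem s4c_disc {l r p q : ℝ} (h : l * r = 128) (hpq : p ^ 2 + q ^ 2 ≤ r ^ 2) :
    (l * p) ^ 2 + (l * q) ^ 2 ≤ 16384 := by
  have h1 : (l * p) ^ 2 + (l * q) ^ 2 = l ^ 2 * (p ^ 2 + q ^ 2) := by ring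
  have h2 : l ^ 2 * r ^ 2 = 16384 := by rw [← mul_pow, h]; norm_num
  rw [h1, ← h2]
  exact mul_le_mul_of_nonneg_left hpq (sq_nonneg l)

theorem cover_all
    (g1 : Good .a0 .a0 true 0 ⟨128, 384, 256, 384, 256, 256⟩ ⟨0, 512, 0, 512, 0, 512⟩)
    (g2 : Good .a0 .a0 false 4 ⟨128, 384, 256, 384, 256, 256⟩ ⟨128, 384, 128, 384, 128, 384⟩)
    (g3 : Good .a0 .a1 true 1 ⟨128, 384, 256, 384, 256, 256⟩ ⟨128, 384, 128, 384, 128, 384⟩)
    (g4 : Good .a0 .a1 false 1 ⟨128, 384, 256, 384, 256, 256⟩ ⟨128, 384, 128, 384, 128, 384⟩)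
    (g5 : Good .a0 .a2 true 1 ⟨128, 384, 256, 384, 256, 256⟩ ⟨128, 384, 128, 384, 128, 384⟩)
    (g6 : Good .a0 .a2 false 1 ⟨128, 384, 256, 384, 256, 256⟩ ⟨128, 384, 128, 384, 128, 384⟩)
    (g7 : Good .a0 .a3 true 1 ⟨128, 384, 256, 384, 256, 256⟩ ⟨128, 384, 128, 384, 128, 384⟩)
    (g8 : Good .a0 .a3 false 1 ⟨128, 384, 256, 384, 256, 256⟩ ⟨128, 384, 128, 384, 128, 384⟩)
    (k1 : Good .a2 .a0 true 1 ⟨256, 384, 256, 384, 256, 256⟩ ⟨128, 384, 128, 384, 128, 384⟩)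
    (k2 : Good .a2 .a0 false 1 ⟨256, 384, 256, 384, 256, 256⟩ ⟨128, 384, 128, 384, 128, 384⟩)
    (k3 : Good .a2 .a1 true 2 ⟨256, 384, 256, 384, 256, 256⟩ ⟨128, 384, 128, 384, 128, 384⟩)
    (k4 : Good .a2 .a1 false 2 ⟨256, 384, 256, 384, 256, 256⟩ ⟨128, 384, 128, 384, 128, 384⟩)
    (k5 : Good .a2 .a2 true 0 ⟨256, 384, 256, 384, 256, 256⟩ ⟨0, 512, 0, 512, 0, 512⟩)
    (k6 : Good .a2 .a2 false 4 ⟨256, 384, 256, 384, 256, 256⟩ ⟨128, 384, 128, 384, 128, 384⟩)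
    (k7 : Good .a2 .a3 true 3 ⟨256, 384, 256, 384, 256, 256⟩ ⟨128, 384, 128, 384, 128, 384⟩)
    (k8 : Good .a2 .a3 false 3 ⟨256, 384, 256, 384, 256, 256⟩ ⟨128, 384, 128, 384, 128, 384⟩)
    (x y : E 4) (hx : InSlice x) (hy : y ≠ 0) :
    PairOK (x 0) (x 1) (x 2) (x 3) (y 0) (y 1) (y 2) (y 3) := by
  have hy' : y 0 ≠ 0 ∨ y 1 ≠ 0 ∨ y 2 ≠ 0 ∨ y 3 ≠ 0 := by
    by_contra hc
    push Not at hc
    apply hy
    ext i
    fin_cases i
    · exact hc.1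
    · exact hc.2.1
    · exact hc.2.2.1
    · exact hc.2.2.2
  generalize y 0 = y0 at *
  generalize y 1 = y1 at *
  generalize y 2 = y2 at *
  generalize y 3 = y3 at *
  rcases hx with ⟨e1, p0, p3, hd⟩ | ⟨e3, p2, p0, p1, hd⟩
  · have hl : 0 < 128 / x 0 := by positivity
    have he : 128 / x 0 * x 0 = 128 := by field_simp
    generalize 128 / x 0 = l at hl he
    have hD := s4c_disc he hd
    have q3 : 0 ≤ l * x 3 := by positivity
    have hX : InBox ⟨128, 384, 256, 384, 256, 256⟩ (l * x 2 + 256) (l * x 3 + 256) (0 + 256) := by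
      simp only [InBox]
      push_cast
      refine ⟨?_, ?_, ?_, ?_, ?_, ?_⟩ <;> nlinarith [sq_nonneg (l * x 2), sq_nonneg (l * x 3)]
    obtain ⟨m, hm, hc⟩ := s4c_norm y0 y1 y2 y3 hy'
    apply s4c_scale hl hm
    rw [he, e1, mul_zero]
    rcases hc with ⟨c0, c1, c2, c3⟩ | ⟨c0, c1, c2, c3, c | (c | c) | (c | c) | (c | c)⟩
    · rw [c0]
      exact s4c_use g1 _ _ _ _ _ _ hX (s4c_big c2 c3 c1).1 hD (s4c_big c2 c3 c1).2
    · rw [c]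
      exact s4c_use g2 _ _ _ _ _ _ hX (s4c_box c2 c3 c1) hD s4c_n4
    · rw [c]
      exact s4c_use g3 _ _ _ _ _ _ hX (s4c_box ⟨c0.1, by linarith [c0.2]⟩ c2 c3) hD (s4c_n1 c0.2)
    · rw [c]
      exact s4c_use g4 _ _ _ _ _ _ hX (s4c_box ⟨c0.1, by linarith [c0.2]⟩ c2 c3) hD (s4c_n1 c0.2)
    · rw [c]
      exact s4c_use g5 _ _ _ _ _ _ hX (s4c_box ⟨c0.1, by linarith [c0.2]⟩ c1 c3) hD (s4c_n1 c0.2)
    · rw [c]
      exact s4c_use g6 _ _ _ _ _ _ hX (s4c_box ⟨c0.1, by linarith [c0.2]⟩ c1 c3) hD (s4c_n1 c0.2)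
    · rw [c]
      exact s4c_use g7 _ _ _ _ _ _ hX (s4c_box ⟨c0.1, by linarith [c0.2]⟩ c1 c2) hD (s4c_n1 c0.2)
    · rw [c]
      exact s4c_use g8 _ _ _ _ _ _ hX (s4c_box ⟨c0.1, by linarith [c0.2]⟩ c1 c2) hD (s4c_n1 c0.2)
  · have hl : 0 < 128 / x 2 := by positivity
    have he : 128 / x 2 * x 2 = 128 := by field_simp
    generalize 128 / x 2 = l at hl he
    have hD := s4c_disc he hd
    have q0 : 0 ≤ l * x 0 := by positivity
    have q1 : 0 ≤ l * x 1 := by positivity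
    have hX : InBox ⟨256, 384, 256, 384, 256, 256⟩ (l * x 0 + 256) (l * x 1 + 256) (0 + 256) := by
      simp only [InBox]
      push_cast
      refine ⟨?_, ?_, ?_, ?_, ?_, ?_⟩ <;> nlinarith [sq_nonneg (l * x 0), sq_nonneg (l * x 1)]
    obtain ⟨m, hm, hc⟩ := s4c_norm y2 y0 y1 y3 (by tauto)
    apply s4c_scale hl hm
    rw [he, e3, mul_zero]
    rcases hc with ⟨c2, c0, c1, c3⟩ | ⟨c2, c0, c1, c3, c | (c | c) | (c | c) | (c | c)⟩
    · rw [c2]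
      exact s4c_use k5 _ _ _ _ _ _ hX (s4c_big c0 c1 c3).1 hD (s4c_big c0 c1 c3).2
    · rw [c]
      exact s4c_use k6 _ _ _ _ _ _ hX (s4c_box c0 c1 c3) hD s4c_n4
    · rw [c]
      exact s4c_use k1 _ _ _ _ _ _ hX (s4c_box ⟨c2.1, by linarith [c2.2]⟩ c3 c1) hD (s4c_n1 c2.2)
    · rw [c]
      exact s4c_use k2 _ _ _ _ _ _ hX (s4c_box ⟨c2.1, by linarith [c2.2]⟩ c3 c1) hD (s4c_n1 c2.2)
    · rw [c]
      exact s4c_use k3 _ _ _ _ _ _ hX (s4c_box c0 ⟨c2.1, by linarith [c2.2]⟩ c3) hD (s4c_n2 c2.2)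
    · rw [c]
      exact s4c_use k4 _ _ _ _ _ _ hX (s4c_box c0 ⟨c2.1, by linarith [c2.2]⟩ c3) hD (s4c_n2 c2.2)
    · rw [c]
      exact s4c_use k7 _ _ _ _ _ _ hX (s4c_box c0 c1 ⟨c2.1, by linarith [c2.2]⟩) hD (s4c_n3 c2.2)
    · rw [c]
      exact s4c_use k8 _ _ _ _ _ _ hX (s4c_box c0 c1 ⟨c2.1, by linarith [c2.2]⟩) hD (s4c_n3 c2.2)

end Pool.Agent.P.MP_f12b6c_an
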