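import Pool.Agent.P.MP_f12b6c_an.S4N00
import Pool.Agent.P.MP_f12b6c_an.S4N01
import Pool.Agent.P.MP_f12b6c_an.S4N02
import Pool.Agent.P.MP_f12b6c_an.S4C00
import Pool.Agent.P.MP_f12b6c_an.S4C01
import Pool.Agent.P.MP_f12b6c_an.S4C02
import Pool.Agent.P.MP_f12b6c_an.S4C03
import Pool.Agent.P.MP_f12b6c_an.S4C04
import Pool.Agent.P.MP_f12b6c_an.S4C05
import Pool.Agent.P.MP_f12b6c_an.S4C06
import Pool.Agent.P.MP_f12b6c_an.S4C07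
import Pool.Agent.P.MP_f12b6c_an.S4C08
import Pool.Agent.P.MP_f12b6c_an.S4C09
import Pool.Agent.P.MP_f12b6c_an.S4C10
import Pool.Agent.P.MP_f12b6c_an.S4C11
import Pool.Agent.P.MP_f12b6c_an.S4C12
import Pool.Agent.P.MP_f12b6c_an.S4C13
import Pool.Agent.P.MP_f12b6c_an.S4C14
import Pool.Agent.P.MP_f12b6c_an.S4C15
import Pool.Agent.P.MP_f12b6c_an.S4C16
import Pool.Agent.P.MP_f12b6c_an.S4Cover

/-! The pair condition for first points in the slices. -/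

namespace Pool.Agent.P.MP_f12b6c_an

set_option maxRecDepth 100000

theorem zok0 : ZOK .a0 .a0 true tab0 149 :=
  (z0_148 (z0_141 (z0_134 (z0_128 (z0_122 (z0_115 (z0_108 (z0_103 (z0_97 (z0_91 (z0_86 (z0_79 (z0_73 (z0_67 (z0_60 (z0_54 (z0_49 (z0_43 (z0_37 (z0_31 (z0_25 (z0_20 (z0_15 (z0_10 (z0_5 (z0_0 (ZOK.zero _ _ _ _)))))))))))))))))))))))))))

theorem zok1 : ZOK .a2 .a2 true tab1 141 :=
  (z1_140 (z1_133 (z1_126 (z1_121 (z1_117 (z1_110 (z1_105 (z1_99 (z1_92 (z1_85 (z1_78 (z1_71 (z1_64 (z1_57 (z1_50 (z1_43 (z1_36 (z1_29 (z1_22 (z1_15 (z1_8 (z1_0 (ZOK.zero _ _ _ _)))))))))))))))))))))))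

theorem root0 : Good .a0 .a0 true 0 ⟨128, 384, 256, 384, 256, 256⟩ ⟨0, 512, 0, 512, 0, 512⟩ :=
  (Good.y0 (Good.y1 (Good.y2 (c0 zok0) (c1 zok0)) (Good.y2 (Good.y0 (c2 zok0) (Good.y1
    (Good.y2 (c3 zok0) (Good.y0 (Good.y1 (Good.y2 (c4 zok0) (Good.x0 (Good.x0 (Good.x1
    (Good.x0 (c5 zok0) (c6 zok0)) (cc7 zok0)) (cc8 zok0)) (c9 zok0))) (Good.y2 (c10 zok0)
    (c11 zok0))) (Good.y1 (Good.y2 (c12 zok0) (Good.x0 (Good.x0 (c13 zok0) (Good.x1 (c14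
    zok0) (c15 zok0))) (c16 zok0))) (Good.y2 (c17 zok0) (Good.x0 (Good.x0 (c18 zok0)
    (Good.x1 (c19 zok0) (c20 zok0))) (c21 zok0)))))) (c22 zok0))) (Good.y0 (c23 zok0)
    (Good.y1 (Good.y2 (Good.y0 (Good.y1 (Good.y2 (Good.x0 (Good.x0 (Good.x1 (Good.x0
    (c24 zok0) (c25 zok0)) (c26 zok0)) (c27 zok0)) (c28 zok0)) (c29 zok0)) (c30 zok0))
    (Good.y1 (Good.y2 (Good.x0 (Good.x0 (c31 zok0) (c32 zok0)) (c33 zok0)) (c34 zok0))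
    (Good.y2 (Good.x0 (Good.x0 (c35 zok0) (c36 zok0)) (c37 zok0)) (c38 zok0)))) (c39
    zok0)) (c40 zok0))))) (Good.y1 (Good.y2 (Good.y0 (c41 zok0) (c42 zok0)) (Good.y0
    (c43 zok0) (c44 zok0))) (Good.y2 (Good.y0 (Good.y1 (Good.y2 (c45 zok0) (Good.y0 (Good.y1
    (Good.y2 (c46 zok0) (Good.x0 (c47 zok0) (Good.x0 (Good.x1 (Good.x0 (Good.x1 (c48
    zok0) (c49 zok0)) (Good.x1 (c50 zok0) (c51 zok0))) (c52 zok0)) (c53 zok0)))) (Good.y2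
    (c54 zok0) (Good.x0 (c55 zok0) (Good.x0 (Good.x1 (c56 zok0) (c57 zok0)) (c58 zok0)))))
    (Good.y1 (Good.y2 (c59 zok0) (Good.x0 (c60 zok0) (Good.x0 (c61 zok0) (Good.x1 (c62
    zok0) (c63 zok0))))) (c64 zok0)))) (c65 zok0)) (c66 zok0)) (Good.y0 (Good.y1 (Good.y2
    (Good.y0 (Good.y1 (Good.y2 (Good.x0 (c67 zok0) (Good.x0 (Good.x1 (Good.x0 (Good.x1
    (c68 zok0) (c69 zok0)) (Good.x1 (c70 zok0) (c71 zok0))) (c72 zok0)) (c73 zok0)))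
    (c74 zok0)) (Good.y2 (Good.x0 (c75 zok0) (Good.x0 (Good.x1 (c76 zok0) (c77 zok0))
    (c78 zok0))) (c79 zok0))) (Good.y1 (Good.y2 (Good.x0 (c80 zok0) (Good.x0 (c81 zok0)
    (c82 zok0))) (c83 zok0)) (c84 zok0))) (c85 zok0)) (c86 zok0)) (c87 zok0)))))

theorem root1 : Good .a0 .a0 false 4 ⟨128, 384, 256, 384, 256, 256⟩ ⟨128, 384, 128, 384, 128, 384⟩ :=
  c88

theorem root2 : Good .a0 .a1 true 1 ⟨128, 384, 256, 384, 256, 256⟩ ⟨128, 384, 128, 384, 128, 384⟩ :=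
  (Good.y0 c89 c90)

theorem root3 : Good .a0 .a1 false 1 ⟨128, 384, 256, 384, 256, 256⟩ ⟨128, 384, 128, 384, 128, 384⟩ :=
  (Good.y0 c91 (Good.y1 c92 c93))

theorem root4 : Good .a0 .a2 true 1 ⟨128, 384, 256, 384, 256, 256⟩ ⟨128, 384, 128, 384, 128, 384⟩ :=
  (Good.y0 c94 c95)

theorem root5 : Good .a0 .a2 false 1 ⟨128, 384, 256, 384, 256, 256⟩ ⟨128, 384, 128, 384, 128, 384⟩ :=
  (Good.y0 c96 c97)

theorem root6 : Good .a0 .a3 true 1 ⟨128, 384, 256, 384, 256, 256⟩ ⟨128, 384, 128, 384, 128, 384⟩ :=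
  (Good.y0 c98 (Good.y1 (Good.y2 c99 c100) c101))

theorem root7 : Good .a0 .a3 false 1 ⟨128, 384, 256, 384, 256, 256⟩ ⟨128, 384, 128, 384, 128, 384⟩ :=
  (Good.y0 c102 c103)

theorem root8 : Good .a2 .a0 true 1 ⟨256, 384, 256, 384, 256, 256⟩ ⟨128, 384, 128, 384, 128, 384⟩ :=
  (Good.y0 c104 (Good.y1 c105 c106))

theorem root9 : Good .a2 .a0 false 1 ⟨256, 384, 256, 384, 256, 256⟩ ⟨128, 384, 128, 384, 128, 384⟩ :=
  c107

theorem root10 : Good .a2 .a1 true 2 ⟨256, 384, 256, 384, 256, 256⟩ ⟨128, 384, 128, 384, 128, 384⟩ :=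
  (Good.y0 c108 (Good.y1 c109 c110))

theorem root11 : Good .a2 .a1 false 2 ⟨256, 384, 256, 384, 256, 256⟩ ⟨128, 384, 128, 384, 128, 384⟩ :=
  c111

theorem root12 : Good .a2 .a2 true 0 ⟨256, 384, 256, 384, 256, 256⟩ ⟨0, 512, 0, 512, 0, 512⟩ :=
  (Good.y0 (Good.y1 (c112 zok1) (Good.y2 (Good.y0 (c113 zok1) (Good.y1 (Good.y2 (c114
    zok1) (Good.y0 (c115 zok1) (c116 zok1))) (c117 zok1))) (Good.y0 (c118 zok1) (Good.y1
    (Good.y2 (Good.y0 (c119 zok1) (Good.y1 (c120 zok1) (c121 zok1))) (c122 zok1)) (c123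
    zok1))))) (Good.y1 (Good.y2 (c124 zok1) (c125 zok1)) (Good.y2 (Good.y0 (Good.y1 (Good.y2
    (c126 zok1) (Good.y0 (Good.y1 (Good.y2 (c127 zok1) (Good.x0 (Good.x1 (Good.x0 (Good.x1
    (Good.y0 (c128 zok1) (c129 zok1)) (Good.y0 (c130 zok1) (c131 zok1))) (Good.x1 (Good.y0
    (c132 zok1) (Good.y1 (c133 zok1) (c134 zok1))) (Good.y0 (c135 zok1) (c136 zok1))))
    (c137 zok1)) (c138 zok1))) (Good.y2 (c139 zok1) (Good.x0 (Good.x1 (c140 zok1) (Good.x0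
    (Good.x1 (Good.y0 (Good.y1 (c141 zok1) (c142 zok1)) (c143 zok1)) (c144 zok1)) (Good.x1
    (c145 zok1) (c146 zok1)))) (c147 zok1)))) (Good.y1 (Good.y2 (c148 zok1) (Good.x0
    (c149 zok1) (Good.x1 (Good.x0 (c150 zok1) (c151 zok1)) (c152 zok1)))) (c153 zok1))))
    (c154 zok1)) (c155 zok1)) (Good.y0 (Good.y1 (Good.y2 (Good.y0 (Good.y1 (Good.y2 (Good.x0
    (Good.x1 (Good.x0 (Good.x1 (Good.y0 (c156 zok1) (c157 zok1)) (Good.y0 (c158 zok1)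
    (c159 zok1))) (Good.x1 (Good.y0 (c160 zok1) (Good.y1 (c161 zok1) (c162 zok1))) (Good.y0
    (c163 zok1) (c164 zok1)))) (c165 zok1)) (c166 zok1)) (c167 zok1)) (Good.y2 (Good.x0
    (Good.x1 (c168 zok1) (Good.x0 (Good.x1 (Good.y0 (c169 zok1) (c170 zok1)) (c171 zok1))
    (Good.x1 (c172 zok1) (c173 zok1)))) (c174 zok1)) (c175 zok1))) (Good.y1 (Good.y2
    (Good.x0 (c176 zok1) (Good.x1 (Good.x0 (c177 zok1) (c178 zok1)) (c179 zok1))) (c180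
    zok1)) (c181 zok1))) (c182 zok1)) (c183 zok1)) (c184 zok1)))))

theorem root13 : Good .a2 .a2 false 4 ⟨256, 384, 256, 384, 256, 256⟩ ⟨128, 384, 128, 384, 128, 384⟩ :=
  c185

theorem root14 : Good .a2 .a3 true 3 ⟨256, 384, 256, 384, 256, 256⟩ ⟨128, 384, 128, 384, 128, 384⟩ :=
  c186

theorem root15 : Good .a2 .a3 false 3 ⟨256, 384, 256, 384, 256, 256⟩ ⟨128, 384, 128, 384, 128, 384⟩ :=
  c187

theorem slice_pair (x y : E 4) (hx : InSlice x) (hy : y ≠ 0) :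
    PairOK (x 0) (x 1) (x 2) (x 3) (y 0) (y 1) (y 2) (y 3) :=
  cover_all root0 root1 root2 root3 root4 root5 root6 root7 root8 root9 root10 root11 root12 root13 root14 root15 x y hx hy

end Pool.Agent.P.MP_f12b6c_an
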