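import Pool.Agent.P.MP_f12b6c_an.S4Tri
import Pool.Agent.P.MP_f12b6c_an.S4Cst

/-!
The box checker for the pair condition. Coordinates of boxes are natural numbers with offset
`256`, the face of the cube lies at height `± 128`.
-/

namespace Pool.Agent.P.MP_f12b6c_an

/-- The coordinate axis orthogonal to a face of the cube. -/
inductive Ax where
  | a0
  | a1
  | a2
  | a3

/-- Place the height `a` and the three face coordinates into `ℝ⁴`. -/
noncomputable def emb {R β : Type} (ax : Ax) (a u0 u1 u2 : R) (k : R → R → R → R → β) : β :=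
  @Ax.rec (fun _ => β) (k a u2 u0 u1) (k u0 a u1 u2) (k u0 u1 a u2) (k u0 u1 u2 a) ax

/-- A box in a face. -/
structure Box where
  l0 : ℕ
  h0 : ℕ
  l1 : ℕ
  h1 : ℕ
  l2 : ℕ
  h2 : ℕ

/-- Conjunction. -/
noncomputable def band (a b : Bool) : Bool := @Bool.rec (fun _ => Bool) false b a

/-- Disjunction. -/
noncomputable def bor (a b : Bool) : Bool := @Bool.rec (fun _ => Bool) b true a

/-- Maximum. -/
def nmax (a b : ℕ) : ℕ := Nat.add a (Nat.sub b a)

/-- One Newton step for the square root of `m`. -/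
def nstep (m x : ℕ) : ℕ := Nat.shiftRight (Nat.add x (Nat.div m x)) 1

/-- An approximate square root. -/
def nsqrt (m : ℕ) : ℕ :=
  nstep m (nstep m (nstep m (nstep m (nstep m
    (Nat.shiftLeft 1 (Nat.shiftRight (Nat.succ (Nat.log2 m)) 1))))))

/-- Evaluate a natural number before passing it on. -/
noncomputable def force (n : ℕ) (k : ℕ → Bool) : Bool :=
  @Nat.rec (fun _ => Bool) (k 0) (fun m _ => k (Nat.succ m)) n

/-- Geometry of a cell: packed coordinates, their majorants, an approximate radius and the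
square of its error. -/
structure Geo where
  ok : Bool
  xa : ℤ
  u0 : ℤ
  u1 : ℤ
  u2 : ℤ
  ma : ℕ
  m0 : ℕ
  m1 : ℕ
  m2 : ℕ
  ka : ℕ
  eta : ℕ

/-- The bound `2 ^ 37` for the majorants of the coordinates. -/
def BX : ℕ := 137438953472

/-- The geometry from centre `c`, radii `r`, `n2 = a² + |c|²`, `sm = Σ r|c|`, the enlarged
radii `w`. -/
noncomputable def geo2 (T0 T1 T2 : ℕ) (sg : Bool) (a : ℕ) (c0 c1 c2 : ℤ)
    (n2 sm en w0 w1 w2 : ℕ) : Geo :=
  let lam := isub (Int.ofNat (Nat.mul 63 n2))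
    (iadd (iadd (ism (Nat.mul w0 T0) c0) (ism (Nat.mul w1 T1) c1)) (ism (Nat.mul w2 T2) c2))
  let ml := Nat.add (Nat.mul 63 n2) (Nat.mul en sm)
  let ma := Nat.mul a ml
  let m0 := Nat.add (Nat.mul (iabs c0) ml) (Nat.mul w0 n2)
  let m1 := Nat.add (Nat.mul (iabs c1) ml) (Nat.mul w1 n2)
  let m2 := Nat.add (Nat.mul (iabs c2) ml) (Nat.mul w2 n2)
  let rlo := Nat.mul n2 (Nat.mul (Nat.mul 63 n2) (Nat.mul 63 n2))
  let rhi := Nat.add rlo (Nat.mul (Nat.mul n2 n2)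
    (Nat.add (Nat.add (Nat.mul w0 w0) (Nat.mul w1 w1)) (Nat.mul w2 w2)))
  let ka := nsqrt (Nat.shiftRight (Nat.add rlo rhi) 1)
  let k2 := Nat.mul ka ka
  let e := nmax (Nat.sub rhi k2) (Nat.sub k2 rlo)
  ⟨band (Nat.ble (Nat.succ sm) n2) (band (Nat.ble ma BX) (band (Nat.ble m0 BX)
      (band (Nat.ble m1 BX) (band (Nat.ble m2 BX) (band (Nat.ble 1 ka)
        (Nat.ble ka (Nat.mul 2 BX))))))),
    @Bool.rec (fun _ => ℤ) (isub (Int.ofNat 0) (ism a lam)) (ism a lam) sg,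
    iadd (imul c0 lam) (Int.ofNat (Nat.mul (Nat.mul w0 n2) T0)),
    iadd (imul c1 lam) (Int.ofNat (Nat.mul (Nat.mul w1 n2) T1)),
    iadd (imul c2 lam) (Int.ofNat (Nat.mul (Nat.mul w2 n2) T2)),
    ma, m0, m1, m2, ka, Nat.succ (Nat.div (Nat.mul e e) k2)⟩

/-- The geometry from centre and radii. -/
noncomputable def geo1 (T0 T1 T2 : ℕ) (sg : Bool) (a : ℕ) (c0 c1 c2 : ℤ) (r0 r1 r2 : ℕ) : Geo :=
  let n2 := Nat.add (Nat.add (Nat.add (Nat.mul a a) (Nat.mul (iabs c0) (iabs c0)))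
    (Nat.mul (iabs c1) (iabs c1))) (Nat.mul (iabs c2) (iabs c2))
  let sm := Nat.add (Nat.add (Nat.mul r0 (iabs c0)) (Nat.mul r1 (iabs c1))) (Nat.mul r2 (iabs c2))
  let m := Nat.sub n2 sm
  let en := Nat.div (Nat.add (Nat.mul 63 n2) (Nat.sub m 1)) m
  geo2 T0 T1 T2 sg a c0 c1 c2 n2 sm en (Nat.mul en r0) (Nat.mul en r1) (Nat.mul en r2)

/-- Exact quotient of an integer by a natural number. -/
noncomputable def idiv (a : ℤ) (g : ℕ) : ℤ :=
  @Int.rec (fun _ => ℤ) (fun m => Int.ofNat (Nat.div m g))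
    (fun m => nneg (Nat.div (Nat.succ m) g)) a

/-- The geometry after removing the common factor `g`. -/
noncomputable def geo0 (c : Cst) (sg : Bool) (c0 c1 c2 : ℤ) (r0 r1 r2 g : ℕ) : Geo :=
  geo1 (Nat.pow 2 c.K) (Nat.pow 2 (Nat.mul c.K (Nat.succ c.d)))
    (Nat.pow 2 (Nat.mul c.K (Nat.succ (Nat.mul c.d (Nat.succ c.d))))) sg (Nat.div 256 g)
    (idiv c0 g) (idiv c1 g) (idiv c2 g) (Nat.div r0 g) (Nat.div r1 g) (Nat.div r2 g)

/-- The common factor of centre, radii and height. -/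
noncomputable def gcd7 (c0 c1 c2 : ℤ) (r0 r1 r2 : ℕ) : ℕ :=
  Nat.gcd (Nat.gcd (Nat.gcd 256 (iabs c0)) (Nat.gcd (iabs c1) (iabs c2)))
    (Nat.gcd r0 (Nat.gcd r1 r2))

/-- The geometry from centre and radii. -/
noncomputable def geoc (c : Cst) (sg : Bool) (c0 c1 c2 : ℤ) (r0 r1 r2 : ℕ) : Geo :=
  geo0 c sg c0 c1 c2 r0 r1 r2 (gcd7 c0 c1 c2 r0 r1 r2)

/-- The geometry of a box. -/
noncomputable def geo (c : Cst) (sg : Bool) (B : Box) : Geo :=
  geoc c sg
    (snn (Nat.add B.l0 B.h0) 512) (snn (Nat.add B.l1 B.h1) 512) (snn (Nat.add B.l2 B.h2) 512)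
    (Nat.sub B.h0 B.l0) (Nat.sub B.h1 B.l1) (Nat.sub B.h2 B.l2)

/-- The largest row sum. -/
def rowmax (m : Ten ℕ) : ℕ :=
  nmax
    (nmax (Nat.add (Nat.add m.f00 m.f01) (Nat.add m.f02 m.f03))
      (Nat.add (Nat.add m.f01 m.f11) (Nat.add m.f12 m.f13)))
    (nmax (Nat.add (Nat.add m.f02 m.f12) (Nat.add m.f22 m.f23))
      (Nat.add (Nat.add m.f03 m.f13) (Nat.add m.f23 m.f33)))

/-- The packed square of the radius. -/
noncomputable def rhoI (g : Geo) : ℤ :=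
  iadd (iadd (imul g.xa g.xa) (imul g.u0 g.u0)) (iadd (imul g.u1 g.u1) (imul g.u2 g.u2))

/-- `a * e + b * o`, entrywise. -/
noncomputable def comb (a : ℕ) (b : ℤ) (e o : Ten ℤ) : Ten ℤ :=
  Ten.zip (fun p q => iadd (ism a p) (imul b q)) e o

/-- Data of a cell for comparisons of values. -/
structure Cell where
  ok : Bool
  g : Ten ℤ
  d : ℤ
  r : ℕ

/-- The cell data from the geometry. -/
noncomputable def farCell1 (ax : Ax) (g : Geo) (rho : ℤ) : Cell :=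
  ⟨g.ok,
    comb (Nat.mul 2 g.ka) (iadd (Int.ofNat (Nat.mul g.ka g.ka)) rho)
      (emb ax g.xa g.u0 g.u1 g.u2 (GE iadd imul isub ism))
      (emb ax g.xa g.u0 g.u1 g.u2 (GO iadd imul isub ism)),
    ism (Nat.mul 2 g.ka) (imul (imul rho rho) rho),
    Nat.mul g.eta (rowmax (emb ax g.ma g.m0 g.m1 g.m2 (GO Nat.add Nat.mul Nat.add Nat.mul)))⟩

/-- The cell data of a box. -/
noncomputable def farCell (ax : Ax) (sg : Bool) (B : Box) : Cell :=
  farCell1 ax (geo c7 sg B) (rhoI (geo c7 sg B))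

/-- Data of a cell for comparisons of derivatives. -/
structure NCell where
  ok : Bool
  k0 : Ten ℤ
  k1 : Ten ℤ
  k2 : Ten ℤ
  r : ℕ

/-- One directional derivative. -/
noncomputable def nearK (ka : ℕ) (rho u : ℤ) (sel : Tri ℤ → ℤ) (te tO : Ten (Tri ℤ)) : Ten ℤ :=
  comb (Nat.mul 2 ka) (iadd (Int.ofNat (Nat.mul ka ka)) rho)
    (KD imul isub rho (ism 6 u) sel te) (KD imul isub rho (ism 5 u) sel tO)

/-- The majorant of the odd part of one directional derivative. -/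
def nearM (rho u : ℕ) (sel : Tri ℕ → ℕ) (tO : Ten (Tri ℕ)) : ℕ :=
  rowmax (KD Nat.mul Nat.add rho (Nat.mul 5 u) sel tO)

/-- The derivative data from the geometry. -/
noncomputable def nearCell1 (g : Geo) (rho : ℤ) (mr : ℕ) (te tO : Ten (Tri ℤ))
    (tm : Ten (Tri ℕ)) : NCell :=
  ⟨g.ok, nearK g.ka rho g.u0 Tri.d0 te tO, nearK g.ka rho g.u1 Tri.d1 te tO,
    nearK g.ka rho g.u2 Tri.d2 te tO,
    Nat.mul g.eta (Nat.add (Nat.add (nearM mr g.m0 Tri.d0 tm) (nearM mr g.m1 Tri.d1 tm))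
      (nearM mr g.m2 Tri.d2 tm))⟩

/-- Coordinates with the three coordinate directions of the face. -/
noncomputable def embT {R β : Type} (z o : R) (ax : Ax) (a u0 u1 u2 : R)
    (k : Tri R → Tri R → Tri R → Tri R → β) : β :=
  emb ax (⟨a, z, z, z⟩ : Tri R) ⟨u0, o, z, z⟩ ⟨u1, z, o, z⟩ ⟨u2, z, z, o⟩ k

/-- The derivative data from the geometry. -/
noncomputable def nearCell2 (ax : Ax) (g : Geo) : NCell :=
  nearCell1 g (rhoI g)
    (Nat.add (Nat.add (Nat.mul g.ma g.ma) (Nat.mul g.m0 g.m0))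
      (Nat.add (Nat.mul g.m1 g.m1) (Nat.mul g.m2 g.m2)))
    (embT (Int.ofNat 0) (Int.ofNat 1) ax g.xa g.u0 g.u1 g.u2 (GET iadd imul isub ism))
    (embT (Int.ofNat 0) (Int.ofNat 1) ax g.xa g.u0 g.u1 g.u2 (GOT iadd imul isub ism))
    (embT 0 1 ax g.ma g.m0 g.m1 g.m2 (GOT Nat.add Nat.mul Nat.add Nat.mul))

/-- The derivative data of a box. -/
noncomputable def nearCell (ax : Ax) (B : Box) : NCell := nearCell2 ax (geo c8 true B)

/-- A coefficient matrix with natural diagonal. -/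
structure Wit where
  ok : Bool
  tr : ℕ
  n00 : ℕ
  n11 : ℕ
  n22 : ℕ
  n33 : ℕ
  a01 : ℤ
  a02 : ℤ
  a03 : ℤ
  a12 : ℤ
  a13 : ℤ
  a23 : ℤ

/-- `L Lᵀ + diag (t1, t1, t2, t2)` for a lower triangular `L`. -/
noncomputable def wit1 (l00 l11 l22 l33 t1 t2 : ℕ) (l10 l20 l21 l30 l31 l32 : ℤ) : Wit :=
  let n00 := Nat.add (Nat.mul l00 l00) t1
  let n11 := Nat.add (Nat.add (Nat.mul (iabs l10) (iabs l10)) (Nat.mul l11 l11)) t1
  let n22 := Nat.add (Nat.add (Nat.add (Nat.mul (iabs l20) (iabs l20))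
    (Nat.mul (iabs l21) (iabs l21))) (Nat.mul l22 l22)) t2
  let n33 := Nat.add (Nat.add (Nat.add (Nat.add (Nat.mul (iabs l30) (iabs l30))
    (Nat.mul (iabs l31) (iabs l31))) (Nat.mul (iabs l32) (iabs l32))) (Nat.mul l33 l33)) t2
  let p := Nat.add n00 n11
  let q := Nat.add n22 n33
  let tr := Nat.add p q
  ⟨band (Nat.beq (Nat.mul 7 p) (Nat.mul 20 q)) (band (Nat.ble tr (Nat.mul 65536 t1))
      (band (Nat.ble tr (Nat.mul 65536 t2)) (band (Nat.ble 1 t1) (Nat.ble tr 134217728)))),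
    tr, n00, n11, n22, n33, ism l00 l10, ism l00 l20, ism l00 l30,
    iadd (imul l10 l20) (ism l11 l21), iadd (imul l10 l30) (ism l11 l31),
    iadd (iadd (imul l20 l30) (imul l21 l31)) (ism l22 l32)⟩

/-- A field of fourteen bits. -/
def fld (n s : ℕ) : ℕ := Nat.land (Nat.shiftRight n s) 16383

/-- Decode a coefficient matrix. -/
noncomputable def wit (n : ℕ) : Wit :=
  wit1 (fld n 0) (fld n 14) (fld n 28) (fld n 42) (fld n 56) (fld n 70)
    (snn (fld n 84) 8192) (snn (fld n 98) 8192) (snn (fld n 112) 8192) (snn (fld n 126) 8192)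
    (snn (fld n 140) 8192) (snn (fld n 154) 8192)

/-- The trace pairing on packed matrices. -/
noncomputable def dotI (a : Wit) (g : Ten ℤ) : ℤ :=
  iadd (iadd (iadd (ism a.n00 g.f00) (ism a.n11 g.f11)) (iadd (ism a.n22 g.f22) (ism a.n33 g.f33)))
    (ism 2 (iadd (iadd (iadd (imul a.a01 g.f01) (imul a.a02 g.f02))
      (iadd (imul a.a03 g.f03) (imul a.a12 g.f12))) (iadd (imul a.a13 g.f13) (imul a.a23 g.f23))))

/-- Comparison of values with threshold `tau`. -/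
noncomputable def farLeaf1 (cx cy : Cell) (a : Wit) (tau : ℤ) : Bool :=
  band cx.ok (band cy.ok (band a.ok
    (band (lowOK c7 (isub (dotI a cx.g) (imul tau cx.d)) (Nat.mul cx.r a.tr))
      (lowOK c7 (isub (imul tau cy.d) (dotI a cy.g)) (Nat.mul cy.r a.tr)))))

/-- Comparison of values. -/
noncomputable def farLeaf (cx cy : Cell) (n : ℕ) : Bool :=
  farLeaf1 cx cy (wit n) (snn (Nat.land (Nat.shiftRight n 168) 68719476735) 34359738368)

/-- Sign test of the derivative in the directions of a box. -/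
noncomputable def nearLeaf1 (r : ℕ) (sg : Bool) (a : Wit) (P Q0 Q1 : ℤ) (l0 h0 l1 h1 : ℕ) : Bool :=
  band a.ok (lowOK c8
    (iadd (iadd (@Bool.rec (fun _ => ℤ) (isub (Int.ofNat 0) (ism 32 P)) (ism 32 P) sg)
      (imul (snn (Nat.add l0 h0) 32) Q0)) (imul (snn (Nat.add l1 h1) 32) Q1))
    (Nat.add (Nat.add (Nat.mul (Nat.mul 32 r) a.tr) (Nat.mul (Nat.sub h0 l0) (absB c8 Q0)))
      (Nat.mul (Nat.sub h1 l1) (absB c8 Q1))))

/-- Trees of direction boxes. -/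
inductive ET where
  | leaf (n : ℕ)
  | s0 (l r : ET)
  | s1 (l r : ET)

/-- Check a tree of direction boxes. -/
noncomputable def chkE (r : ℕ) (sg : Bool) (p q0 q1 : Ten ℤ) (t : ET) : ℕ → ℕ → ℕ → ℕ → Bool :=
  @ET.rec (fun _ => ℕ → ℕ → ℕ → ℕ → Bool)
    (fun n l0 h0 l1 h1 =>
      nearLeaf1 r sg (wit n) (dotI (wit n) p) (dotI (wit n) q0) (dotI (wit n) q1) l0 h0 l1 h1)
    (fun _ _ il ir l0 h0 l1 h1 => band (il l0 (Nat.shiftRight (Nat.add l0 h0) 1) l1 h1)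
      (ir (Nat.shiftRight (Nat.add l0 h0) 1) h0 l1 h1))
    (fun _ _ il ir l0 h0 l1 h1 => band (il l0 h0 l1 (Nat.shiftRight (Nat.add l1 h1) 1))
      (ir l0 h0 (Nat.shiftRight (Nat.add l1 h1) 1) h1)) t

/-- Check all six faces of the cube of directions. -/
noncomputable def nearChk (c : NCell) (t1 t2 t3 t4 t5 t6 : ET) : Bool :=
  band c.ok
    (band (chkE c.r true c.k0 c.k1 c.k2 t1 0 32 0 32) (band (chkE c.r false c.k0 c.k1 c.k2 t2 0 32 0 32)
    (band (chkE c.r true c.k1 c.k0 c.k2 t3 0 32 0 32) (band (chkE c.r false c.k1 c.k0 c.k2 t4 0 32 0 32)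
    (band (chkE c.r true c.k2 c.k0 c.k1 t5 0 32 0 32) (chkE c.r false c.k2 c.k0 c.k1 t6 0 32 0 32))))))

/-- A field of ten bits. -/
def fl10 (n s : ℕ) : ℕ := Nat.land (Nat.shiftRight n s) 1023

/-- Decode a box. -/
def zbox (n : ℕ) : Box := ⟨fl10 n 0, fl10 n 10, fl10 n 20, fl10 n 30, fl10 n 40, fl10 n 50⟩

/-- The `i`-th box of a table. -/
def zone (tab i : ℕ) : Box :=
  zbox (Nat.land (Nat.shiftRight tab (Nat.mul 64 i)) 18446744073709551615)

/-- Lists of six direction trees. -/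
inductive NL where
  | nil
  | cons (t1 t2 t3 t4 t5 t6 : ET) (rest : NL)

/-- Check the zones with numbers `i, …, j - 1`. -/
noncomputable def chkNL (ax : Ax) (tab j : ℕ) (l : NL) : ℕ → Bool :=
  @NL.rec (fun _ => ℕ → Bool) (fun i => Nat.beq i j)
    (fun t1 t2 t3 t4 t5 t6 _ ih i =>
      band (nearChk (nearCell ax (zone tab i)) t1 t2 t3 t4 t5 t6) (ih (Nat.succ i))) l

/-- Inclusion of boxes. -/
noncomputable def subB (A B : Box) : Bool :=
  band (Nat.ble B.l0 A.l0) (band (Nat.ble A.h0 B.h0) (band (Nat.ble B.l1 A.l1)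
    (band (Nat.ble A.h1 B.h1) (band (Nat.ble B.l2 A.l2) (Nat.ble A.h2 B.h2)))))

/-- The box misses the unit disc. -/
def prX (X : Box) : Bool :=
  Nat.ble 16385
    (Nat.add (Nat.mul (Nat.add (Nat.sub X.l0 256) (Nat.sub 256 X.h0))
        (Nat.add (Nat.sub X.l0 256) (Nat.sub 256 X.h0)))
      (Nat.mul (Nat.add (Nat.sub X.l1 256) (Nat.sub 256 X.h1))
        (Nat.add (Nat.sub X.l1 256) (Nat.sub 256 X.h1))))

/-- The box misses the part of the face that has to be covered. -/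
noncomputable def prY (pm : ℕ) (Y : Box) : Bool :=
  bor (band (Nat.beq pm 0)
      (bor (bor (Nat.ble 416 Y.l0) (Nat.ble Y.h0 96))
        (bor (bor (Nat.ble 416 Y.l1) (Nat.ble Y.h1 96)) (bor (Nat.ble 416 Y.l2) (Nat.ble Y.h2 96)))))
    (bor (band (Nat.beq pm 1) (Nat.ble 359 Y.l0))
      (bor (band (Nat.beq pm 2) (Nat.ble 359 Y.l1)) (band (Nat.beq pm 3) (Nat.ble 359 Y.l2))))

/-- Trees of pairs of boxes. -/
inductive DT where
  | far (n : ℕ)
  | inz (i : ℕ)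
  | px
  | py
  | x0 (l r : DT)
  | x1 (l r : DT)
  | y0 (l r : DT)
  | y1 (l r : DT)
  | y2 (l r : DT)

/-- Check a tree of pairs of boxes. -/
noncomputable def chk (ax ay : Ax) (sg : Bool) (pm tab nz : ℕ) (t : DT) : Box → Box → Bool :=
  @DT.rec (fun _ => Box → Box → Bool)
    (fun n X Y => farLeaf (farCell ax true X) (farCell ay sg Y) n)
    (fun i X Y => band (Nat.ble (Nat.succ i) nz) (band (subB X (zone tab i)) (subB Y (zone tab i))))
    (fun X _ => prX X)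
    (fun _ Y => prY pm Y)
    (fun _ _ il ir X Y => @Box.rec (fun _ => Bool) (fun l0 h0 l1 h1 l2 h2 =>
      force (Nat.shiftRight (Nat.add l0 h0) 1) fun m =>
        band (il ⟨l0, m, l1, h1, l2, h2⟩ Y) (ir ⟨m, h0, l1, h1, l2, h2⟩ Y)) X)
    (fun _ _ il ir X Y => @Box.rec (fun _ => Bool) (fun l0 h0 l1 h1 l2 h2 =>
      force (Nat.shiftRight (Nat.add l1 h1) 1) fun m =>
        band (il ⟨l0, h0, l1, m, l2, h2⟩ Y) (ir ⟨l0, h0, m, h1, l2, h2⟩ Y)) X)
    (fun _ _ il ir X Y => @Box.rec (fun _ => Bool) (fun l0 h0 l1 h1 l2 h2 =>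
      force (Nat.shiftRight (Nat.add l0 h0) 1) fun m =>
        band (il X ⟨l0, m, l1, h1, l2, h2⟩) (ir X ⟨m, h0, l1, h1, l2, h2⟩)) Y)
    (fun _ _ il ir X Y => @Box.rec (fun _ => Bool) (fun l0 h0 l1 h1 l2 h2 =>
      force (Nat.shiftRight (Nat.add l1 h1) 1) fun m =>
        band (il X ⟨l0, h0, l1, m, l2, h2⟩) (ir X ⟨l0, h0, m, h1, l2, h2⟩)) Y)
    (fun _ _ il ir X Y => @Box.rec (fun _ => Bool) (fun l0 h0 l1 h1 l2 h2 =>
      force (Nat.shiftRight (Nat.add l2 h2) 1) fun m =>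
        band (il X ⟨l0, h0, l1, h1, l2, m⟩) (ir X ⟨l0, h0, l1, h1, m, h2⟩)) Y) t

end Pool.Agent.P.MP_f12b6c_an
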