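import Pool.Agent.P.MP_f12b6c_an.Defs

/-!
The explicit function on `ℝ⁴ = ℂ²` that is shown to be a singular viscosity solution.
With `z₁ = x₀ + i x₁`, `z₂ = x₂ + i x₃` it is
`(7|z₁|² - 20|z₂|²) log|x| + 30 Re(z₁² conj z₂)/|x| - 9|z₁|²|z₂|²/|x|²`, and `0` at the origin.
-/

namespace Pool.Agent.P.MP_f12b6c_an

/-- The function `(7|z₁|² - 20|z₂|²) log|x| + 30 Re(z₁² conj z₂)/|x| - 9|z₁|²|z₂|²/|x|²` on `ℝ⁴`,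
where `z₁ = x₀ + i x₁` and `z₂ = x₂ + i x₃`; its value at `0` is `0`. -/
noncomputable def U4 (x : E 4) : ℝ :=
  (7 * (x 0 ^ 2 + x 1 ^ 2) - 20 * (x 2 ^ 2 + x 3 ^ 2)) * Real.log ‖x‖
    + 30 * ((x 0 ^ 2 - x 1 ^ 2) * x 2 + 2 * x 0 * x 1 * x 3) / ‖x‖
    - 9 * ((x 0 ^ 2 + x 1 ^ 2) * (x 2 ^ 2 + x 3 ^ 2)) / ‖x‖ ^ 2

end Pool.Agent.P.MP_f12b6c_an
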