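import Pool.Agent.P.MP_f12b6c_an.S4Int

/-! Closure properties of `Rep`. -/

namespace Pool.Agent.P.MP_f12b6c_an

variable {K d : ℕ} {t0 t1 t2 : ℝ}

theorem rep_const (n : ℤ) : Rep K d t0 t1 t2 0 n.natAbs n (n : ℝ) :=
  ⟨[(n, 0, 0, 0)], by simp, by simp, by simp, by simp⟩

theorem rep_var0 : Rep K d t0 t1 t2 1 1 ((2 ^ K : ℕ) : ℤ) t0 :=
  ⟨[(1, 1, 0, 0)], by simp, by simp, by simp, by simp⟩

theorem rep_var1 : Rep K d t0 t1 t2 1 1 ((2 ^ (K * (d + 1)) : ℕ) : ℤ) t1 :=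
  ⟨[(1, 0, 1, 0)], by simp, by simp, by simp, by simp⟩

theorem rep_var2 : Rep K d t0 t1 t2 1 1 ((2 ^ (K * (d * (d + 1) + 1)) : ℕ) : ℤ) t2 :=
  ⟨[(1, 0, 0, 1)], by simp, by simp, by simp, by simp⟩

theorem Rep.mono {g g' M M' : ℕ} {N : ℤ} {y : ℝ} (h : Rep K d t0 t1 t2 g M N y) (hg : g ≤ g')
    (hM : M ≤ M') : Rep K d t0 t1 t2 g' M' N y := by
  obtain ⟨l, h1, h2, h3, h4⟩ := h
  exact ⟨l, fun q hq => (h1 q hq).trans hg, h2.trans hM, h3, h4⟩

theorem Rep.add {g g' M M' : ℕ} {N N' : ℤ} {y y' : ℝ} (h : Rep K d t0 t1 t2 g M N y)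
    (h' : Rep K d t0 t1 t2 g' M' N' y') :
    Rep K d t0 t1 t2 (max g g') (M + M') (N + N') (y + y') := by
  obtain ⟨l, h1, h2, rfl, rfl⟩ := h
  obtain ⟨l', g1, g2, rfl, rfl⟩ := h'
  refine ⟨l ++ l', fun q hq => ?_, ?_, ?_, ?_⟩
  · rcases List.mem_append.1 hq with hq | hq
    · exact (h1 q hq).trans (le_max_left _ _)
    · exact (g1 q hq).trans (le_max_right _ _)
  · rw [List.map_append, List.sum_append]
    exact add_le_add h2 g2
  · rw [List.map_append, List.sum_append]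
  · rw [List.map_append, List.sum_append]

theorem s4kron_sum {α R : Type} [CommSemiring R] (m : α → α → α) (φ : α → R)
    (hφ : ∀ p q, φ (m p q) = φ p * φ q) (l l' : List α) :
    ((l.flatMap fun p => l'.map (m p)).map φ).sum = (l.map φ).sum * (l'.map φ).sum := by
  induction l with
  | nil => simp
  | cons p l ih =>
    rw [List.flatMap_cons, List.map_append, List.sum_append, ih, List.map_cons, List.sum_cons,
      add_mul, List.map_map, ← List.sum_map_mul_left l' φ (φ p),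
      List.map_congr_left (f := φ ∘ m p) fun q _ => hφ p q]

theorem Rep.s4kron_mul {g g' M M' : ℕ} {N N' : ℤ} {y y' : ℝ} (h : Rep K d t0 t1 t2 g M N y)
    (h' : Rep K d t0 t1 t2 g' M' N' y') :
    Rep K d t0 t1 t2 (g + g') (M * M') (N * N') (y * y') := by
  obtain ⟨l, h1, h2, rfl, rfl⟩ := h
  obtain ⟨l', g1, g2, rfl, rfl⟩ := h'
  let m : ℤ × ℕ × ℕ × ℕ → ℤ × ℕ × ℕ × ℕ → ℤ × ℕ × ℕ × ℕ := fun p q =>
    (p.1 * q.1, p.2.1 + q.2.1, p.2.2.1 + q.2.2.1, p.2.2.2 + q.2.2.2)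
  refine ⟨l.flatMap fun p => l'.map (m p), fun q hq => ?_, ?_, ?_, ?_⟩
  · obtain ⟨a, ha, hq⟩ := List.mem_flatMap.1 hq
    obtain ⟨b, hb, rfl⟩ := List.mem_map.1 hq
    have := h1 a ha
    have := g1 b hb
    simp only [m]
    omega
  · rw [s4kron_sum m _ fun p q => Int.natAbs_mul p.1 q.1]
    exact Nat.mul_le_mul h2 g2
  · refine (s4kron_sum m _ (fun p q => ?_) l l').symm
    simp only [m]
    ring
  · refine (s4kron_sum m _ (fun p q => ?_) l l').symm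
    simp only [m]
    push_cast
    ring

theorem Rep.sub {g g' M M' : ℕ} {N N' : ℤ} {y y' : ℝ} (h : Rep K d t0 t1 t2 g M N y)
    (h' : Rep K d t0 t1 t2 g' M' N' y') :
    Rep K d t0 t1 t2 (max g g') (M + M') (N - N') (y - y') := by
  have h2 := h.add ((rep_const (-1)).s4kron_mul h')
  simpa [sub_eq_add_neg] using h2

theorem Rep.mul {g g' M M' : ℕ} {N N' : ℤ} {y y' : ℝ} (h : Rep K d t0 t1 t2 g M N y)
    (h' : Rep K d t0 t1 t2 g' M' N' y') :
    Rep K d t0 t1 t2 (g + g') (M * M') (N * N') (y * y') :=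
  h.s4kron_mul h'

theorem Rep.smul {g M : ℕ} {N : ℤ} {y : ℝ} (h : Rep K d t0 t1 t2 g M N y) (k : ℤ) :
    Rep K d t0 t1 t2 g (k.natAbs * M) (k * N) ((k : ℝ) * y) := by
  simpa using (rep_const k).mul h

theorem Rep.abs_le {g M : ℕ} {N : ℤ} {y : ℝ} (h : Rep K d t0 t1 t2 g M N y) (h0 : |t0| ≤ 1)
    (h1 : |t1| ≤ 1) (h2 : |t2| ≤ 1) : |y| ≤ (M : ℝ) := by
  obtain ⟨l, -, hM, -, rfl⟩ := h
  refine le_trans ?_ (Nat.cast_le.2 hM)
  clear hM
  induction l with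
  | nil => simp
  | cons p l ih =>
    rw [List.map_cons, List.sum_cons, List.map_cons, List.sum_cons, Nat.cast_add]
    refine (abs_add_le _ _).trans (add_le_add ?_ ih)
    rw [abs_mul, abs_mul, abs_mul, abs_pow, abs_pow, abs_pow, Nat.cast_natAbs, Int.cast_abs,
      mul_assoc, mul_assoc]
    exact mul_le_of_le_one_right (abs_nonneg _) (mul_le_one₀ (pow_le_one₀ (abs_nonneg _) h0)
      (by positivity) (mul_le_one₀ (pow_le_one₀ (abs_nonneg _) h1) (by positivity)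
        (pow_le_one₀ (abs_nonneg _) h2)))

end Pool.Agent.P.MP_f12b6c_an
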