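import Pool.Agent.P.MP_f12b6c_an.S4Prop
import Pool.Agent.P.MP_f12b6c_an.S4Kron

/-! Every ray through a box passes through a point described by the geometry data. -/

namespace Pool.Agent.P.MP_f12b6c_an

theorem s4geo_congr {K d : ℕ} {t0 t1 t2 : ℝ} {g g' M M' : ℕ} {N N' : ℤ} {y y' : ℝ}
    (h : Rep K d t0 t1 t2 g M N y) (hg : g ≤ g') (hM : M ≤ M') (hN : N = N') (hy : y = y') :
    Rep K d t0 t1 t2 g' M' N' y' := by
  subst hN hy
  exact h.mono hg hM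

theorem s4geo_eta {s : ℝ} {ka rlo rhi : ℕ} (hk : 1 ≤ ka) (h1 : (rlo : ℝ) ≤ s) (h2 : s ≤ rhi) :
    (Real.sqrt s - ka) ^ 2 ≤
      ((max (rhi - ka * ka) (ka * ka - rlo) * max (rhi - ka * ka) (ka * ka - rlo) / (ka * ka) + 1
        : ℕ) : ℝ) := by
  set e := max (rhi - ka * ka) (ka * ka - rlo) with he
  have hs : 0 ≤ s := le_trans (Nat.cast_nonneg _) h1
  have e1 : rhi ≤ e + ka * ka := by
    have := le_max_left (rhi - ka * ka) (ka * ka - rlo)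
    omega
  have e2 : ka * ka ≤ e + rlo := by
    have := le_max_right (rhi - ka * ka) (ka * ka - rlo)
    omega
  have e1' : (rhi : ℝ) ≤ e + ka * ka := by exact_mod_cast e1
  have e2' : (ka : ℝ) * ka ≤ e + rlo := by exact_mod_cast e2
  have hkk : 0 < ka * ka := Nat.mul_pos hk hk
  have e3 : e * e < ka * ka * (e * e / (ka * ka) + 1) := Nat.lt_mul_div_succ _ hkk
  generalize e * e / (ka * ka) + 1 = eta at e3 ⊢
  have e3' : (e : ℝ) * e < ka * ka * eta := by exact_mod_cast e3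
  have hk' : (1 : ℝ) ≤ ka := by exact_mod_cast hk
  have hr := Real.sqrt_nonneg s
  have hq : Real.sqrt s ^ 2 = s := Real.sq_sqrt hs
  generalize Real.sqrt s = r at hr hq ⊢
  have h4 : (s - ka * ka) ^ 2 ≤ (e : ℝ) ^ 2 := sq_le_sq' (by linarith) (by linarith)
  have h5 : (r - ka) ^ 2 * (ka * ka) ≤ (s - ka * ka) ^ 2 := by
    have : (s - ka * ka) ^ 2 = (r - ka) ^ 2 * (r + ka) ^ 2 := by rw [← hq]; ring
    rw [this]
    exact mul_le_mul_of_nonneg_left (by nlinarith) (sq_nonneg _)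
  have h6 : (0 : ℝ) < ka * ka := by positivity
  refine le_of_mul_le_mul_right ?_ h6
  nlinarith

theorem s4geo_sq {a c0 c1 c2 n p0 p1 p2 : ℝ} (hn : n = a * a + c0 * c0 + c1 * c1 + c2 * c2)
    {A : ℝ} (hA : A ^ 2 = (a * (63 * n - (p0 * c0 + p1 * c1 + p2 * c2))) ^ 2) :
    n * (63 * n * (63 * n)) ≤ sq4 A (c0 * (63 * n - (p0 * c0 + p1 * c1 + p2 * c2)) + n * p0)
        (c1 * (63 * n - (p0 * c0 + p1 * c1 + p2 * c2)) + n * p1)
        (c2 * (63 * n - (p0 * c0 + p1 * c1 + p2 * c2)) + n * p2) ∧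
      sq4 A (c0 * (63 * n - (p0 * c0 + p1 * c1 + p2 * c2)) + n * p0)
        (c1 * (63 * n - (p0 * c0 + p1 * c1 + p2 * c2)) + n * p1)
        (c2 * (63 * n - (p0 * c0 + p1 * c1 + p2 * c2)) + n * p2) ≤
        n * (63 * n * (63 * n)) + n * n * (p0 ^ 2 + p1 ^ 2 + p2 ^ 2) := by
  have hn0 : 0 ≤ n := by
    rw [hn]
    linarith [mul_self_nonneg a, mul_self_nonneg c0, mul_self_nonneg c1, mul_self_nonneg c2]
  have key : sq4 A (c0 * (63 * n - (p0 * c0 + p1 * c1 + p2 * c2)) + n * p0)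
        (c1 * (63 * n - (p0 * c0 + p1 * c1 + p2 * c2)) + n * p1)
        (c2 * (63 * n - (p0 * c0 + p1 * c1 + p2 * c2)) + n * p2) =
      n * (63 * n * (63 * n)) +
        n * (n * (p0 ^ 2 + p1 ^ 2 + p2 ^ 2) - (p0 * c0 + p1 * c1 + p2 * c2) ^ 2) := by
    unfold sq4
    rw [hA]
    linear_combination (-(63 * n - (p0 * c0 + p1 * c1 + p2 * c2)) ^ 2) * hn
  have cs : (p0 * c0 + p1 * c1 + p2 * c2) ^ 2 ≤ n * (p0 ^ 2 + p1 ^ 2 + p2 ^ 2) := by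
    have : n * (p0 ^ 2 + p1 ^ 2 + p2 ^ 2) - (p0 * c0 + p1 * c1 + p2 * c2) ^ 2 =
        a ^ 2 * (p0 ^ 2 + p1 ^ 2 + p2 ^ 2) + (p0 * c1 - p1 * c0) ^ 2 + (p0 * c2 - p2 * c0) ^ 2 +
          (p1 * c2 - p2 * c1) ^ 2 := by rw [hn]; ring
    have h2 : 0 ≤ a ^ 2 * (p0 ^ 2 + p1 ^ 2 + p2 ^ 2) + (p0 * c1 - p1 * c0) ^ 2 +
        (p0 * c2 - p2 * c0) ^ 2 + (p1 * c2 - p2 * c1) ^ 2 := by positivity
    linarith
  rw [key]
  refine ⟨le_add_of_nonneg_right (mul_nonneg hn0 (by linarith)), ?_⟩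
  have := mul_nonneg hn0 (sq_nonneg (p0 * c0 + p1 * c1 + p2 * c2))
  nlinarith

theorem s4geo_wt {w : ℕ} {t : ℝ} (h : |t| ≤ 1) : ((w : ℝ) * t) ^ 2 ≤ (w : ℝ) * w := by
  have h1 : t ^ 2 ≤ 1 := by rw [← sq_abs]; exact pow_le_one₀ (abs_nonneg _) h
  have h2 : (0 : ℝ) ≤ (w : ℝ) ^ 2 := sq_nonneg _
  nlinarith

theorem s4geo_absq (c : ℤ) : ((c.natAbs : ℕ) : ℝ) * (c.natAbs : ℕ) = (c : ℝ) * c := by
  rw [Nat.cast_natAbs, Int.cast_abs, abs_mul_abs_self]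

/-- The sign of the height. -/
def s4geoSg (sg : Bool) : ℝ := @Bool.rec (fun _ => ℝ) (-1) 1 sg

theorem s4geo_two (c : Cst) (sg : Bool) (a : ℕ) (c0 c1 c2 : ℤ) (n2 sm en r0 r1 r2 : ℕ)
    (hn : n2 = a * a + c0.natAbs * c0.natAbs + c1.natAbs * c1.natAbs + c2.natAbs * c2.natAbs)
    (hs : sm = r0 * c0.natAbs + r1 * c1.natAbs + r2 * c2.natAbs)
    (hok : (geo2 (2 ^ c.K) (2 ^ (c.K * (c.d + 1))) (2 ^ (c.K * (c.d * (c.d + 1) + 1))) sg a
      c0 c1 c2 n2 sm en (en * r0) (en * r1) (en * r2)).ok = true)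
    {t0 t1 t2 : ℝ} (h0 : |t0| ≤ 1) (h1 : |t1| ≤ 1) (h2 : |t2| ≤ 1) {L : ℝ}
    (hL : L = 63 * (n2 : ℝ) - (((en * r0 : ℕ) : ℝ) * t0 * c0 + ((en * r1 : ℕ) : ℝ) * t1 * c1 +
      ((en * r2 : ℕ) : ℝ) * t2 * c2)) :
    GeoOK c (geo2 (2 ^ c.K) (2 ^ (c.K * (c.d + 1))) (2 ^ (c.K * (c.d * (c.d + 1) + 1))) sg a
      c0 c1 c2 n2 sm en (en * r0) (en * r1) (en * r2)) t0 t1 t2 (s4geoSg sg * (a * L))
      (c0 * L + n2 * (((en * r0 : ℕ) : ℝ) * t0)) (c1 * L + n2 * (((en * r1 : ℕ) : ℝ) * t1))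
      (c2 * L + n2 * (((en * r2 : ℕ) : ℝ) * t2)) := by
  have hml : en * r0 * c0.natAbs + en * r1 * c1.natAbs + en * r2 * c2.natAbs = en * sm := by
    rw [hs]; ring
  generalize en * r0 = w0 at *
  generalize en * r1 = w1 at *
  generalize en * r2 = w2 at *
  simp only [geo2, band_true, Nat.ble_eq, Nat.add_eq, Nat.mul_eq, iabs_eq] at hok
  obtain ⟨k0, k1, k2, k3, k4, k5, k6⟩ := hok
  have hlam : Rep c.K c.d t0 t1 t2 1 (63 * n2 + en * sm)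
      (isub (Int.ofNat (Nat.mul 63 n2))
        (iadd (iadd (ism (Nat.mul w0 (2 ^ c.K)) c0) (ism (Nat.mul w1 (2 ^ (c.K * (c.d + 1)))) c1))
          (ism (Nat.mul w2 (2 ^ (c.K * (c.d * (c.d + 1) + 1)))) c2))) L := by
    refine s4geo_congr ((rep_const ((63 * n2 : ℕ) : ℤ)).sub
      (((rep_var0.smul (w0 * c0)).add (rep_var1.smul (w1 * c1))).add (rep_var2.smul (w2 * c2))))
      (by simp) ?_ ?_ ?_
    · simp only [Int.natAbs_mul, Int.natAbs_natCast, mul_one]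
      omega
    · simp only [isub_eq, iadd_eq, ism_eq, Nat.mul_eq, Int.ofNat_eq_natCast]
      push_cast
      ring
    · rw [hL]
      push_cast
      ring
  generalize hl : isub (Int.ofNat (Nat.mul 63 n2))
        (iadd (iadd (ism (Nat.mul w0 (2 ^ c.K)) c0) (ism (Nat.mul w1 (2 ^ (c.K * (c.d + 1)))) c1))
          (ism (Nat.mul w2 (2 ^ (c.K * (c.d * (c.d + 1) + 1)))) c2)) = lam at hlam
  have ha : Rep c.K c.d t0 t1 t2 1 (a * (63 * n2 + en * sm))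
      (@Bool.rec (fun _ => ℤ) (isub (Int.ofNat 0) (ism a lam)) (ism a lam) sg)
      (s4geoSg sg * (a * L)) := by
    cases sg
    · refine s4geo_congr (hlam.smul (-(a : ℤ))) le_rfl (by simp) ?_ ?_
      · simp [isub_eq, ism_eq]
      · simp [s4geoSg]
    · refine s4geo_congr (hlam.smul (a : ℤ)) le_rfl (by simp) ?_ ?_
      · simp [ism_eq]
      · simp [s4geoSg]
  have hu : ∀ (ck : ℤ) (w T : ℕ) (t : ℝ), Rep c.K c.d t0 t1 t2 1 1 (T : ℤ) t →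
      Rep c.K c.d t0 t1 t2 1 (ck.natAbs * (63 * n2 + en * sm) + w * n2)
        (iadd (imul ck lam) (Int.ofNat (Nat.mul (Nat.mul w n2) T))) (ck * L + n2 * (w * t)) := by
    intro ck w T t hT
    refine s4geo_congr ((hlam.smul ck).add (hT.smul ((w * n2 : ℕ) : ℤ))) (by simp) ?_ ?_ ?_
    · simp only [Int.natAbs_natCast, mul_one]
      exact le_rfl
    · simp only [iadd_eq, imul_eq, Nat.mul_eq, Int.ofNat_eq_natCast]
      push_cast
      ring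
    · push_cast
      ring
  have u0 := hu c0 w0 _ t0 rep_var0
  have u1 := hu c1 w1 _ t1 rep_var1
  have u2 := hu c2 w2 _ t2 rep_var2
  have hn' : (n2 : ℝ) = (a : ℝ) * a + c0 * c0 + c1 * c1 + c2 * c2 := by
    rw [hn, Nat.cast_add, Nat.cast_add, Nat.cast_add, Nat.cast_mul, Nat.cast_mul, Nat.cast_mul,
      Nat.cast_mul, s4geo_absq, s4geo_absq, s4geo_absq]
  have hA : (s4geoSg sg * (a * L)) ^ 2 =
      ((a : ℝ) * (63 * n2 - (w0 * t0 * c0 + w1 * t1 * c1 + w2 * t2 * c2))) ^ 2 := by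
    rw [← hL]
    cases sg <;> simp [s4geoSg]
  obtain ⟨q1, q2⟩ := s4geo_sq hn' hA
  rw [← hL] at q1 q2
  have hn0 : (0 : ℝ) < n2 := by
    have : 0 < n2 := by omega
    exact_mod_cast this
  have q3 : (n2 : ℝ) * n2 * ((w0 * t0) ^ 2 + (w1 * t1) ^ 2 + (w2 * t2) ^ 2) ≤
      (n2 : ℝ) * n2 * (w0 * w0 + w1 * w1 + w2 * w2) :=
    mul_le_mul_of_nonneg_left
      (add_le_add (add_le_add (s4geo_wt h0) (s4geo_wt h1)) (s4geo_wt h2)) (by positivity)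
  refine ⟨h0, h1, h2, ?_, ?_, ?_, ?_, ?_, ?_, ?_, ?_, k5, k6, ?_, ?_⟩
  · rw [← hl] at ha
    exact ha.mono le_rfl k1
  · rw [← hl] at u0
    exact u0.mono le_rfl k2
  · rw [← hl] at u1
    exact u1.mono le_rfl k3
  · rw [← hl] at u2
    exact u2.mono le_rfl k4
  · exact ha.abs_le h0 h1 h2
  · simpa only [geo2, Nat.add_eq, Nat.mul_eq, iabs_eq] using u0.abs_le h0 h1 h2
  · simpa only [geo2, Nat.add_eq, Nat.mul_eq, iabs_eq] using u1.abs_le h0 h1 h2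
  · simpa only [geo2, Nat.add_eq, Nat.mul_eq, iabs_eq] using u2.abs_le h0 h1 h2
  · exact lt_of_lt_of_le (by positivity) q1
  · have := s4geo_eta (rlo := n2 * (63 * n2 * (63 * n2)))
      (rhi := n2 * (63 * n2 * (63 * n2)) + n2 * n2 * (w0 * w0 + w1 * w1 + w2 * w2)) k5
      (by push_cast; exact q1) (by push_cast; linarith)
    rw [← nmax_eq] at this
    exact this

theorem s4geo_s {δ r : ℝ} (h : |δ| ≤ r) : ∃ s : ℝ, |s| ≤ 1 ∧ δ = r * s := by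
  rcases eq_or_lt_of_le ((abs_nonneg δ).trans h) with h0 | h0
  · refine ⟨0, by simp, ?_⟩
    rw [← h0] at h
    simpa using h
  · refine ⟨δ / r, ?_, by field_simp⟩
    rw [abs_div, abs_of_pos h0, div_le_one h0]
    exact h

theorem s4geo_cd {δ : ℝ} {r : ℕ} (c : ℤ) (h : |δ| ≤ r) :
    -((r : ℝ) * (c.natAbs : ℕ)) ≤ c * δ := by
  have h1 : |(c : ℝ) * δ| ≤ (r : ℝ) * (c.natAbs : ℕ) := by
    rw [abs_mul, Nat.cast_natAbs, Int.cast_abs, mul_comm]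
    exact mul_le_mul_of_nonneg_right h (abs_nonneg _)
  exact (abs_le.1 h1).1

theorem s4geo_one (c : Cst) (sg : Bool) (a : ℕ) (c0 c1 c2 : ℤ) (r0 r1 r2 : ℕ)
    (hok : (geo1 (2 ^ c.K) (2 ^ (c.K * (c.d + 1))) (2 ^ (c.K * (c.d * (c.d + 1) + 1))) sg a
      c0 c1 c2 r0 r1 r2).ok = true)
    {δ0 δ1 δ2 : ℝ} (h0 : |δ0| ≤ r0) (h1 : |δ1| ≤ r1) (h2 : |δ2| ≤ r2) :
    ∃ t0 t1 t2 L : ℝ, 0 < L ∧
      GeoOK c (geo1 (2 ^ c.K) (2 ^ (c.K * (c.d + 1))) (2 ^ (c.K * (c.d * (c.d + 1) + 1))) sg a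
        c0 c1 c2 r0 r1 r2) t0 t1 t2 (s4geoSg sg * (a * L)) (L * (c0 + δ0)) (L * (c1 + δ1))
        (L * (c2 + δ2)) := by
  simp only [geo1, Nat.add_eq, Nat.mul_eq, Nat.sub_eq, iabs_eq] at hok ⊢
  generalize hn : a * a + c0.natAbs * c0.natAbs + c1.natAbs * c1.natAbs +
    c2.natAbs * c2.natAbs = n2 at hok ⊢
  generalize hs : r0 * c0.natAbs + r1 * c1.natAbs + r2 * c2.natAbs = sm at hok ⊢
  generalize he : Nat.div (63 * n2 + (n2 - sm - 1)) (n2 - sm) = en at hok ⊢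
  have hlt : sm < n2 := by
    have := hok
    simp only [geo2, band_true, Nat.ble_eq] at this
    exact this.1
  have hen : 63 * n2 ≤ en * (n2 - sm) := by
    have hm : 0 < n2 - sm := by omega
    have h3 : 63 * n2 + (n2 - sm - 1) < (n2 - sm) * (en + 1) := by
      rw [← he]
      exact Nat.lt_mul_div_succ _ hm
    generalize n2 - sm = m at hm h3 ⊢
    have h4 : m * (en + 1) = en * m + m := by ring
    omega
  have hen' : 63 * (n2 : ℝ) ≤ en * ((n2 : ℝ) - sm) := by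
    have : ((63 * n2 : ℕ) : ℝ) ≤ ((en * (n2 - sm) : ℕ) : ℝ) := Nat.cast_le.2 hen
    rw [Nat.cast_mul, Nat.cast_mul, Nat.cast_sub hlt.le] at this
    exact_mod_cast this
  have hlt' : (sm : ℝ) < n2 := by exact_mod_cast hlt
  have hn0 : (0 : ℝ) < n2 := lt_of_le_of_lt (Nat.cast_nonneg _) hlt'
  have hen0 : (0 : ℝ) < en := by
    by_contra hh
    have : (en : ℝ) = 0 := le_antisymm (not_lt.1 hh) (Nat.cast_nonneg _)
    rw [this] at hen'
    linarith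
  have hs' : (sm : ℝ) = r0 * (c0.natAbs : ℕ) + r1 * (c1.natAbs : ℕ) + r2 * (c2.natAbs : ℕ) := by
    rw [← hs, Nat.cast_add, Nat.cast_add, Nat.cast_mul, Nat.cast_mul, Nat.cast_mul]
  have hD : (n2 : ℝ) - sm ≤ n2 + (c0 * δ0 + c1 * δ1 + c2 * δ2) := by
    have := s4geo_cd c0 h0
    have := s4geo_cd c1 h1
    have := s4geo_cd c2 h2
    linarith
  obtain ⟨s0, b0, e0⟩ := s4geo_s h0
  obtain ⟨s1, b1, e1⟩ := s4geo_s h1
  obtain ⟨s2, b2, e2⟩ := s4geo_s h2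
  generalize hDD : (n2 : ℝ) + (c0 * δ0 + c1 * δ1 + c2 * δ2) = D at hD
  have hD0 : 0 < D := by linarith
  have hq0 : 0 ≤ 63 * (n2 : ℝ) / (en * D) := by positivity
  have hq1 : 63 * (n2 : ℝ) / (en * D) ≤ 1 := by
    rw [div_le_one (by positivity)]
    exact hen'.trans (mul_le_mul_of_nonneg_left hD hen0.le)
  have ht : ∀ s : ℝ, |s| ≤ 1 → |63 * (n2 : ℝ) / (en * D) * s| ≤ 1 := fun s hs => by
    rw [abs_mul, abs_of_nonneg hq0]
    exact mul_le_one₀ hq1 (abs_nonneg _) hs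
  have hw : ∀ (r : ℕ) (s δ : ℝ), δ = r * s →
      ((en * r : ℕ) : ℝ) * (63 * (n2 : ℝ) / (en * D) * s) = 63 * n2 * δ / D := by
    intro r s δ h
    rw [h]
    push_cast
    field_simp
  have hL : 63 * (n2 : ℝ) * n2 / D = 63 * (n2 : ℝ) -
      (((en * r0 : ℕ) : ℝ) * (63 * (n2 : ℝ) / (en * D) * s0) * c0 +
        ((en * r1 : ℕ) : ℝ) * (63 * (n2 : ℝ) / (en * D) * s1) * c1 +
        ((en * r2 : ℕ) : ℝ) * (63 * (n2 : ℝ) / (en * D) * s2) * c2) := by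
    rw [hw r0 s0 δ0 e0, hw r1 s1 δ1 e1, hw r2 s2 δ2 e2]
    field_simp
    linarith
  have := s4geo_two c sg a c0 c1 c2 n2 sm en r0 r1 r2 hn.symm hs.symm hok (ht s0 b0) (ht s1 b1)
    (ht s2 b2) hL
  rw [hw r0 s0 δ0 e0, hw r1 s1 δ1 e1, hw r2 s2 δ2 e2] at this
  have hc : ∀ x δ : ℝ, x * (63 * (n2 : ℝ) * n2 / D) + n2 * (63 * n2 * δ / D) =
      63 * (n2 : ℝ) * n2 / D * (x + δ) := fun x δ => by ring
  rw [hc, hc, hc] at this
  exact ⟨_, _, _, 63 * (n2 : ℝ) * n2 / D, by positivity, this⟩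

theorem s4geo_idiv {c : ℤ} {g : ℕ} (h : g ∣ c.natAbs) : c = g * idiv c g := by
  rcases c with m | m
  · show (m : ℤ) = g * ((m / g : ℕ) : ℤ)
    have : g * (m / g) = m := Nat.mul_div_cancel' h
    exact_mod_cast this.symm
  · show Int.negSucc m = g * nneg ((m + 1) / g)
    have : g * ((m + 1) / g) = m + 1 := Nat.mul_div_cancel' h
    rw [nneg_eq, Int.negSucc_eq, mul_neg]
    congr 1
    exact_mod_cast this.symm

theorem s4geo_coord {l h g : ℕ} {u : ℝ} (hg : 0 < g) (h1 : (l : ℝ) ≤ u) (h2 : u ≤ h)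
    (d1 : g ∣ (snn (l + h) 512).natAbs) (d2 : g ∣ h - l) :
    |(2 * u - (l + h)) / g| ≤ ((h - l) / g : ℕ) ∧
      2 / (g : ℝ) * (u - 256) = (idiv (snn (l + h) 512) g : ℝ) + (2 * u - (l + h)) / g := by
  have hg' : (0 : ℝ) < g := by exact_mod_cast hg
  have hlh : l ≤ h := by exact_mod_cast h1.trans h2
  have e1 : (g : ℝ) * ((h - l) / g : ℕ) = h - l := by
    have : ((g * ((h - l) / g) : ℕ) : ℝ) = ((h - l : ℕ) : ℝ) := by rw [Nat.mul_div_cancel' d2]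
    rwa [Nat.cast_mul, Nat.cast_sub hlh] at this
  have e2 : (g : ℝ) * (idiv (snn (l + h) 512) g : ℝ) = l + h - 512 := by
    have h3 := s4geo_idiv d1
    generalize idiv (snn (l + h) 512) g = z at h3 ⊢
    rw [snn_eq] at h3
    have : (((l + h : ℕ) : ℤ) - (512 : ℕ) : ℤ) = ((g * z : ℤ) : ℝ) := by rw [← h3]
    push_cast at this
    linarith
  constructor
  · rw [abs_div, abs_of_pos hg', div_le_iff₀ hg', mul_comm _ (g : ℝ), e1, abs_le]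
    constructor <;> linarith
  · field_simp
    linarith

theorem geo_sound (c : Cst) (sg : Bool) (B : Box) (hok : (geo c sg B).ok = true)
    {u0 u1 u2 : ℝ} (hu : InBox B u0 u1 u2) :
    ∃ t0 t1 t2 l : ℝ, 0 < l ∧ GeoOK c (geo c sg B) t0 t1 t2 (l * hgt sg) (l * (u0 - 256))
      (l * (u1 - 256)) (l * (u2 - 256)) := by
  obtain ⟨a0, b0, a1, b1, a2, b2⟩ := hu
  unfold geo geoc at hok ⊢
  simp only [Nat.add_eq, Nat.sub_eq] at hok ⊢
  generalize hgd : gcd7 (snn (B.l0 + B.h0) 512) (snn (B.l1 + B.h1) 512) (snn (B.l2 + B.h2) 512)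
    (B.h0 - B.l0) (B.h1 - B.l1) (B.h2 - B.l2) = g at hok ⊢
  simp only [gcd7, iabs_eq] at hgd
  have dA := hgd ▸ Nat.gcd_dvd_left _ _
  have dB := hgd ▸ Nat.gcd_dvd_right _ _
  rw [Nat.dvd_gcd_iff, Nat.dvd_gcd_iff, Nat.dvd_gcd_iff] at dA
  rw [Nat.dvd_gcd_iff, Nat.dvd_gcd_iff] at dB
  obtain ⟨⟨d256, dc0⟩, dc1, dc2⟩ := dA
  obtain ⟨dr0, dr1, dr2⟩ := dB
  have hg : 0 < g := Nat.pos_of_dvd_of_pos d256 (by norm_num)
  have hg' : (0 : ℝ) < g := by exact_mod_cast hg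
  obtain ⟨p0, q0⟩ := s4geo_coord hg a0 b0 dc0 dr0
  obtain ⟨p1, q1⟩ := s4geo_coord hg a1 b1 dc1 dr1
  obtain ⟨p2, q2⟩ := s4geo_coord hg a2 b2 dc2 dr2
  obtain ⟨t0, t1, t2, L, hL, hG⟩ := s4geo_one c sg (256 / g) _ _ _ _ _ _ hok p0 p1 p2
  refine ⟨t0, t1, t2, L * (2 / g), by positivity, ?_⟩
  have e1 : (g : ℝ) * (256 / g : ℕ) = 256 := by
    have : ((g * (256 / g) : ℕ) : ℝ) = ((256 : ℕ) : ℝ) := by rw [Nat.mul_div_cancel' d256]
    rw [Nat.cast_mul] at this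
    exact_mod_cast this
  have e2 : L * (2 / g) * hgt sg = s4geoSg sg * ((256 / g : ℕ) * L) := by
    generalize ((256 / g : ℕ) : ℝ) = a at e1
    have : a = 256 / g := by field_simp; linarith
    rw [this]
    cases sg
    · show L * (2 / g) * (-128) = -1 * _
      ring
    · show L * (2 / g) * 128 = 1 * _
      ring
  rw [e2, mul_assoc, mul_assoc, mul_assoc, q0, q1, q2]
  exact hG

end Pool.Agent.P.MP_f12b6c_an
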