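import Pool.Agent.P.MP_f12b6c_an.S4Int

/-! Soundness of the digit-parallel bounds. -/

namespace Pool.Agent.P.MP_f12b6c_an

open Finset

theorem s4s_sum (K : ℕ) (f : ℕ → ℕ) (n : ℕ) :
    sumB K f n = ∑ j ∈ range n, f j * 2 ^ (K * j) := by
  induction n with
  | zero => rfl
  | succ n ih => rw [sumB, ih, sum_range_succ]

theorem s4s_congr (K : ℕ) {f g : ℕ → ℕ} (n : ℕ) (h : ∀ j, f j = g j) :
    sumB K f n = sumB K g n := by rw [funext h]

theorem s4s_low (K : ℕ) (f : ℕ → ℕ) (n : ℕ) :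
    sumB K f (n + 1) = 2 ^ K * sumB K (fun j => f (j + 1)) n + f 0 := by
  rw [s4s_sum, s4s_sum, sum_range_succ', mul_sum]
  congr 1
  · exact sum_congr rfl fun j _ => by ring
  · simp

theorem s4s_land (K : ℕ) (n : ℕ) : ∀ f g : ℕ → ℕ, (∀ j, f j < 2 ^ K) → (∀ j, g j < 2 ^ K) →
    sumB K f n &&& sumB K g n = sumB K (fun j => f j &&& g j) n := by
  induction n with
  | zero => intro f g _ _; simp [sumB]
  | succ n ih =>
    intro f g hf hg
    rw [s4s_low, s4s_low, s4s_low, ← ih _ _ (fun j => hf _) (fun j => hg _)]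
    refine Nat.eq_of_testBit_eq fun i => ?_
    rw [Nat.testBit_and, Nat.testBit_two_pow_mul_add _ (hf 0), Nat.testBit_two_pow_mul_add _ (hg 0),
      Nat.testBit_two_pow_mul_add _ (Nat.and_lt_two_pow _ (hg 0))]
    split_ifs <;> rw [Nat.testBit_and]

theorem s4s_mod (K : ℕ) (f : ℕ → ℕ) (n : ℕ) :
    sumB K f n ≡ ∑ j ∈ range n, f j [MOD 2 ^ K - 1] := by
  have h1 : 2 ^ K ≡ 1 [MOD 2 ^ K - 1] :=
    ((Nat.modEq_iff_dvd' (Nat.one_le_two_pow)).2 dvd_rfl).symm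
  induction n with
  | zero => rfl
  | succ n ih =>
    rw [sumB, sum_range_succ]
    refine ih.add ?_
    have := (h1.pow n).mul_left (f n)
    rwa [one_pow, mul_one, ← pow_mul] at this

theorem s4s_shift (K k : ℕ) (g : ℕ → ℕ) (n : ℕ) :
    sumB K (fun j => 2 ^ k * g j) n >>> k = sumB K g n := by
  rw [Nat.shiftRight_eq_div_pow, s4s_sum, s4s_sum]
  refine Nat.div_eq_of_eq_mul_right (by positivity) ?_
  rw [mul_sum]
  exact sum_congr rfl fun j _ => by ring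

theorem s4s_shiftK (K : ℕ) (f : ℕ → ℕ) (n : ℕ) (h : f 0 < 2 ^ K) :
    sumB K f (n + 1) >>> K = sumB K (fun j => f (j + 1)) n := by
  rw [Nat.shiftRight_eq_div_pow, s4s_low, Nat.mul_add_div (by positivity), Nat.div_eq_of_lt h,
    add_zero]

theorem s4s_sub (K : ℕ) (f g : ℕ → ℕ) (n : ℕ) (h : ∀ j, g j ≤ f j) :
    sumB K f n - sumB K g n = sumB K (fun j => f j - g j) n := by
  refine Nat.sub_eq_of_eq_add ?_
  rw [s4s_sum, s4s_sum, s4s_sum, ← sum_add_distrib]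
  exact sum_congr rfl fun j _ => by rw [← add_mul, Nat.sub_add_cancel (h j)]

/-- The monomial of slot `j`. -/
noncomputable def s4sMon (d : ℕ) (t0 t1 t2 : ℝ) (j : ℕ) : ℝ :=
  t0 ^ ((j % (d * (d + 1) + 1)) % (d + 1)) * t1 ^ ((j % (d * (d + 1) + 1)) / (d + 1)) *
    t2 ^ (j / (d * (d + 1) + 1))

theorem s4s_dec {d a b e : ℕ} (h : a + b + e ≤ d) (t0 t1 t2 : ℝ) :
    a + (d + 1) * b + (d * (d + 1) + 1) * e < nslot d ∧
      s4sMon d t0 t1 t2 (a + (d + 1) * b + (d * (d + 1) + 1) * e) = t0 ^ a * t1 ^ b * t2 ^ e := by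
  have h1 : a + (d + 1) * b < d * (d + 1) + 1 := by
    obtain ⟨u, rfl⟩ := Nat.exists_eq_add_of_le h
    nlinarith [Nat.zero_le (a * (a + b + e + u)), Nat.zero_le ((e + u) * (a + b + e + u + 1))]
  have h2 : a < d + 1 := by omega
  refine ⟨?_, ?_⟩
  · unfold nslot
    obtain ⟨u, rfl⟩ := Nat.exists_eq_add_of_le h
    set d := a + b + e + u with hd
    have : d * (d * (d + 1) + 1) = (a + b + u) * (d * (d + 1) + 1) + (d * (d + 1) + 1) * e := by
      rw [hd]; ring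
    have h3 : a + (d + 1) * b ≤ (a + b + u) * (d * (d + 1) + 1) := by
      rcases Nat.eq_zero_or_pos b with rfl | hb
      · nlinarith [Nat.zero_le (a * (d * (d + 1))), Nat.zero_le (u * (d * (d + 1) + 1))]
      · have : 1 ≤ d := by omega
        have h4 : d + 1 ≤ d * (d + 1) + 1 := by nlinarith
        nlinarith [Nat.zero_le (a * (d * (d + 1))), Nat.zero_le (u * (d * (d + 1) + 1)),
          Nat.mul_le_mul_right b h4]
    omega
  · unfold s4sMon
    rw [Nat.add_mul_mod_self_left, Nat.mod_eq_of_lt h1, Nat.add_mul_mod_self_left,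
      Nat.mod_eq_of_lt h2, Nat.add_mul_div_left _ _ (Nat.succ_pos _), Nat.div_eq_of_lt h2,
      Nat.add_mul_div_left _ _ (Nat.succ_pos _), Nat.div_eq_of_lt h1, zero_add, zero_add]

theorem s4s_rep {K d : ℕ} {t0 t1 t2 : ℝ} {M : ℕ} {N : ℤ} {y : ℝ}
    (h : Rep K d t0 t1 t2 d M N y) : ∃ c : ℕ → ℤ, (∀ j, |c j| ≤ M) ∧
      N = ∑ j ∈ range (nslot d), c j * 2 ^ (K * j) ∧
      y = ∑ j ∈ range (nslot d), (c j : ℝ) * s4sMon d t0 t1 t2 j := by
  obtain ⟨l, h1, h2, rfl, rfl⟩ := h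
  induction l generalizing M with
  | nil => exact ⟨0, fun j => by simp, by simp, by simp⟩
  | cons q l ih =>
    obtain ⟨c, c1, c2, c3⟩ := ih (fun q hq => h1 q (List.mem_cons_of_mem _ hq)) le_rfl
    obtain ⟨p1, p2⟩ := s4s_dec (h1 q List.mem_cons_self) t0 t1 t2
    simp only [List.map_cons, List.sum_cons] at h2 ⊢
    rw [c2, c3]
    generalize q.2.1 + (d + 1) * q.2.2.1 + (d * (d + 1) + 1) * q.2.2.2 = p at p1 p2 ⊢
    refine ⟨fun j => (if j = p then q.1 else 0) + c j, fun j => ?_, ?_, ?_⟩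
    · refine (abs_add_le _ _).trans ?_
      have := c1 j
      have h3 : ((q.1.natAbs + (l.map fun q => q.1.natAbs).sum : ℕ) : ℤ) ≤ M := by exact_mod_cast h2
      rw [Nat.cast_add, Int.natCast_natAbs] at h3
      split_ifs
      · linarith
      · rw [abs_zero]; linarith [abs_nonneg q.1]
    · simp only [add_mul, sum_add_distrib, ite_mul, zero_mul, sum_ite_eq', mem_range, p1, if_true]
    · simp only [Int.cast_add, Int.cast_ite, Int.cast_zero, add_mul, sum_add_distrib, ite_mul,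
        zero_mul, sum_ite_eq', mem_range, p1, if_true]
      rw [p2]
      ring

theorem s4s_mon {d : ℕ} {t0 t1 t2 : ℝ} (h0 : |t0| ≤ 1) (h1 : |t1| ≤ 1) (h2 : |t2| ≤ 1) (j : ℕ) :
    |s4sMon d t0 t1 t2 j| ≤ 1 ∧ (isEv d j = true → 0 ≤ s4sMon d t0 t1 t2 j) := by
  refine ⟨?_, fun h => ?_⟩
  · unfold s4sMon
    rw [abs_mul, abs_mul, abs_pow, abs_pow, abs_pow]
    exact mul_le_one₀ (mul_le_one₀ (pow_le_one₀ (abs_nonneg _) h0) (by positivity)
      (pow_le_one₀ (abs_nonneg _) h1)) (by positivity) (pow_le_one₀ (abs_nonneg _) h2)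
  · simp only [isEv, Bool.and_eq_true, beq_iff_eq] at h
    exact mul_nonneg (mul_nonneg ((Nat.even_iff.2 h.1.1).pow_nonneg _)
      ((Nat.even_iff.2 h.1.2).pow_nonneg _)) ((Nat.even_iff.2 h.2).pow_nonneg _)

theorem s4s_digit {k D : ℕ} (h : D < 2 * 2 ^ k) :
    D &&& 2 ^ k = 2 ^ k * (if 2 ^ k ≤ D then 1 else 0) ∧
      D &&& (2 ^ k * (if 2 ^ k ≤ D then 1 else 0) - if 2 ^ k ≤ D then 1 else 0) = D - 2 ^ k := by
  split_ifs with h1
  · rw [Nat.and_two_pow, Nat.testBit_of_two_pow_le_and_two_pow_add_one_gt h1 (by omega), mul_one,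
      Nat.and_two_pow_sub_one_eq_mod, Nat.mod_eq_sub_mod h1, Nat.mod_eq_of_lt (by omega)]
    simp
  · rw [Nat.and_two_pow, Nat.testBit_lt_two_pow (by omega)]
    simp
    omega

theorem s4s_key (c : Cst) (hc : c.Ok) {M : ℕ} {a : ℕ → ℤ} (ha : ∀ j, |a j| ≤ M)
    (hM : M < 2 ^ (c.K - 11)) {N : ℤ} (hN : N = ∑ j ∈ range (nslot c.d), a j * 2 ^ (c.K * j)) :
    posP c (shM c N) = sumB c.K (fun j => (a j).toNat) (nslot c.d) ∧
      ((shM c N % c.bm : ℕ) : ℤ) = ∑ j ∈ range (nslot c.d), a j + c.nh ∧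
      (∀ j, (a j).toNat < 2 ^ c.K) ∧
      ∀ f : ℕ → ℕ, ∀ n ≤ nslot c.d, (∀ j, f j ≤ (a j).toNat) →
        2 * ∑ j ∈ range n, f j < c.bm := by
  obtain ⟨hK, hn, hs, hb, hnh, hom, -⟩ := hc
  have hB : 2 ^ c.K = 2048 * 2 ^ (c.K - 11) := by
    rw [show 2048 = 2 ^ 11 from rfl, ← pow_add]
    congr 1
    omega
  obtain ⟨h, hh⟩ : ∃ h, h = 2 ^ (c.K - 11) := ⟨_, rfl⟩
  rw [← hh] at hM hB hnh
  have hD : ∀ j, (a j + h).toNat < 2 * h := fun j => by
    have := abs_le.1 (ha j)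
    omega
  have hD' : ∀ j, (((a j + h).toNat : ℕ) : ℤ) = a j + h := fun j => by
    have := abs_le.1 (ha j)
    omega
  have e1 : shM c N = sumB c.K (fun j => (a j + h).toNat) (nslot c.d) := by
    rw [shM, itoNat_eq, iadd_eq, hom, ← hh, hN, Int.ofNat_eq_natCast]
    have : ∑ j ∈ range (nslot c.d), a j * 2 ^ (c.K * j) +
        ((sumB c.K (fun _ => h) (nslot c.d) : ℕ) : ℤ) =
        ((sumB c.K (fun j => (a j + h).toNat) (nslot c.d) : ℕ) : ℤ) := by
      rw [s4s_sum, s4s_sum]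
      push_cast
      simp only [hD', add_mul, sum_add_distrib]
    rw [this, Int.toNat_natCast]
  have small : ∀ f : ℕ → ℕ, ∀ n ≤ nslot c.d, (∀ j, f j ≤ 2 * h) → ∑ j ∈ range n, f j < c.bm := by
    intro f n h1 h2
    have : ∑ j ∈ range n, f j ≤ _ := sum_le_card_nsmul (range n) f (2 * h) fun j _ => h2 j
    rw [card_range, smul_eq_mul] at this
    have h3 : n * (2 * h) ≤ 1000 * (2 * h) := Nat.mul_le_mul_right _ (h1.trans hn)
    omega
  refine ⟨?_, ?_, fun j => ?_, fun f n h1 h2 => ?_⟩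
  · have e2 : shM c N &&& c.om =
        sumB c.K (fun j => 2 ^ (c.K - 11) * if h ≤ (a j + h).toNat then 1 else 0) (nslot c.d) := by
      rw [e1, hom, s4s_land _ _ _ _ (fun j => by have := hD j; omega) (fun j => by omega)]
      subst hh
      exact s4s_congr _ _ fun j => (s4s_digit (hD j)).1
    show shM c N &&& ((shM c N &&& c.om) - (shM c N &&& c.om) >>> c.hs) = _
    rw [e2, hs, s4s_shift, s4s_sub _ _ _ _ (fun j => Nat.le_mul_of_pos_left _ (by positivity)), e1,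
      s4s_land _ _ _ _ (fun j => by have := hD j; omega) (fun j => by split_ifs <;> omega)]
    refine s4s_congr _ _ fun j => ?_
    subst hh
    rw [(s4s_digit (hD j)).2]
    omega
  · rw [e1, hb, s4s_mod, ← hb, Nat.mod_eq_of_lt (small _ _ le_rfl fun j => (hD j).le), hnh]
    push_cast
    simp only [hD', sum_add_distrib, sum_const, card_range, nsmul_eq_mul]
  · have := abs_le.1 (ha j)
    omega
  · rw [mul_sum]
    refine small _ n h1 fun j => ?_
    have := abs_le.1 (ha j)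
    have := h2 j
    omega

theorem low_sound (c : Cst) (hc : c.Ok) {t0 t1 t2 : ℝ} (h0 : |t0| ≤ 1) (h1 : |t1| ≤ 1)
    (h2 : |t2| ≤ 1) {M : ℕ} {N : ℤ} {y : ℝ} (h : Rep c.K c.d t0 t1 t2 c.d M N y)
    (hM : M < 2 ^ (c.K - 11)) (R : ℕ) (hl : lowOK c N R = true) : (R : ℝ) ≤ y := by
  obtain ⟨a, ha, hN, rfl⟩ := s4s_rep h
  obtain ⟨k1, k2, k3, k4⟩ := s4s_key c hc ha hM hN
  obtain ⟨-, -, -, hb, -, -, hodd⟩ := hc
  have hl' : c.nh + R + (posP c (shM c N) >>> c.K + (posP c (shM c N) &&& c.odd)) % c.bm ≤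
    shM c N % c.bm := Nat.le_of_ble_eq_true hl
  obtain ⟨n, hn⟩ : ∃ n, nslot c.d = n + 1 := ⟨_, rfl⟩
  have e : ∀ j, (a j).toNat &&& (if isEv c.d j = true then 0 else 2 ^ c.K - 1) =
      if isEv c.d j = true then 0 else (a j).toNat := fun j => by
    split_ifs
    · simp
    · rw [Nat.and_two_pow_sub_one_eq_mod, Nat.mod_eq_of_lt (k3 j)]
  have s1 := k4 (fun j => (a j).toNat) _ le_rfl fun j => le_rfl
  have s2 := k4 (fun j => if isEv c.d j = true then 0 else (a j).toNat) _ le_rfl fun j => by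
    split_ifs <;> omega
  rw [k1, hodd, s4s_land _ _ _ _ k3 (fun j => by have := k3 j; split_ifs <;> omega),
    s4s_congr _ _ e] at hl'
  rw [hn] at hl' s1 s2 k2 ⊢
  rw [sum_range_succ'] at s1
  rw [s4s_shiftK _ _ _ (k3 0), hb, ((s4s_mod _ _ _).add (s4s_mod _ _ _) :), ← hb,
    Nat.mod_eq_of_lt (by omega)] at hl'
  have h3 : (R : ℤ) ≤ ∑ j ∈ range (n + 1), a j - ∑ j ∈ range n, ((a (j + 1)).toNat : ℤ) -
      ∑ j ∈ range (n + 1), ((if isEv c.d j = true then 0 else (a j).toNat : ℕ) : ℤ) := by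
    rw [← Nat.cast_sum, ← Nat.cast_sum]
    omega
  have h4 : (R : ℝ) ≤ ∑ j ∈ range (n + 1), (a j : ℝ) - ∑ j ∈ range n, ((a (j + 1)).toNat : ℝ) -
      ∑ j ∈ range (n + 1), ((if isEv c.d j = true then 0 else (a j).toNat : ℕ) : ℝ) := by
    exact_mod_cast h3
  refine h4.trans ?_
  have z1 : isEv c.d 0 = true := by simp [isEv]
  have z2 : s4sMon c.d t0 t1 t2 0 = 1 := by simp [s4sMon]
  rw [sum_range_succ', sum_range_succ', sum_range_succ', z2, if_pos z1]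
  have h5 : ∑ j ∈ range n, ((a (j + 1) : ℝ) - (a (j + 1)).toNat -
      ((if isEv c.d (j + 1) = true then 0 else (a (j + 1)).toNat : ℕ) : ℝ)) ≤
      ∑ j ∈ range n, (a (j + 1) : ℝ) * s4sMon c.d t0 t1 t2 (j + 1) := by
    refine sum_le_sum fun j _ => ?_
    obtain ⟨m1, m2⟩ := s4s_mon (d := c.d) h0 h1 h2 (j + 1)
    obtain ⟨m3, m4⟩ := abs_le.1 m1
    rcases le_total 0 (a (j + 1)) with p | p
    · have q : (((a (j + 1)).toNat : ℕ) : ℝ) = a (j + 1) := by exact_mod_cast Int.toNat_of_nonneg p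
      have p' : (0 : ℝ) ≤ a (j + 1) := by exact_mod_cast p
      split_ifs with hev
      · rw [q]; push_cast; nlinarith [m2 hev]
      · rw [q]; nlinarith
    · have p' : (a (j + 1) : ℝ) ≤ 0 := by exact_mod_cast p
      rw [Int.toNat_of_nonpos p, ite_self]
      push_cast
      nlinarith
  rw [sum_sub_distrib, sum_sub_distrib] at h5
  push_cast at h5 ⊢
  linarith

theorem abs_sound (c : Cst) (hc : c.Ok) {t0 t1 t2 : ℝ} (h0 : |t0| ≤ 1) (h1 : |t1| ≤ 1)
    (h2 : |t2| ≤ 1) {M : ℕ} {N : ℤ} {y : ℝ} (h : Rep c.K c.d t0 t1 t2 c.d M N y)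
    (hM : M < 2 ^ (c.K - 11)) : |y| ≤ (absB c N : ℝ) := by
  obtain ⟨a, ha, hN, rfl⟩ := s4s_rep h
  obtain ⟨k1, k2, k3, k4⟩ := s4s_key c hc ha hM hN
  obtain ⟨-, -, -, hb, -, -, -⟩ := hc
  have s1 := k4 (fun j => (a j).toNat) _ le_rfl fun j => le_rfl
  have e : absB c N = 2 * (posP c (shM c N) % c.bm) + c.nh - shM c N % c.bm := rfl
  rw [k1, hb, (s4s_mod _ _ _ :), ← hb, Nat.mod_eq_of_lt (by omega)] at e
  have h3 : ∑ j ∈ range (nslot c.d), |a j| =
      2 * ((∑ j ∈ range (nslot c.d), (a j).toNat : ℕ) : ℤ) - ∑ j ∈ range (nslot c.d), a j := by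
    rw [Nat.cast_sum, mul_sum, ← sum_sub_distrib]
    exact sum_congr rfl fun j _ => by rcases abs_cases (a j) with p | p <;> omega
  have h4 : ∑ j ∈ range (nslot c.d), |a j| ≤ (absB c N : ℤ) := by omega
  have h5 : ∑ j ∈ range (nslot c.d), |(a j : ℝ)| ≤ (absB c N : ℝ) := by exact_mod_cast h4
  refine (abs_sum_le_sum_abs _ _).trans (le_trans (sum_le_sum fun j _ => ?_) h5)
  rw [abs_mul]
  exact mul_le_of_le_one_right (abs_nonneg _) (s4s_mon (d := c.d) h0 h1 h2 j).1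

end Pool.Agent.P.MP_f12b6c_an
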