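import Pool.Agent.P.MP_f12b6c_an.S4Prop
import Pool.Agent.P.MP_f12b6c_an.S4Kron

/-! Properties of the decoded coefficient matrices. -/

namespace Pool.Agent.P.MP_f12b6c_an

theorem s4wit_abs_sq (l : ℤ) : ((iabs l : ℕ) : ℝ) * ((iabs l : ℕ) : ℝ) = (l : ℝ) * (l : ℝ) := by
  rw [iabs_eq, ← Nat.cast_mul]
  have h : ((l.natAbs * l.natAbs : ℕ) : ℤ) = l * l := Int.natAbs_mul_self
  have h2 : (((l.natAbs * l.natAbs : ℕ) : ℤ) : ℝ) = ((l * l : ℤ) : ℝ) := by rw [h]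
  rw [Int.cast_natCast, Int.cast_mul] at h2
  exact h2

theorem s4wit_core (l00 l11 l22 l33 t1 t2 l10 l20 l21 l30 l31 l32 T v0 v1 v2 v3 : ℝ)
    (h1 : T ≤ 65536 * t1) (h2 : T ≤ 65536 * t2) :
    T * sq4 v0 v1 v2 v3 ≤ 65536 * quadR
      ⟨l00 * l00 + t1, l00 * l10, l00 * l20, l00 * l30, l10 * l10 + l11 * l11 + t1,
        l10 * l20 + l11 * l21, l10 * l30 + l11 * l31, l20 * l20 + l21 * l21 + l22 * l22 + t2,
        l20 * l30 + l21 * l31 + l22 * l32,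
        l30 * l30 + l31 * l31 + l32 * l32 + l33 * l33 + t2⟩ v0 v1 v2 v3 := by
  have e : quadR
      ⟨l00 * l00 + t1, l00 * l10, l00 * l20, l00 * l30, l10 * l10 + l11 * l11 + t1,
        l10 * l20 + l11 * l21, l10 * l30 + l11 * l31, l20 * l20 + l21 * l21 + l22 * l22 + t2,
        l20 * l30 + l21 * l31 + l22 * l32,
        l30 * l30 + l31 * l31 + l32 * l32 + l33 * l33 + t2⟩ v0 v1 v2 v3 =
      (l00 * v0 + l10 * v1 + l20 * v2 + l30 * v3) ^ 2 + (l11 * v1 + l21 * v2 + l31 * v3) ^ 2 +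
        (l22 * v2 + l32 * v3) ^ 2 + (l33 * v3) ^ 2 + t1 * (v0 ^ 2 + v1 ^ 2) +
        t2 * (v2 ^ 2 + v3 ^ 2) := by
    simp only [quadR]
    ring
  rw [e, sq4]
  have a1 := mul_le_mul_of_nonneg_right h1 (add_nonneg (sq_nonneg v0) (sq_nonneg v1))
  have a2 := mul_le_mul_of_nonneg_right h2 (add_nonneg (sq_nonneg v2) (sq_nonneg v3))
  have b1 := sq_nonneg (l00 * v0 + l10 * v1 + l20 * v2 + l30 * v3)
  have b2 := sq_nonneg (l11 * v1 + l21 * v2 + l31 * v3)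
  have b3 := sq_nonneg (l22 * v2 + l32 * v3)
  have b4 := sq_nonneg (l33 * v3)
  linarith

theorem s4wit_sound1 (l00 l11 l22 l33 t1 t2 : ℕ) (l10 l20 l21 l30 l31 l32 : ℤ)
    (h : (wit1 l00 l11 l22 l33 t1 t2 l10 l20 l21 l30 l31 l32).ok = true) :
    WOK (wit1 l00 l11 l22 l33 t1 t2 l10 l20 l21 l30 l31 l32) := by
  have hR : (wit1 l00 l11 l22 l33 t1 t2 l10 l20 l21 l30 l31 l32).toR =
      ⟨(l00 : ℝ) * l00 + t1, (l00 : ℝ) * l10, (l00 : ℝ) * l20, (l00 : ℝ) * l30,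
        (l10 : ℝ) * l10 + (l11 : ℝ) * l11 + t1,
        (l10 : ℝ) * l20 + (l11 : ℝ) * l21, (l10 : ℝ) * l30 + (l11 : ℝ) * l31,
        (l20 : ℝ) * l20 + (l21 : ℝ) * l21 + (l22 : ℝ) * l22 + t2,
        (l20 : ℝ) * l30 + (l21 : ℝ) * l31 + (l22 : ℝ) * l32,
        (l30 : ℝ) * l30 + (l31 : ℝ) * l31 + (l32 : ℝ) * l32 + (l33 : ℝ) * l33 + t2⟩ := by
    simp only [Wit.toR, wit1, Nat.add_eq, Nat.mul_eq, ism_eq, iadd_eq, imul_eq, Nat.cast_add,
      Nat.cast_mul, s4wit_abs_sq, Int.cast_add, Int.cast_mul, Int.cast_natCast]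
  have htr : (wit1 l00 l11 l22 l33 t1 t2 l10 l20 l21 l30 l31 l32).tr =
      (wit1 l00 l11 l22 l33 t1 t2 l10 l20 l21 l30 l31 l32).n00 +
      (wit1 l00 l11 l22 l33 t1 t2 l10 l20 l21 l30 l31 l32).n11 +
      (wit1 l00 l11 l22 l33 t1 t2 l10 l20 l21 l30 l31 l32).n22 +
      (wit1 l00 l11 l22 l33 t1 t2 l10 l20 l21 l30 l31 l32).n33 := by
    simp only [wit1, Nat.add_eq]
    omega
  have hok : (wit1 l00 l11 l22 l33 t1 t2 l10 l20 l21 l30 l31 l32).ok =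
      band (Nat.beq (Nat.mul 7 (Nat.add (wit1 l00 l11 l22 l33 t1 t2 l10 l20 l21 l30 l31 l32).n00
          (wit1 l00 l11 l22 l33 t1 t2 l10 l20 l21 l30 l31 l32).n11))
        (Nat.mul 20 (Nat.add (wit1 l00 l11 l22 l33 t1 t2 l10 l20 l21 l30 l31 l32).n22
          (wit1 l00 l11 l22 l33 t1 t2 l10 l20 l21 l30 l31 l32).n33)))
      (band (Nat.ble (wit1 l00 l11 l22 l33 t1 t2 l10 l20 l21 l30 l31 l32).tr (Nat.mul 65536 t1))
      (band (Nat.ble (wit1 l00 l11 l22 l33 t1 t2 l10 l20 l21 l30 l31 l32).tr (Nat.mul 65536 t2))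
      (band (Nat.ble 1 t1)
        (Nat.ble (wit1 l00 l11 l22 l33 t1 t2 l10 l20 l21 l30 l31 l32).tr 134217728)))) := rfl
  have h00 : (wit1 l00 l11 l22 l33 t1 t2 l10 l20 l21 l30 l31 l32).n00 = l00 * l00 + t1 := rfl
  have hq := s4wit_core (l00 : ℝ) l11 l22 l33 t1 t2 l10 l20 l21 l30 l31 l32
  rw [← hR] at hq
  generalize wit1 l00 l11 l22 l33 t1 t2 l10 l20 l21 l30 l31 l32 = w at *
  rw [hok] at h
  obtain ⟨k1, h⟩ := band_true.1 h
  obtain ⟨k2, h⟩ := band_true.1 h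
  obtain ⟨k3, h⟩ := band_true.1 h
  obtain ⟨k4, k5⟩ := band_true.1 h
  have k1 := Nat.eq_of_beq_eq_true k1
  have k2 := Nat.le_of_ble_eq_true k2
  have k3 := Nat.le_of_ble_eq_true k3
  have k4 := Nat.le_of_ble_eq_true k4
  have k5 := Nat.le_of_ble_eq_true k5
  simp only [Nat.add_eq, Nat.mul_eq] at k1 k2 k3
  refine ⟨⟨?_, ?_, ?_⟩, htr, k5⟩
  · show 7 * ((w.n00 : ℝ) + w.n11) = 20 * ((w.n22 : ℝ) + w.n33)
    exact_mod_cast k1
  · show 0 < (w.n00 : ℝ) + w.n11 + w.n22 + w.n33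
    have : 0 < w.n00 + w.n11 + w.n22 + w.n33 := by omega
    exact_mod_cast this
  · intro v0 v1 v2 v3
    refine hq _ v0 v1 v2 v3 ?_ ?_
    · show (w.n00 : ℝ) + w.n11 + w.n22 + w.n33 ≤ 65536 * (t1 : ℝ)
      rw [htr] at k2
      exact_mod_cast k2
    · show (w.n00 : ℝ) + w.n11 + w.n22 + w.n33 ≤ 65536 * (t2 : ℝ)
      rw [htr] at k3
      exact_mod_cast k3

theorem s4wit_off {a : Ten ℝ} (ha : Adm a) :
    2 * |a.f01| ≤ a.f00 + a.f11 ∧ 2 * |a.f02| ≤ a.f00 + a.f22 ∧ 2 * |a.f03| ≤ a.f00 + a.f33 ∧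
    2 * |a.f12| ≤ a.f11 + a.f22 ∧ 2 * |a.f13| ≤ a.f11 + a.f33 ∧ 2 * |a.f23| ≤ a.f22 + a.f33 := by
  obtain ⟨-, hp, hq⟩ := ha
  have key : ∀ v0 v1 v2 v3 : ℝ, 0 ≤ quadR a v0 v1 v2 v3 := by
    intro v0 v1 v2 v3
    have h1 := hq v0 v1 v2 v3
    have h2 : 0 ≤ sq4 v0 v1 v2 v3 := by
      unfold sq4
      positivity
    have h3 := mul_nonneg hp.le h2
    linarith
  have hh : ∀ x s : ℝ, 0 ≤ s + 2 * x → 0 ≤ s - 2 * x → 2 * |x| ≤ s := by
    intro x s h1 h2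
    rcases abs_cases x with ⟨h, -⟩ | ⟨h, -⟩ <;> rw [h] <;> linarith
  have p01 := key 1 1 0 0
  have m01 := key 1 (-1) 0 0
  have p02 := key 1 0 1 0
  have m02 := key 1 0 (-1) 0
  have p03 := key 1 0 0 1
  have m03 := key 1 0 0 (-1)
  have p12 := key 0 1 1 0
  have m12 := key 0 1 (-1) 0
  have p13 := key 0 1 0 1
  have m13 := key 0 1 0 (-1)
  have p23 := key 0 0 1 1
  have m23 := key 0 0 1 (-1)
  unfold quadR at p01 m01 p02 m02 p03 m03 p12 m12 p13 m13 p23 m23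
  exact ⟨hh _ _ (by linarith) (by linarith), hh _ _ (by linarith) (by linarith),
    hh _ _ (by linarith) (by linarith), hh _ _ (by linarith) (by linarith),
    hh _ _ (by linarith) (by linarith), hh _ _ (by linarith) (by linarith)⟩

theorem s4wit_diag {a k m : ℝ} (ha : 0 ≤ a) (h : |k| ≤ m) : -(a * m) ≤ a * k ∧ a * k ≤ a * m := by
  have h1 := mul_le_mul_of_nonneg_left (abs_le.1 h).1 ha
  have h2 := mul_le_mul_of_nonneg_left (abs_le.1 h).2 ha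
  exact ⟨by linarith, h2⟩

theorem s4wit_offd {a s k m : ℝ} (ha : 2 * |a| ≤ s) (h : |k| ≤ m) :
    -(s * m) ≤ 2 * (a * k) ∧ 2 * (a * k) ≤ s * m := by
  have h0 : |a * k| = |a| * |k| := abs_mul a k
  have h1 : 2 * |a| * |k| ≤ s * m :=
    mul_le_mul ha h (abs_nonneg k) (le_trans (by positivity) ha)
  have h2 := neg_abs_le (a * k)
  have h3 := le_abs_self (a * k)
  constructor <;> nlinarith

theorem s4wit_natAbs {a : ℤ} {p q T : ℕ} (h : 2 * |(a : ℝ)| ≤ (p : ℝ) + (q : ℝ))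
    (hT : p + q ≤ T) : a.natAbs ≤ T := by
  have h1 : ((a.natAbs : ℕ) : ℝ) = |(a : ℝ)| := by
    rw [Nat.cast_natAbs, Int.cast_abs]
  have h2 : ((p + q : ℕ) : ℝ) ≤ (T : ℝ) := by exact_mod_cast hT
  rw [Nat.cast_add] at h2
  have h3 : (0 : ℝ) ≤ |(a : ℝ)| := abs_nonneg _
  have h4 : ((a.natAbs : ℕ) : ℝ) ≤ (T : ℝ) := by
    rw [h1]
    linarith
  exact_mod_cast h4
theorem wit_sound (n : ℕ) (h : (wit n).ok = true) : WOK (wit n) := by
  exact s4wit_sound1 _ _ _ _ _ _ _ _ _ _ _ _ h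

theorem dot_abs {w : Wit} (hw : WOK w) {k : Ten ℝ} {m : Ten ℕ} (h : TAbs k m) :
    |dotR w.toR k| ≤ (rowmax m : ℝ) * (w.tr : ℝ) := by
  obtain ⟨ha, htr, -⟩ := hw
  obtain ⟨o01, o02, o03, o12, o13, o23⟩ := s4wit_off ha
  obtain ⟨k00, k01, k02, k03, k11, k12, k13, k22, k23, k33⟩ := h
  have r0 : m.f00 + m.f01 + (m.f02 + m.f03) ≤ rowmax m := by
    simp only [rowmax, nmax_eq, Nat.add_eq]
    omega
  have r1 : m.f01 + m.f11 + (m.f12 + m.f13) ≤ rowmax m := by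
    simp only [rowmax, nmax_eq, Nat.add_eq]
    omega
  have r2 : m.f02 + m.f12 + (m.f22 + m.f23) ≤ rowmax m := by
    simp only [rowmax, nmax_eq, Nat.add_eq]
    omega
  have r3 : m.f03 + m.f13 + (m.f23 + m.f33) ≤ rowmax m := by
    simp only [rowmax, nmax_eq, Nat.add_eq]
    omega
  have s0 : (m.f00 : ℝ) + m.f01 + (m.f02 + m.f03) ≤ (rowmax m : ℝ) := by exact_mod_cast r0
  have s1 : (m.f01 : ℝ) + m.f11 + (m.f12 + m.f13) ≤ (rowmax m : ℝ) := by exact_mod_cast r1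
  have s2 : (m.f02 : ℝ) + m.f12 + (m.f22 + m.f23) ≤ (rowmax m : ℝ) := by exact_mod_cast r2
  have s3 : (m.f03 : ℝ) + m.f13 + (m.f23 + m.f33) ≤ (rowmax m : ℝ) := by exact_mod_cast r3
  have n0 : (0 : ℝ) ≤ (w.n00 : ℝ) := Nat.cast_nonneg _
  have n1 : (0 : ℝ) ≤ (w.n11 : ℝ) := Nat.cast_nonneg _
  have n2 : (0 : ℝ) ≤ (w.n22 : ℝ) := Nat.cast_nonneg _
  have n3 : (0 : ℝ) ≤ (w.n33 : ℝ) := Nat.cast_nonneg _
  have u0 := mul_le_mul_of_nonneg_left s0 n0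
  have u1 := mul_le_mul_of_nonneg_left s1 n1
  have u2 := mul_le_mul_of_nonneg_left s2 n2
  have u3 := mul_le_mul_of_nonneg_left s3 n3
  have d0 := s4wit_diag n0 k00
  have d1 := s4wit_diag n1 k11
  have d2 := s4wit_diag n2 k22
  have d3 := s4wit_diag n3 k33
  have e01 := s4wit_offd o01 k01
  have e02 := s4wit_offd o02 k02
  have e03 := s4wit_offd o03 k03
  have e12 := s4wit_offd o12 k12
  have e13 := s4wit_offd o13 k13
  have e23 := s4wit_offd o23 k23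
  have ht : (w.tr : ℝ) = (w.n00 : ℝ) + w.n11 + w.n22 + w.n33 := by exact_mod_cast htr
  rw [ht]
  simp only [Wit.toR] at e01 e02 e03 e12 e13 e23
  simp only [dotR, Wit.toR]
  rw [abs_le]
  constructor
  · linarith [d0.1, d1.1, d2.1, d3.1, e01.1, e02.1, e03.1, e12.1, e13.1, e23.1]
  · linarith [d0.2, d1.2, d2.2, d3.2, e01.2, e02.2, e03.2, e12.2, e13.2, e23.2]

theorem dot_rep {K d : ℕ} {t0 t1 t2 : ℝ} {g M : ℕ} {w : Wit} (hw : WOK w) {h : Ten ℤ}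
    {k : Ten ℝ} (hr : TRep K d t0 t1 t2 g M h k) :
    Rep K d t0 t1 t2 g (2147483648 * M) (dotI w h) (dotR w.toR k) := by
  obtain ⟨ha, htr, hT⟩ := hw
  obtain ⟨o01, o02, o03, o12, o13, o23⟩ := s4wit_off ha
  obtain ⟨k00, k01, k02, k03, k11, k12, k13, k22, k23, k33⟩ := hr
  have b01 : w.a01.natAbs ≤ 134217728 := s4wit_natAbs o01 (by omega)
  have b02 : w.a02.natAbs ≤ 134217728 := s4wit_natAbs o02 (by omega)
  have b03 : w.a03.natAbs ≤ 134217728 := s4wit_natAbs o03 (by omega)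
  have b12 : w.a12.natAbs ≤ 134217728 := s4wit_natAbs o12 (by omega)
  have b13 : w.a13.natAbs ≤ 134217728 := s4wit_natAbs o13 (by omega)
  have b23 : w.a23.natAbs ≤ 134217728 := s4wit_natAbs o23 (by omega)
  have b00 : (w.n00 : ℤ).natAbs ≤ 134217728 := by omega
  have b11 : (w.n11 : ℤ).natAbs ≤ 134217728 := by omega
  have b22 : (w.n22 : ℤ).natAbs ≤ 134217728 := by omega
  have b33 : (w.n33 : ℤ).natAbs ≤ 134217728 := by omega
  have c00 := (k00.smul (w.n00 : ℤ)).mono le_rfl (Nat.mul_le_mul_right M b00)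
  have c11 := (k11.smul (w.n11 : ℤ)).mono le_rfl (Nat.mul_le_mul_right M b11)
  have c22 := (k22.smul (w.n22 : ℤ)).mono le_rfl (Nat.mul_le_mul_right M b22)
  have c33 := (k33.smul (w.n33 : ℤ)).mono le_rfl (Nat.mul_le_mul_right M b33)
  have c01 := (k01.smul w.a01).mono le_rfl (Nat.mul_le_mul_right M b01)
  have c02 := (k02.smul w.a02).mono le_rfl (Nat.mul_le_mul_right M b02)
  have c03 := (k03.smul w.a03).mono le_rfl (Nat.mul_le_mul_right M b03)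
  have c12 := (k12.smul w.a12).mono le_rfl (Nat.mul_le_mul_right M b12)
  have c13 := (k13.smul w.a13).mono le_rfl (Nat.mul_le_mul_right M b13)
  have c23 := (k23.smul w.a23).mono le_rfl (Nat.mul_le_mul_right M b23)
  have hs := ((c00.add c11).add (c22.add c33)).add
    ((((c01.add c02).add (c03.add c12)).add (c13.add c23)).smul 2)
  have hs2 := hs.mono (g' := g) (M' := 2147483648 * M) (by simp only [max_self, le_refl])
    (by
      have h2 : (2 : ℤ).natAbs = 2 := rfl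
      rw [h2]
      omega)
  have eN : dotI w h = (w.n00 : ℤ) * h.f00 + (w.n11 : ℤ) * h.f11 +
      ((w.n22 : ℤ) * h.f22 + (w.n33 : ℤ) * h.f33) +
      2 * (w.a01 * h.f01 + w.a02 * h.f02 + (w.a03 * h.f03 + w.a12 * h.f12) +
        (w.a13 * h.f13 + w.a23 * h.f23)) := by
    simp only [dotI, iadd_eq, imul_eq, ism_eq, Nat.cast_ofNat]
  have eR : dotR w.toR k = ((w.n00 : ℤ) : ℝ) * k.f00 + ((w.n11 : ℤ) : ℝ) * k.f11 +
      (((w.n22 : ℤ) : ℝ) * k.f22 + ((w.n33 : ℤ) : ℝ) * k.f33) +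
      ((2 : ℤ) : ℝ) * ((w.a01 : ℝ) * k.f01 + (w.a02 : ℝ) * k.f02 +
        ((w.a03 : ℝ) * k.f03 + (w.a12 : ℝ) * k.f12) +
        ((w.a13 : ℝ) * k.f13 + (w.a23 : ℝ) * k.f23)) := by
    simp only [dotR, Wit.toR, Int.cast_natCast, Int.cast_ofNat]
    ring
  rw [eN, eR]
  exact hs2

end Pool.Agent.P.MP_f12b6c_an
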