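import Pool.Agent.P.MP_f12b6c_an.S4Rep
import Pool.Agent.P.MP_f12b6c_an.S4Simd
import Pool.Agent.P.MP_f12b6c_an.S4Geo
import Pool.Agent.P.MP_f12b6c_an.S4Wit
import Pool.Agent.P.MP_f12b6c_an.S4Der

/-! Soundness of the comparison of values. -/

namespace Pool.Agent.P.MP_f12b6c_an

variable {K d : ℕ} {t0 t1 t2 : ℝ}

theorem dot_lin (a e o : Ten ℝ) (α β : ℝ) :
    dotR a (Ten.zip (fun p q => α * p + β * q) e o) = α * dotR a e + β * dotR a o := by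
  simp only [dotR, Ten.zip]; ring

theorem dot_Hm (a : Ten ℝ) (y0 y1 y2 y3 : ℝ) :
    dotR a (Hm y0 y1 y2 y3) = (dotR a (GER y0 y1 y2 y3) +
      Real.sqrt (sq4 y0 y1 y2 y3) * dotR a (GOR y0 y1 y2 y3)) / sq4 y0 y1 y2 y3 ^ 3 := by
  simp only [dotR, Hm, Ten.zip]; ring

theorem rep_nat (n : ℕ) : Rep K d t0 t1 t2 0 n (Int.ofNat n) (n : ℝ) := by
  simpa using (rep_const (K := K) (d := d) (t0 := t0) (t1 := t1) (t2 := t2) (n : ℤ))

theorem rep_b {rho : ℤ} {ρ : ℝ} (hr : Rep K d t0 t1 t2 2 (4 * BX ^ 2) rho ρ) {ka : ℕ}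
    (k2 : ka ≤ 2 * BX) :
    Rep K d t0 t1 t2 2 (2 ^ 77) (iadd (Int.ofNat (Nat.mul ka ka)) rho) ((ka : ℝ) ^ 2 + ρ) := by
  rw [iadd_eq]
  have h := (rep_nat (K := K) (d := d) (t0 := t0) (t1 := t1) (t2 := t2) (ka * ka)).add hr
  have e : ((ka * ka : ℕ) : ℝ) = (ka : ℝ) ^ 2 := by push_cast; ring
  rw [e] at h
  refine h.mono (by norm_num) ?_
  have : ka * ka ≤ (2 * BX) * (2 * BX) := Nat.mul_le_mul k2 k2
  have e2 : (2 * BX) * (2 * BX) + 4 * BX ^ 2 = 2 ^ 77 := by decide +kernel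
  omega

theorem comb_rep {g M1 M2 : ℕ} {e o : Ten ℤ} {eR oR : Ten ℝ} {rho : ℤ} {ρ : ℝ}
    (hr : Rep K d t0 t1 t2 2 (4 * BX ^ 2) rho ρ) {ka : ℕ} (k2 : ka ≤ 2 * BX)
    (h1 : TRep K d t0 t1 t2 (g + 1) M1 e eR) (h2 : TRep K d t0 t1 t2 g M2 o oR) :
    TRep K d t0 t1 t2 (g + 2) (2 ^ 39 * M1 + 2 ^ 77 * M2)
      (comb (Nat.mul 2 ka) (iadd (Int.ofNat (Nat.mul ka ka)) rho) e o)
      (Ten.zip (fun p q => (2 * (ka : ℝ)) * p + ((ka : ℝ) ^ 2 + ρ) * q) eR oR) := by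
  refine TRep.zip (fun p q P Q hp hq => ?_) h1 h2
  rw [iadd_eq, imul_eq]
  have h := (hp.ism (2 * ka)).add ((rep_b hr k2).mul hq)
  have e : ((2 * ka : ℕ) : ℝ) = 2 * (ka : ℝ) := by push_cast; ring
  rw [e] at h
  refine h.mono (by omega) ?_
  have e2 : 2 * (2 * BX) = 2 ^ 39 := by decide +kernel
  have : 2 * ka * M1 ≤ 2 ^ 39 * M1 := Nat.mul_le_mul_right _ (by omega)
  omega

theorem err_le {r κ η D R T : ℝ} (he : (r - κ) ^ 2 ≤ η) (hD : |D| ≤ R * T) :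
    |(r - κ) ^ 2 * D| ≤ η * R * T := by
  rw [abs_mul, abs_of_nonneg (sq_nonneg _), mul_assoc]
  exact mul_le_mul he hD (abs_nonneg _) ((sq_nonneg _).trans he)

theorem far_core (h0 : |t0| ≤ 1) (h1 : |t1| ≤ 1) (h2 : |t2| ≤ 1) {x0 x1 x2 x3 : ℤ}
    {y0 y1 y2 y3 : ℝ} (r0 : Rep c7.K c7.d t0 t1 t2 1 BX x0 y0)
    (r1 : Rep c7.K c7.d t0 t1 t2 1 BX x1 y1) (r2 : Rep c7.K c7.d t0 t1 t2 1 BX x2 y2)
    (r3 : Rep c7.K c7.d t0 t1 t2 1 BX x3 y3) {m0 m1 m2 m3 : ℕ} (b0 : |y0| ≤ m0) (b1 : |y1| ≤ m1)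
    (b2 : |y2| ≤ m2) (b3 : |y3| ≤ m3) {rho : ℤ} {ρ : ℝ} (hρ : ρ = sq4 y0 y1 y2 y3)
    (hr : Rep c7.K c7.d t0 t1 t2 2 (4 * BX ^ 2) rho ρ) {ka eta : ℕ} (k1 : 1 ≤ ka)
    (k2 : ka ≤ 2 * BX) (pos : 0 < ρ) (he : (Real.sqrt ρ - ka) ^ 2 ≤ eta) {w : Wit} (hw : WOK w)
    (tau : ℤ) (ht : tau.natAbs ≤ 2 ^ 35) :
    (lowOK c7 (isub (dotI w (comb (Nat.mul 2 ka) (iadd (Int.ofNat (Nat.mul ka ka)) rho)
        (GE iadd imul isub ism x0 x1 x2 x3) (GO iadd imul isub ism x0 x1 x2 x3)))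
        (imul tau (ism (Nat.mul 2 ka) (imul (imul rho rho) rho))))
      (Nat.mul (Nat.mul eta (rowmax (GO Nat.add Nat.mul Nat.add Nat.mul m0 m1 m2 m3))) w.tr) = true →
      (tau : ℝ) ≤ dotR w.toR (Hm y0 y1 y2 y3)) ∧
    (lowOK c7 (isub (imul tau (ism (Nat.mul 2 ka) (imul (imul rho rho) rho)))
        (dotI w (comb (Nat.mul 2 ka) (iadd (Int.ofNat (Nat.mul ka ka)) rho)
        (GE iadd imul isub ism x0 x1 x2 x3) (GO iadd imul isub ism x0 x1 x2 x3))))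
      (Nat.mul (Nat.mul eta (rowmax (GO Nat.add Nat.mul Nat.add Nat.mul m0 m1 m2 m3))) w.tr) = true →
      dotR w.toR (Hm y0 y1 y2 y3) ≤ (tau : ℝ)) := by
  have hG := dot_rep hw (comb_rep hr k2 (GE_rep r0 r1 r2 r3) (GO_rep r0 r1 r2 r3))
  rw [dot_lin] at hG
  have hD : Rep c7.K c7.d t0 t1 t2 6 (2 ^ 302)
      (imul tau (ism (Nat.mul 2 ka) (imul (imul rho rho) rho))) (tau * (2 * ka * ρ ^ 3)) := by
    rw [imul_eq, imul_eq, imul_eq]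
    have h := (((hr.mul hr).mul hr).ism (2 * ka)).smul tau
    have e : (tau : ℝ) * (((2 * ka : ℕ) : ℝ) * (ρ * ρ * ρ)) = tau * (2 * ka * ρ ^ 3) := by
      push_cast; ring
    rw [e] at h
    refine h.mono le_rfl ?_
    have e2 : 2 ^ 35 * (2 * (2 * BX) * (4 * BX ^ 2 * (4 * BX ^ 2) * (4 * BX ^ 2))) = 2 ^ 302 := by
      decide +kernel
    rw [← e2]
    exact Nat.mul_le_mul ht (Nat.mul_le_mul_right _ (by omega))
  have herr := err_le he (dot_abs hw (GO_abs b0 b1 b2 b3))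
  rw [dot_Hm, ← hρ]
  set dE := dotR w.toR (GER y0 y1 y2 y3)
  set dO := dotR w.toR (GOR y0 y1 y2 y3)
  set r := Real.sqrt ρ
  have hrr : r ^ 2 = ρ := Real.sq_sqrt pos.le
  have hk : (0 : ℝ) < ka := by exact_mod_cast k1
  have hρ3 : 0 < ρ ^ 3 := pow_pos pos 3
  have key : 2 * (ka : ℝ) * dE + ((ka : ℝ) ^ 2 + ρ) * dO =
      2 * ka * (dE + r * dO) + (r - ka) ^ 2 * dO := by rw [← hrr]; ring
  have hab := abs_le.1 herr
  constructor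
  · intro hl
    rw [isub_eq] at hl
    have h := low_sound c7 c7_ok h0 h1 h2 ((hG.sub hD).mono (by decide) le_rfl)
      (by decide +kernel) _ hl
    have e : ((Nat.mul (Nat.mul eta (rowmax (GO Nat.add Nat.mul Nat.add Nat.mul m0 m1 m2 m3)))
      w.tr : ℕ) : ℝ) = eta * (rowmax (GO Nat.add Nat.mul Nat.add Nat.mul m0 m1 m2 m3) : ℝ) *
        w.tr := by simp only [Nat.mul_eq]; push_cast; ring
    rw [e, key] at h
    rw [le_div_iff₀ hρ3]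
    have : 0 ≤ 2 * (ka : ℝ) * (dE + r * dO - tau * ρ ^ 3) := by linarith [hab.2]
    have := nonneg_of_mul_nonneg_right this (by linarith) 
    linarith
  · intro hl
    rw [isub_eq] at hl
    have h := low_sound c7 c7_ok h0 h1 h2 ((hD.sub hG).mono (by decide) le_rfl)
      (by decide +kernel) _ hl
    have e : ((Nat.mul (Nat.mul eta (rowmax (GO Nat.add Nat.mul Nat.add Nat.mul m0 m1 m2 m3)))
      w.tr : ℕ) : ℝ) = eta * (rowmax (GO Nat.add Nat.mul Nat.add Nat.mul m0 m1 m2 m3) : ℝ) *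
        w.tr := by simp only [Nat.mul_eq]; push_cast; ring
    rw [e, key] at h
    rw [div_le_iff₀ hρ3]
    have : 0 ≤ 2 * (ka : ℝ) * (tau * ρ ^ 3 - (dE + r * dO)) := by linarith [hab.1]
    have := nonneg_of_mul_nonneg_right this (by linarith)
    linarith

theorem GeoOK.rho {c : Cst} {g : Geo} {A U0 U1 U2 : ℝ} (h : GeoOK c g t0 t1 t2 A U0 U1 U2) :
    Rep c.K c.d t0 t1 t2 2 (4 * BX ^ 2) (rhoI g) (sq4 A U0 U1 U2) := by
  unfold rhoI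
  simp only [iadd_eq, imul_eq]
  have h' := ((h.ra.mul h.ra).add (h.r0.mul h.r0)).add ((h.r1.mul h.r1).add (h.r2.mul h.r2))
  have e : A * A + U0 * U0 + (U1 * U1 + U2 * U2) = sq4 A U0 U1 U2 := by unfold sq4; ring
  rw [e] at h'
  exact h'.mono (by decide) (by decide +kernel)

theorem farCell_sound (ax : Ax) {g : Geo} {A U0 U1 U2 : ℝ} (h : GeoOK c7 g t0 t1 t2 A U0 U1 U2)
    {w : Wit} (hw : WOK w) (tau : ℤ) (ht : tau.natAbs ≤ 2 ^ 35) :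
    (lowOK c7 (isub (dotI w (farCell1 ax g (rhoI g)).g) (imul tau (farCell1 ax g (rhoI g)).d))
      (Nat.mul (farCell1 ax g (rhoI g)).r w.tr) = true →
      (tau : ℝ) ≤ dotR w.toR (emb ax A U0 U1 U2 Hm)) ∧
    (lowOK c7 (isub (imul tau (farCell1 ax g (rhoI g)).d) (dotI w (farCell1 ax g (rhoI g)).g))
      (Nat.mul (farCell1 ax g (rhoI g)).r w.tr) = true →
      dotR w.toR (emb ax A U0 U1 U2 Hm) ≤ (tau : ℝ)) := by
  cases ax
  · exact far_core h.h0 h.h1 h.h2 h.ra h.r2 h.r0 h.r1 h.ba h.b2 h.b0 h.b1 (by unfold sq4; ring)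
      h.rho h.k1 h.k2 h.pos h.eta hw tau ht
  · exact far_core h.h0 h.h1 h.h2 h.r0 h.ra h.r1 h.r2 h.b0 h.ba h.b1 h.b2 (by unfold sq4; ring)
      h.rho h.k1 h.k2 h.pos h.eta hw tau ht
  · exact far_core h.h0 h.h1 h.h2 h.r0 h.r1 h.ra h.r2 h.b0 h.b1 h.ba h.b2 (by unfold sq4; ring)
      h.rho h.k1 h.k2 h.pos h.eta hw tau ht
  · exact far_core h.h0 h.h1 h.h2 h.r0 h.r1 h.r2 h.ra h.b0 h.b1 h.b2 h.ba (by unfold sq4; ring)
      h.rho h.k1 h.k2 h.pos h.eta hw tau ht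

theorem emb_smul (ax : Ax) {l : ℝ} (hl : 0 < l) (a u0 u1 u2 : ℝ) :
    emb ax (l * a) (l * u0) (l * u1) (l * u2) Hm = emb ax a u0 u1 u2 Hm := by
  cases ax <;> exact Hm_smul l hl _ _ _ _

theorem tau_bound (n : ℕ) :
    (snn (Nat.land (Nat.shiftRight n 168) 68719476735) 34359738368).natAbs ≤ 2 ^ 35 := by
  have h : Nat.land (Nat.shiftRight n 168) 68719476735 ≤ 68719476735 := Nat.and_le_right
  rw [snn_eq]
  generalize Nat.land (Nat.shiftRight n 168) 68719476735 = q at h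
  omega

theorem farLeaf_sound (ax ay : Ax) (sg : Bool) (X Y : Box) (n : ℕ)
    (h : farLeaf (farCell ax true X) (farCell ay sg Y) n = true) {u0 u1 u2 w0 w1 w2 : ℝ}
    (hu : InBox X u0 u1 u2) (hv : InBox Y w0 w1 w2) : PairE ax ay sg u0 u1 u2 w0 w1 w2 := by
  unfold farLeaf farLeaf1 at h
  simp only [band_true] at h
  obtain ⟨hx, hy, ha, hl1, hl2⟩ := h
  have hw := wit_sound n ha
  obtain ⟨t0, t1, t2, l, hl, hg⟩ := geo_sound c7 true X hx hu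
  obtain ⟨s0, s1, s2, l', hl', hg'⟩ := geo_sound c7 sg Y hy hv
  have e1 := (farCell_sound ax hg hw _ (tau_bound n)).1 hl1
  have e2 := (farCell_sound ay hg' hw _ (tau_bound n)).2 hl2
  rw [emb_smul _ hl] at e1
  rw [emb_smul _ hl'] at e2
  exact ⟨_, hw.1, e2.trans e1⟩

end Pool.Agent.P.MP_f12b6c_an
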