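import Pool.Agent.P.MP_f12b6c_an.Defs

namespace Pool.Agent.P.MP_f12b6c_an

open Metric Set Filter Topology Matrix
open scoped RealInnerProductSpace

variable {n : ℕ}

lemma hess_symm {φ : E n → ℝ} {x : E n} (h : ContDiffAt ℝ 2 φ x) : (hess φ x).IsSymm := by
  have hs : IsSymmSndFDerivAt ℝ φ x := h.isSymmSndFDerivAt (by simp)
  ext i j
  simp only [hess, transpose_apply, of_apply]
  exact hs _ _

lemma hess_add {f g : E n → ℝ} {x : E n} (hf : ContDiffAt ℝ 2 f x) (hg : ContDiffAt ℝ 2 g x) :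
    hess (fun y => f y + g y) x = hess f x + hess g x := by
  have h1 : fderiv ℝ (fun y => f y + g y) =ᶠ[𝓝 x] fun y => fderiv ℝ f y + fderiv ℝ g y := by
    filter_upwards [hf.eventually (by simp), hg.eventually (by simp)] with y hy1 hy2
    exact fderiv_fun_add (hy1.differentiableAt (by simp)) (hy2.differentiableAt (by simp))
  have df : DifferentiableAt ℝ (fderiv ℝ f) x :=
    (hf.fderiv_right (m := 1) (by norm_num)).differentiableAt (by simp)
  have dg : DifferentiableAt ℝ (fderiv ℝ g) x :=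
    (hg.fderiv_right (m := 1) (by norm_num)).differentiableAt (by simp)
  ext i j
  simp only [hess, of_apply, Matrix.add_apply]
  rw [h1.fderiv_eq, fderiv_fun_add df dg]
  simp

lemma hess_neg (f : E n → ℝ) (x : E n) : hess (fun y => -f y) x = -hess f x := by
  have h1 : fderiv ℝ (fun y => -f y) = fun y => -fderiv ℝ f y := by
    funext y; exact fderiv_fun_neg
  ext i j
  simp only [hess, of_apply, Matrix.neg_apply]
  rw [h1, fderiv_fun_neg]
  simp

lemma hess_translate (f : E n → ℝ) (x a : E n) :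
    hess (fun y => f (y + a)) x = hess f (x + a) := by
  have h1 : fderiv ℝ (fun y => f (y + a)) = fun y => fderiv ℝ f (y + a) := by
    funext y; exact fderiv_comp_add_right a
  ext i j
  simp only [hess, of_apply]
  rw [h1, fderiv_comp_add_right a]

lemma opNorm_smul_one_le {c : ℝ} (hc : 0 ≤ c) : opNorm (c • (1 : Mat n)) ≤ c := by
  unfold opNorm
  rw [map_smul, map_one, norm_smul, Real.norm_of_nonneg hc]
  have : ‖(1 : E n →L[ℝ] E n)‖ ≤ 1 := ContinuousLinearMap.norm_id_le
  nlinarith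

lemma le_opNorm_vecMulVec {c : ℝ} (hc : 0 ≤ c) (z : E n) :
    c * ‖z‖ ^ 2 ≤ opNorm (c • vecMulVec z.ofLp z.ofLp) := by
  unfold opNorm
  rw [map_smul, norm_smul, Real.norm_of_nonneg hc]
  refine mul_le_mul_of_nonneg_left ?_ hc
  set T := Matrix.toEuclideanCLM (n := Fin n) (𝕜 := ℝ) (vecMulVec z.ofLp z.ofLp)
  have hz : z.ofLp ⬝ᵥ z.ofLp = ‖z‖ ^ 2 := by
    rw [← real_inner_self_eq_norm_sq, EuclideanSpace.inner_eq_star_dotProduct]; simp
  have h1 : ⟪z, T z⟫ = ‖z‖ ^ 2 * ‖z‖ ^ 2 := by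
    rw [inner_toEuclideanCLM, vecMulVec_mulVec, dotProduct_smul]
    simp [hz]
  have h2 : ⟪z, T z⟫ ≤ ‖z‖ * (‖T‖ * ‖z‖) :=
    (real_inner_le_norm _ _).trans (mul_le_mul_of_nonneg_left (T.le_opNorm z) (norm_nonneg _))
  rcases eq_or_lt_of_le (norm_nonneg z) with h0 | h0
  · rw [← h0]; simp
  · have : 0 < ‖z‖ ^ 2 := by positivity
    nlinarith

lemma psd_smul_one {c : ℝ} (hc : 0 ≤ c) : (c • (1 : Mat n)).PosSemidef :=
  PosSemidef.one.smul hc

lemma psd_vecMulVec {c : ℝ} (hc : 0 ≤ c) (z : E n) :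
    (c • vecMulVec z.ofLp z.ofLp).PosSemidef := by
  have := posSemidef_vecMulVec_self_star (R := ℝ) z.ofLp
  simpa using this.smul hc

lemma psd_isSymm {N : Mat n} (h : N.PosSemidef) : N.IsSymm := by
  have := h.isHermitian
  rwa [IsHermitian, conjTranspose_eq_transpose_of_trivial] at this

/-- The difference `u (· + a) - u` cannot be touched from below by a strict subsolution. -/
lemma touch {lam Lam : ℝ} {F : Mat n → ℝ} {u : E n → ℝ} (hlam : 0 < lam) (hLam : lam ≤ Lam)
    (hF : UnifElliptic lam Lam F) (hu : IsViscSol F u) (h2 : ContDiffOn ℝ 2 u {0}ᶜ)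
    {x a z : E n} (ha : a ≠ 0) (hx : x ∈ ball (0 : E n) 1) (hxa : x + a ∈ ball (0 : E n) 1)
    {φ : E n → ℝ} (hφ : ContDiffAt ℝ 2 φ x) {c1 c2 : ℝ} (hc1 : 0 ≤ c1) (hc2 : 0 ≤ c2)
    (hh : hess φ x = c1 • vecMulVec z.ofLp z.ofLp - c2 • (1 : Mat n))
    (hmin : IsLocalMin (fun y => u (y + a) - u y - φ y) x) :
    lam * (c1 * ‖z‖ ^ 2) ≤ Lam * c2 := by
  have hc : ∀ y : E n, y ≠ 0 → ContDiffAt ℝ 2 u y := fun y hy =>
    h2.contDiffAt (isOpen_compl_singleton.mem_nhds hy)
  have hsol : ∀ y ∈ ball (0 : E n) 1, y ≠ 0 → F (hess u y) = 0 := by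
    intro y hy hy0
    have h := hu.2 y hy u (hc y hy0)
    have e : (fun w => u w - u w) = fun _ => (0 : ℝ) := by funext w; simp
    rw [e] at h
    exact le_antisymm (h.2 isLocalMin_const) (h.1 isLocalMax_const)
  set N1 := c1 • vecMulVec z.ofLp z.ofLp
  set N2 := c2 • (1 : Mat n)
  have p1 : N1.PosSemidef := psd_vecMulVec hc1 z
  have p2 : N2.PosSemidef := psd_smul_one hc2
  have n1 : lam * (c1 * ‖z‖ ^ 2) ≤ lam * opNorm N1 :=
    mul_le_mul_of_nonneg_left (le_opNorm_vecMulVec hc1 z) hlam.le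
  have n2 : Lam * opNorm N2 ≤ Lam * c2 :=
    mul_le_mul_of_nonneg_left (opNorm_smul_one_le hc2) (by linarith)
  by_cases hxa0 : x + a = 0
  · have hx0 : x ≠ 0 := by
      rintro rfl
      exact ha (by simpa using hxa0)
    have hxe : (0 : E n) + x = x := zero_add x
    have t1 : ContDiffAt ℝ 2 (fun y : E n => u (y + x)) 0 :=
      ContDiffAt.comp (g := u) 0 (by simpa using hc x hx0) (by fun_prop)
    have t2 : ContDiffAt ℝ 2 (fun y : E n => φ (y + x)) 0 :=
      ContDiffAt.comp (g := φ) 0 (by simpa using hφ) (by fun_prop)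
    have hm : IsLocalMin (fun y => u y - (u (y + x) + φ (y + x))) 0 := by
      have hcont : ContinuousAt (fun y : E n => y + x) 0 := by fun_prop
      have h' : IsLocalMin (fun y => u (y + a) - u y - φ y) ((fun y : E n => y + x) 0) := by
        simpa using hmin
      have := IsLocalMin.comp_continuous (g := fun y : E n => y + x) (b := 0) h' hcont
      refine this.congr (Eventually.of_forall fun y => ?_)
      simp only [Function.comp]
      rw [add_assoc, hxa0, add_zero]; ring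
    have h := (hu.2 0 (by simp) _ (t1.add t2)).2 hm
    rw [hess_add t1 t2, hess_translate, hess_translate, hxe, hh] at h
    have s := hess_symm (hc x hx0)
    have a1 := (hF (hess u x - N2) N1 (s.sub (psd_isSymm p2)) p1).1
    have a2 := (hF (hess u x - N2) N2 (s.sub (psd_isSymm p2)) p2).2
    rw [sub_add_cancel, hsol x hx hx0] at a2
    have e : hess u x - N2 + N1 = hess u x + (N1 - N2) := by abel
    rw [e] at a1
    linarith
  · have t1 : ContDiffAt ℝ 2 (fun y : E n => u (y + a)) x :=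
      ContDiffAt.comp (g := u) x (hc _ hxa0) (by fun_prop)
    have hm : IsLocalMax (fun y => u y - (u (y + a) + -φ y)) x := by
      refine hmin.neg.congr (Eventually.of_forall fun y => ?_)
      simp only; ring
    have h := (hu.2 x hx _ (t1.add hφ.neg)).1 hm
    rw [hess_add t1 hφ.neg, hess_translate, hess_neg, hh] at h
    have s := hess_symm (hc _ hxa0)
    have a1 := (hF (hess u (x + a) - N1) N1 (s.sub (psd_isSymm p1)) p1).1
    have a2 := (hF (hess u (x + a) - N1) N2 (s.sub (psd_isSymm p1)) p2).2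
    rw [sub_add_cancel, hsol _ hxa hxa0] at a1
    have e : hess u (x + a) - N1 + N2 = hess u (x + a) + -(N1 - N2) := by abel
    rw [e] at a2
    linarith

/-- Hessian of the barrier plus an affine function. -/
lemma hess_barrier (y0 b : E n) (μ a c : ℝ) (x : E n) :
    hess (fun y => μ * Real.exp (-a * ‖y - y0‖ ^ 2) + (c + ⟪b, y⟫)) x =
      (μ * Real.exp (-a * ‖x - y0‖ ^ 2) * (4 * a ^ 2)) • vecMulVec (x - y0).ofLp (x - y0).ofLp
        - (μ * Real.exp (-a * ‖x - y0‖ ^ 2) * (2 * a)) • (1 : Mat n) := by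
  have hq : ∀ y : E n, HasFDerivAt (fun y : E n => -a * ‖y - y0‖ ^ 2)
      ((-a * 2) • innerSL ℝ (y - y0)) y := by
    intro y
    have := (((hasFDerivAt_id y).sub_const y0).norm_sq).const_mul (-a)
    refine this.congr_fderiv ?_
    ext v; simp; ring
  have h1 : fderiv ℝ (fun y => μ * Real.exp (-a * ‖y - y0‖ ^ 2) + (c + ⟪b, y⟫)) =
      fun y => (μ * Real.exp (-a * ‖y - y0‖ ^ 2) * (-a * 2)) • innerSL ℝ (y - y0)
        + innerSL ℝ b := by
    funext y
    have := ((hq y).exp.const_mul μ).add ((innerSL ℝ b).hasFDerivAt.const_add c)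
    refine HasFDerivAt.fderiv (this.congr_fderiv ?_)
    ext v; simp; ring
  have h2 : HasFDerivAt (fun y : E n => innerSL ℝ (y - y0)) (innerSL ℝ : E n →L[ℝ] E n →L[ℝ] ℝ) x := by
    have := (innerSL ℝ : E n →L[ℝ] E n →L[ℝ] ℝ).hasFDerivAt.comp x ((hasFDerivAt_id x).sub_const y0)
    exact this.congr_fderiv (ContinuousLinearMap.comp_id _)
  have h3 := (((((hq x).exp.const_mul μ).mul_const (-a * 2)).smul h2).add_const (innerSL ℝ b)).fderiv
  ext i j
  simp only [hess, of_apply]
  rw [h1]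
  erw [h3]
  have h4 : (innerSL ℝ : E n →L[ℝ] E n →L[ℝ] ℝ) (EuclideanSpace.single i 1)
      (EuclideanSpace.single j 1) = if i = j then 1 else 0 := by
    change ⟪EuclideanSpace.single i (1 : ℝ), EuclideanSpace.single j (1 : ℝ)⟫ = _
    rw [EuclideanSpace.inner_single_left]
    simp
  simp only [_root_.add_apply, _root_.smul_apply]
  erw [h4]
  simp [vecMulVec_apply, one_apply, EuclideanSpace.inner_single_right]
  split_ifs <;> ring

end Pool.Agent.P.MP_f12b6c_an
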