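import Pool.Agent.P.MP_f12b6c_an.S4Poly
import Pool.Agent.P.MP_f12b6c_an.Touch

/-! The Hessian of `U4` off the origin. -/

namespace Pool.Agent.P.MP_f12b6c_an

open Filter Topology

/-- First and second derivative of `f` at `x`. -/
structure S4J (f : E 4 → ℝ) (x : E 4) (g : E 4 → ℝ) (H : E 4 → E 4 → ℝ) : Prop where
  cd : ContDiffAt ℝ 2 f x
  d1 : ∀ v, fderiv ℝ f x v = g v
  d2 : ∀ v w, fderiv ℝ (fderiv ℝ f) x v w = H v w

namespace S4J

variable {f f' : E 4 → ℝ} {x : E 4} {g g' : E 4 → ℝ} {H H' : E 4 → E 4 → ℝ}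

theorem ev (h : S4J f x g H) : ∀ᶠ y in 𝓝 x, HasFDerivAt f (fderiv ℝ f y) y :=
  (h.cd.eventually (by simp)).mono fun _ hy => (hy.differentiableAt (by simp)).hasFDerivAt

theorem sec (h : S4J f x g H) : HasFDerivAt (fderiv ℝ f) (fderiv ℝ (fderiv ℝ f) x) x :=
  ((h.cd.fderiv_right (m := 1) (by norm_num)).differentiableAt (by simp)).hasFDerivAt

theorem coord (x : E 4) (k : Fin 4) : S4J (fun y => y k) x (fun v => v k) (fun _ _ => 0) := by
  have h : fderiv ℝ (fun y : E 4 => y k) = fun _ => EuclideanSpace.proj k :=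
    funext fun y => (EuclideanSpace.proj (𝕜 := ℝ) k).fderiv
  refine ⟨(EuclideanSpace.proj (𝕜 := ℝ) k).contDiff.contDiffAt, fun v => by rw [h]; rfl,
    fun v w => by rw [h]; simp⟩

theorem add (h : S4J f x g H) (h' : S4J f' x g' H') :
    S4J (fun y => f y + f' y) x (fun v => g v + g' v) (fun v w => H v w + H' v w) := by
  have e : fderiv ℝ (fun y => f y + f' y) =ᶠ[𝓝 x] fun y => fderiv ℝ f y + fderiv ℝ f' y :=
    (h.ev.and h'.ev).mono fun y hy => (hy.1.fun_add hy.2).fderiv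
  refine ⟨h.cd.add h'.cd, fun v => ?_, fun v w => ?_⟩
  · rw [e.self_of_nhds]
    simp [h.d1, h'.d1]
  · rw [e.fderiv_eq, (h.sec.fun_add h'.sec).fderiv]
    simp [h.d2, h'.d2]

theorem mul (h : S4J f x g H) (h' : S4J f' x g' H') :
    S4J (fun y => f y * f' y) x (fun v => f x * g' v + f' x * g v)
      (fun v w => f x * H' v w + g v * g' w + (f' x * H v w + g' v * g w)) := by
  have e : fderiv ℝ (fun y => f y * f' y) =ᶠ[𝓝 x]
      fun y => f y • fderiv ℝ f' y + f' y • fderiv ℝ f y :=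
    (h.ev.and h'.ev).mono fun y hy => (hy.1.fun_mul hy.2).fderiv
  refine ⟨h.cd.mul h'.cd, fun v => ?_, fun v w => ?_⟩
  · rw [e.self_of_nhds]
    simp [h.d1, h'.d1]
  · rw [e.fderiv_eq, ((h.ev.self_of_nhds.fun_smul h'.sec).fun_add
      (h'.ev.self_of_nhds.fun_smul h.sec)).fderiv]
    simp [h.d1, h'.d1, h.d2, h'.d2]

theorem comp (h : S4J f x g H) {φ φ' : ℝ → ℝ} {c : ℝ} (h0 : ContDiffAt ℝ 2 φ (f x))
    (h1 : ∀ᶠ t in 𝓝 (f x), HasDerivAt φ (φ' t) t) (h2 : HasDerivAt φ' c (f x)) :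
    S4J (fun y => φ (f y)) x (fun v => φ' (f x) * g v)
      (fun v w => φ' (f x) * H v w + c * g v * g w) := by
  have e : fderiv ℝ (fun y => φ (f y)) =ᶠ[𝓝 x] fun y => φ' (f y) • fderiv ℝ f y :=
    (h.ev.and (h.cd.continuousAt.eventually h1)).mono fun y hy =>
      (hy.2.comp_hasFDerivAt y hy.1).fderiv
  refine ⟨h0.comp x h.cd, fun v => ?_, fun v w => ?_⟩
  · rw [e.self_of_nhds]
    simp [h.d1]
  · have := (h2.comp_hasFDerivAt x h.ev.self_of_nhds).fun_smul h.sec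
    rw [e.fderiv_eq]
    erw [this.fderiv]
    simp [h.d1, h.d2]

theorem cmul (c : ℝ) (h : S4J f x g H) :
    S4J (fun y => c * f y) x (fun v => c * g v) (fun v w => c * H v w) := by
  have := h.comp (φ := fun t => c * t) (φ' := fun _ => c) (c := 0) (by fun_prop)
    (.of_forall fun t => by simpa using (hasDerivAt_id t).const_mul c) (hasDerivAt_const _ _)
  simpa using this

theorem congr (h : S4J f x g H) (e : ∀ y, f' y = f y) (e1 : ∀ v, g v = g' v)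
    (e2 : ∀ v w, H v w = H' v w) : S4J f' x g' H' := by
  obtain rfl : f' = f := funext e
  exact ⟨h.cd, fun v => (h.d1 v).trans (e1 v), fun v w => (h.d2 v w).trans (e2 v w)⟩

end S4J

theorem s4h_sq (x : E 4) (k l : Fin 4) : S4J (fun y => y k ^ 2 + y l ^ 2) x
    (fun v => 2 * (x k * v k + x l * v l)) (fun v w => 2 * (v k * w k + v l * w l)) :=
  (((S4J.coord x k).mul (.coord x k)).add ((S4J.coord x l).mul (.coord x l))).congr
    (fun y => by ring) (fun v => by ring) (fun v w => by ring)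

theorem s4h_norm (y : E 4) : ‖y‖ = √(sq4 (y 0) (y 1) (y 2) (y 3)) := by
  simp [EuclideanSpace.norm_eq, Fin.sum_univ_four, sq4]

theorem s4h_nonneg (a b c d : ℝ) : 0 ≤ sq4 a b c d := by
  unfold sq4
  positivity

theorem s4h_pos {x : E 4} (hx : x ≠ 0) : 0 < sq4 (x 0) (x 1) (x 2) (x 3) := by
  have := norm_pos_iff.2 hx
  rwa [s4h_norm, Real.sqrt_pos] at this

theorem s4h_d1 {t : ℝ} (ht : 0 < t) : HasDerivAt (fun t => √t / t) (-√t / (2 * t ^ 2)) t := by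
  refine ((Real.hasDerivAt_sqrt ht.ne').fun_div (hasDerivAt_id' t) ht.ne').congr_deriv ?_
  obtain ⟨s, hs, rfl⟩ : ∃ s, 0 < s ∧ t = s ^ 2 := ⟨√t, Real.sqrt_pos.2 ht, (Real.sq_sqrt ht.le).symm⟩
  rw [Real.sqrt_sq hs.le]
  field_simp
  ring

theorem s4h_d2 {t : ℝ} (ht : 0 < t) :
    HasDerivAt (fun t => -√t / (2 * t ^ 2)) (3 * √t / (4 * t ^ 3)) t := by
  refine ((Real.hasDerivAt_sqrt ht.ne').fun_neg.fun_div
    (((hasDerivAt_id' t).fun_pow 2).const_mul 2) (by positivity)).congr_deriv ?_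
  obtain ⟨s, hs, rfl⟩ : ∃ s, 0 < s ∧ t = s ^ 2 := ⟨√t, Real.sqrt_pos.2 ht, (Real.sq_sqrt ht.le).symm⟩
  rw [Real.sqrt_sq hs.le]
  field_simp
  ring

theorem s4h_d3 {t : ℝ} (ht : 0 < t) : HasDerivAt (fun t : ℝ => -(t ^ 2)⁻¹) (2 / t ^ 3) t := by
  refine (((hasDerivAt_id' t).fun_pow 2).fun_inv (by positivity)).fun_neg.congr_deriv ?_
  field_simp
  ring

theorem s4h_jet (x : E 4) (hx : x ≠ 0) : ∃ g H, S4J U4 x g H ∧
    (Matrix.of fun i j => H (EuclideanSpace.single i 1) (EuclideanSpace.single j 1)) =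
      Real.log ‖x‖ • Qh + (Hm (x 0) (x 1) (x 2) (x 3)).mat := by
  have hp := s4h_pos hx
  have ev := Ioi_mem_nhds hp
  have j1 := s4h_sq x 0 1
  have j2 := s4h_sq x 2 3
  have jr : S4J (fun y => sq4 (y 0) (y 1) (y 2) (y 3)) x _ _ :=
    (j1.add j2).congr (fun y => by unfold sq4; ring) (fun _ => rfl) (fun _ _ => rfl)
  have jP : S4J (fun y => (y 0 ^ 2 - y 1 ^ 2) * y 2 + 2 * y 0 * y 1 * y 3) x
      (fun v => 2 * (x 0 * x 2 + x 1 * x 3) * v 0 + 2 * (x 0 * x 3 - x 1 * x 2) * v 1 +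
        (x 0 ^ 2 - x 1 ^ 2) * v 2 + 2 * x 0 * x 1 * v 3)
      (fun v w => 2 * (x 2 * (v 0 * w 0 - v 1 * w 1) + x 3 * (v 0 * w 1 + v 1 * w 0) +
        x 0 * (v 0 * w 2 + v 2 * w 0 + v 1 * w 3 + v 3 * w 1) +
        x 1 * (v 0 * w 3 + v 3 * w 0 - v 1 * w 2 - v 2 * w 1))) :=
    (((((S4J.coord x 0).mul (.coord x 0)).add (((S4J.coord x 1).mul (.coord x 1)).cmul (-1))).mul
      (.coord x 2)).add ((((S4J.coord x 0).mul (.coord x 1)).mul (.coord x 3)).cmul 2)).congr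
      (fun y => by ring) (fun v => by ring) (fun v w => by ring)
  have l1 := jr.comp (φ := fun t => Real.log t / 2) (φ' := fun t => t⁻¹ / 2)
    ((Real.contDiffAt_log.2 hp.ne').div_const 2)
    (mem_of_superset ev fun t ht => (Real.hasDerivAt_log (ne_of_gt ht)).div_const 2)
    ((hasDerivAt_inv hp.ne').div_const 2)
  have l2 := jr.comp (φ := fun t => √t / t) (φ' := fun t => -√t / (2 * t ^ 2))
    ((Real.contDiffAt_sqrt hp.ne').div contDiffAt_id hp.ne')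
    (mem_of_superset ev fun t ht => s4h_d1 ht) (s4h_d2 hp)
  have l3 := jr.comp (φ := fun t => t⁻¹) (φ' := fun t => -(t ^ 2)⁻¹)
    (contDiffAt_inv ℝ hp.ne') (mem_of_superset ev fun t ht => hasDerivAt_inv (ne_of_gt ht))
    (s4h_d3 hp)
  have hl : ∀ y : E 4, Real.log ‖y‖ = Real.log (sq4 (y 0) (y 1) (y 2) (y 3)) / 2 := fun y => by
    rw [s4h_norm, Real.log_sqrt (s4h_nonneg _ _ _ _)]
  refine ⟨_, _, (((((j1.cmul 7).add (j2.cmul (-20))).mul l1).add ((jP.mul l2).cmul 30)).add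
    (((j1.mul j2).mul l3).cmul (-9))).congr (fun y => ?_) (fun _ => rfl) (fun _ _ => rfl), ?_⟩
  · rw [U4, hl, s4h_norm, Real.sq_sqrt (s4h_nonneg _ _ _ _), Real.sqrt_div_self]
    ring
  · rw [hl]
    have hne := hp.ne'
    ext i j
    fin_cases i <;> fin_cases j <;>
      simp [Hm, GER, GOR, GE, GO, rsm, Ten.zip, Ten.mat, Qh] <;> field_simp <;> unfold sq4 <;> ring

theorem U4_contDiffAt (x : E 4) (hx : x ≠ 0) : ContDiffAt ℝ 2 U4 x := by
  obtain ⟨_, _, h, -⟩ := s4h_jet x hx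
  exact h.cd

theorem hess_U4 (x : E 4) (hx : x ≠ 0) :
    hess U4 x = Real.log ‖x‖ • Qh + (Hm (x 0) (x 1) (x 2) (x 3)).mat := by
  obtain ⟨_, _, h, e⟩ := s4h_jet x hx
  rw [← e]
  ext i j
  exact h.d2 _ _

end Pool.Agent.P.MP_f12b6c_an
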