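import Mathlib

/-!
Integer operations written with recursors (fast in the kernel) and the digit-parallel bounds
for polynomials packed into one integer.
-/

namespace Pool.Agent.P.MP_f12b6c_an

/-- Negation of a natural number. -/
noncomputable def nneg (n : ℕ) : ℤ :=
  @Nat.rec (fun _ => ℤ) (Int.ofNat 0) (fun m _ => Int.negSucc m) n

/-- Difference of two natural numbers. -/
noncomputable def snn (m n : ℕ) : ℤ :=
  @Bool.rec (fun _ => ℤ) (Int.negSucc (Nat.sub n (Nat.succ m))) (Int.ofNat (Nat.sub m n))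
    (Nat.ble n m)

/-- Product of integers. -/
noncomputable def imul (a b : ℤ) : ℤ :=
  @Int.rec (fun _ => ℤ)
    (fun m => @Int.rec (fun _ => ℤ) (fun n => Int.ofNat (Nat.mul m n))
      (fun n => nneg (Nat.mul m (Nat.succ n))) b)
    (fun m => @Int.rec (fun _ => ℤ) (fun n => nneg (Nat.mul (Nat.succ m) n))
      (fun n => Int.ofNat (Nat.mul (Nat.succ m) (Nat.succ n))) b) a

/-- Sum of integers. -/
noncomputable def iadd (a b : ℤ) : ℤ :=
  @Int.rec (fun _ => ℤ)
    (fun m => @Int.rec (fun _ => ℤ) (fun n => Int.ofNat (Nat.add m n))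
      (fun n => snn m (Nat.succ n)) b)
    (fun m => @Int.rec (fun _ => ℤ) (fun n => snn n (Nat.succ m))
      (fun n => Int.negSucc (Nat.succ (Nat.add m n))) b) a

/-- Difference of integers. -/
noncomputable def isub (a b : ℤ) : ℤ :=
  @Int.rec (fun _ => ℤ)
    (fun m => @Int.rec (fun _ => ℤ) (fun n => snn m n)
      (fun n => Int.ofNat (Nat.succ (Nat.add m n))) b)
    (fun m => @Int.rec (fun _ => ℤ) (fun n => Int.negSucc (Nat.add m n))
      (fun n => snn n m) b) a

/-- Product of a natural number and an integer. -/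
noncomputable def ism (k : ℕ) (a : ℤ) : ℤ :=
  @Int.rec (fun _ => ℤ) (fun m => Int.ofNat (Nat.mul k m))
    (fun m => nneg (Nat.mul k (Nat.succ m))) a

/-- Positive part of an integer. -/
noncomputable def itoNat (a : ℤ) : ℕ := @Int.rec (fun _ => ℕ) (fun m => m) (fun _ => 0) a

/-- Absolute value of an integer. -/
noncomputable def iabs (a : ℤ) : ℕ := @Int.rec (fun _ => ℕ) (fun m => m) (fun m => Nat.succ m) a

theorem nneg_eq (n : ℕ) : nneg n = -(n : ℤ) := by
  cases n with
  | zero => rfl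
  | succ m => rfl

theorem snn_eq (m n : ℕ) : snn m n = (m : ℤ) - n := by
  unfold snn
  cases h : Nat.ble n m with
  | false =>
    have h' : ¬ n ≤ m := fun hh => by simp [Nat.ble_eq_true_of_le hh] at h
    show Int.negSucc (n - (m + 1)) = _
    omega
  | true =>
    have h' : n ≤ m := Nat.le_of_ble_eq_true h
    show ((m - n : ℕ) : ℤ) = _
    omega

theorem imul_eq (a b : ℤ) : imul a b = a * b := by
  rcases a with m | m <;> rcases b with n | n
  · rfl
  · show nneg (m * (n + 1)) = _
    rw [nneg_eq, Int.negSucc_eq]; push_cast; simp; ring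
  · show nneg ((m + 1) * n) = _
    rw [nneg_eq, Int.negSucc_eq]; push_cast; simp; ring
  · show (((m + 1) * (n + 1) : ℕ) : ℤ) = _
    rw [Int.negSucc_eq, Int.negSucc_eq]; push_cast; ring

theorem iadd_eq (a b : ℤ) : iadd a b = a + b := by
  rcases a with m | m <;> rcases b with n | n
  · rfl
  · show snn m (n + 1) = _
    rw [snn_eq, Int.negSucc_eq]; push_cast; simp; ring
  · show snn n (m + 1) = _
    rw [snn_eq, Int.negSucc_eq]; push_cast; simp; ring
  · show Int.negSucc (m + n + 1) = _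
    simp only [Int.negSucc_eq]; push_cast; ring

theorem isub_eq (a b : ℤ) : isub a b = a - b := by
  rcases a with m | m <;> rcases b with n | n
  · show snn m n = _
    rw [snn_eq]; simp
  · show ((m + n + 1 : ℕ) : ℤ) = _
    rw [Int.negSucc_eq]; push_cast; simp; ring
  · show Int.negSucc (m + n) = _
    simp only [Int.negSucc_eq]; push_cast; simp; ring
  · show snn n m = _
    rw [snn_eq]; simp only [Int.negSucc_eq]; ring

theorem ism_eq (k : ℕ) (a : ℤ) : ism k a = k * a := by
  rcases a with m | m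
  · rfl
  · show nneg (k * (m + 1)) = _
    rw [nneg_eq, Int.negSucc_eq]; push_cast; ring

theorem itoNat_eq (a : ℤ) : itoNat a = a.toNat := by
  rcases a with m | m <;> rfl

theorem iabs_eq (a : ℤ) : iabs a = a.natAbs := by
  rcases a with m | m <;> rfl

/-- Constants for packed polynomials of degree at most `d` with `K` bits per slot. -/
structure Cst where
  K : ℕ
  d : ℕ
  om : ℕ
  odd : ℕ
  bm : ℕ
  nh : ℕ
  hs : ℕ

/-- Whether slot `j` belongs to a monomial all of whose exponents are even. -/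
def isEv (d j : ℕ) : Bool :=
  (j % (d * (d + 1) + 1)) % (d + 1) % 2 == 0 && (j % (d * (d + 1) + 1)) / (d + 1) % 2 == 0 &&
    j / (d * (d + 1) + 1) % 2 == 0

/-- The number with digits `f 0, …, f (n-1)` in base `2 ^ K`. -/
def sumB (K : ℕ) (f : ℕ → ℕ) : ℕ → ℕ
  | 0 => 0
  | n + 1 => sumB K f n + f n * 2 ^ (K * n)

/-- The number of slots. -/
def nslot (d : ℕ) : ℕ := d * (d * (d + 1) + 1) + 1

/-- The constants are the intended ones. -/
def Cst.Ok (c : Cst) : Prop :=
  12 ≤ c.K ∧ nslot c.d ≤ 1000 ∧ c.hs = c.K - 11 ∧ c.bm = 2 ^ c.K - 1 ∧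
    c.nh = nslot c.d * 2 ^ (c.K - 11) ∧
    c.om = sumB c.K (fun _ => 2 ^ (c.K - 11)) (nslot c.d) ∧
    c.odd = sumB c.K (fun j => if isEv c.d j = true then 0 else 2 ^ c.K - 1) (nslot c.d)

/-- The digitwise positive parts of the balanced digits. -/
noncomputable def posP (c : Cst) (M : ℕ) : ℕ :=
  Nat.land M (Nat.sub (Nat.land M c.om) (Nat.shiftRight (Nat.land M c.om) c.hs))

/-- The shifted packed number. -/
noncomputable def shM (c : Cst) (N : ℤ) : ℕ := itoNat (iadd N (Int.ofNat c.om))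

/-- Test that the packed polynomial is at least `R` on the cube `[-1,1]³`. -/
noncomputable def lowOK (c : Cst) (N : ℤ) (R : ℕ) : Bool :=
  Nat.ble
    (Nat.add (Nat.add c.nh R)
      (Nat.mod (Nat.add (Nat.shiftRight (posP c (shM c N)) c.K)
        (Nat.land (posP c (shM c N)) c.odd)) c.bm))
    (Nat.mod (shM c N) c.bm)

/-- The sum of the absolute values of the coefficients of the packed polynomial. -/
noncomputable def absB (c : Cst) (N : ℤ) : ℕ :=
  Nat.sub (Nat.add (Nat.mul 2 (Nat.mod (posP c (shM c N)) c.bm)) c.nh) (Nat.mod (shM c N) c.bm)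

/-- `N` packs a polynomial of degree at most `deg` and coefficient sum at most `M` whose value at
`(t0, t1, t2)` is `y`. -/
def Rep (K d : ℕ) (t0 t1 t2 : ℝ) (deg M : ℕ) (N : ℤ) (y : ℝ) : Prop :=
  ∃ l : List (ℤ × ℕ × ℕ × ℕ), (∀ q ∈ l, q.2.1 + q.2.2.1 + q.2.2.2 ≤ deg) ∧
    (l.map fun q => q.1.natAbs).sum ≤ M ∧
    N = (l.map fun q =>
      q.1 * 2 ^ (K * (q.2.1 + (d + 1) * q.2.2.1 + (d * (d + 1) + 1) * q.2.2.2))).sum ∧
    y = (l.map fun q => (q.1 : ℝ) * t0 ^ q.2.1 * t1 ^ q.2.2.1 * t2 ^ q.2.2.2).sum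

end Pool.Agent.P.MP_f12b6c_an
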