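import Pool.Agent.P.MP_f12b6c_an.S4Far

/-! Soundness of the comparison of derivatives. -/

namespace Pool.Agent.P.MP_f12b6c_an

variable {t0 t1 t2 : ℝ}

/-- The packed matrix `k` approximates `2 ka` times `kr`. -/
def DirOK (t0 t1 t2 : ℝ) (ka : ℕ) (k : Ten ℤ) (kr : Ten ℝ) (R : ℕ) : Prop :=
  ∀ w, WOK w → ∃ y : ℝ, Rep c8.K c8.d t0 t1 t2 8 (2 ^ 348) (dotI w k) y ∧
    |y - 2 * ka * dotR w.toR kr| ≤ (R : ℝ) * w.tr

theorem KD_eq {R : Type} (mu sb : R → R → R) (rho u : R) (sel : Tri R → R) (t : Ten (Tri R)) :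
    KD mu sb rho u sel t =
      Ten.zip (fun d v => sb (mu rho d) (mu u v)) (t.map sel) (t.map Tri.v) := rfl

theorem KD_rep {K d g M M' : ℕ} {rho u : ℤ} {ρ uR : ℝ} (k : ℕ)
    (hr : Rep K d t0 t1 t2 2 (4 * BX ^ 2) rho ρ) (hu : Rep K d t0 t1 t2 1 BX u uR)
    {t : Ten (Tri ℤ)} {tR : Ten (Tri ℝ)} {sZ : Tri ℤ → ℤ} {sR : Tri ℝ → ℝ}
    (h1 : TRep K d t0 t1 t2 (g + 1) M (t.map Tri.v) (tR.map Tri.v))
    (h2 : TRep K d t0 t1 t2 g M' (t.map sZ) (tR.map sR)) :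
    TRep K d t0 t1 t2 (g + 2) (4 * BX ^ 2 * M' + k * BX * M) (KD imul isub rho (ism k u) sZ t)
      (KD (· * ·) (· - ·) ρ (k * uR) sR tR) := by
  rw [KD_eq, KD_eq]
  refine TRep.zip (fun p q P Q hp hq => ?_) h2 h1
  rw [isub_eq, imul_eq, imul_eq]
  exact ((hr.mul hp).sub ((hu.ism k).mul hq)).mono (by omega) le_rfl

theorem TRep.mono {K d g g' M M' : ℕ} {h : Ten ℤ} {k : Ten ℝ} (H : TRep K d t0 t1 t2 g M h k)
    (hg : g ≤ g') (hM : M ≤ M') : TRep K d t0 t1 t2 g' M' h k := by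
  obtain ⟨a1, a2, a3, a4, a5, a6, a7, a8, a9, a10⟩ := H
  exact ⟨a1.mono hg hM, a2.mono hg hM, a3.mono hg hM, a4.mono hg hM, a5.mono hg hM, a6.mono hg hM,
    a7.mono hg hM, a8.mono hg hM, a9.mono hg hM, a10.mono hg hM⟩

theorem dot_lin1 (a e o : Ten ℝ) (β : ℝ) :
    dotR a (Ten.zip (fun p q => p + β * q) e o) = dotR a e + β * dotR a o := by
  simp only [dotR, Ten.zip]; ring

theorem dir_core {rho u : ℤ} {ρ uR : ℝ} (hr : Rep c8.K c8.d t0 t1 t2 2 (4 * BX ^ 2) rho ρ)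
    (hu : Rep c8.K c8.d t0 t1 t2 1 BX u uR) {mr mu : ℕ} (br : |ρ| ≤ mr) (bu : |uR| ≤ mu)
    {ka eta : ℕ} (k2 : ka ≤ 2 * BX) (pos : 0 < ρ) (he : (Real.sqrt ρ - ka) ^ 2 ≤ eta)
    {te tO : Ten (Tri ℤ)} {teR tOR : Ten (Tri ℝ)} {tm : Ten (Tri ℕ)} {sZ : Tri ℤ → ℤ}
    {sR : Tri ℝ → ℝ} {sN : Tri ℕ → ℕ}
    (e1 : TRep c8.K c8.d t0 t1 t2 6 (2 ^ 233) (te.map Tri.v) (teR.map Tri.v))
    (e2 : TRep c8.K c8.d t0 t1 t2 5 (2 ^ 199) (te.map sZ) (teR.map sR))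
    (o1 : TRep c8.K c8.d t0 t1 t2 5 (2 ^ 197) (tO.map Tri.v) (tOR.map Tri.v))
    (o2 : TRep c8.K c8.d t0 t1 t2 4 (2 ^ 162) (tO.map sZ) (tOR.map sR))
    (m1 : TAbs (tOR.map Tri.v) (tm.map Tri.v)) (m2 : TAbs (tOR.map sR) (tm.map sN)) :
    DirOK t0 t1 t2 ka (nearK ka rho u sZ te tO)
      (Ten.zip (fun e o => e + Real.sqrt ρ * o) (KD (· * ·) (· - ·) ρ (6 * uR) sR teR)
        (KD (· * ·) (· - ·) ρ (5 * uR) sR tOR)) (eta * nearM mr mu sN tm) := by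
  intro w hw
  have hG := dot_rep hw (comb_rep hr k2 (KD_rep 6 hr hu e1 e2) (KD_rep 5 hr hu o1 o2))
  rw [dot_lin] at hG
  have hab : TAbs (KD (· * ·) (· - ·) ρ (5 * uR) sR tOR)
      (KD Nat.mul Nat.add mr (Nat.mul 5 mu) sN tm) := by
    rw [KD_eq, KD_eq]
    refine TAbs.zip (fun P Q p q hp hq => ?_) m2 m1
    have a1 : |ρ * P| ≤ mr * p := by
      rw [abs_mul]; exact mul_le_mul br hp (abs_nonneg _) (Nat.cast_nonneg _)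
    have a2 : |5 * uR * Q| ≤ 5 * mu * q := by
      rw [abs_mul, abs_mul, abs_of_pos (by norm_num : (0 : ℝ) < 5)]
      exact mul_le_mul (by linarith) hq (abs_nonneg _) (by positivity)
    have a3 := abs_sub (ρ * P) (5 * uR * Q)
    simp only [Nat.mul_eq, Nat.add_eq]
    push_cast
    linarith
  have herr := err_le he (dot_abs hw hab)
  refine ⟨_, hG.mono le_rfl (by decide +kernel), ?_⟩
  rw [dot_lin1]
  simp only [Nat.cast_ofNat]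
  set dE := dotR w.toR (KD (· * ·) (· - ·) ρ (6 * uR) sR teR)
  set dO := dotR w.toR (KD (· * ·) (· - ·) ρ (5 * uR) sR tOR)
  set r := Real.sqrt ρ
  have hrr : r ^ 2 = ρ := Real.sq_sqrt pos.le
  have key : 2 * (ka : ℝ) * dE + ((ka : ℝ) ^ 2 + ρ) * dO - 2 * ka * (dE + r * dO) =
      (r - ka) ^ 2 * dO := by rw [← hrr]; ring
  rw [key]
  unfold nearM
  push_cast
  exact herr

theorem near_core {X0 X1 X2 X3 : Tri ℤ} {Y0 Y1 Y2 Y3 : Tri ℝ} {m0 m1 m2 m3 : Tri ℕ}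
    (r0 : XRep c8.K c8.d t0 t1 t2 X0 Y0) (r1 : XRep c8.K c8.d t0 t1 t2 X1 Y1)
    (r2 : XRep c8.K c8.d t0 t1 t2 X2 Y2) (r3 : XRep c8.K c8.d t0 t1 t2 X3 Y3)
    (b0 : XAbs Y0 m0) (b1 : XAbs Y1 m1) (b2 : XAbs Y2 m2) (b3 : XAbs Y3 m3)
    {g : Geo} {A U0 U1 U2 : ℝ} (h : GeoOK c8 g t0 t1 t2 A U0 U1 U2) {mr : ℕ}
    (br : |sq4 A U0 U1 U2| ≤ mr) (hρ : sq4 Y0.v Y1.v Y2.v Y3.v = sq4 A U0 U1 U2)
    (h0 : Y0.v * Y0.d0 + Y1.v * Y1.d0 + Y2.v * Y2.d0 + Y3.v * Y3.d0 = U0)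
    (h1 : Y0.v * Y0.d1 + Y1.v * Y1.d1 + Y2.v * Y2.d1 + Y3.v * Y3.d1 = U1)
    (h2 : Y0.v * Y0.d2 + Y1.v * Y1.d2 + Y2.v * Y2.d2 + Y3.v * Y3.d2 = U2) :
    DirOK t0 t1 t2 g.ka (nearK g.ka (rhoI g) g.u0 Tri.d0 (GET iadd imul isub ism X0 X1 X2 X3)
        (GOT iadd imul isub ism X0 X1 X2 X3)) (KR Y0 Y1 Y2 Y3 Tri.d0)
        (g.eta * nearM mr g.m0 Tri.d0 (GOT Nat.add Nat.mul Nat.add Nat.mul m0 m1 m2 m3)) ∧
      DirOK t0 t1 t2 g.ka (nearK g.ka (rhoI g) g.u1 Tri.d1 (GET iadd imul isub ism X0 X1 X2 X3)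
        (GOT iadd imul isub ism X0 X1 X2 X3)) (KR Y0 Y1 Y2 Y3 Tri.d1)
        (g.eta * nearM mr g.m1 Tri.d1 (GOT Nat.add Nat.mul Nat.add Nat.mul m0 m1 m2 m3)) ∧
      DirOK t0 t1 t2 g.ka (nearK g.ka (rhoI g) g.u2 Tri.d2 (GET iadd imul isub ism X0 X1 X2 X3)
        (GOT iadd imul isub ism X0 X1 X2 X3)) (KR Y0 Y1 Y2 Y3 Tri.d2)
        (g.eta * nearM mr g.m2 Tri.d2 (GOT Nat.add Nat.mul Nat.add Nat.mul m0 m1 m2 m3)) := by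
  have e := GET_rep r0 r1 r2 r3
  have o := GOT_rep r0 r1 r2 r3
  have m := GOT_abs b0 b1 b2 b3
  unfold KR
  rw [hρ, h0, h1, h2]
  exact ⟨dir_core h.rho h.r0 br h.b0 h.k2 h.pos h.eta e.1 e.2.1 o.1 o.2.1 m.1 m.2.1,
    dir_core h.rho h.r1 br h.b1 h.k2 h.pos h.eta e.1 e.2.2.1 o.1 o.2.2.1 m.1 m.2.2.1,
    dir_core h.rho h.r2 br h.b2 h.k2 h.pos h.eta e.1 e.2.2.2 o.1 o.2.2.2 m.1 m.2.2.2⟩

/-- `KR` at a point of a face, in the direction of a coordinate of the face. -/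
noncomputable def KE (ax : Ax) (A U0 U1 U2 : ℝ) (sel : Tri ℝ → ℝ) : Ten ℝ :=
  embT 0 1 ax A U0 U1 U2 (fun X0 X1 X2 X3 => KR X0 X1 X2 X3 sel)

theorem nearCell_sound (ax : Ax) {g : Geo} {A U0 U1 U2 : ℝ}
    (h : GeoOK c8 g t0 t1 t2 A U0 U1 U2) :
    ∃ R0 R1 R2 : ℕ, (nearCell2 ax g).r = R0 + R1 + R2 ∧
      DirOK t0 t1 t2 g.ka (nearCell2 ax g).k0 (KE ax A U0 U1 U2 Tri.d0) R0 ∧
      DirOK t0 t1 t2 g.ka (nearCell2 ax g).k1 (KE ax A U0 U1 U2 Tri.d1) R1 ∧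
      DirOK t0 t1 t2 g.ka (nearCell2 ax g).k2 (KE ax A U0 U1 U2 Tri.d2) R2 := by
  have z : Rep c8.K c8.d t0 t1 t2 0 1 (Int.ofNat 0) 0 := by
    simpa using (rep_nat (K := c8.K) (d := c8.d) (t0 := t0) (t1 := t1) (t2 := t2) 0).mono le_rfl
      (Nat.zero_le 1)
  have o : Rep c8.K c8.d t0 t1 t2 0 1 (Int.ofNat 1) 1 := by
    simpa using (rep_nat (K := c8.K) (d := c8.d) (t0 := t0) (t1 := t1) (t2 := t2) 1)
  have xa : XRep c8.K c8.d t0 t1 t2 ⟨g.xa, Int.ofNat 0, Int.ofNat 0, Int.ofNat 0⟩ ⟨A, 0, 0, 0⟩ :=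
    ⟨h.ra, z, z, z⟩
  have x0 : XRep c8.K c8.d t0 t1 t2 ⟨g.u0, Int.ofNat 1, Int.ofNat 0, Int.ofNat 0⟩ ⟨U0, 1, 0, 0⟩ :=
    ⟨h.r0, o, z, z⟩
  have x1 : XRep c8.K c8.d t0 t1 t2 ⟨g.u1, Int.ofNat 0, Int.ofNat 1, Int.ofNat 0⟩ ⟨U1, 0, 1, 0⟩ :=
    ⟨h.r1, z, o, z⟩
  have x2 : XRep c8.K c8.d t0 t1 t2 ⟨g.u2, Int.ofNat 0, Int.ofNat 0, Int.ofNat 1⟩ ⟨U2, 0, 0, 1⟩ :=
    ⟨h.r2, z, z, o⟩
  have ya : XAbs ⟨A, 0, 0, 0⟩ ⟨g.ma, 0, 0, 0⟩ := ⟨h.ba, by simp, by simp, by simp⟩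
  have y0 : XAbs ⟨U0, 1, 0, 0⟩ ⟨g.m0, 1, 0, 0⟩ := ⟨h.b0, by simp, by simp, by simp⟩
  have y1 : XAbs ⟨U1, 0, 1, 0⟩ ⟨g.m1, 0, 1, 0⟩ := ⟨h.b1, by simp, by simp, by simp⟩
  have y2 : XAbs ⟨U2, 0, 0, 1⟩ ⟨g.m2, 0, 0, 1⟩ := ⟨h.b2, by simp, by simp, by simp⟩
  have br : |sq4 A U0 U1 U2| ≤ ((Nat.add (Nat.add (Nat.mul g.ma g.ma) (Nat.mul g.m0 g.m0))
      (Nat.add (Nat.mul g.m1 g.m1) (Nat.mul g.m2 g.m2)) : ℕ) : ℝ) := by
    rw [abs_of_pos h.pos]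
    simp only [Nat.mul_eq, Nat.add_eq]
    push_cast
    have a := sq_le_sq' (abs_le.1 h.ba).1 (abs_le.1 h.ba).2
    have b := sq_le_sq' (abs_le.1 h.b0).1 (abs_le.1 h.b0).2
    have c := sq_le_sq' (abs_le.1 h.b1).1 (abs_le.1 h.b1).2
    have d := sq_le_sq' (abs_le.1 h.b2).1 (abs_le.1 h.b2).2
    unfold sq4
    nlinarith
  cases ax
  · exact ⟨_, _, _, (Nat.mul_add _ _ _).trans (congrArg (· + _) (Nat.mul_add _ _ _)),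
      near_core xa x2 x0 x1 ya y2 y0 y1 h br (by unfold sq4; ring) (by simp) (by simp) (by simp)⟩
  · exact ⟨_, _, _, (Nat.mul_add _ _ _).trans (congrArg (· + _) (Nat.mul_add _ _ _)),
      near_core x0 xa x1 x2 y0 ya y1 y2 h br (by unfold sq4; ring) (by simp) (by simp) (by simp)⟩
  · exact ⟨_, _, _, (Nat.mul_add _ _ _).trans (congrArg (· + _) (Nat.mul_add _ _ _)),
      near_core x0 x1 xa x2 y0 y1 ya y2 h br (by unfold sq4; ring) (by simp) (by simp) (by simp)⟩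
  · exact ⟨_, _, _, (Nat.mul_add _ _ _).trans (congrArg (· + _) (Nat.mul_add _ _ _)),
      near_core x0 x1 x2 xa y0 y1 y2 ya h br (by unfold sq4; ring) (by simp) (by simp) (by simp)⟩

/-- The sign of a face. -/
def sgn (sg : Bool) : ℝ := @Bool.rec (fun _ => ℝ) (-1) 1 sg

theorem nearLeaf_sound (h0 : |t0| ≤ 1) (h1 : |t1| ≤ 1) (h2 : |t2| ≤ 1) {ka : ℕ} (k1 : 1 ≤ ka)
    {p q0 q1 : Ten ℤ} {pR q0R q1R : Ten ℝ} {Rp R0 R1 r : ℕ} (hr : r = Rp + R0 + R1)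
    (dp : DirOK t0 t1 t2 ka p pR Rp) (d0 : DirOK t0 t1 t2 ka q0 q0R R0)
    (d1 : DirOK t0 t1 t2 ka q1 q1R R1) {w : Wit} (hw : WOK w) (sg : Bool) {l0 k0 l1 k1' : ℕ}
    (hl : nearLeaf1 r sg w (dotI w p) (dotI w q0) (dotI w q1) l0 k0 l1 k1' = true)
    (c0 : k0 ≤ 32) (c1 : k1' ≤ 32) {e0 e1 : ℝ} (a0 : (l0 : ℝ) ≤ e0) (a0' : e0 ≤ k0)
    (a1 : (l1 : ℝ) ≤ e1) (a1' : e1 ≤ k1') :
    0 ≤ sgn sg * 16 * dotR w.toR pR + (e0 - 16) * dotR w.toR q0R + (e1 - 16) * dotR w.toR q1R := by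
  obtain ⟨yp, rp, ep⟩ := dp w hw
  obtain ⟨y0, r0, f0⟩ := d0 w hw
  obtain ⟨y1, r1, f1⟩ := d1 w hw
  have hlk0 : l0 ≤ k0 := by exact_mod_cast a0.trans a0'
  have hlk1 : l1 ≤ k1' := by exact_mod_cast a1.trans a1'
  have hP : Rep c8.K c8.d t0 t1 t2 8 (32 * 2 ^ 348)
      (@Bool.rec (fun _ => ℤ) (isub (Int.ofNat 0) (ism 32 (dotI w p))) (ism 32 (dotI w p)) sg)
      (sgn sg * 32 * yp) := by
    cases sg
    · have h := (rep_nat (K := c8.K) (d := c8.d) (t0 := t0) (t1 := t1) (t2 := t2) 0).sub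
        (rp.ism 32)
      rw [← isub_eq] at h
      have e : ((0 : ℕ) : ℝ) - ((32 : ℕ) : ℝ) * yp = sgn false * 32 * yp := by simp [sgn]
      rw [e] at h
      exact h.mono (by decide) (by omega)
    · have h := rp.ism 32
      have e : ((32 : ℕ) : ℝ) * yp = sgn true * 32 * yp := by simp [sgn]
      rw [e] at h
      exact h
  have hc0 : (snn (Nat.add l0 k0) 32).natAbs ≤ 32 := by
    rw [snn_eq]; simp only [Nat.add_eq]; omega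
  have hc1 : (snn (Nat.add l1 k1') 32).natAbs ≤ 32 := by
    rw [snn_eq]; simp only [Nat.add_eq]; omega
  have v0 : ((snn (Nat.add l0 k0) 32 : ℤ) : ℝ) = l0 + k0 - 32 := by
    rw [snn_eq]; simp only [Nat.add_eq]; push_cast; ring
  have v1 : ((snn (Nat.add l1 k1') 32 : ℤ) : ℝ) = l1 + k1' - 32 := by
    rw [snn_eq]; simp only [Nat.add_eq]; push_cast; ring
  have hN := (hP.add ((r0.smul (snn (Nat.add l0 k0) 32)).mono le_rfl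
    (Nat.mul_le_mul_right _ hc0))).add ((r1.smul (snn (Nat.add l1 k1') 32)).mono le_rfl
    (Nat.mul_le_mul_right _ hc1))
  unfold nearLeaf1 at hl
  rw [band_true, iadd_eq, iadd_eq, imul_eq, imul_eq] at hl
  have h := low_sound c8 c8_ok h0 h1 h2 (hN.mono (by decide) le_rfl) (by decide +kernel) _ hl.2
  have s0 := abs_sound c8 c8_ok h0 h1 h2 r0 (by decide +kernel)
  have s1 := abs_sound c8 c8_ok h0 h1 h2 r1 (by decide +kernel)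
  rw [v0, v1] at h
  simp only [Nat.mul_eq, Nat.add_eq, Nat.sub_eq] at h
  push_cast [Nat.cast_sub hlk0, Nat.cast_sub hlk1, hr] at h
  set B0 : ℝ := (absB c8 (dotI w q0) : ℝ)
  set B1 : ℝ := (absB c8 (dotI w q1) : ℝ)
  set T : ℝ := (w.tr : ℝ)
  set Dp := dotR w.toR pR
  set D0 := dotR w.toR q0R
  set D1 := dotR w.toR q1R
  have hk : (0 : ℝ) < ka := by exact_mod_cast k1
  have c0' : (k0 : ℝ) ≤ 32 := by exact_mod_cast c0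
  have c1' : (k1' : ℝ) ≤ 32 := by exact_mod_cast c1
  have n0 : (0 : ℝ) ≤ l0 := Nat.cast_nonneg _
  have n1 : (0 : ℝ) ≤ l1 := Nat.cast_nonneg _
  have u0 : |(2 * e0 - l0 - k0) * y0| ≤ (k0 - l0) * B0 := by
    rw [abs_mul]
    exact mul_le_mul (abs_le.2 ⟨by linarith, by linarith⟩) s0 (abs_nonneg _) (by linarith)
  have u1 : |(2 * e1 - l1 - k1') * y1| ≤ (k1' - l1) * B1 := by
    rw [abs_mul]
    exact mul_le_mul (abs_le.2 ⟨by linarith, by linarith⟩) s1 (abs_nonneg _) (by linarith)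
  have wp : |(sgn sg * 32) * (yp - 2 * ka * Dp)| ≤ 32 * (Rp * T) := by
    rw [abs_mul]
    refine mul_le_mul ?_ ep (abs_nonneg _) (by norm_num)
    cases sg <;> simp [sgn]
  have w0 : |(2 * e0 - 32) * (y0 - 2 * ka * D0)| ≤ 32 * (R0 * T) := by
    rw [abs_mul]
    exact mul_le_mul (abs_le.2 ⟨by linarith, by linarith⟩) f0 (abs_nonneg _) (by norm_num)
  have w1 : |(2 * e1 - 32) * (y1 - 2 * ka * D1)| ≤ 32 * (R1 * T) := by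
    rw [abs_mul]
    exact mul_le_mul (abs_le.2 ⟨by linarith, by linarith⟩) f1 (abs_nonneg _) (by norm_num)
  have : 0 ≤ 4 * (ka : ℝ) * (sgn sg * 16 * Dp + (e0 - 16) * D0 + (e1 - 16) * D1) := by
    have := (abs_le.1 u0).1
    have := (abs_le.1 u1).1
    have := (abs_le.1 wp).2
    have := (abs_le.1 w0).2
    have := (abs_le.1 w1).2
    nlinarith
  exact nonneg_of_mul_nonneg_right this (by linarith)

theorem chkE_sound (r : ℕ) (sg : Bool) (p q0 q1 : Ten ℤ) (t : ET) {e0 e1 : ℝ} :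
    ∀ l0 k0 l1 k1 : ℕ, chkE r sg p q0 q1 t l0 k0 l1 k1 = true → k0 ≤ 32 → k1 ≤ 32 →
      (l0 : ℝ) ≤ e0 → e0 ≤ k0 → (l1 : ℝ) ≤ e1 → e1 ≤ k1 →
      ∃ n l0' k0' l1' k1' : ℕ, nearLeaf1 r sg (wit n) (dotI (wit n) p) (dotI (wit n) q0)
        (dotI (wit n) q1) l0' k0' l1' k1' = true ∧ k0' ≤ 32 ∧ k1' ≤ 32 ∧
        (l0' : ℝ) ≤ e0 ∧ e0 ≤ k0' ∧ (l1' : ℝ) ≤ e1 ∧ e1 ≤ k1' := by
  induction t with
  | leaf n => intro l0 k0 l1 k1 h a b c d e f; exact ⟨n, l0, k0, l1, k1, h, a, b, c, d, e, f⟩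
  | s0 l r il ir =>
    intro l0 k0 l1 k1 h a b c d e f
    have h' := band_true.1 h
    have hlk : l0 ≤ k0 := by exact_mod_cast c.trans d
    have hm : Nat.shiftRight (Nat.add l0 k0) 1 ≤ 32 := by
      show (l0 + k0) >>> 1 ≤ 32
      rw [Nat.shiftRight_one]; omega
    rcases le_total e0 (Nat.shiftRight (Nat.add l0 k0) 1 : ℕ) with hh | hh
    · exact il _ _ _ _ h'.1 hm b c hh e f
    · exact ir _ _ _ _ h'.2 a b hh d e f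
  | s1 l r il ir =>
    intro l0 k0 l1 k1 h a b c d e f
    have h' := band_true.1 h
    have hlk : l1 ≤ k1 := by exact_mod_cast e.trans f
    have hm : Nat.shiftRight (Nat.add l1 k1) 1 ≤ 32 := by
      show (l1 + k1) >>> 1 ≤ 32
      rw [Nat.shiftRight_one]; omega
    rcases le_total e1 (Nat.shiftRight (Nat.add l1 k1) 1 : ℕ) with hh | hh
    · exact il _ _ _ _ h'.1 a hm c d e hh
    · exact ir _ _ _ _ h'.2 a b c d hh f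

end Pool.Agent.P.MP_f12b6c_an
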