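import Pool.Agent.P.MP_f12b6c_an.S4Defs

/-!
The polynomial matrices behind the Hessian of `U4`, written over arbitrary operations so that
they can be evaluated on integers, reals, majorants and dual numbers.
-/

namespace Pool.Agent.P.MP_f12b6c_an

/-- The ten entries of a symmetric `4 × 4` matrix. -/
structure Ten (R : Type) where
  f00 : R
  f01 : R
  f02 : R
  f03 : R
  f11 : R
  f12 : R
  f13 : R
  f22 : R
  f23 : R
  f33 : R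

/-- Entrywise map. -/
def Ten.map {R S : Type} (φ : R → S) (h : Ten R) : Ten S :=
  ⟨φ h.f00, φ h.f01, φ h.f02, φ h.f03, φ h.f11, φ h.f12, φ h.f13, φ h.f22, φ h.f23, φ h.f33⟩

/-- Entrywise combination. -/
def Ten.zip {R S T : Type} (φ : R → S → T) (h : Ten R) (k : Ten S) : Ten T :=
  ⟨φ h.f00 k.f00, φ h.f01 k.f01, φ h.f02 k.f02, φ h.f03 k.f03, φ h.f11 k.f11, φ h.f12 k.f12,
    φ h.f13 k.f13, φ h.f22 k.f22, φ h.f23 k.f23, φ h.f33 k.f33⟩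

/-- The symmetric matrix with the given entries. -/
def Ten.mat (h : Ten ℝ) : Mat 4 :=
  !![h.f00, h.f01, h.f02, h.f03; h.f01, h.f11, h.f12, h.f13;
     h.f02, h.f12, h.f22, h.f23; h.f03, h.f13, h.f23, h.f33]

/-- `|x|⁶` times the part of the Hessian of `U4` that is rational in `x`. -/
def GE {R : Type} (ad mu sb : R → R → R) (sm : ℕ → R → R) (x0 x1 x2 x3 : R) : Ten R :=
  let x00 := mu x0 x0
  let x11 := mu x1 x1
  let x22 := mu x2 x2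
  let x33 := mu x3 x3
  let s1 := ad x00 x11
  let s2 := ad x22 x33
  let rho := ad s1 s2
  let A := mu s1 s1
  let B := mu s1 s2
  let C := mu s2 s2
  let g11 := ad (ad (sm 14 A) (sm 82 B)) (sm 140 C)
  let g12 := sb (sm 14 C) (ad (sm 40 A) (sm 98 B))
  let g22 := ad (ad (sm 22 A) (sm 134 B)) (sm 40 C)
  let w1 := mu rho (sb (sm 7 A) (ad (sm 13 B) (sm 38 C)))
  let w2 := mu rho (ad (ad (sm 11 A) (sm 13 B)) (sm 20 C))
  ⟨ad (mu x00 g11) w1, mu (mu x0 x1) g11, mu (mu x0 x2) g12, mu (mu x0 x3) g12,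
    ad (mu x11 g11) w1, mu (mu x1 x2) g12, mu (mu x1 x3) g12,
    sb (sm 0 x0) (ad (mu x22 g22) w2), sb (sm 0 x0) (mu (mu x2 x3) g22),
    sb (sm 0 x0) (ad (mu x33 g22) w2)⟩

/-- `|x|⁵` times the Hessian of `30 Re(z₁² conj z₂)/|x|`. -/
def GO {R : Type} (ad mu sb : R → R → R) (sm : ℕ → R → R) (x0 x1 x2 x3 : R) : Ten R :=
  let x00 := mu x0 x0
  let x11 := mu x1 x1
  let x22 := mu x2 x2
  let x33 := mu x3 x3
  let x01 := mu x0 x1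
  let x02 := mu x0 x2
  let x03 := mu x0 x3
  let x12 := mu x1 x2
  let x13 := mu x1 x3
  let rho := ad (ad x00 x11) (ad x22 x33)
  let p0 := sm 2 (ad x02 x13)
  let p1 := sm 2 (sb x03 x12)
  let p2 := sb x00 x11
  let p3 := sm 2 x01
  let q22 := mu p2 x2
  let q33 := mu p3 x3
  let P := ad q22 q33
  let c := sm 90 P
  let r30 := sm 30 rho
  let rr := sm 2 rho
  let r0 := mu rr x0
  let r1 := mu rr x1
  let r2 := mu rr x2
  let r3 := mu rr x3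
  ⟨sb (mu x00 c) (mu r30 (sb (ad (sm 2 (mu p0 x0)) P) r2)),
    sb (mu x01 c) (mu r30 (sb (ad (mu p0 x1) (mu p1 x0)) r3)),
    sb (mu x02 c) (mu r30 (sb (ad (mu p0 x2) (mu p2 x0)) r0)),
    sb (mu x03 c) (mu r30 (sb (ad (mu p0 x3) (mu p3 x0)) r1)),
    sb (mu x11 c) (mu r30 (ad (ad (sm 2 (mu p1 x1)) P) r2)),
    sb (mu x12 c) (mu r30 (ad (ad (mu p1 x2) (mu p2 x1)) r1)),
    sb (mu x13 c) (mu r30 (sb (ad (mu p1 x3) (mu p3 x1)) r0)),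
    sb (mu x22 c) (mu r30 (ad (sm 2 q22) P)),
    sb (mu (mu x2 x3) c) (mu r30 (ad (mu p2 x3) (mu p3 x2))),
    sb (mu x33 c) (mu r30 (ad (sm 2 q33) P))⟩

/-- Multiplication of a real number by a natural number. -/
def rsm (k : ℕ) (x : ℝ) : ℝ := (k : ℝ) * x

/-- `GE` on real numbers. -/
def GER (x0 x1 x2 x3 : ℝ) : Ten ℝ := GE (· + ·) (· * ·) (· - ·) rsm x0 x1 x2 x3

/-- `GO` on real numbers. -/
def GOR (x0 x1 x2 x3 : ℝ) : Ten ℝ := GO (· + ·) (· * ·) (· - ·) rsm x0 x1 x2 x3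

/-- The sum of squares. -/
def sq4 (x0 x1 x2 x3 : ℝ) : ℝ := x0 ^ 2 + x1 ^ 2 + x2 ^ 2 + x3 ^ 2

/-- The bounded, zero-homogeneous part of the Hessian of `U4`. -/
noncomputable def Hm (x0 x1 x2 x3 : ℝ) : Ten ℝ :=
  Ten.zip (fun e o => (e + Real.sqrt (sq4 x0 x1 x2 x3) * o) / sq4 x0 x1 x2 x3 ^ 3)
    (GER x0 x1 x2 x3) (GOR x0 x1 x2 x3)

/-- The Hessian of `7|z₁|² - 20|z₂|²`. -/
def Qh : Mat 4 := !![14, 0, 0, 0; 0, 14, 0, 0; 0, 0, -40, 0; 0, 0, 0, -40]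

/-- The trace pairing of two symmetric matrices. -/
def dotR (a h : Ten ℝ) : ℝ :=
  a.f00 * h.f00 + a.f11 * h.f11 + a.f22 * h.f22 + a.f33 * h.f33 +
    2 * (a.f01 * h.f01 + a.f02 * h.f02 + a.f03 * h.f03 + a.f12 * h.f12 + a.f13 * h.f13 +
      a.f23 * h.f23)

/-- The quadratic form of a symmetric matrix. -/
def quadR (a : Ten ℝ) (v0 v1 v2 v3 : ℝ) : ℝ :=
  a.f00 * v0 ^ 2 + a.f11 * v1 ^ 2 + a.f22 * v2 ^ 2 + a.f33 * v3 ^ 2 +
    2 * (a.f01 * v0 * v1 + a.f02 * v0 * v2 + a.f03 * v0 * v3 + a.f12 * v1 * v2 +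
      a.f13 * v1 * v3 + a.f23 * v2 * v3)

/-- Admissible coefficient matrices: uniformly positive and orthogonal to `Qh`. -/
def Adm (a : Ten ℝ) : Prop :=
  7 * (a.f00 + a.f11) = 20 * (a.f22 + a.f33) ∧ 0 < a.f00 + a.f11 + a.f22 + a.f33 ∧
    ∀ v0 v1 v2 v3 : ℝ, (a.f00 + a.f11 + a.f22 + a.f33) * sq4 v0 v1 v2 v3 ≤
      65536 * quadR a v0 v1 v2 v3

/-- The pair condition in terms of `Hm`. -/
def PairOK (x0 x1 x2 x3 y0 y1 y2 y3 : ℝ) : Prop :=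
  ∃ a : Ten ℝ, Adm a ∧ dotR a (Hm y0 y1 y2 y3) ≤ dotR a (Hm x0 x1 x2 x3)

/-- The pair condition in terms of the Hessian of `U4`. -/
def Pair (x y : E 4) : Prop :=
  ∃ A : Mat 4, (A - 1).PosSemidef ∧ A.trace ≤ 65536 ∧
    0 ≤ (A * (hess U4 x - hess U4 y)).trace

/-- The two slices that meet every orbit of the symmetry group of `U4`. -/
def InSlice (x : E 4) : Prop :=
  (x 1 = 0 ∧ 0 < x 0 ∧ 0 ≤ x 3 ∧ x 2 ^ 2 + x 3 ^ 2 ≤ x 0 ^ 2) ∨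
    (x 3 = 0 ∧ 0 < x 2 ∧ 0 ≤ x 0 ∧ 0 ≤ x 1 ∧ x 0 ^ 2 + x 1 ^ 2 ≤ x 2 ^ 2)

end Pool.Agent.P.MP_f12b6c_an
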