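import Pool.Agent.P.MP_f12b6c_an.S4Chk

/-! The meaning of the checker's data. -/

namespace Pool.Agent.P.MP_f12b6c_an

theorem band_true {a b : Bool} : band a b = true ↔ a = true ∧ b = true := by
  cases a <;> cases b <;> simp [band]

theorem bor_true {a b : Bool} : bor a b = true ↔ a = true ∨ b = true := by
  cases a <;> cases b <;> simp [bor]

theorem force_eq (n : ℕ) (k : ℕ → Bool) : force n k = k n := by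
  cases n <;> rfl

theorem nmax_eq (a b : ℕ) : nmax a b = max a b := by
  show a + (b - a) = max a b
  omega

/-- The height of a face. -/
def hgt (sg : Bool) : ℝ := @Bool.rec (fun _ => ℝ) (-128) 128 sg

/-- A point with offset coordinates lies in the box. -/
def InBox (B : Box) (u0 u1 u2 : ℝ) : Prop :=
  (B.l0 : ℝ) ≤ u0 ∧ u0 ≤ B.h0 ∧ (B.l1 : ℝ) ≤ u1 ∧ u1 ≤ B.h1 ∧ (B.l2 : ℝ) ≤ u2 ∧ u2 ≤ B.h2

/-- `Hm` at the point of a face with offset coordinates `u`. -/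
noncomputable def HmE (ax : Ax) (sg : Bool) (u0 u1 u2 : ℝ) : Ten ℝ :=
  emb ax (hgt sg) (u0 - 256) (u1 - 256) (u2 - 256) Hm

/-- The pair condition for points of two faces. -/
def PairE (ax ay : Ax) (sg : Bool) (u0 u1 u2 w0 w1 w2 : ℝ) : Prop :=
  ∃ a : Ten ℝ, Adm a ∧ dotR a (HmE ay sg w0 w1 w2) ≤ dotR a (HmE ax true u0 u1 u2)

/-- The part of a face that has to be covered. -/
def NeedY (pm : ℕ) (w0 w1 w2 : ℝ) : Prop :=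
  (pm = 0 → 96 < w0 ∧ w0 < 416 ∧ 96 < w1 ∧ w1 < 416 ∧ 96 < w2 ∧ w2 < 416) ∧
    (pm = 1 → w0 < 359) ∧ (pm = 2 → w1 < 359) ∧ (pm = 3 → w2 < 359)

/-- The pair condition holds on a pair of boxes. -/
def Good (ax ay : Ax) (sg : Bool) (pm : ℕ) (X Y : Box) : Prop :=
  ∀ u0 u1 u2 w0 w1 w2 : ℝ, InBox X u0 u1 u2 → InBox Y w0 w1 w2 →
    (u0 - 256) ^ 2 + (u1 - 256) ^ 2 ≤ 16384 → NeedY pm w0 w1 w2 →
    PairE ax ay sg u0 u1 u2 w0 w1 w2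

/-- The pair condition holds for all pairs from the first `nz` zones of a table. -/
def ZOK (ax ay : Ax) (sg : Bool) (tab nz : ℕ) : Prop :=
  ∀ i, i < nz → ∀ u0 u1 u2 w0 w1 w2 : ℝ, InBox (zone tab i) u0 u1 u2 →
    InBox (zone tab i) w0 w1 w2 → PairE ax ay sg u0 u1 u2 w0 w1 w2

/-- The geometry data describe the point `(A, U0, U1, U2)` at the parameter `t`. -/
structure GeoOK (c : Cst) (g : Geo) (t0 t1 t2 A U0 U1 U2 : ℝ) : Prop where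
  h0 : |t0| ≤ 1
  h1 : |t1| ≤ 1
  h2 : |t2| ≤ 1
  ra : Rep c.K c.d t0 t1 t2 1 BX g.xa A
  r0 : Rep c.K c.d t0 t1 t2 1 BX g.u0 U0
  r1 : Rep c.K c.d t0 t1 t2 1 BX g.u1 U1
  r2 : Rep c.K c.d t0 t1 t2 1 BX g.u2 U2
  ba : |A| ≤ g.ma
  b0 : |U0| ≤ g.m0
  b1 : |U1| ≤ g.m1
  b2 : |U2| ≤ g.m2
  k1 : 1 ≤ g.ka
  k2 : g.ka ≤ 2 * BX
  pos : 0 < sq4 A U0 U1 U2
  eta : (Real.sqrt (sq4 A U0 U1 U2) - g.ka) ^ 2 ≤ g.eta

/-- The real matrix of a witness. -/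
def Wit.toR (w : Wit) : Ten ℝ :=
  ⟨w.n00, w.a01, w.a02, w.a03, w.n11, w.a12, w.a13, w.n22, w.a23, w.n33⟩

/-- A valid witness. -/
def WOK (w : Wit) : Prop :=
  Adm w.toR ∧ w.tr = w.n00 + w.n11 + w.n22 + w.n33 ∧ w.tr ≤ 134217728

/-- Entrywise packing. -/
def TRep (K d : ℕ) (t0 t1 t2 : ℝ) (g M : ℕ) (h : Ten ℤ) (k : Ten ℝ) : Prop :=
  Rep K d t0 t1 t2 g M h.f00 k.f00 ∧ Rep K d t0 t1 t2 g M h.f01 k.f01 ∧
  Rep K d t0 t1 t2 g M h.f02 k.f02 ∧ Rep K d t0 t1 t2 g M h.f03 k.f03 ∧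
  Rep K d t0 t1 t2 g M h.f11 k.f11 ∧ Rep K d t0 t1 t2 g M h.f12 k.f12 ∧
  Rep K d t0 t1 t2 g M h.f13 k.f13 ∧ Rep K d t0 t1 t2 g M h.f22 k.f22 ∧
  Rep K d t0 t1 t2 g M h.f23 k.f23 ∧ Rep K d t0 t1 t2 g M h.f33 k.f33

/-- Entrywise majorant. -/
def TAbs (k : Ten ℝ) (m : Ten ℕ) : Prop :=
  |k.f00| ≤ m.f00 ∧ |k.f01| ≤ m.f01 ∧ |k.f02| ≤ m.f02 ∧ |k.f03| ≤ m.f03 ∧ |k.f11| ≤ m.f11 ∧
  |k.f12| ≤ m.f12 ∧ |k.f13| ≤ m.f13 ∧ |k.f22| ≤ m.f22 ∧ |k.f23| ≤ m.f23 ∧ |k.f33| ≤ m.f33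

end Pool.Agent.P.MP_f12b6c_an
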