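import Pool.Agent.P.MP_f12b6c_an.S4Prop
import Pool.Agent.P.MP_f12b6c_an.S4Kron

/-! Packing and majorants of `GE`, `GO` and their formal derivatives. -/

namespace Pool.Agent.P.MP_f12b6c_an

/-- A packed polynomial with its value, degree and coefficient bound. -/
structure RT (K d : ℕ) (t0 t1 t2 : ℝ) where
  N : ℤ
  y : ℝ
  g : ℕ
  M : ℕ
  ok : Rep K d t0 t1 t2 g M N y

variable {K d : ℕ} {t0 t1 t2 : ℝ}

/-- Sum. -/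
noncomputable def RT.ad (a b : RT K d t0 t1 t2) : RT K d t0 t1 t2 :=
  ⟨iadd a.N b.N, a.y + b.y, max a.g b.g, Nat.add a.M b.M, by rw [iadd_eq]; exact a.ok.add b.ok⟩

/-- Difference. -/
noncomputable def RT.sb (a b : RT K d t0 t1 t2) : RT K d t0 t1 t2 :=
  ⟨isub a.N b.N, a.y - b.y, max a.g b.g, Nat.add a.M b.M, by rw [isub_eq]; exact a.ok.sub b.ok⟩

/-- Product. -/
noncomputable def RT.mu (a b : RT K d t0 t1 t2) : RT K d t0 t1 t2 :=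
  ⟨imul a.N b.N, a.y * b.y, a.g + b.g, Nat.mul a.M b.M, by rw [imul_eq]; exact a.ok.mul b.ok⟩

theorem Rep.ism {g M : ℕ} {N : ℤ} {y : ℝ} (h : Rep K d t0 t1 t2 g M N y) (k : ℕ) :
    Rep K d t0 t1 t2 g (k * M) (ism k N) ((k : ℝ) * y) := by
  rw [ism_eq]
  simpa using h.smul (k : ℤ)

/-- Multiple. -/
noncomputable def RT.sm (k : ℕ) (a : RT K d t0 t1 t2) : RT K d t0 t1 t2 :=
  ⟨ism k a.N, rsm k a.y, a.g, Nat.mul k a.M, a.ok.ism k⟩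

/-- Uniform bound for the entries. -/
def TLe (h : Ten ℕ) (m : ℕ) : Prop :=
  h.f00 ≤ m ∧ h.f01 ≤ m ∧ h.f02 ≤ m ∧ h.f03 ≤ m ∧ h.f11 ≤ m ∧ h.f12 ≤ m ∧ h.f13 ≤ m ∧
    h.f22 ≤ m ∧ h.f23 ≤ m ∧ h.f33 ≤ m

instance (h : Ten ℕ) (m : ℕ) : Decidable (TLe h m) := by unfold TLe; infer_instance

theorem TRep_of (T : Ten (RT K d t0 t1 t2)) {g M : ℕ} (hg : TLe (T.map RT.g) g)
    (hM : TLe (T.map RT.M) M) : TRep K d t0 t1 t2 g M (T.map RT.N) (T.map RT.y) := by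
  obtain ⟨a1, a2, a3, a4, a5, a6, a7, a8, a9, a10⟩ := hg
  obtain ⟨b1, b2, b3, b4, b5, b6, b7, b8, b9, b10⟩ := hM
  exact ⟨T.f00.ok.mono a1 b1, T.f01.ok.mono a2 b2, T.f02.ok.mono a3 b3, T.f03.ok.mono a4 b4,
    T.f11.ok.mono a5 b5, T.f12.ok.mono a6 b6, T.f13.ok.mono a7 b7, T.f22.ok.mono a8 b8,
    T.f23.ok.mono a9 b9, T.f33.ok.mono a10 b10⟩

theorem TRep.zip {g1 M1 g2 M2 g M : ℕ} {f : ℤ → ℤ → ℤ} {F : ℝ → ℝ → ℝ}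
    (hf : ∀ p q P Q, Rep K d t0 t1 t2 g1 M1 p P → Rep K d t0 t1 t2 g2 M2 q Q →
      Rep K d t0 t1 t2 g M (f p q) (F P Q))
    {e o : Ten ℤ} {eR oR : Ten ℝ} (h1 : TRep K d t0 t1 t2 g1 M1 e eR)
    (h2 : TRep K d t0 t1 t2 g2 M2 o oR) :
    TRep K d t0 t1 t2 g M (Ten.zip f e o) (Ten.zip F eR oR) := by
  obtain ⟨a1, a2, a3, a4, a5, a6, a7, a8, a9, a10⟩ := h1
  obtain ⟨b1, b2, b3, b4, b5, b6, b7, b8, b9, b10⟩ := h2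
  exact ⟨hf _ _ _ _ a1 b1, hf _ _ _ _ a2 b2, hf _ _ _ _ a3 b3, hf _ _ _ _ a4 b4, hf _ _ _ _ a5 b5,
    hf _ _ _ _ a6 b6, hf _ _ _ _ a7 b7, hf _ _ _ _ a8 b8, hf _ _ _ _ a9 b9, hf _ _ _ _ a10 b10⟩

theorem GE_rep {x0 x1 x2 x3 : ℤ} {y0 y1 y2 y3 : ℝ} (h0 : Rep K d t0 t1 t2 1 BX x0 y0)
    (h1 : Rep K d t0 t1 t2 1 BX x1 y1) (h2 : Rep K d t0 t1 t2 1 BX x2 y2)
    (h3 : Rep K d t0 t1 t2 1 BX x3 y3) :
    TRep K d t0 t1 t2 6 (2 ^ 233) (GE iadd imul isub ism x0 x1 x2 x3) (GER y0 y1 y2 y3) := by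
  have h := TRep_of (GE RT.ad RT.mu RT.sb RT.sm ⟨x0, y0, 1, BX, h0⟩ ⟨x1, y1, 1, BX, h1⟩
    ⟨x2, y2, 1, BX, h2⟩ ⟨x3, y3, 1, BX, h3⟩) (g := 6) (M := 2 ^ 233)
    (by rw [GE_map RT.g RT.ad RT.mu RT.sb RT.sm max (· + ·) max (fun _ g => g) (fun _ _ => rfl) (fun _ _ => rfl)
          (fun _ _ => rfl) (fun _ _ => rfl)]
        show TLe (GE max (· + ·) max (fun _ g => g) 1 1 1 1) 6
        decide +kernel)
    (by rw [GE_map RT.M RT.ad RT.mu RT.sb RT.sm Nat.add Nat.mul Nat.add Nat.mul (fun _ _ => rfl) (fun _ _ => rfl)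
          (fun _ _ => rfl) (fun _ _ => rfl)]
        show TLe (GE Nat.add Nat.mul Nat.add Nat.mul BX BX BX BX) (2 ^ 233)
        decide +kernel)
  rw [GE_map RT.N RT.ad RT.mu RT.sb RT.sm iadd imul isub ism (fun _ _ => rfl) (fun _ _ => rfl)
      (fun _ _ => rfl) (fun _ _ => rfl),
    GE_map RT.y RT.ad RT.mu RT.sb RT.sm (· + ·) (· * ·) (· - ·) rsm (fun _ _ => rfl) (fun _ _ => rfl)
      (fun _ _ => rfl) (fun _ _ => rfl)] at h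
  exact h

theorem GO_rep {x0 x1 x2 x3 : ℤ} {y0 y1 y2 y3 : ℝ} (h0 : Rep K d t0 t1 t2 1 BX x0 y0)
    (h1 : Rep K d t0 t1 t2 1 BX x1 y1) (h2 : Rep K d t0 t1 t2 1 BX x2 y2)
    (h3 : Rep K d t0 t1 t2 1 BX x3 y3) :
    TRep K d t0 t1 t2 5 (2 ^ 197) (GO iadd imul isub ism x0 x1 x2 x3) (GOR y0 y1 y2 y3) := by
  have h := TRep_of (GO RT.ad RT.mu RT.sb RT.sm ⟨x0, y0, 1, BX, h0⟩ ⟨x1, y1, 1, BX, h1⟩
    ⟨x2, y2, 1, BX, h2⟩ ⟨x3, y3, 1, BX, h3⟩) (g := 5) (M := 2 ^ 197)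
    (by rw [GO_map RT.g RT.ad RT.mu RT.sb RT.sm max (· + ·) max (fun _ g => g) (fun _ _ => rfl) (fun _ _ => rfl)
          (fun _ _ => rfl) (fun _ _ => rfl)]
        show TLe (GO max (· + ·) max (fun _ g => g) 1 1 1 1) 5
        decide +kernel)
    (by rw [GO_map RT.M RT.ad RT.mu RT.sb RT.sm Nat.add Nat.mul Nat.add Nat.mul (fun _ _ => rfl) (fun _ _ => rfl)
          (fun _ _ => rfl) (fun _ _ => rfl)]
        show TLe (GO Nat.add Nat.mul Nat.add Nat.mul BX BX BX BX) (2 ^ 197)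
        decide +kernel)
  rw [GO_map RT.N RT.ad RT.mu RT.sb RT.sm iadd imul isub ism (fun _ _ => rfl) (fun _ _ => rfl)
      (fun _ _ => rfl) (fun _ _ => rfl),
    GO_map RT.y RT.ad RT.mu RT.sb RT.sm (· + ·) (· * ·) (· - ·) rsm (fun _ _ => rfl) (fun _ _ => rfl)
      (fun _ _ => rfl) (fun _ _ => rfl)] at h
  exact h

/-- Componentwise map. -/
def Tri.map {R S : Type} (φ : R → S) (f : Tri R) : Tri S := ⟨φ f.v, φ f.d0, φ f.d1, φ f.d2⟩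

theorem GET_map {R S : Type} (φ : R → S) (ad mu sb : R → R → R) (sm : ℕ → R → R)
    (ad' mu' sb' : S → S → S) (sm' : ℕ → S → S)
    (h1 : ∀ a b, φ (ad a b) = ad' (φ a) (φ b)) (h2 : ∀ a b, φ (mu a b) = mu' (φ a) (φ b))
    (h3 : ∀ a b, φ (sb a b) = sb' (φ a) (φ b)) (h4 : ∀ k a, φ (sm k a) = sm' k (φ a))
    (x0 x1 x2 x3 : Tri R) :
    Ten.map (Tri.map φ) (GET ad mu sb sm x0 x1 x2 x3) =
      GET ad' mu' sb' sm' (x0.map φ) (x1.map φ) (x2.map φ) (x3.map φ) :=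
  GE_map (Tri.map φ) _ _ _ _ _ _ _ _
    (fun a b => by simp only [Tri.map, tad, h1]) (fun a b => by simp only [Tri.map, tmu, h1, h2])
    (fun a b => by simp only [Tri.map, tad, h3]) (fun k a => by simp only [Tri.map, tsm, h4])
    x0 x1 x2 x3

theorem GOT_map {R S : Type} (φ : R → S) (ad mu sb : R → R → R) (sm : ℕ → R → R)
    (ad' mu' sb' : S → S → S) (sm' : ℕ → S → S)
    (h1 : ∀ a b, φ (ad a b) = ad' (φ a) (φ b)) (h2 : ∀ a b, φ (mu a b) = mu' (φ a) (φ b))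
    (h3 : ∀ a b, φ (sb a b) = sb' (φ a) (φ b)) (h4 : ∀ k a, φ (sm k a) = sm' k (φ a))
    (x0 x1 x2 x3 : Tri R) :
    Ten.map (Tri.map φ) (GOT ad mu sb sm x0 x1 x2 x3) =
      GOT ad' mu' sb' sm' (x0.map φ) (x1.map φ) (x2.map φ) (x3.map φ) :=
  GO_map (Tri.map φ) _ _ _ _ _ _ _ _
    (fun a b => by simp only [Tri.map, tad, h1]) (fun a b => by simp only [Tri.map, tmu, h1, h2])
    (fun a b => by simp only [Tri.map, tad, h3]) (fun k a => by simp only [Tri.map, tsm, h4])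
    x0 x1 x2 x3

/-- Componentwise packing of a coordinate with its three direction components. -/
def XRep (K d : ℕ) (t0 t1 t2 : ℝ) (x : Tri ℤ) (y : Tri ℝ) : Prop :=
  Rep K d t0 t1 t2 1 BX x.v y.v ∧ Rep K d t0 t1 t2 0 1 x.d0 y.d0 ∧
    Rep K d t0 t1 t2 0 1 x.d1 y.d1 ∧ Rep K d t0 t1 t2 0 1 x.d2 y.d2

/-- The bundled form of `XRep`. -/
def XRep.rt {x : Tri ℤ} {y : Tri ℝ} (h : XRep K d t0 t1 t2 x y) : Tri (RT K d t0 t1 t2) :=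
  ⟨⟨x.v, y.v, 1, BX, h.1⟩, ⟨x.d0, y.d0, 0, 1, h.2.1⟩, ⟨x.d1, y.d1, 0, 1, h.2.2.1⟩,
    ⟨x.d2, y.d2, 0, 1, h.2.2.2⟩⟩

/-- Packing of values and of the three formal derivatives. -/
def TTRep (K d : ℕ) (t0 t1 t2 : ℝ) (g M g' M' : ℕ) (h : Ten (Tri ℤ)) (k : Ten (Tri ℝ)) : Prop :=
  TRep K d t0 t1 t2 g M (h.map Tri.v) (k.map Tri.v) ∧
    TRep K d t0 t1 t2 g' M' (h.map Tri.d0) (k.map Tri.d0) ∧
    TRep K d t0 t1 t2 g' M' (h.map Tri.d1) (k.map Tri.d1) ∧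
    TRep K d t0 t1 t2 g' M' (h.map Tri.d2) (k.map Tri.d2)

/-- Uniform bounds for values and derivatives. -/
def TTLe (h : Ten (Tri ℕ)) (m m' : ℕ) : Prop :=
  TLe (h.map Tri.v) m ∧ TLe (h.map Tri.d0) m' ∧ TLe (h.map Tri.d1) m' ∧ TLe (h.map Tri.d2) m'

instance (h : Ten (Tri ℕ)) (m m' : ℕ) : Decidable (TTLe h m m') := by unfold TTLe; infer_instance

theorem TTRep_of (T : Ten (Tri (RT K d t0 t1 t2))) {g M g' M' : ℕ}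
    (hg : TTLe (T.map (Tri.map RT.g)) g g') (hM : TTLe (T.map (Tri.map RT.M)) M M') :
    TTRep K d t0 t1 t2 g M g' M' (T.map (Tri.map RT.N)) (T.map (Tri.map RT.y)) :=
  ⟨TRep_of (T.map Tri.v) hg.1 hM.1, TRep_of (T.map Tri.d0) hg.2.1 hM.2.1,
    TRep_of (T.map Tri.d1) hg.2.2.1 hM.2.2.1, TRep_of (T.map Tri.d2) hg.2.2.2 hM.2.2.2⟩

theorem GET_rep {x0 x1 x2 x3 : Tri ℤ} {y0 y1 y2 y3 : Tri ℝ} (h0 : XRep K d t0 t1 t2 x0 y0)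
    (h1 : XRep K d t0 t1 t2 x1 y1) (h2 : XRep K d t0 t1 t2 x2 y2)
    (h3 : XRep K d t0 t1 t2 x3 y3) :
    TTRep K d t0 t1 t2 6 (2 ^ 233) 5 (2 ^ 199) (GET iadd imul isub ism x0 x1 x2 x3)
      (GET (· + ·) (· * ·) (· - ·) rsm y0 y1 y2 y3) := by
  have h := TTRep_of (GET RT.ad RT.mu RT.sb RT.sm h0.rt h1.rt h2.rt h3.rt)
    (g := 6) (M := 2 ^ 233) (g' := 5) (M' := 2 ^ 199)
    (by rw [GET_map RT.g RT.ad RT.mu RT.sb RT.sm max (· + ·) max (fun _ g => g) (fun _ _ => rfl) (fun _ _ => rfl)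
          (fun _ _ => rfl) (fun _ _ => rfl)]
        show TTLe (GET max (· + ·) max (fun _ g => g) ⟨1, 0, 0, 0⟩ ⟨1, 0, 0, 0⟩ ⟨1, 0, 0, 0⟩
          ⟨1, 0, 0, 0⟩) 6 5
        decide +kernel)
    (by rw [GET_map RT.M RT.ad RT.mu RT.sb RT.sm Nat.add Nat.mul Nat.add Nat.mul (fun _ _ => rfl) (fun _ _ => rfl)
          (fun _ _ => rfl) (fun _ _ => rfl)]
        show TTLe (GET Nat.add Nat.mul Nat.add Nat.mul ⟨BX, 1, 1, 1⟩ ⟨BX, 1, 1, 1⟩ ⟨BX, 1, 1, 1⟩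
          ⟨BX, 1, 1, 1⟩) (2 ^ 233) (2 ^ 199)
        decide +kernel)
  rw [GET_map RT.N RT.ad RT.mu RT.sb RT.sm iadd imul isub ism (fun _ _ => rfl) (fun _ _ => rfl)
      (fun _ _ => rfl) (fun _ _ => rfl),
    GET_map RT.y RT.ad RT.mu RT.sb RT.sm (· + ·) (· * ·) (· - ·) rsm (fun _ _ => rfl) (fun _ _ => rfl)
      (fun _ _ => rfl) (fun _ _ => rfl)] at h
  exact h

theorem GOT_rep {x0 x1 x2 x3 : Tri ℤ} {y0 y1 y2 y3 : Tri ℝ} (h0 : XRep K d t0 t1 t2 x0 y0)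
    (h1 : XRep K d t0 t1 t2 x1 y1) (h2 : XRep K d t0 t1 t2 x2 y2)
    (h3 : XRep K d t0 t1 t2 x3 y3) :
    TTRep K d t0 t1 t2 5 (2 ^ 197) 4 (2 ^ 162) (GOT iadd imul isub ism x0 x1 x2 x3)
      (GOT (· + ·) (· * ·) (· - ·) rsm y0 y1 y2 y3) := by
  have h := TTRep_of (GOT RT.ad RT.mu RT.sb RT.sm h0.rt h1.rt h2.rt h3.rt)
    (g := 5) (M := 2 ^ 197) (g' := 4) (M' := 2 ^ 162)
    (by rw [GOT_map RT.g RT.ad RT.mu RT.sb RT.sm max (· + ·) max (fun _ g => g) (fun _ _ => rfl) (fun _ _ => rfl)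
          (fun _ _ => rfl) (fun _ _ => rfl)]
        show TTLe (GOT max (· + ·) max (fun _ g => g) ⟨1, 0, 0, 0⟩ ⟨1, 0, 0, 0⟩ ⟨1, 0, 0, 0⟩
          ⟨1, 0, 0, 0⟩) 5 4
        decide +kernel)
    (by rw [GOT_map RT.M RT.ad RT.mu RT.sb RT.sm Nat.add Nat.mul Nat.add Nat.mul (fun _ _ => rfl) (fun _ _ => rfl)
          (fun _ _ => rfl) (fun _ _ => rfl)]
        show TTLe (GOT Nat.add Nat.mul Nat.add Nat.mul ⟨BX, 1, 1, 1⟩ ⟨BX, 1, 1, 1⟩ ⟨BX, 1, 1, 1⟩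
          ⟨BX, 1, 1, 1⟩) (2 ^ 197) (2 ^ 162)
        decide +kernel)
  rw [GOT_map RT.N RT.ad RT.mu RT.sb RT.sm iadd imul isub ism (fun _ _ => rfl) (fun _ _ => rfl)
      (fun _ _ => rfl) (fun _ _ => rfl),
    GOT_map RT.y RT.ad RT.mu RT.sb RT.sm (· + ·) (· * ·) (· - ·) rsm (fun _ _ => rfl) (fun _ _ => rfl)
      (fun _ _ => rfl) (fun _ _ => rfl)] at h
  exact h

/-- A real number with a majorant. -/
structure AT where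
  y : ℝ
  M : ℕ
  ok : |y| ≤ M

/-- Sum. -/
def AT.ad (a b : AT) : AT :=
  ⟨a.y + b.y, Nat.add a.M b.M, by
    have := abs_add_le a.y b.y
    have h1 := a.ok
    have h2 := b.ok
    show _ ≤ ((a.M + b.M : ℕ) : ℝ)
    push_cast; linarith⟩

/-- Difference. -/
def AT.sb (a b : AT) : AT :=
  ⟨a.y - b.y, Nat.add a.M b.M, by
    have := abs_sub a.y b.y
    have h1 := a.ok
    have h2 := b.ok
    show _ ≤ ((a.M + b.M : ℕ) : ℝ)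
    push_cast; linarith⟩

/-- Product. -/
def AT.mu (a b : AT) : AT :=
  ⟨a.y * b.y, Nat.mul a.M b.M, by
    show _ ≤ ((a.M * b.M : ℕ) : ℝ)
    rw [abs_mul]; push_cast
    exact mul_le_mul a.ok b.ok (abs_nonneg _) (Nat.cast_nonneg _)⟩

/-- Multiple. -/
def AT.sm (k : ℕ) (a : AT) : AT :=
  ⟨rsm k a.y, Nat.mul k a.M, by
    show |(k : ℝ) * a.y| ≤ ((k * a.M : ℕ) : ℝ)
    rw [abs_mul, Nat.abs_cast]; push_cast
    exact mul_le_mul_of_nonneg_left a.ok (Nat.cast_nonneg _)⟩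

theorem TAbs_of (T : Ten AT) : TAbs (T.map AT.y) (T.map AT.M) :=
  ⟨T.f00.ok, T.f01.ok, T.f02.ok, T.f03.ok, T.f11.ok, T.f12.ok, T.f13.ok, T.f22.ok, T.f23.ok,
    T.f33.ok⟩

theorem GO_abs {y0 y1 y2 y3 : ℝ} {m0 m1 m2 m3 : ℕ} (h0 : |y0| ≤ m0) (h1 : |y1| ≤ m1)
    (h2 : |y2| ≤ m2) (h3 : |y3| ≤ m3) :
    TAbs (GOR y0 y1 y2 y3) (GO Nat.add Nat.mul Nat.add Nat.mul m0 m1 m2 m3) := by
  have h := TAbs_of (GO AT.ad AT.mu AT.sb AT.sm ⟨y0, m0, h0⟩ ⟨y1, m1, h1⟩ ⟨y2, m2, h2⟩ ⟨y3, m3, h3⟩)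
  rw [GO_map AT.M AT.ad AT.mu AT.sb AT.sm Nat.add Nat.mul Nat.add Nat.mul (fun _ _ => rfl) (fun _ _ => rfl)
      (fun _ _ => rfl) (fun _ _ => rfl),
    GO_map AT.y AT.ad AT.mu AT.sb AT.sm (· + ·) (· * ·) (· - ·) rsm (fun _ _ => rfl) (fun _ _ => rfl)
      (fun _ _ => rfl) (fun _ _ => rfl)] at h
  exact h

/-- Componentwise majorant. -/
def XAbs (y : Tri ℝ) (m : Tri ℕ) : Prop :=
  |y.v| ≤ m.v ∧ |y.d0| ≤ m.d0 ∧ |y.d1| ≤ m.d1 ∧ |y.d2| ≤ m.d2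

/-- The bundled form of `XAbs`. -/
def XAbs.at {y : Tri ℝ} {m : Tri ℕ} (h : XAbs y m) : Tri AT :=
  ⟨⟨y.v, m.v, h.1⟩, ⟨y.d0, m.d0, h.2.1⟩, ⟨y.d1, m.d1, h.2.2.1⟩, ⟨y.d2, m.d2, h.2.2.2⟩⟩

/-- Majorants of values and derivatives. -/
def TTAbs (k : Ten (Tri ℝ)) (m : Ten (Tri ℕ)) : Prop :=
  TAbs (k.map Tri.v) (m.map Tri.v) ∧ TAbs (k.map Tri.d0) (m.map Tri.d0) ∧
    TAbs (k.map Tri.d1) (m.map Tri.d1) ∧ TAbs (k.map Tri.d2) (m.map Tri.d2)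

theorem TTAbs_of (T : Ten (Tri AT)) : TTAbs (T.map (Tri.map AT.y)) (T.map (Tri.map AT.M)) :=
  ⟨TAbs_of (T.map Tri.v), TAbs_of (T.map Tri.d0), TAbs_of (T.map Tri.d1), TAbs_of (T.map Tri.d2)⟩

theorem GOT_abs {y0 y1 y2 y3 : Tri ℝ} {m0 m1 m2 m3 : Tri ℕ} (h0 : XAbs y0 m0) (h1 : XAbs y1 m1)
    (h2 : XAbs y2 m2) (h3 : XAbs y3 m3) :
    TTAbs (GOT (· + ·) (· * ·) (· - ·) rsm y0 y1 y2 y3)
      (GOT Nat.add Nat.mul Nat.add Nat.mul m0 m1 m2 m3) := by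
  have h := TTAbs_of (GOT AT.ad AT.mu AT.sb AT.sm h0.at h1.at h2.at h3.at)
  rw [GOT_map AT.M AT.ad AT.mu AT.sb AT.sm Nat.add Nat.mul Nat.add Nat.mul (fun _ _ => rfl) (fun _ _ => rfl)
      (fun _ _ => rfl) (fun _ _ => rfl),
    GOT_map AT.y AT.ad AT.mu AT.sb AT.sm (· + ·) (· * ·) (· - ·) rsm (fun _ _ => rfl) (fun _ _ => rfl)
      (fun _ _ => rfl) (fun _ _ => rfl)] at h
  exact h

theorem TAbs.zip {f : ℕ → ℕ → ℕ} {F : ℝ → ℝ → ℝ}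
    (hf : ∀ (P Q : ℝ) (p q : ℕ), |P| ≤ p → |Q| ≤ q → |F P Q| ≤ f p q)
    {e o : Ten ℕ} {eR oR : Ten ℝ} (h1 : TAbs eR e) (h2 : TAbs oR o) :
    TAbs (Ten.zip F eR oR) (Ten.zip f e o) := by
  obtain ⟨a1, a2, a3, a4, a5, a6, a7, a8, a9, a10⟩ := h1
  obtain ⟨b1, b2, b3, b4, b5, b6, b7, b8, b9, b10⟩ := h2
  exact ⟨hf _ _ _ _ a1 b1, hf _ _ _ _ a2 b2, hf _ _ _ _ a3 b3, hf _ _ _ _ a4 b4, hf _ _ _ _ a5 b5,
    hf _ _ _ _ a6 b6, hf _ _ _ _ a7 b7, hf _ _ _ _ a8 b8, hf _ _ _ _ a9 b9, hf _ _ _ _ a10 b10⟩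

end Pool.Agent.P.MP_f12b6c_an
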