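import Pool.Agent.P.MP_f12b6c_an.S4Near

/-! Soundness of the tree checkers. -/

namespace Pool.Agent.P.MP_f12b6c_an

theorem deriv_emb (ax : Ax) (a : Ten ℝ) {l : ℝ} (hl : 0 < l) (z0 z1 z2 e0 e1 e2 : ℝ)
    (pos : 0 < sq4 (l * hgt true) (l * (z0 - 256)) (l * (z1 - 256)) (l * (z2 - 256))) :
    HasDerivAt (fun s : ℝ => dotR a (HmE ax true (z0 + s * e0) (z1 + s * e1) (z2 + s * e2)))
      (((l * e0) * dotR a (KE ax (l * hgt true) (l * (z0 - 256)) (l * (z1 - 256)) (l * (z2 - 256))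
          Tri.d0) +
        (l * e1) * dotR a (KE ax (l * hgt true) (l * (z0 - 256)) (l * (z1 - 256)) (l * (z2 - 256))
          Tri.d1) +
        (l * e2) * dotR a (KE ax (l * hgt true) (l * (z0 - 256)) (l * (z1 - 256)) (l * (z2 - 256))
          Tri.d2)) /
        sq4 (l * hgt true) (l * (z0 - 256)) (l * (z1 - 256)) (l * (z2 - 256)) ^ 4) 0 := by
  generalize hA : l * hgt true = A at *
  generalize h0 : l * (z0 - 256) = U0 at *
  generalize h1 : l * (z1 - 256) = U1 at *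
  generalize h2 : l * (z2 - 256) = U2 at *
  have e : (fun s : ℝ => dotR a (HmE ax true (z0 + s * e0) (z1 + s * e1) (z2 + s * e2))) =
      fun s : ℝ => dotR a (emb ax A (U0 + s * (l * e0)) (U1 + s * (l * e1)) (U2 + s * (l * e2))
        Hm) := by
    funext s
    unfold HmE
    rw [← emb_smul ax hl, hA, ← h0, ← h1, ← h2]
    congr 2 <;> ring
  rw [e]
  cases ax
  · have q : sq4 A U2 U0 U1 = sq4 A U0 U1 U2 := by unfold sq4; ring
    have h := hasDerivAt_dot a ⟨A, 0, 0, 0⟩ ⟨U2, 0, 0, 1⟩ ⟨U0, 1, 0, 0⟩ ⟨U1, 0, 1, 0⟩ (l * e0)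
      (l * e1) (l * e2) (by rw [q]; exact pos)
    simp only [mul_zero, mul_one, add_zero, zero_add, q] at h
    exact h
  · have q : sq4 U0 A U1 U2 = sq4 A U0 U1 U2 := by unfold sq4; ring
    have h := hasDerivAt_dot a ⟨U0, 1, 0, 0⟩ ⟨A, 0, 0, 0⟩ ⟨U1, 0, 1, 0⟩ ⟨U2, 0, 0, 1⟩ (l * e0)
      (l * e1) (l * e2) (by rw [q]; exact pos)
    simp only [mul_zero, mul_one, add_zero, zero_add, q] at h
    exact h
  · have q : sq4 U0 U1 A U2 = sq4 A U0 U1 U2 := by unfold sq4; ring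
    have h := hasDerivAt_dot a ⟨U0, 1, 0, 0⟩ ⟨U1, 0, 1, 0⟩ ⟨A, 0, 0, 0⟩ ⟨U2, 0, 0, 1⟩ (l * e0)
      (l * e1) (l * e2) (by rw [q]; exact pos)
    simp only [mul_zero, mul_one, add_zero, zero_add, q] at h
    exact h
  · have q : sq4 U0 U1 U2 A = sq4 A U0 U1 U2 := by unfold sq4; ring
    have h := hasDerivAt_dot a ⟨U0, 1, 0, 0⟩ ⟨U1, 0, 1, 0⟩ ⟨U2, 0, 0, 1⟩ ⟨A, 0, 0, 0⟩ (l * e0)
      (l * e1) (l * e2) (by rw [q]; exact pos)
    simp only [mul_zero, mul_one, add_zero, zero_add, q] at h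
    exact h

/-- The derivative of `dotR a Hm` in the direction `e` is nonnegative on the box. -/
def DerOK (ax : Ax) (Z : Box) (a : Ten ℝ) (e0 e1 e2 : ℝ) : Prop :=
  ∀ z0 z1 z2 : ℝ, InBox Z z0 z1 z2 → ∃ d : ℝ, 0 ≤ d ∧
    HasDerivAt (fun s : ℝ => dotR a (HmE ax true (z0 + s * e0) (z1 + s * e1) (z2 + s * e2))) d 0

theorem DerOK.le {ax : Ax} {Z : Box} {a : Ten ℝ} {u0 u1 u2 w0 w1 w2 : ℝ}
    (h : DerOK ax Z a (u0 - w0) (u1 - w1) (u2 - w2)) (hu : InBox Z u0 u1 u2)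
    (hw : InBox Z w0 w1 w2) : dotR a (HmE ax true w0 w1 w2) ≤ dotR a (HmE ax true u0 u1 u2) := by
  set g : ℝ → ℝ := fun s => dotR a (HmE ax true (w0 + s * (u0 - w0)) (w1 + s * (u1 - w1))
    (w2 + s * (u2 - w2))) with hg
  have hd : ∀ s ∈ Set.Icc (0 : ℝ) 1, ∃ d, 0 ≤ d ∧ HasDerivAt g d s := by
    intro s hs
    obtain ⟨a1, a2, a3, a4, a5, a6⟩ := hu
    obtain ⟨b1, b2, b3, b4, b5, b6⟩ := hw
    obtain ⟨s0, s1⟩ := hs
    obtain ⟨d, hd0, hd⟩ := h (w0 + s * (u0 - w0)) (w1 + s * (u1 - w1)) (w2 + s * (u2 - w2))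
      ⟨by nlinarith, by nlinarith, by nlinarith, by nlinarith, by nlinarith, by nlinarith⟩
    refine ⟨d, hd0, ?_⟩
    have h2 := HasDerivAt.comp_sub_const s s (f := fun r : ℝ => dotR a (HmE ax true
      (w0 + s * (u0 - w0) + r * (u0 - w0)) (w1 + s * (u1 - w1) + r * (u1 - w1))
      (w2 + s * (u2 - w2) + r * (u2 - w2)))) (by rw [sub_self]; exact hd)
    refine h2.congr_of_eventuallyEq (Filter.Eventually.of_forall fun r => ?_)
    simp only [hg]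
    congr 2 <;> ring
  have hm : MonotoneOn g (Set.Icc 0 1) := by
    refine monotoneOn_of_deriv_nonneg (convex_Icc 0 1) ?_ ?_ ?_
    · intro s hs
      obtain ⟨d, -, h'⟩ := hd s hs
      exact h'.continuousAt.continuousWithinAt
    · intro s hs
      obtain ⟨d, -, h'⟩ := hd s (interior_subset hs)
      exact h'.differentiableAt.differentiableWithinAt
    · intro s hs
      obtain ⟨d, h0, h'⟩ := hd s (interior_subset hs)
      rw [h'.deriv]; exact h0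
  have := hm (Set.left_mem_Icc.2 zero_le_one) (Set.right_mem_Icc.2 zero_le_one) zero_le_one
  simpa [hg] using this

theorem face_sound {r : ℕ} {sg : Bool} {p q0 q1 : Ten ℤ} {t : ET}
    (h : chkE r sg p q0 q1 t 0 32 0 32 = true) {m f0 f1 : ℝ} (hm : 0 < m) (a0 : |f0| ≤ m)
    (a1 : |f1| ≤ m) :
    ∃ w : Wit, WOK w ∧ ∀ (t0 t1 t2 : ℝ) (ka Rp R0 R1 : ℕ) (pR q0R q1R : Ten ℝ), |t0| ≤ 1 →
      |t1| ≤ 1 → |t2| ≤ 1 → 1 ≤ ka → r = Rp + R0 + R1 → DirOK t0 t1 t2 ka p pR Rp →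
      DirOK t0 t1 t2 ka q0 q0R R0 → DirOK t0 t1 t2 ka q1 q1R R1 →
      0 ≤ sgn sg * m * dotR w.toR pR + f0 * dotR w.toR q0R + f1 * dotR w.toR q1R := by
  have b0 : |f0 / m| ≤ 1 := by rw [abs_div, abs_of_pos hm, div_le_one hm]; exact a0
  have b1 : |f1 / m| ≤ 1 := by rw [abs_div, abs_of_pos hm, div_le_one hm]; exact a1
  have c0 := abs_le.1 b0
  have c1 := abs_le.1 b1
  obtain ⟨n, l0, k0, l1, k1, hl, x1, x2, x3, x4, x5, x6⟩ :=
    chkE_sound r sg p q0 q1 t (e0 := 16 + 16 * (f0 / m)) (e1 := 16 + 16 * (f1 / m)) 0 32 0 32 h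
      le_rfl le_rfl (by push_cast; linarith [c0.1]) (by push_cast; linarith [c0.2])
      (by push_cast; linarith [c1.1]) (by push_cast; linarith [c1.2])
  have hw : WOK (wit n) := wit_sound n (band_true.1 hl).1
  refine ⟨wit n, hw, fun t0 t1 t2 ka Rp R0 R1 pR q0R q1R h0 h1 h2 k1 hr dp d0 d1 => ?_⟩
  have := nearLeaf_sound h0 h1 h2 k1 hr dp d0 d1 hw sg hl x1 x2 x3 x4 x5 x6
  have e : sgn sg * m * dotR (wit n).toR pR + f0 * dotR (wit n).toR q0R +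
      f1 * dotR (wit n).toR q1R = (m / 16) * (sgn sg * 16 * dotR (wit n).toR pR +
        (16 + 16 * (f0 / m) - 16) * dotR (wit n).toR q0R +
        (16 + 16 * (f1 / m) - 16) * dotR (wit n).toR q1R) := by
    field_simp
    ring
  rw [e]
  positivity

theorem adm_default : Adm ⟨20, 0, 0, 0, 20, 0, 0, 7, 0, 7⟩ := by
  refine ⟨by norm_num, by norm_num, fun v0 v1 v2 v3 => ?_⟩
  simp only [sq4, quadR]
  nlinarith [sq_nonneg v0, sq_nonneg v1, sq_nonneg v2, sq_nonneg v3]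

theorem derOK_of (ax : Ax) (Z : Box) (hok : (geo c8 true Z).ok = true) (a : Ten ℝ)
    (e0 e1 e2 : ℝ)
    (H : ∀ (t0 t1 t2 : ℝ) (ka R0 R1 R2 : ℕ) (k0 k1 k2 : Ten ℝ), |t0| ≤ 1 → |t1| ≤ 1 → |t2| ≤ 1 →
      1 ≤ ka → (nearCell ax Z).r = R0 + R1 + R2 → DirOK t0 t1 t2 ka (nearCell ax Z).k0 k0 R0 →
      DirOK t0 t1 t2 ka (nearCell ax Z).k1 k1 R1 → DirOK t0 t1 t2 ka (nearCell ax Z).k2 k2 R2 →
      0 ≤ e0 * dotR a k0 + e1 * dotR a k1 + e2 * dotR a k2) : DerOK ax Z a e0 e1 e2 := by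
  intro z0 z1 z2 hz
  obtain ⟨t0, t1, t2, l, hl, hg⟩ := geo_sound c8 true Z hok hz
  obtain ⟨R0, R1, R2, hr, d0, d1, d2⟩ := nearCell_sound ax hg
  refine ⟨_, ?_, deriv_emb ax a hl z0 z1 z2 e0 e1 e2 hg.pos⟩
  have := H t0 t1 t2 _ R0 R1 R2 _ _ _ hg.h0 hg.h1 hg.h2 hg.k1 hr d0 d1 d2
  refine div_nonneg ?_ (pow_pos hg.pos 4).le
  have := mul_nonneg hl.le this
  linarith

theorem nearChk_sound (ax : Ax) (Z : Box) {t1 t2 t3 t4 t5 t6 : ET}
    (h : nearChk (nearCell ax Z) t1 t2 t3 t4 t5 t6 = true) {u0 u1 u2 w0 w1 w2 : ℝ}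
    (hu : InBox Z u0 u1 u2) (hw : InBox Z w0 w1 w2) : PairE ax ax true u0 u1 u2 w0 w1 w2 := by
  unfold nearChk at h
  simp only [band_true] at h
  obtain ⟨hok, f1, f2, f3, f4, f5, f6⟩ := h
  have main : ∀ e0 e1 e2 : ℝ, (e0 = 0 ∧ e1 = 0 ∧ e2 = 0) ∨
      ∃ a, Adm a ∧ DerOK ax Z a e0 e1 e2 := by
    intro e0 e1 e2
    by_cases c0 : |e1| ≤ |e0| ∧ |e2| ≤ |e0|
    · rcases lt_trichotomy e0 0 with s | s | s
      · rw [abs_of_neg s] at c0
        obtain ⟨w, hw, H⟩ := face_sound f2 (m := -e0) (by linarith) c0.1 c0.2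
        refine Or.inr ⟨_, hw.1, derOK_of ax Z hok _ _ _ _
          fun t0 t1 t2 ka R0 R1 R2 k0 k1 k2 a0 a1 a2 a3 a4 d0 d1 d2 => ?_⟩
        have := H t0 t1 t2 ka R0 R1 R2 k0 k1 k2 a0 a1 a2 a3 a4 d0 d1 d2
        simpa [sgn] using this
      · rw [s, abs_zero] at c0
        exact Or.inl ⟨s, abs_nonpos_iff.1 c0.1, abs_nonpos_iff.1 c0.2⟩
      · rw [abs_of_pos s] at c0
        obtain ⟨w, hw, H⟩ := face_sound f1 (m := e0) s c0.1 c0.2
        refine Or.inr ⟨_, hw.1, derOK_of ax Z hok _ _ _ _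
          fun t0 t1 t2 ka R0 R1 R2 k0 k1 k2 a0 a1 a2 a3 a4 d0 d1 d2 => ?_⟩
        have := H t0 t1 t2 ka R0 R1 R2 k0 k1 k2 a0 a1 a2 a3 a4 d0 d1 d2
        simpa [sgn] using this
    · by_cases c1 : |e2| ≤ |e1|
      · have c2 : |e0| < |e1| := by
          by_contra hc
          exact c0 ⟨not_lt.1 hc, c1.trans (not_lt.1 hc)⟩
        rcases lt_trichotomy e1 0 with s | s | s
        · rw [abs_of_neg s] at c1 c2
          obtain ⟨w, hw, H⟩ := face_sound f4 (m := -e1) (by linarith) c2.le c1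
          refine Or.inr ⟨_, hw.1, derOK_of ax Z hok _ _ _ _
            fun t0 t1 t2 ka R0 R1 R2 k0 k1 k2 a0 a1 a2 a3 a4 d0 d1 d2 => ?_⟩
          have := H t0 t1 t2 ka R1 R0 R2 k1 k0 k2 a0 a1 a2 a3 (by omega) d1 d0 d2
          simp only [sgn] at this
          linarith
        · rw [s, abs_zero] at c2
          exact absurd c2 (not_lt.2 (abs_nonneg _))
        · rw [abs_of_pos s] at c1 c2
          obtain ⟨w, hw, H⟩ := face_sound f3 (m := e1) s c2.le c1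
          refine Or.inr ⟨_, hw.1, derOK_of ax Z hok _ _ _ _
            fun t0 t1 t2 ka R0 R1 R2 k0 k1 k2 a0 a1 a2 a3 a4 d0 d1 d2 => ?_⟩
          have := H t0 t1 t2 ka R1 R0 R2 k1 k0 k2 a0 a1 a2 a3 (by omega) d1 d0 d2
          simp only [sgn] at this
          linarith
      · have c1' : |e1| < |e2| := not_le.1 c1
        have c2 : |e0| < |e2| := by
          by_contra hc
          exact c0 ⟨c1'.le.trans (not_lt.1 hc), not_lt.1 hc⟩
        rcases lt_trichotomy e2 0 with s | s | s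
        · rw [abs_of_neg s] at c1' c2
          obtain ⟨w, hw, H⟩ := face_sound f6 (m := -e2) (by linarith) c2.le c1'.le
          refine Or.inr ⟨_, hw.1, derOK_of ax Z hok _ _ _ _
            fun t0 t1 t2 ka R0 R1 R2 k0 k1 k2 a0 a1 a2 a3 a4 d0 d1 d2 => ?_⟩
          have := H t0 t1 t2 ka R2 R0 R1 k2 k0 k1 a0 a1 a2 a3 (by omega) d2 d0 d1
          simp only [sgn] at this
          linarith
        · rw [s, abs_zero] at c2
          exact absurd c2 (not_lt.2 (abs_nonneg _))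
        · rw [abs_of_pos s] at c1' c2
          obtain ⟨w, hw, H⟩ := face_sound f5 (m := e2) s c2.le c1'.le
          refine Or.inr ⟨_, hw.1, derOK_of ax Z hok _ _ _ _
            fun t0 t1 t2 ka R0 R1 R2 k0 k1 k2 a0 a1 a2 a3 a4 d0 d1 d2 => ?_⟩
          have := H t0 t1 t2 ka R2 R0 R1 k2 k0 k1 a0 a1 a2 a3 (by omega) d2 d0 d1
          simp only [sgn] at this
          linarith
  rcases main (u0 - w0) (u1 - w1) (u2 - w2) with ⟨a, b, c⟩ | ⟨a, ha, hd⟩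
  · rw [sub_eq_zero] at a b c
    subst a b c
    exact ⟨_, adm_default, le_rfl⟩
  · exact ⟨a, ha, hd.le hu hw⟩

theorem ZOK.zero (ax ay : Ax) (sg : Bool) (tab : ℕ) : ZOK ax ay sg tab 0 :=
  fun _ hi => absurd hi (Nat.not_lt_zero _)

theorem chkNL_sound (ax : Ax) (tab j : ℕ) (l : NL) :
    ∀ i, chkNL ax tab j l i = true → ZOK ax ax true tab i → ZOK ax ax true tab j := by
  induction l with
  | nil =>
    intro i h hz
    have : i = j := Nat.eq_of_beq_eq_true h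
    rwa [← this]
  | cons t1 t2 t3 t4 t5 t6 rest ih =>
    intro i h hz
    have h' := band_true.1 h
    refine ih _ h'.2 fun k hk u0 u1 u2 w0 w1 w2 hu hw => ?_
    rcases Nat.lt_succ_iff_lt_or_eq.1 hk with hk | hk
    · exact hz k hk u0 u1 u2 w0 w1 w2 hu hw
    · subst hk
      exact nearChk_sound ax _ h'.1 hu hw

theorem subB_sound {A B : Box} (h : subB A B = true) {u0 u1 u2 : ℝ} (hu : InBox A u0 u1 u2) :
    InBox B u0 u1 u2 := by
  unfold subB at h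
  simp only [band_true, Nat.ble_eq] at h
  obtain ⟨a1, a2, a3, a4, a5, a6⟩ := h
  obtain ⟨b1, b2, b3, b4, b5, b6⟩ := hu
  exact ⟨(Nat.cast_le.2 a1).trans b1, b2.trans (Nat.cast_le.2 a2), (Nat.cast_le.2 a3).trans b3,
    b4.trans (Nat.cast_le.2 a4), (Nat.cast_le.2 a5).trans b5, b6.trans (Nat.cast_le.2 a6)⟩

theorem dist_le {l h : ℕ} {u : ℝ} (a : (l : ℝ) ≤ u) (b : u ≤ h) :
    (((l - 256 + (256 - h)) * (l - 256 + (256 - h)) : ℕ) : ℝ) ≤ (u - 256) ^ 2 := by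
  have hlh : l ≤ h := by exact_mod_cast a.trans b
  rcases le_total l 256 with c | c
  · rcases le_total h 256 with d | d
    · rw [Nat.sub_eq_zero_of_le c, Nat.zero_add]
      push_cast [Nat.cast_sub d]
      have : (h : ℝ) ≤ 256 := by exact_mod_cast d
      nlinarith
    · rw [Nat.sub_eq_zero_of_le c, Nat.sub_eq_zero_of_le d]
      simpa using sq_nonneg (u - 256)
  · rw [Nat.sub_eq_zero_of_le (c.trans hlh), Nat.add_zero]
    push_cast [Nat.cast_sub c]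
    have : (256 : ℝ) ≤ l := by exact_mod_cast c
    nlinarith

theorem prX_sound {X : Box} (h : prX X = true) {u0 u1 u2 : ℝ} (hu : InBox X u0 u1 u2) :
    ¬ (u0 - 256) ^ 2 + (u1 - 256) ^ 2 ≤ 16384 := by
  unfold prX at h
  simp only [Nat.ble_eq, Nat.add_eq, Nat.mul_eq, Nat.sub_eq] at h
  have a := dist_le hu.1 hu.2.1
  have b := dist_le hu.2.2.1 hu.2.2.2.1
  have c : ((16385 : ℕ) : ℝ) ≤ _ := Nat.cast_le.2 h
  rw [Nat.cast_add] at c
  simp only [Nat.cast_ofNat] at c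
  intro hh
  linarith

theorem prY_sound {pm : ℕ} {Y : Box} (h : prY pm Y = true) {w0 w1 w2 : ℝ}
    (hw : InBox Y w0 w1 w2) : ¬ NeedY pm w0 w1 w2 := by
  unfold prY at h
  simp only [band_true, bor_true, Nat.ble_eq, Nat.beq_eq] at h
  obtain ⟨b1, b2, b3, b4, b5, b6⟩ := hw
  rintro ⟨n0, n1, n2, n3⟩
  rcases h with ⟨p, h⟩ | ⟨p, h⟩ | ⟨p, h⟩ | ⟨p, h⟩
  · obtain ⟨c1, c2, c3, c4, c5, c6⟩ := n0 p
    rcases h with (h | h) | (h | h) | (h | h) <;>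
      (have h' := (Nat.cast_le (α := ℝ)).2 h; simp only [Nat.cast_ofNat] at h'; linarith)
  · have h' := (Nat.cast_le (α := ℝ)).2 h
    simp only [Nat.cast_ofNat] at h'
    linarith [n1 p]
  · have h' := (Nat.cast_le (α := ℝ)).2 h
    simp only [Nat.cast_ofNat] at h'
    linarith [n2 p]
  · have h' := (Nat.cast_le (α := ℝ)).2 h
    simp only [Nat.cast_ofNat] at h'
    linarith [n3 p]

variable {ax ay : Ax} {sg : Bool} {pm : ℕ}

theorem Good.x0 {l0 m h0 l1 h1 l2 h2 : ℕ} {Y : Box}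
    (a : Good ax ay sg pm ⟨l0, m, l1, h1, l2, h2⟩ Y) (b : Good ax ay sg pm ⟨m, h0, l1, h1, l2, h2⟩ Y) :
    Good ax ay sg pm ⟨l0, h0, l1, h1, l2, h2⟩ Y := by
  intro u0 u1 u2 w0 w1 w2 hu hw
  rcases le_total u0 m with c | c
  · exact a _ _ _ _ _ _ ⟨hu.1, c, hu.2.2⟩ hw
  · exact b _ _ _ _ _ _ ⟨c, hu.2⟩ hw

theorem Good.x1 {l0 h0 l1 m h1 l2 h2 : ℕ} {Y : Box}
    (a : Good ax ay sg pm ⟨l0, h0, l1, m, l2, h2⟩ Y) (b : Good ax ay sg pm ⟨l0, h0, m, h1, l2, h2⟩ Y) :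
    Good ax ay sg pm ⟨l0, h0, l1, h1, l2, h2⟩ Y := by
  intro u0 u1 u2 w0 w1 w2 hu hw
  rcases le_total u1 m with c | c
  · exact a _ _ _ _ _ _ ⟨hu.1, hu.2.1, hu.2.2.1, c, hu.2.2.2.2⟩ hw
  · exact b _ _ _ _ _ _ ⟨hu.1, hu.2.1, c, hu.2.2.2⟩ hw

theorem Good.y0 {l0 m h0 l1 h1 l2 h2 : ℕ} {X : Box}
    (a : Good ax ay sg pm X ⟨l0, m, l1, h1, l2, h2⟩) (b : Good ax ay sg pm X ⟨m, h0, l1, h1, l2, h2⟩) :
    Good ax ay sg pm X ⟨l0, h0, l1, h1, l2, h2⟩ := by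
  intro u0 u1 u2 w0 w1 w2 hu hw
  rcases le_total w0 m with c | c
  · exact a _ _ _ _ _ _ hu ⟨hw.1, c, hw.2.2⟩
  · exact b _ _ _ _ _ _ hu ⟨c, hw.2⟩

theorem Good.y1 {l0 h0 l1 m h1 l2 h2 : ℕ} {X : Box}
    (a : Good ax ay sg pm X ⟨l0, h0, l1, m, l2, h2⟩) (b : Good ax ay sg pm X ⟨l0, h0, m, h1, l2, h2⟩) :
    Good ax ay sg pm X ⟨l0, h0, l1, h1, l2, h2⟩ := by
  intro u0 u1 u2 w0 w1 w2 hu hw
  rcases le_total w1 m with c | c
  · exact a _ _ _ _ _ _ hu ⟨hw.1, hw.2.1, hw.2.2.1, c, hw.2.2.2.2⟩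
  · exact b _ _ _ _ _ _ hu ⟨hw.1, hw.2.1, c, hw.2.2.2⟩

theorem Good.y2 {l0 h0 l1 h1 l2 m h2 : ℕ} {X : Box}
    (a : Good ax ay sg pm X ⟨l0, h0, l1, h1, l2, m⟩) (b : Good ax ay sg pm X ⟨l0, h0, l1, h1, m, h2⟩) :
    Good ax ay sg pm X ⟨l0, h0, l1, h1, l2, h2⟩ := by
  intro u0 u1 u2 w0 w1 w2 hu hw
  rcases le_total w2 m with c | c
  · exact a _ _ _ _ _ _ hu ⟨hw.1, hw.2.1, hw.2.2.1, hw.2.2.2.1, hw.2.2.2.2.1, c⟩
  · exact b _ _ _ _ _ _ hu ⟨hw.1, hw.2.1, hw.2.2.1, hw.2.2.2.1, c, hw.2.2.2.2.2⟩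

theorem chk_sound {tab nz : ℕ} (hz : ZOK ax ay sg tab nz) (t : DT) :
    ∀ X Y : Box, chk ax ay sg pm tab nz t X Y = true → Good ax ay sg pm X Y := by
  induction t with
  | far n => intro X Y h u0 u1 u2 w0 w1 w2 hu hw _ _; exact farLeaf_sound ax ay sg X Y n h hu hw
  | inz i =>
    intro X Y h u0 u1 u2 w0 w1 w2 hu hw _ _
    have h1 := band_true.1 h
    have h2 := band_true.1 h1.2
    exact hz i (Nat.le_of_ble_eq_true h1.1) _ _ _ _ _ _ (subB_sound h2.1 hu) (subB_sound h2.2 hw)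
  | px => intro X Y h u0 u1 u2 w0 w1 w2 hu _ hn _; exact absurd hn (prX_sound h hu)
  | py => intro X Y h u0 u1 u2 w0 w1 w2 _ hw _ hn; exact absurd hn (prY_sound h hw)
  | x0 l r il ir =>
    rintro ⟨l0, h0, l1, h1, l2, h2⟩ Y h
    have h0' : force (Nat.shiftRight (Nat.add l0 h0) 1) (fun m =>
      band (chk ax ay sg pm tab nz l ⟨l0, m, l1, h1, l2, h2⟩ Y)
        (chk ax ay sg pm tab nz r ⟨m, h0, l1, h1, l2, h2⟩ Y)) = true := h
    rw [force_eq] at h0'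
    have h' := band_true.1 h0'
    exact Good.x0 (il _ _ h'.1) (ir _ _ h'.2)
  | x1 l r il ir =>
    rintro ⟨l0, h0, l1, h1, l2, h2⟩ Y h
    have h0' : force (Nat.shiftRight (Nat.add l1 h1) 1) (fun m =>
      band (chk ax ay sg pm tab nz l ⟨l0, h0, l1, m, l2, h2⟩ Y)
        (chk ax ay sg pm tab nz r ⟨l0, h0, m, h1, l2, h2⟩ Y)) = true := h
    rw [force_eq] at h0'
    have h' := band_true.1 h0'
    exact Good.x1 (il _ _ h'.1) (ir _ _ h'.2)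
  | y0 l r il ir =>
    rintro X ⟨l0, h0, l1, h1, l2, h2⟩ h
    have h0' : force (Nat.shiftRight (Nat.add l0 h0) 1) (fun m =>
      band (chk ax ay sg pm tab nz l X ⟨l0, m, l1, h1, l2, h2⟩)
        (chk ax ay sg pm tab nz r X ⟨m, h0, l1, h1, l2, h2⟩)) = true := h
    rw [force_eq] at h0'
    have h' := band_true.1 h0'
    exact Good.y0 (il _ _ h'.1) (ir _ _ h'.2)
  | y1 l r il ir =>
    rintro X ⟨l0, h0, l1, h1, l2, h2⟩ h
    have h0' : force (Nat.shiftRight (Nat.add l1 h1) 1) (fun m =>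
      band (chk ax ay sg pm tab nz l X ⟨l0, h0, l1, m, l2, h2⟩)
        (chk ax ay sg pm tab nz r X ⟨l0, h0, m, h1, l2, h2⟩)) = true := h
    rw [force_eq] at h0'
    have h' := band_true.1 h0'
    exact Good.y1 (il _ _ h'.1) (ir _ _ h'.2)
  | y2 l r il ir =>
    rintro X ⟨l0, h0, l1, h1, l2, h2⟩ h
    have h0' : force (Nat.shiftRight (Nat.add l2 h2) 1) (fun m =>
      band (chk ax ay sg pm tab nz l X ⟨l0, h0, l1, h1, l2, m⟩)
        (chk ax ay sg pm tab nz r X ⟨l0, h0, l1, h1, m, h2⟩)) = true := h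
    rw [force_eq] at h0'
    have h' := band_true.1 h0'
    exact Good.y2 (il _ _ h'.1) (ir _ _ h'.2)

end Pool.Agent.P.MP_f12b6c_an
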