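import Pool.Agent.P.MP_f12b6c_an.S4Poly

/-!
Naturality of `GE`, `GO` in the operations, and values with three formal derivatives.
-/

namespace Pool.Agent.P.MP_f12b6c_an

theorem GE_map {R S : Type} (φ : R → S) (ad mu sb : R → R → R) (sm : ℕ → R → R)
    (ad' mu' sb' : S → S → S) (sm' : ℕ → S → S)
    (h1 : ∀ a b, φ (ad a b) = ad' (φ a) (φ b)) (h2 : ∀ a b, φ (mu a b) = mu' (φ a) (φ b))
    (h3 : ∀ a b, φ (sb a b) = sb' (φ a) (φ b)) (h4 : ∀ k a, φ (sm k a) = sm' k (φ a))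
    (x0 x1 x2 x3 : R) :
    Ten.map φ (GE ad mu sb sm x0 x1 x2 x3) = GE ad' mu' sb' sm' (φ x0) (φ x1) (φ x2) (φ x3) := by
  simp only [GE, Ten.map, h1, h2, h3, h4]

theorem GO_map {R S : Type} (φ : R → S) (ad mu sb : R → R → R) (sm : ℕ → R → R)
    (ad' mu' sb' : S → S → S) (sm' : ℕ → S → S)
    (h1 : ∀ a b, φ (ad a b) = ad' (φ a) (φ b)) (h2 : ∀ a b, φ (mu a b) = mu' (φ a) (φ b))
    (h3 : ∀ a b, φ (sb a b) = sb' (φ a) (φ b)) (h4 : ∀ k a, φ (sm k a) = sm' k (φ a))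
    (x0 x1 x2 x3 : R) :
    Ten.map φ (GO ad mu sb sm x0 x1 x2 x3) = GO ad' mu' sb' sm' (φ x0) (φ x1) (φ x2) (φ x3) := by
  simp only [GO, Ten.map, h1, h2, h3, h4]

/-- A value together with three formal derivatives. -/
structure Tri (R : Type) where
  v : R
  d0 : R
  d1 : R
  d2 : R

/-- Componentwise binary operation (sum or difference). -/
def tad {R : Type} (ad : R → R → R) (f g : Tri R) : Tri R :=
  ⟨ad f.v g.v, ad f.d0 g.d0, ad f.d1 g.d1, ad f.d2 g.d2⟩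

/-- Multiple by a natural number. -/
def tsm {R : Type} (sm : ℕ → R → R) (k : ℕ) (f : Tri R) : Tri R :=
  ⟨sm k f.v, sm k f.d0, sm k f.d1, sm k f.d2⟩

/-- Product, by the Leibniz rule. -/
def tmu {R : Type} (ad mu : R → R → R) (f g : Tri R) : Tri R :=
  ⟨mu f.v g.v, ad (mu f.v g.d0) (mu f.d0 g.v), ad (mu f.v g.d1) (mu f.d1 g.v),
    ad (mu f.v g.d2) (mu f.d2 g.v)⟩

/-- `GE` with formal derivatives. -/
def GET {R : Type} (ad mu sb : R → R → R) (sm : ℕ → R → R) (X0 X1 X2 X3 : Tri R) :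
    Ten (Tri R) := GE (tad ad) (tmu ad mu) (tad sb) (tsm sm) X0 X1 X2 X3

/-- `GO` with formal derivatives. -/
def GOT {R : Type} (ad mu sb : R → R → R) (sm : ℕ → R → R) (X0 X1 X2 X3 : Tri R) :
    Ten (Tri R) := GO (tad ad) (tmu ad mu) (tad sb) (tsm sm) X0 X1 X2 X3

/-- `rho * (selected derivative) - u * value`, entrywise. -/
def KD {R : Type} (mu sb : R → R → R) (rho u : R) (sel : Tri R → R) (t : Ten (Tri R)) : Ten R :=
  Ten.map (fun e => sb (mu rho (sel e)) (mu u e.v)) t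

/-- `|x|⁸` times a directional derivative of `Hm`, for real numbers: `X i` holds the coordinate
`x i` and the `i`-th coordinates of three direction vectors, `sel` selects one direction. -/
noncomputable def KR (X0 X1 X2 X3 : Tri ℝ) (sel : Tri ℝ → ℝ) : Ten ℝ :=
  Ten.zip (fun e o => e + Real.sqrt (sq4 X0.v X1.v X2.v X3.v) * o)
    (KD (· * ·) (· - ·) (sq4 X0.v X1.v X2.v X3.v)
      (6 * (X0.v * sel X0 + X1.v * sel X1 + X2.v * sel X2 + X3.v * sel X3)) sel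
      (GET (· + ·) (· * ·) (· - ·) rsm X0 X1 X2 X3))
    (KD (· * ·) (· - ·) (sq4 X0.v X1.v X2.v X3.v)
      (5 * (X0.v * sel X0 + X1.v * sel X1 + X2.v * sel X2 + X3.v * sel X3)) sel
      (GOT (· + ·) (· * ·) (· - ·) rsm X0 X1 X2 X3))

end Pool.Agent.P.MP_f12b6c_an
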