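import Pool.Agent.P.MP_f12b6c_an.Touch

namespace Pool.Agent.P.MP_f12b6c_an

open Metric Set Filter Topology Matrix
open scoped RealInnerProductSpace

variable {n : ℕ}

lemma line_deriv {u : E n → ℝ} (hd : Differentiable ℝ u) (y e b : E n) (c t : ℝ) :
    HasDerivAt (fun t : ℝ => u (y + t • e) - (t * (c + ⟪b, y⟫) + t ^ 2 / 2 * ⟪b, e⟫))
      (fderiv ℝ u (y + t • e) e - (c + ⟪b, y + t • e⟫)) t := by
  have h1 : HasDerivAt (fun t : ℝ => y + t • e) e t := by
    simpa using ((hasDerivAt_id t).smul_const e).const_add y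
  have h2 := (hd (y + t • e)).hasFDerivAt.comp_hasDerivAt t h1
  have h3 := ((hasDerivAt_id t).mul_const (c + ⟪b, y⟫)).add
    (((hasDerivAt_pow 2 t).div_const 2).mul_const ⟪b, e⟫)
  refine (h2.sub h3).congr_deriv ?_
  simp [inner_add_right, inner_smul_right]; ring

lemma line_incr {u : E n → ℝ} (hd : Differentiable ℝ u) (y e b : E n) (c k h : ℝ) (hh : 0 ≤ h)
    (hk : ∀ t ∈ Icc (0 : ℝ) h, c + ⟪b, y + t • e⟫ + k ≤ fderiv ℝ u (y + t • e) e) :
    k * h ≤ u (y + h • e) - u y - (h * (c + ⟪b, y⟫) + h ^ 2 / 2 * ⟪b, e⟫) := by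
  have := (convex_Icc (0 : ℝ) h).mul_sub_le_image_sub_of_le_deriv
    (f := fun t : ℝ => u (y + t • e) - (t * (c + ⟪b, y⟫) + t ^ 2 / 2 * ⟪b, e⟫)) (C := k)
    (fun t _ => (line_deriv hd y e b c t).continuousAt.continuousWithinAt)
    (fun t _ => (line_deriv hd y e b c t).differentiableAt.differentiableWithinAt)
    (fun t ht => by
      rw [(line_deriv hd y e b c t).deriv]
      have := hk t (interior_subset ht)
      linarith) 0 (by simp [hh]) h (by simp [hh]) hh
  simp at this
  linarith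

/-- One-step strong minimum principle for a directional derivative minus an affine function. -/
lemma smp {lam Lam : ℝ} {F : Mat n → ℝ} {u : E n → ℝ} (hlam : 0 < lam) (hLam : lam ≤ Lam)
    (hF : UnifElliptic lam Lam F) (hu : IsViscSol F u) (h2 : ContDiffOn ℝ 2 u {0}ᶜ)
    (hd : Differentiable ℝ u) {e b y0 xs : E n} {c R1 ρ1 μ : ℝ} (he : e ≠ 0)
    (hsub : ball y0 R1 ⊆ ball 0 1) (hge : ∀ y ∈ ball y0 R1, c + ⟪b, y⟫ ≤ fderiv ℝ u y e)
    (hρ : 0 < ρ1) (hμ : 0 < μ) (hpos : ∀ y ∈ ball y0 ρ1, c + ⟪b, y⟫ + μ ≤ fderiv ℝ u y e)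
    (hx : xs ∈ ball y0 R1) : c + ⟪b, xs⟫ < fderiv ℝ u xs e := by
  have hen : 0 < ‖e‖ := norm_pos_iff.2 he
  have hx' : dist xs y0 < R1 := hx
  obtain ⟨R, hR1, hR2⟩ := exists_between hx'
  have hR0 : 0 < R := lt_of_le_of_lt dist_nonneg hR1
  set ρ := ρ1 / 2 with hρd
  have hρ0 : 0 < ρ := by positivity
  set a := Lam / (lam * ρ ^ 2) with had
  have hLam0 : 0 < Lam := by linarith
  have ha0 : 0 < a := by positivity
  set h0 := min (R1 - R) ρ / ‖e‖ with hh0
  have hh0p : 0 < h0 := div_pos (lt_min (by linarith) hρ0) hen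
  set m := μ * (Real.exp (-a * ‖xs - y0‖ ^ 2) - Real.exp (-a * R ^ 2)) with hm
  have hm0 : 0 < m := by
    refine mul_pos hμ (sub_pos.2 (Real.exp_lt_exp.2 ?_))
    rw [dist_eq_norm] at hR1
    have : ‖xs - y0‖ ^ 2 < R ^ 2 := by
      have := norm_nonneg (xs - y0); nlinarith
    nlinarith
  have key : ∀ h ∈ Ioo (0 : ℝ) h0,
      m * h ≤ u (xs + h • e) - u xs - (h * (c + ⟪b, xs⟫) + h ^ 2 / 2 * ⟪b, e⟫) := by
    intro h hh
    have hshift : ∀ t ∈ Icc (0 : ℝ) h, ∀ y : E n,
        dist (y + t • e) y0 < dist y y0 + min (R1 - R) ρ := by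
      intro t ht y
      have h1 : dist (y + t • e) y0 ≤ dist y y0 + t * ‖e‖ := by
        have := dist_triangle (y + t • e) y y0
        rw [dist_self_add_left, norm_smul, Real.norm_of_nonneg ht.1] at this
        linarith
      have h3 : t * ‖e‖ < min (R1 - R) ρ := (lt_div_iff₀ hen).1 (lt_of_le_of_lt ht.2 hh.2)
      linarith
    set φ : E n → ℝ := fun y => h * μ * Real.exp (-a * ‖y - y0‖ ^ 2) +
      ((h * c + h ^ 2 / 2 * ⟪b, e⟫ - h * μ * Real.exp (-a * R ^ 2)) + ⟪h • b, y⟫) with hφ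
    have hφc : ContDiff ℝ 2 φ := by
      have h1 : ContDiff ℝ 2 (fun y : E n => ‖y - y0‖ ^ 2) :=
        (contDiff_id.sub contDiff_const).norm_sq ℝ
      have h3 : ContDiff ℝ 2 (fun y : E n => ⟪h • b, y⟫) := contDiff_const.inner ℝ contDiff_id
      exact (contDiff_const.mul (contDiff_const.mul h1).exp).add (contDiff_const.add h3)
    have hW : ∀ y, u (y + h • e) - u y - φ y =
        u (y + h • e) - u y - (h * (c + ⟪b, y⟫) + h ^ 2 / 2 * ⟪b, e⟫)
          - h * μ * (Real.exp (-a * ‖y - y0‖ ^ 2) - Real.exp (-a * R ^ 2)) := by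
      intro y; simp only [hφ, real_inner_smul_left]; ring
    have hcont : Continuous (fun y => u (y + h • e) - u y - φ y) := by
      have := hd.continuous
      have := hφc.continuous
      fun_prop
    obtain ⟨p, hp, hpm⟩ := (isCompact_closedBall y0 R).exists_isMinOn
      ⟨y0, mem_closedBall_self hR0.le⟩ hcont.continuousOn
    have hp' : dist p y0 ≤ R := hp
    have hge0 : 0 ≤ u (p + h • e) - u p - φ p := by
      by_contra hneg
      push Not at hneg
      have hhμ : 0 < h * μ := mul_pos hh.1 hμ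
      have b0 : 0 * h ≤ _ := line_incr hd p e b c 0 h hh.1.le (fun t ht => by
        have := hshift t ht p
        have h4 := min_le_left (R1 - R) ρ
        simpa using hge (p + t • e) (mem_ball.2 (by linarith)))
      have hlt : dist p y0 < R := by
        refine lt_of_le_of_ne hp' fun heq => ?_
        rw [hW, ← dist_eq_norm, heq] at hneg
        simp at hneg b0
        linarith
      have hgt : ρ < dist p y0 := by
        by_contra hle
        push Not at hle
        have b1 : μ * h ≤ _ := line_incr hd p e b c μ h hh.1.le (fun t ht => by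
          have := hshift t ht p
          have h4 := min_le_right (R1 - R) ρ
          exact hpos (p + t • e) (mem_ball.2 (by linarith)))
        rw [hW] at hneg
        have e1 : Real.exp (-a * ‖p - y0‖ ^ 2) ≤ 1 :=
          Real.exp_le_one_iff.2 (by nlinarith [sq_nonneg ‖p - y0‖])
        have e2 := Real.exp_pos (-a * R ^ 2)
        nlinarith
      have hloc : IsLocalMin (fun y => u (y + h • e) - u y - φ y) p :=
        hpm.isLocalMin (closedBall_mem_nhds_of_mem (mem_ball.2 hlt))
      have hK : 0 < h * μ * Real.exp (-a * ‖p - y0‖ ^ 2) := mul_pos hhμ (Real.exp_pos _)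
      have ht := touch hlam hLam hF hu h2 (x := p) (a := h • e) (z := p - y0)
        (smul_ne_zero hh.1.ne' he) (hsub (mem_ball.2 (by linarith)))
        (hsub (mem_ball.2 (by
          have := hshift h ⟨hh.1.le, le_rfl⟩ p
          have h4 := min_le_left (R1 - R) ρ
          linarith))) hφc.contDiffAt (by positivity) (by positivity)
        (hess_barrier y0 (h • b) (h * μ) a _ p) hloc
      set K := h * μ * Real.exp (-a * ‖p - y0‖ ^ 2)
      rw [dist_eq_norm] at hgt
      have s1 : ρ ^ 2 < ‖p - y0‖ ^ 2 := by nlinarith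
      have s2 : a * (lam * ρ ^ 2) = Lam := div_mul_cancel₀ _ (by positivity)
      have s3 : K * (2 * a) * (2 * a * lam * ‖p - y0‖ ^ 2) ≤ K * (2 * a) * Lam := by nlinarith
      have s4 := le_of_mul_le_mul_left s3 (by positivity)
      have s5 : a * lam * ρ ^ 2 < a * lam * ‖p - y0‖ ^ 2 :=
        mul_lt_mul_of_pos_left s1 (by positivity)
      nlinarith
    have hxs : u (p + h • e) - u p - φ p ≤ u (xs + h • e) - u xs - φ xs :=
      hpm (mem_closedBall.2 hR1.le)
    rw [hW xs] at hxs
    rw [hm]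
    nlinarith
  have hder := (line_deriv hd xs e b c 0).tendsto_slope_zero_right
  have hle : m ≤ fderiv ℝ u (xs + (0 : ℝ) • e) e - (c + ⟪b, xs + (0 : ℝ) • e⟫) := by
    refine ge_of_tendsto hder ?_
    filter_upwards [Ioo_mem_nhdsGT hh0p] with t ht
    have := key t ht
    simp only [zero_add, zero_smul, add_zero, zero_mul, smul_eq_mul]
    rw [inv_mul_eq_div, le_div_iff₀ ht.1]
    simp only [ne_eq, OfNat.ofNat_ne_zero, not_false_eq_true, zero_pow, zero_div, zero_mul]
    linarith
  simp only [zero_smul, add_zero] at hle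
  linarith

end Pool.Agent.P.MP_f12b6c_an
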