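import Pool.Agent.P.MP_f12b6c_an.T3Defs

/-! Algebra of the reduced Hessian. -/

namespace Pool.Agent.P.MP_f12b6c_an

open Matrix

private lemma t3a_grad_cd {p : E 3 → ℝ} (hp : ContDiff ℝ 3 p) (i : Fin 3) :
    ContDiff ℝ 1 (fun y => grad p y i) := by
  have h1 : ContDiff ℝ 1 (fderiv ℝ p) := hp.fderiv_right (m := 1) (by norm_num)
  exact h1.clm_apply contDiff_const

private lemma t3a_hess_cd {p : E 3 → ℝ} (hp : ContDiff ℝ 3 p) (i j : Fin 3) :
    ContDiff ℝ 1 (fun y => hess p y i j) := by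
  have h1 : ContDiff ℝ 2 (fderiv ℝ p) := hp.fderiv_right (m := 2) (by norm_num)
  have h2 : ContDiff ℝ 1 (fderiv ℝ (fderiv ℝ p)) := h1.fderiv_right (m := 1) (by norm_num)
  exact (h2.clm_apply contDiff_const).clm_apply contDiff_const

private lemma t3a_dot {Z : Type} [NormedAddCommGroup Z] [NormedSpace ℝ Z] {z0 : Z}
    {a b : Z → Fin 3 → ℝ} (ha : ∀ i, ContDiffAt ℝ 1 (fun z => a z i) z0)
    (hb : ∀ i, ContDiffAt ℝ 1 (fun z => b z i) z0) :
    ContDiffAt ℝ 1 (fun z => a z ⬝ᵥ b z) z0 := by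
  simp only [dotProduct]
  exact ContDiffAt.sum fun i _ => (ha i).mul (hb i)

private lemma t3a_mv {Z : Type} [NormedAddCommGroup Z] [NormedSpace ℝ Z] {z0 : Z}
    {A : Z → Mat 3} {b : Z → Fin 3 → ℝ} (hA : ∀ i j, ContDiffAt ℝ 1 (fun z => A z i j) z0)
    (hb : ∀ i, ContDiffAt ℝ 1 (fun z => b z i) z0) (i : Fin 3) :
    ContDiffAt ℝ 1 (fun z => (A z *ᵥ b z) i) z0 :=
  t3a_dot (a := fun z => A z i) (hA i) hb

private lemma t3a_sph_cd {Z : Type} [NormedAddCommGroup Z] [NormedSpace ℝ Z] {z0 : Z}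
    {X H : Z → Mat 3} (R : Mat 3) {v : Z → ℝ} {G y : Z → Fin 3 → ℝ}
    (hX : ∀ i j, ContDiffAt ℝ 1 (fun z => X z i j) z0)
    (hH : ∀ i j, ContDiffAt ℝ 1 (fun z => H z i j) z0)
    (hv : ContDiffAt ℝ 1 v z0)
    (hG : ∀ i, ContDiffAt ℝ 1 (fun z => G z i) z0)
    (hy : ∀ i, ContDiffAt ℝ 1 (fun z => y z i) z0)
    (hd : 1 + y z0 ⬝ᵥ X z0 *ᵥ y z0 ≠ 0) (i j : Fin 3) :
    ContDiffAt ℝ 1 (fun z => sph (X z) R (v z) (G z) (H z) (y z) i j) z0 := by
  have hXy := t3a_mv hX hy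
  have hw : ∀ i, ContDiffAt ℝ 1 (fun z => (y z + X z *ᵥ y z) i) z0 := fun i => (hy i).add (hXy i)
  have hRy : ∀ i, ContDiffAt ℝ 1 (fun z => (R *ᵥ y z) i) z0 :=
    t3a_mv (A := fun _ => R) (fun _ _ => contDiffAt_const) hy
  have hD : ContDiffAt ℝ 1 (fun z => 1 + y z ⬝ᵥ X z *ᵥ y z) z0 :=
    contDiffAt_const.add (t3a_dot hy hXy)
  have hC : ContDiffAt ℝ 1 (fun z => sphC (X z) R (v z) (G z) (y z)) z0 := by
    unfold sphC
    exact (((contDiffAt_const.mul hv).sub (t3a_dot hG hw)).add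
      ((t3a_dot hy hRy).div_const 2)).div hD hd
  have hE : ∀ i, ContDiffAt ℝ 1 (fun z => sphE (X z) R (v z) (G z) (H z) (y z) i) z0 := by
    intro i
    have h1 : ContDiffAt ℝ 1 (fun z => ((X z)ᵀ *ᵥ G z) i) z0 :=
      t3a_mv (A := fun z => (X z)ᵀ) (fun i j => hX j i) hG i
    have h2 : ContDiffAt ℝ 1 (fun z => (H z *ᵥ (y z + X z *ᵥ y z)) i) z0 := t3a_mv hH hw i
    have h3 : ContDiffAt ℝ 1 (fun z => ((X z + (X z)ᵀ) *ᵥ y z) i) z0 :=
      t3a_mv (A := fun z => X z + (X z)ᵀ) (fun i j => (hX i j).add (hX j i)) hy i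
    exact ((((hG i).sub h1).sub h2).add (hRy i)).sub (hC.mul h3)
  have h1 : ContDiffAt ℝ 1 (fun z => 1 / (1 + y z ⬝ᵥ X z *ᵥ y z)) z0 :=
    contDiffAt_const.div hD hd
  have h2 : ContDiffAt ℝ 1 (fun z => ((y z + X z *ᵥ y z) ⬝ᵥ
      sphE (X z) R (v z) (G z) (H z) (y z)) / (1 + y z ⬝ᵥ X z *ᵥ y z) ^ 2) z0 :=
    (t3a_dot hw hE).div (hD.pow 2) (pow_ne_zero 2 hd)
  exact (((hH i j).add (hC.mul (contDiffAt_const (c := (1 : Mat 3) i j)))).add
    (h1.mul (((hy i).mul (hE j)).add ((hE i).mul (hy j))))).sub (h2.mul ((hy i).mul (hy j)))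

theorem Mt_contDiffAt {k r1 r2 : ℝ} (hk : 0 < k) (hk1 : k < 1) {p : E 3 → ℝ}
    (hp : ContDiff ℝ 3 p) {y : E 3} (hy : ‖y‖ ≤ 1) (i j : Fin 3) :
    ContDiffAt ℝ 1 (fun z : ℝ × E 3 => Mt k z.1 r1 r2 p z.2 i j) (0, y) := by
  unfold Mt
  refine t3a_sph_cd (X := fun z : ℝ × E 3 => gen k z.1) (H := fun z => hess p z.2) (cro r1 r2)
    (v := fun z => p z.2) (G := fun z => grad p z.2) (y := fun z => z.2.ofLp) ?_ ?_ ?_ ?_ ?_ ?_ i j
  · intro i j
    fin_cases i <;> fin_cases j <;> simp [gen] <;> fun_prop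
  · intro i j
    exact ((t3a_hess_cd hp i j).comp contDiff_snd).contDiffAt
  · exact ((hp.of_le (by norm_num)).comp contDiff_snd).contDiffAt
  · intro i
    exact ((t3a_grad_cd hp i).comp contDiff_snd).contDiffAt
  · intro i
    fun_prop
  · have h1 : ‖y‖ ^ 2 ≤ 1 := by nlinarith [norm_nonneg y]
    rw [EuclideanSpace.real_norm_sq_eq, Fin.sum_univ_three] at h1
    have h2 : (1 : ℝ) + y.ofLp ⬝ᵥ gen k 0 *ᵥ y.ofLp = 1 + k * (y.ofLp 1 * y.ofLp 2) := by
      simp [gen, dotProduct, mulVec, Fin.sum_univ_three]; ring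
    change (1 : ℝ) + y.ofLp ⬝ᵥ gen k 0 *ᵥ y.ofLp ≠ 0
    rw [h2]
    have h3 : -1 ≤ y.ofLp 1 * y.ofLp 2 := by
      nlinarith [sq_nonneg (y.ofLp 1 + y.ofLp 2), sq_nonneg (y.ofLp 0)]
    nlinarith

theorem norm_sigE (y : E 3) : ‖sigE y‖ = ‖y‖ := by
  rw [EuclideanSpace.norm_eq, EuclideanSpace.norm_eq]
  simp [sigE, Fin.sum_univ_three]

theorem sigE_sigE (y : E 3) : sigE (sigE y) = y := by
  ext i
  fin_cases i <;> simp [sigE]

/-- The half turn as a continuous linear map. -/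
private noncomputable def t3a_S : E 3 →L[ℝ] E 3 :=
  Matrix.toEuclideanCLM (n := Fin 3) (𝕜 := ℝ) sig

private lemma t3a_S_apply (y : E 3) : t3a_S y = sigE y := by
  ext i
  have : (t3a_S y).ofLp = sig *ᵥ y.ofLp := rfl
  rw [this]
  fin_cases i <;> simp [sigE, sig, mulVec, dotProduct, Fin.sum_univ_three]

private lemma t3a_fderiv_sig {p : E 3 → ℝ} (hp : ContDiff ℝ 2 p) (ho : ∀ y, p (sigE y) = -p y)
    (y : E 3) : fderiv ℝ p y = -((fderiv ℝ p (t3a_S y)).comp t3a_S) := by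
  have hd : Differentiable ℝ p := hp.differentiable (by norm_num)
  have e : p = fun y => -p (t3a_S y) := by
    funext y; rw [t3a_S_apply, ho]; ring
  have h1 : HasFDerivAt (fun y => -p (t3a_S y)) (-((fderiv ℝ p (t3a_S y)).comp t3a_S)) y :=
    ((hd (t3a_S y)).hasFDerivAt.comp y t3a_S.hasFDerivAt).neg
  rw [← e] at h1
  exact h1.fderiv

private lemma t3a_fderiv2_sig {p : E 3 → ℝ} (hp : ContDiff ℝ 2 p) (ho : ∀ y, p (sigE y) = -p y)
    (y a b : E 3) : fderiv ℝ (fderiv ℝ p) y a b =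
      -fderiv ℝ (fderiv ℝ p) (t3a_S y) (t3a_S a) (t3a_S b) := by
  have hd : Differentiable ℝ (fderiv ℝ p) :=
    (hp.fderiv_right (m := 1) (by norm_num)).differentiable (by norm_num)
  have e : (fun y => fderiv ℝ p y b) = fun y => -fderiv ℝ p (t3a_S y) (t3a_S b) := by
    funext y; rw [t3a_fderiv_sig hp ho y]; simp
  have h1 : HasFDerivAt (fun y => fderiv ℝ p y b)
      ((fderiv ℝ (fderiv ℝ p) y).flip b) y := by
    simpa using (hd y).hasFDerivAt.clm_apply (hasFDerivAt_const b y)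
  have h2 : HasFDerivAt (fun y => fderiv ℝ p (t3a_S y) (t3a_S b))
      (((fderiv ℝ (fderiv ℝ p) (t3a_S y)).comp t3a_S).flip (t3a_S b)) y := by
    simpa using ((hd (t3a_S y)).hasFDerivAt.comp y t3a_S.hasFDerivAt).clm_apply
      (hasFDerivAt_const (t3a_S b) y)
  have h3 := h2.neg
  have h4 : HasFDerivAt (fun y => fderiv ℝ p y b)
      (-(((fderiv ℝ (fderiv ℝ p) (t3a_S y)).comp t3a_S).flip (t3a_S b))) y := by
    rw [e]; exact h3
  have h5 := congrArg (fun L : E 3 →L[ℝ] ℝ => L a) (h1.unique h4)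
  simpa using h5

/-- The signs of the half turn. -/
private def t3a_s : Fin 3 → ℝ := ![1, -1, -1]

private lemma t3a_S_single (i : Fin 3) :
    t3a_S (EuclideanSpace.single i (1 : ℝ)) = t3a_s i • EuclideanSpace.single i (1 : ℝ) := by
  rw [t3a_S_apply]
  ext j
  fin_cases i <;> fin_cases j <;> simp [sigE, t3a_s]

private lemma t3a_grad_sig {p : E 3 → ℝ} (hp : ContDiff ℝ 2 p) (ho : ∀ y, p (sigE y) = -p y)
    (y : E 3) : grad p (sigE y) = fun i => -(t3a_s i * grad p y i) := by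
  funext i
  unfold grad
  rw [t3a_fderiv_sig hp ho (sigE y), t3a_S_apply (sigE y), sigE_sigE]
  simp [t3a_S_single]

private lemma t3a_hess_sig {p : E 3 → ℝ} (hp : ContDiff ℝ 2 p) (ho : ∀ y, p (sigE y) = -p y)
    (y : E 3) : hess p (sigE y) = Matrix.of fun i j => -(t3a_s i * t3a_s j * hess p y i j) := by
  ext i j
  simp only [hess, of_apply]
  rw [t3a_fderiv2_sig hp ho (sigE y), t3a_S_apply (sigE y), sigE_sigE, t3a_S_single,
    t3a_S_single]
  simp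
  ring

private lemma t3a_sph_sig (k m r1 r2 v : ℝ) (G y : Fin 3 → ℝ) (H : Mat 3) :
    sph (gen k m) (cro r1 r2) (-v) (fun i => -(t3a_s i * G i))
      (Matrix.of fun i j => -(t3a_s i * t3a_s j * H i j)) (fun i => t3a_s i * y i) =
      -(sig * sph (gen k m) (cro r1 r2) v G H y * sig) := by
  have hd : (fun i => t3a_s i * y i) ⬝ᵥ gen k m *ᵥ (fun i => t3a_s i * y i) =
      y ⬝ᵥ gen k m *ᵥ y := by
    simp [gen, dotProduct, mulVec, Fin.sum_univ_three, t3a_s]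
  have hC : sphC (gen k m) (cro r1 r2) (-v) (fun i => -(t3a_s i * G i)) (fun i => t3a_s i * y i) =
      -sphC (gen k m) (cro r1 r2) v G y := by
    unfold sphC
    rw [hd, ← neg_div]
    congr 1
    simp [gen, cro, dotProduct, mulVec, Fin.sum_univ_three, t3a_s]
    ring
  have hE : sphE (gen k m) (cro r1 r2) (-v) (fun i => -(t3a_s i * G i))
      (Matrix.of fun i j => -(t3a_s i * t3a_s j * H i j)) (fun i => t3a_s i * y i) =
      fun i => -(t3a_s i * sphE (gen k m) (cro r1 r2) v G H y i) := by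
    unfold sphE
    rw [hC]
    generalize sphC (gen k m) (cro r1 r2) v G y = c
    funext i
    simp only [Pi.sub_apply, Pi.add_apply, Pi.smul_apply, mulVec, dotProduct, Fin.sum_univ_three,
      transpose_apply, Matrix.add_apply, of_apply, smul_eq_mul]
    fin_cases i <;> simp [gen, cro, t3a_s] <;> ring
  unfold sph
  rw [hC, hE, hd]
  generalize sphC (gen k m) (cro r1 r2) v G y = c
  generalize sphE (gen k m) (cro r1 r2) v G H y = e
  have hw : ((fun i => t3a_s i * y i) + gen k m *ᵥ (fun i => t3a_s i * y i)) ⬝ᵥ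
      (fun i => -(t3a_s i * e i)) = -((y + gen k m *ᵥ y) ⬝ᵥ e) := by
    simp [gen, dotProduct, Fin.sum_univ_three, t3a_s]
    ring
  rw [hw, neg_div]
  generalize ((y + gen k m *ᵥ y) ⬝ᵥ e) / (1 + y ⬝ᵥ gen k m *ᵥ y) ^ 2 = b
  generalize 1 / (1 + y ⬝ᵥ gen k m *ᵥ y) = a
  ext i j
  simp only [Matrix.mul_apply, Fin.sum_univ_three, Matrix.neg_apply, Matrix.add_apply,
    Matrix.sub_apply, Matrix.smul_apply, vecMulVec_apply, of_apply, smul_eq_mul]
  fin_cases i <;> fin_cases j <;> simp [sig, t3a_s] <;> ring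

theorem Mt_sig (k m r1 r2 : ℝ) {p : E 3 → ℝ} (hp : ContDiff ℝ 2 p) (ho : ∀ y, p (sigE y) = -p y)
    (y : E 3) : Mt k m r1 r2 p (sigE y) = -(sig * Mt k m r1 r2 p y * sig) := by
  unfold Mt
  have hy : (sigE y).ofLp = fun i => t3a_s i * y.ofLp i := by
    funext i
    fin_cases i <;> simp [sigE, t3a_s]
  rw [ho, t3a_grad_sig hp ho, t3a_hess_sig hp ho, hy]
  exact t3a_sph_sig k m r1 r2 (p y) (grad p y) y.ofLp (hess p y)

theorem prof_contDiff (k m r1 r2 : ℝ) {p : E 3 → ℝ} (hp : ContDiff ℝ 2 p) :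
    ContDiff ℝ 2 (prof k m r1 r2 p) := by
  unfold prof
  fun_prop

/-- The linear form `a y₁ - b y₂`. -/
private noncomputable def t3a_l (a b : ℝ) : E 3 →L[ℝ] ℝ :=
  a • EuclideanSpace.proj (1 : Fin 3) - b • EuclideanSpace.proj (2 : Fin 3)

/-- The derivative of the quadratic form, as a bilinear map. -/
private noncomputable def t3a_B (a b : ℝ) : E 3 →L[ℝ] E 3 →L[ℝ] ℝ :=
  (EuclideanSpace.proj (0 : Fin 3) : E 3 →L[ℝ] ℝ).smulRight (t3a_l a b)
    + (t3a_l a b).smulRight (EuclideanSpace.proj (0 : Fin 3) : E 3 →L[ℝ] ℝ)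

private lemma t3a_Q_deriv (a b : ℝ) (y : E 3) :
    HasFDerivAt (fun y : E 3 => y 0 * (a * y 1 - b * y 2)) (t3a_B a b y) y := by
  have h := (EuclideanSpace.proj (0 : Fin 3) : E 3 →L[ℝ] ℝ).hasFDerivAt (x := y) |>.mul
    ((t3a_l a b).hasFDerivAt (x := y))
  exact h

private lemma t3a_fderiv_prof (k m r1 r2 : ℝ) {p : E 3 → ℝ} (hp : ContDiff ℝ 2 p) :
    fderiv ℝ (prof k m r1 r2 p) = fun y => fderiv ℝ p y + t3a_B (r2 / m) (r1 / k) y := by
  funext y
  have hd : Differentiable ℝ p := hp.differentiable (by norm_num)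
  exact ((hd y).hasFDerivAt.add (t3a_Q_deriv (r2 / m) (r1 / k) y)).fderiv

private lemma t3a_grad_prof (k m r1 r2 : ℝ) {p : E 3 → ℝ} (hp : ContDiff ℝ 2 p) (y : E 3) :
    grad (prof k m r1 r2 p) y = grad p y + cro (r2 / m) (-(r1 / k)) *ᵥ y.ofLp := by
  funext i
  unfold grad
  rw [t3a_fderiv_prof k m r1 r2 hp]
  fin_cases i <;> simp [t3a_B, t3a_l, cro, dotProduct, Fin.sum_univ_three] <;> ring

private lemma t3a_hess_prof (k m r1 r2 : ℝ) {p : E 3 → ℝ} (hp : ContDiff ℝ 2 p) (y : E 3) :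
    hess (prof k m r1 r2 p) y = hess p y + cro (r2 / m) (-(r1 / k)) := by
  have hd : Differentiable ℝ (fderiv ℝ p) :=
    (hp.fderiv_right (m := 1) (by norm_num)).differentiable (by norm_num)
  have h : fderiv ℝ (fderiv ℝ (prof k m r1 r2 p)) y =
      fderiv ℝ (fderiv ℝ p) y + t3a_B (r2 / m) (r1 / k) := by
    rw [t3a_fderiv_prof k m r1 r2 hp]
    exact ((hd y).hasFDerivAt.add (t3a_B (r2 / m) (r1 / k)).hasFDerivAt).fderiv
  ext i j
  simp only [hess, of_apply, Matrix.add_apply]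
  rw [h]
  fin_cases i <;> fin_cases j <;> simp [t3a_B, t3a_l, cro]

theorem sph_prof {k m : ℝ} (hk : k ≠ 0) (hm : m ≠ 0) (r1 r2 : ℝ) {p : E 3 → ℝ}
    (hp : ContDiff ℝ 2 p) (y : E 3) :
    sph (gen k m) 0 (prof k m r1 r2 p y) (grad (prof k m r1 r2 p) y) (hess (prof k m r1 r2 p) y)
      y.ofLp = Mt k m r1 r2 p y + cro (r2 / m) (-(r1 / k)) := by
  rw [t3a_grad_prof k m r1 r2 hp, t3a_hess_prof k m r1 r2 hp]
  unfold Mt prof
  generalize p y = v
  generalize grad p y = G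
  generalize hess p y = H
  have hC : sphC (gen k m) 0 (v + y 0 * (r2 / m * y 1 - r1 / k * y 2))
      (G + cro (r2 / m) (-(r1 / k)) *ᵥ y.ofLp) y.ofLp = sphC (gen k m) (cro r1 r2) v G y.ofLp := by
    unfold sphC
    congr 1
    simp [gen, cro, dotProduct, mulVec, Fin.sum_univ_three]
    field_simp
    ring
  have hE : sphE (gen k m) 0 (v + y 0 * (r2 / m * y 1 - r1 / k * y 2))
      (G + cro (r2 / m) (-(r1 / k)) *ᵥ y.ofLp) (H + cro (r2 / m) (-(r1 / k))) y.ofLp =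
      sphE (gen k m) (cro r1 r2) v G H y.ofLp := by
    unfold sphE
    rw [hC]
    generalize sphC (gen k m) (cro r1 r2) v G y.ofLp = c
    funext i
    simp only [Pi.sub_apply, Pi.add_apply, Pi.smul_apply, mulVec, dotProduct, Fin.sum_univ_three,
      transpose_apply, Matrix.add_apply, smul_eq_mul]
    fin_cases i <;> simp [gen, cro] <;> field_simp <;> ring
  unfold sph
  rw [hC, hE]
  abel

end Pool.Agent.P.MP_f12b6c_an
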