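import Pool.Agent.P.MP_f12b6c_an.T3Gauge

/-! All pairs of Hessians. -/

namespace Pool.Agent.P.MP_f12b6c_an

open Matrix

variable {k r1 r2 T c0 : ℝ} {p : E 3 → ℝ}

private lemma t3a_B (m t : ℝ) :
    (1 + t • gen k m : Mat 3) = !![1, 0, 0; 0, 1, -(t * m); 0, t * k, 1] := by
  ext i j; fin_cases i <;> fin_cases j <;> simp [gen]

private lemma t3a_back {m t K : ℝ} (hk : 0 < k) (hm : 0 < m) (ht : k * m * t ^ 2 ≤ 1) {N : Mat 3}
    (h : Seen K ((1 + t • gen k m)ᵀ * N * (1 + t • gen k m))) :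
    Seen (K * (3 + k / m + m / k) ^ 2) N := by
  obtain ⟨n, hn⟩ : ∃ n, n = 1 + k * m * t ^ 2 := ⟨_, rfl⟩
  have hn1 : 1 ≤ n := by rw [hn]; exact le_add_of_nonneg_right (by positivity)
  have hn0 : n ≠ 0 := by linarith
  have h1 : (t * m) ^ 2 ≤ m / k := by
    rw [le_div_iff₀ hk]; nlinarith [mul_le_mul_of_nonneg_left ht hm.le]
  have h2 : (t * k) ^ 2 ≤ k / m := by
    rw [le_div_iff₀ hm]; nlinarith [mul_le_mul_of_nonneg_left ht hk.le]
  have hd : ∀ x : ℝ, (x / n) ^ 2 ≤ x ^ 2 := fun x => by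
    rw [div_pow]; exact div_le_self (sq_nonneg x) (one_le_pow₀ hn1)
  have hB := t3a_B (k := k) m t
  have hg : (!![1, 0, 0; 0, 1 / n, t * m / n; 0, -(t * k / n), 1 / n] : Mat 3) *
      (1 + t • gen k m) = 1 := by
    rw [hB]
    ext i j
    fin_cases i <;> fin_cases j <;> simp [Matrix.mul_apply, Fin.sum_univ_three] <;>
      field_simp <;> (try rw [hn]) <;> ring
  have h3 := h.congr (C := 3 + k / m + m / k) hg
    (by
      simp only [Fin.sum_univ_three]
      simp only [of_apply, cons_val', cons_val_zero, cons_val_one, cons_val_two, cons_val_fin_one,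
        Nat.succ_eq_add_one, Nat.reduceAdd, tail_cons, head_cons, neg_sq, head_fin_const]
      have := hd 1
      have := hd (t * m)
      have := hd (t * k)
      linarith)
    (by
      rw [hB]
      simp only [Fin.sum_univ_three]
      simp only [of_apply, cons_val', cons_val_zero, cons_val_one, cons_val_two, cons_val_fin_one,
        Nat.succ_eq_add_one, Nat.reduceAdd, tail_cons, head_cons, neg_sq, head_fin_const]
      linarith)
  have hg' := mul_eq_one_comm.1 hg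
  generalize (!![1, 0, 0; 0, 1 / n, t * m / n; 0, -(t * k / n), 1 / n] : Mat 3) = g at h3 hg'
  generalize (1 + t • gen k m : Mat 3) = B at h3 hg'
  have h4 : gᵀ * (Bᵀ * N * B) * g = (B * g)ᵀ * N * (B * g) := by
    simp only [transpose_mul, Matrix.mul_assoc]
  rwa [h4, hg', transpose_one, Matrix.one_mul, Matrix.mul_one] at h3

private lemma t3a_cay {m c τ : ℝ} (hc : 0 ≤ c) (h : c ^ 2 + k * m * τ ^ 2 = 1) :
    k * m * (-τ / (1 + c)) ^ 2 ≤ 1 ∧
      ell k m c τ * (1 + (-τ / (1 + c)) • gen k m) = 1 - (-τ / (1 + c)) • gen k m := by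
  have h0 : 0 < 1 + c := by linarith
  constructor
  · rw [div_pow, ← mul_div_assoc, div_le_one (by positivity)]
    nlinarith
  · ext i j
    fin_cases i <;> fin_cases j <;> simp [ell, gen, Matrix.mul_apply, Fin.sum_univ_three] <;>
      field_simp <;> nlinarith

private lemma t3a_sub {m : ℝ} (hk : k ≠ 0) (hm : m ≠ 0) (t : ℝ) :
    (1 - t • gen k m)ᵀ * cro (r2 / m) (-(r1 / k)) * (1 - t • gen k m) -
      (1 + t • gen k m)ᵀ * cro (r2 / m) (-(r1 / k)) * (1 + t • gen k m) = (2 * t) • cro r1 r2 := by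
  ext i j
  fin_cases i <;> fin_cases j <;> simp [cro, gen, Matrix.mul_apply, Fin.sum_univ_three] <;>
    field_simp <;> ring

private lemma t3a_add (m a b t : ℝ) :
    (1 - t • gen k m)ᵀ * cro a b * (1 - t • gen k m) +
      (1 + t • gen k m)ᵀ * cro a b * (1 + t • gen k m) = (2 : ℝ) • cro a b := by
  ext i j
  fin_cases i <;> fin_cases j <;> simp [cro, gen, Matrix.mul_apply, Fin.sum_univ_three] <;> ring

private lemma t3a_ss : sig * sig = 1 := by
  ext i j
  fin_cases i <;> fin_cases j <;> simp [sig, Matrix.mul_apply, Fin.sum_univ_three]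

private lemma t3a_sT : sigᵀ = sig := by
  ext i j
  fin_cases i <;> fin_cases j <;> simp [sig]

private lemma t3a_scro (a b : ℝ) : sig * cro a b * sig = -cro a b := by
  ext i j
  fin_cases i <;> fin_cases j <;> simp [sig, cro, Matrix.mul_apply, Fin.sum_univ_three]

private lemma t3a_sconj (m t : ℝ) (M : Mat 3) :
    sig * ((1 + t • gen k m)ᵀ * (sig * M * sig) * (1 + t • gen k m)) * sig =
      (1 + t • gen k m)ᵀ * M * (1 + t • gen k m) := by
  have h1 : sig * (1 + t • gen k m) * sig = 1 + t • gen k m := by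
    rw [t3a_B]
    ext i j
    fin_cases i <;> fin_cases j <;> simp [sig, Matrix.mul_apply, Fin.sum_univ_three]
  have h2 : sig * (1 + t • gen k m)ᵀ * sig = (1 + t • gen k m)ᵀ := by
    have := congrArg transpose h1
    rwa [transpose_mul, transpose_mul, t3a_sT, ← Matrix.mul_assoc] at this
  generalize (1 + t • gen k m : Mat 3) = B at h1 h2
  calc sig * (Bᵀ * (sig * M * sig) * B) * sig = sig * Bᵀ * sig * M * (sig * B * sig) := by
        simp only [Matrix.mul_assoc]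
    _ = _ := by rw [h1, h2]

private lemma t3a_flip (m : ℝ) (hp : ContDiff ℝ 2 p) (ho : ∀ y, p (sigE y) = -p y) (u v : E 3)
    (t : ℝ) : sigᵀ * Nm k m r1 r2 p (sigE v) (sigE u) (-t) * sig = Nm k m r1 r2 p u v t := by
  have h1 := t3a_sconj (k := k) m t (Mt k m r1 r2 p v)
  have h2 := t3a_sconj (k := k) m (-t) (Mt k m r1 r2 p u)
  have h3 := t3a_scro r1 r2
  rw [t3a_sT, Nm, Nm, Mt_sig k m r1 r2 hp ho, Mt_sig k m r1 r2 hp ho]
  rw [neg_smul, ← sub_eq_add_neg] at h2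
  rw [neg_smul, sub_neg_eq_add, ← sub_eq_add_neg, ← h1, ← h2]
  simp only [Matrix.mul_add, Matrix.add_mul, Matrix.mul_sub, Matrix.sub_mul,
    Matrix.neg_mul, Matrix.mul_smul, Matrix.smul_mul, h3, mul_neg, neg_smul, smul_neg, neg_neg]
  abel

/-- All pairs. -/
theorem Model.seen_all (h : Model k r1 r2 T c0 p) : ∃ m : ℝ, 0 < m ∧ m ≤ k ∧
    (∀ u v : E 3, ‖u‖ = 1 → ‖v‖ = 1 → u ≠ v → Mt k m r1 r2 p u ≠ Mt k m r1 r2 p v) ∧
    ∃ K : ℝ, ∀ u v : E 3, ‖u‖ = 1 → ‖v‖ = 1 → ∀ c τ : ℝ, c ^ 2 + k * m * τ ^ 2 = 1 →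
      Seen K ((ell k m c τ)ᵀ * (Mt k m r1 r2 p u + cro (r2 / m) (-(r1 / k))) * ell k m c τ
        - (Mt k m r1 r2 p v + cro (r2 / m) (-(r1 / k)))) := by
  obtain ⟨δ1, hδ1, K1, H1⟩ := h.seen_near
  obtain ⟨δ2, hδ2, H2⟩ := h.seen_far
  obtain ⟨δ3, hδ3, H3⟩ := h.seen_opp
  have hk := h.k_pos
  have hp : ContDiff ℝ 2 p := h.smooth.of_le (by norm_num)
  obtain ⟨m, hm, hmk, hm1, hm2, hm3⟩ : ∃ m : ℝ, 0 < m ∧ m ≤ k ∧ m < δ1 ∧ m < δ2 ∧ m < δ3 := by
    refine ⟨min (min k δ1) (min δ2 δ3) / 2, by positivity, ?_⟩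
    have a1 := (min_le_left (min k δ1) (min δ2 δ3)).trans (min_le_left k δ1)
    have a2 := (min_le_left (min k δ1) (min δ2 δ3)).trans (min_le_right k δ1)
    have a3 := (min_le_right (min k δ1) (min δ2 δ3)).trans (min_le_left δ2 δ3)
    have a4 := (min_le_right (min k δ1) (min δ2 δ3)).trans (min_le_right δ2 δ3)
    refine ⟨by linarith, by linarith, by linarith, by linarith⟩
  replace H1 := H1 m (by rwa [abs_of_pos hm])
  obtain ⟨K2, H2⟩ := H2 m hm hm2
  obtain ⟨K3, H3⟩ := H3 m hm hm3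
  have G1 : ∀ u v : E 3, ‖u‖ = 1 → ‖v‖ = 1 → ∀ t, 0 ≤ t → k * m * t ^ 2 ≤ 1 →
      Seen (max K1 K2) (Nm k m r1 r2 p u v t) := by
    intro u v hu hv t ht0 ht
    rcases le_total t T with h1 | h1
    · exact (H1 u v hu hv t ht0 h1).1.mono (le_max_left _ _)
    · exact (H2 u v hu hv t h1 ht).mono (le_max_right _ _)
  have hs3 : ∑ i, ∑ j, sig i j ^ 2 ≤ 3 := by
    simp [Fin.sum_univ_three, sig]
    norm_num
  have G2 : ∀ u v : E 3, ‖u‖ = 1 → ‖v‖ = 1 → ∀ t, k * m * t ^ 2 ≤ 1 →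
      Seen (max (max K1 K2) (max K1 K2 * 3 ^ 2)) (Nm k m r1 r2 p u v t) := by
    intro u v hu hv t ht
    rcases le_total 0 t with h1 | h1
    · exact (G1 u v hu hv t h1 ht).mono (le_max_left _ _)
    · have h2 := (G1 (sigE v) (sigE u) (by rwa [norm_sigE]) (by rwa [norm_sigE]) (-t)
        (by linarith) (by rwa [neg_sq])).congr t3a_ss hs3 hs3
      rw [t3a_flip m hp h.odd] at h2
      exact h2.mono (le_max_right _ _)
  refine ⟨m, hm, hmk, fun u v hu hv huv h1 => ?_,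
    max (max (max K1 K2) (max K1 K2 * 3 ^ 2)) K3 * (3 + k / m + m / k) ^ 2,
    fun u v hu hv c τ hc => ?_⟩
  · refine (H1 u v hu hv 0 le_rfl h.T_pos.le).2 huv ?_
    simp [Nm, h1]
  have key : ∀ g B B' M M' : Mat 3, g * B = B' →
      Bᵀ * (gᵀ * M * g - M') * B = B'ᵀ * M * B' - Bᵀ * M' * B := by
    rintro g B _ M M' rfl
    simp only [transpose_mul, Matrix.mul_sub, Matrix.sub_mul, Matrix.mul_assoc]
  rcases le_total 0 c with h0 | h0
  · obtain ⟨h1, h2⟩ := t3a_cay h0 hc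
    refine t3a_back hk hm h1 ?_
    have h3 := (G2 u v hu hv _ h1).mono (le_max_left _ K3)
    rw [Nm, ← t3a_sub hk.ne' hm.ne'] at h3
    rw [key _ _ _ _ _ h2]
    convert h3 using 1
    simp only [Matrix.mul_add, Matrix.add_mul]
    abel
  · obtain ⟨h1, h2⟩ := t3a_cay (k := k) (m := m) (c := -c) (τ := -τ) (by linarith)
      (by rwa [neg_sq, neg_sq])
    refine t3a_back hk hm h1 ?_
    have h3 := (H3 (sigE u) v (by rwa [norm_sigE]) hv _ h1).mono
      (le_max_right (max (max K1 K2) (max K1 K2 * 3 ^ 2)) K3)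
    have h4 : ell k m c τ = sig * ell k m (-c) (-τ) := by
      ext i j
      fin_cases i <;> fin_cases j <;> simp [sig, ell, Matrix.mul_apply, Fin.sum_univ_three]
    have h5 : (sig * ell k m (-c) (-τ))ᵀ * (Mt k m r1 r2 p u + cro (r2 / m) (-(r1 / k))) *
        (sig * ell k m (-c) (-τ)) = (ell k m (-c) (-τ))ᵀ *
          (-Mt k m r1 r2 p (sigE u) - cro (r2 / m) (-(r1 / k))) * ell k m (-c) (-τ) := by
      rw [Mt_sig k m r1 r2 hp h.odd, neg_neg, sub_eq_add_neg, ← t3a_scro, transpose_mul, t3a_sT]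
      simp only [Matrix.mul_add, Matrix.add_mul, Matrix.mul_assoc]
    rw [← t3a_add] at h3
    rw [h4, h5, key _ _ _ _ _ h2]
    convert h3 using 1
    generalize (1 - (- -τ / (1 + -c)) • gen k m : Mat 3) = B'
    generalize (1 + (- -τ / (1 + -c)) • gen k m : Mat 3) = B
    simp only [Matrix.mul_add, Matrix.add_mul, Matrix.mul_sub, Matrix.sub_mul, Matrix.mul_neg,
      Matrix.neg_mul]
    abel

end Pool.Agent.P.MP_f12b6c_an
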