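import Pool.Agent.P.MP_f12b6c_an.T3FarAll

/-! The model statement from a valid table and the diagonal statement. -/

namespace Pool.Agent.P.MP_f12b6c_an

theorem base_of_good {F : ℝ → ℝ → Mat 3} (h : Good F tab 0 0 2048) :
    Base F 4 (6593 / 4096) (1 / 16) tabC tabZ tab := by
  refine ⟨by norm_num, by norm_num [tabZ], fun n hn => ?_, h⟩
  have e : tabC = 2 ^ 15 * 2 ^ (96 * 2) + 13186 * 2 ^ (96 * 5) := by decide +kernel
  refine ⟨n * 2 ^ 15, n * 13186, ?_, ?_, ?_, ?_, ?_⟩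
  · rw [abs_of_nonneg (by positivity)]; omega
  · rw [abs_of_nonneg (by positivity)]; omega
  · rw [e]; push_cast; ring
  · push_cast; ring
  · push_cast; ring

theorem model_of_good {p : E 3 → ℝ} (hp : ContDiff ℝ 3 p) (ho : ∀ y, p (sigE y) = -p y)
    (hG : Good (Mc (1 / 2) 4 (6593 / 4096) p) tab 0 0 2048)
    (hD : Diag (1 / 2) 4 (6593 / 4096) (1 / 2 ^ 54) (1 / 32) (1 / 16) (17 / 16)
      (Mc (1 / 2) 4 (6593 / 4096) p)) :
    ∃ c, Model (1 / 2) 4 (6593 / 4096) 16 c p := by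
  have B := base_of_good hG
  refine ⟨_, model_of_cert (c := 1 / 2 ^ 54) (del := 1 / 32) (delt := 1 / 16) (e := 9 / 8)
    (by norm_num) (by norm_num) (by norm_num) (by norm_num) (by norm_num) (by norm_num)
    (by norm_num) (by norm_num) hp ho (far_fam1 B) (far_fam2 B) (far_fam3 B) (far_fam4 B) ?_⟩
  rw [show ((1 : ℝ) + 9 / 8) / 2 = 17 / 16 by norm_num]
  exact hD

end Pool.Agent.P.MP_f12b6c_an
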