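import Pool.Agent.P.MP_f12b6c_an.T3Tree

/-!
The check of the table of cell models.
-/

namespace Pool.Agent.P.MP_f12b6c_an

/-- Rows of coefficients. -/
abbrev LL : Type := List (List ℤ)

/-- Rows of natural coefficients. -/
abbrev LN : Type := List (List ℕ)

/-- Evaluate a number and pass it on. -/
noncomputable def fN (n : ℕ) (k : ℕ → Bool) : Bool :=
  @Nat.rec (fun _ => Bool) (k (nat_lit 0)) (fun m _ => k (Nat.succ m)) n

/-- Evaluate a list of numbers and pass it on. -/
noncomputable def fL (l : List ℕ) : (List ℕ → Bool) → Bool :=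
  @List.rec ℕ (fun _ => (List ℕ → Bool) → Bool) (fun k => k [])
    (fun c _ r k => fN c fun c => r fun l => k (c :: l)) l

/-- Evaluate a list of rows and pass it on. -/
noncomputable def fLL (l : LN) : (LN → Bool) → Bool :=
  @List.rec (List ℕ) (fun _ => (LN → Bool) → Bool) (fun k => k [])
    (fun c _ r k => fL c fun c => r fun l => k (c :: l)) l

/-- Evaluation of a list of coefficients. -/
noncomputable def hn1 (x : ℕ) (l : List ℕ) : ℕ :=
  @List.rec ℕ (fun _ => ℕ) (nat_lit 0) (fun c _ r => Nat.add c (Nat.mul x r)) l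

/-- Evaluation of a list of rows. -/
noncomputable def hn2 (x y : ℕ) (l : LN) : ℕ :=
  @List.rec (List ℕ) (fun _ => ℕ) (nat_lit 0) (fun c _ r => Nat.add (hn1 x c) (Nat.mul y r)) l

/-- The negative part of an integer. -/
noncomputable def ineg (a : ℤ) : ℕ := @Int.rec (fun _ => ℕ) (fun _ => nat_lit 0) (fun m => Nat.succ m) a

/-- Multiply `g` of the coefficient of degree `i` by `2 ^ (s * (d - i))`. -/
noncomputable def psc1 (g : ℤ → ℕ) (s : ℕ) (l : List ℤ) : ℕ → List ℕ :=
  @List.rec ℤ (fun _ => ℕ → List ℕ) (fun _ => [])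
    (fun c _ r d => Nat.shiftLeft (g c) (Nat.mul s d) :: r (Nat.pred d)) l

/-- Multiply `g` of the coefficient of degree `i + j` by `2 ^ (s * (d - i - j))`. -/
noncomputable def psc2 (g : ℤ → ℕ) (s : ℕ) (l : LL) : ℕ → LN :=
  @List.rec (List ℤ) (fun _ => ℕ → LN) (fun _ => [])
    (fun c _ r d => psc1 g s c d :: r (Nat.pred d)) l

/-- The length of a list. -/
noncomputable def len {α : Type} (l : List α) : ℕ :=
  @List.rec α (fun _ => ℕ) (nat_lit 0) (fun _ _ r => Nat.succ r) l

/-- The rows have total degree at most `d`. -/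
noncomputable def tri (l : LL) : ℕ → Bool :=
  @List.rec (List ℤ) (fun _ => ℕ → Bool) (fun _ => true)
    (fun c tl r d => bnd (Nat.ble (len c) (Nat.succ d)) (bnd (Nat.ble (len tl) d)
      (r (Nat.pred d)))) l

/-- Rescale the rows, bound their degree and size, and pass the two parts on. -/
noncomputable def prep1 (s d : ℕ) (l : LL) (k : LN × LN → Bool) : Bool :=
  bnd (tri l d) (fLL (psc2 itoNat s l d) fun p => fLL (psc2 ineg s l d) fun q =>
    bnd (Nat.ble (Nat.add (hn2 (Nat.shiftLeft (nat_lit 1) s) (Nat.shiftLeft (nat_lit 1) s) p)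
      (hn2 (Nat.shiftLeft (nat_lit 1) s) (Nat.shiftLeft (nat_lit 1) s) q))
        (nat_lit 0x100000000000000000000)) (k (p, q)))

/-- Rescale six lists of rows. -/
noncomputable def prep (s d : ℕ) (Q : Six LL) (k : Six (LN × LN) → Bool) : Bool :=
  prep1 s d Q.f00 fun a => prep1 s d Q.f01 fun b => prep1 s d Q.f02 fun c =>
    prep1 s d Q.f11 fun e => prep1 s d Q.f12 fun f => prep1 s d Q.f22 fun g => k ⟨a, b, c, e, f, g⟩

/-- The lane of `s` that starts at bit `p`. -/
def lane (s p : ℕ) : ℕ := Nat.land (Nat.shiftRight s p) (nat_lit 0xffffffffffffffffffffffff)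

/-- The coefficient in the lane of `s` that starts at bit `p`. -/
noncomputable def cof (s p : ℕ) : ℤ := snn (lane s p) (nat_lit 0x4000000)

/-- The rows of one entry. -/
noncomputable def rows (s : ℕ) : LL :=
  [[cof s (nat_lit 0), cof s (nat_lit 672), cof s (nat_lit 1344), cof s (nat_lit 2016)],
    [cof s (nat_lit 2688), cof s (nat_lit 3360), cof s (nat_lit 4032)],
    [cof s (nat_lit 4704), cof s (nat_lit 5376)], [cof s (nat_lit 6048)]]

/-- The rows of the six entries. -/
noncomputable def rows6 (s : ℕ) : Six LL :=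
  ⟨rows (Nat.shiftRight s (nat_lit 384)), rows (Nat.shiftRight s (nat_lit 192)),
    rows (Nat.shiftRight s (nat_lit 480)), rows s, rows (Nat.shiftRight s (nat_lit 288)),
    rows (Nat.shiftRight s (nat_lit 576))⟩

/-- The first packed variable. -/
def vX : ℕ := Nat.shiftLeft (nat_lit 1) (nat_lit 96)

/-- The second packed variable. -/
def vY : ℕ := Nat.shiftLeft (nat_lit 1) (nat_lit 960)

/-- One step of the packing. -/
def pk1 (s p r k : ℕ) : ℕ := Nat.add (lane s p) (Nat.shiftLeft r k)

/-- The biased packed polynomial of one entry. -/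
def pkN (s : ℕ) : ℕ :=
  pk1 s (nat_lit 0) (pk1 s (nat_lit 672) (pk1 s (nat_lit 1344) (pk1 s (nat_lit 2016)
    (pk1 s (nat_lit 2688) (pk1 s (nat_lit 3360) (pk1 s (nat_lit 4032) (pk1 s (nat_lit 4704)
      (pk1 s (nat_lit 5376) (lane s (nat_lit 6048)) (nat_lit 864)) (nat_lit 96)) (nat_lit 768))
        (nat_lit 96)) (nat_lit 96)) (nat_lit 672)) (nat_lit 96)) (nat_lit 96)) (nat_lit 96)

/-- The bias of the packed polynomial. -/
def pkB : ℕ := nat_lit 0x4000000000000000000000000000000000000000000000000000000000000000000000000000000000000000000000000000000000000000000000000000000000000000000000000000000000000000000000000000000000000000000000000000000000000000000000004000000000000000000000004000000000000000000000000000000000000000000000000000000000000000000000000000000000000000000000000000000000000000000000000000000000000000000000000000000000000000000000000000000000000000000000004000000000000000000000004000000000000000000000004000000000000000000000000000000000000000000000000000000000000000000000000000000000000000000000000000000000000000000000000000000000000000000000000000000000000000000000004000000000000000000000004000000000000000000000004000000000000000000000004000000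

/-- The coefficient sum of the difference of two polynomials. -/
noncomputable def ent (A B sh : ℕ) (l : LN × LN) (s : ℕ) : ℕ :=
  absK (nat_lit 96) (nat_lit 91) (snn (Nat.add (hn2 A B l.1) (Nat.shiftLeft pkB sh))
    (Nat.add (hn2 A B l.2) (Nat.shiftLeft (pkN s) sh)))

/-- The three row conditions. -/
noncomputable def six1 (a b c d e f e0 e1 e2 t0 t1 t2 : ℕ) : Bool :=
  bnd (Nat.ble (Nat.add (Nat.add a b) (Nat.add c e0)) t0)
    (bnd (Nat.ble (Nat.add (Nat.add b d) (Nat.add e e1)) t1)
      (Nat.ble (Nat.add (Nat.add c e) (Nat.add f e2)) t2))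

/-- Compare `Q` at `(A, B)` with `2 ^ sh` times `P`. -/
noncomputable def six (A B sh : ℕ) (Q : Six (LN × LN)) (s e0 e1 e2 t0 t1 t2 : ℕ) : Bool :=
  six1 (ent A B sh Q.f00 (Nat.shiftRight s (nat_lit 384)))
    (ent A B sh Q.f01 (Nat.shiftRight s (nat_lit 192)))
    (ent A B sh Q.f02 (Nat.shiftRight s (nat_lit 480))) (ent A B sh Q.f11 s)
    (ent A B sh Q.f12 (Nat.shiftRight s (nat_lit 288)))
    (ent A B sh Q.f22 (Nat.shiftRight s (nat_lit 576))) e0 e1 e2 t0 t1 t2

/-- The interval with left end `x` and width `2 r` lies in the top interval. -/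
noncomputable def insd (X x r : ℕ) : Bool :=
  bnd (Nat.ble X x) (bnd (Nat.ble (nat_lit 1) r)
    (Nat.ble (Nat.add x (Nat.add r r)) (Nat.add X (nat_lit 32))))

/-- The check against the top model with half width `r`. -/
noncomputable def fine1 (Q : Six (LN × LN)) (X Y x x0 y0 r : ℕ) : Bool :=
  bnd (insd X x0 r) (bnd (insd Y y0 r)
    (fN (Nat.sub (Nat.add (Nat.mul r vX) (Nat.add x0 r)) (Nat.add X (nat_lit 16))) fun A =>
      fN (Nat.sub (Nat.add (Nat.mul r vY) (Nat.add y0 r)) (Nat.add Y (nat_lit 16))) fun B =>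
        fN (spread x) fun s => six A B (nat_lit 44) Q s (nat_lit 0x1800000000000)
          (nat_lit 0x1800000000000) (nat_lit 0x1800000000000)
          (Nat.shiftLeft (lane s (nat_lit 7104)) (nat_lit 44))
          (Nat.shiftLeft (lane s (nat_lit 6720)) (nat_lit 44))
          (Nat.shiftLeft (lane s (nat_lit 7296)) (nat_lit 44))))

/-- The check against the top model. -/
noncomputable def fine (Q : Six (LN × LN)) (X Y x x0 y0 w : ℕ) : Bool :=
  bnd (Nat.beq (Nat.mod w (nat_lit 2)) (nat_lit 0)) (fine1 Q X Y x x0 y0 (Nat.div w (nat_lit 2)))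

/-- The check of a model against one subcell. -/
noncomputable def kidOK (Q : Six (LN × LN)) (t0 t1 t2 A B : ℕ) (U : Cel) : Bool :=
  bdj (outside (nat_lit 331776) U.x U.y U.w) (pos1 U.t.val fun x => fN (spread x) fun s =>
    six A B (nat_lit 3) Q s
      (Nat.mul (nat_lit 8) (lane s (nat_lit 7104))) (Nat.mul (nat_lit 8) (lane s (nat_lit 6720)))
      (Nat.mul (nat_lit 8) (lane s (nat_lit 7296))) t0 t1 t2)

/-- The check of a model against the four subcells. -/
noncomputable def coarse1 (Q : Six (LN × LN)) (t0 t1 t2 : ℕ) (U : Cel) : Bool :=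
  U.kids fun c0 c1 c2 c3 =>
    bnd (bnd (kidOK Q t0 t1 t2 (Nat.pred vX) (Nat.pred vY) c0)
      (kidOK Q t0 t1 t2 (Nat.succ vX) (Nat.pred vY) c1))
    (bnd (kidOK Q t0 t1 t2 (Nat.pred vX) (Nat.succ vY) c2)
      (kidOK Q t0 t1 t2 (Nat.succ vX) (Nat.succ vY) c3))

/-- The check of a model against the four subcells. -/
noncomputable def coarse (U : Cel) : Bool :=
  bnd (Nat.beq (Nat.mod U.w (nat_lit 2)) (nat_lit 0)) (fN (spread U.t.val) fun s =>
    prep (nat_lit 1) (nat_lit 3) (rows6 s) fun Q =>
      coarse1 Q (Nat.mul (nat_lit 8) (lane s (nat_lit 7104)))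
        (Nat.mul (nat_lit 8) (lane s (nat_lit 6720))) (Nat.mul (nat_lit 8) (lane s (nat_lit 7296))) U)

/-- The check of the model at the root of a cell. -/
noncomputable def nodeOK (fn : ℕ → ℕ → ℕ → ℕ → Bool) (U : Cel) : Bool :=
  bdj (Nat.beq U.t.val (nat_lit 0))
    (@Bool.rec (fun _ => Bool) (coarse U) (fn U.t.val U.x U.y U.w)
      (Nat.beq (Nat.land (Nat.shiftRight U.t.val (nat_lit 1917)) (nat_lit 1)) (nat_lit 0)))

/-- Combine the checks of the four subcells. -/
noncomputable def four (r0 r1 r2 r3 : ℕ → ℕ → ℕ → Bool) (x y x' y' w : ℕ) : Bool :=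
  fN x' fun x' => fN y' fun y' => fN w fun w =>
    bnd (bnd (r0 x y w) (r1 x' y w)) (bnd (r2 x y' w) (r3 x' y' w))

/-- The check of all models of a tree; `st` may take over at a cell. -/
noncomputable def chkA (fn : ℕ → ℕ → ℕ → ℕ → Bool) (st : ℕ → Bool) (tp : Cel → Bool) (t : QT) :
    ℕ → ℕ → ℕ → Bool :=
  @QT.rec (fun _ => ℕ → ℕ → ℕ → Bool) (fun _ _ _ => true)
    (fun v c0 c1 c2 c3 r0 r1 r2 r3 x y w => @Bool.rec (fun _ => Bool)
      (bnd (nodeOK fn ⟨.node v c0 c1 c2 c3, x, y, w⟩)
        (four r0 r1 r2 r3 x y (Nat.add x (Nat.div w (nat_lit 2))) (Nat.add y (Nat.div w (nat_lit 2)))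
          (Nat.sub w (Nat.div w (nat_lit 2)))))
      (tp ⟨.node v c0 c1 c2 c3, x, y, w⟩) (st w)) t

/-- The check below a top cell; `tq` computes the top model and `tk` checks it. -/
noncomputable def chkT (tq : ℕ → ℕ → Six LL) (tk : ℕ → ℕ → Six LL → Bool) (U : Cel) : Bool :=
  bnd (tk U.x U.y (tq U.x U.y)) (prep (nat_lit 4) (nat_lit 9) (tq U.x U.y) fun Q =>
    chkA (fine Q U.x U.y) (fun _ => false) (fun _ => false) U.t U.x U.y U.w)

/-- The check of a cell above the top cells. -/
noncomputable def chkB (tq : ℕ → ℕ → Six LL) (tk : ℕ → ℕ → Six LL → Bool) (U : Cel) : Bool :=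
  chkA (fun _ _ _ _ => false) (fun w => Nat.beq w (nat_lit 32)) (chkT tq tk) U.t U.x U.y U.w

/-- The root cell. -/
def root (tab : QT) : Cel := ⟨tab, nat_lit 0, nat_lit 0, nat_lit 2048⟩

/-- The check of the cells of level four with paths `p, …, p + n - 1`. -/
noncomputable def chkR (tq : ℕ → ℕ → Six LL) (tk : ℕ → ℕ → Six LL → Bool) (tab : QT) (p n : ℕ) :
    Bool :=
  @Nat.rec (fun _ => Bool) true
    (fun m r => bnd (chkB tq tk (nav (nat_lit 4) (Nat.add p m) (root tab))) r) n

/-- The check of the first `n` levels. -/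
noncomputable def chkC (n : ℕ) : Cel → Bool :=
  @Nat.rec (fun _ => Cel → Bool) (fun _ => true)
    (fun _ r U => bnd (nodeOK (fun _ _ _ _ => false) U)
      (U.kids fun c0 c1 c2 c3 => bnd (bnd (r c0) (r c1)) (bnd (r c2) (r c3)))) n

end Pool.Agent.P.MP_f12b6c_an
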