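import Pool.Agent.P.MP_f12b6c_an.T3Defs

/-! A singular solution in `ℝⁿ` gives one in `ℝⁿ⁺¹`. -/

namespace Pool.Agent.P.MP_f12b6c_an

open Matrix Filter Topology

private lemma t3c_comp {m k : ℕ} (L : E m →L[ℝ] E k) (b : E k) {φ : E k → ℝ} {z : E m}
    (h : ContDiffAt ℝ 2 φ (L z + b)) (v w : E m) :
    fderiv ℝ (fderiv ℝ fun y => φ (L y + b)) z v w =
      fderiv ℝ (fderiv ℝ φ) (L z + b) (L v) (L w) := by
  have hA : ∀ y, HasFDerivAt (fun y => L y + b) L y := fun y => L.hasFDerivAt.add_const b
  have h1 : (fderiv ℝ fun y => φ (L y + b)) =ᶠ[𝓝 z] fun y => (fderiv ℝ φ (L y + b)).comp L := by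
    filter_upwards [(hA z).continuousAt.eventually (h.eventually (by simp))] with y hy
    exact ((hy.differentiableAt (by simp)).hasFDerivAt.comp y (hA y)).fderiv
  have d1 : HasFDerivAt (fderiv ℝ φ) (fderiv ℝ (fderiv ℝ φ) (L z + b)) (L z + b) :=
    ((h.fderiv_right (m := 1) (by norm_num)).differentiableAt (by simp)).hasFDerivAt
  have d2 := ((d1.comp z (hA z)).clm_comp (hasFDerivAt_const L z)).fderiv
  simp only [Function.comp_def] at d2
  rw [h1.fderiv_eq, d2]
  simp

private noncomputable def t3cP (n : ℕ) : E (n + 1) →L[ℝ] E n :=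
  ∑ i : Fin n, (EuclideanSpace.proj i.castSucc).smulRight (EuclideanSpace.single i (1 : ℝ))

private noncomputable def t3cJ (n : ℕ) : E n →L[ℝ] E (n + 1) :=
  ∑ i : Fin n, (EuclideanSpace.proj i).smulRight (EuclideanSpace.single i.castSucc (1 : ℝ))

private lemma t3cP_apply {n : ℕ} (x : E (n + 1)) (i : Fin n) : t3cP n x i = x i.castSucc := by
  simp [t3cP, Pi.single_apply]

private lemma t3cJ_single {n : ℕ} (i : Fin n) :
    t3cJ n (EuclideanSpace.single i 1) = EuclideanSpace.single i.castSucc 1 := by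
  simp [t3cJ, ite_smul]

private lemma t3cPJ {n : ℕ} (z : E n) : t3cP n (t3cJ n z) = z := by
  ext i
  simp [t3cP_apply, t3cJ]

private lemma t3cP_last {n : ℕ} : t3cP n (EuclideanSpace.single (Fin.last n) 1) = 0 := by
  ext i
  simp [t3cP_apply, Fin.castSucc_ne_last]

private lemma t3cP_norm {n : ℕ} (x : E (n + 1)) : ‖t3cP n x‖ ≤ ‖x‖ := by
  rw [EuclideanSpace.norm_eq, EuclideanSpace.norm_eq, Fin.sum_univ_castSucc]
  simp only [t3cP_apply]
  exact Real.sqrt_le_sqrt (le_add_of_nonneg_right (sq_nonneg _))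

private lemma t3c_last {n : ℕ} {u : E n → ℝ} {φ : E (n + 1) → ℝ} {x : E (n + 1)}
    (hφ : ContDiffAt ℝ 2 φ x) (h : IsLocalMax (fun y => u (t3cP n y) - φ y) x) :
    0 ≤ hess φ x (Fin.last n) (Fin.last n) := by
  let K : E (n + 1) →L[ℝ] E (n + 1) :=
    (EuclideanSpace.proj (Fin.last n)).smulRight (EuclideanSpace.single (Fin.last n) (1 : ℝ))
  have h0 : K 0 + x = x := by simp
  have hA : ContDiff ℝ 2 fun y => K y + x := K.contDiff.add contDiff_const
  have h1 : ContDiffAt ℝ 2 φ (K 0 + x) := by rwa [h0]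
  have h2 : IsLocalMax (fun y => u (t3cP n y) - φ y) (K 0 + x) := by rwa [h0]
  have h3 := h2.comp_continuous (g := fun y => K y + x) hA.continuous.continuousAt
  have h4 : IsLocalMin (fun y => φ (K y + x)) 0 := by
    filter_upwards [h3] with y hy
    have h5 : ∀ y, t3cP n (K y + x) = t3cP n x := fun y => by simp [K, t3cP_last]
    simp only [Function.comp, h5] at hy
    linarith
  have h5 := s4visc_line (h1.comp 0 (f := fun y => K y + x) hA.contDiffAt) h4
    (EuclideanSpace.single (Fin.last n) 1)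
  have h6 := t3c_comp K x h1 (EuclideanSpace.single (Fin.last n) 1)
    (EuclideanSpace.single (Fin.last n) 1)
  have h7 : K (EuclideanSpace.single (Fin.last n) 1) = EuclideanSpace.single (Fin.last n) 1 := by
    simp [K]
  rw [h7, h0] at h6
  exact h5.trans_eq h6

theorem Sing.succ {n : ℕ} (h : Sing n) : Sing (n + 1) := by
  obtain ⟨lam, Lam, F, u, h0, h1, hF, hu, hs⟩ := h
  have hn : (0 : ℝ) ≤ n := n.cast_nonneg
  refine ⟨min lam 1 / (n + 1), Lam * n + 1,
    fun M => F (M.submatrix Fin.castSucc Fin.castSucc) + M (Fin.last n) (Fin.last n),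
    fun x => u (t3cP n x), by positivity, ?_, ?_, ⟨?_, ?_⟩, ?_⟩
  · have h2 : min lam 1 / (n + 1) ≤ 1 := by
      rw [div_le_one (by positivity)]
      linarith [min_le_right lam 1]
    have h3 : 0 ≤ Lam * n := mul_nonneg (h0.le.trans h1) hn
    linarith
  · intro M N hM hN
    have hN' := hN.submatrix (Fin.castSucc (n := n))
    obtain ⟨h2, h3⟩ := hF _ _ (hM.submatrix (Fin.castSucc (n := n))) hN'
    set N' := N.submatrix (Fin.castSucc (n := n)) (Fin.castSucc (n := n)) with hN''
    have h4 : N.trace = N'.trace + N (Fin.last n) (Fin.last n) := by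
      simp [trace, Fin.sum_univ_castSucc, hN'']
    have h5 : N'.trace ≤ n * opNorm N' := by
      simpa [trace] using Finset.sum_le_card_nsmul Finset.univ (fun i => N' i i) _
        fun i _ => (le_abs_self _).trans (s4f_entry N' i i)
    have h6 : N'.trace ≤ n * opNorm N := by
      simpa [trace] using Finset.sum_le_card_nsmul Finset.univ (fun i => N' i i) _
        fun i _ => (le_abs_self _).trans (s4f_entry N i.castSucc i.castSucc)
    have h7 := s4f_op_le_trace hN
    have h8 := s4f_op_le_trace hN'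
    have h9 := (le_abs_self _).trans (s4f_entry N (Fin.last n) (Fin.last n))
    have h10 : 0 ≤ N (Fin.last n) (Fin.last n) := hN.diag_nonneg
    have h11 : 0 ≤ opNorm N' := norm_nonneg _
    have h12 : (M + N).submatrix (Fin.castSucc (n := n)) (Fin.castSucc (n := n)) =
        M.submatrix Fin.castSucc Fin.castSucc + N' := rfl
    simp only [h12, Matrix.add_apply]
    constructor
    · have h13 : opNorm N ≤ (n + 1) * (opNorm N' + N (Fin.last n) (Fin.last n)) := by nlinarith
      have h14 : 0 < min lam 1 := by positivity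
      have h15 : min lam 1 / (n + 1) * opNorm N ≤
          min lam 1 * (opNorm N' + N (Fin.last n) (Fin.last n)) := by
        rw [div_mul_eq_mul_div, div_le_iff₀ (by positivity)]
        nlinarith
      have h16 := mul_le_mul_of_nonneg_right (min_le_left lam 1) h11
      have h17 := mul_le_mul_of_nonneg_right (min_le_right lam 1) h10
      nlinarith
    · have h13 := mul_le_mul_of_nonneg_left (h8.trans h6) (h0.le.trans h1)
      nlinarith
  · exact hu.1.comp (t3cP n).continuous.continuousOn fun x hx =>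
      mem_ball_zero_iff.2 ((t3cP_norm x).trans_lt (mem_ball_zero_iff.1 hx))
  · intro x hx φ hφ
    have hx' : t3cP n x ∈ Metric.ball (0 : E n) 1 :=
      mem_ball_zero_iff.2 ((t3cP_norm x).trans_lt (mem_ball_zero_iff.1 hx))
    set b := x - t3cJ n (t3cP n x) with hb
    have e1 : t3cJ n (t3cP n x) + b = x := by simp [hb]
    have e2 : ∀ z, t3cP n (t3cJ n z + b) = z := fun z => by simp [hb, t3cPJ]
    have hA : ContDiff ℝ 2 fun z => t3cJ n z + b := (t3cJ n).contDiff.add contDiff_const
    have hφ' : ContDiffAt ℝ 2 φ (t3cJ n (t3cP n x) + b) := by rwa [e1]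
    obtain ⟨h2, h3⟩ := hu.2 _ hx' (fun z => φ (t3cJ n z + b))
      (hφ'.comp _ (f := fun z => t3cJ n z + b) hA.contDiffAt)
    have e3 : hess (fun z => φ (t3cJ n z + b)) (t3cP n x) =
        (hess φ x).submatrix Fin.castSucc Fin.castSucc := by
      ext i j
      simp only [hess, of_apply, submatrix_apply, t3c_comp _ b hφ', t3cJ_single, e1]
    rw [e3] at h2 h3
    refine ⟨fun h => add_nonneg (h2 ?_) (t3c_last hφ h), fun h => add_nonpos (h3 ?_) ?_⟩
    · rw [← e1] at h
      simpa only [Function.comp_def, e2] using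
        h.comp_continuous (g := fun z => t3cJ n z + b) hA.continuous.continuousAt
    · rw [← e1] at h
      simpa only [Function.comp_def, e2] using
        h.comp_continuous (g := fun z => t3cJ n z + b) hA.continuous.continuousAt
    · have h4 := t3c_last (u := fun z => -u z) hφ.neg
        (h.neg.congr (.of_forall fun y => by simp only; ring))
      rw [hess_neg] at h4
      exact neg_nonneg.1 h4
  · intro r hr h
    have h2 : t3cJ n ⁻¹' Metric.ball 0 r ∈ 𝓝 (0 : E n) :=
      (t3cJ n).continuous.continuousAt.preimage_mem_nhds (by simpa using Metric.ball_mem_nhds _ hr)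
    obtain ⟨r', hr', h3⟩ := Metric.mem_nhds_iff.1 h2
    refine hs r' hr' ?_
    simpa only [Function.comp_def, t3cPJ] using h.comp (t3cJ n).contDiff.contDiffOn h3

end Pool.Agent.P.MP_f12b6c_an
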