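import Pool.Agent.P.MP_f12b6c_an.S4F
import Pool.Agent.P.MP_f12b6c_an.S4Visc

/-!
Spiral solutions in `ℝ³`: functions with `U (exp s • g s x) = exp (2 s) * U x`, where `g s` is the
one-parameter group of elliptic rotations about the first axis generated by `gen k m`.
-/

namespace Pool.Agent.P.MP_f12b6c_an

open Matrix

/-- A singular viscosity solution of some uniformly elliptic equation exists in `ℝⁿ`. -/
def Sing (n : ℕ) : Prop :=
  ∃ (lam Lam : ℝ) (F : Mat n → ℝ) (u : E n → ℝ), 0 < lam ∧ lam ≤ Lam ∧ UnifElliptic lam Lam F ∧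
    IsViscSol F u ∧ ∀ r : ℝ, 0 < r → ¬ ContDiffOn ℝ 2 u (Metric.ball 0 r)

/-- The generator of the elliptic rotations. -/
def gen (k m : ℝ) : Mat 3 := !![0, 0, 0; 0, 0, -m; 0, k, 0]

/-- The elliptic rotation with cosine `c` and `τ = sin / ω`; here `c ^ 2 + k * m * τ ^ 2 = 1`. -/
def ell (k m c τ : ℝ) : Mat 3 := !![1, 0, 0; 0, c, -(m * τ); 0, k * τ, c]

/-- The one-parameter group generated by `gen k m` when `w ^ 2 = k * m`. -/
noncomputable def rot (k m w s : ℝ) : Mat 3 := ell k m (Real.cos (w * s)) (Real.sin (w * s) / w)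

/-- The point `exp s • rot s x`. -/
noncomputable def flow (k m w s : ℝ) (x : E 3) : E 3 :=
  Real.exp s • WithLp.toLp 2 (rot k m w s *ᵥ x.ofLp)

/-- The gradient in coordinates. -/
noncomputable def grad {n : ℕ} (q : E n → ℝ) (y : E n) : Fin n → ℝ :=
  fun i => fderiv ℝ q y (EuclideanSpace.single i 1)

/-- The multiplier `c` with `∇U = ∇q + c y` on the sphere (`R` is the cocycle term). -/
noncomputable def sphC (X R : Mat 3) (v : ℝ) (G y : Fin 3 → ℝ) : ℝ :=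
  (2 * v - G ⬝ᵥ (y + X *ᵥ y) + y ⬝ᵥ R *ᵥ y / 2) / (1 + y ⬝ᵥ X *ᵥ y)

/-- The vector `e` in the formula for the Hessian on the sphere. -/
noncomputable def sphE (X R : Mat 3) (v : ℝ) (G : Fin 3 → ℝ) (H : Mat 3) (y : Fin 3 → ℝ) :
    Fin 3 → ℝ :=
  G - Xᵀ *ᵥ G - H *ᵥ (y + X *ᵥ y) + R *ᵥ y - sphC X R v G y • ((X + Xᵀ) *ᵥ y)

/-- For `R = 0`: the Hessian at a unit vector `y` of the spiral extension of a function with value
`v`, gradient `G` and Hessian `H` at `y`. Adding the quadratic form of `P / 2` to the function adds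
`P` and replaces `R` by `-(Xᵀ P + P X)`. -/
noncomputable def sph (X R : Mat 3) (v : ℝ) (G : Fin 3 → ℝ) (H : Mat 3) (y : Fin 3 → ℝ) : Mat 3 :=
  H + sphC X R v G y • (1 : Mat 3)
    + (1 / (1 + y ⬝ᵥ X *ᵥ y)) • (vecMulVec y (sphE X R v G H y) + vecMulVec (sphE X R v G H y) y)
    - (((y + X *ᵥ y) ⬝ᵥ sphE X R v G H y) / (1 + y ⬝ᵥ X *ᵥ y) ^ 2) • vecMulVec y y

/-- The symmetric matrix with entries `a`, `b` at the places `(0,1)`, `(0,2)`. -/
def cro (a b : ℝ) : Mat 3 := !![0, a, b; a, 0, 0; b, 0, 0]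

/-- The half turn about the first axis. -/
def sig : Mat 3 := !![1, 0, 0; 0, -1, 0; 0, 0, -1]

/-- The half turn about the first axis, acting on points. -/
def sigE (y : E 3) : E 3 := WithLp.toLp 2 ![y 0, -y 1, -y 2]

/-- The reduced Hessian on the sphere for the profile `p` and the cocycle `cro r1 r2`. -/
noncomputable def Mt (k m r1 r2 : ℝ) (p : E 3 → ℝ) (y : E 3) : Mat 3 :=
  sph (gen k m) (cro r1 r2) (p y) (grad p y) (hess p y) y.ofLp

/-- The difference of two Hessians in the symmetric Cayley gauge. -/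
noncomputable def Nm (k m r1 r2 : ℝ) (p : E 3 → ℝ) (u v : E 3) (t : ℝ) : Mat 3 :=
  (1 - t • gen k m)ᵀ * Mt k m r1 r2 p u * (1 - t • gen k m)
    - (1 + t • gen k m)ᵀ * Mt k m r1 r2 p v * (1 + t • gen k m) + (2 * t) • cro r1 r2

/-- The full profile: `p` plus the quadratic form that produces the cocycle. -/
noncomputable def prof (k m r1 r2 : ℝ) (p : E 3 → ℝ) (y : E 3) : ℝ :=
  p y + y 0 * (r2 / m * y 1 - r1 / k * y 2)

/-- The admissible parameters. -/
structure Par (k m w : ℝ) : Prop where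
  w_pos : 0 < w
  m_pos : 0 < m
  m_le : m ≤ k
  k_le : k ≤ 1
  sq : w ^ 2 = k * m

/-- `U` is the spiral extension of the restriction of `q` to the unit sphere. -/
structure Spiral (k m w : ℝ) (q U : E 3 → ℝ) : Prop where
  smooth : ∀ x, x ≠ 0 → ContDiffAt ℝ 2 U x
  cov : ∀ s x, U (flow k m w s x) = Real.exp (2 * s) * U x
  sphere : ∀ y, ‖y‖ = 1 → U y = q y

/-- `N` is seen from the positive side by a matrix `A` with `1 ≤ A` and trace at most `K`. -/
def Seen {n : ℕ} (K : ℝ) (N : Mat n) : Prop :=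
  ∃ A : Mat n, (A - 1).PosSemidef ∧ A.trace ≤ K ∧ 0 ≤ (A * N).trace

/-- What the finite computation has to show: the pair condition for the nilpotent model `m = 0`,
with a margin. -/
structure Model (k r1 r2 T c0 : ℝ) (p : E 3 → ℝ) : Prop where
  k_pos : 0 < k
  k_lt : k < 1
  r_pos : 0 < r2
  T_pos : 0 < T
  c_pos : 0 < c0
  smooth : ContDiff ℝ 3 p
  odd : ∀ y, p (sigE y) = -p y
  near : ∀ u v : E 3, ‖u‖ = 1 → ‖v‖ = 1 → ∀ t, 0 ≤ t → t ≤ T → ∃ A : Mat 3, A.PosSemidef ∧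
    A.trace ≤ 1 ∧ c0 * (‖u - v‖ + t) ≤ (A * Nm k 0 r1 r2 p u v t).trace
  far : ∀ u v : E 3, ‖u‖ = 1 → ‖v‖ = 1 → ∀ t, T ≤ t → ∃ A : Mat 3, A.PosSemidef ∧
    A.trace ≤ 1 ∧ A 1 1 = 0 ∧ c0 ≤ (A * Nm k 0 r1 r2 p u v t).trace

end Pool.Agent.P.MP_f12b6c_an
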