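import Pool.Agent.P.MP_f12b6c_an.T3DgDef

/-! Certificates for the diagonal statement. -/

set_option maxRecDepth 100000
set_option linter.defProp false

namespace Pool.Agent.P.MP_f12b6c_an.Dg

noncomputable def g2_m140_m44 : GD 2 (-140) (-44) := chk_sound .out
  _ _ _ (by decide +kernel)

noncomputable def g2_m132_m44 : GD 2 (-132) (-44) := chk_sound 
  (.cell (.lf (nat_lit 0x823b27abd9cb964e6f)) (.lf (nat_lit 0x80e83581a2be563d6d)) (.lf (nat_lit 0x81717ab768d958c9a2)) (.lf (nat_lit 0x8098288d26cd76afd7)) (.lf (nat_lit 0x815b78aee6fd6dce68)) (.lf (nat_lit 0x82c9859476ac916f8e)))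
  _ _ _ (by decide +kernel)

noncomputable def g2_m140_m36 : GD 2 (-140) (-36) := chk_sound .out
  _ _ _ (by decide +kernel)

noncomputable def g2_m132_m36 : GD 2 (-132) (-36) := chk_sound 
  (.cell (.lf (nat_lit 0x811b00ab9a009bae5f)) (.lf (nat_lit 0x80082d8242cc559d76)) (.lf (nat_lit 0x8800f2a8a7dc60f9ed)) (.lf (nat_lit 0x8008138c76ed77cfdf)) (.lf (nat_lit 0x820b8eaf977d754e77)) (.lf (nat_lit 0x80080990a68c95efad)))
  _ _ _ (by decide +kernel)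

theorem g3_m136_m40 : GD 3 (-136) (-40) :=
  GD.split (i := 2) g2_m140_m44 g2_m132_m44 g2_m140_m36 g2_m132_m36 (by decide)

noncomputable def g2_m140_m28 : GD 2 (-140) (-28) := chk_sound .out
  _ _ _ (by decide +kernel)

noncomputable def g2_m132_m28 : GD 2 (-132) (-28) := chk_sound 
  (.cell (.lf (nat_lit 0x809be9b61981938dca)) (.lf (nat_lit 0x80082481a2dd555d84)) (.lf (nat_lit 0x89112595c54965ba2b)) (.lf (nat_lit 0x800800800707780fec)) (.lf (nat_lit 0x821c35b6875074edce)) (.lf (nat_lit 0x8047ed8196b19ebfa7)))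
  _ _ _ (by decide +kernel)

noncomputable def g2_m140_m20 : GD 2 (-140) (-20) := chk_sound .out
  _ _ _ (by decide +kernel)

noncomputable def g2_m132_m20 : GD 2 (-132) (-20) := chk_sound 
  (.cell (.lf (nat_lit 0x820b56b9195b92fe13)) (.lf (nat_lit 0x8008308202f255dd9b)) (.lf (nat_lit 0x89122297349a4e5a6e)) (.lf (nat_lit 0x80080c8097687b9ff9)) (.lf (nat_lit 0x827cf6bfb72373acc8)) (.lf (nat_lit 0x8008008006baa7df7e)))
  _ _ _ (by decide +kernel)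

theorem g3_m136_m24 : GD 3 (-136) (-24) :=
  GD.split (i := 2) g2_m140_m28 g2_m132_m28 g2_m140_m20 g2_m132_m20 (by decide)

noncomputable def g2_m140_m12 : GD 2 (-140) (-12) := chk_sound .out
  _ _ _ (by decide +kernel)

noncomputable def g2_m132_m12 : GD 2 (-132) (-12) := chk_sound 
  (.cell (.nd (.lf (nat_lit 0x800b23b669698f2e4d)) (.lf (nat_lit 0x8006dac87cc2779c63)) (.lf (nat_lit 0x805821818c51b70dc9)) (.lf (nat_lit 0x801843845d1adb6a46))) (.lf (nat_lit 0x821800800309575dbb)) (.lf (nat_lit 0x8e437c9853e33739af)) (.lf (nat_lit 0x8008008007d37f3fff)) (.nd (.lf (nat_lit 0x80080080032543dd1f)) (.lf (nat_lit 0x80a83182220a376ac9)) (.lf (nat_lit 0x827cc7bdb860827d1c)) (.lf (nat_lit 0x800894881e17d108cd))) (.lf (nat_lit 0x8007ea813633b3cf17)))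
  _ _ _ (by decide +kernel)

noncomputable def g2_m140_m4 : GD 2 (-140) (-4) := chk_sound 
  (.cell (.lf (nat_lit 0x813800800ce6ae8d9d)) (.nd (.lf (nat_lit 0x826af9a6f655742ec6)) (.lf (nat_lit 0x81f6a0b052739c8c5b)) (.lf (nat_lit 0x8008188263f64b4e10)) (.lf (nat_lit 0x80082d8102b239fc13))) (.lf (nat_lit 0xcbfad6c4da389c5a9e)) (.lf (nat_lit 0x8008008007a9793ffb)) (.nd (.lf (nat_lit 0x800c28b53796786df0)) (.lf (nat_lit 0x80083082121d320a57)) (.lf (nat_lit 0x81fad0a40ba2accd79)) (.lf (nat_lit 0x800845830e2ecd9977))) (.lf (nat_lit 0x809714927313e1f82d)))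
  _ _ _ (by decide +kernel)

noncomputable def g2_m132_m4 : GD 2 (-132) (-4) := chk_sound 
  (.cell (.lf (nat_lit 0x80781d812ccaaa8dd4)) (.lf (nat_lit 0x812800800393518dfe)) (.lf (nat_lit 0x9f4d92ce39388909dc)) (.lf (nat_lit 0x80080180483281bfff)) (.nd (.lf (nat_lit 0x81db72ac367d6a2e59)) (.lf (nat_lit 0x80884283920432ea30)) (.lf (nat_lit 0x800c3fb6384683eddc)) (.lf (nat_lit 0x80884683ee1bcf496a))) (.lf (nat_lit 0x8007b4841295db4962)))
  _ _ _ (by decide +kernel)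

theorem g3_m136_m8 : GD 3 (-136) (-8) :=
  GD.split (i := 2) g2_m140_m12 g2_m132_m12 g2_m140_m4 g2_m132_m4 (by decide)

noncomputable def g2_m140_4 : GD 2 (-140) 4 := chk_sound 
  (.cell (.lf (nat_lit 0x800834823d09ae0d81)) (.nd (.lf (nat_lit 0x807981a3860b678f1d)) (.lf (nat_lit 0x80079c88d353e7086d)) (.lf (nat_lit 0x80982081b410492e0e)) (.lf (nat_lit 0x80283984a398222b29))) (.lf (nat_lit 0xc2bc00b399aaa6eb66)) (.lf (nat_lit 0x80080080081c7dffff)) (.nd (.lf (nat_lit 0x81fca9bac7e27b1d5a)) (.lf (nat_lit 0x80a86b8542102ee9a5)) (.lf (nat_lit 0x800814814d13bb2cf4)) (.lf (nat_lit 0x807858839e22ca5a25))) (.lf (nat_lit 0x80d74e8df311e31826)))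
  _ _ _ (by decide +kernel)

noncomputable def g2_m132_4 : GD 2 (-132) 4 := chk_sound 
  (.cell (.lf (nat_lit 0x81f800800cedab9dae)) (.nd (.lf (nat_lit 0x80b9b99995c86a0f2f)) (.lf (nat_lit 0x80071cacd27e908ce4)) (.lf (nat_lit 0x80781f8173f54b7e11)) (.lf (nat_lit 0x8188008002bc318b7c))) (.lf (nat_lit 0xb92c37b6c9cc9fdbd1)) (.lf (nat_lit 0x80080180787b826ffb)) (.nd (.lf (nat_lit 0x828c35b537dd7b7ded)) (.lf (nat_lit 0x8058608531f92fc97d)) (.lf (nat_lit 0x80888f872cbebc2d2e)) (.lf (nat_lit 0x80d800800e10cbea2b))) (.lf (nat_lit 0x81270d92d315e1f80c)))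
  _ _ _ (by decide +kernel)

noncomputable def g2_m140_12 : GD 2 (-140) 12 := chk_sound .out
  _ _ _ (by decide +kernel)

noncomputable def g2_m132_12 : GD 2 (-132) 12 := chk_sound 
  (.cell (.lf (nat_lit 0x800800800d0eac1d8d)) (.nd (.lf (nat_lit 0x824ac2b08675694e8a)) (.lf (nat_lit 0x8067608e836ee76851)) (.lf (nat_lit 0x80080f81d42e4aee31)) (.lf (nat_lit 0x80380f81635e212ab4))) (.lf (nat_lit 0xb21c88b149b89f7c2b)) (.lf (nat_lit 0x8088008008b3817ff8)) (.lf (nat_lit 0x833c13b32867831e14)) (.lf (nat_lit 0x80f74e8e031ce3a808)))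
  _ _ _ (by decide +kernel)

theorem g3_m136_8 : GD 3 (-136) 8 :=
  GD.split (i := 2) g2_m140_4 g2_m132_4 g2_m140_12 g2_m132_12 (by decide)

noncomputable def g2_m140_20 : GD 2 (-140) 20 := chk_sound .out
  _ _ _ (by decide +kernel)

noncomputable def g2_m132_20 : GD 2 (-132) 20 := chk_sound 
  (.cell (.lf (nat_lit 0x80082d80dd28abed76)) (.nd (.lf (nat_lit 0x80d9c9a905fd54ae8b)) (.lf (nat_lit 0x80d76a8ee3b7ea7858)) (.lf (nat_lit 0x80082282746d4a1e4f)) (.lf (nat_lit 0x80984a8592dd2269c4))) (.lf (nat_lit 0x81ad6cb0f8d19bbca4)) (.lf (nat_lit 0x8007ef8048e47f1ff3)) (.lf (nat_lit 0x830b32aaf8a0876ec7)) (.lf (nat_lit 0x8005c3afa3beda7806)))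
  _ _ _ (by decide +kernel)

noncomputable def g2_m140_28 : GD 2 (-140) 28 := chk_sound .out
  _ _ _ (by decide +kernel)

noncomputable def g2_m132_28 : GD 2 (-132) 28 := chk_sound 
  (.cell (.lf (nat_lit 0x81f800800d39aaed6e)) (.lf (nat_lit 0x827b61b066cf6c5e5c)) (.lf (nat_lit 0x81bd3cb1f87c9aece0)) (.lf (nat_lit 0x8007f78079197b6feb)) (.lf (nat_lit 0x815abda669d69b4eab)) (.lf (nat_lit 0x800505c39b85304803)))
  _ _ _ (by decide +kernel)

theorem g3_m136_24 : GD 3 (-136) 24 :=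
  GD.split (i := 2) g2_m140_20 g2_m132_20 g2_m140_28 g2_m132_28 (by decide)

noncomputable def g2_m140_36 : GD 2 (-140) 36 := chk_sound .out
  _ _ _ (by decide +kernel)

noncomputable def g2_m132_36 : GD 2 (-132) 36 := chk_sound 
  (.cell (.lf (nat_lit 0x80082d816e199d4cd6)) (.lf (nat_lit 0x81db5ab047056fee74)) (.lf (nat_lit 0x831d46a7d8819edd19)) (.lf (nat_lit 0x81380080095e75bfdb)) (.lf (nat_lit 0x800a309fba34a39ebe)) (.lf (nat_lit 0x8116dc9c7c2b18381c)))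
  _ _ _ (by decide +kernel)

noncomputable def g2_m140_44 : GD 2 (-140) 44 := chk_sound .out
  _ _ _ (by decide +kernel)

noncomputable def g2_m132_44 : GD 2 (-132) 44 := chk_sound 
  (.cell (.lf (nat_lit 0x80081080fe299d2cc3)) (.lf (nat_lit 0x825aecade6bf705eaf)) (.lf (nat_lit 0x9eecd0a178a6a4cd32)) (.lf (nat_lit 0x8007f38058da768fee)) (.lf (nat_lit 0x81d9a0986a9aac5ead)) (.lf (nat_lit 0x8067a08a4bf1119876)))
  _ _ _ (by decide +kernel)

theorem g3_m136_40 : GD 3 (-136) 40 :=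
  GD.split (i := 2) g2_m140_36 g2_m132_36 g2_m140_44 g2_m132_44 (by decide)

noncomputable def g2_m124_m76 : GD 2 (-124) (-76) := chk_sound .out
  _ _ _ (by decide +kernel)

noncomputable def g2_m116_m76 : GD 2 (-116) (-76) := chk_sound 
  (.cell (.lf (nat_lit 0x813a00c37932447d30)) (.lf (nat_lit 0x8008298131db647cd1)) (.lf (nat_lit 0x997c6eba946f88dbed)) (.lf (nat_lit 0x8007f480d8906d4fe4)) (.nd (.lf (nat_lit 0x80082a81f2cf582d8c)) (.lf (nat_lit 0x80c8408150da563a70)) (.lf (nat_lit 0x8208ef85aa80648f55)) (.lf (nat_lit 0x84cd0cba46bc4c8ba2))) (.lf (nat_lit 0xa5896ba1553f8f1e9c)))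
  _ _ _ (by decide +kernel)

noncomputable def g2_m124_m68 : GD 2 (-124) (-68) := chk_sound 
  (.cell (.lf (nat_lit 0x80bb48b309978bae53)) (.lf (nat_lit 0x80b82980d1e1647cd9)) (.lf (nat_lit 0x8b724a865304773a5a)) (.lf (nat_lit 0x8008008006a8729fd7)) (.nd (.lf (nat_lit 0x80f800800333583de4)) (.lf (nat_lit 0x8118748290a35bca17)) (.lf (nat_lit 0x80dad597785e73af49)) (.lf (nat_lit 0x83fcabaa5741608d8a))) (.lf (nat_lit 0x825a5da7560a8caeeb)))
  _ _ _ (by decide +kernel)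

noncomputable def g2_m116_m68 : GD 2 (-116) (-68) := chk_sound 
  (.cell (.lf (nat_lit 0x81daebb8f917675e43)) (.lf (nat_lit 0x80084380d1d9642ccc)) (.lf (nat_lit 0xa8ec4cb8d46f86dbac)) (.lf (nat_lit 0x80080980f77d6f2fe9)) (.nd (.lf (nat_lit 0x8008148092df582d9b)) (.lf (nat_lit 0x80086d82f0d8552a50)) (.lf (nat_lit 0x80089483ea7f6f1f80)) (.lf (nat_lit 0x81bd0dad06f05becee))) (.lf (nat_lit 0xa5b9d4a0052a92ae75)))
  _ _ _ (by decide +kernel)

theorem g3_m120_m72 : GD 3 (-120) (-72) :=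
  GD.split (i := 2) g2_m124_m76 g2_m116_m76 g2_m124_m68 g2_m116_m68 (by decide)

noncomputable def g2_m124_m60 : GD 2 (-124) (-60) := chk_sound 
  (.cell (.lf (nat_lit 0x81ca4aa61a3d98fec1)) (.lf (nat_lit 0x8008018131e2643cd9)) (.lf (nat_lit 0x8521058b354d718a8e)) (.lf (nat_lit 0x81281091767d73afbd)) (.lf (nat_lit 0x824ba7b116c769fe26)) (.lf (nat_lit 0x8d2a76a426198f6ee6)))
  _ _ _ (by decide +kernel)

noncomputable def g2_m116_m60 : GD 2 (-116) (-60) := chk_sound 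
  (.cell (.lf (nat_lit 0x816b58b6c90379de51)) (.lf (nat_lit 0x8348008001d763dcc8)) (.lf (nat_lit 0xd5fa3cae15106cab6d)) (.lf (nat_lit 0x80581280b6966f6fcd)) (.nd (.lf (nat_lit 0x8008288202f7581db0)) (.lf (nat_lit 0x8058398120dc539a47)) (.lf (nat_lit 0x80091d88e98579ffbe)) (.lf (nat_lit 0x844c8dab26da59ad5f))) (.lf (nat_lit 0x9d4a7d9ec50596de50)))
  _ _ _ (by decide +kernel)

noncomputable def g2_m124_m52 : GD 2 (-124) (-52) := chk_sound 
  (.cell (.lf (nat_lit 0x81aabea9d9d094deae)) (.lf (nat_lit 0x8448008001e863fcde)) (.lf (nat_lit 0x8e10cb8eb6c56b9ab1)) (.lf (nat_lit 0x8148888ed66e739fbb)) (.nd (.lf (nat_lit 0x800829811360571e00)) (.lf (nat_lit 0x80080181a0f1536a84)) (.lf (nat_lit 0x81c91a8ba7e370efd5)) (.lf (nat_lit 0x836baeac2667584dd6))) (.lf (nat_lit 0x8faa38a0a60791befd)))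
  _ _ _ (by decide +kernel)

noncomputable def g2_m116_m52 : GD 2 (-116) (-52) := chk_sound 
  (.cell (.lf (nat_lit 0x816b5bb258f081ee7a)) (.lf (nat_lit 0x8008208111d7639cc7)) (.lf (nat_lit 0xd53bb981c604576b5f)) (.lf (nat_lit 0x8137d8931615703f9b)) (.lf (nat_lit 0x800badb115fd5d0dad)) (.lf (nat_lit 0x84cb229a24e999ae45)))
  _ _ _ (by decide +kernel)

theorem g3_m120_m56 : GD 3 (-120) (-56) :=
  GD.split (i := 2) g2_m124_m60 g2_m116_m60 g2_m124_m52 g2_m116_m52 (by decide)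

noncomputable def g2_m124_m44 : GD 2 (-124) (-44) := chk_sound 
  (.cell (.lf (nat_lit 0x80bafdad7991948e8c)) (.lf (nat_lit 0x80f8438161f063dce7)) (.lf (nat_lit 0x83c0cc907789652ad0)) (.lf (nat_lit 0x80885194265f747fb0)) (.nd (.lf (nat_lit 0x80080f81f367554df9)) (.lf (nat_lit 0x80584482113c4e6ae9)) (.lf (nat_lit 0x8209f49de72d631f43)) (.lf (nat_lit 0x822aa0a0933f3bab78))) (.lf (nat_lit 0x80091ba2e59f915f27)))
  _ _ _ (by decide +kernel)

noncomputable def g2_m116_m44 : GD 2 (-116) (-44) := chk_sound 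
  (.cell (.lf (nat_lit 0x817b38ae0919894e9e)) (.lf (nat_lit 0x8338008001db634cca)) (.lf (nat_lit 0xe778b59ba5fd606b45)) (.lf (nat_lit 0x80086898c606723f89)) (.nd (.lf (nat_lit 0x80081c81a31655bdba)) (.lf (nat_lit 0x80684082212f4ddac0)) (.lf (nat_lit 0x80f8bf91b74b625fa2)) (.lf (nat_lit 0x81dad6a274af440d1f))) (.lf (nat_lit 0x83faf19594c69cee4e)))
  _ _ _ (by decide +kernel)

noncomputable def g2_m124_m36 : GD 2 (-124) (-36) := chk_sound 
  (.cell (.lf (nat_lit 0x821a149ba9fe98ff17)) (.lf (nat_lit 0x8008118111fb63bcf5)) (.lf (nat_lit 0x8730fc9127ae5d4aed)) (.lf (nat_lit 0x80085391c68875efc0)) (.lf (nat_lit 0x832b61aea62161de15)) (.lf (nat_lit 0x82294790a590978f4a)))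
  _ _ _ (by decide +kernel)

noncomputable def g2_m116_m36 : GD 2 (-116) (-36) := chk_sound 
  (.cell (.lf (nat_lit 0x825b25aa39298d8eb6)) (.lf (nat_lit 0x8278008001e262fcd1)) (.lf (nat_lit 0x9a9e7b8636ad609bab)) (.nd (.lf (nat_lit 0x80082080f4a871df36)) (.lf (nat_lit 0x80082b8033e65d3e83)) (.lf (nat_lit 0x80080080089797ffd6)) (.lf (nat_lit 0x8138008006a3701fd1))) (.nd (.lf (nat_lit 0x80082c81331152cd9f)) (.lf (nat_lit 0x80085481e170496b05)) (.lf (nat_lit 0x81b9af9995414c1e5d)) (.lf (nat_lit 0x80f86885d1e6306949))) (.lf (nat_lit 0x819792a03452956eaa)))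
  _ _ _ (by decide +kernel)

theorem g3_m120_m40 : GD 3 (-120) (-40) :=
  GD.split (i := 2) g2_m124_m44 g2_m116_m44 g2_m124_m36 g2_m116_m36 (by decide)

noncomputable def g2_m124_m28 : GD 2 (-124) (-28) := chk_sound 
  (.cell (.lf (nat_lit 0x81db2faa399694de88)) (.lf (nat_lit 0x8008018162c7536d60)) (.lf (nat_lit 0xa47ea68485e9635aa0)) (.lf (nat_lit 0x8008348c1692754fcd)) (.lf (nat_lit 0x86ab79af064e674e27)) (.lf (nat_lit 0x8147ee8495f1a7cf50)))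
  _ _ _ (by decide +kernel)

noncomputable def g2_m116_m28 : GD 2 (-116) (-28) := chk_sound 
  (.cell (.lf (nat_lit 0x81eb6ab0192e914e62)) (.lf (nat_lit 0x80083a8161ef62acdf)) (.lf (nat_lit 0x9ede5a8636f858eb91)) (.nd (.lf (nat_lit 0x80081d8044fe74ef61)) (.lf (nat_lit 0x80081b8133e95b3e7a)) (.lf (nat_lit 0x800800800883964fdc)) (.lf (nat_lit 0x8098008006496dffbb))) (.lf (nat_lit 0x826a9fa223e6492ce5)) (.lf (nat_lit 0x81b77a99a49f98eee0)))
  _ _ _ (by decide +kernel)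

noncomputable def g2_m124_m20 : GD 2 (-124) (-20) := chk_sound 
  (.cell (.lf (nat_lit 0x82eb76b4795d97ce19)) (.lf (nat_lit 0x8088008002d7531d6d)) (.lf (nat_lit 0x907e4e88754b537aca)) (.lf (nat_lit 0x80081580d6a5763fdc)) (.lf (nat_lit 0x82eceec0a70572bca8)) (.lf (nat_lit 0x8007f081648da67ece)))
  _ _ _ (by decide +kernel)

noncomputable def g2_m116_m20 : GD 2 (-116) (-20) := chk_sound 
  (.cell (.nd (.lf (nat_lit 0x808a17a67a0eac2e7b)) (.lf (nat_lit 0x8027638fcc1e140849)) (.lf (nat_lit 0x81f95b91ec17b6fdb0)) (.lf (nat_lit 0x81fc1fd627e7715c25))) (.lf (nat_lit 0x800801817201624cf4)) (.lf (nat_lit 0x9b7e368836dd4dcb52)) (.nd (.lf (nat_lit 0x80080180855777bf86)) (.lf (nat_lit 0x8008158063fc59ae7d)) (.lf (nat_lit 0x80b80080088f9fcfba)) (.lf (nat_lit 0x80080180d66b709fc8))) (.lf (nat_lit 0x82bc52b9554b5cdc81)) (.lf (nat_lit 0x8007ef8183509fce2b)))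
  _ _ _ (by decide +kernel)

theorem g3_m120_m24 : GD 3 (-120) (-24) :=
  GD.split (i := 2) g2_m124_m28 g2_m116_m28 g2_m124_m20 g2_m116_m20 (by decide)

noncomputable def g2_m124_m12 : GD 2 (-124) (-12) := chk_sound 
  (.cell (.nd (.lf (nat_lit 0x81fb14b2a98099be4c)) (.lf (nat_lit 0x81075f8e7c9418b848)) (.lf (nat_lit 0x81e800800c2eb96dcc)) (.lf (nat_lit 0x830c78dae84880ab69))) (.lf (nat_lit 0x8168008002ef538d87)) (.lf (nat_lit 0x8bbd6a8f147b41ba61)) (.lf (nat_lit 0x80080f80a71079efef)) (.lf (nat_lit 0x82dd43c357877a2c44)) (.lf (nat_lit 0x8007e881e385b07de4)))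
  _ _ _ (by decide +kernel)

noncomputable def g2_m116_m12 : GD 2 (-116) (-12) := chk_sound 
  (.cell (.nd (.lf (nat_lit 0x80094aaad99aa71ed4)) (.lf (nat_lit 0x80d78c8b0c6f16885b)) (.lf (nat_lit 0x81b800800c28bcadaf)) (.lf (nat_lit 0x81ccd1d4c82d7f9b8f))) (.lf (nat_lit 0x84c7269052e1524d44)) (.lf (nat_lit 0x8a8e1789a669407ac9)) (.lf (nat_lit 0x8008008007627ebff9)) (.lf (nat_lit 0x800d6ac627927bdbe5)) (.lf (nat_lit 0x800801804287a94d3b)))
  _ _ _ (by decide +kernel)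

noncomputable def g2_m124_m4 : GD 2 (-124) (-4) := chk_sound 
  (.cell (.nd (.lf (nat_lit 0x822a99ade9b1899ec4)) (.lf (nat_lit 0x831704b0fd6d709cd2)) (.lf (nat_lit 0x808825824c23b5fdf4)) (.lf (nat_lit 0x80082e818d18d3cb40))) (.lf (nat_lit 0x80082081e311549dad)) (.lf (nat_lit 0xb37ccfc7b6715ed9ed)) (.lf (nat_lit 0x80a8008007777ccffa)) (.nd (.lf (nat_lit 0x8009388fb354442d11)) (.lf (nat_lit 0x8007ff80c1e833ba04)) (.lf (nat_lit 0x814cdebdb7d6800d0a)) (.lf (nat_lit 0x80087885de07d0b95b))) (.lf (nat_lit 0x8007bf820243c10bcd)))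
  _ _ _ (by decide +kernel)

noncomputable def g2_m116_m4 : GD 2 (-116) (-4) := chk_sound 
  (.cell (.nd (.lf (nat_lit 0x8009e19e6984982f3b)) (.lf (nat_lit 0x80d7ae87ac8c179893)) (.lf (nat_lit 0x800801815c02b82df7)) (.lf (nat_lit 0x800842840cf6dc8a68))) (.lf (nat_lit 0x80080f81c2ee51dd78)) (.lf (nat_lit 0xbf0c48bcc68a58aabd)) (.lf (nat_lit 0x8068068037ad7e7ffe)) (.nd (.lf (nat_lit 0x80082a8272bc426c9f)) (.lf (nat_lit 0x80886684f1d034d9d3)) (.lf (nat_lit 0x823caebc27db80ad48)) (.lf (nat_lit 0x803850849dfbd2194d))) (.lf (nat_lit 0x8007b38311fac18b49)))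
  _ _ _ (by decide +kernel)

theorem g3_m120_m8 : GD 3 (-120) (-8) :=
  GD.split (i := 2) g2_m124_m12 g2_m116_m12 g2_m124_m4 g2_m116_m4 (by decide)

noncomputable def g2_m124_4 : GD 2 (-124) 4 := chk_sound 
  (.cell (.lf (nat_lit 0x806821818c6caebdfd)) (.lf (nat_lit 0x80083281e33c563ddd)) (.lf (nat_lit 0xbf1bb5c3196f993b8c)) (.lf (nat_lit 0x8008018057cd7e2fff)) (.nd (.lf (nat_lit 0x81aad2a40777782f1a)) (.lf (nat_lit 0x8008718591e430c955)) (.lf (nat_lit 0x828af7a6094392fed2)) (.lf (nat_lit 0x81f800800dfecd3a2e))) (.lf (nat_lit 0x8096839dbcca20e814)))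
  _ _ _ (by decide +kernel)

noncomputable def g2_m116_4 : GD 2 (-116) 4 := chk_sound 
  (.cell (.nd (.lf (nat_lit 0x819aa3a5397c8adeff)) (.lf (nat_lit 0x81b800800dff706d33)) (.lf (nat_lit 0x80080d826bd5b28e45)) (.lf (nat_lit 0x800832821d63c7bbd9))) (.lf (nat_lit 0x80082380632051fda6)) (.lf (nat_lit 0xb91c2ac9580f8a0b8a)) (.lf (nat_lit 0x800800800715798fef)) (.lf (nat_lit 0x829c28b52859877df1)) (.lf (nat_lit 0x80c78f88fcfa1c9834)))
  _ _ _ (by decide +kernel)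

noncomputable def g2_m124_12 : GD 2 (-124) 12 := chk_sound 
  (.cell (.lf (nat_lit 0x80883681fcf8a8edb8)) (.nd (.lf (nat_lit 0x824ad9b396576fee75)) (.lf (nat_lit 0x8096f7c66346825c9a)) (.lf (nat_lit 0x8008018144164dae39)) (.lf (nat_lit 0x8008298372a82e2b06))) (.lf (nat_lit 0xafcc8bb0c9c19edc49)) (.lf (nat_lit 0x8007ff8068167defff)) (.lf (nat_lit 0x800bb2acf8b587fe75)) (.lf (nat_lit 0x8006fa94dcda1dd814)))
  _ _ _ (by decide +kernel)

noncomputable def g2_m116_12 : GD 2 (-116) 12 := chk_sound 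
  (.cell (.nd (.lf (nat_lit 0x89aadda3399b8a1ee6)) (.lf (nat_lit 0x80082c803e4280acfa)) (.lf (nat_lit 0x805815813bb8ad0e7f)) (.lf (nat_lit 0x80080f81fd9ebc3c45))) (.lf (nat_lit 0x80082181f304507d80)) (.lf (nat_lit 0xaf7c7cb399969c6c5c)) (.lf (nat_lit 0x80380980576879cff7)) (.lf (nat_lit 0x82ebe3b0b86887de42)) (.lf (nat_lit 0x80c71692ccde1d6835)))
  _ _ _ (by decide +kernel)

theorem g3_m120_8 : GD 3 (-120) 8 :=
  GD.split (i := 2) g2_m124_4 g2_m116_4 g2_m124_12 g2_m116_12 (by decide)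

noncomputable def g2_m124_20 : GD 2 (-124) 20 := chk_sound 
  (.cell (.lf (nat_lit 0x80082481bd18aa1d93)) (.nd (.lf (nat_lit 0x81f9adae05dc58ee82)) (.lf (nat_lit 0x8077758d238de9183f)) (.lf (nat_lit 0x80882782646e4e5e72)) (.lf (nat_lit 0x80080f82d29c2b0a93))) (.lf (nat_lit 0x812d6fad59139accbd)) (.lf (nat_lit 0x80080080085a7c5ffd)) (.lf (nat_lit 0x82eb6bad68df8cce8b)) (.lf (nat_lit 0x8146e7976cb81cf80e)))
  _ _ _ (by decide +kernel)

noncomputable def g2_m116_20 : GD 2 (-116) 20 := chk_sound 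
  (.cell (.lf (nat_lit 0x83b7ea844cf2a7ddc3)) (.nd (.lf (nat_lit 0x80ab00b6565d6b2e40)) (.lf (nat_lit 0x81e69bce654ed6f91b)) (.lf (nat_lit 0x80081c81e457515e7c)) (.lf (nat_lit 0x80882c82828d2e5ada))) (.lf (nat_lit 0x81fd63abf94f99eccd)) (.lf (nat_lit 0x8008028067b978effb)) (.lf (nat_lit 0x82ab84ade8b98d4e7e)) (.lf (nat_lit 0x815705948cc21c8829)))
  _ _ _ (by decide +kernel)

noncomputable def g2_m124_28 : GD 2 (-124) 28 := chk_sound 
  (.cell (.lf (nat_lit 0x80080180dd34aa0d7a)) (.lf (nat_lit 0x825b80b0d6ca6e1e4c)) (.lf (nat_lit 0x814d4daed8ad96fcfb)) (.lf (nat_lit 0x8058008008a1799ff7)) (.lf (nat_lit 0x81eab5a5499e99eec8)) (.lf (nat_lit 0x80065aa4ac601ee808)))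
  _ _ _ (by decide +kernel)

noncomputable def g2_m116_28 : GD 2 (-116) 28 := chk_sound 
  (.cell (.lf (nat_lit 0x80082680ad29a86d90)) (.lf (nat_lit 0x800b7eafd6b16e4e51)) (.lf (nat_lit 0x813d4fafa89c970cf3)) (.lf (nat_lit 0x80080080081076fffa)) (.lf (nat_lit 0x800aa6a4194697eeee)) (.lf (nat_lit 0x8067ad87acb5190817)))
  _ _ _ (by decide +kernel)

theorem g3_m120_24 : GD 3 (-120) 24 :=
  GD.split (i := 2) g2_m124_20 g2_m116_20 g2_m124_28 g2_m116_28 (by decide)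

noncomputable def g2_m124_36 : GD 2 (-124) 36 := chk_sound 
  (.cell (.lf (nat_lit 0x800835822d42a8cd75)) (.lf (nat_lit 0x827b5baf9702704e79)) (.lf (nat_lit 0x800d25b0485d96fd1f)) (.lf (nat_lit 0x8007ff80d8f6751fe9)) (.nd (.lf (nat_lit 0x8008008009408e2fda)) (.nd (.lf (nat_lit 0x82cbf3af16616f7e00)) (.lf (nat_lit 0x8008478451e62e88c9)) (.lf (nat_lit 0x80082381fca4b76d84)) (.lf (nat_lit 0x806818816df8c68afb))) (.lf (nat_lit 0x800800800beba41e99)) (.lf (nat_lit 0x800801812d53b3bd04))) (.lf (nat_lit 0x8136e29afc4918f80d)))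
  _ _ _ (by decide +kernel)

noncomputable def g2_m116_36 : GD 2 (-116) 36 := chk_sound 
  (.cell (.lf (nat_lit 0x80082181dd45a83d77)) (.lf (nat_lit 0x821b54ae46e7702e82)) (.lf (nat_lit 0x842d37b0b829974d08)) (.lf (nat_lit 0x800800800871736ff2)) (.lf (nat_lit 0x80fa58a049829d2efd)) (.lf (nat_lit 0x8086df9a7c6019d80c)))
  _ _ _ (by decide +kernel)

noncomputable def g2_m124_44 : GD 2 (-124) 44 := chk_sound 
  (.cell (.lf (nat_lit 0x80083c815e209cccd0)) (.lf (nat_lit 0x826b12adf6cc6fbe9e)) (.lf (nat_lit 0x965ce6aaa8469a1d50)) (.lf (nat_lit 0x80680080086476fff8)) (.lf (nat_lit 0x8149e29baa0ba6fee1)) (.lf (nat_lit 0x80e74a937bfe138833)))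
  _ _ _ (by decide +kernel)

noncomputable def g2_m116_44 : GD 2 (-116) 44 := chk_sound 
  (.cell (.lf (nat_lit 0x800823816d4fa6bd78)) (.lf (nat_lit 0x808b20ad36c06efe99)) (.lf (nat_lit 0x81cd0bb177f892fd40)) (.lf (nat_lit 0x80f8008008e96befd9)) (.lf (nat_lit 0x81ba319ee999a0defa)) (.lf (nat_lit 0x80e762904c2b14881a)))
  _ _ _ (by decide +kernel)

theorem g3_m120_40 : GD 3 (-120) 40 :=
  GD.split (i := 2) g2_m124_36 g2_m116_36 g2_m124_44 g2_m116_44 (by decide)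

noncomputable def g2_m124_52 : GD 2 (-124) 52 := chk_sound 
  (.cell (.lf (nat_lit 0x80082b81be2c9cacc2)) (.lf (nat_lit 0x800b0ebcd6dc784e38)) (.nd (.lf (nat_lit 0x822b31b759ecdada6e)) (.lf (nat_lit 0x81da6c9a3a76b97e0a)) (.lf (nat_lit 0x91af2391d9ada70959)) (.lf (nat_lit 0x800801811e9fb0ab4c))) (.lf (nat_lit 0x8098008009c16e7fba)) (.lf (nat_lit 0x80e94b921a2faaef01)) (.lf (nat_lit 0x800b19a4bd7662ebff)))
  _ _ _ (by decide +kernel)

noncomputable def g2_m116_52 : GD 2 (-116) 52 := chk_sound 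
  (.cell (.lf (nat_lit 0x800818811e279c6cca)) (.lf (nat_lit 0x800aa9aba6446dfeb9)) (.nd (.lf (nat_lit 0x848d08bf68bcc1ca57)) (.lf (nat_lit 0x8289dd963c10c3cce9)) (.lf (nat_lit 0x90bf4a8fa8b4a09a09)) (.lf (nat_lit 0x822800800ea2b05b4a))) (.lf (nat_lit 0x8158008009986cffbf)) (.lf (nat_lit 0x80d97994a9c8a9af16)) (.lf (nat_lit 0x8408ba8e7e7b461aba)))
  _ _ _ (by decide +kernel)

noncomputable def g2_m124_60 : GD 2 (-124) 60 := chk_sound 
  (.cell (.lf (nat_lit 0x800828803e2e9c6cc1)) (.lf (nat_lit 0x8107bbd8265fd0fa4f)) (.lf (nat_lit 0x881dc5a6bb54b84911)) (.lf (nat_lit 0xb74a509be8f974be7f)) (.lf (nat_lit 0x8259988937a6904fbe)) (.lf (nat_lit 0x826c52bd4b657bac5d)))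
  _ _ _ (by decide +kernel)

noncomputable def g2_m116_60 : GD 2 (-116) 60 := chk_sound 
  (.cell (.lf (nat_lit 0x80a82e80be2c9c4cc4)) (.lf (nat_lit 0x81d9c7cd86c8975dcf)) (.lf (nat_lit 0x839ed5c217ee80386a)) (.lf (nat_lit 0x82fb4ea3590671aece)) (.lf (nat_lit 0x801803816843971fdd)) (.lf (nat_lit 0x832c60bdeba77bfc0e)))
  _ _ _ (by decide +kernel)

theorem g3_m120_56 : GD 3 (-120) 56 :=
  GD.split (i := 2) g2_m124_52 g2_m116_52 g2_m124_60 g2_m116_60 (by decide)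

noncomputable def g2_m124_68 : GD 2 (-124) 68 := chk_sound 
  (.cell (.lf (nat_lit 0x800811808e289c0ccb)) (.lf (nat_lit 0x8007909825cbf86817)) (.lf (nat_lit 0x826d0fb5dc27b028dd)) (.lf (nat_lit 0xcbe85c985ba8710cfa)) (.lf (nat_lit 0x84fb558d74a3874e5e)) (.lf (nat_lit 0x821cadbcdabd7bdc7b)))
  _ _ _ (by decide +kernel)

noncomputable def g2_m116_68 : GD 2 (-116) 68 := chk_sound 
  (.cell (.lf (nat_lit 0x81383a812e279bfccc)) (.lf (nat_lit 0x80d76e9f35d7f6d813)) (.lf (nat_lit 0x834d9cb6dbb6a7f8d8)) (.lf (nat_lit 0xc366cf997b3d770d9c)) (.lf (nat_lit 0x828b408d6520875ea6)) (.lf (nat_lit 0x841cbdbf4af3807c24)))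
  _ _ _ (by decide +kernel)

noncomputable def g2_m124_76 : GD 2 (-124) 76 := chk_sound .out
  _ _ _ (by decide +kernel)

noncomputable def g2_m116_76 : GD 2 (-116) 76 := chk_sound 
  (.cell (.lf (nat_lit 0x80f840813e1a9bacde)) (.lf (nat_lit 0x80e6b1ca79bb1de803)) (.lf (nat_lit 0x83cca1ac4cc2b5590c)) (.lf (nat_lit 0x839a878d1cee631d69)) (.lf (nat_lit 0x9039ec81f33fa35da3)) (.lf (nat_lit 0x827cdebe3ac8801c2c)))
  _ _ _ (by decide +kernel)

theorem g3_m120_72 : GD 3 (-120) 72 :=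
  GD.split (i := 2) g2_m124_68 g2_m116_68 g2_m124_76 g2_m116_76 (by decide)

noncomputable def g3_m104_m104 : GD 3 (-104) (-104) := chk_sound (.nd .out .out .out 
  (.cell (.lf (nat_lit 0x8097a595c60af9f837)) (.lf (nat_lit 0x80882580a1fe651d00)) (.lf (nat_lit 0x82ed13ba4541857c28)) (.lf (nat_lit 0x850629883cf1477cd4)) (.nd (.lf (nat_lit 0x853dc79579b4793d0f)) (.lf (nat_lit 0x8008298181754f6b72)) (.lf (nat_lit 0x82d7df842c20224b89)) (.lf (nat_lit 0x822d4fda38d26e1970))) (.lf (nat_lit 0x82b9cb8fb4b59fceb5))))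
  _ _ _ (by decide +kernel)

noncomputable def g2_m108_m92 : GD 2 (-108) (-92) := chk_sound .out
  _ _ _ (by decide +kernel)

noncomputable def g2_m100_m92 : GD 2 (-100) (-92) := chk_sound 
  (.cell (.lf (nat_lit 0x8067be9005fdfab82d)) (.lf (nat_lit 0x81f8008001f964ecf9)) (.lf (nat_lit 0x800c8dbc648082cc17)) (.lf (nat_lit 0x87c570889cc1521d1a)) (.nd (.lf (nat_lit 0x86ed9994b9f1793d2e)) (.lf (nat_lit 0x80a83581b1754f0b6c)) (.lf (nat_lit 0x8007d8827c3e262bca)) (.lf (nat_lit 0x800d02de28936a196f))) (.lf (nat_lit 0xabf800800524996ec3)))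
  _ _ _ (by decide +kernel)

noncomputable def g2_m108_m84 : GD 2 (-108) (-84) := chk_sound 
  (.cell (.lf (nat_lit 0x80076fa0a5f3f6f809)) (.lf (nat_lit 0x8008258101e464bcde)) (.lf (nat_lit 0x83ed75bb25c488abe6)) (.lf (nat_lit 0x863bee89594779decd)) (.lf (nat_lit 0x834db1b3c79d8b7c85)) (.lf (nat_lit 0x872b228d3553961ea6)))
  _ _ _ (by decide +kernel)

noncomputable def g2_m100_m84 : GD 2 (-100) (-84) := chk_sound 
  (.cell (.lf (nat_lit 0x80278d9a95fbf8b822)) (.lf (nat_lit 0x8008178101f364ccf1)) (.lf (nat_lit 0x82ed01bbd51d831c12)) (.lf (nat_lit 0x876517894c9854ad26)) (.nd (.lf (nat_lit 0x85bd8094ca0d797d3f)) (.lf (nat_lit 0x80083c8071704e7b5a)) (.lf (nat_lit 0x8007eb823c56293bf6)) (.lf (nat_lit 0x821d02c505cd466991))) (.lf (nat_lit 0x9cf9229f34f597eea5)))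
  _ _ _ (by decide +kernel)

theorem g3_m104_m88 : GD 3 (-104) (-88) :=
  GD.split (i := 2) g2_m108_m92 g2_m100_m92 g2_m108_m84 g2_m100_m84 (by decide)

noncomputable def g2_m108_m76 : GD 2 (-108) (-76) := chk_sound 
  (.cell (.lf (nat_lit 0x8006eebca9e314d802)) (.lf (nat_lit 0x80c82e8111df647cd6)) (.lf (nat_lit 0x849d84bda5d887dbb5)) (.lf (nat_lit 0x86eba68839e4797ed1)) (.nd (.lf (nat_lit 0x858ca8940b0880ed9b)) (.lf (nat_lit 0x813800800128508ae1)) (.lf (nat_lit 0x80091d83ac0b464dc5)) (.lf (nat_lit 0x845d07af453d4a5b52))) (.lf (nat_lit 0x8c7b9787956c9aee63)))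
  _ _ _ (by decide +kernel)

noncomputable def g2_m100_m76 : GD 2 (-100) (-76) := chk_sound 
  (.cell (.lf (nat_lit 0x8057c78c85e6fac814)) (.lf (nat_lit 0x8008338071ed649ce8)) (.lf (nat_lit 0x835d3cbcc572831bf1)) (.lf (nat_lit 0x898412865be463fd75)) (.nd (.lf (nat_lit 0x862c78901b597abd9d)) (.lf (nat_lit 0x8088478291a3414ad3)) (.lf (nat_lit 0x8077e281fc6d2dfc3f)) (.lf (nat_lit 0x840dbcc1a6f1537a4e))) (.lf (nat_lit 0x8229ff9424b3a0ce95)))
  _ _ _ (by decide +kernel)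

noncomputable def g2_m108_m68 : GD 2 (-108) (-68) := chk_sound 
  (.cell (.lf (nat_lit 0x8186e7de2a0535b993)) (.lf (nat_lit 0x8008358131da643cce)) (.lf (nat_lit 0x842d8ebd466588fbf0)) (.lf (nat_lit 0x838b268a28a57dff4b)) (.lf (nat_lit 0xa7cda9b6b827847bbd)) (.lf (nat_lit 0x836b9f89c50f983e49)))
  _ _ _ (by decide +kernel)

noncomputable def g2_m100_m68 : GD 2 (-100) (-68) := chk_sound 
  (.cell (.lf (nat_lit 0x8006d6c2462ee7e806)) (.lf (nat_lit 0x8008008001e5646cde)) (.lf (nat_lit 0x821d66bff568804b7b)) (.lf (nat_lit 0xbb5b5b810a6173cdb8)) (.nd (.lf (nat_lit 0x852c8991eb457d6d99)) (.lf (nat_lit 0x80a84f831198418abe)) (.lf (nat_lit 0x82a80080cc8536bcbe)) (.lf (nat_lit 0x81ae20c4a6855f794d))) (.lf (nat_lit 0x800ab78364c6997e9b)))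
  _ _ _ (by decide +kernel)

theorem g3_m104_m72 : GD 3 (-104) (-72) :=
  GD.split (i := 2) g2_m108_m76 g2_m100_m76 g2_m108_m68 g2_m100_m68 (by decide)

noncomputable def g2_m108_m60 : GD 2 (-108) (-60) := chk_sound 
  (.cell (.lf (nat_lit 0x825974c4aa2c3f1cb8)) (.lf (nat_lit 0x8008428181d663fcc7)) (.lf (nat_lit 0x84bd51bfd61a824c03)) (.lf (nat_lit 0x8009a58598d5796fc4)) (.nd (.lf (nat_lit 0x8098388162b8580d75)) (.lf (nat_lit 0x80085782d10e504a95)) (.lf (nat_lit 0x824922858b6668cefe)) (.lf (nat_lit 0x839c8cb7162b52fc7c))) (.lf (nat_lit 0x894bbb8bd4eb9ebe00)))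
  _ _ _ (by decide +kernel)

noncomputable def g2_m100_m60 : GD 2 (-100) (-60) := chk_sound 
  (.cell (.lf (nat_lit 0x80277b9cba2608780b)) (.lf (nat_lit 0x8118008001de643cd4)) (.lf (nat_lit 0x81ed93c125b6810b53)) (.lf (nat_lit 0x8c6d1e8519787a1de6)) (.nd (.lf (nat_lit 0x85fbc38f8bde801dd0)) (.lf (nat_lit 0x80084783118b41faaa)) (.lf (nat_lit 0x88e868823c8345fd79)) (.lf (nat_lit 0x800d0bc1e56f5adb19))) (.lf (nat_lit 0x8239c293d4099b4e61)))
  _ _ _ (by decide +kernel)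

noncomputable def g2_m108_m52 : GD 2 (-108) (-52) := chk_sound 
  (.cell (.lf (nat_lit 0x82eb39b9490560fdff)) (.lf (nat_lit 0x80082a8121d263acc1)) (.lf (nat_lit 0x82bd21c165d27b4c03)) (.lf (nat_lit 0x8008008007cc6cefe8)) (.nd (.lf (nat_lit 0x80083a8122bd578d76)) (.lf (nat_lit 0x80e84e8251154f7a9a)) (.lf (nat_lit 0x805935884a8b782f74)) (.lf (nat_lit 0x99ebccb015854e2cb2))) (.lf (nat_lit 0x84db618c244b955e08)))
  _ _ _ (by decide +kernel)

noncomputable def g2_m100_m52 : GD 2 (-100) (-52) := chk_sound 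
  (.cell (.lf (nat_lit 0x8167cac7aacb29daa9)) (.lf (nat_lit 0x8318008001d863fcca)) (.lf (nat_lit 0x800d9fc0062e839b9b)) (.lf (nat_lit 0x87ccde89b82f802e4c)) (.nd (.lf (nat_lit 0x84ec2f947b30833de1)) (.lf (nat_lit 0x80084e82618442aaa9)) (.lf (nat_lit 0x86092885cc2b5eae60)) (.lf (nat_lit 0x838c1ba6d3be419acc))) (.lf (nat_lit 0x985b9082f4dba9fdac)))
  _ _ _ (by decide +kernel)

theorem g3_m104_m56 : GD 3 (-104) (-56) :=
  GD.split (i := 2) g2_m108_m60 g2_m100_m60 g2_m108_m52 g2_m100_m52 (by decide)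

noncomputable def g2_m108_m44 : GD 2 (-108) (-44) := chk_sound 
  (.cell (.lf (nat_lit 0x82fb71b9f88c777e33)) (.lf (nat_lit 0x80083080a1d1634cbd)) (.lf (nat_lit 0xa7ec8bbea5ba771c0b)) (.lf (nat_lit 0x8007a49456326e2f99)) (.lf (nat_lit 0x81ec10ae256c4f0cce)) (.lf (nat_lit 0x8a3b778bb4389c5dcc)))
  _ _ _ (by decide +kernel)

noncomputable def g2_m100_m44 : GD 2 (-100) (-44) := chk_sound 
  (.cell (.lf (nat_lit 0x830a58ba3a2a44bd2d)) (.lf (nat_lit 0x81d8008001d2639cc1)) (.nd (.lf (nat_lit 0x828b7fb7346388cd25)) (.lf (nat_lit 0x83c9feb07225489a1e)) (.lf (nat_lit 0x8007f086d652faa97c)) (.lf (nat_lit 0x80b8628bdbb4f0884f))) (.lf (nat_lit 0x870b758897fe844f2d)) (.nd (.lf (nat_lit 0x800800800285560d33)) (.lf (nat_lit 0x80083e83118c42aabd)) (.lf (nat_lit 0x84f95d885b986cbee2)) (.lf (nat_lit 0x827ac4a033ff3d4c56))) (.lf (nat_lit 0x835afb8373b2999dd3)))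
  _ _ _ (by decide +kernel)

noncomputable def g2_m108_m36 : GD 2 (-108) (-36) := chk_sound 
  (.cell (.lf (nat_lit 0x827b6bb4989f868e66)) (.lf (nat_lit 0x8038358151d362dcbd)) (.lf (nat_lit 0xd26aa7a9d59a5dbba4)) (.nd (.lf (nat_lit 0x81b800800411725ee9)) (.lf (nat_lit 0x8248008003875cde41)) (.lf (nat_lit 0x80480080083b953fe2)) (.lf (nat_lit 0x8008008007506e7fe5))) (.lf (nat_lit 0x817b2fa5d42d48aca7)) (.lf (nat_lit 0x87e98984d349929e24)))
  _ _ _ (by decide +kernel)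

noncomputable def g2_m100_m36 : GD 2 (-100) (-36) := chk_sound 
  (.cell (.lf (nat_lit 0x827b96c0789662bd96)) (.lf (nat_lit 0x8008338031cf631cb9)) (.lf (nat_lit 0x800cb2c2855e7ecc35)) (.lf (nat_lit 0x8058008008196dbfea)) (.lf (nat_lit 0x83cb859af357413b66)) (.lf (nat_lit 0xaec7fd81c382a2cd86)))
  _ _ _ (by decide +kernel)

theorem g3_m104_m40 : GD 3 (-104) (-40) :=
  GD.split (i := 2) g2_m108_m44 g2_m100_m44 g2_m108_m36 g2_m100_m36 (by decide)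

noncomputable def g2_m108_m28 : GD 2 (-108) (-28) := chk_sound 
  (.cell (.lf (nat_lit 0x809b8cb6e8c28efe2e)) (.lf (nat_lit 0x8008358181d9624cc1)) (.lf (nat_lit 0x8bde238fe6ea505bd6)) (.nd (.lf (nat_lit 0x809800800469758f1e)) (.lf (nat_lit 0x80082981f3805aae2f)) (.lf (nat_lit 0x8008008008399d5fc8)) (.lf (nat_lit 0x80080180e619692fa3))) (.lf (nat_lit 0x8139689152a2377b61)) (.lf (nat_lit 0x8be9a181132399dde0)))
  _ _ _ (by decide +kernel)

noncomputable def g2_m100_m28 : GD 2 (-100) (-28) := chk_sound 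
  (.cell (.lf (nat_lit 0x81bb81c4485d7d3dc6)) (.lf (nat_lit 0x8008178111ce626cb4)) (.lf (nat_lit 0x89ac27c494ae7b9c1c)) (.lf (nat_lit 0x8007e69a25f2700f7d)) (.lf (nat_lit 0x8367878b61ed3f2b23)) (.lf (nat_lit 0x8665168a9355ab8d12)))
  _ _ _ (by decide +kernel)

noncomputable def g2_m108_m20 : GD 2 (-108) (-20) := chk_sound 
  (.cell (.nd (.lf (nat_lit 0x817a41aba9a8a8fe7e)) (.lf (nat_lit 0x80a75593cbcb11b83b)) (.lf (nat_lit 0x813977935c56b97d5b)) (.lf (nat_lit 0x812c16d9e7a56adbb8))) (.lf (nat_lit 0x8008358151e5619ccc)) (.lf (nat_lit 0x800e2b9556464d3b55)) (.nd (.lf (nat_lit 0x8008008004c3785f4c)) (.lf (nat_lit 0x82880080038b589e2a)) (.lf (nat_lit 0x80080080080895efe1)) (.lf (nat_lit 0x80080f8116526fbfc1))) (.lf (nat_lit 0x80083b8341f43b7afd)) (.lf (nat_lit 0x83457889531ea3ed52)))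
  _ _ _ (by decide +kernel)

noncomputable def g2_m100_m20 : GD 2 (-100) (-20) := chk_sound 
  (.cell (.nd (.lf (nat_lit 0x814a47b0496da4ae83)) (.lf (nat_lit 0x80b603c2eacd21c803)) (.lf (nat_lit 0x80982e824ca0bc7d51)) (.lf (nat_lit 0x82cc01dc17325d4b13))) (.lf (nat_lit 0x83d7d19111d863ecaa)) (.lf (nat_lit 0xc0f9d7b924105d5b56)) (.nd (.lf (nat_lit 0x80082680940b796ef0)) (.lf (nat_lit 0x80082381c309574dba)) (.lf (nat_lit 0x8008018117759a7fce)) (.lf (nat_lit 0x80880080064b6c0fb7))) (.lf (nat_lit 0x8038208131c93c6aba)) (.lf (nat_lit 0x8007d281f245a37d1e)))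
  _ _ _ (by decide +kernel)

theorem g3_m104_m24 : GD 3 (-104) (-24) :=
  GD.split (i := 2) g2_m108_m28 g2_m100_m28 g2_m108_m20 g2_m100_m20 (by decide)

noncomputable def g2_m108_m12 : GD 2 (-108) (-12) := chk_sound 
  (.cell (.nd (.lf (nat_lit 0x8008098209d9a6df65)) (.lf (nat_lit 0x80079b8a7c3213f861)) (.lf (nat_lit 0x80081781dc57c11d58)) (.lf (nat_lit 0x829cb9d7d7fa7beb63))) (.lf (nat_lit 0x8008008001f860cce0)) (.lf (nat_lit 0x853e08a4f6b4525b82)) (.nd (.lf (nat_lit 0x800801806508795f6a)) (.lf (nat_lit 0x81e8008003af57be3e)) (.lf (nat_lit 0x8008008007e99c6fcc)) (.lf (nat_lit 0x80080f80a6f0791fea))) (.lf (nat_lit 0x839d70c7d620691af1)) (.lf (nat_lit 0x8007ff816259a51d29)))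
  _ _ _ (by decide +kernel)

noncomputable def g2_m100_m12 : GD 2 (-100) (-12) := chk_sound 
  (.cell (.nd (.lf (nat_lit 0x80080e8139baa70f6b)) (.lf (nat_lit 0x8007868e2bda112848)) (.lf (nat_lit 0x80082d81fc41c23d5c)) (.lf (nat_lit 0x816bb3e2c7c36e8b4f))) (.lf (nat_lit 0x80080d81a1de608cbd)) (.lf (nat_lit 0xb42c79afd7384f6bd1)) (.nd (.lf (nat_lit 0x82a8008004557a3f19)) (.lf (nat_lit 0x80080181a31f559dc1)) (.lf (nat_lit 0x80580080076c94bfdf)) (.lf (nat_lit 0x800800800685755fd5))) (.lf (nat_lit 0x8008318191ba37fa10)) (.lf (nat_lit 0x8007ff8081d7affc20)))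
  _ _ _ (by decide +kernel)

noncomputable def g2_m108_m4 : GD 2 (-108) (-4) := chk_sound 
  (.cell (.nd (.lf (nat_lit 0x80ea4ea9a8fe977efc)) (.lf (nat_lit 0x8057b0875c8116f87b)) (.lf (nat_lit 0x828800800c0dbb8dce)) (.lf (nat_lit 0x800c3cd6d9f7a9da6e))) (.lf (nat_lit 0x82370f9172de512d31)) (.lf (nat_lit 0xa23d6eb7a7235ddb89)) (.lf (nat_lit 0x8068008006b175afdd)) (.lf (nat_lit 0x80ad05c0a87589ecad)) (.lf (nat_lit 0x8198008001cbb8eb93)))
  _ _ _ (by decide +kernel)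

noncomputable def g2_m100_m4 : GD 2 (-100) (-4) := chk_sound 
  (.cell (.nd (.lf (nat_lit 0x805a33a498ed99ff1a)) (.lf (nat_lit 0x80b7a8891c3d14587d)) (.lf (nat_lit 0x808820821bebbbfde1)) (.lf (nat_lit 0x800cb2d9693497faa6))) (.lf (nat_lit 0x8008018101f45f5cd1)) (.lf (nat_lit 0xb95bfac2377b630bd3)) (.nd (.lf (nat_lit 0x820800800487789f30)) (.lf (nat_lit 0x80081881935e55edf6)) (.lf (nat_lit 0x80080080075097afd5)) (.lf (nat_lit 0x8008058086a9775fde))) (.lf (nat_lit 0x82fd9cc809ea9afa65)) (.lf (nat_lit 0x8007d9811195bfca9e)))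
  _ _ _ (by decide +kernel)

theorem g3_m104_m8 : GD 3 (-104) (-8) :=
  GD.split (i := 2) g2_m108_m12 g2_m100_m12 g2_m108_m4 g2_m100_m4 (by decide)

noncomputable def g2_m108_4 : GD 2 (-108) 4 := chk_sound 
  (.cell (.nd (.lf (nat_lit 0x841a69a8a9108b3f13)) (.lf (nat_lit 0x800800800daa4e2cb5)) (.lf (nat_lit 0x80082b809bb3b44e4b)) (.lf (nat_lit 0x800831843ce1d22bb4))) (.lf (nat_lit 0x8008348102f4508d72)) (.lf (nat_lit 0xa53ceac4c7697f4bf3)) (.lf (nat_lit 0x8008078097467bdff6)) (.nd (.lf (nat_lit 0x80281781030544bd0a)) (.lf (nat_lit 0x80085b8491b632f8fe)) (.lf (nat_lit 0x809b6fab280b86aeb0)) (.lf (nat_lit 0x80b85b853de0ceea37))) (.lf (nat_lit 0x80e78a897ced1c1852)))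
  _ _ _ (by decide +kernel)

noncomputable def g2_m100_4 : GD 2 (-100) 4 := chk_sound 
  (.cell (.nd (.lf (nat_lit 0x80c9c6a2e90f920f54)) (.lf (nat_lit 0x80c79b899c8617989a)) (.lf (nat_lit 0x80082881cbdab7be15)) (.lf (nat_lit 0x808820823cb8d8bb4e))) (.lf (nat_lit 0x80081c81727a54bd1c)) (.lf (nat_lit 0xb87c10ca377f7a1ba0)) (.lf (nat_lit 0x8007ff8026fc7bdfee)) (.nd (.lf (nat_lit 0x80082d82824b41fc09)) (.lf (nat_lit 0x8078638431a43428e4)) (.lf (nat_lit 0x82ab92ac47bc84ae96)) (.lf (nat_lit 0x802845841dd5cfca3a))) (.lf (nat_lit 0x80a77a8abce31bd85d)))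
  _ _ _ (by decide +kernel)

noncomputable def g2_m108_12 : GD 2 (-108) 12 := chk_sound 
  (.cell (.nd (.lf (nat_lit 0x812a8fa1d9548a0f21)) (.lf (nat_lit 0x8007d6808e07764d38)) (.lf (nat_lit 0x800800800b70ad4ea5)) (.lf (nat_lit 0x800835829d60beac70))) (.lf (nat_lit 0x80481b8163414edda7)) (.lf (nat_lit 0xaf5c6ebb58f2956c61)) (.lf (nat_lit 0x8008018096b4758fdd)) (.lf (nat_lit 0x821b83ab47f2862ea5)) (.lf (nat_lit 0x8087628cbce11c1857)))
  _ _ _ (by decide +kernel)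

noncomputable def g2_m100_12 : GD 2 (-100) 12 := chk_sound 
  (.cell (.nd (.lf (nat_lit 0x800801811970922fc9)) (.lf (nat_lit 0x8007f1812dbc679d5c)) (.lf (nat_lit 0x80681a814b5caeeea4)) (.lf (nat_lit 0x800801827d11c2bc92))) (.lf (nat_lit 0x8008338153064f5d78)) (.lf (nat_lit 0xa0fcccbf483d8dfc80)) (.lf (nat_lit 0x80b8008006e578efe9)) (.lf (nat_lit 0x806b4ca88858898ecc)) (.lf (nat_lit 0x8077a986dcd61ac876)))
  _ _ _ (by decide +kernel)

theorem g3_m104_8 : GD 3 (-104) 8 :=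
  GD.split (i := 2) g2_m108_4 g2_m100_4 g2_m108_12 g2_m100_12 (by decide)

noncomputable def g2_m108_20 : GD 2 (-108) 20 := chk_sound 
  (.cell (.nd (.lf (nat_lit 0x828a909d899a8a6f24)) (.lf (nat_lit 0x81e6b085ae81773c6a)) (.lf (nat_lit 0x81d800800b55a77ed7)) (.lf (nat_lit 0x804822815d75b65cc2))) (.nd (.lf (nat_lit 0x823b23b4561b6e5e37)) (.lf (nat_lit 0x8007c6abe3025b4d1e)) (.lf (nat_lit 0x81680080042152de67)) (.lf (nat_lit 0x80882a81e232357aea))) (.lf (nat_lit 0x83fd45ab696d977cf6)) (.lf (nat_lit 0x80080e80e70e751fea)) (.lf (nat_lit 0x82db55aac840890ebc)) (.lf (nat_lit 0x80777b8abcd11ae848)))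
  _ _ _ (by decide +kernel)

noncomputable def g2_m100_20 : GD 2 (-100) 20 := chk_sound 
  (.cell (.nd (.lf (nat_lit 0x8009979229d68a7f82)) (.lf (nat_lit 0x8007e9802e027f2d47)) (.lf (nat_lit 0x818800800b12a78ef6)) (.lf (nat_lit 0x805839826d34b72cff))) (.lf (nat_lit 0x80080d81630d451d16)) (.lf (nat_lit 0x954cfbaf193e95bd0a)) (.lf (nat_lit 0x8088008007507caff7)) (.lf (nat_lit 0x81eb2aa8a82e886edf)) (.lf (nat_lit 0x8007888a7cc61a6869)))
  _ _ _ (by decide +kernel)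

noncomputable def g2_m108_28 : GD 2 (-108) 28 := chk_sound 
  (.cell (.lf (nat_lit 0x8217a18c7c88ac1dec)) (.lf (nat_lit 0x82bbb4b406e0724e23)) (.lf (nat_lit 0x836d55b9596e991c43)) (.lf (nat_lit 0x80080a80c76e73bff1)) (.lf (nat_lit 0x82ba98a248fb95cf0f)) (.lf (nat_lit 0x81272d91ccaa1a882f)))
  _ _ _ (by decide +kernel)

noncomputable def g2_m100_28 : GD 2 (-100) 28 := chk_sound 
  (.cell (.nd (.lf (nat_lit 0x89478e8caa06908f98)) (.lf (nat_lit 0x8007bf805eaa7e7c6a)) (.lf (nat_lit 0x80080b819b08a22f16)) (.lf (nat_lit 0x80081a816d41b0fd32))) (.lf (nat_lit 0x827bc7b2e6b671ae18)) (.lf (nat_lit 0x82fd3db6498899bc7b)) (.lf (nat_lit 0x80080180b6d0708fda)) (.lf (nat_lit 0x810a7e9f48e3972f25)) (.lf (nat_lit 0x8007738becb119984b)))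
  _ _ _ (by decide +kernel)

theorem g3_m104_24 : GD 3 (-104) 24 :=
  GD.split (i := 2) g2_m108_20 g2_m100_20 g2_m108_28 g2_m100_28 (by decide)

noncomputable def g2_m108_36 : GD 2 (-108) 36 := chk_sound 
  (.cell (.lf (nat_lit 0x800835813cfeaaada6)) (.lf (nat_lit 0x821b4cad06b66efe83)) (.lf (nat_lit 0x82ad34b4a85e931cf3)) (.lf (nat_lit 0x8007ff8117d570dff1)) (.nd (.lf (nat_lit 0x80180380480c814fff)) (.lf (nat_lit 0x822b56abc8c9920e98)) (.lf (nat_lit 0x814800800ae09ddf3a)) (.lf (nat_lit 0x823800800cc4b19da0))) (.lf (nat_lit 0x8166b59dcc661b8817)))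
  _ _ _ (by decide +kernel)

noncomputable def g2_m100_36 : GD 2 (-100) 36 := chk_sound 
  (.cell (.lf (nat_lit 0x83b7d6866c9eac1de7)) (.lf (nat_lit 0x829b55ad368a6d4e6f)) (.lf (nat_lit 0x836d41b6b9e39bfc3f)) (.lf (nat_lit 0x80280780a73a6dffe1)) (.lf (nat_lit 0x819a6d9f090497af26)) (.lf (nat_lit 0x8007e6836c9f17b829)))
  _ _ _ (by decide +kernel)

noncomputable def g2_m108_44 : GD 2 (-108) 44 := chk_sound 
  (.cell (.lf (nat_lit 0x82c800800d58a69d70)) (.lf (nat_lit 0x81fb1aabd69d6d9e9a)) (.lf (nat_lit 0x82fd29af78288eed42)) (.lf (nat_lit 0x80880080085f77eff9)) (.lf (nat_lit 0x819a4a9fe92e9b6f1a)) (.lf (nat_lit 0x80274b91bc4b162811)))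
  _ _ _ (by decide +kernel)

noncomputable def g2_m100_44 : GD 2 (-100) 44 := chk_sound 
  (.cell (.lf (nat_lit 0x80681580ccbbaaaddf)) (.lf (nat_lit 0x82bb1bab16746c1e91)) (.lf (nat_lit 0x830d18b3286a8ebd2c)) (.lf (nat_lit 0x80e7898f483a7d7fec)) (.lf (nat_lit 0x81fa5d9eb8b1950f3f)) (.lf (nat_lit 0x80a7698e4c6b16c815)))
  _ _ _ (by decide +kernel)

theorem g3_m104_40 : GD 3 (-104) 40 :=
  GD.split (i := 2) g2_m108_36 g2_m100_36 g2_m108_44 g2_m100_44 (by decide)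

noncomputable def g2_m108_52 : GD 2 (-108) 52 := chk_sound 
  (.cell (.lf (nat_lit 0x823800800e1f9bfcd7)) (.lf (nat_lit 0x828ac8ab263a6baea6)) (.lf (nat_lit 0x87ad20ac776a8bdd60)) (.lf (nat_lit 0x8008008108db6e6fe0)) (.lf (nat_lit 0x82297294098ea4bf41)) (.lf (nat_lit 0x80877d8e9be4119843)))
  _ _ _ (by decide +kernel)

noncomputable def g2_m100_52 : GD 2 (-100) 52 := chk_sound 
  (.cell (.lf (nat_lit 0x839800800d66a4dd6e)) (.lf (nat_lit 0x821adcaa762e6a1e99)) (.lf (nat_lit 0x81bd3ab207be87dd28)) (.lf (nat_lit 0x8007fa8098276dafea)) (.lf (nat_lit 0x8149cc9868f59fdf51)) (.lf (nat_lit 0x80e7798e8c1a13882e)))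
  _ _ _ (by decide +kernel)

noncomputable def g2_m108_60 : GD 2 (-108) 60 := chk_sound 
  (.cell (.lf (nat_lit 0x800841810e289c0cca)) (.lf (nat_lit 0x822a91c4a6a17cbe17)) (.lf (nat_lit 0x83bbeaa9c2055c990d)) (.lf (nat_lit 0x83c94d88fa0e73df8f)) (.lf (nat_lit 0x80380a8108f7973fce)) (.lf (nat_lit 0x832c4fb9bc08747bf3)))
  _ _ _ (by decide +kernel)

noncomputable def g2_m100_60 : GD 2 (-100) 60 := chk_sound 
  (.cell (.lf (nat_lit 0x80083b819e239b9cd3)) (.lf (nat_lit 0x811aebbdd67d72fe21)) (.lf (nat_lit 0x850e1cae25086e9adf)) (.lf (nat_lit 0x83f9028869036cdfc2)) (.lf (nat_lit 0x80080180f92895efcb)) (.lf (nat_lit 0x854c32ad4cbf6c1bc4)))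
  _ _ _ (by decide +kernel)

theorem g3_m104_56 : GD 3 (-104) 56 :=
  GD.split (i := 2) g2_m108_52 g2_m100_52 g2_m108_60 g2_m100_60 (by decide)

noncomputable def g2_m108_68 : GD 2 (-108) 68 := chk_sound 
  (.cell (.lf (nat_lit 0x80083c813e269bdcce)) (.lf (nat_lit 0x80e74ca785e7f4780e)) (.lf (nat_lit 0x8108ab873ea5c5c85e)) (.lf (nat_lit 0xb576bc990a9e785e75)) (.lf (nat_lit 0x81ca188765378bdf25)) (.lf (nat_lit 0x81ccdfbd6ad17b7c2f)))
  _ _ _ (by decide +kernel)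

noncomputable def g2_m100_68 : GD 2 (-100) 68 := chk_sound 
  (.cell (.lf (nat_lit 0x832800800e249bacd2)) (.lf (nat_lit 0x817649ec76b7ba3875)) (.lf (nat_lit 0x808853837ee8bfe864)) (.lf (nat_lit 0xa7188a9d6a5b73def2)) (.lf (nat_lit 0x80094d85a61a8b2f9f)) (.lf (nat_lit 0x839d02ba7a8e770c52)))
  _ _ _ (by decide +kernel)

noncomputable def g2_m108_76 : GD 2 (-108) 76 := chk_sound 
  (.cell (.lf (nat_lit 0x80683780ee1a9b9cdf)) (.lf (nat_lit 0x8047809cca18083807)) (.lf (nat_lit 0x811895865e95c6b8c7)) (.lf (nat_lit 0xb4981f9d4c32690d7e)) (.lf (nat_lit 0x99996f825345a40da6)) (.lf (nat_lit 0x831ceebe0ad67f5c12)))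
  _ _ _ (by decide +kernel)

noncomputable def g2_m100_76 : GD 2 (-100) 76 := chk_sound 
  (.cell (.lf (nat_lit 0x828800800e199b7ce1)) (.lf (nat_lit 0x800738ad19fb0d380d)) (.lf (nat_lit 0x805886853eb1c3f8df)) (.lf (nat_lit 0x82eaa8913c0f64ae07)) (.lf (nat_lit 0x9f78bb821353a55dae)) (.lf (nat_lit 0x80ed1dbb1a937a0c2c)))
  _ _ _ (by decide +kernel)

theorem g3_m104_72 : GD 3 (-104) 72 :=
  GD.split (i := 2) g2_m108_68 g2_m100_68 g2_m108_76 g2_m100_76 (by decide)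

noncomputable def g2_m108_84 : GD 2 (-108) 84 := chk_sound 
  (.cell (.lf (nat_lit 0x800800800e079b7cf8)) (.lf (nat_lit 0x80a7b5919a0c05b828)) (.lf (nat_lit 0x81087e84febfc318b9)) (.lf (nat_lit 0x81f91f8a2c6a691e62)) (.lf (nat_lit 0x8067d98232eac28c8f)) (.lf (nat_lit 0x833c72bf4b9b863bed)))
  _ _ _ (by decide +kernel)

noncomputable def g2_m100_84 : GD 2 (-100) 84 := chk_sound 
  (.cell (.lf (nat_lit 0x80080180ae059b5cfb)) (.lf (nat_lit 0x8027dc876a0a04982e)) (.lf (nat_lit 0x840e35bb9af19ac83e)) (.lf (nat_lit 0x82754688ab6c64ee74)) (.lf (nat_lit 0x8007d38322eac3fc79)) (.lf (nat_lit 0x82fce9bccaed7eac1a)))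
  _ _ _ (by decide +kernel)

noncomputable def g2_m108_92 : GD 2 (-108) 92 := chk_sound .out
  _ _ _ (by decide +kernel)

noncomputable def g2_m100_92 : GD 2 (-100) 92 := chk_sound 
  (.cell (.lf (nat_lit 0x80982f813de89b7d1c)) (.lf (nat_lit 0x8007d28cd9ea04a862)) (.nd (.lf (nat_lit 0x800859865285235843)) (.lf (nat_lit 0x84196b8a7441bbbdca)) (.lf (nat_lit 0x81591691be2ab86b56)) (.lf (nat_lit 0x85ed829687298bed80))) (.lf (nat_lit 0x84892f8c5b87629eca)) (.lf (nat_lit 0x8007ca829307c8cc4d)) (.lf (nat_lit 0x83acadbd6b4b834c0e)))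
  _ _ _ (by decide +kernel)

theorem g3_m104_88 : GD 3 (-104) 88 :=
  GD.split (i := 2) g2_m108_84 g2_m100_84 g2_m108_92 g2_m100_92 (by decide)

noncomputable def g3_m104_104 : GD 3 (-104) 104 := chk_sound (.nd .out 
  (.cell (.lf (nat_lit 0x80084280bdc49c0d41)) (.lf (nat_lit 0x8007ea8809bf03e8ac)) (.nd (.lf (nat_lit 0x823c53dac55561b989)) (.lf (nat_lit 0x8007fa81138cd71bcf)) (.lf (nat_lit 0x800841819e4ab5fb9a)) (.lf (nat_lit 0x855cf78f4644927dd4))) (.lf (nat_lit 0x8a663f834ac85a9edf)) (.lf (nat_lit 0x8007d380e31aca2c4c)) (.lf (nat_lit 0x824c3bbe2bc887dc0e))) .out .out)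
  _ _ _ (by decide +kernel)

noncomputable def g2_m92_m108 : GD 2 (-92) (-108) := chk_sound .out
  _ _ _ (by decide +kernel)

noncomputable def g2_m84_m108 : GD 2 (-84) (-108) := chk_sound 
  (.cell (.lf (nat_lit 0x8007f386b650fc68b3)) (.lf (nat_lit 0x83480080023e647d46)) (.lf (nat_lit 0x828c65bb04b37fbc7d)) (.lf (nat_lit 0x8007ef802cf5342c1c)) (.lf (nat_lit 0x8118658431813b69c4)) (.lf (nat_lit 0x800632865484a77e82)))
  _ _ _ (by decide +kernel)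

noncomputable def g2_m92_m100 : GD 2 (-92) (-100) := chk_sound 
  (.cell (.lf (nat_lit 0x8047cb8e1620fb6865)) (.lf (nat_lit 0x80080080021764ed1d)) (.lf (nat_lit 0x80dce4bb64f7816c21)) (.lf (nat_lit 0x8007d7815d0435fc2a)) (.nd (.lf (nat_lit 0x867dd995c896728d2b)) (.lf (nat_lit 0x8088368141954f0ba7)) (.lf (nat_lit 0x84fb709f2aea452d1f)) (.lf (nat_lit 0x82abe4dd3b119829c9))) (.lf (nat_lit 0x82a8b187343f981ed9)))
  _ _ _ (by decide +kernel)

noncomputable def g2_m84_m100 : GD 2 (-84) (-100) := chk_sound 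
  (.cell (.lf (nat_lit 0x8007e488d64bfc38af)) (.lf (nat_lit 0x82e80080023c645d43)) (.lf (nat_lit 0x82ec86baf4bc7f8c63)) (.lf (nat_lit 0x8007da819cf034ac2a)) (.lf (nat_lit 0x80085c83c12c3fc901)) (.nd (.lf (nat_lit 0x85ec8e8cc6668cbe44)) (.lf (nat_lit 0x8007de80b34e863e76)) (.lf (nat_lit 0x80046cdcb650b0aa59)) (.lf (nat_lit 0x80080380e815eb6c59))))
  _ _ _ (by decide +kernel)

theorem g3_m88_m104 : GD 3 (-88) (-104) :=
  GD.split (i := 2) g2_m92_m108 g2_m84_m108 g2_m92_m100 g2_m84_m100 (by decide)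

noncomputable def g2_m92_m92 : GD 2 (-92) (-92) := chk_sound 
  (.cell (.lf (nat_lit 0x8047c08f3618fb285b)) (.lf (nat_lit 0x82b80080021364cd17)) (.lf (nat_lit 0x808c54bd04557f4c27)) (.lf (nat_lit 0x8077cb832d0436cc37)) (.nd (.lf (nat_lit 0x867da393b938727d52)) (.lf (nat_lit 0x80081d8181924ebb9e)) (.lf (nat_lit 0x8007fd81ac5a261ba9)) (.lf (nat_lit 0x80ac08df5acc977982))) (.lf (nat_lit 0x8229398c94b39f4edd)))
  _ _ _ (by decide +kernel)

noncomputable def g2_m84_m92 : GD 2 (-84) (-92) := chk_sound 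
  (.cell (.lf (nat_lit 0x8007d48bb643fbe8a6)) (.lf (nat_lit 0x8007ff806237644d3e)) (.lf (nat_lit 0x835c7cbd04987e1c34)) (.lf (nat_lit 0x8007eb826ced353c38)) (.nd (.lf (nat_lit 0x857db093482d69bd4d)) (.lf (nat_lit 0x80083080f1a24fabc6)) (.lf (nat_lit 0x8067cf839c4e32dcb3)) (.lf (nat_lit 0x824b56d57b8eafa9ac))) (.lf (nat_lit 0x8458e788e4c8a1eeec)))
  _ _ _ (by decide +kernel)

noncomputable def g2_m92_m84 : GD 2 (-92) (-84) := chk_sound 
  (.cell (.lf (nat_lit 0x8007ea867609fbc84d)) (.lf (nat_lit 0x80080180e20c64bd0f)) (.lf (nat_lit 0x838ce8bcf4dd7fcbf0)) (.lf (nat_lit 0x8007e5804d0837cc45)) (.nd (.lf (nat_lit 0x847d699289ba72dd71)) (.lf (nat_lit 0x80083981018f4e2b90)) (.lf (nat_lit 0x8067d6830c6b292bdc)) (.lf (nat_lit 0x815cbfda9a7e86d9bb))) (.lf (nat_lit 0x8359ab9144d1a44eb0)))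
  _ _ _ (by decide +kernel)

noncomputable def g2_m84_m84 : GD 2 (-84) (-84) := chk_sound 
  (.cell (.lf (nat_lit 0x8057da8a8636fbe897)) (.lf (nat_lit 0x80081c817231644d37)) (.lf (nat_lit 0x828c9dbd648e7b0bff)) (.lf (nat_lit 0x8037d3822ceb35dc45)) (.nd (.lf (nat_lit 0x87bd5f90a9216a7d8b)) (.lf (nat_lit 0x8007ff80b19f4efbb9)) (.lf (nat_lit 0x8007f982ec7f2aabe7)) (.lf (nat_lit 0x825c29db4ab89dd9cf))) (.nd (.lf (nat_lit 0x856bcd9c25659dee01)) (.lf (nat_lit 0x8007ff80c398919e95)) (.lf (nat_lit 0x8006e9afd4bfe41a09)) (.lf (nat_lit 0x80080582c815eafc63))))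
  _ _ _ (by decide +kernel)

theorem g3_m88_m88 : GD 3 (-88) (-88) :=
  GD.split (i := 2) g2_m92_m92 g2_m84_m92 g2_m92_m84 g2_m84_m84 (by decide)

noncomputable def g2_m92_m76 : GD 2 (-92) (-76) := chk_sound 
  (.cell (.lf (nat_lit 0x8047aa946603fa183d)) (.lf (nat_lit 0x80082f81420564ad06)) (.lf (nat_lit 0x82fc4dbf642976ebd5)) (.lf (nat_lit 0x8007c583ad0e396c57)) (.nd (.lf (nat_lit 0x851c5d8d7b2e72cdc6)) (.lf (nat_lit 0x80081e8201af427b09)) (.lf (nat_lit 0x8037e0829c7c2c5c0e)) (.lf (nat_lit 0x80ad22d99909775a37))) (.lf (nat_lit 0x83988c86b44d98fee1)))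
  _ _ _ (by decide +kernel)

noncomputable def g2_m84_m76 : GD 2 (-84) (-76) := chk_sound 
  (.cell (.lf (nat_lit 0x8087c68ec629fb5883)) (.lf (nat_lit 0x800801808228644d2d)) (.lf (nat_lit 0x831c82bf8444755bac)) (.lf (nat_lit 0x80b7d382dcec36ac51)) (.nd (.lf (nat_lit 0x834c4c8b9af16b5de2)) (.lf (nat_lit 0x83b8008001b5441b34)) (.lf (nat_lit 0x818800800c892d1c10)) (.nd (.lf (nat_lit 0x820bfdc31542358922)) (.lf (nat_lit 0x80084084fcd1e33978)) (.lf (nat_lit 0x8027d5a2089a051804)) (.lf (nat_lit 0x80080882e9f2f4ea9a)))) (.lf (nat_lit 0x82866d8ce553a67eec)))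
  _ _ _ (by decide +kernel)

noncomputable def g2_m92_m68 : GD 2 (-92) (-68) := chk_sound 
  (.cell (.lf (nat_lit 0x8007be8e95f2fab829)) (.lf (nat_lit 0x80082e8121fc649cfb)) (.lf (nat_lit 0x82ccbbc0e461741b62)) (.lf (nat_lit 0x8006d186dd0f3f7c87)) (.nd (.lf (nat_lit 0x849b6d896c00703de7)) (.lf (nat_lit 0x80084b8251ad42ab06)) (.lf (nat_lit 0x8007ff825c8f302c45)) (.lf (nat_lit 0x83cdeaced8886e89ca))) (.lf (nat_lit 0x8229228d54afa1ced2)))
  _ _ _ (by decide +kernel)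

noncomputable def g2_m84_m68 : GD 2 (-84) (-68) := chk_sound 
  (.cell (.lf (nat_lit 0x8037d7891616fbb869)) (.lf (nat_lit 0x80080080021d645d21)) (.lf (nat_lit 0x836ca4c08450713b6b)) (.lf (nat_lit 0x8007d982dcf037bc5f)) (.nd (.lf (nat_lit 0x910a78848c4860fde1)) (.lf (nat_lit 0x8008458211b7442b38)) (.lf (nat_lit 0x8007d2812c932fbc38)) (.nd (.lf (nat_lit 0x800846850303236a52)) (.lf (nat_lit 0x800832842d86dba8bb)) (.lf (nat_lit 0x80080182a90c01b8b4)) (.lf (nat_lit 0x80081285e9e5f62a64)))) (.lf (nat_lit 0x973a0582a5b1aeaea1)))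
  _ _ _ (by decide +kernel)

theorem g3_m88_m72 : GD 3 (-88) (-72) :=
  GD.split (i := 2) g2_m92_m76 g2_m84_m76 g2_m92_m68 g2_m84_m68 (by decide)

noncomputable def g2_m92_m60 : GD 2 (-92) (-60) := chk_sound 
  (.cell (.lf (nat_lit 0x80877e9dc5eff7b814)) (.lf (nat_lit 0x8008218151f2648cee)) (.lf (nat_lit 0x81bd21c224cf749b24)) (.lf (nat_lit 0x8134478b1c515bbd15)) (.nd (.lf (nat_lit 0x8a1aa8872c716efdf4)) (.lf (nat_lit 0x80081c8271a7432b06)) (.lf (nat_lit 0x8007c982cca0353c8b)) (.lf (nat_lit 0x832e01c886846849b7))) (.lf (nat_lit 0x8057d6815409988ec6)))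
  _ _ _ (by decide +kernel)

noncomputable def g2_m84_m60 : GD 2 (-84) (-60) := chk_sound 
  (.cell (.lf (nat_lit 0x8007ce8b1604fb584c)) (.lf (nat_lit 0x80083e80a212647d14)) (.lf (nat_lit 0x80ecaec144526e4b44)) (.lf (nat_lit 0x8007d3835cf7394c70)) (.nd (.lf (nat_lit 0x94f97a82fc9e5d1dd4)) (.lf (nat_lit 0x8008228171b7449b42)) (.lf (nat_lit 0x8087de826c9e32cc64)) (.nd (.lf (nat_lit 0x800b99b3535d46ca89)) (.lf (nat_lit 0x806848844de5d61855)) (.lf (nat_lit 0x8007f18548f4027928)) (.lf (nat_lit 0x8008228729d1f7da17)))) (.lf (nat_lit 0x8005a3837584ad8ea4)))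
  _ _ _ (by decide +kernel)

noncomputable def g2_m92_m52 : GD 2 (-92) (-52) := chk_sound 
  (.cell (.lf (nat_lit 0x8006dbc069de172803)) (.lf (nat_lit 0x81b8008001e8645ce1)) (.nd (.lf (nat_lit 0x800acdaae47f915df5)) (.lf (nat_lit 0x831b9ab7a340533ae9)) (.lf (nat_lit 0x80080283f806f5ab23)) (.lf (nat_lit 0x822800800c3fe72a16))) (.lf (nat_lit 0x8962e9871af66f0d41)) (.nd (.lf (nat_lit 0x880ae889fc3f764e0a)) (.lf (nat_lit 0x80085c82b1a6440b11)) (.lf (nat_lit 0x8047cf828cac3c5ceb)) (.lf (nat_lit 0x848c3daf940a3c09d4))) (.lf (nat_lit 0x8388d48ad3e79cee89)))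
  _ _ _ (by decide +kernel)

noncomputable def g2_m84_m52 : GD 2 (-84) (-52) := chk_sound 
  (.cell (.lf (nat_lit 0x8007c48df5f1fac82d)) (.lf (nat_lit 0x80b829810204648d04)) (.nd (.nd (.lf (nat_lit 0x8007e481c457a51eb9)) (.lf (nat_lit 0x80082e80c249701d81)) (.lf (nat_lit 0x80080683a822df9d50)) (.lf (nat_lit 0x832b6cb304858f6d63))) (.lf (nat_lit 0x82ba16a232403faa67)) (.lf (nat_lit 0x80080e826893ef1bed)) (.lf (nat_lit 0x80b85485dd26df0965))) (.lf (nat_lit 0x8067d1822d033bac88)) (.nd (.lf (nat_lit 0x800984815cc05c2dd6)) (.lf (nat_lit 0x80581480c1b8455b52)) (.lf (nat_lit 0x8007db81aca5369c9d)) (.nd (.lf (nat_lit 0x8008558481c0337957)) (.lf (nat_lit 0x808831828de7d63826)) (.lf (nat_lit 0x8007ec87a92a064a1d)) (.lf (nat_lit 0x8028118489bdfa299b)))) (.lf (nat_lit 0x82c9278f34f7aceeae)))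
  _ _ _ (by decide +kernel)

theorem g3_m88_m56 : GD 3 (-88) (-56) :=
  GD.split (i := 2) g2_m92_m60 g2_m84_m60 g2_m92_m52 g2_m84_m52 (by decide)

noncomputable def g2_m92_m44 : GD 2 (-92) (-44) := chk_sound 
  (.cell (.lf (nat_lit 0x806660e669ca3f08d1)) (.lf (nat_lit 0x82e8008001df641cd4)) (.nd (.lf (nat_lit 0x813af4aee4668f1dba)) (.lf (nat_lit 0x82eb4ab54304501ade)) (.lf (nat_lit 0x80080184277af83aae)) (.lf (nat_lit 0x80984f872c36e9a988))) (.lf (nat_lit 0x8ab28283aa05796d64)) (.nd (.lf (nat_lit 0x852b648efbc57d8e1b)) (.lf (nat_lit 0x80080181a1ae440b27)) (.lf (nat_lit 0x800898815c914a4d9c)) (.lf (nat_lit 0x8008148092652d7a6d))) (.lf (nat_lit 0x81aa9b8e546fb44dbe)))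
  _ _ _ (by decide +kernel)

noncomputable def g2_m84_m44 : GD 2 (-84) (-44) := chk_sound 
  (.cell (.lf (nat_lit 0x80979a9695e2f9280e)) (.lf (nat_lit 0x8008168151f6647cf3)) (.nd (.lf (nat_lit 0x800a17a1c440967e41)) (.lf (nat_lit 0x833b5fbd934d5c8b48)) (.lf (nat_lit 0x8007ff84783bf1aba9)) (.lf (nat_lit 0x807840845d5edd4904))) (.lf (nat_lit 0x8634968eec85577cf2)) (.nd (.lf (nat_lit 0x868a43868c4e6a8e2e)) (.lf (nat_lit 0x80c84c8311c9459b72)) (.lf (nat_lit 0x8007d481cca13bccee)) (.lf (nat_lit 0x818b49a0535e335a27))) (.lf (nat_lit 0x80f9308fb509b51e77)))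
  _ _ _ (by decide +kernel)

noncomputable def g2_m92_m36 : GD 2 (-92) (-36) := chk_sound 
  (.cell (.lf (nat_lit 0x8009aeb51ae0305c22)) (.lf (nat_lit 0x8008368131d763acc7)) (.nd (.lf (nat_lit 0x800af3af946f8f6dba)) (.lf (nat_lit 0x81ea26b19275482a9c)) (.lf (nat_lit 0x8007f084c6c1f9ca19)) (.lf (nat_lit 0x800819836bfaee28d6))) (.lf (nat_lit 0x800d608138cb843ddd)) (.nd (.lf (nat_lit 0x849c0d96fae4828e16)) (.lf (nat_lit 0x8008338231974a6b67)) (.lf (nat_lit 0x84296187ebfc60be7c)) (.lf (nat_lit 0x80483282e36d2e2c19))) (.lf (nat_lit 0x8007ff818351aabde8)))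
  _ _ _ (by decide +kernel)

noncomputable def g2_m84_m36 : GD 2 (-84) (-36) := chk_sound 
  (.cell (.lf (nat_lit 0x800787997a3207e810)) (.lf (nat_lit 0x80d83780f1ea642ce2)) (.nd (.lf (nat_lit 0x817a44a4b45295ae2e)) (.lf (nat_lit 0x819b87bd83615c7b3b)) (.lf (nat_lit 0x8008008007aef4bb44)) (.lf (nat_lit 0x80084f863ce7e25962))) (.lf (nat_lit 0x8622e68f7b476eccff)) (.nd (.lf (nat_lit 0x86fac28b9bca736e61)) (.lf (nat_lit 0x80b82f81a1bd4b4bb8)) (.lf (nat_lit 0x8007d482bc87436d64)) (.lf (nat_lit 0x80082482f2fb24da7e))) (.lf (nat_lit 0x8007de809423ac7e6d)))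
  _ _ _ (by decide +kernel)

theorem g3_m88_m40 : GD 3 (-88) (-40) :=
  GD.split (i := 2) g2_m92_m44 g2_m84_m44 g2_m92_m36 g2_m84_m36 (by decide)

noncomputable def g2_m92_m28 : GD 2 (-92) (-28) := chk_sound 
  (.cell (.lf (nat_lit 0x87cb3cc4995b56bd23)) (.lf (nat_lit 0x83489195c1e26a3cbe)) (.nd (.lf (nat_lit 0x826acdb0a4438f6da8)) (.lf (nat_lit 0x83398fa9e24d3e7a51)) (.lf (nat_lit 0x8007e28605edf9596a)) (.lf (nat_lit 0x80083c87946a0e184e))) (.lf (nat_lit 0x800c0f90488683fecb)) (.lf (nat_lit 0x8007b394f1ed3caabe)) (.lf (nat_lit 0x83280080025ca9dd07)))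
  _ _ _ (by decide +kernel)

noncomputable def g2_m84_m28 : GD 2 (-84) (-28) := chk_sound 
  (.cell (.lf (nat_lit 0x83287fc58aea2d4b19)) (.lf (nat_lit 0x8008909551ee6aecd3)) (.nd (.lf (nat_lit 0x826a50a6f42d959e05)) (.lf (nat_lit 0x81fab7bab2d850baca)) (.lf (nat_lit 0x8007fc84d6ebf74aac)) (.lf (nat_lit 0x80381d82dc1cecb8ee))) (.lf (nat_lit 0x82629d89fa3c7c4d6e)) (.lf (nat_lit 0x82cc79bc5662768d2d)) (.lf (nat_lit 0x8077e181b338bb2d3c)))
  _ _ _ (by decide +kernel)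

noncomputable def g2_m92_m20 : GD 2 (-92) (-20) := chk_sound 
  (.cell (.nd (.lf (nat_lit 0x81b8d1994a77942f4a)) (.lf (nat_lit 0x8047c28a4516f6786f)) (.lf (nat_lit 0x8309f995e96e699f5c)) (.lf (nat_lit 0x81dacedc575b424abd))) (.lf (nat_lit 0x83288c95e1e168ccb6)) (.lf (nat_lit 0x81dbcec7b43e7d0be8)) (.lf (nat_lit 0x8008018107ba71eff2)) (.lf (nat_lit 0x8188008001a13d4a70)) (.lf (nat_lit 0x8007f2820206b2ac44)))
  _ _ _ (by decide +kernel)

noncomputable def g2_m84_m20 : GD 2 (-84) (-20) := chk_sound 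
  (.cell (.lf (nat_lit 0x800ae1cf59b858fcb6)) (.lf (nat_lit 0x83e8789711e56a7cbf)) (.nd (.lf (nat_lit 0x826abdaa846996eddf)) (.lf (nat_lit 0x841918a6c23d3ada39)) (.lf (nat_lit 0x8007dd87a604f829d8)) (.lf (nat_lit 0x80087692bacff6084d))) (.lf (nat_lit 0x888c8b8529e384de45)) (.lf (nat_lit 0x8008628341783e3a0c)) (.lf (nat_lit 0x8007c982e26cbfcc1c)))
  _ _ _ (by decide +kernel)

theorem g3_m88_m24 : GD 3 (-88) (-24) :=
  GD.split (i := 2) g2_m92_m28 g2_m84_m28 g2_m92_m20 g2_m84_m20 (by decide)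

noncomputable def g2_m92_m12 : GD 2 (-92) (-12) := chk_sound 
  (.cell (.nd (.lf (nat_lit 0x815a06aa49719e9ede)) (.lf (nat_lit 0x8116e6a4b4b9ed6802)) (.lf (nat_lit 0x80082f82aceeb8cd33)) (.lf (nat_lit 0x827bc0e537a5685ac1))) (.lf (nat_lit 0x82798293020a68bcc1)) (.lf (nat_lit 0x830b25d0842471eb9e)) (.nd (.lf (nat_lit 0x81d82a8043747c5e93)) (.lf (nat_lit 0x80283b81e283537d1a)) (.lf (nat_lit 0x814aefa317428a2f0b)) (.lf (nat_lit 0x805800800820789ffc))) (.lf (nat_lit 0x8078618421983949c6)) (.lf (nat_lit 0x8007d880d1b3bbfb31)))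
  _ _ _ (by decide +kernel)

noncomputable def g2_m84_m12 : GD 2 (-84) (-12) := chk_sound 
  (.cell (.nd (.lf (nat_lit 0x82080eb5eb5b6f8e59)) (.lf (nat_lit 0x8097aa8d7506f59887)) (.lf (nat_lit 0x82b9dc940a9d7abf36)) (.lf (nat_lit 0x81aa9bea67df545a57))) (.lf (nat_lit 0x8267ff9bc1de6a4ca2)) (.lf (nat_lit 0x83bc50cea54c8c1ba6)) (.lf (nat_lit 0x827a7c866922837f81)) (.lf (nat_lit 0x80086283516e3a9953)) (.lf (nat_lit 0x8288008001fdc63aec)))
  _ _ _ (by decide +kernel)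

noncomputable def g2_m92_m4 : GD 2 (-92) (-4) := chk_sound 
  (.cell (.nd (.lf (nat_lit 0x8159c09a19319ddf4e)) (.lf (nat_lit 0x80178b8cdbe311585c)) (.lf (nat_lit 0x800801817befba0df2)) (.lf (nat_lit 0x800c95dd68f1931a92))) (.lf (nat_lit 0x8008338091de5f8cb6)) (.lf (nat_lit 0xb20b7fce26de6b6be6)) (.nd (.lf (nat_lit 0x8008008003be7a8ec3)) (.lf (nat_lit 0x8108008002b852cd4c)) (.lf (nat_lit 0x8007ef8066ab960fc4)) (.lf (nat_lit 0x8109268e2672751fae))) (.lf (nat_lit 0x80084a824190360901)) (.lf (nat_lit 0x8007d381419dc6f9dc)))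
  _ _ _ (by decide +kernel)

noncomputable def g2_m84_m4 : GD 2 (-84) (-4) := chk_sound 
  (.cell (.nd (.lf (nat_lit 0x81597ca9a9dd969f0a)) (.lf (nat_lit 0x8007df844b8a0d680c)) (.lf (nat_lit 0x82d800800cd1b1ed92)) (.lf (nat_lit 0x829c7ddfc92895aa34))) (.lf (nat_lit 0x8008278161d4602cad)) (.lf (nat_lit 0x9b8bc6d6d5827eeb56)) (.lf (nat_lit 0x80e8be88767a745fc4)) (.lf (nat_lit 0x80b89a867174381895)) (.lf (nat_lit 0x8007d18211e9cec99b)))
  _ _ _ (by decide +kernel)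

theorem g3_m88_m8 : GD 3 (-88) (-8) :=
  GD.split (i := 2) g2_m92_m12 g2_m84_m12 g2_m92_m4 g2_m84_m4 (by decide)

noncomputable def g2_m92_4 : GD 2 (-92) 4 := chk_sound 
  (.cell (.nd (.nd (.lf (nat_lit 0x80b8008008f18e0fe5)) (.lf (nat_lit 0x8007838b9c6816888a)) (.lf (nat_lit 0x80081180c9d69e8f8c)) (.lf (nat_lit 0x8059399f2a6ca7fed3))) (.lf (nat_lit 0x8087948abc3f14c899)) (.lf (nat_lit 0x80081f813bdbb75e18)) (.lf (nat_lit 0x800837826cf9da8aad))) (.lf (nat_lit 0x80083b80e1f85dfccc)) (.lf (nat_lit 0xab1bfdca374a7c8c56)) (.lf (nat_lit 0x80a8e58ae75e829fe4)) (.lf (nat_lit 0x825d3fbf3a3a9f8b73)) (.lf (nat_lit 0x8087b1872ccf1a585d)))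
  _ _ _ (by decide +kernel)

noncomputable def g2_m84_4 : GD 2 (-84) 4 := chk_sound 
  (.cell (.nd (.nd (.lf (nat_lit 0x80a7c8850c73163883)) (.lf (nat_lit 0x80077b8d1c3814b879)) (.lf (nat_lit 0x817a739dc9498c3f3b)) (.lf (nat_lit 0x810958ad2a80a5de82))) (.lf (nat_lit 0x800801813bf8113879)) (.lf (nat_lit 0x800823828c2bb5bdf1)) (.lf (nat_lit 0x8259e0a00cc0d4da67))) (.lf (nat_lit 0x8008018181e25e9cb5)) (.lf (nat_lit 0xa2fbedcf46fc834c43)) (.nd (.lf (nat_lit 0x8078228073ca704eba)) (.lf (nat_lit 0x80082b81c2bb53ed58)) (.nd (.lf (nat_lit 0x8006338ab3f4946e81)) (.lf (nat_lit 0x8008018026dc7f3feb)) (.lf (nat_lit 0x818544a0266e945ef5)) (.lf (nat_lit 0x80a80080095f8acfda))) (.lf (nat_lit 0x8158cf888952980faf))) (.lf (nat_lit 0x8129128c4e71c8c832)) (.lf (nat_lit 0x8007ab879cd61a982a)))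
  _ _ _ (by decide +kernel)

noncomputable def g2_m92_12 : GD 2 (-92) 12 := chk_sound 
  (.cell (.nd (.lf (nat_lit 0x80098597e9718c2f89)) (.lf (nat_lit 0x80d800800d833fac2b)) (.lf (nat_lit 0x80081f81bb97b23e6b)) (.lf (nat_lit 0x804824820cb0c9cc8d))) (.lf (nat_lit 0x81d8008002255b6cf1)) (.lf (nat_lit 0x9f3c97c478688e2c75)) (.lf (nat_lit 0x80f8f18b36d77bbfd2)) (.lf (nat_lit 0x810bcbad88858eee5a)) (.lf (nat_lit 0x80b798893cb919c88d)))
  _ _ _ (by decide +kernel)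

noncomputable def g2_m84_12 : GD 2 (-84) 12 := chk_sound 
  (.cell (.nd (.nd (.lf (nat_lit 0x80979c88dc8517d8d0)) (.lf (nat_lit 0x8007e084fc6e1648b9)) (.lf (nat_lit 0x800813802a1f8effa8)) (.lf (nat_lit 0x8189a59cbaa09aeef4))) (.lf (nat_lit 0x80b7a888ec4614f8b1)) (.lf (nat_lit 0x80080181dbdfb3fe33)) (.lf (nat_lit 0x800827821c57d28c4d))) (.lf (nat_lit 0x80081e8152035c6ccf)) (.lf (nat_lit 0x9efc79c73867908c62)) (.lf (nat_lit 0x80080180768e79afdb)) (.nd (.lf (nat_lit 0x80b8498331e6436b80)) (.lf (nat_lit 0x81388d86317e36a851)) (.lf (nat_lit 0x820c33afb84a8c5e10)) (.lf (nat_lit 0x826800800da3c9bb4f))) (.lf (nat_lit 0x8097a088dc97183894)))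
  _ _ _ (by decide +kernel)

theorem g3_m88_8 : GD 3 (-88) 8 :=
  GD.split (i := 2) g2_m92_4 g2_m84_4 g2_m92_12 g2_m84_12 (by decide)

noncomputable def g2_m92_20 : GD 2 (-92) 20 := chk_sound 
  (.cell (.nd (.lf (nat_lit 0x800800807a258cafaa)) (.lf (nat_lit 0x82c800800ddd72bd5f)) (.lf (nat_lit 0x800824813b0fa94eed)) (.lf (nat_lit 0x800819819ceeb8dd33))) (.lf (nat_lit 0x808823810280533d15)) (.lf (nat_lit 0x9aacc2b3d90094ad0a)) (.lf (nat_lit 0x80e800800696744fd6)) (.lf (nat_lit 0x81ab3ba618808b3edd)) (.lf (nat_lit 0x8007a187dcb2194887)))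
  _ _ _ (by decide +kernel)

noncomputable def g2_m84_20 : GD 2 (-84) 20 := chk_sound 
  (.cell (.nd (.lf (nat_lit 0x800800800a068f1fae)) (.lf (nat_lit 0x823800800dba6cfd74)) (.lf (nat_lit 0x800800800b39abaecb)) (.lf (nat_lit 0x800825829cb6bb4d4b))) (.lf (nat_lit 0x800800800242576cf4)) (.lf (nat_lit 0x9b5ca1b8389591ad13)) (.nd (.lf (nat_lit 0x8008218153de6aaeb7)) (.lf (nat_lit 0x80081480341d5efead)) (.nd (.lf (nat_lit 0x80065c94269c6cff82)) (.lf (nat_lit 0x80081380368575cfd5)) (.lf (nat_lit 0x8007ff821af6437e64)) (.lf (nat_lit 0x8008018068c5887ff2))) (.lf (nat_lit 0x80080080085d8e1ff1))) (.lf (nat_lit 0x831b6ba7b8c6910ea9)) (.lf (nat_lit 0x8007db822c9717c89e)))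
  _ _ _ (by decide +kernel)

noncomputable def g2_m92_28 : GD 2 (-92) 28 := chk_sound 
  (.cell (.nd (.lf (nat_lit 0x8de83e8c69f6915f96)) (.lf (nat_lit 0x832800800e577f4cdf)) (.lf (nat_lit 0x800800800ad4a27f2a)) (.lf (nat_lit 0x80081f805cfbb14d72))) (.lf (nat_lit 0x811c16b506476dbda8)) (.lf (nat_lit 0x8b9d15b6ba229f9c2f)) (.nd (.lf (nat_lit 0x81da91a2f5fc656ec4)) (.lf (nat_lit 0x80081580256f672f6a)) (.lf (nat_lit 0x841a979e88157c3f51)) (.lf (nat_lit 0x8007ff80c8998bbff1))) (.lf (nat_lit 0x81ea9e9f2847915f37)) (.lf (nat_lit 0x80a7c984ecab188868)))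
  _ _ _ (by decide +kernel)

noncomputable def g2_m84_28 : GD 2 (-84) 28 := chk_sound 
  (.cell (.nd (.lf (nat_lit 0x80f99b9049fd8fef72)) (.lf (nat_lit 0x8007d5809e0f7bcd36)) (.lf (nat_lit 0x806819819acca3cf27)) (.lf (nat_lit 0x80081f824cbcb1fda3))) (.lf (nat_lit 0x8008358122cb430cb8)) (.lf (nat_lit 0x8bacedab78fb92ed6e)) (.nd (.lf (nat_lit 0x80ead3a765e9644e86)) (.lf (nat_lit 0x80e8008004ed648f2e)) (.lf (nat_lit 0x8e48088e27dc813fe6)) (.lf (nat_lit 0x8007ff80586b8beff4))) (.lf (nat_lit 0x815b05a2d880934ef5)) (.lf (nat_lit 0x8057838b0c90182884)))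
  _ _ _ (by decide +kernel)

theorem g3_m88_24 : GD 3 (-88) 24 :=
  GD.split (i := 2) g2_m92_20 g2_m84_20 g2_m92_28 g2_m84_28 (by decide)

noncomputable def g2_m92_36 : GD 2 (-92) 36 := chk_sound 
  (.cell (.lf (nat_lit 0x800823820c95ab5df8)) (.lf (nat_lit 0x822bc9b276d4738e24)) (.lf (nat_lit 0x81cd03b70ab2a4cbce)) (.nd (.lf (nat_lit 0x80b98995863b642f53)) (.lf (nat_lit 0x80581280d601693f9d)) (.lf (nat_lit 0x80fa069ad8ab79bf84)) (.lf (nat_lit 0x8118008008ef8b3fea))) (.lf (nat_lit 0x811a609c98ec978f38)) (.lf (nat_lit 0x80479d890c9b181841)))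
  _ _ _ (by decide +kernel)

noncomputable def g2_m84_36 : GD 2 (-84) 36 := chk_sound 
  (.cell (.lf (nat_lit 0x8177ca85dc60ac2e16)) (.lf (nat_lit 0x837be3b256a3729e08)) (.lf (nat_lit 0x800851844e33c88a32)) (.nd (.lf (nat_lit 0x818a2a9d661c662f0d)) (.lf (nat_lit 0x800801814595675f77)) (.lf (nat_lit 0x9168b39268507f5fce)) (.lf (nat_lit 0x80080780e8ab8a8ff1))) (.lf (nat_lit 0x81ba4d9ac8e897ff44)) (.lf (nat_lit 0x8097dd834c9517685a)))
  _ _ _ (by decide +kernel)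

noncomputable def g2_m92_44 : GD 2 (-92) 44 := chk_sound 
  (.cell (.lf (nat_lit 0x828800800cb3ab1de2)) (.lf (nat_lit 0x80fb35abe6566b4e75)) (.lf (nat_lit 0x80dcbfb719da9d4cc7)) (.lf (nat_lit 0x8007648bf7b57a1fed)) (.lf (nat_lit 0x800a519cb8ea988f3a)) (.lf (nat_lit 0x8006f198ec66198823)))
  _ _ _ (by decide +kernel)

noncomputable def g2_m84_44 : GD 2 (-84) 44 := chk_sound 
  (.cell (.lf (nat_lit 0x81d800800ca9aafdeb)) (.lf (nat_lit 0x81ab61ada6416b2e4c)) (.lf (nat_lit 0x826c7ab419b89bbd3b)) (.nd (.lf (nat_lit 0x816a1b9f3679624f11)) (.lf (nat_lit 0x813800800612675f9b)) (.lf (nat_lit 0x8139ed9a38e97aaf87)) (.lf (nat_lit 0x80080180c90d8a0fe7))) (.lf (nat_lit 0x800a3e9ae862916f67)) (.lf (nat_lit 0x80074a908c7e182835)))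
  _ _ _ (by decide +kernel)

theorem g3_m88_40 : GD 3 (-88) 40 :=
  GD.split (i := 2) g2_m92_36 g2_m84_36 g2_m92_44 g2_m84_44 (by decide)

end Pool.Agent.P.MP_f12b6c_an.Dg
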