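import Pool.Agent.P.MP_f12b6c_an.T3DgDef

/-! Certificates for the diagonal statement. -/

set_option maxRecDepth 100000
set_option linter.defProp false

namespace Pool.Agent.P.MP_f12b6c_an.Dg

noncomputable def g2_m92_52 : GD 2 (-92) 52 := chk_sound 
  (.cell (.lf (nat_lit 0x80082f823cc3a84de9)) (.lf (nat_lit 0x81faf6aaa624696e88)) (.lf (nat_lit 0x83bd08b168688b2d55)) (.lf (nat_lit 0x81a74886b7af6c2fda)) (.lf (nat_lit 0x8199268ec92b994f9d)) (.lf (nat_lit 0x81075790ec40158828)))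
  _ _ _ (by decide +kernel)

noncomputable def g2_m84_52 : GD 2 (-84) 52 := chk_sound 
  (.cell (.lf (nat_lit 0x800800800cbfa96de5)) (.lf (nat_lit 0x825b27ac261f69ee67)) (.lf (nat_lit 0x829c5fb14931953dad)) (.nd (.lf (nat_lit 0x80e94895b6aa547f29)) (.lf (nat_lit 0x80380a80966464bfa5)) (.lf (nat_lit 0x81b957920980780fa4)) (.lf (nat_lit 0x80280f8079828a2fd4))) (.lf (nat_lit 0x8139008c98cd949fc0)) (.lf (nat_lit 0x80d7a2893c6615c82c)))
  _ _ _ (by decide +kernel)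

noncomputable def g2_m92_60 : GD 2 (-92) 60 := chk_sound 
  (.cell (.lf (nat_lit 0x80083081cd66a28d7d)) (.lf (nat_lit 0x800b23ba666f6f5e1b)) (.lf (nat_lit 0x83fdf9b1a7a1840c4b)) (.lf (nat_lit 0x81285d83683d6a1fdd)) (.lf (nat_lit 0x81080080091893ffd3)) (.lf (nat_lit 0x844ae8a0be265e7b02)))
  _ _ _ (by decide +kernel)

noncomputable def g2_m84_60 : GD 2 (-84) 60 := chk_sound 
  (.cell (.lf (nat_lit 0x82a800800d65a34d7a)) (.lf (nat_lit 0x825b58b946726f1e09)) (.lf (nat_lit 0x800d51ae07ce866d38)) (.lf (nat_lit 0x80280080080d659fd3)) (.lf (nat_lit 0x8008008008ee91dfde)) (.lf (nat_lit 0x8077ce826e8e404a3f)))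
  _ _ _ (by decide +kernel)

theorem g3_m88_56 : GD 3 (-88) 56 :=
  GD.split (i := 2) g2_m92_52 g2_m84_52 g2_m92_60 g2_m84_60 (by decide)

noncomputable def g2_m92_68 : GD 2 (-92) 68 := chk_sound 
  (.cell (.lf (nat_lit 0x80083c80ee209b4cd9)) (.lf (nat_lit 0x80e76ce0566bc969f8)) (.lf (nat_lit 0x82fed7ba666788f8f9)) (.lf (nat_lit 0x94b96d9729fa727f51)) (.lf (nat_lit 0x800801808650900fc1)) (.lf (nat_lit 0x826d08b60a4c72fc9d)))
  _ _ _ (by decide +kernel)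

noncomputable def g2_m84_68 : GD 2 (-84) 68 := chk_sound 
  (.cell (.lf (nat_lit 0x80081b818e1c9adce1)) (.lf (nat_lit 0x81a96adcc707a19ccc)) (.nd (.lf (nat_lit 0x843c20b6c87dd35acc)) (.lf (nat_lit 0x85499d8a75d2a5ef1b)) (.lf (nat_lit 0x843a8fa5be94a1aa07)) (.lf (nat_lit 0x812800800e6daaebef))) (.lf (nat_lit 0x82fa098d792f6d4f81)) (.lf (nat_lit 0x8007f481070a8e8fe3)) (.lf (nat_lit 0x836ce7b51a706f9cae)))
  _ _ _ (by decide +kernel)

noncomputable def g2_m92_76 : GD 2 (-92) 76 := chk_sound 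
  (.cell (.lf (nat_lit 0x800836815e169b3ce6)) (.lf (nat_lit 0x80576ba2aa04098813)) (.lf (nat_lit 0x80b869836ef7bdc891)) (.lf (nat_lit 0x884a8a889b83696e88)) (.lf (nat_lit 0xa768148123c09d8e09)) (.lf (nat_lit 0x826ce5ba7add7b1c49)))
  _ _ _ (by decide +kernel)

noncomputable def g2_m84_76 : GD 2 (-84) 76 := chk_sound 
  (.cell (.lf (nat_lit 0x80083d814e129afcec)) (.lf (nat_lit 0x80679a976a0606a81a)) (.lf (nat_lit 0x8088c6869100447890)) (.lf (nat_lit 0x8009e9905b3b688ed5)) (.lf (nat_lit 0xa3e7248163f19f2e29)) (.lf (nat_lit 0x830ccfbc1af7786c35)))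
  _ _ _ (by decide +kernel)

theorem g3_m88_72 : GD 3 (-88) 72 :=
  GD.split (i := 2) g2_m92_68 g2_m84_68 g2_m92_76 g2_m84_76 (by decide)

noncomputable def g2_m92_84 : GD 2 (-92) 84 := chk_sound 
  (.cell (.lf (nat_lit 0x82a800800e019b3d00)) (.lf (nat_lit 0x8087c68dda00050836)) (.nd (.lf (nat_lit 0x81fcecd9593ba5e935)) (.lf (nat_lit 0x823b899c2553ae2dbc)) (.lf (nat_lit 0x80884b82ae7cb39b61)) (.lf (nat_lit 0x866d6996960684ed58))) (.lf (nat_lit 0x830562880b3f67eea2)) (.lf (nat_lit 0x8007de8272ebc58c62)) (.lf (nat_lit 0x845c76bc0b887f3c2e)))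
  _ _ _ (by decide +kernel)

noncomputable def g2_m84_84 : GD 2 (-84) 84 := chk_sound 
  (.cell (.lf (nat_lit 0x80080180edfd9b0d06)) (.lf (nat_lit 0x8007ba91d9f5056840)) (.nd (.lf (nat_lit 0x830c74e4a77f984969)) (.lf (nat_lit 0x85b9908a741bc2fd52)) (.lf (nat_lit 0x80b83a81ae84b3eb4e)) (.lf (nat_lit 0x857dfb98e705891cf0))) (.lf (nat_lit 0x8007ec811bec706ee7)) (.lf (nat_lit 0x8007ff81b2edc71c4c)) (.lf (nat_lit 0x82fc49bcebcd80fc15)))
  _ _ _ (by decide +kernel)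

noncomputable def g2_m92_92 : GD 2 (-92) 92 := chk_sound 
  (.cell (.lf (nat_lit 0x80482a80ede39b6d22)) (.lf (nat_lit 0x8027c88ef9df04c86e)) (.nd (.lf (nat_lit 0x828b8fdb34b05a6985)) (.lf (nat_lit 0x8007e98303a2d5ec01)) (.lf (nat_lit 0x80e83d821e66b0bbb3)) (.lf (nat_lit 0x82bd6c93c6948ced82))) (.lf (nat_lit 0x83e91f8a8af45bbef4)) (.lf (nat_lit 0x8007e681f305c9ec38)) (.lf (nat_lit 0x82acd7bc1b1f7f3c15)))
  _ _ _ (by decide +kernel)

noncomputable def g2_m84_92 : GD 2 (-84) 92 := chk_sound 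
  (.cell (.lf (nat_lit 0x80b82c80addc9b5d2a)) (.lf (nat_lit 0x8007ff82b9d603c87c)) (.nd (.lf (nat_lit 0x80e88f8b03121c785d)) (.lf (nat_lit 0x8007d481c38cd8aba9)) (.lf (nat_lit 0x80083a80ae6bb13ba4)) (.lf (nat_lit 0x800d3a9065e78ecd83))) (.lf (nat_lit 0x8268d788caef5fef18)) (.lf (nat_lit 0x8007c682b305caec25)) (.lf (nat_lit 0x800c7abe9bbf85fbcd)))
  _ _ _ (by decide +kernel)

theorem g3_m88_88 : GD 3 (-88) 88 :=
  GD.split (i := 2) g2_m92_84 g2_m84_84 g2_m92_92 g2_m84_92 (by decide)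

noncomputable def g2_m92_100 : GD 2 (-92) 100 := chk_sound 
  (.cell (.lf (nat_lit 0x828800800dbd9c1d49)) (.lf (nat_lit 0x8007ed8309b10398be)) (.nd (.lf (nat_lit 0x82ac01e1257f63b94c)) (.lf (nat_lit 0x8077e882037ed6bbc6)) (.lf (nat_lit 0x800844822e56ae5beb)) (.lf (nat_lit 0x854cbb8c359f953dc9))) (.nd (.lf (nat_lit 0x8008008477bd15cc71)) (.lf (nat_lit 0x8007ec82ba551a5c41)) (.lf (nat_lit 0x8007d180ccc978ae64)) (.lf (nat_lit 0x850c3c9c59846fae48))) (.lf (nat_lit 0x8007de816318cadc3e)) (.lf (nat_lit 0x83cc9ebc9b69844c12)))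
  _ _ _ (by decide +kernel)

noncomputable def g2_m84_100 : GD 2 (-84) 100 := chk_sound 
  (.cell (.lf (nat_lit 0x80083f802db29c2d54)) (.lf (nat_lit 0x8047ed88e918041990)) (.nd (.lf (nat_lit 0x82ab1ad4b46d4a5983)) (.lf (nat_lit 0x8097ce835370d64bbe)) (.lf (nat_lit 0x83c800800e5caedbdc)) (.lf (nat_lit 0x8a5c4e88c4e998fdb9))) (.nd (.lf (nat_lit 0x800808826797178c98)) (.lf (nat_lit 0x8008bb958a1921ecc1)) (.lf (nat_lit 0x832800800cc879ee66)) (.lf (nat_lit 0x81dbaca0d9b76e2e7d))) (.lf (nat_lit 0x80a7c7837317cb5c32)) (.lf (nat_lit 0x819c4dbffbe98a0bb7)))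
  _ _ _ (by decide +kernel)

noncomputable def g2_m92_108 : GD 2 (-92) 108 := chk_sound .out
  _ _ _ (by decide +kernel)

noncomputable def g2_m84_108 : GD 2 (-84) 108 := chk_sound 
  (.cell (.lf (nat_lit 0x80083480cd7e9dad82)) (.lf (nat_lit 0x8007ff87b8b9056a1d)) (.nd (.nd (.lf (nat_lit 0x80081584361c0cbae4)) (.lf (nat_lit 0x8007ea8d38fd01e861)) (.lf (nat_lit 0x80983e85d3bb1769aa)) (.lf (nat_lit 0x80a8b7919c5fe9083c))) (.lf (nat_lit 0x8007d182d352d33bde)) (.lf (nat_lit 0x80083c820e4aad7c09)) (.lf (nat_lit 0x8ef71c832328ba1d10))) (.nd (.lf (nat_lit 0x80080183878b19eccb)) (.lf (nat_lit 0x82e92ebb3aad2eec00)) (.lf (nat_lit 0x82f800800d057e6e39)) (.lf (nat_lit 0x824ad0a2d9fc6f1ecd))) (.lf (nat_lit 0x8007d681631bca4c4b)) (.nd (.lf (nat_lit 0x80080182b6de190c9b)) (.lf (nat_lit 0x8098408613d218ea2d)) (.lf (nat_lit 0x80b9e69ffcfc822d9d)) (.lf (nat_lit 0x800a6ca88d7b9dfc43))))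
  _ _ _ (by decide +kernel)

theorem g3_m88_104 : GD 3 (-88) 104 :=
  GD.split (i := 2) g2_m92_100 g2_m84_100 g2_m92_108 g2_m84_108 (by decide)

noncomputable def g2_m76_m124 : GD 2 (-76) (-124) := chk_sound .out
  _ _ _ (by decide +kernel)

noncomputable def g2_m68_m124 : GD 2 (-68) (-124) := chk_sound 
  (.cell (.lf (nat_lit 0x8007f584278cfaba35)) (.lf (nat_lit 0x82f80080029c622d9a)) (.nd (.lf (nat_lit 0x8348008002e37a6e23)) (.lf (nat_lit 0x829b32b5d32e64fc0a)) (.lf (nat_lit 0x80080a8198c5e37cf9)) (.lf (nat_lit 0x8008008009e4e8dc2e))) (.lf (nat_lit 0x8007e281ccf7348c20)) (.nd (.lf (nat_lit 0x839c5cb8d41363abb6)) (.lf (nat_lit 0x80181f8181ca431b4b)) (.lf (nat_lit 0x822c4ce756a37c695d)) (.lf (nat_lit 0x80081d84eb9aeaaa8b))) (.lf (nat_lit 0x815c12a5859794eddd)))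
  _ _ _ (by decide +kernel)

noncomputable def g2_m76_m116 : GD 2 (-76) (-116) := chk_sound 
  (.cell (.lf (nat_lit 0x8007ff83d725fc49b0)) (.lf (nat_lit 0x80082681826a639d70)) (.nd (.lf (nat_lit 0x83092393231a800e1a)) (.lf (nat_lit 0x816ba5bcc3a16c5bf4)) (.lf (nat_lit 0x8008138418f3e5ccc0)) (.lf (nat_lit 0x805800800a06ea3bfa))) (.lf (nat_lit 0x8007ff821cf2340c1d)) (.nd (.lf (nat_lit 0x827bebabd315548b16)) (.lf (nat_lit 0x8288f78f91da4b2ba7)) (.lf (nat_lit 0x829c8fbdb5f034d965)) (.lf (nat_lit 0x809846867c3ee899bc))) (.lf (nat_lit 0x820c25aa54d48eed5f)))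
  _ _ _ (by decide +kernel)

noncomputable def g2_m68_m116 : GD 2 (-68) (-116) := chk_sound 
  (.cell (.lf (nat_lit 0x8058008007a1fa4a55)) (.lf (nat_lit 0x80082f80b2a861ada3)) (.nd (.lf (nat_lit 0x80081d8082dc7b8e1e)) (.lf (nat_lit 0x820accaf02d1622c24)) (.lf (nat_lit 0x8008108458bae31d01)) (.lf (nat_lit 0x8008118279fbe7dc3b))) (.lf (nat_lit 0x8037ce837cf2356c34)) (.nd (.lf (nat_lit 0x824abf9802414afb2f)) (.lf (nat_lit 0x80083f8141c84e6bf3)) (.lf (nat_lit 0x825bcae0e5217159f5)) (.lf (nat_lit 0x80082083ebb1eada62))) (.nd (.lf (nat_lit 0x80042b858ad05dfe10)) (.lf (nat_lit 0x82f80080033b7e2e6b)) (.lf (nat_lit 0x8087cb839cc82b1b95)) (.lf (nat_lit 0x8008018047fee63cd0))))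
  _ _ _ (by decide +kernel)

theorem g3_m72_m120 : GD 3 (-72) (-120) :=
  GD.split (i := 2) g2_m76_m124 g2_m68_m124 g2_m76_m116 g2_m68_m116 (by decide)

noncomputable def g2_m76_m108 : GD 2 (-76) (-108) := chk_sound 
  (.cell (.lf (nat_lit 0x800801819727fc39b9)) (.lf (nat_lit 0x80080181126d635d72)) (.nd (.lf (nat_lit 0x81a8008002d97bfe1c)) (.lf (nat_lit 0x839a8daa62ae62ac54)) (.lf (nat_lit 0x8007ff8368f1e5bcc2)) (.lf (nat_lit 0x800808844a06ea3bf8))) (.lf (nat_lit 0x8067ce836ceb34ac2f)) (.nd (.lf (nat_lit 0x80082f82f1a7394a02)) (.lf (nat_lit 0x8008518171b9524c09)) (.lf (nat_lit 0x839c5faf15262fa9ab)) (.lf (nat_lit 0x80684786fc6be7d970))) (.nd (.lf (nat_lit 0x88ecac83678f73fe68)) (.lf (nat_lit 0x81a800800333818e65)) (.lf (nat_lit 0x8005c9af3c19312b0b)) (.lf (nat_lit 0x8007ff84a813e84ca1))))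
  _ _ _ (by decide +kernel)

noncomputable def g2_m68_m108 : GD 2 (-68) (-108) := chk_sound 
  (.cell (.lf (nat_lit 0x80080186a7b0f9aa6e)) (.lf (nat_lit 0x80080e8192b1612da9)) (.nd (.lf (nat_lit 0x80082f8082d57cae19)) (.lf (nat_lit 0x82d9a39b62385fcc91)) (.lf (nat_lit 0x80080783b8aee30d04)) (.lf (nat_lit 0x8198d78f2b51e82b00))) (.lf (nat_lit 0x80d7cb835cee363c47)) (.nd (.lf (nat_lit 0x80fadca3b269505b44)) (.lf (nat_lit 0x8008008001c854dc3e)) (.lf (nat_lit 0x80086185b27e25691f)) (.lf (nat_lit 0x80283f854c74e7697c))) (.lf (nat_lit 0x822bd3af45018afd95)))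
  _ _ _ (by decide +kernel)

noncomputable def g2_m76_m100 : GD 2 (-76) (-100) := chk_sound 
  (.cell (.lf (nat_lit 0x8007f4886724fbe9bb)) (.lf (nat_lit 0x80081981726e632d72)) (.nd (.lf (nat_lit 0x80093394331c840e14)) (.lf (nat_lit 0x815ab6ad22d468dc73)) (.lf (nat_lit 0x8007ff80f8ece5dcc1)) (.lf (nat_lit 0x80080b82ba43e92bf4))) (.lf (nat_lit 0x80a7ce833ce6353c3f)) (.lf (nat_lit 0x8249639291cd38a987)) (.nd (.lf (nat_lit 0x800b8e8305dd875ed3)) (.lf (nat_lit 0x8007ef80633c850e6a)) (.lf (nat_lit 0x81640dda76e7a42b2f)) (.lf (nat_lit 0x80080583581ee79cb1))))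
  _ _ _ (by decide +kernel)

noncomputable def g2_m68_m100 : GD 2 (-68) (-100) := chk_sound 
  (.cell (.lf (nat_lit 0x8007f784e7b9f97a7c)) (.lf (nat_lit 0x8248008002b860adad)) (.nd (.lf (nat_lit 0x8008138042cd7dde13)) (.lf (nat_lit 0x81089b8a11f55edcbb)) (.lf (nat_lit 0x80080a82e8a2e32d04)) (.lf (nat_lit 0x81b9fba35bbae19a05))) (.lf (nat_lit 0x8027c4834ceb370c58)) (.nd (.lf (nat_lit 0x8008458321b23d6a99)) (.lf (nat_lit 0x80081d81d1c5541c31)) (.lf (nat_lit 0x80083584226127f965)) (.lf (nat_lit 0x80484a872cabe5f922))) (.lf (nat_lit 0x9f5b0eb2046d8f9d3a)))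
  _ _ _ (by decide +kernel)

theorem g3_m72_m104 : GD 3 (-72) (-104) :=
  GD.split (i := 2) g2_m76_m108 g2_m68_m108 g2_m76_m100 g2_m68_m100 (by decide)

noncomputable def g2_m76_m92 : GD 2 (-76) (-92) := chk_sound 
  (.cell (.lf (nat_lit 0x8007ff85c71afc19b3)) (.lf (nat_lit 0x80082781726c630d6f)) (.nd (.lf (nat_lit 0x82293c94e328868e17)) (.lf (nat_lit 0x808ad9af92e4695c59)) (.lf (nat_lit 0x80280c84b8e6e5fcbe)) (.lf (nat_lit 0x80381282eae3e82ba3))) (.lf (nat_lit 0x8017c8833ce235cc4d)) (.nd (.lf (nat_lit 0x861d779cb4f94fab87)) (.lf (nat_lit 0x80080e8141b0512bf0)) (.lf (nat_lit 0x83cd29adf51c3e89fb)) (.lf (nat_lit 0x800801833cffe2b8f3))) (.nd (.lf (nat_lit 0x800ad48dd50d931eb7)) (.lf (nat_lit 0x80b7e9802349893e6f)) (.lf (nat_lit 0x81077e8ee48de48b63)) (.lf (nat_lit 0x80080584d81fe71cbb))))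
  _ _ _ (by decide +kernel)

noncomputable def g2_m68_m92 : GD 2 (-68) (-92) := chk_sound 
  (.cell (.lf (nat_lit 0x8008018467b8f96a80)) (.lf (nat_lit 0x8008008002ba605dad)) (.nd (.lf (nat_lit 0x8008318032c87f3e0f)) (.lf (nat_lit 0x82fa3ea6426f62ac57)) (.lf (nat_lit 0x8007ff818899e37cff)) (.lf (nat_lit 0x83acd3d686a9954ace))) (.lf (nat_lit 0x8007e9822cea37cc67)) (.nd (.lf (nat_lit 0x80f83d8271ce3edafb)) (.lf (nat_lit 0x80e83c81f1c552fc24)) (.lf (nat_lit 0x86ebc89fa3c03149d0)) (.lf (nat_lit 0x800846853ce2e468c0))) (.nd (.lf (nat_lit 0x8ffb7e81c62b7ecee3)) (.lf (nat_lit 0x8007e9808332874e60)) (.lf (nat_lit 0x81d40ed5c7b199bc20)) (.lf (nat_lit 0x8007ff82980be3ecff))))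
  _ _ _ (by decide +kernel)

noncomputable def g2_m76_m84 : GD 2 (-76) (-84) := chk_sound 
  (.cell (.lf (nat_lit 0x8017f586a70afc29a2)) (.lf (nat_lit 0x800819818266630d69)) (.nd (.lf (nat_lit 0x82294395733d89ce20)) (.lf (nat_lit 0x83fbdec0d3c16d4ba1)) (.lf (nat_lit 0x8007ff8338e2e66cb6)) (.lf (nat_lit 0x80783d85fbebe7aa8b))) (.lf (nat_lit 0x8087e381bce0364c59)) (.nd (.lf (nat_lit 0x88bd7a9227c556cd12)) (.lf (nat_lit 0x80585682e1b3482b74)) (.lf (nat_lit 0x8007e0829c9a2dac07)) (.nd (.lf (nat_lit 0x81dbd4dbbadcabb8e9)) (.lf (nat_lit 0x80585486fca4e4f986)) (.lf (nat_lit 0x80280a8698f3fbb9c4)) (.lf (nat_lit 0x80381b847a39f03b20)))) (.nd (.lf (nat_lit 0x843c379585d2909e35)) (.lf (nat_lit 0x8007e080f35f8e0e76)) (.lf (nat_lit 0x80865ebde514d42b30)) (.lf (nat_lit 0x80080383f81de70cbd))))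
  _ _ _ (by decide +kernel)

noncomputable def g2_m68_m84 : GD 2 (-68) (-84) := chk_sound 
  (.cell (.lf (nat_lit 0x8007fb84c7aef98a78)) (.lf (nat_lit 0x8008228122b8604dab)) (.nd (.lf (nat_lit 0x8007d88032c480ce0b)) (.lf (nat_lit 0x830b20b542ef628bbf)) (.lf (nat_lit 0x8007ff824892e3ecf7)) (.lf (nat_lit 0x827c40cc947f75bb35))) (.lf (nat_lit 0x8057cb829ce6388c77)) (.nd (.lf (nat_lit 0x81faad8d128b3a0aae)) (.lf (nat_lit 0x8008018111c3520c18)) (.lf (nat_lit 0x850aa492e2f8301a49)) (.lf (nat_lit 0x8098b28dbd16e10854))) (.nd (.lf (nat_lit 0x800af28f251d8daebc)) (.lf (nat_lit 0x8168008003388b3e5f)) (.lf (nat_lit 0x81f600b5a589cdcc5d)) (.lf (nat_lit 0x80080383c805e3dd00))))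
  _ _ _ (by decide +kernel)

theorem g3_m72_m88 : GD 3 (-72) (-88) :=
  GD.split (i := 2) g2_m76_m92 g2_m68_m92 g2_m76_m84 g2_m68_m84 (by decide)

noncomputable def g2_m76_m76 : GD 2 (-76) (-76) := chk_sound 
  (.cell (.lf (nat_lit 0x8007f386c6f3fc4989)) (.lf (nat_lit 0x80082681625d632d60)) (.nd (.lf (nat_lit 0x8279e5a063fb98ae25)) (.lf (nat_lit 0x823b5ab8d32a661bc1)) (.lf (nat_lit 0x8008118328dde6fcab)) (.lf (nat_lit 0x80083d84ac17e73a58))) (.lf (nat_lit 0x8007d8829cdd36dc66)) (.nd (.lf (nat_lit 0x87bc2c898a9c61ddf8)) (.lf (nat_lit 0x80084181f1b2478b6a)) (.lf (nat_lit 0x816800800ca12f9c27)) (.nd (.nd (.lf (nat_lit 0x8008278302b62c4aeb)) (.lf (nat_lit 0x81c9649822bb25981c)) (.lf (nat_lit 0x80081b8786b102a8c6)) (.lf (nat_lit 0x807839876b6ff009b4))) (.lf (nat_lit 0x80083e84cce7e31932)) (.lf (nat_lit 0x8007ff829885fe492d)) (.lf (nat_lit 0x800801841a45f0db01)))) (.nd (.lf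 (nat_lit 0x824bbd9eb54299be04)) (.lf (nat_lit 0x80080080038493ee81)) (.lf (nat_lit 0x819612d46544c2fabb)) (.lf (nat_lit 0x80080580881be76cb6))))
  _ _ _ (by decide +kernel)

noncomputable def g2_m68_m76 : GD 2 (-68) (-76) := chk_sound 
  (.cell (.lf (nat_lit 0x8007fe875797f9ca62)) (.lf (nat_lit 0x80082c8082b0606da4)) (.nd (.lf (nat_lit 0x8007da8072c1827e08)) (.lf (nat_lit 0x824b6dba833b679bb6)) (.lf (nat_lit 0x8007ff81f88ee48ceb)) (.lf (nat_lit 0x820c0fc944116d1b1c))) (.lf (nat_lit 0x8007ff825ce2392c86)) (.nd (.lf (nat_lit 0x879d5494c75442fc52)) (.lf (nat_lit 0x80084481b1b74babb2)) (.lf (nat_lit 0x8007e481bcce3becc4)) (.nd (.nd (.lf (nat_lit 0x80983f84829023a8f3)) (.lf (nat_lit 0x80c89989c276252886)) (.lf (nat_lit 0x8088418f5a27fa185c)) (.lf (nat_lit 0x806838873bb6ed69ca))) (.lf (nat_lit 0x80c88089bd1ce1785c)) (.lf (nat_lit 0x8058178699a3f7da3e)) (.lf (nat_lit 0x800822850a65eefb2b))))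 (.nd (.lf (nat_lit 0x83ca1194846a937e9c)) (.lf (nat_lit 0x81780080034a8fde63)) (.lf (nat_lit 0x9105d8cce5f6bd0c0e)) (.lf (nat_lit 0x8007ff82c803e43cf9))))
  _ _ _ (by decide +kernel)

noncomputable def g2_m76_m68 : GD 2 (-76) (-68) := chk_sound 
  (.cell (.lf (nat_lit 0x8027ed88b6d9fc3971)) (.lf (nat_lit 0x80081d817250636d54)) (.nd (.lf (nat_lit 0x82794195c391940e45)) (.lf (nat_lit 0x81cb38b732f75e8b75)) (.lf (nat_lit 0x80080c8468d9e7bc9a)) (.lf (nat_lit 0x800830841ceee2c934))) (.lf (nat_lit 0x8007db835cda376c72)) (.nd (.lf (nat_lit 0x96f96e81cc76547db4)) (.lf (nat_lit 0x80b84e82a1b147bb6a)) (.lf (nat_lit 0x8007f8816ca631ac48)) (.nd (.nd (.lf (nat_lit 0x8008018261ed3149ad)) (.lf (nat_lit 0x80082183824c26c87c)) (.lf (nat_lit 0x818aacca17fe267a04)) (.lf (nat_lit 0x800846885b97f0194a))) (.lf (nat_lit 0x81092992cd85d8b82e)) (.lf (nat_lit 0x8007ff85b81fff888c)) (.lf (nat_lit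 0x80481c858a4ff18adc)))) (.nd (.lf (nat_lit 0x832b43a124bc9a9df7)) (.lf (nat_lit 0x8248008003c49b7e90)) (.lf (nat_lit 0x81b8329b452cea9af1)) (.lf (nat_lit 0x800806819819e82ca5))))
  _ _ _ (by decide +kernel)

noncomputable def g2_m68_m68 : GD 2 (-68) (-68) := chk_sound 
  (.cell (.lf (nat_lit 0x8007fc83e772fa8a3a)) (.lf (nat_lit 0x80081a8102a160cd98)) (.nd (.lf (nat_lit 0x8108008002bd842e04)) (.lf (nat_lit 0x83bb5ab9731461eb78)) (.lf (nat_lit 0x8007ff84888fe54cda)) (.lf (nat_lit 0x81ec79d134c2728aa4))) (.lf (nat_lit 0x8007e282ecda39ac96)) (.nd (.lf (nat_lit 0x9738dd810c764ebda2)) (.lf (nat_lit 0x80083a8191b04baba7)) (.lf (nat_lit 0x8007ff827cca359c66)) (.nd (.nd (.lf (nat_lit 0x831c57b5339e510a7e)) (.lf (nat_lit 0x80b87c8792312a08ed)) (.lf (nat_lit 0x80c8999494b10dd83c)) (.lf (nat_lit 0x80683185fc08ec0966))) (.lf (nat_lit 0x80381581226d247853)) (.lf (nat_lit 0x80081887e953fac9c2))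 (.lf (nat_lit 0x800817846a85ef6b03)))) (.nd (.lf (nat_lit 0x831b849fd52c941e2b)) (.lf (nat_lit 0x8037eb80a369955e69)) (.lf (nat_lit 0x822899aad53edc6bf0)) (.lf (nat_lit 0x801800800802e4fcea))))
  _ _ _ (by decide +kernel)

theorem g3_m72_m72 : GD 3 (-72) (-72) :=
  GD.split (i := 2) g2_m76_m76 g2_m68_m76 g2_m76_m68 g2_m68_m68 (by decide)

noncomputable def g2_m76_m60 : GD 2 (-76) (-60) := chk_sound 
  (.cell (.lf (nat_lit 0x8007ec8996c0fc1961)) (.lf (nat_lit 0x80083b81724163bd45)) (.nd (.lf (nat_lit 0x82a8ab8c13a1986e71)) (.lf (nat_lit 0x812b64b9c3165c0b32)) (.lf (nat_lit 0x8008018488d2e8cc83)) (.lf (nat_lit 0x80081c828d31e028ed))) (.lf (nat_lit 0x8007ca82dcd637fc7f)) (.nd (.lf (nat_lit 0x8e47c6816cc84b8d6e)) (.lf (nat_lit 0x8008368271b73efacd)) (.lf (nat_lit 0x800800800ca933ac69)) (.nd (.lf (nat_lit 0x80585883b1f2369a76)) (.lf (nat_lit 0x8078d28bb2052d1850)) (.lf (nat_lit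 0x80080785f8c5fee893)) (.lf (nat_lit 0x80080d836a5df28aaa)))) (.nd (.lf (nat_lit 0x828c55a2556a9e8d80)) (.lf (nat_lit 0x8007e6817430a62e9d)) (.lf (nat_lit 0x82f82397555fef8a83)) (.lf (nat_lit 0x8007ff84d814e94c8a))))
  _ _ _ (by decide +kernel)

noncomputable def g2_m68_m60 : GD 2 (-68) (-60) := chk_sound 
  (.cell (.lf (nat_lit 0x80080183a7e2f8ea9c)) (.lf (nat_lit 0x81182e81128d615d87)) (.nd (.lf (nat_lit 0x82f9029182f98b1dff)) (.lf (nat_lit 0x8319f5a1421c408a4f)) (.lf (nat_lit 0x80080982e896e66cc2)) (.lf (nat_lit 0x8108a58a425e26c885))) (.lf (nat_lit 0x8007d6834cd039fca5)) (.nd (.lf (nat_lit 0x80d7cd829cd2426d15)) (.lf (nat_lit 0x80082a8261a24beb92)) (.lf (nat_lit 0x8007ec827cc7373c84)) (.nd (.nd (.lf (nat_lit 0x80e8708501783a095d)) (.lf (nat_lit 0x8098788651e7302936)) (.lf (nat_lit 0x8859e48e53791c986a)) (.lf (nat_lit 0x805855878c72e8d8f8))) (.lf (nat_lit 0x80084a8422072c68e5))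 (.lf (nat_lit 0x80080c873974fb7974)) (.lf (nat_lit 0x80481a842aaeefaad5)))) (.nd (.lf (nat_lit 0x82caf4a554c79a5e0f)) (.lf (nat_lit 0x80e80080039e9cae72)) (.lf (nat_lit 0x81f84bc1950dd5bb1d)) (.lf (nat_lit 0x80080282a804e60cd3))))
  _ _ _ (by decide +kernel)

noncomputable def g2_m76_m52 : GD 2 (-76) (-52) := chk_sound 
  (.cell (.lf (nat_lit 0x8007e189e6a5fc1943)) (.lf (nat_lit 0x80082081722e640d32)) (.nd (.lf (nat_lit 0x8278ac8cc40b9ceea1)) (.lf (nat_lit 0x8098ec8f01e5377a17)) (.lf (nat_lit 0x80080d82d8beea2c67)) (.lf (nat_lit 0x80084f85ad7bdc6898))) (.lf (nat_lit 0x8077dd822cd438bc8e)) (.nd (.lf (nat_lit 0x800800800cd4480d54)) (.lf (nat_lit 0x8008348191b83feae5)) (.lf (nat_lit 0x8007d2834ca635dc8f)) (.nd (.lf (nat_lit 0x800d29c1b4e35dea7f)) (.lf (nat_lit 0x8008268181d92e8855)) (.lf (nat_lit 0x80583b92d991fbf83a)) (.lf (nat_lit 0x803829872a74f39a5b)))) (.nd (.lf (nat_lit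 0x820800800148903c37)) (.lf (nat_lit 0x81a8008004e6b57e92)) (.lf (nat_lit 0x8007dd8435a4f3ea6b)) (.lf (nat_lit 0x8007fe8237ffeaec65))))
  _ _ _ (by decide +kernel)

noncomputable def g2_m68_m52 : GD 2 (-68) (-52) := chk_sound 
  (.cell (.lf (nat_lit 0x8017fa8687a2fa0a59)) (.lf (nat_lit 0x800823810273620d71)) (.nd (.lf (nat_lit 0x835910925328916e12)) (.lf (nat_lit 0x814a17a3b22043ea71)) (.lf (nat_lit 0x80080c82c89ce78ca9)) (.lf (nat_lit 0x80c88387c22c2a18cb))) (.lf (nat_lit 0x8007f4810cc63a0cb1)) (.nd (.lf (nat_lit 0x8007d682acc9439d2c)) (.lf (nat_lit 0x8358008001964c5b83)) (.lf (nat_lit 0x8027db81dcbe388ca2)) (.nd (.lf (nat_lit 0x80e83f82f17f3bd9d7)) (.lf (nat_lit 0x8038478371f82d48d5)) (.lf (nat_lit 0x800827869aa4f6995e)) (.lf (nat_lit 0x8007ff820aecefba95)))) (.nd (.lf (nat_lit 0x800bdca2154f966df2)) (.lf (nat_lit 0x816800800411a8ae7c)) (.lf (nat_lit 0x82f852b37557e50a90))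 (.lf (nat_lit 0x80080283f802e74cb8))))
  _ _ _ (by decide +kernel)

theorem g3_m72_m56 : GD 3 (-72) (-56) :=
  GD.split (i := 2) g2_m76_m60 g2_m68_m60 g2_m76_m52 g2_m68_m52 (by decide)

noncomputable def g2_m76_m44 : GD 2 (-76) (-44) := chk_sound 
  (.cell (.lf (nat_lit 0x8047eb88f6fdfc7975)) (.lf (nat_lit 0x80682b80f21b643d1d)) (.nd (.lf (nat_lit 0x8008ab8c63fc9b4ea0)) (.lf (nat_lit 0x800bacbd53655c3b18)) (.lf (nat_lit 0x802806845890ebac48)) (.lf (nat_lit 0x80a82f82fdadd9e852))) (.lf (nat_lit 0x8007cd818cd339fca2)) (.nd (.lf (nat_lit 0x811800800cc44b6d84)) (.lf (nat_lit 0x8008448251bf415b11)) (.lf (nat_lit 0x8007e3826c9c383cbf)) (.nd (.lf (nat_lit 0x80084e82b1a5350935)) (.lf (nat_lit 0x8148b78a32032d0881)) (.lf (nat_lit 0x8058288905a8066892)) (.lf (nat_lit 0x80082c860aa6f549c0)))) (.lf (nat_lit 0x8bd5bd8265d4b76e73)))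
  _ _ _ (by decide +kernel)

noncomputable def g2_m68_m44 : GD 2 (-68) (-44) := chk_sound 
  (.cell (.lf (nat_lit 0x8007f484e768faba2b)) (.lf (nat_lit 0x80083881a25762bd57)) (.nd (.lf (nat_lit 0x81180080036d9b9e54)) (.lf (nat_lit 0x837b23b622c256eaed)) (.lf (nat_lit 0x80080c82488fe86c97)) (.lf (nat_lit 0x8008628552112c08f5))) (.lf (nat_lit 0x8007ff819cbc3a1cbc)) (.nd (.lf (nat_lit 0x8057da81ecb9450d4b)) (.lf (nat_lit 0x80083a823191508bb3)) (.lf (nat_lit 0x8007d881bcae399cc2)) (.nd (.lf (nat_lit 0x80ec7db6b38e5199fc)) (.lf (nat_lit 0x81389d88d21d2b48be)) (.lf (nat_lit 0x8008708d6ba4f0a880)) (.lf (nat_lit 0x800823864b5cef0a17)))) (.nd (.lf (nat_lit 0x83eb1d9d738794ed65)) (.lf (nat_lit 0x81d8008004ddb98e6b)) (.lf (nat_lit 0x8007dc85d5ddf33ab9)) (.lf (nat_lit 0x80080183f7e6e83ca3))))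
  _ _ _ (by decide +kernel)

noncomputable def g2_m76_m36 : GD 2 (-76) (-36) := chk_sound 
  (.cell (.lf (nat_lit 0x8007eb88e6bdfd38e8)) (.lf (nat_lit 0x835800800208642d07)) (.nd (.lf (nat_lit 0x8219039304199b1e97)) (.lf (nat_lit 0x830be2c1d3b0679b52)) (.lf (nat_lit 0x80080385483aed9c1d)) (.lf (nat_lit 0x80882b833d6cdca8fb))) (.lf (nat_lit 0x82457c901cb34cacec)) (.lf (nat_lit 0x82ec5dc1f49f698bc2)) (.lf (nat_lit 0x8005c18c2594bc2e32)))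
  _ _ _ (by decide +kernel)

noncomputable def g2_m68_m36 : GD 2 (-68) (-36) := chk_sound 
  (.cell (.lf (nat_lit 0x8008018597cef9ea67)) (.lf (nat_lit 0x80c830814239631d39)) (.nd (.lf (nat_lit 0x8007d180937296be6b)) (.lf (nat_lit 0x830b7bbca333693b85)) (.lf (nat_lit 0x8007ff82e864e90c8d)) (.lf (nat_lit 0x80e89388d24228185a))) (.lf (nat_lit 0x8077d6829cb33a5cc8)) (.nd (.lf (nat_lit 0x823800800ca2471d76)) (.lf (nat_lit 0x80083d81718a4cab71)) (.lf (nat_lit 0x8007e4805c973a9ce7)) (.nd (.lf (nat_lit 0x800d46bd54f15e7ac7)) (.lf (nat_lit 0x80081382c1f62dd906)) (.lf (nat_lit 0x80b8628a73ca1498be)) (.lf (nat_lit 0x800800800bf5ed6940)))) (.nd (.lf (nat_lit 0x82980080034db89d6b)) (.lf (nat_lit 0x817800800578c58e38)) (.lf (nat_lit 0x8037ef82c571f3fa34)) (.lf (nat_lit 0x80080183e79ae87c99))))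
  _ _ _ (by decide +kernel)

theorem g3_m72_m40 : GD 3 (-72) (-40) :=
  GD.split (i := 2) g2_m76_m44 g2_m68_m44 g2_m76_m36 g2_m68_m36 (by decide)

noncomputable def g2_m76_m28 : GD 2 (-76) (-28) := chk_sound 
  (.cell (.lf (nat_lit 0x8007b8930618fab82a)) (.lf (nat_lit 0x80081c8151f563ccee)) (.nd (.lf (nat_lit 0x8399bb9dc3e0988e2c)) (.lf (nat_lit 0x822b79bf93475bcaf2)) (.lf (nat_lit 0x8007f88507b3f06bcd)) (.lf (nat_lit 0x80383c85dc65e7899d))) (.lf (nat_lit 0x862297990a78700d00)) (.lf (nat_lit 0x898c23be4426679bc5)) (.lf (nat_lit 0x8007ff82648dc4edca)))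
  _ _ _ (by decide +kernel)

noncomputable def g2_m68_m28 : GD 2 (-68) (-28) := chk_sound 
  (.cell (.lf (nat_lit 0x8007fb851793fbc9f6)) (.lf (nat_lit 0x80082281721b630d17)) (.nd (.lf (nat_lit 0x8007dd8153d09e1e8c)) (.lf (nat_lit 0x828b4cba42e75a4adf)) (.lf (nat_lit 0x80080083081cea1c78)) (.lf (nat_lit 0x800819826d1ee0e908))) (.lf (nat_lit 0x82b512974c664eacf0)) (.lf (nat_lit 0x843cbec06508726bf6)) (.lf (nat_lit 0x82668d94b544c33dec)))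
  _ _ _ (by decide +kernel)

noncomputable def g2_m76_m20 : GD 2 (-76) (-20) := chk_sound 
  (.cell (.lf (nat_lit 0x81b7ffd33a8a2f8a46)) (.lf (nat_lit 0x8008298141e562fcd5)) (.nd (.lf (nat_lit 0x824aa0a2b47f982e26)) (.lf (nat_lit 0x82cab5b802a74a5a1e)) (.lf (nat_lit 0x8007f48106f0f41b31)) (.lf (nat_lit 0x80783e872bafefa934))) (.lf (nat_lit 0x85b2998a98ed799dc3)) (.lf (nat_lit 0x812d47b7e6fb76fcc0)) (.lf (nat_lit 0x8007f2818385c81cdb)))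
  _ _ _ (by decide +kernel)

noncomputable def g2_m68_m20 : GD 2 (-68) (-20) := chk_sound 
  (.cell (.lf (nat_lit 0x8007ea8986b5fc593f)) (.lf (nat_lit 0x81a8008001ff626cf2)) (.nd (.lf (nat_lit 0x83c99c97d3fc9b7e54)) (.lf (nat_lit 0x80a8478351863c59ff)) (.lf (nat_lit 0x8008018487b5ec7c3a)) (.lf (nat_lit 0x80483285db92ee39e6))) (.lf (nat_lit 0x834264a80862745d0d)) (.lf (nat_lit 0x82dceabd249b668b56)) (.lf (nat_lit 0x80a78087a4dcd37d24)))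
  _ _ _ (by decide +kernel)

theorem g3_m72_m24 : GD 3 (-72) (-24) :=
  GD.split (i := 2) g2_m76_m28 g2_m68_m28 g2_m76_m20 g2_m68_m20 (by decide)

noncomputable def g2_m76_m12 : GD 2 (-76) (-12) := chk_sound 
  (.cell (.nd (.lf (nat_lit 0x80f77a909b980f4827)) (.lf (nat_lit 0x8057e784b584f7a955)) (.lf (nat_lit 0x84095b8faaf048be5e)) (.lf (nat_lit 0x812904f0587149695a))) (.lf (nat_lit 0x8008388151d961dcbe)) (.nd (.lf (nat_lit 0x81db62aa24ed9c5dbe)) (.lf (nat_lit 0x8068788541ba33892f)) (.lf (nat_lit 0x8007e98355f4f6aa2d)) (.lf (nat_lit 0x80083a898aa7f73902))) (.lf (nat_lit 0x89943f8338f07bcef7)) (.lf (nat_lit 0x80080181ff05bc28bd)) (.lf (nat_lit 0x8007d98312e2ce6bb4)))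
  _ _ _ (by decide +kernel)

noncomputable def g2_m68_m12 : GD 2 (-68) (-12) := chk_sound 
  (.cell (.nd (.lf (nat_lit 0x8007d7838bb60ef867)) (.lf (nat_lit 0x8007f081464bf60a93)) (.lf (nat_lit 0x807800800c092dfc9f)) (.lf (nat_lit 0x80080c84f8aeff089d))) (.lf (nat_lit 0x80d83a8171e8617ccf)) (.nd (.lf (nat_lit 0x842aa7a6044c98bdee)) (.lf (nat_lit 0x8128858631a2350901)) (.lf (nat_lit 0x8027f683e711f0bbaa)) (.lf (nat_lit 0x80782f867b5eeff9dd))) (.lf (nat_lit 0x83e3748af69975fe5b)) (.lf (nat_lit 0x800dbdc307cc87dba2)) (.lf (nat_lit 0x80080181447cd7eca1)))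
  _ _ _ (by decide +kernel)

noncomputable def g2_m76_m4 : GD 2 (-76) (-4) := chk_sound 
  (.cell (.nd (.lf (nat_lit 0x81b730a57b0d6d2edd)) (.lf (nat_lit 0x8007b48bc4d9f4a87f)) (.lf (nat_lit 0x81a9508d0b027c8f3f)) (.lf (nat_lit 0x80cb6ded78a2835a3d))) (.lf (nat_lit 0x8008388171d3608cae)) (.lf (nat_lit 0x824c93d286f39fdb60)) (.lf (nat_lit 0x81e9888cf816752fc7)) (.lf (nat_lit 0x80d8b0873eb4c45852)) (.lf (nat_lit 0x80c7ba83f279d68a02)))
  _ _ _ (by decide +kernel)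

noncomputable def g2_m68_m4 : GD 2 (-68) (-4) := chk_sound 
  (.cell (.nd (.lf (nat_lit 0x80777290abc110c859)) (.lf (nat_lit 0x8007e6836572f6b987)) (.lf (nat_lit 0x82c949909a3b611f3f)) (.lf (nat_lit 0x800a69f4b9048359f8))) (.lf (nat_lit 0x8008018081d6604cb1)) (.nd (.lf (nat_lit 0x83cb61ae74ff9ebd9a)) (.lf (nat_lit 0x80e96f91d1dd33581a)) (.lf (nat_lit 0x8007ef853635f4aabd)) (.lf (nat_lit 0x8007ff824afef2a9e9))) (.nd (.lf (nat_lit 0x82db388c1564722ebe)) (.lf (nat_lit 0x83a9d789c80d746fb9)) (.lf (nat_lit 0x8215c98be718689f74)) (.lf (nat_lit 0x8007f48038886f5fe9))) (.lf (nat_lit 0x82bca5a4dc299dac0a)) (.lf (nat_lit 0x8008008003b9da9bb1)))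
  _ _ _ (by decide +kernel)

theorem g3_m72_m8 : GD 3 (-72) (-8) :=
  GD.split (i := 2) g2_m76_m12 g2_m68_m12 g2_m76_m4 g2_m68_m4 (by decide)

noncomputable def g2_m76_4 : GD 2 (-76) 4 := chk_sound 
  (.cell (.nd (.lf (nat_lit 0x81592aa709a991bf42)) (.lf (nat_lit 0x80b75394cba2108837)) (.lf (nat_lit 0x81c800800ba5a05ed3)) (.lf (nat_lit 0x82badcb61bebcd1a69))) (.lf (nat_lit 0x8008438061d85f0caa)) (.lf (nat_lit 0xa64c23ceb72d8bcbf7)) (.lf (nat_lit 0x8128fd8af784835fe4)) (.lf (nat_lit 0x83cc43ae6cf6b5294f)) (.lf (nat_lit 0x80053fb943dad1d872)))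
  _ _ _ (by decide +kernel)

noncomputable def g1_m70_2 : GD 1 (-70) 2 := chk_sound 
  (.cell (.nd (.lf (nat_lit 0x8077a88eab8422bc14)) (.lf (nat_lit 0x8047938f84baf35869)) (.lf (nat_lit 0x820800800b3e7b4f4e)) (.lf (nat_lit 0x800b9cdc4a3cac0a44))) (.lf (nat_lit 0x8078218091d15f6ca4)) (.lf (nat_lit 0x835c3ecf87fda57bf9)) (.lf (nat_lit 0x80080580f7e265cfd4)) (.lf (nat_lit 0x800868848ea8c069cb)) (.lf (nat_lit 0x8067a58843baeab8e9)))
  _ _ _ (by decide +kernel)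

noncomputable def g1_m66_2 : GD 1 (-66) 2 := chk_sound 
  (.cell (.nd (.lf (nat_lit 0x8007a18a5bda10c875)) (.lf (nat_lit 0x8067c788a508f578f5)) (.lf (nat_lit 0x82786b85fb8b567ea8)) (.lf (nat_lit 0x80bab2ec998e9a2a5c))) (.lf (nat_lit 0x8318008001d25f4ca4)) (.lf (nat_lit 0x815c38c11929b8bbf7)) (.lf (nat_lit 0x85056689a8c16c3f64)) (.lf (nat_lit 0x800849819e40aedc08)) (.lf (nat_lit 0x8087d28503e3eac98b)))
  _ _ _ (by decide +kernel)

noncomputable def g1_m70_6 : GD 1 (-70) 6 := chk_sound 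
  (.cell (.nd (.lf (nat_lit 0x8007ff813a0f69cf9a)) (.lf (nat_lit 0x80c6b6a8eb5a15480b)) (.lf (nat_lit 0x80081b810b8495ff0d)) (.lf (nat_lit 0x81da2cb25bbdd69a78))) (.lf (nat_lit 0x80e8418141d45ebca2)) (.lf (nat_lit 0xaeec02cd578892dbcb)) (.nd (.lf (nat_lit 0x80081980733a76fe64)) (.lf (nat_lit 0x80080180e3b85a9e56)) (.lf (nat_lit 0x842aad8ba813713f71)) (.lf (nat_lit 0x8097f48058e97bbff1))) (.lf (nat_lit 0x817800800e9ac39997)) (.lf (nat_lit 0x8067858ba3adeaa845)))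
  _ _ _ (by decide +kernel)

noncomputable def g1_m66_6 : GD 1 (-66) 6 := chk_sound 
  (.cell (.nd (.lf (nat_lit 0x8007ff826b1d318d7e)) (.lf (nat_lit 0x8007ba8874a8f3b85b)) (.lf (nat_lit 0x800801804b5c840f41)) (.lf (nat_lit 0x807ac3cb0ae0c6ea8c))) (.lf (nat_lit 0x8008008001d05eac9e)) (.lf (nat_lit 0x824c9bc7d7cda48c2a)) (.lf (nat_lit 0x81c8de87a7626f6fd8)) (.lf (nat_lit 0x80082f80fe74bbeae0)) (.lf (nat_lit 0x8077cf8583c6ebd8b8)))
  _ _ _ (by decide +kernel)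

theorem g2_m68_4 : GD 2 (-68) 4 :=
  GD.split (i := 1) g1_m70_2 g1_m66_2 g1_m70_6 g1_m66_6 (by decide)

noncomputable def g2_m76_12 : GD 2 (-76) 12 := chk_sound 
  (.cell (.nd (.nd (.lf (nat_lit 0x8087bc873c561588c0)) (.lf (nat_lit 0x80d7958b2c3814a8ac)) (.lf (nat_lit 0x8008ef8d794e892fc5)) (.lf (nat_lit 0x81c7aba1baeb9dcee3))) (.lf (nat_lit 0x80a7a08a6c0d12d8a2)) (.lf (nat_lit 0x800800800a9aa1af44)) (.lf (nat_lit 0x800827829c24d78c1b))) (.lf (nat_lit 0x80482d80d1ec5d2cb7)) (.lf (nat_lit 0x900c7cc6e7a7919cae)) (.nd (.lf (nat_lit 0x818800800383700e8b)) (.lf (nat_lit 0x800838810336598def)) (.nd (.lf (nat_lit 0x83f43b9d7357976cbd)) (.lf (nat_lit 0x80080180662d779fc5)) (.lf (nat_lit 0x8047ac87bc8a17d8c6)) (.lf (nat_lit 0x80080080980e854ffe))) (.lf (nat_lit 0x80180380b82a8a1ff9))) (.nd (.lf (nat_lit 0x80082b8261cb456b75)) (.lf (nat_lit 0x811bb9a8128344d802)) (.lf (nat_lit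 0x829c37abf8f3923e0a)) (.lf (nat_lit 0x809838831da8c7ab71))) (.lf (nat_lit 0x8077c185ec76166883)))
  _ _ _ (by decide +kernel)

noncomputable def g1_m70_10 : GD 1 (-70) 10 := chk_sound 
  (.cell (.nd (.lf (nat_lit 0x8117dc909992835fc5)) (.lf (nat_lit 0x8007cd848bd10fe862)) (.lf (nat_lit 0x80581b816a789cdf64)) (.lf (nat_lit 0x800826841c3fdbfb95))) (.lf (nat_lit 0x80081880f1d95deca4)) (.lf (nat_lit 0x9fcc84c647688e1c62)) (.nd (.lf (nat_lit 0x825800800328754e54)) (.lf (nat_lit 0x80082080d3585a3e0e)) (.nd (.lf (nat_lit 0x8007a0882cc91a3864)) (.lf (nat_lit 0x8007ff809667701fc6)) (.lf (nat_lit 0x8077998a3c601618a1)) (.lf (nat_lit 0x8007fd8038257a1ffd))) (.lf (nat_lit 0x8008008007f17fafff))) (.lf (nat_lit 0x82cbbca6cd07b5dabf)) (.lf (nat_lit 0x8127628f7c53160832)))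
  _ _ _ (by decide +kernel)

noncomputable def g1_m66_10 : GD 1 (-66) 10 := chk_sound 
  (.cell (.nd (.nd (.lf (nat_lit 0x8007998acc1b135893)) (.lf (nat_lit 0x8097858d3bee11c854)) (.lf (nat_lit 0x813800800984797fd8)) (.lf (nat_lit 0x8007db853baa0f08b7))) (.lf (nat_lit 0x80d76992ab9b0fc823)) (.lf (nat_lit 0x8008018079b68bffc7)) (.lf (nat_lit 0x800827822c99d83b85))) (.lf (nat_lit 0x80c8408161d55dfc9e)) (.lf (nat_lit 0x9c1c87c6574890fc69)) (.nd (.lf (nat_lit 0x80080d80d31c702e40)) (.lf (nat_lit 0x8198008003c75bae66)) (.lf (nat_lit 0x80080080c7ef72bff4)) (.lf (nat_lit 0x8007ff8058b1851ff6))) (.nd (.lf (nat_lit 0x80384c8301d7477ba9)) (.lf (nat_lit 0x80d9168b3eacc3583d)) (.lf (nat_lit 0x835c26a8ba09986dd0)) (.lf (nat_lit 0x800832832db1c32bba))) (.lf (nat_lit 0x8007ae8803bbebc814)))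
  _ _ _ (by decide +kernel)

noncomputable def g1_m70_14 : GD 1 (-70) 14 := chk_sound 
  (.cell (.nd (.lf (nat_lit 0x80e96199d92e888f9a)) (.lf (nat_lit 0x80d7918bbbfb12589e)) (.lf (nat_lit 0x80481a812a4d9e0f6d)) (.lf (nat_lit 0x80782c839c55ce1c9e))) (.lf (nat_lit 0x80f82f8101e55cecac)) (.lf (nat_lit 0x9ebc80c127948cbcc3)) (.nd (.lf (nat_lit 0x80f83180a31574be44)) (.lf (nat_lit 0x81d8008003475abe04)) (.nd (.lf (nat_lit 0x80079988eca018a895)) (.lf (nat_lit 0x8008008005d9729fa8)) (.lf (nat_lit 0x8047b286dc5915a8c0)) (.lf (nat_lit 0x80080080081a7bfffe))) (.lf (nat_lit 0x8007ff803765814ffa))) (.nd (.lf (nat_lit 0x8008308171fc495c01)) (.lf (nat_lit 0x80785283eeb1c5a842)) (.lf (nat_lit 0x821c53ac993a951dda)) (.lf (nat_lit 0x80582281fd8fc38be7))) (.lf (nat_lit 0x80177f8cac5715e87d)))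
  _ _ _ (by decide +kernel)

noncomputable def g1_m66_14 : GD 1 (-66) 14 := chk_sound 
  (.cell (.nd (.nd (.lf (nat_lit 0x8067a2896c2213a8b6)) (.lf (nat_lit 0x8077d684dc0e124893)) (.lf (nat_lit 0x80c8008008cd86fff2)) (.lf (nat_lit 0x81b810906ae9851f5f))) (.lf (nat_lit 0x8007878d4bda11387c)) (.nd (.lf (nat_lit 0x80080180c985955fbd)) (.lf (nat_lit 0x810800800bc7aa2e8a)) (.lf (nat_lit 0x816800800b24a6def2)) (.lf (nat_lit 0x80081781bc5db22dec))) (.lf (nat_lit 0x809827832c35d09c91))) (.lf (nat_lit 0x8008008001dc5d0ca2)) (.lf (nat_lit 0x8f6ca5c3d78792fcae)) (.nd (.lf (nat_lit 0x800800800307703e2f)) (.lf (nat_lit 0x80082780d35c5b0e16)) (.nd (.lf (nat_lit 0x80a7858afc941878a0)) (.lf (nat_lit 0x8008008006a96d9fcd)) (.lf (nat_lit 0x8097ae87bc4d1548c6)) (.lf (nat_lit 0x8008018047d27f0fff))) (.lf (nat_lit 0x8007f6807766829ff9))) (.nd (.lf (nat_lit 0x80082980b1f949dc04)) (.lf (nat_lit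 0x80c9368c3ea4c3782a)) (.lf (nat_lit 0x827b21a098858ecefe)) (.lf (nat_lit 0x80c836829d8ac1ac0c))) (.lf (nat_lit 0x8007b9874c4a148859)))
  _ _ _ (by decide +kernel)

theorem g2_m68_12 : GD 2 (-68) 12 :=
  GD.split (i := 1) g1_m70_10 g1_m66_10 g1_m70_14 g1_m66_14 (by decide)

theorem g3_m72_8 : GD 3 (-72) 8 :=
  GD.split (i := 2) g2_m76_4 g2_m68_4 g2_m76_12 g2_m68_12 (by decide)

noncomputable def g2_m76_20 : GD 2 (-76) 20 := chk_sound 
  (.cell (.nd (.nd (.lf (nat_lit 0x8097d184fc6a1688ec)) (.lf (nat_lit 0x80079e89cc611668d2)) (.lf (nat_lit 0x8008008009b28cefc6)) (.lf (nat_lit 0x81f9959b5ae6911f00))) (.lf (nat_lit 0x8007e7820d9a40cc1d)) (.lf (nat_lit 0x800800800af4a74f04)) (.lf (nat_lit 0x80083181cc9cbcdd50))) (.lf (nat_lit 0x84280080021b599cd6)) (.nd (.lf (nat_lit 0x8007b7867c6e163895)) (.lf (nat_lit 0x80085984be5ecbc8e2)) (.lf (nat_lit 0x8007e1836c5f1588af)) (.lf (nat_lit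 0x80083783dca8d16c0a))) (.nd (.lf (nat_lit 0x80782080d3c9696ea6)) (.lf (nat_lit 0x8008008003b65d7e65)) (.nd (.lf (nat_lit 0x81f404b3948c8eccfe)) (.lf (nat_lit 0x80080080062373efbe)) (.lf (nat_lit 0x8007ec80bc781718f9)) (.lf (nat_lit 0x80080080089784eff8))) (.lf (nat_lit 0x8008008007f18a9ff8))) (.nd (.lf (nat_lit 0x81bc29add52a68ed52)) (.lf (nat_lit 0x837c14ac32c847a804)) (.lf (nat_lit 0x8229f99458268ddf98)) (.lf (nat_lit 0x817800800d3cc10c7a))) (.lf (nat_lit 0x80b7858b5c701708ad)))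
  _ _ _ (by decide +kernel)

noncomputable def g1_m70_18 : GD 1 (-70) 18 := chk_sound 
  (.cell (.nd (.lf (nat_lit 0x80680e80b91f89efe5)) (.lf (nat_lit 0x8007f1842c281378bf)) (.lf (nat_lit 0x8007ff807a119d4f82)) (.lf (nat_lit 0x81b800800c8bc0ad32))) (.lf (nat_lit 0x8008018171f65b8cb8)) (.lf (nat_lit 0x98cca4bc67db8f2cfd)) (.nd (.lf (nat_lit 0x8078098043446eee5b)) (.lf (nat_lit 0x80082b81d3625bee20)) (.nd (.lf (nat_lit 0x8037b9866c7d1718bd)) (.lf (nat_lit 0x80081180b5b671ff9d)) (.lf (nat_lit 0x8067a4896c5115c8dd)) (.lf (nat_lit 0x8078008008547c8ffd))) (.lf (nat_lit 0x8007ff80573e82fff6))) (.nd (.lf (nat_lit 0x80080080024d4d6ca2)) (.lf (nat_lit 0x80090c8ace9dc51829)) (.lf (nat_lit 0x820b32a0f8108beeff)) (.lf (nat_lit 0x800800800d5cc11c53))) (.lf (nat_lit 0x8087918b4c5915f8a5)))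
  _ _ _ (by decide +kernel)

noncomputable def g1_m66_18 : GD 1 (-66) 18 := chk_sound 
  (.cell (.nd (.nd (.lf (nat_lit 0x8007bd86fc2d1408d4)) (.lf (nat_lit 0x8057c7865c241378be)) (.lf (nat_lit 0x80080680e8cf8a1fef)) (.lf (nat_lit 0x800810812ad0989f54))) (.lf (nat_lit 0x8007df814c0e1258b1)) (.nd (.lf (nat_lit 0x800800800954977fc0)) (.lf (nat_lit 0x80081e805ba0ad2e8c)) (.lf (nat_lit 0x800800800ac9a73f16)) (.lf (nat_lit 0x800801823c1ab2be17))) (.lf (nat_lit 0x80082982fc7ac0fd3c))) (.lf (nat_lit 0x8008218111eb5bdcac)) (.nd (.lf (nat_lit 0x8067998acc4014a87b)) (.lf (nat_lit 0x80886f84be7ec84910)) (.lf (nat_lit 0x80b7998aec1613389c)) (.lf (nat_lit 0x80081e81ec55d79be6))) (.nd (.lf (nat_lit 0x83480080030d6e1e2e)) (.lf (nat_lit 0x8008008003525bae13)) (.nd (.lf (nat_lit 0x80079c89dc7016e8bf)) (.lf (nat_lit 0x8098008005f870bfad)) (.lf (nat_lit 0x8007c2871c451508dc)) (.lf (nat_lit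 0x8008008007f180cfff))) (.lf (nat_lit 0x8027f88087af85dffc))) (.nd (.lf (nat_lit 0x80c84482a2404dbc93)) (.lf (nat_lit 0x828a7098fe4ac00804)) (.lf (nat_lit 0x80aa3396f82d8e1f80)) (.lf (nat_lit 0x800823816d58bfcc6a))) (.lf (nat_lit 0x80a7ad87bc4b14e897)))
  _ _ _ (by decide +kernel)

noncomputable def g1_m70_22 : GD 1 (-70) 22 := chk_sound 
  (.cell (.nd (.lf (nat_lit 0x80080180c9348c2fdf)) (.lf (nat_lit 0x8037bd872c491518cd)) (.lf (nat_lit 0x806817818a4aa06f64)) (.lf (nat_lit 0x800800800c90b94d82))) (.lf (nat_lit 0x80082b81c211595cc8)) (.nd (.lf (nat_lit 0x8017bd867c6115b89f)) (.lf (nat_lit 0x811878854e83c71938)) (.lf (nat_lit 0x80879a8a6c4e1588ba)) (.lf (nat_lit 0x80083a82ad11c3bc82))) (.nd (.lf (nat_lit 0x825a3895e45c6a9e7d)) (.lf (nat_lit 0x8118008003995d6e51)) (.nd (.lf (nat_lit 0x80a7ab885c601638d4)) (.lf (nat_lit 0x8008008005c3701f9d)) (.lf (nat_lit 0x8097a888ac4f15c8ef))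 (.lf (nat_lit 0x8068008008597fcffe))) (.lf (nat_lit 0x80080080074e849ff6))) (.nd (.lf (nat_lit 0x8088178102d1537d6a)) (.lf (nat_lit 0x8179d493218f3cc813)) (.lf (nat_lit 0x81a9368c98388f2fce)) (.lf (nat_lit 0x804839823d15bdfcce))) (.lf (nat_lit 0x8007dc830c601598b3)))
  _ _ _ (by decide +kernel)

noncomputable def g1_m66_22 : GD 1 (-66) 22 := chk_sound 
  (.cell (.nd (.lf (nat_lit 0x8007e88479328ebfd9)) (.lf (nat_lit 0x80e79e89ec301468cc)) (.lf (nat_lit 0x8008008008e4943fd9)) (.lf (nat_lit 0x81b800800c81b92d8f))) (.lf (nat_lit 0x80883081820259fcba)) (.nd (.lf (nat_lit 0x80c7848c0c4c15889d)) (.lf (nat_lit 0x80987d85de90c63920)) (.lf (nat_lit 0x8057b387ec3b1478b8)) (.lf (nat_lit 0x80082682bcfac48c90))) (.nd (.lf (nat_lit 0x82cb229d749e6f9e2f)) (.lf (nat_lit 0x8258008003775cee36)) (.nd (.lf (nat_lit 0x80579b88ec5315c8d4)) (.lf (nat_lit 0x8008008005ca6f9f9e)) (.lf (nat_lit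 0x8007a488fc3f1528ed)) (.lf (nat_lit 0x8038008007e283affe))) (.lf (nat_lit 0x8007ff807760852ff8))) (.nd (.lf (nat_lit 0x81b8008002b0530d46)) (.lf (nat_lit 0x81490f8ad1573c4844)) (.lf (nat_lit 0x8209528df874926fbe)) (.lf (nat_lit 0x800817825d14bd2cda))) (.lf (nat_lit 0x80d7a1899c4d1558b3)))
  _ _ _ (by decide +kernel)

theorem g2_m68_20 : GD 2 (-68) 20 :=
  GD.split (i := 1) g1_m70_18 g1_m66_18 g1_m70_22 g1_m66_22 (by decide)

noncomputable def g2_m76_28 : GD 2 (-76) 28 := chk_sound 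
  (.cell (.nd (.lf (nat_lit 0x8008008009da918fb4)) (.lf (nat_lit 0x8007f0809dc073dd81)) (.lf (nat_lit 0x800801815ac3a4af26)) (.lf (nat_lit 0x80082980ec94b2bdbd))) (.lf (nat_lit 0x8008358182934b7cde)) (.lf (nat_lit 0x845cf2ab09c59bfd1b)) (.nd (.lf (nat_lit 0x81b9428e64d262eef0)) (.lf (nat_lit 0x80081c815470622ee9)) (.nd (.lf (nat_lit 0x8007c8848c6015f8db)) (.lf (nat_lit 0x80080c80667e6e5fc7)) (.lf (nat_lit 0x8087ab879c741758fc)) (.lf (nat_lit 0x80080980884988fff9))) (.lf (nat_lit 0x8007ff80e8168a3ff9))) (.lf (nat_lit 0x82aa859ae848901f54)) (.lf (nat_lit 0x80079d888c7816e89c)))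
  _ _ _ (by decide +kernel)

noncomputable def g1_m70_26 : GD 1 (-70) 26 := chk_sound 
  (.cell (.nd (.lf (nat_lit 0x8088008009728f0fcf)) (.lf (nat_lit 0x8007e880fdc1578cf1)) (.lf (nat_lit 0x800800800a76a22f4e)) (.lf (nat_lit 0x80082080dc86b48db8))) (.lf (nat_lit 0x810800800239552cd6)) (.nd (.lf (nat_lit 0x8087b1877c6a162899)) (.lf (nat_lit 0x80a863848e98c5e914)) (.lf (nat_lit 0x8007ac87cc6b1668b5)) (.lf (nat_lit 0x80080181dd4fba7cbc))) (.nd (.nd (.lf (nat_lit 0x8097948a7c49152899)) (.lf (nat_lit 0x8008258193855b1e35)) (.lf (nat_lit 0x80c7948a6c4a1568bc)) (.lf (nat_lit 0x80080e80243f605ec7))) (.lf (nat_lit 0x8008018153e45f3e8c)) (.nd (.lf (nat_lit 0x8007ac88bc4f1598da)) (.lf (nat_lit 0x8008008005ee6d6fa3)) (.lf (nat_lit 0x8007ff82bc5615a8f4)) (.lf (nat_lit 0x8027fc8077c0853ffd))) (.lf (nat_lit 0x80080080077585bff9))) (.lf (nat_lit 0x81ba4e98088191ef69)) (.lf (nat_lit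 0x8007bd853c6315d8b1)))
  _ _ _ (by decide +kernel)

noncomputable def g1_m66_26 : GD 1 (-66) 26 := chk_sound 
  (.cell (.nd (.lf (nat_lit 0x8048008009558dffd7)) (.lf (nat_lit 0x817800800db960ad3b)) (.lf (nat_lit 0x800801813a139e5f7d)) (.lf (nat_lit 0x80082381dc77b45dc5))) (.lf (nat_lit 0x800820818224569cc9)) (.nd (.lf (nat_lit 0x8077978a1c5a15d8a1)) (.lf (nat_lit 0x81f800800ea4c52914)) (.lf (nat_lit 0x8027db83ac5b1578bc)) (.lf (nat_lit 0x817800800d35babcd6))) (.nd (.nd (.lf (nat_lit 0x8007c7851c4d14c89a)) (.lf (nat_lit 0x80081081a35d5bfe1d)) (.lf (nat_lit 0x8007d583bc4814b8bd)) (.lf (nat_lit 0x80082f80b416609eb1))) (.lf (nat_lit 0x8028288173b55e6e69)) (.lf (nat_lit 0x8018008007ff80cfff)) (.lf (nat_lit 0x80280080075184dff7))) (.lf (nat_lit 0x826a629958588f0f67)) (.lf (nat_lit 0x8097928aec5115b8b8)))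
  _ _ _ (by decide +kernel)

noncomputable def g1_m70_30 : GD 1 (-70) 30 := chk_sound 
  (.cell (.nd (.lf (nat_lit 0x80080180e9ad908fc1)) (.lf (nat_lit 0x8007e080bda673ed9c)) (.lf (nat_lit 0x80081281aa93a2ff40)) (.lf (nat_lit 0x800818817c7ab10de0))) (.lf (nat_lit 0x80082980d2894adccc)) (.lf (nat_lit 0x8d4cbaafea349f6cd4)) (.nd (.lf (nat_lit 0x800ad6a2555f671e7b)) (.lf (nat_lit 0x80080180843b60fec8)) (.lf (nat_lit 0x87d8e58d180580bfe4)) (.lf (nat_lit 0x8007fb80b7a7866ffb))) (.lf (nat_lit 0x81ba0995d860929f84)) (.lf (nat_lit 0x8047b8867c691618a4)))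
  _ _ _ (by decide +kernel)

noncomputable def g1_m66_30 : GD 1 (-66) 30 := chk_sound 
  (.cell (.nd (.lf (nat_lit 0x8158008009a7913fc0)) (.lf (nat_lit 0x8007d8801d65800de7)) (.lf (nat_lit 0x800801812a8ca33f41)) (.lf (nat_lit 0x80082d80fc69b0edee))) (.lf (nat_lit 0x8098248152614f0cca)) (.nd (.lf (nat_lit 0x8007c8869c6915f894)) (.lf (nat_lit 0x81185e83beaec478ea)) (.lf (nat_lit 0x80a79489bc7316f8b2)) (.lf (nat_lit 0x800800800d4ab61cf5))) (.nd (.lf (nat_lit 0x829aa29f351b65ae7d)) (.lf (nat_lit 0x8008158144015fdea1)) (.lf (nat_lit 0x80a7c78707e4821ffb)) (.lf (nat_lit 0x80080080076784cff8))) (.lf (nat_lit 0x82d9e5940816907f99)) (.lf (nat_lit 0x8087ad881c5b15b8ae)))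
  _ _ _ (by decide +kernel)

theorem g2_m68_28 : GD 2 (-68) 28 :=
  GD.split (i := 1) g1_m70_26 g1_m66_26 g1_m70_30 g1_m66_30 (by decide)

theorem g3_m72_24 : GD 3 (-72) 24 :=
  GD.split (i := 2) g2_m76_20 g2_m68_20 g2_m76_28 g2_m68_28 (by decide)

noncomputable def g2_m76_36 : GD 2 (-76) 36 := chk_sound 
  (.cell (.nd (.lf (nat_lit 0x800800800a61936f8a)) (.lf (nat_lit 0x838800800e5c801cd8)) (.lf (nat_lit 0x80081a80fa929ecf53)) (.lf (nat_lit 0x80081581ec8dacfdf2))) (.lf (nat_lit 0x833c5ab636a1743d94)) (.lf (nat_lit 0x834caeb4ba1c9ecccd)) (.nd (.lf (nat_lit 0x813a7aa025d2668ed2)) (.lf (nat_lit 0x821800800529656f4a)) (.lf (nat_lit 0x8c29cb98c85881ef98)) (.lf (nat_lit 0x80580080086489bff7))) (.lf (nat_lit 0x815a549a8862929f5f)) (.lf (nat_lit 0x8007e982dc8516c873)))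
  _ _ _ (by decide +kernel)

noncomputable def g2_m68_36 : GD 2 (-68) 36 := chk_sound 
  (.cell (.nd (.lf (nat_lit 0x8048078069e3936fad)) (.lf (nat_lit 0x80082a801d3d800e0b)) (.lf (nat_lit 0x805810810a1f9c7f81)) (.lf (nat_lit 0x82a800800c62acfe12))) (.lf (nat_lit 0x837ca7ba96196edce9)) (.lf (nat_lit 0x832cb3b34ad3a56c43)) (.nd (.lf (nat_lit 0x81b98e9544fb5e3ecc)) (.lf (nat_lit 0x8008128114a2627f04)) (.nd (.lf (nat_lit 0x8007e5838c451498c0)) (.nd (.lf (nat_lit 0x8088008005d9577f46)) (.lf (nat_lit 0x8008018105d2680f8c)) (.lf (nat_lit 0x8008018106fa723fe3)) (.lf (nat_lit 0x80080180871f766fed))) (.lf (nat_lit 0x8067c5863c6c1698df)) (.nd (.lf (nat_lit 0x8028008008087b5ffe)) (.lf (nat_lit 0x8008008008017fbfff)) (.lf (nat_lit 0x8007f68058697e7ffd)) (.lf (nat_lit 0x80380080084d82dffe)))) (.lf (nat_lit 0x8058008007d7862ffd))) (.lf (nat_lit 0x8009c292d8008e4fa9)) (.lf (nat_lit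 0x80d7908a6c6c16888c)))
  _ _ _ (by decide +kernel)

noncomputable def g2_m76_44 : GD 2 (-76) 44 := chk_sound 
  (.cell (.lf (nat_lit 0x80082281dc29acce3b)) (.lf (nat_lit 0x837bf2b336b6745dff)) (.lf (nat_lit 0x824c4fb1097f990d99)) (.nd (.lf (nat_lit 0x80080781d61154cf46)) (.lf (nat_lit 0x8088008005c3669f83)) (.lf (nat_lit 0x8287c787d881787ff3)) (.lf (nat_lit 0x80080b80c8d089afef))) (.lf (nat_lit 0x80a9659038528f7fbe)) (.lf (nat_lit 0x8087568f6c7d17e84a)))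
  _ _ _ (by decide +kernel)

noncomputable def g2_m68_44 : GD 2 (-68) 44 := chk_sound 
  (.cell (.nd (.lf (nat_lit 0x80781b811a86947f7b)) (.lf (nat_lit 0x869800800eb3818c59)) (.lf (nat_lit 0x80581c818a6e9acf6f)) (.lf (nat_lit 0x80881f810c62a8fe2e))) (.lf (nat_lit 0x837c06b2567472fde6)) (.lf (nat_lit 0x82fc20aeb958975ddf)) (.nd (.lf (nat_lit 0x80081981b55d5ddf3e)) (.lf (nat_lit 0x800801815554648f57)) (.lf (nat_lit 0x80280080083178bffc)) (.lf (nat_lit 0x80080980686687aff9))) (.lf (nat_lit 0x8008cc8917ff8b2fe8)) (.lf (nat_lit 0x80b79e889c7d16d860)))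
  _ _ _ (by decide +kernel)

theorem g3_m72_40 : GD 3 (-72) 40 :=
  GD.split (i := 2) g2_m76_36 g2_m68_36 g2_m76_44 g2_m68_44 (by decide)

noncomputable def g2_m76_52 : GD 2 (-76) 52 := chk_sound 
  (.cell (.lf (nat_lit 0x801803801cbbaa1de3)) (.lf (nat_lit 0x81ab64ade6136aee3a)) (.lf (nat_lit 0x80ec2aaed92c950dea)) (.nd (.lf (nat_lit 0x813a07a0e6af5b1ef8)) (.lf (nat_lit 0x80f800800637656f9e)) (.lf (nat_lit 0x81699899696377ff88)) (.lf (nat_lit 0x80f80080094e8a3fdd))) (.lf (nat_lit 0x8108d48a485d8f7fdd)) (.lf (nat_lit 0x806732938c6817e838)))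
  _ _ _ (by decide +kernel)

noncomputable def g2_m68_52 : GD 2 (-68) 52 := chk_sound 
  (.cell (.lf (nat_lit 0x806814811c36abae3a)) (.lf (nat_lit 0x832c21b71685719da9)) (.lf (nat_lit 0x814c22acd932966df9)) (.nd (.lf (nat_lit 0x80080080062a538f45)) (.lf (nat_lit 0x8108008005f3654f8c)) (.lf (nat_lit 0x8007f480d8d0759fee)) (.lf (nat_lit 0x800800800902898fea))) (.lf (nat_lit 0x8008008088798a9ff5)) (.lf (nat_lit 0x8007a1895c7f16e848)))
  _ _ _ (by decide +kernel)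

noncomputable def g2_m76_60 : GD 2 (-76) 60 := chk_sound 
  (.cell (.lf (nat_lit 0x80082180fd61a3bd7b)) (.lf (nat_lit 0x815b8fb90678703df1)) (.lf (nat_lit 0x823ce7aef8898e5d7f)) (.lf (nat_lit 0x80d89184a827670fd1)) (.lf (nat_lit 0x8008008008b48fafe8)) (.lf (nat_lit 0x8007a5895c3914488b)))
  _ _ _ (by decide +kernel)

noncomputable def g2_m68_60 : GD 2 (-68) 60 := chk_sound 
  (.cell (.lf (nat_lit 0x80981f813cbda85dee)) (.lf (nat_lit 0x823bb8b8c66a709dd7)) (.nd (.lf (nat_lit 0x8007a78843adeaa8ab)) (.nd (.lf (nat_lit 0x82bbe5b47816a5ddb2)) (.lf (nat_lit 0x82280080049e7b6f3e)) (.lf (nat_lit 0x811c9da796f886fdf1)) (.lf (nat_lit 0x8198d58747148e5fd6))) (.lf (nat_lit 0x86208688e96186da59)) (.lf (nat_lit 0x807828820ce0b41d70))) (.nd (.lf (nat_lit 0x8008078106b2431ee9)) (.lf (nat_lit 0x813800800667634fa1)) (.lf (nat_lit 0x8047ed8069d874cfc0)) (.lf (nat_lit 0x8008108099978b0fcf)))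 (.lf (nat_lit 0x80080580c8658d2ff2)) (.lf (nat_lit 0x8007a0894c4f15187b)))
  _ _ _ (by decide +kernel)

theorem g3_m72_56 : GD 3 (-72) 56 :=
  GD.split (i := 2) g2_m76_52 g2_m68_52 g2_m76_60 g2_m68_60 (by decide)

noncomputable def g2_m76_68 : GD 2 (-76) 68 := chk_sound 
  (.cell (.lf (nat_lit 0x80083e807e159a7ceb)) (.lf (nat_lit 0x814a3cd806ef8afd36)) (.nd (.lf (nat_lit 0x800c5eb187e5d07b2b)) (.lf (nat_lit 0x85693b88f5f0a29f4a)) (.lf (nat_lit 0x817ad2a1eeea8d49bc)) (.lf (nat_lit 0x82c9da8c4d26b13ce5))) (.lf (nat_lit 0x83391d8a891b6a1fb1)) (.lf (nat_lit 0x8007ff81269797afbc)) (.lf (nat_lit 0x82acccb1aafc6e9c9b)))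
  _ _ _ (by decide +kernel)

noncomputable def g2_m68_68 : GD 2 (-68) 68 := chk_sound 
  (.cell (.lf (nat_lit 0x80082a80cd47a19da1)) (.lf (nat_lit 0x800abcd126d9828d6d)) (.nd (.lf (nat_lit 0x86abbeb006b6d9eac1)) (.lf (nat_lit 0x83a91f88a5f5a15f57)) (.lf (nat_lit 0x843b1aa13ee379a98a)) (.lf (nat_lit 0x800586838929a46f29))) (.lf (nat_lit 0x81d8e387f8a465bfbc)) (.lf (nat_lit 0x80d8008006c196bfc6)) (.lf (nat_lit 0x82ec9eaf5bcc6e9c46)))
  _ _ _ (by decide +kernel)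

noncomputable def g2_m76_76 : GD 2 (-76) 76 := chk_sound 
  (.cell (.lf (nat_lit 0x81c800800e0e9accf3)) (.lf (nat_lit 0x8047bf904a02055823)) (.nd (.lf (nat_lit 0x828c0dc139d0cdaa07)) (.lf (nat_lit 0x89f8ce8623efd14c86)) (.lf (nat_lit 0x809858827ed8b35a96)) (.lf (nat_lit 0x85cd1292e4df824d30))) (.lf (nat_lit 0x9af94e952a2e682f1f)) (.lf (nat_lit 0x928a198324a0968eb2)) (.lf (nat_lit 0x84ece1bcfb147c8c02)))
  _ _ _ (by decide +kernel)

noncomputable def g2_m68_76 : GD 2 (-68) 76 := chk_sound 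
  (.cell (.lf (nat_lit 0x80080c813e089a9cfb)) (.lf (nat_lit 0x8037bb9079f705382f)) (.nd (.lf (nat_lit 0x82db98d1b956ca4949)) (.lf (nat_lit 0x8168008003dad98bee)) (.lf (nat_lit 0x80084b816efab28a49)) (.lf (nat_lit 0x86edba94c591847cd4))) (.lf (nat_lit 0x8009c383e9e36abf73)) (.lf (nat_lit 0x800a188344ce97cedd)) (.lf (nat_lit 0x83acf0bcbb56837bbd)))
  _ _ _ (by decide +kernel)

theorem g3_m72_72 : GD 3 (-72) 72 :=
  GD.split (i := 2) g2_m76_68 g2_m68_68 g2_m76_76 g2_m68_76 (by decide)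

noncomputable def g2_m76_84 : GD 2 (-76) 84 := chk_sound 
  (.cell (.lf (nat_lit 0x80080180fdf79aed0e)) (.lf (nat_lit 0x8007d28bb9ed04884c)) (.nd (.lf (nat_lit 0x80c8f993ecdee2580c)) (.lf (nat_lit 0x8007e78043a1d96bb1)) (.lf (nat_lit 0x80183f820e8fb4db28)) (.lf (nat_lit 0x85ddbb953638892d13))) (.lf (nat_lit 0x8009248bcb17631f06)) (.lf (nat_lit 0x8007cb8352f2c88c38)) (.lf (nat_lit 0x82ec04be1c2f870be2)))
  _ _ _ (by decide +kernel)

noncomputable def g2_m68_84 : GD 2 (-68) 84 := chk_sound 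
  (.cell (.lf (nat_lit 0x80083a818dee9add18)) (.lf (nat_lit 0x8007dd86e9e204085c)) (.nd (.lf (nat_lit 0x80c8888cb3a116082b)) (.lf (nat_lit 0x8037c6849398da0b93)) (.lf (nat_lit 0x80c847828e9cb6aaeb)) (.lf (nat_lit 0x85fd4790e54c8afd34))) (.lf (nat_lit 0x8009368d3ae75e8f00)) (.lf (nat_lit 0x8007d68142f7c9fc26)) (.lf (nat_lit 0x818ccabeeb7385ebae)))
  _ _ _ (by decide +kernel)

noncomputable def g2_m76_92 : GD 2 (-76) 92 := chk_sound 
  (.cell (.lf (nat_lit 0x800800800dd49b5d34)) (.lf (nat_lit 0x8017ee85d94703693a)) (.nd (.lf (nat_lit 0x821b07dab4b54be918)) (.lf (nat_lit 0x8047f481437dd87b9c)) (.lf (nat_lit 0x82f800800e71b23b8c)) (.lf (nat_lit 0x871cd48c852391fd83))) (.nd (.lf (nat_lit 0x8007ff82579a161c77)) (.lf (nat_lit 0x82e85d8c4a3e20dcc6)) (.lf (nat_lit 0x8007ce808c85768e92)) (.lf (nat_lit 0x840c129f79976b6e45))) (.lf (nat_lit 0x8007d8831303cbcc13)) (.lf (nat_lit 0x820ca9bdcb9386fbca)))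
  _ _ _ (by decide +kernel)

noncomputable def g2_m68_92 : GD 2 (-68) 92 := chk_sound 
  (.cell (.lf (nat_lit 0x841800800dc79b6d41)) (.lf (nat_lit 0x8047ea89793503a94f)) (.nd (.lf (nat_lit 0x816aa1e0c5334a2924)) (.lf (nat_lit 0x800801824371d83b93)) (.lf (nat_lit 0x800830807e76b42b66)) (.lf (nat_lit 0x8e5c1b88744e96ed82))) (.lf (nat_lit 0x89f6cf831a68577f10)) (.lf (nat_lit 0x8007d9818301cc8c03)) (.lf (nat_lit 0x800cd6bc9b4a875be7)))
  _ _ _ (by decide +kernel)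

theorem g3_m72_88 : GD 3 (-72) 88 :=
  GD.split (i := 2) g2_m76_84 g2_m68_84 g2_m76_92 g2_m68_92 (by decide)

noncomputable def g2_m76_100 : GD 2 (-76) 100 := chk_sound 
  (.cell (.lf (nat_lit 0x80083c813da59c4d61)) (.lf (nat_lit 0x8007f38799000429ab)) (.nd (.nd (.lf (nat_lit 0x8008178356150bbab7)) (.lf (nat_lit 0x8037c69a191404081d)) (.lf (nat_lit 0x80083384e4051589ea)) (.lf (nat_lit 0x80083e856c87e93839))) (.lf (nat_lit 0x8007c882f362d5dbb7)) (.lf (nat_lit 0x800830812e62af8bca)) (.lf (nat_lit 0xa997c9818374abfd61))) (.nd (.lf (nat_lit 0x80080a81d779197cc0)) (.lf (nat_lit 0x816913bd3ac2309bfd)) (.lf (nat_lit 0x82e800800cce7bae63)) (.lf (nat_lit 0x80baf1a1f9ef6d4ec3))) (.lf (nat_lit 0x8007f3823313cbcc27)) (.lf (nat_lit 0x83ac05becc348debbd)))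
  _ _ _ (by decide +kernel)

noncomputable def g2_m68_100 : GD 2 (-68) 100 := chk_sound 
  (.cell (.lf (nat_lit 0x800800800d969c9d70)) (.lf (nat_lit 0x8037f187e8e00479d1)) (.nd (.lf (nat_lit 0x816918bb9478222969)) (.lf (nat_lit 0x8007c5837355d54bb3)) (.lf (nat_lit 0x800800800e66b0fbb2)) (.lf (nat_lit 0x8be72082e300bbfcdb))) (.nd (.lf (nat_lit 0x80080d8377681b9cea)) (.lf (nat_lit 0x818988b6ba8831fc71)) (.lf (nat_lit 0x828800800cd67d4e5e)) (.lf (nat_lit 0x8199aa92ea9573cf40))) (.lf (nat_lit 0x8007de81930fcbfc1f)) (.lf (nat_lit 0x818bfabdec188cebf9)))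
  _ _ _ (by decide +kernel)

noncomputable def g2_m76_108 : GD 2 (-76) 108 := chk_sound 
  (.cell (.lf (nat_lit 0x800801811d6c9e1d92)) (.lf (nat_lit 0x8007f585c89105ea4a)) (.nd (.nd (.lf (nat_lit 0x80181984d6110cbadc)) (.lf (nat_lit 0x800790a7a95508780e)) (.lf (nat_lit 0x8008478673b217598a)) (.lf (nat_lit 0x8109fab5ac06da18f7))) (.lf (nat_lit 0x8007e2831343d28bdb)) (.lf (nat_lit 0x80083680fe51ae1bf7)) (.lf (nat_lit 0x81f800800303c19cb8))) (.nd (.lf (nat_lit 0x80080081f77e1b8cec)) (.lf (nat_lit 0x82c98cb49a512f0c72)) (.lf (nat_lit 0x820800800d067f8e39)) (.lf (nat_lit 0x80096f915ace781f41))) (.lf (nat_lit 0x8077c883c318ca3c47)) (.lf (nat_lit 0x82dc04bbebd3862c5d)))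
  _ _ _ (by decide +kernel)

noncomputable def g2_m68_108 : GD 2 (-68) 108 := chk_sound 
  (.cell (.lf (nat_lit 0x80082f81ad539ebda6)) (.lf (nat_lit 0x8007f683985e06ca84)) (.nd (.lf (nat_lit 0x8078328573ee12d8ce)) (.lf (nat_lit 0x809800800334d1cbda)) (.lf (nat_lit 0x88c704826e3baf7be1)) (.lf (nat_lit 0x8007dd8112ffc32c9d))) (.nd (.lf (nat_lit 0x80080980577d1d4d0f)) (.lf (nat_lit 0x80f9a9aaa9de2e1cf0)) (.lf (nat_lit 0x800824803d07809e38)) (.lf (nat_lit 0x80793e933a0e754f81))) (.lf (nat_lit 0x8007d9808312ca1c44)) (.lf (nat_lit 0x826bd2be1c208aec1a)))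
  _ _ _ (by decide +kernel)

theorem g3_m72_104 : GD 3 (-72) 104 :=
  GD.split (i := 2) g2_m76_100 g2_m68_100 g2_m76_108 g2_m68_108 (by decide)

noncomputable def g2_m76_116 : GD 2 (-76) 116 := chk_sound 
  (.cell (.lf (nat_lit 0x829800800d1ea10dca)) (.lf (nat_lit 0x8007ff83289e056a30)) (.nd (.lf (nat_lit 0x81994b9ad3481e7818)) (.lf (nat_lit 0x805800800320ceac01)) (.lf (nat_lit 0x8c173c828e1bae7c22)) (.lf (nat_lit 0x8007d281c30ac25cb4))) (.nd (.lf (nat_lit 0x8098008007981cdd09)) (.lf (nat_lit 0x83695fa249a3294d0a)) (.lf (nat_lit 0x828800800d2c82be19)) (.lf (nat_lit 0x81d9cc9d09c37a7f5d))) (.lf (nat_lit 0x80080180c30ec7ec65)) (.nd (.lf (nat_lit 0x82b9ffa43bf1659e0c)) (.lf (nat_lit 0x80eb85bfac9bb549dc)) (.lf (nat_lit 0x80080180ed9d8ecd9f)) (.lf (nat_lit 0x82d800800e1ba57c9a))))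
  _ _ _ (by decide +kernel)

noncomputable def g2_m68_116 : GD 2 (-68) 116 := chk_sound 
  (.cell (.lf (nat_lit 0x824800800cfaa24de2)) (.lf (nat_lit 0x80080184785c068a77)) (.nd (.lf (nat_lit 0x80785688a3ad162907)) (.lf (nat_lit 0x8037c783f311cd7c03)) (.lf (nat_lit 0x8a270a826e1caf7c10)) (.lf (nat_lit 0x8077d0824303c34c9f))) (.nd (.lf (nat_lit 0x80080881b7a51e8d2a)) (.lf (nat_lit 0x8328ea973934222d03)) (.lf (nat_lit 0x800816802d29836e1b)) (.lf (nat_lit 0x81a9579d19d4791f70))) (.lf (nat_lit 0x817800800308c76c66)) (.nd (.lf (nat_lit 0x839a3ba92bf668cde1)) (.lf (nat_lit 0x819be0c72c33aa3a24)) (.lf (nat_lit 0x80f83380ad988f3da2)) (.lf (nat_lit 0x80782580fe18a5dc9b))))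
  _ _ _ (by decide +kernel)

noncomputable def g2_m76_124 : GD 2 (-76) 124 := chk_sound .out
  _ _ _ (by decide +kernel)

noncomputable def g2_m68_124 : GD 2 (-68) 124 := chk_sound 
  (.cell (.lf (nat_lit 0x800828822c7ba79e25)) (.lf (nat_lit 0x80080080079c0b2b3b)) (.nd (.lf (nat_lit 0x8148a68c9d09e2082e)) (.lf (nat_lit 0x8007d283a2e8c8ac2a)) (.lf (nat_lit 0x913736835dd9b1ac48)) (.lf (nat_lit 0x8007d98282ffc2bca3))) (.lf (nat_lit 0x8037ee813b1057def3)) (.lf (nat_lit 0x8007d881f2f7c41c86)) (.nd (.lf (nat_lit 0x819a3eab7b985f3dde)) (.lf (nat_lit 0x80fb21bd2cdda8fb10)) (.lf (nat_lit 0x80082580bd9d905d9a)) (.lf (nat_lit 0x81f800800e05a4fcbb))))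
  _ _ _ (by decide +kernel)

theorem g3_m72_120 : GD 3 (-72) 120 :=
  GD.split (i := 2) g2_m76_116 g2_m68_116 g2_m76_124 g2_m68_124 (by decide)

noncomputable def g2_m60_m124 : GD 2 (-60) (-124) := chk_sound 
  (.cell (.lf (nat_lit 0x8007f983e778fa9a38)) (.lf (nat_lit 0x8008268182e95f7dd2)) (.nd (.lf (nat_lit 0x80080a8042e97b3e29)) (.lf (nat_lit 0x80ca5ea8a2bc67ccae)) (.lf (nat_lit 0x80080b824882e0dd34)) (.lf (nat_lit 0x82dc47cd06b7a5bbe9))) (.lf (nat_lit 0x8007d180fd00364c34)) (.lf (nat_lit 0x81c9c0a19226417aa3)) (.lf (nat_lit 0x827bbda88592922e08)))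
  _ _ _ (by decide +kernel)

noncomputable def g2_m52_m124 : GD 2 (-52) (-124) := chk_sound 
  (.cell (.lf (nat_lit 0x80080780a834f6aafd)) (.lf (nat_lit 0x80081181735b5aee15)) (.lf (nat_lit 0x8338808983f59a3ea8)) (.lf (nat_lit 0x80b800800d13388c45)) (.lf (nat_lit 0x8139d7a432533e7a8a)) (.lf (nat_lit 0x831b76a685838d6e44)))
  _ _ _ (by decide +kernel)

noncomputable def g2_m60_m116 : GD 2 (-60) (-116) := chk_sound 
  (.cell (.lf (nat_lit 0x8007fc83e7a1f9ca6b)) (.lf (nat_lit 0x8358008003025e4de1)) (.nd (.lf (nat_lit 0x8298008002e17c1e23)) (.lf (nat_lit 0x82f8be8ca235675d2e)) (.lf (nat_lit 0x8007ff83a869e05d3f)) (.lf (nat_lit 0x82bbfbc87568965c5a))) (.lf (nat_lit 0x821800800cff376c49)) (.lf (nat_lit 0x8018498371e5353a2a)) (.lf (nat_lit 0x800b71a835428e8e1f)))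
  _ _ _ (by decide +kernel)

noncomputable def g2_m52_m116 : GD 2 (-52) (-116) := chk_sound 
  (.cell (.lf (nat_lit 0x800809839875f4ab40)) (.lf (nat_lit 0x80082e82038e589e2c)) (.lf (nat_lit 0x80793995d3ce995e5d)) (.lf (nat_lit 0x80080180fd163a1c5b)) (.lf (nat_lit 0x81f9e8a3e257417ad2)) (.lf (nat_lit 0x82db59ab05748e2e2f)))
  _ _ _ (by decide +kernel)

theorem g3_m56_m120 : GD 3 (-56) (-120) :=
  GD.split (i := 2) g2_m60_m124 g2_m52_m124 g2_m60_m116 g2_m52_m116 (by decide)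

noncomputable def g2_m60_m108 : GD 2 (-60) (-108) := chk_sound 
  (.cell (.lf (nat_lit 0x8008018617c5f8da99)) (.lf (nat_lit 0x8008008003185d1ded)) (.nd (.lf (nat_lit 0x8008188072d67cfe1a)) (.lf (nat_lit 0x80082180f22b679d41)) (.lf (nat_lit 0x80080082b84de01d46)) (.lf (nat_lit 0x838b39bbb39276fc70))) (.lf (nat_lit 0x8007e980acff389c5d)) (.nd (.lf (nat_lit 0x8b7b5babb2fe57aba6)) (.lf (nat_lit 0x80083c80e1ca525c25)) (.lf (nat_lit 0x8e37e483e299255955)) (.lf (nat_lit 0x806849846255278908))) (.nd (.lf (nat_lit 0x83f77183acda3fbce2)) (.lf (nat_lit 0x80082c80334f7f8e7a)) (.lf (nat_lit 0x8077ce830cf0334c10)) (.lf (nat_lit 0x800800800807e1dd28))))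
  _ _ _ (by decide +kernel)

noncomputable def g2_m52_m108 : GD 2 (-52) (-108) := chk_sound 
  (.cell (.lf (nat_lit 0x80080b8538b0f29b7b)) (.lf (nat_lit 0x80083480b2c95e8db0)) (.lf (nat_lit 0x8008db9033a59a8e5d)) (.lf (nat_lit 0x8007d782cd193bcc71)) (.nd (.lf (nat_lit 0x83a839a171fe4d4ba7)) (.lf (nat_lit 0x8008318241dd561c67)) (.lf (nat_lit 0x80085c86725c29398d)) (.lf (nat_lit 0x82fb8cc873dd6feb91))) (.lf (nat_lit 0x8a3b3dadf5558dbe15)))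
  _ _ _ (by decide +kernel)

noncomputable def g2_m60_m100 : GD 2 (-60) (-100) := chk_sound 
  (.cell (.lf (nat_lit 0x8007fa8657e4f80abf)) (.lf (nat_lit 0x82580080032d5c0df8)) (.nd (.lf (nat_lit 0x8388008002cb7dae11)) (.lf (nat_lit 0x80080181521f667d2e)) (.lf (nat_lit 0x800807819831e00d48)) (.lf (nat_lit 0x82ab7dc183b9730c02))) (.lf (nat_lit 0x827800800cff39cc70)) (.lf (nat_lit 0x80084e8281f7338a22)) (.nd (.lf (nat_lit 0x80052388bb5f520dfd)) (.lf (nat_lit 0x81480080033d826e6c)) (.lf (nat_lit 0x8007ff823cf934dc23)) (.lf (nat_lit 0x8007fd8257fae10d37))))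
  _ _ _ (by decide +kernel)

noncomputable def g2_m52_m100 : GD 2 (-52) (-100) := chk_sound 
  (.cell (.lf (nat_lit 0x80080b81a8e4f0cbac)) (.lf (nat_lit 0x80e8338192fb5badcb)) (.nd (.lf (nat_lit 0x8268008002d17d6e16)) (.lf (nat_lit 0x80081280923d69fd5f)) (.lf (nat_lit 0x8007fd81a712d6add0)) (.lf (nat_lit 0x82aad7b733ab85fd02))) (.lf (nat_lit 0x8007ca812d1c3d7c87)) (.lf (nat_lit 0x81b9b0a3725e3c3a8c)) (.lf (nat_lit 0x829b27aea5168c0e0a)))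
  _ _ _ (by decide +kernel)

theorem g3_m56_m104 : GD 3 (-56) (-104) :=
  GD.split (i := 2) g2_m60_m108 g2_m52_m108 g2_m60_m100 g2_m52_m100 (by decide)

noncomputable def g2_m60_m92 : GD 2 (-60) (-92) := chk_sound 
  (.cell (.lf (nat_lit 0x8008018427faf77adb)) (.lf (nat_lit 0x80082f80b33d5b2dff)) (.nd (.lf (nat_lit 0x8008208052bd7e6e05)) (.lf (nat_lit 0x8008458101f861fce6)) (.lf (nat_lit 0x81981f83a7fedeed5c)) (.lf (nat_lit 0x820b88c463b26daba8))) (.lf (nat_lit 0x8007ca81dcfe3b0c84)) (.lf (nat_lit 0x8008538321f136aa77)) (.lf (nat_lit 0x82bb44b2f4fb8a3dcd)))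
  _ _ _ (by decide +kernel)

noncomputable def g2_m52_m92 : GD 2 (-52) (-92) := chk_sound 
  (.cell (.lf (nat_lit 0x8007ff83f90fef0bd4)) (.lf (nat_lit 0x80083480a32c58cde2)) (.nd (.lf (nat_lit 0x8008018022be7d9e06)) (.lf (nat_lit 0x80d83180c23068cd4b)) (.lf (nat_lit 0x8007ff829643cf7e06)) (.lf (nat_lit 0x800b0dbbf38f7d9c92))) (.lf (nat_lit 0x8007c881bd1d3f4ca0)) (.lf (nat_lit 0x80082981621d325a62)) (.lf (nat_lit 0x813acaaba4c086de2a)))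
  _ _ _ (by decide +kernel)

noncomputable def g2_m60_m84 : GD 2 (-60) (-84) := chk_sound 
  (.cell (.lf (nat_lit 0x8007ff851806f70aec)) (.lf (nat_lit 0x80581d8143455a9e02)) (.nd (.lf (nat_lit 0x81b8008002ae7efdf8)) (.lf (nat_lit 0x8358008001ef607cd2)) (.lf (nat_lit 0x8008878a2762da2d95)) (.lf (nat_lit 0x824b7dc343936a3b8f))) (.lf (nat_lit 0x8097ce82acfb3c3c99)) (.lf (nat_lit 0x8008018221f534aa49)) (.nd (.lf (nat_lit 0x80073f80b5cc8d8f9b)) (.lf (nat_lit 0x8007e280832988ce58)) (.lf (nat_lit 0x819577b596aebe3d6e)) (.lf (nat_lit 0x8038008007dae0dd3a))))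
  _ _ _ (by decide +kernel)

noncomputable def g2_m52_m84 : GD 2 (-52) (-84) := chk_sound 
  (.cell (.lf (nat_lit 0x8007ff80d92dedcbf0)) (.lf (nat_lit 0x80083380c354564df1)) (.nd (.lf (nat_lit 0x8388008002a97d7df3)) (.lf (nat_lit 0x80082a81121e676d31)) (.lf (nat_lit 0x8007e58145e6cd6e03)) (.lf (nat_lit 0x830b10bc03947d5c93))) (.lf (nat_lit 0x8007d5818d1b411cbb)) (.lf (nat_lit 0x805857843210325a39)) (.lf (nat_lit 0x8189dea404668b2e7a)))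
  _ _ _ (by decide +kernel)

theorem g3_m56_m88 : GD 3 (-56) (-88) :=
  GD.split (i := 2) g2_m60_m92 g2_m52_m92 g2_m60_m84 g2_m52_m84 (by decide)

noncomputable def g2_m60_m76 : GD 2 (-60) (-76) := chk_sound 
  (.cell (.lf (nat_lit 0x8007ff818802f71aed)) (.lf (nat_lit 0x8088288143445a6e00)) (.nd (.lf (nat_lit 0x80082780129c7f4de8)) (.lf (nat_lit 0x82c8008001e15edcb5)) (.lf (nat_lit 0x8388798a7612ccae0d)) (.lf (nat_lit 0x832b6bc2d370658b5b))) (.lf (nat_lit 0x8007d8831cf53d4caf)) (.nd (.lf (nat_lit 0x845b97939315390a5f)) (.lf (nat_lit 0x85c71e8091e251ac26)) (.lf (nat_lit 0x853b8895c33d354a3e)) (.lf (nat_lit 0x80081c82a2372bb9a2))) (.nd (.lf (nat_lit 0x830aec8a6597857f01)) (.lf (nat_lit 0x8007da80b32b8c8e53)) (.lf (nat_lit 0x80059dbae6d9be4d51)) (.lf (nat_lit 0x80080180f7cce14d31))))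
  _ _ _ (by decide +kernel)

noncomputable def g2_m52_m76 : GD 2 (-52) (-76) := chk_sound 
  (.cell (.lf (nat_lit 0x80281085393becdc03)) (.lf (nat_lit 0x80b82781836d546df7)) (.nd (.lf (nat_lit 0x80b81380128e7cedda)) (.lf (nat_lit 0x80583c80f20a658d10)) (.lf (nat_lit 0x8008018104c9be9e31)) (.lf (nat_lit 0x822b0cbd73797b5c65))) (.lf (nat_lit 0x8007e1820d1642ecd8)) (.lf (nat_lit 0x80884182c1d2377a42)) (.lf (nat_lit 0x81c6fb8d5507a65ee7)))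
  _ _ _ (by decide +kernel)

noncomputable def g2_m60_m68 : GD 2 (-60) (-68) := chk_sound 
  (.cell (.lf (nat_lit 0x8007fe8537eaf76adc)) (.lf (nat_lit 0x8008318023375aadf7)) (.nd (.lf (nat_lit 0x8228008002857efdd3)) (.lf (nat_lit 0x8238008001df605cbd)) (.lf (nat_lit 0x83c9429a15f5ca2dd6)) (.lf (nat_lit 0x823b6ec3436a5f9b10))) (.lf (nat_lit 0x8007d780dcec3e1cc4)) (.nd (.lf (nat_lit 0x80084f8220775708b2)) (.lf (nat_lit 0x8cf7f38131d052cc20)) (.lf (nat_lit 0x82f96e86206460e82c)) (.lf (nat_lit 0x80d86e86f27625f919))) (.nd (.lf (nat_lit 0x82d9d496a4a4910ecc)) (.lf (nat_lit 0x8007d580e32f905e4d)) (.lf (nat_lit 0xa49612cb971aadbce0)) (.lf (nat_lit 0x8007f78207c0e20d22))))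
  _ _ _ (by decide +kernel)

noncomputable def g2_m52_m68 : GD 2 (-52) (-68) := chk_sound 
  (.cell (.lf (nat_lit 0x80080e841939ecac0a)) (.lf (nat_lit 0x8008008002b05b7d86)) (.nd (.lf (nat_lit 0x8008008002707b9dbd)) (.lf (nat_lit 0x80083c80d1f6632ceb)) (.lf (nat_lit 0x8007ea807472bb9e1f)) (.lf (nat_lit 0x82fae7c18334661ba0))) (.lf (nat_lit 0x8007cd82dd0f44bcf5)) (.nd (.lf (nat_lit 0x86889a84412045c9af)) (.lf (nat_lit 0x9436f883a210527c3b)) (.lf (nat_lit 0x89996986d16940a985)) (.lf (nat_lit 0x80080080025f2c1a2d))) (.nd (.lf (nat_lit 0x8007fe8155a3945f89)) (.lf (nat_lit 0x82080080031a8c2e46)) (.lf (nat_lit 0x80b620aeb842ba1e39)) (.lf (nat_lit 0x80080182d75eddfd64))))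
  _ _ _ (by decide +kernel)

theorem g3_m56_m72 : GD 3 (-56) (-72) :=
  GD.split (i := 2) g2_m60_m76 g2_m52_m76 g2_m60_m68 g2_m52_m68 (by decide)

noncomputable def g2_m60_m60 : GD 2 (-60) (-60) := chk_sound 
  (.cell (.lf (nat_lit 0x8007f78367bdf85ab3)) (.lf (nat_lit 0x80a82d81931d5b7de7)) (.nd (.lf (nat_lit 0x83580080026d7e4dbb)) (.lf (nat_lit 0x80083381a1cc5e3c94)) (.lf (nat_lit 0x83b97c9ec505bc2deb)) (.lf (nat_lit 0x822b12bd7312506a92))) (.lf (nat_lit 0x8007da815ce23eccd8)) (.nd (.lf (nat_lit 0x8047de823ce0423d06)) (.lf (nat_lit 0x8e67488081d1522c05)) (.lf (nat_lit 0x8007ff819cf93d0ca8)) (.lf (nat_lit 0x8078658602422ab980))) (.nd (.lf (nat_lit 0x842b3a9f651c8d5e5f)) (.lf (nat_lit 0x8007e7813334945e45)) (.lf (nat_lit 0x82a94abd2569c92c7c)) (.lf (nat_lit 0x8007fb8117bbe34d0a))))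
  _ _ _ (by decide +kernel)

noncomputable def g2_m52_m60 : GD 2 (-52) (-60) := chk_sound 
  (.cell (.lf (nat_lit 0x80080d856926ed0c04)) (.lf (nat_lit 0x8358008002ab5b8d81)) (.nd (.lf (nat_lit 0x800819806250799d9b)) (.lf (nat_lit 0x80083281a1e560ccc7)) (.lf (nat_lit 0x8398a390e446ba0df3)) (.lf (nat_lit 0x82aa90bc12f54f8af2))) (.lf (nat_lit 0x8007c6817d08466d10)) (.nd (.lf (nat_lit 0x84b8008000b851998e)) (.lf (nat_lit 0x8596668262014fcc06)) (.lf (nat_lit 0x8038448270cb4c3931)) (.lf (nat_lit 0x80089c8fd252303a56))) (.nd (.lf (nat_lit 0x81a96a9604f88b3f19)) (.lf (nat_lit 0x8007e080b2fc8d6e2c)) (.lf (nat_lit 0x80989a8ce730d13e0c)) (.lf (nat_lit 0x8007ff82c73ddf1d4c))))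
  _ _ _ (by decide +kernel)

noncomputable def g2_m60_m52 : GD 2 (-60) (-52) := chk_sound 
  (.cell (.lf (nat_lit 0x8008018467fdf72ae8)) (.lf (nat_lit 0x80d82e8152f85cbdcf)) (.nd (.lf (nat_lit 0x81d82680125f7f1dae)) (.lf (nat_lit 0x80083180d1bc5c1c6e)) (.lf (nat_lit 0x8409729e0413ac2df1)) (.lf (nat_lit 0x800824833208321a21))) (.lf (nat_lit 0x8007e480ccd83f3ce8)) (.nd (.lf (nat_lit 0x8007df82bcd6436d1e)) (.lf (nat_lit 0x93590a8231da509bd9)) (.lf (nat_lit 0x8007e381dceb3e4cc8)) (.nd (.lf (nat_lit 0x8048648451d333b9af)) (.lf (nat_lit 0x80a84283a20a2e8988)) (.lf (nat_lit 0x800827857a7ef669b1)) (.lf (nat_lit 0x805840879b9beeb9ad)))) (.nd (.lf (nat_lit 0x835ad2a7c4a7957e11)) (.lf (nat_lit 0x8007d581435a9b9e46)) (.lf (nat_lit 0xa297a6d54567b60b8e)) (.lf (nat_lit 0x8007f98337c0e4dcea))))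
  _ _ _ (by decide +kernel)

noncomputable def g2_m52_m52 : GD 2 (-52) (-52) := chk_sound 
  (.cell (.lf (nat_lit 0x80080f8268f7f23b79)) (.lf (nat_lit 0x81b80080028b606d80)) (.nd (.lf (nat_lit 0x82880080023277dd7a)) (.lf (nat_lit 0x8288008001d65eaca5)) (.lf (nat_lit 0x8007ce81133ca68df4)) (.lf (nat_lit 0x824a5fb772d0488ab7))) (.lf (nat_lit 0x8057cf82acff47fd2a)) (.nd (.lf (nat_lit 0x8007ad82bf1a4ea9f7)) (.nd (.lf (nat_lit 0x80082381920d503c6d)) (.lf (nat_lit 0x8008018121d556dc64)) (.lf (nat_lit 0x9a07b68331fc48bb9d)) (.lf (nat_lit 0x8088468241c1518c0d))) (.lf (nat_lit 0x80f7b5819f585669c6)) (.nd (.lf (nat_lit 0x8c28a784423e30aa43)) (.lf (nat_lit 0x80081981a1eb350a3a)) (.lf (nat_lit 0x8008858b7353198882)) (.lf (nat_lit 0x80085b8472472e9a42)))) (.nd (.lf (nat_lit 0x8329769c14428f8e9e)) (.lf (nat_lit 0x81c8008002e58fce13)) (.lf (nat_lit 0xa329bfad9703c3fd62)) (.lf (nat_lit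 0x8007f2839735e13d23))))
  _ _ _ (by decide +kernel)

theorem g3_m56_m56 : GD 3 (-56) (-56) :=
  GD.split (i := 2) g2_m60_m60 g2_m52_m60 g2_m60_m52 g2_m52_m52 (by decide)

noncomputable def g2_m60_m44 : GD 2 (-60) (-44) := chk_sound 
  (.cell (.lf (nat_lit 0x800807835839f68b00)) (.lf (nat_lit 0x80082880d2cb5e3db0)) (.nd (.lf (nat_lit 0x80f800800277853dc3)) (.lf (nat_lit 0x80092794a1cb5cdc32)) (.lf (nat_lit 0x8338e092433f9e2dfa)) (.lf (nat_lit 0x80983e82d2152fe9f0))) (.lf (nat_lit 0x828800800cce3f6cf4)) (.nd (.lf (nat_lit 0x8007e080fcc6445d38)) (.lf (nat_lit 0x91185f81e1c8503be2)) (.lf (nat_lit 0x8007df82fcd73f0ce6)) (.nd (.nd (.lf (nat_lit 0x80883682212641d95a)) (.lf (nat_lit 0x80081381e19d3b3a27)) (.lf (nat_lit 0x80b8978701bb3298d2)) (.lf (nat_lit 0x80085785524b27489d))) (.lf (nat_lit 0x8008698511f131f9c8)) (.lf (nat_lit 0x80f993a95ac4ec3932)) (.lf (nat_lit 0x80083d877bd9ed896d))))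 (.nd (.lf (nat_lit 0x840a76a5b4419acdf5)) (.lf (nat_lit 0x8208008003e0aade4e)) (.lf (nat_lit 0x8178dfb10547de6b68)) (.lf (nat_lit 0x8007fa8217b2e5dcd5))))
  _ _ _ (by decide +kernel)

noncomputable def g1_m54_m46 : GD 1 (-54) (-46) := chk_sound 
  (.cell (.lf (nat_lit 0x80080a841866f36b6d)) (.lf (nat_lit 0x80081480d2a5615d9f)) (.nd (.lf (nat_lit 0x81280080022e7a9d79)) (.lf (nat_lit 0x8008468051c65c7c7e)) (.lf (nat_lit 0x800904971355a2cddc)) (.lf (nat_lit 0x80584784523d2dea10))) (.lf (nat_lit 0x8007e6819cec461d28)) (.nd (.lf (nat_lit 0x8007ea815cdf45fd33)) (.lf (nat_lit 0x9b27b781e208504c0e)) (.lf (nat_lit 0x8007cb819d07451d02)) (.lf (nat_lit 0x80882b82c223311a46))) (.lf (nat_lit 0x8287f883d494bd0e23)))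
  _ _ _ (by decide +kernel)

noncomputable def g1_m50_m46 : GD 1 (-50) (-46) := chk_sound 
  (.cell (.lf (nat_lit 0x800809842984f52ad4)) (.lf (nat_lit 0x80081781b2ba5c5d95)) (.nd (.lf (nat_lit 0x80082a80c21775cd59)) (.lf (nat_lit 0x81c8008001ce5cfc8e)) (.lf (nat_lit 0x81c8008002d59c9dd6)) (.lf (nat_lit 0x83aaa8bb12cd54faff))) (.lf (nat_lit 0x8007e3821cfe4b9d51)) (.nd (.lf (nat_lit 0x8007e081fcf247bd34)) (.lf (nat_lit 0x80065a8312074eec03)) (.lf (nat_lit 0x8077d8817d2c4a3d16)) (.lf (nat_lit 0x8be8a68d8249319a5c))) (.lf (nat_lit 0x82b8608b1452bb7e00)))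
  _ _ _ (by decide +kernel)

noncomputable def g1_m54_m42 : GD 1 (-54) (-42) := chk_sound 
  (.cell (.lf (nat_lit 0x8007ff84a838f4ab45)) (.lf (nat_lit 0x80082e81728f62dd91)) (.nd (.lf (nat_lit 0x8278008002307d0d7d)) (.lf (nat_lit 0x81084481c1bf5acc66)) (.lf (nat_lit 0x846977a1c387a47dab)) (.lf (nat_lit 0x80081d8132432cc9fb))) (.lf (nat_lit 0x8007d782ece5466d32)) (.nd (.lf (nat_lit 0x8007d8817cd4468d43)) (.lf (nat_lit 0x82d8008001ca4f4c02)) (.lf (nat_lit 0x8007d0819cf9455d13)) (.lf (nat_lit 0x81d8008002552a39bf))) (.lf (nat_lit 0x8177f881b49fbfbe0e)))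
  _ _ _ (by decide +kernel)

noncomputable def g1_m50_m42 : GD 1 (-50) (-42) := chk_sound 
  (.cell (.lf (nat_lit 0x80081281d9b0f5baa4)) (.lf (nat_lit 0x80083880e29d5e2d84)) (.nd (.lf (nat_lit 0x80081e80a20b768d4d)) (.lf (nat_lit 0x80082e81b1c45b2c71)) (.lf (nat_lit 0x8318008002c39cedc4)) (.lf (nat_lit 0x829a52b4029a4a0abb))) (.lf (nat_lit 0x8007f0821cf34bfd5f)) (.nd (.lf (nat_lit 0x8007cd81ece5488d49)) (.lf (nat_lit 0x98e8008002054e8c06)) (.lf (nat_lit 0x80f800800d1b4a8d2b)) (.lf (nat_lit 0x80585a84c2522b89e5))) (.lf (nat_lit 0x8008808d9457bdcde4)))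
  _ _ _ (by decide +kernel)

theorem g2_m52_m44 : GD 2 (-52) (-44) :=
  GD.split (i := 1) g1_m54_m46 g1_m50_m46 g1_m54_m42 g1_m50_m42 (by decide)

noncomputable def g2_m60_m36 : GD 2 (-60) (-36) := chk_sound 
  (.cell (.lf (nat_lit 0x8007ff814881f61b0a)) (.lf (nat_lit 0x80080080022f703d66)) (.nd (.lf (nat_lit 0x8007d98132de939e02)) (.lf (nat_lit 0x8169719981d5583be3)) (.lf (nat_lit 0x8009e3a6c3fea8bda8)) (.lf (nat_lit 0x800ad8bae2de508aad))) (.lf (nat_lit 0x8097dd81bcc73f7cfb)) (.nd (.lf (nat_lit 0x8007d882acb2454d54)) (.lf (nat_lit 0x8318008001ba4b5bb4)) (.lf (nat_lit 0x820800800cbf3f3d00)) (.lf (nat_lit 0x8139e79802c628e90d))) (.lf (nat_lit 0x8007658ca513c4be00)))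
  _ _ _ (by decide +kernel)

noncomputable def g1_m54_m38 : GD 1 (-54) (-38) := chk_sound 
  (.cell (.lf (nat_lit 0x8007ff842864f4cb3d)) (.lf (nat_lit 0x80082f813278649d83)) (.lf (nat_lit 0x81bb22c2533d703ba6)) (.lf (nat_lit 0x800800800cdf467d39)) (.nd (.lf (nat_lit 0x8007da824cc846fd53)) (.lf (nat_lit 0x80081c81c1d14c8bea)) (.lf (nat_lit 0x8007dd81ecea456d22)) (.lf (nat_lit 0x81580080023b2d39f7))) (.lf (nat_lit 0x8007f082449cc0de01)))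
  _ _ _ (by decide +kernel)

noncomputable def g1_m50_m38 : GD 1 (-50) (-38) := chk_sound 
  (.cell (.lf (nat_lit 0x80080e8619e4f5da74)) (.lf (nat_lit 0x82d80080027d608d73)) (.lf (nat_lit 0x81daf2c3232b6d4b99)) (.lf (nat_lit 0x8007da81fce64c1d6c)) (.nd (.lf (nat_lit 0x800800800cd7490d5c)) (.lf (nat_lit 0x80080181d1d14c6be9)) (.lf (nat_lit 0x8007ea809d074a9d3f)) (.lf (nat_lit 0x80b85a85e26d28098a))) (.lf (nat_lit 0x82682885f445bf2ddb)))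
  _ _ _ (by decide +kernel)

noncomputable def g1_m54_m34 : GD 1 (-54) (-34) := chk_sound 
  (.cell (.lf (nat_lit 0x800800800834f61b13)) (.lf (nat_lit 0x80082a816260668d74)) (.nd (.lf (nat_lit 0x80080080024e85fd9a)) (.lf (nat_lit 0x81083c8191b354fc1e)) (.lf (nat_lit 0x81b9c4a7836c9fdd76)) (.lf (nat_lit 0x80c84e84523c2d29ed))) (.lf (nat_lit 0x8007d880ccd8468d40)) (.nd (.lf (nat_lit 0x8007eb825cbc474d61)) (.lf (nat_lit 0x8008338241de48cbca)) (.lf (nat_lit 0x8007d1807cda454d30)) (.lf (nat_lit 0x80c87187f2aa231923))) (.lf (nat_lit 0x8027eb815482c01dfa)))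
  _ _ _ (by decide +kernel)

noncomputable def g1_m50_m34 : GD 1 (-50) (-34) := chk_sound 
  (.cell (.lf (nat_lit 0x80080b85997cf57ac9)) (.lf (nat_lit 0x80081e81325c636d61)) (.lf (nat_lit 0x80faf8c2033b76fbe1)) (.lf (nat_lit 0x8007d4827cd94c0d77)) (.nd (.lf (nat_lit 0x8087d8821cc5496d6f)) (.lf (nat_lit 0x80484b8291db489bc1)) (.lf (nat_lit 0x8097cf824cf14a6d51)) (.lf (nat_lit 0x80a85285527927097f))) (.lf (nat_lit 0x8007f6820420be1dd2)))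
  _ _ _ (by decide +kernel)

theorem g2_m52_m36 : GD 2 (-52) (-36) :=
  GD.split (i := 1) g1_m54_m38 g1_m50_m38 g1_m54_m34 g1_m50_m34 (by decide)

theorem g3_m56_m40 : GD 3 (-56) (-40) :=
  GD.split (i := 2) g2_m60_m44 g2_m52_m44 g2_m60_m36 g2_m52_m36 (by decide)

noncomputable def g2_m60_m28 : GD 2 (-60) (-28) := chk_sound 
  (.cell (.lf (nat_lit 0x8007ff85081ff76adc)) (.lf (nat_lit 0x80082481626a607d5f)) (.nd (.lf (nat_lit 0x8007cd8132ee949e0c)) (.lf (nat_lit 0x82796198f1cf4e2b66)) (.lf (nat_lit 0x83e9d7a5f3929fed99)) (.lf (nat_lit 0x81db47c3834c677b4e))) (.lf (nat_lit 0x8097d082bcc53fbd00)) (.lf (nat_lit 0x928af2c2437e658bb6)) (.lf (nat_lit 0x8007de82453acf7d9f)))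
  _ _ _ (by decide +kernel)

noncomputable def g2_m52_m28 : GD 2 (-52) (-28) := chk_sound 
  (.cell (.lf (nat_lit 0x80080885395af63abb)) (.lf (nat_lit 0x80c838812258633d5b)) (.nd (.lf (nat_lit 0x81884485c23e85ad85)) (.lf (nat_lit 0x83b9c2a3621b66cc53)) (.lf (nat_lit 0x822a3aaf7336943d11)) (.lf (nat_lit 0x841b47c3837c75fbd2))) (.lf (nat_lit 0x8037e3810ccf491d63)) (.nd (.lf (nat_lit 0x8007fb817cad489d7c)) (.lf (nat_lit 0x80083b82d1fa41fb8b)) (.lf (nat_lit 0x8007e581dccd475d53)) (.lf (nat_lit 0x8008208272c621493b))) (.lf (nat_lit 0x8077da8253ecbbcdc6)))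
  _ _ _ (by decide +kernel)

noncomputable def g2_m60_m20 : GD 2 (-60) (-20) := chk_sound 
  (.cell (.lf (nat_lit 0x80083c8aa7a4f97a64)) (.lf (nat_lit 0x80083b81b23c60bd2e)) (.lf (nat_lit 0x81fb25bed382836c4b)) (.lf (nat_lit 0x807800800ccb408d06)) (.lf (nat_lit 0x830b96c603f0666b96)) (.lf (nat_lit 0x8057eb82a536d19d7e)))
  _ _ _ (by decide +kernel)

noncomputable def g2_m52_m20 : GD 2 (-52) (-20) := chk_sound 
  (.cell (.lf (nat_lit 0x8148558ab85bf74ac7)) (.lf (nat_lit 0x80080181120e679d20)) (.lf (nat_lit 0x829af3bf3361827c46)) (.lf (nat_lit 0x8007db824cc8492d6a)) (.lf (nat_lit 0x90da44bdd3235c5bc4)) (.lf (nat_lit 0x8007e9821443c32db0)))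
  _ _ _ (by decide +kernel)

theorem g3_m56_m24 : GD 3 (-56) (-24) :=
  GD.split (i := 2) g2_m60_m28 g2_m52_m28 g2_m60_m20 g2_m52_m20 (by decide)

noncomputable def g2_m60_m12 : GD 2 (-60) (-12) := chk_sound 
  (.cell (.lf (nat_lit 0x81c72fb517b1eeea0b)) (.lf (nat_lit 0x810838811212606cfc)) (.nd (.lf (nat_lit 0x8328fc94730195ede0)) (.lf (nat_lit 0x822a44b0e2a041da57)) (.lf (nat_lit 0x8007f782b78be8cc91)) (.lf (nat_lit 0x800827844b7defb9b8))) (.lf (nat_lit 0x8221f0b3f989676b74)) (.lf (nat_lit 0x986bfac674b562ab80)) (.lf (nat_lit 0x8007e682750ed29d5a)))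
  _ _ _ (by decide +kernel)

noncomputable def g2_m52_m12 : GD 2 (-52) (-12) := chk_sound 
  (.cell (.lf (nat_lit 0x8007ff866812f79ad2)) (.lf (nat_lit 0x8428008001dd6b9cf6)) (.nd (.lf (nat_lit 0x8319fcab22db8fbd08)) (.lf (nat_lit 0x821b12c3d3425feb2b)) (.lf (nat_lit 0x83cabbbf0341884c43)) (.lf (nat_lit 0x80084d84b28425a956))) (.lf (nat_lit 0x8007d0813ccb49ed6f)) (.lf (nat_lit 0x8aea9ac7637e61eb9a)) (.lf (nat_lit 0x8037e28334b8cc8d81)))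
  _ _ _ (by decide +kernel)

noncomputable def g2_m60_m4 : GD 2 (-60) (-4) := chk_sound 
  (.cell (.nd (.lf (nat_lit 0x8007b2870c27146915)) (.lf (nat_lit 0x8007ed84f670f38b0d)) (.lf (nat_lit 0x8007c8822c803bbd0b)) (.lf (nat_lit 0x8178c4e539aac379b0))) (.lf (nat_lit 0x80982980c1f05fcccf)) (.nd (.lf (nat_lit 0x82f975a043479bddb2)) (.lf (nat_lit 0x831abfbf732847fa39)) (.lf (nat_lit 0x8037f88446faedebf6)) (.lf (nat_lit 0x80a83f861c28eb493d))) (.lf (nat_lit 0x88d27b8c47396d9d8a)) (.lf (nat_lit 0x826ce2c515d05adb5c)) (.lf (nat_lit 0x8007e38154e1dbaca0)))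
  _ _ _ (by decide +kernel)

noncomputable def g2_m52_m4 : GD 2 (-52) (-4) := chk_sound 
  (.cell (.nd (.lf (nat_lit 0x8558dc961476eb79e5)) (.lf (nat_lit 0x8008018386e8ee0bee)) (.lf (nat_lit 0x81f671c81c224f7bde)) (.lf (nat_lit 0x8018188709ccf949c2))) (.lf (nat_lit 0x8008318172475e1d2a)) (.nd (.lf (nat_lit 0x848a15b212ce896cbd)) (.lf (nat_lit 0x831aeac81363637b45)) (.lf (nat_lit 0x840aeac7b35f7bebb9)) (.lf (nat_lit 0x80383c83929d24295c))) (.lf (nat_lit 0x8057ca828cd54c0d7a)) (.lf (nat_lit 0x889b3ec2a3a6547b14)) (.lf (nat_lit 0x8007ff8294f0d36d3c)))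
  _ _ _ (by decide +kernel)

theorem g3_m56_m8 : GD 3 (-56) (-8) :=
  GD.split (i := 2) g2_m60_m12 g2_m52_m12 g2_m60_m4 g2_m52_m4 (by decide)

noncomputable def g1_m62_2 : GD 1 (-62) 2 := chk_sound 
  (.cell (.nd (.lf (nat_lit 0x8007a18a8bf51208ac)) (.lf (nat_lit 0x8007e6839585f659bf)) (.lf (nat_lit 0x8007d6818c3a452db4)) (.lf (nat_lit 0x817a9aec69ce8c3abd))) (.lf (nat_lit 0x8008258151d85f3cac)) (.nd (.lf (nat_lit 0x82ea83a9a4459fddbe)) (.lf (nat_lit 0x8008318321c9315907)) (.lf (nat_lit 0x8007e284f610f3fac1)) (.lf (nat_lit 0x807830867b8cedea01))) (.lf (nat_lit 0x8834848afac6622e51)) (.lf (nat_lit 0x800d7dba599c994bef)) (.lf (nat_lit 0x8007cb841429e98a5f)))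
  _ _ _ (by decide +kernel)

noncomputable def g1_m58_2 : GD 1 (-58) 2 := chk_sound 
  (.cell (.lf (nat_lit 0x820a0fe9486c4c6a6c)) (.lf (nat_lit 0x8038338171e95f2cc1)) (.nd (.lf (nat_lit 0x82c95a9a938e9ecdfe)) (.lf (nat_lit 0x81ba0eb3729b452a99)) (.lf (nat_lit 0x800800826689f04b8b)) (.lf (nat_lit 0x807844865c36ead931))) (.lf (nat_lit 0x8007dd809ce74edd85)) (.lf (nat_lit 0x829cd0c9952b68eb17)) (.lf (nat_lit 0x8047e5832483e69b43)))
  _ _ _ (by decide +kernel)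

noncomputable def g1_m62_6 : GD 1 (-62) 6 := chk_sound 
  (.cell (.nd (.lf (nat_lit 0x8057aa89fbf411e8ab)) (.lf (nat_lit 0x8007c789b50ef56905)) (.lf (nat_lit 0x82b84583dbff636eae)) (.lf (nat_lit 0x813b7ece4b05b13b0c))) (.lf (nat_lit 0x8008388091d45eaca2)) (.nd (.lf (nat_lit 0x838a9facf4179eed7e)) (.lf (nat_lit 0x81288b86a1c33208e4)) (.lf (nat_lit 0x8007d5862565f549d0)) (.lf (nat_lit 0x806839854c34e7ca05))) (.nd (.lf (nat_lit 0xc71afd91d960774da5)) (.lf (nat_lit 0x822985875a3978cf81)) (.lf (nat_lit 0x800a7a85faf9638ec3)) (.lf (nat_lit 0x82486a830baf711f05))) (.lf (nat_lit 0x837bc8a54c5fb06bff)) (.lf (nat_lit 0x8067ba8813fbebf966)))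
  _ _ _ (by decide +kernel)

noncomputable def g1_m58_6 : GD 1 (-58) 6 := chk_sound 
  (.cell (.nd (.lf (nat_lit 0x8087b5878c25143907)) (.lf (nat_lit 0x8007ff83159af629e9)) (.lf (nat_lit 0x816800800c8d510de2)) (.lf (nat_lit 0x800ad1e37a38996b29))) (.lf (nat_lit 0x80081780c1df5ebcb2)) (.nd (.lf (nat_lit 0x82599ba063739b5dcd)) (.lf (nat_lit 0x825a16b972ba48baa3)) (.lf (nat_lit 0x8007e385460ef35ad9)) (.lf (nat_lit 0x810873893cdee3d8e6))) (.lf (nat_lit 0x88887682fcb35f5e19)) (.lf (nat_lit 0x8078188151c4337978)) (.lf (nat_lit 0x800800800449eb3a4c)))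
  _ _ _ (by decide +kernel)

theorem g2_m60_4 : GD 2 (-60) 4 :=
  GD.split (i := 1) g1_m62_2 g1_m58_2 g1_m62_6 g1_m58_6 (by decide)

noncomputable def g2_m52_4 : GD 2 (-52) 4 := chk_sound 
  (.cell (.nd (.lf (nat_lit 0x8007da85a459f0491d)) (.lf (nat_lit 0x8037f483e67ef1bb56)) (.lf (nat_lit 0x82976b9e8cad495d24)) (.lf (nat_lit 0x80faa9dd3a9db999cb))) (.lf (nat_lit 0x80081b8172155e8cf4)) (.nd (.lf (nat_lit 0x82da9abfc3137c6c1f)) (.lf (nat_lit 0x820abfc6a345611b4a)) (.lf (nat_lit 0x828b04ca237274ab7b)) (.lf (nat_lit 0x80a8468502ad233955))) (.lf (nat_lit 0x810800800ce250bd9a)) (.lf (nat_lit 0x835bf3be842049ea93)) (.lf (nat_lit 0x8007e884350adddc8e)))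
  _ _ _ (by decide +kernel)

noncomputable def g1_m62_10 : GD 1 (-62) 10 := chk_sound 
  (.cell (.nd (.lf (nat_lit 0x800800800b13522ece)) (.lf (nat_lit 0x8007809124adf2b857)) (.lf (nat_lit 0x80080180cbbb8d3f07)) (.lf (nat_lit 0x8108f091bcb7d74b25))) (.lf (nat_lit 0x80081480e1d35e0c9d)) (.lf (nat_lit 0x830cf4c876f597ebf3)) (.nd (.nd (.lf (nat_lit 0x80d4659891b3a1ea19)) (.lf (nat_lit 0x80a82181247166cefc)) (.lf (nat_lit 0x826263c8ba01598969)) (.lf (nat_lit 0x83491f86e930714fc3))) (.lf (nat_lit 0x8007f980885a740ff4)) (.lf (nat_lit 0x83db388f68676f1f2a)) (.lf (nat_lit 0x8268ad858b00886f5b))) (.lf (nat_lit 0x81f9928ebde8badb80)) (.lf (nat_lit 0x8027d28453dced0887)))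
  _ _ _ (by decide +kernel)

noncomputable def g1_m58_10 : GD 1 (-58) 10 := chk_sound 
  (.cell (.nd (.lf (nat_lit 0x8007d3855c1e13a8fc)) (.lf (nat_lit 0x8047d987151df5c91c)) (.lf (nat_lit 0x80d7e5808c58702ea4)) (.lf (nat_lit 0x811afbc72b22bf7b20))) (.lf (nat_lit 0x80083981b1db5e3ca8)) (.nd (.lf (nat_lit 0x8459f3aa93949e1d79)) (.lf (nat_lit 0x835a0ebf32d44c0a9b)) (.lf (nat_lit 0x8007d7858574f559e3)) (.lf (nat_lit 0x80885886fcf1e22945))) (.lf (nat_lit 0x8479a0896bf8798eb5)) (.lf (nat_lit 0x836d91cb6899945af7)) (.lf (nat_lit 0x8007c485d417eda93c)))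
  _ _ _ (by decide +kernel)

noncomputable def g1_m62_14 : GD 1 (-62) 14 := chk_sound 
  (.cell (.nd (.nd (.lf (nat_lit 0x80d7ad88dc2613d8c7)) (.lf (nat_lit 0x8057cd865bf9117876)) (.lf (nat_lit 0x815800800a0483afbc)) (.lf (nat_lit 0x814670be5b2c229979))) (.lf (nat_lit 0x80b7a48baba80f0831)) (.lf (nat_lit 0x8008168059d191ffb5)) (.lf (nat_lit 0x808828830c98cd6c68))) (.lf (nat_lit 0x83e8008001d95d3c9e)) (.lf (nat_lit 0x822ce1ca37b8989c07)) (.nd (.lf (nat_lit 0x821a798f5299658d00)) (.lf (nat_lit 0x81680080049062aefc)) (.lf (nat_lit 0x8008048067f478dffc)) (.lf (nat_lit 0x800806804845875ffb))) (.nd (.lf (nat_lit 0x80083882e1a9474b55)) (.lf (nat_lit 0x8148ac86f13f3d186c)) (.lf (nat_lit 0x827bd6a5595d93ee5b)) (.lf (nat_lit 0x800800800d93c0cc10))) (.lf (nat_lit 0x80c7ad88dc30138819)))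
  _ _ _ (by decide +kernel)

noncomputable def g1_m58_14 : GD 1 (-58) 14 := chk_sound 
  (.cell (.nd (.lf (nat_lit 0x8127c196fc49479d92)) (.lf (nat_lit 0x80679e8e04b3f3685e)) (.lf (nat_lit 0x800811808c3d892ec2)) (.lf (nat_lit 0x863783869c8bd79b94))) (.lf (nat_lit 0x82e8008001db5d7ca3)) (.nd (.lf (nat_lit 0x83d9f9b453d7aafcfc)) (.lf (nat_lit 0x83a933a92226409a6e)) (.lf (nat_lit 0x8007e684e4def4c8e2)) (.lf (nat_lit 0x80384a85cd27dd99bb))) (.nd (.lf (nat_lit 0x833ce196aa427f6dbf)) (.lf (nat_lit 0x81d92587cb298cdf32)) (.lf (nat_lit 0x82fb79910a93771e9e)) (.lf (nat_lit 0x80081f806c0686aee6))) (.lf (nat_lit 0x83ec5bb66c29b909d8)) (.lf (nat_lit 0x8007b58703f7ee0857)))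
  _ _ _ (by decide +kernel)

theorem g2_m60_12 : GD 2 (-60) 12 :=
  GD.split (i := 1) g1_m62_10 g1_m58_10 g1_m62_14 g1_m58_14 (by decide)

noncomputable def g2_m52_12 : GD 2 (-52) 12 := chk_sound 
  (.cell (.nd (.lf (nat_lit 0x8007c485bcc51e39e9)) (.lf (nat_lit 0x8007ff8415b9f5ea1a)) (.lf (nat_lit 0x800827a18c2b8e7e6f)) (.nd (.lf (nat_lit 0x80fa0eba4b34cb9bbc)) (.lf (nat_lit 0x80081183d92df84a74)) (.lf (nat_lit 0x800824817c39da4bc7)) (.nd (.lf (nat_lit 0x80983e863c41e70a0d)) (.lf (nat_lit 0x80782d84fb8aee99e2)) (.lf (nat_lit 0x800823820d4ddbb9b9)) (.lf (nat_lit 0x80081e839d35de4970))))) (.lf (nat_lit 0x81c8008001f75e0ccc)) (.nd (.lf (nat_lit 0x83ca2fbac31c8c8c99)) (.nd (.lf (nat_lit 0x80682f8171cd4b0bcf)) (.lf (nat_lit 0x80c8558391d9429b59)) (.lf (nat_lit 0x80083783f28c2829fc)) (.lf (nat_lit 0x80b8498331fe372aa5))) (.lf (nat_lit 0x8007ff840739ee7bf5)) (.nd (.lf (nat_lit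 0x80d8ae8f4363195850)) (.lf (nat_lit 0x80a84f858293249947)) (.lf (nat_lit 0x80280882a92af80a83)) (.lf (nat_lit 0x80485e85ed42df68b4)))) (.lf (nat_lit 0x831cd88d09fb7f8dfd)) (.nd (.lf (nat_lit 0x82eb509ceaff9afe28)) (.lf (nat_lit 0x80085783919b3fda9c)) (.lf (nat_lit 0x826800800bf69cfeb5)) (.lf (nat_lit 0x80f8b48a8dddd5785a))) (.lf (nat_lit 0x81183c8cc4e9e86b57)))
  _ _ _ (by decide +kernel)

theorem g3_m56_8 : GD 3 (-56) 8 :=
  GD.split (i := 2) g2_m60_4 g2_m52_4 g2_m60_12 g2_m52_12 (by decide)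

end Pool.Agent.P.MP_f12b6c_an.Dg
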