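import Pool.Agent.P.MP_f12b6c_an.T3DgDef

/-! Certificates for the diagonal statement. -/

set_option maxRecDepth 100000
set_option linter.defProp false

namespace Pool.Agent.P.MP_f12b6c_an.Dg

noncomputable def g1_m62_18 : GD 1 (-62) 18 := chk_sound 
  (.cell (.nd (.nd (.lf (nat_lit 0x8007b0890c291428e0)) (.lf (nat_lit 0x8047a988fc0f12d8b0)) (.lf (nat_lit 0x80080180b9688c8fd6)) (.lf (nat_lit 0x8238599d9b0d85ff24))) (.lf (nat_lit 0x8087c6868be610e889)) (.nd (.lf (nat_lit 0x8078008009de99cf9c)) (.lf (nat_lit 0x80081f81dbc8a74e9b)) (.lf (nat_lit 0x818800800b78a61ecd)) (.lf (nat_lit 0x800801818c21af0e30))) (.lf (nat_lit 0x80081081ec5ac54d20))) (.lf (nat_lit 0x80081d8151e35c2ca4)) (.lf (nat_lit 0x833ca2c3d8769d7c7e)) (.nd (.lf (nat_lit 0x81aa2b9102f1638d6b)) (.lf (nat_lit 0x80081e8163a55e6e5e)) (.nd (.lf (nat_lit 0x8007c0851c811788ea)) (.lf (nat_lit 0x8008008007667b9ff8)) (.lf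 (nat_lit 0x8007cf839c4f1588fe)) (.lf (nat_lit 0x807800800863832ffc))) (.lf (nat_lit 0x8027fd80c7cf891ffa))) (.nd (.lf (nat_lit 0x8008248192114c4c46)) (.lf (nat_lit 0x8008c587a1423d4883)) (.lf (nat_lit 0x81bab79b88578ebf42)) (.lf (nat_lit 0x80082e815d5ebf2c6c))) (.lf (nat_lit 0x8027d185dc3913d879)))
  _ _ _ (by decide +kernel)

noncomputable def g1_m58_18 : GD 1 (-58) 18 := chk_sound 
  (.cell (.nd (.lf (nat_lit 0x8007b18f1b6a78bf26)) (.lf (nat_lit 0x80f76a929b9b0fc830)) (.lf (nat_lit 0x800821816bf29d7eb5)) (.lf (nat_lit 0x811800800c20d1cc90))) (.lf (nat_lit 0x81d8008001e15c7ca4)) (.nd (.lf (nat_lit 0x82d878b3d4c5df8aae)) (.lf (nat_lit 0x8478899981c53caa1f)) (.lf (nat_lit 0x80076094747cf0a820)) (.lf (nat_lit 0x800836826d49da0a13))) (.nd (.lf (nat_lit 0x83cccd9d47d67b3e1e)) (.lf (nat_lit 0x82391288c9418c4fc5)) (.lf (nat_lit 0x95e9b192f8be821f91)) (.lf (nat_lit 0x80081c815b4f999f1a)))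 (.lf (nat_lit 0x82ab8ba52d2cb8fa91)) (.lf (nat_lit 0x80f75691ec0f13d83f)))
  _ _ _ (by decide +kernel)

noncomputable def g1_m62_22 : GD 1 (-62) 22 := chk_sound 
  (.cell (.nd (.nd (.lf (nat_lit 0x8097a4895c2f1498f1)) (.lf (nat_lit 0x8007a488dc2513e8d1)) (.nd (.lf (nat_lit 0x8008008009767fffdd)) (.lf (nat_lit 0x8007c9862c2014793e)) (.lf (nat_lit 0x80080080092c8d5fde)) (.lf (nat_lit 0x81c800800a368a5fa9))) (.lf (nat_lit 0x80a81e810b05973f43))) (.lf (nat_lit 0x800800800c1612a8b9)) (.nd (.nd (.lf (nat_lit 0x8008008009e29baf94)) (.lf (nat_lit 0x8007ff803aed9fcf2d)) (.lf (nat_lit 0x80081a811a8ea04f4e)) (.lf (nat_lit 0x80c800800b08a53f07))) (.lf (nat_lit 0x800826810b9aaa4ea2)) (.lf (nat_lit 0x800800800acca6ff16)) (.lf (nat_lit 0x80081681cbd6af5e5d))) (.lf (nat_lit 0x800829809c6cbacd8f))) (.lf (nat_lit 0x82e8008001f65a7caf)) (.nd (.lf (nat_lit 0x8007e7830c3413887e)) (.lf (nat_lit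 0x8189028b0e91c6581f)) (.lf (nat_lit 0x8007e3843c1b12c89e)) (.lf (nat_lit 0x800828811cb5cd3c4d))) (.nd (.lf (nat_lit 0x906bcaa1d4fd71ddda)) (.lf (nat_lit 0x80682281338d5e5e4d)) (.nd (.lf (nat_lit 0x80779e897c591648ee)) (.lf (nat_lit 0x8008018066d9795fe7)) (.lf (nat_lit 0x80b7c186ac42153902)) (.nd (.lf (nat_lit 0x8008018048007cffff)) (.lf (nat_lit 0x8008018067dd841ffe)) (.lf (nat_lit 0x8078008008507e6ffe)) (.lf (nat_lit 0x800800805856863ffb)))) (.lf (nat_lit 0x80080080081289dff9))) (.nd (.lf (nat_lit 0x80082d81b291528d21)) (.lf (nat_lit 0x8008008001393d18bb)) (.lf (nat_lit 0x80080280780d8e2ff3)) (.lf (nat_lit 0x80081d80bd18bcccdb))) (.lf (nat_lit 0x8007aa891c3c1488a9)))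
  _ _ _ (by decide +kernel)

noncomputable def g1_m58_22 : GD 1 (-58) 22 := chk_sound 
  (.cell (.nd (.nd (.lf (nat_lit 0x8047ba872c3714f910)) (.lf (nat_lit 0x80879a8aec121358c8)) (.lf (nat_lit 0x800821810a908e5f86)) (.lf (nat_lit 0x80080c80cb818a0f29))) (.lf (nat_lit 0x8047b0887be310f886)) (.lf (nat_lit 0x81d800800b51a4cee8)) (.nd (.lf (nat_lit 0x800810824bb0c67d90)) (.lf (nat_lit 0x812800800c19ccccea)) (.lf (nat_lit 0x80080181cc64b55dcb)) (.lf (nat_lit 0x80882b832c1dd16c98)))) (.lf (nat_lit 0x80d84181d1f05b0cab)) (.nd (.lf (nat_lit 0x8007d0857bf6111828)) (.lf (nat_lit 0x8b1a0ea3e1f64369d8)) (.lf (nat_lit 0x8007ff835bde103854)) (.nd (.lf (nat_lit 0x80081d819d29dc3a06)) (.lf (nat_lit 0x800801820d95d55a15)) (.lf (nat_lit 0x800814811b27e8ab5a)) (.lf (nat_lit 0x809825825cd5ceec08)))) (.nd (.nd (.lf (nat_lit 0x824255c53915568a48)) (.lf (nat_lit 0x8008068153f4641eac)) (.lf (nat_lit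 0x8087c5850ca719d92a)) (.lf (nat_lit 0x80080180c73e75bff0))) (.lf (nat_lit 0x80781280a5f373afb1)) (.lf (nat_lit 0x8007c785f7dc811ffc)) (.lf (nat_lit 0x800800800914931fd6))) (.nd (.lf (nat_lit 0x811800800307580dbe)) (.lf (nat_lit 0x80083580813d3f194e)) (.lf (nat_lit 0x82b9e8930a54a22eff)) (.lf (nat_lit 0x80082a82ad49c33c48))) (.lf (nat_lit 0x8007b4887c2513688e)))
  _ _ _ (by decide +kernel)

theorem g2_m60_20 : GD 2 (-60) 20 :=
  GD.split (i := 1) g1_m62_18 g1_m58_18 g1_m62_22 g1_m58_22 (by decide)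

noncomputable def g1_m54_18 : GD 1 (-54) 18 := chk_sound 
  (.cell (.nd (.lf (nat_lit 0x8087779abcc3463d04)) (.lf (nat_lit 0x8007a68c24c3f40871)) (.lf (nat_lit 0x823800800c4a8baeb6)) (.nd (.lf (nat_lit 0x816a1cb17b20cbdc36)) (.lf (nat_lit 0x8007ff818b60e40bac)) (.lf (nat_lit 0x80081f826c29c89d1b)) (.lf (nat_lit 0x804841852cbcdb8af2)))) (.lf (nat_lit 0x80381c80d1e85cdcb0)) (.nd (.lf (nat_lit 0x8379debc346fba8c7f)) (.lf (nat_lit 0x80b84696c1eb3f5aeb)) (.lf (nat_lit 0x8007df85e4fdf558fb)) (.nd (.lf (nat_lit 0x80082884fc66e94919)) (.lf (nat_lit 0x80384083c21c2a087b)) (.lf (nat_lit 0x80080184494df6faa2)) (.lf (nat_lit 0x805854859d2ddf8924)))) (.lf (nat_lit 0x82e95a897bb08beee6)) (.lf (nat_lit 0x815a0c9addc8cba916)) (.lf (nat_lit 0x80f7848dd417ee782b)))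
  _ _ _ (by decide +kernel)

noncomputable def g1_m50_18 : GD 1 (-50) 18 := chk_sound 
  (.cell (.nd (.lf (nat_lit 0x8007c9856c6a1999d2)) (.lf (nat_lit 0x8007d0879547f6394f)) (.lf (nat_lit 0x800800800c85773e93)) (.nd (.lf (nat_lit 0x8199a2b42af4ce8c3b)) (.lf (nat_lit 0x804820849ae3e9cb71)) (.lf (nat_lit 0x80082980abead2bcae)) (.lf (nat_lit 0x80784984fcf7dd5a43)))) (.lf (nat_lit 0x81e8008001fb5cfcc9)) (.nd (.lf (nat_lit 0x826a3ebe438099dc93)) (.lf (nat_lit 0x81fa09a6726e447b06)) (.lf (nat_lit 0x8057ea8475a6f609fc)) (.lf (nat_lit 0x80f88e89ad60dce8d4))) (.lf (nat_lit 0x800800800caa654e47)) (.lf (nat_lit 0x810898888ddcd558bd)) (.lf (nat_lit 0x8047d385644ef098ce)))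
  _ _ _ (by decide +kernel)

noncomputable def g1_m54_22 : GD 1 (-54) 22 := chk_sound 
  (.cell (.nd (.lf (nat_lit 0x83998b981c0a696e67)) (.lf (nat_lit 0x80c7ac8a5b980e581d)) (.lf (nat_lit 0x80b82480ebf29baebd)) (.nd (.lf (nat_lit 0x80781e826bc5cced29)) (.lf (nat_lit 0x80080182abbcd6dc88)) (.lf (nat_lit 0x80481a821c15c56d56)) (.lf (nat_lit 0x80582f83cc7fd55be7)))) (.lf (nat_lit 0x83f8008001f15b7cb0)) (.nd (.lf (nat_lit 0x8247d3a984e2eb299f)) (.lf (nat_lit 0x85081090b1c13f5ab9)) (.lf (nat_lit 0x80e774927494f1c841)) (.nd (.lf (nat_lit 0x800800800ce8e2497a)) (.lf (nat_lit 0x801871869dfbd4385a)) (.lf (nat_lit 0x803819833b60e7eb38)) (.lf (nat_lit 0x800835840d40d83a6e)))) (.nd (.lf (nat_lit 0x80fcaf9c29557e2e18)) (.lf (nat_lit 0x822800800b1c93ff43)) (.lf (nat_lit 0x800b81959a6a7d2ea2)) (.lf (nat_lit 0x80081a810bb5957ef5))) (.lf (nat_lit 0x82cb0ea2bd58c2f9f5)) (.lf (nat_lit 0x80f7768f7bfc12a857)))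
  _ _ _ (by decide +kernel)

noncomputable def g1_m50_22 : GD 1 (-50) 22 := chk_sound 
  (.cell (.nd (.lf (nat_lit 0x80072f9e1cd03dac67)) (.lf (nat_lit 0x8007a68c74d4f4588e)) (.lf (nat_lit 0x80080380ac348b7ec4)) (.nd (.lf (nat_lit 0x800828827b7dd7acaa)) (.lf (nat_lit 0x80081a830b8adadc61)) (.lf (nat_lit 0x800801823be5ce6cfa)) (.lf (nat_lit 0x80082982dce7d81b18)))) (.lf (nat_lit 0x82e8008001fc5bccc1)) (.nd (.lf (nat_lit 0x82a8e7a8f5d0e69b45)) (.lf (nat_lit 0x84c83a8de1ce3e4acb)) (.lf (nat_lit 0x8027e684b51bf5d91e)) (.nd (.lf (nat_lit 0x800840846d28e098e4)) (.lf (nat_lit 0x827c00b81c7fbee803)) (.lf (nat_lit 0x80082c84ab1aea3b31)) (.lf (nat_lit 0x800836829dabd76963)))) (.lf (nat_lit 0x8008c8847c157c5ed3)) (.lf (nat_lit 0x81b800800e1ece499c)) (.lf (nat_lit 0x8007029d044dec880b)))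
  _ _ _ (by decide +kernel)

theorem g2_m52_20 : GD 2 (-52) 20 :=
  GD.split (i := 1) g1_m54_18 g1_m50_18 g1_m54_22 g1_m50_22 (by decide)

noncomputable def g0_m63_25 : GD 0 (-63) 25 := chk_sound 
  (.cell (.nd (.lf (nat_lit 0x8108008009ac909fc1)) (.lf (nat_lit 0x8007b2888c391498ce)) (.lf (nat_lit 0x805818814ab8a48f2b)) (.lf (nat_lit 0x800800800c6db5ddc0))) (.lf (nat_lit 0x80082c81820e585cbc)) (.nd (.lf (nat_lit 0x8007a1890c4714e89b)) (.lf (nat_lit 0x81189b868ea7c5589f)) (.lf (nat_lit 0x8067b7876c3e1488b7)) (.lf (nat_lit 0x8007ff80bd0dbfbcc1))) (.nd (.nd (.lf (nat_lit 0x8097b886ac6615f8a2)) (.lf (nat_lit 0x8008208153435dfe14)) (.lf (nat_lit 0x8007d283ac541548c8)) (.lf (nat_lit 0x80082381541762aebb))) (.lf (nat_lit 0x82480080039b5e5e57)) (.lf (nat_lit 0x8087d28607ea82effc)) (.lf (nat_lit 0x80080180a7e28a4ff9))) (.nd (.lf (nat_lit 0x80081e81a306578db9)) (.lf (nat_lit 0x81488d85b1463d68f6))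 (.lf (nat_lit 0x8008008008f396ffd0)) (.lf (nat_lit 0x80083381acd2ba5d3c))) (.lf (nat_lit 0x8007b188bc4614f8b8)))
  _ _ _ (by decide +kernel)

noncomputable def g0_m61_25 : GD 0 (-61) 25 := chk_sound 
  (.cell (.nd (.lf (nat_lit 0x80080180da3b934f96)) (.lf (nat_lit 0x8007c286cc2a13c8c5)) (.lf (nat_lit 0x80282081eb25a80eea)) (.lf (nat_lit 0x817800800c63b6bdbf))) (.lf (nat_lit 0x81f80080020758bcb7)) (.nd (.lf (nat_lit 0x80a79f8a4c3614488d)) (.lf (nat_lit 0x8199088ab1603b280d)) (.lf (nat_lit 0x8057cc84cc2d1398aa)) (.lf (nat_lit 0x827800800cf1c44c9e))) (.nd (.nd (.lf (nat_lit 0x80778d8aac6e16e8b7)) (.lf (nat_lit 0x8008008003475e9e1b)) (.lf (nat_lit 0x8067b6871c5a15e8db)) (.lf (nat_lit 0x80080b80c45363dee1))) (.lf (nat_lit 0x80682b8123b75fde72)) (.lf (nat_lit 0x83ba1b95984081ff97)) (.lf (nat_lit 0x80380c8108bc919fe3))) (.nd (.lf (nat_lit 0x80083080d30557edbb)) (.lf (nat_lit 0x80d8738471443e5935))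 (.lf (nat_lit 0x8188838589a69d3f96)) (.lf (nat_lit 0x800825807cd6ba5d39))) (.lf (nat_lit 0x8007b4880c3d1488b5)))
  _ _ _ (by decide +kernel)

noncomputable def g0_m63_27 : GD 0 (-63) 27 := chk_sound 
  (.cell (.nd (.lf (nat_lit 0x80680a8099b5912fbd)) (.lf (nat_lit 0x8007b4872c4c1548d3)) (.lf (nat_lit 0x800801816a8fa2af43)) (.lf (nat_lit 0x80082680ec66b3add9))) (.lf (nat_lit 0x803843823222565cc3)) (.nd (.lf (nat_lit 0x8007d3834c5214e89d)) (.lf (nat_lit 0x811863843eb1c4d8ab)) (.lf (nat_lit 0x80478f8b3c4b1588ba)) (.lf (nat_lit 0x80080181dd22bb4ce3))) (.nd (.nd (.lf (nat_lit 0x8077be870c431498a8)) (.lf (nat_lit 0x8008168133535b4e11)) (.lf (nat_lit 0x8077a7888c3e14c8c8)) (.lf (nat_lit 0x80080180e41c5feeb1))) (.lf (nat_lit 0x80081f8053b75eee6d)) (.lf (nat_lit 0x85b8be8aa80881bfed)) (.lf (nat_lit 0x8008018067ae886ff9))) (.lf (nat_lit 0x823ae09d58188fef2a)) (.lf (nat_lit 0x8077a7884c491518b9)))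
  _ _ _ (by decide +kernel)

noncomputable def g0_m61_27 : GD 0 (-61) 27 := chk_sound 
  (.cell (.nd (.lf (nat_lit 0x800800800a07937fa4)) (.lf (nat_lit 0x80079a8a5c3b14e8ce)) (.lf (nat_lit 0x81a800800af8a6ef04)) (.lf (nat_lit 0x800815816c5db43ddb))) (.lf (nat_lit 0x80080080021856dcbd)) (.nd (.lf (nat_lit 0x8067a8898c4114a895)) (.lf (nat_lit 0x81b993902e8cc3181a)) (.lf (nat_lit 0x80c7908aac3b14c8b2)) (.lf (nat_lit 0x80081180dd0dbe7cd1))) (.nd (.nd (.lf (nat_lit 0x8007958aec481558b8)) (.lf (nat_lit 0x80082e81b3535bfe15)) (.lf (nat_lit 0x8007db848c4614d8d6)) (.lf (nat_lit 0x81f80080044460decc))) (.lf (nat_lit 0x80081980e3c7600e7d)) (.nd (.lf (nat_lit 0x8007ff82bc4314d8ef)) (.lf (nat_lit 0x80380d80f6d96e2fd6)) (.lf (nat_lit 0x8007a3898c3d155905)) (.lf (nat_lit 0x80080180c8d8887ff0))) (.lf (nat_lit 0x8008068028528e3ff1))) (.lf (nat_lit 0x834b169fe871918f01)) (.lf (nat_lit 0x8007d182fc431478b8)))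
  _ _ _ (by decide +kernel)

theorem g1_m62_26 : GD 1 (-62) 26 :=
  GD.split (i := 0) g0_m63_25 g0_m61_25 g0_m63_27 g0_m61_27 (by decide)

noncomputable def g1_m58_26 : GD 1 (-58) 26 := chk_sound 
  (.cell (.nd (.nd (.lf (nat_lit 0x8007c5859c3b14f90c)) (.lf (nat_lit 0x80079f898c291438dc)) (.lf (nat_lit 0x80080a8139ea92cfad)) (.lf (nat_lit 0x800830831b818ccf24))) (.lf (nat_lit 0x8067d3851c0b121880)) (.nd (.lf (nat_lit 0x80082380fac9a11f35)) (.lf (nat_lit 0x80080f812b9da75eb3)) (.lf (nat_lit 0x800801810b10a58f02)) (.lf (nat_lit 0x800816819ba0ac0e93))) (.nd (.lf (nat_lit 0x80482781cc1bb29e17)) (.lf (nat_lit 0x8f07ef94dc05c05d64)) (.lf (nat_lit 0x818800800c27b2fe0c)) (.lf (nat_lit 0x80083381bc8eba3d79)))) (.lf (nat_lit 0x80482d810207588cb5)) (.nd (.lf (nat_lit 0x8007818d2c1613586e)) (.lf (nat_lit 0x84d7d68e51613cd93f)) (.lf (nat_lit 0x80a78d8c3c0e13088e)) (.nd (.lf (nat_lit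 0x820b2aa97bbdc8eb89)) (.lf (nat_lit 0x81a800800d83cd1b38)) (.lf (nat_lit 0x820800800c59d15c62)) (.lf (nat_lit 0x80080c82bcadc94c98)))) (.nd (.lf (nat_lit 0x838bd2a055b46a9e2e)) (.lf (nat_lit 0x80c82481347e67af06)) (.nd (.lf (nat_lit 0x8077bd86bc5316291a)) (.lf (nat_lit 0x8067bf8697c0824ffa)) (.lf (nat_lit 0x8097be868c4915e92a)) (.nd (.lf (nat_lit 0x8007ff8087fe763ff9)) (.lf (nat_lit 0x8007ff8098d88aefed)) (.lf (nat_lit 0x8008008009887acfd8)) (.lf (nat_lit 0x80681780da23952f98)))) (.lf (nat_lit 0x8078008008648f5fee))) (.nd (.lf (nat_lit 0x80080181039e5f1e5d)) (.lf (nat_lit 0x80085082a1494009a7)) (.lf (nat_lit 0x80784782f8bf952fd9)) (.lf (nat_lit 0x80682c81ecc6b99d4f))) (.lf (nat_lit 0x8067b2883c2f13f8af)))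
  _ _ _ (by decide +kernel)

noncomputable def g1_m62_30 : GD 1 (-62) 30 := chk_sound 
  (.cell (.nd (.nd (.lf (nat_lit 0x8077bd866c4e1588f0)) (.lf (nat_lit 0x8007a2881c5415c8da)) (.lf (nat_lit 0x80080180c9668e7fd3)) (.lf (nat_lit 0x81c800800b3f972f2a))) (.lf (nat_lit 0x8007d6801d6d800de0)) (.nd (.lf (nat_lit 0x8008018119ec9aff94)) (.lf (nat_lit 0x80082481fb54a75ed8)) (.lf (nat_lit 0x800800800a059f0f7e)) (.lf (nat_lit 0x818800800b14a8eeed))) (.lf (nat_lit 0x80f800800c57b11dfa))) (.lf (nat_lit 0x80084380e24551ccc4)) (.nd (.lf (nat_lit 0x8007888bfc5215b898)) (.lf (nat_lit 0x80084c81febdc4487d)) (.lf (nat_lit 0x80a7968a1c5d1618b5)) (.lf (nat_lit 0x800839829d28b7bd05))) (.nd (.lf (nat_lit 0x811abda22530659e6d)) (.lf (nat_lit 0x80080180e3e65fee91)) (.nd (.lf (nat_lit 0x80c7a7897c3614b8df)) (.nd (.lf (nat_lit 0x80081380e5b8562f34)) (.lf (nat_lit 0x80080180e56e6bbf77)) (.lf (nat_lit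 0x803809806705719fe3)) (.lf (nat_lit 0x8008008006d578ffe6))) (.lf (nat_lit 0x8007c385cc431518f6)) (.nd (.lf (nat_lit 0x80080180180c794ffd)) (.lf (nat_lit 0x8028008007f97f9fff)) (.lf (nat_lit 0x8007ff8038987d8ff9)) (.lf (nat_lit 0x80080180888a85dff9)))) (.lf (nat_lit 0x8098008007ab87dffa))) (.lf (nat_lit 0x81ea5998e83c907f69)) (.lf (nat_lit 0x8057df830c4f14e8b4)))
  _ _ _ (by decide +kernel)

noncomputable def g0_m59_29 : GD 0 (-59) 29 := chk_sound 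
  (.cell (.nd (.lf (nat_lit 0x81c800800a6594ef85)) (.lf (nat_lit 0x8007d5816dc1403bdc)) (.lf (nat_lit 0x800814818af2a5bf0d)) (.lf (nat_lit 0x817800800c4db2edf2))) (.lf (nat_lit 0x80080181522654fcbd)) (.nd (.lf (nat_lit 0x8057c6864c3c14188b)) (.lf (nat_lit 0x8118958601443c687e)) (.lf (nat_lit 0x8007da825c401438a8)) (.lf (nat_lit 0x80083081dd0bbdecda))) (.nd (.nd (.lf (nat_lit 0x80b7b7870c371458c7)) (.lf (nat_lit 0x821800800371595e1c)) (.lf (nat_lit 0x8047ca85fc3b1498e1)) (.lf (nat_lit 0x8078208124945e8eeb))) (.lf (nat_lit 0x82980080040b627eb3)) (.lf (nat_lit 0x8027c48757fb827ffb)) (.lf (nat_lit 0x8008098108bb917fe4))) (.lf (nat_lit 0x820b45a1a8d195cecf)) (.lf (nat_lit 0x8087c6860c3e1468b6)))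
  _ _ _ (by decide +kernel)

noncomputable def g0_m57_29 : GD 0 (-57) 29 := chk_sound 
  (.cell (.nd (.lf (nat_lit 0x80981a80cb0b940f4a)) (.lf (nat_lit 0x80b7b585ad0320a9c2)) (.lf (nat_lit 0x80080681ab1da5aefb)) (.lf (nat_lit 0x80781f81cc46b41dec))) (.lf (nat_lit 0x80081e81821f55acba)) (.nd (.lf (nat_lit 0x813800800c2812f876)) (.lf (nat_lit 0x80d8868551503db94a)) (.lf (nat_lit 0x8077858c5c2313e895)) (.lf (nat_lit 0x84178b8decf6c2fc90))) (.nd (.lf (nat_lit 0x82faf09ab5fb66cec7)) (.lf (nat_lit 0x80081480f493681f12)) (.lf (nat_lit 0x81c9788e7852803fce)) (.lf (nat_lit 0x80080181499297afb4))) (.lf (nat_lit 0x836c37ab392b980df0)) (.lf (nat_lit 0x8047d284cc3413e8b2)))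
  _ _ _ (by decide +kernel)

noncomputable def g0_m59_31 : GD 0 (-59) 31 := chk_sound 
  (.cell (.nd (.lf (nat_lit 0x80c800800a38953f92)) (.lf (nat_lit 0x827800800d747eedd9)) (.lf (nat_lit 0x800800800ac4a42f28)) (.lf (nat_lit 0x80081a81cc45b0de09))) (.lf (nat_lit 0x821800800243513cbd)) (.nd (.lf (nat_lit 0x8007878b7c4214f88d)) (.lf (nat_lit 0x8139068a514c3d3853)) (.lf (nat_lit 0x8067b1875c511538aa)) (.lf (nat_lit 0x80083581ad14b9dd02))) (.nd (.lf (nat_lit 0x825a6d9c954f60fea0)) (.lf (nat_lit 0x80581d810413620eb6)) (.lf (nat_lit 0x8007ea88c80a82affa)) (.lf (nat_lit 0x8007ff8088538daff2))) (.lf (nat_lit 0x81aaab9b6852940f3b)) (.lf (nat_lit 0x8007c5869c4414a8b3)))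
  _ _ _ (by decide +kernel)

noncomputable def g0_m57_31 : GD 0 (-57) 31 := chk_sound 
  (.cell (.nd (.lf (nat_lit 0x800800800ac0954f64)) (.lf (nat_lit 0x839800800d907c4dbd)) (.lf (nat_lit 0x8007ff80baeda47f16)) (.lf (nat_lit 0x80082081bc3db1ae07))) (.lf (nat_lit 0x80082d820239525cbb)) (.nd (.lf (nat_lit 0x8007b486ac3413c87e)) (.lf (nat_lit 0x80085b8451423db90e)) (.lf (nat_lit 0x80979f8a4c3c14989c)) (.lf (nat_lit 0x8207828e4d01bd4cd1))) (.nd (.lf (nat_lit 0x8209198bb521657f28)) (.lf (nat_lit 0x80d82481246865cef4)) (.lf (nat_lit 0x8008018068037dcfff)) (.lf (nat_lit 0x80380e80f90e939fd5))) (.lf (nat_lit 0x80cb80a3b8ce976ea1)) (.lf (nat_lit 0x8007d682bc3b1418b1)))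
  _ _ _ (by decide +kernel)

theorem g1_m58_30 : GD 1 (-58) 30 :=
  GD.split (i := 0) g0_m59_29 g0_m57_29 g0_m59_31 g0_m57_31 (by decide)

theorem g2_m60_28 : GD 2 (-60) 28 :=
  GD.split (i := 1) g1_m62_26 g1_m58_26 g1_m62_30 g1_m58_30 (by decide)

noncomputable def g1_m54_26 : GD 1 (-54) 26 := chk_sound 
  (.cell (.nd (.lf (nat_lit 0x818800800baa81ef1c)) (.lf (nat_lit 0x8007bc86dbdf109871)) (.lf (nat_lit 0x80080180db9da28ecd)) (.nd (.lf (nat_lit 0x830753996bbfbccdb4)) (.lf (nat_lit 0x800815817b9cd21cf6)) (.lf (nat_lit 0x800800800c31b26e0a)) (.lf (nat_lit 0x80082b824c45cedca1)))) (.lf (nat_lit 0x80f82c814202594cb5)) (.nd (.lf (nat_lit 0x8136f09f4bae142809)) (.lf (nat_lit 0x8798b79181a3415a7c)) (.lf (nat_lit 0x8007d2865bcb0fa831)) (.nd (.lf (nat_lit 0x80584683ed6ad8f9e6)) (.lf (nat_lit 0x800843849dddd269b5)) (.lf (nat_lit 0x80983d841d3fd92a4c)) (.nd (.lf (nat_lit 0x80783683ed2dd47b09))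 (.lf (nat_lit 0x800839839d54cf1b53)) (.lf (nat_lit 0x8007ff80cc98d1ec15)) (.lf (nat_lit 0x80081d823ce8cdec05))))) (.nd (.lf (nat_lit 0x838c1d9f873573be79)) (.lf (nat_lit 0x80080f80195f8f4fd2)) (.lf (nat_lit 0x81d9868ce925852fb8)) (.lf (nat_lit 0x80081b806b1d9bcf29))) (.nd (.lf (nat_lit 0x82cacc9ba8da959f1d)) (.lf (nat_lit 0x80087883f14440c9a4)) (.lf (nat_lit 0x806812810b82a64ec7)) (.lf (nat_lit 0x80085783fe03ca9a6f))) (.lf (nat_lit 0x8007da84cc15128893)))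
  _ _ _ (by decide +kernel)

noncomputable def g1_m50_26 : GD 1 (-50) 26 := chk_sound 
  (.cell (.nd (.lf (nat_lit 0x8007ff813c8b665e62)) (.lf (nat_lit 0x811647b774e0e43805)) (.lf (nat_lit 0x80982080bbda988ed7)) (.nd (.lf (nat_lit 0x82b769902b7ccb2d54)) (.nd (.lf (nat_lit 0x8007ff82a8f6f03bb8)) (.lf (nat_lit 0x8007e58785fcf9198d)) (.lf (nat_lit 0x800817832c07d2bc95)) (.lf (nat_lit 0x804828839b9dd9ac69))) (.lf (nat_lit 0x800827819c15b85de8)) (.nd (.lf (nat_lit 0x800821838c65ce4c8c)) (.lf (nat_lit 0x80083b831ca7d49bc8)) (.lf (nat_lit 0x800824830c90c74cd3)) (.lf (nat_lit 0x80482e833d04d01bb3))))) (.lf (nat_lit 0x82280080020659ccbe)) (.nd (.lf (nat_lit 0x81c7ba9424cdf24907)) (.lf (nat_lit 0x8408a090b1b5415abb)) (.lf (nat_lit 0x8087cc8734a2f39870)) (.nd (.lf (nat_lit 0x805858857d70d949be)) (.nd (.lf (nat_lit 0x8158ba8901c5318873)) (.lf (nat_lit 0x80e9378da199372805)) (.lf (nat_lit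 0x80083d820df8d2c939)) (.lf (nat_lit 0x80082f81ae3bcd694d))) (.lf (nat_lit 0x80083f848d00d9bab8)) (.nd (.lf (nat_lit 0x804830835d83d54a42)) (.lf (nat_lit 0x8007ff81cdb9d10a5c)) (.lf (nat_lit 0x80083c83dcfad5ab3b)) (.lf (nat_lit 0x800834818d44d37aff))))) (.lf (nat_lit 0x8008f586eb6488df25)) (.lf (nat_lit 0x80f86484ee27ca4a14)) (.lf (nat_lit 0x80e79a8b6be911585c)))
  _ _ _ (by decide +kernel)

noncomputable def g1_m54_30 : GD 1 (-54) 30 := chk_sound 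
  (.cell (.nd (.lf (nat_lit 0x8008388b4b168caf4d)) (.lf (nat_lit 0x8007d3812e2967fcdf)) (.lf (nat_lit 0x823800800b42a3fef3)) (.nd (.lf (nat_lit 0x829753971c03af7e0b)) (.lf (nat_lit 0x8297708daba7c4ed92)) (.lf (nat_lit 0x80981b816bedaf8e4d)) (.lf (nat_lit 0x800800800c2ec29d67)))) (.lf (nat_lit 0x807829815222553cba)) (.nd (.lf (nat_lit 0x8007b9870c0511d84c)) (.lf (nat_lit 0x86281289016d407a1e)) (.lf (nat_lit 0x80877e8d7c0412b86c)) (.nd (.lf (nat_lit 0x80082e825d90d31a73)) (.lf (nat_lit 0x800850839d9ccf1ad1)) (.lf (nat_lit 0x800821832ceed1fba8)) (.lf (nat_lit 0x80682a830cb1ccfc55)))) (.nd (.lf (nat_lit 0x8d6a2a988568683ee1)) (.lf (nat_lit 0x80880080068a79efdb)) (.lf (nat_lit 0x81d9eb93b846805fa9)) (.lf (nat_lit 0x800800800963955fc3))) (.nd (.lf (nat_lit 0x80b8008006d07f7fe9)) (.lf (nat_lit 0x821d4ab515ae6ffc4f)) (.lf (nat_lit 0x80181a81ba9ea49f34)) (.lf (nat_lit 0x800800800d13bf6cbf)))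 (.lf (nat_lit 0x8007908bbc2013c8a8)))
  _ _ _ (by decide +kernel)

noncomputable def g1_m50_30 : GD 1 (-50) 30 := chk_sound 
  (.cell (.nd (.lf (nat_lit 0x8007e0807c2f7c4ed0)) (.lf (nat_lit 0x81166ea43691eb0b19)) (.lf (nat_lit 0x80781c80db849eaeec)) (.nd (.nd (.lf (nat_lit 0x8267209e3bebad3e06)) (.lf (nat_lit 0x80581c82eb29c8ddc4)) (.lf (nat_lit 0x80681880ebf6ac8e5e)) (.lf (nat_lit 0x800801826baec72d89))) (.nd (.lf (nat_lit 0x80080181bae3d02d87)) (.lf (nat_lit 0x8007f683c76df24b8c)) (.lf (nat_lit 0x8007ff80dbebcc9d12)) (.lf (nat_lit 0x800829814be6d02cdd))) (.lf (nat_lit 0x80082780bbf6ae9e4f)) (.nd (.lf (nat_lit 0x80082b815c25c6bd38)) (.lf (nat_lit 0x80181f824c58ce4c99)) (.lf (nat_lit 0x800801809c59b70dc4)) (.lf (nat_lit 0x80081b82bc84c6ece4))))) (.lf (nat_lit 0x82080080021e563cbe)) (.nd (.lf (nat_lit 0x8007908d944df06824)) (.lf (nat_lit 0x8347f987e18a41fa9f)) (.lf (nat_lit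 0x80c459ee572d98e801)) (.nd (.lf (nat_lit 0x80a857858d72d5ca50)) (.nd (.lf (nat_lit 0x80e89b870e68cb288b)) (.lf (nat_lit 0x80782e823e6ec84978)) (.nd (.lf (nat_lit 0x80683782cde8d189be)) (.lf (nat_lit 0x80083f825defd0d9c6)) (.lf (nat_lit 0x817800800d92d30a73)) (.lf (nat_lit 0x80084e846da7d0ca86))) (.lf (nat_lit 0x800801816dddcdba72))) (.lf (nat_lit 0x800808826d04d55b37)) (.nd (.nd (.lf (nat_lit 0x80884a847d4bd32af7)) (.lf (nat_lit 0x80082c81cd7fd0fad9)) (.lf (nat_lit 0x80081e829d00d2db7b)) (.lf (nat_lit 0x80082a81fd36d0ab5f))) (.lf (nat_lit 0x80083883fd4bcc3ba1)) (.nd (.lf (nat_lit 0x816800800caad28bf3)) (.lf (nat_lit 0x821800800cf6d02bc6)) (.lf (nat_lit 0x80083182ac74d1cc3d)) (.lf (nat_lit 0x800824836cdacc1c37))) (.lf (nat_lit 0x80982c82ecdfca6c4f))))) (.nd (.lf (nat_lit 0x830c5fa1b7de717e4a)) (.lf (nat_lit 0x8128008009f0907fb1)) (.lf (nat_lit 0x826aed9779eb81df0a)) (.lf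 (nat_lit 0x80781780db1797cf3a))) (.lf (nat_lit 0x81fc95af5b86af2b9f)) (.lf (nat_lit 0x8047828d6bfe129888)))
  _ _ _ (by decide +kernel)

theorem g2_m52_28 : GD 2 (-52) 28 :=
  GD.split (i := 1) g1_m54_26 g1_m50_26 g1_m54_30 g1_m50_30 (by decide)

theorem g3_m56_24 : GD 3 (-56) 24 :=
  GD.split (i := 2) g2_m60_20 g2_m52_20 g2_m60_28 g2_m52_28 (by decide)

noncomputable def g1_m62_34 : GD 1 (-62) 34 := chk_sound 
  (.cell (.nd (.lf (nat_lit 0x8008008009d791cfb4)) (.lf (nat_lit 0x800820801d4d800dfd)) (.lf (nat_lit 0x800808813a2f9c6f7d)) (.lf (nat_lit 0x81c800800c49ae1e1b))) (.lf (nat_lit 0x80083f8252c240cc8f)) (.lf (nat_lit 0x87fca3aaf9bd99ed6c)) (.nd (.lf (nat_lit 0x82aa569d951363be96)) (.lf (nat_lit 0x800800800429608ebc)) (.nd (.lf (nat_lit 0x8087a688fc341478ce)) (.lf (nat_lit 0x80d7c785d62c6d5fb0)) (.lf (nat_lit 0x8057db836c501558e7)) (.nd (.lf (nat_lit 0x8007fb80382574aff7))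 (.lf (nat_lit 0x80080680984a846ffd)) (.lf (nat_lit 0x8007ff8088e57c9ff2)) (.lf (nat_lit 0x8008008009688d8fd4)))) (.lf (nat_lit 0x8007ff80978a854ffa))) (.lf (nat_lit 0x8118de88980a8e4fe2)) (.lf (nat_lit 0x8067c5854c591558a5)))
  _ _ _ (by decide +kernel)

noncomputable def g0_m59_33 : GD 0 (-59) 33 := chk_sound 
  (.cell (.nd (.lf (nat_lit 0x800800800a04935fa5)) (.lf (nat_lit 0x800827801d64800de8)) (.lf (nat_lit 0x8007ff808a99a25f41)) (.lf (nat_lit 0x80782481cc3daf1e1c))) (.lf (nat_lit 0x80383181b2704b0cb1)) (.nd (.lf (nat_lit 0x8067848c6c4c15788a)) (.lf (nat_lit 0x80c8e28921443d3835)) (.lf (nat_lit 0x80879c89ac621628a8)) (.lf (nat_lit 0x819800800d19b6ed1e))) (.nd (.lf (nat_lit 0x828a7e9e654a63fe9d)) (.lf (nat_lit 0x80080080042261aebd)) (.lf (nat_lit 0x87d8668c2817828fef)) (.lf (nat_lit 0x8008008008058a6ff9))) (.lf (nat_lit 0x8199b1914813909fac)) (.lf (nat_lit 0x8087be871c4a14e8ad)))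
  _ _ _ (by decide +kernel)

noncomputable def g0_m57_33 : GD 0 (-57) 33 := chk_sound 
  (.cell (.nd (.lf (nat_lit 0x80481680ba76955f7e)) (.lf (nat_lit 0x820809801d72800ddb)) (.lf (nat_lit 0x810800800abda2ef31)) (.lf (nat_lit 0x800829823c34af9e1e))) (.lf (nat_lit 0x80281281025f4cecb2)) (.nd (.lf (nat_lit 0x8097a788fc40147880)) (.lf (nat_lit 0x80b85983913b3da8db)) (.lf (nat_lit 0x80c7a9884c5215489e)) (.lf (nat_lit 0x80882a81dd0db97d0d))) (.nd (.lf (nat_lit 0x841b36a4c5c86a6e73)) (.lf (nat_lit 0x800813815456643ee4)) (.lf (nat_lit 0x8008018018047d9fff)) (.lf (nat_lit 0x8007ff80b8998f6feb))) (.lf (nat_lit 0x829aca9c7864939f2b)) (.lf (nat_lit 0x8007a3889c3f14a8ad)))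
  _ _ _ (by decide +kernel)

noncomputable def g0_m59_35 : GD 0 (-59) 35 := chk_sound 
  (.cell (.nd (.lf (nat_lit 0x808817811a03933fa6)) (.lf (nat_lit 0x800827806d43848e04)) (.lf (nat_lit 0x80781d81ba72a07f57)) (.lf (nat_lit 0x827800800c36ad9e2c))) (.lf (nat_lit 0x80282d8222c73f3c7f)) (.lf (nat_lit 0x881ca8abc9f09e8d37)) (.nd (.lf (nat_lit 0x81ca209b052761feb4)) (.lf (nat_lit 0x80082580d438616ec8)) (.lf (nat_lit 0x80280b84b8127e9ffe)) (.lf (nat_lit 0x8007fe80a7d187dffb))) (.lf (nat_lit 0x8008008007f98bfff7)) (.lf (nat_lit 0x80a7b2877c501528a5)))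
  _ _ _ (by decide +kernel)

noncomputable def g0_m57_35 : GD 0 (-57) 35 := chk_sound 
  (.cell (.nd (.lf (nat_lit 0x800803804a2f946f97)) (.lf (nat_lit 0x800821809d4a84edfd)) (.lf (nat_lit 0x800807815a91a11f4a)) (.lf (nat_lit 0x80682c823c2cadde31))) (.lf (nat_lit 0x8008018262a5431c8e)) (.lf (nat_lit 0x85accfa7498a9c1d69)) (.nd (.lf (nat_lit 0x80f88d8654e960ef15)) (.lf (nat_lit 0x800801818454631edf)) (.lf (nat_lit 0x81b97492482a7f7fc8)) (.lf (nat_lit 0x80080480783b8baff6))) (.lf (nat_lit 0x82b98a8fe80d903fb8)) (.lf (nat_lit 0x80c7a9888c4714e8a6)))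
  _ _ _ (by decide +kernel)

theorem g1_m58_34 : GD 1 (-58) 34 :=
  GD.split (i := 0) g0_m59_33 g0_m57_33 g0_m59_35 g0_m57_35 (by decide)

noncomputable def g1_m62_38 : GD 1 (-62) 38 := chk_sound 
  (.cell (.nd (.lf (nat_lit 0x80481080b9f692efaa)) (.lf (nat_lit 0x80081080dd308a0e0e)) (.lf (nat_lit 0x811800800a3e9d7f74)) (.lf (nat_lit 0x80081d817c3fab9e34))) (.lf (nat_lit 0x833ca9bbd6406fbcea)) (.lf (nat_lit 0x800846824e30c50aa4)) (.nd (.lf (nat_lit 0x80b8008004d25a8ef4)) (.lf (nat_lit 0x80080e811474612ee7)) (.nd (.lf (nat_lit 0x8057978a9c3714a8bc)) (.nd (.lf (nat_lit 0x80080b81a6454bef18)) (.lf (nat_lit 0x8118008005a1657f75)) (.lf (nat_lit 0x8008008007d86acfe3)) (.lf (nat_lit 0x80080a80d706753fe9))) (.lf (nat_lit 0x80a79c89dc5e1658d8)) (.lf (nat_lit 0x8007cd8558aa86bff3))) (.lf (nat_lit 0x80080080079f846ffc))) (.lf (nat_lit 0x8008008008348c5ff5)) (.lf (nat_lit 0x80d7908a5c61161891)))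
  _ _ _ (by decide +kernel)

noncomputable def g1_m58_38 : GD 1 (-58) 38 := chk_sound 
  (.cell (.nd (.lf (nat_lit 0x8068158129ef92bfac)) (.lf (nat_lit 0x80082f80ad268b1e14)) (.lf (nat_lit 0x8008008009c4956fb0)) (.lf (nat_lit 0x800800800c29abae43))) (.lf (nat_lit 0x814a2f9ba2db429bdf)) (.lf (nat_lit 0x878ca2aa6980978d8e)) (.nd (.lf (nat_lit 0x8178008004dd5afefb)) (.lf (nat_lit 0x80c80080045f616edd)) (.nd (.lf (nat_lit 0x8087b1875c351448c4)) (.nd (.lf (nat_lit 0x8008108126864c4f2a)) (.lf (nat_lit 0x8008018115bd66ff83)) (.lf (nat_lit 0x8007ff8167ff625fc8)) (.lf (nat_lit 0x80080080075e75cff3))) (.lf (nat_lit 0x80a7ae87ec5615d8de)) (.nd (.lf (nat_lit 0x800800800887684fd7)) (.lf (nat_lit 0x80280080080c7c6fff)) (.lf (nat_lit 0x8138008009c3754fc6)) (.lf (nat_lit 0x80080080095689cfdd)))) (.lf (nat_lit 0x8008008007c3864ffc))) (.lf (nat_lit 0x8009538dd80a8f9fc8)) (.lf (nat_lit 0x8007978a2c55159898)))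
  _ _ _ (by decide +kernel)

theorem g2_m60_36 : GD 2 (-60) 36 :=
  GD.split (i := 1) g1_m62_34 g1_m58_34 g1_m62_38 g1_m58_38 (by decide)

noncomputable def g1_m54_34 : GD 1 (-54) 34 := chk_sound 
  (.cell (.nd (.lf (nat_lit 0x8008007fbab790ff72)) (.lf (nat_lit 0x800828801d98800db7)) (.nd (.lf (nat_lit 0x800801816abf9d7f48)) (.lf (nat_lit 0x800814818b70a3eedd)) (.lf (nat_lit 0x80481a812a789f9f59)) (.lf (nat_lit 0x80080181fb0ca5af03))) (.nd (.lf (nat_lit 0x80081a81ec2baa1e4c)) (.nd (.lf (nat_lit 0x837757928cf7a82d96)) (.lf (nat_lit 0x833679977c68bc1d18)) (.lf (nat_lit 0x800800800c6eb11de9)) (.lf (nat_lit 0x83e735918c85b75d73))) (.lf (nat_lit 0x818800800ba7ac2e8f)) (.lf (nat_lit 0x807828821c38b24e06)))) (.lf (nat_lit 0x8008258202644bdcac)) (.nd (.lf (nat_lit 0x80b7958b6c2813b866)) (.lf (nat_lit 0x8008618451503ff9ba)) (.lf (nat_lit 0x80c7968a8c3c148884)) (.nd (.lf (nat_lit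 0x819b5aa27bdcc0ac1c)) (.lf (nat_lit 0x800801827d38c4fc42)) (.nd (.lf (nat_lit 0x8297758613dce53a85)) (.lf (nat_lit 0x8687328b4cb7c20cd7)) (.lf (nat_lit 0x84c47ca3c504d93a8f)) (.lf (nat_lit 0x85373a8e7ca0bc2d31))) (.lf (nat_lit 0x80481c81bc9ab73d8e)))) (.nd (.lf (nat_lit 0x880a489bd53465beb5)) (.lf (nat_lit 0x8008008005116b5f54)) (.nd (.lf (nat_lit 0x8007b4877c3a14f900)) (.lf (nat_lit 0x8008008007b77adffd)) (.lf (nat_lit 0x8007ff831c4d159914)) (.nd (.lf (nat_lit 0x8008008168e761cfb8)) (.lf (nat_lit 0x8008018058a9847ff7)) (.lf (nat_lit 0x8067de81db045fdf21)) (.lf (nat_lit 0x800800800a2b948f97)))) (.lf (nat_lit 0x8008018097f6887ffb))) (.nd (.lf (nat_lit 0x8158008005476f8f73)) (.nd (.lf (nat_lit 0x8158008002d0552d77)) (.lf (nat_lit 0x8008388141d8490bc4)) (.lf (nat_lit 0x8007ff807713840ff1)) (.lf (nat_lit 0x824a34967dfcc03a48))) (.lf (nat_lit 0x80d8008009859acfac)) (.lf (nat_lit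 0x800820809b33accec6))) (.lf (nat_lit 0x8037e782bc3713d8a5)))
  _ _ _ (by decide +kernel)

noncomputable def g1_m50_34 : GD 1 (-50) 34 := chk_sound 
  (.cell (.nd (.lf (nat_lit 0x80081180bbaf892f13)) (.nd (.lf (nat_lit 0x800801818c27131895)) (.lf (nat_lit 0x8007bc880c1812b86e)) (.lf (nat_lit 0x8007e7840cb31a893e)) (.lf (nat_lit 0x8057cf861c14124847))) (.lf (nat_lit 0x819800800b2ca04f0f)) (.nd (.nd (.lf (nat_lit 0x829800800c52a31e5d)) (.lf (nat_lit 0x82d72398cc02b6cdbf)) (.lf (nat_lit 0x80082280ebd5a9fe83)) (.lf (nat_lit 0x81f800800c18b04e2c))) (.nd (.lf (nat_lit 0x80074b92db69c0edd5)) (.lf (nat_lit 0x800801821afbc9add2)) (.lf (nat_lit 0x807823826bc9c7ad70)) (.lf (nat_lit 0x80381581abf1cb8d1d))) (.lf (nat_lit 0x80882581abb1ab9e8d)) (.lf (nat_lit 0x817800800bf8c32d88)))) (.lf (nat_lit 0x80080981f2514e9cb3)) (.nd (.lf (nat_lit 0x8087b1889bf4114821)) (.lf (nat_lit 0x81086283d162421a3b))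 (.lf (nat_lit 0x8007878c6c0212583f)) (.nd (.nd (.lf (nat_lit 0x8007ea83a677eadc1f)) (.lf (nat_lit 0x802847840de0d139e2)) (.lf (nat_lit 0x8007ff82b63bebcbee)) (.lf (nat_lit 0x80083b83ed5cd11b13))) (.nd (.lf (nat_lit 0x80083b83de02ce99e8)) (.lf (nat_lit 0x800824820dd4c33b82)) (.lf (nat_lit 0x80082581bd9dce5ae8)) (.lf (nat_lit 0x80082a80dd31c41c58))) (.nd (.lf (nat_lit 0x8017e684d5fdec8bb8)) (.nd (.lf (nat_lit 0x8007ff810bfbd17cb6)) (.lf (nat_lit 0x80982e834cd1cf8c00)) (.lf (nat_lit 0x800827817be6cd7d08)) (.lf (nat_lit 0x80082281ac80ce0c76))) (.lf (nat_lit 0x8007f28325b8ed4b7a)) (.lf (nat_lit 0x80081382ec1fcc3ced))) (.nd (.lf (nat_lit 0x800835822d0bcd7be1)) (.lf (nat_lit 0x80982981fcbebb2d45)) (.lf (nat_lit 0x821800800c68c9bcd4)) (.lf (nat_lit 0x80080181ac85b8dd8f))))) (.nd (.lf (nat_lit 0x82199c90b617670f5c)) (.lf (nat_lit 0x8008008007c9829ffe)) (.lf (nat_lit 0x8037f680586d7dfffc))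 (.lf (nat_lit 0x810800800a62980f7c))) (.nd (.lf (nat_lit 0x80080080082d8aaff8)) (.lf (nat_lit 0x833cf5b175666e5cac)) (.lf (nat_lit 0x80080181ba9e9f8f4c)) (.lf (nat_lit 0x804815814c0db8adeb))) (.lf (nat_lit 0x8007a4894c19131893)))
  _ _ _ (by decide +kernel)

noncomputable def g0_m55_37 : GD 0 (-55) 37 := chk_sound 
  (.cell (.nd (.lf (nat_lit 0x800800800a72955f7f)) (.lf (nat_lit 0x800819808d2c8e3e09)) (.lf (nat_lit 0x80380a80aa8a9fdf52)) (.lf (nat_lit 0x800801813c1dacae44))) (.lf (nat_lit 0x80b830823289447c7e)) (.nd (.lf (nat_lit 0x8077908b3c4714f870)) (.lf (nat_lit 0x80b88c8551423ec934)) (.lf (nat_lit 0x80a7b8875c6c16288f)) (.lf (nat_lit 0x80882f826d00b5dd41))) (.nd (.lf (nat_lit 0x81c9bd957552627ef8)) (.lf (nat_lit 0x81e80080048a646f00)) (.lf (nat_lit 0x823a0799685480ff91)) (.lf (nat_lit 0x80080180c8678c5ff3))) (.lf (nat_lit 0x8038e288f7f78edfe0)) (.lf (nat_lit 0x8047c2860c4814a89d)))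
  _ _ _ (by decide +kernel)

noncomputable def g0_m53_37 : GD 0 (-53) 37 := chk_sound 
  (.cell (.nd (.lf (nat_lit 0x806812809aea94ef55)) (.lf (nat_lit 0x817800800d2c90de02)) (.lf (nat_lit 0x809800800aafa02f43)) (.lf (nat_lit 0x825800800c14ad2e46))) (.lf (nat_lit 0x80081882e2e33a9c5a)) (.nd (.lf (nat_lit 0x8037a7890c38140861)) (.lf (nat_lit 0x807be0a6928a4ca9bb)) (.lf (nat_lit 0x80a7888b6c5515a880)) (.lf (nat_lit 0x8247a789acf7b83d25))) (.nd (.lf (nat_lit 0x8149919245b461cf2b)) (.lf (nat_lit 0x80080180d4ed689f3d)) (.lf (nat_lit 0x80290e8d385e7eafe0)) (.lf (nat_lit 0x80e8008008f0907fe0))) (.lf (nat_lit 0x81ca6e989848924f5f)) (.lf (nat_lit 0x8027858bbc3914b89b)))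
  _ _ _ (by decide +kernel)

noncomputable def g0_m55_39 : GD 0 (-55) 39 := chk_sound 
  (.cell (.nd (.lf (nat_lit 0x80d800800a2e93ff98)) (.lf (nat_lit 0x80080180bd26909e08)) (.lf (nat_lit 0x800818817a639e1f66)) (.lf (nat_lit 0x80a821817c16ab2e53))) (.lf (nat_lit 0x82eabaa4433e437bcc)) (.lf (nat_lit 0x868c8dab39d09c9d6b)) (.nd (.lf (nat_lit 0x80b83f83551b5b7f17)) (.lf (nat_lit 0x80881d81448462fef7)) (.lf (nat_lit 0x8017fe80880e7bcffe)) (.lf (nat_lit 0x80380080081b891ffa))) (.lf (nat_lit 0x8028008008068b8ff7)) (.lf (nat_lit 0x8007918adc4d155895)))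
  _ _ _ (by decide +kernel)

noncomputable def g0_m53_39 : GD 0 (-53) 39 := chk_sound 
  (.cell (.nd (.lf (nat_lit 0x80081e804aa795bf6c)) (.lf (nat_lit 0x80080c80dd2a92bdfe)) (.lf (nat_lit 0x800810812a839e8f59)) (.lf (nat_lit 0x80080a818c0dab6e57))) (.lf (nat_lit 0x818a1a9ca3173e2be9)) (.nd (.lf (nat_lit 0x80a7b486ec48147861)) (.lf (nat_lit 0x837e82c0e7bd810a3f)) (.lf (nat_lit 0x8007a0892c70167881)) (.lf (nat_lit 0x80781f81acf2b52d56))) (.nd (.lf (nat_lit 0x80080f81755d600f48)) (.lf (nat_lit 0x80080b8164bd659f1d)) (.lf (nat_lit 0x8198ef8d183a7d7fe5)) (.lf (nat_lit 0x80b8008008868c8ff1))) (.lf (nat_lit 0x8008cd8858018f3fe2)) (.lf (nat_lit 0x8007d5847c49148893)))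
  _ _ _ (by decide +kernel)

theorem g1_m54_38 : GD 1 (-54) 38 :=
  GD.split (i := 0) g0_m55_37 g0_m53_37 g0_m55_39 g0_m53_39 (by decide)

noncomputable def g1_m50_38 : GD 1 (-50) 38 := chk_sound 
  (.cell (.nd (.lf (nat_lit 0x80d800800b2d8fdf46)) (.lf (nat_lit 0x8157e5817e58800cde)) (.lf (nat_lit 0x800801815ad09f1f3b)) (.nd (.lf (nat_lit 0x812800800c27a82e5c)) (.nd (.lf (nat_lit 0x8537368a8dc0ad8ca7)) (.lf (nat_lit 0x969955832c3fbfdd1f)) (.lf (nat_lit 0x80281d81ac62af0e02)) (.lf (nat_lit 0x804820823c5fbe2d74))) (.lf (nat_lit 0x800801819b6da84ec6)) (.lf (nat_lit 0x80081e80cc04af0e43)))) (.lf (nat_lit 0x8129238c52a447ec96)) (.nd (.lf (nat_lit 0x80c77b8d6c1d138841)) (.lf (nat_lit 0x838e6ec087817faa77)) (.lf (nat_lit 0x8007688efc3d15285f)) (.nd (.nd (.lf (nat_lit 0x800812825c2fd60c30)) (.lf (nat_lit 0x8008d6851db3cc3ad4)) (.lf (nat_lit 0x80482f837be0ce7cfc)) (.lf (nat_lit 0x80082c818d0dcaec10)))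 (.lf (nat_lit 0x80083f839d86c7dba2)) (.nd (.lf (nat_lit 0x84983e830bdcca7d38)) (.lf (nat_lit 0x80083382bc8ec8dcbd)) (.lf (nat_lit 0x80282b82cbf7c5bd68)) (.lf (nat_lit 0x821800800c7bc2dd24))) (.lf (nat_lit 0x800801820c58baada0)))) (.nd (.lf (nat_lit 0x80080181554b60cf44)) (.lf (nat_lit 0x8178008005cf706fa1)) (.nd (.lf (nat_lit 0x8047a0899c3714f8f4)) (.lf (nat_lit 0x80085b83e7e9797ffa)) (.lf (nat_lit 0x8007c5866c5215e909)) (.lf (nat_lit 0x80a80080093587ffe4))) (.lf (nat_lit 0x80080780e86a89eff7))) (.nd (.lf (nat_lit 0x800801807635776fc7)) (.lf (nat_lit 0x832bbda56865919e92)) (.lf (nat_lit 0x8008048159cb995fa2)) (.lf (nat_lit 0x826800800b36a92edc))) (.lf (nat_lit 0x8007df821c3413988e)))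
  _ _ _ (by decide +kernel)

theorem g2_m52_36 : GD 2 (-52) 36 :=
  GD.split (i := 1) g1_m54_34 g1_m50_34 g1_m54_38 g1_m50_38 (by decide)

noncomputable def g1_m62_42 : GD 1 (-62) 42 := chk_sound 
  (.cell (.nd (.lf (nat_lit 0x80081280da0292afa7)) (.lf (nat_lit 0x80082b808e08868d3c)) (.lf (nat_lit 0x810800800a349b2f80)) (.lf (nat_lit 0x80081b819c3ba98e45))) (.lf (nat_lit 0x81dc68b50685754d90)) (.lf (nat_lit 0x815c80b059d49b9d51)) (.nd (.lf (nat_lit 0x81e80080050e5cdf1a)) (.lf (nat_lit 0x8048188124c561cf11)) (.lf (nat_lit 0x8048008008147a7ffd)) (.lf (nat_lit 0x8017fb8097d7849ffe))) (.lf (nat_lit 0x8088008007a4856ffc)) (.lf (nat_lit 0x8007a588bc6f16587b)))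
  _ _ _ (by decide +kernel)

noncomputable def g1_m58_42 : GD 1 (-58) 42 := chk_sound 
  (.cell (.nd (.lf (nat_lit 0x812800800a19936f9f)) (.lf (nat_lit 0x823800800d29909e05)) (.lf (nat_lit 0x800812815a2a9b4f82)) (.lf (nat_lit 0x80682a818c22a95e57))) (.lf (nat_lit 0x821c6bb4a64e731d7c)) (.lf (nat_lit 0x832c67ae79bd9acd82)) (.nd (.lf (nat_lit 0x80081980d5015caf14)) (.lf (nat_lit 0x81680080049760fef8)) (.lf (nat_lit 0x8007fd8098157a7ffd)) (.lf (nat_lit 0x8007fc8087ba843ffd))) (.lf (nat_lit 0x8219238c784f904fce)) (.lf (nat_lit 0x81077c8c7c61165884)))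
  _ _ _ (by decide +kernel)

noncomputable def g1_m62_46 : GD 1 (-62) 46 := chk_sound 
  (.cell (.lf (nat_lit 0x800824811b37a6aeea)) (.lf (nat_lit 0x81fc4db5b6c4775db1)) (.lf (nat_lit 0x82ebddaa990c946e43)) (.nd (.lf (nat_lit 0x80081481d55b5aff2f)) (.lf (nat_lit 0x80b80080051a627f39)) (.lf (nat_lit 0x8038d58de8507b6fe5)) (.lf (nat_lit 0x80580080082285affd))) (.lf (nat_lit 0x8008008097c6855ffd)) (.lf (nat_lit 0x80a7698e1c73174868)))
  _ _ _ (by decide +kernel)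

noncomputable def g1_m58_46 : GD 1 (-58) 46 := chk_sound 
  (.cell (.lf (nat_lit 0x8177dd83fae3a32f1f)) (.lf (nat_lit 0x83bc58b5a6b076eda3)) (.lf (nat_lit 0x800bb5a808ec934e75)) (.nd (.lf (nat_lit 0x80080080052d5c6f25)) (.lf (nat_lit 0x80080e80d4dd611f19)) (.lf (nat_lit 0x8138bf8c98387b8feb)) (.lf (nat_lit 0x8008018067e6843ffe))) (.lf (nat_lit 0x80b8b68818498e9fe5)) (.lf (nat_lit 0x8007b387fc74166871)))
  _ _ _ (by decide +kernel)

theorem g2_m60_44 : GD 2 (-60) 44 :=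
  GD.split (i := 1) g1_m62_42 g1_m58_42 g1_m62_46 g1_m58_46 (by decide)

noncomputable def g0_m55_41 : GD 0 (-55) 41 := chk_sound 
  (.cell (.nd (.lf (nat_lit 0x80281080da20936f9d)) (.lf (nat_lit 0x82a800800d2991fe01)) (.lf (nat_lit 0x819800800a449c8f76)) (.lf (nat_lit 0x818800800c12a9ee5e))) (.lf (nat_lit 0x80bcbebb06a1757d0e)) (.lf (nat_lit 0x82fc85ad99f09d5d52)) (.nd (.lf (nat_lit 0x8078008005265e4f2b)) (.lf (nat_lit 0x80080781248a61eef6)) (.lf (nat_lit 0x8008008008167b4ffe)) (.lf (nat_lit 0x8008008007eb86affd))) (.lf (nat_lit 0x8079318cb83e903fcd)) (.lf (nat_lit 0x8057898b7c5515b88c)))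
  _ _ _ (by decide +kernel)

noncomputable def g0_m53_41 : GD 0 (-53) 41 := chk_sound 
  (.cell (.nd (.lf (nat_lit 0x80081580ea50944f8d)) (.lf (nat_lit 0x800823801d28939dfd)) (.lf (nat_lit 0x80e800800a5d9cff6c)) (.lf (nat_lit 0x805821816c07a9fe64))) (.lf (nat_lit 0x835cbeb8e659727d09)) (.nd (.lf (nat_lit 0x8057cf853c5714e85e)) (.lf (nat_lit 0x841de6bb09ba962b43)) (.lf (nat_lit 0x80c7808b7c8517b880)) (.lf (nat_lit 0x80082180ccecb2cd72))) (.nd (.lf (nat_lit 0x80081780d5465f7f3d)) (.lf (nat_lit 0x80080e8054a8637f0b)) (.lf (nat_lit 0x8088008008497d2ffe)) (.lf (nat_lit 0x8007ff80b836892ffa))) (.lf (nat_lit 0x8008008007f18a1ff9)) (.lf (nat_lit 0x8037da835c5314d88b)))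
  _ _ _ (by decide +kernel)

noncomputable def g0_m55_43 : GD 0 (-55) 43 := chk_sound 
  (.cell (.nd (.lf (nat_lit 0x8007ff803a1d92ff9f)) (.lf (nat_lit 0x815800800d3392edf6)) (.lf (nat_lit 0x80081880fa2e9b1f82)) (.lf (nat_lit 0x80082c808c0fa8ce67))) (.lf (nat_lit 0x81fc71b4164c736d7d)) (.lf (nat_lit 0x81ac50acf99d999daf)) (.nd (.lf (nat_lit 0x80280d80752c5dcf2b)) (.lf (nat_lit 0x81880080049a612efa)) (.lf (nat_lit 0x8059349248497e5fd2)) (.lf (nat_lit 0x8068008007d4851ffd))) (.lf (nat_lit 0x80080181189b8effec)) (.lf (nat_lit 0x8097838c0c5d161883)))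
  _ _ _ (by decide +kernel)

noncomputable def g0_m53_43 : GD 0 (-53) 43 := chk_sound 
  (.cell (.nd (.lf (nat_lit 0x819800800a2b938f9a)) (.lf (nat_lit 0x821800800d33941df2)) (.lf (nat_lit 0x800800800a3f9b7f7b)) (.lf (nat_lit 0x80f800800c04a8ce6e))) (.lf (nat_lit 0x830cadb836c077ed49)) (.lf (nat_lit 0x82ec6badc9dc9bdd75)) (.nd (.lf (nat_lit 0x80381c81553e5e6f35)) (.lf (nat_lit 0x8078198124a5620f03)) (.lf (nat_lit 0x8048008008177a6ffd)) (.lf (nat_lit 0x80080180a80086affd))) (.lf (nat_lit 0x8007ff80988f8effec)) (.lf (nat_lit 0x8047ca857c5c154883)))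
  _ _ _ (by decide +kernel)

theorem g1_m54_42 : GD 1 (-54) 42 :=
  GD.split (i := 0) g0_m55_41 g0_m53_41 g0_m55_43 g0_m53_43 (by decide)

noncomputable def g0_m51_41 : GD 0 (-51) 41 := chk_sound 
  (.cell (.nd (.lf (nat_lit 0x800801812ac6953f62)) (.lf (nat_lit 0x800829813d26954df9)) (.lf (nat_lit 0x80080b816a7c9d3f61)) (.lf (nat_lit 0x80080a815bfeaa2e69))) (.lf (nat_lit 0x830cb8bb766770acf0)) (.nd (.lf (nat_lit 0x823800800c49142852)) (.lf (nat_lit 0x841e13bca865894b7d)) (.lf (nat_lit 0x8097758d4c73172873)) (.lf (nat_lit 0x800820824ce1b43d6e))) (.nd (.lf (nat_lit 0x81680080058e617f5f)) (.lf (nat_lit 0x81b8008004ea664f33)) (.lf (nat_lit 0x80280080081d7a5ffd)) (.lf (nat_lit 0x80080080089b8c3ff0))) (.lf (nat_lit 0x8068008007e088dffa)) (.lf (nat_lit 0x80378f8adc4514f889)))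
  _ _ _ (by decide +kernel)

noncomputable def g0_m49_41 : GD 0 (-49) 41 := chk_sound 
  (.cell (.nd (.lf (nat_lit 0x808800800b7794ef17)) (.lf (nat_lit 0x824800800d3b971de0)) (.lf (nat_lit 0x800801811a9e9d3f55)) (.lf (nat_lit 0x80081181bbf6aa6e6c))) (.lf (nat_lit 0x800cb4b7960e6dfcf9)) (.nd (.lf (nat_lit 0x80e76d8f1c2e147840)) (.lf (nat_lit 0x80fe01bbb774806bb3)) (.lf (nat_lit 0x80e7628f4c5d16885f)) (.nd (.lf (nat_lit 0x800841831e23bb1b8c)) (.lf (nat_lit 0x80982f820c78b52dbd)) (.lf (nat_lit 0x80b800800dd7a9fccb)) (.lf (nat_lit 0x800821822c35b05e18)))) (.nd (.lf (nat_lit 0x80080681360963ef8d)) (.lf (nat_lit 0x80081581355f6acf6f)) (.lf (nat_lit 0x8007fb8088747c4ffb)) (.lf (nat_lit 0x80280e80d90c8f0fe0))) (.lf (nat_lit 0x8128c88848088dafe6)) (.lf (nat_lit 0x8057c285dc3f142883)))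
  _ _ _ (by decide +kernel)

noncomputable def g0_m51_43 : GD 0 (-51) 43 := chk_sound 
  (.cell (.nd (.lf (nat_lit 0x800801810a69940f86)) (.lf (nat_lit 0x80c833811d2d952df3)) (.lf (nat_lit 0x800810814a579bcf73)) (.lf (nat_lit 0x80081881dbf9a8ce75))) (.lf (nat_lit 0x838cb3b786a776bd42)) (.nd (.lf (nat_lit 0x80b757904c4b15f852)) (.lf (nat_lit 0x821d05b249cd98ecd2)) (.lf (nat_lit 0x8087728cac8d183874)) (.lf (nat_lit 0x81f800800cd9b1ed8b))) (.nd (.lf (nat_lit 0x8008008005645f7f48)) (.lf (nat_lit 0x80481c80f4c863bf1a)) (.lf (nat_lit 0x8027fa8078407bbffd)) (.lf (nat_lit 0x80080880984888fff9))) (.lf (nat_lit 0x8009168b982c8f6fd5)) (.lf (nat_lit 0x80a7a7893c52153882)))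
  _ _ _ (by decide +kernel)

noncomputable def g0_m49_43 : GD 0 (-49) 43 := chk_sound 
  (.cell (.nd (.lf (nat_lit 0x80080a810ac793af66)) (.lf (nat_lit 0x827800800d2f972dea)) (.lf (nat_lit 0x800801813a759bff68)) (.lf (nat_lit 0x808824814befa8ee7a))) (.lf (nat_lit 0x83ecbcbb96ee780d20)) (.nd (.lf (nat_lit 0x80779d8a2c45149844)) (.lf (nat_lit 0x848d26b388f390cd01)) (.lf (nat_lit 0x8007708cfc7c177865)) (.lf (nat_lit 0x80081f80eccdb32d8a))) (.nd (.lf (nat_lit 0x8008018185af618f6a)) (.lf (nat_lit 0x80082380e50d668f43)) (.lf (nat_lit 0x80980480a8437abffd)) (.lf (nat_lit 0x8008008008a68b9ff0))) (.lf (nat_lit 0x8007f98047ce875ffc)) (.lf (nat_lit 0x8007b1879c4a14b87e)))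
  _ _ _ (by decide +kernel)

theorem g1_m50_42 : GD 1 (-50) 42 :=
  GD.split (i := 0) g0_m51_41 g0_m49_41 g0_m51_43 g0_m49_43 (by decide)

noncomputable def g1_m54_46 : GD 1 (-54) 46 := chk_sound 
  (.cell (.lf (nat_lit 0x800800800aeaa06f2b)) (.lf (nat_lit 0x81ebf9b025fc6f2dd4)) (.lf (nat_lit 0x834bcaa8390994de5d)) (.nd (.lf (nat_lit 0x80081b8175315c6f26)) (.lf (nat_lit 0x8068168104b9609f06)) (.nd (.lf (nat_lit 0x80a7968a4c4014d8a6)) (.nd (.lf (nat_lit 0x8007c685cb7e0ee942)) (.lf (nat_lit 0x8158008006045c7f6c)) (.lf (nat_lit 0x8027ed82ba5033ddfe)) (.lf (nat_lit 0x8018008007c373eff5))) (.lf (nat_lit 0x8007bd86cc7d1728c4)) (.lf (nat_lit 0x8007ec84f952890fdd))) (.lf (nat_lit 0x8048008007d8843ffe))) (.lf (nat_lit 0x80080180b8738ceff2)) (.lf (nat_lit 0x8007738cbc65168878)))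
  _ _ _ (by decide +kernel)

noncomputable def g0_m51_45 : GD 0 (-51) 45 := chk_sound 
  (.cell (.nd (.lf (nat_lit 0x80080180ca37935f97)) (.lf (nat_lit 0x821800800d3c958de5)) (.lf (nat_lit 0x80080b810a3a9a7f80)) (.lf (nat_lit 0x823800800bf6a7be7d))) (.lf (nat_lit 0x834c73b4767d755d8a)) (.lf (nat_lit 0x810c27ab296d97fdee)) (.nd (.lf (nat_lit 0x80081481c5555e3f3d)) (.lf (nat_lit 0x8008068134bc61ff0e)) (.lf (nat_lit 0x80080080081e79bffd)) (.lf (nat_lit 0x803800800811869ffd))) (.lf (nat_lit 0x8008078108768d8ff1)) (.lf (nat_lit 0x80877a8cac5815f87c)))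
  _ _ _ (by decide +kernel)

noncomputable def g0_m49_45 : GD 0 (-49) 45 := chk_sound 
  (.cell (.nd (.lf (nat_lit 0x80081580ea82944f7d)) (.lf (nat_lit 0x800821811d3a96cde2)) (.lf (nat_lit 0x804814811a519abf78)) (.lf (nat_lit 0x800822819beba7ae84))) (.lf (nat_lit 0x82aca4b866f779ed5d)) (.nd (.lf (nat_lit 0x81074d918c4a162846)) (.lf (nat_lit 0x840cdfb0f84a8a7d82)) (.lf (nat_lit 0x81275e8e5c9618e869)) (.lf (nat_lit 0x80482d824cc3b0dda7))) (.nd (.lf (nat_lit 0x8008018145785f1f4d)) (.lf (nat_lit 0x8008048124e163af26)) (.lf (nat_lit 0x8009389238707e7fcf)) (.lf (nat_lit 0x800800800855889ff9))) (.lf (nat_lit 0x8088008008898e9fee)) (.lf (nat_lit 0x8047c6854c57150879)))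
  _ _ _ (by decide +kernel)

noncomputable def g0_m51_47 : GD 0 (-51) 47 := chk_sound 
  (.cell (.lf (nat_lit 0x800800800b18a40f06)) (.lf (nat_lit 0x835c62b5169c764d9b)) (.lf (nat_lit 0x832bc4a7890794ce66)) (.nd (.lf (nat_lit 0x80080d81755d5d9f3d)) (.lf (nat_lit 0x8038008004c060cf0b)) (.lf (nat_lit 0x8017f98088437a9ffd)) (.lf (nat_lit 0x8028008007f4850ffe))) (.lf (nat_lit 0x8008008008688c5ff3)) (.lf (nat_lit 0x8067bd862c6815c876)))
  _ _ _ (by decide +kernel)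

noncomputable def g0_m49_47 : GD 0 (-49) 47 := chk_sound 
  (.cell (.nd (.lf (nat_lit 0x80081380fa5e936f8b)) (.lf (nat_lit 0x800828808d47968dd7)) (.lf (nat_lit 0x80081c80aa35999f85)) (.lf (nat_lit 0x80781c816be9a6ae8b))) (.lf (nat_lit 0x829c6ab4d69e766d98)) (.nd (.lf (nat_lit 0x80f7608f4c5a165845)) (.lf (nat_lit 0x816c7fad57b6850df6)) (.lf (nat_lit 0x80e7698d0cb41a086b)) (.lf (nat_lit 0x80082b813cbdaf3dba))) (.nd (.lf (nat_lit 0x80981d81b56e5e0f45)) (.lf (nat_lit 0x80781880f4d061bf16)) (.lf (nat_lit 0x80084684c83d7a4ffa)) (.lf (nat_lit 0x80380080081e866ffd))) (.lf (nat_lit 0x80380580b8648c7ff3)) (.lf (nat_lit 0x8007d8853c63157875)))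
  _ _ _ (by decide +kernel)

theorem g1_m50_46 : GD 1 (-50) 46 :=
  GD.split (i := 0) g0_m51_45 g0_m49_45 g0_m51_47 g0_m49_47 (by decide)

theorem g2_m52_44 : GD 2 (-52) 44 :=
  GD.split (i := 1) g1_m54_42 g1_m50_42 g1_m54_46 g1_m50_46 (by decide)

theorem g3_m56_40 : GD 3 (-56) 40 :=
  GD.split (i := 2) g2_m60_36 g2_m52_36 g2_m60_44 g2_m52_44 (by decide)

noncomputable def g2_m60_52 : GD 2 (-60) 52 := chk_sound 
  (.cell (.lf (nat_lit 0x81d7f3819b1ba57efd)) (.lf (nat_lit 0x810c3ab6b648702d85)) (.nd (.lf (nat_lit 0x8146c49d2c561a7816)) (.lf (nat_lit 0x800c0aa7a8358c3e65)) (.lf (nat_lit 0x81479282ef5b4f087c)) (.lf (nat_lit 0x800800800c49b35df1))) (.nd (.lf (nat_lit 0x80082080e5675a7f31)) (.lf (nat_lit 0x80680080057a62df5e)) (.nd (.lf (nat_lit 0x8007c3858c531538b5)) (.lf (nat_lit 0x80080c80d7546e7fe5)) (.lf (nat_lit 0x8067cc842cc01a48e9)) (.lf (nat_lit 0x80080f80194b86cfe2)))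 (.lf (nat_lit 0x80280080080882cfff))) (.lf (nat_lit 0x8008008007dc858ffd)) (.lf (nat_lit 0x809792899c8017185d)))
  _ _ _ (by decide +kernel)

noncomputable def g1_m54_50 : GD 1 (-54) 50 := chk_sound 
  (.cell (.lf (nat_lit 0x816800800ad2a05f35)) (.lf (nat_lit 0x830c42b636b676ddb0)) (.lf (nat_lit 0x800b86a5e8d793ce9d)) (.nd (.lf (nat_lit 0x8008008005465b6f29)) (.lf (nat_lit 0x80981f8134f5605f20)) (.nd (.lf (nat_lit 0x8097958a9c4a1548a6)) (.lf (nat_lit 0x8028008007fa76effa)) (.lf (nat_lit 0x8087d5843c9e1878cb)) (.lf (nat_lit 0x80080180d9838a7fd4))) (.lf (nat_lit 0x8008008007fb844ffe))) (.lf (nat_lit 0x80080080089d8d4fee)) (.lf (nat_lit 0x8007d684ec7c16786d)))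
  _ _ _ (by decide +kernel)

noncomputable def g1_m50_50 : GD 1 (-50) 50 := chk_sound 
  (.cell (.lf (nat_lit 0x80081a817ad09f2f3b)) (.lf (nat_lit 0x80cbeab0d6156fdde3)) (.lf (nat_lit 0x800b91a608f5962e8a)) (.nd (.lf (nat_lit 0x80581f81755e5bbf34)) (.lf (nat_lit 0x8008018144d65fff11)) (.lf (nat_lit 0x80782882f84a793ffa)) (.lf (nat_lit 0x8007fc8047f3845ffe))) (.lf (nat_lit 0x80080080084d8afff7)) (.lf (nat_lit 0x8097b886dc73164872)))
  _ _ _ (by decide +kernel)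

noncomputable def g1_m54_54 : GD 1 (-54) 54 := chk_sound 
  (.cell (.lf (nat_lit 0x800800800af5a35f19)) (.lf (nat_lit 0x82ac0db616106d8d92)) (.lf (nat_lit 0x838bbda7a8ef94be6d)) (.nd (.lf (nat_lit 0x8058158125925b4f44)) (.lf (nat_lit 0x80080581054060ef41)) (.lf (nat_lit 0x8007fa80d84e761ff8)) (.lf (nat_lit 0x80580080084085bffc))) (.lf (nat_lit 0x80780080077c82bffb)) (.lf (nat_lit 0x80877c8c0c7f17786f)))
  _ _ _ (by decide +kernel)

noncomputable def g1_m50_54 : GD 1 (-50) 54 := chk_sound 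
  (.cell (.lf (nat_lit 0x80080181ab06a48f0b)) (.lf (nat_lit 0x82ec1ab616006d4d82)) (.lf (nat_lit 0x80eb9ea5e8e0945e8d)) (.nd (.lf (nat_lit 0x8008018195665a3f2f)) (.lf (nat_lit 0x80081680350b5fbf27)) (.nd (.lf (nat_lit 0x80b7ab888c541598c0)) (.lf (nat_lit 0x8007fc80d834773ffa)) (.lf (nat_lit 0x80a7a8878cbb1a68f1)) (.lf (nat_lit 0x80080880598686efd7))) (.lf (nat_lit 0x80280080081084cffe))) (.lf (nat_lit 0x80080080073f80cff6)) (.lf (nat_lit 0x8057778c1c7c176878)))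
  _ _ _ (by decide +kernel)

theorem g2_m52_52 : GD 2 (-52) 52 :=
  GD.split (i := 1) g1_m54_50 g1_m50_50 g1_m54_54 g1_m50_54 (by decide)

noncomputable def g2_m60_60 : GD 2 (-60) 60 := chk_sound 
  (.cell (.lf (nat_lit 0x80081f81bc31aa1e48)) (.lf (nat_lit 0x81abcfb806406f2dbf)) (.nd (.lf (nat_lit 0x8056d09e33e3e7c818)) (.nd (.lf (nat_lit 0x81fc09b46829a10db7)) (.lf (nat_lit 0x800800800460731f15)) (.lf (nat_lit 0x83aca8a896d883fdde)) (.lf (nat_lit 0x80f9c88f878c8e3fac))) (.lf (nat_lit 0x84308b94c94e85ea2e)) (.lf (nat_lit 0x84d911843c5fb48dba))) (.nd (.lf (nat_lit 0x80381081d63a4c5f19)) (.lf (nat_lit 0x80080b81261963df91)) (.lf (nat_lit 0x80088c88d960763fd1)) (.lf (nat_lit 0x80080180b9298a1fe3))) (.lf (nat_lit 0x8008008007f88a2ff9)) (.lf (nat_lit 0x8037ae878c6d16388b)))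
  _ _ _ (by decide +kernel)

noncomputable def g2_m52_60 : GD 2 (-52) 60 := chk_sound 
  (.cell (.nd (.lf (nat_lit 0x80080180dc0a985ebc)) (.lf (nat_lit 0x800822808f2a8adb7c)) (.lf (nat_lit 0x80080180fa5d975f80)) (.lf (nat_lit 0x800800800c05a3ce8b))) (.lf (nat_lit 0x81cbe2b7960e6d8da1)) (.nd (.lf (nat_lit 0x806702984c4a18081b)) (.nd (.lf (nat_lit 0x82bc16b3b8429dedc5)) (.lf (nat_lit 0x81880080046d71bf19)) (.lf (nat_lit 0x823cb3aa2893913dc9)) (.lf (nat_lit 0x8179ab8f280890afb2))) (.lf (nat_lit 0x84d0dc9fda627e39cc)) (.lf (nat_lit 0x8008f3827be9b1de2b))) (.nd (.lf (nat_lit 0x81880080057454bf15)) (.lf (nat_lit 0x81a80080059961df64)) (.nd (.lf (nat_lit 0x8037c684fc4c166953)) (.lf (nat_lit 0x8007f880486474cff5)) (.lf (nat_lit 0x8007cc829dc53f1bc2)) (.lf (nat_lit 0x80980080098b857fd7))) (.lf (nat_lit 0x8007fc80583a7ddffe))) (.lf (nat_lit 0x80080080077a86eff8)) (.lf (nat_lit 0x80f7838b1c7d1788a7)))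
  _ _ _ (by decide +kernel)

theorem g3_m56_56 : GD 3 (-56) 56 :=
  GD.split (i := 2) g2_m60_52 g2_m52_52 g2_m60_60 g2_m52_60 (by decide)

noncomputable def g2_m60_68 : GD 2 (-60) 68 := chk_sound 
  (.cell (.lf (nat_lit 0x82a800800d5ea28d85)) (.lf (nat_lit 0x803b0ccc56c37e6d83)) (.nd (.lf (nat_lit 0x86986a8a5449ec69e0)) (.lf (nat_lit 0x82f91188d5faa17f5a)) (.lf (nat_lit 0x800887804fd8813977)) (.lf (nat_lit 0x84dc7b8e37a48f9e7a))) (.lf (nat_lit 0x80084d82c8b968cfd3)) (.lf (nat_lit 0x8008008006b8962fc6)) (.lf (nat_lit 0x849b0fae3dad72cba5)))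
  _ _ _ (by decide +kernel)

noncomputable def g2_m52_68 : GD 2 (-52) 68 := chk_sound 
  (.cell (.lf (nat_lit 0x812800800c76a91e1f)) (.lf (nat_lit 0x826b46c986ab7c6d82)) (.nd (.lf (nat_lit 0x80c7918ddbaf0f8802)) (.lf (nat_lit 0x8088ff88b606a30f59)) (.lf (nat_lit 0x830791807feb7b98f9)) (.lf (nat_lit 0x822bad9ac812952ec6))) (.nd (.lf (nat_lit 0x8008018386c7308e25)) (.lf (nat_lit 0x80080d81061d634f90)) (.lf (nat_lit 0x8128008009bc6c0fb5)) (.lf (nat_lit 0x80080180592d837fe9))) (.lf (nat_lit 0x814800800688964fbd)) (.lf (nat_lit 0x80998e8ade68711c61)))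
  _ _ _ (by decide +kernel)

noncomputable def g2_m60_76 : GD 2 (-60) 76 := chk_sound 
  (.cell (.lf (nat_lit 0x818800800e009a8d05)) (.lf (nat_lit 0x8007c78d19ed04a83e)) (.nd (.lf (nat_lit 0x909b83e737e0aba93c)) (.lf (nat_lit 0x8007d88393d6d9fbde)) (.lf (nat_lit 0x807863836ea3c179ba)) (.lf (nat_lit 0x800d3b8fd4d2877d08))) (.lf (nat_lit 0x80088681998c6dbfbf)) (.lf (nat_lit 0x8899758364eb996f09)) (.lf (nat_lit 0x81cd8bbdba757e4b82)))
  _ _ _ (by decide +kernel)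

noncomputable def g2_m52_76 : GD 2 (-52) 76 := chk_sound 
  (.cell (.lf (nat_lit 0x81383b813df59a6d12)) (.lf (nat_lit 0x8007dd87b9e1040850)) (.nd (.lf (nat_lit 0x8249eff0b59c5f78db)) (.lf (nat_lit 0x8007e683a3d1da5bd0)) (.lf (nat_lit 0x807828818eebb78a01)) (.lf (nat_lit 0x861cc88aa45e8dbd28))) (.lf (nat_lit 0x80e8008009996b9fbb)) (.lf (nat_lit 0x8217e78194f39b6f31)) (.lf (nat_lit 0x831d68bcaa907dcbb5)))
  _ _ _ (by decide +kernel)

theorem g3_m56_72 : GD 3 (-56) 72 :=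
  GD.split (i := 2) g2_m60_68 g2_m52_68 g2_m60_76 g2_m52_76 (by decide)

noncomputable def g2_m60_84 : GD 2 (-60) 84 := chk_sound 
  (.cell (.lf (nat_lit 0x83a800800de49afd23)) (.lf (nat_lit 0x8007ee84595b03290e)) (.nd (.lf (nat_lit 0x828ad0e5e542563913)) (.lf (nat_lit 0x8007dc843390da1b89)) (.lf (nat_lit 0x80781b80fea7b88aaf)) (.lf (nat_lit 0x8a7c9d8c34718f6d4d))) (.lf (nat_lit 0x800679872a8a611f29)) (.lf (nat_lit 0x8007d18282ffcb1c1b)) (.lf (nat_lit 0x830cd6bf2b8089fb83)))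
  _ _ _ (by decide +kernel)

noncomputable def g2_m52_84 : GD 2 (-52) 84 := chk_sound 
  (.cell (.lf (nat_lit 0x800825812dd89b1d30)) (.lf (nat_lit 0x8007fd86f8a50489f1)) (.nd (.lf (nat_lit 0x81e96ad5f519326912)) (.lf (nat_lit 0x8007c7843389d9eb84)) (.lf (nat_lit 0x80083580deaab8caa1)) (.lf (nat_lit 0x958b0184437c9e9d63))) (.lf (nat_lit 0x8007e6809aff67df42)) (.lf (nat_lit 0x8007c682630acbec19)) (.lf (nat_lit 0x82ace3bd1b708c5b9e)))
  _ _ _ (by decide +kernel)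

noncomputable def g2_m60_92 : GD 2 (-60) 92 := chk_sound 
  (.cell (.lf (nat_lit 0x800813817dba9b9d4f)) (.lf (nat_lit 0x800800864876059a3e)) (.nd (.lf (nat_lit 0x81a954c624552c697d)) (.lf (nat_lit 0x800800800367d7eb8f)) (.lf (nat_lit 0x80084881ae75b6db3b)) (.lf (nat_lit 0xa4377681732ead7d38))) (.lf (nat_lit 0x823739862a80562f14)) (.lf (nat_lit 0x8057de8262feccfbf7)) (.lf (nat_lit 0x81dc9ebd0b9e8b9bcf)))
  _ _ _ (by decide +kernel)

noncomputable def g2_m52_92 : GD 2 (-52) 92 := chk_sound 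
  (.cell (.lf (nat_lit 0x800800800da89c0d60)) (.lf (nat_lit 0x8007f6870854064a66)) (.nd (.lf (nat_lit 0x82185fa714f613c9af)) (.lf (nat_lit 0x81480080035cd74b8f)) (.lf (nat_lit 0x80a840826e6cb95b21)) (.lf (nat_lit 0x86e78e8302e9c19c91))) (.lf (nat_lit 0x82a81c810a8d547f12)) (.lf (nat_lit 0x8067c98342fbcd1bef)) (.lf (nat_lit 0x830bf8bd3c4294fbb4)))
  _ _ _ (by decide +kernel)

theorem g3_m56_88 : GD 3 (-56) 88 :=
  GD.split (i := 2) g2_m60_84 g2_m52_84 g2_m60_92 g2_m52_92 (by decide)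

noncomputable def g2_m60_100 : GD 2 (-60) 100 := chk_sound 
  (.cell (.lf (nat_lit 0x80082e817d809d0d83)) (.lf (nat_lit 0x8007ff8798b704fa04)) (.nd (.lf (nat_lit 0x813869a74499165998)) (.lf (nat_lit 0x80c7c6843348d48bb3)) (.lf (nat_lit 0x80c83781ae62b33b98)) (.lf (nat_lit 0x81a8008002f2c3cc86))) (.nd (.lf (nat_lit 0x8007ff8357641dbd14)) (.lf (nat_lit 0x8269bfadba40327ceb)) (.lf (nat_lit 0x800800800cdd7e8e59)) (.lf (nat_lit 0x8007ff80aa38710fa0))) (.lf (nat_lit 0x81b800800308cbec18)) (.lf (nat_lit 0x833c05bd8c2293ebcb)))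
  _ _ _ (by decide +kernel)

noncomputable def g2_m52_100 : GD 2 (-52) 100 := chk_sound 
  (.cell (.lf (nat_lit 0x800801814d669dcd99)) (.lf (nat_lit 0x8007f386488005ca46)) (.nd (.lf (nat_lit 0x80082184752b0cda00)) (.lf (nat_lit 0x8047e6819338d3abb5)) (.lf (nat_lit 0x80884081ce54b62b85)) (.lf (nat_lit 0x8007c38252f4c55c6f))) (.nd (.lf (nat_lit 0x80080a83176b1fbd3b)) (.lf (nat_lit 0x82a97e9f69df31bd84)) (.lf (nat_lit 0x800800800ce07f7e57)) (.lf (nat_lit 0x80f800800a8e74ef8c))) (.lf (nat_lit 0x8007ff8132fecb8c13)) (.lf (nat_lit 0x824bd5bdcc46941bd0)))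
  _ _ _ (by decide +kernel)

noncomputable def g2_m60_108 : GD 2 (-60) 108 := chk_sound 
  (.cell (.lf (nat_lit 0x800800800d359fbdbd)) (.lf (nat_lit 0x80080181881e083acd)) (.nd (.lf (nat_lit 0x80884686a3aa168931)) (.lf (nat_lit 0x80080181f324d0bbdc)) (.lf (nat_lit 0x8fc73f830e35b11bcd)) (.lf (nat_lit 0x8077cc82f2fcc45c87))) (.lf (nat_lit 0x82377384baad570f0f)) (.lf (nat_lit 0x8007dc81d30ac99c43)) (.lf (nat_lit 0x82bc0fbdbbf18e1c09)))
  _ _ _ (by decide +kernel)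

noncomputable def g2_m52_108 : GD 2 (-52) 108 := chk_sound 
  (.cell (.lf (nat_lit 0x800824819d0ca10dd9)) (.lf (nat_lit 0x8007f486587405ea4f)) (.lf (nat_lit 0x8edc4fbc0bbb960bd5)) (.lf (nat_lit 0x80077e83aab755af05)) (.lf (nat_lit 0x8007d78162ffc8dc43)) (.lf (nat_lit 0x82fbdfbc2c1992ec14)))
  _ _ _ (by decide +kernel)

theorem g3_m56_104 : GD 3 (-56) 104 :=
  GD.split (i := 2) g2_m60_100 g2_m52_100 g2_m60_108 g2_m52_108 (by decide)

noncomputable def g2_m60_116 : GD 2 (-60) 116 := chk_sound 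
  (.cell (.lf (nat_lit 0x819800800ccba40dfe)) (.lf (nat_lit 0x80080181f80b081ac8)) (.lf (nat_lit 0x8b9a9bbe6d2c939ba2)) (.nd (.lf (nat_lit 0x80080882c7bf206d4e)) (.lf (nat_lit 0x8298438a28ea15cc4e)) (.lf (nat_lit 0x82a800800d2483fe1f)) (.lf (nat_lit 0x80089a8d8aa17e3f7b))) (.lf (nat_lit 0x8097d3824300c69c69)) (.nd (.lf (nat_lit 0x822a8aaf8b5f5fadc4)) (.lf (nat_lit 0x80fb87c23c8ea7dabc)) (.lf (nat_lit 0x801800800d938f7da7)) (.lf (nat_lit 0x803843820e12a64c9e))))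
  _ _ _ (by decide +kernel)

noncomputable def g2_m52_116 : GD 2 (-52) 116 := chk_sound 
  (.cell (.lf (nat_lit 0x800818809c8ca66e20)) (.lf (nat_lit 0x8007ff85b7ab0a8b21)) (.lf (nat_lit 0x8eaab3bdfd2294db95)) (.lf (nat_lit 0x800798847af1558eee)) (.lf (nat_lit 0x8007fb8252f4c58c6d)) (.nd (.lf (nat_lit 0x8309d0a2bc4a6d0e03)) (.lf (nat_lit 0x821bcfc96bfe954b46)) (.lf (nat_lit 0x800837807d8a8f8daf)) (.lf (nat_lit 0x81b800800e0ca70ca1))))
  _ _ _ (by decide +kernel)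

noncomputable def g2_m60_124 : GD 2 (-60) 124 := chk_sound 
  (.cell (.lf (nat_lit 0x800822819c31aa8e45)) (.lf (nat_lit 0x8007ff83f7430ddb86)) (.lf (nat_lit 0x824a9abf2d49952b74)) (.lf (nat_lit 0x800800800b525faefd)) (.lf (nat_lit 0x8047e48182edc31c8a)) (.nd (.lf (nat_lit 0x8479f9a7ebcf612df7)) (.lf (nat_lit 0x819b50c23c939f2b57)) (.lf (nat_lit 0x82c800800d95907da2)) (.lf (nat_lit 0x800800800e00a57cbe))))
  _ _ _ (by decide +kernel)

noncomputable def g2_m52_124 : GD 2 (-52) 124 := chk_sound 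
  (.cell (.lf (nat_lit 0x80b828815cd0a17e09)) (.lf (nat_lit 0x8008008006e410ebce)) (.lf (nat_lit 0x83aa8dbd8d6b9bdb34)) (.lf (nat_lit 0x800800800b6768bf17)) (.lf (nat_lit 0x8027da8202e2c1cc91)) (.nd (.lf (nat_lit 0x82790a956c826a0e3c)) (.lf (nat_lit 0x828b04beecc29e7ba0)) (.lf (nat_lit 0x80082c80dd8c906dab)) (.lf (nat_lit 0x80081f81adf8a5fcc3))))
  _ _ _ (by decide +kernel)

theorem g3_m56_120 : GD 3 (-56) 120 :=
  GD.split (i := 2) g2_m60_116 g2_m52_116 g2_m60_124 g2_m52_124 (by decide)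

noncomputable def g2_m44_m140 : GD 2 (-44) (-140) := chk_sound .out
  _ _ _ (by decide +kernel)

noncomputable def g2_m36_m140 : GD 2 (-36) (-140) := chk_sound .out
  _ _ _ (by decide +kernel)

noncomputable def g2_m44_m132 : GD 2 (-44) (-132) := chk_sound 
  (.cell (.lf (nat_lit 0x8007ff8408aef34b66)) (.lf (nat_lit 0x8128008003b7575e41)) (.lf (nat_lit 0x8318f69093f297be95)) (.lf (nat_lit 0x8007e2816d26395c3b)) (.lf (nat_lit 0x8179b0a0b2593c2aa4)) (.lf (nat_lit 0x80eb189c454486ae9b)))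
  _ _ _ (by decide +kernel)

noncomputable def g2_m36_m132 : GD 2 (-36) (-132) := chk_sound 
  (.cell (.lf (nat_lit 0x810800800964ed0bf3)) (.lf (nat_lit 0x80382d816386586e25)) (.lf (nat_lit 0x8007e881241e9f3eb7)) (.lf (nat_lit 0x8077c1837d3d3bec47)) (.lf (nat_lit 0x814af6bc03295adb82)) (.lf (nat_lit 0x81da3f9d652d8c0edb)))
  _ _ _ (by decide +kernel)

theorem g3_m40_m136 : GD 3 (-40) (-136) :=
  GD.split (i := 2) g2_m44_m140 g2_m36_m140 g2_m44_m132 g2_m36_m132 (by decide)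

noncomputable def g2_m44_m124 : GD 2 (-44) (-124) := chk_sound 
  (.cell (.lf (nat_lit 0x8007ff825903f05bb1)) (.lf (nat_lit 0x80080680f30f5d3de6)) (.lf (nat_lit 0x8047e580a3cf979ea6)) (.lf (nat_lit 0x8007cf821d2b3b3c53)) (.lf (nat_lit 0x817aabb652dc4e0b05)) (.lf (nat_lit 0x810b15a765628ade69)))
  _ _ _ (by decide +kernel)

noncomputable def g2_m36_m124 : GD 2 (-36) (-124) := chk_sound 
  (.cell (.lf (nat_lit 0x8008128489b8e95c32)) (.lf (nat_lit 0x80080080034d58adfc)) (.lf (nat_lit 0x8008008003da9b4e9f)) (.lf (nat_lit 0x8057ce824d473e2c5f)) (.nd (.lf (nat_lit 0x825800800246411bf5)) (.lf (nat_lit 0x80082c80b216601cff)) (.lf (nat_lit 0x8008608692c221a92b)) (.lf (nat_lit 0x829aeebed34b6c9c0a))) (.lf (nat_lit 0xa328ae9c751b85bedb)))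
  _ _ _ (by decide +kernel)

noncomputable def g2_m44_m116 : GD 2 (-44) (-116) := chk_sound 
  (.cell (.lf (nat_lit 0x8007ff82794fed5bf1)) (.lf (nat_lit 0x80a82181236d57fe10)) (.lf (nat_lit 0x8008008003cb9b7e95)) (.lf (nat_lit 0x8007cc81cd323d3c6a)) (.lf (nat_lit 0x81ea2fad9296441ac8)) (.lf (nat_lit 0x82bb48a9459988fe5c)))
  _ _ _ (by decide +kernel)

noncomputable def g2_m36_m116 : GD 2 (-36) (-116) := chk_sound 
  (.cell (.lf (nat_lit 0x8008128229fee62c62)) (.lf (nat_lit 0x811800800323577dd2)) (.lf (nat_lit 0x82780080039d973e87)) (.lf (nat_lit 0x8007ff81ad5340ac76)) (.nd (.lf (nat_lit 0x81e910a3d2fa3d3be4)) (.lf (nat_lit 0x80082980a2105f8cf4)) (.lf (nat_lit 0x80082383f32b1af8c9)) (.lf (nat_lit 0x82cadec0034a722c19))) (.lf (nat_lit 0x9e089f9934c783dede)))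
  _ _ _ (by decide +kernel)

theorem g3_m40_m120 : GD 3 (-40) (-120) :=
  GD.split (i := 2) g2_m44_m124 g2_m36_m124 g2_m44_m116 g2_m36_m116 (by decide)

noncomputable def g2_m44_m108 : GD 2 (-44) (-108) := chk_sound 
  (.cell (.lf (nat_lit 0x80380e83c990ea7c26)) (.lf (nat_lit 0x82d800800313595dd1)) (.lf (nat_lit 0x80080180338696be79)) (.lf (nat_lit 0x8067d681ed3a3f6c81)) (.nd (.lf (nat_lit 0x83272d8f52194a4c06)) (.lf (nat_lit 0x80081d8141f45a0ca9)) (.lf (nat_lit 0x80684c84823e2eaa2f)) (.lf (nat_lit 0x81eafbc213516b9bcd))) (.lf (nat_lit 0x822b06ab754b887e50)))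
  _ _ _ (by decide +kernel)

noncomputable def g2_m36_m108 : GD 2 (-36) (-108) := chk_sound 
  (.cell (.lf (nat_lit 0x80080f818a37e35c87)) (.lf (nat_lit 0x8288008003b14d7df3)) (.lf (nat_lit 0x8007ff81136292fe6c)) (.lf (nat_lit 0x8047cd828d5d437c90)) (.nd (.lf (nat_lit 0x8ec97bb332d253bc06)) (.lf (nat_lit 0x80082481420d5e3ce8)) (.lf (nat_lit 0x8038258293031e9963)) (.lf (nat_lit 0x82dab5c0f327703bf5))) (.lf (nat_lit 0x82aa6aa7953f86fea7)))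
  _ _ _ (by decide +kernel)

noncomputable def g2_m44_m100 : GD 2 (-44) (-100) := chk_sound 
  (.cell (.lf (nat_lit 0x80080e8269c7e7fc4f)) (.lf (nat_lit 0x80081081e37b52adf5)) (.lf (nat_lit 0x8328ce90b36796de3f)) (.lf (nat_lit 0x8007c9820d4041cc9b)) (.nd (.lf (nat_lit 0x8207c4977215477bc5)) (.lf (nat_lit 0x80082c8081f3588c9b)) (.lf (nat_lit 0x80784f84a22f310a5c)) (.lf (nat_lit 0x817acfc0d31767fba5))) (.lf (nat_lit 0x82aad7ac551787ae49)))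
  _ _ _ (by decide +kernel)

noncomputable def g2_m36_m100 : GD 2 (-36) (-100) := chk_sound 
  (.cell (.lf (nat_lit 0x80080681c9eee68c61)) (.lf (nat_lit 0x80080181234d4d1da2)) (.lf (nat_lit 0x8008008003298e8e4d)) (.lf (nat_lit 0x80a7d581ed67468cac)) (.nd (.lf (nat_lit 0x8338409ba2393eeb4e)) (.lf (nat_lit 0x81083781520b5cecdc)) (.lf (nat_lit 0x810a03ab7233441a34)) (.lf (nat_lit 0x80bab3c1131b6f8be3))) (.lf (nat_lit 0x825ab9a9d59c878e9e)))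
  _ _ _ (by decide +kernel)

theorem g3_m40_m104 : GD 3 (-40) (-104) :=
  GD.split (i := 2) g2_m44_m108 g2_m36_m108 g2_m44_m100 g2_m36_m100 (by decide)

noncomputable def g2_m44_m92 : GD 2 (-44) (-92) := chk_sound 
  (.cell (.lf (nat_lit 0x8008138259f2e5dc6f)) (.lf (nat_lit 0x80081a81e315537da8)) (.lf (nat_lit 0x80095f9c137a98de03)) (.lf (nat_lit 0x8007d7826d44445cb8)) (.nd (.lf (nat_lit 0x85e75b8b320c411b77)) (.lf (nat_lit 0x8428008001f1576c8e)) (.lf (nat_lit 0x80382281a221324a6a)) (.lf (nat_lit 0x800a86bdd2dc5bfb57))) (.lf (nat_lit 0x80baa2abe4f1870e52)))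
  _ _ _ (by decide +kernel)

noncomputable def g2_m36_m92 : GD 2 (-36) (-92) := chk_sound 
  (.cell (.lf (nat_lit 0x8188a28c698ee8ec31)) (.lf (nat_lit 0x80081882c3a744bd98)) (.lf (nat_lit 0x83490f96e33d94be09)) (.lf (nat_lit 0x8007db81ed6f49fccb)) (.nd (.lf (nat_lit 0x99c8cc83526342cbd0)) (.lf (nat_lit 0x8008158182045b9cca)) (.lf (nat_lit 0x829abebef2bc61cb1b)) (.lf (nat_lit 0x828a6ec222fd6b1bc2))) (.lf (nat_lit 0x818a4ca85540856eaf)))
  _ _ _ (by decide +kernel)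

noncomputable def g2_m44_m84 : GD 2 (-44) (-84) := chk_sound 
  (.cell (.lf (nat_lit 0x8007ff8229b2e93c39)) (.lf (nat_lit 0x80782281835d4d5db1)) (.lf (nat_lit 0x82e989a07344950dc6)) (.lf (nat_lit 0x8007c782ed44471cd9)) (.lf (nat_lit 0x826a21afe29b449abf)) (.lf (nat_lit 0x825a2fa9f4ac882e67)))
  _ _ _ (by decide +kernel)

noncomputable def g2_m36_m84 : GD 2 (-36) (-84) := chk_sound 
  (.cell (.lf (nat_lit 0x82398da7973adf5c66)) (.lf (nat_lit 0x8008008002fe486d2d)) (.lf (nat_lit 0x8008e493e2db8ccde0)) (.lf (nat_lit 0x8087dc819d764ddced)) (.nd (.lf (nat_lit 0x8447b5a5d24948abb0)) (.lf (nat_lit 0x80083680b2275c1cf8)) (.lf (nat_lit 0x81895cac623044faa5)) (.lf (nat_lit 0x827abbbef30764aba8))) (.lf (nat_lit 0x82b9b0a414c8832ec1)))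
  _ _ _ (by decide +kernel)

theorem g3_m40_m88 : GD 3 (-40) (-88) :=
  GD.split (i := 2) g2_m44_m92 g2_m36_m92 g2_m44_m84 g2_m36_m84 (by decide)

noncomputable def g2_m44_m76 : GD 2 (-44) (-76) := chk_sound 
  (.cell (.lf (nat_lit 0x8268838cd918eefbb6)) (.lf (nat_lit 0x80080181d39647ddab)) (.lf (nat_lit 0x825a00ae2332901d3f)) (.lf (nat_lit 0x8007d4829d444a0cfb)) (.nd (.lf (nat_lit 0x8be67f86e2353deb36)) (.lf (nat_lit 0x83580080020257aca7)) (.lf (nat_lit 0x80082d8322242f5a07)) (.lf (nat_lit 0x800963a2e293358a7b))) (.lf (nat_lit 0x81f98ba3844b8eee7c)))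
  _ _ _ (by decide +kernel)

noncomputable def g2_m36_m76 : GD 2 (-36) (-76) := chk_sound 
  (.cell (.lf (nat_lit 0x83e9f8b4e44db2ed08)) (.lf (nat_lit 0x80082382231e42cd0b)) (.lf (nat_lit 0x80f89e8ea282847db3)) (.lf (nat_lit 0x8007e7815d7e525d10)) (.nd (.lf (nat_lit 0x8cda4d8732a93d4b73)) (.lf (nat_lit 0x82d80080022a58fce4)) (.lf (nat_lit 0x8358849141ea3a3a88)) (.nd (.lf (nat_lit 0x80b82f8242043c5b31)) (.lf (nat_lit 0x8008218161d4629cbd)) (.lf (nat_lit 0x81f97baa32aa39eaab)) (.lf (nat_lit 0x83ea7ac0131079fc27)))) (.lf (nat_lit 0x9709029e3499841ec3)))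
  _ _ _ (by decide +kernel)

noncomputable def g2_m44_m68 : GD 2 (-44) (-68) := chk_sound 
  (.cell (.lf (nat_lit 0x82dacfccb390709b87)) (.lf (nat_lit 0x80382981b2e34b6d31)) (.lf (nat_lit 0x827a99be33327ddc5b)) (.lf (nat_lit 0x8007ce812d434d3d1d)) (.nd (.lf (nat_lit 0x9247ef83721a374aac)) (.lf (nat_lit 0x8008018121e1518c3f)) (.lf (nat_lit 0x82e8008002372f1a34)) (.lf (nat_lit 0x82688291924432fa87))) (.lf (nat_lit 0x812982a5c50fa0fe93)))
  _ _ _ (by decide +kernel)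

noncomputable def g1_m38_m70 : GD 1 (-38) (-70) := chk_sound 
  (.cell (.lf (nat_lit 0x83ca5dc08409a20cac)) (.lf (nat_lit 0x80080d82a3f4384d3d)) (.lf (nat_lit 0x80080180926f7b9dbc)) (.lf (nat_lit 0x8007da80cd72539d28)) (.nd (.lf (nat_lit 0x84379aa5c28a3d0b4a)) (.lf (nat_lit 0x80082e81e224561cc4)) (.lf (nat_lit 0x823937a8b2003fc9f7)) (.lf (nat_lit 0x82e9b6a722154bdb0f))) (.lf (nat_lit 0x99d833934458887ecd)))
  _ _ _ (by decide +kernel)

noncomputable def g1_m34_m70 : GD 1 (-34) (-70) := chk_sound 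
  (.cell (.lf (nat_lit 0x820a55c0a3ce9edc92)) (.lf (nat_lit 0x8268008003773afcf9)) (.lf (nat_lit 0x80082180927d7b3dc9)) (.lf (nat_lit 0x80a7d5816d9258dd30)) (.nd (.lf (nat_lit 0x80881c81929133cb6b)) (.lf (nat_lit 0x80083081c23d564ce4)) (.lf (nat_lit 0x8008438261e5390aa0)) (.lf (nat_lit 0x829a6bb9028861ab73))) (.lf (nat_lit 0x8396b282a47b845f0d)))
  _ _ _ (by decide +kernel)

noncomputable def g1_m38_m66 : GD 1 (-38) (-66) := chk_sound 
  (.cell (.lf (nat_lit 0x838a98c923a58a3c1e)) (.lf (nat_lit 0x80082682840a35bd2a)) (.lf (nat_lit 0x81a80080022879ed72)) (.lf (nat_lit 0x822800800d72560d3c)) (.nd (.lf (nat_lit 0x826755a152ab37ab34)) (.lf (nat_lit 0x806847821227545cb7)) (.lf (nat_lit 0x82b8709ee1fa3a7a32)) (.lf (nat_lit 0x8319379e720342bae1))) (.lf (nat_lit 0x9987cd8e24328cdebf)))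
  _ _ _ (by decide +kernel)

noncomputable def g1_m34_m66 : GD 1 (-34) (-66) := chk_sound 
  (.cell (.lf (nat_lit 0x82ca78c653858efc32)) (.lf (nat_lit 0x805833837391392cf6)) (.lf (nat_lit 0x80081c80626977fdb2)) (.lf (nat_lit 0x8007dd807d925bdd46)) (.nd (.lf (nat_lit 0x824761a8f2d838ab3e)) (.lf (nat_lit 0x80082e82023e545cd4)) (.lf (nat_lit 0x8008508311d539ba8b)) (.lf (nat_lit 0x81ba49b8c28b5bcb5a))) (.lf (nat_lit 0x8009089244748f8eef)))
  _ _ _ (by decide +kernel)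

theorem g2_m36_m68 : GD 2 (-36) (-68) :=
  GD.split (i := 1) g1_m38_m70 g1_m34_m70 g1_m38_m66 g1_m34_m66 (by decide)

theorem g3_m40_m72 : GD 3 (-40) (-72) :=
  GD.split (i := 2) g2_m44_m76 g2_m36_m76 g2_m44_m68 g2_m36_m68 (by decide)

noncomputable def g1_m46_m62 : GD 1 (-46) (-62) := chk_sound 
  (.cell (.lf (nat_lit 0x80080d831929f37b3e)) (.lf (nat_lit 0x80081f81033e498d73)) (.lf (nat_lit 0x83babec0d330776c11)) (.lf (nat_lit 0x8007c380cd314d1d2e)) (.nd (.lf (nat_lit 0x8f083783714d451a21)) (.lf (nat_lit 0x87271385e1f04f3c16)) (.lf (nat_lit 0x90e87281e1983c09e0)) (.lf (nat_lit 0x847844919251314a77))) (.lf (nat_lit 0x82b8989104abadae93)))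
  _ _ _ (by decide +kernel)

noncomputable def g1_m42_m62 : GD 1 (-42) (-62) := chk_sound 
  (.cell (.lf (nat_lit 0x82bacdcc137d6cdb6c)) (.lf (nat_lit 0x80080181d356404d21)) (.lf (nat_lit 0x800a9dc1831571fbed)) (.lf (nat_lit 0x800800800d50528d42)) (.nd (.lf (nat_lit 0x80072483928b2fdae0)) (.lf (nat_lit 0x80083b8241ec4fac38)) (.lf (nat_lit 0x8038568462492e6a41)) (.lf (nat_lit 0x82b8af94d225356a65))) (.lf (nat_lit 0x82392ba174afa21e89)))
  _ _ _ (by decide +kernel)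

noncomputable def g1_m46_m58 : GD 1 (-46) (-58) := chk_sound 
  (.cell (.lf (nat_lit 0x80082d86eb81f218cb)) (.lf (nat_lit 0x80082782333d4a5d7a)) (.lf (nat_lit 0x81eac9c313216b8bab)) (.lf (nat_lit 0x8007cb815d2d4e8d40)) (.nd (.lf (nat_lit 0x8c953d8852403f6a76)) (.lf (nat_lit 0x80082381c1c94d4be7)) (.lf (nat_lit 0x95a73e84b1524419ad)) (.lf (nat_lit 0x80081e82b2752baa51))) (.lf (nat_lit 0x8007ea820432adfe6c)))
  _ _ _ (by decide +kernel)

noncomputable def g1_m42_m58 : GD 1 (-42) (-58) := chk_sound 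
  (.cell (.lf (nat_lit 0x821aeecd939869cb3e)) (.lf (nat_lit 0x80080181835d3ead13)) (.lf (nat_lit 0x829aa4c3e320668b90)) (.lf (nat_lit 0x82a800800d49546d58)) (.nd (.lf (nat_lit 0x8a170284b260329ab9)) (.lf (nat_lit 0x8417d38321e84ecc26)) (.lf (nat_lit 0x80083f8321db35aa1e)) (.lf (nat_lit 0x80a82f82a215337a71))) (.lf (nat_lit 0x8328b5975430a38e78)))
  _ _ _ (by decide +kernel)

theorem g2_m44_m60 : GD 2 (-44) (-60) :=
  GD.split (i := 1) g1_m46_m62 g1_m42_m62 g1_m46_m58 g1_m42_m58 (by decide)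

noncomputable def g1_m38_m62 : GD 1 (-38) (-62) := chk_sound 
  (.cell (.lf (nat_lit 0x82eabacbc38c7a7bc2)) (.lf (nat_lit 0x80582e8273413fad05)) (.lf (nat_lit 0x83280080021275bd53)) (.lf (nat_lit 0x8007da81ad6e588d53)) (.nd (.lf (nat_lit 0xa0f8c7811312312b3d)) (.lf (nat_lit 0x80b82581022352bca4)) (.lf (nat_lit 0x80082883020c339a5f)) (.lf (nat_lit 0x8379a7a7c236457ad9))) (.lf (nat_lit 0x82291aa53493973e99)))
  _ _ _ (by decide +kernel)

noncomputable def g1_m34_m62 : GD 1 (-34) (-62) := chk_sound 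
  (.cell (.nd (.lf (nat_lit 0x80082e815d14974e01)) (.lf (nat_lit 0x81280683a77edf4d50)) (.lf (nat_lit 0x80681c820d69d57a7a)) (.nd (.lf (nat_lit 0x80081683095bebfc12)) (.lf (nat_lit 0x8037ea814438c2edac)) (.lf (nat_lit 0x8008678c2b98f1585e)) (.lf (nat_lit 0x82daa2c7f34d78bbcf)))) (.lf (nat_lit 0x8008378253ad380cff)) (.lf (nat_lit 0x836800800253742d95)) (.lf (nat_lit 0x8007e3817d8c5eed60)) (.nd (.lf (nat_lit 0x82172ba3b2c836fb31)) (.lf (nat_lit 0x800836820237529cbb)) (.lf (nat_lit 0x8008528411a83cfa72)) (.lf (nat_lit 0x8359fdb2e25553ab2b))) (.lf (nat_lit 0x81f935a6055a924ef8)))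
  _ _ _ (by decide +kernel)

noncomputable def g1_m38_m58 : GD 1 (-38) (-58) := chk_sound 
  (.cell (.nd (.lf (nat_lit 0x8407ec830d2f8b3e0b)) (.lf (nat_lit 0x82980f85b755e31d01)) (.lf (nat_lit 0x92d9f7863d19d2aa6e)) (.nd (.lf (nat_lit 0x80080182894feddbe3)) (.lf (nat_lit 0x81f915a01466c45d40)) (.lf (nat_lit 0x80082c870a55f5da05)) (.lf (nat_lit 0x81fab7c9335e633b4f)))) (.lf (nat_lit 0x80083281b3493ddcf5)) (.lf (nat_lit 0x8008008001f9710d2c)) (.lf (nat_lit 0x82e800800d645add6e)) (.nd (.lf (nat_lit 0x8476e08c027e328adf)) (.lf (nat_lit 0x8008398111f54eac3a)) (.lf (nat_lit 0x80083e8302492dfa36)) (.lf (nat_lit 0x80093d9f121d3ecab7))) (.lf (nat_lit 0x81192ca594c19cfe94)))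
  _ _ _ (by decide +kernel)

noncomputable def g1_m34_m58 : GD 1 (-34) (-58) := chk_sound 
  (.cell (.nd (.lf (nat_lit 0x80081e816cdf9b1e1d)) (.lf (nat_lit 0x82489b8f46b8dcfd39)) (.lf (nat_lit 0x80082d837dafd0ca78)) (.lf (nat_lit 0x800a8ac7f326716b98))) (.lf (nat_lit 0x8008008003bc378d06)) (.lf (nat_lit 0x80082580d2386fad6e)) (.lf (nat_lit 0x800800800d7e61bd7f)) (.nd (.lf (nat_lit 0x84e652ae52aa414af8)) (.lf (nat_lit 0x809827816223511c93)) (.lf (nat_lit 0x80084581f14a453a4e)) (.lf (nat_lit 0x83199aa651d4508af4))) (.lf (nat_lit 0x82c8cea004dc943eeb)))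
  _ _ _ (by decide +kernel)

theorem g2_m36_m60 : GD 2 (-36) (-60) :=
  GD.split (i := 1) g1_m38_m62 g1_m34_m62 g1_m38_m58 g1_m34_m58 (by decide)

noncomputable def g1_m46_m54 : GD 1 (-46) (-54) := chk_sound 
  (.cell (.lf (nat_lit 0x80095ca33406190812)) (.lf (nat_lit 0x8008198273354c4d86)) (.lf (nat_lit 0x826aa4c102fc5b0b28)) (.lf (nat_lit 0x8087d3819d264fdd53)) (.nd (.lf (nat_lit 0x80c67b8530eb549a00)) (.lf (nat_lit 0x89965f87220d4c3bdb)) (.lf (nat_lit 0x92d6688720d257094f)) (.lf (nat_lit 0x8008448322702b3a31))) (.lf (nat_lit 0x8068008003e1acee41)))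
  _ _ _ (by decide +kernel)

noncomputable def g1_m42_m54 : GD 1 (-42) (-54) := chk_sound 
  (.cell (.lf (nat_lit 0x833b33d5d416661aa5)) (.lf (nat_lit 0x80080182335b3dfd08)) (.nd (.lf (nat_lit 0x80082480d23e71ad7a)) (.lf (nat_lit 0x80683380f1fc5efcd8)) (.lf (nat_lit 0x8007e681334ea62e05)) (.lf (nat_lit 0x824a60bdf2d15c6b64))) (.lf (nat_lit 0x81e800800d3e561d71)) (.nd (.lf (nat_lit 0x8a06c78621f03c0aaa)) (.lf (nat_lit 0x80084381c1c94b4bcb)) (.lf (nat_lit 0x80583781f15a4019ed)) (.lf (nat_lit 0x81483c8b8203349a4c))) (.lf (nat_lit 0x8017f28063ada22e61)))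
  _ _ _ (by decide +kernel)

noncomputable def g1_m46_m50 : GD 1 (-46) (-50) := chk_sound 
  (.cell (.lf (nat_lit 0x80084085dc01ee8822)) (.lf (nat_lit 0x8008008003234e2d88)) (.nd (.lf (nat_lit 0x80082880c220726d5b)) (.lf (nat_lit 0x80082581b1e25e1cb1)) (.lf (nat_lit 0x8007ff80e3a8b46ddd)) (.lf (nat_lit 0x82da7ebd82d7557b0b))) (.lf (nat_lit 0x8007d1809d1b50ed67)) (.nd (.lf (nat_lit 0x80079e839e953cb9a7)) (.lf (nat_lit 0x82b64a87720d4c9be1)) (.lf (nat_lit 0x80f7d8805ff275d89d)) (.lf (nat_lit 0x80083483a24a2e4a44))) (.lf (nat_lit 0x8238008003a6ac1e1e)))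
  _ _ _ (by decide +kernel)

noncomputable def g1_m42_m50 : GD 1 (-42) (-50) := chk_sound 
  (.cell (.nd (.lf (nat_lit 0x81e724935cd691ce18)) (.lf (nat_lit 0x8008008287ace6ecbe)) (.lf (nat_lit 0x837587a30db3affb66)) (.lf (nat_lit 0x82caf8cfb3d8518a25))) (.lf (nat_lit 0x80a824821346401d10)) (.nd (.lf (nat_lit 0x8008018082246edd56)) (.lf (nat_lit 0x80083581d1eb5cdcb3)) (.lf (nat_lit 0x8007e38192ea9d4de5)) (.lf (nat_lit 0x814985a8821e585bce))) (.lf (nat_lit 0x8007ff81dd2d577d8b)) (.nd (.lf (nat_lit 0x80079e8030138728e2)) (.lf (nat_lit 0x89d6248952144bfbc2)) (.lf (nat_lit 0x94864b87205f728887)) (.lf (nat_lit 0x8138b0976200380a41))) (.lf (nat_lit 0x8298ad98d43fac6e45)))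
  _ _ _ (by decide +kernel)

theorem g2_m44_m52 : GD 2 (-44) (-52) :=
  GD.split (i := 1) g1_m46_m54 g1_m42_m54 g1_m46_m50 g1_m42_m50 (by decide)

noncomputable def g1_m38_m54 : GD 1 (-38) (-54) := chk_sound 
  (.cell (.nd (.lf (nat_lit 0x81d7f381bd078d7e29)) (.lf (nat_lit 0x8218b59296b2e17cd4)) (.lf (nat_lit 0xa0875083cd99cada78)) (.lf (nat_lit 0x810a96c9d347632b3a))) (.lf (nat_lit 0x8008258283463c3cdc)) (.lf (nat_lit 0x80583480e2116c1d36)) (.lf (nat_lit 0x8007db811d535ced8c)) (.nd (.lf (nat_lit 0x88172489718344faa0)) (.lf (nat_lit 0x81a8008001dd4e1c11)) (.lf (nat_lit 0x8308328291cf373a31)) (.lf (nat_lit 0x81c8c19501ce3e5a88))) (.lf (nat_lit 0x8278d19e243f9e7e7c)))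
  _ _ _ (by decide +kernel)

noncomputable def g1_m34_m54 : GD 1 (-34) (-54) := chk_sound 
  (.cell (.nd (.lf (nat_lit 0x80083580dc9b9e7e41)) (.lf (nat_lit 0x8459179e0505cb6d4e)) (.lf (nat_lit 0x82e800800debcbaa8f)) (.lf (nat_lit 0x81faa0cb837c6deb9f))) (.lf (nat_lit 0x85693b8863f937dd0c)) (.lf (nat_lit 0x80082381421a6a5d3a)) (.lf (nat_lit 0x8007ff815d65642da4)) (.nd (.lf (nat_lit 0x8535eea521ca51eab3)) (.lf (nat_lit 0x8007ff80c2004fec59)) (.lf (nat_lit 0x80c84c81d0c55369f2)) (.lf (nat_lit 0x83a92a9bb1894cfac1))) (.lf (nat_lit 0x82485791c443940edc)))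
  _ _ _ (by decide +kernel)

noncomputable def g1_m38_m50 : GD 1 (-38) (-50) := chk_sound 
  (.cell (.nd (.lf (nat_lit 0x800801811cd68eee4d)) (.lf (nat_lit 0x83c97eaa1568d08cc5)) (.lf (nat_lit 0x8645ed950e36b02b30)) (.lf (nat_lit 0x80aac2cf33995dbace))) (.lf (nat_lit 0x8068218273ba328cb6)) (.lf (nat_lit 0x8348008001f466bcfc)) (.lf (nat_lit 0x825800800d395e6dae)) (.nd (.lf (nat_lit 0x8238008000b35b1a4d)) (.lf (nat_lit 0x8008338091e44f8c2c)) (.lf (nat_lit 0x81586982c0ba5369c0)) (.lf (nat_lit 0x8098388291e537aa7a))) (.lf (nat_lit 0x8298598e83ae9e1e63)))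
  _ _ _ (by decide +kernel)

noncomputable def g1_m34_m50 : GD 1 (-34) (-50) := chk_sound 
  (.cell (.nd (.lf (nat_lit 0x80080f815c4ba11e6c)) (.lf (nat_lit 0x8269b2ac64afc22d08)) (.lf (nat_lit 0x84a7bc81ce4bb89b6b)) (.lf (nat_lit 0x835ae6ccb38d5b6abe))) (.lf (nat_lit 0x81b8028fb43b2ddcbb)) (.lf (nat_lit 0x8008018151f9644cf6)) (.lf (nat_lit 0x8007f4813d4065cdce)) (.nd (.lf (nat_lit 0x8552edb302fc6f394b)) (.lf (nat_lit 0x8008218221d04f0c08)) (.lf (nat_lit 0x8278c281e02b6c88b6)) (.lf (nat_lit 0x80084381117a48db12))) (.lf (nat_lit 0x8007db8033b0912ea6)))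
  _ _ _ (by decide +kernel)

theorem g2_m36_m52 : GD 2 (-36) (-52) :=
  GD.split (i := 1) g1_m38_m54 g1_m34_m54 g1_m38_m50 g1_m34_m50 (by decide)

theorem g3_m40_m56 : GD 3 (-40) (-56) :=
  GD.split (i := 2) g2_m44_m60 g2_m36_m60 g2_m44_m52 g2_m36_m52 (by decide)

noncomputable def g1_m46_m46 : GD 1 (-46) (-46) := chk_sound 
  (.cell (.lf (nat_lit 0x8098798b239216885e)) (.lf (nat_lit 0x80083482230550fd85)) (.lf (nat_lit 0x7f9a6dbbc2d94e5ad2)) (.lf (nat_lit 0x8007d4822d0c51bd7c)) (.nd (.lf (nat_lit 0x8007d4815d0f48dd24)) (.lf (nat_lit 0x8a566186820d4d8bec)) (.lf (nat_lit 0x80d7bf81bec257eb74)) (.lf (nat_lit 0x80883f83b2342eba19))) (.lf (nat_lit 0x8007e180e376ab9dfe)))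
  _ _ _ (by decide +kernel)

noncomputable def g1_m42_m46 : GD 1 (-42) (-46) := chk_sound 
  (.cell (.lf (nat_lit 0x820affd233f053da1c)) (.lf (nat_lit 0x80083581732d429d17)) (.lf (nat_lit 0x834953a381f95babf8)) (.lf (nat_lit 0x8047e3810d15584da7)) (.nd (.lf (nat_lit 0x8007e1825e703bfa17)) (.lf (nat_lit 0x8dc5f08652234c8bc0)) (.lf (nat_lit 0x84581f863fd976e957)) (.lf (nat_lit 0x8398008a01df368a33))) (.lf (nat_lit 0x80e86d9083bdabfe15)))
  _ _ _ (by decide +kernel)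

noncomputable def g1_m46_m42 : GD 1 (-46) (-42) := chk_sound 
  (.cell (.lf (nat_lit 0x80d9009b2bf3eab818)) (.lf (nat_lit 0x82083988a2e752ad70)) (.lf (nat_lit 0x82faaac1b2fa5d0b28)) (.lf (nat_lit 0x8007cf820cf9521d90)) (.nd (.lf (nat_lit 0x8007d5822cfe4abd48)) (.lf (nat_lit 0x92d7828171ec4e5bf7)) (.lf (nat_lit 0x8007f780cd5050dd33)) (.lf (nat_lit 0x80f850847222300a16))) (.lf (nat_lit 0x80080080034fab5de2)))
  _ _ _ (by decide +kernel)

noncomputable def g1_m42_m42 : GD 1 (-42) (-42) := chk_sound 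
  (.cell (.lf (nat_lit 0x822b7ade34d85d799c)) (.lf (nat_lit 0x82f8849cd32a4a8d16)) (.lf (nat_lit 0x8007ff8071bc601c8d)) (.lf (nat_lit 0x8007ff817cf8588dc2)) (.nd (.lf (nat_lit 0x8007e181ed8b457c73)) (.lf (nat_lit 0x8e36af8281e54d1bbe)) (.lf (nat_lit 0x8007a080ef19681b59)) (.lf (nat_lit 0x8ac79a8351d7380a42))) (.lf (nat_lit 0x80a7d481a350aa7de9)))
  _ _ _ (by decide +kernel)

theorem g2_m44_m44 : GD 2 (-44) (-44) :=
  GD.split (i := 1) g1_m46_m46 g1_m42_m46 g1_m46_m42 g1_m42_m42 (by decide)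

noncomputable def g1_m38_m46 : GD 1 (-38) (-46) := chk_sound 
  (.cell (.nd (.lf (nat_lit 0x800823811c9493ae71)) (.lf (nat_lit 0x800a05b7554ec9bc69)) (.lf (nat_lit 0x84c6da8e0e77a86bb1)) (.lf (nat_lit 0x800b0fd6142158ca29))) (.lf (nat_lit 0x81680080039e32dca2)) (.lf (nat_lit 0x80883d8101d760fcb6)) (.lf (nat_lit 0x8047d9812d165f3dd2)) (.nd (.lf (nat_lit 0x92762e830e8d44498d)) (.lf (nat_lit 0x80083e8291be4eabe6)) (.lf (nat_lit 0x85387398ffa07889b0)) (.lf (nat_lit 0x83c87a8e318c414a6c))) (.lf (nat_lit 0x8168b29a3431a73e59)))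
  _ _ _ (by decide +kernel)

noncomputable def g1_m34_m46 : GD 1 (-34) (-46) := chk_sound 
  (.cell (.nd (.lf (nat_lit 0x80080a817beea2be9e)) (.lf (nat_lit 0x823a3fb78483b9eca6)) (.lf (nat_lit 0x80081c817e48a8fc3c)) (.lf (nat_lit 0x81996fa2128f2ff9a5))) (.lf (nat_lit 0x83878c98a47a2a4c7f)) (.lf (nat_lit 0x80083280c1d95daca2)) (.lf (nat_lit 0x8007ed80ed0f664dfb)) (.lf (nat_lit 0x84a8fe8ec0a3672a53)) (.lf (nat_lit 0x81d83d8cc41697eec3)))
  _ _ _ (by decide +kernel)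

noncomputable def g1_m38_m42 : GD 1 (-38) (-42) := chk_sound 
  (.cell (.lf (nat_lit 0x830b85e275107f4a41)) (.lf (nat_lit 0x81f8249bc3b5381cb8)) (.lf (nat_lit 0x80081a8031ba5afc62)) (.lf (nat_lit 0x8007ff810cec5f1df5)) (.nd (.lf (nat_lit 0x88a85a841e1a48cbc9)) (.lf (nat_lit 0x81384f8271974d4b90)) (.lf (nat_lit 0x83b8238efef46f0bae)) (.lf (nat_lit 0x80c85683d18b3eda58))) (.lf (nat_lit 0x80983689437ea56e26)))
  _ _ _ (by decide +kernel)

noncomputable def g1_m34_m42 : GD 1 (-34) (-42) := chk_sound 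
  (.cell (.lf (nat_lit 0x838b6cde3538987abd)) (.lf (nat_lit 0x9037f39944772a1c5f)) (.lf (nat_lit 0x80282b8141b956cc3a)) (.lf (nat_lit 0x81c800800cd3655e28)) (.lf (nat_lit 0x840a2f91e0c46d0a08)) (.lf (nat_lit 0x8007ff80d35d92be69)))
  _ _ _ (by decide +kernel)

theorem g2_m36_m44 : GD 2 (-36) (-44) :=
  GD.split (i := 1) g1_m38_m46 g1_m34_m46 g1_m38_m42 g1_m34_m42 (by decide)

noncomputable def g1_m46_m38 : GD 1 (-46) (-38) := chk_sound 
  (.cell (.lf (nat_lit 0x805849893b94f188a3)) (.lf (nat_lit 0x81684f8ba2c2554d5c)) (.lf (nat_lit 0x82baa1c0d2e86e2baa)) (.lf (nat_lit 0x8077de814ce4520da3)) (.nd (.lf (nat_lit 0x8007d7804cea4b8d63)) (.lf (nat_lit 0x80081e81c1c24c2bcd)) (.lf (nat_lit 0x8037d3821d2b50dd57)) (.lf (nat_lit 0x80b8578502202f69f5))) (.lf (nat_lit 0x800897927411bd9da8)))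
  _ _ _ (by decide +kernel)

noncomputable def g1_m42_m38 : GD 1 (-42) (-38) := chk_sound 
  (.cell (.lf (nat_lit 0x81dbe2e79768a2696b)) (.lf (nat_lit 0x81589ca0930e4cccf9)) (.lf (nat_lit 0x83f96da31206691c65)) (.lf (nat_lit 0x8007d9804cd6581ddc)) (.nd (.lf (nat_lit 0x8097d981ad0b4e1d5d)) (.lf (nat_lit 0x80085181f1a54bab92)) (.lf (nat_lit 0x8027c681edae5aad1e)) (.lf (nat_lit 0x8048598461d0368a17))) (.lf (nat_lit 0x8198008002fba7adb6)))
  _ _ _ (by decide +kernel)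

noncomputable def g1_m46_m34 : GD 1 (-46) (-34) := chk_sound 
  (.cell (.lf (nat_lit 0x804819845b03f4c93e)) (.lf (nat_lit 0x80084789b292584d47)) (.lf (nat_lit 0x82bab7bf12f1770be4)) (.lf (nat_lit 0x800800800cce519db2)) (.nd (.lf (nat_lit 0x8007e081bcd24bfd7d)) (.lf (nat_lit 0x80084382d1c3487b97)) (.lf (nat_lit 0x8007ff81bd0e506d6f)) (.lf (nat_lit 0x8098658532302d19be))) (.lf (nat_lit 0x84181f8703d2bc6da8)))
  _ _ _ (by decide +kernel)

noncomputable def g1_m42_m34 : GD 1 (-42) (-34) := chk_sound 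
  (.cell (.lf (nat_lit 0x834b48d2b8b2ccd9b6)) (.nd (.lf (nat_lit 0x81880080046c6a1f05)) (.lf (nat_lit 0x8008318081ef66ecf7)) (.lf (nat_lit 0x8007ff82a7a732ee5f)) (.lf (nat_lit 0x8008238221c650ac0c))) (.lf (nat_lit 0x828a26b3927e77bc48)) (.lf (nat_lit 0x8037df819cb3571df1)) (.nd (.lf (nat_lit 0x823800800ce94ebd82)) (.lf (nat_lit 0x80083d82c199484b47)) (.lf (nat_lit 0x8007cd80dd3657bd84)) (.lf (nat_lit 0x8008428281d93339b8))) (.lf (nat_lit 0x82187f91e384b6ad8a)))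
  _ _ _ (by decide +kernel)

theorem g2_m44_m36 : GD 2 (-44) (-36) :=
  GD.split (i := 1) g1_m46_m38 g1_m42_m38 g1_m46_m34 g1_m42_m34 (by decide)

noncomputable def g2_m36_m36 : GD 2 (-36) (-36) := chk_sound 
  (.cell (.nd (.lf (nat_lit 0x8008138199c5be8ec0)) (.lf (nat_lit 0x840b03cc14e8b16ba1)) (.lf (nat_lit 0x800833822d6dae1d1e)) (.lf (nat_lit 0x824b4bda644875baa3))) (.nd (.lf (nat_lit 0x8008068225324dfece)) (.lf (nat_lit 0x80082f821254595d17)) (.lf (nat_lit 0x8007e783a9831f6d04)) (.lf (nat_lit 0x80083d8291bf4b8bbe))) (.lf (nat_lit 0x828991a86221628c27)) (.lf (nat_lit 0x823800800c895f5e43)) (.nd (.lf (nat_lit 0x8087c7817e84554bc8)) (.lf (nat_lit 0x80c84c82413f4a3aa1)) (.lf (nat_lit 0x8007d980bea471dc5d)) (.lf (nat_lit 0x8008498361923c9a2c))) (.lf (nat_lit 0x8156848952f59e9db0)))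
  _ _ _ (by decide +kernel)

theorem g3_m40_m40 : GD 3 (-40) (-40) :=
  GD.split (i := 2) g2_m44_m44 g2_m36_m44 g2_m44_m36 g2_m36_m36 (by decide)

noncomputable def g2_m44_m28 : GD 2 (-44) (-28) := chk_sound 
  (.cell (.lf (nat_lit 0x81da79c1d9ccdf7974)) (.nd (.lf (nat_lit 0x82d78885534b771e6a)) (.lf (nat_lit 0x8008208111c76d9ce3)) (.lf (nat_lit 0x82380080033f51edbf)) (.lf (nat_lit 0x80084082b1bb4eabe1))) (.nd (.lf (nat_lit 0x8338008001996b6c9d)) (.lf (nat_lit 0x8008188201964c9b87)) (.lf (nat_lit 0x835a68b5d2f28d5c8a)) (.nd (.lf (nat_lit 0x833ab6c052e0680b74)) (.lf (nat_lit 0x80882a8211c53b9a9b)) (.lf (nat_lit 0x823b0bcb838875eb79)) (.lf (nat_lit 0x80a83782d23d2b2997)))) (.lf (nat_lit 0x8007e2824c9a52bde5)) (.nd (.lf (nat_lit 0x8007de80dcac4d2da8)) (.lf (nat_lit 0x80484282b1ba41eb12)) (.lf (nat_lit 0x8087d381ece7521da0)) (.lf (nat_lit 0x8008668602332ad949))) (.lf (nat_lit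 0x81688a91733db62d53)))
  _ _ _ (by decide +kernel)

noncomputable def g2_m36_m28 : GD 2 (-36) (-28) := chk_sound 
  (.cell (.nd (.lf (nat_lit 0x84c8b587b894be4ee8)) (.lf (nat_lit 0x814b52d735a6afcaf8)) (.lf (nat_lit 0x819800800c47bb7da5)) (.lf (nat_lit 0x817b2ac3c43e353830))) (.nd (.lf (nat_lit 0x82080080038461fe59)) (.lf (nat_lit 0x80083d8081de59bc89)) (.lf (nat_lit 0x8ab53e85f681299cef)) (.lf (nat_lit 0x82196c80c1d6480b6a))) (.lf (nat_lit 0x830ab6c042de7babbf)) (.lf (nat_lit 0x8007ff811c1557ee67)) (.nd (.lf (nat_lit 0x8007cd816cf252cd9c)) (.lf (nat_lit 0x80987583911a450995)) (.lf (nat_lit 0x8007ef80dd5b644dae)) (.lf (nat_lit 0x80984283319934d8df))) (.lf (nat_lit 0x93b79d8b52669a9d42)))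
  _ _ _ (by decide +kernel)

noncomputable def g2_m44_m20 : GD 2 (-44) (-20) := chk_sound 
  (.cell (.lf (nat_lit 0x80988e8d59dbf59a59)) (.nd (.lf (nat_lit 0x8486c9896303858e17)) (.lf (nat_lit 0x8008008001a3704cbe)) (.lf (nat_lit 0x80682881a2dc569d8d)) (.lf (nat_lit 0x80084981c1ae4a6b90))) (.nd (.lf (nat_lit 0x8348008001796bdc71)) (.lf (nat_lit 0x803846823196465b1e)) (.lf (nat_lit 0x83dacdbd732986fc36)) (.nd (.nd (.lf (nat_lit 0x81fb36c6933b620ad0)) (.lf (nat_lit 0x80883a82e1bf3a8a6d)) (.lf (nat_lit 0x80fb3ec8635f59ca6b)) (.lf (nat_lit 0x80085184e20330e9db))) (.lf (nat_lit 0x8078388361f83209ed)) (.lf (nat_lit 0x828b6dd214904578d4)) (.lf (nat_lit 0x80485a86029f22a8d4)))) (.lf (nat_lit 0x80a7da817c724ffdee)) (.nd (.lf (nat_lit 0x827800800c774c3dca)) (.lf (nat_lit 0x80083f82a1d73a9aa9)) (.lf (nat_lit 0x8007d2824ca84f3dbd)) (.lf (nat_lit 0x80083283427b2448b7))) (.lf (nat_lit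 0x8007cd8262d0b01d4a)))
  _ _ _ (by decide +kernel)

noncomputable def g2_m36_m20 : GD 2 (-36) (-20) := chk_sound 
  (.cell (.nd (.lf (nat_lit 0x8459c79b46d3c63e1a)) (.lf (nat_lit 0x83d999a42887ee2aef)) (.lf (nat_lit 0x84f6e68a7b96c46d94)) (.lf (nat_lit 0x80082680bcb2e5e927))) (.nd (.lf (nat_lit 0x80f81f8082836e3db5)) (.lf (nat_lit 0x80d8008001cd61ccaf)) (.lf (nat_lit 0x97877681947a346d2c)) (.lf (nat_lit 0x8cb99685a1c0458ae0))) (.lf (nat_lit 0x841b1fc302eb75cb39)) (.lf (nat_lit 0x8037e9817bc04f4e5f)) (.nd (.lf (nat_lit 0x8007d480ec4c4e4dfc)) (.lf (nat_lit 0x80086283e10d41e89b)) (.lf (nat_lit 0x8007db81bc9f585e09)) (.lf (nat_lit 0x80f8c389ee38cec847))) (.lf (nat_lit 0x83f9119af29aa99ce7)))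
  _ _ _ (by decide +kernel)

theorem g3_m40_m24 : GD 3 (-40) (-24) :=
  GD.split (i := 2) g2_m44_m28 g2_m36_m28 g2_m44_m20 g2_m36_m20 (by decide)

end Pool.Agent.P.MP_f12b6c_an.Dg
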