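import Pool.Agent.P.MP_f12b6c_an.T3DgDef

/-! Certificates for the diagonal statement. -/

set_option maxRecDepth 100000
set_option linter.defProp false

namespace Pool.Agent.P.MP_f12b6c_an.Dg

noncomputable def g1_m46_m14 : GD 1 (-46) (-14) := chk_sound 
  (.cell (.lf (nat_lit 0x80080484a82af25b94)) (.lf (nat_lit 0x83d8008001f3617cdd)) (.lf (nat_lit 0x823af8c2333a80dbe7)) (.lf (nat_lit 0x8007e6825c854dadcc)) (.lf (nat_lit 0x9e8a32c163065b0af2)) (.lf (nat_lit 0x8007d88243b6bebd7e)))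
  _ _ _ (by decide +kernel)

noncomputable def g1_m42_m14 : GD 1 (-42) (-14) := chk_sound 
  (.cell (.lf (nat_lit 0x80f800800994f37b11)) (.nd (.lf (nat_lit 0x8246f2986320771e09)) (.lf (nat_lit 0x80e84280f1796c7c73)) (.lf (nat_lit 0x82c8008003d94b5dfd)) (.lf (nat_lit 0x80084982619347fb35))) (.lf (nat_lit 0x823ad5c122f67babba)) (.lf (nat_lit 0x800801815c3c4e5e08)) (.lf (nat_lit 0x86398bcb826169ba5f)) (.lf (nat_lit 0x8007c880929bab2d40)))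
  _ _ _ (by decide +kernel)

noncomputable def g1_m46_m10 : GD 1 (-46) (-10) := chk_sound 
  (.cell (.lf (nat_lit 0x8007ff84984cf5cb1a)) (.lf (nat_lit 0x80483181224f5d5d2e)) (.lf (nat_lit 0x816b0dc4a3537dbbca)) (.lf (nat_lit 0x8007ec815c834d3dca)) (.lf (nat_lit 0x9d6ab1c01332596ae6)) (.lf (nat_lit 0x8007ef8193d7c18d77)))
  _ _ _ (by decide +kernel)

noncomputable def g1_m42_m10 : GD 1 (-42) (-10) := chk_sound 
  (.cell (.lf (nat_lit 0x80080684d907f05bae)) (.lf (nat_lit 0x9328008001ea5adc7b)) (.lf (nat_lit 0x823b05bf92d87afb84)) (.lf (nat_lit 0x8007f881ec364d0e01)) (.lf (nat_lit 0xa92b11c0e38b5cfa9d)) (.lf (nat_lit 0x80b7ca81b2c4af7d44)))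
  _ _ _ (by decide +kernel)

theorem g2_m44_m12 : GD 2 (-44) (-12) :=
  GD.split (i := 1) g1_m46_m14 g1_m42_m14 g1_m46_m10 g1_m42_m10 (by decide)

noncomputable def g2_m36_m12 : GD 2 (-36) (-12) := chk_sound 
  (.cell (.nd (.lf (nat_lit 0xa90904b8b67bbd8d2c)) (.lf (nat_lit 0x8007ff8248c9f05bbf)) (.lf (nat_lit 0x8236baad5a90bffda3)) (.lf (nat_lit 0x80283084fc45e819d0))) (.nd (.lf (nat_lit 0x82985299123875fd40)) (.lf (nat_lit 0x80083981f13d5c0b9f)) (.lf (nat_lit 0x80082d817318497d50)) (.lf (nat_lit 0x84fa178851bf45aa9b))) (.lf (nat_lit 0x846b8bc6e335728ad6)) (.lf (nat_lit 0x8007e2824b9b485e3b)) (.nd (.lf (nat_lit 0x8007d080ebf54a9e18)) (.lf (nat_lit 0x80085883a11a405895)) (.lf (nat_lit 0x8007d380dc38506e1b)) (.lf (nat_lit 0x800872866e17d1a8b0))) (.lf (nat_lit 0x84295d9eb20a9a7c7c)))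
  _ _ _ (by decide +kernel)

noncomputable def g1_m46_m6 : GD 1 (-46) (-6) := chk_sound 
  (.cell (.lf (nat_lit 0x800800800893f75ad5)) (.lf (nat_lit 0x81180080021260bcff)) (.lf (nat_lit 0x831b29c7536679cb92)) (.lf (nat_lit 0x8007e2812c844d1dc8)) (.lf (nat_lit 0x9a6b25c11370598add)) (.lf (nat_lit 0x800801816413c61d6b)))
  _ _ _ (by decide +kernel)

noncomputable def g1_m42_m6 : GD 1 (-42) (-6) := chk_sound 
  (.cell (.lf (nat_lit 0x80080783d957f46b08)) (.lf (nat_lit 0x8338898fa21d5b7cc7)) (.lf (nat_lit 0x82eae3c0b2da719b75)) (.lf (nat_lit 0x8067db820c354c0df9)) (.lf (nat_lit 0xa65b8ec233d1600aa5)) (.lf (nat_lit 0x8067e281430db61d4b)))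
  _ _ _ (by decide +kernel)

noncomputable def g1_m46_m2 : GD 1 (-46) (-2) := chk_sound 
  (.cell (.lf (nat_lit 0x8008078568f5f7caa1)) (.lf (nat_lit 0x8268008001e363ecd8)) (.lf (nat_lit 0x82ab0ac8c34f746b64)) (.lf (nat_lit 0x8007ed827c884d5dc7)) (.lf (nat_lit 0x928bc4c2e3d25c2aea)) (.lf (nat_lit 0x8007db83c4c0d24d30)))
  _ _ _ (by decide +kernel)

noncomputable def g1_m42_m2 : GD 1 (-42) (-2) := chk_sound 
  (.cell (.lf (nat_lit 0x800808847911f53b04)) (.lf (nat_lit 0x82a8008001c95efc96)) (.lf (nat_lit 0x826b90cf43ca7d7aff)) (.lf (nat_lit 0x8007e2810c394b5df0)) (.lf (nat_lit 0x9cfc57c2944f60baab)) (.lf (nat_lit 0x84a8908d2411c83d34)))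
  _ _ _ (by decide +kernel)

theorem g2_m44_m4 : GD 2 (-44) (-4) :=
  GD.split (i := 1) g1_m46_m6 g1_m42_m6 g1_m46_m2 g1_m42_m2 (by decide)

noncomputable def g2_m36_m4 : GD 2 (-36) (-4) := chk_sound 
  (.cell (.nd (.lf (nat_lit 0x831a99ba34c5cceb3b)) (.lf (nat_lit 0x80180683588fef5be6)) (.lf (nat_lit 0x844528a51a89c85cdb)) (.lf (nat_lit 0x800801825bd8ea0a4b))) (.nd (.lf (nat_lit 0x80980b8011c27a4cfc)) (.lf (nat_lit 0x80c85181c1265d3b7d)) (.lf (nat_lit 0x80082681f27152cd01)) (.lf (nat_lit 0x80085b82113b43c9f3))) (.lf (nat_lit 0x80dbd9cc93a06e1a6b)) (.lf (nat_lit 0x800801805b9f43ee0f)) (.nd (.lf (nat_lit 0x8007ef824bd448ee1e)) (.lf (nat_lit 0x81c9ca905ebbbcb813)) (.lf (nat_lit 0x816800800c0b4c2e17)) (.lf (nat_lit 0x800800800e0ed1a920))) (.lf (nat_lit 0x84199a9f12ddae8cc5)))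
  _ _ _ (by decide +kernel)

theorem g3_m40_m8 : GD 3 (-40) (-8) :=
  GD.split (i := 2) g2_m44_m12 g2_m36_m12 g2_m44_m4 g2_m36_m4 (by decide)

noncomputable def g2_m44_4 : GD 2 (-44) 4 := chk_sound 
  (.cell (.nd (.lf (nat_lit 0x8519eba9f4d3dd5b09)) (.lf (nat_lit 0x800801823701ee3bf0)) (.lf (nat_lit 0x82e530d7aa64a9ebac)) (.lf (nat_lit 0x80582a870ab8f3ba04))) (.lf (nat_lit 0x8008188121c9620cab)) (.nd (.lf (nat_lit 0x831a54b9d2ba79ec2f)) (.lf (nat_lit 0x800a4bba82c34ddad6)) (.lf (nat_lit 0x844b08ca236c73eb6d)) (.nd (.lf (nat_lit 0x800abac2f32a4c9a4d)) (.lf (nat_lit 0x80986586a26027190a)) (.lf (nat_lit 0x8007ff81cad7f4d99a)) (.lf (nat_lit 0x8008868c5c8de80857)))) (.lf (nat_lit 0x8007e2805c6c4cfdd9)) (.nd (.lf (nat_lit 0x811800800c5051ae14)) (.lf (nat_lit 0x8008208261b03b7a63)) (.lf (nat_lit 0x8007de823c71504df1)) (.lf (nat_lit 0x8148be8b824428a868))) (.lf (nat_lit 0x83183484f406c6ed53)))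
  _ _ _ (by decide +kernel)

noncomputable def g2_m36_4 : GD 2 (-36) 4 := chk_sound 
  (.cell (.nd (.lf (nat_lit 0x869a3db174bdd75af9)) (.lf (nat_lit 0x8007ff833817ee3c0f)) (.lf (nat_lit 0x8574edae1a20cb3c6b)) (.lf (nat_lit 0x80082284ab52ebcabc))) (.nd (.lf (nat_lit 0x831889ac82366b3c8d)) (.lf (nat_lit 0x80080181112263fbb4)) (.lf (nat_lit 0x80082c81e27b544d19)) (.lf (nat_lit 0x80985b83614a4149d5))) (.lf (nat_lit 0x848c0ad5b46479aa65)) (.lf (nat_lit 0x820800800bba41bde8)) (.nd (.lf (nat_lit 0x8007e580cbd0493e23)) (.lf (nat_lit 0x80a883855ea8c5a892)) (.lf (nat_lit 0x8007e2824c004afe14)) (.lf (nat_lit 0x802830832dcdd3c9ae))) (.lf (nat_lit 0x82682584e39bc96cd8)))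
  _ _ _ (by decide +kernel)

noncomputable def g2_m44_12 : GD 2 (-44) 12 := chk_sound 
  (.cell (.nd (.lf (nat_lit 0x83c85fad143fe379c3)) (.lf (nat_lit 0x8007ff84269ef15b70)) (.lf (nat_lit 0x82073bc5bb6bacacfe)) (.lf (nat_lit 0x80d84c86bc68e57a05))) (.lf (nat_lit 0x81c80080018d676c78)) (.nd (.lf (nat_lit 0x83da33b8b2bb830c54)) (.lf (nat_lit 0x8269c0b0f291409a81)) (.lf (nat_lit 0x833adacdc3ae808bae)) (.lf (nat_lit 0x80084f8652bd21f934))) (.lf (nat_lit 0x8007f581bc7b4fbde5)) (.nd (.lf (nat_lit 0x8007ff808c23674eab)) (.lf (nat_lit 0x81587b84d1533c6917)) (.lf (nat_lit 0x8007ff80bc6a5c2e48)) (.lf (nat_lit 0x818a33a302c62ce80b))) (.lf (nat_lit 0x83384287f509db4cb9)))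
  _ _ _ (by decide +kernel)

noncomputable def g2_m36_12 : GD 2 (-36) 12 := chk_sound 
  (.cell (.nd (.lf (nat_lit 0x8489b5a654cbde9b2a)) (.lf (nat_lit 0x8007f584778eee2c0a)) (.lf (nat_lit 0x8325f5c309e0c69c64)) (.lf (nat_lit 0x8007ff818b46e2abe7))) (.lf (nat_lit 0x82296a9e11e563fc40)) (.lf (nat_lit 0x832b8acae36e6d4ab1)) (.lf (nat_lit 0x8007eb824be1419dcd)) (.lf (nat_lit 0x81bda6c726f57b8b55)) (.nd (.lf (nat_lit 0x8077d58272ffc8ec42)) (.lf (nat_lit 0x8007f0823458d17cf7)) (.lf (nat_lit 0x8007e084f439e5ab0a)) (.lf (nat_lit 0x80080181463fe7bc58))))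
  _ _ _ (by decide +kernel)

theorem g3_m40_8 : GD 3 (-40) 8 :=
  GD.split (i := 2) g2_m44_4 g2_m36_4 g2_m44_12 g2_m36_12 (by decide)

noncomputable def g1_m46_18 : GD 1 (-46) 18 := chk_sound 
  (.cell (.nd (.lf (nat_lit 0x8007c783cc8a1dda5d)) (.lf (nat_lit 0x8047e18625d6f5da36)) (.lf (nat_lit 0x8007c48b0c8e670e58)) (.lf (nat_lit 0x83096d907be0ddcb64))) (.lf (nat_lit 0x80080180a21c5c7cee)) (.nd (.lf (nat_lit 0x835ac9c564149f5c43)) (.lf (nat_lit 0x8008338361da377a58)) (.lf (nat_lit 0x8007eb859641f45ad1)) (.lf (nat_lit 0x808851860d34df690c))) (.lf (nat_lit 0x8007d680ac94597e19)) (.lf (nat_lit 0x83bde8d0590294291c)) (.lf (nat_lit 0x8007d584a493f0999d)))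
  _ _ _ (by decide +kernel)

noncomputable def g1_m42_18 : GD 1 (-42) 18 := chk_sound 
  (.cell (.nd (.lf (nat_lit 0x8017c2854c4c16e977)) (.lf (nat_lit 0x8047ed853659f3daf4)) (.lf (nat_lit 0x8336b0bb5c535c7cfc)) (.lf (nat_lit 0x8128cd9f1b83dd0baa))) (.lf (nat_lit 0x8348c39941f864eca6)) (.nd (.lf (nat_lit 0x838b13c7d50cb0ac0c)) (.lf (nat_lit 0x8058678622002e6945)) (.lf (nat_lit 0x8007ef8546d0f25b60)) (.lf (nat_lit 0x800839853caee25a09))) (.lf (nat_lit 0x8007e481cc61502dfc)) (.lf (nat_lit 0x833df5ca17eb90aa6f)) (.lf (nat_lit 0x8007df8514c8ee7a6a)))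
  _ _ _ (by decide +kernel)

noncomputable def g1_m46_22 : GD 1 (-46) 22 := chk_sound 
  (.cell (.nd (.lf (nat_lit 0x8007d781ec681a4a03)) (.lf (nat_lit 0x8007dc84d555f66968)) (.lf (nat_lit 0x8007be8c1c5b78eea5)) (.nd (.lf (nat_lit 0x80080d824b12de1c77)) (.lf (nat_lit 0x80080182cb72dc8c51)) (.lf (nat_lit 0x800801826bc7d23cd3)) (.lf (nat_lit 0x80983b843cbfdacb06)))) (.lf (nat_lit 0x8008448122155b9cde)) (.nd (.lf (nat_lit 0x839913a29650e72bb4)) (.lf (nat_lit 0x80082a8281c6389a47)) (.lf (nat_lit 0x8007e58785c0f60a11)) (.nd (.lf (nat_lit 0x80081382acd0e48923)) (.lf (nat_lit 0x819b40b08322379805)) (.lf (nat_lit 0x80380f83ba45ee9b51)) (.lf (nat_lit 0x80a85a85cd60da39be)))) (.lf (nat_lit 0x8007db818c7a609e54)) (.lf (nat_lit 0x80e86d863dfcd19959)) (.lf (nat_lit 0x8007dc83646cf1f89a)))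
  _ _ _ (by decide +kernel)

noncomputable def g1_m42_22 : GD 1 (-42) 22 := chk_sound 
  (.cell (.nd (.lf (nat_lit 0x800801805c6b1c0a51)) (.lf (nat_lit 0x8007f383f5e0f5da45)) (.lf (nat_lit 0x81c7579dac6568ae37)) (.lf (nat_lit 0x804825836bc8dc4c0b))) (.lf (nat_lit 0x82e80080023b5a5d02)) (.nd (.lf (nat_lit 0x8008b593f693ec9bb8)) (.lf (nat_lit 0x80085a83e1ed2f392a)) (.lf (nat_lit 0x8007ef81465df49adc)) (.lf (nat_lit 0x80683b850cf3de3a28))) (.lf (nat_lit 0x8007ff814c5e542e1d)) (.lf (nat_lit 0x846da1c31a41a55a08)) (.lf (nat_lit 0x8008008004b2f2b949)))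
  _ _ _ (by decide +kernel)

theorem g2_m44_20 : GD 2 (-44) 20 :=
  GD.split (i := 1) g1_m46_18 g1_m42_18 g1_m46_22 g1_m42_22 (by decide)

noncomputable def g2_m36_20 : GD 2 (-36) 20 := chk_sound 
  (.cell (.nd (.lf (nat_lit 0x8115bfbb9589def9ee)) (.lf (nat_lit 0x8037f683b6dff13b8c)) (.lf (nat_lit 0x82c6d4b9db2fb9bd23)) (.lf (nat_lit 0x800801826bd2dcfbf3))) (.lf (nat_lit 0x8299439eb21163fc84)) (.nd (.lf (nat_lit 0x830bb4ccb6ddbf4b37)) (.lf (nat_lit 0x80082c830df1d5387a)) (.lf (nat_lit 0x80080184b779effbd4)) (.lf (nat_lit 0x80a83b841d6fdb4955))) (.lf (nat_lit 0x8007e780fc0743bdca)) (.nd (.lf (nat_lit 0x8007ea819bc45f0ebf)) (.lf (nat_lit 0x820b0aa21db5c27897)) (.lf (nat_lit 0x8007ff811c045c0e8a)) (.lf (nat_lit 0x80c864850e00ce29f7))) (.lf (nat_lit 0x80086e9724dce5cb5f)))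
  _ _ _ (by decide +kernel)

noncomputable def g1_m46_26 : GD 1 (-46) 26 := chk_sound 
  (.cell (.nd (.lf (nat_lit 0x8216c3a84c8e353bac)) (.lf (nat_lit 0x8047cc8734daf4d8b2)) (.lf (nat_lit 0x8007a58dec0c897ecf)) (.nd (.lf (nat_lit 0x80080981db73d0cd28)) (.lf (nat_lit 0x81e800800bcad61c8b)) (.lf (nat_lit 0x80080181dbe3c2bd9c)) (.nd (.lf (nat_lit 0x806831834c68d2ac38)) (.lf (nat_lit 0x80483483eccbd58b83)) (.lf (nat_lit 0x80983282cc98c77cc8)) (.lf (nat_lit 0x800825808d05d1bb8f))))) (.lf (nat_lit 0x80082f81f21659ecd3)) (.nd (.lf (nat_lit 0x83081e96456df26a10)) (.lf (nat_lit 0x80084e82a1a63c2a58)) (.lf (nat_lit 0x8027ef83652ef5e94a)) (.nd (.lf (nat_lit 0x80087d879d7cdaf90d)) (.nd (.lf (nat_lit 0x80092d9002082e982a)) (.lf (nat_lit 0x80d953901e43caf82d)) (.nd (.lf (nat_lit 0x80483e831dd1d62905)) (.lf (nat_lit 0x81089487be25cff8d0)) (.lf (nat_lit 0x80781c81ddc8d5197e)) (.nd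 (.lf (nat_lit 0x800823828df1d3493c)) (.lf (nat_lit 0x80085384ce10d0d938)) (.lf (nat_lit 0x80e84783fdd3d40986)) (.lf (nat_lit 0x800821832df8d19982)))) (.lf (nat_lit 0x80085284ee18cec98c))) (.lf (nat_lit 0x80782582bd2ddd19cf)) (.nd (.nd (.lf (nat_lit 0x80084f840da5d569dc)) (.nd (.nd (.lf (nat_lit 0x80081381cdcdd4299f)) (.lf (nat_lit 0x80a84a846dd6d2e9b4)) (.lf (nat_lit 0x80a85c84edb8d469cb)) (.lf (nat_lit 0x80082b81ddd1d2f9ca))) (.lf (nat_lit 0x80083383addbd1b9df)) (.nd (.lf (nat_lit 0x80083a83fdadd4b9e6)) (.lf (nat_lit 0x800834842dc0d329f2)) (.lf (nat_lit 0x80085383cda4d4d9f8)) (.lf (nat_lit 0x80084284bdbcd329fb))) (.lf (nat_lit 0x80c83f83cdc9d1ea0b))) (.lf (nat_lit 0x80084e840d83d59a32)) (.nd (.nd (.lf (nat_lit 0x800833834d92d52a21)) (.lf (nat_lit 0x80e844841dacd37a1c)) (.lf (nat_lit 0x80083181bd80d57a44)) (.lf (nat_lit 0x80e849845d98d3aa47))) (.lf (nat_lit 0x803821822dc1d20a21))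 (.lf (nat_lit 0x80083581fd6ed59a69)) (.lf (nat_lit 0x80081782ed9bd24a76)))) (.lf (nat_lit 0x80d84d840de0cf7a27)) (.nd (.lf (nat_lit 0x80d841843d42d5dab9)) (.lf (nat_lit 0x80883182cd47d59aba)) (.lf (nat_lit 0x80783b841c8dd98b71)) (.lf (nat_lit 0x80082281dd10d4db31))) (.lf (nat_lit 0x808836831d95d06abc))))) (.lf (nat_lit 0x80089082fbf775bee4)) (.lf (nat_lit 0x800800800e26cafa0e)) (.lf (nat_lit 0x80b4a7e5d9a24e6801)))
  _ _ _ (by decide +kernel)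

noncomputable def g1_m42_26 : GD 1 (-42) 26 := chk_sound 
  (.cell (.nd (.lf (nat_lit 0x8047c7857c4c18c9eb)) (.lf (nat_lit 0x8007e984e556f61984)) (.lf (nat_lit 0x80c7c08aac26798eca)) (.nd (.lf (nat_lit 0x800800800b4dd32d1b)) (.lf (nat_lit 0x803814827b34d8ecc7)) (.lf (nat_lit 0x807824823bc6bf7dd4)) (.lf (nat_lit 0x803824834c54d49c27)))) (.lf (nat_lit 0x80083a810233591cef)) (.nd (.lf (nat_lit 0x8358278d05e9f2fab2)) (.lf (nat_lit 0x80087b85f1ba34595c)) (.lf (nat_lit 0x8007f28465c9f5ca31)) (.nd (.lf (nat_lit 0x80283a843cb4e07a52)) (.lf (nat_lit 0x81c800800da9d659ac)) (.lf (nat_lit 0x80081e81eaa0e54c1f)) (.lf (nat_lit 0x80b83583ecf0d8baf5)))) (.lf (nat_lit 0x815800800c4959de51)) (.lf (nat_lit 0x829b6ba68cf7c1fa33)) (.lf (nat_lit 0x8067b18a948bf2887f)))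
  _ _ _ (by decide +kernel)

noncomputable def g0_m47_29 : GD 0 (-47) 29 := chk_sound 
  (.cell (.nd (.lf (nat_lit 0x80b6a4ab6c89424c64)) (.lf (nat_lit 0x80673599c488efa825)) (.lf (nat_lit 0x80082080abbe95deef)) (.nd (.lf (nat_lit 0x82f716970b90c46d7c)) (.lf (nat_lit 0x8267fa819b6dd08d2f)) (.lf (nat_lit 0x800821809c07ad6e4d)) (.lf (nat_lit 0x8007ff818c4bd0dc79)))) (.lf (nat_lit 0x80083c82321d57bcc9)) (.nd (.lf (nat_lit 0x8027c68864b0f378c5)) (.lf (nat_lit 0x806861838192402a8c)) (.lf (nat_lit 0x8007e38224abf3e899)) (.nd (.lf (nat_lit 0x80081882bd47d96a34)) (.lf (nat_lit 0x803880873e15d0d8ff)) (.lf (nat_lit 0x80082b832c79da6b76)) (.lf (nat_lit 0x80081e82bd36d39b14)))) (.lf (nat_lit 0x8007ff805bcd75ff02)) (.lf (nat_lit 0x830bcca87c6fb9eb39)) (.lf (nat_lit 0x8007788febd6115853)))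
  _ _ _ (by decide +kernel)

noncomputable def g0_m45_29 : GD 0 (-45) 29 := chk_sound 
  (.cell (.nd (.lf (nat_lit 0x8196cda57c8a31fb8e)) (.lf (nat_lit 0x8027bc8844a4f38875)) (.lf (nat_lit 0x8007ff802bd38f7ef5)) (.lf (nat_lit 0x81e873867bccd12cd8))) (.lf (nat_lit 0x82980080022457acd2)) (.nd (.lf (nat_lit 0x8047d586e4f0f4792e)) (.lf (nat_lit 0x80084081c18d3e2a4f)) (.lf (nat_lit 0x8077d88604ecf4d900)) (.nd (.lf (nat_lit 0x8007ff81bcc5db9ae8)) (.lf (nat_lit 0x806841833e32ce892d)) (.lf (nat_lit 0x800833842bb2dbbc2b)) (.lf (nat_lit 0x800822812d2bd42b18)))) (.lf (nat_lit 0x815800800c026c7ed0)) (.lf (nat_lit 0x834c13ab4c83b97a9a)) (.lf (nat_lit 0x8077958d3bc010082a)))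
  _ _ _ (by decide +kernel)

noncomputable def g0_m47_31 : GD 0 (-47) 31 := chk_sound 
  (.cell (.nd (.lf (nat_lit 0x81f7209e2ca44f4d5e)) (.lf (nat_lit 0x8007dd8575aef39a81)) (.lf (nat_lit 0x800800800b95995ef9)) (.nd (.lf (nat_lit 0x8006f1950b9cc00daa)) (.lf (nat_lit 0x800800800b68cd9d5f)) (.lf (nat_lit 0x800823820be7ac5e68)) (.lf (nat_lit 0x80082380dc2dca4cff)))) (.lf (nat_lit 0x80082e82222a557cc6)) (.nd (.lf (nat_lit 0x80a7b6890480f2587f)) (.lf (nat_lit 0x80084882f186419a95)) (.lf (nat_lit 0x80b7b189c478f2285b)) (.nd (.lf (nat_lit 0x800845840d40d60ab7)) (.lf (nat_lit 0x824800800e09cfc9a1)) (.lf (nat_lit 0x800829840cd9d56b73)) (.lf (nat_lit 0x80080581ad17d11b84)))) (.lf (nat_lit 0x80082080aaed89df6b)) (.lf (nat_lit 0x840c99af9b66aebbb9)) (.lf (nat_lit 0x8017998b9be9116868)))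
  _ _ _ (by decide +kernel)

noncomputable def g0_m45_31 : GD 0 (-45) 31 := chk_sound 
  (.cell (.nd (.lf (nat_lit 0x81e6b4a7bc903ebc51)) (.lf (nat_lit 0x8007e8857500f2b9db)) (.lf (nat_lit 0x80081b810ba9940f00)) (.nd (.lf (nat_lit 0x8216e9910b73c61d87)) (.lf (nat_lit 0x80081b82ab62ce4d58)) (.lf (nat_lit 0x800801817be5aace74)) (.lf (nat_lit 0x80482d82bc28cbecea)))) (.lf (nat_lit 0x82180080022f558ccd)) (.nd (.lf (nat_lit 0x8087c58814b7f388db)) (.lf (nat_lit 0x80a85c83b183405a6a)) (.lf (nat_lit 0x8087a78bd4b1f338b6)) (.nd (.lf (nat_lit 0x800842853d55d67a7c)) (.lf (nat_lit 0x80485784edfed019ac)) (.lf (nat_lit 0x823800800c98d66bb3)) (.lf (nat_lit 0x80b83b839cf8d1db9c)))) (.lf (nat_lit 0x800801804b4e810f48)) (.lf (nat_lit 0x82cc7bae6b60afabe6)) (.lf (nat_lit 0x80d771904bcd111847)))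
  _ _ _ (by decide +kernel)

theorem g1_m46_30 : GD 1 (-46) 30 :=
  GD.split (i := 0) g0_m47_29 g0_m45_29 g0_m47_31 g0_m45_31 (by decide)

noncomputable def g1_m42_30 : GD 1 (-42) 30 := chk_sound 
  (.cell (.nd (.lf (nat_lit 0x81c6d5a53c81302b76)) (.lf (nat_lit 0x8067ad899435ef08fc)) (.lf (nat_lit 0x8287b88abbdd879ef3)) (.nd (.lf (nat_lit 0x83171f907b70c90d6e)) (.lf (nat_lit 0x800817833b6ad06d33)) (.lf (nat_lit 0x800812814bd0ad9e6d)) (.nd (.lf (nat_lit 0x80082181bc57c24d49)) (.lf (nat_lit 0x80282682dc77d05c55)) (.lf (nat_lit 0x80081b828c3eb74dd5)) (.lf (nat_lit 0x800800800c71caecba))))) (.lf (nat_lit 0x800836823239566ce0)) (.nd (.lf (nat_lit 0x8277e3895553f479dc)) (.lf (nat_lit 0x80882e81f1823b29cb)) (.lf (nat_lit 0x8007e186852ff5397b)) (.nd (.lf (nat_lit 0x80082d83cd89d58a29)) (.nd (.lf (nat_lit 0x80084f82ee01d2093a)) (.lf (nat_lit 0x8007ff817e07cb9a4e)) (.nd (.lf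 (nat_lit 0x80081f819deed1f997)) (.lf (nat_lit 0x80084d83dde0cf1a35)) (.lf (nat_lit 0x80c84b849db4d33a0e)) (.lf (nat_lit 0x80083a833deaceda26))) (.lf (nat_lit 0x80083a836dc5cb1aed))) (.lf (nat_lit 0x809852856d78d58a4c)) (.nd (.nd (.lf (nat_lit 0x80e850847d8dd37a67)) (.lf (nat_lit 0x80a851843dd0ceea63)) (.lf (nat_lit 0x80484884ad4ad37af0)) (.lf (nat_lit 0x80983b831d9ccf1ad3))) (.lf (nat_lit 0x800827830d57ca3bba)) (.lf (nat_lit 0x80083e82bcefd2fb8f)) (.lf (nat_lit 0x800828838cd6c94c6c))))) (.lf (nat_lit 0x833880832bcc6dceec)) (.lf (nat_lit 0x800843827e3ac78a43)) (.lf (nat_lit 0x80c773918465f0880c)))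
  _ _ _ (by decide +kernel)

theorem g2_m44_28 : GD 2 (-44) 28 :=
  GD.split (i := 1) g1_m46_26 g1_m42_26 g1_m46_30 g1_m42_30 (by decide)

noncomputable def g1_m38_26 : GD 1 (-38) 26 := chk_sound 
  (.cell (.nd (.lf (nat_lit 0x8007d681bc3a1829f9)) (.lf (nat_lit 0x8067df8695d9f53a58)) (.lf (nat_lit 0x8286a0b63c6585bd95)) (.lf (nat_lit 0x810811824b87d3fce5))) (.lf (nat_lit 0x81c86d97e2465b8cda)) (.nd (.lf (nat_lit 0x80080082f64ff24b2c)) (.lf (nat_lit 0x80a88a87cdb8d808ae)) (.lf (nat_lit 0x8007eb82d65ef3cafc)) (.lf (nat_lit 0x80081d832c22d9cbeb))) (.lf (nat_lit 0x8007eb81bc2d4d2e08)) (.lf (nat_lit 0x82bd1fb7da1aaa4bc3)) (.lf (nat_lit 0x8007c38854d2f3c915)))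
  _ _ _ (by decide +kernel)

noncomputable def g1_m34_26 : GD 1 (-34) 26 := chk_sound 
  (.cell (.nd (.lf (nat_lit 0x8007c4858c171639d2)) (.lf (nat_lit 0x8007ef846654f2fb14)) (.lf (nat_lit 0x82563fb70b6cb3cd30)) (.lf (nat_lit 0x80081c826b57cd0d71))) (.lf (nat_lit 0x8328d0a022645cccca)) (.nd (.lf (nat_lit 0x8007f28426cfef2bc6)) (.lf (nat_lit 0x8198ae89fc6dd86b9b)) (.lf (nat_lit 0x8008018206e3f08ba4)) (.lf (nat_lit 0x80082381db6cd4dce9))) (.lf (nat_lit 0x8007ff81dc01421dbd)) (.lf (nat_lit 0x81aaa99aca1bb13e57)) (.lf (nat_lit 0x8007d488451af3e9ad)))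
  _ _ _ (by decide +kernel)

noncomputable def g1_m38_30 : GD 1 (-38) 30 := chk_sound 
  (.cell (.nd (.lf (nat_lit 0x8007dd81fc2b15e998)) (.lf (nat_lit 0x80070e9524deeff999)) (.lf (nat_lit 0x80074e9a6c677a3e6c)) (.lf (nat_lit 0x8388b3867b61cfad34))) (.lf (nat_lit 0x83782692725656cce2)) (.nd (.lf (nat_lit 0x8007ef8605baf3ea7d)) (.lf (nat_lit 0x8128a888b1bc31c830)) (.lf (nat_lit 0x8007d78715bbf49a59)) (.nd (.lf (nat_lit 0x80681881cc91d8cb82)) (.lf (nat_lit 0x80081480dd12d4eb2d)) (.lf (nat_lit 0x80481b831afed88cf0)) (.lf (nat_lit 0x800824833c43d1fc6b)))) (.lf (nat_lit 0x800800800beb5dfea4)) (.lf (nat_lit 0x829cdeb1ea00a5ac95)) (.lf (nat_lit 0x80379f8c849ef2d881)))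
  _ _ _ (by decide +kernel)

noncomputable def g1_m34_30 : GD 1 (-34) 30 := chk_sound 
  (.cell (.nd (.lf (nat_lit 0x8007ff832c0f144971)) (.lf (nat_lit 0x828665a2259aebba66)) (.lf (nat_lit 0x82d655b27c6e944d7a)) (.lf (nat_lit 0x83683f830b27ccfd8c))) (.lf (nat_lit 0x82f8769dd27357fcd0)) (.nd (.lf (nat_lit 0x8007f6855635f14b3f)) (.lf (nat_lit 0x80f8b0899d03d4fb22)) (.lf (nat_lit 0x8017ed85a63ef22b24)) (.lf (nat_lit 0x80081c821b7fd20d0b))) (.lf (nat_lit 0x8007ff815c07454dda)) (.lf (nat_lit 0x826a6e97f9f6aa5eb5)) (.lf (nat_lit 0x8057c38894def43907)))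
  _ _ _ (by decide +kernel)

theorem g2_m36_28 : GD 2 (-36) 28 :=
  GD.split (i := 1) g1_m38_26 g1_m34_26 g1_m38_30 g1_m34_30 (by decide)

theorem g3_m40_24 : GD 3 (-40) 24 :=
  GD.split (i := 2) g2_m44_20 g2_m36_20 g2_m44_28 g2_m36_28 (by decide)

noncomputable def g0_m47_33 : GD 0 (-47) 33 := chk_sound 
  (.cell (.nd (.lf (nat_lit 0x8688db84ac7061be4d)) (.lf (nat_lit 0x81d5d4a9bdf85fbb92)) (.lf (nat_lit 0x80081b805b6b9b9f06)) (.nd (.nd (.lf (nat_lit 0x82c70e9c7c0ca95e12)) (.lf (nat_lit 0x80081f818abfcf1da8)) (.lf (nat_lit 0x80a800800be4a9be7c)) (.lf (nat_lit 0x80080d821c1ab49e07))) (.lf (nat_lit 0x81f800800b86c9ed7f)) (.lf (nat_lit 0x800818819bc7ab2e83)) (.lf (nat_lit 0x80382a82cc07c71d4a)))) (.lf (nat_lit 0x80081781b23e522cc0)) (.nd (.lf (nat_lit 0x8007838fa45bf07849)) (.lf (nat_lit 0x81080080017d429a9b)) (.lf (nat_lit 0x80f73c976459eeb82a)) (.nd (.lf (nat_lit 0x800800800d3cd30b1b))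 (.lf (nat_lit 0x829800800de8cdca54)) (.lf (nat_lit 0x800816826c60cfcc77)) (.lf (nat_lit 0x800814820cdccd6c1d)))) (.lf (nat_lit 0x80081d80da628c9f98)) (.lf (nat_lit 0x847c9baebab6a6fc92)) (.lf (nat_lit 0x8007818dabf5123875)))
  _ _ _ (by decide +kernel)

noncomputable def g0_m45_33 : GD 0 (-45) 33 := chk_sound 
  (.cell (.nd (.lf (nat_lit 0x81671d998cae4b1d45)) (.lf (nat_lit 0x81d446c3cc7a7d6b79)) (.lf (nat_lit 0x800805812b81975f0a)) (.nd (.lf (nat_lit 0x8296c3926b94beddbc)) (.lf (nat_lit 0x80082081eb6acc6d6e)) (.lf (nat_lit 0x80681c811bc6a9de8c)) (.lf (nat_lit 0x802827825c14c5bd52)))) (.lf (nat_lit 0x80a841826242528cc7)) (.nd (.lf (nat_lit 0x8057ae8b0486f23897)) (.lf (nat_lit 0x80882081017a41ea82)) (.lf (nat_lit 0x8007c8867476f24877)) (.nd (.lf (nat_lit 0x80c8b8887d42d2aaf9)) (.lf (nat_lit 0x80882d820e06cb6a54)) (.lf (nat_lit 0x8007ff80bc4acfdc8c)) (.lf (nat_lit 0x803831837cfecf2bcf))))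 (.lf (nat_lit 0x814800800ae2857f74)) (.lf (nat_lit 0x82ecb3af8a69a4ecae)) (.lf (nat_lit 0x8007b888ebe610e859)))
  _ _ _ (by decide +kernel)

noncomputable def g0_m47_35 : GD 0 (-47) 35 := chk_sound 
  (.cell (.nd (.lf (nat_lit 0x81aac98d9bad65ae44)) (.lf (nat_lit 0x82a6b4958e8a64ebd9)) (.lf (nat_lit 0x822800800b419cef14)) (.nd (.lf (nat_lit 0x8006da958bdbb2cdfe)) (.lf (nat_lit 0x82a7048a1bc5c44d7e)) (.lf (nat_lit 0x80081e80aba6a9de9e)) (.lf (nat_lit 0x80081382bc0cbdbdb8)))) (.lf (nat_lit 0x80081d81e25f4cfcb2)) (.nd (.lf (nat_lit 0x806722996448ed8820)) (.lf (nat_lit 0x80e85d83417b435aa0)) (.lf (nat_lit 0x8195dcbd54bedd6803)) (.nd (.lf (nat_lit 0x80084582ed22cffb8b)) (.lf (nat_lit 0x80084b845dbbcc9ad7)) (.lf (nat_lit 0x800812824c05cb5d10)) (.lf (nat_lit 0x80080181bcaeca1c8a)))) (.lf (nat_lit 0x80183a81fa0f875fb6)) (.lf (nat_lit 0x82ac82ad89b59ead61)) (.lf (nat_lit 0x8007ad88dc0812487b)))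
  _ _ _ (by decide +kernel)

noncomputable def g0_m45_35 : GD 0 (-45) 35 := chk_sound 
  (.cell (.nd (.lf (nat_lit 0x856882827c905d2e2a)) (.lf (nat_lit 0x82c48ab43d5b792b87)) (.lf (nat_lit 0x80080f811b59999f16)) (.nd (.nd (.lf (nat_lit 0x829713994c1fa7ce1f)) (.lf (nat_lit 0x834712962b6bc0adc2)) (.lf (nat_lit 0x800813815bd7a7be90)) (.lf (nat_lit 0x80082e809c10b1fe24))) (.lf (nat_lit 0x8477a588cba2c81d7a)) (.lf (nat_lit 0x80582381dba7a8bea5)) (.lf (nat_lit 0x800800800c03bfcda8)))) (.lf (nat_lit 0x80081f81925e4dbcb9)) (.nd (.lf (nat_lit 0x8077828f245ff09861)) (.lf (nat_lit 0x80083881a178431a98)) (.lf (nat_lit 0x80976591f44fef9845)) (.nd (.nd (.lf (nat_lit 0x82d85e8906c3ecabfb)) (.lf (nat_lit 0x800818807e36cc29a6)) (.lf (nat_lit 0x8007ed8436abeddbe0)) (.lf (nat_lit 0x819800800d5bcf3b48))) (.lf (nat_lit 0x80384d838dc4ce1a9a)) (.nd (.lf (nat_lit 0x8007f584b68cee7bc2)) (.lf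 (nat_lit 0x804836834cc7cd7c33)) (.lf (nat_lit 0x8007f684466bef1ba2)) (.lf (nat_lit 0x800827826c2ececcb7))) (.lf (nat_lit 0x800823833cb9cb6c68)))) (.lf (nat_lit 0x800800800a5a888fa0)) (.lf (nat_lit 0x839c92ae0a31a2dd06)) (.lf (nat_lit 0x8007ed82ebf9113864)))
  _ _ _ (by decide +kernel)

theorem g1_m46_34 : GD 1 (-46) 34 :=
  GD.split (i := 0) g0_m47_33 g0_m45_33 g0_m47_35 g0_m45_35 (by decide)

noncomputable def g0_m43_33 : GD 0 (-43) 33 := chk_sound 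
  (.cell (.nd (.lf (nat_lit 0x8126ada70c8c3bec2e)) (.lf (nat_lit 0x845440c11b1ba7dc2e)) (.lf (nat_lit 0x81a800800b93925f10)) (.nd (.lf (nat_lit 0x83772990db82c40da2)) (.lf (nat_lit 0x80080c828b61ccfd6c)) (.lf (nat_lit 0x80081f81dbc2a80e9a)) (.lf (nat_lit 0x812800800c11c5bd55)))) (.lf (nat_lit 0x81184081e248529ccf)) (.nd (.lf (nat_lit 0x8037d88524b8f398f0)) (.lf (nat_lit 0x80885683617540aa4d)) (.lf (nat_lit 0x8007bf8804acf348d1)) (.nd (.lf (nat_lit 0x80082c81bd5ed33ad7)) (.lf (nat_lit 0x80684783ddcad18a16)) (.lf (nat_lit 0x80081b814befcffcd9)) (.lf (nat_lit 0x806824828cbccf9c18)))) (.lf (nat_lit 0x8007ff807b3d7c6f4f)) (.lf (nat_lit 0x828cc6b0ca8ea79c63)) (.lf (nat_lit 0x8007a88a4bce102837)))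
  _ _ _ (by decide +kernel)

noncomputable def g0_m41_33 : GD 0 (-41) 33 := chk_sound 
  (.cell (.nd (.lf (nat_lit 0x8156b2a79c6e2e1b35)) (.lf (nat_lit 0x83c473bd5aa8b3cc5f)) (.lf (nat_lit 0x800800800ba38caf14)) (.lf (nat_lit 0x87e94586ab57ca7d66))) (.lf (nat_lit 0x800839825251526cd8)) (.nd (.lf (nat_lit 0x8097c888f4f2f3f953)) (.lf (nat_lit 0x81084e83416d3e99f7)) (.lf (nat_lit 0x8007e28484e4f43934)) (.nd (.lf (nat_lit 0x80b836834d55d3dad4)) (.lf (nat_lit 0x80082a813d8dd1caa5)) (.lf (nat_lit 0x80082781fb41d1cd38)) (.lf (nat_lit 0x80083082dc91cfdc43)))) (.lf (nat_lit 0x8087e080cb7a72ef28)) (.lf (nat_lit 0x828c46ab79079d3dd3)) (.lf (nat_lit 0x8006b5a72b7e15c80f)))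
  _ _ _ (by decide +kernel)

noncomputable def g0_m43_35 : GD 0 (-43) 35 := chk_sound 
  (.cell (.nd (.lf (nat_lit 0x81b6fb991cad47bd1f)) (.lf (nat_lit 0x83c3d0b94bac9fcc05)) (.lf (nat_lit 0x824800800b6c958f1a)) (.nd (.lf (nat_lit 0x84f6a990db91bcbdd2)) (.lf (nat_lit 0x80082b834b7dcb2d73)) (.lf (nat_lit 0x808800800ba6a74eae)) (.lf (nat_lit 0x80081e820bfbc06da6)))) (.lf (nat_lit 0x80082a8222614e2cc1)) (.nd (.lf (nat_lit 0x8007ca857485f288ad)) (.lf (nat_lit 0x80883d821172426a77)) (.lf (nat_lit 0x8087c3876472f1f892)) (.nd (.nd (.lf (nat_lit 0x80f81384570fecfc14)) (.lf (nat_lit 0x80c859847e0cce59cc)) (.lf (nat_lit 0x80080182f6fced9c00)) (.lf (nat_lit 0x808824826d49cf8b5c))) (.lf (nat_lit 0x80084e833dafce4ac2)) (.lf (nat_lit 0x80081e815bc2cb3d44)) (.lf (nat_lit 0x800801815cb0cc8c5f)))) (.lf (nat_lit 0x816800800ad280cf7c)) (.lf (nat_lit 0x833c22a989289bbdfc)) (.lf (nat_lit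 0x8057828e3bdd114848)))
  _ _ _ (by decide +kernel)

noncomputable def g0_m41_35 : GD 0 (-41) 35 := chk_sound 
  (.cell (.nd (.lf (nat_lit 0x8007da82dce738ac78)) (.lf (nat_lit 0x80f44fb15afeb44c9b)) (.lf (nat_lit 0x80081b812b7d90bf1f)) (.nd (.lf (nat_lit 0x8007588b5b8ac26dc5)) (.lf (nat_lit 0x80381b81fb60cccd6f)) (.lf (nat_lit 0x805823818ba1a54ebc)) (.lf (nat_lit 0x80b800800beec05db0)))) (.lf (nat_lit 0x8008008002674e2cc9)) (.nd (.lf (nat_lit 0x8007d086b4b6f34904)) (.lf (nat_lit 0x80c85982f16a413a3d)) (.lf (nat_lit 0x8007ae8a04a6f2b8eb)) (.nd (.lf (nat_lit 0x80081380bccfd0bbec)) (.lf (nat_lit 0x80081a81fd71ceab30)) (.lf (nat_lit 0x822800800b9acbdd57)) (.lf (nat_lit 0x800801819c81c9fcb9)))) (.lf (nat_lit 0x80b7ed804b2a777f53)) (.lf (nat_lit 0x81cc1ea958d7998e17)) (.lf (nat_lit 0x80678c8d5bc8105825)))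
  _ _ _ (by decide +kernel)

theorem g1_m42_34 : GD 1 (-42) 34 :=
  GD.split (i := 0) g0_m43_33 g0_m41_33 g0_m43_35 g0_m41_35 (by decide)

noncomputable def g1_m46_38 : GD 1 (-46) 38 := chk_sound 
  (.cell (.nd (.lf (nat_lit 0x80080180cc24888ed2)) (.nd (.lf (nat_lit 0x8087848cbc29140875)) (.lf (nat_lit 0x8097b4883c2112f847)) (.lf (nat_lit 0x8007ff813e3a4c3bd5)) (.lf (nat_lit 0x80973b940c1b14c811))) (.lf (nat_lit 0x80081b814b0f9c7f2c)) (.nd (.nd (.lf (nat_lit 0x814800800c5ea1ee5b)) (.lf (nat_lit 0x81e69b945c41b2ddad)) (.lf (nat_lit 0x822800800bbfa6aea4)) (.lf (nat_lit 0x80882c81bc06acbe52))) (.nd (.lf (nat_lit 0x82878e8aba68bcbe91)) (.lf (nat_lit 0x800938881abac2ae1f)) (.lf (nat_lit 0x80081f82dbf3c04dad)) (.lf (nat_lit 0x800829834c1ec5fd47))) (.lf (nat_lit 0x800800800b77a75ec7)) (.lf (nat_lit 0x80381180fbe2b8fe05)))) (.lf (nat_lit 0x8078308212c93e0c70)) (.nd (.lf (nat_lit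 0x8106c1a34444e9a80c)) (.nd (.lf (nat_lit 0x81085582e19e446b08)) (.lf (nat_lit 0x80684182c1b6482b7b)) (.lf (nat_lit 0x80385783ce68cc284d)) (.lf (nat_lit 0x840e93c127817e69f7))) (.lf (nat_lit 0x8026fd9b6bef154810)) (.nd (.nd (.lf (nat_lit 0x800817818bf2d60c6a)) (.lf (nat_lit 0x807851840e2ecbd9c6)) (.lf (nat_lit 0x800802833b59d3cd08)) (.nd (.lf (nat_lit 0x80881c81cd10d12b8c)) (.lf (nat_lit 0x80081c821d75cddb3d)) (.lf (nat_lit 0x8007ff80ccb8cf4c24)) (.lf (nat_lit 0x800800800d16cc7be8)))) (.nd (.lf (nat_lit 0x80a83d82fdf1c98abb)) (.lf (nat_lit 0x800828819d14bcdcde)) (.lf (nat_lit 0x80683482ad59c9abc2)) (.lf (nat_lit 0x800827829c8cb82d90))) (.nd (.lf (nat_lit 0x8007ff812ad3cbcdcb)) (.lf (nat_lit 0x802826821caecb8c72)) (.lf (nat_lit 0x8007ff815a81c6ce2d)) (.lf (nat_lit 0x800824804c3aca7cf1))) (.lf (nat_lit 0x80082c832ce4c66c8b)))) (.nd (.lf (nat_lit 0x81280080068a64efae))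 (.lf (nat_lit 0x800800800800812fff)) (.lf (nat_lit 0x8007f48038827aeffa)) (.lf (nat_lit 0x80080180ea4793df91))) (.nd (.lf (nat_lit 0x8007ff80c849892ff9)) (.lf (nat_lit 0x82ec0ca879de9f5dd2)) (.lf (nat_lit 0x80181a816a599abf76)) (.lf (nat_lit 0x815800800b3fad2ebe))) (.lf (nat_lit 0x8007cd835c18127875)))
  _ _ _ (by decide +kernel)

noncomputable def g0_m43_37 : GD 0 (-43) 37 := chk_sound 
  (.cell (.nd (.lf (nat_lit 0x85887881cca5590e02)) (.nd (.lf (nat_lit 0x80d767906bf612983f)) (.lf (nat_lit 0x808697a8545ce8280a)) (.lf (nat_lit 0x8007bc852d5625f9e7)) (.lf (nat_lit 0x8067b3888436f00876))) (.lf (nat_lit 0x81d800800b4697cf25)) (.nd (.nd (.lf (nat_lit 0x80082280ac4aa50e57)) (.lf (nat_lit 0x80080181fb9ec25dce)) (.lf (nat_lit 0x80082081cbcaa5bea3)) (.lf (nat_lit 0x80081d821c06af3e40))) (.lf (nat_lit 0x84575f8b0bcdc55d76)) (.lf (nat_lit 0x800813816b89a64ec3)) (.lf (nat_lit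 0x800830816be7bb8de8)))) (.lf (nat_lit 0x80082a81429046bca4)) (.nd (.lf (nat_lit 0x80079d8c845cf0d877)) (.lf (nat_lit 0x80085382517643aa9d)) (.lf (nat_lit 0x80a7ac89a440f0585e)) (.nd (.nd (.lf (nat_lit 0x8368c38cd77fe1cd03)) (.lf (nat_lit 0x80084c83de06d0e967)) (.lf (nat_lit 0x80080483f807df3d57)) (.lf (nat_lit 0x80083a83cd5acdcb68))) (.lf (nat_lit 0x800834839d69ca2ba0)) (.nd (.lf (nat_lit 0x800802818804df2d59)) (.lf (nat_lit 0x81a800800cbecbac5f)) (.lf (nat_lit 0x8007ff834800df0d5b)) (.lf (nat_lit 0x800800800c26cd3cd8))) (.lf (nat_lit 0x808825823c72c38d22)))) (.lf (nat_lit 0x81b800800a49840fa9)) (.lf (nat_lit 0x800b81a308ca980ea3)) (.lf (nat_lit 0x80876f900bed123853)))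
  _ _ _ (by decide +kernel)

noncomputable def g0_m41_37 : GD 0 (-41) 37 := chk_sound 
  (.cell (.nd (.lf (nat_lit 0x8007d7806cef499d4b)) (.lf (nat_lit 0x8503e4a7cb4ab10c8a)) (.lf (nat_lit 0x80080180db5993df28)) (.nd (.lf (nat_lit 0x866689902b91b9dde8)) (.lf (nat_lit 0x800801827bb0c7fd7d)) (.lf (nat_lit 0x80881880fb87a4aecd)) (.lf (nat_lit 0x80082d82cbdebb4df0)))) (.lf (nat_lit 0x80982981c292475cae)) (.nd (.lf (nat_lit 0x8047ea833481f268c1)) (.lf (nat_lit 0x80384082a16d431a7a)) (.lf (nat_lit 0x8007b988b46af178ab)) (.nd (.nd (.lf (nat_lit 0x8228638797b6e36cfe)) (.lf (nat_lit 0x80f86485cdd1d2d9bf)) (.lf (nat_lit 0x8007f88477b4e3ecfc)) (.lf (nat_lit 0x80083b831d26d10b6d))) (.lf (nat_lit 0x80082380ed7ccb6b6a)) (.lf (nat_lit 0x80681881fbaac8ad78)) (.lf (nat_lit 0x800838829c63c3ed2a)))) (.lf (nat_lit 0x8007eb806abf7bdf82)) (.lf (nat_lit 0x830b7da358a1974eaa)) (.lf (nat_lit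 0x80c7848ddbdc112835)))
  _ _ _ (by decide +kernel)

noncomputable def g0_m43_39 : GD 0 (-43) 39 := chk_sound 
  (.cell (.nd (.lf (nat_lit 0x809800800c9769ce66)) (.nd (.lf (nat_lit 0x80a78a8c5c1913384f)) (.lf (nat_lit 0x80d78a8c8c07127814)) (.lf (nat_lit 0x80d7bf82be2d46db99)) (.lf (nat_lit 0x80a78f8c53f8ed8842))) (.lf (nat_lit 0x800801814b20992f31)) (.nd (.lf (nat_lit 0x8006b1931be0af0e19)) (.lf (nat_lit 0x8567688bac04c2bd6e)) (.lf (nat_lit 0x800800800b6ca54ed8)) (.lf (nat_lit 0x80080181fbf0af5e4d)))) (.lf (nat_lit 0x80e9278c52a0495ca2)) (.nd (.lf (nat_lit 0x8007c5877432f0284b)) (.lf (nat_lit 0x81fb099dd2404ccad1)) (.lf (nat_lit 0x800740953420ed3834)) (.nd (.nd (.lf (nat_lit 0x80093e8e68d5d1ade8)) (.lf (nat_lit 0x80c869856e35cc598c)) (.lf (nat_lit 0x803800800927d14e12)) (.lf (nat_lit 0x80083c82bd5ccbbb93))) (.lf (nat_lit 0x80882181ad48c86bf2)) (.lf (nat_lit 0x80082381abc3c5fd8a))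 (.lf (nat_lit 0x806825822c48be0d88)))) (.lf (nat_lit 0x80b76e90399b849fbe)) (.lf (nat_lit 0x820ae39be8c0957f16)) (.lf (nat_lit 0x80a7ae883c06120859)))
  _ _ _ (by decide +kernel)

noncomputable def g0_m41_39 : GD 0 (-41) 39 := chk_sound 
  (.cell (.nd (.lf (nat_lit 0x8007ca814ce05d9df6)) (.lf (nat_lit 0x84e3e29e9bb3af9c8e)) (.lf (nat_lit 0x80780f807b34961f32)) (.nd (.lf (nat_lit 0x84868190bbb3b43e05)) (.lf (nat_lit 0x80682e832be2c5cd76)) (.lf (nat_lit 0x80081c80eb6ca3eedf)) (.lf (nat_lit 0x80081381dbeaaf5e51)))) (.lf (nat_lit 0x80080181a244485c5a)) (.nd (.lf (nat_lit 0x8007bf86a456f1288a)) (.lf (nat_lit 0x800829824176445ab0)) (.lf (nat_lit 0x80b7b8884435f00875)) (.nd (.nd (.lf (nat_lit 0x81c83783b8e7d48dee)) (.lf (nat_lit 0x80381a818e21ce1999)) (.lf (nat_lit 0x80080a80f90ed2de01)) (.lf (nat_lit 0x800836812d41cdeb8d))) (.lf (nat_lit 0x800830822d28c88c19)) (.lf (nat_lit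 0x800823817bbfc66d87)) (.lf (nat_lit 0x80681a818c41be6d89)))) (.lf (nat_lit 0x813800800a347f4fb0)) (.lf (nat_lit 0x82fad09cc8a296bf19)) (.lf (nat_lit 0x8087938bdbf211a840)))
  _ _ _ (by decide +kernel)

theorem g1_m42_38 : GD 1 (-42) 38 :=
  GD.split (i := 0) g0_m43_37 g0_m41_37 g0_m43_39 g0_m41_39 (by decide)

theorem g2_m44_36 : GD 2 (-44) 36 :=
  GD.split (i := 1) g1_m46_34 g1_m42_34 g1_m46_38 g1_m42_38 (by decide)

noncomputable def g1_m38_34 : GD 1 (-38) 34 := chk_sound 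
  (.cell (.nd (.lf (nat_lit 0x8007c0816e2d6a1ce3)) (.lf (nat_lit 0x8324eeb0ba76be9ce4)) (.lf (nat_lit 0x81d7ca862baf85ff13)) (.nd (.lf (nat_lit 0x8b0712860b46c67db1)) (.lf (nat_lit 0x81d83f83ab65ca5d8b)) (.lf (nat_lit 0x80781f814ba2a19ecf)) (.lf (nat_lit 0x80081a826c5dc8ccec)))) (.lf (nat_lit 0x80d83381a26e4fbce0)) (.nd (.lf (nat_lit 0x8007e385f542f3e9f5)) (.lf (nat_lit 0x8008328111603bf962)) (.lf (nat_lit 0x8047dd85451af429a8)) (.nd (.nd (.lf (nat_lit 0x800800834800e9dc7e)) (.lf (nat_lit 0x80083a829d6fd20ad8)) (.lf (nat_lit 0x8008008007f6ea3c76)) (.lf (nat_lit 0x80084a83ad63d0bb10))) (.nd (.lf (nat_lit 0x800801819dc7ce8a8c)) (.lf (nat_lit 0x80081b80ad1bc3bc78)) (.lf (nat_lit 0x806844840dc4cdeaa0)) (.lf (nat_lit 0x80080181fca2c04d22))) (.nd (.lf (nat_lit 0x8008018457afeccc32)) (.lf (nat_lit 0x80082a819cffd03bb8)) (.lf (nat_lit 0x80080184d7a6ed0c2a)) (.lf (nat_lit 0x81b800800c0eccdcf2)))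 (.nd (.lf (nat_lit 0x80982a828dbecddab2)) (.lf (nat_lit 0x80080a81fc60bdfd76)) (.lf (nat_lit 0x800825819c89ca9ca7)) (.lf (nat_lit 0x80681a813c40bcfd9a))))) (.lf (nat_lit 0x81a800800b4a72cf3e)) (.lf (nat_lit 0x82ec8cac6a02a09d3c)) (.lf (nat_lit 0x80a78190246bf0f82a)))
  _ _ _ (by decide +kernel)

noncomputable def g1_m34_34 : GD 1 (-34) 34 := chk_sound 
  (.cell (.nd (.lf (nat_lit 0x82566f9e3e2e6a1c3a)) (.lf (nat_lit 0x83b54fb2aa81be7d04)) (.lf (nat_lit 0x8007e7805cd37cbe60)) (.lf (nat_lit 0x8b085e827b1dc87dc2))) (.lf (nat_lit 0x8249079e129d542cc7)) (.nd (.lf (nat_lit 0x8007e4865597f2da8c)) (.lf (nat_lit 0x80b87e866e3ecda905)) (.lf (nat_lit 0x8007f0831591f33a7b)) (.nd (.lf (nat_lit 0x8007ff815c31ce8cb9)) (.lf (nat_lit 0x80c800800ca2cd5c60)) (.lf (nat_lit 0x800801830b0bcd0d9d)) (.lf (nat_lit 0x80a82a831bd8c33d9d)))) (.lf (nat_lit 0x837806811bc4552e86)) (.lf (nat_lit 0x830a8e991979a08efa))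 (.lf (nat_lit 0x8057d086349bf34897)))
  _ _ _ (by decide +kernel)

noncomputable def g0_m39_37 : GD 0 (-39) 37 := chk_sound 
  (.cell (.nd (.lf (nat_lit 0x8047e3815d7e482ca5)) (.lf (nat_lit 0x8004cca33b1abb1d10)) (.lf (nat_lit 0x80080880fb688f5f2c)) (.lf (nat_lit 0x80092684cb44c50dc5))) (.lf (nat_lit 0x80082c824299477cb7)) (.nd (.lf (nat_lit 0x8007c68824b0f2d915)) (.lf (nat_lit 0x80081a817161421a42)) (.lf (nat_lit 0x8067d6859497f27901)) (.nd (.nd (.lf (nat_lit 0x8008018287dbe47cf3)) (.lf (nat_lit 0x800824836d82d4ba5a)) (.lf (nat_lit 0x8008018157dae49cf1)) (.lf (nat_lit 0x80081882fd22cc6bd8))) (.lf (nat_lit 0x800834814d29caebec)) (.lf (nat_lit 0x800813820b6ec89d9f)) (.lf (nat_lit 0x8007ff811c44c40d43)))) (.lf (nat_lit 0x800853822b15725f52)) (.lf (nat_lit 0x82ca7798c9669f4f0d)) (.lf (nat_lit 0x8117129babb112f812)))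
  _ _ _ (by decide +kernel)

noncomputable def g0_m37_37 : GD 0 (-37) 37 := chk_sound 
  (.cell (.nd (.lf (nat_lit 0x80a7cd81edef509c76)) (.lf (nat_lit 0x85151ea2daf2bccd44)) (.lf (nat_lit 0x800812808b758a6f2f)) (.lf (nat_lit 0x97a85780ab24c37dd5))) (.lf (nat_lit 0x80082e82d2a5471cc0)) (.nd (.lf (nat_lit 0x8037d385b4dff3596f)) (.lf (nat_lit 0x80085d82f15740b9f1)) (.lf (nat_lit 0x8067d18624c9f2e95f)) (.lf (nat_lit 0x81e8be88bc84cccc70))) (.lf (nat_lit 0x82a847820b5368df1f)) (.lf (nat_lit 0x80f9428c0a0f9f1f56)) (.lf (nat_lit 0x8007039e146aed3818)))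
  _ _ _ (by decide +kernel)

noncomputable def g0_m39_39 : GD 0 (-39) 39 := chk_sound 
  (.cell (.nd (.lf (nat_lit 0x8007ff80ed67580d57)) (.lf (nat_lit 0x83f45698db44b8ecfa)) (.lf (nat_lit 0x80681480ab45926f35)) (.nd (.lf (nat_lit 0x8566838e1b92b80dfd)) (.lf (nat_lit 0x800818812bb5c88d72)) (.lf (nat_lit 0x800800800b6ba23ee8)) (.lf (nat_lit 0x80082281bbc1b6ee2c)))) (.lf (nat_lit 0x80082580a23f496c61)) (.nd (.lf (nat_lit 0x8007cb86547cf1f8d2)) (.lf (nat_lit 0x80882481216d43fa92)) (.lf (nat_lit 0x8007da82b45bf138c0)) (.nd (.nd (.lf (nat_lit 0x81f8a188e871d75dc5)) (.lf (nat_lit 0x81185c84fdeecf89f8)) (.lf (nat_lit 0x80080182988fd71dd5)) (.lf (nat_lit 0x80082a833d0fcf0bbb))) (.lf (nat_lit 0x827800800d4bc7fbf6)) (.lf (nat_lit 0x87880b822bb3c65d8b)) (.lf (nat_lit 0x800816820c2bbebd96)))) (.lf (nat_lit 0x809870838aa776bf82)) (.lf (nat_lit 0x8009f793b95d9d4f4f)) (.lf (nat_lit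 0x80e74e93ebd5121822)))
  _ _ _ (by decide +kernel)

noncomputable def g0_m37_39 : GD 0 (-37) 39 := chk_sound 
  (.cell (.nd (.lf (nat_lit 0x8007e4812de1632d1c)) (.lf (nat_lit 0x81354995eb33bdad72)) (.lf (nat_lit 0x80080180cb548e3f38)) (.lf (nat_lit 0x8e191d83ab24c11df5))) (.lf (nat_lit 0x80a83b8262464a2c72)) (.nd (.lf (nat_lit 0x8097c28854a6f26922)) (.lf (nat_lit 0x80086182e164437a67)) (.lf (nat_lit 0x8037c886e487f1b914)) (.nd (.lf (nat_lit 0x80882f831c62cadcc7)) (.lf (nat_lit 0x815800800cf0c6fc76)) (.lf (nat_lit 0x82e785837ba3c62d96)) (.lf (nat_lit 0x80081281bc0ebdfdb4)))) (.lf (nat_lit 0x82d891843afd6d2f4c)) (.lf (nat_lit 0x8009488c79c99d4f6e)) (.lf (nat_lit 0x800651b18493e4f802)))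
  _ _ _ (by decide +kernel)

theorem g1_m38_38 : GD 1 (-38) 38 :=
  GD.split (i := 0) g0_m39_37 g0_m37_37 g0_m39_39 g0_m37_39 (by decide)

noncomputable def g1_m34_38 : GD 1 (-34) 38 := chk_sound 
  (.cell (.nd (.lf (nat_lit 0x8007d3811e396ffceb)) (.lf (nat_lit 0x80066791eb1ec11dd3)) (.lf (nat_lit 0x800801807b87850f2c)) (.nd (.lf (nat_lit 0x85a6bf8ebb75ba9e02)) (.lf (nat_lit 0x80582282db81c61db3)) (.lf (nat_lit 0x819800800b699c2f04)) (.lf (nat_lit 0x80782381fb9ab48e57)))) (.lf (nat_lit 0x8008288102dd413cb4)) (.nd (.lf (nat_lit 0x8007dc85151df2da00)) (.lf (nat_lit 0x80081d81f1463fe99d)) (.lf (nat_lit 0x8007d0858504f259f6)) (.nd (.nd (.lf (nat_lit 0x800813815964d5bdc6)) (.lf (nat_lit 0x809844841d48cdbb84)) (.lf (nat_lit 0x80080182a923d75dbc)) (.lf (nat_lit 0x80581981ad09cc7bf8))) (.lf (nat_lit 0x80e84983ddcdc9dafb)) (.nd (.lf (nat_lit 0x80080981c937d6bdc1)) (.lf (nat_lit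 0x800828821c75ca7cbc)) (.lf (nat_lit 0x80081382794bd5fdc8)) (.lf (nat_lit 0x81f800800bdcc8fd51))) (.lf (nat_lit 0x800823827ce9c4bca0)))) (.lf (nat_lit 0x8008f6865b0f693f2d)) (.lf (nat_lit 0x82ba4c96d911994f48)) (.lf (nat_lit 0x8057bf88a45ff1884e)))
  _ _ _ (by decide +kernel)

theorem g2_m36_36 : GD 2 (-36) 36 :=
  GD.split (i := 1) g1_m38_34 g1_m34_34 g1_m38_38 g1_m34_38 (by decide)

noncomputable def g1_m46_42 : GD 1 (-46) 42 := chk_sound 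
  (.cell (.nd (.lf (nat_lit 0x800800800b798f0f25)) (.lf (nat_lit 0x85480481debe82ac49)) (.lf (nat_lit 0x80681a813ab99bff50)) (.nd (.lf (nat_lit 0x822800800c26a60e69)) (.nd (.lf (nat_lit 0x80083081bdcea31d0b)) (.lf (nat_lit 0x8006c587addbb9abde)) (.lf (nat_lit 0x80080b80ac57ac7e1e)) (.lf (nat_lit 0x80782581ecabb01dc1))) (.lf (nat_lit 0x80081a818b36a47ef6)) (.lf (nat_lit 0x80081b81cbcdab4e7f)))) (.lf (nat_lit 0x837cb8bac661703cf5)) (.nd (.lf (nat_lit 0x8097708edc1a13981d)) (.nd (.lf (nat_lit 0x82280080019c434af2)) (.lf (nat_lit 0x8328008001ff4a1c10)) (.lf (nat_lit 0x80885b83112f40793d)) (.lf (nat_lit 0x841d56b4e9b99a9c56))) (.lf (nat_lit 0x80b75e8fbc4b15c83a)) (.nd (.lf (nat_lit 0x904792838da1c59b7b)) (.lf (nat_lit 0x80082c80fd76c22c20)) (.nd (.lf (nat_lit 0x8007ff81ec62ca5cd0)) (.lf (nat_lit 0x80083381fcb8c30ce9)) (.lf (nat_lit 0x822800800c69c99cd5)) (.lf (nat_lit 0x800800800ca2bd6d45)))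 (.lf (nat_lit 0x80082a81dc1eb01e29)))) (.nd (.lf (nat_lit 0x8098008005b261df6c)) (.lf (nat_lit 0x80080b80761c709fb6)) (.lf (nat_lit 0x8007f68038697c6ffc)) (.lf (nat_lit 0x808800800885878ff8))) (.lf (nat_lit 0x80096e8ec8088f9fc1)) (.lf (nat_lit 0x80c7958b2c31141874)))
  _ _ _ (by decide +kernel)

noncomputable def g1_m42_42 : GD 1 (-42) 42 := chk_sound 
  (.cell (.nd (.lf (nat_lit 0x822800800c24840ed6)) (.nd (.lf (nat_lit 0x8047678fbc38150854)) (.lf (nat_lit 0x80a78c8bec32140823)) (.lf (nat_lit 0x8236449dfe5763dbc3)) (.lf (nat_lit 0x80077e8c83adea981f))) (.lf (nat_lit 0x80080a812af1992f45)) (.nd (.lf (nat_lit 0x8006b08f1befabde32)) (.nd (.lf (nat_lit 0x89969988ec44bcbd5d)) (.nd (.lf (nat_lit 0x9aeaee833a48be4dac)) (.lf (nat_lit 0xaf066382a8d8c56dc3)) (.lf (nat_lit 0x85a818835c1fc50d50)) (.lf (nat_lit 0x800800800bedc4dd7b))) (.lf (nat_lit 0x829800800c40af3e19)) (.lf (nat_lit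 0x800822819c1dc2bd72))) (.lf (nat_lit 0x81e800800b40a32ef8)) (.lf (nat_lit 0x80082080bbc4ab7e83)))) (.lf (nat_lit 0x83bc9eba76306b5cee)) (.nd (.lf (nat_lit 0x80073a962421ed0832)) (.nd (.lf (nat_lit 0x80482881e1a3438b05)) (.lf (nat_lit 0x8008018151f94b0c14)) (.lf (nat_lit 0x80084c8201623c4975)) (.nd (.lf (nat_lit 0x80084782217c444abb)) (.lf (nat_lit 0x80984982b1fe4bfc25)) (.lf (nat_lit 0x808d86b6abd5a798fd)) (.lf (nat_lit 0x834b79a35b7aad7d2f)))) (.lf (nat_lit 0x8067688f83e8ec681a)) (.nd (.nd (.lf (nat_lit 0x81c9168b1c6ccdec5d)) (.lf (nat_lit 0x80785b843e41c7ea1d)) (.lf (nat_lit 0x80081681fc01cbcd0c)) (.lf (nat_lit 0x826800800d44c97be4))) (.nd (.lf (nat_lit 0x80582081dda3c2dbd6)) (.lf (nat_lit 0x826800800bdfb14e49)) (.lf (nat_lit 0x800831830cacbffd1c)) (.lf (nat_lit 0x80682881dbd6affe58))) (.nd (.lf (nat_lit 0x812800800b46c62dd5)) (.lf (nat_lit 0x800824814ca6c68cc9))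 (.lf (nat_lit 0x819800800a95c03e6b)) (.lf (nat_lit 0x80782a826c6cc2bd32))) (.lf (nat_lit 0x80f800800c04b88df2)))) (.nd (.lf (nat_lit 0x8008008006fd671fc8)) (.lf (nat_lit 0x8058008007c07bbffd)) (.lf (nat_lit 0x8008008008da796ff1)) (.lf (nat_lit 0x80a800800a178fafa8))) (.lf (nat_lit 0x828a0294b847907f8f)) (.lf (nat_lit 0x8007ff83ac1c127855)))
  _ _ _ (by decide +kernel)

noncomputable def g1_m46_46 : GD 1 (-46) 46 := chk_sound 
  (.cell (.nd (.lf (nat_lit 0x80081a812af8942f51)) (.lf (nat_lit 0x800822818d5f985dba)) (.lf (nat_lit 0x817800800a699a4f72)) (.lf (nat_lit 0x800801817bdba71e91))) (.lf (nat_lit 0x834c72b5068c75bd8a)) (.nd (.lf (nat_lit 0x80c7ad886c48147831)) (.nd (.lf (nat_lit 0x80083a8281b73deab3)) (.lf (nat_lit 0x80082d8092624cccb4)) (.lf (nat_lit 0x80089c8510f74588c8)) (.nd (.lf (nat_lit 0x8338008001ae456b3f)) (.lf (nat_lit 0x8008008003f060fe9c)) (.lf (nat_lit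 0x800822826d98becc27)) (.lf (nat_lit 0x8038118119b59cbf9b)))) (.lf (nat_lit 0x80b7628e5c8d186853)) (.nd (.lf (nat_lit 0x80084c82be0bbd8b8b)) (.lf (nat_lit 0x800823809bcfb2de46)) (.lf (nat_lit 0x800839817d84b1dce1)) (.lf (nat_lit 0x8007ff807beaab8e6c)))) (.nd (.lf (nat_lit 0x8008018145445cff30)) (.lf (nat_lit 0x8007ff80352d660f4e)) (.nd (.lf (nat_lit 0x820800800c421458b6)) (.nd (.lf (nat_lit 0x8007cb84dbff130932)) (.lf (nat_lit 0x8008008006e36edfd9)) (.lf (nat_lit 0x8007c5847c4116195f)) (.lf (nat_lit 0x8007ff80981d7a1ffd))) (.lf (nat_lit 0x80079589ec6c16e8d1)) (.nd (.lf (nat_lit 0x8007b3863c8b1a69a7)) (.lf (nat_lit 0x80d8008008fb847fef)) (.lf (nat_lit 0x8007ff816d462d4b10)) (.lf (nat_lit 0x80081680fa8d917f80)))) (.lf (nat_lit 0x8007fe8037fe80bfff))) (.lf (nat_lit 0x8017f78097af850ffc)) (.lf (nat_lit 0x8067c0865c5014c870)))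
  _ _ _ (by decide +kernel)

noncomputable def g1_m42_46 : GD 1 (-42) 46 := chk_sound 
  (.cell (.nd (.lf (nat_lit 0x80b800800bb8906f02)) (.lf (nat_lit 0x8007ca814ef58bdbde)) (.lf (nat_lit 0x800819815aa2995f62)) (.nd (.lf (nat_lit 0x800821817c29a3fe73)) (.lf (nat_lit 0x83072a8d0ce9aadd98)) (.lf (nat_lit 0x800801816b04a10f1d)) (.lf (nat_lit 0x8007ff80fb97a7aeb4)))) (.lf (nat_lit 0x876ca3b816fd797d5e)) (.nd (.lf (nat_lit 0x800683a71be219f801)) (.nd (.lf (nat_lit 0x80785a8391bd3feaeb)) (.lf (nat_lit 0x8008158192614dbcbd)) (.lf (nat_lit 0x80d86e84212c42a989)) (.nd (.lf (nat_lit 0x8008328261d2483bae)) (.lf (nat_lit 0x81e8008003d8608e8b)) (.lf (nat_lit 0x800a7b989dbdbd0ad3)) (.lf (nat_lit 0x8229318c38fc98afa8)))) (.lf (nat_lit 0x80975f8eec6616b81d)) (.nd (.lf (nat_lit 0x92e82c833decbfeb64)) (.lf (nat_lit 0x800826825c98ba7d6e)) (.nd (.lf (nat_lit 0x82a800800e0cc04b5a)) (.lf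 (nat_lit 0x80081b82cccdbccd25)) (.lf (nat_lit 0x801827813e6ab9eb1d)) (.lf (nat_lit 0x80081f805cd8b06d99))) (.lf (nat_lit 0x80080181bbd3abce78)))) (.nd (.lf (nat_lit 0x8008008085fc613f7f)) (.lf (nat_lit 0x8008118136166dafae)) (.lf (nat_lit 0x8007f880a83976cff9)) (.lf (nat_lit 0x80f8008008d9882ff0))) (.lf (nat_lit 0x8068008008538a1ff7)) (.lf (nat_lit 0x81077f8cbc3614785d)))
  _ _ _ (by decide +kernel)

theorem g2_m44_44 : GD 2 (-44) 44 :=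
  GD.split (i := 1) g1_m46_42 g1_m42_42 g1_m46_46 g1_m42_46 (by decide)

noncomputable def g1_m38_42 : GD 1 (-38) 42 := chk_sound 
  (.cell (.nd (.lf (nat_lit 0x8107d1808ce7722e42)) (.nd (.lf (nat_lit 0x8006d09ffbef170812)) (.lf (nat_lit 0x80875d914406ed2838)) (.lf (nat_lit 0x8552d4ababd9985b8b)) (.lf (nat_lit 0x8007dc84a3deec58f7))) (.lf (nat_lit 0x800814812b1a940f44)) (.nd (.lf (nat_lit 0x8366968b5ba6b51e17)) (.nd (.lf (nat_lit 0x80080681fba5c1add1)) (.nd (.lf (nat_lit 0x800800800a2dc00e93)) (.lf (nat_lit 0x80080b827a38c85e36)) (.lf (nat_lit 0x81e800800bf5bf4db7)) (.lf (nat_lit 0x80081680fb84c24dde))) (.lf (nat_lit 0x800828822c2db15e15)) (.lf (nat_lit 0x80582081fc2cc06d82))) (.lf (nat_lit 0x800818817b45a09f02)) (.lf (nat_lit 0x80781a817ba6b1de66)))) (.lf (nat_lit 0x82bb44a7f3a64dbc45)) (.nd (.lf (nat_lit 0x8007ec83e44af0d8a0)) (.nd (.lf (nat_lit 0x80484b82619b442afe))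 (.lf (nat_lit 0x80083a8261fb4c6c27)) (.lf (nat_lit 0x80d87f85618138391d)) (.lf (nat_lit 0x834e10bba8c88cfb77))) (.lf (nat_lit 0x8007a58ae420eee891)) (.nd (.nd (.lf (nat_lit 0x80783d832ddfcc1a9b)) (.lf (nat_lit 0x80e847834e42c6fa3d)) (.lf (nat_lit 0x806828826d26cacbf2)) (.nd (.lf (nat_lit 0x80084c82fd89c86b92)) (.lf (nat_lit 0x800846830d77c55be7)) (.nd (.lf (nat_lit 0x80081d824d1fc80c2d)) (.lf (nat_lit 0x80b830826d53c6cc00)) (.lf (nat_lit 0x800838832cebc71c78)) (.lf (nat_lit 0x804829825d0fc5fc62))) (.lf (nat_lit 0x820800800d16c3fc7a)))) (.lf (nat_lit 0x80984482fe19c37afc)) (.nd (.nd (.lf (nat_lit 0x8007da84355ce74be8)) (.lf (nat_lit 0x80081a822c3bc67d2a)) (.lf (nat_lit 0x81a80080057fe3ac59)) (.lf (nat_lit 0x80080281ebd4c45d93))) (.nd (.lf (nat_lit 0x80683682dcdec63c94)) (.lf (nat_lit 0x800825818ccac26ce0)) (.lf (nat_lit 0x800804823c95c41cfc)) (.lf (nat_lit 0x800800800ca9bedd2e)))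 (.lf (nat_lit 0x80080c81bb30c0ce1e)) (.lf (nat_lit 0x80081e821c61c2ed39))) (.lf (nat_lit 0x80082f81fc7abe2d5e)))) (.lf (nat_lit 0x8888b38919d67b4fb5)) (.lf (nat_lit 0x823a429778308fbf77)) (.lf (nat_lit 0x80775392fbee12c826)))
  _ _ _ (by decide +kernel)

noncomputable def g1_m34_42 : GD 1 (-34) 42 := chk_sound 
  (.cell (.nd (.lf (nat_lit 0x813800800dd27b5d7a)) (.lf (nat_lit 0x85d5f489db77be9da7)) (.lf (nat_lit 0x800801809b398d1f46)) (.nd (.lf (nat_lit 0x82f6c98b8b97b59e27)) (.lf (nat_lit 0x86683781ebeac21d9a)) (.lf (nat_lit 0x8007ff806b449cdf13)) (.lf (nat_lit 0x802820816b8bb02e82)))) (.lf (nat_lit 0x81daf4a223354d3c33)) (.nd (.lf (nat_lit 0x8007e385249df1e94e)) (.lf (nat_lit 0x83ec29a8033d573b58)) (.lf (nat_lit 0x8007e684a48ceff9ba)) (.nd (.nd (.lf (nat_lit 0x80a83282cdb7cf7a90)) (.lf (nat_lit 0x808857843e0dc80aa1)) (.lf (nat_lit 0x814800800d7fcb3b6a)) (.nd (.lf (nat_lit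 0x800856832dfec8bab2)) (.lf (nat_lit 0x807836827e15c6bab7)) (.nd (.lf (nat_lit 0x8007ff80edc8c8fb1f)) (.nd (.lf (nat_lit 0x80084b833de5c8dae5)) (.lf (nat_lit 0x80081a81fdedc76afc)) (.lf (nat_lit 0x80783d82ddcac86b25)) (.lf (nat_lit 0x800825829dd4c6eb36))) (.lf (nat_lit 0x800800800d9bc8eb6f)) (.nd (.nd (.lf (nat_lit 0x800811823dbdc83b43)) (.lf (nat_lit 0x800825824dc4c76b48)) (.lf (nat_lit 0x800801812db3c80b59)) (.lf (nat_lit 0x80c83c82bdbdc75b54))) (.lf (nat_lit 0x809844835dcec6db40)) (.nd (.lf (nat_lit 0x800843828dadc7eb63)) (.lf (nat_lit 0x80b843835db1c70b6e)) (.lf (nat_lit 0x800834835d9fc79b81)) (.lf (nat_lit 0x80084b83ada2c6bb8c))) (.lf (nat_lit 0x80c83a82fdb3c64b7b)))) (.lf (nat_lit 0x80480f80cde7c62b25)))) (.lf (nat_lit 0x802840828e11c45af9)) (.nd (.lf (nat_lit 0x80082f837d59ca9baf)) (.nd (.nd (.lf (nat_lit 0x80082080ed79c8bba7)) (.nd (.lf (nat_lit 0x811800800d93c76b9a))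 (.lf (nat_lit 0x81d800800d97c5bbb4)) (.lf (nat_lit 0x811800800d78c6cbce)) (.lf (nat_lit 0x80083d819d7bc50be8))) (.lf (nat_lit 0x806824823d5ac87bd8)) (.lf (nat_lit 0x821800800d64c63bf4))) (.lf (nat_lit 0x80183a831d96c44bce)) (.lf (nat_lit 0x80081680ad26c7fc26)) (.lf (nat_lit 0x80782e825cb3beed23))) (.lf (nat_lit 0x80582d826cc8c6bca4)) (.lf (nat_lit 0x80883082acf9c6bc6f))) (.lf (nat_lit 0x822800800ccfbc7d27)))) (.lf (nat_lit 0x83192789ca59717f7a)) (.lf (nat_lit 0x8009f593f8a1934f88)) (.lf (nat_lit 0x81275693b435ee681c)))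
  _ _ _ (by decide +kernel)

noncomputable def g1_m38_46 : GD 1 (-38) 46 := chk_sound 
  (.cell (.nd (.lf (nat_lit 0x800800800c56843eb7)) (.nd (.lf (nat_lit 0x80377c8cac5915c83b)) (.lf (nat_lit 0x80c6cf9dac2f18d80a)) (.lf (nat_lit 0x8007b6804f2b719b6b)) (.lf (nat_lit 0x80271b880109bc4873))) (.lf (nat_lit 0x800815810ad496bf58)) (.nd (.lf (nat_lit 0x807824812c1ea3fe7a)) (.nd (.lf (nat_lit 0x82a69c8e2cd2b5ad2c)) (.lf (nat_lit 0x96d64e81ccdfb9ecb7)) (.lf (nat_lit 0x80680d809c36ab2e3e)) (.lf (nat_lit 0x80081a807c84b07ddd))) (.lf (nat_lit 0x800800800b0f9f9f1f)) (.lf (nat_lit 0x80080181cb8ca71ebd)))) (.lf (nat_lit 0x8afc99bc07417a4d41)) (.nd (.lf (nat_lit 0x8077708f940dedb84a)) (.nd (.lf (nat_lit 0x8298008001b6419b06)) (.lf (nat_lit 0x8008388162674eecd0)) (.lf (nat_lit 0x80d83982314a4169e0)) (.nd (.lf (nat_lit 0x8008328141de49abd7)) (.lf (nat_lit 0x80082381344365cee0)) (.lf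 (nat_lit 0x832cf9b17a5a9e6c88)) (.lf (nat_lit 0x8199088a88ee984fb3)))) (.lf (nat_lit 0x80a7648ef3c3eaf842)) (.nd (.lf (nat_lit 0x80081d828dddc6bb2a)) (.nd (.lf (nat_lit 0x823800800d38bcfcb6)) (.lf (nat_lit 0x80081b805ab9a52f27)) (.lf (nat_lit 0x80081381fc26b7ade3)) (.lf (nat_lit 0x80380d80cb2da80ee7))) (.nd (.lf (nat_lit 0x800801813b03befe47)) (.lf (nat_lit 0x81a800800c99c31d06)) (.lf (nat_lit 0x80083182ac5ac26d45)) (.lf (nat_lit 0x81d800800c79be1d60))) (.lf (nat_lit 0x80082580bbc1abee82)))) (.lf (nat_lit 0x8047d48b588678bfef)) (.lf (nat_lit 0x80c8d78918748f5fdd)) (.lf (nat_lit 0x80a7698fbc1b13d83c)))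
  _ _ _ (by decide +kernel)

noncomputable def g1_m34_46 : GD 1 (-34) 46 := chk_sound 
  (.cell (.nd (.lf (nat_lit 0x8007e880ad0c772e2e)) (.lf (nat_lit 0x80058180bc19bd1d23)) (.lf (nat_lit 0x810800800afb926f55)) (.nd (.lf (nat_lit 0x86f6cc897bdbad7e40)) (.lf (nat_lit 0x94389881ac1ebcbd8a)) (.lf (nat_lit 0x808800800b179d2f26)) (.lf (nat_lit 0x81c800800b82a5eec9)))) (.lf (nat_lit 0x88fc8cbf2752786d2b)) (.nd (.lf (nat_lit 0x8007d8852436f008ad)) (.nd (.lf (nat_lit 0x8008138121ab435b13)) (.lf (nat_lit 0x80082a823282511d04)) (.lf (nat_lit 0x8008608351564069e2)) (.lf (nat_lit 0x813cc7afb5676ffd04))) (.lf (nat_lit 0x8007d582b3e5e4baba)) (.nd (.nd (.lf (nat_lit 0x80782e826dd1c6eb3b)) (.lf (nat_lit 0x800800800e46c23abd)) (.nd (.lf (nat_lit 0x8408d086d614caae22)) (.lf (nat_lit 0x80a82a82bcaec6dcbc)) (.lf (nat_lit 0x8538de86466cc40e83)) (.lf (nat_lit 0x80582782cca0c31cff))) (.lf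 (nat_lit 0x800833832d2cc26c77))) (.nd (.lf (nat_lit 0x8159318bfdaabf4bc8)) (.lf (nat_lit 0x800800800aa3a37f38)) (.lf (nat_lit 0x814800800c14b49e0b)) (.lf (nat_lit 0x80080e808b17a67ef9))) (.nd (.nd (.lf (nat_lit 0x84bb118a7a69c32d89)) (.lf (nat_lit 0x84084c82ec74c50d09)) (.lf (nat_lit 0x88f99e84bbbcbffd92)) (.lf (nat_lit 0x80082582bc6cc13d45))) (.lf (nat_lit 0x80582b824c98c13d1f)) (.lf (nat_lit 0x80082482ab31bd2e42)) (.lf (nat_lit 0x800800800c92b7ad91))) (.lf (nat_lit 0x808815811bb0ab3e90)))) (.lf (nat_lit 0x8b27e08f6931787fce)) (.lf (nat_lit 0x8009228c188290bfcc)) (.lf (nat_lit 0x80a67ea93bc019980d)))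
  _ _ _ (by decide +kernel)

theorem g2_m36_44 : GD 2 (-36) 44 :=
  GD.split (i := 1) g1_m38_42 g1_m34_42 g1_m38_46 g1_m34_46 (by decide)

theorem g3_m40_40 : GD 3 (-40) 40 :=
  GD.split (i := 2) g2_m44_36 g2_m36_36 g2_m44_44 g2_m36_44 (by decide)

noncomputable def g0_m47_49 : GD 0 (-47) 49 := chk_sound 
  (.cell (.lf (nat_lit 0x8157e3821b1fa55efb)) (.lf (nat_lit 0x804c5db526ab76bda3)) (.nd (.lf (nat_lit 0x8097648f0c5c16583d)) (.nd (.lf (nat_lit 0x80082d82d200334a35)) (.lf (nat_lit 0x8248008002b54f2d28)) (.lf (nat_lit 0x8148d78690d6496849)) (.lf (nat_lit 0x82a9478c2773889fd2))) (.lf (nat_lit 0x80075d8d8cc31ad865)) (.lf (nat_lit 0x800825821ca2ae3dd8))) (.nd (.lf (nat_lit 0x8008008005845dbf4b)) (.lf (nat_lit 0x8108008004e0615f1c)) (.lf (nat_lit 0x81087287a85a7aeff5)) (.lf (nat_lit 0x800800800828863ffd))) (.lf (nat_lit 0x80480080073b805ff6)) (.lf (nat_lit 0x8007718ddc5f166872)))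
  _ _ _ (by decide +kernel)

noncomputable def g0_m45_49 : GD 0 (-45) 49 := chk_sound 
  (.cell (.lf (nat_lit 0x8227e2846b35a56ef0)) (.lf (nat_lit 0x830c63b4e6b376fda3)) (.nd (.lf (nat_lit 0x80d746921c4c165833)) (.lf (nat_lit 0x82ec2ba8f6517a2e16)) (.lf (nat_lit 0x8067d1844cbf195858)) (.lf (nat_lit 0x810800800c8daeade5))) (.nd (.lf (nat_lit 0x8138008005b45eef60)) (.lf (nat_lit 0x80081681650362df31)) (.lf (nat_lit 0x80080080083177dffb)) (.lf (nat_lit 0x80080580986087affa))) (.lf (nat_lit 0x80080080075b817ff9)) (.lf (nat_lit 0x80a7958a7c5c15b86e)))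
  _ _ _ (by decide +kernel)

noncomputable def g0_m47_51 : GD 0 (-47) 51 := chk_sound 
  (.cell (.lf (nat_lit 0x800815817b07a48f0b)) (.lf (nat_lit 0x839c42b525ee6d1d65)) (.lf (nat_lit 0x821b96a578f795ce8b)) (.nd (.lf (nat_lit 0x80081181757e5c9f43)) (.lf (nat_lit 0x80082480d4df602f16)) (.lf (nat_lit 0x8088008008617a0ffb)) (.lf (nat_lit 0x80180080080c851ffe))) (.lf (nat_lit 0x8008118027267f7ff4)) (.lf (nat_lit 0x8067a3890c6f165873)))
  _ _ _ (by decide +kernel)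

noncomputable def g0_m45_51 : GD 0 (-45) 51 := chk_sound 
  (.cell (.lf (nat_lit 0x8007dd840b0aa47f08)) (.lf (nat_lit 0x829c4cb576ae76adae)) (.lf (nat_lit 0x82fbbaa6d91e979e62)) (.nd (.lf (nat_lit 0x80080f8185925d2f4d)) (.lf (nat_lit 0x80081a80c4ee60ff20)) (.lf (nat_lit 0x80080180b84d78dffb)) (.lf (nat_lit 0x8007ff807830861ffd))) (.lf (nat_lit 0x8008008007327feff5)) (.lf (nat_lit 0x817800800c6d15b871)))
  _ _ _ (by decide +kernel)

theorem g1_m46_50 : GD 1 (-46) 50 :=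
  GD.split (i := 0) g0_m47_49 g0_m45_49 g0_m47_51 g0_m45_51 (by decide)

noncomputable def g1_m42_50 : GD 1 (-42) 50 := chk_sound 
  (.cell (.nd (.lf (nat_lit 0x80081f814b0b947f49)) (.lf (nat_lit 0x800801809d49995dca)) (.lf (nat_lit 0x800816817a59987f7e)) (.lf (nat_lit 0x819800800bbda50eae))) (.lf (nat_lit 0x822c5ab5c6c0779da6)) (.nd (.lf (nat_lit 0x80870198ec32173821)) (.nd (.lf (nat_lit 0x80c8448351f8370a94)) (.lf (nat_lit 0x8008008002d2511d57)) (.lf (nat_lit 0x836c16a602784f394b)) (.lf (nat_lit 0x833c08a728b4946e4b))) (.lf (nat_lit 0x80078a89ccc119f842)) (.nd (.lf (nat_lit 0x80083781adf6bcdbbb)) (.lf (nat_lit 0x807813811afda65f05)) (.lf (nat_lit 0x80080f818d6fb16cfd)) (.lf (nat_lit 0x800823813b99a82eb0)))) (.nd (.lf (nat_lit 0x8008018105625b9f35)) (.lf (nat_lit 0x80080080053f648f4f)) (.nd (.lf (nat_lit 0x8007908a4c471538b2)) (.lf (nat_lit 0x8007f980482d78bffc)) (.lf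 (nat_lit 0x800801821c891778cf)) (.lf (nat_lit 0x800801805954870fe0))) (.lf (nat_lit 0x8008008048057effff))) (.lf (nat_lit 0x8007f6806781827ffb)) (.lf (nat_lit 0x80079e88dc58155867)))
  _ _ _ (by decide +kernel)

noncomputable def g1_m46_54 : GD 1 (-46) 54 := chk_sound 
  (.cell (.lf (nat_lit 0x81a7d3832af9a3cf13)) (.lf (nat_lit 0x817c27b605fe6d9d79)) (.lf (nat_lit 0x800b94a568ef957e90)) (.nd (.lf (nat_lit 0x80880080057e575f28)) (.lf (nat_lit 0x80081a80d4f15f7f1a)) (.lf (nat_lit 0x80080180384e76fff9)) (.lf (nat_lit 0x8008008007ec7e2fff))) (.lf (nat_lit 0x80a80080071f7fcff3)) (.lf (nat_lit 0x8037848b2c7817187d)))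
  _ _ _ (by decide +kernel)

noncomputable def g0_m43_53 : GD 0 (-43) 53 := chk_sound 
  (.cell (.lf (nat_lit 0x81c7d7840af4a3af16)) (.lf (nat_lit 0x821c31b4e5f16d2d76)) (.lf (nat_lit 0x836bb2a6091697ce6c)) (.nd (.lf (nat_lit 0x8068008005a05b2f48)) (.lf (nat_lit 0x8007ff8044fa60af24)) (.lf (nat_lit 0x8007fb80d842773ffa)) (.lf (nat_lit 0x802805809836862ffc))) (.lf (nat_lit 0x80c80080072a7feff4)) (.lf (nat_lit 0x8007828bfc6c16a877)))
  _ _ _ (by decide +kernel)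

noncomputable def g0_m41_53 : GD 0 (-41) 53 := chk_sound 
  (.cell (.lf (nat_lit 0x800800800b6ea6eece)) (.lf (nat_lit 0x800c37b485fa6d8d7a)) (.lf (nat_lit 0x831bdba6e93b998e41)) (.nd (.lf (nat_lit 0x8008018195cb5c7f5c)) (.lf (nat_lit 0x81180080051861df35)) (.lf (nat_lit 0x80080180584776aff9)) (.lf (nat_lit 0x80380880a863873ffa))) (.lf (nat_lit 0x8007ff80273f809ff6)) (.lf (nat_lit 0x8097bd865c6b15e873)))
  _ _ _ (by decide +kernel)

noncomputable def g0_m43_55 : GD 0 (-43) 55 := chk_sound 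
  (.cell (.lf (nat_lit 0x8157b7872ae1a2ff1d)) (.lf (nat_lit 0x817c0db535e26c6d86)) (.lf (nat_lit 0x81fb95a488f8977e8b)) (.nd (.lf (nat_lit 0x8008188085a3578f35)) (.lf (nat_lit 0x80080181a4f95fdf20)) (.lf (nat_lit 0x80380080084e76bff9)) (.lf (nat_lit 0x8007ff80881f85affd))) (.lf (nat_lit 0x8007f680171a802ff3)) (.lf (nat_lit 0x8067c784cc7c169884)))
  _ _ _ (by decide +kernel)

noncomputable def g0_m41_55 : GD 0 (-41) 55 := chk_sound 
  (.cell (.lf (nat_lit 0x80081780ab54a6dedb)) (.lf (nat_lit 0x800c13b4e5e86ccd88)) (.lf (nat_lit 0x836bb3a4f90c98ae70)) (.nd (.lf (nat_lit 0x8088008005b4584f3f)) (.lf (nat_lit 0x80080c81b507609f29)) (.lf (nat_lit 0x8007f780884f768ff8)) (.lf (nat_lit 0x80080080083c867ffc))) (.lf (nat_lit 0x800800800721807ff3)) (.lf (nat_lit 0x80777a8d0c71171884)))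
  _ _ _ (by decide +kernel)

theorem g1_m42_54 : GD 1 (-42) 54 :=
  GD.split (i := 0) g0_m43_53 g0_m41_53 g0_m43_55 g0_m41_55 (by decide)

theorem g2_m44_52 : GD 2 (-44) 52 :=
  GD.split (i := 1) g1_m46_50 g1_m42_50 g1_m46_54 g1_m42_54 (by decide)

noncomputable def g1_m38_50 : GD 1 (-38) 50 := chk_sound 
  (.cell (.nd (.lf (nat_lit 0x800824812bc0919efa)) (.lf (nat_lit 0x821809817ecf961bf5)) (.lf (nat_lit 0x800800800a8b979f70)) (.lf (nat_lit 0x800722856ba6a58ea8))) (.lf (nat_lit 0x821c62b826c4787d8a)) (.nd (.lf (nat_lit 0x8096c99fb3fde8480e)) (.nd (.lf (nat_lit 0x80a84482f1e63b4adb)) (.lf (nat_lit 0x81d8008002d251cd5d)) (.lf (nat_lit 0x800b0e9d01fa4ac9fe)) (.lf (nat_lit 0x837c7bac581d8d6df5))) (.lf (nat_lit 0x81277c88c28cdc9869)) (.nd (.lf (nat_lit 0x80784b82ae1cbbab8e)) (.lf (nat_lit 0x80081781cc2eb6ede4)) (.lf (nat_lit 0x85e77b86dd7baeccfb)) (.lf (nat_lit 0x8007ff809b7ca7dec1))))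 (.nd (.lf (nat_lit 0x80081580c628600f85)) (.lf (nat_lit 0x8198008005f069ef9a)) (.lf (nat_lit 0x80080080084e751ff7)) (.lf (nat_lit 0x80d8008008ba843ff6))) (.lf (nat_lit 0x8008008007f685cffd)) (.lf (nat_lit 0x80b7808cec4314f853)))
  _ _ _ (by decide +kernel)

noncomputable def g1_m34_50 : GD 1 (-34) 50 := chk_sound 
  (.cell (.nd (.lf (nat_lit 0x80082b809c87869e94)) (.lf (nat_lit 0xa434da82be1da02abc)) (.lf (nat_lit 0x800801814ab8955f67)) (.nd (.lf (nat_lit 0x827800800c23a22e81)) (.lf (nat_lit 0x99d77e813c92af2d9d)) (.lf (nat_lit 0x811800800ada9cff40)) (.lf (nat_lit 0x8007ff806b50a3ceee)))) (.lf (nat_lit 0x835c83bb37727c5d6f)) (.nd (.lf (nat_lit 0x80c7998b83f9eda850)) (.nd (.lf (nat_lit 0x8008228071d73e4b04)) (.lf (nat_lit 0x80083680c2da52bd6c)) (.lf (nat_lit 0x80b85a82a150449a4c)) (.lf (nat_lit 0x83bc9eae167b7cada7))) (.lf (nat_lit 0x81a8008001c9c6ea63)) (.nd (.lf (nat_lit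 0x800827822e18c18b2a)) (.lf (nat_lit 0x828aaf9adb9cb05da3)) (.nd (.lf (nat_lit 0x811856830e54bbdb21)) (.lf (nat_lit 0x800822814ca1bbdd57)) (.lf (nat_lit 0x80083f828e17b63bea)) (.lf (nat_lit 0x80081581aca9b05dc1))) (.lf (nat_lit 0x829800800b66a76ecf)))) (.lf (nat_lit 0x8207f988288d74dfee)) (.lf (nat_lit 0x80980080086f881ff8)) (.lf (nat_lit 0x8007bf86ec34138833)))
  _ _ _ (by decide +kernel)

noncomputable def g1_m38_54 : GD 1 (-38) 54 := chk_sound 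
  (.cell (.nd (.lf (nat_lit 0x80080180db13943f46)) (.lf (nat_lit 0x835800800e568f9cc7)) (.lf (nat_lit 0x811800800a44977f87)) (.lf (nat_lit 0x804814810b90a36ecf))) (.lf (nat_lit 0x81bc2bb5160d6ebd88)) (.nd (.lf (nat_lit 0x8087a988cc5114d81d)) (.nd (.lf (nat_lit 0x80085c8592142e198d)) (.lf (nat_lit 0x80082280a356580dff)) (.lf (nat_lit 0x81ca9e9811d04cba80)) (.lf (nat_lit 0x8008008005ed793fb6))) (.lf (nat_lit 0x82069d91ee17323827)) (.nd (.lf (nat_lit 0x80083082bddabc3bf0)) (.lf (nat_lit 0x8008008009fa9edf82)) (.lf (nat_lit 0x800829818dc4a7ecf2)) (.lf (nat_lit 0x80381b812b21a4eefd)))) (.nd (.lf (nat_lit 0x81080080058d597f39)) (.lf (nat_lit 0x80080c815549635f4e)) (.lf (nat_lit 0x80680080084f766ff8)) (.lf (nat_lit 0x8008018078197c0ffe))) (.lf (nat_lit 0x8007f4805755818ff8)) (.lf (nat_lit 0x80d78e8b0c64162874)))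
  _ _ _ (by decide +kernel)

noncomputable def g1_m34_54 : GD 1 (-34) 54 := chk_sound 
  (.cell (.nd (.lf (nat_lit 0x80080180ec3b8edeb9)) (.lf (nat_lit 0x820800800e858e8c8a)) (.lf (nat_lit 0x800801815a6d96af7d)) (.lf (nat_lit 0x80081c817b79a2fedd))) (.lf (nat_lit 0x800c90ba26c3751d49)) (.nd (.lf (nat_lit 0x8007628f93d2eb880b)) (.lf (nat_lit 0x821a299583835f0dc0)) (.lf (nat_lit 0x81075e854107bcc8a1)) (.nd (.lf (nat_lit 0x80094e8c7d9fbe4bdd)) (.lf (nat_lit 0x8008168109ab9caf9d)) (.lf (nat_lit 0x800818813d85acbd11)) (.lf (nat_lit 0x808800800af5a43f14)))) (.nd (.lf (nat_lit 0x80380d8136415e0f82)) (.lf (nat_lit 0x8148008005cf674f89)) (.lf (nat_lit 0x809800800867745ff4)) (.lf (nat_lit 0x8038008008e7857ff1))) (.lf (nat_lit 0x8027f98047a0837ffc)) (.lf (nat_lit 0x8027b0874c58152863)))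
  _ _ _ (by decide +kernel)

theorem g2_m36_52 : GD 2 (-36) 52 :=
  GD.split (i := 1) g1_m38_50 g1_m34_50 g1_m38_54 g1_m34_54 (by decide)

noncomputable def g1_m46_58 : GD 1 (-46) 58 := chk_sound 
  (.cell (.lf (nat_lit 0x8007ff809b35a49ef6)) (.lf (nat_lit 0x82cbe0b645e56c6d9d)) (.lf (nat_lit 0x876be4a658ce92fe64)) (.nd (.lf (nat_lit 0x80380880e57a554f1a)) (.lf (nat_lit 0x81a8008005225fbf30)) (.lf (nat_lit 0x800800800865750ff5)) (.lf (nat_lit 0x8018028077f87dbfff))) (.lf (nat_lit 0x8007f680672a82bff4)) (.lf (nat_lit 0x80a7858b2c8417c89f)))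
  _ _ _ (by decide +kernel)

noncomputable def g1_m42_58 : GD 1 (-42) 58 := chk_sound 
  (.cell (.lf (nat_lit 0x800801816b52a4aee8)) (.lf (nat_lit 0x80fbebb5f5e36ccd99)) (.lf (nat_lit 0x8a1bd3a4b8dd925e74)) (.nd (.lf (nat_lit 0x80080181f5a554cf26)) (.lf (nat_lit 0x80080181350c5fcf27)) (.lf (nat_lit 0x80080180b871756ff5)) (.lf (nat_lit 0x80080180380a7d3fff))) (.lf (nat_lit 0x80080080070f824ff1)) (.lf (nat_lit 0x8097b486fc851758a7)))
  _ _ _ (by decide +kernel)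

noncomputable def g1_m46_62 : GD 1 (-46) 62 := chk_sound 
  (.cell (.lf (nat_lit 0x8117c3874b6ba68ecd)) (.lf (nat_lit 0x818bf1c2869475cd5c)) (.lf (nat_lit 0x82bc87a5084890be14)) (.nd (.lf (nat_lit 0x80081280c5cb4ebf0b)) (.lf (nat_lit 0x80080180c563613f4f)) (.lf (nat_lit 0x80580080089c72ffef)) (.lf (nat_lit 0x8008018018437ecffe))) (.lf (nat_lit 0x80080080071e881fef)) (.lf (nat_lit 0x8057cc855c8417a8eb)))
  _ _ _ (by decide +kernel)

noncomputable def g1_m42_62 : GD 1 (-42) 62 := chk_sound 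
  (.cell (.lf (nat_lit 0x819804856b83a63ec5)) (.lf (nat_lit 0x812c01c1e690764d58)) (.lf (nat_lit 0x832c85a2180b8d6e30)) (.nd (.lf (nat_lit 0x8008098215b04e9f01)) (.lf (nat_lit 0x80080980c53a60ff3f)) (.nd (.lf (nat_lit 0x8007dc845c4f1869d4)) (.lf (nat_lit 0x8007f480b88b73bff1)) (.lf (nat_lit 0x8007d583bd38289a9a)) (.lf (nat_lit 0x814800800a948d7f86))) (.lf (nat_lit 0x8008018098417a5ffc))) (.lf (nat_lit 0x80e8008006f887cfeb)) (.lf (nat_lit 0x8047ad871c861818fe)))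
  _ _ _ (by decide +kernel)

theorem g2_m44_60 : GD 2 (-44) 60 :=
  GD.split (i := 1) g1_m46_58 g1_m42_58 g1_m46_62 g1_m42_62 (by decide)

noncomputable def g0_m39_57 : GD 0 (-39) 57 := chk_sound 
  (.cell (.lf (nat_lit 0x808817814b74a84ec3)) (.lf (nat_lit 0x800bedb4d5da6c8d9e)) (.lf (nat_lit 0x880beda368d8931e6d)) (.nd (.lf (nat_lit 0x80080181d5cd54ff34)) (.lf (nat_lit 0x80081081151560cf2f)) (.lf (nat_lit 0x8027f880d85f75dff7)) (.lf (nat_lit 0x8008008008197e1fff))) (.lf (nat_lit 0x8007ff80571681aff2)) (.lf (nat_lit 0x8077868b8c7817489b)))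
  _ _ _ (by decide +kernel)

noncomputable def g0_m37_57 : GD 0 (-37) 57 := chk_sound 
  (.cell (.lf (nat_lit 0x800818817b6aa7cecb)) (.lf (nat_lit 0x82ac5fbd36a274cd47)) (.lf (nat_lit 0x824c09a348d8973e53)) (.nd (.lf (nat_lit 0x8128008005fe564f4a)) (.lf (nat_lit 0x80581a81552f61ef3e)) (.lf (nat_lit 0x803800800864756ff6)) (.lf (nat_lit 0x8007ff8028457f6ffe))) (.lf (nat_lit 0x80a800800722822ff3)) (.lf (nat_lit 0x800801827c7a167899)))
  _ _ _ (by decide +kernel)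

noncomputable def g0_m39_59 : GD 0 (-39) 59 := chk_sound 
  (.cell (.lf (nat_lit 0x8007d184cb6aa80ec7)) (.lf (nat_lit 0x82dc36bf6692752d4b)) (.lf (nat_lit 0x83cc47a388598f8e4c)) (.nd (.lf (nat_lit 0x8008048165dd50ef1f)) (.lf (nat_lit 0x80080b817517609f2f)) (.lf (nat_lit 0x8017fa809871753ff5)) (.lf (nat_lit 0x80080080081d7d5fff))) (.lf (nat_lit 0x800800800704837fef)) (.lf (nat_lit 0x8057c8855c851758bd)))
  _ _ _ (by decide +kernel)

noncomputable def g0_m37_59 : GD 0 (-37) 59 := chk_sound 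
  (.cell (.lf (nat_lit 0x8557cb87cb5da72ece)) (.lf (nat_lit 0x820c3abec694754d50)) (.lf (nat_lit 0x83fc4aa2d85890fe4a)) (.nd (.lf (nat_lit 0x8168008005f1516f28)) (.lf (nat_lit 0x80581a80f525616f38)) (.lf (nat_lit 0x80080080f873751ff5)) (.lf (nat_lit 0x8007fd8068357e5fff))) (.lf (nat_lit 0x8057f680570683bfef)) (.lf (nat_lit 0x80c79789dc7e1788c0)))
  _ _ _ (by decide +kernel)

theorem g1_m38_58 : GD 1 (-38) 58 :=
  GD.split (i := 0) g0_m39_57 g0_m37_57 g0_m39_59 g0_m37_59 (by decide)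

noncomputable def g1_m34_58 : GD 1 (-34) 58 := chk_sound 
  (.cell (.lf (nat_lit 0x800807818ba1a79eaf)) (.lf (nat_lit 0x818c5dbc36ae751d58)) (.nd (.lf (nat_lit 0x80f752912c4615d82a)) (.lf (nat_lit 0x80081b8133c76cceaf)) (.lf (nat_lit 0x807779851eca3d382d)) (.lf (nat_lit 0x8476df867aaaa96efa))) (.nd (.lf (nat_lit 0x8008008005d7534f2d)) (.lf (nat_lit 0x80081c81955b639f56)) (.lf (nat_lit 0x80a80080087274fff5)) (.lf (nat_lit 0x8007f780884b77bffa))) (.lf (nat_lit 0x8007ff805726838ff3)) (.lf (nat_lit 0x80d78c8b6c711708aa)))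
  _ _ _ (by decide +kernel)

noncomputable def g1_m38_62 : GD 1 (-38) 62 := chk_sound 
  (.cell (.lf (nat_lit 0x821800800ba3a65eb5)) (.lf (nat_lit 0x81ac0cc0f69176cd5c)) (.lf (nat_lit 0x834c8da0e8058d9e30)) (.nd (.lf (nat_lit 0x8008008145e3508f1f)) (.lf (nat_lit 0x80081f81d5895abf3e)) (.lf (nat_lit 0x8017f780c8a373afef)) (.lf (nat_lit 0x80080080a87876cff7))) (.lf (nat_lit 0x80c8008006e0880fe7)) (.lf (nat_lit 0x8057b885dc8618290f)))
  _ _ _ (by decide +kernel)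

noncomputable def g1_m34_62 : GD 1 (-34) 62 := chk_sound 
  (.cell (.lf (nat_lit 0x800800800be2a9be7d)) (.lf (nat_lit 0x817c0fbf8692770d6c)) (.lf (nat_lit 0x838c949ca7a58cbe3f)) (.nd (.lf (nat_lit 0x80080e81d5ef497eef)) (.lf (nat_lit 0x80081580f59c5c3f4c)) (.nd (.lf (nat_lit 0x8007fe834c5b19fa0f)) (.nd (.lf (nat_lit 0x8007d4836b3720fc46)) (.nd (.lf (nat_lit 0x80080181b86d313e49)) (.lf (nat_lit 0x8008068246ec533f6a)) (.lf (nat_lit 0x8007f8816912510f5c)) (.lf (nat_lit 0x80880080084a6fbfed))) (.lf (nat_lit 0x8007e2826c1f46add7)) (.nd (.lf (nat_lit 0x800800800a60636f6d)) (.lf (nat_lit 0x80080080e89d73eff0)) (.lf (nat_lit 0x800800800b616d7f28)) (.lf (nat_lit 0x8008008009dc80dfc7)))) (.lf (nat_lit 0x8007da836d1c26fa9b)) (.lf (nat_lit 0x80181a807b1c8c5f54))) (.nd (.lf (nat_lit 0x8007fd80a896743ff1)) (.lf (nat_lit 0x8007f780475883cff8)) (.lf (nat_lit 0x810800800a12893fb4))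 (.lf (nat_lit 0x80280680d86c8d1ff2)))) (.lf (nat_lit 0x8007fc8086d688bfe5)) (.lf (nat_lit 0x8067ad87fc8018391e)))
  _ _ _ (by decide +kernel)

theorem g2_m36_60 : GD 2 (-36) 60 :=
  GD.split (i := 1) g1_m38_58 g1_m34_58 g1_m38_62 g1_m34_62 (by decide)

theorem g3_m40_56 : GD 3 (-40) 56 :=
  GD.split (i := 2) g2_m44_52 g2_m36_52 g2_m44_60 g2_m36_60 (by decide)

noncomputable def g1_m46_66 : GD 1 (-46) 66 := chk_sound 
  (.cell (.lf (nat_lit 0x800800800beba8de7d)) (.lf (nat_lit 0x81db61c716947bcd8b)) (.lf (nat_lit 0x84ad2199b6f7899dcb)) (.nd (.lf (nat_lit 0x8007ff81d64b394e71)) (.lf (nat_lit 0x8008008005a4636f6e)) (.lf (nat_lit 0x8007ff80d9936dcfc2)) (.lf (nat_lit 0x8007ff8038a97f9ff9))) (.lf (nat_lit 0x8088008006be909fd5)) (.lf (nat_lit 0x8097bc862c51178990)))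
  _ _ _ (by decide +kernel)

noncomputable def g1_m42_66 : GD 1 (-42) 66 := chk_sound 
  (.cell (.lf (nat_lit 0x800813813bf4aa4e6e)) (.lf (nat_lit 0x825b77c6268d7c7d88)) (.lf (nat_lit 0x846d0795d6d88addea)) (.nd (.lf (nat_lit 0x80080182960c3a7e6c)) (.lf (nat_lit 0x80080181a5dc5b7f5c)) (.lf (nat_lit 0x8008008008db713fe6)) (.lf (nat_lit 0x800801808874742ff3))) (.lf (nat_lit 0x8007f080d698910fcd)) (.lf (nat_lit 0x8037c5850c601889ad)))
  _ _ _ (by decide +kernel)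

noncomputable def g1_m46_70 : GD 1 (-46) 70 := chk_sound 
  (.cell (.lf (nat_lit 0x80782b81dc8ca66e20)) (.lf (nat_lit 0x800a13dc76ec97fcc9)) (.lf (nat_lit 0x85fe7b8f265e8fac29)) (.nd (.lf (nat_lit 0x8007ff82a78b22bd73)) (.lf (nat_lit 0x8008008006535d8f84)) (.lf (nat_lit 0x81b800800ad0692f59)) (.lf (nat_lit 0x80080180490180bfef))) (.lf (nat_lit 0x8007ff810646966faf)) (.lf (nat_lit 0x8158fc8bbbe5324cdd)))
  _ _ _ (by decide +kernel)

noncomputable def g1_m42_70 : GD 1 (-42) 70 := chk_sound 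
  (.cell (.lf (nat_lit 0x800800800c96a79e11)) (.lf (nat_lit 0x812a4ad9b6e798acdf)) (.lf (nat_lit 0xd3eae3988716891cf7)) (.nd (.lf (nat_lit 0x8008088186e52eee16)) (.lf (nat_lit 0x80080b8036155edf7b)) (.lf (nat_lit 0x8067ee80ca266b7f98)) (.lf (nat_lit 0x8007fa8098e7743fea))) (.lf (nat_lit 0x80080080062497efa2)) (.lf (nat_lit 0x8007ff822bea354d2d)))
  _ _ _ (by decide +kernel)

theorem g2_m44_68 : GD 2 (-44) 68 :=
  GD.split (i := 1) g1_m46_66 g1_m42_66 g1_m46_70 g1_m42_70 (by decide)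

noncomputable def g1_m38_66 : GD 1 (-38) 66 := chk_sound 
  (.cell (.lf (nat_lit 0x81280d839bffa9ee69)) (.lf (nat_lit 0x81db88c4e68a7d5d8d)) (.lf (nat_lit 0x871cf49226ad8d8df5)) (.nd (.lf (nat_lit 0x800801822644451ee2)) (.lf (nat_lit 0x8008018165ba5bef54)) (.lf (nat_lit 0x8007f78038d6715fe7)) (.lf (nat_lit 0x8017f580e8a574dff1))) (.lf (nat_lit 0x80080080067791efc5)) (.lf (nat_lit 0x8047bd85dc671969cc)))
  _ _ _ (by decide +kernel)

noncomputable def g1_m34_66 : GD 1 (-34) 66 := chk_sound 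
  (.cell (.lf (nat_lit 0x80080f81abeba7ee83)) (.lf (nat_lit 0x800b91c346897e0d9b)) (.lf (nat_lit 0x877cf990666d907dde)) (.nd (.lf (nat_lit 0x80080681c69049cf19)) (.lf (nat_lit 0x81c8008005e1599f54)) (.lf (nat_lit 0x80c8008008e871afe5)) (.lf (nat_lit 0x8007ff80c8b2744fef))) (.lf (nat_lit 0x8007ff81165d930fbd)) (.lf (nat_lit 0x8007cb85ac6819f9eb)))
  _ _ _ (by decide +kernel)

noncomputable def g1_m38_70 : GD 1 (-38) 70 := chk_sound 
  (.cell (.lf (nat_lit 0x800815814c3ea9ee41)) (.lf (nat_lit 0x81aa76d706e3994cf7)) (.lf (nat_lit 0x800e1a8a66ed947cdb)) (.nd (.lf (nat_lit 0x8007ff8296aa31de30)) (.lf (nat_lit 0x8007ff80d66a55cf62)) (.lf (nat_lit 0x8108008009aa6c3fb9)) (.lf (nat_lit 0x8068008008d9738fea))) (.lf (nat_lit 0x8007f5814603998f95)) (.lf (nat_lit 0x84f853863be22cbca1)))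
  _ _ _ (by decide +kernel)

noncomputable def g1_m34_70 : GD 1 (-34) 70 := chk_sound 
  (.cell (.lf (nat_lit 0x800826812c32aa9e44)) (.lf (nat_lit 0x80ba4bdd66eb9aac8d)) (.lf (nat_lit 0xe0e7b48135ca96dc81)) (.nd (.lf (nat_lit 0x80080f82969d355e58)) (.lf (nat_lit 0x800815812653568f61)) (.lf (nat_lit 0x8057f280e95a6e2fce)) (.lf (nat_lit 0x8008018078d8742feb))) (.lf (nat_lit 0x8077e58165e49b5f86)) (.lf (nat_lit 0x8037e4827bef2f1cc8)))
  _ _ _ (by decide +kernel)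

theorem g2_m36_68 : GD 2 (-36) 68 :=
  GD.split (i := 1) g1_m38_66 g1_m34_66 g1_m38_70 g1_m34_70 (by decide)

noncomputable def g2_m44_76 : GD 2 (-44) 76 := chk_sound 
  (.cell (.lf (nat_lit 0x807822811c4ea57e52)) (.lf (nat_lit 0x8057df8b095d0378ff)) (.lf (nat_lit 0x830dd1b8691c8b3bff)) (.nd (.lf (nat_lit 0x80080c81877822ad71)) (.lf (nat_lit 0x82da9faa389b703efc)) (.lf (nat_lit 0x8007e680eb6d68ef14)) (.lf (nat_lit 0x8008008009a075ffce))) (.lf (nat_lit 0x8007e380550c9d8f33)) (.lf (nat_lit 0x838d33b6ca447aec77)))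
  _ _ _ (by decide +kernel)

noncomputable def g2_m36_76 : GD 2 (-36) 76 := chk_sound 
  (.cell (.lf (nat_lit 0x80e8df8cbc76a31e27)) (.lf (nat_lit 0x80f7faf7d733662a26)) (.nd (.lf (nat_lit 0x85ba39a007c50fea65)) (.lf (nat_lit 0x8007d78313bcda0bc0)) (.lf (nat_lit 0x83fa399b8eb28fab33)) (.lf (nat_lit 0x8835ba833346afbd39))) (.nd (.lf (nat_lit 0x8008128326d92e1e08)) (.lf (nat_lit 0x8008f88de839673fbc)) (.lf (nat_lit 0x8007eb810a3d6b2f91)) (.lf (nat_lit 0x8007f2806933709fd9))) (.lf (nat_lit 0x8007dc813499a9aec1)) (.lf (nat_lit 0x829b96af1bab747d56)))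
  _ _ _ (by decide +kernel)

theorem g3_m40_72 : GD 3 (-40) 72 :=
  GD.split (i := 2) g2_m44_68 g2_m36_68 g2_m44_76 g2_m36_76 (by decide)

noncomputable def g2_m44_84 : GD 2 (-44) 84 := chk_sound 
  (.cell (.lf (nat_lit 0x80081a814dc89b4d41)) (.lf (nat_lit 0x80080183688a04ca11)) (.nd (.lf (nat_lit 0x8008018364dd0d1991)) (.lf (nat_lit 0x8007e782837cd97b81)) (.lf (nat_lit 0x804836820eaeb63acb)) (.lf (nat_lit 0x8ae6708222ffb68cf0))) (.lf (nat_lit 0x8007eb812ac566ef56)) (.lf (nat_lit 0x8087d5828316cc3c22)) (.lf (nat_lit 0x81dc3bbd4c0e912bb7)))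
  _ _ _ (by decide +kernel)

noncomputable def g2_m36_84 : GD 2 (-36) 84 := chk_sound 
  (.cell (.lf (nat_lit 0x800829818db39b7d57)) (.lf (nat_lit 0x800800859862058a40)) (.lf (nat_lit 0x82fcd1bb2aaa94ac48)) (.lf (nat_lit 0x800710804a646baf78)) (.lf (nat_lit 0x800800800321cbfc35)) (.lf (nat_lit 0x82cbffbe8c008a4c0a)))
  _ _ _ (by decide +kernel)

noncomputable def g2_m44_92 : GD 2 (-44) 92 := chk_sound 
  (.cell (.lf (nat_lit 0x80083081ad909c8d76)) (.lf (nat_lit 0x800801841827072a9b)) (.nd (.lf (nat_lit 0x80681f85452c0bc9be)) (.lf (nat_lit 0x8067d982734dd65b91)) (.lf (nat_lit 0x80b83081ce5dbaab29)) (.lf (nat_lit 0x8218008002ecc5fc5d))) (.lf (nat_lit 0x8007e880fac25adf23)) (.lf (nat_lit 0x8007c282e2f7ccebee)) (.lf (nat_lit 0x829b7ebddc7f97ebcb)))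
  _ _ _ (by decide +kernel)

noncomputable def g2_m36_92 : GD 2 (-36) 92 := chk_sound 
  (.cell (.lf (nat_lit 0x800810817d739d4d8f)) (.lf (nat_lit 0x8007ff8107ea08aae0)) (.lf (nat_lit 0x8bfc7fbb7b889c0bb9)) (.lf (nat_lit 0x82d7a6831a895b5f38)) (.lf (nat_lit 0x8007ce82d2f2cc4bf4)) (.lf (nat_lit 0x82fbd9bd6c1e924c06)))
  _ _ _ (by decide +kernel)

theorem g3_m40_88 : GD 3 (-40) 88 :=
  GD.split (i := 2) g2_m44_84 g2_m36_84 g2_m44_92 g2_m36_92 (by decide)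

noncomputable def g2_m44_100 : GD 2 (-44) 100 := chk_sound 
  (.cell (.lf (nat_lit 0x800828818d439eddb4)) (.lf (nat_lit 0x80080186083a073a99)) (.lf (nat_lit 0x896c63bc2ba298bbd5)) (.lf (nat_lit 0x8057ed80caf55e8f21)) (.lf (nat_lit 0x8047d28242f3cadc11)) (.lf (nat_lit 0x82abc6bdac26911c11)))
  _ _ _ (by decide +kernel)

noncomputable def g2_m36_100 : GD 2 (-36) 100 := chk_sound 
  (.cell (.lf (nat_lit 0x822800800d16a06dd4)) (.lf (nat_lit 0x80080482d7df096afd)) (.lf (nat_lit 0x854c41bbcbc49cfbca)) (.lf (nat_lit 0x812800800b4e60df04)) (.lf (nat_lit 0x8007ee8272e5c9dc12)) (.lf (nat_lit 0x82db9abdbc3a925c1d)))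
  _ _ _ (by decide +kernel)

noncomputable def g2_m44_108 : GD 2 (-44) 108 := chk_sound 
  (.cell (.lf (nat_lit 0x80083581bcd6a2fdfb)) (.lf (nat_lit 0x80080186181807aaaf)) (.lf (nat_lit 0x8b4c3bbc1bc6979be2)) (.lf (nat_lit 0x8007e080aae4556ef7)) (.lf (nat_lit 0x8007d48392f1c7bc45)) (.nd (.lf (nat_lit 0x825b91c00b30704ce9)) (.lf (nat_lit 0x81da88af7d5bb99aab)) (.lf (nat_lit 0x800a91ad7cea8f2ced)) (.lf (nat_lit 0x80084082fe25b55be0))))
  _ _ _ (by decide +kernel)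

noncomputable def g2_m36_108 : GD 2 (-36) 108 := chk_sound 
  (.cell (.lf (nat_lit 0x822800800c8ea5ce22)) (.lf (nat_lit 0x8008088457a90a3b17)) (.lf (nat_lit 0x903bcfbc8c199b0bcf)) (.lf (nat_lit 0x8007ff811aed53eeea)) (.lf (nat_lit 0x8097d68282e1c66c48)) (.lf (nat_lit 0x833b24be5c8d979c01)))
  _ _ _ (by decide +kernel)

theorem g3_m40_104 : GD 3 (-40) 104 :=
  GD.split (i := 2) g2_m44_100 g2_m36_100 g2_m44_108 g2_m36_108 (by decide)

noncomputable def g2_m44_116 : GD 2 (-44) 116 := chk_sound 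
  (.cell (.lf (nat_lit 0x810800800c36a9ce47)) (.lf (nat_lit 0x8007ff8427400d8b7b)) (.lf (nat_lit 0x8a6a92bdcd4598bb73)) (.lf (nat_lit 0x80878e85bb05558ee4)) (.lf (nat_lit 0x8007d782c2e7c42c73)) (.nd (.lf (nat_lit 0x830a37ac1b6c5d1dea)) (.lf (nat_lit 0x82ab8fc67c33954b89)) (.lf (nat_lit 0x80082c803d818f9db8)) (.lf (nat_lit 0x80084b82ae24aeec31))))
  _ _ _ (by decide +kernel)

noncomputable def g2_m36_116 : GD 2 (-36) 116 := chk_sound 
  (.cell (.lf (nat_lit 0x812800800cbfa15e17)) (.lf (nat_lit 0x80080b8306d0113bd0)) (.lf (nat_lit 0x82fa54bc4d75a0ab39)) (.lf (nat_lit 0x814800800b2e572ee1)) (.lf (nat_lit 0x8007d382c2d8c27c7b)) (.nd (.lf (nat_lit 0x8369aba20bfb642e25)) (.lf (nat_lit 0x828b19bf4ca89b6bc2)) (.lf (nat_lit 0x80083180fd778f9dc1)) (.lf (nat_lit 0x82b800800e1db05c2d))))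
  _ _ _ (by decide +kernel)

noncomputable def g2_m44_124 : GD 2 (-44) 124 := chk_sound 
  (.cell (.lf (nat_lit 0x80c800800c4ca89e40)) (.lf (nat_lit 0x80080183b684147c10)) (.lf (nat_lit 0x80ca31b8dda4a87ae3)) (.lf (nat_lit 0x8007e581eb3e567ed5)) (.lf (nat_lit 0x8007ca8242d6c02c9a)) (.nd (.lf (nat_lit 0x83e9599cbc045fae38)) (.lf (nat_lit 0x81baefbf0cb59a6bde)) (.lf (nat_lit 0x818800800d83905db4)) (.lf (nat_lit 0x80082681cdefa6acc9))))
  _ _ _ (by decide +kernel)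

noncomputable def g2_m36_124 : GD 2 (-36) 124 := chk_sound 
  (.cell (.lf (nat_lit 0x82e800800c6ca7be2f)) (.lf (nat_lit 0x816800800628180c47)) (.lf (nat_lit 0x81999cb4bdcfaf7ad3)) (.lf (nat_lit 0x8007ea808b6d5a5ed5)) (.lf (nat_lit 0x8118008002c8be3ca6)) (.nd (.lf (nat_lit 0x8198f1955c185d0e4e)) (.lf (nat_lit 0x800b04c28c7f912c07)) (.lf (nat_lit 0x80082d810d7a902dbd)) (.lf (nat_lit 0x80081c818de5a78cce))))
  _ _ _ (by decide +kernel)

theorem g3_m40_120 : GD 3 (-40) 120 :=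
  GD.split (i := 2) g2_m44_116 g2_m36_116 g2_m44_124 g2_m36_124 (by decide)

noncomputable def g2_m44_132 : GD 2 (-44) 132 := chk_sound 
  (.cell (.lf (nat_lit 0x828800800bebb00e4b)) (.lf (nat_lit 0x8007ff8175f81a7c6b)) (.lf (nat_lit 0x8279deb97dacaa6ae5)) (.lf (nat_lit 0x809800800b7f59feca)) (.lf (nat_lit 0x8007f98232c1bbbcbe)) (.nd (.lf (nat_lit 0x8057dd812c91644e55)) (.lf (nat_lit 0x82bac7c12cb294fbfd)) (.lf (nat_lit 0x80982980bd82917db1)) (.lf (nat_lit 0x827800800dd9a70ce1))))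
  _ _ _ (by decide +kernel)

noncomputable def g2_m36_132 : GD 2 (-36) 132 := chk_sound 
  (.cell (.lf (nat_lit 0x800800800c0eb12e2c)) (.lf (nat_lit 0x80080e83c5b31d7c8c)) (.lf (nat_lit 0x80f931b6fdd0b08ac9)) (.lf (nat_lit 0x8007ff814ba85d5ec6)) (.lf (nat_lit 0x8017d181c2b7b97cce)) (.nd (.lf (nat_lit 0x8007e8818c425a4e58)) (.lf (nat_lit 0x816acdc1dca38efc1a)) (.lf (nat_lit 0x806800800d7c915db8)) (.lf (nat_lit 0x800833821dcea7fce6))))
  _ _ _ (by decide +kernel)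

noncomputable def g2_m44_140 : GD 2 (-44) 140 := chk_sound .out
  _ _ _ (by decide +kernel)

noncomputable def g2_m36_140 : GD 2 (-36) 140 := chk_sound .out
  _ _ _ (by decide +kernel)

theorem g3_m40_136 : GD 3 (-40) 136 :=
  GD.split (i := 2) g2_m44_132 g2_m36_132 g2_m44_140 g2_m36_140 (by decide)

noncomputable def g2_m28_m140 : GD 2 (-28) (-140) := chk_sound .out
  _ _ _ (by decide +kernel)

noncomputable def g2_m20_m140 : GD 2 (-20) (-140) := chk_sound .out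
  _ _ _ (by decide +kernel)

noncomputable def g2_m28_m132 : GD 2 (-28) (-132) := chk_sound 
  (.cell (.lf (nat_lit 0x8008188269f9e6fc51)) (.lf (nat_lit 0x80081e80f3d6528e35)) (.lf (nat_lit 0x80e8008003f49c3eab)) (.lf (nat_lit 0x80b7cf826d563e9c53)) (.nd (.lf (nat_lit 0x80082981d25047bc61)) (.lf (nat_lit 0x80083581223463fd38)) (.lf (nat_lit 0x8008678712c322194c)) (.lf (nat_lit 0x825af0bf1381764c62))) (.lf (nat_lit 0x81ca9993a60f888f30)))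
  _ _ _ (by decide +kernel)

noncomputable def g2_m20_m132 : GD 2 (-20) (-132) := chk_sound 
  (.cell (.lf (nat_lit 0x800801826a69e21c89)) (.lf (nat_lit 0x80081b81b355540de2)) (.lf (nat_lit 0x81a8008003d79abea0)) (.lf (nat_lit 0x8237cf92fd7243fc55)) (.nd (.lf (nat_lit 0x80c83c82626348fc88)) (.lf (nat_lit 0x829800800268690d88)) (.lf (nat_lit 0x81ca7cbef3294d5af9)) (.lf (nat_lit 0x836ab0bb93737d0cb4))) (.lf (nat_lit 0x8008008005eb7eefb9)))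
  _ _ _ (by decide +kernel)

theorem g3_m24_m136 : GD 3 (-24) (-136) :=
  GD.split (i := 2) g2_m28_m140 g2_m20_m140 g2_m28_m132 g2_m20_m132 (by decide)

noncomputable def g2_m28_m124 : GD 2 (-28) (-124) := chk_sound 
  (.cell (.lf (nat_lit 0x800800800a42e38c7e)) (.lf (nat_lit 0x8008008003c24f5e0f)) (.lf (nat_lit 0x8007e78163bb98de95)) (.lf (nat_lit 0x8007c6833d62416c6d)) (.nd (.lf (nat_lit 0x80083381729c41bc70)) (.lf (nat_lit 0x80080080025265ed63)) (.lf (nat_lit 0x80483d84427b2a6a2c)) (.lf (nat_lit 0x829ad6bf136178fc57))) (.lf (nat_lit 0x8209e597258a85ef38)))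
  _ _ _ (by decide +kernel)

noncomputable def g2_m20_m124 : GD 2 (-20) (-124) := chk_sound 
  (.cell (.lf (nat_lit 0x809800800aa3df2ca7)) (.lf (nat_lit 0x8008118243ee474de6)) (.lf (nat_lit 0x8007f08123a397ee89)) (.lf (nat_lit 0x80d7c7827d7944fc82)) (.nd (.lf (nat_lit 0x8008178162a6432c90)) (.lf (nat_lit 0x816800800263690d83)) (.lf (nat_lit 0x827a34bcf3124b6b14)) (.nd (.nd (.lf (nat_lit 0x8389e3a9226762bc5e)) (.lf (nat_lit 0x83880080028a7eddd7)) (.lf (nat_lit 0x8009f8ae6589c3cd43)) (.lf (nat_lit 0x80080181562cd63d9f))) (.lf (nat_lit 0x8007ea8153939f5e5e)) (.lf (nat_lit 0x800810824945ebbc20)) (.lf (nat_lit 0x8007fa8217e6e28d1a)))) (.lf (nat_lit 0x8009a5984698921f77)))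
  _ _ _ (by decide +kernel)

noncomputable def g2_m28_m116 : GD 2 (-28) (-116) := chk_sound 
  (.cell (.lf (nat_lit 0x80081d82aa7ae09c9f)) (.lf (nat_lit 0x80882281d3814d4dcd)) (.lf (nat_lit 0x8007e980b386956e7e)) (.lf (nat_lit 0x8007d3817d70446c86)) (.nd (.lf (nat_lit 0x800838834291390bd4)) (.lf (nat_lit 0x80081b815250654d5e)) (.lf (nat_lit 0x80083c830262300ab4)) (.lf (nat_lit 0x821aa4be2331797c51))) (.lf (nat_lit 0x81294294c51b83ff3b)))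
  _ _ _ (by decide +kernel)

noncomputable def g2_m20_m116 : GD 2 (-20) (-116) := chk_sound 
  (.cell (.lf (nat_lit 0x813800800a4ee2fc84)) (.lf (nat_lit 0x80081a80d362493d8f)) (.lf (nat_lit 0x823800800373950e71)) (.lf (nat_lit 0x8007da80ed88489c9e)) (.nd (.lf (nat_lit 0x8008258242c63bcc4a)) (.lf (nat_lit 0x82d800800260686d7d)) (.lf (nat_lit 0x8179f1b822f8449af6)) (.nd (.nd (.lf (nat_lit 0x837a0daeb2745e3bff)) (.lf (nat_lit 0x80083580725c78cda6)) (.lf (nat_lit 0x820a8dc21392857c8c)) (.lf (nat_lit 0x8007ff821438b7fe1e))) (.lf (nat_lit 0x828800800309924e2a)) (.lf (nat_lit 0x80081384b917ec2c20)) (.lf (nat_lit 0x8007f383671edd4d67)))) (.lf (nat_lit 0x81f8fe91d61c923f8b)))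
  _ _ _ (by decide +kernel)

theorem g3_m24_m120 : GD 3 (-24) (-120) :=
  GD.split (i := 2) g2_m28_m124 g2_m20_m124 g2_m28_m116 g2_m20_m116 (by decide)

noncomputable def g2_m28_m108 : GD 2 (-28) (-108) := chk_sound 
  (.cell (.lf (nat_lit 0x80081c843a28e42c7b)) (.lf (nat_lit 0x80083081c3184e0d7c)) (.lf (nat_lit 0x8007d581335491be65)) (.lf (nat_lit 0x8007dd822d7e47dca1)) (.nd (.lf (nat_lit 0x81985d8c72d82c8b10)) (.lf (nat_lit 0x80082d81a24e643d56)) (.lf (nat_lit 0x8078438552d7252a36)) (.nd (.lf (nat_lit 0x825a99c0933c70bc29)) (.lf (nat_lit 0x81d91597630f8fadf0)) (.lf (nat_lit 0x8008858c78f8ee9bcb)) (.lf (nat_lit 0x8007ff83d6f0de3d4e)))) (.lf (nat_lit 0x81e68287350d817f45)))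
  _ _ _ (by decide +kernel)

noncomputable def g2_m20_m108 : GD 2 (-20) (-108) := chk_sound 
  (.cell (.lf (nat_lit 0x81e8b98cd9dce55c63)) (.lf (nat_lit 0x80b83082a3a141ad71)) (.lf (nat_lit 0x8007e181034591ee5a)) (.lf (nat_lit 0x8097cb81bd964cbcbc)) (.nd (.lf (nat_lit 0x8008198122b4333b95)) (.lf (nat_lit 0x80080181325b678d74)) (.lf (nat_lit 0x81f963a2128f376ab3)) (.nd (.lf (nat_lit 0x831a62bad32581cc99)) (.lf (nat_lit 0x8007cd80c2b288edf5)) (.lf (nat_lit 0x8007eb8125a3d43d8a)) (.lf (nat_lit 0x8008008005e5d16dcd)))) (.lf (nat_lit 0x8008008005a682afa5)))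
  _ _ _ (by decide +kernel)

noncomputable def g2_m28_m100 : GD 2 (-28) (-100) := chk_sound 
  (.cell (.lf (nat_lit 0x8138df8f79b2e60c54)) (.lf (nat_lit 0x818800800352462d62)) (.lf (nat_lit 0x8007d280e3238dce4a)) (.lf (nat_lit 0x8007da807d8b4bacbe)) (.nd (.lf (nat_lit 0x80092bb3b2f1480bc9)) (.lf (nat_lit 0x80082681824962fd4a)) (.lf (nat_lit 0x80584184a2c628aa95)) (.nd (.lf (nat_lit 0x822ac0be33066b2bd9)) (.lf (nat_lit 0x8338cd92429582fdb6)) (.lf (nat_lit 0x8449e8b0a52ec1fd1c)) (.lf (nat_lit 0x8047eb82757dcf6dbf)))) (.lf (nat_lit 0x81a9dc9fc596860f1d)))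
  _ _ _ (by decide +kernel)

noncomputable def g2_m20_m100 : GD 2 (-20) (-100) := chk_sound 
  (.cell (.lf (nat_lit 0x82c9189987b2e3ec99)) (.lf (nat_lit 0x80081a98a3dc3efd48)) (.lf (nat_lit 0x82280080031a8e9e41)) (.lf (nat_lit 0x800800800da6515cda)) (.nd (.lf (nat_lit 0x80084383328837ebb1)) (.lf (nat_lit 0x835800800256665d69)) (.lf (nat_lit 0x80282d8322902bda93)) (.nd (.lf (nat_lit 0x80ea9fb972fa7e6c5a)) (.lf (nat_lit 0x8007ce80527481edc2)) (.lf (nat_lit 0x82da18b3b460b5fcf6)) (.lf (nat_lit 0x8007d5813445b99e17)))) (.lf (nat_lit 0x8007ff81563d9fbf8c)))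
  _ _ _ (by decide +kernel)

theorem g3_m24_m104 : GD 3 (-24) (-104) :=
  GD.split (i := 2) g2_m28_m108 g2_m20_m108 g2_m28_m100 g2_m20_m100 (by decide)

noncomputable def g2_m28_m92 : GD 2 (-28) (-92) := chk_sound 
  (.cell (.lf (nat_lit 0x83f91c9c66cadd5ce8)) (.lf (nat_lit 0x80083182f37f401d42)) (.lf (nat_lit 0x8007ff80c2f4897e2d)) (.lf (nat_lit 0x8007d781bd98501cdd)) (.nd (.lf (nat_lit 0x80082e82824640ebf1)) (.lf (nat_lit 0x80582e813244613d3a)) (.lf (nat_lit 0x8008498582bd265a28)) (.nd (.lf (nat_lit 0x83aa45b24262601ba8)) (.lf (nat_lit 0x817800800240775d88)) (.lf (nat_lit 0x800a9cc4639f911c50)) (.lf (nat_lit 0x8007e78223bab1de00)))) (.lf (nat_lit 0x8009d89d55b1833f33)))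
  _ _ _ (by decide +kernel)

noncomputable def g2_m20_m92 : GD 2 (-20) (-92) := chk_sound 
  (.cell (.lf (nat_lit 0x822969a3a58acd3d43)) (.lf (nat_lit 0x8287f59f14053cbd29)) (.lf (nat_lit 0x8308008002f48aee2a)) (.lf (nat_lit 0x8007c1810db556ccf8)) (.nd (.lf (nat_lit 0x828810ae931540cbf5)) (.lf (nat_lit 0x824800800252645d5b)) (.lf (nat_lit 0x8258588cf2e127aa89)) (.nd (.lf (nat_lit 0x8379edb1b260697c1e)) (.lf (nat_lit 0x80083c8082467c1d93)) (.lf (nat_lit 0x822a75be03118cec3b)) (.lf (nat_lit 0x8208008003039ebdf3)))) (.lf (nat_lit 0x8008eb8c1645841fb7)))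
  _ _ _ (by decide +kernel)

noncomputable def g2_m28_m84 : GD 2 (-28) (-84) := chk_sound 
  (.cell (.lf (nat_lit 0x8d6977a704bbbf3d60)) (.lf (nat_lit 0x80782982e3a33b0d20)) (.lf (nat_lit 0x82b8008002cd84de11)) (.lf (nat_lit 0x8077da812da7554cfc)) (.nd (.lf (nat_lit 0x81e863a2d271441bc2)) (.lf (nat_lit 0x8198008002465e4d2b)) (.lf (nat_lit 0x81c841887170416a48)) (.nd (.lf (nat_lit 0x8358778bb1ca4b8bb8)) (.lf (nat_lit 0x80083c80e222714d5a)) (.lf (nat_lit 0x800a48c352fe744bee)) (.lf (nat_lit 0x82692899c2f499fda6)))) (.lf (nat_lit 0x8008ec94e526827f4c)))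
  _ _ _ (by decide +kernel)

noncomputable def g2_m20_m84 : GD 2 (-20) (-84) := chk_sound 
  (.cell (.lf (nat_lit 0x852a0ba88458bc0d16)) (.lf (nat_lit 0x8267c99cb42738cd1b)) (.lf (nat_lit 0x8088008002d486ce16)) (.lf (nat_lit 0x8007cd806dc95d4d13)) (.nd (.lf (nat_lit 0x80081281f26f3e7c05)) (.lf (nat_lit 0x80083081b25b60dd51)) (.lf (nat_lit 0x80080080029b2bcaab)) (.nd (.lf (nat_lit 0x8008a590b18c552bb1)) (.lf (nat_lit 0x800800800224768d69)) (.lf (nat_lit 0x83ea3cbbf2a07e1c00)) (.lf (nat_lit 0x8228008002608bcda3)))) (.lf (nat_lit 0x8008018075c17c3fac)))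
  _ _ _ (by decide +kernel)

theorem g3_m24_m88 : GD 3 (-24) (-88) :=
  GD.split (i := 2) g2_m28_m92 g2_m20_m92 g2_m28_m84 g2_m20_m84 (by decide)

noncomputable def g1_m30_m78 : GD 1 (-30) (-78) := chk_sound 
  (.cell (.lf (nat_lit 0x83e9cab22493b82d2f)) (.lf (nat_lit 0x8007ff8133a23a5d17)) (.lf (nat_lit 0x8007e38042ae80ddf8)) (.lf (nat_lit 0x8007ff814da757ad10)) (.nd (.lf (nat_lit 0x81e7a6b302d3458bad)) (.lf (nat_lit 0x80082781c2475aed14)) (.lf (nat_lit 0x83ba7db2623554aaa1)) (.lf (nat_lit 0x827a9eba129c774bd1))) (.lf (nat_lit 0x81f8b091c51188cf4e)))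
  _ _ _ (by decide +kernel)

noncomputable def g1_m26_m78 : GD 1 (-26) (-78) := chk_sound 
  (.cell (.lf (nat_lit 0x825a12b00443b64d05)) (.lf (nat_lit 0x8008298243ec371d26)) (.lf (nat_lit 0x8008008002b9818e02)) (.lf (nat_lit 0x800801805dc05c2d16)) (.nd (.lf (nat_lit 0x8397cca852d43e0bb6)) (.lf (nat_lit 0x80081980f2595bad2e)) (.lf (nat_lit 0x80085d82a165447a83)) (.lf (nat_lit 0x824a7bba42987a2be5))) (.lf (nat_lit 0x81686788f5b493cf87)))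
  _ _ _ (by decide +kernel)

noncomputable def g1_m30_m74 : GD 1 (-30) (-74) := chk_sound 
  (.cell (.lf (nat_lit 0x826a27b85406ac3cd9)) (.lf (nat_lit 0x80282a8303b8384d0c)) (.lf (nat_lit 0x80082a80429e7e3de9)) (.lf (nat_lit 0x8007de808dad5add21)) (.nd (.lf (nat_lit 0x831759bbe315456b73)) (.lf (nat_lit 0x80080180b24e58bd0c)) (.lf (nat_lit 0x800818824199416ac2)) (.lf (nat_lit 0x829a91bbe2aa722bc2))) (.lf (nat_lit 0x8008648ac4f08b4f50)))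
  _ _ _ (by decide +kernel)

noncomputable def g1_m26_m74 : GD 1 (-26) (-74) := chk_sound 
  (.cell (.lf (nat_lit 0x832a43b883d2a8fcba)) (.lf (nat_lit 0x800800800401359d22)) (.lf (nat_lit 0x8378008002ac7eddf6)) (.lf (nat_lit 0x80c7db80fdc75fed26)) (.nd (.lf (nat_lit 0x83677ab003183c5b90)) (.lf (nat_lit 0x828800800262595d27)) (.lf (nat_lit 0x80085a83714546fa67)) (.lf (nat_lit 0x838a84bba2ab75bbdb))) (.lf (nat_lit 0x8007ea81058894df7f)))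
  _ _ _ (by decide +kernel)

theorem g2_m28_m76 : GD 2 (-28) (-76) :=
  GD.split (i := 1) g1_m30_m78 g1_m26_m78 g1_m30_m74 g1_m26_m74 (by decide)

noncomputable def g1_m22_m78 : GD 1 (-22) (-78) := chk_sound 
  (.cell (.lf (nat_lit 0x832a3ab0940fb2dcea)) (.lf (nat_lit 0x80081d80a42b35ad42)) (.lf (nat_lit 0x8007d48052c1829e08)) (.lf (nat_lit 0x800800800dd360cd1f)) (.nd (.lf (nat_lit 0x8008388372b6383bf8)) (.lf (nat_lit 0x80082881f2665cbd43)) (.lf (nat_lit 0x80085483d217314a27)) (.lf (nat_lit 0x84ea91b7d29c7a1bfe))) (.lf (nat_lit 0x8007f681466c9fdf95)))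
  _ _ _ (by decide +kernel)

noncomputable def g1_m18_m78 : GD 1 (-18) (-78) := chk_sound 
  (.cell (.lf (nat_lit 0x82fa7ab063daaefcc7)) (.lf (nat_lit 0x8007ff81046335dd6c)) (.lf (nat_lit 0x8007e68072c0841e07)) (.lf (nat_lit 0x8007c580addc65ad2f)) (.nd (.lf (nat_lit 0x81f6d4bc739f401ba1)) (.lf (nat_lit 0x80082c81b2685e3d4f)) (.lf (nat_lit 0x80083f84123432eaa5)) (.lf (nat_lit 0x83da82b0224e816c04))) (.lf (nat_lit 0x80078d81d7317dcff1)))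
  _ _ _ (by decide +kernel)

noncomputable def g1_m22_m74 : GD 1 (-22) (-74) := chk_sound 
  (.cell (.lf (nat_lit 0x835a69b8a3a1a52c98)) (.lf (nat_lit 0x820800800443352d4c)) (.lf (nat_lit 0x8007fa8012b4800dfe)) (.lf (nat_lit 0x8007f480bddb651d2e)) (.nd (.lf (nat_lit 0x8387ac94b2f835bbe8)) (.lf (nat_lit 0x81c80080026d5a5d3a)) (.lf (nat_lit 0x80080a8131b238ba14)) (.lf (nat_lit 0x829a7ab83284782be5))) (.lf (nat_lit 0x8008428536b981dfe2)))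
  _ _ _ (by decide +kernel)

noncomputable def g1_m18_m74 : GD 1 (-18) (-74) := chk_sound 
  (.cell (.lf (nat_lit 0x832a7bb8038ca3ac8e)) (.lf (nat_lit 0x8356d19ec5c52d5d36)) (.lf (nat_lit 0x8007cf8032b581adfe)) (.lf (nat_lit 0x834800800de46a9d3d)) (.lf (nat_lit 0x8249b2a121c859fb87)) (.lf (nat_lit 0x8008008006ae85dfe1)))
  _ _ _ (by decide +kernel)

theorem g2_m20_m76 : GD 2 (-20) (-76) :=
  GD.split (i := 1) g1_m22_m78 g1_m18_m78 g1_m22_m74 g1_m18_m74 (by decide)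

noncomputable def g1_m30_m70 : GD 1 (-30) (-70) := chk_sound 
  (.cell (.lf (nat_lit 0x839a53bf939b9d2c7c)) (.lf (nat_lit 0x8068218273ce366d04)) (.lf (nat_lit 0x82380080028d7b4dd8)) (.lf (nat_lit 0x8007de81adb15e5d35)) (.nd (.lf (nat_lit 0x8008018162a633eb8f)) (.lf (nat_lit 0x80082f81e254569d01)) (.lf (nat_lit 0x8368da9931a243ba71)) (.lf (nat_lit 0x822a81bbd2a66bdbac))) (.lf (nat_lit 0x8198008004a0865f3d)))
  _ _ _ (by decide +kernel)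

noncomputable def g1_m26_m70 : GD 1 (-26) (-70) := chk_sound 
  (.cell (.lf (nat_lit 0x82da65bf23959bfc7b)) (.lf (nat_lit 0x80081683041d34bd2a)) (.lf (nat_lit 0x80081b80829c7bfde7)) (.lf (nat_lit 0x800800800dcc63fd39)) (.nd (.lf (nat_lit 0x827707b5b3563bab6c)) (.lf (nat_lit 0x80082a81d265573d19)) (.lf (nat_lit 0x82b91a962180492a9b)) (.lf (nat_lit 0x828a61b9d2856e0bbb))) (.lf (nat_lit 0x8008c094964e85ffaa)))
  _ _ _ (by decide +kernel)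

noncomputable def g1_m30_m66 : GD 1 (-30) (-66) := chk_sound 
  (.cell (.nd (.lf (nat_lit 0x80881e811ceda44de1)) (.lf (nat_lit 0x8008018357dcdcbd82)) (.lf (nat_lit 0x80083683bd4ececb64)) (.nd (.lf (nat_lit 0x80081181096ce9ac48)) (.lf (nat_lit 0x8007f382a4a7c3bde7)) (.lf (nat_lit 0x828b38d1e3c8697ac2)) (.lf (nat_lit 0x800a89c42339814c12)))) (.lf (nat_lit 0x80082c8263ef354d0e)) (.lf (nat_lit 0x80080180927977fdc2)) (.lf (nat_lit 0x8007df80fdb061fd4c)) (.nd (.lf (nat_lit 0x8008008002c7311b83)) (.lf (nat_lit 0x800813821251549ced)) (.lf (nat_lit 0x8178ce9a718c45da63)) (.lf (nat_lit 0x82ba32b6d25e61bb79))) (.lf (nat_lit 0x8009079ef5da8aff5b)))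
  _ _ _ (by decide +kernel)

noncomputable def g1_m26_m66 : GD 1 (-26) (-66) := chk_sound 
  (.cell (.nd (.lf (nat_lit 0x80681b815c76b52dbf)) (.lf (nat_lit 0x80080182e7a5dafd9d)) (.lf (nat_lit 0x80682b834ce4d41b84)) (.nd (.lf (nat_lit 0x80080e8409ade74c69)) (.lf (nat_lit 0x800801811403b60e0e)) (.lf (nat_lit 0x836aa6c5431f75abbd)) (.lf (nat_lit 0x82b8008001e57d4d29)))) (.lf (nat_lit 0x83173e9c95532b9d04)) (.lf (nat_lit 0x82480080028a788dd3)) (.lf (nat_lit 0x833800800dc9685d51)) (.nd (.lf (nat_lit 0x85066eba13753e5b47)) (.lf (nat_lit 0x80f80080025a555cfe)) (.lf (nat_lit 0x81b8e09b90f05e7a6f)) (.lf (nat_lit 0x832a02abc1d8651b6b))) (.lf (nat_lit 0x8007e780c5dd8a6fae)))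
  _ _ _ (by decide +kernel)

theorem g2_m28_m68 : GD 2 (-28) (-68) :=
  GD.split (i := 1) g1_m30_m70 g1_m26_m70 g1_m30_m66 g1_m26_m66 (by decide)

noncomputable def g1_m22_m70 : GD 1 (-22) (-70) := chk_sound 
  (.cell (.nd (.lf (nat_lit 0x80882e826c45bddd8c)) (.lf (nat_lit 0x80080b8268aed84dc0)) (.lf (nat_lit 0x800825814c9cd61bb5)) (.nd (.lf (nat_lit 0x8008188369d4e46c9b)) (.lf (nat_lit 0x8007ff81e49ebd9e24)) (.lf (nat_lit 0x819ab6c0131f810c18)) (.lf (nat_lit 0x82a80080021e891d63)))) (.lf (nat_lit 0x80070b9cc58e2c1d21)) (.lf (nat_lit 0x8288008002a77d2df1)) (.lf (nat_lit 0x8037dd80addf69ed40)) (.lf (nat_lit 0x8269689f41d4512b63)) (.lf (nat_lit 0x80f80080064c87ffcc)))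
  _ _ _ (by decide +kernel)

noncomputable def g1_m18_m70 : GD 1 (-18) (-70) := chk_sound 
  (.cell (.lf (nat_lit 0x84ea84b9c3279aac46)) (.lf (nat_lit 0x8276ff95b5cc2c9d64)) (.lf (nat_lit 0x8008008002a77eedf2)) (.lf (nat_lit 0x8007d680ade870cd4e)) (.lf (nat_lit 0x91ea19986197607b51)) (.lf (nat_lit 0x8108008006198c3fbb)))
  _ _ _ (by decide +kernel)

noncomputable def g1_m22_m66 : GD 1 (-22) (-66) := chk_sound 
  (.cell (.lf (nat_lit 0x829a72bf933692cc3a)) (.lf (nat_lit 0x83e73c94858e2b1d3f)) (.lf (nat_lit 0x80082680a29679dddf)) (.lf (nat_lit 0x822800800ddc6f5d57)) (.lf (nat_lit 0x82e90595116055fb38)) (.lf (nat_lit 0x8007f280a5c58c1fa5)))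
  _ _ _ (by decide +kernel)

noncomputable def g1_m18_m66 : GD 1 (-18) (-66) := chk_sound 
  (.cell (.lf (nat_lit 0x845aacbad3629bec59)) (.lf (nat_lit 0x83167098171a28ed5d)) (.lf (nat_lit 0x8008018072977bcde2)) (.lf (nat_lit 0x8287f1970d94782d86)) (.lf (nat_lit 0x80083080d07c6eda81)) (.lf (nat_lit 0x8007ea80d68e9fef9c)))
  _ _ _ (by decide +kernel)

theorem g2_m20_m68 : GD 2 (-20) (-68) :=
  GD.split (i := 1) g1_m22_m70 g1_m18_m70 g1_m22_m66 g1_m18_m66 (by decide)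

theorem g3_m24_m72 : GD 3 (-24) (-72) :=
  GD.split (i := 2) g2_m28_m76 g2_m20_m76 g2_m28_m68 g2_m20_m68 (by decide)

end Pool.Agent.P.MP_f12b6c_an.Dg
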