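import Pool.Agent.P.MP_f12b6c_an.T3DgDef

/-! Certificates for the diagonal statement. -/

set_option maxRecDepth 100000
set_option linter.defProp false

namespace Pool.Agent.P.MP_f12b6c_an.Dg

noncomputable def g1_m30_m62 : GD 1 (-30) (-62) := chk_sound 
  (.cell (.nd (.lf (nat_lit 0x80082280bcaba98df4)) (.lf (nat_lit 0x82a82d860722dc0d79)) (.lf (nat_lit 0x80784383dd61cdab5f)) (.nd (.lf (nat_lit 0x8218a68b9957ebfbf6)) (.lf (nat_lit 0x8007cc81939ab0edf0)) (.lf (nat_lit 0x81bb35d234234d197f)) (.lf (nat_lit 0x841985a3b23c7d1cd5)))) (.lf (nat_lit 0x80081d83242035fd3e)) (.lf (nat_lit 0x80083280b26373fda5)) (.lf (nat_lit 0x8007df816da765ad69)) (.nd (.lf (nat_lit 0x83b729a1c2bd38fb5e)) (.lf (nat_lit 0x80883481a24252dccb)) (.lf (nat_lit 0x80080182213b468a47)) (.lf (nat_lit 0x8339b7a741ba5bcb3d))) (.lf (nat_lit 0x80b8809655638dcf5d)))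
  _ _ _ (by decide +kernel)

noncomputable def g1_m26_m62 : GD 1 (-26) (-62) := chk_sound 
  (.cell (.nd (.lf (nat_lit 0x80080c811c10bbcdca)) (.lf (nat_lit 0x8248438756d3d7adaf)) (.lf (nat_lit 0x80081e813cf1d49b67)) (.lf (nat_lit 0x829ad3b382ac8dcc0f))) (.lf (nat_lit 0x82675296954c2a4d0c)) (.lf (nat_lit 0x81082a808273747db6)) (.lf (nat_lit 0x830800800dbd6cdd70)) (.lf (nat_lit 0x92d9fa8a11cd4e5b31)) (.lf (nat_lit 0x8007e480e55b8ccf81)))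
  _ _ _ (by decide +kernel)

noncomputable def g1_m30_m58 : GD 1 (-30) (-58) := chk_sound 
  (.cell (.nd (.lf (nat_lit 0x80080181ec55aebe0e)) (.lf (nat_lit 0x83b8bd924639d63d78)) (.lf (nat_lit 0x80083883bd76cc8b58)) (.lf (nat_lit 0x823b01c4e35b715bbd))) (.lf (nat_lit 0x80081982542e373d5a)) (.lf (nat_lit 0x8008008002466f1d7b)) (.lf (nat_lit 0x819800800d93690d8d)) (.lf (nat_lit 0x9479248d71904bbadd)) (.lf (nat_lit 0x8007f180e4d68e7f4a)))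
  _ _ _ (by decide +kernel)

noncomputable def g1_m26_m58 : GD 1 (-26) (-58) := chk_sound 
  (.cell (.nd (.lf (nat_lit 0x80082a822b88c28dd9)) (.lf (nat_lit 0x8008d19175bfcd7dcc)) (.lf (nat_lit 0x80081c827d08cf5bbf)) (.nd (.lf (nat_lit 0x8209e6a30992e8db31)) (.lf (nat_lit 0x8007c780a20385ed49)) (.lf (nat_lit 0x8108948721e22f58bf)) (.lf (nat_lit 0x84a80080014360ebd5)))) (.lf (nat_lit 0x8257749405712d1d5b)) (.lf (nat_lit 0x8278008002556f7d8b)) (.lf (nat_lit 0x83b800800da2712d99)) (.lf (nat_lit 0x80b84a8170cc5a3a87)) (.lf (nat_lit 0x8008008005fa97ef98)))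
  _ _ _ (by decide +kernel)

theorem g2_m28_m60 : GD 2 (-28) (-60) :=
  GD.split (i := 1) g1_m30_m62 g1_m26_m62 g1_m30_m58 g1_m26_m58 (by decide)

noncomputable def g2_m20_m60 : GD 2 (-20) (-60) := chk_sound 
  (.cell (.nd (.lf (nat_lit 0x8007ff819a64d86d44)) (.lf (nat_lit 0x8007e380d582cabdff)) (.lf (nat_lit 0x800853870c79e928b0)) (.nd (.lf (nat_lit 0x837a1caf43bdaefce6)) (.lf (nat_lit 0x800a63a1c2a38d0cf0)) (.lf (nat_lit 0x807a8dbc72ad814bda)) (.lf (nat_lit 0x8008448081666aac4e)))) (.lf (nat_lit 0x80073b9eb6232d2d6c)) (.lf (nat_lit 0x81f9c4931346856e14)) (.lf (nat_lit 0x82582dfa7a0d8c58c2)) (.nd (.lf (nat_lit 0x8604b3c123aa50dafb)) (.lf (nat_lit 0x80082f81713a618bcb)) (.lf (nat_lit 0x80483e820110508aa2)) (.lf (nat_lit 0x81883183f12d525b05))) (.lf (nat_lit 0x819708bc3518a00e09)))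
  _ _ _ (by decide +kernel)

noncomputable def g2_m28_m52 : GD 2 (-28) (-52) := chk_sound 
  (.cell (.nd (.lf (nat_lit 0x80581481cb19c17e22)) (.lf (nat_lit 0x8309adacf3fdb53d1c)) (.lf (nat_lit 0x800851870cc0e339a2)) (.nd (.lf (nat_lit 0x82daeed0b48aa30ba0)) (.lf (nat_lit 0x843a37b582cc881c87)) (.nd (.lf (nat_lit 0x80687f894cfbe30885)) (.lf (nat_lit 0x835a79c492db747b88)) (.lf (nat_lit 0x80080182d29c244967)) (.nd (.lf (nat_lit 0x81fa92c992f6707b24)) (.lf (nat_lit 0x821a23bd227a5efb29)) (.nd (.lf (nat_lit 0x80283f83b212318a25)) (.lf (nat_lit 0x80083e8381d93a9aad)) (.lf (nat_lit 0x80083d83a21e306a1d)) (.lf (nat_lit 0x8008478271db3a6aad))) (.nd (.lf (nat_lit 0x80081c81d1ce3c0abc)) (.lf (nat_lit 0x80084d81318651bbae)) (.lf (nat_lit 0x82b8008001b1415af6)) (.lf (nat_lit 0x8008228201914e2b94))))) (.lf (nat_lit 0x823978aa322e826c93)))) (.nd (.lf (nat_lit 0x8007e6827b56420e26))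 (.lf (nat_lit 0x80082a80544e53fe89)) (.lf (nat_lit 0x8686f8867c20297c09)) (.lf (nat_lit 0x80083081f2bf491cf4))) (.lf (nat_lit 0x80093292728a723d89)) (.lf (nat_lit 0x81766bc35b347f9dca)) (.nd (.lf (nat_lit 0x85f61aad51f551eab7)) (.lf (nat_lit 0x811846822197520bcf)) (.nd (.lf (nat_lit 0x8007bb816edc68cbd6)) (.lf (nat_lit 0x800840821169437a79)) (.lf (nat_lit 0x81483f810ec296dc06)) (.lf (nat_lit 0x80080080016742ca67))) (.nd (.lf (nat_lit 0x80083a81a17b444aba)) (.lf (nat_lit 0x82780080014b562b7a)) (.nd (.lf (nat_lit 0x8008308171be3ccaa9)) (.lf (nat_lit 0x8078418261834abb44)) (.lf (nat_lit 0x80084e82e1e237ca74)) (.lf (nat_lit 0x80084f8371cf3b9aae))) (.lf (nat_lit 0x80782c81316252fb7e)))) (.lf (nat_lit 0x81179a8ad4f2997f2d)))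
  _ _ _ (by decide +kernel)

noncomputable def g2_m20_m52 : GD 2 (-20) (-52) := chk_sound 
  (.cell (.nd (.lf (nat_lit 0x80080782785fe3ccfe)) (.lf (nat_lit 0x83f974989477b53dfe)) (.lf (nat_lit 0x8a390886dac5eeba9a)) (.lf (nat_lit 0x835c42bbd41a94bbde))) (.nd (.lf (nat_lit 0x8185c7dc76875fac67)) (.lf (nat_lit 0x80280f81c67c4f9f3f)) (.lf (nat_lit 0x8007ed821abb197bec)) (.lf (nat_lit 0x8135a89cc6c2318d71))) (.lf (nat_lit 0x849b1099e36a86bd8a)) (.lf (nat_lit 0x8007ee8a86fdfd5912)) (.lf (nat_lit 0x8c75559a70f3661913)) (.lf (nat_lit 0x82067ebf940aa65cf3)))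
  _ _ _ (by decide +kernel)

theorem g3_m24_m56 : GD 3 (-24) (-56) :=
  GD.split (i := 2) g2_m28_m60 g2_m20_m60 g2_m28_m52 g2_m20_m52 (by decide)

noncomputable def g2_m28_m44 : GD 2 (-28) (-44) := chk_sound 
  (.cell (.nd (.lf (nat_lit 0x80080c828902cf7e30)) (.lf (nat_lit 0x845a06b58379a9ec9d)) (.lf (nat_lit 0x8007ff81fbd5e3db37)) (.nd (.lf (nat_lit 0x827b99b4eb36d4895e)) (.lf (nat_lit 0x807b38c292ff660aef)) (.lf (nat_lit 0x80f85183e1c43158da)) (.lf (nat_lit 0x80084a83313e42c9df)))) (.nd (.lf (nat_lit 0x80066fb598aa2f8cf4)) (.lf (nat_lit 0x8008018214574e6e66)) (.lf (nat_lit 0x8027e7824c582a9c11)) (.lf (nat_lit 0x80080181521a46dc0c))) (.lf (nat_lit 0x81890498122066dcdd)) (.lf (nat_lit 0x80754fe4e7949b3bbb)) (.nd (.lf (nat_lit 0xa6458a83ae3f48c917)) (.lf (nat_lit 0x8008018160b85549f2)) (.lf (nat_lit 0x84a77ea19fa08a28d1)) (.lf (nat_lit 0x8008578311004daa36))) (.lf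 (nat_lit 0x821714a884319fbe30)))
  _ _ _ (by decide +kernel)

noncomputable def g2_m20_m44 : GD 2 (-20) (-44) := chk_sound 
  (.cell (.nd (.lf (nat_lit 0x8007e0829548e5bc04)) (.lf (nat_lit 0x850a9a9824b4aecdf4)) (.lf (nat_lit 0x86b80c868840fb3a11)) (.lf (nat_lit 0x83fd94ad3887bacb53))) (.nd (.lf (nat_lit 0x821556d9f4f788cbf8)) (.lf (nat_lit 0x8088228174a4648f0d)) (.lf (nat_lit 0x8007e8825a110f8b32)) (.lf (nat_lit 0x8972d0970840438c81))) (.lf (nat_lit 0x83dc5495151281fde7)) (.lf (nat_lit 0x8007d388f5c4f90931)) (.lf (nat_lit 0xd8b82893a704276825)) (.nd (.lf (nat_lit 0x81b667b643bbbacc44)) (.lf (nat_lit 0x8228008004af8caf3c)) (.lf (nat_lit 0x80080080046cdb6c4e)) (.lf (nat_lit 0x8007ee8184eba46f05))))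
  _ _ _ (by decide +kernel)

noncomputable def g2_m28_m36 : GD 2 (-28) (-36) := chk_sound 
  (.cell (.nd (.lf (nat_lit 0x8007ff839629d77d8a)) (.lf (nat_lit 0x82aab0bef375a48bec)) (.lf (nat_lit 0x94668085e7caec8bbb)) (.lf (nat_lit 0x845d22d4e74ca5b9d7))) (.nd (.lf (nat_lit 0x8086bea718e5171b8d)) (.lf (nat_lit 0x800828815430470e0f)) (.lf (nat_lit 0x8057cc85abb0176aba)) (.lf (nat_lit 0x8e14ef8642aa48bba2))) (.lf (nat_lit 0x824960a031e957dbd2)) (.lf (nat_lit 0x80c4b1ec86d281da60)) (.nd (.lf (nat_lit 0x8007bd834ddf29e89f)) (.lf (nat_lit 0x80c8f885507c57a830)) (.lf (nat_lit 0x86e34cc6f9e5bf89a1)) (.lf (nat_lit 0x81f923893f17b77830))) (.lf (nat_lit 0x82b784911314a8cda5)))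
  _ _ _ (by decide +kernel)

noncomputable def g2_m20_m36 : GD 2 (-20) (-36) := chk_sound 
  (.cell (.nd (.lf (nat_lit 0x89b7518263a9d8cbac)) (.lf (nat_lit 0x84fad58bc448b62d7b)) (.nd (.lf (nat_lit 0x8007ff836574f25a86)) (.lf (nat_lit 0x8007e4846619f57a86)) (.lf (nat_lit 0x8007ea8596aefa89dc)) (.lf (nat_lit 0x8007ee86a73afa9a1f))) (.lf (nat_lit 0x8008008009afd6dda1))) (.nd (.nd (.lf (nat_lit 0x81d59fc7a36db7fa42)) (.lf (nat_lit 0x81354fd504118beb88)) (.lf (nat_lit 0x8007c9894b1b0aa851)) (.lf (nat_lit 0x82a73896a75911dbab))) (.lf (nat_lit 0x8198008005484c8ecc)) (.lf (nat_lit 0x8017f0827a490a0a13)) (.lf (nat_lit 0x8b64838b39d1355d12))) (.lf (nat_lit 0x84bbf89197ed7a2ed7)) (.lf (nat_lit 0x8067ac890402ecd928)) (.lf (nat_lit 0x8e1b2eb504a6d86898)) (.nd (.nd (.lf (nat_lit 0x80971b9db2a1ccfac8)) (.lf (nat_lit 0x8007be82425abedc12)) (.lf (nat_lit 0x8077dd8252bcd1bb2e))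 (.lf (nat_lit 0x8007e381a260b10cc9))) (.lf (nat_lit 0x80b8008003dc7cfed7)) (.lf (nat_lit 0x8057d58282cfcaebe1)) (.lf (nat_lit 0x8248008003e98dded1))))
  _ _ _ (by decide +kernel)

theorem g3_m24_m40 : GD 3 (-24) (-40) :=
  GD.split (i := 2) g2_m28_m44 g2_m20_m44 g2_m28_m36 g2_m20_m36 (by decide)

noncomputable def g2_m28_m28 : GD 2 (-28) (-28) := chk_sound 
  (.cell (.nd (.lf (nat_lit 0x80a800800443d71c83)) (.lf (nat_lit 0x834aa3c3f4afbaebcc)) (.lf (nat_lit 0x9026828555dbe9bb84)) (.lf (nat_lit 0x800826835cb4dfda6e))) (.nd (.nd (.lf (nat_lit 0x81f5efc858d1226a16)) (.lf (nat_lit 0x8007be86361339ce62)) (.lf (nat_lit 0x8007e0878a6508d994)) (.lf (nat_lit 0x8007fc8348221e9d2e))) (.lf (nat_lit 0x8008008002db40ccad)) (.lf (nat_lit 0x8007e4822b7710c9e3)) (.lf (nat_lit 0xa0c34386545d480b6b))) (.lf (nat_lit 0x80084181b1963c3a2f)) (.lf (nat_lit 0x82052bdd05e6c36814)) (.nd (.lf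 (nat_lit 0x8006f48eddea2cf840)) (.lf (nat_lit 0x80282f813f69ab594a)) (.lf (nat_lit 0x857212c757e3acd8fa)) (.lf (nat_lit 0x80485e838ec6ba7a22))) (.lf (nat_lit 0x83a8008002569ecd4e)))
  _ _ _ (by decide +kernel)

noncomputable def g2_m20_m28 : GD 2 (-20) (-28) := chk_sound 
  (.cell (.nd (.nd (.lf (nat_lit 0x8037c182a222cbfaa1)) (.lf (nat_lit 0x8007ff81b1e5bdfb6b)) (.lf (nat_lit 0x8057e8818299d75a3a)) (.lf (nat_lit 0x8007e9828301d5db31))) (.nd (.lf (nat_lit 0x8007ce80927f996d94)) (.lf (nat_lit 0x800800800871a1afb4)) (.lf (nat_lit 0x8007e6819377b57dad)) (.lf (nat_lit 0x80082c810bbaa2cebc))) (.nd (.lf (nat_lit 0x8007c385238de52a03)) (.lf (nat_lit 0x8007e6829475ed2a33)) (.lf (nat_lit 0x80080181a4a9ef4a1b)) (.lf (nat_lit 0x8b45b69194fde88a4d))) (.nd (.lf (nat_lit 0x800800800c7ab1edd9)) (.lf (nat_lit 0x800805817c79a4be38)) (.lf (nat_lit 0x81f800800cfaaf2d86)) (.lf (nat_lit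 0x806832818cd1a61dec)))) (.nd (.nd (.lf (nat_lit 0x828535d2c380960ab2)) (.lf (nat_lit 0x81b512da1461728b24)) (.lf (nat_lit 0x81244def36c88048b7)) (.lf (nat_lit 0x82a78e8d86ba0c7b0a))) (.lf (nat_lit 0x8008158186213e8e9c)) (.lf (nat_lit 0x8097c687cb830e38da)) (.lf (nat_lit 0x88b82a83eac51fcc71))) (.lf (nat_lit 0x814b1c907929773f2f)) (.lf (nat_lit 0x8007af86f328e37941)) (.nd (.lf (nat_lit 0x83b49fde1b675968bd)) (.lf (nat_lit 0x80080780bd539addba)) (.nd (.lf (nat_lit 0x8077d685746af0b928)) (.lf (nat_lit 0x88532bae8744d6e95f)) (.lf (nat_lit 0x8057ed8354f4f289d8)) (.lf (nat_lit 0x859428a52701e30a19))) (.lf (nat_lit 0x829800800d21a58dab))) (.nd (.nd (.lf (nat_lit 0x825686ae0223b26b09)) (.lf (nat_lit 0x8187b880d1a6935cb3)) (.lf (nat_lit 0x8276f9a131e0b76b03)) (.lf (nat_lit 0x8288008001a79dcc7e))) (.lf (nat_lit 0x80881d81745a57aea7)) (.nd (.lf (nat_lit 0x8007dc8251c1c09aef))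 (.lf (nat_lit 0x82b8008001a99f1c78)) (.lf (nat_lit 0x8007bc81f1dac42ad1)) (.lf (nat_lit 0x8007c280e179a2bc13))) (.lf (nat_lit 0x82780080036b758e85))))
  _ _ _ (by decide +kernel)

noncomputable def g2_m28_m20 : GD 2 (-28) (-20) := chk_sound 
  (.cell (.nd (.lf (nat_lit 0x8007d18323afdbbb86)) (.lf (nat_lit 0x818a49bf857ac8bbff)) (.lf (nat_lit 0x8403e0aa0547cfdac6)) (.lf (nat_lit 0x800828839cded10bd1))) (.nd (.nd (.lf (nat_lit 0x81e697ad289111ba7a)) (.lf (nat_lit 0x80080080046a392d9c)) (.lf (nat_lit 0x8047e884ba40079975)) (.lf (nat_lit 0x8007ff83a76d229d6e))) (.lf (nat_lit 0x80081e82d269402c17)) (.nd (.lf (nat_lit 0x8087a18babc11058ae)) (.lf (nat_lit 0x8007f0840a91141b6f)) (.lf (nat_lit 0x80a7be85cc8d177892)) (.lf (nat_lit 0x822800800ce81c38f8))) (.lf (nat_lit 0x8a9da68fb479516b1e))) (.lf (nat_lit 0x8168a78b62052e2907)) (.lf (nat_lit 0x8027c38733ebeaf989)) (.nd (.lf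 (nat_lit 0x82547ca7d2f1c6e867)) (.lf (nat_lit 0x80b82e816f08afaa5e)) (.lf (nat_lit 0x854305ac74e1c6298b)) (.lf (nat_lit 0x80083c818e09b42c1b))) (.lf (nat_lit 0x83591994320b9eecae)))
  _ _ _ (by decide +kernel)

noncomputable def g1_m22_m22 : GD 1 (-22) (-22) := chk_sound 
  (.cell (.nd (.lf (nat_lit 0x8057cb83c306d5bb3a)) (.lf (nat_lit 0x8007d182738fb6edb2)) (.lf (nat_lit 0x8037d884340ce76a8c)) (.lf (nat_lit 0x80d800800ad3cd5db6))) (.nd (.lf (nat_lit 0x8027e485da610688b0)) (.lf (nat_lit 0x80380782473b494f30)) (.lf (nat_lit 0x8057d784fc08133926)) (.lf (nat_lit 0xb3e8008009753c9dcb))) (.lf (nat_lit 0x80082f817c349ace98)) (.lf (nat_lit 0x8047b0867343e42971)) (.lf (nat_lit 0x87332998946bce790d)) (.lf (nat_lit 0x8007e789a180a44c06)))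
  _ _ _ (by decide +kernel)

noncomputable def g1_m18_m22 : GD 1 (-18) (-22) := chk_sound 
  (.cell (.nd (.lf (nat_lit 0x8007f182f264ce9ae3)) (.lf (nat_lit 0x8007e8822306c7ec5b)) (.lf (nat_lit 0x83b56b9eb41bdbca59)) (.lf (nat_lit 0x8007d782e4e2d9fcc1))) (.nd (.lf (nat_lit 0x8037f088091703494f)) (.lf (nat_lit 0x8008008006b9447ef6)) (.lf (nat_lit 0x80f7668ffc1a13e850)) (.lf (nat_lit 0x9676548258a632ddf5))) (.lf (nat_lit 0x820800800b63935f25)) (.lf (nat_lit 0x8228008002fae1295c)) (.lf (nat_lit 0x8763439dd49bd06907)) (.lf (nat_lit 0x8007ff80d12ba5db6b)))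
  _ _ _ (by decide +kernel)

noncomputable def g1_m22_m18 : GD 1 (-22) (-18) := chk_sound 
  (.cell (.nd (.lf (nat_lit 0x8007d1844309d9cac8)) (.lf (nat_lit 0x8179c3b6e4bfb70d2a)) (.lf (nat_lit 0x824461ae34edd2fa7c)) (.lf (nat_lit 0x80082381eadecc5dbe))) (.nd (.lf (nat_lit 0x8007db89ca1105a8e3)) (.lf (nat_lit 0x8008018246b94a4f25)) (.lf (nat_lit 0x812552d6eae13bc8e4)) (.lf (nat_lit 0x800b208119423dbdf4))) (.lf (nat_lit 0x800800800bf69d0eb5)) (.lf (nat_lit 0x80079d885347e54916)) (.nd (.lf (nat_lit 0x80072e8d0d9626682a)) (.lf (nat_lit 0x80080e809cbc957e4e)) (.lf (nat_lit 0x82054ca48d7b360809)) (.lf (nat_lit 0x800830813c9ba0de35))) (.lf (nat_lit 0x828728b691e3932b94)))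
  _ _ _ (by decide +kernel)

noncomputable def g1_m18_m18 : GD 1 (-18) (-18) := chk_sound 
  (.cell (.nd (.lf (nat_lit 0x81a79299e28ecfaa98)) (.lf (nat_lit 0x8007ec81b328ca7c57)) (.lf (nat_lit 0x827482a3240cd25a32)) (.lf (nat_lit 0x8007ff8244a7dc4c6a))) (.nd (.lf (nat_lit 0x8007c88c4a2d05f89d)) (.lf (nat_lit 0x80080b81a671404ec2)) (.lf (nat_lit 0x81a3e9d71a4d49d8eb)) (.lf (nat_lit 0x9d077b8268a2346e23))) (.lf (nat_lit 0x808800800b22925f45)) (.lf (nat_lit 0x80b7c084f2e0dfe945)) (.lf (nat_lit 0x844296b014cdbbf921)) (.lf (nat_lit 0x83d70dba21c99d7acb)))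
  _ _ _ (by decide +kernel)

theorem g2_m20_m20 : GD 2 (-20) (-20) :=
  GD.split (i := 1) g1_m22_m22 g1_m18_m22 g1_m22_m18 g1_m18_m18 (by decide)

theorem g3_m24_m24 : GD 3 (-24) (-24) :=
  GD.split (i := 2) g2_m28_m28 g2_m20_m28 g2_m28_m20 g2_m20_m20 (by decide)

noncomputable def g2_m28_m12 : GD 2 (-28) (-12) := chk_sound 
  (.cell (.nd (.lf (nat_lit 0x80080080041deaba18)) (.lf (nat_lit 0x82d9a1bae6d0ddeb74)) (.lf (nat_lit 0x83a434b515bbd17aba)) (.lf (nat_lit 0x80082582ec94cbcc88))) (.nd (.nd (.lf (nat_lit 0x82d7d386a7c815cc6d)) (.lf (nat_lit 0x812800800233498c53)) (.lf (nat_lit 0x8007f88088be10cbe1)) (.lf (nat_lit 0x8007c28d84cb26ccab))) (.lf (nat_lit 0x80083280a1c5423b30)) (.nd (.lf (nat_lit 0x8007e68429b8127bbf)) (.lf (nat_lit 0x8008008009d7266d67)) (.lf (nat_lit 0x80080181cada132b15)) (.lf (nat_lit 0x8007db83eb081a5bc8))) (.lf (nat_lit 0x854d759df4654f6ae3)))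 (.lf (nat_lit 0x813d09cef982b4891a)) (.lf (nat_lit 0x80d79f8aa415eeb862)) (.nd (.lf (nat_lit 0x811765883e032d88c4)) (.lf (nat_lit 0x80083a826e7cb67b34)) (.nd (.lf (nat_lit 0x8077d082b1fad2690b)) (.lf (nat_lit 0x8136eb8bb173c64835)) (.lf (nat_lit 0x80b79985e232d4d95d)) (.lf (nat_lit 0x858295acd48fb9296f))) (.lf (nat_lit 0x800840807d8eb40cbe))) (.lf (nat_lit 0x836845a0a1d8a03c36)))
  _ _ _ (by decide +kernel)

noncomputable def g1_m22_m14 : GD 1 (-22) (-14) := chk_sound 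
  (.cell (.nd (.lf (nat_lit 0x800800800353e13a47)) (.lf (nat_lit 0x8289f7bb558bc91c69)) (.lf (nat_lit 0x8243b3aeb4fbcd5a1c)) (.lf (nat_lit 0x800823825ae0cc0dc1))) (.nd (.lf (nat_lit 0x80380080088f0379bd)) (.lf (nat_lit 0x81d76f99d543502ead)) (.lf (nat_lit 0x8007bb889bc411593f)) (.lf (nat_lit 0x800b048229033e1e12))) (.lf (nat_lit 0x815800800bbea01ec7)) (.lf (nat_lit 0x80b7728db3abea1871)) (.nd (.lf (nat_lit 0x8136fd918d5323a833)) (.lf (nat_lit 0x800818811c68913e96)) (.lf (nat_lit 0x8431f3cfc78c9388df)) (.lf (nat_lit 0x800800800c599cee77))) (.lf (nat_lit 0x849796cda2798bfb03)))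
  _ _ _ (by decide +kernel)

noncomputable def g1_m18_m14 : GD 1 (-18) (-14) := chk_sound 
  (.cell (.nd (.lf (nat_lit 0x8485e795f397dbfa44)) (.lf (nat_lit 0x8008008003add58c16)) (.nd (.lf (nat_lit 0x8007ff810293da8995)) (.lf (nat_lit 0x83b5349f93a3d2da86)) (.lf (nat_lit 0x80d79f85d24fd6b963)) (.nd (.lf (nat_lit 0x805797865225d3597e)) (.lf (nat_lit 0x8812aea123d5b8c914)) (.lf (nat_lit 0x8007b982b1a3cc18dd)) (.lf (nat_lit 0x8166618db11cb9e817)))) (.lf (nat_lit 0x80080582d835e43cf8))) (.nd (.lf (nat_lit 0x8007cb8c79e804d89f)) (.lf (nat_lit 0x81e73e981609473eaf)) (.nd (.lf (nat_lit 0x8146df9bc3cee7c81b)) (.lf (nat_lit 0x8007e7825aa8088909)) (.lf (nat_lit 0x80b7388e62d1df7846)) (.lf (nat_lit 0x80d777890d6a23389d))) (.lf (nat_lit 0x80080080094b34ee58))) (.lf (nat_lit 0x800812812aed91df5c)) (.lf (nat_lit 0x8097ac86a303e2390f)) (.nd (.lf (nat_lit 0x82b1f1d2687e8138b3))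 (.lf (nat_lit 0x820800800ba48ddf11)) (.lf (nat_lit 0x83223bbd5582ae392f)) (.lf (nat_lit 0x800801815baf977ef2))) (.lf (nat_lit 0x84a74bda12fc964a27)))
  _ _ _ (by decide +kernel)

noncomputable def g1_m22_m10 : GD 1 (-22) (-10) := chk_sound 
  (.cell (.nd (.lf (nat_lit 0x8007c28573c3e869ce)) (.lf (nat_lit 0x8189e3a7875ae00c3a)) (.nd (.lf (nat_lit 0x8007b385c343e648a8)) (.lf (nat_lit 0x83c412b68531cc1a87)) (.lf (nat_lit 0x80975c8b82b9dec84f)) (.lf (nat_lit 0x84e24ab124b0b0b943))) (.lf (nat_lit 0x80481781ab3ec43df0))) (.nd (.lf (nat_lit 0x80d8008006ec0a1ae8)) (.lf (nat_lit 0x80087ebd648076ce09)) (.lf (nat_lit 0x8007d1877b531019ed)) (.lf (nat_lit 0xa05a268398ba3e7e28))) (.lf (nat_lit 0x81d800800b8ba45ecd)) (.lf (nat_lit 0x80049bde5a1a45b801)) (.nd (.lf (nat_lit 0x8245d6af9cbb2d5927)) (.lf (nat_lit 0x802813805c208ccece)) (.lf (nat_lit 0x82f369c91bc55508c1)) (.lf (nat_lit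 0x80080f80bc2298ceab))) (.nd (.lf (nat_lit 0x81d7dba1e5a311fa8f)) (.lf (nat_lit 0x82c87ba483088e0dc0)) (.lf (nat_lit 0x8008008004c9f3d91a)) (.lf (nat_lit 0x82d96ed914c8ae9b7a))))
  _ _ _ (by decide +kernel)

noncomputable def g1_m18_m10 : GD 1 (-18) (-10) := chk_sound 
  (.cell (.nd (.lf (nat_lit 0x8047d084e3b0e61a21)) (.lf (nat_lit 0x80080182b6b5e9ac52)) (.nd (.lf (nat_lit 0x8007a68632aadc9951)) (.nd (.lf (nat_lit 0x80b7b48532afdb39bc)) (.lf (nat_lit 0x8047de8383efe49acd)) (.lf (nat_lit 0x820800800243d5f978)) (.lf (nat_lit 0x8472f8b0b45ab8b9dc))) (.lf (nat_lit 0x8007ac858236d64912)) (.nd (.lf (nat_lit 0x80077d8671d6cf3904)) (.lf (nat_lit 0x8027728470fdbc2885)) (.lf (nat_lit 0x81175787415fc64846)) (.lf (nat_lit 0x80976e84e0fabbc87f)))) (.lf (nat_lit 0x8007ff81e949e12d0b))) (.nd (.lf (nat_lit 0x8037f686f89c01c90f)) (.lf (nat_lit 0x82675aab94e24b0df4)) (.nd (.lf (nat_lit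 0x8007ff836bab0e986c)) (.lf (nat_lit 0x8077bf893b020b5926)) (.lf (nat_lit 0x81a6df94bd25220818)) (.lf (nat_lit 0x8097da82dd5121089b))) (.lf (nat_lit 0x8008008009632ede06))) (.lf (nat_lit 0x81a800800ac3929f6a)) (.lf (nat_lit 0x8007908862fee1d904)) (.nd (.nd (.lf (nat_lit 0x80f6d8937d6a25c807)) (.lf (nat_lit 0x80578e857e51325864)) (.lf (nat_lit 0x8047d9828238d8384c)) (.lf (nat_lit 0x81a619938e763de80f))) (.lf (nat_lit 0x80080a80bb6888ef37)) (.nd (.lf (nat_lit 0x80776089021cd5088f)) (.lf (nat_lit 0x8196e18a7124be4840)) (.lf (nat_lit 0x8087ac850204d3a8c7)) (.lf (nat_lit 0x80d7028860f6b9b85d))) (.lf (nat_lit 0x80080a807b81932f17))) (.lf (nat_lit 0x830777ec847c6739b2)))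
  _ _ _ (by decide +kernel)

theorem g2_m20_m12 : GD 2 (-20) (-12) :=
  GD.split (i := 1) g1_m22_m14 g1_m18_m14 g1_m22_m10 g1_m18_m10 (by decide)

noncomputable def g2_m28_m4 : GD 2 (-28) (-4) := chk_sound 
  (.cell (.nd (.lf (nat_lit 0x8067d78604fcf04a57)) (.lf (nat_lit 0x8008178269e2e87c37)) (.lf (nat_lit 0x83b402bb4675ceaac8)) (.lf (nat_lit 0x8007ff80dc0acfecc4))) (.nd (.nd (.lf (nat_lit 0x8397309227ff0f3b80)) (.lf (nat_lit 0x80e82e8161ea4e7c28)) (.lf (nat_lit 0x8007ec84d93c17ac73)) (.lf (nat_lit 0x8178138432613e8bf0))) (.lf (nat_lit 0x80082e81016c4b5b21)) (.lf (nat_lit 0x80082f81c403394d56)) (.lf (nat_lit 0x800cf9a3742c452a79))) (.lf (nat_lit 0x83ca9fa1eb4ddfba6d)) (.lf (nat_lit 0x81069fa2997f0dba06)) (.nd (.lf (nat_lit 0x8007df812b4339edd7)) (.lf (nat_lit 0x800820825debc0fb86)) (.lf (nat_lit 0x8007e7837be8325d02)) (.lf (nat_lit 0x80081b81dd21b7ed0b))) (.nd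 (.nd (.lf (nat_lit 0x8107299807f80a9aab)) (.lf (nat_lit 0x82d8008001ac734cd2)) (.lf (nat_lit 0x8157289d692807b968)) (.lf (nat_lit 0x81a80080023db6ec5b))) (.lf (nat_lit 0x850a50b862c497dc10)) (.lf (nat_lit 0x8007d5830442e4bb35)) (.lf (nat_lit 0x82b97faba784ea5b25))))
  _ _ _ (by decide +kernel)

noncomputable def g1_m22_m6 : GD 1 (-22) (-6) := chk_sound 
  (.cell (.nd (.lf (nat_lit 0x8325d2a234d1e57a11)) (.lf (nat_lit 0x8378cc8bb898e80c7d)) (.nd (.lf (nat_lit 0x8007d8828c4614286a)) (.lf (nat_lit 0x8382ddcd26f8b299ce)) (.lf (nat_lit 0x8007da816cd71ae8bc)) (.lf (nat_lit 0x8372f9bcdc3458b8b4))) (.lf (nat_lit 0x800819829b68bc8e2b))) (.nd (.lf (nat_lit 0x81f7a1a455d711aa88)) (.lf (nat_lit 0x8098d2d2143b817cc6)) (.lf (nat_lit 0x8007e18549c80e6b33)) (.lf (nat_lit 0x800b2a94080c4a2e68))) (.lf (nat_lit 0x80080181cb59a9fec6)) (.lf (nat_lit 0x8007df833b3b0c3907)) (.nd (.lf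 (nat_lit 0x8007d385abcb15da51)) (.lf (nat_lit 0x82a800800be188aef9)) (.lf (nat_lit 0x8176829f0d462b5976)) (.lf (nat_lit 0x80080180cbf5950ed3))) (.nd (.lf (nat_lit 0x826998f6a5f773494c)) (.lf (nat_lit 0x8329b7e5b4f29bcae1)) (.lf (nat_lit 0x82f81995d519f129e8)) (.lf (nat_lit 0x82fa13bdd6a3d91b72))))
  _ _ _ (by decide +kernel)

noncomputable def g1_m18_m6 : GD 1 (-18) (-6) := chk_sound 
  (.cell (.nd (.lf (nat_lit 0x82c5f19974a9e6ba31)) (.lf (nat_lit 0x845a219be7e5d98d01)) (.nd (.lf (nat_lit 0x8007d78412f1e1f8e4)) (.nd (.lf (nat_lit 0x8007d28212d2dee961)) (.lf (nat_lit 0x80f589a0f43fdbea90)) (.lf (nat_lit 0x81278487d252d808fb)) (.lf (nat_lit 0x8355df88e114b398df))) (.lf (nat_lit 0x800793865229d638b2)) (.nd (.lf (nat_lit 0x80e77786e19ccb9892)) (.lf (nat_lit 0x8027538580ecb9f864)) (.lf (nat_lit 0x81275787a178c8884a)) (.lf (nat_lit 0x80675685e0f8bb884f)))) (.lf (nat_lit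 0x800821831a9fd1bd91))) (.nd (.lf (nat_lit 0x80081285d6f804f9e5)) (.lf (nat_lit 0x81e871c354436a3d80)) (.nd (.lf (nat_lit 0x8007cd86db060a98d7)) (.lf (nat_lit 0x8007e78829b6058976)) (.lf (nat_lit 0x80f7708c0ce91c8888)) (.lf (nat_lit 0x80a7b8856d4320c8ca))) (.lf (nat_lit 0x8007f782283c32de60))) (.lf (nat_lit 0x810800800aa194ff70)) (.lf (nat_lit 0x80478b89632de498c9)) (.nd (.nd (.lf (nat_lit 0x8007ce844d46201843)) (.lf (nat_lit 0x81378286edf42b886c)) (.lf (nat_lit 0x80973a8d3d6f23f82e)) (.lf (nat_lit 0x8176e38d9e4c34883e))) (.lf (nat_lit 0x812800800b3784af51)) (.nd (.lf (nat_lit 0x8076e990724cd6682a)) (.lf (nat_lit 0x8144f69ec1f6bd0807)) (.lf (nat_lit 0x8007c1820203d46871)) (.lf (nat_lit 0x80f6b28b5118bbf810))) (.lf (nat_lit 0x8007ff808b5f8f7f30))) (.nd (.lf (nat_lit 0x80080a82669d04f9af)) (.lf (nat_lit 0x82c93fc7f3d68d1ceb)) (.lf (nat_lit 0x8007e7846642fc9876)) (.lf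 (nat_lit 0x818a56c54597bdfc5b))))
  _ _ _ (by decide +kernel)

noncomputable def g1_m22_m2 : GD 1 (-22) (-2) := chk_sound 
  (.cell (.nd (.lf (nat_lit 0x8047d186a485ed6a37)) (.lf (nat_lit 0x8448b386e974de3d25)) (.lf (nat_lit 0x83933bc016fbc70a19)) (.lf (nat_lit 0x80f800800b4bbdde2e))) (.nd (.lf (nat_lit 0x81a8bbd9f490400a00)) (.lf (nat_lit 0x82a970db0461807c0d)) (.lf (nat_lit 0x8007e98409e218ec56)) (.lf (nat_lit 0x83bb8ca116d059ce52))) (.lf (nat_lit 0x800800800b21b0feb2)) (.lf (nat_lit 0x8007d986ca7208a973)) (.nd (.lf (nat_lit 0x8007f7834b1121dc75)) (.lf (nat_lit 0x826800800baa851f1a)) (.lf (nat_lit 0x8087ce84bc12215b80)) (.lf (nat_lit 0x820800800bcd91eef2))) (.nd (.lf (nat_lit 0x8249e5ed95d8a5c9ce)) (.lf (nat_lit 0x834a3cd7f564badae7)) (.lf (nat_lit 0x8228208974c4eeca47)) (.lf (nat_lit 0x8259b1a147b3e6fbe9))))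
  _ _ _ (by decide +kernel)

noncomputable def g1_m18_m2 : GD 1 (-18) (-2) := chk_sound 
  (.cell (.nd (.lf (nat_lit 0x83157aa7c516e2ca31)) (.lf (nat_lit 0x84097a8d38a7d9ed64)) (.nd (.lf (nat_lit 0x8067b4876369e85843)) (.nd (.lf (nat_lit 0x80c7af866313e388dd)) (.lf (nat_lit 0x8288008003c4e4da82)) (.lf (nat_lit 0x826800800298de3835)) (.lf (nat_lit 0x86a3419d52fab778d0))) (.lf (nat_lit 0x8006c09532addae824)) (.nd (.lf (nat_lit 0x8127778721ddd14810)) (.lf (nat_lit 0x8186698d3117b9a80e)) (.lf (nat_lit 0x8116ed8cee5034983d)) (.lf (nat_lit 0x80077d834f374b48d9)))) (.lf (nat_lit 0x804821828b1bc33e0e))) (.nd (.lf (nat_lit 0x80180e86071205ca23)) (.lf (nat_lit 0x825817c4e3756dfcd9)) (.nd (.lf (nat_lit 0x80080182a9ee0769d5)) (.lf (nat_lit 0x8008018088400a4b1e)) (.lf (nat_lit 0x8007cb874ada0c09bc)) (.lf (nat_lit 0x8007d8834b35101a28))) (.lf (nat_lit 0x80080081d7222f8e28)))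 (.lf (nat_lit 0x800801811a81996f6e)) (.lf (nat_lit 0x8007658fc3eaec682c)) (.nd (.lf (nat_lit 0x80c780882d9726b904)) (.lf (nat_lit 0x812800800b0e811f64)) (.lf (nat_lit 0x80078d852e4c323894)) (.lf (nat_lit 0x805800800b438c9f43))) (.lf (nat_lit 0x83c9e2f3f865abd876)))
  _ _ _ (by decide +kernel)

theorem g2_m20_m4 : GD 2 (-20) (-4) :=
  GD.split (i := 1) g1_m22_m6 g1_m18_m6 g1_m22_m2 g1_m18_m2 (by decide)

theorem g3_m24_m8 : GD 3 (-24) (-8) :=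
  GD.split (i := 2) g2_m28_m12 g2_m20_m12 g2_m28_m4 g2_m20_m4 (by decide)

noncomputable def g2_m28_4 : GD 2 (-28) 4 := chk_sound 
  (.cell (.nd (.lf (nat_lit 0x85583786251dee1ad4)) (.lf (nat_lit 0x80180d843971e63c96)) (.lf (nat_lit 0x82d45bb656b7d5caf5)) (.lf (nat_lit 0x80080081eb9cce3d33))) (.nd (.lf (nat_lit 0x822949c6028175cb8a)) (.lf (nat_lit 0x8268be90e1594e0adf)) (.lf (nat_lit 0x80082e8222584b7c99)) (.lf (nat_lit 0x828b9b9f53133caa42))) (.lf (nat_lit 0x82d999938ab0e5eb7b)) (.lf (nat_lit 0x8007e7845a570bfa67)) (.nd (.lf (nat_lit 0x8007eb823b343cadff)) (.lf (nat_lit 0x831a5791bc46bf5cd4)) (.lf (nat_lit 0x8007f2821b84404dfa)) (.lf (nat_lit 0x80982881ec7db3adc7))) (.nd (.lf (nat_lit 0x82d7d88472f7d0ab9e)) (.lf (nat_lit 0x8369cdb00397becc1b)) (.lf (nat_lit 0x8057df8363ebe0bb46)) (.lf (nat_lit 0x83087688b79eed9c0c))))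
  _ _ _ (by decide +kernel)

noncomputable def g1_m22_2 : GD 1 (-22) 2 := chk_sound 
  (.cell (.nd (.lf (nat_lit 0x8067c886946eede9f5)) (.lf (nat_lit 0x800811844925e2ccf3)) (.lf (nat_lit 0x84c352bb6730cc1a3a)) (.lf (nat_lit 0x803826825b4cb81e63))) (.nd (.lf (nat_lit 0x8299c1e2e409681a2c)) (.lf (nat_lit 0x8209f2d913f7812b97)) (.lf (nat_lit 0x8027f38349e51cdcae)) (.lf (nat_lit 0x88bb7fa6f5c263ae1d))) (.lf (nat_lit 0x819800800adeb89e93)) (.lf (nat_lit 0x8007dc862a660b3a2d)) (.lf (nat_lit 0x8007e9830bdd390d6a)) (.nd (.lf (nat_lit 0x8159cbd95470b26aa5)) (.lf (nat_lit 0x800a45cca45ab6db4a)) (.lf (nat_lit 0x8007d3846444e8aaac)) (.lf (nat_lit 0x82e92994a79aeb2bfe))))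
  _ _ _ (by decide +kernel)

noncomputable def g1_m18_2 : GD 1 (-18) 2 := chk_sound 
  (.cell (.nd (.lf (nat_lit 0x8007ee840459ebba4a)) (.lf (nat_lit 0x82d91387a8f6d7ada0)) (.nd (.lf (nat_lit 0x8007e9833c19129890)) (.lf (nat_lit 0x8402a7cee7bbadb9aa)) (.lf (nat_lit 0x8087c0868c5e16e937)) (.lf (nat_lit 0x819583a27de63da90e))) (.lf (nat_lit 0x80080181ab23bc7e50))) (.nd (.lf (nat_lit 0x81b8cee5c53b469983)) (.lf (nat_lit 0x80086dcab38b806cb4)) (.lf (nat_lit 0x8007ea85298909faa7)) (.lf (nat_lit 0x80a8f89886c139ae4f))) (.lf (nat_lit 0x8007ff80aa5c9fff60)) (.lf (nat_lit 0x8007de84aaea0a3910)) (.nd (.lf (nat_lit 0x8037e083cb2a117a79)) (.lf (nat_lit 0x8007dc804ae97e0f73)) (.lf (nat_lit 0x8057da82ecef2079f8)) (.lf (nat_lit 0x80080180db2b8a1f51))) (.nd (.lf (nat_lit 0x823986d5c735d81967)) (.lf (nat_lit 0x843a19c5746ab99bdb)) (.lf (nat_lit 0x8248438c04e7ef9a41)) (.lf (nat_lit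 0x8219d69da726e05c7e))))
  _ _ _ (by decide +kernel)

noncomputable def g1_m22_6 : GD 1 (-22) 6 := chk_sound 
  (.cell (.nd (.lf (nat_lit 0x8037d385f495eb9aa1)) (.lf (nat_lit 0x80080a82d92be03d24)) (.lf (nat_lit 0x86233fb046f0d07a64)) (.lf (nat_lit 0x800801820b39b46e8c))) (.nd (.lf (nat_lit 0x835a11e063cd7b9a61)) (.lf (nat_lit 0x81f9ced5e398846b86)) (.lf (nat_lit 0x80080d8356e922cd5d)) (.lf (nat_lit 0x814b69aa05666c4e18))) (.lf (nat_lit 0x80380e819a90bfee70)) (.lf (nat_lit 0x8067db875a760baa2f)) (.lf (nat_lit 0x821800800b6c511e9b)) (.nd (.nd (.lf (nat_lit 0x8007ee82698404093f)) (.lf (nat_lit 0x80083e8090f576fbbd)) (.lf (nat_lit 0x8007cc899ab6083859)) (.lf (nat_lit 0x8007e281d19ab1bba7))) (.lf (nat_lit 0x806a36bec410bd5bac)) (.lf (nat_lit 0x8007d08393d8e26af7)) (.lf (nat_lit 0x82a8da8cf7c5e95c61))))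
  _ _ _ (by decide +kernel)

noncomputable def g1_m18_6 : GD 1 (-18) 6 := chk_sound 
  (.cell (.nd (.lf (nat_lit 0x8007fb832440eb7a2e)) (.lf (nat_lit 0x80080b81d8c1de2d5d)) (.nd (.lf (nat_lit 0x8007f083bbba11697b)) (.lf (nat_lit 0x82c2b7d20925a469cd)) (.lf (nat_lit 0x8047cd84cbc0179aad)) (.lf (nat_lit 0x8007d0825ce626aaf3))) (.lf (nat_lit 0x80081081cb17b58e93))) (.nd (.lf (nat_lit 0x811a09ed84e179b9c0)) (.lf (nat_lit 0x8008bec12280737bff)) (.lf (nat_lit 0x8007f68529c2135bd3)) (.lf (nat_lit 0x83a9898d16ae469ecd))) (.lf (nat_lit 0x80080c81fa2ca7ff48)) (.lf (nat_lit 0x8007ce888aaa08e90c)) (.lf (nat_lit 0x8007ee833cbe2bebb6)) (.nd (.nd (.lf (nat_lit 0x8007f28809340258bb)) (.lf (nat_lit 0x80985382f1a5425aed)) (.lf (nat_lit 0x800789976594f7780d)) (.lf (nat_lit 0x8007da827246c9eb21))) (.lf (nat_lit 0x82ca33bef487c30bbf)) (.lf (nat_lit 0x833829868451e8eaae)) (.lf (nat_lit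 0x82d96c938789e1accb))))
  _ _ _ (by decide +kernel)

theorem g2_m20_4 : GD 2 (-20) 4 :=
  GD.split (i := 1) g1_m22_2 g1_m18_2 g1_m22_6 g1_m18_6 (by decide)

noncomputable def g2_m28_12 : GD 2 (-28) 12 := chk_sound 
  (.cell (.nd (.lf (nat_lit 0x83a9a196e4cae6bac6)) (.lf (nat_lit 0x80080382b8ade77ca8)) (.lf (nat_lit 0x86738fafe840d53a97)) (.lf (nat_lit 0x80081c82ab06d10d66))) (.nd (.lf (nat_lit 0x82e927c992ab71cb7f)) (.lf (nat_lit 0x845a8ec13291624acb)) (.lf (nat_lit 0x80082b8262934c0ce4)) (.lf (nat_lit 0x831bfbbcc3ee613ba9))) (.lf (nat_lit 0x8008da89ca1ae58c44)) (.lf (nat_lit 0x8007ff818ae0110abf)) (.nd (.lf (nat_lit 0x810800800b4b3f5e10)) (.lf (nat_lit 0x800a2f934b3cbbcdc6)) (.lf (nat_lit 0x8007ff81eb8d41be04)) (.lf (nat_lit 0x821800800bdeaf3e59))) (.nd (.lf (nat_lit 0x8367ed85f292c7dbc3)) (.lf (nat_lit 0x8349409f0300bc7c66)) (.lf (nat_lit 0x8007cc8433f0de9b86))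 (.lf (nat_lit 0x80080181b6f4ea6c51))))
  _ _ _ (by decide +kernel)

noncomputable def g2_m20_12 : GD 2 (-20) 12 := chk_sound 
  (.cell (.nd (.nd (.lf (nat_lit 0x8007bb890470f0992c)) (.lf (nat_lit 0x8007ff82d499e8db12)) (.lf (nat_lit 0x8077938e3497f2885e)) (.lf (nat_lit 0x8007cb84744ceb6a41))) (.lf (nat_lit 0x8007ff83c871e40cf7)) (.nd (.lf (nat_lit 0x8007c787eb990f6914)) (.lf (nat_lit 0x847299c1e7a8b9da24)) (.lf (nat_lit 0x8067da840bd6156a2d)) (.lf (nat_lit 0x8007bf82de703d8a44))) (.lf (nat_lit 0x80082481cbe1cccd16))) (.nd (.nd (.lf (nat_lit 0x835676d0d3f8466a9c)) (.lf (nat_lit 0x80082f81c14d52bb51)) (.lf (nat_lit 0x8007ec83e96e088a76)) (.lf (nat_lit 0x82da0cd09365523a3b))) (.lf (nat_lit 0x8169e0c162d2825c1c)) (.lf (nat_lit 0x80883183f3652bebe0)) (.lf (nat_lit 0x82bb04aff3ab719d21))) (.lf (nat_lit 0x80088b83a9b0c6ee6a)) (.lf (nat_lit 0x8057d9874a9c07d8b1)) (.nd (.lf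 (nat_lit 0x8007ed82fac9238cc5)) (.lf (nat_lit 0x8057f0805ad3789f78)) (.lf (nat_lit 0x8007ff82fb67220c39)) (.lf (nat_lit 0x800800800b2a84bf57))) (.nd (.nd (.lf (nat_lit 0x83e648e774207969ff)) (.lf (nat_lit 0x8398008000f9941b99)) (.lf (nat_lit 0x81874db3938fd8e994)) (.lf (nat_lit 0x84981d8b9252c6db64))) (.lf (nat_lit 0x8369cdb09284a54bff)) (.nd (.lf (nat_lit 0x8007da85a490f2b8c6)) (.lf (nat_lit 0x8007ff82c3b1de7b3e)) (.lf (nat_lit 0x8007b588b449f038c6)) (.lf (nat_lit 0x8067de83d46ee51b5a))) (.lf (nat_lit 0x8057eb82a53ae35c35))))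
  _ _ _ (by decide +kernel)

theorem g3_m24_8 : GD 3 (-24) 8 :=
  GD.split (i := 2) g2_m28_4 g2_m20_4 g2_m28_12 g2_m20_12 (by decide)

noncomputable def g2_m28_20 : GD 2 (-28) 20 := chk_sound 
  (.cell (.nd (.lf (nat_lit 0x8399269a14c9eada3e)) (.lf (nat_lit 0x8007f883b7caea0c78)) (.nd (.lf (nat_lit 0x8007ee81cbd0382d68)) (.lf (nat_lit 0x824599ba0c51858d20)) (.lf (nat_lit 0x800800800bbd428def)) (.lf (nat_lit 0x8007e681ebdb517e5f))) (.lf (nat_lit 0x80080981dac7cccdc4))) (.nd (.lf (nat_lit 0x84f87bc882926b0b74)) (.lf (nat_lit 0x8258edb35263815c9d)) (.lf (nat_lit 0x80082581f2eb4bed3e)) (.lf (nat_lit 0x838befbb54987e2ccf))) (.nd (.lf (nat_lit 0x8007ff840857e70cba)) (.lf (nat_lit 0x834a299bcae5d5ac63)) (.lf (nat_lit 0x80080783c863e74cb4)) (.lf (nat_lit 0x803800800a71d40d84))) (.lf (nat_lit 0x8007e783bb6720cc1c)) (.nd (.lf (nat_lit 0x809800800b6248ae5e)) (.lf (nat_lit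 0x8299f8924a96b2ee7a)) (.lf (nat_lit 0x8077e181bba14a8e4b)) (.lf (nat_lit 0x80081a814b62a9dec2))) (.nd (.lf (nat_lit 0x8228cba66474defb20)) (.lf (nat_lit 0x83c8738d95e5e7bc12)) (.lf (nat_lit 0x8238528c64dbee9a5d)) (.lf (nat_lit 0x8008018306e3eb1c3b))))
  _ _ _ (by decide +kernel)

noncomputable def g2_m20_20 : GD 2 (-20) 20 := chk_sound 
  (.cell (.nd (.nd (.lf (nat_lit 0x80874998cb4a0ea815)) (.lf (nat_lit 0x8007ff83d583f15abf)) (.lf (nat_lit 0x8007d3841b95108991)) (.lf (nat_lit 0x8417e7831499f0f98f))) (.lf (nat_lit 0x8007ff815854de3d67)) (.nd (.lf (nat_lit 0x8007d6836b9f22fc1e)) (.lf (nat_lit 0x83943cc3bc8883ab5b)) (.lf (nat_lit 0x8007ff82ab7e313d3e)) (.lf (nat_lit 0x8057e681dba5451e17))) (.lf (nat_lit 0x81b800800c3bc1ad68))) (.nd (.lf (nat_lit 0x81295cd0f2ef6d5b14)) (.lf (nat_lit 0x800979be52a87f2c40)) (.lf (nat_lit 0x8148008003113f3cd1)) (.lf (nat_lit 0x800aa7a9537575cd68)))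 (.lf (nat_lit 0x80d80080094dc7fe7c)) (.lf (nat_lit 0x8007dc862b030e9a1c)) (.lf (nat_lit 0x819853823ae964cf3e)) (.nd (.nd (.lf (nat_lit 0x80077298aa9f0a080b)) (.lf (nat_lit 0x82a8f4b0b3f0d53afc)) (.lf (nat_lit 0x8087a48e7520f65839)) (.lf (nat_lit 0x8047e7841550f10a9a))) (.lf (nat_lit 0x85597da474dad9fbde)) (.lf (nat_lit 0x8007d786553ff28a3b)) (.lf (nat_lit 0x8007f9832754e5dccb))))
  _ _ _ (by decide +kernel)

noncomputable def g2_m28_28 : GD 2 (-28) 28 := chk_sound 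
  (.cell (.nd (.lf (nat_lit 0x848401bc59a5c2bbb2)) (.lf (nat_lit 0x8127a885e935de6d3d)) (.nd (.lf (nat_lit 0x827800800bfe42adc5)) (.lf (nat_lit 0x8156e1a24ca9691ddd)) (.lf (nat_lit 0x8097e3818bc3538e7c)) (.lf (nat_lit 0x8007e9806bbc65dee1))) (.nd (.lf (nat_lit 0x8007ff808af0c73df6)) (.lf (nat_lit 0x8007ff80eaa3caadf0)) (.lf (nat_lit 0x800817807b719dfef9)) (.lf (nat_lit 0x800816823bb0cc5d41)))) (.lf (nat_lit 0x83fa15a932c260eca8)) (.nd (.lf (nat_lit 0x800801814715e9cc68)) (.nd (.lf (nat_lit 0x833d3ebff857a6ebce)) (.lf (nat_lit 0x847e27c2b810915abd)) (.lf (nat_lit 0x824bebaf7bb5c5aaab)) (.lf (nat_lit 0x80783182be36ce093d))) (.lf (nat_lit 0x8007f582d735eabc57)) (.nd (.lf (nat_lit 0x81a800800cfbd82af7)) (.lf (nat_lit 0x80785084adf1d0d9b8)) (.lf (nat_lit 0x800800800b74d63ccc)) (.lf (nat_lit 0x800823816cdcd0dbd9)))) (.lf (nat_lit 0x8027e1825bc333bd33)) (.lf (nat_lit 0x829c5aa8b90d989dec))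 (.lf (nat_lit 0x80080082d562f40a1f)))
  _ _ _ (by decide +kernel)

noncomputable def g2_m20_28 : GD 2 (-20) 28 := chk_sound 
  (.cell (.nd (.nd (.lf (nat_lit 0x80e7419a64c7f1781f)) (.lf (nat_lit 0x8007dd86b561f3aa29)) (.lf (nat_lit 0x8007e8828bd5162a55)) (.lf (nat_lit 0x8173f8c627ccc49b2d))) (.lf (nat_lit 0x800801822aa7d2ed7c)) (.nd (.lf (nat_lit 0x8007e1837bd9309cf2)) (.lf (nat_lit 0x83c64ea2dcfb768d95)) (.lf (nat_lit 0x8057e381cb9841fdff)) (.lf (nat_lit 0x800800800b95561ea7))) (.nd (.lf (nat_lit 0x805814814b3aad3ec0)) (.lf (nat_lit 0x80080d82ba24bd2eb1)) (.lf (nat_lit 0x8007ff80cb65787f3a)) (.lf (nat_lit 0x81d800800adba05f31)))) (.nd (.lf (nat_lit 0x800858c7a338554bb7)) (.lf (nat_lit 0x82494dbe439e7b3d46)) (.lf (nat_lit 0x80082c81a3b53ced48)) (.nd (.lf (nat_lit 0x80f9fd9304ef847f02)) (.nd (.lf (nat_lit 0x833a199726baa79f0d)) (.lf (nat_lit 0x83db23a317a0b34e3c))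 (.lf (nat_lit 0x81d9e6938752a37f51)) (.lf (nat_lit 0x816be5a9276ca69e01))) (.lf (nat_lit 0x81b8af857937785fda)) (.lf (nat_lit 0x831a6696b87ea34f25)))) (.nd (.lf (nat_lit 0x8007f3820773dccd7b)) (.nd (.lf (nat_lit 0x82486484b8a9bfdee2)) (.lf (nat_lit 0x8209488c4931aeef31)) (.lf (nat_lit 0x80081281c94abd0ee9)) (.lf (nat_lit 0x8008358199e4a87f58))) (.lf (nat_lit 0x8007fb8237b5dddd6e)) (.lf (nat_lit 0x80080681f9debd3ec5))) (.lf (nat_lit 0x8007df82bb73209c0e)) (.lf (nat_lit 0x8008c9859a627abf94)) (.lf (nat_lit 0x8007e48535ccf14afb)))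
  _ _ _ (by decide +kernel)

theorem g3_m24_24 : GD 3 (-24) 24 :=
  GD.split (i := 2) g2_m28_20 g2_m20_20 g2_m28_28 g2_m20_28 (by decide)

noncomputable def g1_m30_34 : GD 1 (-30) 34 := chk_sound 
  (.cell (.nd (.lf (nat_lit 0x84f4d4b55cca8f3c59)) (.lf (nat_lit 0x84661cac4b1abf5d3c)) (.lf (nat_lit 0x810686a17bcfb82d88)) (.lf (nat_lit 0x800895816b00c28e1c))) (.lf (nat_lit 0x8329d8a9d2f1590cb6)) (.nd (.lf (nat_lit 0x8007f78475fcf00b4a)) (.nd (.lf (nat_lit 0x83cae3a18a55bf1d7f)) (.lf (nat_lit 0x83aba6a8d954b18dba)) (.lf (nat_lit 0x82e95a908a87c9cdc8)) (.lf (nat_lit 0x8159c292fae0c16de0))) (.lf (nat_lit 0x8007ff84b601f05b42)) (.lf (nat_lit 0x82c823831b29c8edc2))) (.lf (nat_lit 0x8007de817bc0484e25)) (.lf (nat_lit 0x8158ed87da5a913f7f)) (.lf (nat_lit 0x8057cd8704d4f3f912)))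
  _ _ _ (by decide +kernel)

noncomputable def g1_m26_34 : GD 1 (-26) 34 := chk_sound 
  (.cell (.nd (.lf (nat_lit 0x81f4b6ad2bd1ab2cd5)) (.lf (nat_lit 0x8416db9aeb0cc45dae)) (.lf (nat_lit 0x83975e8f6ca0ae6dba)) (.lf (nat_lit 0x8007ff818acac04e54))) (.lf (nat_lit 0x82b988aad311529cb2)) (.lf (nat_lit 0x81fa08968932ba1e93)) (.lf (nat_lit 0x8007f5813bd4327d14)) (.lf (nat_lit 0x81387e83ea5288bf9d)) (.lf (nat_lit 0x8007ec83f508f41990)))
  _ _ _ (by decide +kernel)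

noncomputable def g1_m30_38 : GD 1 (-30) 38 := chk_sound 
  (.cell (.nd (.lf (nat_lit 0x8007ba838e91685c4e)) (.lf (nat_lit 0x81569f957b20bf3de8)) (.lf (nat_lit 0x8007ee802c3b7f9ec9)) (.lf (nat_lit 0x8cc74681bafbbf7e2e))) (.nd (.lf (nat_lit 0x80081883c3ff2f8cc0)) (.lf (nat_lit 0x800916baf3275e6c9d)) (.lf (nat_lit 0x8148cb962627571f2d)) (.lf (nat_lit 0x81d8a2956362686e30))) (.nd (.lf (nat_lit 0x8047df85a57df10ac3)) (.lf (nat_lit 0x80887f858e86c7e8eb)) (.lf (nat_lit 0x8027e186656bf09ac3)) (.nd (.lf (nat_lit 0x81d87785bb99c67d98)) (.lf (nat_lit 0x80081682abcec0adc2)) (.lf (nat_lit 0x800800800b52c2ddf5)) (.lf (nat_lit 0x800822819b8cb5fe53)))) (.lf (nat_lit 0x84389f842b51595ed4)) (.lf (nat_lit 0x80c8e98849fe947f91)) (.lf (nat_lit 0x8077c388848df288b4)))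
  _ _ _ (by decide +kernel)

noncomputable def g1_m26_38 : GD 1 (-26) 38 := chk_sound 
  (.cell (.nd (.lf (nat_lit 0x83751fa70d9c7f3c45)) (.lf (nat_lit 0x80a68b9a9b1dbb4df9)) (.lf (nat_lit 0x806836814d16a55db6)) (.lf (nat_lit 0x86285b82cae2bcfe64))) (.nd (.lf (nat_lit 0x8277a69bb42f2cfc65)) (.lf (nat_lit 0x828a38bdf35d749cb2)) (.lf (nat_lit 0x80988c9416ad4b6f0a)) (.lf (nat_lit 0x8008f79834927bceff))) (.nd (.lf (nat_lit 0x8148138425d0edcb78)) (.nd (.lf (nat_lit 0x800a019617aaa5bf3d)) (.lf (nat_lit 0x812a229687bf9bff5f)) (.lf (nat_lit 0x8009438e2a9abf1e45)) (.lf (nat_lit 0x81594b8cfa09ad2f0a))) (.lf (nat_lit 0x8027ef83d5f4eb7bd3)) (.lf (nat_lit 0x8008b3839b0ac05e2b))) (.lf (nat_lit 0x8007ff816b734bee70)) (.lf (nat_lit 0x800881844a43868fa4)) (.lf (nat_lit 0x8007cf8654b9f31923)))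
  _ _ _ (by decide +kernel)

theorem g2_m28_36 : GD 2 (-28) 36 :=
  GD.split (i := 1) g1_m30_34 g1_m26_34 g1_m30_38 g1_m26_38 (by decide)

noncomputable def g1_m22_34 : GD 1 (-22) 34 := chk_sound 
  (.cell (.nd (.lf (nat_lit 0x8454d5a7bb98b0cd0d)) (.lf (nat_lit 0x80082081db2cc7ddcf)) (.lf (nat_lit 0x8187d083ad59a22d8b)) (.lf (nat_lit 0x800801820ac1b79ea8))) (.lf (nat_lit 0x977accb203bf60acb9)) (.lf (nat_lit 0x83597d914943b6cee0)) (.lf (nat_lit 0x8007df82fbb928ec84)) (.lf (nat_lit 0x8007ec807a82775f93)) (.lf (nat_lit 0x800801815535f36a09)))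
  _ _ _ (by decide +kernel)

noncomputable def g1_m18_34 : GD 1 (-18) 34 := chk_sound 
  (.cell (.nd (.lf (nat_lit 0x8004bca8fbc8ab9d01)) (.lf (nat_lit 0x818800800a58c20e70)) (.lf (nat_lit 0x83182681add9970d42)) (.lf (nat_lit 0x80081c813b19a0ff14))) (.lf (nat_lit 0x999ad6b694075f5cab)) (.lf (nat_lit 0x8e28ff8ea93eaf2f27)) (.lf (nat_lit 0x8037d0846ba1207be0)) (.lf (nat_lit 0x8007ff80daa166ef63)) (.lf (nat_lit 0x8007d5854559f1fa77)))
  _ _ _ (by decide +kernel)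

noncomputable def g1_m22_38 : GD 1 (-22) 38 := chk_sound 
  (.cell (.nd (.lf (nat_lit 0x84b46fa8dcbd94fc87)) (.lf (nat_lit 0x8416c291eb0bbd5e19)) (.lf (nat_lit 0x82a800800d10a9cd9d)) (.lf (nat_lit 0x800824818adcb7ce9b))) (.nd (.lf (nat_lit 0x82079f96b4cf226c2b)) (.lf (nat_lit 0x8069aec293aa77acfa)) (.lf (nat_lit 0x80680e8956ea3ecec5)) (.lf (nat_lit 0x81290d96e551814f52))) (.nd (.lf (nat_lit 0x82f828860642e6ac6d)) (.lf (nat_lit 0x81c95790088aaaaf55)) (.lf (nat_lit 0x8007ea82964ae64c7d)) (.lf (nat_lit 0x80089683ea9bbd5e7d))) (.lf (nat_lit 0x809800800b8540bdfe)) (.lf (nat_lit 0x82a82b81ba387e6fae)) (.lf (nat_lit 0x8007cc86e4e1f2d994)))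
  _ _ _ (by decide +kernel)

noncomputable def g1_m18_38 : GD 1 (-18) 38 := chk_sound 
  (.cell (.nd (.lf (nat_lit 0x81a460a48c619d8ccc)) (.lf (nat_lit 0x814800800b18bd5e4d)) (.lf (nat_lit 0x800826814d129cbdeb)) (.lf (nat_lit 0x800821812af2b04ecc))) (.lf (nat_lit 0x819a2fb083b24fccbb)) (.nd (.lf (nat_lit 0x83a88f8906aedc3d53)) (.lf (nat_lit 0x81d8fe8c7814a06fa2)) (.lf (nat_lit 0x8128008006d8dbad76)) (.lf (nat_lit 0x82d89b849a94b23edb))) (.lf (nat_lit 0x8007d882cb98367d77)) (.lf (nat_lit 0x80f800800a6c6eaf8b)) (.lf (nat_lit 0x8007da847500f229fe)))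
  _ _ _ (by decide +kernel)

theorem g2_m20_36 : GD 2 (-20) 36 :=
  GD.split (i := 1) g1_m22_34 g1_m18_34 g1_m22_38 g1_m18_38 (by decide)

noncomputable def g1_m30_42 : GD 1 (-30) 42 := chk_sound 
  (.cell (.nd (.lf (nat_lit 0x82f801803e4e782ce4)) (.lf (nat_lit 0x8456b9899b25be6e11)) (.lf (nat_lit 0x800819805b50850f46)) (.nd (.lf (nat_lit 0x8496dc86eb86b6ae31)) (.lf (nat_lit 0x82e76282ebbdc17dba)) (.lf (nat_lit 0x800804811b3f97ff28)) (.lf (nat_lit 0x800827815b8aa55ec8)))) (.lf (nat_lit 0x800b25a3f3674f1c4e)) (.nd (.lf (nat_lit 0x8007e283c530f08a8e)) (.lf (nat_lit 0x828c2aa6d33b57cb69)) (.lf (nat_lit 0x8007ff833559ea5b91)) (.nd (.nd (.lf (nat_lit 0x80181681ebead00cdc)) (.lf (nat_lit 0x80383982dd48c97bdd)) (.lf (nat_lit 0x805819823be6cccd12)) (.lf (nat_lit 0x800835827ccec79c90))) (.lf (nat_lit 0x82c800800dc4c53b76)) (.nd (.lf (nat_lit 0x800821816b7cc82d9c)) (.lf (nat_lit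 0x807800800c3bc53d3b)) (.lf (nat_lit 0x800814826ae3c3ce23)) (.lf (nat_lit 0x80082780bbf9c3bd80))) (.lf (nat_lit 0x800801812baab42e51)))) (.lf (nat_lit 0x8318fe881a696dcf75)) (.lf (nat_lit 0x8178fc89b986946fa9)) (.lf (nat_lit 0x8067848ec453f0386d)))
  _ _ _ (by decide +kernel)

noncomputable def g1_m26_42 : GD 1 (-26) 42 := chk_sound 
  (.cell (.nd (.lf (nat_lit 0x833800800e9f72ec68)) (.lf (nat_lit 0x8256c98e5b11bbae32)) (.lf (nat_lit 0x822800800b767d7f35)) (.lf (nat_lit 0x88e899824b01bade62))) (.lf (nat_lit 0x97aa9eabd3a1506c6a)) (.nd (.lf (nat_lit 0x8007e78395cdeaebcd)) (.lf (nat_lit 0x82ca3593d23c50dbf3)) (.lf (nat_lit 0x8007e28405dde48c75)) (.nd (.lf (nat_lit 0x8008d5887c09c37d61)) (.lf (nat_lit 0x81e800800bb2b79e2f)) (.lf (nat_lit 0x80381d81db98c11ddf)) (.lf (nat_lit 0x806800800b7ca78ec3)))) (.lf (nat_lit 0x8428d7867ad15f9f24)) (.lf (nat_lit 0x81688f8529df8a8fb9))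 (.lf (nat_lit 0x8057db845470f1c8c8)))
  _ _ _ (by decide +kernel)

noncomputable def g1_m30_46 : GD 1 (-30) 46 := chk_sound 
  (.cell (.nd (.lf (nat_lit 0x833800800dab7acda1)) (.lf (nat_lit 0x85960c866be0bc2d8b)) (.lf (nat_lit 0x81a800800b198ccf54)) (.nd (.lf (nat_lit 0x86f7c2821be2ae1e5a)) (.lf (nat_lit 0x8d7792839c20bcbda0)) (.lf (nat_lit 0x800800800b1c99cf31)) (.lf (nat_lit 0x80781f814b78a3beda)))) (.lf (nat_lit 0x828c97c126c67b1cf9)) (.nd (.lf (nat_lit 0x8007e38264c4f02a15)) (.lf (nat_lit 0x83cbcea5a3955bec69)) (.lf (nat_lit 0x8017e28324d5dc3c8c)) (.nd (.lf (nat_lit 0x800801820dc3c57b73)) (.lf (nat_lit 0x822800800e06c2db32)) (.nd (.lf (nat_lit 0x800800800cd8c3dcbf)) (.lf (nat_lit 0x80082e80dd3cc24c67)) (.lf (nat_lit 0x80681c81abb3be6dec)) (.lf (nat_lit 0x80c831828c74b87da0))) (.lf (nat_lit 0x81b800800b93ad3e93)))) (.lf (nat_lit 0x80093d8b59e46e8f90)) (.lf (nat_lit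 0x8178b58769338fafcd)) (.lf (nat_lit 0x80e7958bf418eec831)))
  _ _ _ (by decide +kernel)

noncomputable def g1_m26_46 : GD 1 (-26) 46 := chk_sound 
  (.cell (.nd (.lf (nat_lit 0x8007c6806e297dfd18)) (.lf (nat_lit 0x8ed6fd81db8cbdfde0)) (.lf (nat_lit 0x800816809b32867f52)) (.nd (.lf (nat_lit 0x80f800800bedac2e66)) (.lf (nat_lit 0x8c66ef822bfdbd3da1)) (.lf (nat_lit 0x81e800800b1f95bf3d)) (.lf (nat_lit 0x80081d819b70a0aeed)))) (.lf (nat_lit 0x806c92c03713778d15)) (.nd (.lf (nat_lit 0x8027db85455eebfb60)) (.lf (nat_lit 0x814add9af2d2537c48)) (.lf (nat_lit 0x8007ee83662ad02df5)) (.nd (.lf (nat_lit 0x80c85b840d70c5cbe6)) (.lf (nat_lit 0x80582981fdffc2eb3d)) (.lf (nat_lit 0x829800800c6ac2bd34)) (.lf (nat_lit 0x816800800b77ab1eb0)))) (.lf (nat_lit 0x83b93e8aba4e67ef5f)) (.lf (nat_lit 0x80b89c8619568c1fd1)) (.lf (nat_lit 0x80b7988c7435ef8879)))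
  _ _ _ (by decide +kernel)

theorem g2_m28_44 : GD 2 (-28) 44 :=
  GD.split (i := 1) g1_m30_42 g1_m26_42 g1_m30_46 g1_m26_46 (by decide)

noncomputable def g1_m22_42 : GD 1 (-22) 42 := chk_sound 
  (.cell (.nd (.lf (nat_lit 0x8415949ade017e2c61)) (.lf (nat_lit 0x8006d38e2aeeb90e5e)) (.lf (nat_lit 0x800800800c41836ec5)) (.lf (nat_lit 0x8578bb82fb00b6de86))) (.lf (nat_lit 0x938aeaada4304deca3)) (.nd (.lf (nat_lit 0x8288a78b361ae49c76)) (.nd (.lf (nat_lit 0x80c8388171a2517bdc)) (.lf (nat_lit 0x8188b287465d7eefc9)) (.lf (nat_lit 0x84ca5c8f0cafc4cc20)) (.lf (nat_lit 0x824a729868c99bff36))) (.lf (nat_lit 0x8008018206c7d6fdbd)) (.nd (.lf (nat_lit 0x81e89186cba3c00dda)) (.lf (nat_lit 0x80081a81aabda45f2a)) (.lf (nat_lit 0x80580d810b79bfedff)) (.lf (nat_lit 0x80481c810b5aa17ef4)))) (.lf (nat_lit 0x845872837b29532ec4)) (.lf (nat_lit 0x8008658389df83afc3)) (.lf (nat_lit 0x8007e984c491f1f929)))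
  _ _ _ (by decide +kernel)

noncomputable def g1_m18_42 : GD 1 (-18) 42 := chk_sound 
  (.cell (.nd (.lf (nat_lit 0x81b4b69f2d498c4c90)) (.lf (nat_lit 0x82275c865ab7b74ea4)) (.lf (nat_lit 0x80081e80dc928a0e88)) (.lf (nat_lit 0x80087c81db2ab11ea8))) (.lf (nat_lit 0x800afdb274604d0cab)) (.nd (.lf (nat_lit 0x82d9188f36b3d75d83)) (.nd (.lf (nat_lit 0x80081d8161cd537c36)) (.lf (nat_lit 0x8048008006e2764fe5)) (.lf (nat_lit 0x825800800d93c78b97)) (.lf (nat_lit 0x8138c4873936922fc6))) (.lf (nat_lit 0x804800800746ce4e49)) (.nd (.lf (nat_lit 0x800825815bbabcbdf9)) (.lf (nat_lit 0x800801818a989d1f58)) (.lf (nat_lit 0x81a800800bb7b9be18)) (.lf (nat_lit 0x800800800b4f9b2f15)))) (.lf (nat_lit 0x84883b82bb63484e57)) (.lf (nat_lit 0x8008168079d87ccfc8)) (.lf (nat_lit 0x8007c58784aff18989)))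
  _ _ _ (by decide +kernel)

noncomputable def g1_m22_46 : GD 1 (-22) 46 := chk_sound 
  (.cell (.nd (.lf (nat_lit 0x82981b806e9a7dfc82)) (.lf (nat_lit 0x8c37a1827b4abbee32)) (.lf (nat_lit 0x800800800b48803f4b)) (.lf (nat_lit 0x800812829b5fba3e46))) (.lf (nat_lit 0x8dfc65c0871174dd21)) (.nd (.lf (nat_lit 0x8388ab8b7619e16cb9)) (.lf (nat_lit 0x8008398171ff4dcc3e)) (.lf (nat_lit 0x80080080071dca4e74)) (.nd (.lf (nat_lit 0x800834819d62c45c16)) (.lf (nat_lit 0x822a4b964c37b50d4b)) (.lf (nat_lit 0x87287e822c4fc0cd58)) (.lf (nat_lit 0x81d800800b7ba2aede)))) (.lf (nat_lit 0x81295789bad35b6ef8)) (.lf (nat_lit 0x81088184f966871fd7)) (.lf (nat_lit 0x8007b589244ef058c7)))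
  _ _ _ (by decide +kernel)

noncomputable def g1_m18_46 : GD 1 (-18) 46 := chk_sound 
  (.cell (.nd (.lf (nat_lit 0x8246c48b8e827c4c6a)) (.lf (nat_lit 0x85b78884bb14b8fe6f)) (.lf (nat_lit 0x8007ff807b737c3f36)) (.lf (nat_lit 0x80580c80db57b72e66))) (.lf (nat_lit 0x8e0c4cc0a705726d2c)) (.nd (.lf (nat_lit 0x81394e9106ced33db7)) (.lf (nat_lit 0x80080181c2294ecc83)) (.lf (nat_lit 0x80081182b8faca3e71)) (.nd (.lf (nat_lit 0x80080181bd9bc3bbd3)) (.lf (nat_lit 0x82ba1c93db5fa9ce4f)) (.lf (nat_lit 0x800886812c92bdcd48)) (.lf (nat_lit 0x80080d80db829ebeed)))) (.lf (nat_lit 0x83384882cac65fcf37)) (.lf (nat_lit 0x81986a83f96a819fdb)) (.lf (nat_lit 0x8087cc86b465f0a916)))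
  _ _ _ (by decide +kernel)

theorem g2_m20_44 : GD 2 (-20) 44 :=
  GD.split (i := 1) g1_m22_42 g1_m18_42 g1_m22_46 g1_m18_46 (by decide)

theorem g3_m24_40 : GD 3 (-24) 40 :=
  GD.split (i := 2) g2_m28_36 g2_m20_36 g2_m28_44 g2_m20_44 (by decide)

noncomputable def g1_m30_50 : GD 1 (-30) 50 := chk_sound 
  (.cell (.nd (.lf (nat_lit 0x8007d9805d2c7e4e19)) (.lf (nat_lit 0x800af1834caaba7c7e)) (.lf (nat_lit 0x800800800add91ff62)) (.lf (nat_lit 0x80096584bb26b65e5d))) (.lf (nat_lit 0x8dbc62bcb78e7acd6b)) (.nd (.lf (nat_lit 0x8057db83f429ef58d8)) (.nd (.lf (nat_lit 0x80083382b1cb40ab1c)) (.lf (nat_lit 0x80082281c2ee540d8a)) (.lf (nat_lit 0x80082c82215a446a69)) (.lf (nat_lit 0x800c60ab2586712d87))) (.lf (nat_lit 0x82380080016ba38bf6)) (.nd (.lf (nat_lit 0x800849838e2dc25aeb)) (.lf (nat_lit 0x83ec64ab4a73a40d20)) (.lf (nat_lit 0x821982857ca9bf1cee)) (.lf (nat_lit 0x800800800b5ba69ed9))))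 (.lf (nat_lit 0x8827f58bc8fc73bfd9)) (.lf (nat_lit 0x81086d84d8438b9ff2)) (.lf (nat_lit 0x800687a73bda19a809)))
  _ _ _ (by decide +kernel)

noncomputable def g1_m26_50 : GD 1 (-26) 50 := chk_sound 
  (.cell (.nd (.lf (nat_lit 0x822800800db4792d97)) (.lf (nat_lit 0x943a1384bc87bb3ce1)) (.lf (nat_lit 0x80081380fafa8daf60)) (.lf (nat_lit 0x8eb8d981cb35b79e54))) (.lf (nat_lit 0x922c64bcc77b7a9d59)) (.nd (.lf (nat_lit 0x8047e083d4e9ebdafd)) (.lf (nat_lit 0x815a5e9992f456fcdf)) (.lf (nat_lit 0x8dfd9c916823b20c8f)) (.nd (.lf (nat_lit 0x81b8e7890df6c21b33)) (.nd (.lf (nat_lit 0x826c4caa2b69ac2c65)) (.lf (nat_lit 0x80781180e9a1976fb1)) (.lf (nat_lit 0x800813816b51ad8eb3)) (.lf (nat_lit 0x808818816a6d9daf64))) (.lf (nat_lit 0x8e489082acc4bebcfa)) (.lf (nat_lit 0x80081e81db56a53ee3)))) (.lf (nat_lit 0x87379490f96b723fba)) (.lf (nat_lit 0x80d87284d88a8b1fee)) (.lf (nat_lit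 0x80a74a93b408ecb82c)))
  _ _ _ (by decide +kernel)

noncomputable def g1_m30_54 : GD 1 (-30) 54 := chk_sound 
  (.cell (.nd (.lf (nat_lit 0x83b99b866ca5809e4b)) (.lf (nat_lit 0x84c83c819f27a08aeb)) (.lf (nat_lit 0x80081a814a9394ff75)) (.lf (nat_lit 0x9997a6814b58a92e98))) (.lf (nat_lit 0x816c8eb8e6b974bd55)) (.nd (.lf (nat_lit 0x80f7698fb3f1eca843)) (.lf (nat_lit 0x8009888ed2fe589d71)) (.lf (nat_lit 0x8007af80e0c2a7da48)) (.nd (.lf (nat_lit 0x820b059d6ce4ba8bc3)) (.lf (nat_lit 0x8138838529469d9fa7)) (.lf (nat_lit 0x8006cf83ed21b53d03)) (.lf (nat_lit 0x808800800ad3a38f25)))) (.lf (nat_lit 0x800801810859708fee)) (.lf (nat_lit 0x8038008007f184effe)) (.lf (nat_lit 0x8007b3879c4714684a)))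
  _ _ _ (by decide +kernel)

noncomputable def g1_m26_54 : GD 1 (-26) 54 := chk_sound 
  (.cell (.nd (.lf (nat_lit 0x8007ce808d457b7e02)) (.lf (nat_lit 0x856b47870e25ac4abd)) (.lf (nat_lit 0x80080180aab4927f70)) (.lf (nat_lit 0x8ac9b0829b1db26e68))) (.lf (nat_lit 0x825c81bf8719741d27)) (.nd (.lf (nat_lit 0x8007ee839414ee88e6)) (.lf (nat_lit 0x8078a086329052dd16)) (.lf (nat_lit 0x87dc848da37ba14c3a)) (.nd (.lf (nat_lit 0x821bbfa40c66b5fbc2)) (.lf (nat_lit 0x800a0e9418ac988f71)) (.lf (nat_lit 0x8429c9866cb2bb6cf9)) (.lf (nat_lit 0x80081181aabca2cf32)))) (.lf (nat_lit 0x8077838e38e0739fd9)) (.lf (nat_lit 0x800800800835852ffd)) (.lf (nat_lit 0x80578d8bac3113f82a)))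
  _ _ _ (by decide +kernel)

theorem g2_m28_52 : GD 2 (-28) 52 :=
  GD.split (i := 1) g1_m30_50 g1_m26_50 g1_m30_54 g1_m26_54 (by decide)

noncomputable def g1_m22_50 : GD 1 (-22) 50 := chk_sound 
  (.cell (.nd (.lf (nat_lit 0x8137d3803e2878bd15)) (.lf (nat_lit 0x87cb0582cc67b94cbb)) (.lf (nat_lit 0x80081a80bb12890f5d)) (.lf (nat_lit 0x810827822b81bbce24))) (.lf (nat_lit 0x943c71bcd75b7aad43)) (.nd (.lf (nat_lit 0x8007e682b5a9e3bc6e)) (.lf (nat_lit 0x821a1c9472b6521ca7)) (.lf (nat_lit 0x874d6c947a77b4cbf9)) (.nd (.lf (nat_lit 0x80083680de3ebf7b09)) (.lf (nat_lit 0x814c7eab9abfa67ccd)) (.lf (nat_lit 0x88394784ccc6becce1)) (.lf (nat_lit 0x817800800b5ba38ee9)))) (.lf (nat_lit 0x81592689da2d679f6e)) (.lf (nat_lit 0x8118698468b3888fef)) (.lf (nat_lit 0x80077d8de417ee4866)))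
  _ _ _ (by decide +kernel)

noncomputable def g1_m18_50 : GD 1 (-18) 50 := chk_sound 
  (.cell (.nd (.lf (nat_lit 0x8007e2807e647cbccd)) (.lf (nat_lit 0x8ce980853c78be4d16)) (.lf (nat_lit 0x800812805b26848f59)) (.lf (nat_lit 0x80681981bbc8bc2df6))) (.lf (nat_lit 0x8adc56c0f780769d42)) (.nd (.lf (nat_lit 0x82d8ee8c866bd78d7b)) (.lf (nat_lit 0x80083180a20a4b5c30)) (.lf (nat_lit 0x8a3ac58b0b74c4ecff)) (.nd (.lf (nat_lit 0x80085283ae69beaab8)) (.lf (nat_lit 0x833cf9af5a439f4ca4)) (.lf (nat_lit 0x8d68d683ad02beacb4)) (.lf (nat_lit 0x821800800b6da1beea)))) (.lf (nat_lit 0x8349388a3a6b62cf45)) (.lf (nat_lit 0x8098658428c884eff1)) (.lf (nat_lit 0x80679a8c1429eef8a2)))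
  _ _ _ (by decide +kernel)

noncomputable def g1_m22_54 : GD 1 (-22) 54 := chk_sound 
  (.cell (.nd (.lf (nat_lit 0x823800800db6772d92)) (.lf (nat_lit 0x8b9afd8a0de6b3eaf8)) (.lf (nat_lit 0x814800800acd8f6f6e)) (.lf (nat_lit 0x890932839b29b77e57))) (.lf (nat_lit 0x833c8ebf56f3730d14)) (.nd (.lf (nat_lit 0x817800800494eb4ab4)) (.lf (nat_lit 0x80983b82126e527cfa)) (.lf (nat_lit 0x889c9b910a28bbccc5)) (.nd (.lf (nat_lit 0x81ebfda4cc03b46bfe)) (.lf (nat_lit 0x823b3e9f58da982ed4)) (.lf (nat_lit 0x83498584dcb6be5cea)) (.lf (nat_lit 0x800801812aafa20f3a)))) (.lf (nat_lit 0x81784e8359706e8fc8)) (.lf (nat_lit 0x800800800865843ffc)) (.lf (nat_lit 0x8007af886c2112e805)))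
  _ _ _ (by decide +kernel)

noncomputable def g1_m18_54 : GD 1 (-18) 54 := chk_sound 
  (.cell (.nd (.lf (nat_lit 0x82d800800e1f769d1c)) (.lf (nat_lit 0x833a1387edfdb87b54)) (.lf (nat_lit 0x80081180fae08c0f6d)) (.lf (nat_lit 0x8618f282fb5cb8be40))) (.lf (nat_lit 0x800cb0bfe6f7730cef)) (.nd (.lf (nat_lit 0x8007e6849527e48c0a)) (.lf (nat_lit 0x80682380f25f524ce8)) (.lf (nat_lit 0x845bf490fb85bdec73)) (.nd (.lf (nat_lit 0x844cada9cb70ab8c01)) (.lf (nat_lit 0x825c11a6c9569a5e16)) (.lf (nat_lit 0x81690189dcfdbdccc6)) (.lf (nat_lit 0x800800800aa8a14f41)))) (.lf (nat_lit 0x8007f68119bd6e2fba)) (.lf (nat_lit 0x8007ff801880825ffb)) (.lf (nat_lit 0x80871d980408eb8822)))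
  _ _ _ (by decide +kernel)

theorem g2_m20_52 : GD 2 (-20) 52 :=
  GD.split (i := 1) g1_m22_50 g1_m18_50 g1_m22_54 g1_m18_54 (by decide)

noncomputable def g1_m30_58 : GD 1 (-30) 58 := chk_sound 
  (.cell (.nd (.lf (nat_lit 0x825800800cc68cbe5e)) (.lf (nat_lit 0x9d2a27809e5d836bef)) (.lf (nat_lit 0x80e800800a3e968f8c)) (.lf (nat_lit 0x800818817b05a1cf19))) (.lf (nat_lit 0x800c5bbad6b074bd69)) (.nd (.lf (nat_lit 0x814708994c1f167809)) (.lf (nat_lit 0x80081180f3c26e7eb1)) (.lf (nat_lit 0x8007878450e3b93886)) (.nd (.lf (nat_lit 0x80081f804a2cb34f00)) (.lf (nat_lit 0x8007ff81082f95dfe1)) (.lf (nat_lit 0x817800800d63ac4d39)) (.lf (nat_lit 0x8128008009e0a01f83)))) (.nd (.lf (nat_lit 0x80080e81f69357ff76)) (.lf (nat_lit 0x8118008005c566df84)) (.lf (nat_lit 0x8007f780489c727fee)) (.lf (nat_lit 0x8007ff8028e4838ff2))) (.lf (nat_lit 0x8007f780874c84aff6)) (.lf (nat_lit 0x8007ee80ec6a15d8a2)))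
  _ _ _ (by decide +kernel)

noncomputable def g1_m26_58 : GD 1 (-26) 58 := chk_sound 
  (.cell (.nd (.lf (nat_lit 0x81f943850d177e9e07)) (.lf (nat_lit 0x800819810ede8f2bfc)) (.lf (nat_lit 0x800801811a5b954f87)) (.lf (nat_lit 0x8c964d840ae9a6beca))) (.lf (nat_lit 0x816c3dc3672b756d35)) (.nd (.lf (nat_lit 0x8047b18883e3ed4824)) (.lf (nat_lit 0x80081580b3bb709eb1)) (.lf (nat_lit 0x8007898370c3ae19bc)) (.nd (.nd (.lf (nat_lit 0x820ab794143c85fe61)) (.lf (nat_lit 0x8057ee80d646954fb2)) (.lf (nat_lit 0x84be0ba967ef92cc65)) (.lf (nat_lit 0x800800800925a72f87))) (.lf (nat_lit 0x8008008007d1941fe6)) (.lf (nat_lit 0x817800800ce4b07d8e)) (.lf (nat_lit 0x81580080098c9eff9b)))) (.lf (nat_lit 0x8008018138456defea)) (.lf (nat_lit 0x806800800774858ff9)) (.lf (nat_lit 0x8007978a7c5615a897)))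
  _ _ _ (by decide +kernel)

noncomputable def g1_m30_62 : GD 1 (-30) 62 := chk_sound 
  (.cell (.lf (nat_lit 0x80a83e82dbd6a94e85)) (.lf (nat_lit 0x827c09bda69276cd85)) (.lf (nat_lit 0x83acb69ba7d68ebe27)) (.nd (.lf (nat_lit 0x8007ff81a6524d1f24)) (.lf (nat_lit 0x8108008005d05eef69)) (.lf (nat_lit 0x8007f28098d0717fe7)) (.lf (nat_lit 0x8027f880b89e73cff0))) (.lf (nat_lit 0x8008018076d689bfe4)) (.lf (nat_lit 0x8007a7878c7617e92a)))
  _ _ _ (by decide +kernel)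

noncomputable def g1_m26_62 : GD 1 (-26) 62 := chk_sound 
  (.cell (.lf (nat_lit 0x815800800c2eaa2e4a)) (.lf (nat_lit 0x80dbfdbbb68f762da1)) (.nd (.lf (nat_lit 0x8007af880c2e13682a)) (.lf (nat_lit 0x80c80080059e996f78)) (.lf (nat_lit 0x82719cc0c63f9b88d3)) (.lf (nat_lit 0x82f62483b70ea15f6e))) (.nd (.lf (nat_lit 0x80080b81c722534f71)) (.lf (nat_lit 0x80b80080062b61cf8d)) (.lf (nat_lit 0x8007ff80c93b6f6fd6)) (.lf (nat_lit 0x8007f4808900793fec))) (.lf (nat_lit 0x8008008006da8acfe3)) (.lf (nat_lit 0x8007bf85fc6a175934)))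
  _ _ _ (by decide +kernel)

theorem g2_m28_60 : GD 2 (-28) 60 :=
  GD.split (i := 1) g1_m30_58 g1_m26_58 g1_m30_62 g1_m26_62 (by decide)

noncomputable def g1_m22_58 : GD 1 (-22) 58 := chk_sound 
  (.cell (.nd (.lf (nat_lit 0x81c800800d6d7b8dde)) (.lf (nat_lit 0x800832810f35980b1e)) (.lf (nat_lit 0x812800800a72938f84)) (.lf (nat_lit 0x9ed744823a98acaeb9))) (.lf (nat_lit 0x834c34c2071173ed46)) (.nd (.lf (nat_lit 0x8007888cb406ede85a)) (.lf (nat_lit 0x8198008003b8739eb6)) (.lf (nat_lit 0xa6b780815164a18b20)) (.nd (.nd (.lf (nat_lit 0x81da1e90f48c8b2ec7)) (.lf (nat_lit 0x8008c38665c1909f8f)) (.lf (nat_lit 0x848cd6a2a8eaa0fd8c)) (.lf (nat_lit 0x82e83482580aa32faf))) (.lf (nat_lit 0x800800800777929fe5)) (.lf (nat_lit 0x8ed98d83dbb0b90ddd)) (.lf (nat_lit 0x8008148149379ddfaf)))) (.lf (nat_lit 0x8007898e18b7768fe2)) (.lf (nat_lit 0x8027f980879485cffb)) (.lf (nat_lit 0x80977d8c6c42151889)))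
  _ _ _ (by decide +kernel)

noncomputable def g1_m18_58 : GD 1 (-18) 58 := chk_sound 
  (.cell (.nd (.lf (nat_lit 0x834800800dbb79cd90)) (.lf (nat_lit 0x82d800800f479e3ab8)) (.lf (nat_lit 0x80080a80fa83914f84)) (.lf (nat_lit 0x8e5a0d845a87b1ae8c))) (.lf (nat_lit 0x823c31c196dc73cd43)) (.nd (.lf (nat_lit 0x8007d5836422ef68ad)) (.lf (nat_lit 0x8008008003bc77febf)) (.lf (nat_lit 0x88297182b14a999bbe)) (.nd (.nd (.lf (nat_lit 0x8239aa8d849892eee4)) (.lf (nat_lit 0x8007f480b570882f8f)) (.lf (nat_lit 0x836c5fa07865a11e06)) (.lf (nat_lit 0x8308f287781ca56f93))) (.lf (nat_lit 0x8037f381171c916fe0)) (.lf (nat_lit 0x8d2879811a4cb76ec5)) (.lf (nat_lit 0x8007ff8088da9ccfbf)))) (.lf (nat_lit 0x80e800800944718fd8)) (.lf (nat_lit 0x8007ff8097a5857ffc)) (.lf (nat_lit 0x80f7858c5c3014487b)))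
  _ _ _ (by decide +kernel)

noncomputable def g1_m22_62 : GD 1 (-22) 62 := chk_sound 
  (.cell (.lf (nat_lit 0x8987888c9c48a6de36)) (.lf (nat_lit 0x812be9c6370b77ed51)) (.nd (.lf (nat_lit 0x81a5d1bacb75231806)) (.lf (nat_lit 0x8007ff81b57a9dcf5c)) (.lf (nat_lit 0x83f436996239b6d961)) (.lf (nat_lit 0x84c70f81363ea01f7a))) (.lf (nat_lit 0x80080180d8646c3fe4)) (.lf (nat_lit 0x8008008006db8bbfe2)) (.lf (nat_lit 0x8037e6827c5a16993e)))
  _ _ _ (by decide +kernel)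

noncomputable def g1_m18_62 : GD 1 (-18) 62 := chk_sound 
  (.cell (.lf (nat_lit 0x99e8a68b4c92a77dc9)) (.lf (nat_lit 0x825bd1c396f974fd7b)) (.nd (.lf (nat_lit 0x80073696141aecc828)) (.lf (nat_lit 0x8007ff80f54fa2ef35)) (.lf (nat_lit 0x8624ba91b230baea22)) (.lf (nat_lit 0x8007e78095ab9fbf64))) (.lf (nat_lit 0x8007ff8078d4719fe7)) (.lf (nat_lit 0x8118008006d38c7fdf)) (.lf (nat_lit 0x8077b7877c4216194c)))
  _ _ _ (by decide +kernel)

theorem g2_m20_60 : GD 2 (-20) 60 :=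
  GD.split (i := 1) g1_m22_58 g1_m18_58 g1_m22_62 g1_m18_62 (by decide)

theorem g3_m24_56 : GD 3 (-24) 56 :=
  GD.split (i := 2) g2_m28_52 g2_m20_52 g2_m28_60 g2_m20_60 (by decide)

noncomputable def g1_m30_66 : GD 1 (-30) 66 := chk_sound 
  (.cell (.lf (nat_lit 0x800800800c2eab7e41)) (.lf (nat_lit 0x800b81cee6f984fd1f)) (.lf (nat_lit 0x800d078c9677938dda)) (.nd (.lf (nat_lit 0x80081081b699433ee5)) (.lf (nat_lit 0x8007ff80f5ff5d2f6e)) (.lf (nat_lit 0x8008008009476eafd2)) (.lf (nat_lit 0x8007f98078c0736fec))) (.lf (nat_lit 0x812800800647947fb4)) (.lf (nat_lit 0x8077cc849c611a3a0a)))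
  _ _ _ (by decide +kernel)

noncomputable def g1_m26_66 : GD 1 (-26) 66 := chk_sound 
  (.cell (.lf (nat_lit 0x800800800c77a8de20)) (.lf (nat_lit 0x81fb82ccf6f383fd3c)) (.nd (.lf (nat_lit 0x8007948bcc2013786a)) (.lf (nat_lit 0x8008018174f7bfde3b)) (.lf (nat_lit 0x8343c5b36cef4b48b6)) (.lf (nat_lit 0x8007f88114e2a67ef6))) (.nd (.lf (nat_lit 0x80081081771d412ee9)) (.lf (nat_lit 0x817800800672589f73)) (.lf (nat_lit 0x8007ff80d96f6d7fc8)) (.lf (nat_lit 0x8008008008f675bfea))) (.lf (nat_lit 0x8057f080f63195ffab)) (.lf (nat_lit 0x8077cf84dc531a4a2a)))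
  _ _ _ (by decide +kernel)

noncomputable def g1_m30_70 : GD 1 (-30) 70 := chk_sound 
  (.cell (.lf (nat_lit 0x8118ac84fc51a96e2c)) (.lf (nat_lit 0x81da63dbb6e699eca6)) (.lf (nat_lit 0x99623685f5a79afc69)) (.nd (.lf (nat_lit 0x8008068226c1395e8c)) (.lf (nat_lit 0x80481281f657578f67)) (.lf (nat_lit 0x8008008009ac6d5fbc)) (.lf (nat_lit 0x8047f18098f273ffe8))) (.lf (nat_lit 0x8007e381a5c59d3f76)) (.lf (nat_lit 0x8007ed80dbec314cef)))
  _ _ _ (by decide +kernel)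

noncomputable def g1_m26_70 : GD 1 (-26) 70 := chk_sound 
  (.cell (.lf (nat_lit 0x8008a5845c56a8be2f)) (.lf (nat_lit 0x800a87e0170e826c8b)) (.nd (.lf (nat_lit 0x8047c4879bef11689f)) (.lf (nat_lit 0x8007ff82041bd51c87)) (.lf (nat_lit 0x80a7b4836e6436c96b)) (.lf (nat_lit 0x8198008003bfb4cdea))) (.nd (.lf (nat_lit 0x80080e81e71f368e7c)) (.lf (nat_lit 0x80080181867458af73)) (.lf (nat_lit 0x8007e9812a546b8f8b)) (.lf (nat_lit 0x8037f080b919739fe2))) (.lf (nat_lit 0x8008018065a49f2f64)) (.lf (nat_lit 0x8057e4824bda2a1c80)))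
  _ _ _ (by decide +kernel)

theorem g2_m28_68 : GD 2 (-28) 68 :=
  GD.split (i := 1) g1_m30_66 g1_m26_66 g1_m30_70 g1_m26_70 (by decide)

noncomputable def g1_m22_66 : GD 1 (-22) 66 := chk_sound 
  (.cell (.lf (nat_lit 0x800810817c40a89e48)) (.lf (nat_lit 0x800b7dcad6e8822d5c)) (.nd (.lf (nat_lit 0x80a7ab896c0e126851)) (.lf (nat_lit 0x8007e38094d4c15e1a)) (.lf (nat_lit 0x828252c6cae361f87f)) (.lf (nat_lit 0x8047ed80d493a9eebc))) (.nd (.lf (nat_lit 0x80080980b7ac3dbed5)) (.lf (nat_lit 0x8008008006c55acf8d)) (.lf (nat_lit 0x80c800800acc6fcf6c)) (.lf (nat_lit 0x80080080093c77efe3))) (.lf (nat_lit 0x8007ff814617978fa0)) (.lf (nat_lit 0x800801826c3f1a0a4b)))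
  _ _ _ (by decide +kernel)

noncomputable def g1_m18_66 : GD 1 (-18) 66 := chk_sound 
  (.cell (.lf (nat_lit 0x8309bc8adc71a56df1)) (.lf (nat_lit 0x821b61c876f3779d8a)) (.nd (.lf (nat_lit 0x80577b8eabf112082f)) (.lf (nat_lit 0x8057e282e46fca8d6f)) (.lf (nat_lit 0x83b282c33501aa4868)) (.lf (nat_lit 0x819800800451adce7f))) (.lf (nat_lit 0x80080180b8a26c9fe1)) (.lf (nat_lit 0x8007f18145f7992f93)) (.lf (nat_lit 0x8007cb84dc2019ca71)))
  _ _ _ (by decide +kernel)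

noncomputable def g1_m22_70 : GD 1 (-22) 70 := chk_sound 
  (.cell (.lf (nat_lit 0x80081b814c31a8be51)) (.lf (nat_lit 0x800a3ddf37008decad)) (.nd (.lf (nat_lit 0x8007ea839be710c88e)) (.lf (nat_lit 0x8007ef82940ad4cc7e)) (.lf (nat_lit 0x8007cb833e4032b934)) (.lf (nat_lit 0x8007de8113a9b82dba))) (.nd (.lf (nat_lit 0x80080982f791334e62)) (.lf (nat_lit 0x80081380d6a759bf83)) (.lf (nat_lit 0x800800800b0c6d8f4e)) (.lf (nat_lit 0x80680080093277afe4))) (.lf (nat_lit 0x8007ff807581a10f50)) (.lf (nat_lit 0x8007ff818bbf2b6caf)))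
  _ _ _ (by decide +kernel)

noncomputable def g1_m18_70 : GD 1 (-18) 70 := chk_sound 
  (.cell (.lf (nat_lit 0x81797c874c6ba58e0b)) (.lf (nat_lit 0x816a37ded714868ccb)) (.lf (nat_lit 0x83f2c397a459b2fb49)) (.lf (nat_lit 0x8007f180f8c96a4fd8)) (.lf (nat_lit 0x8047ee80f559a2ef39)) (.lf (nat_lit 0x8067df82eb972c9ce2)))
  _ _ _ (by decide +kernel)

theorem g2_m20_68 : GD 2 (-20) 68 :=
  GD.split (i := 1) g1_m22_66 g1_m18_66 g1_m22_70 g1_m18_70 (by decide)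

noncomputable def g2_m28_76 : GD 2 (-28) 76 := chk_sound 
  (.cell (.lf (nat_lit 0x8409d18a3c4ea61e00)) (.lf (nat_lit 0x80b893f2b6ce627ab9)) (.nd (.lf (nat_lit 0x819952ac5a26186ad3)) (.lf (nat_lit 0x8007c98433aad91bc0)) (.lf (nat_lit 0x800800800f5a754b13)) (.lf (nat_lit 0x82c800800324c15cdd))) (.nd (.lf (nat_lit 0x8008008206d533ce50)) (.lf (nat_lit 0x8008118076f7564f7d)) (.lf (nat_lit 0x813800800a486c2f90)) (.lf (nat_lit 0x8037f7806942722fda))) (.lf (nat_lit 0x81a800800499ab1eb8)) (.lf (nat_lit 0x8479f294ac756eae1e)))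
  _ _ _ (by decide +kernel)

noncomputable def g2_m20_76 : GD 2 (-20) 76 := chk_sound 
  (.cell (.lf (nat_lit 0x8009bb882c5ca4fe08)) (.lf (nat_lit 0x81493eeae6ad608b7d)) (.nd (.lf (nat_lit 0x85089ba39ad913ca29)) (.lf (nat_lit 0x8007dd827391d7bbc5)) (.lf (nat_lit 0x8007c7818f32675b1f)) (.lf (nat_lit 0x8007db832321c4bcaa))) (.nd (.lf (nat_lit 0x80080c82073b337e5c)) (.lf (nat_lit 0x8008008006f6547f73)) (.lf (nat_lit 0x809800800aba6c0f6a)) (.nd (.nd (.lf (nat_lit 0x8027ef80e97d714fce)) (.lf (nat_lit 0x80080080088776cff6)) (.lf (nat_lit 0x80c800800aaf82ef88)) (.lf (nat_lit 0x80681280a92f892fe4))) (.lf (nat_lit 0x8118008005f499af90)) (.lf (nat_lit 0x80081e80db61905f2d)) (.lf (nat_lit 0x8008018066de993fc2)))) (.lf (nat_lit 0x8007ff81b486ac2ea7)) (.lf (nat_lit 0x82f92d8e0baf555e69)))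
  _ _ _ (by decide +kernel)

theorem g3_m24_72 : GD 3 (-24) 72 :=
  GD.split (i := 2) g2_m28_68 g2_m20_68 g2_m28_76 g2_m20_76 (by decide)

noncomputable def g2_m28_84 : GD 2 (-28) 84 := chk_sound 
  (.cell (.lf (nat_lit 0xa10861811cf29e0d9f)) (.lf (nat_lit 0x8228198b182d071a82)) (.lf (nat_lit 0x9b1c8db95ac28e1c61)) (.nd (.lf (nat_lit 0x80080f810719234d6f)) (.nd (.lf (nat_lit 0x8008068587cc121c13)) (.lf (nat_lit 0x80f790939403dffb3a)) (.lf (nat_lit 0x80080e81272c490f2c)) (.lf (nat_lit 0x8037e98134b2a88ed4))) (.lf (nat_lit 0x8007d0808ca07c6e85)) (.lf (nat_lit 0x80f8008009e2791fc3))) (.lf (nat_lit 0x81c800800329cb0c4e)) (.lf (nat_lit 0x824bf4bbebac837c8f)))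
  _ _ _ (by decide +kernel)

noncomputable def g2_m20_84 : GD 2 (-20) 84 := chk_sound 
  (.cell (.lf (nat_lit 0x818800800d779c3d91)) (.lf (nat_lit 0x8008008007e0087ad8)) (.lf (nat_lit 0xaeab24b89c17903beb)) (.nd (.lf (nat_lit 0x80080080073d26adac)) (.lf (nat_lit 0x800800800657436ed8)) (.lf (nat_lit 0x8007de807c9d7cde87)) (.lf (nat_lit 0x81a800800a2179dfb3))) (.lf (nat_lit 0x8007dc83832ac96c6a)) (.lf (nat_lit 0x824b86b39b9b7a4d4b)))
  _ _ _ (by decide +kernel)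

noncomputable def g2_m28_92 : GD 2 (-28) 92 := chk_sound 
  (.cell (.lf (nat_lit 0x800826817d4c9e4daf)) (.lf (nat_lit 0x8007ff85879b0b3b39)) (.lf (nat_lit 0x80fca9bb0b4a993beb)) (.nd (.lf (nat_lit 0x80080882f74522bd6c)) (.lf (nat_lit 0x80e6ea9bd8ce318deb)) (.lf (nat_lit 0x808800800cc380ce6d)) (.lf (nat_lit 0x800800800ad980cf79))) (.lf (nat_lit 0x8067cd8312edcb2c03)) (.lf (nat_lit 0x819bc3bcdbfe8ddc52)))
  _ _ _ (by decide +kernel)

noncomputable def g2_m20_92 : GD 2 (-20) 92 := chk_sound 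
  (.cell (.lf (nat_lit 0x831800800d189fcdd6)) (.lf (nat_lit 0x8008058477db090aec)) (.lf (nat_lit 0x9b7beebadbe394ebe8)) (.nd (.lf (nat_lit 0x80a80080077024ed96)) (.nd (.lf (nat_lit 0x8008008007811cdd07)) (.lf (nat_lit 0x809538d976ab651c84)) (.lf (nat_lit 0x80780080089b38ee9f)) (.lf (nat_lit 0x8255919955948ddefe))) (.lf (nat_lit 0x800800800cc0819e6f)) (.lf (nat_lit 0x800800800ae781cf74))) (.lf (nat_lit 0x8057cd8392e7c97c1a)) (.lf (nat_lit 0x81eb39be4c3c8b6c79)))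
  _ _ _ (by decide +kernel)

theorem g3_m24_88 : GD 3 (-24) 88 :=
  GD.split (i := 2) g2_m28_84 g2_m20_84 g2_m28_92 g2_m20_92 (by decide)

noncomputable def g2_m28_100 : GD 2 (-28) 100 := chk_sound 
  (.cell (.lf (nat_lit 0x80082981ecd9a27dfc)) (.lf (nat_lit 0x80080084c81b075aa3)) (.lf (nat_lit 0x878c24bb7bd19e1bd6)) (.lf (nat_lit 0x8007e6814b5d67af18)) (.lf (nat_lit 0x8007de8242d8c87c1a)) (.nd (.lf (nat_lit 0x838bdfc7eb387c1c49)) (.lf (nat_lit 0x80085887938f18194c)) (.lf (nat_lit 0x822b2db9fc87934c56)) (.lf (nat_lit 0x800840829e0cb2bc28))))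
  _ _ _ (by decide +kernel)

noncomputable def g2_m20_100 : GD 2 (-20) 100 := chk_sound 
  (.cell (.lf (nat_lit 0x80082d80bc83a5ae2b)) (.lf (nat_lit 0x80080a8437970a6b1c)) (.lf (nat_lit 0x95ab09bbdca7a13b9c)) (.lf (nat_lit 0x8007fa819aff5a1f07)) (.lf (nat_lit 0x8268008002ccc6ac2b)) (.nd (.lf (nat_lit 0x81fb32bdac558f6c62)) (.lf (nat_lit 0x800be3ccdbd1aaca06)) (.lf (nat_lit 0x82f91e94bd6d93ed7b)) (.lf (nat_lit 0x80083a816dfeb12c4f))))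
  _ _ _ (by decide +kernel)

noncomputable def g2_m28_108 : GD 2 (-28) 108 := chk_sound 
  (.cell (.lf (nat_lit 0x80082a81fc27a9be51)) (.lf (nat_lit 0x80080f84d72c0ddb80)) (.lf (nat_lit 0x924aefbcdcc2a00b9a)) (.lf (nat_lit 0x8007e1804b1957beee)) (.lf (nat_lit 0x8007ff8182d0c4bc50)) (.nd (.lf (nat_lit 0x82eb2dbcac0680dcd4)) (.lf (nat_lit 0x829b67c46c53999b96)) (.lf (nat_lit 0x81d86f884dae984d61)) (.lf (nat_lit 0x80580f809e12b74be5))))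
  _ _ _ (by decide +kernel)

noncomputable def g2_m20_108 : GD 2 (-20) 108 := chk_sound 
  (.cell (.lf (nat_lit 0x80082981ac8ea31e32)) (.lf (nat_lit 0x8008008006a8122bdf)) (.lf (nat_lit 0x8289d3bb1d73a90b46)) (.lf (nat_lit 0x8007df805b475b3eec)) (.lf (nat_lit 0x8007e181f2c2c28c61)) (.lf (nat_lit 0x825b0cbd6c878cfc56)))
  _ _ _ (by decide +kernel)

theorem g3_m24_104 : GD 3 (-24) 104 :=
  GD.split (i := 2) g2_m28_100 g2_m20_100 g2_m28_108 g2_m20_108 (by decide)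

noncomputable def g2_m28_116 : GD 2 (-28) 116 := chk_sound 
  (.cell (.lf (nat_lit 0x800827816c15aa4e59)) (.lf (nat_lit 0x800817833661155c1a)) (.lf (nat_lit 0x8429b2b79da9adaaf8)) (.lf (nat_lit 0x8047e0819b5d5adedf)) (.lf (nat_lit 0x8008008002c8c07c87)) (.nd (.lf (nat_lit 0x8329499aac1c64ce4d)) (.lf (nat_lit 0x820b27c32c62917c01)) (.lf (nat_lit 0x825800800d6f8f9dc9)) (.lf (nat_lit 0x80383881fe14b17c2c))))
  _ _ _ (by decide +kernel)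

noncomputable def g2_m20_116 : GD 2 (-20) 116 := chk_sound 
  (.cell (.lf (nat_lit 0x800800800c07ac6e54)) (.lf (nat_lit 0x8178008005f9197c54)) (.lf (nat_lit 0x80091faf5dd3b68ae7)) (.lf (nat_lit 0x800800800b8f5dded6)) (.lf (nat_lit 0x8007ce82c2bcbddc9c)) (.nd (.lf (nat_lit 0x8138ec93ec19603e64)) (.lf (nat_lit 0x82cae6c13c758d3c4a)) (.lf (nat_lit 0x823800800d6b8f7dcd)) (.lf (nat_lit 0x800835823dddaadcbb))))
  _ _ _ (by decide +kernel)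

noncomputable def g2_m28_124 : GD 2 (-28) 124 := chk_sound 
  (.cell (.lf (nat_lit 0x808820815c6ea9ae21)) (.lf (nat_lit 0x80081e83f5d31bac73)) (.lf (nat_lit 0x82599fb7bdc1ab1af9)) (.lf (nat_lit 0x800800800b9b5d8ece)) (.lf (nat_lit 0x8007c581e2bdbbccb8)) (.nd (.lf (nat_lit 0x8017d9812c79626e5d)) (.lf (nat_lit 0x80aab6c01ca78fdc3d)) (.lf (nat_lit 0x800819808d75900dc2)) (.lf (nat_lit 0x80080180eddaa89cd3))))
  _ _ _ (by decide +kernel)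

noncomputable def g2_m20_124 : GD 2 (-20) 124 := chk_sound 
  (.cell (.lf (nat_lit 0x827800800c7dac8e01)) (.lf (nat_lit 0x80081b81d5871edc93)) (.lf (nat_lit 0x83e8c2bacd9cb0cb04)) (.lf (nat_lit 0x8097e480ebcd603ec0)) (.lf (nat_lit 0x8007ff8162b2b8dcd1)) (.nd (.lf (nat_lit 0x8007dc811cb4670e46)) (.lf (nat_lit 0x824a94c0ac9e8a1c64)) (.lf (nat_lit 0x800808805d758fedc3)) (.lf (nat_lit 0x807813809dcda9dcd8))))
  _ _ _ (by decide +kernel)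

theorem g3_m24_120 : GD 3 (-24) 120 :=
  GD.split (i := 2) g2_m28_116 g2_m20_116 g2_m28_124 g2_m20_124 (by decide)

noncomputable def g2_m28_132 : GD 2 (-28) 132 := chk_sound 
  (.cell (.lf (nat_lit 0x800800800c48b1edfe)) (.lf (nat_lit 0x80081a81d575201ca3)) (.lf (nat_lit 0x800937bbcda5ac4b01)) (.lf (nat_lit 0x800800800bd3600ebc)) (.lf (nat_lit 0x80a7d481a2aeb6bce4)) (.nd (.lf (nat_lit 0x8077db818c51587e43)) (.lf (nat_lit 0x83aaabc02cb68d1c3b)) (.lf (nat_lit 0x800822811d79912dbb)) (.lf (nat_lit 0x80083e812dc1a94cea))))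
  _ _ _ (by decide +kernel)

noncomputable def g2_m20_132 : GD 2 (-20) 132 := chk_sound 
  (.cell (.lf (nat_lit 0x831800800ca4b03dc6)) (.lf (nat_lit 0x80080483253e227cb4)) (.lf (nat_lit 0x8388e3c26d7da96b05)) (.lf (nat_lit 0x814800800c06625ea8)) (.lf (nat_lit 0x8177769232aeae7d10)) (.nd (.lf (nat_lit 0x8007ff817ca95e8e27)) (.lf (nat_lit 0x830a80be6cc5888c69)) (.lf (nat_lit 0x83e800800d7b911db9)) (.lf (nat_lit 0x82f800800db1ab0cee))))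
  _ _ _ (by decide +kernel)

noncomputable def g2_m28_140 : GD 2 (-28) 140 := chk_sound .out
  _ _ _ (by decide +kernel)

noncomputable def g2_m20_140 : GD 2 (-20) 140 := chk_sound .out
  _ _ _ (by decide +kernel)

theorem g3_m24_136 : GD 3 (-24) 136 :=
  GD.split (i := 2) g2_m28_132 g2_m20_132 g2_m28_140 g2_m20_140 (by decide)

noncomputable def g2_m12_m140 : GD 2 (-12) (-140) := chk_sound .out
  _ _ _ (by decide +kernel)

noncomputable def g2_m4_m140 : GD 2 (-4) (-140) := chk_sound 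
  (.cell (.lf (nat_lit 0x800801827ac1de8ca2)) (.lf (nat_lit 0x8298008003574ffdc3)) (.lf (nat_lit 0x8007e38163c89b3e94)) (.lf (nat_lit 0x815574c5f35a470a03)) (.nd (.lf (nat_lit 0x80080881b25d512cdb)) (.lf (nat_lit 0x80e83180927d6dcdae)) (.lf (nat_lit 0x82da78bc73517a0ca3)) (.lf (nat_lit 0x83285688137a9d1e4f))) (.lf (nat_lit 0x82958b971bc7736e66)))
  _ _ _ (by decide +kernel)

noncomputable def g2_m12_m132 : GD 2 (-12) (-132) := chk_sound 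
  (.cell (.lf (nat_lit 0x810800800ab9de8ca7)) (.lf (nat_lit 0x800801815342505db5)) (.lf (nat_lit 0x8007ff8073b899fe8f)) (.lf (nat_lit 0x84789ac2edea611ab6)) (.nd (.lf (nat_lit 0x8008348082714b3cb4)) (.lf (nat_lit 0x80081a8092716bed9c)) (.lf (nat_lit 0x817a92bf631f68cbf8)) (.nd (.nd (.lf (nat_lit 0x800a34b72364871d14)) (.lf (nat_lit 0x8008008002e48c1e1b)) (.lf (nat_lit 0x8007f88346f6e03d2b)) (.lf (nat_lit 0x8007fd82a700dc0d77))) (.lf (nat_lit 0x8218008003eea7fe6a)) (.lf (nat_lit 0x8007ff81691fea9c48)) (.lf (nat_lit 0x8008018247e4e21d22)))) (.lf (nat_lit 0x8008ec93b7bc887fd4)))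
  _ _ _ (by decide +kernel)

noncomputable def g2_m4_m132 : GD 2 (-4) (-132) := chk_sound 
  (.cell (.lf (nat_lit 0x80081583da6fe25c7f)) (.lf (nat_lit 0x80080681d3ab45ada5)) (.lf (nat_lit 0x8067d780f392996e77)) (.lf (nat_lit 0x9922c59bf60e2dc8ef)) (.nd (.lf (nat_lit 0x80783181d2784e9ce0)) (.lf (nat_lit 0x82f8008002726e6da5)) (.lf (nat_lit 0x811a5abc23337bfc9b)) (.lf (nat_lit 0x814800800355a2ee1e))) (.lf (nat_lit 0x8245988eaab9776f0b)))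
  _ _ _ (by decide +kernel)

theorem g3_m8_m136 : GD 3 (-8) (-136) :=
  GD.split (i := 2) g2_m12_m140 g2_m4_m140 g2_m12_m132 g2_m4_m132 (by decide)

noncomputable def g2_m12_m124 : GD 2 (-12) (-124) := chk_sound 
  (.cell (.lf (nat_lit 0x800801820a65e26c84)) (.lf (nat_lit 0x82180080039146ad9b)) (.lf (nat_lit 0x8007da80838697ae76)) (.lf (nat_lit 0x80c721b4fdb5681c2d)) (.nd (.lf (nat_lit 0x8008308182b145acbc)) (.lf (nat_lit 0x80081d80326a6bed95)) (.lf (nat_lit 0x81ba74bf630565abd6)) (.nd (.nd (.lf (nat_lit 0x8169fdad72dc7cbd0c)) (.lf (nat_lit 0x81c800800299843de4)) (.lf (nat_lit 0x81ea2eb5c432a71d3e)) (.lf (nat_lit 0x8007ee81553ac75e08))) (.lf (nat_lit 0x8007eb80e34e9afe40)) (.lf (nat_lit 0x80080e8408dbea8c58)) (.lf (nat_lit 0x8007ee836725dd3d69)))) (.lf (nat_lit 0x8008008006ef7b2fec)))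
  _ _ _ (by decide +kernel)

noncomputable def g2_m4_m124 : GD 2 (-4) (-124) := chk_sound 
  (.cell (.lf (nat_lit 0x80081a82ca14e5fc5c)) (.lf (nat_lit 0x80083881b3154dad76)) (.lf (nat_lit 0x8007f680f35d977e59)) (.lf (nat_lit 0x83dafcbfdd8c594990)) (.nd (.lf (nat_lit 0x8238008002b2495ce9)) (.lf (nat_lit 0x80082780a2676e8d9b)) (.lf (nat_lit 0x827a52bc130d7a4c75)) (.lf (nat_lit 0x81a8a28b0317a0bde6))) (.lf (nat_lit 0x9256b28ba9617cefa6)))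
  _ _ _ (by decide +kernel)

noncomputable def g2_m12_m116 : GD 2 (-12) (-116) := chk_sound 
  (.cell (.lf (nat_lit 0x800836822a05e5fc62)) (.lf (nat_lit 0x81d8389c63e3432d6b)) (.lf (nat_lit 0x8007e2811356953e5c)) (.lf (nat_lit 0x802739ae7dde6c3c5b)) (.nd (.lf (nat_lit 0x80082d8162bb40ac86)) (.lf (nat_lit 0x82d8008002646b6d8d)) (.lf (nat_lit 0x81ca54be22e65eeba1)) (.nd (.lf (nat_lit 0x800998a6b324953d7f)) (.lf (nat_lit 0x8007e98092e6916e10)) (.lf (nat_lit 0x8007f281a71ee4dcd8)) (.lf (nat_lit 0x8007e9825617d39dbf)))) (.lf (nat_lit 0x80080180765e7d3fd4)))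
  _ _ _ (by decide +kernel)

noncomputable def g2_m4_m116 : GD 2 (-4) (-116) := chk_sound 
  (.cell (.lf (nat_lit 0x8008018348f5eafc48)) (.lf (nat_lit 0x80082a828331499d68)) (.lf (nat_lit 0x8007d480f32c957e3b)) (.lf (nat_lit 0x800923b4fe4c6dcb48)) (.nd (.lf (nat_lit 0x8288008002b645bcc3)) (.lf (nat_lit 0x81a80080025c6e3d8f)) (.nd (.lf (nat_lit 0x80b86e89938f1738e0)) (.nd (.lf (nat_lit 0x8278008001f93f7b5d)) (.lf (nat_lit 0x8008018131de663cdf)) (.lf (nat_lit 0x827a21bf93653a89e3)) (.lf (nat_lit 0x82ba5cb6e2ed821c91))) (.lf (nat_lit 0x80081b816ba9e60b25)) (.lf (nat_lit 0x8008128329b2f1cb3d))) (.lf (nat_lit 0x82080080030aa59dd1))) (.lf (nat_lit 0x8186738ba89c7e7fca)))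
  _ _ _ (by decide +kernel)

theorem g3_m8_m120 : GD 3 (-8) (-120) :=
  GD.split (i := 2) g2_m12_m124 g2_m4_m124 g2_m12_m116 g2_m4_m116 (by decide)

noncomputable def g2_m12_m108 : GD 2 (-12) (-108) := chk_sound 
  (.cell (.lf (nat_lit 0x81b90294d8b0e7bc55)) (.lf (nat_lit 0x8008178283224a3d61)) (.lf (nat_lit 0x80080080032992be42)) (.lf (nat_lit 0x8217be995dc65b6cc6)) (.nd (.lf (nat_lit 0x80682f8272cc390c24)) (.lf (nat_lit 0x83b80080025d6abd83)) (.nd (.lf (nat_lit 0x80084e85b2de1ef8c2)) (.lf (nat_lit 0x800a1ab3b283514b3c)) (.lf (nat_lit 0x800830835c48e00b17)) (.lf (nat_lit 0x8339d1abc833e68b7a))) (.nd (.lf (nat_lit 0x8359f8af73118e3d1d)) (.lf (nat_lit 0x81d80080029c8a4ddf)) (.lf (nat_lit 0x8007e382c509cf3d89)) (.lf (nat_lit 0x8007d78214b9c1de06)))) (.lf (nat_lit 0x80a80080068b831fdd)))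
  _ _ _ (by decide +kernel)

noncomputable def g2_m4_m108 : GD 2 (-4) (-108) := chk_sound 
  (.cell (.lf (nat_lit 0x80080182d707e31cf7)) (.lf (nat_lit 0x80083881335146cd67)) (.lf (nat_lit 0x81d8008002fd937e1d)) (.lf (nat_lit 0x822779a3fde8731cce)) (.nd (.lf (nat_lit 0x80082d8152b3411c83)) (.lf (nat_lit 0x80283980c2506ded81)) (.nd (.lf (nat_lit 0x80082b83f2e020a96f)) (.lf (nat_lit 0x800a4ab512ae79bc64)) (.lf (nat_lit 0x80280b814c1de23b0f)) (.lf (nat_lit 0x800a2db3e3e4ae1cda))) (.lf (nat_lit 0x8248a58af304a09dd6))) (.lf (nat_lit 0x8b179a8b7829812fed)))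
  _ _ _ (by decide +kernel)

noncomputable def g2_m12_m100 : GD 2 (-12) (-100) := chk_sound 
  (.cell (.lf (nat_lit 0x8399359c4669d94d12)) (.lf (nat_lit 0x80d83382633f47ad60)) (.lf (nat_lit 0x8007ff809300900e29)) (.lf (nat_lit 0x8007ff80bdb2581d07)) (.nd (.lf (nat_lit 0x80083681f2a33a4c04)) (.lf (nat_lit 0x80082c81325369dd75)) (.lf (nat_lit 0x80d99aaea28644cb08)) (.nd (.lf (nat_lit 0x837a1db132c785acc1)) (.lf (nat_lit 0x81f80080026184bdae)) (.lf (nat_lit 0x822a08b12360a3ace7)) (.lf (nat_lit 0x8087da817374ab1e00)))) (.lf (nat_lit 0x80087f89065386ffc6)))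
  _ _ _ (by decide +kernel)

noncomputable def g2_m4_m100 : GD 2 (-4) (-100) := chk_sound 
  (.cell (.lf (nat_lit 0x8007ff8254cccaeda3)) (.lf (nat_lit 0x80080c818371459d76)) (.lf (nat_lit 0x83d9bd90438a9abe19)) (.lf (nat_lit 0x82b7b4976dd86dbd20)) (.nd (.lf (nat_lit 0x80082e80e28144ac77)) (.lf (nat_lit 0x82780080023d6d9d6c)) (.nd (.lf (nat_lit 0x80084582f1db32d9ad)) (.lf (nat_lit 0x8008018191695d5bfa)) (.lf (nat_lit 0x80083282fca4dcfaef)) (.lf (nat_lit 0x845a75b912b97f4c29))) (.lf (nat_lit 0x83f91ba0e2d39a6d62))) (.lf (nat_lit 0x8067ed81b7c47fbffe)))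
  _ _ _ (by decide +kernel)

theorem g3_m8_m104 : GD 3 (-8) (-104) :=
  GD.split (i := 2) g2_m12_m108 g2_m4_m108 g2_m12_m100 g2_m4_m100 (by decide)

noncomputable def g2_m12_m92 : GD 2 (-12) (-92) := chk_sound 
  (.cell (.lf (nat_lit 0x8339a4a484d0c2ed54)) (.lf (nat_lit 0x834770a9e46a3c5d1a)) (.lf (nat_lit 0x8007d880b2dd8d1e13)) (.lf (nat_lit 0x8007c280edbf5ead27)) (.nd (.lf (nat_lit 0x80382081828a400c41)) (.lf (nat_lit 0x80083481324c680d66)) (.lf (nat_lit 0x82c84589122e34dac0)) (.lf (nat_lit 0x83c9e7a872bf949cf7))) (.lf (nat_lit 0x8097ea808625876fc4)))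
  _ _ _ (by decide +kernel)

noncomputable def g2_m4_m92 : GD 2 (-4) (-92) := chk_sound 
  (.cell (.lf (nat_lit 0x843aab957455bbbd41)) (.lf (nat_lit 0x8306c5ad04d33b3d18)) (.lf (nat_lit 0x83a9a48fe33f973df6)) (.lf (nat_lit 0x8007e9809db569fd6e)) (.nd (.lf (nat_lit 0x83c7de8fa2554eac9d)) (.lf (nat_lit 0x80080c80a21e6d6d4a)) (.lf (nat_lit 0x81a979a2b1e74b4b01)) (.lf (nat_lit 0x82a9ae9b92508f9cfc))) (.lf (nat_lit 0x80681f83c7ea81bffe)))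
  _ _ _ (by decide +kernel)

noncomputable def g2_m12_m84 : GD 2 (-12) (-84) := chk_sound 
  (.cell (.lf (nat_lit 0x839aa0a873dab34cd0)) (.lf (nat_lit 0x82474c9fc49037cd3a)) (.lf (nat_lit 0x8107d48072be89cdfe)) (.lf (nat_lit 0x8007cd805dce66ad44)) (.nd (.lf (nat_lit 0x82376cb3d31b45abfb)) (.lf (nat_lit 0x83080080024b64dd56)) (.lf (nat_lit 0x8148a290120839aac0)) (.lf (nat_lit 0x834a26b292898abc5d))) (.lf (nat_lit 0x8007ff8056bf81cfe6)))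
  _ _ _ (by decide +kernel)

noncomputable def g2_m4_m84 : GD 2 (-4) (-84) := chk_sound 
  (.cell (.lf (nat_lit 0x800aa5a143fab54d0a)) (.lf (nat_lit 0x83969f9fb511388d6f)) (.lf (nat_lit 0x82e9958f32f0942dc6)) (.lf (nat_lit 0x81c840bf3bf2738dab)) (.nd (.lf (nat_lit 0x807655b90307567c20)) (.lf (nat_lit 0x8218008001b3718cd7)) (.lf (nat_lit 0x83c923939157544b0c)) (.lf (nat_lit 0x80097094e175832c2a))) (.lf (nat_lit 0x8006d8acb6fa875f52)))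
  _ _ _ (by decide +kernel)

theorem g3_m8_m88 : GD 3 (-8) (-88) :=
  GD.split (i := 2) g2_m12_m92 g2_m4_m92 g2_m12_m84 g2_m4_m84 (by decide)

noncomputable def g1_m14_m78 : GD 1 (-14) (-78) := chk_sound 
  (.cell (.lf (nat_lit 0x800a9db113b0ab4cac)) (.lf (nat_lit 0x82c684a1f5f92ecd3b)) (.lf (nat_lit 0x8128008002b385fdfa)) (.lf (nat_lit 0x821800800ddc6b2d48)) (.lf (nat_lit 0x8449d6a081b2632ba9)) (.lf (nat_lit 0x80080080071783aff1)))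
  _ _ _ (by decide +kernel)

noncomputable def g1_m10_m78 : GD 1 (-10) (-78) := chk_sound 
  (.cell (.lf (nat_lit 0x827adbaca39eab1ca4)) (.lf (nat_lit 0x83f63b9e064e2fcd68)) (.lf (nat_lit 0x82d800800293880dda)) (.lf (nat_lit 0x83c800800dce74ed74)) (.lf (nat_lit 0x826a4798313f73bb34)) (.lf (nat_lit 0x80e7439b06d58befa9)))
  _ _ _ (by decide +kernel)

noncomputable def g1_m14_m74 : GD 1 (-14) (-74) := chk_sound 
  (.cell (.lf (nat_lit 0x83eaa0b41365a49c79)) (.lf (nat_lit 0x8006a099660b2e4d71)) (.lf (nat_lit 0x8228008002a583bdef)) (.lf (nat_lit 0x82b800800de171fd59)) (.lf (nat_lit 0x83ca229911586a6b48)) (.lf (nat_lit 0x8098008006688cefcc)))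
  _ _ _ (by decide +kernel)

noncomputable def g1_m10_m74 : GD 1 (-10) (-74) := chk_sound 
  (.cell (.lf (nat_lit 0x84ab49ac9398a63c7f)) (.lf (nat_lit 0x81b6419438b9271d48)) (.lf (nat_lit 0x82d800800275861dc0)) (.lf (nat_lit 0x81b955f8e90760e87f)) (.lf (nat_lit 0x86a80080006e84ca87)) (.lf (nat_lit 0x80e740b226538ddf13)))
  _ _ _ (by decide +kernel)

theorem g2_m12_m76 : GD 2 (-12) (-76) :=
  GD.split (i := 1) g1_m14_m78 g1_m10_m78 g1_m14_m74 g1_m10_m74 (by decide)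

noncomputable def g2_m4_m76 : GD 2 (-4) (-76) := chk_sound 
  (.cell (.lf (nat_lit 0x800a83aa433eae8c6d)) (.lf (nat_lit 0x83061f97e83e2aad72)) (.lf (nat_lit 0x9c696595d2d5986d4a)) (.lf (nat_lit 0x83192492e7a503f8fc)) (.lf (nat_lit 0x8399dd9060e48d6ada)) (.lf (nat_lit 0x80660ec355c993fe00)))
  _ _ _ (by decide +kernel)

noncomputable def g2_m12_m68 : GD 2 (-12) (-68) := chk_sound 
  (.cell (.nd (.lf (nat_lit 0x800801846a38e08cc1)) (.lf (nat_lit 0x8007ff81c872d5ddea)) (.lf (nat_lit 0x80c85785cd96db3819)) (.lf (nat_lit 0x814af8b4c2b8856c08))) (.lf (nat_lit 0x83666697777c29ad76)) (.lf (nat_lit 0x800a1292e38f95be0f)) (.lf (nat_lit 0x80080688088dff3871)) (.nd (.lf (nat_lit 0x835455b5d3e04ddb82)) (.lf (nat_lit 0x8137d98070be919b2b)) (.lf (nat_lit 0x80f82f80e0a766daba)) (.lf (nat_lit 0x80084a8110b5715b23))) (.lf (nat_lit 0x80073cc385029d9dc4)))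
  _ _ _ (by decide +kernel)

noncomputable def g2_m4_m68 : GD 2 (-4) (-68) := chk_sound 
  (.cell (.nd (.lf (nat_lit 0x8018018148a7edac12)) (.lf (nat_lit 0x8008078389a3d42dcc)) (.lf (nat_lit 0x800827846b02eb7b1e)) (.lf (nat_lit 0x850b668a8e39aa6a7a))) (.lf (nat_lit 0x81c74f9e56ca359e10)) (.lf (nat_lit 0x82e44c91656d8f4e71)) (.lf (nat_lit 0x80180792b7cd01984e)) (.lf (nat_lit 0x8007c6810f63731af2)) (.lf (nat_lit 0x81461cc1a4949fed48)))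
  _ _ _ (by decide +kernel)

theorem g3_m8_m72 : GD 3 (-8) (-72) :=
  GD.split (i := 2) g2_m12_m76 g2_m4_m76 g2_m12_m68 g2_m4_m68 (by decide)

noncomputable def g2_m12_m60 : GD 2 (-12) (-60) := chk_sound 
  (.cell (.nd (.lf (nat_lit 0x8007ff814854ebdc4b)) (.lf (nat_lit 0x8007ff82e8d9cdce4b)) (.lf (nat_lit 0x88796f8d7b0eed5a37)) (.lf (nat_lit 0x86ddcaa7959e9f7bd3))) (.nd (.lf (nat_lit 0x8007f28348d70a1afa)) (.lf (nat_lit 0x82366acd852b721d67)) (.lf (nat_lit 0x8007f383c9f01aac79)) (.lf (nat_lit 0x86a3cc9eb911437d32))) (.nd (.lf (nat_lit 0x8008008005e870efa9)) (.lf (nat_lit 0x8554ab89e24f7eac78)) (.lf (nat_lit 0x8006508295a88b9f6c)) (.lf (nat_lit 0x87fca58ad2b7836bb4))) (.lf (nat_lit 0x8037ec9af7abfcf827)) (.lf (nat_lit 0x838669810fd37a7824)) (.lf (nat_lit 0x810676bbf422ab8d06)))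
  _ _ _ (by decide +kernel)

noncomputable def g2_m4_m60 : GD 2 (-4) (-60) := chk_sound 
  (.cell (.nd (.lf (nat_lit 0x8007ff8526a2f06b8f)) (.lf (nat_lit 0x8007f783c68edb2d6c)) (.nd (.lf (nat_lit 0x80080c849892f9ba63)) (.lf (nat_lit 0x80080c8469c9ee7b9d)) (.lf (nat_lit 0x800839864b9ef07921)) (.lf (nat_lit 0x80e849827e4eafbbe7))) (.lf (nat_lit 0x800823814de8a7fcc7))) (.nd (.lf (nat_lit 0x8007f581f891090ae1)) (.nd (.nd (.nd (.lf (nat_lit 0x814571e095618c5bae)) (.nd (.lf (nat_lit 0x8215e1ccb433a8abf3)) (.lf (nat_lit 0x81564abff3c8a6fc9e)) (.lf (nat_lit 0x8205d1cf144099fc41)) (.lf (nat_lit 0x82365ebb539ca39cd5))) (.lf (nat_lit 0x80080184481e106be6)) (.lf (nat_lit 0x827612c3e3f3935cef))) (.nd (.nd (.lf (nat_lit 0x80a68ab78395a2ed0e)) (.lf (nat_lit 0x80b7459c33439b9de8)) (.lf (nat_lit 0x82d67bb6e389a1dd0c)) (.lf (nat_lit 0x80b76c9583389a1e07))) (.lf (nat_lit 0x8007dc80231c9d1e0f))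 (.lf (nat_lit 0x80e646bc83b695bd25)) (.lf (nat_lit 0x8008008003d672cec7))) (.lf (nat_lit 0x80080d82d745221d61)) (.lf (nat_lit 0x80081a8176273d5e92))) (.lf (nat_lit 0x8007ea8053a8832eb6)) (.lf (nat_lit 0x80980080087d309e40)) (.lf (nat_lit 0x80080180e9fa3b6e74))) (.lf (nat_lit 0x8007ff8378f21c3ce9)) (.lf (nat_lit 0x8d958c871bd1399cce))) (.lf (nat_lit 0x8186c48e75cb8d7f7d)) (.lf (nat_lit 0x8007f18a388d0158bc)) (.lf (nat_lit 0x832b31a55e06672b19)) (.nd (.lf (nat_lit 0x8047cb8894fbf4b925)) (.lf (nat_lit 0x821678ba03a7a53ceb)) (.lf (nat_lit 0x8007e785d561ee7b0d)) (.lf (nat_lit 0x8007e081c4b1d50cfa))))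
  _ _ _ (by decide +kernel)

noncomputable def g1_m14_m54 : GD 1 (-14) (-54) := chk_sound 
  (.cell (.nd (.lf (nat_lit 0x80080182a72eec6c2b)) (.lf (nat_lit 0x8007ff815929c61e97)) (.lf (nat_lit 0x80c800800b28ee1a95)) (.lf (nat_lit 0x80a834816e57a62c3f))) (.nd (.lf (nat_lit 0x81459ae7175455eb0f)) (.lf (nat_lit 0x829723a614f8640ebb)) (.lf (nat_lit 0x8037f0845950155c35)) (.lf (nat_lit 0x9268b2820dbe54acac))) (.lf (nat_lit 0x8395d186fb3a785ef4)) (.lf (nat_lit 0x8007f189c703fe8849)) (.lf (nat_lit 0x829b1ea0bea7771a57)) (.lf (nat_lit 0x80d744a5b422c27d11)))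
  _ _ _ (by decide +kernel)

noncomputable def g1_m10_m54 : GD 1 (-10) (-54) := chk_sound 
  (.cell (.nd (.lf (nat_lit 0x8007ff84463fedebb2)) (.lf (nat_lit 0x8008018117a6d04e38)) (.lf (nat_lit 0x80081888f989fad989)) (.lf (nat_lit 0x80084480be09a46cb9))) (.nd (.lf (nat_lit 0x809535f1f6b0986931)) (.lf (nat_lit 0x82863ac9046f863d35)) (.lf (nat_lit 0x8007fa83087415ac6b)) (.lf (nat_lit 0xa279d780ac96496cd2))) (.lf (nat_lit 0x8007f0801a287fbfb4)) (.lf (nat_lit 0x8057d891290f027843)) (.lf (nat_lit 0x842c2daded62639a78)) (.lf (nat_lit 0x8156c0a2d3b7c2bcaf)))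
  _ _ _ (by decide +kernel)

noncomputable def g1_m14_m50 : GD 1 (-14) (-50) := chk_sound 
  (.cell (.nd (.lf (nat_lit 0x8007e6848616eb2bec)) (.lf (nat_lit 0x8008008007abc88e95)) (.lf (nat_lit 0x8008048349d9f8a9e9)) (.lf (nat_lit 0x80083080ae12a62ca0))) (.nd (.lf (nat_lit 0x81154fe0f56b8beb94)) (.lf (nat_lit 0x82677c95242d783edd)) (.lf (nat_lit 0x80d8008008a6112bf0)) (.lf (nat_lit 0xac075b823c7847acdb))) (.lf (nat_lit 0x8e1680812c4782fe87)) (.lf (nat_lit 0x8007d58d967efcd845)) (.lf (nat_lit 0x868c90b4ecfa6199eb)) (.lf (nat_lit 0x8037769633aac75cce)))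
  _ _ _ (by decide +kernel)

noncomputable def g1_m10_m50 : GD 1 (-10) (-50) := chk_sound 
  (.cell (.nd (.lf (nat_lit 0x8007ff834535ea4b77)) (.lf (nat_lit 0x8007e482e59dceddd4)) (.lf (nat_lit 0x8008168a191dfd390b)) (.lf (nat_lit 0x80081f816da8aa1d01))) (.nd (.lf (nat_lit 0x8294eadbd4d6988b06)) (.lf (nat_lit 0x811631c243f28fcd1d)) (.lf (nat_lit 0x8008038487c812ac23)) (.lf (nat_lit 0x8e153b880ad235ed16))) (.lf (nat_lit 0x818800800a6a821fa0)) (.lf (nat_lit 0x8007d38ec98703785a)) (.lf (nat_lit 0x851cb9bb9c265729fe)) (.lf (nat_lit 0x81a6bba0435cc3dc55)))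
  _ _ _ (by decide +kernel)

theorem g2_m12_m52 : GD 2 (-12) (-52) :=
  GD.split (i := 1) g1_m14_m54 g1_m10_m54 g1_m14_m50 g1_m10_m50 (by decide)

noncomputable def g1_m6_m54 : GD 1 (-6) (-54) := chk_sound 
  (.cell (.nd (.lf (nat_lit 0x8057ea83f574ecab5d)) (.lf (nat_lit 0x8017f982165ad40dcd)) (.lf (nat_lit 0x8008108a78e7fdd8ef)) (.lf (nat_lit 0x80082b81bdcaa71cf2))) (.nd (.lf (nat_lit 0x80e7379d94f3f1d81c)) (.lf (nat_lit 0x8265ebc4c3e6938cc8)) (.lf (nat_lit 0x8008068227cf178c9c)) (.lf (nat_lit 0x800ba282ebcd47ace3))) (.lf (nat_lit 0x80080080079d8b7ff5)) (.lf (nat_lit 0x8008008409180208d1)) (.lf (nat_lit 0x862bbcb09d766e7b1b)) (.lf (nat_lit 0x80f73199633dc46c75)))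
  _ _ _ (by decide +kernel)

noncomputable def g1_m2_m54 : GD 1 (-2) (-54) := chk_sound 
  (.cell (.nd (.lf (nat_lit 0x8007df84f4c4e95b2c)) (.lf (nat_lit 0x8007ff82b5a6d2bda1)) (.lf (nat_lit 0x9028e8d6c74fd7c97b)) (.lf (nat_lit 0x80083982cd15b6ed21))) (.nd (.lf (nat_lit 0x8007c788bb200ac85c)) (.nd (.lf (nat_lit 0x820601bf8398969cc7)) (.lf (nat_lit 0x83180080038282fe9d)) (.lf (nat_lit 0x80080881b7c5336e66)) (.lf (nat_lit 0x81c68d8db9fa495ebf))) (.lf (nat_lit 0x80080284174f198cbb)) (.lf (nat_lit 0x800c0580caa13eacec))) (.lf (nat_lit 0x8087e880c54b923f70)) (.lf (nat_lit 0x8007f08669a103a8d6)) (.lf (nat_lit 0x824b60b1dd7c7a5b8e)) (.lf (nat_lit 0x8007cc8232d2c62c3a)))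
  _ _ _ (by decide +kernel)

noncomputable def g1_m6_m50 : GD 1 (-6) (-50) := chk_sound 
  (.cell (.nd (.lf (nat_lit 0x8037e9833478e6eb2d)) (.lf (nat_lit 0x80080080051ecd5daf)) (.lf (nat_lit 0x80080187a7fdfdf954)) (.lf (nat_lit 0x80382a824c9cbdbd46))) (.nd (.nd (.lf (nat_lit 0x8007ef846a3106390c)) (.lf (nat_lit 0x81c4dadcc4e5a79a2a)) (.lf (nat_lit 0x8017f88688bb088abc)) (.lf (nat_lit 0x8007ff83e7ed129c23))) (.nd (.lf (nat_lit 0x8005f5c2a39e976c98)) (.lf (nat_lit 0x8008018094d6761f52)) (.lf (nat_lit 0x8007ff819744342e66)) (.lf (nat_lit 0x80070b85bb005e2f08))) (.lf (nat_lit 0x80080f842730151c4f)) (.lf (nat_lit 0x800c04830a923f7cfe))) (.lf (nat_lit 0x8008018037df8deff3)) (.lf (nat_lit 0x8007d08c9a02052889)) (.lf (nat_lit 0x829c5dc08c49624a9c)) (.lf (nat_lit 0x8007c18552c1c71c11)))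
  _ _ _ (by decide +kernel)

noncomputable def g1_m2_m50 : GD 1 (-2) (-50) := chk_sound 
  (.cell (.nd (.lf (nat_lit 0x8007d98293d6e1bb0c)) (.lf (nat_lit 0x8007e882f451ca2d60)) (.lf (nat_lit 0x8f76aea3c63cf0a9e7)) (.lf (nat_lit 0x800801824a7ad0ddaf))) (.nd (.nd (.lf (nat_lit 0x8007ea865a050759ad)) (.nd (.lf (nat_lit 0x800801832b1d0a8889)) (.lf (nat_lit 0x8007de83a313e2196e)) (.lf (nat_lit 0x8017f184397e08fa81)) (.lf (nat_lit 0x81e44ce507d65679e7))) (.lf (nat_lit 0x8007f88468640bab4a)) (.lf (nat_lit 0x8007ff8437a814fc5c))) (.nd (.nd (.nd (.lf (nat_lit 0x8007d981b2a9ce3b65)) (.lf (nat_lit 0x8007ff816279ba6c7b)) (.lf (nat_lit 0x8005ccbdc350b4ab61)) (.lf (nat_lit 0x82e5f9b9f33c9cfc8e))) (.lf (nat_lit 0x8007e88102b29e6dad)) (.lf (nat_lit 0x81e5e0bb83e9726d4f)) (.lf (nat_lit 0x8008008003926c0e8a))) (.lf (nat_lit 0x8007d480836084de84)) (.lf (nat_lit 0x8007ff824736364e7d))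 (.lf (nat_lit 0x8038008007e24c6f51))) (.lf (nat_lit 0x80080f84a6c1171c65)) (.lf (nat_lit 0xa5454084f90d319d13))) (.lf (nat_lit 0x81d8008004e9983f38)) (.lf (nat_lit 0x80a5e1cd1a6e27e803)) (.lf (nat_lit 0x837c0ac43c516f3b1e)) (.lf (nat_lit 0x8067e0817285c49bf1)))
  _ _ _ (by decide +kernel)

theorem g2_m4_m52 : GD 2 (-4) (-52) :=
  GD.split (i := 1) g1_m6_m54 g1_m2_m54 g1_m6_m50 g1_m2_m50 (by decide)

theorem g3_m8_m56 : GD 3 (-8) (-56) :=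
  GD.split (i := 2) g2_m12_m60 g2_m4_m60 g2_m12_m52 g2_m4_m52 (by decide)

end Pool.Agent.P.MP_f12b6c_an.Dg
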