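import Pool.Agent.P.MP_f12b6c_an.T3DgDef

/-! Certificates for the diagonal statement. -/

set_option maxRecDepth 100000
set_option linter.defProp false

namespace Pool.Agent.P.MP_f12b6c_an.Dg

noncomputable def g2_m12_36 : GD 2 (-12) 36 := chk_sound 
  (.cell (.nd (.nd (.lf (nat_lit 0x8077c88784b4f25954)) (.lf (nat_lit 0x8077d1866508f05a62)) (.lf (nat_lit 0x80079e8aabde10f877)) (.lf (nat_lit 0x857399a28a96a4fd46))) (.nd (.lf (nat_lit 0x8007dc846585ebcb84)) (.lf (nat_lit 0x8007fa82c616e54c7f)) (.lf (nat_lit 0x80080182a956ba5efe)) (.lf (nat_lit 0x80082782cc0cba9dd8))) (.nd (.lf (nat_lit 0x800800800c303d9d67)) (.lf (nat_lit 0x8007ff811c8f619e4a)) (.lf (nat_lit 0x8057d8820b8a4fbe81)) (.lf (nat_lit 0x80e800800b7361fef7))) (.nd (.lf (nat_lit 0x805811810bc1a98e91)) (.lf (nat_lit 0x800800800bf1aace6d)) (.lf (nat_lit 0x819800800b59754f3b)) (.lf (nat_lit 0x800813808b3d85cf4e))))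 (.lf (nat_lit 0x800b76b8043d59ac74)) (.nd (.lf (nat_lit 0x838d08afd4f07ccc80)) (.nd (.nd (.lf (nat_lit 0x8009168ab443742eea)) (.lf (nat_lit 0x80098d901494716eee)) (.nd (.lf (nat_lit 0x821aa49b143b72de44)) (.lf (nat_lit 0x824a1f984471741ea1)) (.lf (nat_lit 0x821b79a363f86f5d72)) (.lf (nat_lit 0x8289e190d2fd587d4c))) (.lf (nat_lit 0x81aa959713925d5d8f))) (.lf (nat_lit 0x81299e8e06e471efa7)) (.nd (.nd (.lf (nat_lit 0x832c19a7850f75dda8)) (.lf (nat_lit 0x811bd9aa745273dd4b)) (.lf (nat_lit 0x83fc80aa861b7f4dbf)) (.lf (nat_lit 0x838bb9a0e31258cbf1))) (.lf (nat_lit 0x81cc61a6f606753ddf)) (.nd (.lf (nat_lit 0x82ed54b1e566773c55)) (.lf (nat_lit 0x845d3aadc4f36a3c27)) (.lf (nat_lit 0x83ada7b326b681ec7b)) (.lf (nat_lit 0x849dd2b2b6b37b1c44))) (.lf (nat_lit 0x82fd85af26cc78ecd0))) (.lf (nat_lit 0x814c4ea2c757739e4c))) (.lf (nat_lit 0x80083982deb5bea9e3)) (.nd (.nd (.nd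 (.lf (nat_lit 0x82fe7db925d572d9ec)) (.lf (nat_lit 0x843ddeb2185488cc64)) (.lf (nat_lit 0x82ae6fb739d2962a54)) (.lf (nat_lit 0x83ee1ab2bb4f9d4988))) (.lf (nat_lit 0x840e6ab47908889b44)) (.nd (.lf (nat_lit 0x83fc0fa23d15b1eab5)) (.lf (nat_lit 0x80082d820ec7b9aa3c)) (.lf (nat_lit 0x800864833ecdbbf9dd)) (.lf (nat_lit 0x80082c821eebb8d9da))) (.lf (nat_lit 0x80a85a833f04b729a4))) (.lf (nat_lit 0x840ccba59968827dc8)) (.nd (.nd (.lf (nat_lit 0x800851827e8bbafabb)) (.lf (nat_lit 0x80083e825eafb76ab0)) (.lf (nat_lit 0x800825826e4bb99b5f)) (.lf (nat_lit 0x80080181ee72b5cb55))) (.lf (nat_lit 0x80083f825e85b2fb5a)) (.lf (nat_lit 0x83a800800dc5b4dc71)) (.lf (nat_lit 0x80083b81ada4abccf6))) (.lf (nat_lit 0x800800800afb8c0f62)))) (.lf (nat_lit 0x8007d3831bbf31fd1b)) (.lf (nat_lit 0x808800800a2c690f90)) (.lf (nat_lit 0x800800800546effac0)))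
  _ _ _ (by decide +kernel)

noncomputable def g2_m4_36 : GD 2 (-4) 36 := chk_sound 
  (.cell (.nd (.lf (nat_lit 0x86a4dc9ebce39e3cc7)) (.lf (nat_lit 0x80a83e822e1dba7ba1)) (.lf (nat_lit 0x82c62f9b9d8f8bed1f)) (.lf (nat_lit 0x800800800e88ababb9))) (.nd (.lf (nat_lit 0x81b76d94c79509eab1)) (.lf (nat_lit 0x827b1daf7388535c35)) (.lf (nat_lit 0x80080382e7e42a2ded)) (.lf (nat_lit 0x82180080032b4e5d90))) (.nd (.lf (nat_lit 0x812df1b8050268fa51)) (.lf (nat_lit 0x847d08a9c47f58ebad)) (.lf (nat_lit 0x81587a842ef6bae949)) (.lf (nat_lit 0x83cc78a36d6d9f5a67))) (.lf (nat_lit 0x81382c977bfc375d07)) (.nd (.lf (nat_lit 0x8047ee81f9f8487eee)) (.lf (nat_lit 0x800e27afc96a789bdf)) (.lf (nat_lit 0x8007e5804b03544ee3)) (.lf (nat_lit 0x83fdd4ad3ab582cbd2))) (.lf (nat_lit 0x8057e1853542ecfb28)))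
  _ _ _ (by decide +kernel)

noncomputable def g1_m14_42 : GD 1 (-14) 42 := chk_sound 
  (.cell (.nd (.lf (nat_lit 0x85547c9c6ce094fcc8)) (.lf (nat_lit 0x81676e855adab4aead)) (.lf (nat_lit 0x80083280bc9b8bae7f)) (.lf (nat_lit 0x807820818b5dac4eb5))) (.nd (.lf (nat_lit 0x8037f588e88603198c)) (.lf (nat_lit 0x827b67b9f486871d32)) (.lf (nat_lit 0x8137aa97e7b83d6ea6)) (.lf (nat_lit 0x8118da94748062eec9))) (.nd (.lf (nat_lit 0x8009f296c771c15e6b)) (.nd (.lf (nat_lit 0x82b8008001dc50bc2e)) (.lf (nat_lit 0x80081480c6a86d6fcc)) (.lf (nat_lit 0x80a83c82510f4258e7)) (.lf (nat_lit 0x8128ab8618fb88bfe2))) (.lf (nat_lit 0x800808810845c1deda)) (.nd (.lf (nat_lit 0x80a82d829c59b7fdba)) (.lf (nat_lit 0x80080980dab48fef76)) (.lf (nat_lit 0x800800800c28b43e01)) (.lf (nat_lit 0x800801811b61954f20)))) (.lf (nat_lit 0x85b89c842b813e5ddb)) (.lf (nat_lit 0x800800800a1d6f1fa4)) (.lf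 (nat_lit 0x8007da8344c3f109e0)))
  _ _ _ (by decide +kernel)

noncomputable def g1_m10_42 : GD 1 (-10) 42 := chk_sound 
  (.cell (.nd (.lf (nat_lit 0x85f48b997cb399ccf8)) (.lf (nat_lit 0x800800800aecb43eb1)) (.lf (nat_lit 0x80081a807c71840ea5)) (.lf (nat_lit 0x827800800baba83ea6))) (.nd (.lf (nat_lit 0x8007f184098b0308ad)) (.lf (nat_lit 0x81bb3bbf85eba22d60)) (.lf (nat_lit 0x80c7c78ea880403eda)) (.lf (nat_lit 0x8008c79124615a7e9a))) (.nd (.lf (nat_lit 0x839d29b587899f6cb2)) (.nd (.lf (nat_lit 0x80a83e8251d14bbbde)) (.lf (nat_lit 0x80080b812616620f89)) (.lf (nat_lit 0x80c86783011f4599c2)) (.lf (nat_lit 0x81fa2d92f80d7b2f99))) (.lf (nat_lit 0x80080c80fcf3caac35)) (.nd (.lf (nat_lit 0x82f800800d78b91c9d)) (.lf (nat_lit 0x800860834ac38dbf72)) (.lf (nat_lit 0x81d800800cd4b09d9b)) (.lf (nat_lit 0x80080f80eb9a90ff10)))) (.lf (nat_lit 0x8998e7860b92359d51)) (.lf (nat_lit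 0x809800800a10698f99)) (.lf (nat_lit 0x8007e384d4d0f00a2a)))
  _ _ _ (by decide +kernel)

noncomputable def g1_m14_46 : GD 1 (-14) 46 := chk_sound 
  (.cell (.nd (.lf (nat_lit 0x844564954ddf878c8b)) (.lf (nat_lit 0x8547b584db71b95e3f)) (.lf (nat_lit 0x821800800ba47b3f1d)) (.lf (nat_lit 0x800800800b84b40e68))) (.lf (nat_lit 0x833c6bbe56b472bd2f)) (.nd (.lf (nat_lit 0x835ad2a059c2cebcf6)) (.lf (nat_lit 0x82380080022d4cec73)) (.lf (nat_lit 0x80082f826c1ecdacd7)) (.nd (.lf (nat_lit 0x80083d82fe1fc11b24)) (.lf (nat_lit 0x82ab589e4c3caa3cee)) (.lf (nat_lit 0x843876838cddbf6cee)) (.lf (nat_lit 0x80081e816ba39b5eea)))) (.lf (nat_lit 0x83f85f832b08578ef0)) (.lf (nat_lit 0x8188508319687c0fdc)) (.lf (nat_lit 0x8057cc86c479f07961)))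
  _ _ _ (by decide +kernel)

noncomputable def g1_m10_46 : GD 1 (-10) 46 := chk_sound 
  (.cell (.nd (.lf (nat_lit 0x85a4db95cd658ddcb8)) (.lf (nat_lit 0x807822825c82bced66)) (.lf (nat_lit 0x820800800bb3792f14)) (.lf (nat_lit 0x80481d81cbffb4be18))) (.lf (nat_lit 0x962ba2b9359a582ce9)) (.lf (nat_lit 0x828bcfa59d31affad4)) (.lf (nat_lit 0x83888b838b2e504ead)) (.lf (nat_lit 0x82683d829965766fd9)) (.lf (nat_lit 0x8077cb875488f009a2)))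
  _ _ _ (by decide +kernel)

theorem g2_m12_44 : GD 2 (-12) 44 :=
  GD.split (i := 1) g1_m14_42 g1_m10_42 g1_m14_46 g1_m10_46 (by decide)

noncomputable def g1_m6_42 : GD 1 (-6) 42 := chk_sound 
  (.cell (.nd (.lf (nat_lit 0x8584ce94fca39e6d2e)) (.lf (nat_lit 0x800818807c6db7bdae)) (.lf (nat_lit 0x8007ff803c4f7ccebc)) (.lf (nat_lit 0x827800800c4aae0e1b))) (.lf (nat_lit 0x825ab6b764e14cfcf8)) (.lf (nat_lit 0x977cc8a7acb4a24a79)) (.lf (nat_lit 0x8007fb828b8f3dfdda)) (.lf (nat_lit 0x8007ff811a03654f8f)) (.lf (nat_lit 0x8007dc83d4d6ef1a62)))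
  _ _ _ (by decide +kernel)

noncomputable def g1_m2_42 : GD 1 (-2) 42 := chk_sound 
  (.cell (.nd (.lf (nat_lit 0x80044290dc0c9b7d70)) (.lf (nat_lit 0x800801817d2ab62d15)) (.lf (nat_lit 0x8007f180cc2d773ecc)) (.lf (nat_lit 0x827800800cf2ad5d9c))) (.lf (nat_lit 0x800aa7b67517477cf0)) (.lf (nat_lit 0x835d5aa99c8f9d3a1a)) (.lf (nat_lit 0x85f8cf847ba6388d76)) (.lf (nat_lit 0x80d8008009d9691fa6)) (.lf (nat_lit 0x8007f58494d5ee4a85)))
  _ _ _ (by decide +kernel)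

noncomputable def g1_m6_46 : GD 1 (-6) 46 := chk_sound 
  (.cell (.nd (.lf (nat_lit 0x859442923ccd915cef)) (.lf (nat_lit 0x800801825cc9bc5d2e)) (.lf (nat_lit 0x823800800b9c741f19)) (.lf (nat_lit 0x800827814ce1b4dd68))) (.lf (nat_lit 0x95cb67b80589539cf4)) (.lf (nat_lit 0x800d6eabec3c9efa4c)) (.lf (nat_lit 0x800870827b4a4aee79)) (.lf (nat_lit 0x80084982796671dfd1)) (.lf (nat_lit 0x8057cd85d492efa9d4)))
  _ _ _ (by decide +kernel)

noncomputable def g1_m2_46 : GD 1 (-2) 46 := chk_sound 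
  (.cell (.nd (.lf (nat_lit 0x80037b87cbf48fcd2b)) (.lf (nat_lit 0x83a92c86ecedb8ad0e)) (.lf (nat_lit 0x8007ec80cb9f741f17)) (.lf (nat_lit 0x800836817cd9b40d77))) (.lf (nat_lit 0x96bb36b5d5864e0cf2)) (.lf (nat_lit 0x83bd43abcc4a9f4a8f)) (.lf (nat_lit 0x807800800b57480e5e)) (.lf (nat_lit 0x80083081b917736fe2)) (.lf (nat_lit 0x8087c9869499ef49f4)))
  _ _ _ (by decide +kernel)

theorem g2_m4_44 : GD 2 (-4) 44 :=
  GD.split (i := 1) g1_m6_42 g1_m2_42 g1_m6_46 g1_m2_46 (by decide)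

theorem g3_m8_40 : GD 3 (-8) 40 :=
  GD.split (i := 2) g2_m12_36 g2_m4_36 g2_m12_44 g2_m4_44 (by decide)

noncomputable def g1_m14_50 : GD 1 (-14) 50 := chk_sound 
  (.cell (.nd (.lf (nat_lit 0x800820804e7280fcbb)) (.lf (nat_lit 0x893968855c47bddd52)) (.lf (nat_lit 0x80081f803b35808f53)) (.lf (nat_lit 0x80082681cbcdba1e07))) (.lf (nat_lit 0x822cadb92637692ce9)) (.nd (.lf (nat_lit 0x8007ff8208aad72dd1)) (.lf (nat_lit 0x8108488291fe4a0c0c)) (.lf (nat_lit 0x800830838cd2c93c71)) (.nd (.lf (nat_lit 0x800824818ea0be1a3b)) (.lf (nat_lit 0x838c4ba87bb2aafc46)) (.lf (nat_lit 0x88a8c0841d61bd1c6c)) (.lf (nat_lit 0x800800800b81a60ec9)))) (.lf (nat_lit 0x800827808a8764bf64)) (.lf (nat_lit 0x80086183e8cf80dff2)) (.lf (nat_lit 0x8067ae89a43aef78db)))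
  _ _ _ (by decide +kernel)

noncomputable def g1_m10_50 : GD 1 (-10) 50 := chk_sound 
  (.cell (.nd (.lf (nat_lit 0x8435c2993dfb86ac86)) (.lf (nat_lit 0x8488ff847c95bf1d20)) (.lf (nat_lit 0x818800800b3f7d5f4f)) (.lf (nat_lit 0x81d800800c3dba3db9))) (.lf (nat_lit 0x9f2bfbba25eb63ccde)) (.nd (.lf (nat_lit 0x84ecaeb3c9a8bf3ba1)) (.lf (nat_lit 0x80080181d1e6482bcf)) (.lf (nat_lit 0x80184a832dbcc64b6b)) (.nd (.lf (nat_lit 0x80a86b83decbc07929)) (.lf (nat_lit 0x81fb559e8d15b27bab)) (.lf (nat_lit 0x800829810dd8ba2c12)) (.lf (nat_lit 0x81c800800bc0a5dea8)))) (.lf (nat_lit 0x8007e180eab25fbf41)) (.lf (nat_lit 0x80085f83b8cc7cbff2)) (.lf (nat_lit 0x8007cf84d448efe90c)))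
  _ _ _ (by decide +kernel)

noncomputable def g1_m14_54 : GD 1 (-14) 54 := chk_sound 
  (.cell (.nd (.lf (nat_lit 0x8007bd803e6879bcc4)) (.lf (nat_lit 0x887a3a88adc1b87b97)) (.lf (nat_lit 0x81c800800aec88df6d)) (.lf (nat_lit 0x830905838b54b90e40))) (.lf (nat_lit 0x82ccb2bfa6c7707cdd)) (.nd (.lf (nat_lit 0x83287e8765bfdb1d19)) (.lf (nat_lit 0x80883a82024f523cd4)) (.lf (nat_lit 0x84fc2293cb91bc9c45)) (.nd (.lf (nat_lit 0x82cd5aad5a79a20c14)) (.lf (nat_lit 0x835c96ab89d39d4d5f)) (.lf (nat_lit 0x800967813d18bdcc99)) (.lf (nat_lit 0x80080180baa2a09f46)))) (.lf (nat_lit 0x811800800a1f685f91)) (.lf (nat_lit 0x8007f4801888800ffb)) (.lf (nat_lit 0x8067a18a9406ee4845)))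
  _ _ _ (by decide +kernel)

noncomputable def g1_m10_54 : GD 1 (-10) 54 := chk_sound 
  (.cell (.nd (.lf (nat_lit 0x829800800e897e9c9b)) (.lf (nat_lit 0x88aa4d885db7b7fba3)) (.lf (nat_lit 0x800800800af285ff6d)) (.lf (nat_lit 0x84c8bb839b89ba2e22))) (.lf (nat_lit 0x800ca1be56896bfcdd)) (.nd (.lf (nat_lit 0x81f98b92e5ffd55d44)) (.lf (nat_lit 0x80081481423e52ccc6)) (.lf (nat_lit 0x83bc26951c31bc2ba4)) (.nd (.lf (nat_lit 0x818d36ae0b1ea36bbb)) (.lf (nat_lit 0x831cd3ab9a459e0cf5)) (.lf (nat_lit 0x82a800800d8abbec63)) (.lf (nat_lit 0x814800800a91a01f4e)))) (.lf (nat_lit 0x8007e881aa47644f78)) (.lf (nat_lit 0x8088008008807d9ffb)) (.lf (nat_lit 0x800800823414ef5861)))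
  _ _ _ (by decide +kernel)

theorem g2_m12_52 : GD 2 (-12) 52 :=
  GD.split (i := 1) g1_m14_50 g1_m10_50 g1_m14_54 g1_m10_54 (by decide)

noncomputable def g1_m6_50 : GD 1 (-6) 50 := chk_sound 
  (.cell (.nd (.lf (nat_lit 0x82c3f886bd0984ccb2)) (.lf (nat_lit 0x837903845ce9be8cd8)) (.lf (nat_lit 0x8007ff809b427b1f4c)) (.lf (nat_lit 0x800801823c81b81d9a))) (.lf (nat_lit 0x9ddbc4b8b59e5ecce0)) (.nd (.lf (nat_lit 0x82dd5cb90ab5b4aa17)) (.lf (nat_lit 0x80083882d1ce468b8c)) (.lf (nat_lit 0x80084382bd78c8dba4)) (.nd (.lf (nat_lit 0x80088e853ee1bed8e5)) (.lf (nat_lit 0x83bcfbabfb59a3ebeb)) (.lf (nat_lit 0x827800800e25b97ba5)) (.lf (nat_lit 0x80081e81ec0aa73e74)))) (.lf (nat_lit 0x86790e877b074b5e84)) (.lf (nat_lit 0x81384f8318c1798ff2)) (.lf (nat_lit 0x8057d7844456f00931)))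
  _ _ _ (by decide +kernel)

noncomputable def g1_m2_50 : GD 1 (-2) 50 := chk_sound 
  (.cell (.nd (.lf (nat_lit 0x87637e8a8c95864cad)) (.lf (nat_lit 0x800aaf889c90b77cdd)) (.lf (nat_lit 0x80b800800b3c79af4e)) (.lf (nat_lit 0x800830816c4bb69dd2))) (.lf (nat_lit 0x9ceb87b7055059ccd9)) (.nd (.lf (nat_lit 0x844d8bb94a3fb14a6b)) (.lf (nat_lit 0x82eae498c2a44c7bc0)) (.lf (nat_lit 0x80f84883bdd2c7cb23)) (.nd (.lf (nat_lit 0x80d891855ef1bd88be)) (.lf (nat_lit 0x838bf3a22c5bac8c35)) (.lf (nat_lit 0x80082e82ce5ab8ab52)) (.lf (nat_lit 0x80080180cc47a9be3c)))) (.lf (nat_lit 0x8007e7818b034bbea6)) (.lf (nat_lit 0x8008008098b0782ff4)) (.lf (nat_lit 0x8007b8887466f00946)))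
  _ _ _ (by decide +kernel)

noncomputable def g1_m6_54 : GD 1 (-6) 54 := chk_sound 
  (.cell (.nd (.lf (nat_lit 0x835800800e8c830c96)) (.lf (nat_lit 0x877b288aad5fb23bd4)) (.lf (nat_lit 0x80f812802aef838f70)) (.lf (nat_lit 0x82384d81bb98b9be29))) (.lf (nat_lit 0x81dc85bce644675cdd)) (.nd (.lf (nat_lit 0x8009f396b62cd24d54)) (.lf (nat_lit 0x800833823238556cd6)) (.lf (nat_lit 0x814cb29a4c36b85b04)) (.nd (.lf (nat_lit 0x80fc34a3acebb52a79)) (.lf (nat_lit 0x81bd0daceaa39ffc6e)) (.lf (nat_lit 0x80c83b825db7bc5c20)) (.lf (nat_lit 0x80080a815a87a1df4a)))) (.lf (nat_lit 0x800800800a4d62cf70)) (.lf (nat_lit 0x8008008008677b7ffc)) (.lf (nat_lit 0x80c7958c242eef5872)))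
  _ _ _ (by decide +kernel)

noncomputable def g1_m2_54 : GD 1 (-2) 54 := chk_sound 
  (.cell (.nd (.lf (nat_lit 0x800614842e84794c31)) (.lf (nat_lit 0x8acbd88a6cf6b36ba9)) (.lf (nat_lit 0x800812805ae581af74)) (.lf (nat_lit 0x800801816b8dba0e2e))) (.lf (nat_lit 0x82ec61bb85f9634cdc)) (.nd (.lf (nat_lit 0x800a0f971645d1ed56)) (.lf (nat_lit 0x80b82b80e24d5cad27)) (.lf (nat_lit 0x800ce69c2b4eb88bad)) (.nd (.lf (nat_lit 0x843e00ae2b7ba2b9aa)) (.lf (nat_lit 0x832d04aaeb0fa2dc2f)) (.lf (nat_lit 0x827800800dadbd0c25)) (.lf (nat_lit 0x80080f815ac6a48f25)))) (.lf (nat_lit 0x8007ff822a8f534f0b)) (.lf (nat_lit 0x80080180783a79fffc)) (.lf (nat_lit 0x8077d185c441f0a871)))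
  _ _ _ (by decide +kernel)

theorem g2_m4_52 : GD 2 (-4) 52 :=
  GD.split (i := 1) g1_m6_50 g1_m2_50 g1_m6_54 g1_m2_54 (by decide)

noncomputable def g1_m14_58 : GD 1 (-14) 58 := chk_sound 
  (.cell (.nd (.lf (nat_lit 0x829800800e057b5d41)) (.lf (nat_lit 0x800834814f5ba20a4c)) (.lf (nat_lit 0x80781a80ca8c8eef86)) (.lf (nat_lit 0x8eaa06849a88b47e77))) (.lf (nat_lit 0x81cc36c1a6bc738d37)) (.nd (.lf (nat_lit 0x8007cb86f450ef295f)) (.lf (nat_lit 0x8008008003cb7e6ecd)) (.lf (nat_lit 0x8007b6808123942be6)) (.nd (.nd (.lf (nat_lit 0x82196b8bd4a5967ef1)) (.lf (nat_lit 0x8047e4806517897f6d)) (.lf (nat_lit 0x837c399fc83da2ae1e)) (.lf (nat_lit 0x8188c085f83ba66f94))) (.lf (nat_lit 0x8008008006b790cfd3)) (.nd (.lf (nat_lit 0x85ac5f9ca899a32e08)) (.lf (nat_lit 0x80081181f8d3aa7f80)) (.lf (nat_lit 0x814d0f9eea40a2fcfb)) (.lf (nat_lit 0x8007ff818995abef58))) (.lf (nat_lit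 0x8007ff8138679bafcc)))) (.lf (nat_lit 0x8148008009a46c6fbb)) (.lf (nat_lit 0x8007ff8097a584cffc)) (.lf (nat_lit 0x8057a08a3c1e133871)))
  _ _ _ (by decide +kernel)

noncomputable def g1_m10_58 : GD 1 (-10) 58 := chk_sound 
  (.cell (.nd (.lf (nat_lit 0x8007cf812e516eccc8)) (.lf (nat_lit 0x8c9d1d89ad1e9caabb)) (.lf (nat_lit 0x80081b80fa8e8c8f8a)) (.lf (nat_lit 0x84ca2284ea71b52e80))) (.lf (nat_lit 0x800c36c126a3736d37)) (.nd (.lf (nat_lit 0x8007d2865476ef69ab)) (.lf (nat_lit 0x8007f8803425818f02)) (.lf (nat_lit 0x813800800166960c4c)) (.nd (.lf (nat_lit 0x82e93d8995088ecf3d)) (.lf (nat_lit 0x8067ec81064890efbd)) (.nd (.lf (nat_lit 0x841c0199d8fcab4e15)) (.lf (nat_lit 0x8008018188adac7f78)) (.lf (nat_lit 0x85cc3296ca32ae6d91)) (.lf (nat_lit 0x800809816887a92f8e))) (.lf (nat_lit 0x8008008007d29aafd2)))) (.lf (nat_lit 0x8007f68049d968cfa5)) (.lf (nat_lit 0x8007fb806792840ffc))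 (.lf (nat_lit 0x80b7848d5c0312a870)))
  _ _ _ (by decide +kernel)

noncomputable def g1_m14_62 : GD 1 (-14) 62 := chk_sound 
  (.cell (.lf (nat_lit 0x8e8a2b835c96a2fdb6)) (.lf (nat_lit 0x800bb1c1d6c5742d9a)) (.nd (.lf (nat_lit 0x80e7788f642eeee859)) (.lf (nat_lit 0x8007ff81251ca87f04)) (.lf (nat_lit 0x8705f38801e7bd2abe)) (.lf (nat_lit 0x8007eb81c530a23f2d))) (.lf (nat_lit 0x8007ed8059416ebfd3)) (.lf (nat_lit 0x8008018056bc8d2fdb)) (.lf (nat_lit 0x8057cb85cc2815295f)))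
  _ _ _ (by decide +kernel)

noncomputable def g1_m10_62 : GD 1 (-10) 62 := chk_sound 
  (.cell (.nd (.lf (nat_lit 0x8007da803dea722d50)) (.lf (nat_lit 0x80057581cf0b89eabd)) (.lf (nat_lit 0x80e800800a12919fa6)) (.lf (nat_lit 0x800a36825939a49f3c))) (.lf (nat_lit 0x821b7bc13675711da8)) (.nd (.lf (nat_lit 0x80c79e8bb449f0388c)) (.lf (nat_lit 0x81d8008004e2ae4ec6)) (.lf (nat_lit 0x8825d58a727ac83ac7)) (.lf (nat_lit 0x8057ec8104c7a5feed))) (.lf (nat_lit 0x8008008009b8653fa1)) (.lf (nat_lit 0x8148008006968e0fd3)) (.lf (nat_lit 0x8027d4841c0614297c)))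
  _ _ _ (by decide +kernel)

theorem g2_m12_60 : GD 2 (-12) 60 :=
  GD.split (i := 1) g1_m14_58 g1_m10_58 g1_m14_62 g1_m10_62 (by decide)

noncomputable def g2_m4_60 : GD 2 (-4) 60 := chk_sound 
  (.cell (.nd (.lf (nat_lit 0x829800800dfe6c1d25)) (.lf (nat_lit 0x841c72887dfc9e8a19)) (.lf (nat_lit 0x80080180fa488c5fa1)) (.lf (nat_lit 0x887afa8b6adfb6fddb))) (.lf (nat_lit 0x815c2dc106846c3d21)) (.nd (.lf (nat_lit 0x8067d386a4a9ee6a3d)) (.lf (nat_lit 0x82f8d3888518930f4a)) (.lf (nat_lit 0x8008748040447859ec)) (.nd (.nd (.lf (nat_lit 0x80382b80e14e64cc06)) (.lf (nat_lit 0x829a529494c78b1ec9)) (.lf (nat_lit 0x844d41a86b1aaefb6c)) (.lf (nat_lit 0x842b049a4ab1b7adba))) (.lf (nat_lit 0x8007f180271396cfd1)) (.nd (.lf (nat_lit 0x8779fe8a8cdec28c4a)) (.lf (nat_lit 0x800800800c46bf5d7b)) (.lf (nat_lit 0x87bb0c8bdc0fbdccbf)) (.lf (nat_lit 0x805818817b75b87e4a))) (.lf (nat_lit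 0x80080681281f9b6fd0)))) (.lf (nat_lit 0x8007ff80e9aa6b1fb6)) (.lf (nat_lit 0x8007f48046c3894fe1)) (.lf (nat_lit 0x8097d784bbd7189ab4)))
  _ _ _ (by decide +kernel)

theorem g3_m8_56 : GD 3 (-8) 56 :=
  GD.split (i := 2) g2_m12_52 g2_m4_52 g2_m12_60 g2_m4_60 (by decide)

noncomputable def g2_m12_68 : GD 2 (-12) 68 := chk_sound 
  (.cell (.lf (nat_lit 0x94aa95847c39a4edb2)) (.lf (nat_lit 0x825b52cb16f56d5d56)) (.nd (.lf (nat_lit 0x81571d9aabb0129816)) (.lf (nat_lit 0x8007dc820425cbed28)) (.lf (nat_lit 0x82145aa6b2ccc248be)) (.lf (nat_lit 0x8248008003eab2ee18))) (.lf (nat_lit 0x8008018099236e2fd6)) (.lf (nat_lit 0x8007ff8115a09bff6f)) (.lf (nat_lit 0x84d82c863b6b2fbd2e)))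
  _ _ _ (by decide +kernel)

noncomputable def g2_m4_68 : GD 2 (-4) 68 := chk_sound 
  (.cell (.lf (nat_lit 0x87c5898a5ca1a6ed78)) (.lf (nat_lit 0x812ab5cfd74f62ad49)) (.nd (.lf (nat_lit 0x8077c686e463f1c852)) (.lf (nat_lit 0x8007e88313c4cffc96)) (.lf (nat_lit 0x81e6bb915291d9d856)) (.lf (nat_lit 0x8007ff82037dbf6d48))) (.lf (nat_lit 0x8007ed80c9a5698fb3)) (.lf (nat_lit 0x8007ef815518a12f28)) (.lf (nat_lit 0x8007ff826b88315d39)))
  _ _ _ (by decide +kernel)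

noncomputable def g2_m12_76 : GD 2 (-12) 76 := chk_sound 
  (.cell (.lf (nat_lit 0x834a6e8aac7e9f8dca)) (.lf (nat_lit 0x8058c4cee5db434c7b)) (.lf (nat_lit 0x85e44ea4fe11968a76)) (.lf (nat_lit 0x8007ff81099a6dcfc1)) (.lf (nat_lit 0x8037e7815462acfe8e)) (.lf (nat_lit 0x8009078f0bf04eee17)))
  _ _ _ (by decide +kernel)

noncomputable def g2_m4_76 : GD 2 (-4) 76 := chk_sound 
  (.cell (.lf (nat_lit 0x8005d786fce19e1da3)) (.lf (nat_lit 0x80688cc445b5419cff)) (.lf (nat_lit 0x848517aaae56862ad5)) (.lf (nat_lit 0x830788824a086dbfa2)) (.lf (nat_lit 0x8007d68133e2b52dff)) (.lf (nat_lit 0x8007e4815d72605d83)))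
  _ _ _ (by decide +kernel)

theorem g3_m8_72 : GD 3 (-8) 72 :=
  GD.split (i := 2) g2_m12_68 g2_m4_68 g2_m12_76 g2_m4_76 (by decide)

noncomputable def g2_m12_84 : GD 2 (-12) 84 := chk_sound 
  (.cell (.lf (nat_lit 0x85c6be865d1c9e2db2)) (.lf (nat_lit 0x80080085e77e0beb4d)) (.lf (nat_lit 0x8398a2b7ee2b99fb43)) (.nd (.lf (nat_lit 0x80080281779d2aedf5)) (.lf (nat_lit 0x8117e486f6cf46cf0a)) (.lf (nat_lit 0x81c800800c8c7b7e93)) (.lf (nat_lit 0x817800800a9179df91))) (.lf (nat_lit 0x818800800323c76c84)) (.lf (nat_lit 0x832a24ab4c5d6f5da6)))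
  _ _ _ (by decide +kernel)

noncomputable def g2_m4_84 : GD 2 (-4) 84 := chk_sound 
  (.cell (.lf (nat_lit 0x80083880fd099ecde8)) (.lf (nat_lit 0x8007ff8577950a8b1f)) (.lf (nat_lit 0x82f8d2b9ee338f1b4b)) (.lf (nat_lit 0x81c74784aa886b6f6f)) (.lf (nat_lit 0x8007c8829317c4bc9f)) (.lf (nat_lit 0x83a9c2a68cca6d0d8a)))
  _ _ _ (by decide +kernel)

noncomputable def g2_m12_92 : GD 2 (-12) 92 := chk_sound 
  (.cell (.lf (nat_lit 0x80081e81dcd0a20e06)) (.lf (nat_lit 0x8007ff85f7fd079aad)) (.lf (nat_lit 0x814a28bbfd9f96db6a)) (.lf (nat_lit 0x818724879ad965df3a)) (.lf (nat_lit 0x8087ca82c2e0c73c39)) (.lf (nat_lit 0x820b41bd4c2689bc99)))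
  _ _ _ (by decide +kernel)

noncomputable def g2_m4_92 : GD 2 (-4) 92 := chk_sound 
  (.cell (.lf (nat_lit 0x80082d817c60a60e42)) (.lf (nat_lit 0x8007ff83b7540b9b3d)) (.lf (nat_lit 0x839986bb1deb9c9b20)) (.lf (nat_lit 0x800800800b59668f16)) (.lf (nat_lit 0x8047c882b2d8c43c60)) (.nd (.lf (nat_lit 0x80082d8347ba228d72)) (.lf (nat_lit 0x8248708ac5c912db70)) (.lf (nat_lit 0x836800800d31885e0f)) (.lf (nat_lit 0x80482e810e10a93c88))))
  _ _ _ (by decide +kernel)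

theorem g3_m8_88 : GD 3 (-8) 88 :=
  GD.split (i := 2) g2_m12_84 g2_m4_84 g2_m12_92 g2_m4_92 (by decide)

noncomputable def g2_m12_100 : GD 2 (-12) 100 := chk_sound 
  (.cell (.lf (nat_lit 0x800822819ced9c4e0c)) (.lf (nat_lit 0x8008018326ff0ecb94)) (.lf (nat_lit 0x8009febc0d76a3db55)) (.lf (nat_lit 0x80d800800b275c2f00)) (.lf (nat_lit 0x8007d381c2c2c42c47)) (.lf (nat_lit 0x82bb0fbd4c658f3c71)))
  _ _ _ (by decide +kernel)

noncomputable def g2_m4_100 : GD 2 (-4) 100 := chk_sound 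
  (.cell (.lf (nat_lit 0x825800800c35a78e56)) (.lf (nat_lit 0x800801835663143bfd)) (.lf (nat_lit 0x82e919b50dd2ad3b25)) (.lf (nat_lit 0x8047e4813b715f9eed)) (.lf (nat_lit 0x8047d88222bac0ec6f)) (.lf (nat_lit 0x83aabeb9fc8d831cc0)))
  _ _ _ (by decide +kernel)

noncomputable def g2_m12_108 : GD 2 (-12) 108 := chk_sound 
  (.cell (.lf (nat_lit 0x800816814c7fa4ee33)) (.lf (nat_lit 0x80081c83562a170c2e)) (.lf (nat_lit 0x8268d1abcdccba0b02)) (.lf (nat_lit 0x800800800b805e5ee0)) (.lf (nat_lit 0x8008008002b6bfcc7c)) (.nd (.lf (nat_lit 0x81d92e982c2a680e61)) (.lf (nat_lit 0x800ae9c00c758e8c56)) (.lf (nat_lit 0x836800800d5f8f8dd8)) (.lf (nat_lit 0x80081c816ddfadec9c))))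
  _ _ _ (by decide +kernel)

noncomputable def g2_m4_108 : GD 2 (-4) 108 := chk_sound 
  (.cell (.lf (nat_lit 0x819800800c3cacee2d)) (.lf (nat_lit 0x8008018435b71bcc68)) (.lf (nat_lit 0x81888bbbbd8ab0fb1e)) (.lf (nat_lit 0x8007e0804bcb616ec6)) (.lf (nat_lit 0x8007e88262afbc2ca4)) (.nd (.lf (nat_lit 0x820800800c6362ee6f)) (.lf (nat_lit 0x82da9dbd8c97896c93)) (.lf (nat_lit 0x80082f805d678f0dd2)) (.lf (nat_lit 0x800838820dd3adecaa))))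
  _ _ _ (by decide +kernel)

theorem g3_m8_104 : GD 3 (-8) 104 :=
  GD.split (i := 2) g2_m12_100 g2_m4_100 g2_m12_108 g2_m4_108 (by decide)

noncomputable def g2_m12_116 : GD 2 (-12) 116 := chk_sound 
  (.cell (.lf (nat_lit 0x80080e815cb2a76dfd)) (.lf (nat_lit 0x8007ff82359c1d6c7f)) (.lf (nat_lit 0x8148d7bbfd92b09aff)) (.lf (nat_lit 0x8007dd819bca609ec3)) (.lf (nat_lit 0x8278008002b2babcba)) (.nd (.lf (nat_lit 0x820800800c515e3e64)) (.lf (nat_lit 0x80bab1bf0c9d8bec67)) (.lf (nat_lit 0x80082780fd6e8f4dcb)) (.lf (nat_lit 0x80080180add1abccc2))))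
  _ _ _ (by decide +kernel)

noncomputable def g2_m4_116 : GD 2 (-4) 116 := chk_sound 
  (.cell (.lf (nat_lit 0x80080f81bccfab6dc9)) (.lf (nat_lit 0x80281582e54e20dc9c)) (.lf (nat_lit 0x831830bffd5cb48ae8)) (.lf (nat_lit 0x8007ff80ec18636ea2)) (.lf (nat_lit 0x82e696a772eb96fd4a)) (.nd (.lf (nat_lit 0x823800800c9d62fe46)) (.lf (nat_lit 0x821a6fbc5cb5853ca5)) (.lf (nat_lit 0x800800800d7a8f3dc0)) (.lf (nat_lit 0x80082e81ddc1acdccb))))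
  _ _ _ (by decide +kernel)

noncomputable def g2_m12_124 : GD 2 (-12) 124 := chk_sound 
  (.cell (.lf (nat_lit 0x80081c815cbaad9dca)) (.lf (nat_lit 0x80082083854621bca9)) (.lf (nat_lit 0x8418a3c1ad71ad8aff)) (.lf (nat_lit 0x800800800c0c62aea6)) (.lf (nat_lit 0x80f7289b32beaa0d15)) (.nd (.lf (nat_lit 0x8057db813c5f57be34)) (.lf (nat_lit 0x82da7abddcbc875c80)) (.lf (nat_lit 0x82d800800d7b8fddbd)) (.lf (nat_lit 0x80281a80ddbdab6cdd))))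
  _ _ _ (by decide +kernel)

noncomputable def g2_m4_124 : GD 2 (-4) 124 := chk_sound 
  (.cell (.lf (nat_lit 0x82583f8e8c5bb76dab)) (.lf (nat_lit 0x80081e83c5931dac7f)) (.lf (nat_lit 0x80c72bc6ad3cb1fa93)) (.lf (nat_lit 0x8007e4815c59656e80)) (.lf (nat_lit 0x814678a64304898d8a)) (.nd (.lf (nat_lit 0x8007cf818cd160ae13)) (.lf (nat_lit 0x831a4dbb7cd1824ca7)) (.lf (nat_lit 0x80081880ed898fcdb0)) (.lf (nat_lit 0x800841809da4adace5))))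
  _ _ _ (by decide +kernel)

theorem g3_m8_120 : GD 3 (-8) 120 :=
  GD.split (i := 2) g2_m12_116 g2_m4_116 g2_m12_124 g2_m4_124 (by decide)

noncomputable def g2_m12_132 : GD 2 (-12) 132 := chk_sound 
  (.cell (.lf (nat_lit 0x800801820c56b92db1)) (.lf (nat_lit 0x80081b826510246cbe)) (.lf (nat_lit 0x82c7b3c93d5caa8aac)) (.lf (nat_lit 0x8007ff810c4664ae8a)) (.lf (nat_lit 0x8006c5a262d694fd6d)) (.nd (.lf (nat_lit 0x8007d581fca5590e09)) (.lf (nat_lit 0x822a54bcecd6844c8a)) (.lf (nat_lit 0x806825809d85910db0)) (.lf (nat_lit 0x80c828817d98ad8cf4))))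
  _ _ _ (by decide +kernel)

noncomputable def g2_m4_132 : GD 2 (-4) 132 := chk_sound 
  (.cell (.lf (nat_lit 0x80c837823ce7b15d83)) (.lf (nat_lit 0x80081982a55d1fcc8f)) (.lf (nat_lit 0x90430ba9cb07ca48eb)) (.lf (nat_lit 0x8007e0816c91674e61)) (.lf (nat_lit 0x8006338d34178a1ea9)) (.nd (.lf (nat_lit 0x8007e481bced5b7ddf)) (.lf (nat_lit 0x82aa46bc2ce883fc88)) (.lf (nat_lit 0x80083380ed93910da2)) (.lf (nat_lit 0x82c800800d6ab1bcff))))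
  _ _ _ (by decide +kernel)

noncomputable def g2_m12_140 : GD 2 (-12) 140 := chk_sound .out
  _ _ _ (by decide +kernel)

noncomputable def g2_m4_140 : GD 2 (-4) 140 := chk_sound 
  (.cell (.lf (nat_lit 0x807828822cb7b64d7f)) (.lf (nat_lit 0x80081483653b214c9a)) (.nd (.lf (nat_lit 0x86195abb317c5bc8d9)) (.lf (nat_lit 0x82d800800222909d55)) (.lf (nat_lit 0x8e54049ac6e7e559c9)) (.lf (nat_lit 0x8087e08132e1b93cfe))) (.lf (nat_lit 0x80c7e380bcc168fe44)) (.nd (.lf (nat_lit 0x81d80080039d577e30)) (.lf (nat_lit 0x8007cf80a24d8d1d8c)) (.lf (nat_lit 0x8156959c35b88f0f44)) (.lf (nat_lit 0x8008008002f1b67d2d))) (.nd (.lf (nat_lit 0x8007ea814d05572dad)) (.nd (.lf (nat_lit 0x800817850608137bbc)) (.lf (nat_lit 0x80081c8304b618bb60)) (.nd (.lf (nat_lit 0x84399eaa4cfa66ad33)) (.lf (nat_lit 0x809853874cb3e698ad)) (.lf (nat_lit 0x837800800e0f91cd19)) (.lf (nat_lit 0x80083c818e25b7cbbe)))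 (.lf (nat_lit 0x80081d816c5ce95943))) (.lf (nat_lit 0x82d800800d9992bd97)) (.lf (nat_lit 0x80082b822d68b3eceb))))
  _ _ _ (by decide +kernel)

theorem g3_m8_136 : GD 3 (-8) 136 :=
  GD.split (i := 2) g2_m12_132 g2_m4_132 g2_m12_140 g2_m4_140 (by decide)

noncomputable def g2_4_m140 : GD 2 4 (-140) := chk_sound 
  (.cell (.lf (nat_lit 0x80080180faf4dc5caf)) (.lf (nat_lit 0x8268008003b4462db1)) (.lf (nat_lit 0x8007db80839b9a3e7a)) (.lf (nat_lit 0x844795cf22d35beab7)) (.nd (.lf (nat_lit 0x80083b81526254dd02)) (.lf (nat_lit 0x83680080027a6fddb1)) (.lf (nat_lit 0x829a3cb97343823cdc)) (.lf (nat_lit 0x8007ff8173509f9e2c))) (.lf (nat_lit 0x82c6dea23d32645d4d)))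
  _ _ _ (by decide +kernel)

noncomputable def g2_12_m140 : GD 2 12 (-140) := chk_sound .out
  _ _ _ (by decide +kernel)

noncomputable def g2_4_m132 : GD 2 4 (-132) := chk_sound 
  (.cell (.lf (nat_lit 0x80081482ca18e64c53)) (.lf (nat_lit 0x80f80080031b4d8d7b)) (.lf (nat_lit 0x8007d880736398ae59)) (.lf (nat_lit 0x8715b8c9a2d850996c)) (.nd (.lf (nat_lit 0x80083d81027752cd07)) (.lf (nat_lit 0x82380080026b709da5)) (.lf (nat_lit 0x83da12b8231d85dcd4)) (.lf (nat_lit 0x8007ff812357a99df5))) (.lf (nat_lit 0x8006989fdd01790dba)))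
  _ _ _ (by decide +kernel)

noncomputable def g2_12_m132 : GD 2 12 (-132) := chk_sound 
  (.cell (.lf (nat_lit 0x800800800a4ae54c52)) (.lf (nat_lit 0x80082b82333b48fd6a)) (.lf (nat_lit 0x87699d87b3a49b7e3e)) (.nd (.lf (nat_lit 0x8007cc812d25487d0a)) (.lf (nat_lit 0x830827d463cc4f0b02)) (.lf (nat_lit 0x83b800800dd16c8d59)) (.lf (nat_lit 0x826c94d67987b4f8b7))) (.nd (.lf (nat_lit 0x80083a82226e57ad26)) (.lf (nat_lit 0x800800800260728d9f)) (.lf (nat_lit 0x8409dbb2f30a8dbd00)) (.lf (nat_lit 0x8007e181f32aa83dda))) (.lf (nat_lit 0x817753952d4d665d93)))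
  _ _ _ (by decide +kernel)

theorem g3_8_m136 : GD 3 8 (-136) :=
  GD.split (i := 2) g2_4_m140 g2_12_m140 g2_4_m132 g2_12_m132 (by decide)

noncomputable def g2_4_m124 : GD 2 4 (-124) := chk_sound 
  (.cell (.lf (nat_lit 0x80080c8529b0e93c38)) (.lf (nat_lit 0x80281b814337491d69)) (.lf (nat_lit 0x8007ff81132c970e36)) (.nd (.lf (nat_lit 0x8007d1812d28490d0d)) (.lf (nat_lit 0x842642d7043643c9ab)) (.lf (nat_lit 0x83c800800dcf6c6d5b)) (.lf (nat_lit 0xa91a6185ed60caa8f6))) (.nd (.lf (nat_lit 0x80080180f2a74e2d10)) (.lf (nat_lit 0x80082580f25c70fd97)) (.lf (nat_lit 0x813a15b9330081fcac)) (.lf (nat_lit 0x8007e781c325aa4dc7))) (.lf (nat_lit 0x82b69b899c11753eaf)))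
  _ _ _ (by decide +kernel)

noncomputable def g2_12_m124 : GD 2 12 (-124) := chk_sound 
  (.cell (.lf (nat_lit 0x800809831875eb6c52)) (.lf (nat_lit 0x8287f19ea372495d47)) (.lf (nat_lit 0x80098988d35c99ce19)) (.nd (.lf (nat_lit 0x8007dd81dd1c4bad35)) (.lf (nat_lit 0x812696de43fb577a2a)) (.lf (nat_lit 0x80b800800dc47add88)) (.lf (nat_lit 0x825d5ace38f1b1c8ed))) (.nd (.lf (nat_lit 0x80081781429153fd2e)) (.lf (nat_lit 0x81483780924e734d8e)) (.lf (nat_lit 0x8119d3b352ec8c7ce5)) (.lf (nat_lit 0x8007de81c2f2a83daa))) (.lf (nat_lit 0x80e751924d3a715dd5)))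
  _ _ _ (by decide +kernel)

noncomputable def g2_4_m116 : GD 2 4 (-116) := chk_sound 
  (.cell (.lf (nat_lit 0x800800800767e62cc8)) (.lf (nat_lit 0x8007ff92f360476d5a)) (.lf (nat_lit 0x80095689d34c990e1a)) (.lf (nat_lit 0x82bb5abbbd9b5f99cd)) (.nd (.lf (nat_lit 0x8158008002a84b5cf4)) (.lf (nat_lit 0x82a80080024c70fd86)) (.nd (.lf (nat_lit 0x82780080030e225a47)) (.lf (nat_lit 0x83ca25b132c783bcbf)) (.lf (nat_lit 0x800827830b8fe68b31)) (.lf (nat_lit 0x8008938d7581d81d23))) (.lf (nat_lit 0x8007f080c2f4a49dc4))) (.lf (nat_lit 0x80074687ca8278ff88)))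
  _ _ _ (by decide +kernel)

noncomputable def g2_12_m116 : GD 2 12 (-116) := chk_sound 
  (.cell (.lf (nat_lit 0x8007eb81f644dcfd37)) (.lf (nat_lit 0x82c792a5f3a748cd3a)) (.lf (nat_lit 0x8379b58ba34699edf6)) (.nd (.lf (nat_lit 0x82f800800d084e5d62)) (.lf (nat_lit 0x85a42fc335a834fa08)) (.lf (nat_lit 0x80082d80dd9b8d0da5)) (.lf (nat_lit 0x84fd09a88b49c908b3))) (.nd (.lf (nat_lit 0x83880080028e521d1a)) (.lf (nat_lit 0x80d80080023673ed77)) (.nd (.lf (nat_lit 0x8088438422782c1a63)) (.lf (nat_lit 0x82b9e6abe2c98d5cfe)) (.lf (nat_lit 0x80081b82ab84e68b3e)) (.lf (nat_lit 0x8007cd81f390bc9d78))) (.lf (nat_lit 0x8067d181b2d7a28db7))) (.lf (nat_lit 0x8007e780ac51758eb3)))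
  _ _ _ (by decide +kernel)

theorem g3_8_m120 : GD 3 8 (-120) :=
  GD.split (i := 2) g2_4_m124 g2_12_m124 g2_4_m116 g2_12_m116 (by decide)

noncomputable def g2_4_m108 : GD 2 4 (-108) := chk_sound 
  (.cell (.lf (nat_lit 0x8007f683e59cd5bd6f)) (.lf (nat_lit 0x82e7b999438e46ad5d)) (.lf (nat_lit 0x81a9418a6311973df6)) (.lf (nat_lit 0x84a9caabce3d6f1ba1)) (.nd (.lf (nat_lit 0x8007ff80e2be44bcc0)) (.lf (nat_lit 0x80081780d236714d70)) (.nd (.lf (nat_lit 0x80b8328302612baa1d)) (.lf (nat_lit 0x8189b7a8323c77cc9a)) (.lf (nat_lit 0x80083383dc0ee26b1a)) (.lf (nat_lit 0x81f9f3abf307a13cdb))) (.lf (nat_lit 0x8259279302ec9fad9d))) (.nd (.lf (nat_lit 0x8007dc80bcf152cd9d)) (.lf (nat_lit 0x8008008138406f2fed)) (.lf (nat_lit 0x80082d810d52920ddd)) (.lf (nat_lit 0x80380f813b9dbc2e10))))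
  _ _ _ (by decide +kernel)

noncomputable def g2_12_m108 : GD 2 12 (-108) := chk_sound 
  (.cell (.lf (nat_lit 0x82080080045ac4cdac)) (.lf (nat_lit 0x82e716a613e7471d4a)) (.lf (nat_lit 0x95a91d9293379a5dd4)) (.nd (.lf (nat_lit 0x8007e981bcd84edd92)) (.lf (nat_lit 0x9474688d1a64219add)) (.lf (nat_lit 0x804828817d3aa56d95)) (.lf (nat_lit 0x86ba0ebd9e21a928c6))) (.lf (nat_lit 0x81fa23a572a1900ce8)) (.nd (.lf (nat_lit 0x826800800cbc543dd5)) (.lf (nat_lit 0x81071aa449e3765f5b)) (.lf (nat_lit 0x828800800ceba79dcd)) (.lf (nat_lit 0x8007ff808b9ac24dd1))))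
  _ _ _ (by decide +kernel)

noncomputable def g2_4_m100 : GD 2 4 (-100) := chk_sound 
  (.cell (.lf (nat_lit 0x82586f868422c15da7)) (.lf (nat_lit 0x82277a95f3ba45bd80)) (.lf (nat_lit 0x9768b2946341996de4)) (.lf (nat_lit 0x82d8e8962e26737cc6)) (.lf (nat_lit 0x849a45a6f2788a3cac)) (.nd (.lf (nat_lit 0x8007e7823cae557dea)) (.lf (nat_lit 0x8008018047b883bffd)) (.lf (nat_lit 0x814800800cbcad5dca)) (.lf (nat_lit 0x80381f828b1cc86dd0))))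
  _ _ _ (by decide +kernel)

noncomputable def g2_12_m100 : GD 2 12 (-100) := chk_sound 
  (.cell (.lf (nat_lit 0x8067e781b3a4b97da9)) (.lf (nat_lit 0x81e67fa3044845dd77)) (.lf (nat_lit 0x97a86b96431d99edc3)) (.lf (nat_lit 0x83b9f3a0ddd870cc91)) (.lf (nat_lit 0x8499f09d91fc8a7c7c)) (.nd (.lf (nat_lit 0x800801b97b176bee52)) (.lf (nat_lit 0x8067c7b258407f5f59)) (.lf (nat_lit 0x800800800bedc76d5a)) (.lf (nat_lit 0x800801835ac6d0cd8c))))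
  _ _ _ (by decide +kernel)

theorem g3_8_m104 : GD 3 8 (-104) :=
  GD.split (i := 2) g2_4_m108 g2_12_m108 g2_4_m100 g2_12_m100 (by decide)

noncomputable def g2_4_m92 : GD 2 4 (-92) := chk_sound 
  (.cell (.lf (nat_lit 0x83aa2b9273efb7dd67)) (.lf (nat_lit 0x82a5f1abf57839ad24)) (.lf (nat_lit 0x8bc9149112fe996dca)) (.lf (nat_lit 0x82d89ab45ca0771d96)) (.lf (nat_lit 0x85799896416f845c06)) (.lf (nat_lit 0x8096e4b2775485cf3a)))
  _ _ _ (by decide +kernel)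

noncomputable def g2_12_m92 : GD 2 12 (-92) := chk_sound 
  (.cell (.lf (nat_lit 0x830a038f93adb69d59)) (.lf (nat_lit 0x8405b99c38f1276ce7)) (.nd (.lf (nat_lit 0x81880080040387deea)) (.lf (nat_lit 0x8007cb807179a1cc1b)) (.lf (nat_lit 0x8007d0820340aa7ddc)) (.lf (nat_lit 0x847a559012d4a02d2a))) (.lf (nat_lit 0x887b5badb85c1999c7)) (.lf (nat_lit 0x8549c18a511b924b65)) (.nd (.lf (nat_lit 0x8007fe85c801049a13)) (.lf (nat_lit 0x8127eabf864884deb8)) (.lf (nat_lit 0x800824842a6be32c6f)) (.lf (nat_lit 0x80380e8299c4dc7d3d))))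
  _ _ _ (by decide +kernel)

noncomputable def g2_4_m84 : GD 2 4 (-84) := chk_sound 
  (.cell (.lf (nat_lit 0x846a979603e1b4ad3e)) (.lf (nat_lit 0x8355b79ae89f298d20)) (.nd (.lf (nat_lit 0x8258008003ab848eb7)) (.lf (nat_lit 0x8007dc814113a0fb6c)) (.lf (nat_lit 0x8057db81733da37e08)) (.lf (nat_lit 0x84db2299b28e96cc73))) (.lf (nat_lit 0x8009fddc784f2e188e)) (.lf (nat_lit 0x80c7d580509a8f1ae1)) (.nd (.lf (nat_lit 0x8008068717e300e8c7)) (.lf (nat_lit 0x80e859b6d5c2833edc)) (.lf (nat_lit 0x8008018279ece69c60)) (.lf (nat_lit 0x800810818959db5d70))))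
  _ _ _ (by decide +kernel)

noncomputable def g2_12_m84 : GD 2 12 (-84) := chk_sound 
  (.cell (.nd (.lf (nat_lit 0x80081082d9b9ea4c1b)) (.lf (nat_lit 0x80f8008009f9db6d3d)) (.lf (nat_lit 0x80081c82bc6ad1fc44)) (.lf (nat_lit 0x82a81e80af10a38b04))) (.lf (nat_lit 0x80080182b94e1bacc8)) (.nd (.lf (nat_lit 0x8007e780848e85ef35)) (.lf (nat_lit 0x8147aa8140959e9a45)) (.lf (nat_lit 0x8137bc81d3d29c6e94)) (.lf (nat_lit 0x800bee8e72ee9fbc41))) (.lf (nat_lit 0x8689c5a667c00ad919)) (.lf (nat_lit 0x866800800f8c763a8b)) (.nd (.lf (nat_lit 0x8008098c67ce00f87e)) (.nd (.lf (nat_lit 0x8007ff8397c90f0bbd)) (.lf (nat_lit 0x81876cb644c36b3e52)) (.lf (nat_lit 0x808791bf36a7e3cabd)) (.lf (nat_lit 0x8187bb8d2476b76e39))) (.lf (nat_lit 0x8008018568d4f29b73)) (.lf (nat_lit 0x8007ff83a87de44cf1))))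
  _ _ _ (by decide +kernel)

theorem g3_8_m88 : GD 3 8 (-88) :=
  GD.split (i := 2) g2_4_m92 g2_12_m92 g2_4_m84 g2_12_m84 (by decide)

noncomputable def g2_4_m76 : GD 2 4 (-76) := chk_sound 
  (.cell (.nd (.lf (nat_lit 0x80080882d923ecbc0f)) (.lf (nat_lit 0x80f8008009c9d8ed78)) (.lf (nat_lit 0x803812811c5ed4dc18)) (.lf (nat_lit 0x81e800800e86a49c05))) (.lf (nat_lit 0x8017fc821887219d5e)) (.nd (.lf (nat_lit 0x82775c85e5ca812fa6)) (.lf (nat_lit 0x8345b08810b59669c7)) (.lf (nat_lit 0x8007d980a3db985eab)) (.lf (nat_lit 0x91cc41871283933b97))) (.lf (nat_lit 0x80581992574b020855)) (.lf (nat_lit 0x8007e280cf26709b73)) (.nd (.lf (nat_lit 0x8007f39827bcfd9817)) (.lf (nat_lit 0x82167dbd543b990d82)) (.lf (nat_lit 0x80080583c832f31b7c)) (.lf (nat_lit 0x8007ff8247f8dffd4a))))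
  _ _ _ (by decide +kernel)

noncomputable def g2_12_m76 : GD 2 12 (-76) := chk_sound 
  (.cell (.nd (.lf (nat_lit 0x801800800825f24b99)) (.lf (nat_lit 0x8007ff834861e2dd10)) (.lf (nat_lit 0x80081e829b46e74b66)) (.lf (nat_lit 0x80082b803df4a36cdc))) (.lf (nat_lit 0x8008018288ad1c3cf5)) (.lf (nat_lit 0x81d640af34dc92ee66)) (.lf (nat_lit 0x80080f8bf7820178c2)) (.lf (nat_lit 0x842800800ebf7b2c47)) (.nd (.lf (nat_lit 0x8007f384c87700885d)) (.nd (.lf (nat_lit 0x818615f3d6aea22946)) (.lf (nat_lit 0x8006dcbe342296ed87)) (.lf (nat_lit 0x8007eb85b61af4caa4)) (.lf (nat_lit 0x8007e7830486cced5d))) (.lf (nat_lit 0x8007f282a74ff7babc)) (.lf (nat_lit 0x81180080064fe82c54))))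
  _ _ _ (by decide +kernel)

noncomputable def g2_4_m68 : GD 2 4 (-68) := chk_sound 
  (.cell (.nd (.lf (nat_lit 0x8007f681d751f21b8e)) (.lf (nat_lit 0x8007fc818762e14d29)) (.lf (nat_lit 0x80381985e9e7f54a8c)) (.lf (nat_lit 0x800800800e0ca21cc8))) (.lf (nat_lit 0x80079591659b405e68)) (.lf (nat_lit 0x81e6939f24c391fed0)) (.lf (nat_lit 0x8008018638050108e3)) (.lf (nat_lit 0x8429af8f5e9074cc12)) (.lf (nat_lit 0x81163fbfb4109b7d28)))
  _ _ _ (by decide +kernel)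

noncomputable def g2_12_m68 : GD 2 12 (-68) := chk_sound 
  (.cell (.nd (.lf (nat_lit 0x8007e1853647f1cb37)) (.lf (nat_lit 0x8007f183d61ddfccf4)) (.lf (nat_lit 0x8139d8c687b8de4a86)) (.lf (nat_lit 0x80083581cdd5a57cf1))) (.lf (nat_lit 0x80080c81b587406e7c)) (.lf (nat_lit 0x8238008003c1935eab)) (.lf (nat_lit 0x8007f986f830023960)) (.lf (nat_lit 0x80082a80ce8b8e7c81)) (.nd (.lf (nat_lit 0x8007e08c297002e85c)) (.nd (.nd (.lf (nat_lit 0x8007ff84d8e8055a0f)) (.lf (nat_lit 0x8235e1d584a09cdc09)) (.lf (nat_lit 0x80079d96b5ebf94823)) (.lf (nat_lit 0x80078b95d42be4dabd))) (.lf (nat_lit 0x8276bdb943cc978d6f)) (.lf (nat_lit 0x8067de84543be76ad0)) (.lf (nat_lit 0x8047e4820417cadd2d))) (.lf (nat_lit 0x8027ed8425c3f4aa65)) (.lf (nat_lit 0x8007da823494df0c1e))))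
  _ _ _ (by decide +kernel)

theorem g3_8_m72 : GD 3 8 (-72) :=
  GD.split (i := 2) g2_4_m76 g2_12_m76 g2_4_m68 g2_12_m68 (by decide)

noncomputable def g1_2_m62 : GD 1 2 (-62) := chk_sound 
  (.cell (.lf (nat_lit 0x8917d983c75aedcc03)) (.nd (.lf (nat_lit 0x8007f985f8240adb30)) (.nd (.lf (nat_lit 0x8206a4b514ce5c0dfd)) (.lf (nat_lit 0x80081c80a4d55b5efa)) (.lf (nat_lit 0x8007fc80d82d2d3e18)) (.lf (nat_lit 0x8006e68a6aec402e27))) (.lf (nat_lit 0x8007f98178f8200d32)) (.lf (nat_lit 0x91552083dc0341acd0))) (.lf (nat_lit 0x80e6a69da59490ff31)) (.lf (nat_lit 0x8007f988687f01f929)) (.lf (nat_lit 0x83f90f8e4e9689fc45)) (.lf (nat_lit 0x8166a0b0c37bb23cbf)))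
  _ _ _ (by decide +kernel)

noncomputable def g1_6_m62 : GD 1 6 (-62) := chk_sound 
  (.cell (.lf (nat_lit 0x85f6e58a469eec9bc6)) (.nd (.lf (nat_lit 0x8007fb84e8170bfb5a)) (.nd (.lf (nat_lit 0x800662b92488675dd9)) (.lf (nat_lit 0x80781f8164455ecec3)) (.lf (nat_lit 0x8007ff8077ca2c1e08)) (.lf (nat_lit 0x80e6d18ef9dd361e12))) (.lf (nat_lit 0x8008018298c421ad58)) (.lf (nat_lit 0xa4bb0484abe249eccc))) (.lf (nat_lit 0x80d8008003fb9a9eb6)) (.lf (nat_lit 0x8007f188f89302e977)) (.lf (nat_lit 0x80e823806e7f950c79)) (.nd (.lf (nat_lit 0x8007959785d3f8a834)) (.lf (nat_lit 0x80072ca5133db96cbb)) (.lf (nat_lit 0x80f800800515ef8a9f)) (.lf (nat_lit 0x8007e28254c2d68ceb))))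
  _ _ _ (by decide +kernel)

noncomputable def g1_2_m58 : GD 1 2 (-58) := chk_sound 
  (.cell (.nd (.lf (nat_lit 0x8017ef82b520ebeb31)) (.lf (nat_lit 0x800801825547d7fd21)) (.lf (nat_lit 0x81798fdd56efcada20)) (.lf (nat_lit 0x800834825daeaa0cfa))) (.nd (.lf (nat_lit 0x8007f784985f0acb2b)) (.nd (.lf (nat_lit 0x811630c0a3bf8f7d09)) (.lf (nat_lit 0x8008008003757eee95)) (.lf (nat_lit 0x8008048217c22efe2f)) (.lf (nat_lit 0x81d6ac90597f3b1e5a))) (.lf (nat_lit 0x80080381b7dd1d3d14)) (.lf (nat_lit 0xa63510849ac23c8cea))) (.lf (nat_lit 0x81b80080045a987ef3)) (.lf (nat_lit 0x8007f98758d1032978)) (.lf (nat_lit 0x83ea55a18e1f86dc0e)) (.lf (nat_lit 0x807750979300c28c5f)))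
  _ _ _ (by decide +kernel)

noncomputable def g1_6_m58 : GD 1 6 (-58) := chk_sound 
  (.cell (.nd (.lf (nat_lit 0x8047de841497e85b1f)) (.lf (nat_lit 0x8007ff82752bd3fd54)) (.lf (nat_lit 0x9b4823daa6adcbca32)) (.lf (nat_lit 0x800830827d1fb66d1d))) (.nd (.lf (nat_lit 0x8007f781f84a0c9b6f)) (.nd (.lf (nat_lit 0x81b5e2c273c7944cc6)) (.lf (nat_lit 0x8208008003537d7e7c)) (.lf (nat_lit 0x8007ff8327542d9e14)) (.lf (nat_lit 0x81c5d89c88e03bfe1b))) (.lf (nat_lit 0x80080d82c7621dad13)) (.lf (nat_lit 0x99ec14860a8141bccf))) (.lf (nat_lit 0x8007d880b3a3a11e60)) (.lf (nat_lit 0x8007d18b4a1d058893)) (.lf (nat_lit 0x830800800e4b9fcc84)) (.nd (.lf (nat_lit 0x8007ac8ac4a0f2b8c9)) (.lf (nat_lit 0x81479d8c62cac5ec1f)) (.lf (nat_lit 0x8047d2854441e89aa9)) (.lf (nat_lit 0x81d800800406d00ccf))))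
  _ _ _ (by decide +kernel)

theorem g2_4_m60 : GD 2 4 (-60) :=
  GD.split (i := 1) g1_2_m62 g1_6_m62 g1_2_m58 g1_6_m58 (by decide)

noncomputable def g1_10_m62 : GD 1 10 (-62) := chk_sound 
  (.cell (.lf (nat_lit 0x91f772a075fbe59bbb)) (.nd (.lf (nat_lit 0x8008018128120d2b85)) (.nd (.lf (nat_lit 0x820667b5e4b05f9dea)) (.lf (nat_lit 0x81c8008004365daeb5)) (.lf (nat_lit 0x8007ff82b76f2b6df8)) (.lf (nat_lit 0x8206c891a95033fe14))) (.lf (nat_lit 0x8007ff83887f229d70)) (.lf (nat_lit 0xb3e5af833ab03e2ce3))) (.lf (nat_lit 0x81d8008003a19dce6f)) (.lf (nat_lit 0x8007e5893942033915)) (.lf (nat_lit 0x80083c80ae609b0c85)) (.nd (.lf (nat_lit 0x80078f964a5507e811)) (.lf (nat_lit 0x8216e0a7e33fbc2c72)) (.lf (nat_lit 0x8007dd8414b6ed9a7b)) (.lf (nat_lit 0x8007fb82344bd54cab))))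
  _ _ _ (by decide +kernel)

noncomputable def g1_14_m62 : GD 1 14 (-62) := chk_sound 
  (.cell (.lf (nat_lit 0x9496cca10568e1bb8d)) (.lf (nat_lit 0x80e74497f51a4aae74)) (.lf (nat_lit 0x8076f59833ac9a1e43)) (.lf (nat_lit 0x8007f086794f041970)) (.lf (nat_lit 0x800822817e4aa05c81)) (.nd (.lf (nat_lit 0x806797919529f62809)) (.nd (.lf (nat_lit 0x8105b4ce543db62b05)) (.lf (nat_lit 0x8006c0ac23479eed5d)) (.lf (nat_lit 0x8007c983f3a3dd7b46)) (.lf (nat_lit 0x826800800362c3dcf7))) (.lf (nat_lit 0x8007ce850468ebba5e)) (.lf (nat_lit 0x8007e08143f3d3dc7b))))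
  _ _ _ (by decide +kernel)

noncomputable def g1_10_m58 : GD 1 10 (-58) := chk_sound 
  (.cell (.nd (.lf (nat_lit 0x80e800800428e4db14)) (.lf (nat_lit 0x8057de830434cffcf4)) (.lf (nat_lit 0x81b852ac961aec8a8d)) (.lf (nat_lit 0x80082b82bcc0bb5d41))) (.nd (.lf (nat_lit 0x8007fa82683e0e7bac)) (.nd (.lf (nat_lit 0x8005e0bff3da86cd1c)) (.lf (nat_lit 0x80083380b36e78ee8c)) (.lf (nat_lit 0x8008108246f92ccdfc)) (.lf (nat_lit 0x82e5fa9e9848397e0e))) (.lf (nat_lit 0x80081481a6981c8cd3)) (.lf (nat_lit 0x8c8caf8f5a43450cab))) (.lf (nat_lit 0x80d7de80d3809d6e5a)) (.lf (nat_lit 0x8057cf8a1a2c067909)) (.lf (nat_lit 0x800840820e2ba5ac82)) (.nd (.lf (nat_lit 0x80b7b589645ff118a4)) (.lf (nat_lit 0x82372b9ab2d2c37bfc)) (.lf (nat_lit 0x8077c68583e6e57a9a)) (.lf (nat_lit 0x8067d183639fcdcc98))))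
  _ _ _ (by decide +kernel)

noncomputable def g1_14_m58 : GD 1 14 (-58) := chk_sound 
  (.cell (.lf (nat_lit 0x8966f1b13495cfec0e)) (.nd (.lf (nat_lit 0x8007f783a839103be0)) (.nd (.lf (nat_lit 0x8005cabcb43772dd73)) (.lf (nat_lit 0x8238008003b96fbeae)) (.lf (nat_lit 0x8007ff8306b72c6dea)) (.lf (nat_lit 0x82964699f86e3b2e4b))) (.lf (nat_lit 0x80080383c53d1afc0c)) (.lf (nat_lit 0x85bcfc97d9f546bc7c))) (.lf (nat_lit 0x80c6639eb3c0a2fde7)) (.lf (nat_lit 0x8077c38a4b030a487e)) (.lf (nat_lit 0x826800800e15ab0c71)) (.nd (.lf (nat_lit 0x8007888d742eef187e)) (.lf (nat_lit 0x82b6d4a632f9bf8bfb)) (.lf (nat_lit 0x8007de84339de2ca8e)) (.lf (nat_lit 0x8007d9814356cbcc72))))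
  _ _ _ (by decide +kernel)

theorem g2_12_m60 : GD 2 12 (-60) :=
  GD.split (i := 1) g1_10_m62 g1_14_m62 g1_10_m58 g1_14_m58 (by decide)

noncomputable def g1_2_m54 : GD 1 2 (-54) := chk_sound 
  (.cell (.nd (.lf (nat_lit 0x80780080042de4eb18)) (.lf (nat_lit 0x8017eb8214a4cf7d4b)) (.lf (nat_lit 0x95d6ddad46dceef9db)) (.lf (nat_lit 0x822800800c32c31d5d))) (.nd (.lf (nat_lit 0x82745eef2743968801)) (.nd (.lf (nat_lit 0x824609bcb374971cca)) (.lf (nat_lit 0x83180080035581ce7e)) (.lf (nat_lit 0x80081083074930ae3b)) (.lf (nat_lit 0x83b5c29b9857436e70))) (.lf (nat_lit 0x80080e8446da1a8cba)) (.lf (nat_lit 0x906c6b8d2a6f444cc8))) (.lf (nat_lit 0x8007ff81a3e79f3e96)) (.lf (nat_lit 0x8067df878a3f0638d6)) (.lf (nat_lit 0x843b0ab1cd8186abd0)) (.lf (nat_lit 0x8057d78202b0c58c1a)))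
  _ _ _ (by decide +kernel)

noncomputable def g1_6_m54 : GD 1 6 (-54) := chk_sound 
  (.cell (.nd (.lf (nat_lit 0x8007f683b3b4dfeb16)) (.lf (nat_lit 0x8007d981d453cb7d4f)) (.lf (nat_lit 0x987769bf05c5deaa6a)) (.lf (nat_lit 0x80081b822aa6cd0dcf))) (.nd (.lf (nat_lit 0x807762918bda11c838)) (.lf (nat_lit 0x812610bbb36a969cd3)) (.lf (nat_lit 0x80380b82664c19ec81)) (.lf (nat_lit 0x81acd4989a3947ec96))) (.lf (nat_lit 0x8516ba84f359a38df7)) (.lf (nat_lit 0x8057c6896b060a588d)) (.lf (nat_lit 0x80080180ee05aa9c8b)) (.lf (nat_lit 0x8007d58362a0c65bf6)))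
  _ _ _ (by decide +kernel)

noncomputable def g1_2_m50 : GD 1 2 (-50) := chk_sound 
  (.cell (.nd (.lf (nat_lit 0x8007f5817350db8b0b)) (.lf (nat_lit 0x8087df81e346c4dcce)) (.lf (nat_lit 0x8638f583e526f0ba41)) (.lf (nat_lit 0x80080d8298b3d3be02))) (.nd (.nd (.lf (nat_lit 0x8007e684c9c3092a5b)) (.lf (nat_lit 0x81f487d4b454a30a5f)) (.lf (nat_lit 0x8007fb83381a0f5bc8)) (.lf (nat_lit 0x80080981b76c17cc99))) (.nd (.nd (.lf (nat_lit 0x7f95edb923259d6c7b)) (.lf (nat_lit 0x8087da811253a42d29)) (.nd (.lf (nat_lit 0x83d5e0beb3d3796d25)) (.lf (nat_lit 0x826697a9437c77dde3)) (.lf (nat_lit 0x80080182d6c123dd67)) (.lf (nat_lit 0x80081c8135533c1e3a))) (.lf (nat_lit 0x80082480b3776d5e7b))) (.lf (nat_lit 0x8308008002d98c5e11)) (.lf (nat_lit 0x8008018366a5325e35)) (.lf (nat_lit 0x83452f9fb68850ae6a))) (.lf (nat_lit 0x8007ff80d65f178c51)) (.lf (nat_lit 0xa4cb5d865879325cd7)))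 (.lf (nat_lit 0x80c775854354a0ee20)) (.lf (nat_lit 0x80a747947423ed882d)) (.lf (nat_lit 0x825acdbb5d1c924bde)) (.lf (nat_lit 0x8007ff81724bc27bc2)))
  _ _ _ (by decide +kernel)

noncomputable def g1_6_m50 : GD 1 6 (-50) := chk_sound 
  (.cell (.nd (.lf (nat_lit 0x8007d28412eed58b19)) (.lf (nat_lit 0x8007ef81a36fc25d17)) (.lf (nat_lit 0x842615b014e6ddeaac)) (.lf (nat_lit 0x80080181f710d0ce22))) (.nd (.lf (nat_lit 0x8314f4cac3c495ab9e)) (.nd (.lf (nat_lit 0x82961ab442fa97aca3)) (.lf (nat_lit 0x8007e380f2ad8cbdea)) (.lf (nat_lit 0x8007ff8066292ffdf6)) (.lf (nat_lit 0x8174bb9e059f586e29))) (.lf (nat_lit 0x8008018445f2163bfe)) (.lf (nat_lit 0x800c358d07c1302c8b))) (.lf (nat_lit 0x8216248c1326a19da8)) (.lf (nat_lit 0x8007c5841333e518f0)) (.lf (nat_lit 0x81a8ce943d99b2fc80)) (.lf (nat_lit 0x8007c881f25dc40bc0)))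
  _ _ _ (by decide +kernel)

theorem g2_4_m52 : GD 2 4 (-52) :=
  GD.split (i := 1) g1_2_m54 g1_6_m54 g1_2_m50 g1_6_m50 (by decide)

noncomputable def g1_10_m54 : GD 1 10 (-54) := chk_sound 
  (.cell (.nd (.lf (nat_lit 0x8097d283635bdb9b17)) (.lf (nat_lit 0x8007dd82040cc83d49)) (.lf (nat_lit 0x8007ec843506ebbb1e)) (.lf (nat_lit 0x800810826ac3c7ee03))) (.nd (.lf (nat_lit 0x8243e5e6263d9938df)) (.nd (.lf (nat_lit 0x82b5f0c06387941caf)) (.lf (nat_lit 0x83680080033f807e6e)) (.lf (nat_lit 0x8007ff8286762e1df2)) (.lf (nat_lit 0x81e555a5a6ef453e0e))) (.lf (nat_lit 0x80481884c589181bf3)) (.lf (nat_lit 0x85cd06a2b9e449ac55))) (.lf (nat_lit 0x8007e481632d9fce10)) (.lf (nat_lit 0x8007a18a6412eec829)) (.lf (nat_lit 0x800829820de4b09c79)) (.lf (nat_lit 0x8057d282b293c8cbb6)))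
  _ _ _ (by decide +kernel)

noncomputable def g1_14_m54 : GD 1 14 (-54) := chk_sound 
  (.cell (.nd (.lf (nat_lit 0x8007c883631dd86b14)) (.lf (nat_lit 0x8007e1810349c48cd6)) (.lf (nat_lit 0x8007d88604afed1a84)) (.lf (nat_lit 0x8007ff81fad8c31e30))) (.nd (.lf (nat_lit 0x818417dc3541890ac3)) (.nd (.nd (.lf (nat_lit 0x814482ce0433905b8a)) (.lf (nat_lit 0x81380080029a8f2dd3)) (.lf (nat_lit 0x8008138156af284dab)) (.lf (nat_lit 0x8008038214c44bae8a))) (.lf (nat_lit 0x8008168013237f5e59)) (.lf (nat_lit 0x80081283363a2dfddf)) (.lf (nat_lit 0x838562a53774421e08))) (.lf (nat_lit 0x8068248494ad169b10)) (.lf (nat_lit 0x869d2faa695548ac05))) (.lf (nat_lit 0x8126408f6376a8ddbb)) (.lf (nat_lit 0x800735956c07145818)) (.lf (nat_lit 0x800800800dceb61c57)) (.lf (nat_lit 0x8007f582927ccc1b4d)))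
  _ _ _ (by decide +kernel)

noncomputable def g1_10_m50 : GD 1 10 (-50) := chk_sound 
  (.cell (.nd (.lf (nat_lit 0x8007df8322add12b23)) (.lf (nat_lit 0x8047d981b304bf5cd7)) (.lf (nat_lit 0x83868f8e242fe2bae8)) (.lf (nat_lit 0x8007f280c72dcb8e67))) (.nd (.lf (nat_lit 0x80055ac3538b919c43)) (.lf (nat_lit 0x829623b052f4934cf1)) (.lf (nat_lit 0x80080784b571139b60)) (.lf (nat_lit 0x834d13b3e9444a9bdc))) (.lf (nat_lit 0x8175cf8d2342a42d8f)) (.lf (nat_lit 0x800789887300e268ce)) (.lf (nat_lit 0x80782f820d84bbac6d)) (.lf (nat_lit 0x80072496c25ec24b83)))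
  _ _ _ (by decide +kernel)

noncomputable def g1_14_m50 : GD 1 14 (-50) := chk_sound 
  (.cell (.nd (.lf (nat_lit 0x8097bc83e288ce9b22)) (.lf (nat_lit 0x8047dc82034fbffd18)) (.lf (nat_lit 0x8007e4827400e34b12)) (.lf (nat_lit 0x80080b82b8b0c4eeb4))) (.nd (.lf (nat_lit 0x80c4ffc494027fac8b)) (.lf (nat_lit 0x8356a1a0c2c38b9d78)) (.lf (nat_lit 0x80081f8164fa116aa4)) (.lf (nat_lit 0x84bd14b677fc415b58))) (.lf (nat_lit 0x82050c9e43b09b9d7c)) (.lf (nat_lit 0x8077bc8522cee058bc)) (.lf (nat_lit 0x815800800d6ec19c34)) (.lf (nat_lit 0x827669a77291bd1b5b)))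
  _ _ _ (by decide +kernel)

theorem g2_12_m52 : GD 2 12 (-52) :=
  GD.split (i := 1) g1_10_m54 g1_14_m54 g1_10_m50 g1_14_m50 (by decide)

theorem g3_8_m56 : GD 3 8 (-56) :=
  GD.split (i := 2) g2_4_m60 g2_12_m60 g2_4_m52 g2_12_m52 (by decide)

noncomputable def g1_2_m46 : GD 1 2 (-46) := chk_sound 
  (.cell (.nd (.lf (nat_lit 0x8007e0829290d05b06)) (.lf (nat_lit 0x80a7ce8222c2baccca)) (.lf (nat_lit 0x8395a29fe43ddd2a83)) (.lf (nat_lit 0x8007ff82f3d3cbcce8))) (.nd (.lf (nat_lit 0x820585bfc337961c23)) (.nd (.lf (nat_lit 0x8207888bc226952d37)) (.lf (nat_lit 0x816800800266902d9e)) (.lf (nat_lit 0x8008158375b0342e02)) (.lf (nat_lit 0x83765c8ab3316a6dfc))) (.lf (nat_lit 0x8007ff820667149c09)) (.lf (nat_lit 0x87ac1a91b7d52fac85))) (.lf (nat_lit 0x8375ca89d2e6a02d59)) (.lf (nat_lit 0x8057a5875305e318af)) (.lf (nat_lit 0x819a74c41c8d9adc0a)) (.lf (nat_lit 0x8007c982c21ebf1bb5)))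
  _ _ _ (by decide +kernel)

noncomputable def g1_6_m46 : GD 1 6 (-46) := chk_sound 
  (.cell (.nd (.lf (nat_lit 0x8007c5834249c9eb25)) (.lf (nat_lit 0x8007dd82231abc7d11)) (.lf (nat_lit 0x8165db9f83efd9daba)) (.lf (nat_lit 0x83776384837ac88cbd))) (.nd (.lf (nat_lit 0x81e596b822f6911c64)) (.lf (nat_lit 0x8007e680b2458a5d8a)) (.lf (nat_lit 0x80080a83962112cbb6)) (.lf (nat_lit 0x848cd7bb295f4d6bdd))) (.lf (nat_lit 0x8754c68b23039e9cef)) (.lf (nat_lit 0x81078588e2c8dfc898)) (.lf (nat_lit 0x81e938a5acf2b8ec74)) (.lf (nat_lit 0x8087c58291e8b97bb9)))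
  _ _ _ (by decide +kernel)

noncomputable def g1_2_m42 : GD 1 2 (-42) := chk_sound 
  (.cell (.nd (.lf (nat_lit 0x8027c682f1f1c3eb07)) (.lf (nat_lit 0x8007ff81026db1ecd0)) (.nd (.lf (nat_lit 0x80078588e2ebe1a897)) (.lf (nat_lit 0x8027d98302d5d7caaa)) (.lf (nat_lit 0x80080c87e893ff287d)) (.lf (nat_lit 0x80080181bc50c22d51))) (.lf (nat_lit 0x8492a79e04e4b4bb5b))) (.nd (.lf (nat_lit 0x831572bbd2eb8ccc1e)) (.lf (nat_lit 0x80082c8081f37a4d37)) (.lf (nat_lit 0x8008158376c3128bf1)) (.lf (nat_lit 0x88fba79846fb290c2c))) (.lf (nat_lit 0x8c93c08832c59debc4)) (.lf (nat_lit 0x80b570b112e7c8b92a)) (.lf (nat_lit 0x811a55da3b428a3bf7)) (.lf (nat_lit 0x82a6de9b11e9b36b85)))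
  _ _ _ (by decide +kernel)

noncomputable def g1_6_m42 : GD 1 6 (-42) := chk_sound 
  (.cell (.nd (.lf (nat_lit 0x8188008001c7bd9b3a)) (.lf (nat_lit 0x94967b83b280b6cc3e)) (.lf (nat_lit 0x82f5ab975332d06ad6)) (.lf (nat_lit 0x86625ca29567afab6c))) (.nd (.lf (nat_lit 0x8008018062347b4d80)) (.lf (nat_lit 0x83e8008001d0736d00)) (.lf (nat_lit 0x80080884869c10cbb0)) (.lf (nat_lit 0x83bc99c1e80c41ab42))) (.lf (nat_lit 0x85b2c287b34199bb51)) (.lf (nat_lit 0x811406ca83d59d8a62)) (.lf (nat_lit 0x800981bd0beab6ec7b)) (.lf (nat_lit 0x8107b081d175a9dbc5)))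
  _ _ _ (by decide +kernel)

theorem g2_4_m44 : GD 2 4 (-44) :=
  GD.split (i := 1) g1_2_m46 g1_6_m46 g1_2_m42 g1_6_m42 (by decide)

noncomputable def g1_10_m46 : GD 1 10 (-46) := chk_sound 
  (.cell (.nd (.lf (nat_lit 0x8007cb814224c62b38)) (.lf (nat_lit 0x8007ee8152c8bbccc5)) (.lf (nat_lit 0x82c56c9d53eed73ac5)) (.lf (nat_lit 0x8393a99b2468b9bc09))) (.lf (nat_lit 0x8255bbb0930b830d00)) (.lf (nat_lit 0x8524478d93309bdcce)) (.lf (nat_lit 0x80052fb4734bcbf8c6)) (.lf (nat_lit 0x80082d830d06c6ac61)) (.lf (nat_lit 0x8007f08141cab4abd0)))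
  _ _ _ (by decide +kernel)

noncomputable def g1_14_m46 : GD 1 14 (-46) := chk_sound 
  (.cell (.nd (.lf (nat_lit 0x8007e781d215c4fb37)) (.lf (nat_lit 0x8077c481f258b7bc73)) (.lf (nat_lit 0x8246119253b4dc1ab4)) (.lf (nat_lit 0x8048008007b3be4efb))) (.lf (nat_lit 0x8154ffbd1397821c92)) (.lf (nat_lit 0x82f3a09423ab966cbe)) (.lf (nat_lit 0x83b86385f25fd9d8a3)) (.lf (nat_lit 0x800818822cedcdac04)) (.lf (nat_lit 0x800608a9e264b0ab8a)))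
  _ _ _ (by decide +kernel)

noncomputable def g1_10_m42 : GD 1 10 (-42) := chk_sound 
  (.cell (.nd (.lf (nat_lit 0x80e7af82f1c3bb0b5d)) (.lf (nat_lit 0x8004fb85e21caf3b5d)) (.lf (nat_lit 0x83e5a1978364d0bb13)) (.lf (nat_lit 0x836223a54650acabac))) (.lf (nat_lit 0x8256219522c0679d5e)) (.lf (nat_lit 0x88a2218e33e98c3b55)) (.lf (nat_lit 0x8be3aeccc451989a6a)) (.lf (nat_lit 0x800826841c5fd18c57)) (.lf (nat_lit 0x81c80080016aa5bbe0)))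
  _ _ _ (by decide +kernel)

noncomputable def g1_14_m42 : GD 1 14 (-42) := chk_sound 
  (.cell (.nd (.lf (nat_lit 0x8007c3827221c6db22)) (.lf (nat_lit 0x84853c88920faffb6a)) (.lf (nat_lit 0x82956d9aa39fd1db09)) (.lf (nat_lit 0x80080881a971b59f1e))) (.lf (nat_lit 0x8356639ca36e624dd0)) (.lf (nat_lit 0x8781bf8cc44b8a4b23)) (.lf (nat_lit 0x8262f9cfb4f595a9aa)) (.lf (nat_lit 0x80082c820c34db4bb4)) (.lf (nat_lit 0x8007b880e171a45bf7)))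
  _ _ _ (by decide +kernel)

theorem g2_12_m44 : GD 2 12 (-44) :=
  GD.split (i := 1) g1_10_m46 g1_14_m46 g1_10_m42 g1_14_m42 (by decide)

noncomputable def g1_2_m38 : GD 1 2 (-38) := chk_sound 
  (.cell (.nd (.nd (.lf (nat_lit 0x8067c3825163b41b17)) (.lf (nat_lit 0x80d7d1816155ae8b51)) (.lf (nat_lit 0x8007cc8331c4c7da34)) (.lf (nat_lit 0x8007b18301a1bafb1c))) (.lf (nat_lit 0x81842b9a6322ab8bef)) (.nd (.lf (nat_lit 0x812778884254d9187c)) (.lf (nat_lit 0x80d7b384b267d23a76)) (.lf (nat_lit 0x8007ec89295c04596b)) (.lf (nat_lit 0x800683c6d912be9d12))) (.lf (nat_lit 0x84f1fca1958cac5b19))) (.nd (.lf (nat_lit 0x800830817288621d86)) (.lf (nat_lit 0x80484081314769fc19)) (.lf (nat_lit 0x80080c82874b123c0a)) (.lf (nat_lit 0x83fc4ac628ce4a8bcf))) (.lf (nat_lit 0x80074780500f812898)) (.lf (nat_lit 0x820459c0631fa9f9ef)) (.lf (nat_lit 0x80b943dd1a99864ca7)) (.lf (nat_lit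 0x8137b98111289d3bb4)))
  _ _ _ (by decide +kernel)

noncomputable def g1_6_m38 : GD 1 6 (-38) := chk_sound 
  (.cell (.nd (.lf (nat_lit 0x8007c782c1c2bd9b2e)) (.lf (nat_lit 0x8983b68cd2d3aedb09)) (.nd (.lf (nat_lit 0x80b7b3845254d938bb)) (.lf (nat_lit 0x8007dd81226cc7cb90)) (.lf (nat_lit 0x800605ec667ea3fa9e)) (.lf (nat_lit 0x800801818b39c38dfb))) (.lf (nat_lit 0x85a1e0a6a7a3a5ebd8))) (.lf (nat_lit 0x9777709582315a8c86)) (.lf (nat_lit 0x8008bf80c00d7b1851)) (.lf (nat_lit 0x837421c583879e0a8f)) (.lf (nat_lit 0x81a918d55a6ea41cd5)) (.lf (nat_lit 0x8007ae810114981bb3)))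
  _ _ _ (by decide +kernel)

noncomputable def g1_2_m34 : GD 1 2 (-34) := chk_sound 
  (.cell (.nd (.nd (.lf (nat_lit 0x8007aa80710ca2ab4a)) (.lf (nat_lit 0x8007d18040ed9f8b29)) (.lf (nat_lit 0x82e800800186c69996)) (.lf (nat_lit 0x8017d0822165bc2a7a))) (.nd (.lf (nat_lit 0x8007ad81c09c98aa9e)) (.lf (nat_lit 0x84274a80c013870899)) (.lf (nat_lit 0x8e13b48a92b0aabafe)) (.lf (nat_lit 0x93d64482ad64ab1cce))) (.nd (.lf (nat_lit 0x80c7868651cdcd894b)) (.lf (nat_lit 0x8007ff8161fdcbca52)) (.lf (nat_lit 0x8007f8844ad91f6c65)) (.lf (nat_lit 0x8215c6c779c0886dfb))) (.lf (nat_lit 0x8621b1a567ada60b94))) (.nd (.lf (nat_lit 0x80082b83345b31dd2c)) (.lf (nat_lit 0x80081a81511f52baee)) (.lf (nat_lit 0x8008008327e0147c53)) (.lf (nat_lit 0x812bacd7b9d370fc07))) (.lf (nat_lit 0x805872832f2aad3a1a)) (.nd (.lf (nat_lit 0x8384abb9c3256ecbe1)) (.lf (nat_lit 0x8007f983986c152c5f)) (.lf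 (nat_lit 0x82b503b4e25bad8a08)) (.lf (nat_lit 0x8007dd844aca120af8))) (.lf (nat_lit 0x8107d0d459fb760da5)) (.lf (nat_lit 0x80f7b780d10292abb1)))
  _ _ _ (by decide +kernel)

noncomputable def g1_6_m34 : GD 1 6 (-34) := chk_sound 
  (.cell (.nd (.nd (.lf (nat_lit 0x83d8008001459d4be8)) (.lf (nat_lit 0x8007ff80c0ed9c6b48)) (.lf (nat_lit 0x8007ff8081a5be8ae1)) (.lf (nat_lit 0x8007de821179b07b7c))) (.lf (nat_lit 0x84c1539bd558a15a36)) (.nd (.lf (nat_lit 0x8057c88341f2d0097b)) (.lf (nat_lit 0x80d7c982c279c56bd0)) (.lf (nat_lit 0x80e7ab87ca24546f2f)) (.lf (nat_lit 0x800801815a66b44ee5))) (.lf (nat_lit 0x8501ffa5573aa89beb))) (.lf (nat_lit 0x81e9c69af3003ecc0b)) (.lf (nat_lit 0x85f9ac881e93b57a87)) (.nd (.lf (nat_lit 0x8008018133b8482dc8)) (.lf (nat_lit 0x80080080086619dccc)) (.lf (nat_lit 0x804404c2f36196eaae)) (.lf (nat_lit 0x80b7be860c961aa99a))) (.lf (nat_lit 0x80985cc9c9d3a03df0))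 (.lf (nat_lit 0x8007b38060c481eb65)))
  _ _ _ (by decide +kernel)

theorem g2_4_m36 : GD 2 4 (-36) :=
  GD.split (i := 1) g1_2_m38 g1_6_m38 g1_2_m34 g1_6_m34 (by decide)

noncomputable def g1_10_m38 : GD 1 10 (-38) := chk_sound 
  (.cell (.nd (.lf (nat_lit 0x8288008001daba5b95)) (.lf (nat_lit 0x8001ec946424a37a5e)) (.lf (nat_lit 0x8234beab03c5be1ba1)) (.lf (nat_lit 0x8572a4a29704afac8b))) (.lf (nat_lit 0x84d757945233507c66)) (.lf (nat_lit 0x846a0682104978580b)) (.lf (nat_lit 0x83536ec87494943b0b)) (.lf (nat_lit 0x813889a4ab32d7bc44)) (.lf (nat_lit 0x8087b581011694fbca)))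
  _ _ _ (by decide +kernel)

noncomputable def g1_14_m38 : GD 1 14 (-38) := chk_sound 
  (.cell (.nd (.lf (nat_lit 0x8007c9838250c9db33)) (.lf (nat_lit 0x87b1469705489e7a53)) (.nd (.lf (nat_lit 0x8097ca84e38fdd5b2d)) (.lf (nat_lit 0x8007ea82846ec34dca)) (.lf (nat_lit 0x8007ff81c885eb6c51)) (.lf (nat_lit 0x802817824ac3cd7dbc))) (.lf (nat_lit 0x852332a076fdb20d16))) (.lf (nat_lit 0x8006cf93336e4c7d76)) (.lf (nat_lit 0x8258ab81bfd99138da)) (.lf (nat_lit 0x8ab2f4cc8519933a4f)) (.lf (nat_lit 0x80480e823ad6efaaaf)) (.lf (nat_lit 0x80c7ef80411f950bdc)))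
  _ _ _ (by decide +kernel)

noncomputable def g1_10_m34 : GD 1 10 (-34) := chk_sound 
  (.cell (.nd (.lf (nat_lit 0x8273d29b2381b72b64)) (.lf (nat_lit 0x88d0969d08b28f5a00)) (.nd (.lf (nat_lit 0x8176be93332cc4cc60)) (.lf (nat_lit 0x80078186a561ae8ef2)) (.lf (nat_lit 0x80077b912982899fbe)) (.lf (nat_lit 0x800801826a37b3bef9))) (.lf (nat_lit 0x83529eab4ac0928c54))) (.lf (nat_lit 0x8f66df88537529bb6e)) (.nd (.lf (nat_lit 0x80f91e872f5bae383b)) (.lf (nat_lit 0x827918c5bd369d3ba6)) (.lf (nat_lit 0x81583f812f85a009d3)) (.lf (nat_lit 0x80082881adec9dad0b))) (.nd (.lf (nat_lit 0x83f67aa164315b9e21)) (.lf (nat_lit 0x8007f68258b6158c5f)) (.lf (nat_lit 0x800515b46366a23c5c)) (.lf (nat_lit 0x81c48cc77a74437b6d))) (.lf (nat_lit 0x825671c24c9b878cca)) (.lf (nat_lit 0x82d8008000bf7edb5c)))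
  _ _ _ (by decide +kernel)

noncomputable def g1_14_m34 : GD 1 14 (-34) := chk_sound 
  (.cell (.nd (.nd (.lf (nat_lit 0x8007bf81a27fb20ce2)) (.lf (nat_lit 0x8007d1808162a3ebe3)) (.lf (nat_lit 0x8047db829307cbfc15)) (.lf (nat_lit 0x8007e480d459beedee))) (.lf (nat_lit 0x87617397eb8489aa6d)) (.nd (.lf (nat_lit 0x8007ff82647cd7bca4)) (.lf (nat_lit 0x80080f81d8ffb49f39)) (.lf (nat_lit 0x80879c8eab240b985d)) (.lf (nat_lit 0x81673e959ad9903f3e))) (.nd (.lf (nat_lit 0x813800800c32a5ce63)) (.lf (nat_lit 0x800826809da48d8d9b)) (.lf (nat_lit 0x800800800c00851eeb)) (.lf (nat_lit 0x80082c80bcc58a1e63)))) (.lf (nat_lit 0x8b86ea85944f21cbb7)) (.nd (.lf (nat_lit 0x80a85e82508556f91d)) (.lf (nat_lit 0x836d19a919dd426b9c)) (.lf (nat_lit 0x8198c0820fd295c897)) (.lf (nat_lit 0x800a548a8dc06b9cd7))) (.lf (nat_lit 0x822291c915a78f7aab)) (.lf (nat_lit 0x81b770af3bc2344c4a)) (.lf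 (nat_lit 0x8007d680c0c9896b65)))
  _ _ _ (by decide +kernel)

theorem g2_12_m36 : GD 2 12 (-36) :=
  GD.split (i := 1) g1_10_m38 g1_14_m38 g1_10_m34 g1_14_m34 (by decide)

theorem g3_8_m40 : GD 3 8 (-40) :=
  GD.split (i := 2) g2_4_m44 g2_12_m44 g2_4_m36 g2_12_m36 (by decide)

noncomputable def g1_2_m30 : GD 1 2 (-30) := chk_sound 
  (.cell (.nd (.nd (.lf (nat_lit 0x8007c68080e1a1daf4)) (.lf (nat_lit 0x8007c980c0968d4adf)) (.nd (.nd (.lf (nat_lit 0x8007a483e134bd79ae)) (.lf (nat_lit 0x80c79d8230f0abea87)) (.lf (nat_lit 0x8007d582b15dc44948)) (.lf (nat_lit 0x81079a83b13dbe49b2))) (.lf (nat_lit 0x80d7a882e10ab39a3a)) (.lf (nat_lit 0x80c772865187c938d0)) (.lf (nat_lit 0x8007ef82217ec3d9e6))) (.lf (nat_lit 0x80f7bd82915fc159cd))) (.lf (nat_lit 0x85a0df94b6069caa19)) (.nd (.lf (nat_lit 0x80e7a98441e8d1a8c5)) (.lf (nat_lit 0x82141ca9c322baba34)) (.lf (nat_lit 0x8007e080ab12357dba))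 (.lf (nat_lit 0x81f669a98a78785ef5))) (.lf (nat_lit 0x8691cea5b7eea6abbf))) (.nd (.lf (nat_lit 0x80081283a47d28fcb0)) (.lf (nat_lit 0x80d86383b1703a594e)) (.lf (nat_lit 0x8007f881a863195cc1)) (.lf (nat_lit 0x814b5cd328164bcbe0))) (.lf (nat_lit 0x8268c7849d63c4bbfa)) (.nd (.lf (nat_lit 0x8417db84d44f2f2cf6)) (.lf (nat_lit 0x80b8008008c719ecc1)) (.nd (.lf (nat_lit 0x8007b580d0e79c9b36)) (.lf (nat_lit 0x82c377c503839149db)) (.lf (nat_lit 0x8007a781f0e7a0fb09)) (.lf (nat_lit 0x82d502ad31ffaf8976))) (.lf (nat_lit 0x8007ef815ad1138b2a))) (.lf (nat_lit 0x8007ceb12a1f6deefb)) (.lf (nat_lit 0x80083680e0cf72cb64)))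
  _ _ _ (by decide +kernel)

noncomputable def g1_6_m30 : GD 1 6 (-30) := chk_sound 
  (.cell (.nd (.nd (.lf (nat_lit 0x8007c781318b916c96)) (.lf (nat_lit 0x8007c580c09a8b1af2)) (.lf (nat_lit 0x8067a98321a3c3ea4e)) (.lf (nat_lit 0x8007c881926ab2ecc1))) (.lf (nat_lit 0x8a30fd936add8d9a00)) (.nd (.lf (nat_lit 0x80e7b38331aec9a9a4)) (.lf (nat_lit 0x81f58c9eb3dabd7cb9)) (.lf (nat_lit 0x8007ed80fa265d1f63)) (.lf (nat_lit 0x800800800a738b2f95))) (.nd (.lf (nat_lit 0x800800818babb02e70)) (.lf (nat_lit 0x837800800e288cad0a)) (.lf (nat_lit 0x80581f803d3283ce13)) (.lf (nat_lit 0x81e800800d9f88bda9)))) (.nd (.lf (nat_lit 0x80082f8374492c9cc9)) (.lf (nat_lit 0x80086583f198372965)) (.lf (nat_lit 0x8007f88418571c4cfe)) (.lf (nat_lit 0x8008018586c0045995))) (.nd (.lf (nat_lit 0x801837826ef2bcd917)) (.lf (nat_lit 0x800983a86e955f6acc)) (.lf (nat_lit 0x80784581deefb1da78)) (.lf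 (nat_lit 0x81b7d2807eb1752c52))) (.nd (.lf (nat_lit 0x8007ff80c4f1347daf)) (.lf (nat_lit 0x8007fe81c8a223cd81)) (.lf (nat_lit 0x8383acbc53fb831bd8)) (.lf (nat_lit 0x80051fb479803c0cf6))) (.lf (nat_lit 0x8007ff80fd2256ed91)) (.lf (nat_lit 0x83c8008000bb6a1b07)))
  _ _ _ (by decide +kernel)

noncomputable def g1_2_m26 : GD 1 2 (-26) := chk_sound 
  (.cell (.nd (.nd (.nd (.lf (nat_lit 0x80084b80910f6a5bb9)) (.lf (nat_lit 0x80085b8110bb6d0b18)) (.lf (nat_lit 0x8057ab82d11ab9a9cd)) (.lf (nat_lit 0x8007b38060ca829b71))) (.lf (nat_lit 0x83a80080006f7c3a91)) (.nd (.lf (nat_lit 0x8007c482a130bef968)) (.lf (nat_lit 0x8007ad81e125bb39c6)) (.lf (nat_lit 0x8067598831afcd0871)) (.lf (nat_lit 0x80b793844131be2981))) (.lf (nat_lit 0x8b073e849171c079e5))) (.nd (.lf (nat_lit 0x817911847fa99fd84b)) (.lf (nat_lit 0x80082180ce5ebe2ae2)) (.lf (nat_lit 0xa49bc180ae339889f6)) (.lf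 (nat_lit 0x80081e81ecfebe6ce1))) (.nd (.lf (nat_lit 0x81275b89120dd3d89c)) (.nd (.lf (nat_lit 0x8067a7841187c8792b)) (.lf (nat_lit 0x8027cc8271ffc83abc)) (.lf (nat_lit 0x8037dc821c5b388d00)) (.lf (nat_lit 0x80881880baa8937f72))) (.lf (nat_lit 0x8007e080eb0843ae5e)) (.lf (nat_lit 0x808800800afd743f62))) (.lf (nat_lit 0x821289a31b2c928c3a))) (.nd (.lf (nat_lit 0x800822824497204c0f)) (.lf (nat_lit 0x81388f8731f02ea8e6)) (.lf (nat_lit 0x8007f38388bb201d3d)) (.nd (.lf (nat_lit 0x800802836778195cbd)) (.nd (.lf (nat_lit 0x816cdcdcaa6a8498f3)) (.lf (nat_lit 0x81188b857eb4c4589b)) (.lf (nat_lit 0x8aecbb9b2b5637ea9b)) (.lf (nat_lit 0x89fb289c8e2b52ea1b))) (.lf (nat_lit 0x8057ed823a3e3ede81)) (.lf (nat_lit 0x8007b9825f06513a71)))) (.nd (.lf (nat_lit 0x800820810e3fc8ba11)) (.lf (nat_lit 0x817800800f666c6ac6)) (.lf (nat_lit 0x8007ff80cdd6c23b93)) (.lf (nat_lit 0x800820804e98841c84)))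 (.nd (.lf (nat_lit 0x8007ff82a58d1eac92)) (.lf (nat_lit 0x8007ee82790620ad3b)) (.nd (.lf (nat_lit 0x8604a6b54419488bc7)) (.lf (nat_lit 0x852515aad52d2fdbe2)) (.lf (nat_lit 0x817584a6e186a779f6)) (.lf (nat_lit 0x8264f0ad41fbae7960))) (.lf (nat_lit 0x8007e483aabb174baf))) (.lf (nat_lit 0x825800800d39595d8d)) (.lf (nat_lit 0x80585682212a578b45)))
  _ _ _ (by decide +kernel)

noncomputable def g1_6_m26 : GD 1 6 (-26) := chk_sound 
  (.cell (.nd (.nd (.lf (nat_lit 0x800800800239a3cd0f)) (.lf (nat_lit 0x83679b803065817a6e)) (.lf (nat_lit 0x8007a3840143c0a96d)) (.lf (nat_lit 0x8009dd844399b33d8d))) (.lf (nat_lit 0x9294bc870de19f0bab)) (.nd (.lf (nat_lit 0x82c196c748d4797972)) (.lf (nat_lit 0x80080781198698dfb2)) (.lf (nat_lit 0x8047ea8119fa617f83)) (.lf (nat_lit 0x8007e7813b21681f35))) (.nd (.lf (nat_lit 0x8007b2805ec77e6c3c)) (.lf (nat_lit 0x848800800f186dbb80)) (.lf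 (nat_lit 0x8007ff816e5a647c8b)) (.lf (nat_lit 0x8007ef814ef06abbbf)))) (.nd (.lf (nat_lit 0x80082c83e46f210bfd)) (.lf (nat_lit 0x80084a84d20d2c48fd)) (.lf (nat_lit 0x8007f783189225eda5)) (.nd (.lf (nat_lit 0x80080682776013ec3a)) (.nd (.lf (nat_lit 0x8008238262fb1f296e)) (.lf (nat_lit 0x80288986a191352870)) (.lf (nat_lit 0x8a1b009ba8dc1a6b3e)) (.nd (.lf (nat_lit 0xc46b88829b043aca50)) (.nd (.lf (nat_lit 0x8008588291273f58c0)) (.lf (nat_lit 0x81d8d686c0f046586b)) (.nd (.lf (nat_lit 0x8da99186814644a942)) (.lf (nat_lit 0x8008708390d24a78f9)) (.lf (nat_lit 0xaf2cc9839a9f395a6f)) (.lf (nat_lit 0xa04dec84db1a49c9e6))) (.nd (.lf (nat_lit 0x8108658310ac4ed8c5)) (.lf (nat_lit 0x81688f83809552489c)) (.lf (nat_lit 0xb15d1d84ecd862191e)) (.lf (nat_lit 0x8e07a1801ff080082b)))) (.lf (nat_lit 0x8bdbe484ec64360abd)) (.nd (.nd (.lf (nat_lit 0xb5ec4b846adb38aa75)) (.lf (nat_lit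 0x9f9c43855d4d4d19e2)) (.lf (nat_lit 0x8007aa833ed4473a23)) (.lf (nat_lit 0x8007c4811e7e409a74))) (.nd (.nd (.lf (nat_lit 0x8d39ad829f7563994a)) (.lf (nat_lit 0x822766822fbe67c925)) (.lf (nat_lit 0x8107cb810f7f5af987)) (.lf (nat_lit 0x80e77a830f7b5b298a))) (.nd (.lf (nat_lit 0x81575281bfdd7028ce)) (.lf (nat_lit 0x800771817fe37148c2)) (.lf (nat_lit 0x81b79f817fb364c944)) (.lf (nat_lit 0x8177b580efbb66893e))) (.lf (nat_lit 0x8007f1817f2d5049e1)) (.nd (.lf (nat_lit 0x80079b817f7d5b398e)) (.lf (nat_lit 0x8007d3806f7f5b4990)) (.lf (nat_lit 0x82c800800f2c5089ea)) (.lf (nat_lit 0x8027af81df6d5949ae)))) (.lf (nat_lit 0x80079b823ee64cda71)) (.lf (nat_lit 0x8007c3813f044c1a08))))) (.lf (nat_lit 0x8007e183aa16242d28)) (.lf (nat_lit 0x80e7b882fe4c3c8a87)))) (.nd (.lf (nat_lit 0x808882851ec9c238a8)) (.nd (.nd (.lf (nat_lit 0x81185c82ff37b6c817)) (.nd (.lf (nat_lit 0x85798581bfd3887814))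 (.lf (nat_lit 0x8007d281cf7f5b498f)) (.lf (nat_lit 0x85888b806ff584885d)) (.lf (nat_lit 0x8147aa81df805cb9a4))) (.lf (nat_lit 0x81b8b9845f79aa38bd)) (.lf (nat_lit 0x81277d820f8a5f49a0))) (.lf (nat_lit 0x8007b1824e6a46fb29)) (.lf (nat_lit 0x800798821f845f29c0)) (.lf (nat_lit 0x8007c580aef2595b22))) (.lf (nat_lit 0x80082b809efdb629e8)) (.lf (nat_lit 0x8077a6816f4f655ac3))) (.nd (.lf (nat_lit 0x80081e82c5282e4d74)) (.lf (nat_lit 0x8007f382e8a2323e51)) (.lf (nat_lit 0x817800800378803e97)) (.lf (nat_lit 0x81080080090f519f60))) (.lf (nat_lit 0x8007c5811dbb488c5d)) (.lf (nat_lit 0x804836821140454a33)))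
  _ _ _ (by decide +kernel)

theorem g2_4_m28 : GD 2 4 (-28) :=
  GD.split (i := 1) g1_2_m30 g1_6_m30 g1_2_m26 g1_6_m26 (by decide)

noncomputable def g1_10_m30 : GD 1 10 (-30) := chk_sound 
  (.cell (.nd (.lf (nat_lit 0x85f1b4aba54ea46a13)) (.lf (nat_lit 0x85528d8edcc78feb14)) (.nd (.lf (nat_lit 0x8006849304eebcee0a)) (.lf (nat_lit 0x81a79186a95ba46f86)) (.lf (nat_lit 0x818800800a6264ff72)) (.lf (nat_lit 0x8007da809b5c6d7f2a))) (.nd (.lf (nat_lit 0x8007f8809da77a0da5)) (.lf (nat_lit 0x842800800ea76f7c4f)) (.lf (nat_lit 0x813800800df2656d15)) (.lf (nat_lit 0x8007cd814e526b3cb8)))) (.nd (.lf (nat_lit 0x80782983841e290c63)) (.lf (nat_lit 0x80986284f1c035d9c6)) (.lf (nat_lit 0x8007f583d88217fc9f)) (.lf (nat_lit 0x8509278b67870f6b80))) (.nd (.lf (nat_lit 0x834ae296b16c4ca80a)) (.nd (.lf (nat_lit 0x9c3bf2881d624cea6b)) (.lf (nat_lit 0x85b9d0ac1c1731cb83)) (.lf (nat_lit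 0x81b79b826f4557aa22)) (.lf (nat_lit 0x812800800e3c518c14))) (.lf (nat_lit 0x80a88b831f75a78962)) (.lf (nat_lit 0x80f7c380ff14612b2c))) (.nd (.lf (nat_lit 0x8258008004ad3f7e0d)) (.lf (nat_lit 0x8007ef83690d1f7d23)) (.lf (nat_lit 0x81a6d09f13ffa0fe35)) (.lf (nat_lit 0x824554b68934732e91))) (.lf (nat_lit 0x8067e9814ced3f6cd5)) (.lf (nat_lit 0x8008208090936a2aa1)))
  _ _ _ (by decide +kernel)

noncomputable def g1_14_m30 : GD 1 14 (-30) := chk_sound 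
  (.cell (.nd (.lf (nat_lit 0x821134baf8238f99ca)) (.lf (nat_lit 0x85a4698d0dea92dbbb)) (.nd (.lf (nat_lit 0x8224babf38de9aedd7)) (.lf (nat_lit 0x81b800800aae88af84)) (.lf (nat_lit 0x819800800c412f9c89)) (.lf (nat_lit 0x8007d7812c8746cd89))) (.nd (.lf (nat_lit 0x800800800d6f860ddb)) (.lf (nat_lit 0x800800800ead6e1c42)) (.lf (nat_lit 0x8007e581bd16564d97)) (.lf (nat_lit 0x8007cd817dd762ed26)))) (.lf (nat_lit 0x80080a8365ac15cbcb)) (.nd (.lf (nat_lit 0x80088d83a0d34b591f)) (.nd (.lf (nat_lit 0x800d5d93c9f33bab69)) (.lf (nat_lit 0x8408208379101f0d18)) (.lf (nat_lit 0xd49800800d1e5d7a46)) (.lf (nat_lit 0x8007c1824d4843bcab))) (.lf (nat_lit 0x800832817fb1a1d885)) (.lf (nat_lit 0x8007b180fed163bbc7))) (.lf (nat_lit 0x80c6d3a663a5d57b0e)) (.lf (nat_lit 0x8097d083ac11315cd0)) (.lf (nat_lit 0x855d9295e2fd8b4a4f)))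
  _ _ _ (by decide +kernel)

noncomputable def g1_10_m26 : GD 1 10 (-26) := chk_sound 
  (.cell (.nd (.lf (nat_lit 0x857111b3590c893a04)) (.lf (nat_lit 0x85475e82ae8c960c52)) (.nd (.lf (nat_lit 0x8078008007d2a5cfa4)) (.lf (nat_lit 0x800800800aa583cf8b)) (.lf (nat_lit 0x8057ef80aa50650f78)) (.lf (nat_lit 0x8067e2818c0355de65))) (.nd (.lf (nat_lit 0x8007e3806e5b784cd4)) (.lf (nat_lit 0x8007bb810f45707b2d)) (.lf (nat_lit 0x830800800deb562cb2)) (.lf (nat_lit 0x8007e1808e8b5adbf7)))) (.nd (.lf (nat_lit 0x81c80080046b17daf3)) (.lf (nat_lit 0x80083583c22b2b695d)) (.lf (nat_lit 0x80080182b8cd216d52)) (.nd (.lf (nat_lit 0x800808829740165c71)) (.lf (nat_lit 0x96cce3881c95474a0d)) (.lf (nat_lit 0x80080182b9f220bcf7)) (.lf (nat_lit 0x80a7d182dd2c313b97)))) (.nd (.lf (nat_lit 0x8129938e8145416823)) (.nd (.lf (nat_lit 0xc024f2829d21528a09)) (.lf (nat_lit 0x8007c8829e1d41ab5d))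 (.lf (nat_lit 0x8007ff806f9b61f99a)) (.lf (nat_lit 0x8007ba822e7e4c3b5a))) (.lf (nat_lit 0x80d88d83df4bafd936)) (.lf (nat_lit 0x8007bb819f31621af1))) (.lf (nat_lit 0x80e73e98a6ff82ffbf)) (.lf (nat_lit 0x80a7d681fd6c453c95)) (.lf (nat_lit 0x844e0ec7a7a59b1a0e)))
  _ _ _ (by decide +kernel)

noncomputable def g1_14_m26 : GD 1 14 (-26) := chk_sound 
  (.cell (.nd (.lf (nat_lit 0x84b1e0b6facf828a95)) (.lf (nat_lit 0x86964487cdf39a8cbc)) (.lf (nat_lit 0x80052ba81c1b7d0dba)) (.lf (nat_lit 0x800800800ed7665bd2))) (.nd (.lf (nat_lit 0x80082d8604ce0cb946)) (.lf (nat_lit 0x80084d84823c2d29ed)) (.lf (nat_lit 0x8007f183393d188c88)) (.lf (nat_lit 0x8009218387fb1ead0f))) (.lf (nat_lit 0xc6ea27816d1553da7e)) (.lf (nat_lit 0x81e466db56cbafdad5)) (.lf (nat_lit 0x8007e9828cb93eacfe)) (.lf (nat_lit 0x80b850853d8ad93969)))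
  _ _ _ (by decide +kernel)

theorem g2_12_m28 : GD 2 12 (-28) :=
  GD.split (i := 1) g1_10_m30 g1_14_m30 g1_10_m26 g1_14_m26 (by decide)

noncomputable def g1_2_m22 : GD 1 2 (-22) := chk_sound 
  (.cell (.nd (.nd (.nd (.lf (nat_lit 0x85973e9d321b3f1af4)) (.lf (nat_lit 0x8397d298220f36ba4d)) (.nd (.lf (nat_lit 0x829636ace1616c1abc)) (.lf (nat_lit 0x84c66fb3c1a8624ab2)) (.nd (.lf (nat_lit 0x83e51bbc41ef84ca1d)) (.lf (nat_lit 0x846551bd11de82aa1f)) (.lf (nat_lit 0x842456b9d22f93c970)) (.lf (nat_lit 0x83d69f966118b4b939))) (.lf (nat_lit 0x80079b8210c3af09a9))) (.lf (nat_lit 0x861773a480d9950a55))) (.lf (nat_lit 0x84b8f89cc0ae8b4a5f)) (.nd (.nd (.nd (.nd (.lf (nat_lit 0x8312a8d835ee8b1877)) (.lf (nat_lit 0x8117808440fab9f916)) (.lf (nat_lit 0x80877c8cec5515d877)) (.lf (nat_lit 0x80878f87023dd82824))) (.lf (nat_lit 0x8207a284f0f4b8f92c)) (.lf (nat_lit 0x80e7838accba19c843))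 (.lf (nat_lit 0x80b7b2837192cb787a))) (.lf (nat_lit 0x8007a981e0f3b9192d)) (.lf (nat_lit 0x81076d8ac2badf280b)) (.lf (nat_lit 0x8007c682c107bc98f5))) (.lf (nat_lit 0x80079383d0f8b94936)) (.lf (nat_lit 0x8007ae84521dd6186c)) (.lf (nat_lit 0x81277d8420f6b9092c))) (.lf (nat_lit 0x80e80080014dbe99f1))) (.lf (nat_lit 0x8c373681fe6aa7dbed)) (.nd (.lf (nat_lit 0x80c783861e222ea847)) (.lf (nat_lit 0x846175bf39558649e2)) (.lf (nat_lit 0x8007ed822afd4cdeb1)) (.lf (nat_lit 0x8007ff813b8a620eec))) (.nd (.lf (nat_lit 0x800800800e80784ca2)) (.lf (nat_lit 0x81c800800f187bebae)) (.lf (nat_lit 0x844800800e556decbf)) (.lf (nat_lit 0x829800800efb73abd2)))) (.nd (.lf (nat_lit 0x8078298574ea169b4c)) (.lf (nat_lit 0x80e89188c25b2718c0)) (.lf (nat_lit 0x8008008358e326ada7)) (.nd (.lf (nat_lit 0x80080182e7a1212d5a)) (.nd (.lf (nat_lit 0x80086b8491b934d97c)) (.lf (nat_lit 0x80085c8310a64eb87b))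 (.nd (.lf (nat_lit 0x9a41fb8b49a141fa9d)) (.nd (.lf (nat_lit 0x81387281a05963c96f)) (.lf (nat_lit 0x8258c081b0236c9831)) (.lf (nat_lit 0x8e41e4890bf05529ae)) (.lf (nat_lit 0x81a782822fac60c900))) (.lf (nat_lit 0x8007ec830b55268ca4)) (.lf (nat_lit 0x83b800800f5f551989))) (.nd (.lf (nat_lit 0x82374882cfc16608c9)) (.lf (nat_lit 0x8be7be801ff47fd844)) (.lf (nat_lit 0x815766824fa660a91a)) (.lf (nat_lit 0x81a781820fa861f93c)))) (.lf (nat_lit 0x800800800a5e381e2d)) (.nd (.lf (nat_lit 0x8007d8821cea333c17)) (.lf (nat_lit 0x8007c5806f5f5679ad)) (.lf (nat_lit 0x800800800b92439e14)) (.lf (nat_lit 0x8007cc816d7b412c4b))))) (.nd (.lf (nat_lit 0x80086884fe58cab949)) (.lf (nat_lit 0x81578681efa763c96c)) (.lf (nat_lit 0x80083a82fe81bdaa98)) (.lf (nat_lit 0x8007b480af8868ca3e))) (.nd (.lf (nat_lit 0x8008148335f1146bcc)) (.lf (nat_lit 0x8007f181c927284db4)) (.nd (.lf (nat_lit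 0x80081e8375020fca64)) (.lf (nat_lit 0x8007ff847793159c69)) (.lf (nat_lit 0x85d348cd94376e5997)) (.lf (nat_lit 0x8316899abc4f1aa887))) (.lf (nat_lit 0x8057e9836b0c18cb9a))) (.lf (nat_lit 0x8007dd81ae7d4dfb78)) (.lf (nat_lit 0x80084083627c26f98f)))
  _ _ _ (by decide +kernel)

noncomputable def g1_6_m22 : GD 1 6 (-22) := chk_sound 
  (.cell (.nd (.lf (nat_lit 0x85a0faae5793944a16)) (.lf (nat_lit 0x81284b80eef492fbc2)) (.nd (.lf (nat_lit 0x80080a80e8538c5ff4)) (.lf (nat_lit 0x8058138109c7921fb7)) (.lf (nat_lit 0x8008008009da64ef98)) (.lf (nat_lit 0x826800800b7b5e0ee1))) (.nd (.lf (nat_lit 0x81e800800e8a7a1c96)) (.lf (nat_lit 0x8007b5811f6f732ad2)) (.lf (nat_lit 0x80c7cb812e695bbc34)) (.lf (nat_lit 0x8107bb813edd607b97)))) (.nd (.lf (nat_lit 0x80082a84e4d6152b09)) (.lf (nat_lit 0x8008568652732528c7)) (.lf (nat_lit 0x80080182a8902eee28)) (.nd (.lf (nat_lit 0x80080883c790195cbf))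 (.nd (.lf (nat_lit 0x8008518412222f69fe)) (.lf (nat_lit 0x8168a384b0dc48a8b1)) (.lf (nat_lit 0x9e92a583fc735119c6)) (.nd (.lf (nat_lit 0x800779814f9e5ec924)) (.lf (nat_lit 0x80075b810fdb7008e8)) (.lf (nat_lit 0x80079082df6b584997)) (.lf (nat_lit 0x818775829f9a5f2945)))) (.lf (nat_lit 0x8007f681ba842a9d65)) (.lf (nat_lit 0x80078682bf445279ac)))) (.nd (.lf (nat_lit 0x8118b8870ec9c2086b)) (.nd (.lf (nat_lit 0x8177ad810fc469a940)) (.lf (nat_lit 0x80879982ef12512a47)) (.lf (nat_lit 0x81b800800fde72e92b)) (.lf (nat_lit 0x8007c1820ef4557ae8))) (.lf (nat_lit 0x80085f81cf19b4b99b)) (.lf (nat_lit 0x861800800f6f672a7a))) (.lf (nat_lit 0x80b92ba915276e4ed5)) (.lf (nat_lit 0x8007f0816e144bdc0b)) (.lf (nat_lit 0x800859869cd3e3894f)))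
  _ _ _ (by decide +kernel)

noncomputable def g1_2_m18 : GD 1 2 (-18) := chk_sound 
  (.cell (.nd (.nd (.lf (nat_lit 0x828a89c832a9a8b97a)) (.lf (nat_lit 0x80181c84ea39f00b26)) (.lf (nat_lit 0x8017e981b30ee27945)) (.lf (nat_lit 0x8007da823497e0abfa))) (.lf (nat_lit 0x80084481cee19e5b9a)) (.nd (.lf (nat_lit 0x8003cdcd2b925bba47)) (.lf (nat_lit 0x81f340c43a378b0c39)) (.lf (nat_lit 0x800800800b0652aed7)) (.lf (nat_lit 0x8007de81ebf05c2e97))) (.nd (.lf (nat_lit 0x8007d280aee2797c0c)) (.lf (nat_lit 0x8007d7803f547edb32)) (.lf (nat_lit 0x800800800e63681c93)) (.lf (nat_lit 0x8007d5810f1671cb98)))) (.nd (.lf (nat_lit 0x80081c8315630e3a8b)) (.lf (nat_lit 0x80087387929a2328d3)) (.lf (nat_lit 0x80080181d8eb2b0de8)) (.nd (.lf (nat_lit 0x8698088396c8201d21)) (.nd (.lf (nat_lit 0x80884d82b18b3f5a68)) (.lf (nat_lit 0x8008478140a65068fa)) (.lf (nat_lit 0x96b1a688cb865899ac))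 (.lf (nat_lit 0x81976b81ffc466f8e8))) (.lf (nat_lit 0x80080181ea6f333dea)) (.nd (.lf (nat_lit 0x80d7c081cf3c546a06)) (.lf (nat_lit 0x8007d4802fa161c976)) (.lf (nat_lit 0x8007da823c2e38bd28)) (.lf (nat_lit 0x8007c181ce8e498b0d))))) (.lf (nat_lit 0x846800800fc06c8986)) (.nd (.lf (nat_lit 0x800817859692091a8e)) (.lf (nat_lit 0x80080080093a2ede0f)) (.lf (nat_lit 0x8007d58935f0fac8b0)) (.lf (nat_lit 0x8007de834b4220dc3b))) (.lf (nat_lit 0x8007a281aec7501afc)) (.lf (nat_lit 0x80783485fc13eb7971)))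
  _ _ _ (by decide +kernel)

noncomputable def g1_6_m18 : GD 1 6 (-18) := chk_sound 
  (.cell (.nd (.lf (nat_lit 0x861198a6faed8acacd)) (.lf (nat_lit 0x80084481aef59c4b84)) (.nd (.lf (nat_lit 0x8008088078608e8ff0)) (.lf (nat_lit 0x8008008009fb8f7fb0)) (.lf (nat_lit 0x8108008009c966ffa3)) (.lf (nat_lit 0x8007dd81cb9c5d4ecc))) (.lf (nat_lit 0x800800800f5d6ccae1))) (.nd (.lf (nat_lit 0x80081e86a55b0dba65)) (.lf (nat_lit 0x80687a8872b221a8b6)) (.lf (nat_lit 0x800800800870349e72)) (.nd (.lf (nat_lit 0x80080a8157321c3cf0)) (.nd (.lf (nat_lit 0x80080080c1733ce9da)) (.lf (nat_lit 0x81085982109b5158c7)) (.lf (nat_lit 0xd9d654819c505419df)) (.lf (nat_lit 0x81178d81cfb1645941))) (.lf (nat_lit 0x8007df828a972d9d8a)) (.lf (nat_lit 0x8007cd818f5658da05)))) (.nd (.lf (nat_lit 0x80d88785ce9ec6f84b)) (.lf (nat_lit 0x8007b3817faa6709a2)) (.lf (nat_lit 0x80d83e824eefbb596e)) (.lf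 (nat_lit 0x8007c1812fae70b9ff))) (.lf (nat_lit 0x80b80080074a74fff0)) (.lf (nat_lit 0x8077b6827e3e515c0c)) (.lf (nat_lit 0x80082b841b94ecba37)))
  _ _ _ (by decide +kernel)

theorem g2_4_m20 : GD 2 4 (-20) :=
  GD.split (i := 1) g1_2_m22 g1_6_m22 g1_2_m18 g1_6_m18 (by decide)

noncomputable def g1_10_m22 : GD 1 10 (-22) := chk_sound 
  (.cell (.nd (.lf (nat_lit 0x8531d4ac7b52830aa5)) (.lf (nat_lit 0x800849817edb97ebd4)) (.lf (nat_lit 0x838800800d337c6e12)) (.lf (nat_lit 0x8007c3814f1f65eb3e))) (.nd (.lf (nat_lit 0x80582485e5060cc9bf)) (.lf (nat_lit 0x80c86a87928f249922)) (.lf (nat_lit 0x8007ff82c8c62aade8)) (.nd (.lf (nat_lit 0x8008048497591accd7)) (.nd (.lf (nat_lit 0x80684284a326270b0e)) (.lf (nat_lit 0x80082d81017c3bf9d5)) (.lf (nat_lit 0x9dad6182bba347ba70)) (.lf (nat_lit 0xd2f9e9820c9751da02))) (.lf (nat_lit 0x8047f3826a63286d51)) (.lf (nat_lit 0x8137a482def64fea82))))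 (.nd (.lf (nat_lit 0x8168c588315c3a581a)) (.nd (.lf (nat_lit 0x80b784819f9d62f990)) (.lf (nat_lit 0x80e7be81bebd4d2ae4)) (.lf (nat_lit 0x8007aa805fd270594f)) (.lf (nat_lit 0x8007d080fefa542ac7))) (.lf (nat_lit 0x80087582cf1bb6d938)) (.lf (nat_lit 0x841800800f75686a78))) (.lf (nat_lit 0x8006cda16704876f8d)) (.lf (nat_lit 0x8007de80ddb84aac7c)) (.lf (nat_lit 0x80083583ec6ae629e7)))
  _ _ _ (by decide +kernel)

noncomputable def g1_14_m22 : GD 1 14 (-22) := chk_sound 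
  (.cell (.nd (.lf (nat_lit 0x8313dcaebc5f845c5f)) (.lf (nat_lit 0x800833819e4e9fac80)) (.lf (nat_lit 0x831591a35c5d7f5dd7)) (.lf (nat_lit 0x833800800ea8649c15))) (.nd (.lf (nat_lit 0x80082787d5520888d9)) (.lf (nat_lit 0x8038478402962669c4)) (.lf (nat_lit 0x8037f38329721efd01)) (.nd (.lf (nat_lit 0x8018058286f11fcd29)) (.lf (nat_lit 0xa4eca785a92538ebfa)) (.lf (nat_lit 0x8007eb8209fb2a2d96)) (.lf (nat_lit 0x80f800800a88279d32)))) (.lf (nat_lit 0xbf2b3b818d18574a58)) (.lf (nat_lit 0x81c3b3de97d1942afc)) (.lf (nat_lit 0x8097e081bd0f485d1f)) (.lf (nat_lit 0x80082982bc6be649e1)))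
  _ _ _ (by decide +kernel)

noncomputable def g1_10_m18 : GD 1 10 (-18) := chk_sound 
  (.cell (.nd (.lf (nat_lit 0x84968a8aade889cd1b)) (.lf (nat_lit 0x800833809ea0a2fbe8)) (.lf (nat_lit 0x80081a802cb1830e79)) (.lf (nat_lit 0x815800800f3d6d0b2f))) (.nd (.lf (nat_lit 0x80082387f58509699a)) (.lf (nat_lit 0x80585485f2c920b902)) (.lf (nat_lit 0x8007f582e88d30ce41)) (.nd (.lf (nat_lit 0x80080e82470b1d0cf9)) (.lf (nat_lit 0xc43c0183ec3a52e9f9)) (.lf (nat_lit 0x8007ff82ba6b2c9d8f)) (.lf (nat_lit 0xa1e6e481fecd57aa5e)))) (.nd (.lf (nat_lit 0x82aa969cfe07c3380b)) (.lf (nat_lit 0x84f816820f9b67d9ec)) (.lf (nat_lit 0x800877848ef2baf95c)) (.lf (nat_lit 0x8007ba812f91701a5f))) (.lf (nat_lit 0x80a75190b6e68c5fc9)) (.lf (nat_lit 0x8007c2815dcb4fac9b)) (.lf (nat_lit 0x80081e832b77ed0a57)))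
  _ _ _ (by decide +kernel)

noncomputable def g1_14_m18 : GD 1 14 (-18) := chk_sound 
  (.cell (.nd (.lf (nat_lit 0x8363a1b53bdd8dac41)) (.lf (nat_lit 0x800844817e11adec58)) (.lf (nat_lit 0x82d488aefc3f828d06)) (.lf (nat_lit 0x8007d6809edd7a5c16))) (.nd (.lf (nat_lit 0x80682487e5a607b945)) (.lf (nat_lit 0x8218008002ce22c9b9)) (.lf (nat_lit 0x8007eb823956234d58)) (.nd (.lf (nat_lit 0x80d8008006ae227d4b)) (.lf (nat_lit 0x800e3b8c1938477b43)) (.lf (nat_lit 0x8007e98249ed2f3de4)) (.lf (nat_lit 0x907d028b8bb24a1b81)))) (.lf (nat_lit 0xae2c3b80fd5b62aa63)) (.lf (nat_lit 0x8253d9d78a7756fa08)) (.lf (nat_lit 0x80e800800d20500d5b)) (.lf (nat_lit 0x813800800bd6ec39df)))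
  _ _ _ (by decide +kernel)

theorem g2_12_m20 : GD 2 12 (-20) :=
  GD.split (i := 1) g1_10_m22 g1_14_m22 g1_10_m18 g1_14_m18 (by decide)

theorem g3_8_m24 : GD 3 8 (-24) :=
  GD.split (i := 2) g2_4_m28 g2_12_m28 g2_4_m20 g2_12_m20 (by decide)

noncomputable def g1_2_m14 : GD 1 2 (-14) := chk_sound 
  (.cell (.nd (.nd (.lf (nat_lit 0x801804843847e62cce)) (.lf (nat_lit 0x80080083a953e62ca1)) (.lf (nat_lit 0x8007e08534a8ea7ae6)) (.lf (nat_lit 0x8008008008b1d68dda))) (.lf (nat_lit 0x80080180bec8a7db6e)) (.nd (.lf (nat_lit 0x82c39fcdea0e89ec10)) (.lf (nat_lit 0x80f800800b44885f48)) (.lf (nat_lit 0x8007ff814b62569ec5)) (.lf (nat_lit 0x823800800c445b5e5d))) (.lf (nat_lit 0x8007d1808f567b7b2a))) (.nd (.lf (nat_lit 0x80081e8645e5094a11)) (.lf (nat_lit 0x80084083d2a0234927)) (.lf (nat_lit 0x8007f88258ec2c4df9)) (.nd (.lf (nat_lit 0x800807841624215d0b)) (.nd (.lf (nat_lit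 0x8008418241af3f5ac3)) (.lf (nat_lit 0x8008218220d44e09a5)) (.lf (nat_lit 0x9ca176854b3a5fb9d7)) (.lf (nat_lit 0x82f6dc80cfe67a9852))) (.lf (nat_lit 0x8007ff82ea382c9da4)) (.lf (nat_lit 0x9d52b6845cf15b79b4)))) (.lf (nat_lit 0x800792812fd272295c)) (.lf (nat_lit 0x8106b2d54932420c2d)) (.lf (nat_lit 0x819800800efe54eaca)) (.lf (nat_lit 0x800817821afdf09a58)))
  _ _ _ (by decide +kernel)

noncomputable def g1_6_m14 : GD 1 6 (-14) := chk_sound 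
  (.cell (.nd (.lf (nat_lit 0x80071a847e938f6c5a)) (.lf (nat_lit 0x800839811e73b08b9f)) (.lf (nat_lit 0x80081e808dfa871d4b)) (.lf (nat_lit 0x8007ab80ff75748ac7))) (.nd (.lf (nat_lit 0x8008218475ad0e2acb)) (.lf (nat_lit 0x81088a8942b221f8c9)) (.lf (nat_lit 0x8007f6822852366e88)) (.nd (.lf (nat_lit 0x8138008006811d0cd7)) (.nd (.lf (nat_lit 0x80a85583615f3e39b6)) (.lf (nat_lit 0x80f8a384a0b44e88cc)) (.lf (nat_lit 0x800dd5866c8159c9f4)) (.lf (nat_lit 0x80078f806ff77dd88a))) (.lf (nat_lit 0x8007e5828a4d253d24)) (.lf (nat_lit 0xa10a7e834eb65d49ec)))) (.lf (nat_lit 0x80077a80bfcb718975)) (.lf (nat_lit 0x800800800755788ff5)) (.lf (nat_lit 0x8007ff816e99536b8e)) (.lf (nat_lit 0x80080183cab2efeac8)))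
  _ _ _ (by decide +kernel)

noncomputable def g1_2_m10 : GD 1 2 (-10) := chk_sound 
  (.cell (.nd (.nd (.lf (nat_lit 0x8008018297acdf3d55)) (.lf (nat_lit 0x80080883e884e18d26)) (.lf (nat_lit 0x8007f183f74fd83dc0)) (.lf (nat_lit 0x8007ff832863d41e04))) (.lf (nat_lit 0x80081e816e6fb4ab6c)) (.nd (.lf (nat_lit 0x82f3dac36ad68b6c86)) (.lf (nat_lit 0x80080e80bb648f1f2f)) (.lf (nat_lit 0x8007dc807c72596e31)) (.lf (nat_lit 0x820800800c985d2e2c))) (.lf (nat_lit 0x800820806f5b81db22))) (.nd (.lf (nat_lit 0x800801834638087a36)) (.lf (nat_lit 0x80084b85728127b9c1)) (.lf (nat_lit 0x8008018208fb2a6ddc)) (.lf (nat_lit 0xacee2484aac7583a18))) (.lf (nat_lit 0x898800800fe4810927)) (.lf (nat_lit 0x800550d51984795d1a)) (.lf (nat_lit 0x8027e9806f6c606a39)) (.lf (nat_lit 0x837855866a74f19ab1)))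
  _ _ _ (by decide +kernel)

noncomputable def g1_6_m10 : GD 1 6 (-10) := chk_sound 
  (.cell (.nd (.lf (nat_lit 0x800849810e229ebcc1)) (.lf (nat_lit 0x80084b81ae5bb64b76)) (.lf (nat_lit 0x839800800db18d3d8e)) (.lf (nat_lit 0x8007d8809f40780b55))) (.nd (.lf (nat_lit 0x80080d82c574203ca5)) (.lf (nat_lit 0x80081b82726f25a902)) (.lf (nat_lit 0x800800800849350e79)) (.nd (.lf (nat_lit 0x80081580a5f41bfc8b)) (.nd (.lf (nat_lit 0x8008508251a037c9ac)) (.lf (nat_lit 0x80d8958500f745a8d6)) (.lf (nat_lit 0x91ce708ea5914c9a0c)) (.lf (nat_lit 0x8138b384009053a89d))) (.lf (nat_lit 0x8007f582f9b7266d71)) (.lf (nat_lit 0x893cfe8e2d555afa07)))) (.lf (nat_lit 0x869800800fe381d940)) (.lf (nat_lit 0x80080a80d76c73dff1)) (.lf (nat_lit 0x80b7b881eef558bb12)) (.lf (nat_lit 0x80080a838a7bf0ead3)))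
  _ _ _ (by decide +kernel)

theorem g2_4_m12 : GD 2 4 (-12) :=
  GD.split (i := 1) g1_2_m14 g1_6_m14 g1_2_m10 g1_6_m10 (by decide)

noncomputable def g1_10_m14 : GD 1 10 (-14) := chk_sound 
  (.cell (.nd (.lf (nat_lit 0x80080b80ad229e5dd5)) (.lf (nat_lit 0x800800800e6cadfbce)) (.lf (nat_lit 0x811800800c65859eac)) (.lf (nat_lit 0x824800800eff713bc2))) (.nd (.lf (nat_lit 0x80082484059b0e0ab7)) (.lf (nat_lit 0x80286486c2c920b8f7)) (.lf (nat_lit 0x8007f982184f328e5b)) (.nd (.lf (nat_lit 0x8007ff81e6841d1cd9)) (.lf (nat_lit 0xb49d56865bab558a02)) (.lf (nat_lit 0x8007e7835a1029fd8b)) (.lf (nat_lit 0x80f7b3817f5a5d6a43)))) (.lf (nat_lit 0x8007ac80ffbe72b9ca)) (.lf (nat_lit 0x8008018016ec7f7fed)) (.lf (nat_lit 0x821800800e2953dc49)) (.lf (nat_lit 0x80281f83fae3efea94)))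
  _ _ _ (by decide +kernel)

noncomputable def g1_14_m14 : GD 1 14 (-14) := chk_sound 
  (.cell (.nd (.lf (nat_lit 0x8202edbbeaf099ab9b)) (.lf (nat_lit 0x80b840837d5ac18c4c)) (.lf (nat_lit 0x82e574a86d0e70bcf6)) (.lf (nat_lit 0x800812809e7b85acac))) (.nd (.lf (nat_lit 0x8008018455b90aaa35)) (.lf (nat_lit 0x8008018212d022c9bf)) (.lf (nat_lit 0x809800800905247d7e)) (.nd (.lf (nat_lit 0x80080183765222ed38)) (.lf (nat_lit 0x967e4d8ec77a489b07)) (.lf (nat_lit 0x80080080097f307e15)) (.lf (nat_lit 0x8e8d6b92fb6a4d7b47)))) (.lf (nat_lit 0x8e8cc388adac6b1a82)) (.lf (nat_lit 0x8007ef826ba510c983)) (.lf (nat_lit 0x8007f4810ce954edb5)) (.lf (nat_lit 0x80082a836bbcedd9ae)))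
  _ _ _ (by decide +kernel)

noncomputable def g1_10_m10 : GD 1 10 (-10) := chk_sound 
  (.cell (.nd (.lf (nat_lit 0x800801825aa9c07e60)) (.lf (nat_lit 0x80682d822dd3bdabe4)) (.lf (nat_lit 0x823800800c408e3eb7)) (.lf (nat_lit 0x8007ba803ed87eec21))) (.nd (.lf (nat_lit 0x80080983e5541d6c55)) (.lf (nat_lit 0x80080b826283246900)) (.lf (nat_lit 0x8007fa82f82930fe49)) (.nd (.lf (nat_lit 0x80380e8396181b5c8c)) (.nd (.lf (nat_lit 0x80083f83a2202e19c2)) (.lf (nat_lit 0x8118988631493c88be)) (.lf (nat_lit 0x898cd38b634e45ea23)) (.lf (nat_lit 0x81787a83d0c64b88d0))) (.lf (nat_lit 0x800801816967262d84)) (.lf (nat_lit 0x89bc7c960daa5a59fd)))) (.lf (nat_lit 0x80e7b7803fbb7a49fe)) (.lf (nat_lit 0x8007c69e26ba7d4faa)) (.lf (nat_lit 0x827800800e68556bf9)) (.lf (nat_lit 0x806824861ac9efdaaf)))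
  _ _ _ (by decide +kernel)

noncomputable def g1_14_m10 : GD 1 14 (-10) := chk_sound 
  (.cell (.nd (.nd (.lf (nat_lit 0x85114cb489bd99c997)) (.lf (nat_lit 0x8582b4a17d5386a9b3)) (.lf (nat_lit 0x8341beb30b8a859965)) (.lf (nat_lit 0x84a391b667c4c00c14))) (.lf (nat_lit 0x80082f823cc8cb0c5e)) (.lf (nat_lit 0x8006179fad586bad1f)) (.lf (nat_lit 0x802800800dc395dd60))) (.nd (.lf (nat_lit 0x80581684859b112b2e)) (.lf (nat_lit 0x80083e82b2952689cb)) (.lf (nat_lit 0x8008018318b0236d79)) (.nd (.lf (nat_lit 0x80080781b60b215d02)) (.lf (nat_lit 0x80080182828a2f3aee)) (.lf (nat_lit 0x8007f68158e32dce10)) (.lf (nat_lit 0x88edc097aa944c8b60)))) (.lf (nat_lit 0x82ecbd946db0748aa4)) (.lf (nat_lit 0x80b7b28793a0eaa845)) (.lf (nat_lit 0x800800800c77560e18)) (.nd (.lf (nat_lit 0x8028488ac4db0b88b7)) (.lf (nat_lit 0x80081e80e24f263825)) (.lf (nat_lit 0x97f907845694f2daa8)) (.lf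 (nat_lit 0x80e800800d46d81a6b))))
  _ _ _ (by decide +kernel)

theorem g2_12_m12 : GD 2 12 (-12) :=
  GD.split (i := 1) g1_10_m14 g1_14_m14 g1_10_m10 g1_14_m10 (by decide)

noncomputable def g2_4_m4 : GD 2 4 (-4) := chk_sound 
  (.cell (.nd (.nd (.nd (.lf (nat_lit 0x8007df80843ad42cb2)) (.lf (nat_lit 0x8087da82b373c88cc3)) (.lf (nat_lit 0x8007c783332ad51b7f)) (.lf (nat_lit 0x8007f481d6f9cc5e56))) (.nd (.lf (nat_lit 0xa93db385c5f4b3bb2d)) (.lf (nat_lit 0x87dec491164ca70ad2)) (.lf (nat_lit 0x80080182d746cf3e3d)) (.lf (nat_lit 0x8007fa8287ead5adf1))) (.nd (.lf (nat_lit 0x8246579172a3d0ba68)) (.lf (nat_lit 0x8007f1816718d90dac)) (.lf (nat_lit 0x82251fa95380cefa18)) (.lf (nat_lit 0x8007ed81a679e62c91))) (.lf (nat_lit 0x80080382981ac91e90))) (.lf (nat_lit 0x800239871c6a9c8ac9)) (.nd (.lf (nat_lit 0x8146da8cf197c91826)) (.lf (nat_lit 0x84163f986c02a37e21)) (.lf (nat_lit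 0x80a78e83bec5447a01)) (.lf (nat_lit 0x8007c9819eda625bad))) (.lf (nat_lit 0x800833809f54871b2a))) (.nd (.lf (nat_lit 0x840659bab5ec1c9a2f)) (.lf (nat_lit 0x8088678572072ed980)) (.lf (nat_lit 0x8007e0853a30121b71)) (.nd (.lf (nat_lit 0x80080c8214d3179b5a)) (.lf (nat_lit 0x9dcee98b19ca55b97c)) (.nd (.lf (nat_lit 0x8007ff82e8ad217d58)) (.lf (nat_lit 0x953d9a90c7cd354ace)) (.lf (nat_lit 0x8007ff821998265d7a)) (.lf (nat_lit 0x800800800d22312ba6))) (.nd (.lf (nat_lit 0x947e368d4bdf5bd9b8)) (.nd (.lf (nat_lit 0x82f93684bfac9dd828)) (.lf (nat_lit 0x80aa338bc0bf590805)) (.lf (nat_lit 0x800868804fee8128f2)) (.lf (nat_lit 0x80b89c814fdb93a897))) (.nd (.nd (.lf (nat_lit 0x8007e181ebe0274c42)) (.nd (.lf (nat_lit 0x8007d5831dac39cb87)) (.lf (nat_lit 0x925a25865db03f3b1a)) (.lf (nat_lit 0x8007d5838c732c8c1b)) (.lf (nat_lit 0x9078ea850db23abb48))) (.lf (nat_lit 0x8007e2831a95208ca6))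 (.lf (nat_lit 0x8ee904850da439ab49))) (.lf (nat_lit 0x8d4daa8a4cdc5f49b9)) (.nd (.lf (nat_lit 0x8007ef83ea2520dce4)) (.lf (nat_lit 0x8007d7831d31345bd1)) (.lf (nat_lit 0x8007e782ba3222dd05)) (.lf (nat_lit 0x8007d982ecdf318c03))) (.nd (.nd (.lf (nat_lit 0x8f58e585ada0393b4d)) (.nd (.lf (nat_lit 0x912944871dad3b6b3a)) (.lf (nat_lit 0x94fa2c88bda7403b10)) (.lf (nat_lit 0x8dc945868da73a7b41)) (.lf (nat_lit 0x86ca1e882db23e3b1c))) (.lf (nat_lit 0x8007d8817d6f36bba9)) (.lf (nat_lit 0x91ca53894da23ffb0a))) (.lf (nat_lit 0x926cb98bbd6f5a0a27)) (.nd (.lf (nat_lit 0x8067d9825d2934cbe5)) (.lf (nat_lit 0x859a6e899da43f0b0a)) (.lf (nat_lit 0x8007d6811d21344be6)) (.lf (nat_lit 0x8cca2889cd9e3d6b11))) (.lf (nat_lit 0x8a8cb18bbd7c588a31)))) (.nd (.lf (nat_lit 0x8aac938dfe2c6c697e)) (.lf (nat_lit 0x800830802fee817902)) (.nd (.lf (nat_lit 0x922cd88d2da261d9cd)) (.lf (nat_lit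 0x897c19912e5c6739ae)) (.lf (nat_lit 0x8bccd48c8d9c5f49f5)) (.lf (nat_lit 0x90bcbb8d2dd06439bc))) (.lf (nat_lit 0x8dacd68e3de368f986)))))) (.lf (nat_lit 0x829889807fe584391d)) (.lf (nat_lit 0x8007818611f5d1591a)) (.nd (.lf (nat_lit 0x8007df834d6a353b91)) (.nd (.lf (nat_lit 0x800800813ba32c0cd0)) (.lf (nat_lit 0x8d7c6b8fcdfe6269da)) (.lf (nat_lit 0x800800800d4e3f9c6d)) (.lf (nat_lit 0x80078e815f9b6f9a34))) (.lf (nat_lit 0x8007db824e1e46ebb5)) (.lf (nat_lit 0x8007e2810f6e6d6ab7))) (.nd (.lf (nat_lit 0x814ac4be12b19ffb04)) (.lf (nat_lit 0x80b8458401ea2e58d6)) (.lf (nat_lit 0x88edb79774a6b89a42)) (.lf (nat_lit 0x84ae8ba9d8f8abea67))))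
  _ _ _ (by decide +kernel)

noncomputable def g1_10_m6 : GD 1 10 (-6) := chk_sound 
  (.cell (.nd (.lf (nat_lit 0x80080182d992c9de57)) (.lf (nat_lit 0x80083b825dc4c51b77)) (.lf (nat_lit 0x800828813c129b2eac)) (.lf (nat_lit 0x80080180ce7c8eac97))) (.nd (.lf (nat_lit 0x80081883052928bd1b)) (.lf (nat_lit 0x8028138182302a091e)) (.lf (nat_lit 0x8008018348242e4e26)) (.lf (nat_lit 0x8b2e0e9fdb2254aa63))) (.lf (nat_lit 0x854bc194fea48449f8)) (.lf (nat_lit 0x81c77dabf4db94aeae)) (.lf (nat_lit 0x820800800eb3590b9f)) (.lf (nat_lit 0x800bbcad07edd95b4f)))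
  _ _ _ (by decide +kernel)

noncomputable def g1_14_m6 : GD 1 14 (-6) := chk_sound 
  (.cell (.nd (.nd (.nd (.nd (.lf (nat_lit 0x8007f7828468e98abe)) (.lf (nat_lit 0x80077f851122bea90e)) (.lf (nat_lit 0x8027ae85f2cfddd98b)) (.lf (nat_lit 0x8007ff820426e7baaa))) (.nd (.lf (nat_lit 0x88d33892b2adb348e6)) (.lf (nat_lit 0x99e13a8f88e2b3e9cc)) (.lf (nat_lit 0x80877684710abbf90b)) (.lf (nat_lit 0x8694438ff1d9b2f8e8))) (.nd (.lf (nat_lit 0x8007b484c2c3dec91f)) (.lf (nat_lit 0x80a7b484d2b2dba9af)) (.lf (nat_lit 0x8087ba858329e4a8e1)) (.lf (nat_lit 0x8007a886c2dddf1967))) (.lf (nat_lit 0x81176e859121be3916))) (.lf (nat_lit 0x84c2c79c8d7d8549c9)) (.nd (.lf (nat_lit 0x80c79185ce6b34684d)) (.lf (nat_lit 0x8007ff823121c038c9)) (.lf (nat_lit 0x8067a08812f9e2a887)) (.lf (nat_lit 0x83b209caa83e9d89c3))) (.lf (nat_lit 0x85529eadc66cc06ad5))) (.lf (nat_lit 0x80082e836c8fca2ca7))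 (.lf (nat_lit 0x83d800800dbf686d5c)) (.lf (nat_lit 0x800800800d08a44dca))) (.nd (.lf (nat_lit 0x80081c826583160bb8)) (.lf (nat_lit 0x80080182223c2c59d3)) (.lf (nat_lit 0x80080180887c21ed65)) (.lf (nat_lit 0x84ddb7a6388c431b45))) (.lf (nat_lit 0x857c40a18dc7819ad5)) (.nd (.lf (nat_lit 0x80080b84a77f0ceb71)) (.lf (nat_lit 0x8007ec820964248d6a)) (.nd (.lf (nat_lit 0x8007fa83e59bf8a925)) (.lf (nat_lit 0x8007d9855a66122b4e)) (.lf (nat_lit 0x80c7808601cfcf88ba)) (.lf (nat_lit 0x8077c5867c5714f857))) (.lf (nat_lit 0x8007e8817b8e33ed5b))) (.lf (nat_lit 0x809800800cae5e4e22)) (.nd (.lf (nat_lit 0x8008278463bf1859f0)) (.lf (nat_lit 0x8178cf8a51c431d858)) (.nd (.lf (nat_lit 0x8be9e692c6a5f31a35)) (.lf (nat_lit 0x80082082abffe9ea09)) (.nd (.lf (nat_lit 0x8007f583f4fcec3b03)) (.lf (nat_lit 0x93edd686572ecfc9a2)) (.lf (nat_lit 0x8007dd82d499eb6ab3)) (.lf (nat_lit 0xb8b1d388a82db57956)))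 (.lf (nat_lit 0x8d3a1a8879f3eadb32))) (.lf (nat_lit 0x80b858848dbbcfea73))))
  _ _ _ (by decide +kernel)

noncomputable def g1_10_m2 : GD 1 10 (-2) := chk_sound 
  (.cell (.nd (.lf (nat_lit 0x8007ff821919c84e82)) (.lf (nat_lit 0x80b82c825d99c6ab9e)) (.lf (nat_lit 0x80b82980cbe08e7ef0)) (.lf (nat_lit 0x800830812e19993ced))) (.lf (nat_lit 0x82edd6b3080a4069f9)) (.lf (nat_lit 0x83f90e8c2f37ab59ae)) (.lf (nat_lit 0x800612be254ba3cdbb)) (.lf (nat_lit 0x8087bf80ff1a63cb37)) (.lf (nat_lit 0x85ec7fa8373ccd1bad)))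
  _ _ _ (by decide +kernel)

noncomputable def g1_14_m2 : GD 1 14 (-2) := chk_sound 
  (.cell (.nd (.nd (.nd (.lf (nat_lit 0x8007d784c52ee24c44)) (.lf (nat_lit 0x8007ef83b5f6e0fccd)) (.lf (nat_lit 0x8007de8164c3e51bae)) (.lf (nat_lit 0x8058008005b2e1fc9a))) (.lf (nat_lit 0x8392e29fcd1896fa67)) (.nd (.lf (nat_lit 0x8007c4857417e86a70)) (.lf (nat_lit 0x80080180f524e78bbb)) (.lf (nat_lit 0x800800800d24281ab5)) (.lf (nat_lit 0x82a3cacc3878b52b81))) (.lf (nat_lit 0x82f5f09b695dc72ded))) (.lf (nat_lit 0x80782d834c1ccc9ce9)) (.lf (nat_lit 0x800800800d3669dde8)) (.lf (nat_lit 0x80082d81ece6a6cdd6))) (.lf (nat_lit 0x822c7ea8e5fc32bb22)) (.lf (nat_lit 0x823ca1b4ecaf918ae8)) (.nd (.lf (nat_lit 0x80080582b7e90e3ba6)) (.lf (nat_lit 0x8007ec835958241d65)) (.lf (nat_lit 0x8017d285a455f0490e)) (.lf (nat_lit 0x8007ec832b7031dd50))) (.lf (nat_lit 0x8007dd816d075bbdca)) (.nd (.lf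 (nat_lit 0x80a84887a42413198c)) (.lf (nat_lit 0x81891a8d71b5345831)) (.lf (nat_lit 0x82985a89a60eeddb8b)) (.lf (nat_lit 0x80982f834d3bd3cb05))))
  _ _ _ (by decide +kernel)

theorem g2_12_m4 : GD 2 12 (-4) :=
  GD.split (i := 1) g1_10_m6 g1_14_m6 g1_10_m2 g1_14_m2 (by decide)

theorem g3_8_m8 : GD 3 8 (-8) :=
  GD.split (i := 2) g2_4_m12 g2_12_m12 g2_4_m4 g2_12_m4 (by decide)

end Pool.Agent.P.MP_f12b6c_an.Dg
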