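import Pool.Agent.P.MP_f12b6c_an.T3DgDef

/-! Certificates for the diagonal statement. -/

set_option maxRecDepth 100000
set_option linter.defProp false

namespace Pool.Agent.P.MP_f12b6c_an.Dg

noncomputable def g1_2_2 : GD 1 2 2 := chk_sound 
  (.cell (.nd (.lf (nat_lit 0x800806814849d70ddb)) (.lf (nat_lit 0x80082580fccccbdc4c)) (.lf (nat_lit 0x8512a3b3bba795cb14)) (.lf (nat_lit 0x800838819ea7988c29))) (.nd (.lf (nat_lit 0x82b6d6a1363f131af9)) (.lf (nat_lit 0x8008318243462d0bd4)) (.lf (nat_lit 0x8017e683ea8e167bb8)) (.nd (.lf (nat_lit 0x80080382c5a5214cd4)) (.lf (nat_lit 0x8008098303e4284c1e)) (.lf (nat_lit 0x8007ff8268ba224d64)) (.lf (nat_lit 0x80081e8355971c2c60)))) (.lf (nat_lit 0x812869827f60a979a1)) (.lf (nat_lit 0x8007b885836de74916)) (.nd (.lf (nat_lit 0x8007dd82ad5a2f2b1e)) (.lf (nat_lit 0x8a4bd5962de6608ae1)) (.lf (nat_lit 0x8007c582ae2f49abc1)) (.lf (nat_lit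 0x8007c5810e916dfc6b))) (.lf (nat_lit 0x84cc5dae44c4b8cbab)))
  _ _ _ (by decide +kernel)

noncomputable def g1_6_2 : GD 1 6 2 := chk_sound 
  (.cell (.lf (nat_lit 0x8817b0836d93aeece4)) (.nd (.lf (nat_lit 0x800801831546306da2)) (.lf (nat_lit 0x80584b848297287a23)) (.lf (nat_lit 0x80880080089d2eae24)) (.nd (.lf (nat_lit 0x80080183b5731bdc44)) (.lf (nat_lit 0x800801819282290a0d)) (.lf (nat_lit 0x8027f98318a820ed4e)) (.lf (nat_lit 0x80a84c8532ea268a92)))) (.lf (nat_lit 0x80f86e83af23b4796d)) (.lf (nat_lit 0x80c78e9057e9726fe0)) (.lf (nat_lit 0x87cace8ebed56b5a95)) (.lf (nat_lit 0x84198a9aa9c4f06a83)))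
  _ _ _ (by decide +kernel)

noncomputable def g1_2_6 : GD 1 2 6 := chk_sound 
  (.cell (.nd (.lf (nat_lit 0x8007f18346f6dbdd78)) (.lf (nat_lit 0x80081c814c29cc7ce1)) (.lf (nat_lit 0x84f309aebd0b7c5a49)) (.lf (nat_lit 0x80283380ce62966c9b))) (.nd (.lf (nat_lit 0x80280a8466f6072a64)) (.lf (nat_lit 0x8007ff80a3e029fc3e)) (.nd (.lf (nat_lit 0x8007d6871ada0e0a33)) (.lf (nat_lit 0x8007f582e87b10ebee)) (.lf (nat_lit 0x8077a4848e20350a10)) (.nd (.lf (nat_lit 0x8007e5815ba11bdb66)) (.lf (nat_lit 0x8007e88379d81f4ce5)) (.lf (nat_lit 0x8007d483adb2337aec)) (.nd (.lf (nat_lit 0x800800800bdc280c56)) (.lf (nat_lit 0x8007f7821a16284d6f)) (.lf (nat_lit 0x8007cb830df73cab40)) (.lf (nat_lit 0x8007ff822c1030dcca))))) (.nd (.lf (nat_lit 0x80081d81b58425dd19)) (.lf (nat_lit 0x80081083146f2bacd6)) (.lf (nat_lit 0x8007ff835a702d4d97)) (.lf (nat_lit 0x830814840610275d6c)))) (.lf (nat_lit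 0x819887834f73aa191a)) (.lf (nat_lit 0x80d76a881e202ed847)) (.nd (.lf (nat_lit 0x80e7a682ee92442a93)) (.lf (nat_lit 0x8b6be78d2d755adb84)) (.lf (nat_lit 0x8007af81eee04c1a75)) (.lf (nat_lit 0x8057d1806e1e722d13))) (.lf (nat_lit 0x83aa1fb7e72cdfcb47)))
  _ _ _ (by decide +kernel)

noncomputable def g1_6_6 : GD 1 6 6 := chk_sound 
  (.cell (.lf (nat_lit 0x80083c812ddaa76cdc)) (.nd (.lf (nat_lit 0x80080c84564515ac16)) (.lf (nat_lit 0x80983784934020fa71)) (.lf (nat_lit 0x8007f18258b22f8e2d)) (.nd (.lf (nat_lit 0x800826835523226ca2)) (.lf (nat_lit 0x8007ff81e2aa2bface)) (.lf (nat_lit 0x800800800846299de4)) (.lf (nat_lit 0x8008298222c52f8b5a)))) (.lf (nat_lit 0x81485c81ef61a849bd)) (.lf (nat_lit 0x81a5aeac09cd725edc)) (.nd (.lf (nat_lit 0x8057e1819bba490e2f)) (.lf (nat_lit 0x85bb43908e5870fb51)) (.lf (nat_lit 0x8007ff815c135d5e88)) (.lf (nat_lit 0x81a7c380ae59740ccd))) (.lf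 (nat_lit 0x83694ca1b7ebef7b0c)))
  _ _ _ (by decide +kernel)

theorem g2_4_4 : GD 2 4 4 :=
  GD.split (i := 1) g1_2_2 g1_6_2 g1_2_6 g1_6_6 (by decide)

noncomputable def g1_10_2 : GD 1 10 2 := chk_sound 
  (.cell (.nd (.lf (nat_lit 0x8007ff82f82ecbfe6f)) (.lf (nat_lit 0x80082d835ce3cecbf9)) (.lf (nat_lit 0x80080c810c398f0eba)) (.lf (nat_lit 0x820800800e1c974cf3))) (.nd (.lf (nat_lit 0x80081981f599204cba)) (.lf (nat_lit 0x80b866869264284971)) (.lf (nat_lit 0x8007f682984d2cfe13)) (.lf (nat_lit 0x85e9448922da2b6ab9))) (.lf (nat_lit 0x80cc4ca3bdce99aa10)) (.lf (nat_lit 0x800612c93739929e1d)) (.lf (nat_lit 0x84d88d83df4a715b16)) (.lf (nat_lit 0x80080c8589c3f2bb0f)))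
  _ _ _ (by decide +kernel)

noncomputable def g1_14_2 : GD 1 14 2 := chk_sound 
  (.cell (.nd (.nd (.lf (nat_lit 0x8007f281c606e73c4b)) (.lf (nat_lit 0x8007f383175fe2cd0b)) (.lf (nat_lit 0x822418c186cfc65b58)) (.lf (nat_lit 0x8007ff823823d57df3))) (.lf (nat_lit 0x8007ff81ab45d2cd26)) (.lf (nat_lit 0x82c756889cde763e42)) (.lf (nat_lit 0x807829812d859e8d76))) (.lf (nat_lit 0x800d539f959844ab7c)) (.lf (nat_lit 0x841c2997edb4978b1c)) (.lf (nat_lit 0x82536ee4682d8e99b1)) (.lf (nat_lit 0x88fb2291bd68651c89)) (.lf (nat_lit 0x813924af1830ea5b22)))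
  _ _ _ (by decide +kernel)

noncomputable def g1_10_6 : GD 1 10 6 := chk_sound 
  (.cell (.lf (nat_lit 0x800835809d86a7dd38)) (.nd (.lf (nat_lit 0x80081485971308eabf)) (.lf (nat_lit 0x8008018293151e1982)) (.lf (nat_lit 0x80680080085b2f5e32)) (.lf (nat_lit 0x871b098f8385359b73))) (.lf (nat_lit 0x80084d820f52abe9a7)) (.lf (nat_lit 0x8165c7cd18fd717dd6)) (.lf (nat_lit 0x882bd891ee13708b23)) (.lf (nat_lit 0x8149139207e6f31b21)))
  _ _ _ (by decide +kernel)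

noncomputable def g1_14_6 : GD 1 14 6 := chk_sound 
  (.cell (.nd (.lf (nat_lit 0x8336b8991959c95e16)) (.lf (nat_lit 0x80082182cc0fca6d15)) (.lf (nat_lit 0x81d7d6804d037b2e39)) (.lf (nat_lit 0x800800800dbb8aad8a))) (.lf (nat_lit 0x80781c81b2cd37fc13)) (.lf (nat_lit 0x82b9ed8b5f35a329b8)) (.lf (nat_lit 0x8007ff815b1114ab15)) (.lf (nat_lit 0x85fc9e974c796a9c50)) (.lf (nat_lit 0x80080183a742f12ba8)))
  _ _ _ (by decide +kernel)

theorem g2_12_4 : GD 2 12 4 :=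
  GD.split (i := 1) g1_10_2 g1_14_2 g1_10_6 g1_14_6 (by decide)

noncomputable def g0_1_9 : GD 0 1 9 := chk_sound 
  (.cell (.nd (.lf (nat_lit 0x8017f681f678e58c9f)) (.lf (nat_lit 0x8018118239b5c29e9d)) (.lf (nat_lit 0x80044dabae10727a51)) (.lf (nat_lit 0x80083280bd7a875dcf))) (.nd (.lf (nat_lit 0x8047adc0388f11d806)) (.lf (nat_lit 0x81e80080047b2d4cfb)) (.nd (.lf (nat_lit 0x8087c8880b370c690b)) (.lf (nat_lit 0x8007ff823773145c48)) (.lf (nat_lit 0x80b7be83fd9531daf7)) (.lf (nat_lit 0x8007ff828d8b334b31))) (.lf (nat_lit 0x8007ff8346de2d3dfd))) (.lf (nat_lit 0x82bb5d8e59c567ced0)) (.lf (nat_lit 0x80f74f889e3b318889)) (.nd (.lf (nat_lit 0x816800800e6e42aacf)) (.lf (nat_lit 0x8007d8822c6f519dfd)) (.lf (nat_lit 0x8007b1807f0d509a50)) (.lf (nat_lit 0x8007de809db671ed87))) (.lf (nat_lit 0x8007fc831729eecbe9)))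
  _ _ _ (by decide +kernel)

noncomputable def g0_3_9 : GD 0 3 9 := chk_sound 
  (.cell (.nd (.lf (nat_lit 0x8007f882a694e11d03)) (.lf (nat_lit 0x805822827b9ecd3d40)) (.lf (nat_lit 0x81d4e5a6cd2489cca7)) (.lf (nat_lit 0x82c800800e3389fd03))) (.nd (.lf (nat_lit 0x8007ef89888d00d84d)) (.lf (nat_lit 0x800800800417233be0)) (.lf (nat_lit 0x8077e482db88248c54)) (.lf (nat_lit 0x80080a81b57e2dcd97))) (.lf (nat_lit 0x805824808f92a12986)) (.lf (nat_lit 0x8057c7825e903cb9c3)) (.nd (.lf (nat_lit 0x8007ff81ad61469cb4)) (.lf (nat_lit 0x829800800c8352ddf8)) (.lf (nat_lit 0x826800800df6631d03)) (.lf (nat_lit 0x8007d780ae2f74bd05))) (.lf (nat_lit 0x80080180e744f23b88)))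
  _ _ _ (by decide +kernel)

noncomputable def g0_1_11 : GD 0 1 11 := chk_sound 
  (.cell (.nd (.lf (nat_lit 0x8247e583566fe71c77)) (.lf (nat_lit 0x800815819963c42ea0)) (.lf (nat_lit 0x84d472a63e476fda43)) (.lf (nat_lit 0x80081b805d67842de4))) (.nd (.lf (nat_lit 0x8007e98aa6d0fd88c0)) (.lf (nat_lit 0x80082481749a2cdd09)) (.nd (.lf (nat_lit 0x8007e183cb530ff9f1)) (.lf (nat_lit 0x80081184672215ec60)) (.nd (.lf (nat_lit 0x8047df831cce1db9bf)) (.lf (nat_lit 0x8017d983dc411f8b11)) (.lf (nat_lit 0x8007f0816d832c4a7b)) (.lf (nat_lit 0x80c7b682ee0a3cdb1f))) (.nd (.lf (nat_lit 0x8007cb831c1f245bc0)) (.lf (nat_lit 0x8007fa81882427cdca)) (.nd (.lf (nat_lit 0x8007e1813cb82dfbeb)) (.lf (nat_lit 0x8007db823b782c4cf3)) (.lf (nat_lit 0x8047de825d6236dbbe)) (.lf (nat_lit 0x8067d3837c68333ca1))) (.lf (nat_lit 0x8007dc820b3030ed6a)))) (.lf (nat_lit 0x80080182d67d323e2a))) (.lf (nat_lit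 0x84ea7d8a89be65ff2e)) (.lf (nat_lit 0x8007bd832eb63ec979)) (.nd (.nd (.lf (nat_lit 0x80a7b9831e253dbafc)) (.nd (.lf (nat_lit 0x8007d582be3243db5f)) (.lf (nat_lit 0x8007e4829cb4403d17)) (.lf (nat_lit 0x8007bd814e5748eb70)) (.lf (nat_lit 0x8007ff819d3d4cad1e))) (.lf (nat_lit 0x81b800800eb34abad2)) (.lf (nat_lit 0x8147ac824ec1523b2a))) (.lf (nat_lit 0x80c800800c0f517e3f)) (.lf (nat_lit 0x8107c8818f21554a6f)) (.lf (nat_lit 0x8007e580fd91711daa))) (.lf (nat_lit 0x8007ee8466fbef7bc9)))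
  _ _ _ (by decide +kernel)

noncomputable def g0_3_11 : GD 0 3 11 := chk_sound 
  (.cell (.nd (.lf (nat_lit 0x811800800681e41cc1)) (.lf (nat_lit 0x800816823babc60d99)) (.lf (nat_lit 0x8454d3a77d98829c0d)) (.lf (nat_lit 0x800800800e22872d1d))) (.nd (.lf (nat_lit 0x80080182b6c1fdb8cf)) (.lf (nat_lit 0x800818841456211be8)) (.nd (.lf (nat_lit 0x8007e7858a7f0d6a81)) (.lf (nat_lit 0x80080783e6f21ffd2c)) (.lf (nat_lit 0x820800800be82b8c8f)) (.lf (nat_lit 0x80080081aae832adab))) (.lf (nat_lit 0x80080982957731bdcb))) (.lf (nat_lit 0x85cf16a5395f799a7c)) (.lf (nat_lit 0x80d7b7830e8e3d49dc)) (.nd (.lf (nat_lit 0x8027cb81cd984acca4)) (.lf (nat_lit 0x8007e581ac28546e43)) (.lf (nat_lit 0x8007c980ee51604c7b)) (.lf (nat_lit 0x829800800e1674cd23))) (.lf (nat_lit 0x8007f984b700f1fb7d)))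
  _ _ _ (by decide +kernel)

theorem g1_2_10 : GD 1 2 10 :=
  GD.split (i := 0) g0_1_9 g0_3_9 g0_1_11 g0_3_11 (by decide)

noncomputable def g1_6_10 : GD 1 6 10 := chk_sound 
  (.cell (.lf (nat_lit 0x800836819dff9f6ce9)) (.nd (.lf (nat_lit 0x8007e78b6710fe8831)) (.lf (nat_lit 0x800815832410186a8a)) (.lf (nat_lit 0x800800800a0f35be2d)) (.nd (.lf (nat_lit 0x8008008004d42a0d00)) (.lf (nat_lit 0x80483f83a2ea30cbab)) (.lf (nat_lit 0x8007ff81277c332e5f)) (.lf (nat_lit 0x80084182c2c6356bd9)))) (.lf (nat_lit 0x83a800800f87a77913)) (.lf (nat_lit 0x800436ad0cc353bb5e)) (.nd (.lf (nat_lit 0x8007d681fc51536e20)) (.nd (.lf (nat_lit 0x807800800af449ce9d)) (.lf (nat_lit 0x85fc2e947e50861a2c)) (.lf (nat_lit 0x828800800cfd5cedda)) (.lf (nat_lit 0x8007ff807ecd77ac2d))) (.lf (nat_lit 0x8007ec81acaf639e3c)) (.lf (nat_lit 0x8147bf807e5076fcdf))) (.lf (nat_lit 0x80080183371cf3eb44)))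
  _ _ _ (by decide +kernel)

noncomputable def g0_1_13 : GD 0 1 13 := chk_sound 
  (.cell (.nd (.lf (nat_lit 0x81d7bb841654e90c3c)) (.lf (nat_lit 0x80080181f96ec10ebd)) (.lf (nat_lit 0x83f5cb988f03645a20)) (.lf (nat_lit 0x82a800800d53813df7))) (.nd (.lf (nat_lit 0x80f76ce3e67ec96929)) (.lf (nat_lit 0x80081482c4a22cbd0c)) (.nd (.lf (nat_lit 0x8007f582bb1d12babf)) (.lf (nat_lit 0x8007ff8346e9174c75)) (.nd (.lf (nat_lit 0x8007d9818cb81e0a08)) (.lf (nat_lit 0x8007d182ebfb202b7c)) (.lf (nat_lit 0x8057cb833d832f4ad5)) (.nd (.lf (nat_lit 0x8007db81ad062e4b8c)) (.lf (nat_lit 0x8077c783bc822f2c3e)) (.lf (nat_lit 0x8007cf834d5c369bc1)) (.lf (nat_lit 0x8007d1839d2f351be2)))) (.nd (.lf (nat_lit 0x8037e4842b01208c63)) (.lf (nat_lit 0x80080080079e2afdf6)) (.nd (.lf (nat_lit 0x8007d7828c092bcc76)) (.lf (nat_lit 0x8007ff829a982eed9d)) (.lf (nat_lit 0x8007ef820c9432ec71)) (.lf (nat_lit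 0x8097d8838bb8322d23))) (.lf (nat_lit 0x8128008009e730bdfb)))) (.lf (nat_lit 0x80081482562238be5f))) (.lf (nat_lit 0x800959859a46670f61)) (.lf (nat_lit 0x8007bb81cea03e99cd)) (.nd (.nd (.lf (nat_lit 0x8067d2823e30429b4c)) (.nd (.lf (nat_lit 0x8007c4808da7428c25)) (.lf (nat_lit 0x8007e081bbdf3e0da7)) (.lf (nat_lit 0x8077ca81fe084a0c04)) (.lf (nat_lit 0x8007d0816cf04e2d76))) (.lf (nat_lit 0x8007ca826ebe503b15)) (.lf (nat_lit 0x8007ad81ae9f538b81))) (.lf (nat_lit 0x8047e1814b94510e85)) (.lf (nat_lit 0x8007cc80cf19597ac7)) (.lf (nat_lit 0x8007d380ed606f8dd4))) (.lf (nat_lit 0x8007f183e6c8ef3bc2)))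
  _ _ _ (by decide +kernel)

noncomputable def g0_3_13 : GD 0 3 13 := chk_sound 
  (.cell (.nd (.lf (nat_lit 0x8007c782865de6bc79)) (.lf (nat_lit 0x800819821bfdba9de3)) (.lf (nat_lit 0x82751ea48de87d7bf0)) (.lf (nat_lit 0x800823805e0c84ad39))) (.nd (.lf (nat_lit 0x80878bd94661d5394c)) (.lf (nat_lit 0x8008008004871e9bd9)) (.nd (.lf (nat_lit 0x8007d984eaa50e1a7a)) (.lf (nat_lit 0x8008008006b920ad2d)) (.lf (nat_lit 0x8007d5837ca0352c8a)) (.lf (nat_lit 0x8007f381db04356dc1))) (.lf (nat_lit 0x80081d82254e34fde3))) (.lf (nat_lit 0x851dc19a2c0f80bb68)) (.lf (nat_lit 0x80b7c7828e75411a97)) (.nd (.lf (nat_lit 0x8047c381fdf849fc1b)) (.lf (nat_lit 0x81a800800b99536e93)) (.lf (nat_lit 0x834800800e65621c6b)) (.lf (nat_lit 0x842800800df2742d4b))) (.lf (nat_lit 0x8007ef8526c3f13b81)))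
  _ _ _ (by decide +kernel)

noncomputable def g0_1_15 : GD 0 1 15 := chk_sound 
  (.cell (.nd (.lf (nat_lit 0x83176187c666e70c64)) (.lf (nat_lit 0x82f847835990bb9ee5)) (.nd (.lf (nat_lit 0x8007a8834f124b79bc)) (.lf (nat_lit 0x8435fd995e2f8cec4c)) (.lf (nat_lit 0x8007a6828f3c578a40)) (.lf (nat_lit 0x840800800e8c757c8a))) (.lf (nat_lit 0x8007d3803d3f7ebe09))) (.nd (.lf (nat_lit 0x80f746eae640bb2973)) (.lf (nat_lit 0x8148008004912cdd03)) (.nd (.lf (nat_lit 0x8007ef837ad911fae9)) (.lf (nat_lit 0x80080682a6991b0cb4)) (.nd (.lf (nat_lit 0x8007c184dc521c6a86)) (.lf (nat_lit 0x8057e4834b411efc10)) (.lf (nat_lit 0x8007ed82ed1d2e4b6a)) (.lf (nat_lit 0x8057db827cb62e2bf1))) (.nd (.lf (nat_lit 0x8007f18229a21f6cfb)) (.lf (nat_lit 0x80080b8337532d8e13)) (.lf (nat_lit 0x8007f0826c50316c9a)) (.lf (nat_lit 0x80080182c8fc34de65)))) (.lf (nat_lit 0x8007ff8146273ade78))) (.lf (nat_lit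 0x84494b85e92d604f89)) (.lf (nat_lit 0x8087d6821e7b40da83)) (.nd (.nd (.lf (nat_lit 0x8007c3821e15448b9d)) (.lf (nat_lit 0x8007e2821dba472c4d)) (.lf (nat_lit 0x8007d9806eab4c4b00)) (.lf (nat_lit 0x8007c2824e49525c07))) (.lf (nat_lit 0x800800800b1650eec4)) (.lf (nat_lit 0x8007cf818f0958fae8)) (.lf (nat_lit 0x81b800800d246d6e04))) (.lf (nat_lit 0x80080181b698ee9bc5)))
  _ _ _ (by decide +kernel)

noncomputable def g0_3_15 : GD 0 3 15 := chk_sound 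
  (.cell (.nd (.lf (nat_lit 0x84777a876667e56c8d)) (.lf (nat_lit 0x8239848ccb30b74e3d)) (.lf (nat_lit 0x82154fa43e017a8bed)) (.lf (nat_lit 0x800833806df3828d57))) (.nd (.lf (nat_lit 0x81776ce1b621c81999)) (.lf (nat_lit 0x8008218284ae1b9bac)) (.nd (.lf (nat_lit 0x8007f1837a9010eb04)) (.lf (nat_lit 0x800800800695212d2d)) (.lf (nat_lit 0x8067d9834baf2cfcd6)) (.lf (nat_lit 0x8007f5817a1432ee08))) (.lf (nat_lit 0x80381682355d374e07))) (.lf (nat_lit 0x84bd96998aca738caa)) (.lf (nat_lit 0x8007d1828e4d42eb19)) (.nd (.lf (nat_lit 0x8077cd821d55487cd7)) (.lf (nat_lit 0x8007f181aaf1513ed6)) (.lf (nat_lit 0x8157c4812e5e61fc74)) (.lf (nat_lit 0x828800800dc372dd7c))) (.lf (nat_lit 0x80080183968df04b8c)))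
  _ _ _ (by decide +kernel)

theorem g1_2_14 : GD 1 2 14 :=
  GD.split (i := 0) g0_1_13 g0_3_13 g0_1_15 g0_3_15 (by decide)

noncomputable def g1_6_14 : GD 1 6 14 := chk_sound 
  (.cell (.nd (.lf (nat_lit 0x80080482e814d3ce0b)) (.lf (nat_lit 0x80082a80ad5abf4c6f)) (.lf (nat_lit 0x83060f9f6d3d839d5f)) (.lf (nat_lit 0x80082d808e7e876ca5))) (.nd (.lf (nat_lit 0x813700f7865c99096f)) (.lf (nat_lit 0x8058108264ea0fba43)) (.nd (.lf (nat_lit 0x8007ff83d94e17cc72)) (.lf (nat_lit 0x8008088306c2285db0)) (.lf (nat_lit 0x8007ff808b2c37cdca)) (.lf (nat_lit 0x80080180f8c33a6eab))) (.lf (nat_lit 0x80982983545d370d77))) (.lf (nat_lit 0x82b800800f8da99863)) (.lf (nat_lit 0x8007c682fe24455b91)) (.nd (.lf (nat_lit 0x800800800ce051fda6)) (.nd (.lf (nat_lit 0x8007f5818b62523ea8)) (.lf (nat_lit 0x859d8b9a7c5f763b4d)) (.lf (nat_lit 0x8007d5817cef61de01)) (.lf (nat_lit 0x800800800eb67a1c55)))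 (.lf (nat_lit 0x8007cd813d2267adf0)) (.lf (nat_lit 0x837800800e3377ed06))) (.lf (nat_lit 0x8047f1850696f23b4e)))
  _ _ _ (by decide +kernel)

theorem g2_4_12 : GD 2 4 12 :=
  GD.split (i := 1) g1_2_10 g1_6_10 g1_2_14 g1_6_14 (by decide)

noncomputable def g1_10_10 : GD 1 10 10 := chk_sound 
  (.cell (.lf (nat_lit 0x85672a87edc0a2ed02)) (.nd (.lf (nat_lit 0x8007e68956e4fe2879)) (.lf (nat_lit 0x80b83f87443012095f)) (.lf (nat_lit 0x8007fb82685132ae5c)) (.lf (nat_lit 0x86a96886e303395c26))) (.lf (nat_lit 0x81488282df76a9d913)) (.lf (nat_lit 0x81c46db10b91571cbf)) (.nd (.lf (nat_lit 0x8007f180fa1946ced6)) (.lf (nat_lit 0x854d319a8c646eebb5)) (.lf (nat_lit 0x8007df810bb15c6ebc)) (.lf (nat_lit 0x8007d980ede4744d5b))) (.lf (nat_lit 0x8007f68166f1f36b4a)))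
  _ _ _ (by decide +kernel)

noncomputable def g1_14_10 : GD 1 14 10 := chk_sound 
  (.cell (.lf (nat_lit 0x83e791836d429e2db3)) (.lf (nat_lit 0x80082182d3f0356d11)) (.lf (nat_lit 0x820914863f7ca5c904)) (.lf (nat_lit 0x81f5b8c30c1c4afba6)) (.lf (nat_lit 0x846d349afbc96c4c42)) (.lf (nat_lit 0x8027f48526adf10b7f)))
  _ _ _ (by decide +kernel)

noncomputable def g1_10_14 : GD 1 10 14 := chk_sound 
  (.cell (.lf (nat_lit 0x80683480ed8c9bbd7e)) (.nd (.lf (nat_lit 0x80b784d8f620d2f98f)) (.lf (nat_lit 0x80282785047b1099b6)) (.lf (nat_lit 0x8007fa82882c34fe79)) (.lf (nat_lit 0x80080f8063fa36cd2d))) (.lf (nat_lit 0x81c87d821f94a0197f)) (.lf (nat_lit 0x80645c9e6b475dbda3)) (.nd (.lf (nat_lit 0x800800800a594c1eec)) (.lf (nat_lit 0x84fca5979cc371ec15)) (.lf (nat_lit 0x800800800c2a621e91)) (.lf (nat_lit 0x8137d9804dfa770d48))) (.lf (nat_lit 0x8007fd825673f23b41)))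
  _ _ _ (by decide +kernel)

noncomputable def g1_14_14 : GD 1 14 14 := chk_sound 
  (.cell (.lf (nat_lit 0x83279c851d3b98fdd2)) (.lf (nat_lit 0x83c8a484b49a334d5f)) (.lf (nat_lit 0x81a86781bf989f3984)) (.lf (nat_lit 0x8285e2aefc66567cfa)) (.lf (nat_lit 0x863d139c6b9f6c6c82)) (.lf (nat_lit 0x8037f084f644f08b61)))
  _ _ _ (by decide +kernel)

theorem g2_12_12 : GD 2 12 12 :=
  GD.split (i := 1) g1_10_10 g1_14_10 g1_10_14 g1_14_14 (by decide)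

theorem g3_8_8 : GD 3 8 8 :=
  GD.split (i := 2) g2_4_4 g2_12_4 g2_4_12 g2_12_12 (by decide)

noncomputable def g1_2_18 : GD 1 2 18 := chk_sound 
  (.cell (.nd (.lf (nat_lit 0x80080981887dd1de21)) (.lf (nat_lit 0x800823819cc5a26e0c)) (.nd (.lf (nat_lit 0x81677a847eee51eab2)) (.lf (nat_lit 0x82c5e29cfe0c8aec60)) (.lf (nat_lit 0x80d7be813f0f5e2b18)) (.lf (nat_lit 0x8007b580ce7d738c9a))) (.lf (nat_lit 0x821800800d7d7dfdd0))) (.nd (.lf (nat_lit 0x8156b1f7862f8329c4)) (.lf (nat_lit 0x8008008004951d9bcc)) (.nd (.lf (nat_lit 0x8007ec842a3a192c32)) (.lf (nat_lit 0x80080d82869b1edd02)) (.nd (.lf (nat_lit 0x8007d882fbb3261c51)) (.lf (nat_lit 0x8007e3831a541f5cb0)) (.nd (.lf (nat_lit 0x8007f9827ba2276c7a)) (.lf (nat_lit 0x8007ff81bb7a258c75)) (.lf (nat_lit 0x8007d581ac292e3c86)) (.lf (nat_lit 0x8037e9821c012ddca3))) (.nd (.lf (nat_lit 0x8007e683bafc265cdb)) (.lf (nat_lit 0x8007f383eac9280d17))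 (.lf (nat_lit 0x8007ff818c7e350cab)) (.nd (.lf (nat_lit 0x800800800af32b4d37)) (.lf (nat_lit 0x8007e2810a9e2c4d73)) (.lf (nat_lit 0x81d800800b8b303d26)) (.lf (nat_lit 0x8007ff825b262eed52))))) (.nd (.lf (nat_lit 0x8007fd8348a6239d7d)) (.lf (nat_lit 0x8007ff81473331ae45)) (.nd (.lf (nat_lit 0x8007e98319c1293d9b)) (.lf (nat_lit 0x8008018158ce334e59)) (.lf (nat_lit 0x8007fc829b84337d5b)) (.lf (nat_lit 0x8007ff828987339e3a))) (.lf (nat_lit 0x8007fa82686d37fe98)))) (.lf (nat_lit 0x8007ff8135d43afe5f))) (.nd (.lf (nat_lit 0x8008008003f7482df5)) (.lf (nat_lit 0x86aaad8f27eb4f9ed3)) (.lf (nat_lit 0x845ceda36a2d7ecd7a)) (.lf (nat_lit 0x81fb7197cb0d720e50))) (.nd (.lf (nat_lit 0x8007e5836595f32a81)) (.nd (.lf (nat_lit 0x80068ab20b0e177808)) (.lf (nat_lit 0x8007ca82cdd63f6bad)) (.lf (nat_lit 0x8007c3871429ef78a9)) (.lf (nat_lit 0x8007b7835e1b432b7a))) (.lf (nat_lit 0x8007f8851599ef3b21))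 (.nd (.lf (nat_lit 0x8007bb87e3beea3935)) (.lf (nat_lit 0x800800800e6d470b28)) (.lf (nat_lit 0x8037b685f372e5a9a0)) (.lf (nat_lit 0x8007af81beba530b45)))) (.nd (.nd (.nd (.lf (nat_lit 0x800800800d4b3a9c23)) (.nd (.lf (nat_lit 0x8007da833ccb38dc99)) (.lf (nat_lit 0x8007d882fced3decc0)) (.lf (nat_lit 0x8047d781ad3a3dec6b)) (.lf (nat_lit 0x8007d081ad79450c83))) (.lf (nat_lit 0x8007d380cd7f3e6c1c)) (.nd (.lf (nat_lit 0x8007d4818d7441bc5c)) (.lf (nat_lit 0x8027cf824da8480c6f)) (.lf (nat_lit 0x822800800d9b445c50)) (.lf (nat_lit 0x815800800dd54bac62)))) (.nd (.nd (.lf (nat_lit 0x8007da826c4a3bcd3a)) (.lf (nat_lit 0x800801819acc374df4)) (.lf (nat_lit 0x8007d7826d15453cf5)) (.lf (nat_lit 0x8007dd82abf4413dbc))) (.lf (nat_lit 0x8007f5817a813f6e6f)) (.nd (.lf (nat_lit 0x818800800d56485cd5)) (.lf (nat_lit 0x8007ff816c59442d92)) (.lf (nat_lit 0x8007df81fd59487cd3)) (.lf (nat_lit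 0x800800816cf34aed55))) (.lf (nat_lit 0x8007e580fc174bfe0d))) (.nd (.lf (nat_lit 0x8007c6831df3445bd1)) (.lf (nat_lit 0x8007c4810e464fdbef)) (.lf (nat_lit 0x8007dc809e4a4afba8)) (.lf (nat_lit 0x8007c9823e52503be0))) (.nd (.lf (nat_lit 0x8007e3822dd54f9c8e)) (.lf (nat_lit 0x8007e281fc87515de9)) (.lf (nat_lit 0x80d7dc813e0455ec90)) (.lf (nat_lit 0x827800800cfb5c8dd9)))) (.lf (nat_lit 0x8007ff819c035a2e80)) (.nd (.lf (nat_lit 0x8007bc812e96540b99)) (.lf (nat_lit 0x8097ca817e485ecc7d)) (.lf (nat_lit 0x8127af81beb55febda)) (.lf (nat_lit 0x8007ca808e0c6ded1b))) (.lf (nat_lit 0x823800800d136cce10))) (.lf (nat_lit 0x80080183c651ee0bb7)))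
  _ _ _ (by decide +kernel)

noncomputable def g1_6_18 : GD 1 6 18 := chk_sound 
  (.cell (.nd (.lf (nat_lit 0x80080182b9bac61e77)) (.lf (nat_lit 0x800816810dd9b00c8e)) (.lf (nat_lit 0x81565e9d6d437d5d7f)) (.lf (nat_lit 0x80082d804e55854cdf))) (.nd (.lf (nat_lit 0x80f6f2f345f29d49d7)) (.lf (nat_lit 0x80782685b4f90eba1e)) (.lf (nat_lit 0x8007f3813996326e28)) (.lf (nat_lit 0x81780080048c375d9a))) (.lf (nat_lit 0x822800800fa4a238fd)) (.lf (nat_lit 0x81771a87adda47ec0c)) (.nd (.lf (nat_lit 0x800800800bdc4f9e51)) (.lf (nat_lit 0x80acf398abcf698c8a)) (.lf (nat_lit 0x8007ff811d3d686ddc)) (.lf (nat_lit 0x82e800800dec769d57))) (.lf (nat_lit 0x8007eb839633f00b6a)))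
  _ _ _ (by decide +kernel)

noncomputable def g1_2_22 : GD 1 2 22 := chk_sound 
  (.cell (.nd (.lf (nat_lit 0x80280d81da98cb1def)) (.lf (nat_lit 0x81d9d98cdc019efe56)) (.nd (.lf (nat_lit 0x8007d181beb6532b51)) (.lf (nat_lit 0x8385b2a5cdb1858c88)) (.lf (nat_lit 0x8057be81be6b58bc15)) (.lf (nat_lit 0x8007d980fdc46e4d6d))) (.lf (nat_lit 0x8007d9805d4e7c2dfa))) (.nd (.lf (nat_lit 0x815674f596227599ea)) (.lf (nat_lit 0x82abedd4b6dc60fbef)) (.lf (nat_lit 0x8007ff82d91127cdb1)) (.lf (nat_lit 0x80081681d5e53c9e76))) (.nd (.lf (nat_lit 0x81c883838378588e15)) (.lf (nat_lit 0x843a138e45ca4f6eaf)) (.lf (nat_lit 0x842d8da9cab28dfc46)) (.lf (nat_lit 0x81ac539e9ad37a5dca))) (.nd (.lf (nat_lit 0x8007ea851574f2aa75)) (.lf (nat_lit 0x811800800d2d3cbc69)) (.lf (nat_lit 0x8007e3846572ef9af4)) (.lf (nat_lit 0x8007c0809e3e4c8bd1))) (.nd (.lf (nat_lit 0x8007e7808c5c46cdab)) (.lf (nat_lit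 0x8007ec822a044e6f17)) (.lf (nat_lit 0x812800800d92564d1c)) (.lf (nat_lit 0x800800800c77682e77))) (.lf (nat_lit 0x8007f184d607ec5bc3)))
  _ _ _ (by decide +kernel)

noncomputable def g1_6_22 : GD 1 6 22 := chk_sound 
  (.cell (.nd (.lf (nat_lit 0x800821819b18b7ce80)) (.lf (nat_lit 0x82ab15983c5ea56d42)) (.lf (nat_lit 0x8226a099bd5e76cd82)) (.lf (nat_lit 0x80083e807e1f83fd23))) (.lf (nat_lit 0x8008148216ba306e21)) (.lf (nat_lit 0x81988c82ef91a36936)) (.lf (nat_lit 0x825521994c89512ce8)) (.nd (.lf (nat_lit 0x820800800ac74b3ebc)) (.lf (nat_lit 0x800b4492bb68605e09)) (.lf (nat_lit 0x8007de80aced650e12)) (.lf (nat_lit 0x820800800d72731dcd))) (.lf (nat_lit 0x8007e78185e5edfb81)))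
  _ _ _ (by decide +kernel)

theorem g2_4_20 : GD 2 4 20 :=
  GD.split (i := 1) g1_2_18 g1_6_18 g1_2_22 g1_6_22 (by decide)

noncomputable def g1_10_18 : GD 1 10 18 := chk_sound 
  (.cell (.lf (nat_lit 0x8297d183ad5b985dbb)) (.lf (nat_lit 0x80080f82649433dd70)) (.lf (nat_lit 0x80081c81bf98a42913)) (.lf (nat_lit 0x8393e79beabb5fcdb5)) (.nd (.lf (nat_lit 0x818800800a764e8ef4)) (.lf (nat_lit 0x80dd259c0b62698c95)) (.lf (nat_lit 0x817800800c7565ae6f)) (.lf (nat_lit 0x820800800def78ad57))) (.lf (nat_lit 0x8007ff832613f07b4a)))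
  _ _ _ (by decide +kernel)

noncomputable def g1_14_18 : GD 1 14 18 := chk_sound 
  (.cell (.lf (nat_lit 0x82c72f8c3d4b953dbd)) (.lf (nat_lit 0x85a8cb87c5052c0d27)) (.lf (nat_lit 0x80f86181cf91a49925)) (.lf (nat_lit 0x82d3f1a1cadd610d93)) (.lf (nat_lit 0x854cfc9eab486b7cca)) (.lf (nat_lit 0x8007f48435efef9b51)))
  _ _ _ (by decide +kernel)

noncomputable def g1_10_22 : GD 1 10 22 := chk_sound 
  (.cell (.lf (nat_lit 0x81b71c8c9d67936da6)) (.lf (nat_lit 0x8008bc85b4fc2bed27)) (.lf (nat_lit 0x811847819f8aa788f5)) (.lf (nat_lit 0xa235319f6b435ecdb8)) (.lf (nat_lit 0x85fd079d9b486b5cc4)) (.lf (nat_lit 0x8007f582d5c6eeab57)))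
  _ _ _ (by decide +kernel)

noncomputable def g1_14_22 : GD 1 14 22 := chk_sound 
  (.cell (.lf (nat_lit 0x80a83480ad2b95bdf3)) (.lf (nat_lit 0x8008f988752f29bd12)) (.lf (nat_lit 0x829800800f82a8b90a)) (.lf (nat_lit 0x8294348ddb175e8de7)) (.nd (.lf (nat_lit 0x8007ff81fa224e3f0d)) (.lf (nat_lit 0x835b70965b3e64be10)) (.lf (nat_lit 0x825800800c43665e93)) (.lf (nat_lit 0x8007cc803d8d784dbc))) (.lf (nat_lit 0x8007f88325a8ee7b48)))
  _ _ _ (by decide +kernel)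

theorem g2_12_20 : GD 2 12 20 :=
  GD.split (i := 1) g1_10_18 g1_14_18 g1_10_22 g1_14_22 (by decide)

noncomputable def g1_2_26 : GD 1 2 26 := chk_sound 
  (.cell (.nd (.lf (nat_lit 0x82772a88eb33c43de0)) (.lf (nat_lit 0x800822817cc9a10e11)) (.lf (nat_lit 0x82460c9e6d9a701cea)) (.lf (nat_lit 0x835800800d44856e02))) (.lf (nat_lit 0x81f82d99c51e2c5d11)) (.nd (.lf (nat_lit 0x848ba49ae3f2567cf6)) (.lf (nat_lit 0x816b0296347d51edb0)) (.lf (nat_lit 0x83ed81aafaea916c18)) (.lf (nat_lit 0x800c55a01bdf8b4d12))) (.lf (nat_lit 0x8067cf825d213b8c64)) (.lf (nat_lit 0x8087df81eb1f541ed5)) (.lf (nat_lit 0x8007e38365c5eb6bba)))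
  _ _ _ (by decide +kernel)

noncomputable def g1_6_26 : GD 1 6 26 := chk_sound 
  (.cell (.nd (.lf (nat_lit 0x81f800800b89b05e82)) (.lf (nat_lit 0x808834813deda4fcd8)) (.lf (nat_lit 0x8176fc933d3b6fedc1)) (.lf (nat_lit 0x800815808de883bd63))) (.lf (nat_lit 0x8038178274f62cbd40)) (.lf (nat_lit 0x837d3da11d539b48f9)) (.lf (nat_lit 0x83b51d95cc284e1d2b)) (.lf (nat_lit 0x800800800bbe61eed0)) (.lf (nat_lit 0x8007ed82e5a3ec6b87)))
  _ _ _ (by decide +kernel)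

noncomputable def g1_2_30 : GD 1 2 30 := chk_sound 
  (.cell (.nd (.lf (nat_lit 0x84f5ec97cbefb1adae)) (.lf (nat_lit 0x82c9bd8bdc86a2edee)) (.lf (nat_lit 0x8007c980fd486adddb)) (.lf (nat_lit 0x800812809d3388be0d))) (.nd (.lf (nat_lit 0x829635f5c67d6bf9a6)) (.lf (nat_lit 0x815c61bde62d748d19)) (.lf (nat_lit 0x8008018258b829ddde)) (.lf (nat_lit 0x80081b81d5ad3e2e73))) (.lf (nat_lit 0x83ee2ca8cb8487fa97)) (.lf (nat_lit 0x81393d888c482dcc2b)) (.lf (nat_lit 0x8037ec811aa8539f03)) (.lf (nat_lit 0x8007e2851586eb1b99)))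
  _ _ _ (by decide +kernel)

noncomputable def g1_6_30 : GD 1 6 30 := chk_sound 
  (.cell (.nd (.lf (nat_lit 0x815800800c01a8ce70)) (.lf (nat_lit 0x8239da8d4d6ca4bd04)) (.lf (nat_lit 0x80e7e3808d056ebe21)) (.lf (nat_lit 0x800800800de1901d54))) (.lf (nat_lit 0x8b487393253729bd00)) (.lf (nat_lit 0x80086e825f66a8999b)) (.lf (nat_lit 0x81d64dab1c444d6d10)) (.lf (nat_lit 0x8007ff80fb0f60bf20)) (.lf (nat_lit 0x8007db84b569eb9b75)))
  _ _ _ (by decide +kernel)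

theorem g2_4_28 : GD 2 4 28 :=
  GD.split (i := 1) g1_2_26 g1_6_26 g1_2_30 g1_6_30 (by decide)

noncomputable def g1_10_26 : GD 1 10 26 := chk_sound 
  (.cell (.lf (nat_lit 0x84a77786cd3496cddc)) (.lf (nat_lit 0x8498e789753528dd06)) (.lf (nat_lit 0x81988e832f73a92939)) (.lf (nat_lit 0x84642a9c2b125e9daf)) (.nd (.lf (nat_lit 0x8007ee8149fd4b9f05)) (.lf (nat_lit 0x856b45959b3a641e28)) (.lf (nat_lit 0x817800800c2a63fe99)) (.lf (nat_lit 0x80f800800d55767dee))) (.lf (nat_lit 0x8037eb830586ed2b5b)))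
  _ _ _ (by decide +kernel)

noncomputable def g1_14_26 : GD 1 14 26 := chk_sound 
  (.cell (.lf (nat_lit 0x83d6fc8d6d43951db9)) (.lf (nat_lit 0x8338878544f32e4d4e)) (.lf (nat_lit 0x80c83f81df6eaad93a)) (.lf (nat_lit 0x81f3c79c4a9867bdd4)) (.lf (nat_lit 0x813a158efb29627ebc)) (.lf (nat_lit 0x8007e284756ded6b3e)))
  _ _ _ (by decide +kernel)

noncomputable def g1_10_30 : GD 1 10 30 := chk_sound 
  (.cell (.lf (nat_lit 0x88f749824d1b9b1dd9)) (.lf (nat_lit 0x8288c68775012d1d39)) (.lf (nat_lit 0x80484f81ff5fa9a9a7)) (.lf (nat_lit 0x8004c08fdb8a55cdbd)) (.lf (nat_lit 0x81da178ebb12626ec6)) (.lf (nat_lit 0x8027e883b54fec4b4c)))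
  _ _ _ (by decide +kernel)

noncomputable def g1_14_30 : GD 1 14 30 := chk_sound 
  (.cell (.lf (nat_lit 0x80080f807d0e998dfd)) (.lf (nat_lit 0x8389698e55592afd15)) (.lf (nat_lit 0x80088282bf56ab7993)) (.lf (nat_lit 0x83b42b946b00617dea)) (.nd (.lf (nat_lit 0x8148008009934ccf28)) (.lf (nat_lit 0x82888d847aec628f2f)) (.lf (nat_lit 0x81b800800bbf659edf)) (.lf (nat_lit 0x8007db805d0f791e2d))) (.lf (nat_lit 0x8007e384c53becdb27)))
  _ _ _ (by decide +kernel)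

theorem g2_12_28 : GD 2 12 28 :=
  GD.split (i := 1) g1_10_26 g1_14_26 g1_10_30 g1_14_30 (by decide)

theorem g3_8_24 : GD 3 8 24 :=
  GD.split (i := 2) g2_4_20 g2_12_20 g2_4_28 g2_12_28 (by decide)

noncomputable def g1_2_34 : GD 1 2 34 := chk_sound 
  (.cell (.nd (.lf (nat_lit 0x80562195cc01a4de1b)) (.lf (nat_lit 0x80081180ed55aafd52)) (.lf (nat_lit 0x800800800cbe6a2e4b)) (.lf (nat_lit 0x80082d812d56981dc3))) (.nd (.lf (nat_lit 0x81a6bbe7d5c3b9e97a)) (.lf (nat_lit 0x829c7fb7d5155eec55)) (.lf (nat_lit 0x8007fb82b8b62e5e1d)) (.lf (nat_lit 0x80081081b54c3e9e51))) (.lf (nat_lit 0x800e63ae0b508e59c4)) (.lf (nat_lit 0x89583383dc1533fced)) (.lf (nat_lit 0x8007ff81ba62562f2c)) (.lf (nat_lit 0x8007eb839548eb9b5d)))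
  _ _ _ (by decide +kernel)

noncomputable def g1_6_34 : GD 1 6 34 := chk_sound 
  (.cell (.nd (.lf (nat_lit 0x80082b80cc72a1be4e)) (.lf (nat_lit 0x82cb00950ca2a44d29)) (.lf (nat_lit 0x8007ff80ec936c4e71)) (.lf (nat_lit 0x81f800800db4931d7a))) (.lf (nat_lit 0x81a891a304e631cd08)) (.lf (nat_lit 0x841d45a73d049f3915)) (.lf (nat_lit 0xa235dba19b5e3f9cc8)) (.lf (nat_lit 0x8047f4809a9660ff51)) (.lf (nat_lit 0x8007e083a532ebbb46)))
  _ _ _ (by decide +kernel)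

noncomputable def g1_2_38 : GD 1 2 38 := chk_sound 
  (.cell (.nd (.lf (nat_lit 0x8004b688eba69fddf7)) (.lf (nat_lit 0x800830816d5eaf9d20)) (.lf (nat_lit 0x800800800c576d9e9e)) (.lf (nat_lit 0x82b800800d4e9e7dac))) (.nd (.lf (nat_lit 0x813770b00539eaf981)) (.lf (nat_lit 0x80ece4c195cf717c32)) (.lf (nat_lit 0x8007f4825894335e60)) (.lf (nat_lit 0x8168008004bf3ede10))) (.lf (nat_lit 0x83bdceac6c3098e99a)) (.lf (nat_lit 0x8007f280ebdf3c4d92)) (.lf (nat_lit 0x8007f4809a2e62cf7a)) (.lf (nat_lit 0x8057de84c50cec8b06)))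
  _ _ _ (by decide +kernel)

noncomputable def g1_6_38 : GD 1 6 38 := chk_sound 
  (.cell (.nd (.lf (nat_lit 0x84f44e892b14a17e01)) (.lf (nat_lit 0x80683081edc1b19c9b)) (.lf (nat_lit 0x8007de80fc2f6d7eb7)) (.lf (nat_lit 0x80081080fdbaa27d26))) (.lf (nat_lit 0x8249eea7d53932bccb)) (.lf (nat_lit 0x8068fd876f33b0994f)) (.lf (nat_lit 0x9978b682dbcf3dbd68)) (.lf (nat_lit 0x82e873841a0f683f90)) (.lf (nat_lit 0x8007e98484feec8af9)))
  _ _ _ (by decide +kernel)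

theorem g2_4_36 : GD 2 4 36 :=
  GD.split (i := 1) g1_2_34 g1_6_34 g1_2_38 g1_6_38 (by decide)

noncomputable def g1_10_34 : GD 1 10 34 := chk_sound 
  (.cell (.nd (.lf (nat_lit 0x8004b688eac2a6fe45)) (.lf (nat_lit 0x829a7b91cd46a65ccc)) (.lf (nat_lit 0x8007ff805c606d8e98)) (.lf (nat_lit 0x80d800800dca8bad78))) (.lf (nat_lit 0x8399d095358e2abcf2)) (.lf (nat_lit 0x80fc36a16dce9fda0d)) (.lf (nat_lit 0x80064c81cc0a4f9df7)) (.lf (nat_lit 0x8429468a5a6b65af4d)) (.lf (nat_lit 0x8007ff82951eec4b23)))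
  _ _ _ (by decide +kernel)

noncomputable def g1_14_34 : GD 1 14 34 := chk_sound 
  (.cell (.lf (nat_lit 0x8396fc879d039dddd6)) (.lf (nat_lit 0x8219949045222fcd33)) (.lf (nat_lit 0x821c13a0cde6a299eb)) (.lf (nat_lit 0x89853f87eba3592e0e)) (.lf (nat_lit 0x80095e8aaa7765ef46)) (.lf (nat_lit 0x8007de862512ecfafa)))
  _ _ _ (by decide +kernel)

noncomputable def g1_10_38 : GD 1 10 38 := chk_sound 
  (.cell (.nd (.lf (nat_lit 0x86d4fe857ba19eae26)) (.lf (nat_lit 0x831b5a96dc82a6acf3)) (.lf (nat_lit 0x8087e9808c056dded2)) (.lf (nat_lit 0x800833806db59b6d55))) (.lf (nat_lit 0x9539b89f855832dd02)) (.lf (nat_lit 0x80884c81df3fb1a94f)) (.lf (nat_lit 0x8b054d8a6b7f432d65)) (.lf (nat_lit 0x80092f89b9d66a4f8c)) (.lf (nat_lit 0x81b8008004f4ed2ada)))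
  _ _ _ (by decide +kernel)

noncomputable def g1_14_38 : GD 1 14 38 := chk_sound 
  (.cell (.lf (nat_lit 0x83063d87ad09a1ad8d)) (.lf (nat_lit 0x818a599cf5992f9ce9)) (.lf (nat_lit 0x83fccba7cd27a00a0d)) (.lf (nat_lit 0x8384ca915b544a3d7b)) (.lf (nat_lit 0x82486d83aa0a68af94)) (.lf (nat_lit 0x8017df8444f2ee2aad)))
  _ _ _ (by decide +kernel)

theorem g2_12_36 : GD 2 12 36 :=
  GD.split (i := 1) g1_10_34 g1_14_34 g1_10_38 g1_14_38 (by decide)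

noncomputable def g1_2_42 : GD 1 2 42 := chk_sound 
  (.cell (.nd (.lf (nat_lit 0x86a413888bb4992da6)) (.lf (nat_lit 0x816a688e6cb9b0bd14)) (.lf (nat_lit 0x800800800be26dbee6)) (.lf (nat_lit 0x826800800d33a59d9a))) (.nd (.lf (nat_lit 0x8037d38714eaf3c95d)) (.lf (nat_lit 0x81bcc7cb865d88fbfc)) (.lf (nat_lit 0x8007fa82984f38bea2)) (.lf (nat_lit 0x8008018104223f4db6))) (.lf (nat_lit 0x823c73a58d5ca3ea36)) (.lf (nat_lit 0x89b94e85dbae35dd2b)) (.lf (nat_lit 0x8008258079816ddfc5)) (.lf (nat_lit 0x8007df83c4d2edea92)))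
  _ _ _ (by decide +kernel)

noncomputable def g1_6_42 : GD 1 6 42 := chk_sound 
  (.cell (.nd (.lf (nat_lit 0x88f426853ba298cdc1)) (.lf (nat_lit 0x821800800dbdb34c8e)) (.lf (nat_lit 0x8097e9805bda714ef3)) (.lf (nat_lit 0x809833818d73a86d47))) (.lf (nat_lit 0x81fa90a894d63a4caf)) (.lf (nat_lit 0x83bc3fa3dd90a64a0d)) (.lf (nat_lit 0x95590f841bab366d23)) (.lf (nat_lit 0x81989184c92a6fafd2)) (.lf (nat_lit 0x8007ff8354ceee0a89)))
  _ _ _ (by decide +kernel)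

noncomputable def g1_2_46 : GD 1 2 46 := chk_sound 
  (.cell (.nd (.lf (nat_lit 0x86e32b898b7191cd32)) (.lf (nat_lit 0x800801822d9fb8dc71)) (.lf (nat_lit 0x8007e880db7d715f23)) (.lf (nat_lit 0x8007ff80acecac6da9))) (.lf (nat_lit 0x96cb0bb41579490ce3)) (.lf (nat_lit 0x843d80ae0bcc9b0ad9)) (.lf (nat_lit 0x81f800800b4b485e67)) (.lf (nat_lit 0x8007ff8098c0750fef)) (.lf (nat_lit 0x8037c886549fef49ff)))
  _ _ _ (by decide +kernel)

noncomputable def g1_6_46 : GD 1 6 46 := chk_sound 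
  (.cell (.nd (.lf (nat_lit 0x88e30f8b7b46926d2b)) (.lf (nat_lit 0x841b3c918c9aaffcb3)) (.lf (nat_lit 0x800800800b6e72af2d)) (.lf (nat_lit 0x80082d80ed0aadfd81))) (.lf (nat_lit 0x960af8b1a578444cd4)) (.lf (nat_lit 0x83ada1ad6b9f9a4ae6)) (.lf (nat_lit 0x8007e382fb6a3aadc9)) (.lf (nat_lit 0x8007f580d8f6747fe8)) (.lf (nat_lit 0x8007de8614a7efc9f3)))
  _ _ _ (by decide +kernel)

theorem g2_4_44 : GD 2 4 44 :=
  GD.split (i := 1) g1_2_42 g1_6_42 g1_2_46 g1_6_46 (by decide)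

noncomputable def g1_10_42 : GD 1 10 42 := chk_sound 
  (.cell (.nd (.lf (nat_lit 0x80039986db0d997db5)) (.lf (nat_lit 0x83bc1999fba2a81d01)) (.lf (nat_lit 0x81d800800baf705f08)) (.lf (nat_lit 0x80082a81dd689f7d8e))) (.lf (nat_lit 0x9809f6a454ea3bed02)) (.lf (nat_lit 0x821cd8a77d06a25a23)) (.lf (nat_lit 0x9957eb82ebac39bd5a)) (.lf (nat_lit 0x82d86f8409726dafc4)) (.lf (nat_lit 0x8007ff8284d0eeca6b)))
  _ _ _ (by decide +kernel)

noncomputable def g1_14_42 : GD 1 14 42 := chk_sound 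
  (.cell (.nd (.lf (nat_lit 0x8a139e88db31976da2)) (.lf (nat_lit 0x827b60948c87ac0cc8)) (.lf (nat_lit 0x8007ff80cba9740f12)) (.lf (nat_lit 0x822800800d53a0ed9a))) (.lf (nat_lit 0x835a859f050238ed03)) (.lf (nat_lit 0x845d91aabc1a9a2a82)) (.lf (nat_lit 0x81f800800bbb404dd8)) (.lf (nat_lit 0x80082180c9b46acfb3)) (.lf (nat_lit 0x8007e38154def04a36)))
  _ _ _ (by decide +kernel)

noncomputable def g1_10_46 : GD 1 10 46 := chk_sound 
  (.cell (.nd (.lf (nat_lit 0x80042c856ca98ebd2a)) (.lf (nat_lit 0x800801815dddb23c71)) (.lf (nat_lit 0x8047d9807b5c749f39)) (.lf (nat_lit 0x805820815cfaaf2d86))) (.lf (nat_lit 0x826b39add579407cd1)) (.lf (nat_lit 0x84cdcaacab7d988ad7)) (.lf (nat_lit 0x8007f581db2742ce46)) (.lf (nat_lit 0x8007ff80c90571bfe2)) (.lf (nat_lit 0x8007c287c4bbf0d9ce)))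
  _ _ _ (by decide +kernel)

noncomputable def g1_14_46 : GD 1 14 46 := chk_sound 
  (.cell (.nd (.lf (nat_lit 0x83e32c8d7c24897cbb)) (.lf (nat_lit 0x844c9995eab1ab0d24)) (.lf (nat_lit 0x81b800800b5376ff40)) (.lf (nat_lit 0x80082281ac6ba4fe41))) (.lf (nat_lit 0x800b0eac45543ddcc4)) (.lf (nat_lit 0x826dcaac1ba5971abc)) (.lf (nat_lit 0x8007fc815b0b3c0e0d)) (.lf (nat_lit 0x8047f980a8d86fefe4)) (.lf (nat_lit 0x8057cf8664dff2f989)))
  _ _ _ (by decide +kernel)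

theorem g2_12_44 : GD 2 12 44 :=
  GD.split (i := 1) g1_10_42 g1_14_42 g1_10_46 g1_14_46 (by decide)

theorem g3_8_40 : GD 3 8 40 :=
  GD.split (i := 2) g2_4_36 g2_12_36 g2_4_44 g2_12_44 (by decide)

noncomputable def g1_2_50 : GD 1 2 50 := chk_sound 
  (.cell (.nd (.lf (nat_lit 0x8974de845da486fca9)) (.lf (nat_lit 0x84ea9d8d4cfbb59c83)) (.lf (nat_lit 0x8007ec80ab2e791f53)) (.lf (nat_lit 0x80882081cc4cb62dd5))) (.lf (nat_lit 0x81bbddb0a52f53fced)) (.lf (nat_lit 0x800dd2ae2abb977b7d)) (.lf (nat_lit 0x8007ff817ad44faed8)) (.lf (nat_lit 0x8037f7809895789ff7)) (.lf (nat_lit 0x8007da834475f0d945)))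
  _ _ _ (by decide +kernel)

noncomputable def g1_6_50 : GD 1 6 50 := chk_sound 
  (.cell (.nd (.lf (nat_lit 0x83c31a8ebc7283ac63)) (.lf (nat_lit 0x80783d827e08b63c01)) (.lf (nat_lit 0x8007e7808b1b792f5b)) (.lf (nat_lit 0x80089c81cc1db28e0f))) (.lf (nat_lit 0x835b99adb4de4f9ce2)) (.lf (nat_lit 0x828ddeaecadf960b4b)) (.lf (nat_lit 0x8007df822ad7454e83)) (.lf (nat_lit 0x8008008008996fdfe9)) (.lf (nat_lit 0x8007df86048ef1c92c)))
  _ _ _ (by decide +kernel)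

noncomputable def g1_2_54 : GD 1 2 54 := chk_sound 
  (.cell (.nd (.lf (nat_lit 0x8475198b0e2570ac0a)) (.lf (nat_lit 0x833c498decc1abbbd7)) (.lf (nat_lit 0x81e800800ad4806f7b)) (.lf (nat_lit 0x83f800800b2db9fe61))) (.lf (nat_lit 0x824c35ba35a9608cde)) (.nd (.lf (nat_lit 0x8669b593f610d7ed0b)) (.lf (nat_lit 0x80088486a2ac6badca)) (.lf (nat_lit 0x874d699b29a4b1cc63)) (.nd (.nd (.lf (nat_lit 0x82ebb49ee230613b00)) (.lf (nat_lit 0x819b1999924c5b4bbe)) (.lf (nat_lit 0x826ee6b387ad89da59)) (.lf (nat_lit 0x82bb03972dfdb84a22))) (.lf (nat_lit 0x831d24aaaa83a09c78)) (.nd (.lf (nat_lit 0x80082a80aea3ba2a95)) (.lf (nat_lit 0x8209f38ebc12b89d80)) (.lf (nat_lit 0x800824806d47c0cc70)) (.lf (nat_lit 0x80081b810b55b53e77))) (.lf (nat_lit 0x800817812ad5a78f0f)))) (.lf (nat_lit 0x8037ea81ea64565f2c)) (.lf (nat_lit 0x8007ff8097f4795ffd)) (.lf (nat_lit 0x8097968d4466f1285b)))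
  _ _ _ (by decide +kernel)

noncomputable def g1_6_54 : GD 1 6 54 := chk_sound 
  (.cell (.nd (.lf (nat_lit 0x815800800eb268dc20)) (.lf (nat_lit 0x800800800f0caf5a5b)) (.lf (nat_lit 0x8007ff803ac17fbf82)) (.lf (nat_lit 0x87591d84ba20b7dec4))) (.lf (nat_lit 0x839bfbb8b556607cf4)) (.nd (.lf (nat_lit 0x8768f78de591e4ac13)) (.lf (nat_lit 0x82f87587c38a7ffe9a)) (.lf (nat_lit 0x813d659798a8b1bcc1)) (.nd (.nd (.lf (nat_lit 0x81caf997c41c8e4e15)) (.lf (nat_lit 0x830a0f9073d281ce6a)) (.lf (nat_lit 0x85de25ab468e903bf5)) (.lf (nat_lit 0x800d8aa878a0997ce6))) (.lf (nat_lit 0x82fa52919740946f6d)) (.nd (.lf (nat_lit 0x842d46a11895a37d28)) (.lf (nat_lit 0x82ebc8994a7baf3daf)) (.lf (nat_lit 0x833c619868eca88dee)) (.lf (nat_lit 0x82d9cb8ae9dcb05ee8))) (.lf (nat_lit 0x800800800771974fd8)))) (.lf (nat_lit 0x810800800a80493ec8)) (.lf (nat_lit 0x80080580a79179fffa)) (.lf (nat_lit 0x80b75d95549ff18829)))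
  _ _ _ (by decide +kernel)

theorem g2_4_52 : GD 2 4 52 :=
  GD.split (i := 1) g1_2_50 g1_6_50 g1_2_54 g1_6_54 (by decide)

noncomputable def g1_10_50 : GD 1 10 50 := chk_sound 
  (.cell (.nd (.lf (nat_lit 0x852355949cea7a1c04)) (.lf (nat_lit 0x8d8cf88b4a74ad3ce8)) (.lf (nat_lit 0x8007f3805b0979df64)) (.lf (nat_lit 0x80381c81cbc6b12e59))) (.lf (nat_lit 0x815b8bbbc5e6499ca2)) (.nd (.lf (nat_lit 0x833cc6ae4938c0abdf)) (.lf (nat_lit 0x80083e8231f955bc89)) (.lf (nat_lit 0x84faf8923d0bbedb98)) (.nd (.lf (nat_lit 0x80085a8260ba4b885a)) (.lf (nat_lit 0x837d77ab7a8f993c34)) (.lf (nat_lit 0x800836829dfcb8dbef)) (.lf (nat_lit 0x81d800800c4da76e47)))) (.lf (nat_lit 0x8007e9812aca3c5e30)) (.lf (nat_lit 0x80580080083070aff0)) (.lf (nat_lit 0x8007ff8224b7f3a8f4)))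
  _ _ _ (by decide +kernel)

noncomputable def g1_14_50 : GD 1 14 50 := chk_sound 
  (.cell (.nd (.lf (nat_lit 0x80e7b080eec96f4c17)) (.lf (nat_lit 0xae03368279d7a8fcc7)) (.lf (nat_lit 0x8007ea801aff7b2f69)) (.lf (nat_lit 0x86a8c7838a3aaf9f06))) (.lf (nat_lit 0x822b50bd25a84bfcb9)) (.nd (.lf (nat_lit 0x834a2796266ed8acec)) (.lf (nat_lit 0x8008ef863336798e50)) (.lf (nat_lit 0x864c67943886b66d92)) (.nd (.nd (.lf (nat_lit 0x843d1da614277e1c28)) (.lf (nat_lit 0x835ca1a223936fcc2a)) (.lf (nat_lit 0x844e15a7e7ad96dc4f)) (.lf (nat_lit 0x857db3a68873961cd9))) (.lf (nat_lit 0x841cdda388a593fdc7)) (.nd (.lf (nat_lit 0x83ece19c7853a19db2)) (.lf (nat_lit 0x837c0998f96ba3de2e)) (.lf (nat_lit 0x82badf8f9b12b15dfc)) (.lf (nat_lit 0x81a950878aa0ae5ed6))) (.lf (nat_lit 0x82f8ba8519479bdfa9)))) (.lf (nat_lit 0x8007df826a9740fe75)) (.lf (nat_lit 0x8007ff80b798735ff3)) (.lf (nat_lit 0x8017d986e500f60896)))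
  _ _ _ (by decide +kernel)

noncomputable def g1_10_54 : GD 1 10 54 := chk_sound 
  (.cell (.nd (.lf (nat_lit 0x8137d180ae5e6c8cae)) (.lf (nat_lit 0x8cae7c8ebafaa17ab0)) (.lf (nat_lit 0x8007e2802aaf7f9f89)) (.lf (nat_lit 0x8a480080093ead7f58))) (.lf (nat_lit 0x81db57cd15e868cccf)) (.nd (.lf (nat_lit 0x800833834526f0ea71)) (.lf (nat_lit 0x80b7e180b3f895dec5)) (.lf (nat_lit 0x8cda478654a2c37d60)) (.lf (nat_lit 0x82a8d78414ea9c5f1b))) (.lf (nat_lit 0x8007ff81ca584c0eec)) (.lf (nat_lit 0x80080b8057097c5ff0)) (.lf (nat_lit 0x80f761977b150cc82c)))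
  _ _ _ (by decide +kernel)

noncomputable def g1_14_54 : GD 1 14 54 := chk_sound 
  (.cell (.lf (nat_lit 0xa3071594ed1fa90ce2)) (.lf (nat_lit 0x81eaaac336165c8d89)) (.lf (nat_lit 0x80099c84a47fb11e4b)) (.lf (nat_lit 0x8007f5821a7d3cfe57)) (.lf (nat_lit 0x800800800659812fd3)) (.lf (nat_lit 0x81b7cc99aaa80b9925)))
  _ _ _ (by decide +kernel)

theorem g2_12_52 : GD 2 12 52 :=
  GD.split (i := 1) g1_10_50 g1_14_50 g1_10_54 g1_14_54 (by decide)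

noncomputable def g2_4_60 : GD 2 4 60 := chk_sound 
  (.cell (.nd (.lf (nat_lit 0x804800800ddc726d60)) (.lf (nat_lit 0xa101f3824c3e8daa15)) (.lf (nat_lit 0x80081d80aa28897fae)) (.lf (nat_lit 0x8b3afe85fa34b27e4b))) (.lf (nat_lit 0x80ab70ce76796facfa)) (.nd (.lf (nat_lit 0x8007c487d4b4f1f971)) (.lf (nat_lit 0x8007ec81a4bba2bef8)) (.lf (nat_lit 0x9aea738472e2b6dc24)) (.lf (nat_lit 0x83388a82e518a47f12))) (.lf (nat_lit 0x80e800800a1058af53)) (.lf (nat_lit 0x80c8008006088dbfb4)) (.lf (nat_lit 0x84088e940b1f1bdb9e)))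
  _ _ _ (by decide +kernel)

noncomputable def g2_12_60 : GD 2 12 60 := chk_sound 
  (.cell (.nd (.lf (nat_lit 0x8007f2811d8765ed8b)) (.nd (.lf (nat_lit 0x8007c781eea65f2bef)) (.lf (nat_lit 0x82b6ff9d6e7343e9f5)) (.lf (nat_lit 0x80a85b807f5f87cb0b)) (.lf (nat_lit 0x89e1d48af45ea52a89))) (.lf (nat_lit 0x800800800a18885fb4)) (.lf (nat_lit 0xa5da3b81e955a4dece))) (.lf (nat_lit 0x81f9f2d78649631ce8)) (.nd (.lf (nat_lit 0x8067d386d4b5f089dc)) (.lf (nat_lit 0x8007e082d3a9c32d3e)) (.lf (nat_lit 0x8007e1831372ddbafa)) (.lf (nat_lit 0x8007e381d3a2b8ddae))) (.lf (nat_lit 0x813800800a0e577f4d)) (.lf (nat_lit 0x8007ff815507975f48)) (.nd (.lf (nat_lit 0x80080183e99b0eab55)) (.lf (nat_lit 0x8007cd8b3a1c05c8c4)) (.lf (nat_lit 0x8007ed83eb8228ccad)) (.lf (nat_lit 0x837944abac4d355bd2))))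
  _ _ _ (by decide +kernel)

theorem g3_8_56 : GD 3 8 56 :=
  GD.split (i := 2) g2_4_52 g2_12_52 g2_4_60 g2_12_60 (by decide)

noncomputable def g2_4_68 : GD 2 4 68 := chk_sound 
  (.cell (.nd (.lf (nat_lit 0x800800800d5d73cde2)) (.lf (nat_lit 0x84f5628fee9b7b4b82)) (.lf (nat_lit 0x80080180c9ed8affbc)) (.lf (nat_lit 0x8d844e883a32a4de43))) (.lf (nat_lit 0x8009b5d286ce5c9d4e)) (.nd (.lf (nat_lit 0x8057aa8a147bf198d2)) (.lf (nat_lit 0x8007d0828388ce0c7e)) (.lf (nat_lit 0x8482b3dba9a484687a)) (.lf (nat_lit 0x8007eb82d356c26cff))) (.lf (nat_lit 0x8008008009dc65ff9b)) (.lf (nat_lit 0x80c8008004e19eef1b)) (.lf (nat_lit 0x82d8d6908c5741ad4e)))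
  _ _ _ (by decide +kernel)

noncomputable def g2_12_68 : GD 2 12 68 := chk_sound 
  (.cell (.lf (nat_lit 0x856634944d269e8d60)) (.lf (nat_lit 0x80089ed1e7183eec7a)) (.lf (nat_lit 0x846275ca0ae394c952)) (.lf (nat_lit 0x80a800800a1e628f7d)) (.lf (nat_lit 0x80b7dd81249a9dceff)) (.nd (.lf (nat_lit 0x8007fd8308c018dcaa)) (.lf (nat_lit 0x8007ff85a8e106ba5c)) (.lf (nat_lit 0x8057ea815be545edf7)) (.lf (nat_lit 0x8418e09aed134c2ce8))))
  _ _ _ (by decide +kernel)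

noncomputable def g2_4_76 : GD 2 4 76 := chk_sound 
  (.cell (.lf (nat_lit 0x88a627876cbf9efdd0)) (.lf (nat_lit 0x8038128506a215ac38)) (.lf (nat_lit 0x81e6d2b57e957a4ad1)) (.lf (nat_lit 0x8218b28cbaea6f3f4c)) (.lf (nat_lit 0x8007e082c382b9fd89)) (.lf (nat_lit 0x82d8e1986d0c5ddd8d)))
  _ _ _ (by decide +kernel)

noncomputable def g2_12_76 : GD 2 12 76 := chk_sound 
  (.cell (.lf (nat_lit 0x8307a78d0d249efdbe)) (.lf (nat_lit 0x8117e6cb86bb315bfd)) (.lf (nat_lit 0x835795bc1e6b747ad2)) (.lf (nat_lit 0x82870186aab0625f38)) (.lf (nat_lit 0x8007e081b39cb09df4)) (.lf (nat_lit 0x8288d2a60d3f692d4c)))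
  _ _ _ (by decide +kernel)

theorem g3_8_72 : GD 3 8 72 :=
  GD.split (i := 2) g2_4_68 g2_12_68 g2_4_76 g2_12_76 (by decide)

noncomputable def g2_4_84 : GD 2 4 84 := chk_sound 
  (.cell (.lf (nat_lit 0x80081d81bca6a22e26)) (.lf (nat_lit 0x80280080078d092aec)) (.lf (nat_lit 0x83988cbbae2d8b9b54)) (.lf (nat_lit 0x8007dc816b03662f3b)) (.lf (nat_lit 0x8067e9817305c17cbc)) (.lf (nat_lit 0x821962a96d276bfd38)))
  _ _ _ (by decide +kernel)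

noncomputable def g2_12_84 : GD 2 12 84 := chk_sound 
  (.cell (.lf (nat_lit 0x80082f807cf29a7e10)) (.lf (nat_lit 0x80080f82d6b80f8b95)) (.lf (nat_lit 0x83e960c0dde887ab3e)) (.lf (nat_lit 0x80b73286fb5c61fef3)) (.lf (nat_lit 0x8007e18272f2bd5cde)) (.nd (.lf (nat_lit 0x80080183183c20ad53)) (.lf (nat_lit 0x80081083267e0d7b38)) (.lf (nat_lit 0x8007eb806d227b1e20)) (.lf (nat_lit 0x800842809e41a42c70))))
  _ _ _ (by decide +kernel)

noncomputable def g2_4_92 : GD 2 4 92 := chk_sound 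
  (.cell (.lf (nat_lit 0x800808815ca8a01e2f)) (.lf (nat_lit 0x80081784169a118bc6)) (.lf (nat_lit 0x83799bbd8dd4943b52)) (.lf (nat_lit 0x8007fa817ba965beeb)) (.lf (nat_lit 0x8007d081d2cfc06c8f)) (.nd (.lf (nat_lit 0x8007f0810a573a8e4b)) (.lf (nat_lit 0x830b3bc7aa52587cb0)) (.lf (nat_lit 0x80081e807d3f872e05)) (.lf (nat_lit 0x80082a816e0da9cc87))))
  _ _ _ (by decide +kernel)

noncomputable def g2_12_92 : GD 2 12 92 := chk_sound 
  (.cell (.lf (nat_lit 0x80083181bcdea18dfd)) (.lf (nat_lit 0x80080f81c5eb183c2f)) (.lf (nat_lit 0x83a903c34db59b7b1e)) (.lf (nat_lit 0x8007ff80bbf063debc)) (.lf (nat_lit 0x8226b29bc3059c9d97)) (.nd (.lf (nat_lit 0x8007d880ec31584e57)) (.lf (nat_lit 0x82fa88be3c7b83acb9)) (.lf (nat_lit 0x800832809d60881de6)) (.lf (nat_lit 0x80084180ae01acdc79))))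
  _ _ _ (by decide +kernel)

theorem g3_8_88 : GD 3 8 88 :=
  GD.split (i := 2) g2_4_84 g2_12_84 g2_4_92 g2_12_92 (by decide)

noncomputable def g2_4_100 : GD 2 4 100 := chk_sound 
  (.cell (.lf (nat_lit 0x80081e819c96a6ae17)) (.lf (nat_lit 0x8018178375d519ec4c)) (.lf (nat_lit 0x835912b9fd9eabdb42)) (.lf (nat_lit 0x819800800bd662eec7)) (.lf (nat_lit 0x81d7948d02b7ba9cab)) (.lf (nat_lit 0x83aa78b72ca67e0cef)))
  _ _ _ (by decide +kernel)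

noncomputable def g2_12_100 : GD 2 12 100 := chk_sound 
  (.cell (.lf (nat_lit 0x80e82f81bd05a8bdae)) (.lf (nat_lit 0x80080182d55f1efc7f)) (.lf (nat_lit 0x83a983c39d37a97b26)) (.lf (nat_lit 0x8007ff80cc53674e8c)) (.lf (nat_lit 0x8208008005028b8f62)) (.nd (.lf (nat_lit 0x81f800800ca45fae31)) (.lf (nat_lit 0x81fa50bc4cb5853cb5)) (.lf (nat_lit 0x80082e80ad7c8d6dc2)) (.lf (nat_lit 0x807823812dd2af8c9c))))
  _ _ _ (by decide +kernel)

noncomputable def g2_4_108 : GD 2 4 108 := chk_sound 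
  (.cell (.lf (nat_lit 0x81d800800ce8a9cdc0)) (.lf (nat_lit 0x8008018315571fec8e)) (.lf (nat_lit 0x832935c2dd26b1faf7)) (.lf (nat_lit 0x8007f180ac2e64fe9b)) (.lf (nat_lit 0x817645a983158e4d69)) (.nd (.lf (nat_lit 0x8007e581cc53596e47)) (.lf (nat_lit 0x81ba5dbb8cb0838cbf)) (.lf (nat_lit 0x80081080dd798ecdc2)) (.lf (nat_lit 0x80082f813dc5ae8cb6))))
  _ _ _ (by decide +kernel)

noncomputable def g2_12_108 : GD 2 12 108 := chk_sound 
  (.cell (.lf (nat_lit 0x800811813d2aab7d78)) (.lf (nat_lit 0x80080181f58f1c4c5f)) (.lf (nat_lit 0x84457dbd7c69c43a49)) (.lf (nat_lit 0x80b7df809c9d697e61)) (.lf (nat_lit 0x8176838e3754815fc7)) (.nd (.lf (nat_lit 0x8007db81cc88596e21)) (.lf (nat_lit 0x835a38bbfcce830cad)) (.lf (nat_lit 0x827800800d8f8ecdac)) (.lf (nat_lit 0x803827816dacb05cc2))))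
  _ _ _ (by decide +kernel)

theorem g3_8_104 : GD 3 8 104 :=
  GD.split (i := 2) g2_4_100 g2_12_100 g2_4_108 g2_12_108 (by decide)

noncomputable def g2_4_116 : GD 2 4 116 := chk_sound 
  (.cell (.lf (nat_lit 0x81288c9dec4cb39d99)) (.lf (nat_lit 0x8168008005921cec6f)) (.lf (nat_lit 0x8416d2c41ce2bc7a83)) (.lf (nat_lit 0x8007ff811c7666ee73)) (.lf (nat_lit 0x82d65e8c049989eefb)) (.nd (.lf (nat_lit 0x8007db807c85594e23)) (.lf (nat_lit 0x81da46bb1ccb81dcb5)) (.lf (nat_lit 0x832800800d8b8f2daf)) (.lf (nat_lit 0x800826821daaaeacd5))))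
  _ _ _ (by decide +kernel)

noncomputable def g2_12_116 : GD 2 12 116 := chk_sound 
  (.cell (.lf (nat_lit 0x82c8418d1cfbb27d56)) (.lf (nat_lit 0x80081b8305d918ec36)) (.lf (nat_lit 0x9c2d729656add1d92b)) (.lf (nat_lit 0x8409088abc91673e41)) (.nd (.lf (nat_lit 0x8007f680b8e860dfb4)) (.lf (nat_lit 0x8318008002609fcd53)) (.lf (nat_lit 0x8007ef80793a7c9fe6)) (.lf (nat_lit 0x8067e78142dab63d18))) (.nd (.lf (nat_lit 0x8007d1809ca0573e01)) (.lf (nat_lit 0x823a33bbcce3827c9d)) (.lf (nat_lit 0x80082e810da08efd9b)) (.lf (nat_lit 0x80082b820d7cb26ce4))))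
  _ _ _ (by decide +kernel)

noncomputable def g2_4_124 : GD 2 4 124 := chk_sound 
  (.cell (.lf (nat_lit 0x821800800cf7b1dd71)) (.lf (nat_lit 0x80081c82c5e1199c4b)) (.lf (nat_lit 0x84136eae8b83c92926)) (.lf (nat_lit 0x817800800cb168ae4f)) (.nd (.lf (nat_lit 0x800812815577664f69)) (.lf (nat_lit 0x8198008002579e5d52)) (.lf (nat_lit 0x81e6ec91a6718bbfa8)) (.lf (nat_lit 0x82d8008002e0b75d12))) (.nd (.lf (nat_lit 0x8007d281ecd05a2dee)) (.lf (nat_lit 0x81ea3dbc7ce7844c89)) (.lf (nat_lit 0x81c800800d9b8fcd9e)) (.lf (nat_lit 0x80080180fd79b18cf1))))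
  _ _ _ (by decide +kernel)

noncomputable def g2_12_124 : GD 2 12 124 := chk_sound 
  (.cell (.lf (nat_lit 0x8018369b9cc4b49d3d)) (.lf (nat_lit 0x80080884363915dc16)) (.lf (nat_lit 0x85397bb4f1d896cb4a)) (.lf (nat_lit 0x83990b8adcc768ee1f)) (.nd (.lf (nat_lit 0x80080080086f4e2f5a)) (.lf (nat_lit 0x82980080026191ad94)) (.lf (nat_lit 0x8007f9805a49748fa1)) (.lf (nat_lit 0x82e8008002efb42d42))) (.nd (.lf (nat_lit 0x8057df812d055b4dc9)) (.lf (nat_lit 0x819a35bc6d03852c6e)) (.lf (nat_lit 0x80083a80fdae8f8d8b)) (.lf (nat_lit 0x800832814d83b3dccd))))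
  _ _ _ (by decide +kernel)

theorem g3_8_120 : GD 3 8 120 :=
  GD.split (i := 2) g2_4_116 g2_12_116 g2_4_124 g2_12_124 (by decide)

noncomputable def g2_4_132 : GD 2 4 132 := chk_sound 
  (.cell (.lf (nat_lit 0x80782581dccbb6cd68)) (.lf (nat_lit 0x8008108255b21b2c58)) (.lf (nat_lit 0x859a8fbdf22aa07a09)) (.lf (nat_lit 0x800800800ce36a4e2f)) (.nd (.lf (nat_lit 0x8008008006634fdf3b)) (.lf (nat_lit 0x8007de8102578ffd8f)) (.lf (nat_lit 0x8008018088d2836ff4)) (.lf (nat_lit 0x8007e38192f1b57d37))) (.nd (.lf (nat_lit 0x8007d081fd02571daf)) (.nd (.lf (nat_lit 0x80481584e5f8133bac)) (.lf (nat_lit 0x80081583449b1a0b6d)) (.nd (.lf (nat_lit 0x839a17b59cc06acce7)) (.lf (nat_lit 0x80582386c57a0bfa2f)) (.lf (nat_lit 0x80082680de15922d11)) (.lf (nat_lit 0x800850834e03c24b3f))) (.lf (nat_lit 0x80983585ec26eca8ae))) (.lf (nat_lit 0x80e822808da5910d90)) (.lf (nat_lit 0x80683b822d79b37cdc))))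
  _ _ _ (by decide +kernel)

noncomputable def g2_12_132 : GD 2 12 132 := chk_sound 
  (.cell (.lf (nat_lit 0x8237ec9d1c90b83d3e)) (.lf (nat_lit 0x81480080060f170c23)) (.lf (nat_lit 0x82c762a0923989bd11)) (.lf (nat_lit 0x8168e694acc466be06)) (.nd (.lf (nat_lit 0x80080180b8f643cefd)) (.lf (nat_lit 0x8007d380327680edc4)) (.lf (nat_lit 0x8007ff804b097e5f66)) (.lf (nat_lit 0x8007e180f308b2fd65))) (.nd (.lf (nat_lit 0x8097ce818d3c57dd7f)) (.lf (nat_lit 0x824a44ba5d2384ec5d)) (.lf (nat_lit 0x808838809db790dd7e)) (.lf (nat_lit 0x800830808d7dbadc81))))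
  _ _ _ (by decide +kernel)

noncomputable def g2_4_140 : GD 2 4 140 := chk_sound 
  (.cell (.lf (nat_lit 0x80082b814c90bb0d6f)) (.lf (nat_lit 0x8007ff8205901c7c64)) (.lf (nat_lit 0x83690dae31c291abc8)) (.lf (nat_lit 0x80093f8bbcba677e19)) (.nd (.lf (nat_lit 0x8008058146fe42fef5)) (.lf (nat_lit 0x82380080026d7f2dbc)) (.lf (nat_lit 0x8008018089ad86bfcf)) (.lf (nat_lit 0x8007e9808308b47d57))) (.nd (.lf (nat_lit 0x8007cc809d2054bd82)) (.nd (.lf (nat_lit 0x80081981b5be147bb1)) (.lf (nat_lit 0x80082081a4571dab91)) (.nd (.lf (nat_lit 0x83298ea91cc85add2a)) (.lf (nat_lit 0x8009319f640617480e)) (.lf (nat_lit 0x800801811e2d91dcf5)) (.lf (nat_lit 0x80984582be34b8db93))) (.lf (nat_lit 0x808829841c74e928ec))) (.lf (nat_lit 0x80083380dda992cd86)) (.lf (nat_lit 0x80a82481dd12bfdcb9))))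
  _ _ _ (by decide +kernel)

noncomputable def g2_12_140 : GD 2 12 140 := chk_sound .out
  _ _ _ (by decide +kernel)

theorem g3_8_136 : GD 3 8 136 :=
  GD.split (i := 2) g2_4_132 g2_12_132 g2_4_140 g2_12_140 (by decide)

noncomputable def g2_20_m140 : GD 2 20 (-140) := chk_sound .out
  _ _ _ (by decide +kernel)

noncomputable def g2_28_m140 : GD 2 28 (-140) := chk_sound .out
  _ _ _ (by decide +kernel)

noncomputable def g2_20_m132 : GD 2 20 (-132) := chk_sound 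
  (.cell (.lf (nat_lit 0x80380f83c9dce92c28)) (.lf (nat_lit 0x8007fda0c37749bd43)) (.lf (nat_lit 0x87f9b287a378998e21)) (.lf (nat_lit 0x83f890cfe285758add)) (.nd (.lf (nat_lit 0x81680080025f5ccd3c)) (.lf (nat_lit 0x826800800256744d99)) (.lf (nat_lit 0x830979ac92f2974d22)) (.lf (nat_lit 0x8077d4825380b4edb9))) (.lf (nat_lit 0x8007ff819d555e7d94)))
  _ _ _ (by decide +kernel)

noncomputable def g2_28_m132 : GD 2 28 (-132) := chk_sound 
  (.cell (.lf (nat_lit 0x800801840957ebac1b)) (.lf (nat_lit 0x8277a9ab53b5498d25)) (.lf (nat_lit 0x8929ab8bd36698ce0c)) (.lf (nat_lit 0x83f911c9a29579eb7a)) (.lf (nat_lit 0x82a9a8a5d30093ed64)) (.lf (nat_lit 0x800800800d5563edb2)))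
  _ _ _ (by decide +kernel)

theorem g3_24_m136 : GD 3 24 (-136) :=
  GD.split (i := 2) g2_20_m140 g2_28_m140 g2_20_m132 g2_28_m132 (by decide)

noncomputable def g2_20_m124 : GD 2 20 (-124) := chk_sound 
  (.cell (.lf (nat_lit 0x8007fa82d7a9e82ca2)) (.lf (nat_lit 0x82a790ab03b449bd27)) (.lf (nat_lit 0x8f797d8c2355998dfe)) (.nd (.lf (nat_lit 0x8007d2818d104ded56)) (.lf (nat_lit 0x8327f6e0d3a96c2aa4)) (.lf (nat_lit 0x80083b80bda78afd9d)) (.lf (nat_lit 0x83bca5dfe62f929958))) (.lf (nat_lit 0x8169dfa722e6922d36)) (.lf (nat_lit 0x8007da811d42693dda)))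
  _ _ _ (by decide +kernel)

noncomputable def g2_28_m124 : GD 2 28 (-124) := chk_sound 
  (.cell (.lf (nat_lit 0x8007ed81a6a8dffd1e)) (.lf (nat_lit 0x80082982230b53dda2)) (.nd (.lf (nat_lit 0x83c71b82637985fe84)) (.lf (nat_lit 0x83080080026678adb0)) (.lf (nat_lit 0x8007d482a3a9af3e08)) (.lf (nat_lit 0x80d7cf8162aca47d82))) (.nd (.lf (nat_lit 0x8067da817d074f4d6b)) (.lf (nat_lit 0x8157e2d6a33c6a9b2f)) (.lf (nat_lit 0x800833805d7c9bcd8e)) (.lf (nat_lit 0x8199d4cd130f520a2d))) (.lf (nat_lit 0x8459bfa242d5947d49)) (.lf (nat_lit 0x8007f480cd39711dfc)))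
  _ _ _ (by decide +kernel)

noncomputable def g2_20_m116 : GD 2 20 (-116) := chk_sound 
  (.cell (.lf (nat_lit 0x800800800518cecd98)) (.lf (nat_lit 0x837702ad43fe47ed28)) (.lf (nat_lit 0x95597f8bf34a997de3)) (.nd (.lf (nat_lit 0x8077ed80ecee4f5d83)) (.lf (nat_lit 0x82f596d4c3e3532a4c)) (.lf (nat_lit 0x800829804d58a15d92)) (.lf (nat_lit 0x856d5cd5b6349818f9))) (.lf (nat_lit 0x8009dda432b2923d18)) (.lf (nat_lit 0x8007d1804cfc741e35)))
  _ _ _ (by decide +kernel)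

noncomputable def g2_28_m116 : GD 2 28 (-116) := chk_sound 
  (.cell (.lf (nat_lit 0x8007ff81855bcfadac)) (.lf (nat_lit 0x81b666af747d44dd28)) (.nd (.lf (nat_lit 0x8008008003837d6e9e)) (.lf (nat_lit 0x80083380724f7a5d9b)) (.lf (nat_lit 0x81072d863380aa4dfe)) (.lf (nat_lit 0x8007d3823323ab6dbd))) (.nd (.lf (nat_lit 0x8007de807ccb4d7d91)) (.lf (nat_lit 0x83c664d3e2f769aa8f)) (.lf (nat_lit 0x800800800d00b4fd4b)) (.lf (nat_lit 0x81f8f1b5d1fc4969f9))) (.lf (nat_lit 0x8319bc9f928e942d14)) (.lf (nat_lit 0x8007e3808caa748e75)))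
  _ _ _ (by decide +kernel)

theorem g3_24_m120 : GD 3 24 (-120) :=
  GD.split (i := 2) g2_20_m124 g2_28_m124 g2_20_m116 g2_28_m116 (by decide)

noncomputable def g2_20_m108 : GD 2 20 (-108) := chk_sound 
  (.cell (.lf (nat_lit 0x8007db8174aac6bdc5)) (.lf (nat_lit 0x83e654ab1476452d46)) (.nd (.lf (nat_lit 0x8238a78d93a57cee9e)) (.lf (nat_lit 0x82080080021f7d6d6b)) (.lf (nat_lit 0x8007dc827364b29db8)) (.lf (nat_lit 0x8007e381b2b6a40d8f))) (.nd (.lf (nat_lit 0x809800800c7f496daa)) (.lf (nat_lit 0x8403619b5941267a97)) (.lf (nat_lit 0x800814824cb0bdad35)) (.lf (nat_lit 0x9476fda1fe2ac5582f))) (.lf (nat_lit 0x8009fa9ff266917cd9)) (.lf (nat_lit 0x80c71b9e3ad17adf2e)))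
  _ _ _ (by decide +kernel)

noncomputable def g2_28_m108 : GD 2 28 (-108) := chk_sound 
  (.cell (.lf (nat_lit 0x8007ff81b508c9bdd3)) (.lf (nat_lit 0x82158cabb58d3ebd46)) (.nd (.lf (nat_lit 0x82c80080035f8dae77)) (.lf (nat_lit 0x80081d8012087ffd52)) (.lf (nat_lit 0x8037f280a370ac1df6)) (.lf (nat_lit 0x8007c98132aaa40d83))) (.nd (.lf (nat_lit 0x80084bb43b37405d34)) (.lf (nat_lit 0x8752fba7d8642d4a56)) (.lf (nat_lit 0x810800800c1dd11c9f)) (.lf (nat_lit 0x8c89babe51d8550841))) (.lf (nat_lit 0x8459f999f24397dcb7)) (.lf (nat_lit 0x80b77acbf9287e1e4f)))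
  _ _ _ (by decide +kernel)

noncomputable def g2_20_m100 : GD 2 20 (-100) := chk_sound 
  (.cell (.lf (nat_lit 0x8007da80a3d1bbfdb1)) (.lf (nat_lit 0x84051eaac71b334cf7)) (.nd (.lf (nat_lit 0x81083888a3d8837ece)) (.lf (nat_lit 0x8007d381315f96bc3d)) (.lf (nat_lit 0x8007d4824367b13dc6)) (.lf (nat_lit 0x84e98d8d02649fdd0a))) (.lf (nat_lit 0x847c3fc71ab245da60)) (.lf (nat_lit 0x8409bd91616b92abe0)) (.nd (.lf (nat_lit 0x8077e4bc387320dbc5)) (.lf (nat_lit 0x8007ffccc7007ece53)) (.lf (nat_lit 0x800801813b0bdc6c9f)) (.lf (nat_lit 0x80180c822a43da5d31))))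
  _ _ _ (by decide +kernel)

noncomputable def g2_28_m100 : GD 2 28 (-100) := chk_sound 
  (.cell (.lf (nat_lit 0x8007e28193c3b8bdc8)) (.lf (nat_lit 0x8047e9835a7024bd0a)) (.lf (nat_lit 0x8098b8946329978e05)) (.lf (nat_lit 0x871c0eb4d89823d9b3)) (.lf (nat_lit 0x8007dd80e0d38c0b72)) (.lf (nat_lit 0x80072ded36e38a9be1)))
  _ _ _ (by decide +kernel)

theorem g3_24_m104 : GD 3 24 (-104) :=
  GD.split (i := 2) g2_20_m108 g2_28_m108 g2_20_m100 g2_28_m100 (by decide)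

noncomputable def g2_20_m92 : GD 2 20 (-92) := chk_sound 
  (.cell (.lf (nat_lit 0x850c429b74cfb44caf)) (.lf (nat_lit 0x8007f88459881b7cb2)) (.nd (.lf (nat_lit 0x8007df80e3c78bcec0)) (.lf (nat_lit 0x80c7bd81314aa14bd0)) (.lf (nat_lit 0x8007f88113c3a58e5d)) (.lf (nat_lit 0x89bb3f8f229f9e5c6f))) (.lf (nat_lit 0x82cadfc8e8bd25096e)) (.lf (nat_lit 0x80077780900f8c1824)) (.nd (.lf (nat_lit 0x8007ff843783017908)) (.nd (.lf (nat_lit 0x8007ff8457f3129c23)) (.lf (nat_lit 0x8007ff8147ab244d90)) (.lf (nat_lit 0x80080182b7d8fcd9be)) (.lf (nat_lit 0x800662bda53aa7ddb7))) (.lf (nat_lit 0x80080884b98aefdb8f)) (.lf (nat_lit 0x80180c84190de54cc5))))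
  _ _ _ (by decide +kernel)

noncomputable def g2_28_m92 : GD 2 28 (-92) := chk_sound 
  (.cell (.lf (nat_lit 0x80682383eb1fd99cc7)) (.lf (nat_lit 0x8158008009811bbcbb)) (.nd (.lf (nat_lit 0x800753ae74cf85ceb1)) (.lf (nat_lit 0x8291f4a014e38a2ba4)) (.lf (nat_lit 0x80e7ad8274a895af21)) (.nd (.lf (nat_lit 0x82c2ef9257568d9dfc)) (.lf (nat_lit 0x80a7b3804e6a776cbd)) (.lf (nat_lit 0x800801811d09a87dad)) (.lf (nat_lit 0x823800800e2890dcfe)))) (.lf (nat_lit 0x83eaabc2084e1e0979)) (.lf (nat_lit 0x8007b6807ebd6c7c1f)) (.nd (.lf (nat_lit 0x80080e88f78201e91e)) (.nd (.lf (nat_lit 0x8008038597a80cfb77)) (.lf (nat_lit 0x8038008007791aecdf)) (.lf (nat_lit 0x8007ff84c7ccff48bf)) (.lf (nat_lit 0x800666e1f5b2a17bc6))) (.lf (nat_lit 0x8008128558f6f6bacf)) (.lf (nat_lit 0x80080083d867ec4c3d))))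
  _ _ _ (by decide +kernel)

noncomputable def g2_20_m84 : GD 2 20 (-84) := chk_sound 
  (.cell (.lf (nat_lit 0x80080c83da34e34c89)) (.lf (nat_lit 0x8007f784792c1bdcd4)) (.nd (.lf (nat_lit 0x81e76eaa45038b1ee0)) (.lf (nat_lit 0x8007bc80de1c627cd0)) (.lf (nat_lit 0x8305ef92257ea91ebf)) (.lf (nat_lit 0x838800800e3d8b0cf4))) (.lf (nat_lit 0x82ba35cef8eb26c9a9)) (.lf (nat_lit 0x8007c380bebc741c3e)) (.nd (.lf (nat_lit 0x8008068617e700d8c6)) (.nd (.lf (nat_lit 0x8008038567bb09bb04)) (.lf (nat_lit 0x80073cba44be6a8e24)) (.lf (nat_lit 0x8027f7859710fc898c)) (.lf (nat_lit 0x81a6f7b4546eb23d71))) (.lf (nat_lit 0x800806834820f87ab0)) (.lf (nat_lit 0x8007f78167a4ea9c69))))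
  _ _ _ (by decide +kernel)

noncomputable def g2_28_m84 : GD 2 28 (-84) := chk_sound 
  (.cell (.lf (nat_lit 0x80080184593feebbce)) (.lf (nat_lit 0x8007f080a8fd1bacdc)) (.nd (.lf (nat_lit 0x800743b704a18f1e46)) (.lf (nat_lit 0x844800800df56c1d2f)) (.lf (nat_lit 0x8367028ad619c04e8a)) (.lf (nat_lit 0x800800800dee8f9d47))) (.lf (nat_lit 0x848a70c2b8d5204a04)) (.lf (nat_lit 0x8007e3807e8d7d2c95)) (.nd (.lf (nat_lit 0x8008028827f701b92b)) (.nd (.lf (nat_lit 0x8008008007c6086ad4)) (.lf (nat_lit 0x81f6e4ca95036fcd93)) (.lf (nat_lit 0x8007ea8c470ffe08ac)) (.lf (nat_lit 0x8006b4ce7502b8ac18))) (.lf (nat_lit 0x8007f78707b2fb5a11)) (.lf (nat_lit 0x8017f98336fdee8be6))))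
  _ _ _ (by decide +kernel)

theorem g3_24_m88 : GD 3 24 (-88) :=
  GD.split (i := 2) g2_20_m92 g2_28_m92 g2_20_m84 g2_28_m84 (by decide)

noncomputable def g2_20_m76 : GD 2 20 (-76) := chk_sound 
  (.cell (.nd (.lf (nat_lit 0x80080181c761f4bb38)) (.lf (nat_lit 0x8007f4817776e45cef)) (.lf (nat_lit 0x80081b84aa39f35aa4)) (.lf (nat_lit 0x831800800dcfa3ad06))) (.lf (nat_lit 0x8008008008751b6ceb)) (.lf (nat_lit 0x81668db9a49f93edfe)) (.lf (nat_lit 0x81295dd5c88d267952)) (.lf (nat_lit 0x83e800800e9285bc8a)) (.nd (.lf (nat_lit 0x8027f88658990158db)) (.nd (.lf (nat_lit 0x8007eb89090703a977)) (.lf (nat_lit 0x8006a3c4f45a93ed5b)) (.lf (nat_lit 0x8007f184b5fff8f9a5)) (.lf (nat_lit 0x8007d183143fd0eced))) (.lf (nat_lit 0x8007fd81e6bcf99a25)) (.lf (nat_lit 0x8007ff845613e82c39))))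
  _ _ _ (by decide +kernel)

noncomputable def g2_28_m76 : GD 2 28 (-76) := chk_sound 
  (.cell (.nd (.lf (nat_lit 0x8007ff84e6d6f57af0)) (.lf (nat_lit 0x80e800800686e48cb9)) (.lf (nat_lit 0x8008148309e2f64a65)) (.lf (nat_lit 0x820800800dada61d1b))) (.lf (nat_lit 0x80080182e8191b4ced)) (.lf (nat_lit 0x8226b8bd845294ddaf)) (.lf (nat_lit 0x8fe916c9a8231d99aa)) (.lf (nat_lit 0x80082180be788dac9f)) (.nd (.lf (nat_lit 0x8007f88888a502a95c)) (.nd (.lf (nat_lit 0x8007fe85f85f06fa89)) (.lf (nat_lit 0x81b659cf64a990acf0)) (.lf (nat_lit 0x8007ff8465fffb18d5)) (.lf (nat_lit 0x8007d283145ae16bae))) (.lf (nat_lit 0x8007ef86d661fa49a9)) (.lf (nat_lit 0x8007ff835585e93bd0))))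
  _ _ _ (by decide +kernel)

noncomputable def g2_20_m68 : GD 2 20 (-68) := chk_sound 
  (.cell (.nd (.lf (nat_lit 0x8007ef850587efdafc)) (.lf (nat_lit 0x8007f081e4dddbfc97)) (.lf (nat_lit 0x823945c816f4df5a57)) (.lf (nat_lit 0x800827815db3a88d01))) (.lf (nat_lit 0x80080182b5d73d0e76)) (.lf (nat_lit 0x8007d780c389945e83)) (.nd (.lf (nat_lit 0x8007f8851890055a2d)) (.lf (nat_lit 0x80080c8416a8148c1e)) (.lf (nat_lit 0x8007d589560cfaf8da)) (.lf (nat_lit 0x8018098fd7b901485e))) (.lf (nat_lit 0x82c800800e68983c8a)) (.nd (.lf (nat_lit 0x8007d88aa9f80518c1)) (.nd (.lf (nat_lit 0x81c5f3c6c4b3d4593d)) (.nd (.lf (nat_lit 0x81e614c7f434954ce3)) (.lf (nat_lit 0x8178008003c477cec4)) (.lf (nat_lit 0x809645c55416a1fcb2)) (.lf (nat_lit 0x81b6b1b7c3d19d7d68))) (.lf (nat_lit 0x8007e083b40ae9ca1f)) (.lf (nat_lit 0x8007f68103c3cfdc98))) (.lf (nat_lit 0x8007e085353df39a02)) (.lf (nat_lit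 0x8007ef8113fedd7bb6))))
  _ _ _ (by decide +kernel)

noncomputable def g1_26_m70 : GD 1 26 (-70) := chk_sound 
  (.cell (.lf (nat_lit 0x8127fc8a3633f06b50)) (.lf (nat_lit 0x80080181980426edbd)) (.lf (nat_lit 0x80076797038f967e50)) (.lf (nat_lit 0x8b0877a9f8350c39fd)) (.lf (nat_lit 0x800813816e66992c88)) (.nd (.lf (nat_lit 0x8007f086695503d954)) (.nd (.lf (nat_lit 0x80080084c95e0619fa)) (.lf (nat_lit 0x80a607cfd4969bdc87)) (.lf (nat_lit 0x8077cf8724e7f32988)) (.lf (nat_lit 0x8007cd8263dad6ec26))) (.lf (nat_lit 0x8007e383e55cf589b9)) (.lf (nat_lit 0x8007e0835492e06bfb))))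
  _ _ _ (by decide +kernel)

noncomputable def g1_30_m70 : GD 1 30 (-70) := chk_sound 
  (.cell (.lf (nat_lit 0x83b6a19565e4ed1b0e)) (.lf (nat_lit 0x8008008007c926fdbd)) (.lf (nat_lit 0x81b6f1a983bc95be02)) (.nd (.lf (nat_lit 0x80080183a86b074a9a)) (.lf (nat_lit 0x800800800363221add)) (.lf (nat_lit 0x8007ca8e3612fb187c)) (.lf (nat_lit 0x800901f0053e6139a0))) (.lf (nat_lit 0x800823813e619c4c7c)) (.nd (.lf (nat_lit 0x80080084a953048997)) (.nd (.lf (nat_lit 0x8007eb84d950073a43)) (.lf (nat_lit 0x81660cd0a4999e5c6d)) (.lf (nat_lit 0x8067bf8934eaf40936)) (.lf (nat_lit 0x80080180f3ced94be7))) (.lf (nat_lit 0x8007dc84f53df55990)) (.lf (nat_lit 0x8007de81f46ae04bdb))))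
  _ _ _ (by decide +kernel)

noncomputable def g1_26_m66 : GD 1 26 (-66) := chk_sound 
  (.cell (.lf (nat_lit 0x835699908552e7eb66)) (.lf (nat_lit 0x80081282e6f22d0dfe)) (.lf (nat_lit 0x8237159cd38195ae26)) (.lf (nat_lit 0x8007fb827a2704e841)) (.lf (nat_lit 0x80080e80be4ea29c6b)) (.nd (.lf (nat_lit 0x8007e386da400678fb)) (.lf (nat_lit 0x8245c5ce54409bfc3b)) (.lf (nat_lit 0x8087c886b499efb9da)) (.lf (nat_lit 0x8007fc8183f1d8fc12))))
  _ _ _ (by decide +kernel)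

noncomputable def g1_30_m66 : GD 1 30 (-66) := chk_sound 
  (.cell (.lf (nat_lit 0x8007e38314f1e8ab6f)) (.lf (nat_lit 0x80080c82071027fdb9)) (.lf (nat_lit 0x8206cea68398955df6)) (.lf (nat_lit 0x818843a679c90b494b)) (.lf (nat_lit 0x800844803e4ba58c56)) (.lf (nat_lit 0x821581d374919aac00)))
  _ _ _ (by decide +kernel)

theorem g2_28_m68 : GD 2 28 (-68) :=
  GD.split (i := 1) g1_26_m70 g1_30_m70 g1_26_m66 g1_30_m66 (by decide)

theorem g3_24_m72 : GD 3 24 (-72) :=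
  GD.split (i := 2) g2_20_m76 g2_28_m76 g2_20_m68 g2_28_m68 (by decide)

noncomputable def g1_18_m62 : GD 1 18 (-62) := chk_sound 
  (.cell (.lf (nat_lit 0x90b71ea0c4fedf7ba5)) (.lf (nat_lit 0x81077191551b490e81)) (.lf (nat_lit 0x8006c99d939d9a0e19)) (.lf (nat_lit 0x8027d38a4a0c05e907)) (.lf (nat_lit 0x80e83c819e39a50c74)) (.nd (.lf (nat_lit 0x80d79191eaf30ab83a)) (.nd (.lf (nat_lit 0x81f5d1c123ebc97a36)) (.lf (nat_lit 0x814683b2435f9dcd32)) (.lf (nat_lit 0x8037cf84537ddd2b1a)) (.lf (nat_lit 0x8007ec82a33ac43ccb))) (.lf (nat_lit 0x8047c886942aea0a44)) (.lf (nat_lit 0x8077e38253b3d28c57))))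
  _ _ _ (by decide +kernel)

noncomputable def g1_22_m62 : GD 1 22 (-62) := chk_sound 
  (.cell (.lf (nat_lit 0x81d763a8b4a7d9cbcd)) (.lf (nat_lit 0x81a7798f356145be87)) (.lf (nat_lit 0x82a6d79f73799cfdea)) (.lf (nat_lit 0x8007c988daca08b874)) (.lf (nat_lit 0x809839816e2fa91c5e)) (.nd (.lf (nat_lit 0x80579d8ce488f26819)) (.nd (.lf (nat_lit 0x8275c9beb3fccfc9a7)) (.lf (nat_lit 0x82a652b6937a9c2d18)) (.lf (nat_lit 0x8007c9831362dd1af4)) (.lf (nat_lit 0x8007dd829320c49cab))) (.lf (nat_lit 0x8007d08343fae8ea2c)) (.lf (nat_lit 0x8007e682b386d18c3c))))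
  _ _ _ (by decide +kernel)

noncomputable def g1_18_m58 : GD 1 18 (-58) := chk_sound 
  (.cell (.nd (.lf (nat_lit 0x8007d0854397df1b03)) (.lf (nat_lit 0x8027dd826487cbad6f)) (.lf (nat_lit 0x8007e283d560f3ea21)) (.lf (nat_lit 0x80082b810cb3b97d62))) (.nd (.lf (nat_lit 0x80080181a83911bc0b)) (.nd (.lf (nat_lit 0x8305ccb9048f662da7)) (.lf (nat_lit 0x8148008003ec6d4ec7)) (.lf (nat_lit 0x8007ff81c68e2c1ddc)) (.lf (nat_lit 0x818797866898494f2e))) (.lf (nat_lit 0x80583984b3bd1ccaae)) (.lf (nat_lit 0x868d2c9ec983468c43))) (.lf (nat_lit 0x817667a683c1a51dad)) (.lf (nat_lit 0x80c7798fd437ef3843)) (.lf (nat_lit 0x80083c823e05afac56)) (.nd (.lf (nat_lit 0x8007d083c38ee90903)) (.lf (nat_lit 0x800651b33326b9fbc6)) (.lf (nat_lit 0x8077da82d368e0ba81)) (.lf (nat_lit 0x8007cd827326ca3c58))))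
  _ _ _ (by decide +kernel)

noncomputable def g1_22_m58 : GD 1 22 (-58) := chk_sound 
  (.cell (.nd (.lf (nat_lit 0x8007d281d36cdd6afb)) (.lf (nat_lit 0x8007e5835422c9ed42)) (.lf (nat_lit 0x8007db86050df0ca55)) (.lf (nat_lit 0x805829820d29b51d21))) (.nd (.lf (nat_lit 0x800801835839132c31)) (.lf (nat_lit 0x800636ad94e6569e07)) (.lf (nat_lit 0x80081781d3d41c8acd)) (.lf (nat_lit 0x869d4da338d843ec01))) (.lf (nat_lit 0x821668a723a2a3ed99)) (.lf (nat_lit 0x81662db4bb6d1d5806)) (.lf (nat_lit 0x800846816dfcb3bc33)) (.nd (.lf (nat_lit 0x8087a387b375e7e8e4)) (.lf (nat_lit 0x8135a3bfe390b14ba4)) (.lf (nat_lit 0x8087d2839343df3a74)) (.lf (nat_lit 0x8087da829307c94c45))))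
  _ _ _ (by decide +kernel)

theorem g2_20_m60 : GD 2 20 (-60) :=
  GD.split (i := 1) g1_18_m62 g1_22_m62 g1_18_m58 g1_22_m58 (by decide)

noncomputable def g1_26_m62 : GD 1 26 (-62) := chk_sound 
  (.cell (.lf (nat_lit 0x800756a6b48bd7fbf0)) (.lf (nat_lit 0x82d7728fd5af430e8a)) (.lf (nat_lit 0x8206d2a193689ecdc7)) (.lf (nat_lit 0x8007f6829ad008e8c1)) (.lf (nat_lit 0x80082f80ce2bac8c42)) (.nd (.lf (nat_lit 0x80876893cb7b0ef823)) (.lf (nat_lit 0x82456bcb641da20bef)) (.lf (nat_lit 0x8007e58353d7e7fa18)) (.lf (nat_lit 0x8007ca82f369d0dc29))))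
  _ _ _ (by decide +kernel)

noncomputable def g1_30_m62 : GD 1 30 (-62) := chk_sound 
  (.cell (.lf (nat_lit 0x80075aa1e46fd79c0c)) (.lf (nat_lit 0x80074b9285ff41ee90)) (.lf (nat_lit 0x813643b363f29d9d8c)) (.lf (nat_lit 0x8187c899eac80c1904)) (.lf (nat_lit 0x80083a81ee2caf4c22)) (.nd (.lf (nat_lit 0x8007e2858b880d885b)) (.lf (nat_lit 0x805537cfd45d9f1bc9)) (.lf (nat_lit 0x8087cf84f3c2e75a08)) (.lf (nat_lit 0x8007d880d357d08c1c))))
  _ _ _ (by decide +kernel)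

noncomputable def g1_26_m58 : GD 1 26 (-58) := chk_sound 
  (.cell (.nd (.lf (nat_lit 0x8007da823351dc2af8)) (.lf (nat_lit 0x8007d08243e1c8dd1f)) (.lf (nat_lit 0x8007eb843570ee3b25)) (.lf (nat_lit 0x82b800800d65b4cce5))) (.nd (.lf (nat_lit 0x8007f7850837147c51)) (.lf (nat_lit 0x822691a315314e9e4c)) (.lf (nat_lit 0x8717e68a03441eda03)) (.lf (nat_lit 0x86bd4aa427e03e7bbb))) (.lf (nat_lit 0x80066da6f38ba2cd91)) (.lf (nat_lit 0x8057a28a9be310f848)) (.lf (nat_lit 0x800823810dfbb71c0a)) (.nd (.lf (nat_lit 0x80779e88b367e778c1)) (.lf (nat_lit 0x821545c8e3e2a86b87)) (.lf (nat_lit 0x80080181332ade5a69)) (.lf (nat_lit 0x8007ff8182f5c8dc38))))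
  _ _ _ (by decide +kernel)

noncomputable def g1_30_m58 : GD 1 30 (-58) := chk_sound 
  (.cell (.lf (nat_lit 0x8156ff91f402d33c54)) (.lf (nat_lit 0x82e69ca1d56c4cae5f)) (.lf (nat_lit 0x82768aa49374a34d93)) (.lf (nat_lit 0x8097b5889be010d883)) (.lf (nat_lit 0x81084482ddfeb9bbde)) (.nd (.lf (nat_lit 0x80d7828b2367e7589f)) (.lf (nat_lit 0x81f51ccd341aa39b7e)) (.lf (nat_lit 0x8007c383c320ddda63)) (.lf (nat_lit 0x8087c28362f0c8ac33))))
  _ _ _ (by decide +kernel)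

theorem g2_28_m60 : GD 2 28 (-60) :=
  GD.split (i := 1) g1_26_m62 g1_30_m62 g1_26_m58 g1_30_m58 (by decide)

noncomputable def g1_18_m54 : GD 1 18 (-54) := chk_sound 
  (.cell (.nd (.lf (nat_lit 0x8007e38352f3d65b0c)) (.lf (nat_lit 0x8248008003bcc4cd39)) (.lf (nat_lit 0x8077d5854454e8cabc)) (.lf (nat_lit 0x800822820ae1bf0e56))) (.nd (.lf (nat_lit 0x82a432d4c51a7ceb9a)) (.lf (nat_lit 0x80a570c0d463736d3a)) (.lf (nat_lit 0x80081384040816aa2e)) (.lf (nat_lit 0x84cd43ae5867436ba5))) (.lf (nat_lit 0x99778f8b633aab8d87)) (.lf (nat_lit 0x8007768e0c30146853)) (.lf (nat_lit 0x80082c82edbfbadc2b)) (.lf (nat_lit 0x821724952290cd4aee)))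
  _ _ _ (by decide +kernel)

noncomputable def g1_22_m54 : GD 1 22 (-54) := chk_sound 
  (.cell (.nd (.lf (nat_lit 0x8007c683a2dbd51b05)) (.lf (nat_lit 0x8097cc835376c35d0f)) (.lf (nat_lit 0x8007db85b456e87aca)) (.lf (nat_lit 0x800814819c8eb68d9f))) (.nd (.lf (nat_lit 0x81f435d1f4dc834baa)) (.lf (nat_lit 0x834524c2149a705d1f)) (.lf (nat_lit 0x80583785940d163a1c)) (.lf (nat_lit 0x83ccfcab76e538ab40))) (.lf (nat_lit 0x9877e88c4318a90d83)) (.lf (nat_lit 0x80a79888331de428b0)) (.lf (nat_lit 0x80b843835db7befbf7)) (.lf (nat_lit 0x81f608ae72f0c4aac3)))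
  _ _ _ (by decide +kernel)

noncomputable def g1_18_m50 : GD 1 18 (-50) := chk_sound 
  (.cell (.nd (.lf (nat_lit 0x8037dc826272cd9b17)) (.lf (nat_lit 0x8007f081a2fdbdcce4)) (.lf (nat_lit 0x8007df8493f7e36b00)) (.lf (nat_lit 0x813800800b03b62e97))) (.nd (.lf (nat_lit 0x8144c6c694b0700cb4)) (.lf (nat_lit 0x83476e8ce2e97e6e16)) (.lf (nat_lit 0x80080382a4a910aa13)) (.lf (nat_lit 0x835d3dcea940614aa9))) (.lf (nat_lit 0x9a1556a473d29bbd58)) (.lf (nat_lit 0x80079a87b2b6def89c)) (.lf (nat_lit 0x800839832d5fc6cbef)) (.lf (nat_lit 0x800558b72312b6bb02)))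
  _ _ _ (by decide +kernel)

noncomputable def g1_22_m50 : GD 1 22 (-50) := chk_sound 
  (.cell (.nd (.lf (nat_lit 0x811800800269cd6b0d)) (.lf (nat_lit 0x8008008002d7bd0cc6)) (.lf (nat_lit 0x8007ff81e422e30b45)) (.lf (nat_lit 0x800823820c5ab42ddd))) (.nd (.lf (nat_lit 0x828450cad4ee74ac4f)) (.lf (nat_lit 0x81f8008002ad8a1def)) (.lf (nat_lit 0x80081f84147b10b9c1)) (.lf (nat_lit 0x818d18d7f9fe7da9f3))) (.lf (nat_lit 0x82d4c9a3b3f59f9d54)) (.lf (nat_lit 0x80b78f87d2addea86d)) (.lf (nat_lit 0x80083b827d58cb5ba1)) (.lf (nat_lit 0x814500c1c369b0cac7)))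
  _ _ _ (by decide +kernel)

theorem g2_20_m52 : GD 2 20 (-52) :=
  GD.split (i := 1) g1_18_m54 g1_22_m54 g1_18_m50 g1_22_m50 (by decide)

noncomputable def g1_26_m54 : GD 1 26 (-54) := chk_sound 
  (.cell (.nd (.lf (nat_lit 0x8017db82e2cfd47b04)) (.lf (nat_lit 0x8077cf82b34cc2ccf0)) (.lf (nat_lit 0x8007f182b4c1e8cb3e)) (.lf (nat_lit 0x80082e826cfcb6ed3a))) (.nd (.lf (nat_lit 0x8213ffd3056f774bc2)) (.lf (nat_lit 0x8174f9c284e56c8d23)) (.lf (nat_lit 0x80783d8663ce16c9b1)) (.lf (nat_lit 0x822d90c5a847541a89))) (.lf (nat_lit 0x81c7029422ffa47d95)) (.lf (nat_lit 0x80c78f890317e40882)) (.lf (nat_lit 0x80083a832db7c26bbe)) (.lf (nat_lit 0x800573bb5352bd7aa8)))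
  _ _ _ (by decide +kernel)

noncomputable def g1_30_m54 : GD 1 30 (-54) := chk_sound 
  (.cell (.nd (.lf (nat_lit 0x8007ca8282d2d45b0c)) (.lf (nat_lit 0x8007dc819333c2acda)) (.lf (nat_lit 0x8007df8384ebe89b6b)) (.lf (nat_lit 0x807836821d44b92cd7))) (.nd (.lf (nat_lit 0x8203d7d5655c816b58)) (.lf (nat_lit 0x81b4ebc1d5086aad31)) (.lf (nat_lit 0x8008408673a717596b)) (.lf (nat_lit 0x838d9cd169576f69ed))) (.lf (nat_lit 0x821576a8a42fa68d8b)) (.lf (nat_lit 0x8077b785a316e4885d)) (.lf (nat_lit 0x80a83c830dbdc51b82)) (.nd (.lf (nat_lit 0x80f7ad85629fdb8972)) (.lf (nat_lit 0x8124f1c8d3eba0eb9b)) (.lf (nat_lit 0x8097cb8322a0d3fabb)) (.lf (nat_lit 0x8007ed812296c18c3a))))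
  _ _ _ (by decide +kernel)

noncomputable def g1_26_m50 : GD 1 26 (-50) := chk_sound 
  (.cell (.nd (.lf (nat_lit 0x80080080026bcd9b0d)) (.lf (nat_lit 0x8228008002c4bd1cb0)) (.lf (nat_lit 0x8057e3834430e1cb78)) (.lf (nat_lit 0x803820818cc5b74d69))) (.nd (.lf (nat_lit 0x80841acbb517762c30)) (.lf (nat_lit 0x8358008002e884fe28)) (.lf (nat_lit 0x80081384445e110998)) (.lf (nat_lit 0x81ab8ec4ec48b83976))) (.lf (nat_lit 0xa686659c83a0a8bd2e)) (.lf (nat_lit 0x8127258f62b7ddb842)) (.lf (nat_lit 0x80083b836d57cf0b50)) (.lf (nat_lit 0x8164c9c46398ae8abd)))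
  _ _ _ (by decide +kernel)

noncomputable def g1_30_m50 : GD 1 30 (-50) := chk_sound 
  (.cell (.nd (.lf (nat_lit 0x81980080027bce1b1c)) (.lf (nat_lit 0x8008008002b8bd7c9e)) (.lf (nat_lit 0x811800800462e1dbac)) (.lf (nat_lit 0x8007ff816cf0b83d38))) (.nd (.lf (nat_lit 0x816439c845596c2c8d)) (.lf (nat_lit 0x8147e28032f0871e2d)) (.lf (nat_lit 0x80383887a44a119981)) (.lf (nat_lit 0x80885184dd93d9c91a))) (.lf (nat_lit 0x8313c6aed53d8dad66)) (.lf (nat_lit 0x83d3d8c014acc6a82c)) (.lf (nat_lit 0x80082082ad5dd1eafe)) (.lf (nat_lit 0x81f483c7c3d3ac6a8f)))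
  _ _ _ (by decide +kernel)

theorem g2_28_m52 : GD 2 28 (-52) :=
  GD.split (i := 1) g1_26_m54 g1_30_m54 g1_26_m50 g1_30_m50 (by decide)

theorem g3_24_m56 : GD 3 24 (-56) :=
  GD.split (i := 2) g2_20_m60 g2_28_m60 g2_20_m52 g2_28_m52 (by decide)

noncomputable def g1_18_m46 : GD 1 18 (-46) := chk_sound 
  (.cell (.nd (.lf (nat_lit 0x8087d582526bcf7ad8)) (.lf (nat_lit 0x80c7c282523eb61c65)) (.lf (nat_lit 0x8007c783d398dbbb68)) (.lf (nat_lit 0x800801815bd7b0fe50))) (.nd (.lf (nat_lit 0x83d49fc3e4cc6a2cbb)) (.lf (nat_lit 0x8008318132e96afe06)) (.lf (nat_lit 0x80082886056c0c4a31)) (.lf (nat_lit 0x822c0bd63b35a6d98f))) (.lf (nat_lit 0xbc994a8b8330a00c81)) (.lf (nat_lit 0x923811900270d86872)) (.lf (nat_lit 0x80082682ecdad40b94)) (.lf (nat_lit 0x81454ab7e2e3aebb1f)))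
  _ _ _ (by decide +kernel)

noncomputable def g1_22_m46 : GD 1 22 (-46) := chk_sound 
  (.cell (.nd (.lf (nat_lit 0x8077b983d278d0cac9)) (.lf (nat_lit 0x8007bb81423fb63c65)) (.lf (nat_lit 0x80b800800369dd6af8)) (.lf (nat_lit 0x80682381ac4cb42de7))) (.nd (.lf (nat_lit 0x844434c805066e8c62)) (.lf (nat_lit 0x80082580f2f66b7e13)) (.lf (nat_lit 0x80081681d54e0c2a0d)) (.lf (nat_lit 0x80985986ad1edff93b))) (.lf (nat_lit 0x831317a034998ddcd8)) (.lf (nat_lit 0x83436ad064a0a73886)) (.lf (nat_lit 0x81d800800cccd9ab17)) (.lf (nat_lit 0x8344dfbf133eacfad8)))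
  _ _ _ (by decide +kernel)

noncomputable def g1_18_m42 : GD 1 18 (-42) := chk_sound 
  (.cell (.nd (.lf (nat_lit 0x8007e1827238c9eb07)) (.lf (nat_lit 0x8675d28751f8b03ba9)) (.lf (nat_lit 0x81480080037fda1b76)) (.lf (nat_lit 0x819800800b2faccec8))) (.lf (nat_lit 0x82842cc3c445790c27)) (.lf (nat_lit 0xde47319663bc920aad)) (.lf (nat_lit 0x829360cea45ba0190c)) (.lf (nat_lit 0x804816827c03e4aae0)) (.lf (nat_lit 0x8346c89651d0adbbc0)))
  _ _ _ (by decide +kernel)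

noncomputable def g1_22_m42 : GD 1 22 (-42) := chk_sound 
  (.cell (.nd (.lf (nat_lit 0x8007d5828251ccfae9)) (.lf (nat_lit 0x8007da80419cadfbda)) (.lf (nat_lit 0x8228008003badb9b98)) (.lf (nat_lit 0x80080181fbe2ae5e5d))) (.lf (nat_lit 0x82938ecbc4b2808b4b)) (.lf (nat_lit 0x8560f58aa61e828b33)) (.lf (nat_lit 0x82e56eb3e2edc8c8a0)) (.lf (nat_lit 0x80082a83bbc7ec79ea)) (.lf (nat_lit 0x8275c2a9425fbe7a50)))
  _ _ _ (by decide +kernel)

theorem g2_20_m44 : GD 2 20 (-44) :=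
  GD.split (i := 1) g1_18_m46 g1_22_m46 g1_18_m42 g1_22_m42 (by decide)

noncomputable def g1_26_m46 : GD 1 26 (-46) := chk_sound 
  (.cell (.nd (.lf (nat_lit 0x8007d681828ad21aca)) (.lf (nat_lit 0x80080080023fb72c5b)) (.lf (nat_lit 0x8007d382939ade1b29)) (.lf (nat_lit 0x8007ff803c73b51dc2))) (.nd (.lf (nat_lit 0x8313e1cab527739c0e)) (.lf (nat_lit 0x8008218143056b6e1f)) (.lf (nat_lit 0x8008228435380caa08)) (.lf (nat_lit 0x80c8ae8e1ce3e3a83b))) (.lf (nat_lit 0x8302bea2d50d861cc4)) (.lf (nat_lit 0x8192b9d855ec914866)) (.lf (nat_lit 0x80082982acc1de1a98)) (.lf (nat_lit 0x8254c1c15365ad4abf)))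
  _ _ _ (by decide +kernel)

noncomputable def g1_30_m46 : GD 1 30 (-46) := chk_sound 
  (.cell (.nd (.lf (nat_lit 0x8007c782d2a3d2bae6)) (.lf (nat_lit 0x8007c481c23bb81c48)) (.lf (nat_lit 0x8007f982c40fdf4b99)) (.lf (nat_lit 0x80082e822ca2b59d97))) (.nd (.lf (nat_lit 0x83e40fc6955d69dc7b)) (.lf (nat_lit 0x80082680f3176aee2c)) (.lf (nat_lit 0x8008258505250d2a08)) (.lf (nat_lit 0x8088848b13451a3893))) (.lf (nat_lit 0xc1f5dca8b38199eb9f)) (.lf (nat_lit 0x9047729c1284d6d81d)) (.lf (nat_lit 0x80084784dcbae13a22)) (.lf (nat_lit 0x82e4b2c2e382adfaac)))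
  _ _ _ (by decide +kernel)

noncomputable def g1_26_m42 : GD 1 26 (-42) := chk_sound 
  (.cell (.nd (.lf (nat_lit 0x8007cb83e26acefae2)) (.lf (nat_lit 0x8007d581f1afb00be0)) (.lf (nat_lit 0x8007ff83941bde4bbf)) (.lf (nat_lit 0x80582981cc41b48dec))) (.lf (nat_lit 0x83f37bcd44c6831b1f)) (.lf (nat_lit 0x90a08a8617567fca93)) (.lf (nat_lit 0x84e5dab562a7c64880)) (.lf (nat_lit 0x80082e863b8cf168fc)) (.lf (nat_lit 0x82460ba4c265c739e7)))
  _ _ _ (by decide +kernel)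

noncomputable def g1_30_m42 : GD 1 30 (-42) := chk_sound 
  (.cell (.nd (.lf (nat_lit 0x8087b8842290cfcb11)) (.lf (nat_lit 0x8007ff81419fb16bb5)) (.lf (nat_lit 0x8007de8435a4e43c5f)) (.lf (nat_lit 0x80080180fc73b51dc2))) (.lf (nat_lit 0x800384ccc4e37dcb56)) (.lf (nat_lit 0x84c47b8470df88688b)) (.lf (nat_lit 0x84d6b5a9028ad0c894)) (.lf (nat_lit 0x80083184ab63f3b844)) (.lf (nat_lit 0x8245c3aa4273beca67)))
  _ _ _ (by decide +kernel)

theorem g2_28_m44 : GD 2 28 (-44) :=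
  GD.split (i := 1) g1_26_m46 g1_30_m46 g1_26_m42 g1_30_m42 (by decide)

noncomputable def g1_18_m38 : GD 1 18 (-38) := chk_sound 
  (.cell (.nd (.lf (nat_lit 0x8007e0829291d0faf7)) (.lf (nat_lit 0x84523497243aa74ad1)) (.nd (.lf (nat_lit 0x8007ff81f3e9dd8b9d)) (.lf (nat_lit 0x8007f582767dc41e9a)) (.lf (nat_lit 0x8007fd8497c0f8da9b)) (.lf (nat_lit 0x800816820a98d15d9a))) (.lf (nat_lit 0x82b4df953a1ea7ae77))) (.lf (nat_lit 0x8364cab733e5665cb8)) (.lf (nat_lit 0x844a568e5f57920993)) (.lf (nat_lit 0x82b2aaced58f9899b2)) (.lf (nat_lit 0x8057dac23ba6af8cf8)) (.lf (nat_lit 0x80a7b7817148a1dbc7)))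
  _ _ _ (by decide +kernel)

noncomputable def g1_22_m38 : GD 1 22 (-38) := chk_sound 
  (.cell (.nd (.lf (nat_lit 0x829641917310d1eb05)) (.lf (nat_lit 0x8464388c7243a9db09)) (.nd (.lf (nat_lit 0x81f800800447e0dbab)) (.lf (nat_lit 0x80280080083dc03eea)) (.lf (nat_lit 0x8007e68ba6f9fd88e9)) (.lf (nat_lit 0x8177aa908a58ce9dc2))) (.lf (nat_lit 0x800825810bf2aa7e6e))) (.lf (nat_lit 0x81d346cc64967e6aac)) (.lf (nat_lit 0x850e28908b56791baf)) (.lf (nat_lit 0x8174edbc3338c0392d)) (.lf (nat_lit 0x800801c70ad674adfa)) (.lf (nat_lit 0x8007d68231b0c73a10)))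
  _ _ _ (by decide +kernel)

noncomputable def g1_18_m34 : GD 1 18 (-34) := chk_sound 
  (.cell (.nd (.nd (.lf (nat_lit 0x8007e2810330ca0c67)) (.lf (nat_lit 0x8007e481e1c7acbc2c)) (.lf (nat_lit 0x8007db8283a7d85bd0)) (.lf (nat_lit 0x806800800694c41e9f))) (.lf (nat_lit 0x86e1529c7ae48caaa6)) (.nd (.lf (nat_lit 0x82c52bb01521d3eb58)) (.lf (nat_lit 0x80f8008009f3b23f18)) (.lf (nat_lit 0x8007e5843b7e1089c3)) (.lf (nat_lit 0x8007d2813c71445d81))) (.nd (.lf (nat_lit 0x80982580dc1f9baea2)) (.lf (nat_lit 0x80e83080ad778f3dc2)) (.lf (nat_lit 0x819800800c3f7b6ec5)) (.lf (nat_lit 0x8007e3806c7e7cfe9d)))) (.lf (nat_lit 0x8af7ab85440d249be0)) (.lf (nat_lit 0x86e2458ffb3c5d5bd8)) (.lf (nat_lit 0x81b6c1a002a0d249c1)) (.lf (nat_lit 0x818800800bb8330d31)) (.lf (nat_lit 0x8418008000a3938adc)))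
  _ _ _ (by decide +kernel)

noncomputable def g1_22_m34 : GD 1 22 (-34) := chk_sound 
  (.cell (.nd (.nd (.lf (nat_lit 0x8007c982a32fd45b98)) (.lf (nat_lit 0x82c8008001c7b1cbf1)) (.lf (nat_lit 0x8007e383239fdc9b5b)) (.lf (nat_lit 0x800800820831c3dec7))) (.lf (nat_lit 0x8550ca9f2920904a67)) (.lf (nat_lit 0x81f2e0c63add807b33)) (.lf (nat_lit 0x800800800bc4848f0d))) (.lf (nat_lit 0x88573b89f40a24abcc)) (.lf (nat_lit 0x81d23c9c48b0723d23)) (.lf (nat_lit 0x83a6c3a7028ecfb967)) (.lf (nat_lit 0x80079588da8f2e0d8a)) (.lf (nat_lit 0x8566dda4511a9f5a72)))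
  _ _ _ (by decide +kernel)

theorem g2_20_m36 : GD 2 20 (-36) :=
  GD.split (i := 1) g1_18_m38 g1_22_m38 g1_18_m34 g1_22_m34 (by decide)

noncomputable def g1_26_m38 : GD 1 26 (-38) := chk_sound 
  (.cell (.nd (.lf (nat_lit 0x8007c682c2cbd43b03)) (.lf (nat_lit 0x87959c87817ba88afb)) (.lf (nat_lit 0x8005d2aa363ed3dca9)) (.lf (nat_lit 0x800820804bb6a69ea9))) (.lf (nat_lit 0x83d3a8cd544581fac9)) (.lf (nat_lit 0x800e888218eb764c7c)) (.lf (nat_lit 0x823694a54294d1c8ff)) (.lf (nat_lit 0x80978eb4da78677eab)) (.lf (nat_lit 0x83056bb55262ad3a94)))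
  _ _ _ (by decide +kernel)

noncomputable def g1_30_m38 : GD 1 30 (-38) := chk_sound 
  (.cell (.nd (.lf (nat_lit 0x8298008002d1d06b70)) (.lf (nat_lit 0x82e4fb89f174a71a5d)) (.lf (nat_lit 0x8007f1830710dfed36)) (.lf (nat_lit 0x818800800bb2a33ebe))) (.lf (nat_lit 0x8353c3cbe457735b13)) (.lf (nat_lit 0x914e56857a0d77ec40)) (.lf (nat_lit 0x8356c9a162b3d5c920)) (.lf (nat_lit 0x8117e6af7aa3636eb6)) (.lf (nat_lit 0x82153ebae2b1b0ca4f)))
  _ _ _ (by decide +kernel)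

noncomputable def g1_26_m34 : GD 1 26 (-34) := chk_sound 
  (.cell (.nd (.nd (.lf (nat_lit 0x8007ff8264ddd54d12)) (.lf (nat_lit 0x80a78a8170569d4948)) (.lf (nat_lit 0x800801813592df4cc1)) (.lf (nat_lit 0x8007ff82b8f7c17ece))) (.lf (nat_lit 0x87611098cb0f85b9ef)) (.lf (nat_lit 0x82c3bec09bf672fba1)) (.lf (nat_lit 0x809800800ae8905f62))) (.lf (nat_lit 0x8486ed8af41e228b9c)) (.lf (nat_lit 0x8472bf9535d6842d75)) (.lf (nat_lit 0x8266f68ee31fdd6a08)) (.lf (nat_lit 0x800715940a2d346ddf)) (.lf (nat_lit 0x864737a0c0c29c29dc)))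
  _ _ _ (by decide +kernel)

noncomputable def g1_30_m34 : GD 1 30 (-34) := chk_sound 
  (.cell (.nd (.lf (nat_lit 0x8247aa860504dc8c9f)) (.lf (nat_lit 0x8004c486ef0e8249e1)) (.lf (nat_lit 0x82b49cb79cac671c04)) (.lf (nat_lit 0x800801806af4920f59))) (.lf (nat_lit 0x8c870888642b211b80)) (.lf (nat_lit 0x84825d98d91872ad46)) (.lf (nat_lit 0x90d498b4d4c5cf8a4a)) (.lf (nat_lit 0x817800800aab3fae60)) (.lf (nat_lit 0x88683598c0839779bd)))
  _ _ _ (by decide +kernel)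

theorem g2_28_m36 : GD 2 28 (-36) :=
  GD.split (i := 1) g1_26_m38 g1_30_m38 g1_26_m34 g1_30_m34 (by decide)

theorem g3_24_m40 : GD 3 24 (-40) :=
  GD.split (i := 2) g2_20_m44 g2_28_m44 g2_20_m36 g2_28_m36 (by decide)

end Pool.Agent.P.MP_f12b6c_an.Dg
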