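import Pool.Agent.P.MP_f12b6c_an.T3DgDef

/-! Certificates for the diagonal statement. -/

set_option maxRecDepth 100000
set_option linter.defProp false

namespace Pool.Agent.P.MP_f12b6c_an.Dg

noncomputable def g1_18_m30 : GD 1 18 (-30) := chk_sound 
  (.cell (.nd (.nd (.lf (nat_lit 0x8007f18294cdd48d14)) (.lf (nat_lit 0x8977cc82dae6c9ddd2)) (.lf (nat_lit 0x80033cbc95f8bc8aea)) (.lf (nat_lit 0x8007ff81e942c6ae8c))) (.lf (nat_lit 0x8975048b9e4e8efbaf)) (.lf (nat_lit 0x8293f1bcec3c779bd9)) (.lf (nat_lit 0x8007cd80fd68752dda))) (.lf (nat_lit 0x80381e8515a1159bbd)) (.lf (nat_lit 0x87c24e93fbc15b5b39)) (.lf (nat_lit 0x8007ed82c3c9e75a1c)) (.lf (nat_lit 0x800800800bbb34ad47)) (.lf (nat_lit 0x970e93889943af6ad5)))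
  _ _ _ (by decide +kernel)

noncomputable def g1_22_m30 : GD 1 22 (-30) := chk_sound 
  (.cell (.nd (.nd (.lf (nat_lit 0x8067dc8343e5da6be4)) (.lf (nat_lit 0x8007ad80ec02c71d4c)) (.lf (nat_lit 0x84b286c88825a53ad2)) (.lf (nat_lit 0x801813822a17c56e63))) (.lf (nat_lit 0x86c63185aeaa951bc6)) (.lf (nat_lit 0x819407bd0c6a726baa)) (.lf (nat_lit 0x800819808bac837f1a))) (.lf (nat_lit 0x8007ff81e594156bb2)) (.lf (nat_lit 0x82b3199d886f6fbdf1)) (.nd (.lf (nat_lit 0x8008238bf934fdc864)) (.lf (nat_lit 0x8007e48529a80c0aec)) (.lf (nat_lit 0x8057d88554e3eccad1)) (.lf (nat_lit 0x80d74e9e0b8d171a15))) (.lf (nat_lit 0x8037ef81ead72fed8d)) (.lf (nat_lit 0x893b5185adf9b7aa2d)))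
  _ _ _ (by decide +kernel)

noncomputable def g1_18_m26 : GD 1 18 (-26) := chk_sound 
  (.cell (.nd (.nd (.lf (nat_lit 0x8007ff8119abe14cec)) (.lf (nat_lit 0x80080d835b1dd74cf3)) (.lf (nat_lit 0x8492b4c9082aa76afe)) (.lf (nat_lit 0x80081081799bce0e22))) (.lf (nat_lit 0x882797829e1fa0ccad)) (.lf (nat_lit 0x8204c0b4cd0b6ecbfd)) (.lf (nat_lit 0x8107d8807dab73ed97))) (.lf (nat_lit 0x80080181f60f1a7c75)) (.lf (nat_lit 0x88b1ea952b0d5d4b4c)) (.lf (nat_lit 0x8265aebb4506df48be)) (.lf (nat_lit 0x8007ff828be53a7d77)) (.lf (nat_lit 0x80085a84cd82d94983)))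
  _ _ _ (by decide +kernel)

noncomputable def g1_22_m26 : GD 1 22 (-26) := chk_sound 
  (.cell (.nd (.nd (.lf (nat_lit 0x800801838a9ae2ac60)) (.lf (nat_lit 0x80783483ebf7d44c85)) (.lf (nat_lit 0x83b285c92ac4850a4b)) (.lf (nat_lit 0x8384d3b09cc6846cab))) (.lf (nat_lit 0x800801814d75acad23)) (.lf (nat_lit 0x82e562aa5d8262cc0d)) (.lf (nat_lit 0x800828804b5c80ff42))) (.lf (nat_lit 0x8008188375a0162bce)) (.lf (nat_lit 0x83d3e9985735741e9c)) (.nd (.lf (nat_lit 0x80683394893dfca841)) (.lf (nat_lit 0x8007e584da6510fb27)) (.lf (nat_lit 0x8007cf858468f0c91a)) (.lf (nat_lit 0x8017e682ac101b5acb))) (.lf (nat_lit 0x8007ef825b22345da2)) (.lf (nat_lit 0x80c85a850dbed62955)))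
  _ _ _ (by decide +kernel)

theorem g2_20_m28 : GD 2 20 (-28) :=
  GD.split (i := 1) g1_18_m30 g1_22_m30 g1_18_m26 g1_22_m26 (by decide)

noncomputable def g1_26_m30 : GD 1 26 (-30) := chk_sound 
  (.cell (.nd (.nd (.lf (nat_lit 0x8007f582a74fdecd54)) (.lf (nat_lit 0x80082d817d0ec09cb3)) (.lf (nat_lit 0x8292c9c53697b22a80)) (.lf (nat_lit 0x817800800aafc0de5a))) (.lf (nat_lit 0x87c72382be779e9c2f)) (.lf (nat_lit 0x823547b0ed3762bc15)) (.lf (nat_lit 0x80081c803a3e894fa8))) (.lf (nat_lit 0x80080581e588156baa)) (.lf (nat_lit 0x8533e695a54b861e25)) (.nd (.lf (nat_lit 0x81b944f8b7285d1813)) (.lf (nat_lit 0x8027ed85896b0deb4f)) (.lf (nat_lit 0x8007e08544aceb4acc)) (.lf (nat_lit 0x8007d5824be2166a4a))) (.lf (nat_lit 0x81978289aa74327dd1)) (.lf (nat_lit 0x8f8a9a885e57b859d8)))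
  _ _ _ (by decide +kernel)

noncomputable def g1_30_m30 : GD 1 30 (-30) := chk_sound 
  (.cell (.nd (.nd (.lf (nat_lit 0x8007ff824acad29d6f)) (.lf (nat_lit 0x800845817dc7b67c5a)) (.lf (nat_lit 0x83527acc683b9e4aa6)) (.lf (nat_lit 0x80080182ca42bfbe8f))) (.lf (nat_lit 0x89d73281feb49fcbbf)) (.lf (nat_lit 0x8105a5a98d35609c8d)) (.lf (nat_lit 0x80080180aa898caf8b))) (.lf (nat_lit 0x81980080057d155ba1)) (.lf (nat_lit 0x84922b9908b56ecd13)) (.lf (nat_lit 0x82b3bbcd7732bdea96)) (.lf (nat_lit 0x8007df816aa23a9e2e)) (.lf (nat_lit 0x8dec488c2d95b179e5)))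
  _ _ _ (by decide +kernel)

noncomputable def g1_26_m26 : GD 1 26 (-26) := chk_sound 
  (.cell (.nd (.nd (.lf (nat_lit 0x8007ff82b9ede8dc29)) (.lf (nat_lit 0x8007ff804cdacccc2c)) (.lf (nat_lit 0x81a22cc9d9928f9a4c)) (.lf (nat_lit 0x84464d98fc75973e0d))) (.lf (nat_lit 0x80883381dd7cb18ced)) (.lf (nat_lit 0x82f62aa58d8b5cdc6b)) (.lf (nat_lit 0x800801809a8f8e1f87))) (.lf (nat_lit 0x80781e855595162bc5)) (.lf (nat_lit 0x81151892855b8b0ed6)) (.nd (.lf (nat_lit 0x8008268e76ab03088c)) (.lf (nat_lit 0x8007e3832a1f12eb97)) (.lf (nat_lit 0x8176db93a462ec6978)) (.lf (nat_lit 0x800800800be91e4b5e))) (.lf (nat_lit 0x8007e4821abd367df1)) (.lf (nat_lit 0x80584e83ae0dd16926)))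
  _ _ _ (by decide +kernel)

noncomputable def g1_30_m26 : GD 1 30 (-26) := chk_sound 
  (.cell (.nd (.nd (.lf (nat_lit 0x800801828b62d87caf)) (.lf (nat_lit 0x800824818d60c48c16)) (.lf (nat_lit 0x80026ec8da108e3aae)) (.lf (nat_lit 0x83f7478ada8ab85ea4))) (.lf (nat_lit 0x8c279e826e0caaac6c)) (.lf (nat_lit 0x80066ea15d985adc86)) (.lf (nat_lit 0x808800800a598edf97))) (.lf (nat_lit 0x80281484158a15fbba)) (.lf (nat_lit 0x83c22294196f6b2cea)) (.lf (nat_lit 0x82e3badda87aaa7a0c)) (.lf (nat_lit 0x8007ff819acd3eee4a)) (.lf (nat_lit 0x80b87785ae57cbb904)))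
  _ _ _ (by decide +kernel)

theorem g2_28_m28 : GD 2 28 (-28) :=
  GD.split (i := 1) g1_26_m30 g1_30_m30 g1_26_m26 g1_30_m26 (by decide)

noncomputable def g1_18_m22 : GD 1 18 (-22) := chk_sound 
  (.cell (.nd (.lf (nat_lit 0x83f322be2bca845b46)) (.lf (nat_lit 0x82b800800d67ad4d2c)) (.lf (nat_lit 0x8235dea78dc862dc11)) (.lf (nat_lit 0x8007d8808d197afe27))) (.lf (nat_lit 0x80080683c6b91f7d16)) (.lf (nat_lit 0x8001ba92ba6564bbd3)) (.lf (nat_lit 0x8007ca85bbdb107889)) (.lf (nat_lit 0x8007e7826bcd3c8da1)) (.lf (nat_lit 0x80084884fccae3a970)))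
  _ _ _ (by decide +kernel)

noncomputable def g1_22_m22 : GD 1 22 (-22) := chk_sound 
  (.cell (.nd (.nd (.lf (nat_lit 0x80080d843953f50af1)) (.lf (nat_lit 0x80082a835be4dbbbfd)) (.nd (.lf (nat_lit 0x82c37bd42619b7588c)) (.lf (nat_lit 0x84b42abb0787d42ac7)) (.lf (nat_lit 0x8096a89d8c831ce807)) (.lf (nat_lit 0x80c24ecdaa028f19c0))) (.lf (nat_lit 0x82e582a4adae865c7b))) (.lf (nat_lit 0x821800800c53bf7d6f)) (.lf (nat_lit 0x813644a3cdd85e9c2d)) (.lf (nat_lit 0x815800800b86887f29))) (.lf (nat_lit 0x8007ff83969b150c27)) (.lf (nat_lit 0x82b51f8ea5f37cef1c)) (.nd (.lf (nat_lit 0x80582592a714026843)) (.lf (nat_lit 0x8037e1840afb15fb53)) (.lf (nat_lit 0x812509cc54fecd5803)) (.lf (nat_lit 0x8057cd83dc8f235b16))) (.lf (nat_lit 0x8007ed81fb743f2df7)) (.lf (nat_lit 0x80086d878d45de78f8)))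
  _ _ _ (by decide +kernel)

noncomputable def g1_18_m18 : GD 1 18 (-18) := chk_sound 
  (.cell (.nd (.nd (.lf (nat_lit 0x80080184c8f3f3bb45)) (.lf (nat_lit 0x800825842aa5e46c30)) (.nd (.lf (nat_lit 0x8007b4884453efb92a)) (.lf (nat_lit 0x8007ff84070af3ab47)) (.lf (nat_lit 0x8086e096bcd81e7826)) (.lf (nat_lit 0x8283c8c3d511c4891e))) (.lf (nat_lit 0x8433a1c1db33988bea))) (.lf (nat_lit 0x80082981ac88bcfd60)) (.lf (nat_lit 0x8196ca979e0159ec50)) (.lf (nat_lit 0x80082c80ac09871ee4))) (.lf (nat_lit 0x8007ff8376d91f4d1a)) (.lf (nat_lit 0x8001f38979cf6ddcbe)) (.lf (nat_lit 0x8067c9865b800f2950)) (.lf (nat_lit 0x8007f3817bde455df6)) (.lf (nat_lit 0x80084e85cc8be7b90b)))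
  _ _ _ (by decide +kernel)

noncomputable def g1_22_m18 : GD 1 22 (-18) := chk_sound 
  (.cell (.nd (.nd (.nd (.lf (nat_lit 0x80081584ea68f15ad0)) (.lf (nat_lit 0x80582a84ab41e9db16)) (.nd (.lf (nat_lit 0x80080186d795fcb9b1)) (.lf (nat_lit 0x8048188559dff20b18)) (.nd (.lf (nat_lit 0x8037d78554b0f41876)) (.lf (nat_lit 0x8007cd84b420efa85b)) (.lf (nat_lit 0x8077898c0c4814e813)) (.lf (nat_lit 0x80579a8a03a8eac815))) (.nd (.lf (nat_lit 0x80080184e73ffbe9d4)) (.lf (nat_lit 0x80080c848984f33b1f)) (.lf (nat_lit 0x8097688dd386e8a835)) (.lf (nat_lit 0x84e443c83d157c89eb)))) (.lf (nat_lit 0x8384cebdddd97aca1d))) (.lf (nat_lit 0x80282282fbfbdeab9e)) (.nd (.nd (.lf (nat_lit 0x80779785bdd22a18f6)) (.nd (.lf (nat_lit 0x80e79e867db427589e)) (.lf (nat_lit 0x83a468c37d6274c9f0)) (.lf (nat_lit 0x80079c877d301f5861)) (.lf (nat_lit 0x8097a1856e353118e8))) (.lf (nat_lit 0x80078d88fcce1ac88c))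 (.lf (nat_lit 0x8007c2844dd829c8c7))) (.lf (nat_lit 0x83d4e1bcfde66f69f1)) (.lf (nat_lit 0x8087bf845d8b2548f4)) (.lf (nat_lit 0x832395baccfe5fd966))) (.lf (nat_lit 0x84865a988e158c5c9c))) (.lf (nat_lit 0x80081b831af5c96dd8)) (.lf (nat_lit 0x81365d967dbf584c7c)) (.lf (nat_lit 0x805813806bbb90beff))) (.lf (nat_lit 0x80d80080068115fc37)) (.lf (nat_lit 0x8008008003d37ebed2)) (.nd (.lf (nat_lit 0x80180a8987920168e1)) (.lf (nat_lit 0x8067e4838b5c19bb6c)) (.lf (nat_lit 0x8027aa8a1bc60ff860)) (.lf (nat_lit 0x8067c584ace2294b41))) (.lf (nat_lit 0x824800800b8f486e43)) (.lf (nat_lit 0x80a87e88dd27e0e86f)))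
  _ _ _ (by decide +kernel)

theorem g2_20_m20 : GD 2 20 (-20) :=
  GD.split (i := 1) g1_18_m22 g1_22_m22 g1_18_m18 g1_22_m18 (by decide)

noncomputable def g1_26_m22 : GD 1 26 (-22) := chk_sound 
  (.cell (.nd (.nd (.nd (.lf (nat_lit 0x800832844b73e6bb48)) (.lf (nat_lit 0x800824841c30de6b66)) (.lf (nat_lit 0x828682975693f1eaa0)) (.lf (nat_lit 0x800801831b87df0c07))) (.lf (nat_lit 0x80083482fcc8d37bb8)) (.nd (.nd (.lf (nat_lit 0x8007d681b388e918e7)) (.lf (nat_lit 0x8007ff82d358e5f948)) (.lf (nat_lit 0x8077b18803adea88c5)) (.lf (nat_lit 0x8067ae865339e548e7))) (.lf (nat_lit 0x83b28ecc69dc99ba55)) (.lf (nat_lit 0x80d7b185dd7122c85e)) (.lf (nat_lit 0x8391f3c9a9748fc9be))) (.lf (nat_lit 0x8086aa950d6b8b4d88))) (.lf (nat_lit 0x80583182fcc2bc6d33)) (.lf (nat_lit 0x8325c39b7dd85edc30)) (.lf (nat_lit 0x800800800b128f2f53))) (.lf (nat_lit 0x8008018446b414fc2d)) (.lf (nat_lit 0x81962087e3e787ce92))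 (.nd (.lf (nat_lit 0x80080986a7030238fb)) (.lf (nat_lit 0x8007ed83dab317dbc5)) (.lf (nat_lit 0x830439cc6642cd78a7)) (.lf (nat_lit 0x8007c6846c61262b9f))) (.lf (nat_lit 0x8007ff816b0e412e42)) (.lf (nat_lit 0x80086f870daad908bc)))
  _ _ _ (by decide +kernel)

noncomputable def g1_30_m22 : GD 1 30 (-22) := chk_sound 
  (.cell (.nd (.nd (.lf (nat_lit 0x8008198539a5ec9be3)) (.lf (nat_lit 0x800826814d09cd7be4)) (.nd (.nd (.lf (nat_lit 0x8017f383a617ee9b89)) (.lf (nat_lit 0x8007f383672beabc55)) (.lf (nat_lit 0x8007d685644fede9bd)) (.lf (nat_lit 0x8007e38443d1e959be))) (.lf (nat_lit 0x81b3bbbe5750ca6ae9)) (.lf (nat_lit 0x8107408added2be867)) (.lf (nat_lit 0x84b255cbd8899d5a62))) (.lf (nat_lit 0x83467695cbf99cee61))) (.lf (nat_lit 0x8957ff824dc2b41c75)) (.lf (nat_lit 0x816792887db95c0d11)) (.lf (nat_lit 0x800800800a71927f87))) (.lf (nat_lit 0x80280d82f59316bbd6)) (.lf (nat_lit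 0x878cb090fb6965ad21)) (.nd (.lf (nat_lit 0x80080e84c6f503596d)) (.lf (nat_lit 0x8007dd83da4b1a8c4a)) (.lf (nat_lit 0x8057868cf40eedf889)) (.lf (nat_lit 0x8007cd832c20293c2d))) (.lf (nat_lit 0x812800800b2c49ae82)) (.lf (nat_lit 0x811892889deed438b2)))
  _ _ _ (by decide +kernel)

noncomputable def g1_26_m18 : GD 1 26 (-18) := chk_sound 
  (.cell (.nd (.nd (.nd (.lf (nat_lit 0x800801831b2beb9af2)) (.lf (nat_lit 0x800801830c17e1fb1e)) (.nd (.lf (nat_lit 0x80081884399cf3bb00)) (.lf (nat_lit 0x8007ff80da9dec6b5a)) (.lf (nat_lit 0x8057e2868600f65a42)) (.lf (nat_lit 0x800800800769f59b1a))) (.lf (nat_lit 0x805827844b6ee23bcd))) (.lf (nat_lit 0x80082681ecbad69b82)) (.nd (.nd (.lf (nat_lit 0x8007ce8423c9ebb8e1)) (.lf (nat_lit 0x8097b486c36de7f8be)) (.lf (nat_lit 0x81073b908cbc1b0828)) (.lf (nat_lit 0x80a796896342e63862))) (.lf (nat_lit 0x839376c98c16860a51)) (.lf (nat_lit 0x8007dc80edbf2b19a6))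 (.lf (nat_lit 0x83f4f5ad5e125c3a2f))) (.lf (nat_lit 0x8337588a6df78d8d2d))) (.lf (nat_lit 0x80682582dc15caed09)) (.lf (nat_lit 0x8007e681ce1257fc90)) (.lf (nat_lit 0x80181e812a969ccf5a))) (.lf (nat_lit 0x8007ff82e68e15cc36)) (.lf (nat_lit 0x83466585c436895ed2)) (.nd (.lf (nat_lit 0x80080b84c790024960)) (.lf (nat_lit 0x8037e4837b1c1b6bd5)) (.lf (nat_lit 0x8136d6a21bae15480c)) (.lf (nat_lit 0x8007d9814cb82bbbba))) (.lf (nat_lit 0x8007dc81bb3b496e78)) (.lf (nat_lit 0x8078d98dfd79db2847)))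
  _ _ _ (by decide +kernel)

noncomputable def g1_30_m18 : GD 1 30 (-18) := chk_sound 
  (.cell (.nd (.nd (.nd (.lf (nat_lit 0x80080080094beb8c24)) (.lf (nat_lit 0x800819844ad7e36c27)) (.lf (nat_lit 0x8067f585d6acf7da72)) (.lf (nat_lit 0x800810818919e3ace5))) (.lf (nat_lit 0x805817822c33d64c27)) (.nd (.nd (.lf (nat_lit 0x829551acc456de18f5)) (.lf (nat_lit 0x82b37cc93c2880da50)) (.lf (nat_lit 0x80971090ed43226828)) (.lf (nat_lit 0x8003e5bced2d6d3a1c))) (.lf (nat_lit 0x838355c6cc2880ca4e)) (.lf (nat_lit 0x80b78185fe3c32b929)) (.lf (nat_lit 0x8202a8c5eb4c839a52))) (.lf (nat_lit 0x82c63b98fc4097be2d))) (.lf (nat_lit 0x80b834826d96b94c76)) (.lf (nat_lit 0x8007de80cd765bfd63)) (.lf (nat_lit 0x81a800800af7930f55))) (.lf (nat_lit 0x80081d831599179bf1)) (.lf (nat_lit 0x83acf08aabc16b7cd5)) (.nd (.lf (nat_lit 0x80080a83b78e02a983)) (.lf (nat_lit 0x80080181aaab1e0c65)) (.lf (nat_lit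 0x80f7378fe3f6ec18a3)) (.lf (nat_lit 0x82c800800c6d2efc52))) (.lf (nat_lit 0x8007ff821b15465e70)) (.lf (nat_lit 0x80b871872dadd9586a)))
  _ _ _ (by decide +kernel)

theorem g2_28_m20 : GD 2 28 (-20) :=
  GD.split (i := 1) g1_26_m22 g1_30_m22 g1_26_m18 g1_30_m18 (by decide)

theorem g3_24_m24 : GD 3 24 (-24) :=
  GD.split (i := 2) g2_20_m28 g2_28_m28 g2_20_m20 g2_28_m20 (by decide)

noncomputable def g1_18_m14 : GD 1 18 (-14) := chk_sound 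
  (.cell (.nd (.nd (.nd (.lf (nat_lit 0x8008008197bbfd499b)) (.lf (nat_lit 0x8007ff81ac2be62a6a)) (.nd (.lf (nat_lit 0x80b75c9003bdea7857)) (.lf (nat_lit 0x8007dd8123adeae8c6)) (.lf (nat_lit 0x8136999c7cc41fe80f)) (.lf (nat_lit 0x8097ae87534ee6c896))) (.nd (.lf (nat_lit 0x80080484c813f97a80)) (.lf (nat_lit 0x80081682c94def7bb4)) (.lf (nat_lit 0x83b303c1cc77833979)) (.lf (nat_lit 0x8485a39c75d5ec9a18)))) (.lf (nat_lit 0x80081d814f36a01ad0)) (.nd (.nd (.lf (nat_lit 0x8027a5882c9d180827)) (.lf (nat_lit 0x8057d3835d85239825)) (.lf (nat_lit 0x800732928c8218d836)) (.lf (nat_lit 0x812664a19c99204807))) (.lf (nat_lit 0x84b345bbed0977e95e)) (.lf (nat_lit 0x8077b6852d1f1e2854)) (.lf (nat_lit 0x80f77b867e4c322868))) (.lf (nat_lit 0x834425b48d5a8d0aff))) (.lf (nat_lit 0x800819823b6bcabd85)) (.lf (nat_lit 0x8176ac90ce2b5b4c37)) (.lf (nat_lit 0x801800800bc895deea))) (.lf (nat_lit 0x8008118256dd1ded01))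 (.nd (.lf (nat_lit 0x8078478291b140eaea)) (.lf (nat_lit 0x87dcc68818436a3e3a)) (.lf (nat_lit 0x81085183ae56c68a0f)) (.lf (nat_lit 0x826c8c8ceafb7f1dcf))) (.lf (nat_lit 0x8166b5a023dce6980f)) (.lf (nat_lit 0x8027db81fbb04bbe4c)) (.lf (nat_lit 0x80086288dca0e6c8ee)))
  _ _ _ (by decide +kernel)

noncomputable def g0_21_m15 : GD 0 21 (-15) := chk_sound 
  (.cell (.nd (.nd (.lf (nat_lit 0x8007ff86b714fa4a22)) (.lf (nat_lit 0x800827817be1dffb98)) (.nd (.lf (nat_lit 0x8097b8884440efd8d6)) (.lf (nat_lit 0x83a255cce82ea7a998)) (.lf (nat_lit 0x8007af84dd73243910)) (.lf (nat_lit 0x82a800800e2c30b91e))) (.lf (nat_lit 0x8245dca0ad9a94acb5))) (.lf (nat_lit 0x80480b81ea0ccbce1c)) (.lf (nat_lit 0x81468393cddf5b2c85)) (.lf (nat_lit 0x800801812abea2cf31))) (.lf (nat_lit 0x80081283c69e167c4c)) (.lf (nat_lit 0x8007ff80744d83af16)) (.lf (nat_lit 0x8067b8893b8b0ea8e1)) (.lf (nat_lit 0x8007ff81eb994cee63))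 (.lf (nat_lit 0x8068888a5d25e10824)))
  _ _ _ (by decide +kernel)

noncomputable def g0_23_m15 : GD 0 23 (-15) := chk_sound 
  (.cell (.nd (.nd (.nd (.lf (nat_lit 0x800821851a79f28a8d)) (.lf (nat_lit 0x80080d832baae7eae3)) (.lf (nat_lit 0x8007fd83a7e8faea37)) (.lf (nat_lit 0x800821851af0e96b71))) (.lf (nat_lit 0x800812833c67db5b75)) (.nd (.lf (nat_lit 0x8097a5884384e9781a)) (.lf (nat_lit 0x82c291cc99f59b9a2c)) (.lf (nat_lit 0x8007af840dc22b99ab)) (.lf (nat_lit 0x8007bb834e883dea06))) (.lf (nat_lit 0x83c6fc900e35925cb2))) (.lf (nat_lit 0x80080681c9a7cb4e41)) (.lf (nat_lit 0x822683938dd35c1c9d)) (.lf (nat_lit 0x80080e812a57a75f3e))) (.lf (nat_lit 0x8007ff83169c164c47)) (.lf (nat_lit 0x81d80080042384feff)) (.lf (nat_lit 0x82e72fb7bbdd20b8d9)) (.lf (nat_lit 0x8007d9819b794d9e7a)) (.lf (nat_lit 0x82fd40dcb92093d801)))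
  _ _ _ (by decide +kernel)

noncomputable def g0_21_m13 : GD 0 21 (-13) := chk_sound 
  (.cell (.nd (.nd (.nd (.lf (nat_lit 0x80081c8689a9f6ca70)) (.lf (nat_lit 0x800813819b33ebaae8)) (.lf (nat_lit 0x8007e586d6a6fa89d2)) (.lf (nat_lit 0x80080184583bf82abb))) (.lf (nat_lit 0x80082b839c15ddab9a)) (.nd (.lf (nat_lit 0x80067fa19399e28810)) (.lf (nat_lit 0x838243c909a4a059d8)) (.lf (nat_lit 0x80f79c85bdb62a197c)) (.lf (nat_lit 0x8007a8830e713989b3))) (.lf (nat_lit 0x80066e971dee966cb9))) (.lf (nat_lit 0x80080082d95dc9fe62)) (.lf (nat_lit 0x82c69292ede75c4c8c)) (.lf (nat_lit 0x800818810a9ca76f26))) (.lf (nat_lit 0x8007ff8186a0168c4f)) (.lf (nat_lit 0x8007e780948f87ff34)) (.lf (nat_lit 0x84077db8eba01eb8ee)) (.lf (nat_lit 0x8007fa81fb864ebe7c)) (.lf (nat_lit 0x80088d8a3d26e068ab)))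
  _ _ _ (by decide +kernel)

noncomputable def g0_23_m13 : GD 0 23 (-13) := chk_sound 
  (.cell (.nd (.nd (.nd (.lf (nat_lit 0x800816838a1ff47a89)) (.lf (nat_lit 0x800829836ba8e77af4)) (.lf (nat_lit 0x8007ee8396d8fab9f0)) (.lf (nat_lit 0x84f77b8ada8aea8b85))) (.lf (nat_lit 0x80083183fc6bda1b8f)) (.nd (.lf (nat_lit 0x8047d383dd301f187c)) (.lf (nat_lit 0x821266ce0874a589c2)) (.lf (nat_lit 0x8007c982bde32ec9da)) (.lf (nat_lit 0x8047ae836e99415a38))) (.lf (nat_lit 0x8297438bae1d940ce4))) (.lf (nat_lit 0x8008008008e4c90e82)) (.lf (nat_lit 0x80068f928dde5d7ca2)) (.lf (nat_lit 0x802811812a5ca8bf35))) (.lf (nat_lit 0x80480d83d6a1167c4d)) (.lf (nat_lit 0x8077f680243c860f0c)) (.lf (nat_lit 0x81e6c2cbcba32e78e2)) (.lf (nat_lit 0x81d800800b754ebe85)) (.lf (nat_lit 0x80a87487ed4ede98a7)))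
  _ _ _ (by decide +kernel)

theorem g1_22_m14 : GD 1 22 (-14) :=
  GD.split (i := 0) g0_21_m15 g0_23_m15 g0_21_m13 g0_23_m13 (by decide)

noncomputable def g0_17_m11 : GD 0 17 (-11) := chk_sound 
  (.cell (.nd (.nd (.lf (nat_lit 0x8007f383a686f61ab2)) (.lf (nat_lit 0x800813821a51e43c66)) (.lf (nat_lit 0x80878087f257d898e1)) (.lf (nat_lit 0x83a42db4bb51aa1c88))) (.lf (nat_lit 0x800823820b5ecd2d6b)) (.lf (nat_lit 0x8007ff805df458ecbf)) (.lf (nat_lit 0x800816816b1f98df33))) (.lf (nat_lit 0x8008188385a61aac45)) (.lf (nat_lit 0x842a4f86860a900f52)) (.lf (nat_lit 0x82d7f499cb3d0f08fb)) (.lf (nat_lit 0x8007ea812b734c5e73)) (.lf (nat_lit 0x8618ba8beceee2b89d)))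
  _ _ _ (by decide +kernel)

noncomputable def g0_19_m11 : GD 0 19 (-11) := chk_sound 
  (.cell (.nd (.nd (.nd (.lf (nat_lit 0x80080c860863f95a7c)) (.lf (nat_lit 0x800812858a58ef6b25)) (.lf (nat_lit 0x8008018295b8f709d8)) (.lf (nat_lit 0x80080183a6edf8ba6b))) (.lf (nat_lit 0x80081e844bbedc2c17)) (.nd (.lf (nat_lit 0x8007b886b356e7884c)) (.lf (nat_lit 0x83f32cb66504c4f940)) (.lf (nat_lit 0x8087a3864d9c27693b)) (.lf (nat_lit 0x800787864e4633d93e))) (.lf (nat_lit 0x851570a32dc197ac26))) (.lf (nat_lit 0x80080f81a9fecb5e26)) (.lf (nat_lit 0x8216bb916dd85c8cb3)) (.lf (nat_lit 0x80080181aab5a47f2c))) (.lf (nat_lit 0x8008198335a51a5c3d)) (.lf (nat_lit 0x8007f180a50f8f1f61)) (.lf (nat_lit 0x8007e1852bab0ea866)) (.lf (nat_lit 0x8047e0817b714e0e82)) (.lf (nat_lit 0x84980783ad0de1691f)))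
  _ _ _ (by decide +kernel)

noncomputable def g0_17_m9 : GD 0 17 (-9) := chk_sound 
  (.cell (.nd (.nd (.nd (.lf (nat_lit 0x8027f28616baf5bad8)) (.lf (nat_lit 0x8007ff84f89af0fbb3)) (.lf (nat_lit 0x8017d486c4fcf0da39)) (.lf (nat_lit 0x8007f18226a6f1eb62))) (.lf (nat_lit 0x88f58f92cd9bb74b9a)) (.lf (nat_lit 0x849187b8aabd8ae938)) (.lf (nat_lit 0x85140bb09c10a83c06))) (.lf (nat_lit 0x80381b831b0ccc7da4)) (.lf (nat_lit 0x81f70c8ded835e0d3c)) (.lf (nat_lit 0x816800800ada9e5f3a))) (.lf (nat_lit 0x80280f8275a31b0c4d)) (.lf (nat_lit 0x819bab96971e93fecc)) (.lf (nat_lit 0x80476b93448cf16827)) (.lf (nat_lit 0x8007ff817b404b7e87)) (.lf (nat_lit 0x800809838926fa3a10)))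
  _ _ _ (by decide +kernel)

noncomputable def g0_19_m9 : GD 0 19 (-9) := chk_sound 
  (.cell (.nd (.nd (.nd (.lf (nat_lit 0x8007f5847768f9ea58)) (.lf (nat_lit 0x80080b839a5cee8b43)) (.lf (nat_lit 0x8037c687e465f0293e)) (.lf (nat_lit 0x80080183562bf75a39))) (.lf (nat_lit 0x80483d82ed75c3fc02)) (.nd (.lf (nat_lit 0x81372b8f7d2820783d)) (.lf (nat_lit 0x84a2b5b675d3c2598b)) (.lf (nat_lit 0x8007ca83adbb2a4983)) (.lf (nat_lit 0x8097b982ee6d38a9a0))) (.lf (nat_lit 0x83e5b19cedda9b1c45))) (.lf (nat_lit 0x80080080099cca1e52)) (.lf (nat_lit 0x81d6c1916dcf5bbcba)) (.lf (nat_lit 0x80081981eaa6a5ff2a))) (.lf (nat_lit 0x8007ff8205a21abc45)) (.lf (nat_lit 0x8007ff81154b93df6c)) (.lf (nat_lit 0x80e78b8be3e9ecb88f)) (.lf (nat_lit 0x8007e080bb494c9e8b)) (.lf (nat_lit 0x8007ff825987f989fb)))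
  _ _ _ (by decide +kernel)

theorem g1_18_m10 : GD 1 18 (-10) :=
  GD.split (i := 0) g0_17_m11 g0_19_m11 g0_17_m9 g0_19_m9 (by decide)

noncomputable def g0_21_m11 : GD 0 21 (-11) := chk_sound 
  (.cell (.nd (.nd (.nd (.lf (nat_lit 0x80080b84b920f8ba63)) (.lf (nat_lit 0x80081b823b4dea3aff)) (.lf (nat_lit 0x8057d8861551f6695b)) (.lf (nat_lit 0x83d64d9de6fbf2ca3f))) (.lf (nat_lit 0x80081182ec34db1bb9)) (.nd (.lf (nat_lit 0x8007ac863d4320587b)) (.lf (nat_lit 0x846207c60834a9e97b)) (.lf (nat_lit 0x80b7a684ddd62d39b3)) (.lf (nat_lit 0x8007b781fe8b3da9f5))) (.lf (nat_lit 0x83468c945e32965c75))) (.lf (nat_lit 0x8007ff81f8d5c7ee90)) (.lf (nat_lit 0x82a69d925dea5c9c90)) (.lf (nat_lit 0x80081b812a9ba86f21))) (.lf (nat_lit 0x8007ff8266af167c52)) (.lf (nat_lit 0x8008008004b38aaf41)) (.lf (nat_lit 0x81c691b4db901d2850)) (.lf (nat_lit 0x821800800b6f4e9e87)) (.lf (nat_lit 0x80484184ecf6e0a9a5)))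
  _ _ _ (by decide +kernel)

noncomputable def g0_23_m11 : GD 0 23 (-11) := chk_sound 
  (.cell (.nd (.nd (.nd (.lf (nat_lit 0x80081385e94df71a99)) (.lf (nat_lit 0x80782984eb50e8bb2c)) (.lf (nat_lit 0x8007e385f586f70988)) (.lf (nat_lit 0x8616c796a8bcf27af0))) (.lf (nat_lit 0x80882b838c2ada5bd5)) (.nd (.lf (nat_lit 0x80d7a985ed5c21e899)) (.lf (nat_lit 0x83d1f8c79920a0d96d)) (.lf (nat_lit 0x8007b882fde92f59dd)) (.lf (nat_lit 0x80979883fe9a41ca3d))) (.lf (nat_lit 0x8527ba859e2e961cdb))) (.lf (nat_lit 0x8007ff81c850c67eab)) (.lf (nat_lit 0x82669e91ede55e1ca4)) (.lf (nat_lit 0x80381981da81a86f2a))) (.lf (nat_lit 0x8008148416af167c51)) (.lf (nat_lit 0x80080080043e856f0d)) (.lf (nat_lit 0x83c6f9c30bc22798cb)) (.lf (nat_lit 0x8007f281fb6f4dfe82)) (.lf (nat_lit 0x8b17be88dd2dde4945)))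
  _ _ _ (by decide +kernel)

noncomputable def g0_21_m9 : GD 0 21 (-9) := chk_sound 
  (.cell (.nd (.nd (.nd (.lf (nat_lit 0x8007ff85480cfa1a60)) (.lf (nat_lit 0x800820858aeceb2b3c)) (.lf (nat_lit 0x8007d084c461f0c906)) (.lf (nat_lit 0x8027f885f77af89a9a))) (.lf (nat_lit 0x80080181cc88d1fc25)) (.nd (.lf (nat_lit 0x809786882d6522b896)) (.lf (nat_lit 0x850214bd6695b43931)) (.lf (nat_lit 0x8007bd831dd82d59ba)) (.lf (nat_lit 0x8007e8823e8d3e09ff))) (.lf (nat_lit 0x83569b935e2699bc7d))) (.lf (nat_lit 0x8007ff81a87ac63eab)) (.lf (nat_lit 0x8296a8922de85c1c93)) (.lf (nat_lit 0x817800800abaa83f16))) (.lf (nat_lit 0x80081c8455a21a8c3f)) (.lf (nat_lit 0x8007f980a4bc8b4f44)) (.lf (nat_lit 0x8224c9e64a08511827)) (.lf (nat_lit 0x8007e180fb564c8e84)) (.lf (nat_lit 0x800801830be7e92a59)))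
  _ _ _ (by decide +kernel)

noncomputable def g0_23_m9 : GD 0 23 (-9) := chk_sound 
  (.cell (.nd (.nd (.nd (.lf (nat_lit 0x8007ff85a814f86ab0)) (.lf (nat_lit 0x800811845a35ed7b7f)) (.lf (nat_lit 0x8057e1853545f529ab)) (.lf (nat_lit 0x8007ff853671f87a2e))) (.lf (nat_lit 0x80581f831b5eddcc45)) (.nd (.lf (nat_lit 0x80478d88bd151df83a)) (.lf (nat_lit 0x84d229c3780ab0c9a6)) (.lf (nat_lit 0x8077d8827dd12c69a8)) (.lf (nat_lit 0x80679a837e863dca03))) (.lf (nat_lit 0x8637078f4e26991ca9))) (.lf (nat_lit 0x8008018267f1c47ec2)) (.lf (nat_lit 0x82c6a8917de75dfca5)) (.lf (nat_lit 0x808800800a36a51f54))) (.lf (nat_lit 0x80081b8415a11a4c39)) (.lf (nat_lit 0x8007fc80342a82df04)) (.lf (nat_lit 0x80066aad9474e62804)) (.lf (nat_lit 0x8007ea820b644b6e74)) (.lf (nat_lit 0x8ec7268bacffde2982)))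
  _ _ _ (by decide +kernel)

theorem g1_22_m10 : GD 1 22 (-10) :=
  GD.split (i := 0) g0_21_m11 g0_23_m11 g0_21_m9 g0_23_m9 (by decide)

theorem g2_20_m12 : GD 2 20 (-12) :=
  GD.split (i := 1) g1_18_m14 g1_22_m14 g1_18_m10 g1_22_m10 (by decide)

noncomputable def g0_25_m15 : GD 0 25 (-15) := chk_sound 
  (.cell (.nd (.nd (.lf (nat_lit 0x8007fe8746edf99a35)) (.lf (nat_lit 0x800801820c8dd8bb89)) (.nd (.lf (nat_lit 0x81a6cd98ccc31e281e)) (.lf (nat_lit 0x83b2bccd18f6ab3a30)) (.lf (nat_lit 0x80b7a2856ddf2f09e6)) (.lf (nat_lit 0x8007b2827e9f436a60))) (.lf (nat_lit 0x829800800de2943d44))) (.lf (nat_lit 0x800805812a68ccfdeb)) (.lf (nat_lit 0x82b69a921db95decd6)) (.lf (nat_lit 0x80080d80d9e5a63f65))) (.lf (nat_lit 0x8007ff8256a5163c49)) (.lf (nat_lit 0x8007d48043af826ebb)) (.lf (nat_lit 0x831698d23b8b35a92f)) (.lf (nat_lit 0x8007e8827b5f4d3e85)) (.lf (nat_lit 0x80c876880d6add6853)))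
  _ _ _ (by decide +kernel)

noncomputable def g0_27_m15 : GD 0 27 (-15) := chk_sound 
  (.cell (.nd (.nd (.lf (nat_lit 0x80080184f7c3f93a89)) (.lf (nat_lit 0x80082c81dc40d91bdb)) (.nd (.lf (nat_lit 0x8007c88423acea58f9)) (.lf (nat_lit 0x83f2d5ce48c7ac7a3a)) (.lf (nat_lit 0x80079a855dd62cd99c)) (.lf (nat_lit 0x832800800e99404a1f))) (.lf (nat_lit 0x82a6e88f3d429dfd8a))) (.lf (nat_lit 0x81d800800c1fcbbcf5)) (.lf (nat_lit 0x81c6c38fcd8d60ed2f)) (.lf (nat_lit 0x8008148199ce9edf8d))) (.lf (nat_lit 0x80080080059e188c0e)) (.lf (nat_lit 0x8565a98263c1815e59)) (.lf (nat_lit 0x82c68ed61b8e3ad941)) (.lf (nat_lit 0x8057e481eb4d4bae82)) (.lf (nat_lit 0x80e8ac8b9d80db8817)))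
  _ _ _ (by decide +kernel)

noncomputable def g0_25_m13 : GD 0 25 (-13) := chk_sound 
  (.cell (.nd (.nd (.nd (.lf (nat_lit 0x80581b85c9e4f36adf)) (.lf (nat_lit 0x815800800b69e75b42)) (.lf (nat_lit 0x8047ef8766faf8da62)) (.lf (nat_lit 0x80081281fa86e8ebd2))) (.lf (nat_lit 0x80082a82dc3cda0bc9)) (.nd (.lf (nat_lit 0x80875c8c1d0f1e4838)) (.lf (nat_lit 0x83725cce69149ec9ce)) (.lf (nat_lit 0x8097ce833dea2f89e4)) (.lf (nat_lit 0x80c7b5832ea0437a5e))) (.lf (nat_lit 0x82f7168dfd969b8d4f))) (.lf (nat_lit 0x80080e827990cb9e43)) (.lf (nat_lit 0x82f6a8910dc55facdc)) (.lf (nat_lit 0x80481b81da0ea60f5b))) (.lf (nat_lit 0x8008158226a7166c4e)) (.lf (nat_lit 0x8007ff8023a5803eb5)) (.lf (nat_lit 0x82b5ebd53b463858af)) (.lf (nat_lit 0x8007fb81db694d9e83)) (.lf (nat_lit 0x879847859d53de28c0)))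
  _ _ _ (by decide +kernel)

noncomputable def g0_27_m13 : GD 0 27 (-13) := chk_sound 
  (.cell (.nd (.nd (.lf (nat_lit 0x8007f083c6d3f93a44)) (.lf (nat_lit 0x80080d83ab6ddd2c47)) (.nd (.lf (nat_lit 0x8007df84440dec8982)) (.lf (nat_lit 0x80d3ffba8606d12a38)) (.lf (nat_lit 0x8007a7854db9292938)) (.lf (nat_lit 0x80f7ab840e6737296d))) (.lf (nat_lit 0x83266098cc889d3deb))) (.lf (nat_lit 0x80080882fba0cc9d48)) (.lf (nat_lit 0x8116d88e7d99630d37)) (.lf (nat_lit 0x80080180c9f19aff93))) (.lf (nat_lit 0x81780080059f18fc19)) (.lf (nat_lit 0x8394af8214867f6e63)) (.lf (nat_lit 0x83e71cca3bc02df91d)) (.lf (nat_lit 0x8007de80ab614b7e76)) (.lf (nat_lit 0x8779ca946d18db9877)))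
  _ _ _ (by decide +kernel)

theorem g1_26_m14 : GD 1 26 (-14) :=
  GD.split (i := 0) g0_25_m15 g0_27_m15 g0_25_m13 g0_27_m13 (by decide)

noncomputable def g1_30_m14 : GD 1 30 (-14) := chk_sound 
  (.cell (.nd (.nd (.nd (.lf (nat_lit 0x8007fa840747ebdc3d)) (.lf (nat_lit 0x800800800827e75cb7)) (.nd (.lf (nat_lit 0x8007ed8386bef0db8d)) (.lf (nat_lit 0x8007f28456dae91c69)) (.lf (nat_lit 0x8007ea833466efa980)) (.lf (nat_lit 0x8007ee8406aef44b0f))) (.lf (nat_lit 0x8007fa8227a0ea6c6d))) (.lf (nat_lit 0x8008098399d5df9cfd)) (.nd (.lf (nat_lit 0x81d41dbe3d56724a20)) (.lf (nat_lit 0x8102f2c82b8c8a5a41)) (.lf (nat_lit 0x80d776885deb2ba8be)) (.lf (nat_lit 0x833564a59e134ac9e8))) (.lf (nat_lit 0x8395a0a13b23a83e27))) (.lf (nat_lit 0x80083c816d8bc06c1f)) (.lf (nat_lit 0x800801803d78619d84)) (.lf (nat_lit 0x800828803c048d7edd))) (.lf (nat_lit 0x80081983559c186c08)) (.lf (nat_lit 0x872cb9928c506b7c75))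 (.nd (.lf (nat_lit 0x8007f589c8800178de)) (.lf (nat_lit 0x8007e9834ae91f0c53)) (.lf (nat_lit 0x80a7b287a3a8eaa896)) (.lf (nat_lit 0x8007d5836ca6316c42))) (.lf (nat_lit 0x8007ff821b5247fe60)) (.lf (nat_lit 0x863a5799acb6dbb8db)))
  _ _ _ (by decide +kernel)

noncomputable def g0_25_m11 : GD 0 25 (-11) := chk_sound 
  (.cell (.nd (.nd (.nd (.lf (nat_lit 0x8008018498b3f5fb02)) (.lf (nat_lit 0x800804829a62ebcb97)) (.lf (nat_lit 0x8007e8847643f6ea60)) (.lf (nat_lit 0x800801844939ef6bbc))) (.lf (nat_lit 0x80082582ab70dd9c3b)) (.nd (.lf (nat_lit 0x80977c8b033fe5e83e)) (.lf (nat_lit 0x828247cc69cc9629ce)) (.lf (nat_lit 0x8027a0855dd32cc9a5)) (.lf (nat_lit 0x8067a6834e8d3efa15))) (.lf (nat_lit 0x8467528b0dc4953d4a))) (.lf (nat_lit 0x80080e8188d0c94e82)) (.lf (nat_lit 0x8006b7903dcf60acde)) (.lf (nat_lit 0x8008018149eea21f77))) (.lf (nat_lit 0x80081684a6b1167c51)) (.lf (nat_lit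 0x8158008003867c1e9f)) (.lf (nat_lit 0x8286beccfbb33048d4)) (.lf (nat_lit 0x800801803b704c3e74)) (.lf (nat_lit 0x9317e583ad2ede78e3)))
  _ _ _ (by decide +kernel)

noncomputable def g0_27_m11 : GD 0 27 (-11) := chk_sound 
  (.cell (.nd (.nd (.lf (nat_lit 0x8027fb84b788f37b68)) (.lf (nat_lit 0x80081f844a0de13cc6)) (.lf (nat_lit 0x83325cd0e85d9c29d3)) (.lf (nat_lit 0x8335c9a1cb8babdde0))) (.lf (nat_lit 0x800826828afdcccda8)) (.lf (nat_lit 0x8007ff817d82586d3e)) (.lf (nat_lit 0x800813814a80972f75))) (.lf (nat_lit 0x80381783859f196c23)) (.lf (nat_lit 0x8c63c58035d67ade61)) (.lf (nat_lit 0x81e664d1bb7733d8c9)) (.lf (nat_lit 0x8007e8821b704a0e62)) (.lf (nat_lit 0x8889b08feceddec8b4)))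
  _ _ _ (by decide +kernel)

noncomputable def g0_25_m9 : GD 0 25 (-9) := chk_sound 
  (.cell (.nd (.nd (.lf (nat_lit 0x8007ef85b5d9f4aa76)) (.lf (nat_lit 0x800801836a0be1dcbb)) (.lf (nat_lit 0x80020bc9b96c9a199c)) (.lf (nat_lit 0x8285aca12cbca62d1d))) (.lf (nat_lit 0x806800800848c70ea6)) (.lf (nat_lit 0x82d6c58fadd460fcdf)) (.lf (nat_lit 0x800810814a159c3f85))) (.lf (nat_lit 0x80081b8415a01a0c32)) (.lf (nat_lit 0x80082380b355761e76)) (.lf (nat_lit 0x82b6f0bccbb12298ce)) (.lf (nat_lit 0x807800800b6f499e5f)) (.lf (nat_lit 0x9397b286acdfe1194a)))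
  _ _ _ (by decide +kernel)

noncomputable def g0_27_m9 : GD 0 27 (-9) := chk_sound 
  (.cell (.nd (.lf (nat_lit 0x84038bc43b3d960bad)) (.lf (nat_lit 0x80080f82da4dcc2e00)) (.lf (nat_lit 0x8007ec818d88597d3f)) (.lf (nat_lit 0x800800800b40911f3b))) (.lf (nat_lit 0x81580080059f19ac2a)) (.lf (nat_lit 0x848ccb83e82574fe5a)) (.lf (nat_lit 0x800753a62b9b15c8d9)) (.lf (nat_lit 0x81b800800b7447ce4c)) (.lf (nat_lit 0x808856876cc9e518e8)))
  _ _ _ (by decide +kernel)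

theorem g1_26_m10 : GD 1 26 (-10) :=
  GD.split (i := 0) g0_25_m11 g0_27_m11 g0_25_m9 g0_27_m9 (by decide)

noncomputable def g1_30_m10 : GD 1 30 (-10) := chk_sound 
  (.cell (.nd (.lf (nat_lit 0x83f3edc22bea922bb1)) (.lf (nat_lit 0x807836834d61c52c09)) (.lf (nat_lit 0x8007d9819cd5650e25)) (.lf (nat_lit 0x821800800d26846e1d))) (.lf (nat_lit 0x8007ff82059e18fc18)) (.lf (nat_lit 0x800c3e98ed1e70ec0f)) (.lf (nat_lit 0x80e6a0a69bcd18b852)) (.lf (nat_lit 0x8037e981eb72463e3f)) (.lf (nat_lit 0x80482e848bddec39c9)))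
  _ _ _ (by decide +kernel)

theorem g2_28_m12 : GD 2 28 (-12) :=
  GD.split (i := 1) g1_26_m14 g1_30_m14 g1_26_m10 g1_30_m10 (by decide)

noncomputable def g1_18_m6 : GD 1 18 (-6) := chk_sound 
  (.cell (.nd (.nd (.nd (.lf (nat_lit 0x8007db86c5adf43a5f)) (.lf (nat_lit 0x8027f085a6d7f6fab0)) (.nd (.lf (nat_lit 0x8007c286241bed994c)) (.lf (nat_lit 0x8007e3852491eef9fe)) (.lf (nat_lit 0x8087a3883383e8d8b3)) (.lf (nat_lit 0x8007da83d3ace9794e))) (.nd (.lf (nat_lit 0x8007e38555aaf3ba78)) (.lf (nat_lit 0x8008018347d0f26b93)) (.lf (nat_lit 0x84f376b8b5edced976)) (.lf (nat_lit 0x845277bb6756c039b6)))) (.lf (nat_lit 0x8523d79ade248e1a4b)) (.nd (.nd (.lf (nat_lit 0x80072d90f31fe3180e)) (.lf (nat_lit 0x80c7a8872302e33885)) (.lf (nat_lit 0x803791877d3b20489b)) (.lf (nat_lit 0x80079587ad6f22d84e))) (.nd (.lf (nat_lit 0x81676586ceaf3b3879)) (.lf (nat_lit 0x851230bd7bb97da935)) (.lf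 (nat_lit 0x8006d492b27dd8d81b)) (.lf (nat_lit 0x81272f887ea83b084c))) (.lf (nat_lit 0x8007cb822d9a281984)) (.lf (nat_lit 0x80e789852e4d35a986))) (.nd (.lf (nat_lit 0x853371abdc73a28b56)) (.lf (nat_lit 0x80081e811aa8cfbdaa)) (.lf (nat_lit 0x83e800800e75900c9b)) (.lf (nat_lit 0x821800800b4dbd3e33)))) (.lf (nat_lit 0x8007ff8059edcade32)) (.lf (nat_lit 0x8007be81ee245d6ca3)) (.lf (nat_lit 0x80081a80cb24a58ef9))) (.lf (nat_lit 0x80081e81f4ba1d2be0)) (.lf (nat_lit 0x85cc8094a6ce908e48)) (.nd (.lf (nat_lit 0x8007ee8708bc04d9fc)) (.lf (nat_lit 0x800800800a93181be4)) (.nd (.lf (nat_lit 0x800782a229b9081807)) (.lf (nat_lit 0x8007e3835b6b0f69a1)) (.lf (nat_lit 0x8077c687a4cef418ea)) (.lf (nat_lit 0x8007a7869cb21a7926))) (.lf (nat_lit 0x80a7d0842c5e269bae))) (.lf (nat_lit 0x8007f6805b0047ee88)) (.nd (.lf (nat_lit 0x80884287a4580fa8fa)) (.lf (nat_lit 0x8008478191843ae9c6)) (.lf (nat_lit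 0x8007fc850787fa5a47)) (.lf (nat_lit 0x80784b844d74d28abc))))
  _ _ _ (by decide +kernel)

noncomputable def g0_21_m7 : GD 0 21 (-7) := chk_sound 
  (.cell (.nd (.nd (.nd (.lf (nat_lit 0x80080182870af8ca75)) (.lf (nat_lit 0x80081581b986f03b87)) (.lf (nat_lit 0x8077be88d495f14957)) (.lf (nat_lit 0x8007e785d66af78a59))) (.lf (nat_lit 0x800834835d77c46bf8)) (.nd (.lf (nat_lit 0x81072a902d0d1f283c)) (.lf (nat_lit 0x841505a223c7d8f950)) (.lf (nat_lit 0x8007c6846db52a0989)) (.lf (nat_lit 0x8067b5838e6d3989c3))) (.lf (nat_lit 0x8006019b7dc19f9c7a))) (.lf (nat_lit 0x800807817846c54eb8)) (.lf (nat_lit 0x8306b0922de05b0c97)) (.lf (nat_lit 0x80081e811a6ea4ff43))) (.lf (nat_lit 0x8008198365a01adc46)) (.lf (nat_lit 0x80c7e08084aa89bf3e)) (.lf (nat_lit 0x8007998ba40dee08a0)) (.lf (nat_lit 0x8007ff80bb39491e77)) (.lf (nat_lit 0x80080182bb7fecaa5e)))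
  _ _ _ (by decide +kernel)

noncomputable def g0_23_m7 : GD 0 23 (-7) := chk_sound 
  (.cell (.nd (.nd (.nd (.lf (nat_lit 0x8007f3869737f67ae5)) (.lf (nat_lit 0x80080d82e8a2f07bc2)) (.lf (nat_lit 0x8007ea8335a7f51a34)) (.lf (nat_lit 0x8068008007a0f16bb0))) (.lf (nat_lit 0x80081182e9e9e34cab)) (.lf (nat_lit 0x85521cc51a199b29cd)) (.lf (nat_lit 0x85e583a3ad0ca3acb8))) (.lf (nat_lit 0x8008018297c1c36ecb)) (.lf (nat_lit 0x8156b5915de65d5ca6)) (.lf (nat_lit 0x800819814a369f6f6e))) (.lf (nat_lit 0x80082183c5a01a9c40)) (.lf (nat_lit 0x8108008004017e4eed)) (.lf (nat_lit 0x8005a1cc5af12d0820)) (.lf (nat_lit 0x8007dd81db5047fe61)) (.lf (nat_lit 0x8e376588fcdee0f972)))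
  _ _ _ (by decide +kernel)

noncomputable def g0_21_m5 : GD 0 21 (-5) := chk_sound 
  (.cell (.nd (.nd (.lf (nat_lit 0x84b5de96c54fe97a93)) (.lf (nat_lit 0x802826833bbfd8ec5c)) (.lf (nat_lit 0x84e1e2c15804ab5992)) (.lf (nat_lit 0x844516ac4c94a5dc9b))) (.lf (nat_lit 0x80080782782fc52eba)) (.lf (nat_lit 0x8246bd922dd559dc9f)) (.lf (nat_lit 0x800801816a6f9f3f5d))) (.lf (nat_lit 0x80080e81559e1b1c4c)) (.lf (nat_lit 0x80680080047b85cf2c)) (.lf (nat_lit 0x8087d484fbbe0f2834)) (.lf (nat_lit 0x8007ec820b1645ae69)) (.lf (nat_lit 0x89f77a894c3ae5ca28)))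
  _ _ _ (by decide +kernel)

noncomputable def g0_23_m5 : GD 0 23 (-5) := chk_sound 
  (.cell (.nd (.nd (.lf (nat_lit 0x8008018126e2f1fb76)) (.lf (nat_lit 0x8007ff82c87ae3ecf9)) (.lf (nat_lit 0x80d7998772b0df1831)) (.lf (nat_lit 0x800506b2ab36b38cf1))) (.lf (nat_lit 0x8007f78127b3c35ecb)) (.lf (nat_lit 0x82a6be912ddf5c9cac)) (.lf (nat_lit 0x80081080fa80971f75))) (.lf (nat_lit 0x80080080059e1acc45)) (.lf (nat_lit 0x8008118053c477dec4)) (.lf (nat_lit 0x8067d585fb820e6905)) (.lf (nat_lit 0x8007ff81db3444de53)) (.lf (nat_lit 0x80082f851b89ed1a34)))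
  _ _ _ (by decide +kernel)

theorem g1_22_m6 : GD 1 22 (-6) :=
  GD.split (i := 0) g0_21_m7 g0_23_m7 g0_21_m5 g0_23_m5 (by decide)

noncomputable def g1_18_m2 : GD 1 18 (-2) := chk_sound 
  (.cell (.nd (.nd (.nd (.lf (nat_lit 0x9306c8849306d8ca55)) (.nd (.lf (nat_lit 0x8d96d5838398dfca91)) (.lf (nat_lit 0x9052828a0b8cbcba52)) (.lf (nat_lit 0x8097d682d2cad90a68)) (.lf (nat_lit 0x8007b983e2edd9ca92))) (.nd (.lf (nat_lit 0x8017c6872459ee79a6)) (.lf (nat_lit 0x8097b585a2eadf498f)) (.lf (nat_lit 0x8067cd85b472efb98e)) (.lf (nat_lit 0x8007be86c3a7e7e9a1))) (.nd (.lf (nat_lit 0x8067b983c252d34a1e)) (.lf (nat_lit 0x8057cd8342b5d7fa60)) (.lf (nat_lit 0x8007da830261d719a3)) (.lf (nat_lit 0x8007bd84529ad68a55)))) (.lf (nat_lit 0x86841c98ae5d88ca58)) (.nd (.lf (nat_lit 0x80774a8ac225d59850)) (.nd (.lf (nat_lit 0x8007e98302e7df8983)) (.lf (nat_lit 0x80b7bf84025cd579de)) (.lf (nat_lit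 0x80a7a9868305e1b942)) (.lf (nat_lit 0x8007ce82b231d5a939))) (.lf (nat_lit 0x80a788891cf81d38c2)) (.lf (nat_lit 0x800765893234d7182d))) (.nd (.lf (nat_lit 0x85f19dac0a3ba3ea56)) (.lf (nat_lit 0x80080080095fd63dc0)) (.lf (nat_lit 0x834496ababd0ab2ccd)) (.lf (nat_lit 0x80081f813ab1c33e40)))) (.lf (nat_lit 0x800800800991cbde40)) (.lf (nat_lit 0x82469d937d9a631d17)) (.lf (nat_lit 0x800801814b2a9b8f24))) (.lf (nat_lit 0x81b8209404dd1efbf7)) (.nd (.lf (nat_lit 0x83f800800174618c2c)) (.lf (nat_lit 0x83ce91a5d92f914b8e)) (.lf (nat_lit 0x8709f88bf8dabdee9c)) (.lf (nat_lit 0x849b50922ae9a30e32))) (.nd (.lf (nat_lit 0x8007e987f91a03a96f)) (.lf (nat_lit 0x8007e8821a52178bfc)) (.nd (.lf (nat_lit 0x8077dd88e604faf8cd)) (.lf (nat_lit 0x8067d8858b250bf923)) (.lf (nat_lit 0x8057d185f4b5f1b990)) (.lf (nat_lit 0x8077968b7c16131874))) (.lf (nat_lit 0x8087d183ec15248bcf))) (.lf (nat_lit 0x8007e9818b034dceb6))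 (.nd (.lf (nat_lit 0x80081886d9cefc585b)) (.lf (nat_lit 0x81387d8511603d097a)) (.nd (.lf (nat_lit 0x802800800737faca1d)) (.lf (nat_lit 0x83981c85f946f55ae5)) (.lf (nat_lit 0x8007e485c543f01ab2)) (.lf (nat_lit 0x80080b818a22ef8b4a))) (.lf (nat_lit 0x8438ff88b9c5deecee))))
  _ _ _ (by decide +kernel)

noncomputable def g1_22_m2 : GD 1 22 (-2) := chk_sound 
  (.cell (.nd (.nd (.nd (.lf (nat_lit 0x8007eb84c695f40b0c)) (.lf (nat_lit 0x80080184775ff40b4e)) (.lf (nat_lit 0x8007e0858434ee9948)) (.lf (nat_lit 0x8007ec820691f4baf2))) (.lf (nat_lit 0x80683b821e12b70be7)) (.lf (nat_lit 0x85942bb49dce7b3a24)) (.lf (nat_lit 0x82641cbe3b54aa9bf1))) (.lf (nat_lit 0x8447f082384dc0bee3)) (.lf (nat_lit 0x81c6d490ddcc5a4cb9)) (.lf (nat_lit 0x80d817807b0a8bbf5c))) (.lf (nat_lit 0x80080883659d1b4c4f)) (.lf (nat_lit 0x827afe89d5856c1ed9)) (.nd (.lf (nat_lit 0x80c721c69948183805)) (.lf (nat_lit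 0x8007ff825ae314bb42)) (.lf (nat_lit 0x8087ba8a74d3f48895)) (.lf (nat_lit 0x8007e6833c8d22fb0f))) (.lf (nat_lit 0x800801810af3426e5c)) (.lf (nat_lit 0x800800800828f84aba)))
  _ _ _ (by decide +kernel)

theorem g2_20_m4 : GD 2 20 (-4) :=
  GD.split (i := 1) g1_18_m6 g1_22_m6 g1_18_m2 g1_22_m2 (by decide)

noncomputable def g1_26_m6 : GD 1 26 (-6) := chk_sound 
  (.cell (.nd (.nd (.nd (.lf (nat_lit 0x8007ee85c6e2f3db31)) (.lf (nat_lit 0x800800800766f01bd0)) (.lf (nat_lit 0x82d672993389e358c0)) (.lf (nat_lit 0x8017f883f6d9f58af0))) (.lf (nat_lit 0x80081e834b82da2c75)) (.lf (nat_lit 0x85f486b90dc6786a58)) (.lf (nat_lit 0x82b4e8b1cc9597eca2))) (.lf (nat_lit 0x800ada8c1a70aa5e82)) (.lf (nat_lit 0x8306ef8d9dc6628d09)) (.lf (nat_lit 0x825800800ba78aff15))) (.lf (nat_lit 0x80080183059f1a3c37)) (.lf (nat_lit 0x855d9b94b9c87b6d3f)) (.nd (.lf (nat_lit 0x8027d78c1675fce83b)) (.lf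 (nat_lit 0x8027e283eb39178b4b)) (.lf (nat_lit 0x80c6c9a0240ce8b807)) (.lf (nat_lit 0x8007ff826cde27cb22))) (.lf (nat_lit 0x8007eb81eb5e44ee3e)) (.lf (nat_lit 0x80081a837a03f15b1d)))
  _ _ _ (by decide +kernel)

noncomputable def g1_30_m6 : GD 1 30 (-6) := chk_sound 
  (.cell (.nd (.lf (nat_lit 0x8556f98917bccc1e4f)) (.lf (nat_lit 0x806834828d7dbecc4a)) (.lf (nat_lit 0x8007e7810ce4664e1e)) (.lf (nat_lit 0x8007bf803dcd7e3d80))) (.lf (nat_lit 0x80081681a5a3193c21)) (.lf (nat_lit 0x84bcbd9fbcd9729ba5)) (.lf (nat_lit 0x8223efdf4a2d6249f3)) (.lf (nat_lit 0x816800800bd14c4e3d)) (.lf (nat_lit 0x8369519ac767e73c2d)))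
  _ _ _ (by decide +kernel)

noncomputable def g1_26_m2 : GD 1 26 (-2) := chk_sound 
  (.cell (.nd (.lf (nat_lit 0x84a48ebd2b09acdc84)) (.lf (nat_lit 0x82bb55922bc49cfdd7)) (.lf (nat_lit 0x82770e8c2dbf628d1b)) (.lf (nat_lit 0x82d800800cef7ebe4b))) (.lf (nat_lit 0x80080f81d5a21a5c3c)) (.lf (nat_lit 0x84dce2970c407a9c73)) (.lf (nat_lit 0x8097af876c3515994c)) (.lf (nat_lit 0x8007e5813b2a425e40)) (.lf (nat_lit 0x8007f581a6b1e66c9d)))
  _ _ _ (by decide +kernel)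

noncomputable def g1_30_m2 : GD 1 30 (-2) := chk_sound 
  (.cell (.lf (nat_lit 0x87e789882d438d7de7)) (.lf (nat_lit 0x80081b82d5ac190c21)) (.lf (nat_lit 0x834c299b9d817d0ba6)) (.lf (nat_lit 0x815427dcda4d65fac0)) (.lf (nat_lit 0x8007f681cba34b0e4e)) (.lf (nat_lit 0x847a5ca9c66eda1c2b)))
  _ _ _ (by decide +kernel)

theorem g2_28_m4 : GD 2 28 (-4) :=
  GD.split (i := 1) g1_26_m6 g1_30_m6 g1_26_m2 g1_30_m2 (by decide)

theorem g3_24_m8 : GD 3 24 (-8) :=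
  GD.split (i := 2) g2_20_m12 g2_28_m12 g2_20_m4 g2_28_m4 (by decide)

noncomputable def g1_18_2 : GD 1 18 2 := chk_sound 
  (.cell (.nd (.lf (nat_lit 0x8483acbe5b90a51b75)) (.lf (nat_lit 0x8008ab831970c89e64)) (.lf (nat_lit 0x82b6e58fbd8364dd56)) (.lf (nat_lit 0x80082780ac2a8b1ecb))) (.lf (nat_lit 0x80083099b4d2207bf2)) (.lf (nat_lit 0x84ae2595b8b97e0cdf)) (.lf (nat_lit 0x8007d9870b2a0c191a)) (.lf (nat_lit 0x8007ff813adf4dcec6)) (.lf (nat_lit 0x8138568d8773f21b77)))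
  _ _ _ (by decide +kernel)

noncomputable def g1_22_2 : GD 1 22 2 := chk_sound 
  (.cell (.nd (.lf (nat_lit 0x82c4abbccb2baf8c6c)) (.lf (nat_lit 0x881a5d828a61a5bed9)) (.lf (nat_lit 0x8197158d1db95d0cfe)) (.lf (nat_lit 0x8007dd803c687efeac))) (.lf (nat_lit 0x80081383d59f1b5c51)) (.nd (.lf (nat_lit 0x8008018191f85e0ccd)) (.lf (nat_lit 0x8048178164b94afe7f)) (.lf (nat_lit 0x829bde8e54b67bce1b)) (.lf (nat_lit 0x82caa08d08f278bf70))) (.lf (nat_lit 0x80b7bb86cbff167a0d)) (.lf (nat_lit 0x8007f980daca433e76)) (.lf (nat_lit 0x8007f48266b3e8ac6a)))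
  _ _ _ (by decide +kernel)

noncomputable def g1_18_6 : GD 1 18 6 := chk_sound 
  (.cell (.nd (.lf (nat_lit 0x8366899b891bccbde3)) (.lf (nat_lit 0x827a3f8c0aa7aeee89)) (.lf (nat_lit 0x80076f88ad43615da8)) (.lf (nat_lit 0x80e810801d25821e1f))) (.lf (nat_lit 0x80081782e48a28acb4)) (.lf (nat_lit 0x800f209d8a127e2a59)) (.lf (nat_lit 0x8027e6834be616da57)) (.lf (nat_lit 0x800800800af8525edb)) (.lf (nat_lit 0x8008018276c4ed5bf7)))
  _ _ _ (by decide +kernel)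

noncomputable def g1_22_6 : GD 1 22 6 := chk_sound 
  (.cell (.nd (.lf (nat_lit 0x80081982d9c4c9be4b)) (.lf (nat_lit 0x83cad68dfc19984e00)) (.lf (nat_lit 0x821785862daa63dd54)) (.lf (nat_lit 0x8007ff809d357b1e10))) (.lf (nat_lit 0x8008088245a71acc49)) (.lf (nat_lit 0x82ae08a0286a684c99)) (.lf (nat_lit 0x8027cd839cc4270b32)) (.lf (nat_lit 0x80080180cad4478e98)) (.lf (nat_lit 0x8037f4835650e90c3e)))
  _ _ _ (by decide +kernel)

theorem g2_20_4 : GD 2 20 4 :=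
  GD.split (i := 1) g1_18_2 g1_22_2 g1_18_6 g1_22_6 (by decide)

noncomputable def g2_28_4 : GD 2 28 4 := chk_sound 
  (.cell (.nd (.lf (nat_lit 0x8325d5aa2d958ebc81)) (.lf (nat_lit 0x8007ff80bdf4ab2c9c)) (.lf (nat_lit 0x800773881d7769ad9f)) (.lf (nat_lit 0x82e800800dfb7aed4c))) (.lf (nat_lit 0x80081880d58b1f3c9d)) (.lf (nat_lit 0x872ceaa64c6d740bb6)) (.lf (nat_lit 0x8264f1c4ec0d50bb4e)) (.lf (nat_lit 0x8007e0815cae5e8e23)) (.lf (nat_lit 0x83ac21a897ffd27bba)))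
  _ _ _ (by decide +kernel)

noncomputable def g2_20_12 : GD 2 20 12 := chk_sound 
  (.cell (.nd (.lf (nat_lit 0x81f67da01c8b9addd9)) (.lf (nat_lit 0x824bf7a10c15943d12)) (.lf (nat_lit 0x82c7408b2d626f1dba)) (.lf (nat_lit 0x80083c80ce1c8a1d1e))) (.nd (.lf (nat_lit 0x81767eecd6c84ad9b2)) (.lf (nat_lit 0x80284886a3f41569b5)) (.lf (nat_lit 0x8007f283c8ae258d9c)) (.lf (nat_lit 0x83f89484f344396ca5))) (.lf (nat_lit 0x821da6a36c7b83aaa6)) (.lf (nat_lit 0x81c652a99d214dfc47)) (.nd (.lf (nat_lit 0x800800800a4f3fde86)) (.lf (nat_lit 0x83ec559aeba56a7d38)) (.lf (nat_lit 0x8007e5814c2f570e51)) (.lf (nat_lit 0x8007da816c56656e82))) (.lf (nat_lit 0x80080182960fec6bc7)))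
  _ _ _ (by decide +kernel)

noncomputable def g1_26_10 : GD 1 26 10 := chk_sound 
  (.cell (.lf (nat_lit 0x80080c80cd388ebdfd)) (.lf (nat_lit 0x8008108225d7173c0b)) (.lf (nat_lit 0x848db0a5fc53860aa9)) (.lf (nat_lit 0x8124e0b98be7543c4f)) (.lf (nat_lit 0x8007e280fb394dae9b)) (.lf (nat_lit 0x8007e08485c2e70c2c)))
  _ _ _ (by decide +kernel)

noncomputable def g1_30_10 : GD 1 30 10 := chk_sound 
  (.cell (.lf (nat_lit 0x838715880d7592eda0)) (.lf (nat_lit 0x80081882f5a61d4c81)) (.lf (nat_lit 0x845d32a95c7e807b2c)) (.lf (nat_lit 0x81644ab58b185eed04)) (.lf (nat_lit 0x8007e281cbaf570e9e)) (.lf (nat_lit 0x80080182f588e53c39)))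
  _ _ _ (by decide +kernel)

noncomputable def g1_26_14 : GD 1 26 14 := chk_sound 
  (.cell (.lf (nat_lit 0x82a860835d9f8d9d9b)) (.lf (nat_lit 0x80081283f5951f2ca0)) (.lf (nat_lit 0x842cc2a32d678dea8c)) (.lf (nat_lit 0x81e45fa66bad5a5d19)) (.lf (nat_lit 0x81a800800b7f550eac)) (.lf (nat_lit 0x8007f8822598e8dbe7)))
  _ _ _ (by decide +kernel)

noncomputable def g1_30_14 : GD 1 30 14 := chk_sound 
  (.cell (.lf (nat_lit 0x809830810d2a929dfe)) (.lf (nat_lit 0x81b8388315c71a8c52)) (.lf (nat_lit 0x85cd1baa6c2c7c8ba6)) (.lf (nat_lit 0x8003fda3daf3617d86)) (.lf (nat_lit 0x8007db80ebef5f6ea8)) (.lf (nat_lit 0x8007ec84456fe77bf0)))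
  _ _ _ (by decide +kernel)

theorem g2_28_12 : GD 2 28 12 :=
  GD.split (i := 1) g1_26_10 g1_30_10 g1_26_14 g1_30_14 (by decide)

theorem g3_24_8 : GD 3 24 8 :=
  GD.split (i := 2) g2_20_4 g2_28_4 g2_20_12 g2_28_12 (by decide)

noncomputable def g1_18_18 : GD 1 18 18 := chk_sound 
  (.cell (.lf (nat_lit 0x824800800d2592ee02)) (.lf (nat_lit 0x83787d85351d2a6d28)) (.lf (nat_lit 0x824800800f83a289b0)) (.lf (nat_lit 0x84c489921bba597d8f)) (.lf (nat_lit 0x822800800b9d5ccec9)) (.lf (nat_lit 0x8007e88105c6ee0b6c)))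
  _ _ _ (by decide +kernel)

noncomputable def g1_22_18 : GD 1 22 18 := chk_sound 
  (.cell (.lf (nat_lit 0x800829813d1594be09)) (.lf (nat_lit 0x80081f81e53c280d1a)) (.lf (nat_lit 0x842c9ba0ed808e7ab8)) (.lf (nat_lit 0x82240d99ab565e8d80)) (.lf (nat_lit 0x8007ff818bad5c5ebe)) (.lf (nat_lit 0x8007e284659bec0b8c)))
  _ _ _ (by decide +kernel)

noncomputable def g1_18_22 : GD 1 18 22 := chk_sound 
  (.cell (.lf (nat_lit 0x818800800d3d92adee)) (.lf (nat_lit 0x83d9048a8557271cf2)) (.lf (nat_lit 0x80082681bf6fa4d9d5)) (.lf (nat_lit 0x8443f4907afe61bdd3)) (.lf (nat_lit 0x84e930889b695efece)) (.lf (nat_lit 0x80080180e589edbb4c)))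
  _ _ _ (by decide +kernel)

noncomputable def g1_22_22 : GD 1 22 22 := chk_sound 
  (.cell (.lf (nat_lit 0x82b800800d5f8eddda)) (.lf (nat_lit 0x8269148be585240ccc)) (.lf (nat_lit 0x826d72a90cb0909a29)) (.lf (nat_lit 0x8185939c3bd7620e0f)) (.lf (nat_lit 0x800800800bd7624ec4)) (.lf (nat_lit 0x80e80080056ceccb55)))
  _ _ _ (by decide +kernel)

theorem g2_20_20 : GD 2 20 20 :=
  GD.split (i := 1) g1_18_18 g1_22_18 g1_18_22 g1_22_22 (by decide)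

noncomputable def g1_26_18 : GD 1 26 18 := chk_sound 
  (.cell (.lf (nat_lit 0x833800800d42910dee)) (.lf (nat_lit 0x800814837564243ceb)) (.lf (nat_lit 0x85dd62aa0bcf7a8ba7)) (.lf (nat_lit 0x81d5c69d9c445cedb5)) (.lf (nat_lit 0x800800800bc35cbeb4)) (.lf (nat_lit 0x8007ef848574ea7ba0)))
  _ _ _ (by decide +kernel)

noncomputable def g1_30_18 : GD 1 30 18 := chk_sound 
  (.cell (.lf (nat_lit 0x83c759899d66908dbd)) (.lf (nat_lit 0x8318a388359f1feca3)) (.nd (.lf (nat_lit 0x80084d86a2f51f6956)) (.lf (nat_lit 0x840cdca81b8c74dc94)) (.lf (nat_lit 0x80d86b84be50cb6948)) (.lf (nat_lit 0x800821801ed6956bed))) (.lf (nat_lit 0x816551a05bb5632df9)) (.lf (nat_lit 0x8007e081eba95caec2)) (.lf (nat_lit 0x8047ec83855dea1b9b)))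
  _ _ _ (by decide +kernel)

noncomputable def g1_26_22 : GD 1 26 22 := chk_sound 
  (.cell (.lf (nat_lit 0x80083180bd808c1dc1)) (.lf (nat_lit 0x800819824560276d22)) (.nd (.lf (nat_lit 0x80083682d3111f19ae)) (.lf (nat_lit 0x841ce1a6bb77765cae)) (.lf (nat_lit 0x80084883ee77c76974)) (.lf (nat_lit 0x80784880dec6962c03))) (.lf (nat_lit 0xa366139c6b9863ae04)) (.lf (nat_lit 0x815800800be4636ec1)) (.lf (nat_lit 0x8007df840557ec3b54)))
  _ _ _ (by decide +kernel)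

noncomputable def g1_30_22 : GD 1 30 22 := chk_sound 
  (.cell (.lf (nat_lit 0x8396f98ecd858fed87)) (.lf (nat_lit 0x8208d4898571251ce8)) (.nd (.lf (nat_lit 0x8058008003571a0943)) (.lf (nat_lit 0x849ce0a69b19735ce8)) (.lf (nat_lit 0x80085a838e50c9b9a6)) (.lf (nat_lit 0x81081f808eb9978c12))) (.lf (nat_lit 0x82a5439b7b88669e35)) (.lf (nat_lit 0x8007ff811bb7638edb)) (.lf (nat_lit 0x8007e984d555ecfb39)))
  _ _ _ (by decide +kernel)

theorem g2_28_20 : GD 2 28 20 :=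
  GD.split (i := 1) g1_26_18 g1_30_18 g1_26_22 g1_30_22 (by decide)

noncomputable def g1_18_26 : GD 1 18 26 := chk_sound 
  (.cell (.lf (nat_lit 0x8276d2902d5892cd9f)) (.lf (nat_lit 0x82390389a5282bcd2c)) (.lf (nat_lit 0x841c199f3df49b1a3d)) (.lf (nat_lit 0x8003fb8aeae6637dfb)) (.lf (nat_lit 0x84293f898b37605ee9)) (.lf (nat_lit 0x8007de852557ed5b2d)))
  _ _ _ (by decide +kernel)

noncomputable def g1_22_26 : GD 1 22 26 := chk_sound 
  (.cell (.lf (nat_lit 0x8486ae92cd63919d87)) (.lf (nat_lit 0x80093c8c855a28fd05)) (.lf (nat_lit 0x835c51a16dd19ec9d8)) (.lf (nat_lit 0x8513b88b9ab3673df1)) (.lf (nat_lit 0x83d94a8a8b3661aeec)) (.lf (nat_lit 0x8007e6826546ed7b1d)))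
  _ _ _ (by decide +kernel)

noncomputable def g1_18_30 : GD 1 18 30 := chk_sound 
  (.cell (.lf (nat_lit 0x800800800cfa9b5e06)) (.lf (nat_lit 0x8009b3924598286ce6)) (.lf (nat_lit 0x813881834f52ae8945)) (.lf (nat_lit 0x8533d2944ab868cdf1)) (.lf (nat_lit 0x8008dc86cadd645f34)) (.lf (nat_lit 0x8057ee82f52ded8b04)))
  _ _ _ (by decide +kernel)

noncomputable def g1_22_30 : GD 1 22 30 := chk_sound 
  (.cell (.lf (nat_lit 0x800823814d0c999dfe)) (.lf (nat_lit 0x83b9238bf5192d6d31)) (.lf (nat_lit 0x81ed63aabc7893ca83)) (.lf (nat_lit 0x91844f839b0e64fe13)) (.lf (nat_lit 0x8009438a4ac962ef22)) (.lf (nat_lit 0x8007e884952aee7adc)))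
  _ _ _ (by decide +kernel)

theorem g2_20_28 : GD 2 20 28 :=
  GD.split (i := 1) g1_18_26 g1_22_26 g1_18_30 g1_22_30 (by decide)

noncomputable def g1_26_26 : GD 1 26 26 := chk_sound 
  (.cell (.lf (nat_lit 0x834800800cf69a9e0c)) (.lf (nat_lit 0x82b96490058f261cd7)) (.nd (.lf (nat_lit 0x80084386136719d958)) (.lf (nat_lit 0x832d04a7ab0a773cce)) (.lf (nat_lit 0x80f868848e65c4ea12)) (.lf (nat_lit 0x800839819eae98fc1b))) (.lf (nat_lit 0xa946a29b7b5664ee35)) (.lf (nat_lit 0x8009538afb2f636ef5)) (.lf (nat_lit 0x805800800542ee3b00)))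
  _ _ _ (by decide +kernel)

noncomputable def g1_30_26 : GD 1 30 26 := chk_sound 
  (.cell (.lf (nat_lit 0x800832802d0898fe04)) (.lf (nat_lit 0x8238858525a3289d4d)) (.nd (.lf (nat_lit 0x80483784c33b1b5935)) (.lf (nat_lit 0x850cd7a9eb19729cd4)) (.lf (nat_lit 0x801813810e18ca7a45)) (.lf (nat_lit 0x800831815e8e996c4b))) (.lf (nat_lit 0x8c43db858b05680de4)) (.lf (nat_lit 0x827800800b7b68af0d)) (.lf (nat_lit 0x8007d684d55cf04ac4)))
  _ _ _ (by decide +kernel)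

noncomputable def g1_26_30 : GD 1 26 30 := chk_sound 
  (.cell (.lf (nat_lit 0x808824809d1a984df8)) (.lf (nat_lit 0x8349598ee5512b4d19)) (.nd (.lf (nat_lit 0x80e86187a3111ce8ec)) (.lf (nat_lit 0x848d2ba76afb77fcb1)) (.lf (nat_lit 0x80083581ddf3c67b05)) (.lf (nat_lit 0x80983080de889bbc46))) (.lf (nat_lit 0xab7546817b3d65bdff)) (.lf (nat_lit 0x8009468a9abd62bf25)) (.lf (nat_lit 0x8067e085453cf06a9e)))
  _ _ _ (by decide +kernel)

noncomputable def g1_30_30 : GD 1 30 30 := chk_sound 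
  (.cell (.lf (nat_lit 0x800800800d23976df4)) (.lf (nat_lit 0x82e96f906576297d03)) (.nd (.lf (nat_lit 0x80b88489c2e41f28bc)) (.lf (nat_lit 0x84accda71acb756d29)) (.lf (nat_lit 0x800834835d6fc6cbd9)) (.lf (nat_lit 0x829800800e2299fcde))) (.lf (nat_lit 0xa1a699967cab694da4)) (.lf (nat_lit 0x800898854ab0673f57)) (.lf (nat_lit 0x815800800576f41a35)))
  _ _ _ (by decide +kernel)

theorem g2_28_28 : GD 2 28 28 :=
  GD.split (i := 1) g1_26_26 g1_30_26 g1_26_30 g1_30_30 (by decide)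

theorem g3_24_24 : GD 3 24 24 :=
  GD.split (i := 2) g2_20_20 g2_28_20 g2_20_28 g2_28_28 (by decide)

noncomputable def g1_18_34 : GD 1 18 34 := chk_sound 
  (.cell (.lf (nat_lit 0x9287ce87dd039b7ddb)) (.lf (nat_lit 0x8419d09415512e2d11)) (.lf (nat_lit 0x831bb39d4e2da669bb)) (.lf (nat_lit 0x8004ac892b7760ae0f)) (.lf (nat_lit 0x82686a839a8d654f61)) (.lf (nat_lit 0x8007ff83d50eee4ac8)))
  _ _ _ (by decide +kernel)

noncomputable def g1_22_34 : GD 1 22 34 := chk_sound 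
  (.cell (.lf (nat_lit 0x82a6e68e1d0a9badcb)) (.lf (nat_lit 0x8409e696456e2c7cf3)) (.lf (nat_lit 0x81fd65a92c82982a60)) (.lf (nat_lit 0x8654bc871bb7651e07)) (.lf (nat_lit 0x800800808aa066df64)) (.lf (nat_lit 0x8007ef83a51cf03a86)))
  _ _ _ (by decide +kernel)

noncomputable def g1_18_38 : GD 1 18 38 := chk_sound 
  (.cell (.lf (nat_lit 0x8726538c3d379fed68)) (.lf (nat_lit 0x835a5c9e75b42d9cc9)) (.lf (nat_lit 0x84ed6ca98c6f999a5a)) (.lf (nat_lit 0x8474fd8d7b9b4e2d9a)) (.lf (nat_lit 0x80089484da2d68cf88)) (.lf (nat_lit 0x8007dd8564feefea6d)))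
  _ _ _ (by decide +kernel)

noncomputable def g1_22_38 : GD 1 22 38 := chk_sound 
  (.cell (.lf (nat_lit 0x9446eb8efd079ceda3)) (.lf (nat_lit 0x828a519f65bc2c1cb3)) (.lf (nat_lit 0x84bd5ba96c8d985a58)) (.lf (nat_lit 0x8667ce823c74529dfd)) (.lf (nat_lit 0x82b892853a0269ff97)) (.lf (nat_lit 0x8007d584b524f2ca0e)))
  _ _ _ (by decide +kernel)

theorem g2_20_36 : GD 2 20 36 :=
  GD.split (i := 1) g1_18_34 g1_22_34 g1_18_38 g1_22_38 (by decide)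

noncomputable def g1_26_34 : GD 1 26 34 := chk_sound 
  (.cell (.lf (nat_lit 0x80a82880bd3296cde9)) (.lf (nat_lit 0x81f9e797457b2aecdb)) (.nd (.lf (nat_lit 0x80ba15a1bd3ad4780e)) (.lf (nat_lit 0x83fd26a8baae79dcdc)) (.lf (nat_lit 0x80083d826d29c55c4d)) (.lf (nat_lit 0x80083280ae2e9dccb8))) (.lf (nat_lit 0x81d692a6cc94678db9)) (.lf (nat_lit 0x80080180da4f6a5f89)) (.lf (nat_lit 0x8007dc86354af34a22)))
  _ _ _ (by decide +kernel)

noncomputable def g1_30_34 : GD 1 30 34 := chk_sound 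
  (.cell (.lf (nat_lit 0x80f830811d32967dea)) (.lf (nat_lit 0x80d8008005a12ced99)) (.lf (nat_lit 0x845d4da66a7c7cdce2)) (.lf (nat_lit 0x8007de815cd65f2e07)) (.lf (nat_lit 0x80c8008009476cffce)) (.lf (nat_lit 0x8007d887a5b0f7c987)))
  _ _ _ (by decide +kernel)

noncomputable def g1_26_38 : GD 1 26 38 := chk_sound 
  (.cell (.lf (nat_lit 0x8006fb8dad2a995dbf)) (.lf (nat_lit 0x812a2c9f65a72b1ca8)) (.lf (nat_lit 0x83adbda86a5c81fc5d)) (.lf (nat_lit 0x81b800800c45500e0f)) (.lf (nat_lit 0x8008008008db6b8fd9)) (.lf (nat_lit 0x8007eb860577f6d97e)))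
  _ _ _ (by decide +kernel)

noncomputable def g1_30_38 : GD 1 30 38 := chk_sound 
  (.cell (.lf (nat_lit 0x81c800800d3a963de4)) (.lf (nat_lit 0x8139e29f65752c6cc6)) (.nd (.lf (nat_lit 0x828b3eb136b2c34cf6)) (.lf (nat_lit 0x800821807376793e92)) (.lf (nat_lit 0x871b248ee740aa0ec1)) (.lf (nat_lit 0x82a99c87f59e83ef71))) (.lf (nat_lit 0x8067e0819c16527e41)) (.lf (nat_lit 0x80080180b819713ff2)) (.lf (nat_lit 0x8007cf8ae612fb28b6)))
  _ _ _ (by decide +kernel)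

theorem g2_28_36 : GD 2 28 36 :=
  GD.split (i := 1) g1_26_34 g1_30_34 g1_26_38 g1_30_38 (by decide)

noncomputable def g1_18_42 : GD 1 18 42 := chk_sound 
  (.cell (.lf (nat_lit 0x82f5f48f3d05a07d6f)) (.lf (nat_lit 0x839a519d94e5371cf9)) (.lf (nat_lit 0x854d9caaac2497fa6e)) (.lf (nat_lit 0x813800800ba5398d97)) (.lf (nat_lit 0x80c8008009776d9fc7)) (.lf (nat_lit 0x8007e185c501f299e3)))
  _ _ _ (by decide +kernel)

noncomputable def g1_22_42 : GD 1 22 42 := chk_sound 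
  (.cell (.lf (nat_lit 0x84a66194cd179d4d82)) (.lf (nat_lit 0x80d9fc9974b5355cfc)) (.nd (.lf (nat_lit 0x840c90b539babbbbe4)) (.lf (nat_lit 0x835cbba485015cdcbf)) (.lf (nat_lit 0x821c1b9fca7ab17d3e)) (.nd (.lf (nat_lit 0x80087983cf41b0d952)) (.lf (nat_lit 0x81ecf5a6ebe797fc00)) (.lf (nat_lit 0x80080f81fcebad7da1)) (.lf (nat_lit 0x80081680db2290af49)))) (.lf (nat_lit 0x81f800800b6648de5d)) (.lf (nat_lit 0x8007ff80f8c0707fe7)) (.lf (nat_lit 0x8047cf88a54cf60963)))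
  _ _ _ (by decide +kernel)

noncomputable def g1_18_46 : GD 1 18 46 := chk_sound 
  (.cell (.lf (nat_lit 0x84f5b1918d06a1bd43)) (.lf (nat_lit 0x82aad4aab5263cbccc)) (.nd (.lf (nat_lit 0x83ec9cadd937bfbc24)) (.lf (nat_lit 0x80096989721a537c5e)) (.lf (nat_lit 0x861c1b9a8b07b9ecb0)) (.nd (.lf (nat_lit 0x842eadad28e18b1b2e)) (.lf (nat_lit 0x844d58a8fa8194dc91)) (.lf (nat_lit 0x800827827c2bb70de5)) (.lf (nat_lit 0x800800800b01990f3f)))) (.lf (nat_lit 0x8007e3821ad0455e86)) (.lf (nat_lit 0x8007fd80d8076d5fe9)) (.lf (nat_lit 0x8007be8a0527f5c91b)))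
  _ _ _ (by decide +kernel)

noncomputable def g1_22_46 : GD 1 22 46 := chk_sound 
  (.cell (.lf (nat_lit 0x82662697ed1b9f0d56)) (.lf (nat_lit 0x818a80a9f4e1413d11)) (.nd (.lf (nat_lit 0x8699639275e8e3fc24)) (.lf (nat_lit 0x82780080036b8d9e80)) (.lf (nat_lit 0x83eac587c60bbc5e29)) (.lf (nat_lit 0x86c97787054a951f3d))) (.lf (nat_lit 0x8007ff827add3bee22)) (.lf (nat_lit 0x80a800800710739fe8)) (.lf (nat_lit 0x8007b38f75a7f90879)))
  _ _ _ (by decide +kernel)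

theorem g2_20_44 : GD 2 20 44 :=
  GD.split (i := 1) g1_18_42 g1_22_42 g1_18_46 g1_22_46 (by decide)

noncomputable def g2_28_44 : GD 2 28 44 := chk_sound 
  (.cell (.lf (nat_lit 0x84e68e994da398dd03)) (.lf (nat_lit 0x8269d999450b2e5cd2)) (.nd (.lf (nat_lit 0x82ec25abf93cc10c9a)) (.lf (nat_lit 0x822d44ab46ed7a0d41)) (.lf (nat_lit 0x83bb639409c2b8adf0)) (.lf (nat_lit 0x800c01a23a9f9dfdbf))) (.lf (nat_lit 0x81e800800b91537e98)) (.lf (nat_lit 0x80a8008008fc730fe5)) (.lf (nat_lit 0x830988c07a5b26faf9)))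
  _ _ _ (by decide +kernel)

theorem g3_24_40 : GD 3 24 40 :=
  GD.split (i := 2) g2_20_36 g2_28_36 g2_20_44 g2_28_44 (by decide)

noncomputable def g2_20_52 : GD 2 20 52 := chk_sound 
  (.cell (.lf (nat_lit 0x85663c96fd5ca1ad0e)) (.lf (nat_lit 0x827b3ebb75a14a3cc4)) (.nd (.lf (nat_lit 0x848846857515ebab26)) (.lf (nat_lit 0x83e86682a41e9aeec5)) (.lf (nat_lit 0x8cbb358926bec22dd6)) (.lf (nat_lit 0x85d9e287c753aecf25))) (.lf (nat_lit 0x8007e181da7f470eb6)) (.lf (nat_lit 0x8118008005b084dfa6)) (.nd (.lf (nat_lit 0x8007ed87997d073a1f)) (.lf (nat_lit 0x8007da89b622fbe85b)) (.lf (nat_lit 0x82288392eb3c1fabf1)) (.lf (nat_lit 0x830971c69bc73bab24))))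
  _ _ _ (by decide +kernel)

noncomputable def g2_28_52 : GD 2 28 52 := chk_sound 
  (.cell (.lf (nat_lit 0x82b756970d569cbd74)) (.lf (nat_lit 0x80d89fcb163640ccc5)) (.lf (nat_lit 0x8007d482d360c03d24)) (.lf (nat_lit 0x819800800b4d512eab)) (.lf (nat_lit 0x8007ff80a8c674efee)) (.nd (.lf (nat_lit 0x8007fc861849094af1)) (.lf (nat_lit 0x8007f28a48ad012870)) (.lf (nat_lit 0x841938a9cc9e4c6ce3)) (.lf (nat_lit 0x825a45ce5cab7e1b9c))))
  _ _ _ (by decide +kernel)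

noncomputable def g2_20_60 : GD 2 20 60 := chk_sound 
  (.cell (.lf (nat_lit 0x8446d79efd6b9e4d17)) (.lf (nat_lit 0x815824d88677481c56)) (.lf (nat_lit 0x8557ea821352cd7c4d)) (.lf (nat_lit 0x800800800a8853af10)) (.lf (nat_lit 0x8008008005cf85efaf)) (.nd (.lf (nat_lit 0x8007f382c8980fabc6)) (.lf (nat_lit 0x8007e98a88dd029924)) (.lf (nat_lit 0x8027da82ac4e420d83)) (.lf (nat_lit 0x833a29c90c75620be2))))
  _ _ _ (by decide +kernel)

noncomputable def g2_28_60 : GD 2 28 60 := chk_sound 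
  (.cell (.lf (nat_lit 0x80071e8d0da996bd56)) (.lf (nat_lit 0x80e81db8a6fc1d0b7a)) (.lf (nat_lit 0x8007e282c319c26cc3)) (.lf (nat_lit 0x8007e080bb9b575eab)) (.lf (nat_lit 0x8008018088447aeffd)) (.nd (.lf (nat_lit 0x8007ff8407eb0f1bc0)) (.lf (nat_lit 0x80280588c79e02c97e)) (.lf (nat_lit 0x8007dc819cf355edb4)) (.lf (nat_lit 0x826a94cafc9da02b2c))))
  _ _ _ (by decide +kernel)

theorem g3_24_56 : GD 3 24 56 :=
  GD.split (i := 2) g2_20_52 g2_28_52 g2_20_60 g2_28_60 (by decide)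

noncomputable def g2_20_68 : GD 2 20 68 := chk_sound 
  (.cell (.lf (nat_lit 0x800724993d3b9fad6e)) (.lf (nat_lit 0x80782eb0b739178b60)) (.lf (nat_lit 0x84029bbe66c7c1b91c)) (.lf (nat_lit 0x8007d4812bee5fdeab)) (.lf (nat_lit 0x8047e08104e794cf42)) (.nd (.lf (nat_lit 0x8007f884083a16bc88)) (.lf (nat_lit 0x80080783a7b8057a44)) (.lf (nat_lit 0x8007e2809c5b51ce0d)) (.lf (nat_lit 0x82ead0c35ca78cac02))))
  _ _ _ (by decide +kernel)

noncomputable def g2_28_68 : GD 2 28 68 := chk_sound 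
  (.cell (.lf (nat_lit 0x833800800d7c98fd9b)) (.lf (nat_lit 0x8008138316850f9b83)) (.lf (nat_lit 0x8de8658552e9d51af6)) (.lf (nat_lit 0x8007ff814c2566dea8)) (.lf (nat_lit 0x8007ff80aa3d722fa1)) (.nd (.lf (nat_lit 0x80080082f9381fdd21)) (.lf (nat_lit 0x8038138616c806ca36)) (.lf (nat_lit 0x8007ff80fd3b69bde3)) (.lf (nat_lit 0x80b84683cdb3cbcafd))))
  _ _ _ (by decide +kernel)

noncomputable def g2_20_76 : GD 2 20 76 := chk_sound 
  (.cell (.lf (nat_lit 0x800815810d13990dfb)) (.lf (nat_lit 0x8008118356b10edb7c)) (.lf (nat_lit 0x84c6fab95e8281eac3)) (.lf (nat_lit 0x8047e0815c0c62eea7)) (.lf (nat_lit 0x81c8008004d192bf3e)) (.lf (nat_lit 0x8188e6af0d136c8d39)))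
  _ _ _ (by decide +kernel)

noncomputable def g2_28_76 : GD 2 28 76 := chk_sound 
  (.cell (.lf (nat_lit 0x830800800d05a3add0)) (.lf (nat_lit 0x8158008005d7177c12)) (.lf (nat_lit 0x92fab69003c7dd498d)) (.lf (nat_lit 0x816800800c6c61ae63)) (.lf (nat_lit 0x8007f280eaf56e2f59)) (.lf (nat_lit 0x800963af3cea6ebd4b)))
  _ _ _ (by decide +kernel)

theorem g3_24_72 : GD 3 24 72 :=
  GD.split (i := 2) g2_20_68 g2_28_68 g2_20_76 g2_28_76 (by decide)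

noncomputable def g2_20_84 : GD 2 20 84 := chk_sound 
  (.cell (.lf (nat_lit 0x80083481cd0a9fbde2)) (.lf (nat_lit 0x8168008005ee174c19)) (.lf (nat_lit 0x84d677b80d9fae6b0c)) (.lf (nat_lit 0x8007d7817c1b62be9d)) (.lf (nat_lit 0x8007f78086e9855feb)) (.nd (.lf (nat_lit 0x8007f6820bb448de31)) (.lf (nat_lit 0x800baedd599a5e6b12)) (.lf (nat_lit 0x820800800d67813de5)) (.lf (nat_lit 0x805847825e20b02c29))))
  _ _ _ (by decide +kernel)

noncomputable def g2_28_84 : GD 2 28 84 := chk_sound 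
  (.cell (.lf (nat_lit 0x82085c98ad3599eda2)) (.lf (nat_lit 0x8008008005e4170c0e)) (.lf (nat_lit 0xcdb8cf8685a7da497f)) (.lf (nat_lit 0x82d8c38b2c66637e5a)) (.lf (nat_lit 0x8077e380cb446d8f35)) (.nd (.lf (nat_lit 0x81f925a0ccbf668dc7)) (.lf (nat_lit 0x8009f2b89d1ab1fb73)) (.lf (nat_lit 0x800835807d9a87fdaf)) (.lf (nat_lit 0x80083d806ddcba5c09))))
  _ _ _ (by decide +kernel)

noncomputable def g2_20_92 : GD 2 20 92 := chk_sound 
  (.cell (.lf (nat_lit 0x80b936ae5cdd945d5f)) (.lf (nat_lit 0x8008018295f217ac24)) (.lf (nat_lit 0x858684c03d29b70aaa)) (.lf (nat_lit 0x8007ff816c86695e71)) (.lf (nat_lit 0x8008008009ba774fca)) (.nd (.lf (nat_lit 0x80e85c89dcb4603e1d)) (.lf (nat_lit 0x817a50beaccf907c5f)) (.lf (nat_lit 0x80082080ad878a8dbe)) (.lf (nat_lit 0x80082a81fde4b19c6e))))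
  _ _ _ (by decide +kernel)

noncomputable def g2_28_92 : GD 2 28 92 := chk_sound 
  (.cell (.lf (nat_lit 0x8268ffb33cea938d35)) (.lf (nat_lit 0x800801848697114bbd)) (.lf (nat_lit 0x84ba09bd1262aa1a97)) (.lf (nat_lit 0x82088c871cab62ce31)) (.lf (nat_lit 0x8107e182bb8f6c8f0e)) (.nd (.nd (.lf (nat_lit 0x8007e881dad9312d9d)) (.lf (nat_lit 0x8007ff83f77310abe4)) (.lf (nat_lit 0x8007e8819c77597e2e)) (.nd (.lf (nat_lit 0x816800800c1048bdf5)) (.lf (nat_lit 0x8007db827ada308d94)) (.lf (nat_lit 0x8007ff815cd963ce1c)) (.lf (nat_lit 0x80087b8eccd95f0ded)))) (.lf (nat_lit 0x81fa13befce78efc64)) (.lf (nat_lit 0x80083080dda18ccd9f)) (.lf (nat_lit 0x80082d82bda9b80c6e))))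
  _ _ _ (by decide +kernel)

theorem g3_24_88 : GD 3 24 88 :=
  GD.split (i := 2) g2_20_84 g2_28_84 g2_20_92 g2_28_92 (by decide)

noncomputable def g2_20_100 : GD 2 20 100 := chk_sound 
  (.cell (.lf (nat_lit 0x81d8e0a69d19978d68)) (.lf (nat_lit 0x80080884461815fc0a)) (.lf (nat_lit 0x87f409b13b54ce79db)) (.lf (nat_lit 0x8008d8893c9c699e4d)) (.nd (.lf (nat_lit 0x81c800800a936a6f73)) (.lf (nat_lit 0x830800800272ab1d15)) (.lf (nat_lit 0x8007ff809aeb7a7f70)) (.lf (nat_lit 0x8007cd8142c7b75cf8))) (.nd (.lf (nat_lit 0x80087f8abcbd5d7e03)) (.lf (nat_lit 0x800a24bd1cda862c99)) (.lf (nat_lit 0x82f800800d968e0da7)) (.lf (nat_lit 0x800831828dafb2bca5))))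
  _ _ _ (by decide +kernel)

noncomputable def g2_28_100 : GD 2 28 100 := chk_sound 
  (.cell (.lf (nat_lit 0x800821815d71a9fd3d)) (.lf (nat_lit 0x80080084a6ec102bb8)) (.lf (nat_lit 0x81f799a5a24592ece7)) (.lf (nat_lit 0x8378fb947ca1669e1d)) (.lf (nat_lit 0x8207e2958bea6a5eb5)) (.nd (.lf (nat_lit 0x8087df812cf15cede4)) (.lf (nat_lit 0x81ea02bd0cf384ac90)) (.lf (nat_lit 0x827800800da98e2d94)) (.lf (nat_lit 0x80b829818dbab52c7c))))
  _ _ _ (by decide +kernel)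

noncomputable def g2_20_108 : GD 2 20 108 := chk_sound 
  (.cell (.lf (nat_lit 0x80e8b7a6dcd0ad9d21)) (.lf (nat_lit 0x80280e832663139bec)) (.lf (nat_lit 0x844b3cbc12d7acba37)) (.lf (nat_lit 0x8087de810cd866ee2a)) (.nd (.lf (nat_lit 0x8007f2805a91658f64)) (.lf (nat_lit 0x8007d48092659ffd57)) (.lf (nat_lit 0x823800800b93744f1e)) (.lf (nat_lit 0x80d8008002d2b4ad21))) (.nd (.lf (nat_lit 0x80b7d3819c9456ae06)) (.lf (nat_lit 0x800a12bb0ce67fccb3)) (.lf (nat_lit 0x80081780dda58e9d97)) (.lf (nat_lit 0x800800800d76b4dcd2))))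
  _ _ _ (by decide +kernel)

noncomputable def g2_28_108 : GD 2 28 108 := chk_sound 
  (.cell (.lf (nat_lit 0x80082e823d5babad46)) (.lf (nat_lit 0x80080a83b761106bda)) (.lf (nat_lit 0x8207da8da25c9cfd4d)) (.lf (nat_lit 0x837938957cae674e07)) (.nd (.lf (nat_lit 0x81a800800bf6661ec1)) (.lf (nat_lit 0x8007c480f26a90fd9f)) (.lf (nat_lit 0x827800800c38705eb9)) (.lf (nat_lit 0x8007db8082dfb06d56))) (.lf (nat_lit 0x81e97caa2ce26c4d6d)))
  _ _ _ (by decide +kernel)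

theorem g3_24_104 : GD 3 24 104 :=
  GD.split (i := 2) g2_20_100 g2_28_100 g2_20_108 g2_28_108 (by decide)

noncomputable def g2_20_116 : GD 2 20 116 := chk_sound 
  (.cell (.lf (nat_lit 0x82c865ad0ca4b03d07)) (.lf (nat_lit 0x80080c82d6c8120be5)) (.lf (nat_lit 0x82d783a1224a922d0d)) (.lf (nat_lit 0x81498f91dc8f660e12)) (.nd (.lf (nat_lit 0x8007e7807ae4580f06)) (.lf (nat_lit 0x81b800800267920d99)) (.lf (nat_lit 0x8077e0809b7c76ef2d)) (.lf (nat_lit 0x80a7ce8232e9b26d4d))) (.nd (.lf (nat_lit 0x8057db810cdb58dddd)) (.lf (nat_lit 0x829a13b8bcec7c2cc7)) (.lf (nat_lit 0x80b800800db58e8d87)) (.lf (nat_lit 0x800834810d7cb63cbb))))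
  _ _ _ (by decide +kernel)

noncomputable def g2_28_116 : GD 2 28 116 := chk_sound 
  (.cell (.lf (nat_lit 0x80081c815d41ac0d5d)) (.lf (nat_lit 0x8007ff8407f1131c30)) (.lf (nat_lit 0x81b800800264993d7a)) (.lf (nat_lit 0x82594495ccc0671df5)) (.nd (.lf (nat_lit 0x800800800be85a3e91)) (.lf (nat_lit 0x82b8008002847fddd2)) (.lf (nat_lit 0x8007fb808c08741ede)) (.lf (nat_lit 0x829800800301af4d80))) (.lf (nat_lit 0x8269a3a89d046e1d55)))
  _ _ _ (by decide +kernel)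

noncomputable def g2_20_124 : GD 2 20 124 := chk_sound 
  (.cell (.lf (nat_lit 0x8317ecad1c7db41d07)) (.lf (nat_lit 0x80280682769b130bf2)) (.lf (nat_lit 0x8267cb8f125c994d5c)) (.lf (nat_lit 0x83f998920cb6672df5)) (.nd (.lf (nat_lit 0x81e800800b12504ec1)) (.lf (nat_lit 0x8007e780527e812dcc)) (.lf (nat_lit 0x8007ff806bb8726f07)) (.lf (nat_lit 0x8007e0822306b12d74))) (.lf (nat_lit 0x8289ebaa4d07703d33)))
  _ _ _ (by decide +kernel)

noncomputable def g2_28_124 : GD 2 28 124 := chk_sound 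
  (.cell (.lf (nat_lit 0x832800800d1baced7a)) (.lf (nat_lit 0x8008058407c213cc40)) (.lf (nat_lit 0x84080080026890fd9d)) (.lf (nat_lit 0x83d965965cd5674ddb)) (.nd (.lf (nat_lit 0x81e800800be6555e74)) (.lf (nat_lit 0x80982b80a2c16bdde7)) (.lf (nat_lit 0x829800800c4a7a2ebd)) (.lf (nat_lit 0x8007ca815330afada6))) (.lf (nat_lit 0x8359b9a7fd1e6ebd3c)))
  _ _ _ (by decide +kernel)

theorem g3_24_120 : GD 3 24 120 :=
  GD.split (i := 2) g2_20_116 g2_28_116 g2_20_124 g2_28_124 (by decide)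

noncomputable def g2_20_132 : GD 2 20 132 := chk_sound 
  (.cell (.lf (nat_lit 0x827770a9fc3eb93d19)) (.lf (nat_lit 0x80f800800677142c04)) (.lf (nat_lit 0x82c800800269972d88)) (.lf (nat_lit 0x82f9b4926cd1679dd9)) (.nd (.lf (nat_lit 0x8007ed81cb294c0e96)) (.lf (nat_lit 0x80081e8092b46dfde2)) (.lf (nat_lit 0x80b800800bd76e2eed)) (.lf (nat_lit 0x8007ff81732cb14d95))) (.lf (nat_lit 0x8369e6aa0d22706d1d)))
  _ _ _ (by decide +kernel)

noncomputable def g2_28_132 : GD 2 28 132 := chk_sound 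
  (.cell (.lf (nat_lit 0x82f6c2ae7bc3bc9d0d)) (.lf (nat_lit 0x8007ff82278c149c51)) (.lf (nat_lit 0x8047d580426f873db9)) (.lf (nat_lit 0x844997964cf067adb9)) (.nd (.lf (nat_lit 0x800800800be3525e61)) (.lf (nat_lit 0x80083080c326572dd2)) (.lf (nat_lit 0x814800800c2773decb)) (.lf (nat_lit 0x80080180e370b25dc4))) (.lf (nat_lit 0x8259d9a65d486fcd16)))
  _ _ _ (by decide +kernel)

noncomputable def g2_20_140 : GD 2 20 140 := chk_sound .out
  _ _ _ (by decide +kernel)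

noncomputable def g2_28_140 : GD 2 28 140 := chk_sound .out
  _ _ _ (by decide +kernel)

theorem g3_24_136 : GD 3 24 136 :=
  GD.split (i := 2) g2_20_132 g2_28_132 g2_20_140 g2_28_140 (by decide)

noncomputable def g2_36_m140 : GD 2 36 (-140) := chk_sound .out
  _ _ _ (by decide +kernel)

noncomputable def g2_44_m140 : GD 2 44 (-140) := chk_sound .out
  _ _ _ (by decide +kernel)

noncomputable def g2_36_m132 : GD 2 36 (-132) := chk_sound 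
  (.cell (.lf (nat_lit 0x80080b8478b1ebac43)) (.lf (nat_lit 0x80683881c312527d9d)) (.nd (.lf (nat_lit 0x8007d580337a81fe98)) (.lf (nat_lit 0x80580080027e762dc4)) (.lf (nat_lit 0x8097e68133b9aa7e37)) (.lf (nat_lit 0x80b7dc81a34db24da8))) (.lf (nat_lit 0x83e947c4a2877c0bba)) (.lf (nat_lit 0x83d969a092f896fd84)) (.lf (nat_lit 0x8007ca813d56698dc9)))
  _ _ _ (by decide +kernel)

noncomputable def g2_44_m132 : GD 2 44 (-132) := chk_sound 
  (.cell (.lf (nat_lit 0x80b8008008c8eafc52)) (.lf (nat_lit 0x8008008003464fadb3)) (.nd (.lf (nat_lit 0x8007e680838384ae9d)) (.lf (nat_lit 0x80582280629773bdd6)) (.lf (nat_lit 0x8007ef80f3a6991e86)) (.lf (nat_lit 0x8087d881e334b02da5))) (.lf (nat_lit 0x826965c0a2747cfbdc)) (.lf (nat_lit 0x80096c9f32f0979d82)) (.lf (nat_lit 0x8007ff80cd5e6f0dd5)))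
  _ _ _ (by decide +kernel)

theorem g3_40_m136 : GD 3 40 (-136) :=
  GD.split (i := 2) g2_36_m140 g2_44_m140 g2_36_m132 g2_44_m132 (by decide)

noncomputable def g2_36_m124 : GD 2 36 (-124) := chk_sound 
  (.cell (.lf (nat_lit 0x8007ef83c6cfdf6d31)) (.lf (nat_lit 0x81a800800346510dbe)) (.nd (.lf (nat_lit 0x80a7fa801389824ea2)) (.lf (nat_lit 0x82680080027876ddbf)) (.lf (nat_lit 0x8007d78113afa1ae65)) (.lf (nat_lit 0x8067c6820308ac3d9f))) (.nd (.lf (nat_lit 0x800800800d014f1d70)) (.lf (nat_lit 0x834644b2729d61dc4a)) (.lf (nat_lit 0x80581c80fd46abbd5b)) (.lf (nat_lit 0x82c98ccb32b45f5ab0))) (.lf (nat_lit 0x83897c9e02c396ed5c)) (.lf (nat_lit 0x8007e180ad3179fe12)))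
  _ _ _ (by decide +kernel)

noncomputable def g2_44_m124 : GD 2 44 (-124) := chk_sound 
  (.cell (.lf (nat_lit 0x800800800705df3d41)) (.lf (nat_lit 0x831644af75003f3d2c)) (.nd (.lf (nat_lit 0x8008008003a7892eb0)) (.lf (nat_lit 0x8288008002b471dded)) (.lf (nat_lit 0x8208008003ad982e8e)) (.lf (nat_lit 0x8007e881c30aa5edcf))) (.nd (.lf (nat_lit 0x800800800cfb4cad5f)) (.lf (nat_lit 0x83d86eca82a986dba8)) (.lf (nat_lit 0x800818828d0db95d0f)) (.lf (nat_lit 0x84094cc6626b690b1b))) (.lf (nat_lit 0x8319509a82bf99ad6a)) (.lf (nat_lit 0x800827808d2d83fe17)))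
  _ _ _ (by decide +kernel)

noncomputable def g2_36_m116 : GD 2 36 (-116) := chk_sound 
  (.cell (.lf (nat_lit 0x8007e48065b1d16db9)) (.lf (nat_lit 0x8395e4ae05493ecd37)) (.nd (.lf (nat_lit 0x8007ec80a3a2885eae)) (.lf (nat_lit 0x81e80080027f767dc5)) (.lf (nat_lit 0x8008008003a4a70e3f)) (.lf (nat_lit 0x8007e5816337abddcb))) (.nd (.lf (nat_lit 0x8007cb821c8c45fd7c)) (.lf (nat_lit 0x82b6c2cb424a7bdac1)) (.lf (nat_lit 0x80681b819ca2c54cdf)) (.lf (nat_lit 0x8268a3b0a19154da5e))) (.lf (nat_lit 0x84aa1c99b295983d06)) (.lf (nat_lit 0x81984da0fc15784e8a)))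
  _ _ _ (by decide +kernel)

noncomputable def g2_44_m116 : GD 2 44 (-116) := chk_sound 
  (.cell (.lf (nat_lit 0x80080082c6dadcdd62)) (.lf (nat_lit 0x82d5cea3b893253ca6)) (.nd (.lf (nat_lit 0x82080080040082beec)) (.lf (nat_lit 0x82d80080032b672e2e)) (.lf (nat_lit 0x8057ea80d3d49d0e94)) (.lf (nat_lit 0x8007d581f314a89dc5))) (.nd (.lf (nat_lit 0x80084d9c4bf1391d0e)) (.lf (nat_lit 0x836719b5c181926ae1)) (.lf (nat_lit 0x80581d81cc53d14c69)) (.lf (nat_lit 0x829843a271195d7aa1))) (.lf (nat_lit 0x8369049032649cdd36)) (.lf (nat_lit 0x80084ec48ad876de18)))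
  _ _ _ (by decide +kernel)

theorem g3_40_m120 : GD 3 40 (-120) :=
  GD.split (i := 2) g2_36_m124 g2_44_m124 g2_36_m116 g2_44_m116 (by decide)

noncomputable def g2_36_m108 : GD 2 36 (-108) := chk_sound 
  (.cell (.lf (nat_lit 0x809800800530ca6dde)) (.lf (nat_lit 0x8007e782da93247cf4)) (.lf (nat_lit 0x8238f292c38a938e59)) (.lf (nat_lit 0xb18c6db3e8e037e9c9)) (.lf (nat_lit 0x86697f9001ec9a5c93)) (.lf (nat_lit 0x8007c7eb87ca82fc54)))
  _ _ _ (by decide +kernel)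

noncomputable def g2_44_m108 : GD 2 44 (-108) := chk_sound 
  (.cell (.lf (nat_lit 0x8007fb8207dfd31e15)) (.lf (nat_lit 0x8007fb832a9e24ecf7)) (.lf (nat_lit 0x8218288254398f6efb)) (.lf (nat_lit 0x8a5d08aa28342b49ca)) (.lf (nat_lit 0x874ae391221a990c21)) (.lf (nat_lit 0x8077c8f73742749ab7)))
  _ _ _ (by decide +kernel)

noncomputable def g2_36_m100 : GD 2 36 (-100) := chk_sound 
  (.cell (.lf (nat_lit 0x8828a5848b4dd3bcff)) (.lf (nat_lit 0x8007f2808a72252d12)) (.nd (.lf (nat_lit 0x8127a6ad6492825ea3)) (.lf (nat_lit 0x80d6d78ab3368ede32)) (.lf (nat_lit 0x8008018044409a3edf)) (.nd (.lf (nat_lit 0x80048b93051f922e68)) (.lf (nat_lit 0x84080080009494eaaa)) (.lf (nat_lit 0xad98008004d8a94e44)) (.lf (nat_lit 0xbe2d4f82c568976b70)))) (.lf (nat_lit 0x875bb4b758452129b0)) (.lf (nat_lit 0x84743d89dea77cda3f)) (.lf (nat_lit 0x80f774fa1741816a36)))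
  _ _ _ (by decide +kernel)

noncomputable def g2_44_m100 : GD 2 44 (-100) := chk_sound 
  (.cell (.lf (nat_lit 0x8007ff807b37da0cb0)) (.lf (nat_lit 0x8007f78349c91bfca6)) (.nd (.nd (.lf (nat_lit 0x8007fa83c829234d81)) (.lf (nat_lit 0x8008008009e62fbdee)) (.lf (nat_lit 0x80d7ded195c781bdbf)) (.lf (nat_lit 0x8127c09d264e68df75))) (.lf (nat_lit 0x8007ff80ead5595f14)) (.lf (nat_lit 0x8156ed8ec5a3b20ed4)) (.lf (nat_lit 0x80d800800a957bcf91))) (.lf (nat_lit 0x834bccb9a82f2429e0)) (.lf (nat_lit 0x82d800800e936b3c5c)) (.lf (nat_lit 0x80d79afc27666b3940)))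
  _ _ _ (by decide +kernel)

theorem g3_40_m104 : GD 3 40 (-104) :=
  GD.split (i := 2) g2_36_m108 g2_44_m108 g2_36_m100 g2_44_m100 (by decide)

noncomputable def g2_36_m92 : GD 2 36 (-92) := chk_sound 
  (.cell (.lf (nat_lit 0x815800800a79e49c48)) (.lf (nat_lit 0x8008018199721bdcc2)) (.nd (.nd (.lf (nat_lit 0x8007ff81a77b296ddd)) (.lf (nat_lit 0x817800800a2d374e35)) (.lf (nat_lit 0x818787a2d413937e7e)) (.lf (nat_lit 0x80a8008006c7769fe2))) (.lf (nat_lit 0x827800800d8d5c3d4d)) (.lf (nat_lit 0x81a68996a540b99e45)) (.lf (nat_lit 0x800800800db38efd88))) (.lf (nat_lit 0x866b6ab5c8551dc9bf)) (.lf (nat_lit 0x8007ff80ce8474bc95)) (.lf (nat_lit 0x81571bfcd74a81a957)))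
  _ _ _ (by decide +kernel)

noncomputable def g2_44_m92 : GD 2 44 (-92) := chk_sound 
  (.cell (.lf (nat_lit 0x819800800a88e3cc52)) (.lf (nat_lit 0x8008018109631becc8)) (.nd (.nd (.lf (nat_lit 0x8007ff83a75a23bd7f)) (.lf (nat_lit 0x8007ee82799a36ae5a)) (.lf (nat_lit 0x8005b5cbd4d0a90c6b)) (.lf (nat_lit 0x8007d29445c9781f90))) (.lf (nat_lit 0x832800800d69621d95)) (.lf (nat_lit 0x8187e9918589ca4dee)) (.lf (nat_lit 0x80082f810d6c933dc1))) (.lf (nat_lit 0x83bb30d268cc34ba1c)) (.lf (nat_lit 0x8007d9808e5f7b1cd2)) (.lf (nat_lit 0x80a76cfdf7b06ed8a6)))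
  _ _ _ (by decide +kernel)

noncomputable def g2_36_m84 : GD 2 36 (-84) := chk_sound 
  (.cell (.lf (nat_lit 0x8008088308bdf2db72)) (.lf (nat_lit 0x8008008278cd1b9ce3)) (.lf (nat_lit 0x8176b5c8f52d8e7db9)) (.lf (nat_lit 0x818a3bce18432519ae)) (.lf (nat_lit 0x800839805e6f840cbd)) (.nd (.lf (nat_lit 0x8008038677fa02c995)) (.lf (nat_lit 0x810688fa57449748d8)) (.lf (nat_lit 0x8007f884a772fd298c)) (.lf (nat_lit 0x8007eb845695f17b68))))
  _ _ _ (by decide +kernel)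

noncomputable def g2_44_m84 : GD 2 44 (-84) := chk_sound 
  (.cell (.lf (nat_lit 0x80080582e870f4fb36)) (.lf (nat_lit 0x8008018278a81b8ce7)) (.lf (nat_lit 0x8096b3cd15018f5d67)) (.lf (nat_lit 0x82ea60cfe7e62899e0)) (.lf (nat_lit 0x816800800e5d893ccf)) (.lf (nat_lit 0x8026effd27f56c185b)))
  _ _ _ (by decide +kernel)

theorem g3_40_m88 : GD 3 40 (-88) :=
  GD.split (i := 2) g2_36_m92 g2_44_m92 g2_36_m84 g2_44_m84 (by decide)

noncomputable def g2_36_m76 : GD 2 36 (-76) := chk_sound 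
  (.cell (.lf (nat_lit 0x80083ca216daee0b49)) (.lf (nat_lit 0x8008078387cd1becf9)) (.lf (nat_lit 0x81f684c7346e94dd3f)) (.nd (.lf (nat_lit 0x8007ff84b7f5073a9e)) (.lf (nat_lit 0x836512d9a4e4520a75)) (.lf (nat_lit 0x8007f38646f3fe787c)) (.lf (nat_lit 0x82e803d8443f3f49bd))) (.lf (nat_lit 0x824800800e6b938c9c)) (.nd (.lf (nat_lit 0x80080181089e03e9d6)) (.nd (.lf (nat_lit 0x8007f881f858089ad8)) (.lf (nat_lit 0x81160ad844f09e3c18)) (.lf (nat_lit 0x8007ff84461dfc4815)) (.lf (nat_lit 0x8007d684e4c1ed9a88))) (.lf (nat_lit 0x80080182f62ffaf941)) (.lf (nat_lit 0x8007dc839538ea6b75))))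
  _ _ _ (by decide +kernel)

noncomputable def g2_44_m76 : GD 2 44 (-76) := chk_sound 
  (.cell (.lf (nat_lit 0x8246c0999678f10ac2)) (.lf (nat_lit 0x80080181d85827adc6)) (.lf (nat_lit 0x81d655cef4ae93ccee)) (.nd (.lf (nat_lit 0x8007ff82b7e0094af8)) (.lf (nat_lit 0x86d40ebf845a435a30)) (.lf (nat_lit 0x8067d09756f0fc9838)) (.lf (nat_lit 0x8008e9e3a4724d093f))) (.lf (nat_lit 0x83c800800e67977c8f)) (.lf (nat_lit 0x8006f7b13570ed487b)))
  _ _ _ (by decide +kernel)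

noncomputable def g2_36_m68 : GD 2 36 (-68) := chk_sound 
  (.cell (.lf (nat_lit 0x80f78aa004e9e2eb77)) (.lf (nat_lit 0x80080082d724286dc3)) (.lf (nat_lit 0x80a66ec0a433950d63)) (.nd (.lf (nat_lit 0x8007f984888509aafa)) (.lf (nat_lit 0x80067bb514602e9b68)) (.lf (nat_lit 0x8007d489a5a6f9d83d)) (.lf (nat_lit 0x8007f189f738fea88f))) (.lf (nat_lit 0x80b82080de5ba44c4a)) (.nd (.lf (nat_lit 0x8007e0868ad10918c1)) (.nd (.lf (nat_lit 0x80878e8e1464f10840)) (.lf (nat_lit 0x81c581d794ca9acbd5)) (.lf (nat_lit 0x80080182548cf21916)) (.lf (nat_lit 0x8087d683f3b5de3b49))) (.lf (nat_lit 0x8007cf8754c5f27974)) (.lf (nat_lit 0x8007e580c401dccbca))))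
  _ _ _ (by decide +kernel)

noncomputable def g2_44_m68 : GD 2 44 (-68) := chk_sound 
  (.cell (.lf (nat_lit 0x8007d18454a9e71b59)) (.lf (nat_lit 0x8007ff8386e526eda1)) (.nd (.nd (.lf (nat_lit 0x81c5bad1b4f490ccbb)) (.lf (nat_lit 0x80481281a6205bdf70)) (.lf (nat_lit 0x80077d9623a8cc0c83)) (.lf (nat_lit 0x814800800550989f60))) (.lf (nat_lit 0x800baf87bb33770e4c)) (.lf (nat_lit 0x8007ff82c4adc87db1)) (.lf (nat_lit 0x80082b81bd8fa96d22))) (.nd (.lf (nat_lit 0x8007f78478600bcb4f)) (.lf (nat_lit 0x85f606aee4b126fb11)) (.lf (nat_lit 0x8097969635b6f86807)) (.lf (nat_lit 0x8007fd89f7c8fea8f0))) (.lf (nat_lit 0x80a83e81ae6ba6dc1a)) (.nd (.lf (nat_lit 0x800800800aa708d931)) (.lf (nat_lit 0x800501e11561a48a7a)) (.lf (nat_lit 0x8007cb8824cbf34937)) (.lf (nat_lit 0x8007ce8413bedfbb28))))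
  _ _ _ (by decide +kernel)

theorem g3_40_m72 : GD 3 40 (-72) :=
  GD.split (i := 2) g2_36_m76 g2_44_m76 g2_36_m68 g2_44_m68 (by decide)

noncomputable def g1_34_m62 : GD 1 34 (-62) := chk_sound 
  (.cell (.lf (nat_lit 0x81478f94f44eda1c16)) (.lf (nat_lit 0x81c72895b6683cde6c)) (.lf (nat_lit 0x82164cb233ef9d5d99)) (.lf (nat_lit 0x815690cadadf2668a0)) (.lf (nat_lit 0x80883d81ee33b16bfe)) (.nd (.lf (nat_lit 0x8047c0888b7d0da893)) (.lf (nat_lit 0x824503d564a19f8b5d)) (.lf (nat_lit 0x8007c68653b9e729fa)) (.lf (nat_lit 0x8007d8824351d08c15))))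
  _ _ _ (by decide +kernel)

noncomputable def g1_38_m62 : GD 1 38 (-62) := chk_sound 
  (.cell (.lf (nat_lit 0x8067dd834448dcbc10)) (.lf (nat_lit 0x82572396c67e3cde6d)) (.lf (nat_lit 0x80b7d8818322acddb1)) (.lf (nat_lit 0x81167acf3aed2b58bd)) (.lf (nat_lit 0x800837821e40b2dbd7)) (.lf (nat_lit 0x80d4deda9504999b44)))
  _ _ _ (by decide +kernel)

noncomputable def g1_34_m58 : GD 1 34 (-58) := chk_sound 
  (.cell (.lf (nat_lit 0x86d7388583ffd53c52)) (.lf (nat_lit 0x800692a1f5a44b6e68)) (.lf (nat_lit 0x8185bfb4a4929dbdbb)) (.lf (nat_lit 0x80c7918bfbf411e871)) (.lf (nat_lit 0x800841820e09bbbbae)) (.nd (.lf (nat_lit 0x80a77e8b9370e7e871)) (.lf (nat_lit 0x8134ced384909bfb69)) (.lf (nat_lit 0x8007bd856321ddea5f)) (.lf (nat_lit 0x80c7cd82c2f3c8ec33))))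
  _ _ _ (by decide +kernel)

noncomputable def g1_38_m58 : GD 1 38 (-58) := chk_sound 
  (.cell (.lf (nat_lit 0x8b576784041dd77c40)) (.lf (nat_lit 0x82e687a305e64a6e6e)) (.lf (nat_lit 0x8005dfb634928f2df1)) (.lf (nat_lit 0x81e3c2e957e7994865)) (.lf (nat_lit 0x80084d828e1abceb7c)) (.nd (.lf (nat_lit 0x8037c0867380e97832)) (.lf (nat_lit 0x81f4bcd6e4ca9acb45)) (.lf (nat_lit 0x8047c684b32edeca59)) (.lf (nat_lit 0x8007df835300c99c37))))
  _ _ _ (by decide +kernel)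

theorem g2_36_m60 : GD 2 36 (-60) :=
  GD.split (i := 1) g1_34_m62 g1_38_m62 g1_34_m58 g1_38_m58 (by decide)

noncomputable def g1_42_m62 : GD 1 42 (-62) := chk_sound 
  (.cell (.lf (nat_lit 0x8007e182c457ddbc07)) (.lf (nat_lit 0x81b7339616b8354e29)) (.lf (nat_lit 0x822675b09459903e2a)) (.nd (.lf (nat_lit 0x8008018378e30d3b69)) (.lf (nat_lit 0x87d76e8e7439171a4d)) (.lf (nat_lit 0x80875d96c4c7f2682a)) (.lf (nat_lit 0x80080883a83fff38cc))) (.lf (nat_lit 0x80082e822e52b39baf)) (.lf (nat_lit 0x8224bede55499a6aea)))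
  _ _ _ (by decide +kernel)

noncomputable def g1_46_m62 : GD 1 46 (-62) := chk_sound 
  (.cell (.lf (nat_lit 0x8007e9831471df8bf4)) (.lf (nat_lit 0x80073b95d6d3348e27)) (.lf (nat_lit 0x8217609423e89b3e82)) (.nd (.lf (nat_lit 0x8007f18418c10dfb89)) (.lf (nat_lit 0x9cf79986939e1d49bf)) (.lf (nat_lit 0x80a710a2d4f9f0380e)) (.lf (nat_lit 0x8007ff8318eefd1965))) (.lf (nat_lit 0x80883e823e67b3ab88)) (.lf (nat_lit 0x8004a6e2059499fa97)))
  _ _ _ (by decide +kernel)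

noncomputable def g1_42_m58 : GD 1 42 (-58) := chk_sound 
  (.cell (.nd (.lf (nat_lit 0x8067d284437adcdb1f)) (.lf (nat_lit 0x8007db8203a4c90ce9)) (.lf (nat_lit 0x80080181470ef1fb83)) (.lf (nat_lit 0x80081c826d97b5cca0))) (.lf (nat_lit 0x82f67ea3364448ee7a)) (.lf (nat_lit 0x8246c8a0a4638f3ea9)) (.lf (nat_lit 0x81f457eb49d268e873)) (.lf (nat_lit 0x80d84d832e32bd4b49)) (.nd (.lf (nat_lit 0x811703982c3d177820)) (.lf (nat_lit 0x821491db253e971b2c)) (.lf (nat_lit 0x8007c4853348e05a4d)) (.lf (nat_lit 0x81c800800318cb0c3b))))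
  _ _ _ (by decide +kernel)

noncomputable def g1_46_m58 : GD 1 46 (-58) := chk_sound 
  (.cell (.nd (.lf (nat_lit 0x8007d38303a4de5b2f)) (.lf (nat_lit 0x8007e28123bdca5ceb)) (.lf (nat_lit 0x800816849974ea6c31)) (.lf (nat_lit 0x80082481dda8b50c94))) (.lf (nat_lit 0x814676a4e684471e70)) (.lf (nat_lit 0x8147b888c47e9b7ef4)) (.nd (.lf (nat_lit 0x80080181da290ecb07)) (.lf (nat_lit 0x80a87189b33e1a5898)) (.lf (nat_lit 0x8007988c745ef11833)) (.lf (nat_lit 0x80080386a8e0fada06))) (.lf (nat_lit 0x800845820e50bceb17)) (.nd (.lf (nat_lit 0x8097b986ec1c12e886)) (.lf (nat_lit 0x81e47cdfa5a3941af5)) (.lf (nat_lit 0x8007df82236ce2ba37)) (.lf (nat_lit 0x81680080033acd1c3d))))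
  _ _ _ (by decide +kernel)

theorem g2_44_m60 : GD 2 44 (-60) :=
  GD.split (i := 1) g1_42_m62 g1_46_m62 g1_42_m58 g1_46_m58 (by decide)

noncomputable def g1_34_m54 : GD 1 34 (-54) := chk_sound 
  (.cell (.nd (.lf (nat_lit 0x8087cf8322e3d4cb1c)) (.lf (nat_lit 0x8007d7815328c2cccd)) (.lf (nat_lit 0x8007ec82451ced5afb)) (.lf (nat_lit 0x82d800800d55b8ecc8))) (.nd (.lf (nat_lit 0x83139cd975e37deafe)) (.lf (nat_lit 0x82c4bac4a53f6b3d0f)) (.lf (nat_lit 0x80784c86734f1998d5)) (.lf (nat_lit 0x82cd88d3da00851957))) (.lf (nat_lit 0x80259ea973fea50d7e)) (.lf (nat_lit 0x82834fd6a6c4b4c876)) (.lf (nat_lit 0x800828812dcbc70b44)) (.nd (.lf (nat_lit 0x80a7c68402a6dc8954)) (.lf (nat_lit 0x8324a9ce1433a77ae9)) (.lf (nat_lit 0x8098008002abd4aabf)) (.lf (nat_lit 0x8007c682c2a2c20c40))))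
  _ _ _ (by decide +kernel)

noncomputable def g1_38_m54 : GD 1 38 (-54) := chk_sound 
  (.cell (.nd (.lf (nat_lit 0x800800800302d5fb31)) (.lf (nat_lit 0x80e80080032ac34cc9)) (.lf (nat_lit 0x8007f485561aef9b69)) (.lf (nat_lit 0x82281c822d6fb7ecb6))) (.nd (.lf (nat_lit 0x831371dde7b1642a5e)) (.lf (nat_lit 0x82e4d6c8e55f6d0cfd)) (.lf (nat_lit 0x8008598743341ab8b7)) (.lf (nat_lit 0x813a4ca4fda7c80912))) (.lf (nat_lit 0x819576b3944e904db2)) (.lf (nat_lit 0x8cd35ae647e28a88ac)) (.lf (nat_lit 0x80c84883addfc7fb06)) (.nd (.lf (nat_lit 0x8087af8582c2deb91b)) (.lf (nat_lit 0x81546ad414ae9d5b05)) (.lf (nat_lit 0x8087c184b2c5d5eac4)) (.lf (nat_lit 0x8007d282e2b6c2fc4b))))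
  _ _ _ (by decide +kernel)

noncomputable def g1_34_m50 : GD 1 34 (-50) := chk_sound 
  (.cell (.nd (.lf (nat_lit 0x8007d181a29bcf1b39)) (.lf (nat_lit 0x8007dc8202b4bddc93)) (.lf (nat_lit 0x8007f282b4d5e70b87)) (.lf (nat_lit 0x859800827d1fb88d03))) (.nd (.lf (nat_lit 0x800420ca059e6b4c7f)) (.lf (nat_lit 0x8007b58562d88ece07)) (.lf (nat_lit 0x80083f86643511f96c)) (.lf (nat_lit 0x8108c58d4d75db985e))) (.lf (nat_lit 0x8113f2b494648f0cc7)) (.lf (nat_lit 0x82a2ced7d756a84831)) (.lf (nat_lit 0x800831836d69d3caaf)) (.nd (.lf (nat_lit 0x8007ca84a2aedc7976)) (.lf (nat_lit 0x8087d981a22fb0cc90)) (.lf (nat_lit 0x8007cd809259cc1b0f)) (.lf (nat_lit 0x8007ca82e253bbcc36))))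
  _ _ _ (by decide +kernel)

noncomputable def g1_38_m50 : GD 1 38 (-50) := chk_sound 
  (.cell (.nd (.lf (nat_lit 0x8007d281234ada2b29)) (.lf (nat_lit 0x8007ff8282babe6c93)) (.lf (nat_lit 0x8007ec827627e80c46)) (.lf (nat_lit 0x87d7a9821d44b61cf2))) (.nd (.lf (nat_lit 0x825405cd660269bc56)) (.lf (nat_lit 0x80059eb153998ced5d)) (.lf (nat_lit 0x80084d88141a12c956)) (.lf (nat_lit 0x80a83a84228922e848))) (.lf (nat_lit 0x82c413a63264985b02)) (.lf (nat_lit 0x87040ab834dad1483c)) (.lf (nat_lit 0x803839830d7fd4aa62)) (.nd (.lf (nat_lit 0x8007c88442dddfb94b)) (.lf (nat_lit 0x8007d781e24cb35c98)) (.lf (nat_lit 0x8077bf84027ecdfb20)) (.lf (nat_lit 0x8067d382426bbcfc45))))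
  _ _ _ (by decide +kernel)

theorem g2_36_m52 : GD 2 36 (-52) :=
  GD.split (i := 1) g1_34_m54 g1_38_m54 g1_34_m50 g1_38_m50 (by decide)

noncomputable def g1_42_m54 : GD 1 42 (-54) := chk_sound 
  (.cell (.nd (.lf (nat_lit 0x8007c68383c1e05b19)) (.lf (nat_lit 0x8057c682f33dc42cce)) (.lf (nat_lit 0x8007ff8376ffed7c04)) (.lf (nat_lit 0x8657d5818d8db63ca2))) (.nd (.lf (nat_lit 0x8225f6ab89cb234bf2)) (.lf (nat_lit 0x80a510bf35e460bd9c)) (.lf (nat_lit 0x8008838ae3121cb8a0)) (.lf (nat_lit 0x8108a3887e1ed0e889))) (.lf (nat_lit 0x8077da8123fca02e9e)) (.lf (nat_lit 0x8303b9e969507988a1)) (.lf (nat_lit 0x800846824dfdc81ac7)) (.nd (.lf (nat_lit 0x8007ff8292f4e298b5)) (.lf (nat_lit 0x80043fd825109baad1)) (.lf (nat_lit 0x8007bd85d32fdfea28)) (.lf (nat_lit 0x8007ff81a2d4c49c57))))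
  _ _ _ (by decide +kernel)

noncomputable def g1_46_m54 : GD 1 46 (-54) := chk_sound 
  (.cell (.nd (.lf (nat_lit 0x84b61593b480df7b4b)) (.lf (nat_lit 0x8007d381735ec5ccd8)) (.lf (nat_lit 0x80181482aab2d2ad7a)) (.lf (nat_lit 0x8935eb84bd19ae1cfe))) (.nd (.lf (nat_lit 0x8217ad8919361d2ce3)) (.lf (nat_lit 0x82757bb9b694539de7)) (.lf (nat_lit 0x80d88689f2e01f188e)) (.lf (nat_lit 0x81fd4ec1e4c953b8ea))) (.lf (nat_lit 0x800800800327a0be06)) (.lf (nat_lit 0x81d40eee28b68278b3)) (.lf (nat_lit 0x80084283be23c71a8a)) (.nd (.lf (nat_lit 0x8007a287e34be6f81f)) (.lf (nat_lit 0x81a4fdcd9477bf19d5)) (.lf (nat_lit 0x8007da82435fe2da15)) (.lf (nat_lit 0x8007d58322ffc6ec63))))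
  _ _ _ (by decide +kernel)

noncomputable def g1_42_m50 : GD 1 42 (-50) := chk_sound 
  (.cell (.nd (.lf (nat_lit 0x8007c6849397dc3b58)) (.lf (nat_lit 0x80a7cf8282d1bf7c9e)) (.lf (nat_lit 0x80080182e868dd6d73)) (.lf (nat_lit 0x8bd7d682ed8eb49ca9))) (.nd (.lf (nat_lit 0x817402cf6682655c4b)) (.lf (nat_lit 0x83046fcc950c835c6d)) (.lf (nat_lit 0x80082d8383ef13c93f)) (.lf (nat_lit 0x80d86f87a28b2408d4))) (.lf (nat_lit 0x8007ff81819fa30c4c)) (.lf (nat_lit 0x85c4d6a69483df8874)) (.lf (nat_lit 0x800826834da2d45a18)) (.nd (.lf (nat_lit 0x8087af868333e508e2)) (.lf (nat_lit 0x8077c1839271c8fb7d)) (.lf (nat_lit 0x8007cd8462e7d80ac2)) (.lf (nat_lit 0x8007d083228fbebc5a))))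
  _ _ _ (by decide +kernel)

noncomputable def g1_46_m50 : GD 1 46 (-50) := chk_sound 
  (.cell (.nd (.lf (nat_lit 0x846635915450dc5b8d)) (.lf (nat_lit 0x8007e58252f8c14cb0)) (.lf (nat_lit 0x86579a847cd2c24cd1)) (.lf (nat_lit 0x8b852c85bd04a6fcec))) (.nd (.lf (nat_lit 0x827385da676b675b0b)) (.lf (nat_lit 0x829468d1e62b6f8c85)) (.lf (nat_lit 0x8048538853b716192c)) (.lf (nat_lit 0x80c86786527e260949))) (.lf (nat_lit 0x8027c38121c496fccb)) (.lf (nat_lit 0x877623947465eb48d5)) (.lf (nat_lit 0x816800800dd1d2d9d2)) (.nd (.lf (nat_lit 0x8057b086b330e508d0)) (.lf (nat_lit 0x822537c143d5bd0ac5)) (.lf (nat_lit 0x8007f0821326dbdabb)) (.lf (nat_lit 0x8007ca8152c0c17c6e))))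
  _ _ _ (by decide +kernel)

theorem g2_44_m52 : GD 2 44 (-52) :=
  GD.split (i := 1) g1_42_m54 g1_46_m54 g1_42_m50 g1_46_m50 (by decide)

theorem g3_40_m56 : GD 3 40 (-56) :=
  GD.split (i := 2) g2_36_m60 g2_44_m60 g2_36_m52 g2_44_m52 (by decide)

end Pool.Agent.P.MP_f12b6c_an.Dg
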