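import Pool.Agent.P.MP_f12b6c_an.T3DgDef

/-! Certificates for the diagonal statement. -/

set_option maxRecDepth 100000
set_option linter.defProp false

namespace Pool.Agent.P.MP_f12b6c_an.Dg

noncomputable def g1_34_m46 : GD 1 34 (-46) := chk_sound 
  (.cell (.nd (.lf (nat_lit 0x8007cc81e2e6d46b2c)) (.lf (nat_lit 0x8007e4823234b8bc37)) (.lf (nat_lit 0x80078b89f5cbe51c50)) (.lf (nat_lit 0x86d7e582dce2b56d5d))) (.nd (.nd (.lf (nat_lit 0x837317d3560e756ae9)) (.lf (nat_lit 0x829415c825656e1c7f)) (.lf (nat_lit 0x8007ff84676d11abff)) (.lf (nat_lit 0x80080c8386801a4c9b))) (.lf (nat_lit 0x80080180b3226afe35)) (.lf (nat_lit 0x80082384d5120d79ff)) (.lf (nat_lit 0x80083b85f35a19d92a))) (.lf (nat_lit 0x83d2ac9e12f98bda7b)) (.lf (nat_lit 0x8ec83e9262c3dd885c)) (.lf (nat_lit 0x80684285ccbee309ba)) (.lf (nat_lit 0x82f49bc2a38cb1ba5e)))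
  _ _ _ (by decide +kernel)

noncomputable def g1_38_m46 : GD 1 38 (-46) := chk_sound 
  (.cell (.nd (.lf (nat_lit 0x8057ef817341d6cb77)) (.lf (nat_lit 0x8007c981523ab94c37)) (.lf (nat_lit 0x80080182a747dd8d69)) (.lf (nat_lit 0x86f7ca827d3cb43d11))) (.nd (.nd (.lf (nat_lit 0x81b3b2cd58de467ae4)) (.lf (nat_lit 0x81f440c855bd68ecb8)) (.lf (nat_lit 0x8078008007660f8bc3)) (.lf (nat_lit 0x81480080068418bc7a))) (.lf (nat_lit 0x831800800345758e6a)) (.lf (nat_lit 0x80082184f4f90dc9eb)) (.lf (nat_lit 0x80385486b35f1b499c))) (.lf (nat_lit 0x8007b181d0899ada4e)) (.lf (nat_lit 0x827383deb65da3591c)) (.lf (nat_lit 0x800860875ccfe36961)) (.lf (nat_lit 0x8294e2bee37cba6a41)))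
  _ _ _ (by decide +kernel)

noncomputable def g1_34_m42 : GD 1 34 (-42) := chk_sound 
  (.cell (.nd (.lf (nat_lit 0x8007ff8152e2d15b74)) (.lf (nat_lit 0x8007bc81f189b1cb86)) (.lf (nat_lit 0x80080080076adbfd88)) (.lf (nat_lit 0x829800800caeb10db7))) (.nd (.lf (nat_lit 0x8313bfcca50779abbb)) (.lf (nat_lit 0x80081080f22067bd35)) (.lf (nat_lit 0x80080c8605e60bca92)) (.lf (nat_lit 0x80081a83a44c15fa7f))) (.lf (nat_lit 0x8eddf18222c4812899)) (.lf (nat_lit 0x908547c263a2c40911)) (.lf (nat_lit 0x80787c90c4b00d1830)) (.lf (nat_lit 0x8195a9af52aebceaa3)))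
  _ _ _ (by decide +kernel)

noncomputable def g1_38_m42 : GD 1 38 (-42) := chk_sound 
  (.cell (.nd (.lf (nat_lit 0x8007e0822380d50bee)) (.lf (nat_lit 0x8007ff814189b21b84)) (.lf (nat_lit 0x80080e82ca11d15dd1)) (.lf (nat_lit 0x800801816d1cac1d80))) (.nd (.lf (nat_lit 0x826416cbf523789c35)) (.lf (nat_lit 0x81283580d221692d3c)) (.lf (nat_lit 0x80080d8325d20b8a7a)) (.lf (nat_lit 0x80282c84843517faad))) (.lf (nat_lit 0x8147c380703987f9c6)) (.lf (nat_lit 0x8007dc82332de4c8fd)) (.lf (nat_lit 0x80082a8454900cd871)) (.lf (nat_lit 0x81b630a932cdc67ac3)))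
  _ _ _ (by decide +kernel)

theorem g2_36_m44 : GD 2 36 (-44) :=
  GD.split (i := 1) g1_34_m46 g1_38_m46 g1_34_m42 g1_38_m42 (by decide)

noncomputable def g1_42_m46 : GD 1 42 (-46) := chk_sound 
  (.cell (.nd (.lf (nat_lit 0x82275087f3b9d90bbd)) (.lf (nat_lit 0x8007c581f253ba4c4b)) (.lf (nat_lit 0x80081981fb06c94dd1)) (.lf (nat_lit 0x8a577e825d94af3cd8))) (.nd (.lf (nat_lit 0x82f3e8d1564a6bec1b)) (.lf (nat_lit 0x80f8008003537a1e7a)) (.lf (nat_lit 0x80182f87b4d20e99d2)) (.lf (nat_lit 0x80084f85f34c1db9f6))) (.lf (nat_lit 0x8008008000f9988b7f)) (.lf (nat_lit 0x80050ec774e1ce7941)) (.lf (nat_lit 0x80082d849cf9e29913)) (.nd (.lf (nat_lit 0x81576f8d32dfdaba1f)) (.lf (nat_lit 0x8007ff808214ae2c89)) (.lf (nat_lit 0x80b7bc83c293caeb89)) (.lf (nat_lit 0x8007c582c237b8cc39))))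
  _ _ _ (by decide +kernel)

noncomputable def g1_46_m46 : GD 1 46 (-46) := chk_sound 
  (.cell (.nd (.lf (nat_lit 0x83f6978fa463da9bfc)) (.lf (nat_lit 0x8007cb81c281bc4c6b)) (.lf (nat_lit 0x82f708846c4ac6ecfd)) (.lf (nat_lit 0x83959b84ad94a3acb1))) (.nd (.lf (nat_lit 0x81d40ed216df63fc36)) (.lf (nat_lit 0x82a6909ed3f188de6f)) (.lf (nat_lit 0x8048248494940fd9b9)) (.lf (nat_lit 0x80a83583e32820fa41))) (.lf (nat_lit 0x80080080011d8cfbfc)) (.lf (nat_lit 0x80a7b4891434ee992c)) (.lf (nat_lit 0x80787688ed31dfc8d0)) (.nd (.lf (nat_lit 0x8007ad86c359e4d986)) (.lf (nat_lit 0x80a7c781e24ab2bc9c)) (.lf (nat_lit 0x8007ff81331dd69b49)) (.lf (nat_lit 0x8007d482726ebbdc59))))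
  _ _ _ (by decide +kernel)

noncomputable def g1_42_m42 : GD 1 42 (-42) := chk_sound 
  (.cell (.nd (.lf (nat_lit 0x8007e882d418d80c4a)) (.lf (nat_lit 0x82a8008001aeb33bb5)) (.lf (nat_lit 0x815774833ae7ce9d93)) (.lf (nat_lit 0x80082e80cdb1a62d16))) (.nd (.lf (nat_lit 0x800417ced5e4706c5c)) (.lf (nat_lit 0x83a80080024c78dd96)) (.lf (nat_lit 0x8048188495b00b8a58)) (.lf (nat_lit 0x80083183c4051adad5))) (.lf (nat_lit 0x8007b580607a822ab1)) (.lf (nat_lit 0x80873f933406eaa950)) (.lf (nat_lit 0x8078448834540f2899)) (.lf (nat_lit 0x81d6c09f730dd04afb)))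
  _ _ _ (by decide +kernel)

noncomputable def g1_46_m42 : GD 1 46 (-42) := chk_sound 
  (.cell (.lf (nat_lit 0x82578b85e724c16ecb)) (.nd (.lf (nat_lit 0x82641ad82623719bc3)) (.lf (nat_lit 0x8007f180326780fdb6)) (.lf (nat_lit 0x80081f8715740c4a38)) (.lf (nat_lit 0x8068298463c41ebafd))) (.lf (nat_lit 0x8398008000c5823b68)) (.lf (nat_lit 0x808676ac14fae6e9e1)) (.lf (nat_lit 0x80984a8783f312a8b5)) (.lf (nat_lit 0x80a6a4a7138fd51adb)))
  _ _ _ (by decide +kernel)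

theorem g2_44_m44 : GD 2 44 (-44) :=
  GD.split (i := 1) g1_42_m46 g1_46_m46 g1_42_m42 g1_46_m42 (by decide)

noncomputable def g1_34_m38 : GD 1 34 (-38) := chk_sound 
  (.cell (.nd (.lf (nat_lit 0x8007ed832356d17c08)) (.lf (nat_lit 0x81e4268d51aea3f9d9)) (.lf (nat_lit 0x8008008008dad2ce0a)) (.lf (nat_lit 0x800801811c1a9f0e96))) (.lf (nat_lit 0x844497c7641464bbc1)) (.lf (nat_lit 0x859e9d8d2aa47b5b84)) (.lf (nat_lit 0x8097a686e2e0def979)) (.lf (nat_lit 0x828930b0ead45e8e64)) (.lf (nat_lit 0x82a57dbb92acacfabd)))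
  _ _ _ (by decide +kernel)

noncomputable def g1_38_m38 : GD 1 38 (-38) := chk_sound 
  (.cell (.nd (.lf (nat_lit 0x8007e781338bc9ccc7)) (.lf (nat_lit 0x8344b08b9177a5da07)) (.lf (nat_lit 0x8007ff81f90dd1ee0e)) (.lf (nat_lit 0x80080e808cc3996e3a))) (.lf (nat_lit 0x831556c8b3ff775c75)) (.lf (nat_lit 0xbafd0190bb4b7f5ba9)) (.lf (nat_lit 0x81d5d4a9c422dda9cb)) (.lf (nat_lit 0x81fa9bb34a8b5a5de8)) (.lf (nat_lit 0x8216b8a061fdb47b5d)))
  _ _ _ (by decide +kernel)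

noncomputable def g1_34_m34 : GD 1 34 (-34) := chk_sound 
  (.cell (.nd (.lf (nat_lit 0x81c800800484cbdd6b)) (.lf (nat_lit 0x8914da878f0e80e9ee)) (.lf (nat_lit 0x82e50cb77c4d6cdcd3)) (.lf (nat_lit 0x80080180dbb68e0f08))) (.lf (nat_lit 0x8a070488941d20fb73)) (.lf (nat_lit 0x937d25869b346a1cde)) (.lf (nat_lit 0x83b3e3b985e6cd7a80)) (.lf (nat_lit 0x8007ee80aa8d398e2b)) (.lf (nat_lit 0x875808982059911955)))
  _ _ _ (by decide +kernel)

noncomputable def g1_38_m34 : GD 1 38 (-34) := chk_sound 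
  (.cell (.nd (.lf (nat_lit 0x8008008004a3cb3d87)) (.lf (nat_lit 0x8801fb933cd67e899f)) (.lf (nat_lit 0x800800800a658ddf95)) (.lf (nat_lit 0x82b800800c96875e89))) (.lf (nat_lit 0x8be714888414212b6d)) (.lf (nat_lit 0x8f4cf78a3b84632cbb)) (.lf (nat_lit 0x80e5c99c444cde0ac6)) (.lf (nat_lit 0x8007e5819ae4436e6c)) (.lf (nat_lit 0x8188949380949a4a15)))
  _ _ _ (by decide +kernel)

theorem g2_36_m36 : GD 2 36 (-36) :=
  GD.split (i := 1) g1_34_m38 g1_38_m38 g1_34_m34 g1_38_m34 (by decide)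

noncomputable def g2_44_m36 : GD 2 44 (-36) := chk_sound 
  (.cell (.nd (.lf (nat_lit 0x8007f181958cd73d50)) (.lf (nat_lit 0x83c1cca0e961994c1a)) (.lf (nat_lit 0x800705a24b02835f06)) (.lf (nat_lit 0x8007dd80ecc06e3e56))) (.nd (.nd (.lf (nat_lit 0x81b488dac47d977a4c)) (.nd (.lf (nat_lit 0x81d535d163e2971b5b)) (.lf (nat_lit 0x82a611b5e3049bbc96)) (.lf (nat_lit 0x81a652ca16902e5b67)) (.lf (nat_lit 0x811633b623ee5b1d3b))) (.lf (nat_lit 0x80080d85c7690469f1)) (.lf (nat_lit 0x8148008005c20ecaf8))) (.lf (nat_lit 0x80083d80a18279cca6)) (.lf (nat_lit 0x8007ff83a6d90a7aee)) (.lf (nat_lit 0x80081580f4bf1bcbc1))) (.nd (.lf (nat_lit 0x84480080009970fadd)) (.nd (.lf (nat_lit 0x80080080024e3b5b9e)) (.lf (nat_lit 0x80181881c3db260be3)) (.lf (nat_lit 0x808840823141500b0f)) (.lf (nat_lit 0x80a83183633e2debdc))) (.lf (nat_lit 0x8007e28080568b6a2a)) (.lf (nat_lit 0x845b7f93bc9e622d09)))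 (.nd (.lf (nat_lit 0x8007d7843428e94a69)) (.lf (nat_lit 0x8007ff84e7e504fa2a)) (.lf (nat_lit 0x8007ff823580e31c66)) (.lf (nat_lit 0x800624d0268cda792b))) (.lf (nat_lit 0x84c911861a5f441e8e)) (.nd (.nd (.lf (nat_lit 0x82f8008002cad97a59)) (.lf (nat_lit 0x815800800250c03bf0)) (.lf (nat_lit 0x8077d583b3ecd58c53)) (.lf (nat_lit 0x8007bb8291f5b50c0c))) (.lf (nat_lit 0x8007a98120c290ab36)) (.lf (nat_lit 0x8007dd82e335c6dc9f)) (.lf (nat_lit 0x8117ad8180d49edaf3))))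
  _ _ _ (by decide +kernel)

theorem g3_40_m40 : GD 3 40 (-40) :=
  GD.split (i := 2) g2_36_m44 g2_44_m44 g2_36_m36 g2_44_m36 (by decide)

noncomputable def g1_34_m30 : GD 1 34 (-30) := chk_sound 
  (.cell (.nd (.lf (nat_lit 0x8008018236bfd2bdf9)) (.lf (nat_lit 0x91770682aef7993b49)) (.lf (nat_lit 0x82b5f0a7bcb4669d60)) (.lf (nat_lit 0x808800800bbd85cf10))) (.lf (nat_lit 0x80080b834573153b95)) (.lf (nat_lit 0x800c94898bd366dd0f)) (.lf (nat_lit 0x82940ec64684c43af4)) (.lf (nat_lit 0x80080180eb0d411e42)) (.lf (nat_lit 0x8cbe298f1bd8a779e8)))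
  _ _ _ (by decide +kernel)

noncomputable def g1_38_m30 : GD 1 38 (-30) := chk_sound 
  (.cell (.lf (nat_lit 0x81c757855b48922f2b)) (.lf (nat_lit 0x80080c81b56b14db85)) (.lf (nat_lit 0x85abc084bcb564ccf7)) (.lf (nat_lit 0x838569ae35bbe569e4)) (.lf (nat_lit 0x8007e1819ae93aae0e)) (.lf (nat_lit 0xc6823881a89aa21a7e)))
  _ _ _ (by decide +kernel)

noncomputable def g1_34_m26 : GD 1 34 (-26) := chk_sound 
  (.cell (.nd (.lf (nat_lit 0x83d53ca8765fcb3d04)) (.lf (nat_lit 0x934714833e69a37bf4)) (.lf (nat_lit 0x824646a17c87695dd7)) (.lf (nat_lit 0x80080b805c0c82fee5))) (.lf (nat_lit 0x800817827582159bab)) (.lf (nat_lit 0x851b27984cde659d05)) (.lf (nat_lit 0x81a3ded5b76eb7ba65)) (.lf (nat_lit 0x8007e3815b3a432e40)) (.lf (nat_lit 0x837c8c9decdfbc1963)))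
  _ _ _ (by decide +kernel)

noncomputable def g1_38_m26 : GD 1 38 (-26) := chk_sound 
  (.cell (.lf (nat_lit 0x83172d86cbd08dfeea)) (.lf (nat_lit 0x80281b84657d151b97)) (.lf (nat_lit 0x847c08911c66654cef)) (.lf (nat_lit 0x8007d883a4c3f22995)) (.lf (nat_lit 0x8057f1815b313d8e0a)) (.lf (nat_lit 0x81be779c5a7aaf1a0e)))
  _ _ _ (by decide +kernel)

theorem g2_36_m28 : GD 2 36 (-28) :=
  GD.split (i := 1) g1_34_m30 g1_38_m30 g1_34_m26 g1_38_m26 (by decide)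

noncomputable def g2_44_m28 : GD 2 44 (-28) := chk_sound 
  (.cell (.nd (.lf (nat_lit 0x8427178747c5bffed8)) (.lf (nat_lit 0x8492d19d4ca4836b7a)) (.lf (nat_lit 0x8006a0a38cb56d3dcc)) (.lf (nat_lit 0x8007d780dd7e744dc4))) (.lf (nat_lit 0x81279daa94ef1beadb)) (.lf (nat_lit 0x83bb5396bce4623cd8)) (.lf (nat_lit 0x818551c935f8d33a29)) (.lf (nat_lit 0x8067e6824b6545ae41)) (.lf (nat_lit 0xbce3e3841552c72a5b)))
  _ _ _ (by decide +kernel)

noncomputable def g1_34_m22 : GD 1 34 (-22) := chk_sound 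
  (.cell (.nd (.lf (nat_lit 0x8193dfb957d1b28ce8)) (.lf (nat_lit 0x8d26fb818e31acec01)) (.lf (nat_lit 0x81d6629d0c33702e48)) (.lf (nat_lit 0x800800800c92814e90))) (.lf (nat_lit 0x80080782d58d163bc4)) (.lf (nat_lit 0x835ae49dbd2f69fcd5)) (.lf (nat_lit 0x82a3d9dcf784b109d3)) (.lf (nat_lit 0x8007ff827b3942be3c)) (.lf (nat_lit 0x81488b870e27d038b2)))
  _ _ _ (by decide +kernel)

noncomputable def g1_38_m22 : GD 1 38 (-22) := chk_sound 
  (.cell (.lf (nat_lit 0x841717884c8585ee80)) (.lf (nat_lit 0x80081e82c58c156bac)) (.lf (nat_lit 0x842ba294dcd2696ce0)) (.lf (nat_lit 0x80b621c0c50ace6b5d)) (.lf (nat_lit 0x8007e080cb403dbe04)) (.lf (nat_lit 0x800d9faf8b04b82977)))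
  _ _ _ (by decide +kernel)

noncomputable def g1_34_m18 : GD 1 34 (-18) := chk_sound 
  (.cell (.nd (.lf (nat_lit 0x8284beafa83eb26de0)) (.lf (nat_lit 0x89471a80ce0eb28c06)) (.lf (nat_lit 0x82170c901b997cdf01)) (.lf (nat_lit 0x809800800d307ece16))) (.lf (nat_lit 0x80080080059516dbdc)) (.lf (nat_lit 0x847b0d9ebd3f69bca1)) (.lf (nat_lit 0x8254c3ca4547c899fd)) (.lf (nat_lit 0x8007e181fb96480e3b)) (.lf (nat_lit 0x80985e85bdadd918b1)))
  _ _ _ (by decide +kernel)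

noncomputable def g1_38_m18 : GD 1 38 (-18) := chk_sound 
  (.cell (.lf (nat_lit 0x80081d808cde84ce57)) (.lf (nat_lit 0x80080983b59815dbc0)) (.lf (nat_lit 0x81eb199b7d4169ccad)) (.lf (nat_lit 0x8005d3c4053cb99c89)) (.lf (nat_lit 0x800800800ba1446e13)) (.lf (nat_lit 0x80084e85dd86daa910)))
  _ _ _ (by decide +kernel)

theorem g2_36_m20 : GD 2 36 (-20) :=
  GD.split (i := 1) g1_34_m22 g1_38_m22 g1_34_m18 g1_38_m18 (by decide)

noncomputable def g2_44_m20 : GD 2 44 (-20) := chk_sound 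
  (.cell (.nd (.lf (nat_lit 0x800801821a4db01f0c)) (.lf (nat_lit 0x8a24048eddcf8b2b8d)) (.lf (nat_lit 0x82471d896cc1688e2b)) (.lf (nat_lit 0x800800800da171cd9c))) (.lf (nat_lit 0x8007ff82b683107b9e)) (.lf (nat_lit 0x840aeaa10d2a67dcb6)) (.lf (nat_lit 0x8193e1e099ba75faad)) (.lf (nat_lit 0x821800800bbd45fe11)) (.lf (nat_lit 0x98e36b8a0a8ac8ab9f)))
  _ _ _ (by decide +kernel)

theorem g3_40_m24 : GD 3 40 (-24) :=
  GD.split (i := 2) g2_36_m28 g2_44_m28 g2_36_m20 g2_44_m20 (by decide)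

noncomputable def g1_34_m14 : GD 1 34 (-14) := chk_sound 
  (.cell (.lf (nat_lit 0x8387268a3d12916dfe)) (.lf (nat_lit 0x80080a82159c177bf0)) (.lf (nat_lit 0x85eb3ea03d686c8c4f)) (.lf (nat_lit 0x82b467d25674a6ec08)) (.lf (nat_lit 0x8087dd81cbd74a8e2a)) (.lf (nat_lit 0x800842869c9fe5b967)))
  _ _ _ (by decide +kernel)

noncomputable def g1_38_m14 : GD 1 38 (-14) := chk_sound 
  (.cell (.lf (nat_lit 0x80a821802d20866e20)) (.lf (nat_lit 0x8008168255a4161bcf)) (.lf (nat_lit 0x869b6ba1ad0c67ec78)) (.lf (nat_lit 0x800571c4a57ead9cf6)) (.lf (nat_lit 0x8037db823bdc48fe19)) (.lf (nat_lit 0x80381883da86eedb17)))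
  _ _ _ (by decide +kernel)

noncomputable def g1_34_m10 : GD 1 34 (-10) := chk_sound 
  (.cell (.lf (nat_lit 0x80e83080bd288cce0f)) (.lf (nat_lit 0x8007ff8115a317cbfd)) (.lf (nat_lit 0x854b939f8d506dac34)) (.lf (nat_lit 0x81e45cd107019b5c9a)) (.lf (nat_lit 0x8007e2820bef4b7e23)) (.lf (nat_lit 0x80080f8408c0efbbd2)))
  _ _ _ (by decide +kernel)

noncomputable def g1_38_m10 : GD 1 38 (-10) := chk_sound 
  (.cell (.lf (nat_lit 0x800820805d5485edf4)) (.lf (nat_lit 0x8008128285b1161bd7)) (.lf (nat_lit 0x856bbaa29d146d3c42)) (.lf (nat_lit 0x8104f7c385d0a74d1d)) (.lf (nat_lit 0x8007e3821bf04bae24)) (.lf (nat_lit 0x8459d69517dbe87c05)))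
  _ _ _ (by decide +kernel)

theorem g2_36_m12 : GD 2 36 (-12) :=
  GD.split (i := 1) g1_34_m14 g1_38_m14 g1_34_m10 g1_38_m10 (by decide)

noncomputable def g2_44_m12 : GD 2 44 (-12) := chk_sound 
  (.cell (.lf (nat_lit 0x80080180bd14875e29)) (.lf (nat_lit 0x8008088287990f8bc9)) (.lf (nat_lit 0x84ab2aa53d2c6b7c7b)) (.lf (nat_lit 0x8284b1c9bb825d5bd9)) (.lf (nat_lit 0x81f800800bce4aee33)) (.lf (nat_lit 0x883b3e962940dfbbbc)))
  _ _ _ (by decide +kernel)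

noncomputable def g2_36_m4 : GD 2 36 (-4) := chk_sound 
  (.cell (.lf (nat_lit 0x80079681edad8e2d8c)) (.lf (nat_lit 0x8038188435c0167be9)) (.nd (.lf (nat_lit 0x80982a8261ef2d2882)) (.lf (nat_lit 0x851bc9a65cd56e1c62)) (.lf (nat_lit 0x80d86b83fecdbdc99a)) (.lf (nat_lit 0x837800800eee89fbf0))) (.lf (nat_lit 0x800440c9492a754d36)) (.lf (nat_lit 0x8007dd81bc5055fe33)) (.lf (nat_lit 0x864b7c99e91ee12b4f)))
  _ _ _ (by decide +kernel)

noncomputable def g2_44_m4 : GD 2 44 (-4) := chk_sound 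
  (.cell (.lf (nat_lit 0x82e800800d76870dd3)) (.lf (nat_lit 0x80080982879e193cbe)) (.nd (.lf (nat_lit 0x8118ae88019435284a)) (.nd (.lf (nat_lit 0x809c03a84cac713c57)) (.lf (nat_lit 0x820b9ba35c9869cccd)) (.lf (nat_lit 0x83bbe6a6bcd373fc5d)) (.lf (nat_lit 0x84fb489f8d12704cc0))) (.lf (nat_lit 0x80e885840f1fb5e940)) (.lf (nat_lit 0x8459ed89ce88834c23))) (.lf (nat_lit 0x8195c7bf4c4a55fc41)) (.lf (nat_lit 0x800800800bba515e72)) (.lf (nat_lit 0x86ead7904985e4eb8d)))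
  _ _ _ (by decide +kernel)

theorem g3_40_m8 : GD 3 40 (-8) :=
  GD.split (i := 2) g2_36_m12 g2_44_m12 g2_36_m4 g2_44_m4 (by decide)

noncomputable def g1_34_2 : GD 1 34 2 := chk_sound 
  (.cell (.lf (nat_lit 0x80075383edd38ddd5d)) (.lf (nat_lit 0x8008018385d615ebe7)) (.lf (nat_lit 0x833c82a64cbd739bda)) (.lf (nat_lit 0x82940fc91907757d1b)) (.lf (nat_lit 0x8007e9816c26568e53)) (.lf (nat_lit 0x848afc981786e21bdd)))
  _ _ _ (by decide +kernel)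

noncomputable def g1_38_2 : GD 1 38 2 := chk_sound 
  (.cell (.lf (nat_lit 0x80083580dd7e8a6dc6)) (.lf (nat_lit 0x80381583f5ce1a0c4b)) (.lf (nat_lit 0x858c3aa6ccbc72bc20)) (.lf (nat_lit 0x82a501a49a795c5e38)) (.lf (nat_lit 0x8007f981dc22574e5b)) (.lf (nat_lit 0x861abf90b7d2e5abd9)))
  _ _ _ (by decide +kernel)

noncomputable def g1_34_6 : GD 1 34 6 := chk_sound 
  (.cell (.lf (nat_lit 0x82d77e844d87924da2)) (.lf (nat_lit 0x8038138325bc1b5c61)) (.lf (nat_lit 0x850caea7fc7c75fbe7)) (.lf (nat_lit 0x800416b999b769ad8d)) (.lf (nat_lit 0x8007f0813c145a4e76)) (.lf (nat_lit 0x8709de8ec66ce41c39)))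
  _ _ _ (by decide +kernel)

noncomputable def g1_38_6 : GD 1 38 6 := chk_sound 
  (.cell (.lf (nat_lit 0x831723881dbb8ffd65)) (.lf (nat_lit 0x80081a8345df185c2b)) (.lf (nat_lit 0x851caca62c51746c26)) (.lf (nat_lit 0x8293feaed98c6a2dec)) (.lf (nat_lit 0x8007d5811bf7596e83)) (.lf (nat_lit 0x8cf99e89b69ee68c2b)))
  _ _ _ (by decide +kernel)

theorem g2_36_4 : GD 2 36 4 :=
  GD.split (i := 1) g1_34_2 g1_38_2 g1_34_6 g1_38_6 (by decide)

noncomputable def g1_42_2 : GD 1 42 2 := chk_sound 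
  (.cell (.lf (nat_lit 0x80d800800d1a908e12)) (.lf (nat_lit 0x8008078375e517fc25)) (.lf (nat_lit 0x800c22a51ccc744c3d)) (.lf (nat_lit 0x81b45dbfdb04678cd6)) (.lf (nat_lit 0x800800800b5a517ea7)) (.lf (nat_lit 0x8bc9f28be70ee5bc38)))
  _ _ _ (by decide +kernel)

noncomputable def g1_46_2 : GD 1 46 2 := chk_sound 
  (.cell (.lf (nat_lit 0x81b800800d108a1e29)) (.lf (nat_lit 0x8007f884d86619dcca)) (.lf (nat_lit 0x9a2c919dcabc706d58)) (.lf (nat_lit 0x812638acdca8479c57)) (.lf (nat_lit 0x8007e081caac4d7ed8)) (.lf (nat_lit 0x8007ff8435f9eafbe3)))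
  _ _ _ (by decide +kernel)

noncomputable def g1_42_6 : GD 1 42 6 := chk_sound 
  (.cell (.lf (nat_lit 0x80081d80fd488c6df4)) (.lf (nat_lit 0x8058188525fb164c03)) (.lf (nat_lit 0x841c67a4ac90766c41)) (.lf (nat_lit 0x818572af3c2e540cde)) (.lf (nat_lit 0x8007ff81cb06529ed6)) (.lf (nat_lit 0x8998178455c4e80c09)))
  _ _ _ (by decide +kernel)

noncomputable def g1_46_6 : GD 1 46 6 := chk_sound 
  (.cell (.lf (nat_lit 0x83771b992d038a5ded)) (.lf (nat_lit 0x80080e837736150c4f)) (.lf (nat_lit 0x842d3a9da9656c1d72)) (.lf (nat_lit 0x8077d382fc912f4c31)) (.lf (nat_lit 0x8057f2816a294eef10)) (.lf (nat_lit 0x8007e583f60eedfb97)))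
  _ _ _ (by decide +kernel)

theorem g2_44_4 : GD 2 44 4 :=
  GD.split (i := 1) g1_42_2 g1_46_2 g1_42_6 g1_46_6 (by decide)

noncomputable def g1_34_10 : GD 1 34 10 := chk_sound 
  (.cell (.lf (nat_lit 0x80081d80ed628e0dd9)) (.lf (nat_lit 0x80081684c5d3194c3b)) (.lf (nat_lit 0x829ca3a72c4174fc3a)) (.lf (nat_lit 0x8003e8aee9bb6aadd1)) (.lf (nat_lit 0x8017d881bb8556deb4)) (.lf (nat_lit 0x8007f083856ae52c28)))
  _ _ _ (by decide +kernel)

noncomputable def g1_38_10 : GD 1 38 10 := chk_sound 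
  (.cell (.lf (nat_lit 0x80080180dd5d8e7ddd)) (.lf (nat_lit 0x80081c80a5b91dbc95)) (.lf (nat_lit 0x84bcb4a80c60770c02)) (.lf (nat_lit 0x8003beb049b46f1db9)) (.lf (nat_lit 0x800800800be45d6ea5)) (.lf (nat_lit 0x8007e7848572e73bf8)))
  _ _ _ (by decide +kernel)

noncomputable def g1_34_14 : GD 1 34 14 := chk_sound 
  (.cell (.lf (nat_lit 0x80082e80fd648ecdd5)) (.lf (nat_lit 0x8008128235a21eac9d)) (.lf (nat_lit 0x851cc2a80be5756c67)) (.lf (nat_lit 0x81a3c1a2c9ec6aedfb)) (.lf (nat_lit 0x8047e1817ba35e4ecd)) (.lf (nat_lit 0x8007e6839561e80bd8)))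
  _ _ _ (by decide +kernel)

noncomputable def g1_38_14 : GD 1 38 14 := chk_sound 
  (.cell (.lf (nat_lit 0x80071d89dd798f2da7)) (.lf (nat_lit 0x81889b8825d41bdc67)) (.nd (.lf (nat_lit 0x80f8b58c72b721a856)) (.lf (nat_lit 0x820ca7a8ec2077ec4d)) (.lf (nat_lit 0x80081e81be4fc6ca23)) (.lf (nat_lit 0x80083e815ea092dc51))) (.lf (nat_lit 0x84041ba51af6653da4)) (.lf (nat_lit 0x8007e5818b2e5a1ef2)) (.lf (nat_lit 0x8007db852580eadb9c)))
  _ _ _ (by decide +kernel)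

theorem g2_36_12 : GD 2 36 12 :=
  GD.split (i := 1) g1_34_10 g1_38_10 g1_34_14 g1_38_14 (by decide)

noncomputable def g2_44_12 : GD 2 44 12 := chk_sound 
  (.cell (.lf (nat_lit 0x83d7d1910d4d96fdb6)) (.lf (nat_lit 0x80081283b6b61ccce0)) (.nd (.lf (nat_lit 0x80a8a186e16e38d8a1)) (.nd (.nd (.lf (nat_lit 0x80082583831139cc81)) (.lf (nat_lit 0x80081f8353d9318cc1)) (.lf (nat_lit 0x80881781b3062f4bb3)) (.nd (.lf (nat_lit 0x8068258303a52d0c3f)) (.lf (nat_lit 0x8008228214182ceca8)) (.lf (nat_lit 0x80b82e83631528bb26)) (.lf (nat_lit 0x822d1db444194b291a)))) (.nd (.lf (nat_lit 0x80081b82c49731ad52)) (.lf (nat_lit 0x81980080055d329dcb)) (.nd (.lf (nat_lit 0x8008008004c029dcf0)) (.lf (nat_lit 0x8008098275172e0d67)) (.lf (nat_lit 0x84ac62ad2bcd702c9d)) (.lf (nat_lit 0x8549738e19ef44fe9b))) (.lf (nat_lit 0x800802828774338e63))) (.lf (nat_lit 0x829c52ac4c44790c63)) (.lf (nat_lit 0x840c13a9ec60768c94)))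 (.lf (nat_lit 0x848e10aa5b8d8aaaa9)) (.lf (nat_lit 0x8479fd85ce098fbcbc))) (.lf (nat_lit 0x8007d0820c8d37dcc8)) (.lf (nat_lit 0x800801810b1659aefa)) (.lf (nat_lit 0x8007f584d60ff0db39)))
  _ _ _ (by decide +kernel)

theorem g3_40_8 : GD 3 40 8 :=
  GD.split (i := 2) g2_36_4 g2_44_4 g2_36_12 g2_44_12 (by decide)

noncomputable def g1_34_18 : GD 1 34 18 := chk_sound 
  (.cell (.lf (nat_lit 0x81e7158b6d838f9d98)) (.lf (nat_lit 0x80080f83e567242ceb)) (.nd (.lf (nat_lit 0x80c8548662d11fc8c9)) (.lf (nat_lit 0x845cfba8db9c783c65)) (.lf (nat_lit 0x80085184ae1dccf9cf)) (.lf (nat_lit 0x825800800eb995fc1b))) (.lf (nat_lit 0x8003c795ea6e68ae05)) (.lf (nat_lit 0x80080180abca653ed7)) (.lf (nat_lit 0x8007ff81c565ebab73)))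
  _ _ _ (by decide +kernel)

noncomputable def g1_38_18 : GD 1 38 18 := chk_sound 
  (.cell (.lf (nat_lit 0x82d800800ce899ce1b)) (.lf (nat_lit 0x80081983757e226cd6)) (.nd (.lf (nat_lit 0x8008898b02fe1d7865)) (.lf (nat_lit 0x830cc4a8ab9a757c9f)) (.lf (nat_lit 0x80683e82fe42c49a84)) (.lf (nat_lit 0x82d800800e7594ac89))) (.lf (nat_lit 0x800656a60cc25a8d3d)) (.lf (nat_lit 0x800800800b10600f1d)) (.lf (nat_lit 0x8007ee85e5a5ef7b20)))
  _ _ _ (by decide +kernel)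

noncomputable def g1_34_22 : GD 1 34 22 := chk_sound 
  (.cell (.lf (nat_lit 0x800821804cf8997e0f)) (.lf (nat_lit 0x82b9198d859b22fcbd)) (.nd (.lf (nat_lit 0x80a86488d3361af8cf)) (.lf (nat_lit 0x838ce6a78b84756c96)) (.lf (nat_lit 0x80984683fdfacd3a32)) (.lf (nat_lit 0x80084680ae9097bc51))) (.lf (nat_lit 0x8383b196db0b6dedba)) (.lf (nat_lit 0x8097e6813b23621f1d)) (.lf (nat_lit 0x8027e783a57cefdaf4)))
  _ _ _ (by decide +kernel)

noncomputable def g1_38_22 : GD 1 38 22 := chk_sound 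
  (.cell (.lf (nat_lit 0x800822812d01986e0c)) (.lf (nat_lit 0x8008ec8b65a2219cb5)) (.lf (nat_lit 0x80ed16a6fb6177bc87)) (.lf (nat_lit 0x8007cc816d2147ad05)) (.lf (nat_lit 0x8067f3809a99665f64)) (.lf (nat_lit 0x8007ec86f5e8f4ba7d)))
  _ _ _ (by decide +kernel)

theorem g2_36_20 : GD 2 36 20 :=
  GD.split (i := 1) g1_34_18 g1_38_18 g1_34_22 g1_38_22 (by decide)

noncomputable def g2_44_20 : GD 2 44 20 := chk_sound 
  (.cell (.lf (nat_lit 0x8278229ead8e957d41)) (.lf (nat_lit 0x80080680f7d6220d6c)) (.nd (.lf (nat_lit 0x82ba99977204448a52)) (.lf (nat_lit 0x830cc9a99b417aacdb)) (.lf (nat_lit 0x851d20a33bc097ec0f)) (.lf (nat_lit 0x834b8e9b9cf88c5ccd))) (.lf (nat_lit 0x8287e3829cdf47ad45)) (.lf (nat_lit 0x800800800bb061ced7)) (.lf (nat_lit 0x81375badc7bcf5a91e)))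
  _ _ _ (by decide +kernel)

noncomputable def g1_34_26 : GD 1 34 26 := chk_sound 
  (.cell (.lf (nat_lit 0x80f82c810d1297ee00)) (.lf (nat_lit 0x82c8b487a5b8272d36)) (.nd (.lf (nat_lit 0x80683884d3261af89b)) (.lf (nat_lit 0x830cc6a7aaf0741d15)) (.lf (nat_lit 0x80082c82fd51cbeba0)) (.lf (nat_lit 0x80081d813e0c96fd08))) (.lf (nat_lit 0x800691a6bd00650d50)) (.lf (nat_lit 0x800800800a9c678f67)) (.lf (nat_lit 0x8047e68495aaf47a55)))
  _ _ _ (by decide +kernel)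

noncomputable def g1_38_26 : GD 1 38 26 := chk_sound 
  (.cell (.lf (nat_lit 0x80079d9e9d35970d91)) (.lf (nat_lit 0x80080682662a238d36)) (.lf (nat_lit 0x816cd09ae8a97cee20)) (.lf (nat_lit 0x8007de828cae493d81)) (.lf (nat_lit 0x8047ed80e9d2688fa6)) (.lf (nat_lit 0x800801823648f9f9b3)))
  _ _ _ (by decide +kernel)

noncomputable def g1_34_30 : GD 1 34 30 := chk_sound 
  (.cell (.lf (nat_lit 0x8237ac92ad2c96bdcf)) (.lf (nat_lit 0x8007ff82663a2bcdc0)) (.lf (nat_lit 0x845d16a0c9b57a4d8d)) (.lf (nat_lit 0x8007e2806cf75ddde5)) (.lf (nat_lit 0x8038008009516bbfc9)) (.lf (nat_lit 0x8007e587f5f5f8d995)))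
  _ _ _ (by decide +kernel)

noncomputable def g1_38_30 : GD 1 38 30 := chk_sound 
  (.cell (.lf (nat_lit 0x8378529f7dc78d4d17)) (.lf (nat_lit 0x8007ff813718275db1)) (.lf (nat_lit 0x80093c8223a6861e96)) (.lf (nat_lit 0x8007f5820c6f4e9de5)) (.lf (nat_lit 0x8057eb80f9af6e2fbd)) (.lf (nat_lit 0x8007ea89e6befd48d5)))
  _ _ _ (by decide +kernel)

theorem g2_36_28 : GD 2 36 28 :=
  GD.split (i := 1) g1_34_26 g1_38_26 g1_34_30 g1_38_30 (by decide)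

noncomputable def g2_44_28 : GD 2 44 28 := chk_sound 
  (.cell (.lf (nat_lit 0x8008298b5db193bd6f)) (.lf (nat_lit 0x8007f280f8cb283dc3)) (.lf (nat_lit 0x81380080032491ce41)) (.lf (nat_lit 0x82b8128b6c934dbdb6)) (.lf (nat_lit 0x8007e8813b90621ee9)) (.lf (nat_lit 0x80e985e2aa8f4e2ab9)))
  _ _ _ (by decide +kernel)

theorem g3_40_24 : GD 3 40 24 :=
  GD.split (i := 2) g2_36_20 g2_44_20 g2_36_28 g2_44_28 (by decide)

noncomputable def g2_36_36 : GD 2 36 36 := chk_sound 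
  (.cell (.lf (nat_lit 0x80083280ddf18bfd4c)) (.lf (nat_lit 0x8007ff8197f733ce6c)) (.nd (.lf (nat_lit 0x82bcc7b8767d8efd0d)) (.lf (nat_lit 0x81cabe96d4655e7e15)) (.lf (nat_lit 0x848bdda02951a63e20)) (.lf (nat_lit 0x804c4da5094d8c8e26))) (.lf (nat_lit 0x80083f954cb25d3df2)) (.lf (nat_lit 0x819800800b1e682f36)) (.lf (nat_lit 0x81494bb5e91c183ac3)))
  _ _ _ (by decide +kernel)

noncomputable def g2_44_36 : GD 2 44 36 := chk_sound 
  (.cell (.lf (nat_lit 0x80882280ad8895dd9c)) (.lf (nat_lit 0x8108008009eb35ee3b)) (.lf (nat_lit 0x8007d48172f7a3edcb)) (.lf (nat_lit 0x8007cd80dccf579dde)) (.lf (nat_lit 0x800800800be863eec1)) (.lf (nat_lit 0x82d93bc39ca3639c77)))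
  _ _ _ (by decide +kernel)

noncomputable def g2_36_44 : GD 2 36 44 := chk_sound 
  (.cell (.lf (nat_lit 0x800800800dd28f2d67)) (.lf (nat_lit 0x8007ff82a867333e62)) (.lf (nat_lit 0x8007dd81533eb1cda0)) (.lf (nat_lit 0x81786891bcc0609e03)) (.lf (nat_lit 0x8007fb817b5e650f0e)) (.lf (nat_lit 0x81b974c11c8c5a6c5f)))
  _ _ _ (by decide +kernel)

noncomputable def g2_44_44 : GD 2 44 44 := chk_sound 
  (.cell (.lf (nat_lit 0x83c836893daf96cd68)) (.lf (nat_lit 0x8067e782ba843bae46)) (.lf (nat_lit 0x8338008002dda77d9c)) (.lf (nat_lit 0x8007dc813d1563edeb)) (.lf (nat_lit 0x8087d6817c0963aeac)) (.lf (nat_lit 0x82f946b91cdb6d3cf7)))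
  _ _ _ (by decide +kernel)

theorem g3_40_40 : GD 3 40 40 :=
  GD.split (i := 2) g2_36_36 g2_44_36 g2_36_44 g2_44_44 (by decide)

noncomputable def g2_36_52 : GD 2 36 52 := chk_sound 
  (.cell (.lf (nat_lit 0x807800800d8195fda3)) (.lf (nat_lit 0x8007ff81c7b9245d92)) (.lf (nat_lit 0x81680080030fb48d5d)) (.lf (nat_lit 0x8007ff80dcb8625e2f)) (.lf (nat_lit 0x80b7e480db7366af0a)) (.lf (nat_lit 0x8258adb4cd476f4cde)))
  _ _ _ (by decide +kernel)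

noncomputable def g2_44_52 : GD 2 44 52 := chk_sound 
  (.cell (.lf (nat_lit 0x82e869912d5a9f5d7e)) (.lf (nat_lit 0x8367b8852a91346de6)) (.lf (nat_lit 0x8097c681b2bca86d76)) (.lf (nat_lit 0x8007e4811cf2619dfd)) (.lf (nat_lit 0x80a7dd811c1864dea8)) (.lf (nat_lit 0x831963b1ecfa73bd31)))
  _ _ _ (by decide +kernel)

noncomputable def g2_36_60 : GD 2 36 60 := chk_sound 
  (.cell (.lf (nat_lit 0x80383980ed629b8da8)) (.lf (nat_lit 0x8008018476f1183c8c)) (.lf (nat_lit 0x80c7da8182dfb42d32)) (.lf (nat_lit 0x8007ff817c8a5ece3f)) (.lf (nat_lit 0x8007ff811b8f681f01)) (.lf (nat_lit 0x82b97cb60cf576dd0c)))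
  _ _ _ (by decide +kernel)

noncomputable def g2_44_60 : GD 2 44 60 := chk_sound 
  (.cell (.lf (nat_lit 0x82c8e7a1ed7c907d3f)) (.lf (nat_lit 0x8007e483b9f328ed85)) (.lf (nat_lit 0x8007e7806298a79d59)) (.lf (nat_lit 0x8057e380dcaa5e3e24)) (.nd (.lf (nat_lit 0x8007ff80ec4164de8e)) (.lf (nat_lit 0x8007c380e2aea51d80)) (.lf (nat_lit 0x800821809cb287be75)) (.lf (nat_lit 0x8007c98122d8ac0d75))) (.lf (nat_lit 0x81f935aa3cdb6c4d89)))
  _ _ _ (by decide +kernel)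

theorem g3_40_56 : GD 3 40 56 :=
  GD.split (i := 2) g2_36_52 g2_44_52 g2_36_60 g2_44_60 (by decide)

noncomputable def g2_36_68 : GD 2 36 68 := chk_sound 
  (.cell (.lf (nat_lit 0x82281d847d60980db8)) (.lf (nat_lit 0x800809831646123bb8)) (.lf (nat_lit 0x8007f28162b2b1dd1c)) (.lf (nat_lit 0x830800800caf612e30)) (.nd (.lf (nat_lit 0x8097d7816bf9668ec1)) (.lf (nat_lit 0x8007e481a2c2ad0d58)) (.lf (nat_lit 0x830800800c9a7eae8a)) (.lf (nat_lit 0x8067c98222ecb1dd55))) (.nd (.lf (nat_lit 0x8007ed815c73526e00)) (.lf (nat_lit 0x80081882d6120a0a68)) (.lf (nat_lit 0x800912a0ad857c0d4e)) (.lf (nat_lit 0x804819817d75ccab59))))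
  _ _ _ (by decide +kernel)

noncomputable def g2_44_68 : GD 2 44 68 := chk_sound 
  (.cell (.lf (nat_lit 0x8308d4a1ad70923d4a)) (.lf (nat_lit 0x80680080090b1e6d10)) (.lf (nat_lit 0x831800800278a51d4a)) (.lf (nat_lit 0x80a7cf817c97610e41)) (.nd (.lf (nat_lit 0x8007d3817c4165de92)) (.lf (nat_lit 0x8007d181b28aa33d69)) (.lf (nat_lit 0x8007ff896c9c8cae76)) (.lf (nat_lit 0x82f8008002bfad3d53))) (.nd (.lf (nat_lit 0x8358b198dcb15c1dd5)) (.lf (nat_lit 0x8008008005c00b8a6c)) (.lf (nat_lit 0x8318b19b1d95873d68)) (.lf (nat_lit 0x805833839cd8d6eb4e))))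
  _ _ _ (by decide +kernel)

noncomputable def g2_36_76 : GD 2 36 76 := chk_sound 
  (.cell (.lf (nat_lit 0x80081d80dda694cd82)) (.lf (nat_lit 0x80081984965811bbb0)) (.lf (nat_lit 0x82f7f08b1289ad0d11)) (.lf (nat_lit 0x8007f381acb3628e34)) (.nd (.nd (.lf (nat_lit 0x810800800b1a416e3f)) (.lf (nat_lit 0x8007d68062999dcd98)) (.lf (nat_lit 0x821800800c4d625e7b)) (.lf (nat_lit 0x8007d380e2cdaa3d79))) (.lf (nat_lit 0x828800800299aa2d46)) (.lf (nat_lit 0x80081f802ca6803e82)) (.lf (nat_lit 0x8047ef80d2ceb21d36))) (.nd (.lf (nat_lit 0x8268ff9f2cd0650dc2)) (.lf (nat_lit 0x8008468b44f40ae8b6)) (.lf (nat_lit 0x81e8bb969da9863d68)) (.lf (nat_lit 0x80a82d82ad6ece4b3d))))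
  _ _ _ (by decide +kernel)

noncomputable def g2_44_76 : GD 2 44 76 := chk_sound 
  (.cell (.lf (nat_lit 0x8238b6a80d40942d4c)) (.lf (nat_lit 0x8007fc833810127c20)) (.lf (nat_lit 0x80080180625ca0fd48)) (.lf (nat_lit 0x8008a08b9c98637e3a)) (.nd (.lf (nat_lit 0x8077e380ec3d669e98)) (.lf (nat_lit 0x8007e181926d9e6d69)) (.lf (nat_lit 0x80071f839cba87de5f)) (.lf (nat_lit 0x80c7c68202b2ad2d46))) (.nd (.lf (nat_lit 0x82b8c49bcce261edbe)) (.lf (nat_lit 0x807834839d63cf1b3b)) (.lf (nat_lit 0x8358af962da989cd66)) (.lf (nat_lit 0x811800800d23d2fb45))))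
  _ _ _ (by decide +kernel)

theorem g3_40_72 : GD 3 40 72 :=
  GD.split (i := 2) g2_36_68 g2_44_68 g2_36_76 g2_44_76 (by decide)

noncomputable def g2_36_84 : GD 2 36 84 := chk_sound 
  (.cell (.lf (nat_lit 0x82f86b985d6597fd7d)) (.lf (nat_lit 0x80080f83c7100e5b8a)) (.lf (nat_lit 0x8007d681d272a8ad29)) (.lf (nat_lit 0x81a800800cbb623e2c)) (.nd (.lf (nat_lit 0x8007f580fc1466eeb3)) (.lf (nat_lit 0x8007d3818279a44d50)) (.lf (nat_lit 0x800800800c997fce8b)) (.lf (nat_lit 0x80a7c981e2c0b11d31))) (.nd (.nd (.lf (nat_lit 0x8007d981fbc03ffdd1)) (.lf (nat_lit 0x8007ff82b7b30e8bad)) (.lf (nat_lit 0x8007d981fca45a7e13)) (.nd (.lf (nat_lit 0x800800800c77514df5)) (.lf (nat_lit 0x81a800800ae92f8d7e)) (.lf (nat_lit 0x8037d8815cce5e8e0a)) (.lf (nat_lit 0x82b8c698dcdd61adce)))) (.lf (nat_lit 0x8179dfbdfd079f7c0b)) (.lf (nat_lit 0x80083580fdab8bed97)) (.lf (nat_lit 0x80083181fd74c46bfd))))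
  _ _ _ (by decide +kernel)

noncomputable def g2_44_84 : GD 2 44 84 := chk_sound 
  (.cell (.lf (nat_lit 0x8008a1aa4d21a6acf2)) (.lf (nat_lit 0x8007f08228e416ac72)) (.lf (nat_lit 0x80e7ce81224a9b3d55)) (.lf (nat_lit 0x8258888f3caa648e2b)) (.lf (nat_lit 0x819800800c29679ea8)) (.nd (.lf (nat_lit 0x8007ff81acce5acdf4)) (.lf (nat_lit 0x8329d1bedd028dec68)) (.lf (nat_lit 0x80083180eda58bfd9d)) (.lf (nat_lit 0x80084882dd8bc7fb98))))
  _ _ _ (by decide +kernel)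

noncomputable def g2_36_92 : GD 2 36 92 := chk_sound 
  (.cell (.lf (nat_lit 0x82a86b966d5faa4d19)) (.lf (nat_lit 0x800801842817114bff)) (.lf (nat_lit 0x8007cb81a261a24d44)) (.lf (nat_lit 0x8328e6949ca265ce1c)) (.nd (.lf (nat_lit 0x8007d8805c28666ea4)) (.lf (nat_lit 0x8007d98102669b3d72)) (.lf (nat_lit 0x81f800800c857d7e98)) (.lf (nat_lit 0x8358008002c1af9d40))) (.nd (.lf (nat_lit 0x8007d880ccdd5a2de4)) (.lf (nat_lit 0x82c9e8be1cfb88cc7d)) (.lf (nat_lit 0x82c800800dab8d5d94)) (.lf (nat_lit 0x800832830d97beec26))))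
  _ _ _ (by decide +kernel)

noncomputable def g2_44_92 : GD 2 44 92 := chk_sound 
  (.cell (.lf (nat_lit 0x816846a0dd26aa1d20)) (.lf (nat_lit 0x8007f781b8fd17bc86)) (.lf (nat_lit 0x8007d580224093dd6b)) (.lf (nat_lit 0x83c8998bbcae641e2c)) (.lf (nat_lit 0x8007df806c14688eb8)) (.nd (.lf (nat_lit 0x8007ce812cd858dddf)) (.lf (nat_lit 0x8289dcbc8d01870c94)) (.lf (nat_lit 0x825800800dad8b8d96)) (.lf (nat_lit 0x822800800da2c4cbb5))))
  _ _ _ (by decide +kernel)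

theorem g3_40_88 : GD 3 40 88 :=
  GD.split (i := 2) g2_36_84 g2_44_84 g2_36_92 g2_44_92 (by decide)

noncomputable def g2_36_100 : GD 2 36 100 := chk_sound 
  (.cell (.lf (nat_lit 0x82d82388bd56ad4d36)) (.lf (nat_lit 0x80080182b8e2172c7e)) (.lf (nat_lit 0x8087ca8142599afd66)) (.lf (nat_lit 0x84a8cb953cac663e17)) (.nd (.lf (nat_lit 0x8007d4817c3666ee9d)) (.lf (nat_lit 0x8258008002678e3da4)) (.lf (nat_lit 0x827800800c667b1eac)) (.lf (nat_lit 0x80b8008002d3ae2d5f))) (.lf (nat_lit 0x820951a61cd86a8d97)))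
  _ _ _ (by decide +kernel)

noncomputable def g2_44_100 : GD 2 44 100 := chk_sound 
  (.cell (.lf (nat_lit 0x8297fb8e8d25ac9d60)) (.lf (nat_lit 0x8007ef8408de182c95)) (.lf (nat_lit 0x83f8008002418a8d85)) (.lf (nat_lit 0x82179c8ceca763ce32)) (.nd (.lf (nat_lit 0x80e7e481cc3463be91)) (.lf (nat_lit 0x82b80080028776ddcd)) (.lf (nat_lit 0x800801806c5f848eb1)) (.lf (nat_lit 0x8298008002f3ac8d8a))) (.nd (.lf (nat_lit 0x82a800800d0e5cedcb)) (.lf (nat_lit 0x81f9debb7d1b86cc85)) (.lf (nat_lit 0x80083880ddc389fd82)) (.nd (.lf (nat_lit 0x800827810e0fa6fc9d)) (.lf (nat_lit 0x83b57eb84d4bb12acc)) (.lf (nat_lit 0x800822814c54c7dd01)) (.lf (nat_lit 0x81454c9f262ae1eb79)))))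
  _ _ _ (by decide +kernel)

noncomputable def g2_36_108 : GD 2 36 108 := chk_sound 
  (.cell (.lf (nat_lit 0x800801818d3dad0d59)) (.lf (nat_lit 0x8008008008dd17ec91)) (.lf (nat_lit 0x82780080025892bd88)) (.nd (.lf (nat_lit 0x8007e181ecd4572dd7)) (.lf (nat_lit 0x8067e8812cc0507db4)) (.lf (nat_lit 0x800801809dab861da1)) (.lf (nat_lit 0x80081f806d09881e31))) (.nd (.lf (nat_lit 0x80a800800c0d669eb6)) (.lf (nat_lit 0x8218008002867c9dd3)) (.lf (nat_lit 0x8007ff804c377e6ecc)) (.lf (nat_lit 0x8007e28192f9ad7d88))) (.lf (nat_lit 0x83c987a4ecec6afd82)))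
  _ _ _ (by decide +kernel)

noncomputable def g2_44_108 : GD 2 44 108 := chk_sound 
  (.cell (.lf (nat_lit 0x823800800d0babed91)) (.lf (nat_lit 0x8007f28338c9188ca2)) (.lf (nat_lit 0x80080080024b7e6d9a)) (.lf (nat_lit 0x8228f5914cc0658e0c)) (.nd (.lf (nat_lit 0x823800800c1f628e9a)) (.lf (nat_lit 0x80c82f8112e75f8dd1)) (.lf (nat_lit 0x800817805c2081aeda)) (.lf (nat_lit 0x81480080033faf3db7))) (.nd (.lf (nat_lit 0x8067ec80bcfa531d98)) (.lf (nat_lit 0x82f9f5b74d5c842c68)) (.lf (nat_lit 0x81183c808dea876d5c)) (.lf (nat_lit 0x83a902b8ad62848c9e))))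
  _ _ _ (by decide +kernel)

theorem g3_40_104 : GD 3 40 104 :=
  GD.split (i := 2) g2_36_100 g2_44_100 g2_36_108 g2_44_108 (by decide)

noncomputable def g2_36_116 : GD 2 36 116 := chk_sound 
  (.cell (.lf (nat_lit 0x80a800800d1bac9d7d)) (.lf (nat_lit 0x8008018318ac184ca1)) (.lf (nat_lit 0x8057e080325e890da6)) (.nd (.lf (nat_lit 0x816800800d0f59adb6)) (.lf (nat_lit 0x8007ff81ccc254fdd6)) (.lf (nat_lit 0x826800800dc0859d8c)) (.lf (nat_lit 0x809824807cf68bbe3b))) (.nd (.lf (nat_lit 0x8207d3833c2c5f4e81)) (.lf (nat_lit 0x80082c8162d0675de3)) (.lf (nat_lit 0x8007eb803c247e8ed7)) (.lf (nat_lit 0x8007e5814333ae9db2))) (.nd (.lf (nat_lit 0x8007dc81dcf6536d9e)) (.lf (nat_lit 0x83ba07b99d4e87dc4d)) (.lf (nat_lit 0x800820807de38aad5f)) (.lf (nat_lit 0x808901bd5d48928c5d))))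
  _ _ _ (by decide +kernel)

noncomputable def g2_44_116 : GD 2 44 116 := chk_sound 
  (.cell (.lf (nat_lit 0x82b7f1831ccfad5db9)) (.lf (nat_lit 0x8048008008ca196cb6)) (.lf (nat_lit 0x80082080926b6d6d9b)) (.lf (nat_lit 0x89585d99ccc2648df1)) (.nd (.lf (nat_lit 0x8007dc815c2e5eae7d)) (.lf (nat_lit 0x80080180e37b484d9a)) (.lf (nat_lit 0x800829806bfe83ceed)) (.lf (nat_lit 0x8007ff8193bbb60ddc))) (.nd (.lf (nat_lit 0x833800800d875c2d53)) (.lf (nat_lit 0x8359e6b96da78d4bda)) (.lf (nat_lit 0x80081c805e2a82fd17)) (.lf (nat_lit 0x836768a8fe117e7c7f))))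
  _ _ _ (by decide +kernel)

noncomputable def g2_36_124 : GD 2 36 124 := chk_sound 
  (.cell (.lf (nat_lit 0x80081a81dcdeaebda2)) (.lf (nat_lit 0x80080184487d18bcb0)) (.lf (nat_lit 0x80082580326d7ccdbb)) (.nd (.lf (nat_lit 0x8007dd816d445bdd93)) (.lf (nat_lit 0x8077d8815d06520d84)) (.lf (nat_lit 0x800800800dd8855d73)) (.lf (nat_lit 0x819800800cd5882e5a))) (.nd (.lf (nat_lit 0x8007f4814c2a604e88)) (.lf (nat_lit 0x80a82b817347517dc2)) (.lf (nat_lit 0x8007ff805c117eaee3)) (.lf (nat_lit 0x8007d8827389b29dd5))) (.nd (.lf (nat_lit 0x8007d280ad6f5b9d68)) (.lf (nat_lit 0x814a12b63da78babf7)) (.lf (nat_lit 0x800800800e0289dd3e)) (.lf (nat_lit 0x84080ca63e0b89dc9e))))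
  _ _ _ (by decide +kernel)

noncomputable def g2_44_124 : GD 2 44 124 := chk_sound 
  (.cell (.lf (nat_lit 0x800574b16a52c3ccf7)) (.lf (nat_lit 0x80080081587e1a3cd1)) (.lf (nat_lit 0x8239e6ac92d784dd16)) (.lf (nat_lit 0x82182194ccd662ddf6)) (.nd (.lf (nat_lit 0x8067dd813c255a2e6a)) (.lf (nat_lit 0x8007ff80b421362d42)) (.lf (nat_lit 0x8158398a3bd782befb)) (.lf (nat_lit 0x81c7ddb43592ab8e53))) (.lf (nat_lit 0x836a119fbde5735c83)))
  _ _ _ (by decide +kernel)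

theorem g3_40_120 : GD 3 40 120 :=
  GD.split (i := 2) g2_36_116 g2_44_116 g2_36_124 g2_44_124 (by decide)

noncomputable def g2_36_132 : GD 2 36 132 := chk_sound 
  (.cell (.lf (nat_lit 0x83c5ecae2ac9c3cd0f)) (.lf (nat_lit 0x8007f784684218fcba)) (.lf (nat_lit 0x8008d491d28f76adaa)) (.nd (.lf (nat_lit 0x8007d0808d7a5dfd6c)) (.lf (nat_lit 0x80e800800ccc4bbd80)) (.lf (nat_lit 0x80082a804df484ed54)) (.lf (nat_lit 0x805800800cc5899e64))) (.nd (.lf (nat_lit 0x8007ee810bff59ae80)) (.lf (nat_lit 0x8138008003d83edd7c)) (.lf (nat_lit 0x819800800c1178fedf)) (.lf (nat_lit 0x80080080040ebb3de4))) (.lf (nat_lit 0x821a18a1dda0720cc3)))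
  _ _ _ (by decide +kernel)

noncomputable def g2_44_132 : GD 2 44 132 := chk_sound 
  (.cell (.lf (nat_lit 0x800801819563dbdceb)) (.lf (nat_lit 0x8008008006b0190c8f)) (.lf (nat_lit 0x81aa65d0e43c978c0b)) (.lf (nat_lit 0x8239149c1d2d636d73)) (.nd (.lf (nat_lit 0x8077d781ebf7575e76)) (.lf (nat_lit 0x80080981e4bb29cceb)) (.lf (nat_lit 0x81c83f8cabb17a7f0a)) (.lf (nat_lit 0x808849de37df96dd37))) (.lf (nat_lit 0x82fab99c8e27715bd4)))
  _ _ _ (by decide +kernel)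

noncomputable def g2_36_140 : GD 2 36 140 := chk_sound .out
  _ _ _ (by decide +kernel)

noncomputable def g2_44_140 : GD 2 44 140 := chk_sound .out
  _ _ _ (by decide +kernel)

theorem g3_40_136 : GD 3 40 136 :=
  GD.split (i := 2) g2_36_132 g2_44_132 g2_36_140 g2_44_140 (by decide)

noncomputable def g2_52_m124 : GD 2 52 (-124) := chk_sound 
  (.cell (.lf (nat_lit 0x80080483481ce60cd3)) (.lf (nat_lit 0x840624a9a5c6375d4d)) (.nd (.lf (nat_lit 0x81a7e18033d883ced4)) (.lf (nat_lit 0x8008218023026cee22)) (.lf (nat_lit 0x8007d48103d6955eb2)) (.lf (nat_lit 0x8007dc81b30ea99db9))) (.nd (.lf (nat_lit 0x8007e7817cef477d35)) (.lf (nat_lit 0x839860b9f244935c0b)) (.lf (nat_lit 0x81e800800cdbc41cb8)) (.lf (nat_lit 0x80a910c0d237710b79))) (.lf (nat_lit 0x82b9c59892be99dd4f)) (.lf (nat_lit 0x8298698b7d1684ee1c)))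
  _ _ _ (by decide +kernel)

noncomputable def g2_60_m124 : GD 2 60 (-124) := chk_sound 
  (.cell (.lf (nat_lit 0x80c800800900e7bc94)) (.lf (nat_lit 0x823612a22891234caa)) (.nd (.lf (nat_lit 0x81a80080044d755f0f)) (.lf (nat_lit 0x80b832813309689e18)) (.lf (nat_lit 0x8007ff81242c934eeb)) (.lf (nat_lit 0x800800800372ab0e00))) (.nd (.lf (nat_lit 0x83a8568f1ce6418cdd)) (.lf (nat_lit 0x84582d9941e4a01c7a)) (.lf (nat_lit 0x80082f83ccb6cbbc65)) (.lf (nat_lit 0x83d9c9b7123a7f5bf2))) (.lf (nat_lit 0x82e8f690728e989d79)) (.lf (nat_lit 0x81e8d4997cf2815e06)))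
  _ _ _ (by decide +kernel)

noncomputable def g2_52_m116 : GD 2 52 (-116) := chk_sound 
  (.cell (.lf (nat_lit 0x8007f383371dda0d9d)) (.lf (nat_lit 0x8007e4823abd249ce0)) (.lf (nat_lit 0x85384d898400919ecc)) (.nd (.lf (nat_lit 0x8238c4b3da93273bee)) (.lf (nat_lit 0x8405aeb901d69f2a02)) (.lf (nat_lit 0x80482a846c1dd93bfc)) (.lf (nat_lit 0x861accc2420f7549c3))) (.lf (nat_lit 0x80089a86322a9e8d13)) (.lf (nat_lit 0x800864e2f92f710cd4)))
  _ _ _ (by decide +kernel)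

noncomputable def g2_60_m116 : GD 2 60 (-116) := chk_sound 
  (.cell (.lf (nat_lit 0x800801830a32dd8cff)) (.lf (nat_lit 0x8007f0832acd24fcde)) (.nd (.lf (nat_lit 0x80f81a8f560b540f30)) (.lf (nat_lit 0x83871091d360710e4a)) (.lf (nat_lit 0x8077e08195189e7f34)) (.lf (nat_lit 0x8007e981b39ba10e5b))) (.nd (.lf (nat_lit 0x8008ce92a9cf139b92)) (.lf (nat_lit 0x82930abe336b9848f4)) (.lf (nat_lit 0x81a800800c03de4ba0)) (.lf (nat_lit 0x86aac4b6619176a9b1))) (.lf (nat_lit 0x85d9b58ba20fa0dc92)) (.lf (nat_lit 0x80584dedc7e65bcb6c)))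
  _ _ _ (by decide +kernel)

theorem g3_56_m120 : GD 3 56 (-120) :=
  GD.split (i := 2) g2_52_m124 g2_60_m124 g2_52_m116 g2_60_m116 (by decide)

noncomputable def g2_52_m108 : GD 2 52 (-108) := chk_sound 
  (.cell (.lf (nat_lit 0x800823827b51d9cca2)) (.lf (nat_lit 0x8007e6819aa9254cf8)) (.nd (.nd (.lf (nat_lit 0x8098008008d222bd69)) (.lf (nat_lit 0x8007ec8359d02b6db7)) (.lf (nat_lit 0x80a7e0ca26226a8e1a)) (.lf (nat_lit 0x8087c09b06a3568f3e))) (.lf (nat_lit 0x84254d9bf5ea6b7ee6)) (.lf (nat_lit 0x8208008004fda78efc)) (.lf (nat_lit 0x81d46c8db5be8e4eac))) (.lf (nat_lit 0x893d10a907f32c8a0c)) (.nd (.lf (nat_lit 0x8007c581de1243ab94)) (.lf (nat_lit 0x820206adba345acb21)) (.lf (nat_lit 0xb0d9fb80eea777da7d)) (.nd (.lf (nat_lit 0x8a219f8cfc937ae916)) (.lf (nat_lit 0x84819b90b4e790db59)) (.lf (nat_lit 0x800ed582b6fb985bbd)) (.lf (nat_lit 0x8003ae84646d9c1d6c)))) (.lf (nat_lit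 0x800834fbe7567189a5)))
  _ _ _ (by decide +kernel)

noncomputable def g2_60_m108 : GD 2 60 (-108) := chk_sound 
  (.cell (.lf (nat_lit 0x800817836b53da2c99)) (.lf (nat_lit 0x8007ff839ab725bcf8)) (.nd (.nd (.lf (nat_lit 0x8008018288921ffd40)) (.lf (nat_lit 0x8007e78389a92b2dbf)) (.lf (nat_lit 0x8067bdd4865c5ddd5d)) (.lf (nat_lit 0x8187c4ad966a4e4e9b))) (.lf (nat_lit 0x80080180ba014aeeff)) (.lf (nat_lit 0x80f81396b54ab52e9a)) (.lf (nat_lit 0x80b76584196a7f0fd8))) (.lf (nat_lit 0xbe2ba4ad5739358a4f)) (.lf (nat_lit 0x8215748f1e277a6c50)) (.lf (nat_lit 0x8077f8d8277e24f8ff)))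
  _ _ _ (by decide +kernel)

noncomputable def g2_52_m100 : GD 2 52 (-100) := chk_sound 
  (.cell (.lf (nat_lit 0x800818833b35da6ca9)) (.lf (nat_lit 0x8037f18369cf1c3ca9)) (.nd (.nd (.lf (nat_lit 0x8008038297ec1f8d40)) (.lf (nat_lit 0x8008008009942f2dfe)) (.lf (nat_lit 0x81277fdb2626775d40)) (.lf (nat_lit 0x8177c4ac057073df04))) (.lf (nat_lit 0x8007ca812cc6505dae)) (.lf (nat_lit 0x8136e8954568be8e3f)) (.lf (nat_lit 0x82d800800c868d1e8b))) (.lf (nat_lit 0x867c2bb097e625da55)) (.lf (nat_lit 0x8007c4810e60715cbc)) (.lf (nat_lit 0x80981afd77a2697896)))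
  _ _ _ (by decide +kernel)

noncomputable def g2_60_m100 : GD 2 60 (-100) := chk_sound 
  (.cell (.lf (nat_lit 0x80081c838b36dacca1)) (.lf (nat_lit 0x8007ff8239d91c6caa)) (.nd (.nd (.lf (nat_lit 0x8007ff82c7c91c4d00)) (.lf (nat_lit 0x8007ee82293c2d8dfc)) (.lf (nat_lit 0x81a781edd696729bbb)) (.lf (nat_lit 0x80c7b2bc055f6a6e69))) (.lf (nat_lit 0x8007ca807c9b531de7)) (.lf (nat_lit 0x8007b1a4251fc6ad91)) (.lf (nat_lit 0x800801808c27930ebb))) (.lf (nat_lit 0x981be58bd5cf1efa17)) (.lf (nat_lit 0x829800800e4075dcf2)) (.lf (nat_lit 0x8008068c67de0148c2)))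
  _ _ _ (by decide +kernel)

theorem g3_56_m104 : GD 3 56 (-104) :=
  GD.split (i := 2) g2_52_m108 g2_60_m108 g2_52_m100 g2_60_m100 (by decide)

noncomputable def g2_52_m92 : GD 2 52 (-92) := chk_sound 
  (.cell (.lf (nat_lit 0x80380f8379f2ecbbbd)) (.lf (nat_lit 0x80080080095a1bfccc)) (.nd (.nd (.lf (nat_lit 0x80080b80a75f1e5d20)) (.lf (nat_lit 0x8027f9822907345e5d)) (.lf (nat_lit 0x81268ee5f6278d5c26)) (.lf (nat_lit 0x8167b3a2b529771f21))) (.lf (nat_lit 0x800800800d43657dca)) (.lf (nat_lit 0x8007ff8235bcd2eda8)) (.lf (nat_lit 0x80682480ad2e97bde9))) (.lf (nat_lit 0x826b78b7a7a922ba63)) (.lf (nat_lit 0x82b800800e467fecf5)) (.lf (nat_lit 0x8007f58658880128ca)))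
  _ _ _ (by decide +kernel)

noncomputable def g2_60_m92 : GD 2 60 (-92) := chk_sound 
  (.cell (.lf (nat_lit 0x800807831a0aec3bbf)) (.lf (nat_lit 0x8007ff83495d1c2cce)) (.nd (.nd (.lf (nat_lit 0x8008078377701a8cd5)) (.lf (nat_lit 0x80080181e895310e43)) (.lf (nat_lit 0x8166d0f5d6d27eeaa1)) (.lf (nat_lit 0x800783b874cd840e67))) (.lf (nat_lit 0x818800800d14669df8)) (.lf (nat_lit 0x80d7b19375e4dd5ce4)) (.lf (nat_lit 0x805809805cee9c4e0b))) (.lf (nat_lit 0x85db75a345d11dea27)) (.lf (nat_lit 0x82a800800e34838d0a)) (.lf (nat_lit 0x8008049177f001786e)))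
  _ _ _ (by decide +kernel)

noncomputable def g2_52_m84 : GD 2 52 (-84) := chk_sound 
  (.cell (.lf (nat_lit 0x80080281b803f82ac0)) (.lf (nat_lit 0x8008018148931b7ce9)) (.lf (nat_lit 0x8006c3d0d4f78edd2f)) (.lf (nat_lit 0x821a18b53689181a0a)) (.lf (nat_lit 0x80082880fe4f8cfcd8)) (.lf (nat_lit 0x8007e69068c001d859)))
  _ _ _ (by decide +kernel)

noncomputable def g2_60_m84 : GD 2 60 (-84) := chk_sound 
  (.cell (.lf (nat_lit 0x800806844823f7fac5)) (.lf (nat_lit 0x80080183c8941bacec)) (.lf (nat_lit 0x8126a2d354ef8fccf6)) (.lf (nat_lit 0x93795198d5b90fea03)) (.lf (nat_lit 0x80082d810e438face0)) (.lf (nat_lit 0x8037f28a389c0188cf)))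
  _ _ _ (by decide +kernel)

theorem g3_56_m88 : GD 3 56 (-88) :=
  GD.split (i := 2) g2_52_m92 g2_60_m92 g2_52_m84 g2_60_m84 (by decide)

noncomputable def g2_52_m76 : GD 2 52 (-76) := chk_sound 
  (.cell (.lf (nat_lit 0x800801835642f53ab0)) (.lf (nat_lit 0x80080182783f27fdcc)) (.nd (.lf (nat_lit 0x81c606d86526915c80)) (.lf (nat_lit 0x800645819c7a70ee54)) (.lf (nat_lit 0x8007de80e4bad4cd04)) (.lf (nat_lit 0x80082c81ed44a49d91))) (.nd (.lf (nat_lit 0x8008068637c10b9b49)) (.lf (nat_lit 0x85e42ab81488393a49)) (.lf (nat_lit 0x8027ca9a1707fc4809)) (.lf (nat_lit 0x8306c7b7d2ff31790c))) (.lf (nat_lit 0x820800800e6899ec81)) (.lf (nat_lit 0x814642e5867cc3e89e)))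
  _ _ _ (by decide +kernel)

noncomputable def g2_60_m76 : GD 2 60 (-76) := chk_sound 
  (.cell (.lf (nat_lit 0x80080181c66ff5eaaf)) (.lf (nat_lit 0x800801825847283dcf)) (.nd (.lf (nat_lit 0x8005ece2360d8d8c2f)) (.lf (nat_lit 0x80a6a590dadf6a7f24)) (.lf (nat_lit 0x8007da8134b0d9bca4)) (.lf (nat_lit 0x80081c80fab0a78f1e))) (.nd (.lf (nat_lit 0x8007ff83e7980dbb90)) (.lf (nat_lit 0x80022d96b5d23949ee)) (.lf (nat_lit 0x8027dc98a8c2031816)) (.lf (nat_lit 0x89cdc79ea561399887))) (.lf (nat_lit 0x800810811e669b3c7c)) (.lf (nat_lit 0x800783a2d64cf7d813)))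
  _ _ _ (by decide +kernel)

noncomputable def g2_52_m68 : GD 2 52 (-68) := chk_sound 
  (.cell (.lf (nat_lit 0x8007e482448ae95aef)) (.lf (nat_lit 0x8007ff8236d1273da2)) (.nd (.nd (.nd (.lf (nat_lit 0x81f60ebe165d516dd4)) (.lf (nat_lit 0x800815819699386e7a)) (.lf (nat_lit 0x81f541df15dc829c11)) (.lf (nat_lit 0x80a7cb87656d5f1f45))) (.lf (nat_lit 0x816800800616544f45)) (.lf (nat_lit 0x8245b1dba5369e4bce)) (.lf (nat_lit 0x8007e88124d19c5f1f))) (.lf (nat_lit 0x8414eb8f394b714f24)) (.lf (nat_lit 0x8047d983149ccc3d74)) (.lf (nat_lit 0x80080e8199e8a8af57))) (.nd (.lf (nat_lit 0x8007fa8258280dcb98)) (.lf (nat_lit 0x80046f9b442f2c4a87)) (.lf (nat_lit 0x80077d9d5a1d087821)) (.lf (nat_lit 0x80a8739195030ae821))) (.lf (nat_lit 0x800842824e82a76bef)) (.lf (nat_lit 0x819537de05a3be58f4)))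
  _ _ _ (by decide +kernel)

noncomputable def g2_60_m68 : GD 2 60 (-68) := chk_sound 
  (.cell (.lf (nat_lit 0x8007d88504e4eceace)) (.lf (nat_lit 0x80080881f6e527bdae)) (.nd (.nd (.lf (nat_lit 0x812529e75650841b5c)) (.lf (nat_lit 0x80080181d670484f07)) (.lf (nat_lit 0x80055be4b5d39b3b20)) (.lf (nat_lit 0x80079f90a479966ef4))) (.lf (nat_lit 0x81c67a9e884774ef94)) (.lf (nat_lit 0x800801823460d31ce2)) (.lf (nat_lit 0x8007748a397bacbf4d))) (.nd (.lf (nat_lit 0x80080784b7e10ffbd9)) (.lf (nat_lit 0x88dedba2490454a9ec)) (.lf (nat_lit 0x8216c0e739833b584e)) (.lf (nat_lit 0x827b69b10dffa9289b))) (.lf (nat_lit 0x80082f80de95a6bbd7)) (.lf (nat_lit 0x80a5efd10582d3b8b7)))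
  _ _ _ (by decide +kernel)

theorem g3_56_m72 : GD 3 56 (-72) :=
  GD.split (i := 2) g2_52_m76 g2_60_m76 g2_52_m68 g2_60_m68 (by decide)

noncomputable def g1_50_m62 : GD 1 50 (-62) := chk_sound 
  (.cell (.lf (nat_lit 0x8007ee840493e15be5)) (.lf (nat_lit 0x8157559406f6331e25)) (.lf (nat_lit 0x8007159e542b92fe98)) (.nd (.lf (nat_lit 0x8008018348980eaba7)) (.lf (nat_lit 0x84fd80b485983fe900)) (.lf (nat_lit 0x8116f9a85ad810a80e)) (.lf (nat_lit 0x84d82c8becbee4c911))) (.lf (nat_lit 0x807837822e7fb31b64)) (.lf (nat_lit 0x8244a7e505d2a439be)))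
  _ _ _ (by decide +kernel)

noncomputable def g1_54_m62 : GD 1 54 (-62) := chk_sound 
  (.cell (.lf (nat_lit 0x8007d584d485e43b8a)) (.lf (nat_lit 0x81b7898f071f30de22)) (.nd (.nd (.nd (.lf (nat_lit 0x8296cea4d588664ef8)) (.lf (nat_lit 0x8007ff8105ca547f30)) (.lf (nat_lit 0x8005dfc85494a41cb7)) (.lf (nat_lit 0x8007e081341a939ee0))) (.lf (nat_lit 0x80681681256963ff5c)) (.lf (nat_lit 0x8097d582b3a0c35d34)) (.lf (nat_lit 0x80c800800451a5eeb1))) (.lf (nat_lit 0x83044692279d79def6)) (.lf (nat_lit 0x8007de80c434c7ad6e)) (.lf (nat_lit 0x8735918eba02a70edc))) (.nd (.lf (nat_lit 0x8007fc8538660f7bc5)) (.lf (nat_lit 0x83bb21ac2e01aef95c)) (.lf (nat_lit 0x8007d387fadb08d824)) (.lf (nat_lit 0x834898913e90bb8a59))) (.lf (nat_lit 0x800834810e97b20b46)) (.lf (nat_lit 0x815591ce0509cf68ef)))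
  _ _ _ (by decide +kernel)

noncomputable def g1_50_m58 : GD 1 50 (-58) := chk_sound 
  (.cell (.nd (.lf (nat_lit 0x85e64b8d645fe0eb39)) (.lf (nat_lit 0x8007ff8143e3cc1cf1)) (.lf (nat_lit 0x80a83981edf0bafbe2)) (.lf (nat_lit 0x8cc5ad88fc52aead85))) (.lf (nat_lit 0x800678a8669b496e74)) (.lf (nat_lit 0x8007e2816449a41eb7)) (.lf (nat_lit 0x82743fea97d9a368c0)) (.lf (nat_lit 0x80382c814e72bbbae8)) (.lf (nat_lit 0x81f456e4f5fb968a2a)))
  _ _ _ (by decide +kernel)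

noncomputable def g1_54_m58 : GD 1 54 (-58) := chk_sound 
  (.cell (.nd (.lf (nat_lit 0x8006cd872444e1db51)) (.lf (nat_lit 0x8007e6837414ce1cf9)) (.lf (nat_lit 0x87d800800e16b8dbc0)) (.lf (nat_lit 0x8665308c4bc3aebdb7))) (.lf (nat_lit 0x825676a8a6e8489e7a)) (.lf (nat_lit 0x8007818fd408a33e7e)) (.nd (.lf (nat_lit 0x8007ff8349b70edb4e)) (.lf (nat_lit 0x80a87e85ee60ca6926)) (.lf (nat_lit 0x80477693cb2a0c8813)) (.lf (nat_lit 0x80084382de5fbf9abc))) (.lf (nat_lit 0x80e84d82de93b9cac1)) (.lf (nat_lit 0x800473e6f6199fa991)))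
  _ _ _ (by decide +kernel)

theorem g2_52_m60 : GD 2 52 (-60) :=
  GD.split (i := 1) g1_50_m62 g1_54_m62 g1_50_m58 g1_54_m58 (by decide)

noncomputable def g1_58_m62 : GD 1 58 (-62) := chk_sound 
  (.cell (.lf (nat_lit 0x8007da85647ee83b05)) (.lf (nat_lit 0x8237cb8926ef2bede6)) (.nd (.nd (.lf (nat_lit 0x81e563ddb5ad8f1c12)) (.lf (nat_lit 0x8008108185bd5d5f5c)) (.lf (nat_lit 0x8007fc8103b5cf9c8f)) (.lf (nat_lit 0x8007ee814468a81eb1))) (.lf (nat_lit 0x82258f9e273f7c2f56)) (.lf (nat_lit 0x8007eb833455ca3d62)) (.lf (nat_lit 0x835697914906a93f4a))) (.nd (.lf (nat_lit 0x8007f885382d104be1)) (.lf (nat_lit 0x80c87383eef1b929a9)) (.lf (nat_lit 0x80a790945aa6094835)) (.lf (nat_lit 0x80783c822eabb5badb))) (.lf (nat_lit 0x80084c81beacb08b30)) (.lf (nat_lit 0x80050ae135d6b968de)))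
  _ _ _ (by decide +kernel)

noncomputable def g1_62_m62 : GD 1 62 (-62) := chk_sound 
  (.cell (.lf (nat_lit 0x8007f28184adea6af2)) (.lf (nat_lit 0x80080e8327122afde6)) (.nd (.nd (.lf (nat_lit 0x81f528eaf689844b00)) (.lf (nat_lit 0x80e800800620544f47)) (.lf (nat_lit 0x8007e083f41ce83a84)) (.lf (nat_lit 0x800800800480a9deb3))) (.lf (nat_lit 0x800534a68862757f0e)) (.lf (nat_lit 0x8007fd82c477ccfd52)) (.lf (nat_lit 0x8007ff818813acef7d))) (.lf (nat_lit 0x8426fad164ecd38885)) (.lf (nat_lit 0x80084d815ebeaedb23)) (.lf (nat_lit 0x8017e084d492f3387e)))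
  _ _ _ (by decide +kernel)

noncomputable def g1_58_m58 : GD 1 58 (-58) := chk_sound 
  (.cell (.lf (nat_lit 0x8027d884b4bfe47bb9)) (.lf (nat_lit 0x804680a9d715493e81)) (.nd (.nd (.lf (nat_lit 0x820609c024fc8fbdd4)) (.lf (nat_lit 0x81d80080051e704f65)) (.lf (nat_lit 0x8198008003b6c44d3b)) (.lf (nat_lit 0x820800800426ac9e6e))) (.lf (nat_lit 0x82c5809f2552893ed0)) (.lf (nat_lit 0x8007ec81141fc73d65)) (.lf (nat_lit 0x82a5c199c816a3cf2a))) (.nd (.lf (nat_lit 0x8027fc81996c0edb72)) (.lf (nat_lit 0x80083a82ee9ec51933)) (.lf (nat_lit 0x8115a9e509e041f839)) (.lf (nat_lit 0x800828827e8fbbfa9e))) (.lf (nat_lit 0x824800800eb5b77aa2)) (.lf (nat_lit 0x80e58bcd551fd1789f)))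
  _ _ _ (by decide +kernel)

noncomputable def g1_62_m58 : GD 1 62 (-58) := chk_sound 
  (.cell (.lf (nat_lit 0x8d072286d4bfe80b16)) (.lf (nat_lit 0x8006fd9e97a439ce51)) (.nd (.nd (.nd (.nd (.lf (nat_lit 0x8005c8c0073d51fdd9)) (.lf (nat_lit 0x80280481d74f3b6eb7)) (.lf (nat_lit 0x8144eaea16cf7cab02)) (.lf (nat_lit 0x81e7829115746dff67))) (.lf (nat_lit 0x800801822658525f49)) (.lf (nat_lit 0x8234d9ec368d91ba3b)) (.lf (nat_lit 0x81677292d448a0aea8))) (.lf (nat_lit 0x813800800599674f78)) (.lf (nat_lit 0x8008008003e2c98d17)) (.lf (nat_lit 0x8007ef820456af4e77))) (.lf (nat_lit 0x819415a916927dee52)) (.lf (nat_lit 0x8007ee831452ca2d61)) (.lf (nat_lit 0x80569d96d8b0a91f47))) (.nd (.lf (nat_lit 0x8007f78519160f1b96)) (.lf (nat_lit 0x81288184decebf893e)) (.nd (.lf (nat_lit 0x8087cb892a9c092941)) (.lf (nat_lit 0x8008008409d003e8a4)) (.lf (nat_lit 0x8007ef843496f2690e)) (.lf (nat_lit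 0x8007e686d5b3f789a3))) (.lf (nat_lit 0x800801820eb9b85a85))) (.lf (nat_lit 0x800851831ed0b4ba90)) (.lf (nat_lit 0x8037aa8a947cf21876)))
  _ _ _ (by decide +kernel)

theorem g2_60_m60 : GD 2 60 (-60) :=
  GD.split (i := 1) g1_58_m62 g1_62_m62 g1_58_m58 g1_62_m58 (by decide)

noncomputable def g1_50_m54 : GD 1 50 (-54) := chk_sound 
  (.cell (.nd (.lf (nat_lit 0x858616901467de0b6c)) (.lf (nat_lit 0x8037e882038ec7ece6)) (.lf (nat_lit 0x8b075783fd81bb6c5a)) (.lf (nat_lit 0x8794738bbbf2a6fd65))) (.lf (nat_lit 0x8005acb696e34f9e0b)) (.lf (nat_lit 0x800800800354a52e10)) (.lf (nat_lit 0x80b4e5d71642c8f8ef)) (.lf (nat_lit 0x813800800e50c54a51)) (.nd (.lf (nat_lit 0x8037638e8c7d17a835)) (.lf (nat_lit 0x800457e1c5e7922ac0)) (.lf (nat_lit 0x82080080039ae649ef)) (.lf (nat_lit 0x8067de81e333ca0c6a))))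
  _ _ _ (by decide +kernel)

noncomputable def g1_54_m54 : GD 1 54 (-54) := chk_sound 
  (.cell (.nd (.lf (nat_lit 0x8297188c4488e3bb6a)) (.lf (nat_lit 0x8057dc8283cbca6cf6)) (.lf (nat_lit 0x86567785cd6bb61c88)) (.lf (nat_lit 0x8003fa965a3aa5cdf1))) (.lf (nat_lit 0x80759fbc771852ddf0)) (.lf (nat_lit 0x8007e480c3a2aa0e2a)) (.nd (.lf (nat_lit 0x8027d8863a990f5aba)) (.lf (nat_lit 0x80f898889dc7d6f8a2)) (.lf (nat_lit 0x81072a9cb4b9f05820)) (.lf (nat_lit 0x80084f831e11c8ca85))) (.lf (nat_lit 0x80084b827e7dc26a21)) (.nd (.lf (nat_lit 0x8007708ddc5b161844)) (.lf (nat_lit 0x824470e6864690ba7c)) (.lf (nat_lit 0x8087c5877430ef78cb)) (.lf (nat_lit 0x8007e282a36fcd9c6c))))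
  _ _ _ (by decide +kernel)

noncomputable def g1_50_m50 : GD 1 50 (-50) := chk_sound 
  (.cell (.nd (.lf (nat_lit 0x8355d79584ffde2bb7)) (.lf (nat_lit 0x8077d1824332c3dcc8)) (.lf (nat_lit 0x8786aa84ed16bd6c9d)) (.lf (nat_lit 0x8513988eebb49dfd23))) (.nd (.lf (nat_lit 0x824479cb18be44ebea)) (.lf (nat_lit 0x82a44ad6a6de6aac38)) (.lf (nat_lit 0x80884085e36a18f91b)) (.lf (nat_lit 0x80084684f26928c9ac))) (.lf (nat_lit 0x8007bf80b2429e7d3a)) (.lf (nat_lit 0x8067d286049ef27915)) (.lf (nat_lit 0x80083982be09cff993)) (.nd (.lf (nat_lit 0x80d7668ed3aeea3814)) (.lf (nat_lit 0x82943ede8592a05a3b)) (.lf (nat_lit 0x8007be85e3a9e689f8)) (.lf (nat_lit 0x8007d98112fdc50c7f))))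
  _ _ _ (by decide +kernel)

noncomputable def g1_54_m50 : GD 1 54 (-50) := chk_sound 
  (.cell (.nd (.lf (nat_lit 0x80080181e498e79b3b)) (.lf (nat_lit 0x8007e282c37ac6ece2)) (.lf (nat_lit 0x80060b878d14b65cc1)) (.lf (nat_lit 0x885364943b219dcd41))) (.nd (.lf (nat_lit 0x81b710966afb187b37)) (.lf (nat_lit 0x8224c0ce675a5d9cef)) (.lf (nat_lit 0x80085a87a3121d290d)) (.lf (nat_lit 0x80282c82126f2eeaaf))) (.lf (nat_lit 0x8097d58172bea5cd8b)) (.lf (nat_lit 0x8007ff8244ddf48908)) (.lf (nat_lit 0x80082c828e48cc095e)) (.nd (.lf (nat_lit 0x817590bcd46ed8d803)) (.lf (nat_lit 0x800445e376049ada29)) (.lf (nat_lit 0x8007da8083faeb19b8)) (.lf (nat_lit 0x8007c7823346c92c8c))))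
  _ _ _ (by decide +kernel)

theorem g2_52_m52 : GD 2 52 (-52) :=
  GD.split (i := 1) g1_50_m54 g1_54_m54 g1_50_m50 g1_54_m50 (by decide)

noncomputable def g1_58_m54 : GD 1 58 (-54) := chk_sound 
  (.cell (.nd (.lf (nat_lit 0x8466698f24c9e18b9b)) (.lf (nat_lit 0x8007e581c40fcd1d05)) (.lf (nat_lit 0x80062a85cd97b43c4f)) (.lf (nat_lit 0x8484539a39afa87e34))) (.lf (nat_lit 0x8275aebfd73d554dea)) (.lf (nat_lit 0x80a8008003faaebe44)) (.nd (.lf (nat_lit 0x80080181ba380e4ae9)) (.lf (nat_lit 0x80a876862e23d0b8b3)) (.lf (nat_lit 0x8007889054b6f33831)) (.lf (nat_lit 0x80d848834e58c3ea5d))) (.lf (nat_lit 0x806856837eaabee9fc)) (.lf (nat_lit 0x8174a5e56610ad18f0)))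
  _ _ _ (by decide +kernel)

noncomputable def g1_62_m54 : GD 1 62 (-54) := chk_sound 
  (.cell (.nd (.lf (nat_lit 0x8656f18664d0e3fba7)) (.lf (nat_lit 0x8007db83b456cfad12)) (.lf (nat_lit 0x8d162e862dc0b26c1b)) (.lf (nat_lit 0x82f5009b6940ad1e85))) (.lf (nat_lit 0x8065a2c55756586dbf)) (.lf (nat_lit 0x8215c1c7f57c8d4da1)) (.nd (.lf (nat_lit 0x8008008009c70d8b18)) (.lf (nat_lit 0x80488985ae72ca18c0)) (.lf (nat_lit 0x825509d7168cccb8af)) (.lf (nat_lit 0x80684c82ee97beea3a))) (.lf (nat_lit 0x80c844822ed4bb29e4)) (.lf (nat_lit 0x809528dd05c2c148a4)))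
  _ _ _ (by decide +kernel)

noncomputable def g1_58_m50 : GD 1 58 (-50) := chk_sound 
  (.cell (.nd (.lf (nat_lit 0x848629959567e0ebe9)) (.lf (nat_lit 0x81a8008003cdca3cfb)) (.lf (nat_lit 0x8005c0877d57b41c6d)) (.lf (nat_lit 0x81937fa0a926a21dcd))) (.nd (.lf (nat_lit 0x80080080097418bc7d)) (.nd (.lf (nat_lit 0x813495d047f758dc99)) (.lf (nat_lit 0x82252acf5551967cb5)) (.lf (nat_lit 0x80080482d6ad29cdc1)) (.lf (nat_lit 0x80080181b4fb5cff13))) (.lf (nat_lit 0x80081982e2ae21e8fe)) (.lf (nat_lit 0x81a7d787a2b634abad))) (.lf (nat_lit 0x8077d3818341ac9dcd)) (.nd (.lf (nat_lit 0x8007ec81aae90cf9ef)) (.lf (nat_lit 0x8198f28fdd73db0828)) (.lf (nat_lit 0x896692929510f208e7)) (.lf (nat_lit 0x80b85b845dfbcdda15))) (.lf (nat_lit 0x800820825e87c74936)) (.nd (.lf (nat_lit 0x8007958b2c2113b8a4)) (.lf (nat_lit 0x80044ce8368c96e9ee)) (.lf (nat_lit 0x8007db83044cef2964)) (.lf (nat_lit 0x8007dd823394cd8c92))))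
  _ _ _ (by decide +kernel)

noncomputable def g1_62_m50 : GD 1 62 (-50) := chk_sound 
  (.cell (.nd (.lf (nat_lit 0x8007e0836523e8cb95)) (.lf (nat_lit 0x8007ea81c424cd5d12)) (.lf (nat_lit 0x89a5658bcd27adeca3)) (.lf (nat_lit 0x843412a3a8eaa55e1a))) (.nd (.lf (nat_lit 0x8007ff83a8c2171c82)) (.nd (.lf (nat_lit 0x817480d7f88c535ba9)) (.lf (nat_lit 0x80051dd926c4726cbb)) (.lf (nat_lit 0x80180582b701277daf)) (.lf (nat_lit 0x80681481b5d6531f2b))) (.lf (nat_lit 0x80082f83b24d27a8ee)) (.lf (nat_lit 0x83d7e287f3733b0cef))) (.lf (nat_lit 0x8007e28213c3b26e01)) (.nd (.lf (nat_lit 0x8007dd864a5c0b2a34)) (.lf (nat_lit 0x8008e88cfdead3d83a)) (.nd (.lf (nat_lit 0x8047b68b6ae109c8ab)) (.lf (nat_lit 0x8037ec85e65efc0909)) (.lf (nat_lit 0x8097cf88553bf6691c)) (.lf (nat_lit 0x8007e285960df98988))) (.lf (nat_lit 0x80a842835e5bc739e9))) (.lf (nat_lit 0x80e86783debec2091e)) (.nd (.lf (nat_lit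 0x80d7978aec20137882)) (.lf (nat_lit 0x82847eec16d493d9c6)) (.lf (nat_lit 0x8047bd88549cf26901)) (.lf (nat_lit 0x8077d78323f2d49c6b))))
  _ _ _ (by decide +kernel)

theorem g2_60_m52 : GD 2 60 (-52) :=
  GD.split (i := 1) g1_58_m54 g1_62_m54 g1_58_m50 g1_62_m50 (by decide)

theorem g3_56_m56 : GD 3 56 (-56) :=
  GD.split (i := 2) g2_52_m60 g2_60_m60 g2_52_m52 g2_60_m52 (by decide)

noncomputable def g2_52_m44 : GD 2 52 (-44) := chk_sound 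
  (.cell (.nd (.nd (.lf (nat_lit 0x8007e8823525e83ba8)) (.lf (nat_lit 0x8007dc831382cf1c65)) (.lf (nat_lit 0x8007ed82a61fe4fc8a)) (.lf (nat_lit 0x8007ff8264ebd14d5a))) (.lf (nat_lit 0x8007d482a2afbebc81)) (.lf (nat_lit 0x86b6558afbf5b7adba)) (.lf (nat_lit 0x81b263954bc28e1bf9))) (.nd (.nd (.lf (nat_lit 0x8007ee814a2b0a3a3d)) (.nd (.lf (nat_lit 0x82654dc2ea9b28297f)) (.lf (nat_lit 0x82236fe3c7a971e9d3)) (.lf (nat_lit 0x8007f98319010e7b8a)) (.lf (nat_lit 0x821497c13740424c80))) (.lf (nat_lit 0x8008148326ca090aab)) (.lf (nat_lit 0x80081084168311abc1))) (.nd (.nd (.lf (nat_lit 0x8003f8db26687b5b8f)) (.lf (nat_lit 0x82f4f0cb14d79bcc6d)) (.lf (nat_lit 0x80a573c2f66b64fde2)) (.lf (nat_lit 0x800691a32419946e58))) (.lf (nat_lit 0x8007e58162a6a5cd74)) (.lf (nat_lit 0x82a7a58af52337dde6)) (.lf (nat_lit 0x80081280c32c71ee50))) (.lf (nat_lit 0x8038228464771149db)) (.lf (nat_lit 0x80083c838326260af2)))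 (.lf (nat_lit 0x81c7039262099adcd3)) (.nd (.lf (nat_lit 0x8007a88aabc11038ad)) (.lf (nat_lit 0x80083285e4ba0c58e1)) (.nd (.nd (.lf (nat_lit 0x8057c28974a8f23932)) (.lf (nat_lit 0x8027d98644e3f46915)) (.lf (nat_lit 0x8007ff81b44fefd936)) (.lf (nat_lit 0x8067bc8934c1f33916))) (.lf (nat_lit 0x8047f382752cf6093c)) (.nd (.lf (nat_lit 0x8007cb870496ef89df)) (.lf (nat_lit 0x8007e38364cbf3494f)) (.lf (nat_lit 0x8057df83a49be92b08)) (.lf (nat_lit 0x8007d9871500f209fe))) (.lf (nat_lit 0x8007f6835530f4e99f))) (.lf (nat_lit 0x80081f82fac4eecae3))) (.lf (nat_lit 0x80992994e2d022c81e)) (.nd (.nd (.lf (nat_lit 0x80f78b8cebf5120867)) (.lf (nat_lit 0x80a7af87b35fe7b86e)) (.lf (nat_lit 0x8027de840404edf8e1)) (.lf (nat_lit 0x8007ce8603b9e7c9da))) (.nd (.lf (nat_lit 0x8057ab86731ae159a4)) (.lf (nat_lit 0x8007ca82226cb0ecd8)) (.lf (nat_lit 0x8008008002efc6ac56)) (.lf (nat_lit 0x8007ff81c278b71ca3)))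 (.lf (nat_lit 0x8087a88823baea0931)) (.lf (nat_lit 0x8007e48242b4bffc76))))
  _ _ _ (by decide +kernel)

noncomputable def g1_58_m46 : GD 1 58 (-46) := chk_sound 
  (.cell (.nd (.lf (nat_lit 0x8007d78385b0e53c4e)) (.lf (nat_lit 0x8007ce82a37cc74cde)) (.lf (nat_lit 0x837589897cf5b43cb8)) (.lf (nat_lit 0x8471b8a2f98090fc09))) (.nd (.lf (nat_lit 0x80d61eaedb3c1e8a10)) (.lf (nat_lit 0x82849dd7176d671c7c)) (.lf (nat_lit 0x80384f8683631ab985)) (.lf (nat_lit 0x80084182b2c62e7b40))) (.lf (nat_lit 0x8007f181b28fa85d4a)) (.lf (nat_lit 0x8007da84a536f5b966)) (.lf (nat_lit 0x80082f81ee36d06849)) (.nd (.lf (nat_lit 0x8106a6a6244ae88809)) (.lf (nat_lit 0x8067bd8643ddeac973)) (.lf (nat_lit 0x8007fa82a4a6f1c976)) (.lf (nat_lit 0x8007ce83a36cca2ca2))))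
  _ _ _ (by decide +kernel)

noncomputable def g1_62_m46 : GD 1 62 (-46) := chk_sound 
  (.cell (.nd (.lf (nat_lit 0x82e6bb8ca60be2cc72)) (.lf (nat_lit 0x8007ff81f3e5cb3d00)) (.lf (nat_lit 0x8845058e6cd5abacd2)) (.lf (nat_lit 0x84f1afa9d8cb92cbe4))) (.nd (.lf (nat_lit 0x810800800aa8137b4b)) (.lf (nat_lit 0x81f502d617c2635cc7)) (.lf (nat_lit 0x8008408402e9204973)) (.lf (nat_lit 0x8397de88c338381c88))) (.lf (nat_lit 0x8007d380c32cb09d9b)) (.lf (nat_lit 0x8067d7875571f7394b)) (.lf (nat_lit 0x8199328dce6dc8583a)) (.nd (.lf (nat_lit 0x800751924c1314081b)) (.lf (nat_lit 0x81f515e005ddbb4912)) (.lf (nat_lit 0x8007f08474e3f2f99a)) (.lf (nat_lit 0x8007e682c3cecf2cad))))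
  _ _ _ (by decide +kernel)

noncomputable def g1_58_m42 : GD 1 58 (-42) := chk_sound 
  (.cell (.lf (nat_lit 0x92e79f9d176bd1cdb8)) (.nd (.lf (nat_lit 0x800494df88a0526ada)) (.lf (nat_lit 0x81d4f8daa67386dc7c)) (.lf (nat_lit 0x80480080041d14d9fd)) (.lf (nat_lit 0x80082f83f30a2c5b73))) (.lf (nat_lit 0x8037db8121f3a1acc9)) (.lf (nat_lit 0x8007ec83d5f5f61a4b)) (.lf (nat_lit 0x80d88788926426a8d8)) (.nd (.lf (nat_lit 0x8007d2854457efa951)) (.lf (nat_lit 0x8007d88433b8de5b49)) (.lf (nat_lit 0x8007f18294f3eb5b1a)) (.lf (nat_lit 0x8007ff81e32bc6dc95))))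
  _ _ _ (by decide +kernel)

noncomputable def g1_62_m42 : GD 1 62 (-42) := chk_sound 
  (.cell (.lf (nat_lit 0x95f73f9b276ad50d7c)) (.nd (.lf (nat_lit 0x80564ab8ea6f1dfa37)) (.lf (nat_lit 0x81b4e3e6577178cb96)) (.lf (nat_lit 0x80083c85e38f1a69ec)) (.lf (nat_lit 0x81c7f683231935dc49))) (.lf (nat_lit 0x8007ff817291ac9d2a)) (.lf (nat_lit 0x8007f8844625f78a28)) (.lf (nat_lit 0x8008558501e32ee8cf)) (.nd (.lf (nat_lit 0x80079e8b8450f058a4)) (.lf (nat_lit 0x8047c8866437eaca37)) (.lf (nat_lit 0x8027e485f574f23a87)) (.lf (nat_lit 0x8057cd8363a7ccdcaf))))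
  _ _ _ (by decide +kernel)

theorem g2_60_m44 : GD 2 60 (-44) :=
  GD.split (i := 1) g1_58_m46 g1_62_m46 g1_58_m42 g1_62_m42 (by decide)

noncomputable def g2_52_m36 : GD 2 52 (-36) := chk_sound 
  (.cell (.nd (.lf (nat_lit 0x8008018166fcdb4d83)) (.lf (nat_lit 0x8554419b84fbbd6ccd)) (.lf (nat_lit 0x8197f0a9bb127caee8)) (.lf (nat_lit 0x81e6f88ecdab56bcd2))) (.nd (.nd (.lf (nat_lit 0x8097b892b62afaf84e)) (.lf (nat_lit 0x81e577dbd4f8b3ea38)) (.lf (nat_lit 0x8007ff85a72c037997)) (.lf (nat_lit 0x80080784762d0aaa98))) (.nd (.lf (nat_lit 0x82355bcf04ca8a3cae)) (.lf (nat_lit 0x83a80080012a869c20)) (.lf (nat_lit 0x80082682c2f9378c41)) (.lf (nat_lit 0x80080080017d619c3c))) (.lf (nat_lit 0x8028118506250b4aad)) (.lf (nat_lit 0x8058188253dc25ebe1))) (.nd (.lf (nat_lit 0x8007dc80b10788bbe0)) (.lf (nat_lit 0x8068458201e54cbc0a)) (.lf (nat_lit 0x8007c58161179d2b95)) (.lf (nat_lit 0x8008008000b2768b33)))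 (.nd (.lf (nat_lit 0x8007e38555daf7d9c5)) (.lf (nat_lit 0x8008128766f10509e0)) (.lf (nat_lit 0x8007f183f735ec4c2f)) (.lf (nat_lit 0x813750e73800c988e7))) (.nd (.lf (nat_lit 0x8008168216240b6ab5)) (.lf (nat_lit 0x80080782242e20fbbf)) (.lf (nat_lit 0x8007f2831904144c30)) (.lf (nat_lit 0x842a918d58ab3c9e33))) (.nd (.nd (.lf (nat_lit 0x8007ff847591f1dab6)) (.lf (nat_lit 0x8007d085246ae94ac6)) (.lf (nat_lit 0x8007ec83e58ee86beb)) (.lf (nat_lit 0x8067cc8473f0da8beb))) (.lf (nat_lit 0x8007c4822274be7c3b)) (.lf (nat_lit 0x8007db83a53ce22c51)) (.lf (nat_lit 0x8007c88221c0b0ebf0))))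
  _ _ _ (by decide +kernel)

noncomputable def g2_60_m36 : GD 2 60 (-36) := chk_sound 
  (.cell (.nd (.lf (nat_lit 0x8007ff818809da1dae)) (.lf (nat_lit 0x8007f081e2a3c02c5f)) (.lf (nat_lit 0x8088c9a4bbff8eae6d)) (.lf (nat_lit 0x82b47497ab4869de0a))) (.nd (.lf (nat_lit 0x81f4a0ed77af72ba3d)) (.nd (.lf (nat_lit 0x8194e4e6e65e8c2b1d)) (.lf (nat_lit 0x82f8008002adb74cdd)) (.lf (nat_lit 0x813652aef61457de86)) (.lf (nat_lit 0x8257a587535d9f8e2f))) (.lf (nat_lit 0x80082183c4ef116a95)) (.lf (nat_lit 0x81f7b988333f381c8f))) (.lf (nat_lit 0x8198008001cea3cc89)) (.nd (.lf (nat_lit 0x8007ea8b0723fe18cd)) (.lf (nat_lit 0x80682886f5500b39cb)) (.lf (nat_lit 0x80080182178ff24b92)) (.lf (nat_lit 0x80e86acce985e0896d))) (.nd (.lf (nat_lit 0x80082983a478143a73)) (.lf (nat_lit 0x8008258152ec301ba1)) (.lf (nat_lit 0x8139eba627df2a8d1a)) (.lf (nat_lit 0x852bb0a2d72f3ffd5f))) (.nd (.nd (.lf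 (nat_lit 0x8047db87c5fbf9e943)) (.lf (nat_lit 0x8007e683f562f47a04)) (.lf (nat_lit 0x8007f783f5baf62a0d)) (.lf (nat_lit 0x8037db86b551f1ea6e))) (.lf (nat_lit 0x8057da84d454e97aa2)) (.nd (.lf (nat_lit 0x8007ed84f5f5f32ad0)) (.lf (nat_lit 0x8007ee82e500e34c0e)) (.lf (nat_lit 0x8007f481f6d6e82c7f)) (.lf (nat_lit 0x8067e482c496d6acca))) (.lf (nat_lit 0x8007cf835320c8ec67))))
  _ _ _ (by decide +kernel)

theorem g3_56_m40 : GD 3 56 (-40) :=
  GD.split (i := 2) g2_52_m44 g2_60_m44 g2_52_m36 g2_60_m36 (by decide)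

noncomputable def g2_52_m28 : GD 2 52 (-28) := chk_sound 
  (.cell (.nd (.lf (nat_lit 0x80980080088cc9ee82)) (.lf (nat_lit 0x89b2fe9249269feda7)) (.lf (nat_lit 0x8006f1a0dc9a6b2dfb)) (.lf (nat_lit 0x800568899d215d7d17))) (.nd (.lf (nat_lit 0x800925d377cbdea8a5)) (.lf (nat_lit 0x82a924bc01e47b8b58)) (.lf (nat_lit 0x8008078357be0b4b41)) (.lf (nat_lit 0x80082a83843a298c85))) (.lf (nat_lit 0x84cd5a8769f3633d4a)) (.nd (.lf (nat_lit 0x8007fc883772fcd997)) (.lf (nat_lit 0x8037f78488d9071a74)) (.lf (nat_lit 0x800801844735ed9c0c)) (.lf (nat_lit 0x80f6fdbe3a5d1d09fe))) (.lf (nat_lit 0x8b15638a5a313f5ded)) (.nd (.lf (nat_lit 0x8007ee83e70fec4c27)) (.lf (nat_lit 0x8657fd80d0ac8b0b1a)) (.lf (nat_lit 0x8007e7820623db6d47)) (.lf (nat_lit 0x8448008000d9974b42))))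
  _ _ _ (by decide +kernel)

noncomputable def g2_60_m28 : GD 2 60 (-28) := chk_sound 
  (.cell (.nd (.lf (nat_lit 0x80080b8269e0d00df4)) (.lf (nat_lit 0x84c5a092c59ac19ddc)) (.lf (nat_lit 0x80976c9a8c596c7e5d)) (.lf (nat_lit 0x83851b989b0d758e97))) (.nd (.lf (nat_lit 0x80b800800763fec8e8)) (.lf (nat_lit 0x82968bdf347fa25b17)) (.lf (nat_lit 0x80080e85366c0e4b4a)) (.lf (nat_lit 0x80682081e346373c92))) (.lf (nat_lit 0x8007e08081178a0bf9)) (.nd (.lf (nat_lit 0x80380b8c087fff1841)) (.lf (nat_lit 0x80080d85274d087abe)) (.lf (nat_lit 0x80080c84c87ef47b44)) (.lf (nat_lit 0x8007b7bec99a198a37))) (.nd (.lf (nat_lit 0x80080783b6aa12bbee)) (.lf (nat_lit 0x80682d82f3ca366d00)) (.lf (nat_lit 0x80080182a92d298dc6)) (.lf (nat_lit 0x8007f581c8ac4aff3f))) (.nd (.lf (nat_lit 0x8007fe83677cf0cbbd)) (.lf (nat_lit 0x8007e3821320d4cb7a)) (.lf (nat_lit 0x8007f183874ce24d12)) (.lf (nat_lit 0x8057c8821222bbebef))))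
  _ _ _ (by decide +kernel)

noncomputable def g2_52_m20 : GD 2 52 (-20) := chk_sound 
  (.cell (.lf (nat_lit 0x80082c805bff821eed)) (.nd (.lf (nat_lit 0x800800800836ff18ec)) (.lf (nat_lit 0x80085482318c496b3f)) (.lf (nat_lit 0x8008008429140f9ba7)) (.lf (nat_lit 0x80081d8324b12d2d1d))) (.lf (nat_lit 0x800ca38bfaf1618d72)) (.nd (.lf (nat_lit 0x8007ee87a70ffb29e7)) (.lf (nat_lit 0x813800800a3b0d3abc)) (.lf (nat_lit 0x80080184a735f3ab52)) (.lf (nat_lit 0x8047dd840b91191b20))) (.lf (nat_lit 0x8007e7814ab13f7e5c)) (.lf (nat_lit 0x860a43971528d99c26)))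
  _ _ _ (by decide +kernel)

noncomputable def g2_60_m20 : GD 2 60 (-20) := chk_sound 
  (.cell (.nd (.lf (nat_lit 0x80078eb1abcb8b7e44)) (.lf (nat_lit 0x8304d6979861b18e7c)) (.lf (nat_lit 0x829780946c9c67ce35)) (.lf (nat_lit 0x80059b920b1c740ed6))) (.nd (.lf (nat_lit 0x8008148bf70501a82c)) (.lf (nat_lit 0x84fb2bd3432a86f9ca)) (.lf (nat_lit 0x8007ff82a7ce102bdf)) (.lf (nat_lit 0x80082281536a3dbd12))) (.lf (nat_lit 0x84380080011e7e1c10)) (.nd (.lf (nat_lit 0x8007ff8cb80dff483f)) (.lf (nat_lit 0x8037f58578f10e2b82)) (.lf (nat_lit 0x81e6e4e33aca6ebbeb)) (.lf (nat_lit 0x8117c0970b051f3c03))) (.nd (.lf (nat_lit 0x8007f482e8911c7cfd)) (.lf (nat_lit 0x80080e8176753abe8b)) (.lf (nat_lit 0x8007e6822a3b30ede0)) (.lf (nat_lit 0x80080181580f5ecfb9))) (.lf (nat_lit 0x8007ef81d6b0eacc35)))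
  _ _ _ (by decide +kernel)

theorem g3_56_m24 : GD 3 56 (-24) :=
  GD.split (i := 2) g2_52_m28 g2_60_m28 g2_52_m20 g2_60_m20 (by decide)

noncomputable def g2_52_m12 : GD 2 52 (-12) := chk_sound 
  (.cell (.lf (nat_lit 0x8167c18eec8a854e81)) (.lf (nat_lit 0x8008008008970dfb93)) (.lf (nat_lit 0x86cc7c919aac638dac)) (.nd (.lf (nat_lit 0x8007e78856c9fb29ba)) (.lf (nat_lit 0x8007d784bb1914ab09)) (.lf (nat_lit 0x815618dd8aea485a5d)) (.lf (nat_lit 0x8057e382ac6629bbef))) (.lf (nat_lit 0x8007ff821b16458e68)) (.lf (nat_lit 0x86a9869236bee30c82)))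
  _ _ _ (by decide +kernel)

noncomputable def g2_60_m12 : GD 2 60 (-12) := chk_sound 
  (.cell (.lf (nat_lit 0x80d7de9bac3d833e8e)) (.nd (.lf (nat_lit 0x80181990e74f01c848)) (.lf (nat_lit 0x8537f587f15b574b9a)) (.lf (nat_lit 0x8007fa8438ed15ac57)) (.lf (nat_lit 0x80080a82c4c83bfdf5))) (.lf (nat_lit 0x80082580a15579ac65)) (.nd (.lf (nat_lit 0x8037f195185501f822)) (.lf (nat_lit 0x8007ff836a26185c29)) (.lf (nat_lit 0x821722cc2bc65fbcb8)) (.lf (nat_lit 0x8067e981fc1931ecd4))) (.lf (nat_lit 0x8186ff892a724c1eca)) (.lf (nat_lit 0x80080f8418b7f08bbc)))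
  _ _ _ (by decide +kernel)

noncomputable def g2_52_m4 : GD 2 52 (-4) := chk_sound 
  (.cell (.lf (nat_lit 0x8247c98c9cbf8d4e55)) (.lf (nat_lit 0x80080184889312dc1f)) (.lf (nat_lit 0x800c71937922623e2b)) (.lf (nat_lit 0x8117869c4c812f8be0)) (.lf (nat_lit 0x8007d6824bda51ee63)) (.lf (nat_lit 0x8007f183b706f0fb9f)))
  _ _ _ (by decide +kernel)

noncomputable def g2_60_m4 : GD 2 60 (-4) := chk_sound 
  (.cell (.lf (nat_lit 0x8207c5964c8b894e67)) (.lf (nat_lit 0x8007f185b8a30e6b9b)) (.lf (nat_lit 0x81282c8031977bbcc5)) (.nd (.lf (nat_lit 0x8007f08988ba02391c)) (.lf (nat_lit 0x8007e4813aef238cae)) (.lf (nat_lit 0x800768c08c134fbca7)) (.lf (nat_lit 0x800800800c2c415d96))) (.lf (nat_lit 0x8007f481bb1854dedd)) (.lf (nat_lit 0x80080185299bf63a97)))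
  _ _ _ (by decide +kernel)

theorem g3_56_m8 : GD 3 56 (-8) :=
  GD.split (i := 2) g2_52_m12 g2_60_m12 g2_52_m4 g2_60_m4 (by decide)

noncomputable def g2_52_4 : GD 2 52 4 := chk_sound 
  (.cell (.lf (nat_lit 0x82b7e38d7d1d938df7)) (.lf (nat_lit 0x84879c82e860162c72)) (.lf (nat_lit 0x85896183f2de5eed97)) (.lf (nat_lit 0x82778da5fc903c7c6a)) (.lf (nat_lit 0x8007ff80bbc7573e92)) (.lf (nat_lit 0x8007fa8497b6f8fa94)))
  _ _ _ (by decide +kernel)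

noncomputable def g2_60_4 : GD 2 60 4 := chk_sound 
  (.cell (.lf (nat_lit 0x81c7ec8c7cdd910e36)) (.lf (nat_lit 0x82c68b98f8c118ac22)) (.lf (nat_lit 0x82e8008001cf81ed0f)) (.lf (nat_lit 0x82a7f0afccbd5f6d55)) (.lf (nat_lit 0x8007e380bbbb613ece)) (.lf (nat_lit 0x800801825c24d13c96)))
  _ _ _ (by decide +kernel)

noncomputable def g2_52_12 : GD 2 52 12 := chk_sound 
  (.cell (.lf (nat_lit 0x83277f942d5b888dc2)) (.lf (nat_lit 0x82376e8ea814141c28)) (.lf (nat_lit 0x82f80080027083bdbd)) (.lf (nat_lit 0x82a7ee8c5c8133dc84)) (.lf (nat_lit 0x8007ff80cb675c5ee3)) (.lf (nat_lit 0x80080882a912fd692b)))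
  _ _ _ (by decide +kernel)

noncomputable def g2_60_12 : GD 2 60 12 := chk_sound 
  (.cell (.nd (.lf (nat_lit 0x8378018f9d60909dbf)) (.lf (nat_lit 0x800817819c9cbc1d59)) (.lf (nat_lit 0x82a800800cde709e45)) (.lf (nat_lit 0x80080180fac3a3af2b))) (.lf (nat_lit 0x8007fd82d80d0eebbb)) (.lf (nat_lit 0x82b8008001f688fd36)) (.lf (nat_lit 0x8267e8b04ccf5e6d3a)) (.lf (nat_lit 0x8007e5816be461aeb9)) (.lf (nat_lit 0x81b865bc7cb98fad20)))
  _ _ _ (by decide +kernel)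

theorem g3_56_8 : GD 3 56 8 :=
  GD.split (i := 2) g2_52_4 g2_60_4 g2_52_12 g2_60_12 (by decide)

end Pool.Agent.P.MP_f12b6c_an.Dg
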