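import Pool.Agent.P.MP_f12b6c_an.T3DgDef

/-! Certificates for the diagonal statement. -/

set_option maxRecDepth 100000
set_option linter.defProp false

namespace Pool.Agent.P.MP_f12b6c_an.Dg

noncomputable def g2_52_20 : GD 2 52 20 := chk_sound 
  (.cell (.lf (nat_lit 0x80082f806d85943da5)) (.lf (nat_lit 0x815838884867151c56)) (.lf (nat_lit 0x82d80080028a907dc0)) (.lf (nat_lit 0x82980295bccb402cd1)) (.lf (nat_lit 0x8007e1812bc9657ed8)) (.lf (nat_lit 0x800898c5fce189fc82)))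
  _ _ _ (by decide +kernel)

noncomputable def g2_60_20 : GD 2 60 20 := chk_sound 
  (.cell (.lf (nat_lit 0x88d7faaebcce86cda6)) (.lf (nat_lit 0x8007ff82f8dc150c4c)) (.lf (nat_lit 0x8007cf80e20c8ebd42)) (.lf (nat_lit 0x81f800800cc045bd4d)) (.lf (nat_lit 0x8177f888ab85668efb)) (.lf (nat_lit 0x80086cbbbcc782dd33)))
  _ _ _ (by decide +kernel)

noncomputable def g2_52_28 : GD 2 52 28 := chk_sound 
  (.cell (.lf (nat_lit 0x81583894ad499e7d8a)) (.lf (nat_lit 0x82581c86d8fc196ca7)) (.lf (nat_lit 0x82480080028f97edab)) (.lf (nat_lit 0x8007ef813cc6526dbf)) (.lf (nat_lit 0x8007ff817c0e644eac)) (.lf (nat_lit 0x86b8b4bffced7bcccc)))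
  _ _ _ (by decide +kernel)

noncomputable def g2_60_28 : GD 2 60 28 := chk_sound 
  (.cell (.nd (.lf (nat_lit 0x83a800800d888abdbc)) (.lf (nat_lit 0x83080f83dcb7c5dcc1)) (.lf (nat_lit 0x8007cb805cd67e8e5e)) (.lf (nat_lit 0x8008158149a3b7df02))) (.lf (nat_lit 0x8047f38379811d5cdc)) (.lf (nat_lit 0x8007c381221492ad3e)) (.lf (nat_lit 0x8007dc810ceb4d0d71)) (.lf (nat_lit 0x8f57da995bad6b4ebc)) (.lf (nat_lit 0x82489fba7cc880bd3b)))
  _ _ _ (by decide +kernel)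

theorem g3_56_24 : GD 3 56 24 :=
  GD.split (i := 2) g2_52_20 g2_60_20 g2_52_28 g2_60_28 (by decide)

noncomputable def g2_52_36 : GD 2 52 36 := chk_sound 
  (.cell (.lf (nat_lit 0x814800800da69ecd53)) (.lf (nat_lit 0x8007eb837a1d2a8d8f)) (.lf (nat_lit 0x8178008002869bdd90)) (.lf (nat_lit 0x827800800ce1534daf)) (.lf (nat_lit 0x8007e1816bfa63beb5)) (.lf (nat_lit 0x8318bebc8cf679dcef)))
  _ _ _ (by decide +kernel)

noncomputable def g2_60_36 : GD 2 60 36 := chk_sound 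
  (.cell (.lf (nat_lit 0x8f9841a22d3786ad92)) (.lf (nat_lit 0x8007e9827a2927ad5d)) (.lf (nat_lit 0x8007dc80e21094ed32)) (.lf (nat_lit 0x8007d4817ca4566df8)) (.lf (nat_lit 0x80066a825be46bceb0)) (.lf (nat_lit 0x8338e7b7bcd47e4d43)))
  _ _ _ (by decide +kernel)

noncomputable def g2_52_44 : GD 2 52 44 := chk_sound 
  (.cell (.lf (nat_lit 0x82786995ada38f6d69)) (.lf (nat_lit 0x8027eb81cb1a3cae0d)) (.lf (nat_lit 0x8008008002749d9d75)) (.lf (nat_lit 0x80c7de80dd20621dd8)) (.lf (nat_lit 0x800800800c0e64beae)) (.lf (nat_lit 0x82e942b39cf3787d39)))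
  _ _ _ (by decide +kernel)

noncomputable def g2_60_44 : GD 2 60 44 := chk_sound 
  (.cell (.lf (nat_lit 0x93f7bd926d128d7de2)) (.lf (nat_lit 0x800801808aa2307daf)) (.lf (nat_lit 0x8007dc810205958d22)) (.lf (nat_lit 0x828800800cca60ce19)) (.lf (nat_lit 0x92a806997bd86ceea0)) (.nd (.lf (nat_lit 0x8007e6836b282e4d47)) (.lf (nat_lit 0x80383c8583dd19ca6a)) (.lf (nat_lit 0x8298f7aced347c1d4b)) (.lf (nat_lit 0x80080e821d0bcf3bbe))))
  _ _ _ (by decide +kernel)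

theorem g3_56_40 : GD 3 56 40 :=
  GD.split (i := 2) g2_52_36 g2_60_36 g2_52_44 g2_60_44 (by decide)

noncomputable def g2_52_52 : GD 2 52 52 := chk_sound 
  (.cell (.lf (nat_lit 0x82285a927d9c928d73)) (.lf (nat_lit 0x8007ec822af1373de1)) (.lf (nat_lit 0x8057e980b25e9d9d5e)) (.lf (nat_lit 0x8007d6808ccb615e1b)) (.nd (.lf (nat_lit 0x8007d2818c4a64de88)) (.lf (nat_lit 0x8008008002859cad8b)) (.lf (nat_lit 0x82e800800cdc87de55)) (.lf (nat_lit 0x8007d881e2b2a69d7a))) (.lf (nat_lit 0x838925af8cd8723d71)))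
  _ _ _ (by decide +kernel)

noncomputable def g2_60_52 : GD 2 60 52 := chk_sound 
  (.cell (.lf (nat_lit 0x800877b0dcfa8c2d65)) (.lf (nat_lit 0x800801820a362a5d83)) (.lf (nat_lit 0x81e8008001f5947d14)) (.lf (nat_lit 0x828800800cdf68ae2c)) (.lf (nat_lit 0x9137ed9c2bd46d3e9c)) (.nd (.lf (nat_lit 0x83083f8c1ba0382d7a)) (.lf (nat_lit 0x80080d84144a150a52)) (.lf (nat_lit 0x82f911ac7d1a7dfd69)) (.lf (nat_lit 0x800828825c4cdbeb88))))
  _ _ _ (by decide +kernel)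

noncomputable def g2_52_60 : GD 2 52 60 := chk_sound 
  (.cell (.lf (nat_lit 0x800827811d49925de4)) (.lf (nat_lit 0x8047eb82ca8c309dba)) (.lf (nat_lit 0x8007e08112469bfd4d)) (.lf (nat_lit 0x822800800cd662ae19)) (.nd (.lf (nat_lit 0x825800800c4b650e88)) (.lf (nat_lit 0x8007eb8162699bcd73)) (.lf (nat_lit 0x80e800800ce58dae44)) (.lf (nat_lit 0x8007ce80d2a1a8ed58))) (.nd (.lf (nat_lit 0x8298a3993c484e7dc2)) (.lf (nat_lit 0x80082085e5250fda8c)) (.lf (nat_lit 0x8148fda47d60831d5f)) (.lf (nat_lit 0x820800800c89d91b85))))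
  _ _ _ (by decide +kernel)

noncomputable def g2_60_60 : GD 2 60 60 := chk_sound 
  (.cell (.lf (nat_lit 0x80081580bd4f9b6dbb)) (.lf (nat_lit 0x8007f78269bb246d4e)) (.lf (nat_lit 0x8007c380e1e4913d0b)) (.lf (nat_lit 0x8047d280bce96dce35)) (.nd (.lf (nat_lit 0x8007ed80bb796e4f1e)) (.lf (nat_lit 0x8007cb81222d90dd60)) (.lf (nat_lit 0x800801811c289d6e95)) (.lf (nat_lit 0x80080180f27ea93d32))) (.nd (.nd (.lf (nat_lit 0x8007e982ea3622ed04)) (.lf (nat_lit 0x80080981d6e10cdb4b)) (.lf (nat_lit 0x800801809c4f4e0df8)) (.lf (nat_lit 0x82e8bc9d6bfe45ad8c))) (.lf (nat_lit 0x8008318514a1117a2b)) (.lf (nat_lit 0x8368faa92d4080ad5e)) (.lf (nat_lit 0x8447cf95bc3adc5b4c))))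
  _ _ _ (by decide +kernel)

theorem g3_56_56 : GD 3 56 56 :=
  GD.split (i := 2) g2_52_52 g2_60_52 g2_52_60 g2_60_60 (by decide)

noncomputable def g2_52_68 : GD 2 52 68 := chk_sound 
  (.cell (.lf (nat_lit 0x82d879ac6d1e934d54)) (.lf (nat_lit 0x8007ee81b94f20fd30)) (.lf (nat_lit 0x8007ff80b22f989d45)) (.lf (nat_lit 0x8007ff80ccd364be25)) (.nd (.lf (nat_lit 0x832856882c50666e83)) (.lf (nat_lit 0x8007ed81225297cd6e)) (.lf (nat_lit 0x81a800800cc892fe4d)) (.lf (nat_lit 0x8007d080a299aa0d47))) (.nd (.lf (nat_lit 0x8258b199cc9b56edc0)) (.lf (nat_lit 0x80081a85a5d10869c6)) (.lf (nat_lit 0x8318e49e7d82866d63)) (.lf (nat_lit 0x81883587cc89db5b3f))))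
  _ _ _ (by decide +kernel)

noncomputable def g2_60_68 : GD 2 60 68 := chk_sound 
  (.cell (.lf (nat_lit 0x802818807d2c9b2ddc)) (.lf (nat_lit 0x8007ef807940208d2c)) (.lf (nat_lit 0x8008008001d28b4d07)) (.lf (nat_lit 0x8007e1811cf170ae37)) (.nd (.lf (nat_lit 0x800800800bd36e9ef0)) (.lf (nat_lit 0x8007e380c22788ad6d)) (.lf (nat_lit 0x800828814c5595de95)) (.lf (nat_lit 0x8007c1816292abad32))) (.nd (.lf (nat_lit 0x81b8b79bac724eed98)) (.lf (nat_lit 0x81b8c594d5490cf99a)) (.lf (nat_lit 0x83b8fca6fd41803d6d)) (.lf (nat_lit 0x81e854936c73d9ab59))))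
  _ _ _ (by decide +kernel)

noncomputable def g2_52_76 : GD 2 52 76 := chk_sound 
  (.cell (.lf (nat_lit 0x800838807d42a15da7)) (.lf (nat_lit 0x8007f18388d41abccf)) (.lf (nat_lit 0x8007d881221e932d48)) (.lf (nat_lit 0x8007ff80ecb8661e40)) (.nd (.lf (nat_lit 0x8007f0814c2a66bea4)) (.lf (nat_lit 0x8007eb80e2468fdd7e)) (.lf (nat_lit 0x80081f810c9c98fe59)) (.lf (nat_lit 0x8007df81729faa9d49))) (.nd (.lf (nat_lit 0x80186e8eecc1598de0)) (.lf (nat_lit 0x824844877d7ecbeb51)) (.lf (nat_lit 0x81e88d931d9e883d84)) (.lf (nat_lit 0x800820831d21d11b74))))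
  _ _ _ (by decide +kernel)

noncomputable def g2_60_76 : GD 2 60 76 := chk_sound 
  (.cell (.lf (nat_lit 0x8287eca26cdda4dd83)) (.lf (nat_lit 0x8008018108f61d0cf9)) (.lf (nat_lit 0x8428008001c980fd07)) (.lf (nat_lit 0x8007f380fcfd71ee30)) (.nd (.lf (nat_lit 0x8007ff80eb8366df03)) (.lf (nat_lit 0x80280080024078dd8a)) (.lf (nat_lit 0x82c800800c1299eeb1)) (.lf (nat_lit 0x8007ff8122c1af1d45))) (.nd (.lf (nat_lit 0x8007de806c984f9dce)) (.lf (nat_lit 0x81184b836dc6c3fb88)) (.lf (nat_lit 0x81c874907d9e835d93)) (.nd (.lf (nat_lit 0x808832836d12ce6bc4)) (.lf (nat_lit 0x820995a491265e2a30)) (.lf (nat_lit 0x804814826bc9d8cc57)) (.lf (nat_lit 0x8a49c489f2bacabb3b)))))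
  _ _ _ (by decide +kernel)

theorem g3_56_72 : GD 3 56 72 :=
  GD.split (i := 2) g2_52_68 g2_60_68 g2_52_76 g2_60_76 (by decide)

noncomputable def g2_52_84 : GD 2 52 84 := chk_sound 
  (.cell (.lf (nat_lit 0x81a825a68cfda7dd34)) (.lf (nat_lit 0x8007f88108c2176c8a)) (.lf (nat_lit 0x8007e380b2148b3d54)) (.lf (nat_lit 0x823800800cad658e46)) (.nd (.lf (nat_lit 0x80074587cc39658e87)) (.lf (nat_lit 0x82a800800251827d9f)) (.lf (nat_lit 0x80081680ac5f938e96)) (.lf (nat_lit 0x8268008002bbab8d5d))) (.nd (.lf (nat_lit 0x8007d680bcaa524dd5)) (.lf (nat_lit 0x8309bfbc7d2192ec5a)) (.lf (nat_lit 0x800828808d9d88bdab)) (.nd (.lf (nat_lit 0x800801827d95c7fb8b)) (.lf (nat_lit 0xabe345871bccc46916)) (.lf (nat_lit 0x800824825c51c32d43)) (.lf (nat_lit 0x8334b0bbb95ad7baad)))))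
  _ _ _ (by decide +kernel)

noncomputable def g2_60_84 : GD 2 60 84 := chk_sound 
  (.cell (.lf (nat_lit 0x8167ee850ce6a65dd7)) (.lf (nat_lit 0x8007f983c840153c64)) (.lf (nat_lit 0x81582f8091d46e9cf7)) (.lf (nat_lit 0x816800800c40615e7f)) (.nd (.lf (nat_lit 0x800800800bf5687ecb)) (.lf (nat_lit 0x80081c8072b35f1d9f)) (.lf (nat_lit 0x810800800bce9b0ed4)) (.lf (nat_lit 0x8007ff82332bb5ad6b))) (.nd (.lf (nat_lit 0x8007e081ecb34d0da1)) (.lf (nat_lit 0x82b930a96da2b17bd1)) (.lf (nat_lit 0x834800800dbf812d8f)) (.nd (.lf (nat_lit 0x80082081ddf7bb0bd7)) (.lf (nat_lit 0x82f9dea3412b5eba23)) (.lf (nat_lit 0x80c79ba94cd4b4ecca)) (.lf (nat_lit 0x8007cd8372f0cfcba9)))))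
  _ _ _ (by decide +kernel)

noncomputable def g2_52_92 : GD 2 52 92 := chk_sound 
  (.cell (.lf (nat_lit 0x82b7dd949d02aa2d80)) (.lf (nat_lit 0x80080082c8e217bc8b)) (.lf (nat_lit 0x8008018022167fbd62)) (.lf (nat_lit 0x81c881890ca764ae3b)) (.nd (.lf (nat_lit 0x81a7b8898c1d620e90)) (.lf (nat_lit 0x80081380f28b6d9dbb)) (.lf (nat_lit 0x800824806c20944ebc)) (.lf (nat_lit 0x8007d68122f8adfd83))) (.nd (.lf (nat_lit 0x8007ff819ce555adbe)) (.lf (nat_lit 0x82a9bfbb0d2f8bbc76)) (.lf (nat_lit 0x80083b808dbc86cd8e)) (.nd (.lf (nat_lit 0x80a84281be33afbc12)) (.lf (nat_lit 0xcf6cc682892ebbb91a)) (.lf (nat_lit 0x80081080ec5ecebc8c)) (.lf (nat_lit 0x85e76981d351cfec13)))))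
  _ _ _ (by decide +kernel)

noncomputable def g2_60_92 : GD 2 60 92 := chk_sound 
  (.cell (.lf (nat_lit 0x80082880ecc1a54dfe)) (.lf (nat_lit 0x80080182a844174c95)) (.lf (nat_lit 0x80ea77c223928f8c80)) (.lf (nat_lit 0x805800800c4960ce77)) (.nd (.lf (nat_lit 0x800801804bac62eede)) (.lf (nat_lit 0x80d84ea885f656bed5)) (.lf (nat_lit 0x800800800ad3abfef6)) (.lf (nat_lit 0x80081eba1570b45dca))) (.nd (.lf (nat_lit 0x8007c5811ce64fbd8d)) (.lf (nat_lit 0x81e9a5b25ddba13b93)) (.lf (nat_lit 0x826800800e4376dcf0)) (.lf (nat_lit 0x839892c14d25636c29))))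
  _ _ _ (by decide +kernel)

theorem g3_56_88 : GD 3 56 88 :=
  GD.split (i := 2) g2_52_84 g2_60_84 g2_52_92 g2_60_92 (by decide)

noncomputable def g2_52_100 : GD 2 52 100 := chk_sound 
  (.cell (.lf (nat_lit 0x800820818ceea9bdbb)) (.lf (nat_lit 0x8007f082d90e19fcb4)) (.lf (nat_lit 0x80081380b2306e4d61)) (.lf (nat_lit 0x81879392dcb6666e23)) (.nd (.lf (nat_lit 0x81576b864c085e7e8b)) (.lf (nat_lit 0x82280080031552dda3)) (.lf (nat_lit 0x800801813c1b9c6ea1)) (.lf (nat_lit 0x8047cd82336cb40db1))) (.nd (.lf (nat_lit 0x800800800ccd4f1d9e)) (.lf (nat_lit 0x82e9e0b54d8f8d6c37)) (.lf (nat_lit 0x800831806dfc824d4d)) (.nd (.lf (nat_lit 0x800812805ebe8d8c37)) (.lf (nat_lit 0x81a9168ab0e4898b61)) (.lf (nat_lit 0x8006feaaeca8b27cea)) (.lf (nat_lit 0x80080180c388d2ec24)))))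
  _ _ _ (by decide +kernel)

noncomputable def g2_60_100 : GD 2 60 100 := chk_sound 
  (.cell (.lf (nat_lit 0x84151bb54a34bb5d16)) (.lf (nat_lit 0x8008048217d61a3cd7)) (.lf (nat_lit 0x825a7aec16428fcade)) (.lf (nat_lit 0x83d8c289bc6b606e4a)) (.nd (.lf (nat_lit 0x821800800b4d5f6efe)) (.lf (nat_lit 0x800864b887483a0da2)) (.lf (nat_lit 0x80081980aa69aabf25)) (.lf (nat_lit 0x8037c2c677cbca9cc6))) (.lf (nat_lit 0x82ea2ba36db674fc9c)))
  _ _ _ (by decide +kernel)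

noncomputable def g2_52_108 : GD 2 52 108 := chk_sound 
  (.cell (.lf (nat_lit 0x8315bbb73b02b9ecfa)) (.lf (nat_lit 0x8007f782b90c1c4ce5)) (.lf (nat_lit 0x83c9b0b122bf7b9ce5)) (.lf (nat_lit 0x8ea80e970cc465adf8)) (.nd (.lf (nat_lit 0x8007df80ac1a604e92)) (.lf (nat_lit 0x80082b8343e83aad53)) (.lf (nat_lit 0x80081680cbe49a5eca)) (.lf (nat_lit 0x8007ffae95f0acae98))) (.nd (.lf (nat_lit 0x81e9438d2d51595d40)) (.lf (nat_lit 0x803adfaaadd88eebb0)) (.lf (nat_lit 0x800800800e85753c95)) (.lf (nat_lit 0x83858ea8ddf77e6bfb))))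
  _ _ _ (by decide +kernel)

noncomputable def g2_60_108 : GD 2 60 108 := chk_sound 
  (.cell (.lf (nat_lit 0x8007ff83152adaecdc)) (.lf (nat_lit 0x8098318374dd23ac8d)) (.lf (nat_lit 0x826a62efa7a7b0788d)) (.lf (nat_lit 0x8689cc8fad1e5fdd6c)) (.nd (.lf (nat_lit 0x8007e481bacf5e6f30)) (.lf (nat_lit 0x80085fa3b7541cac74)) (.lf (nat_lit 0x80a800800a01a77f57)) (.lf (nat_lit 0x8097f8c7f8dad34bfe))) (.lf (nat_lit 0x855b619b9e156d7b56)))
  _ _ _ (by decide +kernel)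

theorem g3_56_104 : GD 3 56 104 :=
  GD.split (i := 2) g2_52_100 g2_60_100 g2_52_108 g2_60_108 (by decide)

noncomputable def g2_52_116 : GD 2 52 116 := chk_sound 
  (.cell (.lf (nat_lit 0x8335e29e7693dd1c78)) (.lf (nat_lit 0x8007f58358751d2d0d)) (.lf (nat_lit 0x814a37dc54b78babcd)) (.lf (nat_lit 0x94f8a1981ceb646db2)) (.nd (.lf (nat_lit 0x8067df816bd8563e82)) (.lf (nat_lit 0x8008018354a62a3ce4)) (.lf (nat_lit 0x80981c809ae18cff6b)) (.lf (nat_lit 0x800819d757fcaa9d35))) (.lf (nat_lit 0x834a6ba03df5728c39)))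
  _ _ _ (by decide +kernel)

noncomputable def g2_60_116 : GD 2 60 116 := chk_sound 
  (.cell (.lf (nat_lit 0x800801811541dadceb)) (.lf (nat_lit 0x80080e8224a4264c9a)) (.lf (nat_lit 0x852a17d8e86cd5680a)) (.nd (.lf (nat_lit 0x913c75878cab632c34)) (.lf (nat_lit 0x82495a8afb4a6daf09)) (.lf (nat_lit 0x8393ccaaad2c660b20)) (.lf (nat_lit 0x8304aba62ada908e29))) (.nd (.lf (nat_lit 0x8007ff810a255f2f6d)) (.lf (nat_lit 0x80080c84d6c3128bf0)) (.lf (nat_lit 0x81881eb5ba678e4ecb)) (.lf (nat_lit 0x8047f0ca18f7d71b77))) (.nd (.lf (nat_lit 0x867e6f87ec70728952)) (.lf (nat_lit 0x9f457a86b1d1463984)) (.lf (nat_lit 0x8183afa052b7b5497d)) (.lf (nat_lit 0x8712249ba714ce9938))))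
  _ _ _ (by decide +kernel)

noncomputable def g2_52_124 : GD 2 52 124 := chk_sound 
  (.cell (.lf (nat_lit 0x8007e3840552db5cea)) (.lf (nat_lit 0x81d81e82f4b825cc9e)) (.lf (nat_lit 0x83bad7cb26f1d5d9fa)) (.nd (.lf (nat_lit 0x852a5892fdae627c9d)) (.lf (nat_lit 0x800800800c3b562e43)) (.lf (nat_lit 0x8127b182ae764d3b77)) (.lf (nat_lit 0x820800800cc2817e6d))) (.nd (.lf (nat_lit 0x8007e1807b7a567eb8)) (.lf (nat_lit 0x800817841544204c8a)) (.lf (nat_lit 0x80080b807ab4830f86)) (.lf (nat_lit 0x8067ffd5889fc58c05))) (.lf (nat_lit 0x830b5597ce67768b0b)))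
  _ _ _ (by decide +kernel)

noncomputable def g2_60_124 : GD 2 60 124 := chk_sound 
  (.cell (.lf (nat_lit 0x8007ed83455bdaacfc)) (.lf (nat_lit 0x80080182b4b1263ca2)) (.lf (nat_lit 0x82a9309ea69507986c)) (.nd (.nd (.lf (nat_lit 0x8008358191f45b9cb5)) (.lf (nat_lit 0x80081f8242d9514d5f)) (.lf (nat_lit 0x8067ab8080f78b0bba)) (.lf (nat_lit 0x8000ef8c989f709b7b))) (.nd (.lf (nat_lit 0x80081d80c410470dfb)) (.lf (nat_lit 0x80481b8295453f7e57)) (.lf (nat_lit 0x84a44a8ff7dd7b1f00)) (.lf (nat_lit 0x80f77983677d822ff6))) (.lf (nat_lit 0x81c766847271bc6c49)) (.lf (nat_lit 0x82568b8f3639b46edc))) (.nd (.lf (nat_lit 0x8008018159f3599f60)) (.lf (nat_lit 0x8008058346d610bbc3)) (.lf (nat_lit 0x80f7e5b2aaa27c6edb)) (.lf (nat_lit 0x8117e0c338ecdfcb1b))) (.nd (.lf (nat_lit 0x849a158471546f8bba)) (.lf (nat_lit 0x80f67391726e37aafa)) (.lf (nat_lit 0x8007d582921dbd1bd5)) (.lf (nat_lit 0x899ab98b5571e87a8e))))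
  _ _ _ (by decide +kernel)

theorem g3_56_120 : GD 3 56 120 :=
  GD.split (i := 2) g2_52_116 g2_60_116 g2_52_124 g2_60_124 (by decide)

noncomputable def g2_68_m124 : GD 2 68 (-124) := chk_sound 
  (.cell (.lf (nat_lit 0x8008098219d5e4ac96)) (.lf (nat_lit 0x8017ef82dae024bcce)) (.nd (.lf (nat_lit 0x8088008005765e2f48)) (.lf (nat_lit 0x800800800328695e34)) (.lf (nat_lit 0x81f8008004fe8cdf5e)) (.lf (nat_lit 0x8067e1816394ad4e08))) (.nd (.lf (nat_lit 0x83191fb1bd40494bb5)) (.lf (nat_lit 0x83a810ab1263b07c00)) (.lf (nat_lit 0x80082882dca0d11c1b)) (.lf (nat_lit 0x8339d9b2d257896c40))) (.lf (nat_lit 0x83894991326e95ad51)) (.lf (nat_lit 0x83094ba42cb8747ddd)))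
  _ _ _ (by decide +kernel)

noncomputable def g2_76_m124 : GD 2 76 (-124) := chk_sound .out
  _ _ _ (by decide +kernel)

noncomputable def g2_68_m116 : GD 2 68 (-116) := chk_sound 
  (.cell (.lf (nat_lit 0x800815832b6ad9dc8e)) (.lf (nat_lit 0x8007e182badd254cda)) (.nd (.lf (nat_lit 0x8008008007782fbe34)) (.lf (nat_lit 0x8396259b149c692ea4)) (.lf (nat_lit 0x8007ffa7261d98ef36)) (.lf (nat_lit 0x80a7d681043d98fee2))) (.nd (.lf (nat_lit 0x8678e69069660fab44)) (.lf (nat_lit 0x83d433a03da445a884)) (.lf (nat_lit 0x80082d832bffe0fb59)) (.lf (nat_lit 0x864b7ca9d1827d49a1))) (.lf (nat_lit 0x8a7ade8d72a1a57c81)) (.lf (nat_lit 0x80e8fff6d7b168aa5e)))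
  _ _ _ (by decide +kernel)

noncomputable def g2_76_m116 : GD 2 76 (-116) := chk_sound 
  (.cell (.lf (nat_lit 0x80081f80fb6eda3c84)) (.lf (nat_lit 0x800800800aef258cd5)) (.nd (.lf (nat_lit 0x8007d49ff8af25ad40)) (.lf (nat_lit 0x8316ba9095b6629f41)) (.lf (nat_lit 0x8137b8b8e6b9991ede)) (.lf (nat_lit 0x8007ee81055f96af6b))) (.nd (.lf (nat_lit 0x8689a098a969102ad0)) (.lf (nat_lit 0x80e730872efc43982a)) (.lf (nat_lit 0x80081782ec0de22b25)) (.lf (nat_lit 0x85ed2ea322d08d9a22))) (.nd (.lf (nat_lit 0x8007ab831115b3ba59)) (.lf (nat_lit 0x83e5a09b72fd8acd75)) (.lf (nat_lit 0x800cdb82e3b8957c80)) (.lf (nat_lit 0x8007da80b44c987eec))) (.lf (nat_lit 0x800848ccd7261e99bc)))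
  _ _ _ (by decide +kernel)

theorem g3_72_m120 : GD 3 72 (-120) :=
  GD.split (i := 2) g2_68_m124 g2_76_m124 g2_68_m116 g2_76_m116 (by decide)

noncomputable def g2_68_m108 : GD 2 68 (-108) := chk_sound 
  (.cell (.lf (nat_lit 0x800826831b56da8c8f)) (.lf (nat_lit 0x8067e982fac7260cf5)) (.nd (.lf (nat_lit 0x809794b216ac36bd97)) (.lf (nat_lit 0x8007ff824b8a424e0b)) (.lf (nat_lit 0x8187c0ad1565b70e1d)) (.lf (nat_lit 0x800800800a7197af79))) (.lf (nat_lit 0xc5e8369524e52b9a5e)) (.lf (nat_lit 0x8007c7817e5c686c9d)) (.lf (nat_lit 0x80086bc9072a18386b)))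
  _ _ _ (by decide +kernel)

noncomputable def g2_76_m108 : GD 2 76 (-108) := chk_sound 
  (.cell (.lf (nat_lit 0x818800800b5cdaec84)) (.lf (nat_lit 0x8007ff83aadb265cef)) (.nd (.lf (nat_lit 0x8157b6a2973b285d59)) (.lf (nat_lit 0x8057e3824b68430e26)) (.lf (nat_lit 0x80079bc085b2b09dbf)) (.lf (nat_lit 0x80381180ea2d9edf73))) (.lf (nat_lit 0x89c3f48cb41930aa98)) (.lf (nat_lit 0x8007d1811e296b9cef)) (.lf (nat_lit 0x8028138c07110248dc)))
  _ _ _ (by decide +kernel)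

noncomputable def g2_68_m100 : GD 2 68 (-100) := chk_sound 
  (.cell (.lf (nat_lit 0x80281c82bb3adb2c97)) (.lf (nat_lit 0x8007f281a9e91caca9)) (.nd (.nd (.lf (nat_lit 0x8008018417b719ecce)) (.lf (nat_lit 0x8007ff8358f12b5deb)) (.lf (nat_lit 0x8147cda1d77b0d9ad5)) (.lf (nat_lit 0x81f79fc6558a5cfdcd))) (.lf (nat_lit 0x8007ff817c4c53fe28)) (.lf (nat_lit 0x810760ad45c0cb1d57)) (.lf (nat_lit 0x800800800b56947f28))) (.lf (nat_lit 0x91d52a8e7427256aa4)) (.lf (nat_lit 0x829800800e29791d14)) (.lf (nat_lit 0x80081d90373601d84b)))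
  _ _ _ (by decide +kernel)

noncomputable def g2_76_m100 : GD 2 76 (-100) := chk_sound 
  (.cell (.lf (nat_lit 0x80081b828b41db7c8c)) (.lf (nat_lit 0x8007eb836a021d1ca7)) (.nd (.lf (nat_lit 0x816784b3a6cc33dd67)) (.lf (nat_lit 0x8067e9813b8353bea1)) (.lf (nat_lit 0x80d783b8d5bfc93d03)) (.lf (nat_lit 0x800800800ad09b9f49))) (.lf (nat_lit 0x87357f8f73552d7ada)) (.lf (nat_lit 0x829800800e167b4d2d)) (.lf (nat_lit 0x8008018787120198a4)))
  _ _ _ (by decide +kernel)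

theorem g3_72_m104 : GD 3 72 (-104) :=
  GD.split (i := 2) g2_68_m108 g2_76_m108 g2_68_m100 g2_76_m100 (by decide)

noncomputable def g2_68_m92 : GD 2 68 (-92) := chk_sound 
  (.cell (.lf (nat_lit 0x80081284fa07eb2bdd)) (.lf (nat_lit 0x8007ee81e96d1c6ccf)) (.lf (nat_lit 0x823779d0a4f4874d5e)) (.lf (nat_lit 0x833a559f447d23db06)) (.lf (nat_lit 0x800820806e27860d18)) (.lf (nat_lit 0x8008028787ce0108d3)))
  _ _ _ (by decide +kernel)

noncomputable def g2_76_m92 : GD 2 76 (-92) := chk_sound 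
  (.cell (.lf (nat_lit 0x80081a8299e8e9cc13)) (.lf (nat_lit 0x8007f582598b1d0cd3)) (.nd (.nd (.lf (nat_lit 0x80080183078416dc86)) (.lf (nat_lit 0x80080182482329bde7)) (.lf (nat_lit 0x8007ff8647d707eab9)) (.lf (nat_lit 0x81673dc975b8547d73))) (.lf (nat_lit 0x80d7708d5aaf652f47)) (.lf (nat_lit 0x800744b155f1db3c26)) (.lf (nat_lit 0x800800800a86a00f52))) (.lf (nat_lit 0x9f6839b863c7395b35)) (.lf (nat_lit 0x81f800800e1d879d22)) (.lf (nat_lit 0x80080888e7a201e92b)))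
  _ _ _ (by decide +kernel)

noncomputable def g2_68_m84 : GD 2 68 (-84) := chk_sound 
  (.cell (.lf (nat_lit 0x80080185c836f75adc)) (.lf (nat_lit 0x80980080097f27fd9b)) (.nd (.nd (.lf (nat_lit 0x8007ff82978617fca0)) (.lf (nat_lit 0x80080982b7a4308e41)) (.lf (nat_lit 0x80b665f267fc51a95f)) (.lf (nat_lit 0x81470ec394bb987dad))) (.lf (nat_lit 0x8007ff80da9a6b3f73)) (.lf (nat_lit 0x8007e3832565e71bf4)) (.lf (nat_lit 0x802819816b3aa37ef9))) (.lf (nat_lit 0x821868c354a42beaad)) (.lf (nat_lit 0x807832806e38917ce8)) (.lf (nat_lit 0x80080185086f01d935)))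
  _ _ _ (by decide +kernel)

noncomputable def g2_76_m84 : GD 2 76 (-84) := chk_sound 
  (.cell (.lf (nat_lit 0x8007ff862812f54b2e)) (.lf (nat_lit 0x8007ff82d9a5283d94)) (.nd (.nd (.lf (nat_lit 0x80080a82679916cc87)) (.lf (nat_lit 0x8008098167ad2b2dfa)) (.lf (nat_lit 0x80080182d85a075aa0)) (.lf (nat_lit 0x80c6abdc95a8777ccb))) (.lf (nat_lit 0x80b72099b9696c7f8f)) (.lf (nat_lit 0x8007e8849580ecab65)) (.lf (nat_lit 0x8007ff81495ca7af7b))) (.nd (.lf (nat_lit 0x80080682d7180f9bb4)) (.lf (nat_lit 0x861a078c2ed872fb69)) (.lf (nat_lit 0x8008268ef930fd9839)) (.lf (nat_lit 0x800800800e80a93be2))) (.lf (nat_lit 0x80080180fe30926cef)) (.lf (nat_lit 0x8017fe85f83802b98e)))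
  _ _ _ (by decide +kernel)

theorem g3_72_m88 : GD 3 72 (-88) :=
  GD.split (i := 2) g2_68_m92 g2_76_m92 g2_68_m84 g2_76_m84 (by decide)

noncomputable def g2_68_m76 : GD 2 68 (-76) := chk_sound 
  (.cell (.lf (nat_lit 0x8007f283f6abf6eaa1)) (.lf (nat_lit 0x80080180986b286dd0)) (.nd (.nd (.lf (nat_lit 0x8008088467b019acc8)) (.lf (nat_lit 0x8007ff81f72334ee6a)) (.lf (nat_lit 0x80058aee4671a7a95f)) (.lf (nat_lit 0x80f737a47450908e99))) (.lf (nat_lit 0x81374894a8af72cfca)) (.lf (nat_lit 0x8017d78444b9df1c39)) (.lf (nat_lit 0x800800800992ac2f57))) (.nd (.lf (nat_lit 0x8007ff8337680ffbcf)) (.lf (nat_lit 0x881d11987d24666a97)) (.lf (nat_lit 0x8047eb9b7859033825)) (.lf (nat_lit 0x84788a90bee3aaaad3))) (.lf (nat_lit 0x80c82d80be5e9bec83)) (.lf (nat_lit 0x80a785a5a98d08880c)))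
  _ _ _ (by decide +kernel)

noncomputable def g2_76_m76 : GD 2 76 (-76) := chk_sound 
  (.cell (.lf (nat_lit 0x8007ff84b6c6f55aef)) (.lf (nat_lit 0x8008018378a628adce)) (.nd (.nd (.lf (nat_lit 0x80080682a7c8182ca9)) (.lf (nat_lit 0x8008078177602d7e14)) (.lf (nat_lit 0x816679d1f934249922)) (.lf (nat_lit 0x81f617d4954c86ccfe))) (.lf (nat_lit 0x8027399e17a7768fb5)) (.lf (nat_lit 0x81480080049ee88b23)) (.lf (nat_lit 0x8007e1889887b00f60))) (.nd (.lf (nat_lit 0x800811850736124c06)) (.lf (nat_lit 0x845a6f928ee082ab0e)) (.lf (nat_lit 0x80380b9497b601d81a)) (.lf (nat_lit 0x80984481ee8eaa1bbe))) (.lf (nat_lit 0x800835809e539c1c91)) (.lf (nat_lit 0x8007dc8a7662fcc84c)))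
  _ _ _ (by decide +kernel)

noncomputable def g2_68_m68 : GD 2 68 (-68) := chk_sound 
  (.cell (.lf (nat_lit 0x8057dd86053ff01aad)) (.lf (nat_lit 0x80080083271b284dc0)) (.nd (.lf (nat_lit 0x800565e796308f8b53)) (.lf (nat_lit 0x808686a648b66fcf63)) (.lf (nat_lit 0x8007de819454dcfc16)) (.lf (nat_lit 0x800800800820b13f62))) (.nd (.lf (nat_lit 0x80080c83178f122c12)) (.lf (nat_lit 0x838ae89c6ec1957a37)) (.lf (nat_lit 0x8007a39db97805f820)) (.lf (nat_lit 0x806844817ec6ac8b34))) (.lf (nat_lit 0x800801812e9ba57bda)) (.lf (nat_lit 0x8087a4901542f6d860)))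
  _ _ _ (by decide +kernel)

noncomputable def g2_76_m68 : GD 2 76 (-68) := chk_sound 
  (.cell (.lf (nat_lit 0x8007e6843591f0aae6)) (.lf (nat_lit 0x8007ff82e76c28bdd1)) (.nd (.lf (nat_lit 0x818577eb565d8e0b04)) (.lf (nat_lit 0x814714a1c7ba753fa0)) (.lf (nat_lit 0x8007f182b46ae30b93)) (.lf (nat_lit 0x80e800800730b4bf3e))) (.nd (.lf (nat_lit 0x80180581f739147c42)) (.lf (nat_lit 0x800831810f529e9a95)) (.lf (nat_lit 0x85167bac66c5f3b83e)) (.lf (nat_lit 0x80b830811ebfabdb4d))) (.lf (nat_lit 0x800834818e91a44bf5)) (.lf (nat_lit 0x8007d187256df8d842)))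
  _ _ _ (by decide +kernel)

theorem g3_72_m72 : GD 3 72 (-72) :=
  GD.split (i := 2) g2_68_m76 g2_76_m76 g2_68_m68 g2_76_m68 (by decide)

noncomputable def g2_68_m60 : GD 2 68 (-60) := chk_sound 
  (.cell (.lf (nat_lit 0x8007e38354deec0aeb)) (.lf (nat_lit 0x8137aa8c978f2ebe1a)) (.nd (.nd (.lf (nat_lit 0x800502ed26af8e4a72)) (.lf (nat_lit 0x8007b18a66b250df49)) (.nd (.lf (nat_lit 0x8007c98724c8f428d0)) (.nd (.lf (nat_lit 0x800555e8465c8efb4b)) (.nd (.nd (.lf (nat_lit 0x814607cd460379adb7)) (.lf (nat_lit 0x824670bfb5b1772e54)) (.lf (nat_lit 0x81e5b9d8e6387dbcf9)) (.lf (nat_lit 0x81d5facef618794da2))) (.lf (nat_lit 0x82468cb7b5b1776ea5)) (.lf (nat_lit 0x81959ae1762887cc2f)) (.lf (nat_lit 0x82061ccdd5e27c9dad))) (.lf (nat_lit 0x8005cfdaf5a3c4c9ad)) (.lf (nat_lit 0x811594e4e614921ba8))) (.lf (nat_lit 0x8007e185b48fee0a2b)) (.lf (nat_lit 0x8027d185248ded4a4d))) (.lf (nat_lit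 0x81d69abd85508dce44))) (.lf (nat_lit 0x8006a7a6587e719f71)) (.lf (nat_lit 0x8007ff82945be0dbbf)) (.lf (nat_lit 0x8007f381976fb17f5b))) (.nd (.lf (nat_lit 0x80080184a89e105bd8)) (.lf (nat_lit 0x80f87a832f22b3a98c)) (.nd (.lf (nat_lit 0x80f707af4a5210280c)) (.lf (nat_lit 0x8067d98a161efbe82e)) (.nd (.lf (nat_lit 0x8037ac8d850ff5f85f)) (.lf (nat_lit 0x8007dc850564f8987c)) (.lf (nat_lit 0x8067d68614d6f33964)) (.lf (nat_lit 0x8047d6877510f399b5))) (.lf (nat_lit 0x8007d18a3606fb18aa))) (.lf (nat_lit 0x80081881fee5b19a9b))) (.lf (nat_lit 0x80082f823ee1ae7adb)) (.nd (.lf (nat_lit 0x80072c9dfb290f2816)) (.lf (nat_lit 0x80075e95a49cf1681a)) (.lf (nat_lit 0x8007a58d14e3f4e851)) (.lf (nat_lit 0x8057d885c489f2a8ad))))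
  _ _ _ (by decide +kernel)

noncomputable def g2_76_m60 : GD 2 76 (-60) := chk_sound 
  (.cell (.lf (nat_lit 0x8007d5852540ee0b00)) (.lf (nat_lit 0x8007ff81f6e528fdc1)) (.nd (.nd (.lf (nat_lit 0x80f505f026fb8d1a11)) (.lf (nat_lit 0x81a7a38e078d3d5ebf)) (.lf (nat_lit 0x80d52beaf66ca5a9d0)) (.nd (.nd (.lf (nat_lit 0x812624c9f6856fddff)) (.lf (nat_lit 0x80e80080065059df72)) (.nd (.lf (nat_lit 0x8135c6db063d87dcd5)) (.lf (nat_lit 0x8176b5b7559e7e0eaf)) (.lf (nat_lit 0x8185deddb5b5972c38)) (.lf (nat_lit 0x816605d12602877d7e))) (.lf (nat_lit 0x81172da3a4e78cfeef))) (.lf (nat_lit 0x81d800800586801f9b)) (.lf (nat_lit 0x8095e9dd459ba3cbdc)) (.lf (nat_lit 0x8007ff81b4e2b59e8f)))) (.lf (nat_lit 0x8017fe808833775ffa)) (.lf (nat_lit 0x8007dc8554b0eeba3c)) (.lf (nat_lit 0x8007ff82582ebb0f18))) (.nd (.lf (nat_lit 0x80080582a7df11bc0c)) (.lf (nat_lit 0x80086282bf4cac39b4)) (.nd (.nd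 (.lf (nat_lit 0x8007f382b980078a39)) (.lf (nat_lit 0x80080182e8df071a74)) (.lf (nat_lit 0x8007789b35a4f6e81d)) (.nd (.lf (nat_lit 0x80f8008009b804e955)) (.lf (nat_lit 0x8007f487693503a95c)) (.lf (nat_lit 0x8067b590f5d7f9e837)) (.lf (nat_lit 0x8007e982663dfca85e)))) (.lf (nat_lit 0x8007e18cc6c8fdb851)) (.nd (.lf (nat_lit 0x8087a3923591f84856)) (.nd (.nd (.lf (nat_lit 0x8057bc8de5c2f9d85d)) (.nd (.lf (nat_lit 0x8027de8845c9fa885e)) (.lf (nat_lit 0x8007c68d65fcfae865)) (.lf (nat_lit 0x8007f28645c1fa786d)) (.lf (nat_lit 0x8007c58ea5fafa9888))) (.lf (nat_lit 0x8077cf8a45a1f9589f)) (.lf (nat_lit 0x8007e387f5bffa08ae))) (.lf (nat_lit 0x8007d88bd640fc186e)) (.lf (nat_lit 0x8007ca89358af84904)) (.lf (nat_lit 0x8007d0885595f8a8fa))) (.lf (nat_lit 0x8007e5850538f53991)) (.lf (nat_lit 0x8007df861551f539b7))) (.lf (nat_lit 0x8007f1829685fd38b5))) (.lf (nat_lit 0x810857821ef6ae0aaa)))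 (.lf (nat_lit 0x80884e81aee7aadb02)) (.nd (.lf (nat_lit 0x8027cb87eadb0968bb)) (.lf (nat_lit 0x80e73d9cb4eef1f81d)) (.lf (nat_lit 0x8007d6850523f74843)) (.lf (nat_lit 0x8007ac8c84fef5a85c))))
  _ _ _ (by decide +kernel)

noncomputable def g1_66_m54 : GD 1 66 (-54) := chk_sound 
  (.cell (.nd (.lf (nat_lit 0x8007ee8404dbe3abe7)) (.lf (nat_lit 0x800801811499d23d19)) (.lf (nat_lit 0x8a060685dde2b0fbf2)) (.lf (nat_lit 0x83157897ca63af5e65))) (.lf (nat_lit 0x81a513da778661bc6f)) (.nd (.nd (.lf (nat_lit 0x80051be386558b6bb2)) (.lf (nat_lit 0x80080080057c748f8f)) (.lf (nat_lit 0x8007ec825414cbed1b)) (.lf (nat_lit 0x81d800800461b63e46))) (.lf (nat_lit 0x80080080038582de9f)) (.lf (nat_lit 0x81a800800469cb3d62)) (.lf (nat_lit 0x80080b808875b79f31))) (.nd (.lf (nat_lit 0x8007f28329450d1b45)) (.lf (nat_lit 0x81589c861eb5c388cd)) (.nd (.lf (nat_lit 0x8007af8b5b200b3886)) (.lf (nat_lit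 0x8057cd90b677fc682e)) (.lf (nat_lit 0x8007c38a257ff878bf)) (.lf (nat_lit 0x8007de870622fa9941))) (.lf (nat_lit 0x80082c810eccba2a20))) (.lf (nat_lit 0x80886183aef5b739dc)) (.lf (nat_lit 0x80677f90b495f21850)))
  _ _ _ (by decide +kernel)

noncomputable def g1_70_m54 : GD 1 70 (-54) := chk_sound 
  (.cell (.lf (nat_lit 0x89779a849501eb9b08)) (.lf (nat_lit 0x8007ea830a78113b23)) (.nd (.nd (.lf (nat_lit 0x8007d086a48cf32830)) (.lf (nat_lit 0x81880080064160af8e)) (.lf (nat_lit 0x80080182943be3ab4f)) (.lf (nat_lit 0x8007ff816497b89e50))) (.lf (nat_lit 0x82680080045c711f0f)) (.lf (nat_lit 0x8037ed8224a1ce3d5b)) (.lf (nat_lit 0x8008018257e5bc8f0c))) (.nd (.lf (nat_lit 0x8007fa8078ae0cfb6e)) (.lf (nat_lit 0x80a863841ef1bd98dc)) (.nd (.lf (nat_lit 0x8057cf88badd0978b5)) (.lf (nat_lit 0x8097b1a2b6e3f9c80f)) (.lf (nat_lit 0x8007f682e544f6f915)) (.lf (nat_lit 0x8007d68b061afb08dd)))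 (.lf (nat_lit 0x80b861831ef1b5ca13))) (.lf (nat_lit 0x800860832f0fb399e3)) (.lf (nat_lit 0x8007d087d4c0f4884b)))
  _ _ _ (by decide +kernel)

noncomputable def g1_66_m50 : GD 1 66 (-50) := chk_sound 
  (.cell (.lf (nat_lit 0x8007e283d5a9eb4bac)) (.lf (nat_lit 0x81a53cd3b7ad5f9cfa)) (.lf (nat_lit 0x81d51fdd75daa12b90)) (.nd (.lf (nat_lit 0x8007ff8409bb097a72)) (.lf (nat_lit 0x8188e28b0e50cc584b)) (.lf (nat_lit 0x81670a9e1572f42889)) (.lf (nat_lit 0x800827823eaac0b9c6))) (.lf (nat_lit 0x80c860836ef0bcd916)) (.nd (.lf (nat_lit 0x80e77f8f3bda11584f)) (.lf (nat_lit 0x81d484ed76f89a9919)) (.lf (nat_lit 0x8037df8544e2f55895)) (.lf (nat_lit 0x8007e083d435e44b33))))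
  _ _ _ (by decide +kernel)

noncomputable def g1_70_m50 : GD 1 70 (-50) := chk_sound 
  (.cell (.lf (nat_lit 0x8657c98305a5ea9bb7)) (.lf (nat_lit 0x8174ede487d9656b81)) (.nd (.lf (nat_lit 0x8104f1ea46ab915ac0)) (.lf (nat_lit 0x8008298083fe7a1ee9)) (.lf (nat_lit 0x8007dc815494cd0d64)) (.lf (nat_lit 0x8007f281b539b99e94))) (.nd (.lf (nat_lit 0x8078008008f7086aab)) (.lf (nat_lit 0x80783781feb1c5b85d)) (.lf (nat_lit 0x85b7a08bb587f858b2)) (.lf (nat_lit 0x80d85682fee4bab9b1))) (.lf (nat_lit 0x80086982cf17b7f91f)) (.nd (.lf (nat_lit 0x80075b956b6f0ef824)) (.lf (nat_lit 0x8027ca8744c9f4d83a)) (.lf (nat_lit 0x8057c4892501f5d89b)) (.lf (nat_lit 0x8057d985446fec9a40))))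
  _ _ _ (by decide +kernel)

theorem g2_68_m52 : GD 2 68 (-52) :=
  GD.split (i := 1) g1_66_m54 g1_70_m54 g1_66_m50 g1_70_m50 (by decide)

noncomputable def g1_74_m54 : GD 1 74 (-54) := chk_sound 
  (.cell (.lf (nat_lit 0x8007eb83f516ec3b1c)) (.lf (nat_lit 0x8007dc8548162bbe01)) (.nd (.nd (.lf (nat_lit 0x81e4c7ed78036c0a4b)) (.lf (nat_lit 0x81875f95f714585f65)) (.lf (nat_lit 0x8037ca87248cef59d7)) (.lf (nat_lit 0x80078c91a49fb5ae51))) (.lf (nat_lit 0x81580080057174bf8b)) (.lf (nat_lit 0x80080180a4cdd12d4b)) (.lf (nat_lit 0x800800800795becef5))) (.nd (.lf (nat_lit 0x8027fb82a8c60c2b4c)) (.lf (nat_lit 0x80b853827f1db838f0)) (.lf (nat_lit 0x8177539ab5b7f6f878)) (.lf (nat_lit 0x80084882df0db23a12))) (.lf (nat_lit 0x81c800800f22b079f9)) (.lf (nat_lit 0x8007a68d04dff4d841)))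
  _ _ _ (by decide +kernel)

noncomputable def g1_78_m54 : GD 1 78 (-54) := chk_sound 
  (.cell (.lf (nat_lit 0x8007f2849564ec8b54)) (.lf (nat_lit 0x8028038367b829ade4)) (.nd (.nd (.lf (nat_lit 0x8007d4883afb0a58d1)) (.lf (nat_lit 0x8096d1abc7225b2f01)) (.lf (nat_lit 0x8007d68734d2f438ef)) (.lf (nat_lit 0x80061bccf5f08b9db4))) (.lf (nat_lit 0x80080280960773bfb6)) (.lf (nat_lit 0x8007ff82d4bad57cf8)) (.lf (nat_lit 0x800801821787c0aee3))) (.nd (.lf (nat_lit 0x8007fb8248180cdb7a)) (.lf (nat_lit 0x80d888837f3ab3690a)) (.nd (.lf (nat_lit 0x8317d6a1fa4a0ab8a0)) (.lf (nat_lit 0x80081c8ad983fc98c3)) (.lf (nat_lit 0x8077b78cd551f748b0)) (.lf (nat_lit 0x80080a83c977fbb968))) (.lf (nat_lit 0x80c84d81ef1caf8a1e))) (.lf (nat_lit 0x80984a81ef28adba1e)) (.lf (nat_lit 0x8027b18c44f1f5782d)))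
  _ _ _ (by decide +kernel)

noncomputable def g1_74_m50 : GD 1 74 (-50) := chk_sound 
  (.cell (.lf (nat_lit 0x8007f0857590e9ebc2)) (.lf (nat_lit 0x81b63cbb9a6e1e99ff)) (.nd (.nd (.lf (nat_lit 0x81b50fefe73a803a6a)) (.lf (nat_lit 0x8007af8af6946e9fc2)) (.lf (nat_lit 0x8007e9831477dbcc4e)) (.lf (nat_lit 0x8008008004c0bf6e24))) (.lf (nat_lit 0x8007ff8034b074ef3f)) (.lf (nat_lit 0x8008018054d1d00d5e)) (.lf (nat_lit 0x8037f28195d0bd0eae))) (.nd (.lf (nat_lit 0x8007ff8548f1088aae)) (.lf (nat_lit 0x8168c386fee7bea874)) (.lf (nat_lit 0x814631b91612ea1887)) (.lf (nat_lit 0x812871838f0db599ab))) (.lf (nat_lit 0x80084f818f35b3a938)) (.nd (.lf (nat_lit 0x8067cc87cb540c588e)) (.lf (nat_lit 0x8007b28b34bcf42822)) (.lf (nat_lit 0x8007cf88e521f6d876)) (.lf (nat_lit 0x8077d385d4b4f2d931))))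
  _ _ _ (by decide +kernel)

noncomputable def g1_78_m50 : GD 1 78 (-50) := chk_sound 
  (.cell (.lf (nat_lit 0x8007f281c5d4eaabd9)) (.lf (nat_lit 0x807800800907261d98)) (.nd (.nd (.lf (nat_lit 0x8007da83eb430b7862)) (.lf (nat_lit 0x8016a2b526587c4ef3)) (.lf (nat_lit 0x8007e38134b0f069e7)) (.lf (nat_lit 0x8215ded436338f6d40))) (.lf (nat_lit 0x800801808571746f8b)) (.lf (nat_lit 0x8007d982a500d2cd4f)) (.lf (nat_lit 0x80080181c638bf9eb5))) (.nd (.lf (nat_lit 0x80080183c80a097aff)) (.lf (nat_lit 0x80a8b5857f19b8e88f)) (.nd (.lf (nat_lit 0x8097bd90c9f6053820)) (.lf (nat_lit 0x80082a820efdb98977)) (.lf (nat_lit 0x8007c6894576f858c1)) (.lf (nat_lit 0x80081f823edab2baa2))) (.lf (nat_lit 0x807857826f2ab199b3))) (.lf (nat_lit 0x800863832f46afe961)) (.lf (nat_lit 0x8077c5893502f63834)))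
  _ _ _ (by decide +kernel)

theorem g2_76_m52 : GD 2 76 (-52) :=
  GD.split (i := 1) g1_74_m54 g1_78_m54 g1_74_m50 g1_78_m50 (by decide)

theorem g3_72_m56 : GD 3 72 (-56) :=
  GD.split (i := 2) g2_68_m60 g2_76_m60 g2_68_m52 g2_76_m52 (by decide)

noncomputable def g1_66_m46 : GD 1 66 (-46) := chk_sound 
  (.cell (.lf (nat_lit 0x8007ea82e66be40cba)) (.nd (.lf (nat_lit 0x8007ee834920134c0e)) (.nd (.lf (nat_lit 0x8224bcd549c841da93)) (.lf (nat_lit 0x81f4cbe85714806b37)) (.lf (nat_lit 0x8007ff81a725250d8e)) (.lf (nat_lit 0x8008008005d75caf60))) (.lf (nat_lit 0x80083f83427526995e)) (.lf (nat_lit 0x82d7d98864103e9d9b))) (.lf (nat_lit 0x8007e080d3c8b72ddb)) (.nd (.lf (nat_lit 0x8007e2851a0d072999)) (.lf (nat_lit 0x80f8f28e022e2ad83e)) (.lf (nat_lit 0x8067d788c5a9f87938)) (.lf (nat_lit 0x80886684ee68c8d965))) (.lf (nat_lit 0x81892d8bdeb6c1d83a)) (.nd (.lf (nat_lit 0x80079d8c1bcc10685e))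 (.lf (nat_lit 0x8067a78ba469f15880)) (.lf (nat_lit 0x8057c7892530f5f927)) (.lf (nat_lit 0x8007ec82542bd3acaf))))
  _ _ _ (by decide +kernel)

noncomputable def g1_70_m46 : GD 1 70 (-46) := chk_sound 
  (.cell (.lf (nat_lit 0x80080083a6a3e81c72)) (.nd (.lf (nat_lit 0x8008018278e7141c32)) (.lf (nat_lit 0x80052dd9d7ff638c9e)) (.lf (nat_lit 0x80384983d20d2d3946)) (.lf (nat_lit 0x8277b38e848d3fcdeb))) (.lf (nat_lit 0x8076bbab64afc99cc8)) (.nd (.lf (nat_lit 0x8007eb83f9430569e2)) (.lf (nat_lit 0x81897091c1d1345826)) (.lf (nat_lit 0x8007d28aa5c4f94907)) (.lf (nat_lit 0x800829820ec4c0f949))) (.lf (nat_lit 0x816915893ef4bbe84a)) (.nd (.lf (nat_lit 0x80975c93aba0103838)) (.lf (nat_lit 0x8027839194c2f34854)) (.lf (nat_lit 0x8077d5872557f778f5)) (.lf (nat_lit 0x8007d8833494ddbc3b))))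
  _ _ _ (by decide +kernel)

noncomputable def g1_66_m42 : GD 1 66 (-42) := chk_sound 
  (.cell (.lf (nat_lit 0x82d61694a787d70d5e)) (.nd (.lf (nat_lit 0x8007e886aa7e0daa8b)) (.lf (nat_lit 0x80052ada77e1681caa)) (.lf (nat_lit 0x80084c85a30320b9d6)) (.lf (nat_lit 0x8357ad8f53933cad0f))) (.lf (nat_lit 0x8077eb812346b5dd81)) (.lf (nat_lit 0x8007ff83d61df919c1)) (.lf (nat_lit 0x80084c83b17a3738bb)) (.nd (.lf (nat_lit 0x8067d484f446f10838)) (.lf (nat_lit 0x8007e282544df058f9)) (.lf (nat_lit 0x8007e18465a4f55a21)) (.lf (nat_lit 0x8007da82141cd21cbe))))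
  _ _ _ (by decide +kernel)

noncomputable def g1_70_m42 : GD 1 70 (-42) := chk_sound 
  (.cell (.lf (nat_lit 0x84166398b77cd75d60)) (.nd (.lf (nat_lit 0x8007ea8459700e3b59)) (.lf (nat_lit 0x8004ffd8986c5fdc7c)) (.lf (nat_lit 0x8008338412812779bb)) (.lf (nat_lit 0x81579292048c42fe00))) (.lf (nat_lit 0x8007e780d3f7bcadc5)) (.lf (nat_lit 0x8007e784f62ffa4978)) (.lf (nat_lit 0x80f8ac86612e3f289c)) (.nd (.lf (nat_lit 0x80b79c8ccb7d0dd83a)) (.lf (nat_lit 0x8008008004b2f418a3)) (.lf (nat_lit 0x8007e384d5bdf7b9aa)) (.lf (nat_lit 0x817800800482d67cc0))))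
  _ _ _ (by decide +kernel)

theorem g2_68_m44 : GD 2 68 (-44) :=
  GD.split (i := 1) g1_66_m46 g1_70_m46 g1_66_m42 g1_70_m42 (by decide)

noncomputable def g1_74_m46 : GD 1 74 (-46) := chk_sound 
  (.cell (.lf (nat_lit 0x8007fb82164de75c66)) (.lf (nat_lit 0x81f505e5a85a5deb2d)) (.lf (nat_lit 0x8224fcec46f68eaaaf)) (.nd (.lf (nat_lit 0x8007f983984304aa17)) (.lf (nat_lit 0x818a7699a1c43f280b)) (.lf (nat_lit 0x81779d9005cff938c9)) (.lf (nat_lit 0x80084082df03ba093e))) (.lf (nat_lit 0x81a8c085ff2bb6b869)) (.nd (.lf (nat_lit 0x80e749993b470ea812)) (.lf (nat_lit 0x8007d684e501f65868)) (.lf (nat_lit 0x8007bf8b1555f7a89f)) (.lf (nat_lit 0x8007d383d4b9e9ab17))))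
  _ _ _ (by decide +kernel)

noncomputable def g1_78_m46 : GD 1 78 (-46) := chk_sound 
  (.cell (.lf (nat_lit 0x8037f583e6a6e74c85)) (.lf (nat_lit 0x81c5decc29d52e8abc)) (.nd (.lf (nat_lit 0x80d535ee372489aac5)) (.lf (nat_lit 0x81280080051a78ff71)) (.lf (nat_lit 0x8007e281950dd24d5e)) (.lf (nat_lit 0x8057e1829558be6e75))) (.nd (.lf (nat_lit 0x80080182d83f050a2e)) (.lf (nat_lit 0x8239fc91deaebc2815)) (.lf (nat_lit 0x8007d986d5e8fad8a9)) (.lf (nat_lit 0x80a83781af2eb47943))) (.lf (nat_lit 0x81d8ad84df4cb21897)) (.nd (.lf (nat_lit 0x8007a88c5b320bc87c)) (.lf (nat_lit 0x8077ac8cf509f60806)) (.lf (nat_lit 0x8097cd89e580f8c890)) (.lf (nat_lit 0x8007ef83b4dcf149fb))))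
  _ _ _ (by decide +kernel)

noncomputable def g1_74_m42 : GD 1 74 (-42) := chk_sound 
  (.cell (.lf (nat_lit 0x8336ab92d746d70d8a)) (.lf (nat_lit 0x8004ffe7482e662b43)) (.lf (nat_lit 0x8156c4acf509ca9ce7)) (.lf (nat_lit 0x8007ec86563cfb2934)) (.lf (nat_lit 0x836e2fb374676b78dc)) (.nd (.lf (nat_lit 0x804771935b440d4847)) (.lf (nat_lit 0x8097bc8a14e3f4f89b)) (.lf (nat_lit 0x8027ea8455cbf94940)) (.lf (nat_lit 0x8007ff8204e8dcdc8d))))
  _ _ _ (by decide +kernel)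

noncomputable def g1_78_m42 : GD 1 78 (-42) := chk_sound 
  (.cell (.lf (nat_lit 0x8007ff83d781dc9d7f)) (.lf (nat_lit 0x816526e788d155ea88)) (.lf (nat_lit 0x800533ec87168efae7)) (.lf (nat_lit 0x8007f2854656fc0900)) (.lf (nat_lit 0x815f53a6775e8ee9ce)) (.nd (.lf (nat_lit 0x80a7b58a7b400c58c5)) (.lf (nat_lit 0x8007cf872543f7b880)) (.lf (nat_lit 0x8007ff8495ddfa190c)) (.lf (nat_lit 0x8007e5833510eb4b37))))
  _ _ _ (by decide +kernel)

theorem g2_76_m44 : GD 2 76 (-44) :=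
  GD.split (i := 1) g1_74_m46 g1_78_m46 g1_74_m42 g1_78_m42 (by decide)

noncomputable def g1_66_m38 : GD 1 66 (-38) := chk_sound 
  (.cell (.nd (.lf (nat_lit 0x80080182676cd8bdbc)) (.lf (nat_lit 0x8007dc8203c5cbbcdd)) (.lf (nat_lit 0x83943c943c51a54ce8)) (.lf (nat_lit 0x8087ed808114a4fb45))) (.nd (.lf (nat_lit 0x8007d8867a520909c0)) (.lf (nat_lit 0x81659ee34711922c34)) (.lf (nat_lit 0x8008458603991bda45)) (.lf (nat_lit 0x83c7b78a9375413d3b))) (.lf (nat_lit 0x8007dc8032bcb29d1f)) (.lf (nat_lit 0x8007fb8607e4f6caf4)) (.lf (nat_lit 0x8269ee9dc20c3d19f4)) (.nd (.lf (nat_lit 0x8007c8897518f5b900)) (.lf (nat_lit 0x8027e682b4b8eacaf0)) (.lf (nat_lit 0x8007ed805685f33b26)) (.lf (nat_lit 0x8007e88323f9d0ccb7))))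
  _ _ _ (by decide +kernel)

noncomputable def g1_70_m38 : GD 1 70 (-38) := chk_sound 
  (.cell (.lf (nat_lit 0x90452f8d67bad9bcc6)) (.lf (nat_lit 0x815538dfb81b697c4c)) (.lf (nat_lit 0x8007e281438abc3d78)) (.lf (nat_lit 0x8007ff84c836f65b06)) (.lf (nat_lit 0x83cbaba7423755ea02)) (.nd (.lf (nat_lit 0x800772959512f4b83a)) (.lf (nat_lit 0x8037e7848524f3d9d0)) (.lf (nat_lit 0x8007ee86063df5ca8f)) (.lf (nat_lit 0x8007f082147bd5ccc7))))
  _ _ _ (by decide +kernel)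

noncomputable def g1_66_m34 : GD 1 66 (-34) := chk_sound 
  (.cell (.nd (.lf (nat_lit 0x800804832855d4bdfc)) (.lf (nat_lit 0x8077cf834365c97ca6)) (.lf (nat_lit 0x887497918c59a9fd02)) (.lf (nat_lit 0x8107ca813148a44bb1))) (.lf (nat_lit 0x81957ae267c67c6c71)) (.lf (nat_lit 0x8007c5813239ad3cc0)) (.lf (nat_lit 0x8216fbb1e8a2e7db45)) (.lf (nat_lit 0x82090693321440fb4b)) (.lf (nat_lit 0x80c736a9867bea8b2a)))
  _ _ _ (by decide +kernel)

noncomputable def g1_70_m34 : GD 1 70 (-34) := chk_sound 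
  (.cell (.nd (.lf (nat_lit 0x8008018228a9d40dff)) (.lf (nat_lit 0x8007f181d412cf5ce4)) (.lf (nat_lit 0x88b37b969c2fa09c6e)) (.lf (nat_lit 0x8007ff81a1b1ad2c06))) (.lf (nat_lit 0x81a56ee56818786c1e)) (.lf (nat_lit 0x8007d4823311ba2d23)) (.lf (nat_lit 0x81472fa19934e6ac0a)) (.lf (nat_lit 0x824a299c51e54d3af6)) (.lf (nat_lit 0x81073bb2d6a4e8aaf2)))
  _ _ _ (by decide +kernel)

theorem g2_68_m36 : GD 2 68 (-36) :=
  GD.split (i := 1) g1_66_m38 g1_70_m38 g1_66_m34 g1_70_m34 (by decide)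

noncomputable def g1_74_m38 : GD 1 74 (-38) := chk_sound 
  (.cell (.lf (nat_lit 0x8535319187a4d78cf9)) (.lf (nat_lit 0x80a526e3584866abd7)) (.lf (nat_lit 0x8007dd816499c78db1)) (.lf (nat_lit 0x8007ff84c813f91a92)) (.lf (nat_lit 0x85cd5da78334708a3e)) (.nd (.lf (nat_lit 0x81d556df89e23cb802)) (.lf (nat_lit 0x8067cf89256bf73932)) (.lf (nat_lit 0x8007e985467af77a68)) (.lf (nat_lit 0x8007e88314e3d99cc9))))
  _ _ _ (by decide +kernel)

noncomputable def g1_78_m38 : GD 1 78 (-38) := chk_sound 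
  (.cell (.lf (nat_lit 0x8985af8e071bd4cd5a)) (.lf (nat_lit 0x80c538e8c89c607b05)) (.nd (.lf (nat_lit 0x813657c1e585c39c80)) (.lf (nat_lit 0x8007ea8074768a5f25)) (.lf (nat_lit 0x8007dd82550ed2bd58)) (.lf (nat_lit 0x8007eb82e454bdadf8))) (.nd (.lf (nat_lit 0x800873a9394cf72812)) (.lf (nat_lit 0x80086e85818836a8e0)) (.lf (nat_lit 0x8007ff8428c2f8ea7f)) (.lf (nat_lit 0x81b8e6881efbbbf855))) (.lf (nat_lit 0x834e759cd4a5883abb)) (.nd (.lf (nat_lit 0x8047a38d0b3c0be81b)) (.lf (nat_lit 0x8007d8871588f8b8db)) (.lf (nat_lit 0x81580080064cf9c9c5)) (.lf (nat_lit 0x8007ff829547df8c92))))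
  _ _ _ (by decide +kernel)

noncomputable def g1_74_m34 : GD 1 74 (-34) := chk_sound 
  (.cell (.nd (.lf (nat_lit 0x8008108338fad34dfe)) (.lf (nat_lit 0x8047e48314add33d15)) (.lf (nat_lit 0x8662b7934c159f9bb9)) (.lf (nat_lit 0x8007dd823249b60c75))) (.lf (nat_lit 0x81257ee4184b70cc31)) (.lf (nat_lit 0x8067e58203f4c34d78)) (.lf (nat_lit 0x8147c2b40aa6d8fbed)) (.lf (nat_lit 0x836bb99ed21b666b02)) (.nd (.lf (nat_lit 0x8007f184e569f868bb)) (.lf (nat_lit 0x8007f28355bef8e950)) (.lf (nat_lit 0x8007f1850744f1ab97)) (.lf (nat_lit 0x8017e28344e9d9accb))))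
  _ _ _ (by decide +kernel)

noncomputable def g1_78_m34 : GD 1 78 (-34) := chk_sound 
  (.cell (.lf (nat_lit 0x8984bd92476bd58cc6)) (.lf (nat_lit 0x800568e9086f6c2b87)) (.lf (nat_lit 0x8007e5818502cd7d9e)) (.lf (nat_lit 0x8007e5a3db2add8bd8)) (.lf (nat_lit 0x85dd129873027fcb4c)) (.nd (.lf (nat_lit 0x8067aa8efa9f08381e)) (.lf (nat_lit 0x8007fd8575d7f9c91f)) (.lf (nat_lit 0x8007fc846702f61ae8)) (.lf (nat_lit 0x8007ed831548dcccca))))
  _ _ _ (by decide +kernel)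

theorem g2_76_m36 : GD 2 76 (-36) :=
  GD.split (i := 1) g1_74_m38 g1_78_m38 g1_74_m34 g1_78_m34 (by decide)

theorem g3_72_m40 : GD 3 72 (-40) :=
  GD.split (i := 2) g2_68_m44 g2_76_m44 g2_68_m36 g2_76_m36 (by decide)

noncomputable def g2_68_m28 : GD 2 68 (-28) := chk_sound 
  (.cell (.nd (.lf (nat_lit 0x80d7e692ca43cdfdcf)) (.lf (nat_lit 0x8047ea818329c92c6e)) (.lf (nat_lit 0x872748a48baa7c2ead)) (.lf (nat_lit 0x8144219aa78b875ec4))) (.nd (.lf (nat_lit 0x8007f388193902086b)) (.nd (.lf (nat_lit 0x8087c88fe615f719f7)) (.lf (nat_lit 0x8008008003b7d3cc44)) (.lf (nat_lit 0x80e577db683c5f1c8b)) (.lf (nat_lit 0x800573d8261e9cac84))) (.lf (nat_lit 0x8007ff8184bd171b35)) (.lf (nat_lit 0x8206d19933e265ee5c))) (.lf (nat_lit 0x80080080029abbfc8f)) (.nd (.lf (nat_lit 0x80582d8f067e037864)) (.lf (nat_lit 0x800822850512111aae)) (.lf (nat_lit 0x80081681b9b5f18b45)) (.lf (nat_lit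 0x81184ffa79006c19ab))) (.nd (.lf (nat_lit 0x80081984145b1d1b84)) (.lf (nat_lit 0x80082a8252b4447cb1)) (.lf (nat_lit 0x80081682b6112d2dc7)) (.lf (nat_lit 0x80068e82939d614e3d))) (.nd (.lf (nat_lit 0x8007ea8556f9f49b1e)) (.lf (nat_lit 0x8027e784a5b3f37a8d)) (.lf (nat_lit 0x8007ff834823e69cc7)) (.lf (nat_lit 0x8007cb8323f4d4dc68))))
  _ _ _ (by decide +kernel)

noncomputable def g2_76_m28 : GD 2 76 (-28) := chk_sound 
  (.cell (.nd (.lf (nat_lit 0x80080587fa16c84e3e)) (.lf (nat_lit 0x8007ea8274b4d53cf9)) (.lf (nat_lit 0xa3767aa58cc5977d22)) (.lf (nat_lit 0x8007ff81727eb80c9f))) (.nd (.lf (nat_lit 0x8007ef8708ba03799e)) (.lf (nat_lit 0x81c5bdf3670093aa16)) (.lf (nat_lit 0x80083284e334251aeb)) (.lf (nat_lit 0x800680b4c70d697eed))) (.lf (nat_lit 0x8166fca5956ac8bd7c)) (.lf (nat_lit 0x80d80fb7cac1d87bb3)) (.lf (nat_lit 0x839b5f8f026e742c7b)) (.nd (.lf (nat_lit 0x8007f985b63afae94d))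 (.lf (nat_lit 0x8007ff8475fbf9b965)) (.nd (.lf (nat_lit 0x8007ff84a6b4fa79e7)) (.lf (nat_lit 0x8007e8842651f969de)) (.lf (nat_lit 0x8007ff82e91bdebd43)) (.lf (nat_lit 0x8007f18116a6e2bce8))) (.lf (nat_lit 0x8007e184455ddf0ca8))))
  _ _ _ (by decide +kernel)

noncomputable def g2_68_m20 : GD 2 68 (-20) := chk_sound 
  (.cell (.nd (.lf (nat_lit 0x8287b8aa4bb5885e8d)) (.lf (nat_lit 0x811800800269c14c02)) (.lf (nat_lit 0x81d6c19a4c0a6d0e7b)) (.lf (nat_lit 0x8294af94a8b9873f1c))) (.nd (.lf (nat_lit 0x80082689c6630418f9)) (.lf (nat_lit 0xb6b801c8c69bd03a23)) (.lf (nat_lit 0x80080283f5f4158bed)) (.lf (nat_lit 0x80083281c2b149aceb))) (.lf (nat_lit 0x80d7c681316f9e2c27)) (.nd (.lf (nat_lit 0x8058188976d402f90f)) (.lf (nat_lit 0x8008018556d6106bb8)) (.nd (.lf (nat_lit 0x800818881948fad9c5)) (.lf (nat_lit 0x80180688578401d91d)) (.lf (nat_lit 0x8038128559c7ee0baa)) (.lf (nat_lit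 0x815836e2fa8c5ecbdc))) (.lf (nat_lit 0x81384aa9ba68204bef))) (.nd (.lf (nat_lit 0x80180681861e1e2ccb)) (.lf (nat_lit 0x80082081a2e7522d74)) (.lf (nat_lit 0x80080080082436de8f)) (.lf (nat_lit 0x8178008005c76b7f93))) (.lf (nat_lit 0x80b7e594483aef4bbc)))
  _ _ _ (by decide +kernel)

noncomputable def g2_76_m20 : GD 2 76 (-20) := chk_sound 
  (.cell (.nd (.nd (.lf (nat_lit 0x804819823b84c9fd7f)) (.lf (nat_lit 0x8007ff80b80bdb7d98)) (.lf (nat_lit 0x81c86fa79bfb876e73)) (.lf (nat_lit 0x800815810a54bc9ea6))) (.lf (nat_lit 0x8057d283b447d59ca1)) (.lf (nat_lit 0x82265a9b5bad69ce8c)) (.lf (nat_lit 0x8007e580826cb66c9d))) (.nd (.lf (nat_lit 0x80080e85a73d024936)) (.lf (nat_lit 0x8006d4e626f7bbca9f)) (.lf (nat_lit 0x80082483b40a218ba6)) (.lf (nat_lit 0x80063ac5f7bc78ae70))) (.lf (nat_lit 0x8007ef827409d39c93)) (.nd (.lf (nat_lit 0x80683887f4f40d19aa)) (.lf (nat_lit 0x80382b83b40b1e4b4d))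 (.lf (nat_lit 0x800888defaff7ecc6b)) (.lf (nat_lit 0x81a8ffc6d9d4322c0b))) (.lf (nat_lit 0x84d6b58a8567614f2a)) (.lf (nat_lit 0x8047cc92e815f14b86)))
  _ _ _ (by decide +kernel)

theorem g3_72_m24 : GD 3 72 (-24) :=
  GD.split (i := 2) g2_68_m28 g2_76_m28 g2_68_m20 g2_76_m20 (by decide)

noncomputable def g2_68_m12 : GD 2 68 (-12) := chk_sound 
  (.cell (.nd (.lf (nat_lit 0x80e7e99ecbf28a4ea8)) (.lf (nat_lit 0x8315f38b92afc49b8b)) (.lf (nat_lit 0x807809818c58690e8f)) (.lf (nat_lit 0x82f5b5913862924f7d))) (.nd (.lf (nat_lit 0x80082288467104b95b)) (.lf (nat_lit 0x854dc0b9b79dbf995d)) (.lf (nat_lit 0x8007ff83871617bc89)) (.lf (nat_lit 0x80082e81f25956fd0a))) (.lf (nat_lit 0x8007cd80c148947c24)) (.nd (.lf (nat_lit 0x80180586e78103299d)) (.lf (nat_lit 0x800801845861176c95)) (.nd (.lf (nat_lit 0x8007ff8408d0fea8c4)) (.lf (nat_lit 0x8007ed84e8ff08dab7)) (.lf (nat_lit 0x8247f9acdc49823e24))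 (.lf (nat_lit 0x82d7d5c79b9c56dced))) (.lf (nat_lit 0x800801824ac32cdd69))) (.lf (nat_lit 0x8296c18ec94c53ef3b)) (.lf (nat_lit 0x80081581b984edfbcc)))
  _ _ _ (by decide +kernel)

noncomputable def g2_76_m12 : GD 2 76 (-12) := chk_sound 
  (.cell (.nd (.lf (nat_lit 0x800801874bf1881eed)) (.lf (nat_lit 0x8007df8363c5d4ac3f)) (.lf (nat_lit 0x80080191bc086fcebe)) (.lf (nat_lit 0x8077dc817269b5dc9f))) (.nd (.lf (nat_lit 0x8008228565940a09e3)) (.lf (nat_lit 0x8007ff82a81af9ea6d)) (.lf (nat_lit 0x80081982e4e220bc53)) (.lf (nat_lit 0x8076b0cef60c87cdd2))) (.lf (nat_lit 0x8007dc8293a3d6abf2)) (.nd (.lf (nat_lit 0x8008238635bc0b2a4d)) (.lf (nat_lit 0x8007ff8105641cdc53)) (.nd (.lf (nat_lit 0x80687f9b8a33f7a813)) (.lf (nat_lit 0x8008118566e6082a8c)) (.lf (nat_lit 0x80f7fabb7bf6844dde)) (.lf (nat_lit 0x826800b03c2d560d87))) (.lf (nat_lit 0x8007ff8309fb237d27))) (.lf (nat_lit 0x81f6f08f876261ff9d))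 (.lf (nat_lit 0x81b7f6836958ec8c03)))
  _ _ _ (by decide +kernel)

noncomputable def g2_68_m4 : GD 2 68 (-4) := chk_sound 
  (.cell (.nd (.lf (nat_lit 0x8118018d6c658cce95)) (.lf (nat_lit 0x8244859e2598c7acbd)) (.lf (nat_lit 0x8047e780ac806ede86)) (.lf (nat_lit 0x80069f89b76fa47f7f))) (.lf (nat_lit 0x83197d9e87490f1ac8)) (.lf (nat_lit 0x8458008001528f9c48)) (.lf (nat_lit 0x80080cb88c626fcd97)) (.lf (nat_lit 0x82a6a3899a135bff3c)) (.lf (nat_lit 0x80080b82abcad29cca)))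
  _ _ _ (by decide +kernel)

noncomputable def g2_76_m4 : GD 2 76 (-4) := chk_sound 
  (.cell (.nd (.lf (nat_lit 0x833800800c6a8cbe9f)) (.lf (nat_lit 0x8356c08c53fedb8b9b)) (.lf (nat_lit 0x8116bd8efb62738f08)) (.lf (nat_lit 0x8007bf81526eb62ca1))) (.nd (.lf (nat_lit 0x80082085659f0c5a6d)) (.lf (nat_lit 0x850b14a1a90fe82a8c)) (.lf (nat_lit 0x80080182b5a8221ce5)) (.lf (nat_lit 0x81d88ac9233c8f0c62))) (.lf (nat_lit 0x85e6598a837fd66b5a)) (.lf (nat_lit 0x8007fab93c4a70eda6)) (.lf (nat_lit 0x8006a98e08186a4fb8)) (.lf (nat_lit 0x805815820bb9d46cb8)))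
  _ _ _ (by decide +kernel)

theorem g3_72_m8 : GD 3 72 (-8) :=
  GD.split (i := 2) g2_68_m12 g2_76_m12 g2_68_m4 g2_76_m4 (by decide)

noncomputable def g2_68_4 : GD 2 68 4 := chk_sound 
  (.cell (.nd (.lf (nat_lit 0x822800800c9e8f4e76)) (.lf (nat_lit 0x8003d8aa7861c60c83)) (.lf (nat_lit 0x800801804ca26cbe68)) (.lf (nat_lit 0x8007ff8195bab7ced4))) (.lf (nat_lit 0x8008098477a4125c18)) (.lf (nat_lit 0x8007ff80a1698e4c71)) (.lf (nat_lit 0x82881eb11c9a6e6dac)) (.lf (nat_lit 0x800800800ac26a2f62)) (.nd (.lf (nat_lit 0x80081686c65303282e)) (.lf (nat_lit 0x8639cb9f2e22c5f849)) (.nd (.lf (nat_lit 0x80080789777e0138b8)) (.lf (nat_lit 0x80080182da9df32a4e)) (.lf (nat_lit 0x823871b65c7f808da9)) (.lf (nat_lit 0x80081e824af3e68bc4))) (.lf (nat_lit 0x8673fcbe3bf9b80a22))))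
  _ _ _ (by decide +kernel)

noncomputable def g2_76_4 : GD 2 76 4 := chk_sound 
  (.cell (.nd (.lf (nat_lit 0x80082a806c8491de81)) (.lf (nat_lit 0x834585974462db4b2b)) (.lf (nat_lit 0x809800800b8a728f1f)) (.lf (nat_lit 0x80080180e276b71ca1))) (.lf (nat_lit 0x81b86a8e558e0a89c0)) (.lf (nat_lit 0x8feb718b035dc8baeb)) (.lf (nat_lit 0x810818b07c85724dcc)) (.lf (nat_lit 0x8006cf8bb8f86f6fbf)) (.nd (.lf (nat_lit 0x8048438cf5960748aa)) (.lf (nat_lit 0x809839857c32e899dd)) (.nd (.lf (nat_lit 0x80f944faa92d8c9948)) (.lf (nat_lit 0x80081683bb4deaaaee)) (.lf (nat_lit 0x815861b45c74816dc5)) (.lf (nat_lit 0x80e800800b7fd95c89))) (.lf (nat_lit 0x8207b28746cdf27b53))))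
  _ _ _ (by decide +kernel)

noncomputable def g2_68_12 : GD 2 68 12 := chk_sound 
  (.cell (.nd (.lf (nat_lit 0x800801807d0592ee1d)) (.lf (nat_lit 0x848445ab4987c4acaf)) (.lf (nat_lit 0x816800800c16729ed3)) (.lf (nat_lit 0x800801811520cafdcf))) (.lf (nat_lit 0x80080182f8ab16ac7c)) (.lf (nat_lit 0x82b8008001818efc91)) (.lf (nat_lit 0x826806997cee5abda1)) (.lf (nat_lit 0x8246d2864b0a6bbf2e)) (.nd (.lf (nat_lit 0x80080b82a69002e8d4)) (.lf (nat_lit 0x80987e86d1d13048a9)) (.lf (nat_lit 0x800871b78c9b80ed86)) (.lf (nat_lit 0x863505c06d2daa6a3a))))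
  _ _ _ (by decide +kernel)

noncomputable def g2_76_12 : GD 2 76 12 := chk_sound 
  (.cell (.nd (.lf (nat_lit 0x80a816806cd58dce50)) (.lf (nat_lit 0x84545cb0e6c7da6ad0)) (.lf (nat_lit 0x81a800800b1d789f5a)) (.lf (nat_lit 0x8007c581f288b89ca3))) (.lf (nat_lit 0x800820847581137b68)) (.lf (nat_lit 0x84bb32a7d26cb30a7d)) (.lf (nat_lit 0x816800800c924e9dca)) (.lf (nat_lit 0x8007ff80f8fc737fe6)) (.nd (.lf (nat_lit 0x80081a8375d206d954)) (.lf (nat_lit 0x80886888bce4e3c8d6)) (.lf (nat_lit 0x81c83eb86c947ded87)) (.lf (nat_lit 0x8008018457a0f31b78))))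
  _ _ _ (by decide +kernel)

theorem g3_72_8 : GD 3 72 8 :=
  GD.split (i := 2) g2_68_4 g2_76_4 g2_68_12 g2_76_12 (by decide)

noncomputable def g2_68_20 : GD 2 68 20 := chk_sound 
  (.cell (.nd (.lf (nat_lit 0x82f800800d1d8b0e1c)) (.lf (nat_lit 0x84b4c0b8ba87c0ec3d)) (.lf (nat_lit 0x8007e2807c137adee0)) (.lf (nat_lit 0x80080180e353c52cd7))) (.lf (nat_lit 0x8007f9840879179c97)) (.lf (nat_lit 0x8007c980f191904ca3)) (.lf (nat_lit 0x817800800c9047ad8b)) (.lf (nat_lit 0x8157db8d2afa6c2f45)) (.nd (.lf (nat_lit 0x80080782c72e03799f)) (.lf (nat_lit 0x80089289b2762568b3)) (.lf (nat_lit 0x82586eb98c9c80fd72)) (.lf (nat_lit 0x8436c1c1fd0caf1b5b))))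
  _ _ _ (by decide +kernel)

noncomputable def g2_76_20 : GD 2 76 20 := chk_sound 
  (.cell (.nd (.lf (nat_lit 0x800800800cda888e56)) (.lf (nat_lit 0x82c49ebfb839d54add)) (.lf (nat_lit 0x800801809abb874f81)) (.lf (nat_lit 0x80080180b2a0bb0ca2))) (.lf (nat_lit 0x80081683c5341c6c29)) (.lf (nat_lit 0x830a73b451d6a08a43)) (.lf (nat_lit 0x824800800bff437dcd)) (.lf (nat_lit 0x8058008008c7769ff0)) (.nd (.lf (nat_lit 0x80080085571b051a00)) (.lf (nat_lit 0x8148f392dcefe1b833)) (.nd (.lf (nat_lit 0x804877b66cbe7aad71)) (.lf (nat_lit 0x80082380cc88d06c43)) (.lf (nat_lit 0x82681b912d4a853de4)) (.lf (nat_lit 0x800831819c79ca8cb7))) (.lf (nat_lit 0x80181083b9f2ee8b86))))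
  _ _ _ (by decide +kernel)

noncomputable def g2_68_28 : GD 2 68 28 := chk_sound 
  (.cell (.nd (.lf (nat_lit 0x800800800d2287de1d)) (.lf (nat_lit 0x8245dab6bb67c03c78)) (.lf (nat_lit 0x800800800be884eef9)) (.lf (nat_lit 0x8007d28162d9bbfcd5))) (.lf (nat_lit 0x80080182c834188cb2)) (.lf (nat_lit 0x8167b780f198918ca7)) (.lf (nat_lit 0x8047da81dc714daddb)) (.lf (nat_lit 0x80077ba5fa9a6f5f16)) (.nd (.lf (nat_lit 0x8007fc8588990adb23)) (.lf (nat_lit 0x80a84f8602c021b92f)) (.nd (.lf (nat_lit 0x818851b25cd36fad72)) (.lf (nat_lit 0x82c8ccb96cbc884d45)) (.lf (nat_lit 0x83982b955d6a7bbdb9)) (.lf (nat_lit 0x80982f821d17b1ad54))) (.lf (nat_lit 0x84877cc37dd5957b2c))))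
  _ _ _ (by decide +kernel)

noncomputable def g2_76_28 : GD 2 76 28 := chk_sound 
  (.cell (.lf (nat_lit 0x80e799b36ca1867da6)) (.lf (nat_lit 0x80081d83551f1d3c2e)) (.lf (nat_lit 0x8429f9b9e19c95da0d)) (.lf (nat_lit 0x8007e5828bd549ae24)) (.lf (nat_lit 0x81a7108aa8577b5fe7)) (.nd (.lf (nat_lit 0x8007fc82d819096afd)) (.lf (nat_lit 0x8138b98ec31d1c9840)) (.nd (.lf (nat_lit 0x800857a4bcdb661db1)) (.nd (.lf (nat_lit 0x8298f3c65c346a4cec)) (.lf (nat_lit 0x800835856bc1ede998)) (.lf (nat_lit 0x82588baa4d0d857d92)) (.lf (nat_lit 0x80082e82cc43dfbb28))) (.lf (nat_lit 0x8057cf80ad0d736e26)) (.lf (nat_lit 0x80481980ed1eaeed67))) (.lf (nat_lit 0x80080f83ab5de8db1c))))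
  _ _ _ (by decide +kernel)

theorem g3_72_24 : GD 3 72 24 :=
  GD.split (i := 2) g2_68_20 g2_76_20 g2_68_28 g2_76_28 (by decide)

noncomputable def g2_68_36 : GD 2 68 36 := chk_sound 
  (.cell (.lf (nat_lit 0x8b77d6a98cb88c5dd1)) (.lf (nat_lit 0x8007ff8307d917dca3)) (.lf (nat_lit 0x8007bf814194920ca0)) (.lf (nat_lit 0x81d800800c0952ee4d)) (.lf (nat_lit 0x8f36f29e7ab171df18)) (.nd (.lf (nat_lit 0x8008018259f0184c42)) (.lf (nat_lit 0x80084583f2ff1fe9a3)) (.lf (nat_lit 0x8318edb1bcfe7b3d55)) (.lf (nat_lit 0x82e864a6adf8aa0bee))))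
  _ _ _ (by decide +kernel)

noncomputable def g2_76_36 : GD 2 76 36 := chk_sound 
  (.cell (.lf (nat_lit 0x81d765b38c6e8a9dc3)) (.lf (nat_lit 0x80081d8205151cfc22)) (.lf (nat_lit 0x995dea8fe5f4c56995)) (.lf (nat_lit 0x8007eb814c0753ee56)) (.lf (nat_lit 0x8117399648147cdfd6)) (.nd (.lf (nat_lit 0x8188b995692a13fbd4)) (.lf (nat_lit 0x80b87d8aa33a1ab89e)) (.nd (.lf (nat_lit 0x8057d2818cb654addd)) (.lf (nat_lit 0x8208e4b49cda7ecd5f)) (.lf (nat_lit 0x805800800d0a740e2a)) (.lf (nat_lit 0x80182a81ad58aadd50))) (.lf (nat_lit 0x80682a844bade7dadf))))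
  _ _ _ (by decide +kernel)

noncomputable def g2_68_44 : GD 2 68 44 := chk_sound 
  (.cell (.lf (nat_lit 0x85765d857cf48e0dfb)) (.lf (nat_lit 0x80080080088e1edd2c)) (.lf (nat_lit 0x831800800187912c92)) (.lf (nat_lit 0x82b800800c275b2e6f)) (.lf (nat_lit 0x87673aa6aa91745f16)) (.nd (.lf (nat_lit 0x8007fa826a9121acc0)) (.lf (nat_lit 0x80782c83c3531c99d6)) (.lf (nat_lit 0x835910ad9d1e7b4d55)) (.lf (nat_lit 0x80483c831d70c6dbd6))))
  _ _ _ (by decide +kernel)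

noncomputable def g2_76_44 : GD 2 76 44 := chk_sound 
  (.cell (.lf (nat_lit 0x881721a6bcac90bdd9)) (.lf (nat_lit 0x8008018225071ddc2d)) (.lf (nat_lit 0x892bdfb8d2bdab78fe)) (.lf (nat_lit 0x8007f5810b6657aec9)) (.nd (.lf (nat_lit 0x80180781b7495bffa4)) (.lf (nat_lit 0x825800800227849d72)) (.lf (nat_lit 0x8007ff80e81d940fe6)) (.lf (nat_lit 0x8007d081b304bc7cfb))) (.nd (.nd (.lf (nat_lit 0x8007ff84270d180c8e)) (.lf (nat_lit 0x80282a85a51c121adf)) (.lf (nat_lit 0x8007ea8239ce253d56)) (.lf (nat_lit 0x8198d8a4292519cc00))) (.lf (nat_lit 0x80985988635a1988f3)) (.lf (nat_lit 0x800922af9cfe7a2d5e)) (.lf (nat_lit 0x85277f8aeb6fe5ab51))))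
  _ _ _ (by decide +kernel)

theorem g3_72_40 : GD 3 72 40 :=
  GD.split (i := 2) g2_68_36 g2_76_36 g2_68_44 g2_76_44 (by decide)

noncomputable def g2_68_52 : GD 2 68 52 := chk_sound 
  (.cell (.lf (nat_lit 0x8556be879cfd910e01)) (.lf (nat_lit 0x8007f78318401e9d2d)) (.lf (nat_lit 0x81f7be8091738dac80)) (.lf (nat_lit 0x80d800800c3b622e86)) (.lf (nat_lit 0x80b6f5a1da4375cf46)) (.nd (.nd (.lf (nat_lit 0x8007f18299001bacdb)) (.lf (nat_lit 0x8008158566380deb21)) (.lf (nat_lit 0x8007dc80fb703ccddf)) (.lf (nat_lit 0x8258c1a07aeb2e5cf8))) (.lf (nat_lit 0x80082d84b3bc17d9cc)) (.lf (nat_lit 0x800904aead0e7cbd5f)) (.lf (nat_lit 0x800777908cc9d36b8b))))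
  _ _ _ (by decide +kernel)

noncomputable def g2_76_52 : GD 2 76 52 := chk_sound 
  (.cell (.lf (nat_lit 0x834660935ca1965e0a)) (.lf (nat_lit 0x82180080047822ac2c)) (.lf (nat_lit 0x94ed5a9cc619d168f2)) (.lf (nat_lit 0x800800800bf065cec4)) (.nd (.lf (nat_lit 0x80080181b6fa5fcfac)) (.lf (nat_lit 0x800a02d3b490a3cbf8)) (.lf (nat_lit 0x8007ff80e7669fcfb9)) (.lf (nat_lit 0x8007e38253a8c9ecdf))) (.nd (.nd (.lf (nat_lit 0x8108008006a31d1ce2)) (.lf (nat_lit 0x8008018274d3169b3a)) (.lf (nat_lit 0x8007eb81ea002e0dce)) (.lf (nat_lit 0x8009adb8ab31405cc1))) (.lf (nat_lit 0x80783685337518d940)) (.lf (nat_lit 0x824917a86d497cdd55)) (.lf (nat_lit 0x8667828cbb27e78b57))))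
  _ _ _ (by decide +kernel)

noncomputable def g2_68_60 : GD 2 68 60 := chk_sound 
  (.cell (.lf (nat_lit 0x81c7e7aa9ca69a9db3)) (.lf (nat_lit 0x8007ff81b7eb1dcd1f)) (.lf (nat_lit 0x83d800800156854c67)) (.lf (nat_lit 0x8007e980dc45679e96)) (.lf (nat_lit 0x8117aba779db79ef5d)) (.nd (.nd (.lf (nat_lit 0x80080181c9b8236d3e)) (.lf (nat_lit 0x802813853608113b77)) (.lf (nat_lit 0x8007ff81abe2493e18)) (.nd (.lf (nat_lit 0x800800800897141c41)) (.lf (nat_lit 0x8008068465bb0d1aab)) (.lf (nat_lit 0x8007e1826b3c352d9e)) (.lf (nat_lit 0x826922ae8b493bfd09)))) (.lf (nat_lit 0x80883a86940814b9bb)) (.lf (nat_lit 0x82b90cabdd1f7d4d66)) (.lf (nat_lit 0x83b78896bc4fd92b7a))))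
  _ _ _ (by decide +kernel)

noncomputable def g2_76_60 : GD 2 76 60 := chk_sound 
  (.cell (.lf (nat_lit 0x8236deaa1be29b8e24)) (.lf (nat_lit 0x80381d836477237c3c)) (.lf (nat_lit 0x81680082c9e8f7ca10)) (.lf (nat_lit 0x81d800800b366f1f3f)) (.nd (.lf (nat_lit 0x8008168096325bff75)) (.lf (nat_lit 0x800855e7c7aa857ca5)) (.lf (nat_lit 0x8007f681e5c7b28f01)) (.lf (nat_lit 0x8007ec83e5e6e6bc47))) (.nd (.lf (nat_lit 0x8299b6aa2b963bdccd)) (.lf (nat_lit 0x80183d85838c18c984)) (.lf (nat_lit 0x8008e199dded773d04)) (.lf (nat_lit 0x8367b6884ac5edbafb))))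
  _ _ _ (by decide +kernel)

theorem g3_72_56 : GD 3 72 56 :=
  GD.split (i := 2) g2_68_52 g2_76_52 g2_68_60 g2_76_60 (by decide)

noncomputable def g2_68_68 : GD 2 68 68 := chk_sound 
  (.cell (.lf (nat_lit 0x8007e18b9cc89e4e15)) (.lf (nat_lit 0x8007ff8227a41cfd0c)) (.lf (nat_lit 0x842aa4a2a1a68e7b54)) (.lf (nat_lit 0x81c800800c486baea2)) (.nd (.lf (nat_lit 0x800800800a136b8f9e)) (.lf (nat_lit 0x82480080025d6acd84)) (.lf (nat_lit 0x8008008009e7aa8f4d)) (.lf (nat_lit 0x8057d082931ebbbd1d))) (.nd (.lf (nat_lit 0x82f8f1a02c32432d31)) (.lf (nat_lit 0x80083e85f42b12f99d)) (.lf (nat_lit 0x83490ba28d867d4d42)) (.lf (nat_lit 0x81781b88dbf4e24b35))))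
  _ _ _ (by decide +kernel)

noncomputable def g2_76_68 : GD 2 76 68 := chk_sound 
  (.cell (.lf (nat_lit 0x834587ae4ab2a74e04)) (.lf (nat_lit 0x80082082647b23fc4b)) (.lf (nat_lit 0x8008018499b0f949e5)) (.lf (nat_lit 0x8007ff80eabc6f6f72)) (.nd (.lf (nat_lit 0x80080181961c591f61)) (.lf (nat_lit 0x8057c8e498136c7cca)) (.lf (nat_lit 0x8007e2811577b89eb6)) (.lf (nat_lit 0x8007ff84870aeafc47))) (.nd (.lf (nat_lit 0x836a01a46c794d3cf7)) (.lf (nat_lit 0x80083081f39c18d9bd)) (.lf (nat_lit 0x83f9319a0df9610c85)) (.lf (nat_lit 0x825706a11ad7e98aad))))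
  _ _ _ (by decide +kernel)

noncomputable def g2_68_76 : GD 2 68 76 := chk_sound 
  (.cell (.lf (nat_lit 0x800801812cac9dbe38)) (.lf (nat_lit 0x80080183669f189c7f)) (.lf (nat_lit 0x82cc58c4f5e3bb1ae6)) (.lf (nat_lit 0x800800800c406f1eb1)) (.nd (.lf (nat_lit 0x8007f38139a6688fb0)) (.lf (nat_lit 0x8158a2cbf6906d0e21)) (.lf (nat_lit 0x80d80080096eacff5a)) (.lf (nat_lit 0x825894b4d596d23c87))) (.nd (.lf (nat_lit 0x81d8c1907c2a3d6d42)) (.lf (nat_lit 0x800828858406119896)) (.lf (nat_lit 0x8007c380ae08761d36)) (.nd (.lf (nat_lit 0x808844834df7c10b6e)) (.lf (nat_lit 0x80083d82427923e866)) (.lf (nat_lit 0x83b699c94c949cdc19)) (.lf (nat_lit 0x8077d8847419e4caff)))))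
  _ _ _ (by decide +kernel)

noncomputable def g2_76_76 : GD 2 76 76 := chk_sound 
  (.cell (.lf (nat_lit 0x8007ec8044cbd90cc4)) (.lf (nat_lit 0x8007ff808483244c59)) (.lf (nat_lit 0x80782c89ea36fa08b6)) (.nd (.lf (nat_lit 0x8007f3816b945dbed3)) (.lf (nat_lit 0x80081180563b6a4fae)) (.lf (nat_lit 0x8007ff808d46626db8)) (.lf (nat_lit 0x81470f88a6c2977fb0))) (.nd (.lf (nat_lit 0x80b8008007195b7f9c)) (.lf (nat_lit 0x80078be318bd6d2cd9)) (.lf (nat_lit 0x8007e5828605bafed1)) (.lf (nat_lit 0x8007fa8507cfeb6c56))) (.nd (.lf (nat_lit 0x870bdf9edbd0598cfa)) (.lf (nat_lit 0x80481f8263a81929ec)) (.lf (nat_lit 0x8007cf816ecf5e7ba0)) (.lf (nat_lit 0x8555e6ae2a68e749eb))))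
  _ _ _ (by decide +kernel)

theorem g3_72_72 : GD 3 72 72 :=
  GD.split (i := 2) g2_68_68 g2_76_68 g2_68_76 g2_76_76 (by decide)

noncomputable def g2_68_84 : GD 2 68 84 := chk_sound 
  (.cell (.lf (nat_lit 0x836571b32aafb1cd81)) (.lf (nat_lit 0x80e8008005a51cdc78)) (.lf (nat_lit 0x80082e8a0a6ef898eb)) (.lf (nat_lit 0x827800800c0173aee1)) (.nd (.lf (nat_lit 0x80780080093063ffb6)) (.lf (nat_lit 0x800843d288325f5dc1)) (.lf (nat_lit 0x8007ff811808b88f2d)) (.lf (nat_lit 0x8017ee8d2752ec9c19))) (.lf (nat_lit 0x82a9f0a90d6b79bce9)))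
  _ _ _ (by decide +kernel)

noncomputable def g2_76_84 : GD 2 76 84 := chk_sound 
  (.cell (.lf (nat_lit 0x8007e383159ee1ac95)) (.lf (nat_lit 0x80581c82e490248c67)) (.lf (nat_lit 0x8008318c79f6fb089a)) (.lf (nat_lit 0x80078c8372be8aadf8)) (.nd (.lf (nat_lit 0x8007ff89d7dc56df8c)) (.lf (nat_lit 0x80079fe0b91f63dcca)) (.lf (nat_lit 0x80080180f7dfbbbf13)) (.lf (nat_lit 0x8007d7918847e3ace3))) (.nd (.lf (nat_lit 0x9acad581a238656c1e)) (.lf (nat_lit 0x80682483c3b5196a13)) (.lf (nat_lit 0x82e79b9130889b69f9)) (.lf (nat_lit 0x8b23da97792be5a98d))))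
  _ _ _ (by decide +kernel)

noncomputable def g2_68_92 : GD 2 68 92 := chk_sound 
  (.cell (.lf (nat_lit 0x8007ff8374fdda1cd0)) (.lf (nat_lit 0x80181182248d257c79)) (.lf (nat_lit 0x8008168249dbfbe8ba)) (.nd (.lf (nat_lit 0x830800800cc3651e33)) (.lf (nat_lit 0x8007ea811ab86e4f70)) (.lf (nat_lit 0x8175c4a1fdda5c4be7)) (.lf (nat_lit 0x82b689967aae974f1c))) (.nd (.lf (nat_lit 0x8007ff8188b15f9fb5)) (.lf (nat_lit 0x80b7d1d598a65bad74)) (.lf (nat_lit 0x80080782683dc56eb7)) (.lf (nat_lit 0x80c7e0955867e66c97))) (.lf (nat_lit 0x83baf89f0e25746b9d)))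
  _ _ _ (by decide +kernel)

noncomputable def g2_76_92 : GD 2 76 92 := chk_sound 
  (.cell (.lf (nat_lit 0x8007ea82f5bde1bca4)) (.lf (nat_lit 0x80080182949e24ac75)) (.lf (nat_lit 0x80081f87f9b6fc7884)) (.lf (nat_lit 0x8007d080f2668dcda4)) (.nd (.lf (nat_lit 0x8037f990f8b951df59)) (.lf (nat_lit 0x811780db392e53fcb8)) (.lf (nat_lit 0x8137c89438c2ba1ef8)) (.lf (nat_lit 0x80f7aaaba8e5d51d3b))) (.lf (nat_lit 0xc927e4c28b92a61ab7)))
  _ _ _ (by decide +kernel)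

theorem g3_72_88 : GD 3 72 88 :=
  GD.split (i := 2) g2_68_84 g2_76_84 g2_68_92 g2_76_92 (by decide)

noncomputable def g2_68_100 : GD 2 68 100 := chk_sound 
  (.cell (.lf (nat_lit 0x8007e9816518da2ce0)) (.lf (nat_lit 0x8007ff826499258c83)) (.lf (nat_lit 0x8008218939cefc482d)) (.nd (.lf (nat_lit 0x80f30590f9916eaddd)) (.lf (nat_lit 0x8187b182b9eb7ecfc1)) (.lf (nat_lit 0x82c1fbb199d283dbd6)) (.lf (nat_lit 0x8354769f78d998beab))) (.nd (.lf (nat_lit 0x8008008198b35bdfa4)) (.lf (nat_lit 0x8097dbd4f90043cc89)) (.lf (nat_lit 0x80f7d19b7985bb4eb5)) (.lf (nat_lit 0x8117ccc0a942cbacde))) (.nd (.lf (nat_lit 0xd27d4f822924679a5d)) (.lf (nat_lit 0x90e84683335a23bacc)) (.lf (nat_lit 0x80079d8360e2b3e99c)) (.lf (nat_lit 0x91a3079ae71cdd38af))))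
  _ _ _ (by decide +kernel)

noncomputable def g2_76_100 : GD 2 76 100 := chk_sound 
  (.cell (.lf (nat_lit 0x8007e981f5e0e1dcb2)) (.lf (nat_lit 0x80381b8334ae24cc83)) (.lf (nat_lit 0x8078298df973fcd874)) (.lf (nat_lit 0x81e80080023f8c1d80)) (.nd (.lf (nat_lit 0x8008019938cd49bf06)) (.lf (nat_lit 0x81179ad0f9763afc2e)) (.lf (nat_lit 0x8137a4aa0983b13eb9)) (.lf (nat_lit 0x81a785c9c98eb53d63))) (.lf (nat_lit 0xbc56d1c5ac14acca3b)))
  _ _ _ (by decide +kernel)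

noncomputable def g2_68_108 : GD 2 68 108 := chk_sound 
  (.cell (.lf (nat_lit 0x8007ff826535da1cf2)) (.lf (nat_lit 0x8008018194a7258c8e)) (.lf (nat_lit 0x80082b8f7957fcf876)) (.lf (nat_lit 0x82d5d78b23ad868e51)) (.nd (.lf (nat_lit 0x8007f681493d4dcf40)) (.lf (nat_lit 0x80c819b588c91b7b8f)) (.lf (nat_lit 0x8047dcbdea618dbe87)) (.lf (nat_lit 0x8167c0df6949b4fbf8))) (.lf (nat_lit 0x8b1302a86c26bc58e1)))
  _ _ _ (by decide +kernel)

noncomputable def g2_76_108 : GD 2 76 108 := chk_sound 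
  (.cell (.lf (nat_lit 0x8007f0844605e1dcc1)) (.lf (nat_lit 0x80080181c4bd24dc90)) (.lf (nat_lit 0x80081483f934fe4867)) (.lf (nat_lit 0x82180080022c89dd71)) (.lf (nat_lit 0x81573ece6b26731d5f)) (.lf (nat_lit 0x85e577c64cefb399d8)))
  _ _ _ (by decide +kernel)

theorem g3_72_104 : GD 3 72 104 :=
  GD.split (i := 2) g2_68_100 g2_76_100 g2_68_108 g2_76_108 (by decide)

noncomputable def g2_68_116 : GD 2 68 116 := chk_sound 
  (.cell (.lf (nat_lit 0x8007e2823555da0d04)) (.lf (nat_lit 0x80281f8394b6259c99)) (.lf (nat_lit 0x8058248ba66e03485f)) (.lf (nat_lit 0x82c7118aa24f8cbd71)) (.nd (.lf (nat_lit 0x80080081393e442ef5)) (.lf (nat_lit 0x8007f682d87e0b5b3d)) (.lf (nat_lit 0x8067debdda9a7a7e7e)) (.lf (nat_lit 0x80c7c0e3a92aba9b3a))) (.lf (nat_lit 0x8bf368af5c33be68d9)))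
  _ _ _ (by decide +kernel)

noncomputable def g2_76_116 : GD 2 76 116 := chk_sound 
  (.cell (.lf (nat_lit 0x8007f182f62ce1ecd0)) (.lf (nat_lit 0x80481a8294cd24fc9d)) (.lf (nat_lit 0x8058208f68f4fdf85f)) (.lf (nat_lit 0x8007c1806221876d68)) (.nd (.lf (nat_lit 0x8027fe8d59b3387e5b)) (.lf (nat_lit 0x8007ff86c9040bfb2f)) (.lf (nat_lit 0x81b7a1c4ea6e868e43)) (.lf (nat_lit 0x800754e479dc826c8c))) (.lf (nat_lit 0x828550c64cdbb68980)))
  _ _ _ (by decide +kernel)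

noncomputable def g2_68_124 : GD 2 68 124 := chk_sound 
  (.cell (.lf (nat_lit 0x8027e8839576d9ed17)) (.lf (nat_lit 0x8008018364c4259ca3)) (.lf (nat_lit 0x80481989a6bc022846)) (.lf (nat_lit 0x8007ec80b21e921d4c)) (.nd (.lf (nat_lit 0x8007ee8219173a8ea0)) (.lf (nat_lit 0x8018018327df0b8b4c)) (.lf (nat_lit 0x8207a1bcba847b1e8f)) (.lf (nat_lit 0x80b7c1f0d920a64ab1))) (.lf (nat_lit 0x86b358b11bb1c4f8b4)))
  _ _ _ (by decide +kernel)

noncomputable def g2_76_124 : GD 2 76 124 := chk_sound .out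
  _ _ _ (by decide +kernel)

theorem g3_72_120 : GD 3 72 120 :=
  GD.split (i := 2) g2_68_116 g2_76_116 g2_68_124 g2_76_124 (by decide)

noncomputable def g2_84_m108 : GD 2 84 (-108) := chk_sound 
  (.cell (.lf (nat_lit 0x80282283bb63db1c7a)) (.lf (nat_lit 0x8007f4822af1268ce6)) (.nd (.lf (nat_lit 0x80b7dd90a7d81edd18)) (.lf (nat_lit 0x8007db81fb2542ee48)) (.lf (nat_lit 0x80d775d00611a30d7e)) (.lf (nat_lit 0x80081b8109eda40f6e))) (.lf (nat_lit 0x83f41b90438835ea80)) (.lf (nat_lit 0x83b800800df36ddd38)) (.lf (nat_lit 0x80480e86d70102e945)))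
  _ _ _ (by decide +kernel)

noncomputable def g2_92_m108 : GD 2 92 (-108) := chk_sound .out
  _ _ _ (by decide +kernel)

noncomputable def g2_84_m100 : GD 2 84 (-100) := chk_sound 
  (.cell (.lf (nat_lit 0x80081382fb4bdbbc80)) (.lf (nat_lit 0x8007f082eac6274d0c)) (.nd (.lf (nat_lit 0x80b7a6a3c741286d52)) (.lf (nat_lit 0x8007eb80b9c8534f47)) (.lf (nat_lit 0x812760cb85d8baeccf)) (.lf (nat_lit 0x81180080096b9f2fa0))) (.lf (nat_lit 0x8566c7b902c846ab19)) (.lf (nat_lit 0x81d800800e027c9d46)) (.lf (nat_lit 0x80081489a6e90288ee)))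
  _ _ _ (by decide +kernel)

noncomputable def g2_92_m100 : GD 2 92 (-100) := chk_sound 
  (.cell (.lf (nat_lit 0x800814813b57dbfc72)) (.lf (nat_lit 0x8007e481dae6276cfc)) (.nd (.lf (nat_lit 0x80d7de9247aa1e6d08)) (.lf (nat_lit 0x8007f280c9264c8f3b)) (.lf (nat_lit 0x80b734dc9642a23cb8)) (.lf (nat_lit 0x80080b8188c7a69f96))) (.lf (nat_lit 0x843662bb92784caa8e)) (.lf (nat_lit 0x8007d5806de67d6d65)) (.lf (nat_lit 0x8008148496bb032927)))
  _ _ _ (by decide +kernel)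

theorem g3_88_m104 : GD 3 88 (-104) :=
  GD.split (i := 2) g2_84_m108 g2_92_m108 g2_84_m100 g2_92_m100 (by decide)

noncomputable def g2_84_m92 : GD 2 84 (-92) := chk_sound 
  (.cell (.lf (nat_lit 0x8008008009f4e9ec0b)) (.lf (nat_lit 0x8007f58439ab1e1cdd)) (.nd (.lf (nat_lit 0x80c74ab916f137cd68)) (.lf (nat_lit 0x8067839508c6618f9a)) (.lf (nat_lit 0x815731c7a5f0cc9c04)) (.lf (nat_lit 0x80080080089fa44fa5))) (.lf (nat_lit 0xa557ddc9d3ff4b7b3a)) (.lf (nat_lit 0x83c800800e13884d2c)) (.lf (nat_lit 0x80380d89676e02e975)))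
  _ _ _ (by decide +kernel)

noncomputable def g2_92_m92 : GD 2 92 (-92) := chk_sound 
  (.cell (.lf (nat_lit 0x80081b83aa0bea2bf7)) (.lf (nat_lit 0x8007f88359d11eacdb)) (.nd (.lf (nat_lit 0x818780ac37422cdd57)) (.lf (nat_lit 0x81478b9a77f956df60)) (.lf (nat_lit 0x818717dba60cb06c2c)) (.lf (nat_lit 0x8047e09b37c2a7bf68))) (.lf (nat_lit 0x8397a6d083165c3b0e)) (.lf (nat_lit 0x800836809e07884d3a)) (.lf (nat_lit 0x8007ff83b73503a9af)))
  _ _ _ (by decide +kernel)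

noncomputable def g2_84_m84 : GD 2 84 (-84) := chk_sound 
  (.cell (.lf (nat_lit 0x8007fe8327edf37b71)) (.lf (nat_lit 0x8007ea8139da285d85)) (.nd (.lf (nat_lit 0x8136e3c886ba46bd44)) (.lf (nat_lit 0x80071fa4e8566a2f7a)) (.lf (nat_lit 0x8008008005c3f2bac0)) (.lf (nat_lit 0x8007ff81872ea9ff83))) (.lf (nat_lit 0x8347b8d8e402525afc)) (.lf (nat_lit 0x829800800e29929cf7)) (.lf (nat_lit 0x8007ff84d7f903a9da)))
  _ _ _ (by decide +kernel)

noncomputable def g2_92_m84 : GD 2 92 (-84) := chk_sound 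
  (.cell (.lf (nat_lit 0x8007fd84e7fcf3db63)) (.lf (nat_lit 0x8007f3826a1d287d6f)) (.nd (.lf (nat_lit 0x81271fbf26f23d0d62)) (.lf (nat_lit 0x80074aa6e7895e4f46)) (.lf (nat_lit 0x80070bd1e5ebcbab32)) (.lf (nat_lit 0x8007ba9ce671aa2f29))) (.lf (nat_lit 0x9a97bbd6f44a4e7adf)) (.lf (nat_lit 0x80682480ae23920d00)) (.lf (nat_lit 0x8008058487b604ba18)))
  _ _ _ (by decide +kernel)

theorem g3_88_m88 : GD 3 88 (-88) :=
  GD.split (i := 2) g2_84_m92 g2_92_m92 g2_84_m84 g2_92_m84 (by decide)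

noncomputable def g2_84_m76 : GD 2 84 (-76) := chk_sound 
  (.cell (.lf (nat_lit 0x8007ed83a6ddf38b3d)) (.lf (nat_lit 0x8007ff82f8f328cdc5)) (.nd (.nd (.lf (nat_lit 0x8007ff8257ca17bca0)) (.lf (nat_lit 0x8007ff82b790284dcd)) (.lf (nat_lit 0x8007fb8448c3091ad6)) (.lf (nat_lit 0x81761de5e65f710c0b))) (.lf (nat_lit 0x80670aa8b7c16d4f6d)) (.lf (nat_lit 0x8007d08614e6ef3a6c)) (.lf (nat_lit 0x8007ae9d87a0afff2a))) (.nd (.lf (nat_lit 0x80081384a707145c33)) (.lf (nat_lit 0x83e800800f318dfb61)) (.lf (nat_lit 0x80180988d7990188fc)) (.lf (nat_lit 0x80083181ce83a9fbd3))) (.lf (nat_lit 0x80082e812e499bbca1)) (.lf (nat_lit 0x80a7af9f494205b81d)))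
  _ _ _ (by decide +kernel)

noncomputable def g2_92_m76 : GD 2 92 (-76) := chk_sound 
  (.cell (.lf (nat_lit 0x8007f581f76def0bef)) (.lf (nat_lit 0x8037f682b95128ddb4)) (.nd (.lf (nat_lit 0x80068cd126db4d7cfc)) (.lf (nat_lit 0x817740a7c706649f4e)) (.lf (nat_lit 0x81a800800561f2ca60)) (.lf (nat_lit 0x8007a09d95f9af7ee5))) (.nd (.lf (nat_lit 0x861a979b47501e5c0f)) (.lf (nat_lit 0x81a835808f2a8bbb78)) (.lf (nat_lit 0x80380d8566de034953)) (.lf (nat_lit 0x82d800800e7ea95be3))) (.lf (nat_lit 0x80083f816e419abcb1)) (.lf (nat_lit 0x8037e68e28ef01f874)))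
  _ _ _ (by decide +kernel)

noncomputable def g2_84_m68 : GD 2 84 (-68) := chk_sound 
  (.cell (.lf (nat_lit 0x8008018215ebf0cb27)) (.lf (nat_lit 0x80080882b7d2290ddc)) (.nd (.lf (nat_lit 0x800574ef46b1890aab)) (.lf (nat_lit 0x81273e9f379970dfa6)) (.lf (nat_lit 0x8007e28174a2edda57)) (.lf (nat_lit 0x80a7b19a27a5b68f09))) (.nd (.lf (nat_lit 0x80081282e6e516dc6a)) (.lf (nat_lit 0x815858814f4b9b4ac8)) (.lf (nat_lit 0x8007df9438d4027842)) (.lf (nat_lit 0x80083e81eeadabdb70))) (.lf (nat_lit 0x80083e819e7fa33c1b)) (.lf (nat_lit 0x806757a6d9ff0ad80b)))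
  _ _ _ (by decide +kernel)

noncomputable def g2_92_m68 : GD 2 92 (-68) := chk_sound 
  (.cell (.lf (nat_lit 0x8007ee829628f06b58)) (.lf (nat_lit 0x8007fd811848292ddd)) (.nd (.lf (nat_lit 0x8175d6e957226a5ba8)) (.lf (nat_lit 0x8117629dd6ee685f89)) (.lf (nat_lit 0x8007d08684fff43969)) (.lf (nat_lit 0x8007a499f61cb65eca))) (.nd (.lf (nat_lit 0x80081284168d195c8a)) (.lf (nat_lit 0x800858809f4497daf9)) (.lf (nat_lit 0x8017fb8cb83f00e85b)) (.lf (nat_lit 0x800843812e9dabbb90))) (.lf (nat_lit 0x80083880de6ea1fc40)) (.lf (nat_lit 0x8007999b49cf069806)))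
  _ _ _ (by decide +kernel)

theorem g3_88_m72 : GD 3 88 (-72) :=
  GD.split (i := 2) g2_84_m76 g2_92_m76 g2_84_m68 g2_92_m68 (by decide)

noncomputable def g2_84_m60 : GD 2 84 (-60) := chk_sound 
  (.cell (.lf (nat_lit 0x8007ff8345b9ef2b3d)) (.lf (nat_lit 0x80081683c6ba288db1)) (.nd (.lf (nat_lit 0x818531f217258e69ec)) (.lf (nat_lit 0x80080680d7bd732ff4)) (.lf (nat_lit 0x8007ce8554a9eeca2d)) (.lf (nat_lit 0x80a8008007a0befef4))) (.nd (.lf (nat_lit 0x800808839715142c32)) (.lf (nat_lit 0x80086a827f5da679f1)) (.nd (.nd (.lf (nat_lit 0x8027f185c90c070a5a)) (.lf (nat_lit 0x8007ff8577f506ca88)) (.lf (nat_lit 0x8007e5830a4005582e)) (.lf (nat_lit 0x8057999ca9be06a811))) (.lf (nat_lit 0x8008068746bb01f837)) (.lf (nat_lit 0x8007d5867599f918db)) (.lf (nat_lit 0x80080b8a88c4fe48d1))) (.lf (nat_lit 0x80083781feeeacbad7))) (.lf (nat_lit 0x80084a824ed5a86b4a)) (.lf (nat_lit 0x8077ce897540f7b830)))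
  _ _ _ (by decide +kernel)

noncomputable def g2_92_m60 : GD 2 92 (-60) := chk_sound 
  (.cell (.lf (nat_lit 0x80080083960fef1b75)) (.lf (nat_lit 0x80080080073a291dd1)) (.nd (.lf (nat_lit 0x814570f2d7168c4a1e)) (.lf (nat_lit 0x8007c08b075e65afc4)) (.lf (nat_lit 0x8007ca8704f1f3f95c)) (.lf (nat_lit 0x80a7e3883699bf6ec9))) (.nd (.lf (nat_lit 0x800819845638182c4f)) (.lf (nat_lit 0x80085d814f60a1ca3b)) (.nd (.lf (nat_lit 0x8067df8d694702d89e)) (.lf (nat_lit 0x8138008002dc20494f)) (.lf (nat_lit 0x80d800800622fbb8d8)) (.lf (nat_lit 0x80b850853d7bdba8f4))) (.lf (nat_lit 0x800857823ed4acbb11))) (.lf (nat_lit 0x800839820eb6a6db9a)) (.lf (nat_lit 0x8017789ac5a3f6f823)))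
  _ _ _ (by decide +kernel)

noncomputable def g2_84_m52 : GD 2 84 (-52) := chk_sound 
  (.cell (.lf (nat_lit 0x8007ff8355a7ecbb80)) (.lf (nat_lit 0x8007ff8197e8293de0)) (.nd (.lf (nat_lit 0x800533f3072c8ef9b5)) (.lf (nat_lit 0x8128008006586d3fbc)) (.lf (nat_lit 0x8007c98754edf289be)) (.lf (nat_lit 0x8007f081e719c2eec2))) (.nd (.lf (nat_lit 0x8008018338500a3b19)) (.lf (nat_lit 0x81588283bf55afb8fe)) (.nd (.nd (.lf (nat_lit 0x8007e9868947068a1e)) (.lf (nat_lit 0x8008008647fc046a06)) (.lf (nat_lit 0x80079c95d5d3f90818)) (.lf (nat_lit 0x87078f9a263ef9a81f))) (.lf (nat_lit 0x80585d862dadd918ae)) (.lf (nat_lit 0x81576a8d65c2f9589e)) (.lf (nat_lit 0x80784a82de99beca38))) (.lf (nat_lit 0x808853827f2fad3a0f))) (.lf (nat_lit 0x813855822f39ab5a14)) (.nd (.lf (nat_lit 0x80079e909ad609d859)) (.lf (nat_lit 0x80075598e4f6f33822)) (.lf (nat_lit 0x80d78c93a53df63835)) (.lf (nat_lit 0x8007df85d524f7286d))))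
  _ _ _ (by decide +kernel)

noncomputable def g2_92_m52 : GD 2 92 (-52) := chk_sound 
  (.cell (.lf (nat_lit 0x8007f1806662e6fc77)) (.lf (nat_lit 0x80080c829708285dbe)) (.nd (.lf (nat_lit 0x800543f437548c99a4)) (.lf (nat_lit 0x8087d48826f9649fba)) (.lf (nat_lit 0x8057c388e4faf44949)) (.lf (nat_lit 0x8007ef826706c49eae))) (.nd (.lf (nat_lit 0x8008018527030f2b9f)) (.lf (nat_lit 0x80987182df70a94953)) (.nd (.lf (nat_lit 0x85679998c634f9e828)) (.lf (nat_lit 0x814869829f48ae1990)) (.lf (nat_lit 0x8007c88e6619fb2881)) (.lf (nat_lit 0x80285982ded3b38a9f))) (.lf (nat_lit 0x800801817f21abea5e))) (.lf (nat_lit 0x840a2f916ebfa49ab0)) (.lf (nat_lit 0x80077996f557f6282d)))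
  _ _ _ (by decide +kernel)

theorem g3_88_m56 : GD 3 88 (-56) :=
  GD.split (i := 2) g2_84_m60 g2_92_m60 g2_84_m52 g2_92_m52 (by decide)

noncomputable def g1_82_m46 : GD 1 82 (-46) := chk_sound 
  (.cell (.lf (nat_lit 0x8007f383170fe76c9d)) (.lf (nat_lit 0x8007ea83799a1decdf)) (.nd (.lf (nat_lit 0x81f54af0372e8afa84)) (.lf (nat_lit 0x8008008005be74dfa4)) (.lf (nat_lit 0x800800826538d4dd4d)) (.lf (nat_lit 0x8007ff81e5d3c0fe8a))) (.nd (.lf (nat_lit 0x80080e84d739068a5d)) (.lf (nat_lit 0x8008dc869f1db85837)) (.lf (nat_lit 0x8007e587b604fb688d)) (.lf (nat_lit 0x811888835f44b01958))) (.lf (nat_lit 0x814881832f63ae68d3)) (.lf (nat_lit 0x80079d90753ef6c83a)))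
  _ _ _ (by decide +kernel)

noncomputable def g1_86_m46 : GD 1 86 (-46) := chk_sound 
  (.cell (.lf (nat_lit 0x800801826753df1d4f)) (.lf (nat_lit 0x8007fd837866265db0)) (.nd (.lf (nat_lit 0x819516f2e77a8029ea)) (.lf (nat_lit 0x80080180b672771fd3)) (.lf (nat_lit 0x8007e3826554d75d32)) (.lf (nat_lit 0x810800800630c2fe92))) (.nd (.lf (nat_lit 0x80080385c787070a88)) (.lf (nat_lit 0x8108b8852f45b3785e)) (.lf (nat_lit 0x8067d68bd628fbb876)) (.lf (nat_lit 0x80a86882ff53ad1979))) (.lf (nat_lit 0x81488f839f6aab791d)) (.lf (nat_lit 0x811685c635aae1583b)))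
  _ _ _ (by decide +kernel)

noncomputable def g1_82_m42 : GD 1 82 (-42) := chk_sound 
  (.cell (.lf (nat_lit 0x8007ff83377cd71dd6)) (.lf (nat_lit 0x8007e684ead50bf9ca)) (.nd (.lf (nat_lit 0x81d56cef9708963a6a)) (.lf (nat_lit 0x80f8008005907c6f9d)) (.lf (nat_lit 0x8007e481954ed4cd59)) (.lf (nat_lit 0x8007dd81c55dc0de5f))) (.nd (.lf (nat_lit 0x80080787b76302694d)) (.lf (nat_lit 0x81689d85110243183f)) (.lf (nat_lit 0x8007ec880660fc58d3)) (.lf (nat_lit 0x80986c832f49b248e3))) (.lf (nat_lit 0x827f3d97e87f9a1a88)) (.lf (nat_lit 0x80a793933559f6e84a)))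
  _ _ _ (by decide +kernel)

noncomputable def g1_86_m42 : GD 1 86 (-42) := chk_sound 
  (.cell (.lf (nat_lit 0x800802827803d73dda)) (.lf (nat_lit 0x8037f482a9ca1a7c85)) (.nd (.lf (nat_lit 0x81957ff1e6ff8fea3f)) (.lf (nat_lit 0x80080180366f7f0fd8)) (.lf (nat_lit 0x8007ef825574d71d47)) (.lf (nat_lit 0x8007ff8225cec2fe74))) (.nd (.lf (nat_lit 0x80081b89464c059977)) (.lf (nat_lit 0x805a2090511c4b3816)) (.lf (nat_lit 0x8007e88566a8fd78be)) (.lf (nat_lit 0x812881837f5fae0905))) (.lf (nat_lit 0x83ef0694985d969b49)) (.lf (nat_lit 0x817626dfb636ca086f)))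
  _ _ _ (by decide +kernel)

theorem g2_84_m44 : GD 2 84 (-44) :=
  GD.split (i := 1) g1_82_m46 g1_86_m46 g1_82_m42 g1_86_m42 (by decide)

noncomputable def g2_92_m44 : GD 2 92 (-44) := chk_sound 
  (.cell (.lf (nat_lit 0x80080182e725dcdd70)) (.lf (nat_lit 0x8007f482b898252d99)) (.nd (.lf (nat_lit 0x800562f487588b09c9)) (.lf (nat_lit 0x8007af8d8718746fdd)) (.lf (nat_lit 0x8077d288052bf5396a)) (.lf (nat_lit 0x8007ef82066ac54e89))) (.nd (.lf (nat_lit 0x8007ff82f6600a2aa5)) (.lf (nat_lit 0x80a85a82bf6aaf1868)) (.nd (.lf (nat_lit 0x8057b098f66dfad829)) (.lf (nat_lit 0x80081d818f5badf941)) (.lf (nat_lit 0x8007e085f61bfb78d3)) (.lf (nat_lit 0x80084a80bf2dac8a27))) (.lf (nat_lit 0x80083881af62aa8986))) (.lf (nat_lit 0x887d818cc769886dab)) (.nd (.lf (nat_lit 0x8007e386ca9807585b)) (.lf (nat_lit 0x80d73e9f4ac70cd810)) (.lf (nat_lit 0x8057bf8bc58af9182e)) (.lf (nat_lit 0x8087be8b7555f7e856))))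
  _ _ _ (by decide +kernel)

noncomputable def g2_84_m36 : GD 2 84 (-36) := chk_sound 
  (.cell (.lf (nat_lit 0x8275db8d5773d50d7d)) (.lf (nat_lit 0x815576e778f456badb)) (.nd (.nd (.lf (nat_lit 0x81852bf727e77f08b5)) (.lf (nat_lit 0x800552f207da797a6b)) (.lf (nat_lit 0x80879f90954cf71837)) (.lf (nat_lit 0x81e56df2176d8cca5c))) (.lf (nat_lit 0x80080080061c90dfb3)) (.lf (nat_lit 0x8007e882c582d68d56)) (.lf (nat_lit 0x8037eb81f534c32e35))) (.nd (.lf (nat_lit 0x80589aa23a15f65814)) (.lf (nat_lit 0x80087183e1224058d4)) (.nd (.lf (nat_lit 0x8018078668bbfd097d)) (.lf (nat_lit 0x8108a2856efdbc28af)) (.lf (nat_lit 0x8007ff82c9a0f38b07)) (.lf (nat_lit 0x80086c826f2fb119a8))) (.lf (nat_lit 0x80085782ef50b3483e))) (.lf (nat_lit 0xafac7e81d4a48caccb)) (.nd (.lf (nat_lit 0x8067b78c5aa308185a)) (.lf (nat_lit 0x8067b18ea57ff87847)) (.nd (.nd (.lf (nat_lit 0x8057cc8aaa3a05b83f)) (.lf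 (nat_lit 0x8047d18a75aff9f82e)) (.lf (nat_lit 0x8067ce8c160ffb487a)) (.lf (nat_lit 0x8007ec8195c3fab857))) (.lf (nat_lit 0x8007a6920598f87851)) (.lf (nat_lit 0x8007ed8446baf9ea0e)) (.lf (nat_lit 0x8007f081c5ebe9ebfa))) (.lf (nat_lit 0x8067c789a556f798c5))))
  _ _ _ (by decide +kernel)

noncomputable def g2_92_m36 : GD 2 92 (-36) := chk_sound 
  (.cell (.lf (nat_lit 0x8008018287d5d37e0f)) (.lf (nat_lit 0x8057e1852a580f8afc)) (.nd (.lf (nat_lit 0x810586f4e77b8919f8)) (.lf (nat_lit 0x80c7e184f74b85bff4)) (.lf (nat_lit 0x8007f5828569e73bf4)) (.lf (nat_lit 0x8007f9823606c67e60))) (.nd (.lf (nat_lit 0x8008988db36e187846)) (.lf (nat_lit 0x81088d83f0bb4c186f)) (.lf (nat_lit 0x80083083bc17e8ba14)) (.lf (nat_lit 0x81288b833f7faa68a1))) (.lf (nat_lit 0x83d44391a55c88ae70)) (.nd (.lf (nat_lit 0x8097a98ffaa3089866)) (.lf (nat_lit 0x80c6fca96abd105810)) (.nd (.lf (nat_lit 0x8007d489a60ffba848))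 (.lf (nat_lit 0x800800800593f9c866)) (.lf (nat_lit 0x8007e983369bf49afb)) (.lf (nat_lit 0x8007e981760ae9dc0b))) (.lf (nat_lit 0x80c7a2929586f80849))))
  _ _ _ (by decide +kernel)

theorem g3_88_m40 : GD 3 88 (-40) :=
  GD.split (i := 2) g2_84_m44 g2_92_m44 g2_84_m36 g2_92_m36 (by decide)

noncomputable def g2_84_m28 : GD 2 84 (-28) := chk_sound 
  (.cell (.nd (.lf (nat_lit 0x80091b89b942c3ce8c)) (.lf (nat_lit 0x8007ff82e5b2d91d42)) (.lf (nat_lit 0x8001a49f1a479bfb65)) (.lf (nat_lit 0x8007ea80a40dc59d6d))) (.lf (nat_lit 0x8005aee9c90b4f5a23)) (.nd (.lf (nat_lit 0x800562f147bd85aa9e)) (.lf (nat_lit 0x80c715ac3771863f6b)) (.lf (nat_lit 0x800801812598d89d3f)) (.lf (nat_lit 0x8067e582a4d8c64de4))) (.lf (nat_lit 0x800837820cd5cdfc1a)) (.lf (nat_lit 0x8474e393633b8b4d6e)) (.nd (.lf (nat_lit 0x8077799d35cdf73811)) (.lf (nat_lit 0x8007e08675e7fae89f)) (.nd (.lf (nat_lit 0x8037e587765bfc38e0))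 (.lf (nat_lit 0x8007e583f5f6fb489c)) (.lf (nat_lit 0x80080b81388fe11d2e)) (.lf (nat_lit 0x8027ef84969ae5bca4))) (.lf (nat_lit 0x8037f18295ecf01b3f))))
  _ _ _ (by decide +kernel)

noncomputable def g2_92_m28 : GD 2 92 (-28) := chk_sound 
  (.cell (.lf (nat_lit 0x89159c8b479fd64d50)) (.lf (nat_lit 0x8087cd896a96094957)) (.nd (.lf (nat_lit 0x80d59cf4a7b8872a34)) (.lf (nat_lit 0x80375ba047f7806fb7)) (.lf (nat_lit 0x8007e882660cdb7d3d)) (.lf (nat_lit 0x8007f18325e9c99e33))) (.lf (nat_lit 0x80085f81cf1db359b5)) (.lf (nat_lit 0x80062a9d64d4a1ee88)) (.nd (.lf (nat_lit 0x8057bd8eba4406786b)) (.lf (nat_lit 0x80a760a1ea2d0a1813)) (.nd (.lf (nat_lit 0x8007e886c682fd289c)) (.lf (nat_lit 0x8007f584861ffc1874)) (.lf (nat_lit 0x80080f83f8a0e40cf2)) (.lf (nat_lit 0x8007f983e691e81c6c))) (.lf (nat_lit 0x8007d189f5abf968bc))))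
  _ _ _ (by decide +kernel)

noncomputable def g2_84_m20 : GD 2 84 (-20) := chk_sound 
  (.cell (.nd (.lf (nat_lit 0x8c77509b1ae5ad9e99)) (.lf (nat_lit 0x8007f18315b0db2d1d)) (.lf (nat_lit 0x8671649e9ac9922ab9)) (.lf (nat_lit 0x8007d38253bec5cd2d))) (.lf (nat_lit 0x81d5cff1e8ac6e1a9c)) (.nd (.lf (nat_lit 0x80e5b4ed6736a90a30)) (.lf (nat_lit 0x81764ed21812855de4)) (.lf (nat_lit 0x80e8008005a2db9d0f)) (.lf (nat_lit 0x80080181348bc9fd89))) (.lf (nat_lit 0x83280da10d07d1dadf)) (.lf (nat_lit 0x84f55b88332c989d90)) (.nd (.nd (.lf (nat_lit 0x80081c8134b40d293a)) (.lf (nat_lit 0x8007d98d095f02e878)) (.lf (nat_lit 0x80080386e803fd897f)) (.lf (nat_lit 0x8007f18426d0fc4978))) (.lf (nat_lit 0x8037e288d688fbe93d)) (.nd (.lf (nat_lit 0x80080085e885f7dabc)) (.lf (nat_lit 0x8007f6851790f79acc)) (.lf (nat_lit 0x800821812ba5c82d82)) (.lf (nat_lit 0x8008018057b6e33d0b))) (.lf (nat_lit 0x8007e684966be55c9d))))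
  _ _ _ (by decide +kernel)

noncomputable def g2_92_m20 : GD 2 92 (-20) := chk_sound 
  (.cell (.lf (nat_lit 0x82f4d9982795d80c9d)) (.lf (nat_lit 0x813616ea392d53fab2)) (.nd (.lf (nat_lit 0x8005a2f667cf89c9ca)) (.nd (.nd (.lf (nat_lit 0x8025a0def9595fcc28)) (.lf (nat_lit 0x80570ea6e8f15e4f33)) (.lf (nat_lit 0x80e642df3823850d0b)) (.lf (nat_lit 0x8087ab91b71ba88f72))) (.lf (nat_lit 0x80081180b712680fcd)) (.lf (nat_lit 0x8007ff82264dd08dfb)) (.lf (nat_lit 0x8007ed809600b2bf11))) (.lf (nat_lit 0x8007f383964bdd5d32)) (.lf (nat_lit 0x8007e88245e9cdfdfd))) (.lf (nat_lit 0x81289284af2eb72854)) (.lf (nat_lit 0x81b6c8a9651d8d9ed6)) (.nd (.nd (.lf (nat_lit 0x80284686c3d016e9bb)) (.lf (nat_lit 0x8007ef87f93d05f9fe)) (.lf (nat_lit 0x8047dc8e1962031884)) (.lf (nat_lit 0x8097b1955630faa83b))) (.lf (nat_lit 0x8047cd8c9613fb586c)) (.nd (.lf (nat_lit 0x8007e88a271efda90e)) (.nd (.nd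 (.lf (nat_lit 0x8057dc8b568cfcc8b9)) (.lf (nat_lit 0x8047e088064cfc6897)) (.lf (nat_lit 0x8007e987d6adfcc913)) (.lf (nat_lit 0x8047f384668cfad9af))) (.lf (nat_lit 0x8007f087061ffb78d6)) (.lf (nat_lit 0x8007f484776cf42b4c)) (.lf (nat_lit 0x8007ff83c6e1ed4c01))) (.lf (nat_lit 0x800809823a5fd7ad52)) (.lf (nat_lit 0x8007f183d747e5fcc6))) (.lf (nat_lit 0x8067dd8865eaf89997))))
  _ _ _ (by decide +kernel)

theorem g3_88_m24 : GD 3 88 (-24) :=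
  GD.split (i := 2) g2_84_m28 g2_92_m28 g2_84_m20 g2_92_m20 (by decide)

end Pool.Agent.P.MP_f12b6c_an.Dg
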