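import Pool.Agent.P.MP_f12b6c_an.T3DgDef

/-! Certificates for the diagonal statement. -/

set_option maxRecDepth 100000
set_option linter.defProp false

namespace Pool.Agent.P.MP_f12b6c_an.Dg

noncomputable def g2_84_m12 : GD 2 84 (-12) := chk_sound 
  (.cell (.nd (.lf (nat_lit 0x8347dc918c4d9c2e6a)) (.lf (nat_lit 0x8007ff81b5a8dddce8)) (.lf (nat_lit 0x873b8e874d47765cc4)) (.lf (nat_lit 0x8007ca81e3a1c70d03))) (.lf (nat_lit 0x807622f1c9036d3abf)) (.lf (nat_lit 0x8156e9b7f67ecccd07)) (.nd (.lf (nat_lit 0x80082d8263491f4a42)) (.lf (nat_lit 0x8008478382b831cb78)) (.lf (nat_lit 0x83bb3ebddc89981bf5)) (.lf (nat_lit 0x81fb62b12702345c71))) (.lf (nat_lit 0x8225ed8de33b8e0df3)) (.nd (.lf (nat_lit 0x800806842825fa4a57)) (.lf (nat_lit 0x8007fc8697c4f75ada)) (.nd (.lf (nat_lit 0x80482582cc16de6b86)) (.lf (nat_lit 0x800813819994e5ac98)) (.lf (nat_lit 0x81c800800d0fc26c99)) (.lf (nat_lit 0x800801827944dd2d56)))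 (.lf (nat_lit 0x8088008006f3e88c7e))))
  _ _ _ (by decide +kernel)

noncomputable def g2_92_m12 : GD 2 92 (-12) := chk_sound 
  (.cell (.nd (.lf (nat_lit 0x8134ffc03a819e4d62)) (.lf (nat_lit 0x800801829681ddcd3b)) (.lf (nat_lit 0x89c14a8fe592a1aab1)) (.lf (nat_lit 0x8007de829527cebda0))) (.lf (nat_lit 0x8007d7899a13061916)) (.nd (.lf (nat_lit 0x8007a89375d7f97847)) (.lf (nat_lit 0x813618e6086482dc6b)) (.lf (nat_lit 0x8007f381268fe00d16)) (.lf (nat_lit 0x8008018155fad2bdc2))) (.lf (nat_lit 0x8118c38600ed46586a)) (.lf (nat_lit 0x8106fbaf05df8dbf01)) (.nd (.nd (.lf (nat_lit 0x80682d83930b1f39a3)) (.lf (nat_lit 0x8007f088892a03d970)) (.lf (nat_lit 0x80083583ccd0e40946)) (.nd (.lf (nat_lit 0x8007f186089e00a832)) (.lf (nat_lit 0x8077c9917686fc5868)) (.lf (nat_lit 0x8007e489c6bcfd18ee)) (.lf (nat_lit 0x8047ea88a699fce8e0)))) (.lf (nat_lit 0x8027dc8a5654fc28ba)) (.nd (.lf (nat_lit 0x80382281edddc2bb7d))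 (.nd (.lf (nat_lit 0x8007f882c715fcd97d)) (.lf (nat_lit 0x8008018216dafbb9b0)) (.lf (nat_lit 0x80080f830907e3ace9)) (.lf (nat_lit 0x8007fc83b7ebea6c70))) (.lf (nat_lit 0x80084c818e61a5bc33)) (.lf (nat_lit 0x80080b83585ae1dd24))) (.lf (nat_lit 0x8007f081d72df06bbb))))
  _ _ _ (by decide +kernel)

noncomputable def g2_84_m4 : GD 2 84 (-4) := chk_sound 
  (.cell (.nd (.lf (nat_lit 0x800801804d2b824e1a)) (.lf (nat_lit 0x8007f781659de09cac)) (.lf (nat_lit 0x8005959d0b617e1e97)) (.lf (nat_lit 0x8007f781239cc8ece4))) (.lf (nat_lit 0x80a6e1f498b0779afc)) (.lf (nat_lit 0x8007e782e5b6e51c55)) (.nd (.lf (nat_lit 0x8018258303c71dfaea)) (.lf (nat_lit 0x80783583836031bc4e)) (.lf (nat_lit 0x82b985afec51786dd1)) (.lf (nat_lit 0x8008018118cc378e8b))) (.lf (nat_lit 0x82f6688d337289ce4b)) (.nd (.lf (nat_lit 0x8007ff82b953f8fa3e)) (.lf (nat_lit 0x8007ff85186cf35b6d)) (.lf (nat_lit 0x80382082bba4cd7d38))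 (.lf (nat_lit 0x8007fa84b78aeb4c54))))
  _ _ _ (by decide +kernel)

noncomputable def g2_92_m4 : GD 2 92 (-4) := chk_sound 
  (.cell (.nd (.lf (nat_lit 0x84044dc34b39925c92)) (.lf (nat_lit 0x8007f58206aee01d1d)) (.lf (nat_lit 0x87731f90434cab5b13)) (.lf (nat_lit 0x80080080052cd15d7d))) (.lf (nat_lit 0x800665f239085669a0)) (.nd (.lf (nat_lit 0x8007e588966dfb2966)) (.lf (nat_lit 0x800669ee4831958b7b)) (.lf (nat_lit 0x8007f382c6dbe30cef)) (.lf (nat_lit 0x8007ea82861fd75d89))) (.lf (nat_lit 0x80b86683c10345893c)) (.lf (nat_lit 0x80d715b416cf8d3f1a)) (.nd (.nd (.lf (nat_lit 0x80082f8412d52319d8)) (.lf (nat_lit 0x80480d9167a601885d)) (.lf (nat_lit 0x81189b88d23e28a88b)) (.lf (nat_lit 0x800807843839fada37))) (.lf (nat_lit 0x8007f387a790fc39d0)) (.nd (.lf (nat_lit 0x80082b820e52c29a94)) (.nd (.lf (nat_lit 0x80081383da0dec6bb7)) (.lf (nat_lit 0x80081384b8edec9c1f)) (.lf (nat_lit 0x80282082ec06c96d2b))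 (.lf (nat_lit 0x80080a826942e53cba))) (.lf (nat_lit 0x85e7e4823f27a17ae0)) (.lf (nat_lit 0x8008018269dbd94d6c))) (.lf (nat_lit 0x8007ff829799e9ec78))))
  _ _ _ (by decide +kernel)

theorem g3_88_m8 : GD 3 88 (-8) :=
  GD.split (i := 2) g2_84_m12 g2_92_m12 g2_84_m4 g2_92_m4 (by decide)

noncomputable def g2_84_4 : GD 2 84 4 := chk_sound 
  (.cell (.nd (.lf (nat_lit 0x828800800d627e2de9)) (.lf (nat_lit 0x8007e482f592e30c71)) (.lf (nat_lit 0x825629965aac826f2c)) (.lf (nat_lit 0x8027d38333accb2ccf))) (.lf (nat_lit 0x8077d4f8f7e376aa8a)) (.lf (nat_lit 0x8007e78245c5e8dc01)) (.lf (nat_lit 0x832887a9bcb2683db6)) (.lf (nat_lit 0x80c7a38f241391cece)) (.nd (.lf (nat_lit 0x803829879a3ff85974)) (.lf (nat_lit 0x8058148569aff3baf4)) (.lf (nat_lit 0x8158a9a3dcfaae4d0a)) (.lf (nat_lit 0x80080183f7d5eafc62))))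
  _ _ _ (by decide +kernel)

noncomputable def g2_92_4 : GD 2 92 4 := chk_sound 
  (.cell (.nd (.lf (nat_lit 0x8303adc81b02925bd2)) (.lf (nat_lit 0x8008008006d9e28cf9)) (.lf (nat_lit 0x9ee6198211b89d0bb9)) (.lf (nat_lit 0x8007ff82554dd42d63))) (.lf (nat_lit 0x80a71cf04940569a64)) (.lf (nat_lit 0x80b6f2e037e5b44c01)) (.lf (nat_lit 0x80082f81f12047fa16)) (.lf (nat_lit 0x800751bee83f88bee8)) (.nd (.lf (nat_lit 0x80081086999af5faa0)) (.lf (nat_lit 0x80080185988bf99a69)) (.nd (.lf (nat_lit 0x800858842eafc0e9a1)) (.lf (nat_lit 0x80081c827b5ad57ceb)) (.lf (nat_lit 0x80085c81bf6599fa8d)) (.lf (nat_lit 0x805823826ba8c94d71))) (.lf (nat_lit 0x80080583781beb8c55))))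
  _ _ _ (by decide +kernel)

noncomputable def g2_84_12 : GD 2 84 12 := chk_sound 
  (.cell (.lf (nat_lit 0x817706b15c7580fdcd)) (.lf (nat_lit 0x80685ef607ae5b3a02)) (.lf (nat_lit 0x8007ef853610ecfbb5)) (.lf (nat_lit 0x83284e9aacc2584dae)) (.lf (nat_lit 0x8177bdb6b659906ef6)) (.nd (.lf (nat_lit 0x80f8af9b1aedf37808)) (.lf (nat_lit 0x80081882caabf2ca50)) (.nd (.nd (.lf (nat_lit 0x80083786649a0f599c)) (.lf (nat_lit 0x80a8c5932c40e9f825)) (.lf (nat_lit 0x82a918c19c1262ad1a)) (.lf (nat_lit 0x8008d2ae3d10a19cfe))) (.lf (nat_lit 0x80382f83fc74dc9b40)) (.lf (nat_lit 0x82b8b79d2d15869dd7)) (.lf (nat_lit 0x80983182bc8fc42d00))) (.lf (nat_lit 0x80080b833885eccc2d))))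
  _ _ _ (by decide +kernel)

noncomputable def g2_92_12 : GD 2 92 12 := chk_sound 
  (.cell (.nd (.lf (nat_lit 0x832275c3aab98eeaa8)) (.lf (nat_lit 0x8007f0824702e4bcd5)) (.lf (nat_lit 0x94b8008001af9cfc5f)) (.lf (nat_lit 0x8007f1839582d71d4d))) (.lf (nat_lit 0x80077ef538d0545964)) (.lf (nat_lit 0x810758ca47d0d1cbfb)) (.lf (nat_lit 0x80084982e13c4e3ae5)) (.lf (nat_lit 0x800748cb58ed8cce4f)) (.nd (.lf (nat_lit 0x824801a0aaecebea68)) (.lf (nat_lit 0x80081186c911f82a81)) (.lf (nat_lit 0x836775a22c8aba6d04)) (.lf (nat_lit 0x800808815841ea9c6b))))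
  _ _ _ (by decide +kernel)

theorem g3_88_8 : GD 3 88 8 :=
  GD.split (i := 2) g2_84_4 g2_92_4 g2_84_12 g2_92_12 (by decide)

noncomputable def g2_84_20 : GD 2 84 20 := chk_sound 
  (.cell (.lf (nat_lit 0x810740b64c7a811da5)) (.lf (nat_lit 0x8008248725e3074985)) (.lf (nat_lit 0x8008018326c1f24b5f)) (.lf (nat_lit 0x81e81587fc394cedf9)) (.lf (nat_lit 0x8087cfcda77a931e39)) (.nd (.lf (nat_lit 0x8088428994bf0bf88f)) (.lf (nat_lit 0x800811838b4bf169af)) (.lf (nat_lit 0x82f8ebab6cf280dd98)) (.lf (nat_lit 0x8007ff843927ed7bf9))))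
  _ _ _ (by decide +kernel)

noncomputable def g2_92_20 : GD 2 92 20 := chk_sound 
  (.cell (.nd (.lf (nat_lit 0x85f145b2e78ca389d0)) (.lf (nat_lit 0x8007f2840728e67cb6)) (.lf (nat_lit 0x8447c58101ed9ddcd8)) (.lf (nat_lit 0x8007e28335c6da1d39))) (.lf (nat_lit 0x81389de938833d199b)) (.lf (nat_lit 0x8008018427d1ed4c27)) (.lf (nat_lit 0x81b84f8171d853ac46)) (.lf (nat_lit 0x80077cd259568cfde6)) (.nd (.lf (nat_lit 0x80082f83ebe5eb69e9)) (.lf (nat_lit 0x8007ff8319b4f81a2b)) (.lf (nat_lit 0x81471da74e059fbc1f)) (.lf (nat_lit 0x80080781c8aaeb9c47))))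
  _ _ _ (by decide +kernel)

noncomputable def g2_84_28 : GD 2 84 28 := chk_sound 
  (.cell (.lf (nat_lit 0x80071eb53c6a846db5)) (.lf (nat_lit 0x80082284254b0c5a10)) (.lf (nat_lit 0x8008018177e0f73ae7)) (.lf (nat_lit 0x8057db816c5e582e38)) (.lf (nat_lit 0x8037ecd3d7f494ade8)) (.nd (.lf (nat_lit 0x80082c87c4d90de9b2)) (.lf (nat_lit 0x809846885ba4f01923)) (.lf (nat_lit 0x81e972aa1d057d4d74)) (.lf (nat_lit 0x8018188559abed5bcb))))
  _ _ _ (by decide +kernel)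

noncomputable def g2_92_28 : GD 2 92 28 := chk_sound 
  (.cell (.nd (.lf (nat_lit 0x871232a2a4b9b4e9ee)) (.lf (nat_lit 0x8027f784974de7cc9f)) (.lf (nat_lit 0x8007ff8142329f2d25)) (.lf (nat_lit 0x8007ff833615dced27))) (.lf (nat_lit 0x8007ff826774019915)) (.lf (nat_lit 0x8007ff82782ff01bda)) (.lf (nat_lit 0x8258008001fa597cac)) (.lf (nat_lit 0x81a7add4b9a98cbdb3)) (.nd (.lf (nat_lit 0x80084985ccd8e32960)) (.lf (nat_lit 0x800811824a32f799ce)) (.lf (nat_lit 0x8456bda4eeb2959b37)) (.lf (nat_lit 0x800800800905ec1c29))))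
  _ _ _ (by decide +kernel)

theorem g3_88_24 : GD 3 88 24 :=
  GD.split (i := 2) g2_84_20 g2_92_20 g2_84_28 g2_92_28 (by decide)

noncomputable def g2_84_36 : GD 2 84 36 := chk_sound 
  (.cell (.lf (nat_lit 0x8266a5b5ec2d882dc0)) (.lf (nat_lit 0x80080d8434e7132ad3)) (.lf (nat_lit 0x8007ff856806f4eb3d)) (.lf (nat_lit 0x8007e0811aec5cbf1c)) (.lf (nat_lit 0x80e7ead498ea942dcc)) (.nd (.lf (nat_lit 0x80482e8605620e5a8a)) (.lf (nat_lit 0x80080182ebd7efb8a9)) (.lf (nat_lit 0x83d978a08d64782d53)) (.lf (nat_lit 0x80082184da07ed1ba5))))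
  _ _ _ (by decide +kernel)

noncomputable def g2_92_36 : GD 2 92 36 := chk_sound 
  (.cell (.lf (nat_lit 0x88570086950cddbc6b)) (.lf (nat_lit 0x80588e9ad6ae0849c1)) (.lf (nat_lit 0x800800857880f23b8f)) (.lf (nat_lit 0x80081d8141fd5ffce0)) (.lf (nat_lit 0x8127c8d5b9f78b9d8e)) (.nd (.lf (nat_lit 0x804813815db1d908c5)) (.lf (nat_lit 0x80082c86ea8bf6e970)) (.lf (nat_lit 0x84e62ca0bf198ffa3b)) (.lf (nat_lit 0x80081181a947ec5c0f))))
  _ _ _ (by decide +kernel)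

noncomputable def g2_84_44 : GD 2 84 44 := chk_sound 
  (.cell (.lf (nat_lit 0x81d5c4b2cba494fdd3)) (.lf (nat_lit 0x805812827516149b37)) (.lf (nat_lit 0x8008098408cbf6dad9)) (.lf (nat_lit 0x800800800b516b4f29)) (.lf (nat_lit 0x80980fd5e94a91adaf)) (.nd (.lf (nat_lit 0x824ae1adc647237b53)) (.lf (nat_lit 0x80087b8d8be4eea83e)) (.lf (nat_lit 0x8379c494fded732cd4)) (.lf (nat_lit 0x800819856a2eed5b86))))
  _ _ _ (by decide +kernel)

noncomputable def g2_92_44 : GD 2 92 44 := chk_sound 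
  (.cell (.lf (nat_lit 0x8007df82653fe12c6a)) (.lf (nat_lit 0x80181385d699065a00)) (.lf (nat_lit 0x8007ff83e8bff41b46)) (.lf (nat_lit 0x8008318121f7660cfc)) (.lf (nat_lit 0x8137d5d5aa3e8c3d73)) (.nd (.lf (nat_lit 0x80084481919834d8dc)) (.lf (nat_lit 0x80083f8a8ac1f66911)) (.lf (nat_lit 0x82e48e9a9ede8e2929)) (.lf (nat_lit 0x8517a885b9e4ee3b8d))))
  _ _ _ (by decide +kernel)

theorem g3_88_40 : GD 3 88 40 :=
  GD.split (i := 2) g2_84_36 g2_92_36 g2_84_44 g2_92_44 (by decide)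

noncomputable def g2_84_52 : GD 2 84 52 := chk_sound 
  (.cell (.lf (nat_lit 0x83145eb369fca7dd81)) (.lf (nat_lit 0x80081982c556152b7e)) (.lf (nat_lit 0x80080185193ef7ea7c)) (.lf (nat_lit 0x8444f78e2955768f32)) (.lf (nat_lit 0x816845d449c3914da6)) (.nd (.lf (nat_lit 0x8299538fc3d1234b2e)) (.lf (nat_lit 0x80f89f91b41f120824)) (.lf (nat_lit 0x8009d58a4e8e6ecc02)) (.lf (nat_lit 0x800801851a19ee9b6c))))
  _ _ _ (by decide +kernel)

noncomputable def g2_92_52 : GD 2 92 52 := chk_sound 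
  (.cell (.lf (nat_lit 0x8007dc831561e16c79)) (.lf (nat_lit 0x80381085f6c3076a55)) (.lf (nat_lit 0x80081085c8e7f59b01)) (.lf (nat_lit 0x8368008001ed6b2d08)) (.lf (nat_lit 0x8007ddd81a408bad4c)) (.nd (.lf (nat_lit 0x80084e83415342ba23)) (.lf (nat_lit 0x80382486ea2af85996)) (.lf (nat_lit 0x8ebb708d81068fa8f9)) (.lf (nat_lit 0x8ca75a8669cfee7b71))))
  _ _ _ (by decide +kernel)

noncomputable def g2_84_60 : GD 2 84 60 := chk_sound 
  (.cell (.lf (nat_lit 0x8007ed826530e19c57)) (.lf (nat_lit 0x80381d84457814fb90)) (.lf (nat_lit 0x80080e865971f8da2b)) (.lf (nat_lit 0x83e61a84d325886e08)) (.lf (nat_lit 0x81684ed34a2c8e5d98)) (.nd (.lf (nat_lit 0x80c83882e22d3beb70)) (.lf (nat_lit 0x80b87a8e642311787c)) (.lf (nat_lit 0x8f12b697cd9790e8b9)) (.lf (nat_lit 0x88078188ba3af0baef))))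
  _ _ _ (by decide +kernel)

noncomputable def g2_92_60 : GD 2 92 60 := chk_sound 
  (.cell (.lf (nat_lit 0x8007e383858de1ac8c)) (.lf (nat_lit 0x80081b8556470e5b39)) (.lf (nat_lit 0x80080681d8f8f73abd)) (.lf (nat_lit 0x81182e8081e46f1d0c)) (.lf (nat_lit 0x80c7ded7fa77895d3b)) (.lf (nat_lit 0x83b799ba4cefb8bbb0)))
  _ _ _ (by decide +kernel)

theorem g3_88_56 : GD 3 88 56 :=
  GD.split (i := 2) g2_84_52 g2_92_52 g2_84_60 g2_92_60 (by decide)

noncomputable def g2_84_68 : GD 2 84 68 := chk_sound 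
  (.cell (.lf (nat_lit 0x812800800573e13c88)) (.lf (nat_lit 0x80080984659414dba0)) (.lf (nat_lit 0x80080184f97af9f9e5)) (.lf (nat_lit 0x82d8008002717a7dbd)) (.lf (nat_lit 0x81f84ed15a9c8afd8c)) (.nd (.lf (nat_lit 0x8008008001dd4ccc01)) (.lf (nat_lit 0x8058608aa42f10f8c9)) (.lf (nat_lit 0x83a7f392104c8959b7)) (.lf (nat_lit 0x95a8538429a2f20aeb))))
  _ _ _ (by decide +kernel)

noncomputable def g2_92_68 : GD 2 92 68 := chk_sound 
  (.cell (.lf (nat_lit 0x8008008005c3e1aca9)) (.lf (nat_lit 0x80080b84c67d0f6b78)) (.lf (nat_lit 0x8007ff83f8f2f8aa7b)) (.lf (nat_lit 0x80083f8021e071bd0f)) (.nd (.lf (nat_lit 0x8018148125e85f2f71)) (.lf (nat_lit 0x8186bae9e94b6acbe4)) (.lf (nat_lit 0x81680080051e9c1f40)) (.lf (nat_lit 0x8007ec947858db4d73))) (.lf (nat_lit 0x88e813c65cbfababcb)))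
  _ _ _ (by decide +kernel)

noncomputable def g2_84_76 : GD 2 84 76 := chk_sound 
  (.cell (.lf (nat_lit 0x8007e68325a5e10ca6)) (.lf (nat_lit 0x8008198195111c9c16)) (.lf (nat_lit 0x8007ff820967fb29a8)) (.lf (nat_lit 0x80081980523e7dbd8c)) (.nd (.lf (nat_lit 0x809800800722615fb7)) (.lf (nat_lit 0x815727e7993a6e6c52)) (.lf (nat_lit 0x8007f1823641acdf49)) (.lf (nat_lit 0x8107e790b853e2fcf4))) (.lf (nat_lit 0xa6f763bf8cf1ab2b33)))
  _ _ _ (by decide +kernel)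

noncomputable def g2_92_76 : GD 2 92 76 := chk_sound 
  (.cell (.lf (nat_lit 0x8007f38235fae17cc5)) (.lf (nat_lit 0x80180c8516a20fcb93)) (.lf (nat_lit 0x8008008588d9fa0a3b)) (.lf (nat_lit 0x8188448081e1733d14)) (.nd (.lf (nat_lit 0x80080081372e608fb5)) (.lf (nat_lit 0x81a6e5e5999f5dbbe7)) (.lf (nat_lit 0x8007ff8136349fff89)) (.lf (nat_lit 0x8007ca9ed861d5dd98))) (.lf (nat_lit 0x814804cd7cbca52b92)))
  _ _ _ (by decide +kernel)

theorem g3_88_72 : GD 3 88 72 :=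
  GD.split (i := 2) g2_84_68 g2_92_68 g2_84_76 g2_92_76 (by decide)

noncomputable def g2_84_84 : GD 2 84 84 := chk_sound 
  (.cell (.lf (nat_lit 0x8007f18195cfe13cb7)) (.lf (nat_lit 0x8008168155261cbc28)) (.lf (nat_lit 0x800811882941fbf974)) (.lf (nat_lit 0x80082a8042247efd71)) (.nd (.lf (nat_lit 0x8007fb81184f604fbe)) (.lf (nat_lit 0x81073be3e97b622c54)) (.lf (nat_lit 0x8047e086372fafef5c)) (.lf (nat_lit 0x8007b0a31881d8bd4d))) (.lf (nat_lit 0xa5e745c66cd3a8faf2)))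
  _ _ _ (by decide +kernel)

noncomputable def g2_92_84 : GD 2 92 84 := chk_sound 
  (.cell (.lf (nat_lit 0x8007ff831634e18cdb)) (.lf (nat_lit 0x8008018526c1100ba6)) (.lf (nat_lit 0x8008018788b3fb39fe)) (.lf (nat_lit 0x8198008001e473dd1a)) (.nd (.lf (nat_lit 0x8007ff82178c5adfa3)) (.lf (nat_lit 0x80f6fbdfb9da51ebee)) (.lf (nat_lit 0x8007f480b772a13fb4)) (.lf (nat_lit 0x800785a9b8c0d19d83))) (.lf (nat_lit 0xa1e7d5d3abe5ac3b10)))
  _ _ _ (by decide +kernel)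

noncomputable def g2_84_92 : GD 2 84 92 := chk_sound 
  (.cell (.lf (nat_lit 0x8007f18185fbe16cc7)) (.lf (nat_lit 0x8007ff82153a1cec3a)) (.lf (nat_lit 0x800809860912fd0946)) (.lf (nat_lit 0x80080f8022177efd63)) (.nd (.lf (nat_lit 0x8057ec9728a157df6e)) (.lf (nat_lit 0x80075ad889d84d8c6d)) (.lf (nat_lit 0x8007a1980843afef40)) (.lf (nat_lit 0x80077ab83933c9dd5a))) (.lf (nat_lit 0xa4f7dacfbcb2a1bab4)))
  _ _ _ (by decide +kernel)

noncomputable def g2_92_92 : GD 2 92 92 := chk_sound 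
  (.cell (.lf (nat_lit 0x8007ef81e59ed7ed4d)) (.lf (nat_lit 0x8008098506df105bb9)) (.lf (nat_lit 0x805800800886fc89c5)) (.lf (nat_lit 0x83b8008001eb73ed22)) (.nd (.lf (nat_lit 0x8007e795a7d9568f71)) (.lf (nat_lit 0x800721cbc9d9310b9b)) (.lf (nat_lit 0x8007749b77c2a1ef7f)) (.lf (nat_lit 0x80b740bd6921c35d73))) (.lf (nat_lit 0x9ec76dd35c00b06ac5)))
  _ _ _ (by decide +kernel)

theorem g3_88_88 : GD 3 88 88 :=
  GD.split (i := 2) g2_84_84 g2_92_84 g2_84_92 g2_92_92 (by decide)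

noncomputable def g2_84_100 : GD 2 84 100 := chk_sound 
  (.cell (.lf (nat_lit 0x8007f8833628e18cd6)) (.lf (nat_lit 0x80081b82c54e1d2c4c)) (.lf (nat_lit 0x8028088518defdd91f)) (.lf (nat_lit 0x82b8008002127e4d5d)) (.nd (.lf (nat_lit 0x80b7f09e48dc503f1f)) (.lf (nat_lit 0x80b7afbf096924ebbc)) (.lf (nat_lit 0x800785a7794ca81f0d)) (.lf (nat_lit 0x81173ecae97eb5fd48))) (.lf (nat_lit 0x8cd74fd14d25a33a65)))
  _ _ _ (by decide +kernel)

noncomputable def g2_92_100 : GD 2 92 100 := chk_sound 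
  (.cell (.lf (nat_lit 0x80080180d5d1d80d61)) (.lf (nat_lit 0x8008018356fb10bbce)) (.lf (nat_lit 0x80080186e857fd2994)) (.lf (nat_lit 0x8008018041ef73ad27)) (.nd (.lf (nat_lit 0x8007f1817936525f5f)) (.lf (nat_lit 0x80a7a6a589b2121ae0)) (.lf (nat_lit 0x806774a188fc9a0f76)) (.lf (nat_lit 0x812703d0098fae9d35))) (.lf (nat_lit 0x97e784d4ac34ab2aee)))
  _ _ _ (by decide +kernel)

noncomputable def g2_84_108 : GD 2 84 108 := chk_sound 
  (.cell (.lf (nat_lit 0x8007e583059ad89d3f)) (.lf (nat_lit 0x8028188365601d7c5e)) (.lf (nat_lit 0x8008048908a9fe38ff)) (.lf (nat_lit 0x83880080020f7d3d59)) (.nd (.lf (nat_lit 0x8117f188d9f7462ed6)) (.lf (nat_lit 0x8007e6a3a943137b5f)) (.lf (nat_lit 0x81b780b29a23945ee5)) (.lf (nat_lit 0x80c723d5b9c9a0dd36))) (.lf (nat_lit 0x808683cf6cd8abfa7a)))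
  _ _ _ (by decide +kernel)

noncomputable def g2_92_108 : GD 2 92 108 := chk_sound .out
  _ _ _ (by decide +kernel)

theorem g3_88_104 : GD 3 88 104 :=
  GD.split (i := 2) g2_84_100 g2_92_100 g2_84_108 g2_92_108 (by decide)

noncomputable def g3_104_m104 : GD 3 104 (-104) := chk_sound (.nd .out .out 
  (.cell (.lf (nat_lit 0x80081a832b64dc1c65)) (.lf (nat_lit 0x8027eb827b08278cea)) (.nd (.lf (nat_lit 0x8008088157bd195cc3)) (.lf (nat_lit 0x8067cb88796d45bef4)) (.lf (nat_lit 0x812745e186999d4c95)) (.lf (nat_lit 0x8077e594077ba2cf94))) (.lf (nat_lit 0xbcc812c3d428548b13)) (.lf (nat_lit 0x83c800800dba7ded94)) (.lf (nat_lit 0x80080184a68b041951))) .out)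
  _ _ _ (by decide +kernel)

noncomputable def g2_100_m92 : GD 2 100 (-92) := chk_sound 
  (.cell (.lf (nat_lit 0x80080a846a2aea8bdc)) (.lf (nat_lit 0x805800800a011eacc9)) (.nd (.lf (nat_lit 0x8007de90c76f1b2cc6)) (.lf (nat_lit 0x8117b794377c4a0f1e)) (.lf (nat_lit 0x80f710e46679a0ec26)) (.lf (nat_lit 0x8007bca4e65fa28f29))) (.lf (nat_lit 0x800790d0b2b9620aa5)) (.lf (nat_lit 0x800824807df387fd52)) (.lf (nat_lit 0x8008178756fe04d9db)))
  _ _ _ (by decide +kernel)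

noncomputable def g2_108_m92 : GD 2 108 (-92) := chk_sound .out
  _ _ _ (by decide +kernel)

noncomputable def g2_100_m84 : GD 2 100 (-84) := chk_sound 
  (.cell (.lf (nat_lit 0x802800800834f54b32)) (.lf (nat_lit 0x8007ef8349811eacf6)) (.nd (.lf (nat_lit 0x810791a51774259d1d)) (.lf (nat_lit 0x8007859fb7114e6f06)) (.lf (nat_lit 0x8056e9e63661a7cba1)) (.lf (nat_lit 0x80f792b03606a61eb8))) (.lf (nat_lit 0x9437a1d813cf5b2b02)) (.lf (nat_lit 0x825800800e19910d10)) (.lf (nat_lit 0x80080b85f77205da47)))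
  _ _ _ (by decide +kernel)

noncomputable def g2_108_m84 : GD 2 108 (-84) := chk_sound 
  (.cell (.lf (nat_lit 0x800801833950f0fb84)) (.lf (nat_lit 0x8008008009d11eacdc)) (.nd (.lf (nat_lit 0x8007ff806768183ca3)) (.lf (nat_lit 0x8007a1974766413ec7)) (.lf (nat_lit 0x8126d2f176cd907b22)) (.lf (nat_lit 0x81075ebff5958c1e6b))) (.lf (nat_lit 0x8496f2d1f35a55ead4)) (.lf (nat_lit 0x800840812e058fcd2b)) (.lf (nat_lit 0x80080583573006ba66)))
  _ _ _ (by decide +kernel)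

theorem g3_104_m88 : GD 3 104 (-88) :=
  GD.split (i := 2) g2_100_m92 g2_108_m92 g2_100_m84 g2_108_m84 (by decide)

noncomputable def g2_100_m76 : GD 2 100 (-76) := chk_sound 
  (.cell (.lf (nat_lit 0x8007fa83b7b1f15bb2)) (.lf (nat_lit 0x8007f482f9bd28dd96)) (.nd (.lf (nat_lit 0x811711bbc731398d65)) (.lf (nat_lit 0x81476aa0674451af1d)) (.lf (nat_lit 0x8006bbe0c644c0ba8a)) (.lf (nat_lit 0x80476ab125b0a9ae7d))) (.lf (nat_lit 0x81e70be4048353da0a)) (.lf (nat_lit 0x824800800e3b993cc2)) (.lf (nat_lit 0x8008018858240389c4)))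
  _ _ _ (by decide +kernel)

noncomputable def g2_108_m76 : GD 2 108 (-76) := chk_sound 
  (.cell (.lf (nat_lit 0x8008018467fdf39b6c)) (.lf (nat_lit 0x8007f8824a2f28cd6d)) (.nd (.lf (nat_lit 0x80080b836786194cbd)) (.lf (nat_lit 0x80d79f95378244def0)) (.lf (nat_lit 0x81468bf276e7aa6994)) (.lf (nat_lit 0x81e727c875ab879e17))) (.lf (nat_lit 0x822721dc341351ca80)) (.lf (nat_lit 0x800812810e30975cda)) (.lf (nat_lit 0x80080080073b0379a9)))
  _ _ _ (by decide +kernel)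

noncomputable def g2_100_m68 : GD 2 100 (-68) := chk_sound 
  (.cell (.lf (nat_lit 0x8037ed843659ecbbe0)) (.lf (nat_lit 0x80080181e8d1292dd0)) (.nd (.lf (nat_lit 0x818628e0574e58ac38)) (.lf (nat_lit 0x800788979739541f4f)) (.lf (nat_lit 0x8057d5870545f6693d)) (.lf (nat_lit 0x80c76dabe5cdb1ee72))) (.nd (.lf (nat_lit 0x8389d792663b207c84)) (.lf (nat_lit 0x81d800800f4093fb22)) (.lf (nat_lit 0x80080186673001489b)) (.lf (nat_lit 0x80b857825e94aadba9))) (.lf (nat_lit 0x825800800e62a03c60)) (.lf (nat_lit 0x8007eb84b964025874)))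
  _ _ _ (by decide +kernel)

noncomputable def g2_108_m68 : GD 2 108 (-68) := chk_sound 
  (.cell (.lf (nat_lit 0x80080080069af06b8f)) (.lf (nat_lit 0x8007ed825968290db1)) (.nd (.lf (nat_lit 0x8007bf8f77df1d3cfb)) (.lf (nat_lit 0x80f7c58c977b46df17)) (.lf (nat_lit 0x8146c8ce7628dd091f)) (.lf (nat_lit 0x8006e6c955bf897e07))) (.lf (nat_lit 0x8326fde7b51f4e39b8)) (.lf (nat_lit 0x80082d817e579dfc7f)) (.lf (nat_lit 0x8017f789c8a002392a)))
  _ _ _ (by decide +kernel)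

theorem g3_104_m72 : GD 3 104 (-72) :=
  GD.split (i := 2) g2_100_m76 g2_108_m76 g2_100_m68 g2_108_m68 (by decide)

noncomputable def g2_100_m60 : GD 2 100 (-60) := chk_sound 
  (.cell (.lf (nat_lit 0x8007ec8476e4e92c6a)) (.lf (nat_lit 0x8007ff8207cd296de2)) (.nd (.lf (nat_lit 0x81d595f3a75e7c7a56)) (.lf (nat_lit 0x80e7aa902723574f75)) (.lf (nat_lit 0x8007de85c516f5892c)) (.lf (nat_lit 0x81178c9eb5beba7e74))) (.nd (.lf (nat_lit 0x80081881a5581d5c57)) (.lf (nat_lit 0x80a836810f5d9d3a85)) (.lf (nat_lit 0x8037ee8c689c011826)) (.lf (nat_lit 0x80384381febeacab43))) (.lf (nat_lit 0x82a800800e99a55bde)) (.lf (nat_lit 0x80f708b949da129802)))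
  _ _ _ (by decide +kernel)

noncomputable def g2_108_m60 : GD 2 108 (-60) := chk_sound 
  (.cell (.lf (nat_lit 0x8007e784565eed6bce)) (.lf (nat_lit 0x8007fa812877295ddd)) (.nd (.lf (nat_lit 0x8005e8e8178a5fdb9c)) (.lf (nat_lit 0x8187cd8af711490f20)) (.lf (nat_lit 0x8006b2c6e5dde178fd)) (.lf (nat_lit 0x8056bec665e18a5e2d))) (.nd (.lf (nat_lit 0x8496c5a424ab2bec4e)) (.lf (nat_lit 0x800842812f56988ac7)) (.lf (nat_lit 0x80080c8a375f0158ab)) (.lf (nat_lit 0x80085081eeb0abdb69))) (.lf (nat_lit 0x80784d816e83a33c14)) (.lf (nat_lit 0x814610f3885b534868)))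
  _ _ _ (by decide +kernel)

noncomputable def g2_100_m52 : GD 2 100 (-52) := chk_sound 
  (.cell (.lf (nat_lit 0x800801820676e26ce0)) (.lf (nat_lit 0x80280a8276e9292dc5)) (.nd (.lf (nat_lit 0x800576f3e7458b3a03)) (.lf (nat_lit 0x80077898b6e868ff9e)) (.lf (nat_lit 0x8007e186050bf5890e)) (.lf (nat_lit 0x8047ea82659bc12e74))) (.nd (.lf (nat_lit 0x80081d83a5c017ac09)) (.lf (nat_lit 0x818873824f76a429b8)) (.lf (nat_lit 0x8008018156b9fe4833)) (.lf (nat_lit 0x80082481aefeac6ab5))) (.lf (nat_lit 0x827ca4a19cc7873bdf)) (.lf (nat_lit 0x8005e5eec688b0c868)))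
  _ _ _ (by decide +kernel)

noncomputable def g2_108_m52 : GD 2 108 (-52) := chk_sound 
  (.cell (.lf (nat_lit 0x8007e681c617e92c23)) (.lf (nat_lit 0x80080182478e298de0)) (.nd (.lf (nat_lit 0x8005abf44740885a36)) (.lf (nat_lit 0x80a7a29255cf8a7f92)) (.lf (nat_lit 0x8027bd8b7564f7e8a7)) (.lf (nat_lit 0x80f6bdc036098d7e75))) (.nd (.lf (nat_lit 0x84975e91e5751a5bec)) (.lf (nat_lit 0x80080180df769f5a1d)) (.lf (nat_lit 0x8007f799e82e02c826)) (.lf (nat_lit 0x813858827eddacbafc))) (.lf (nat_lit 0x829c7c99fc30759cd2)) (.lf (nat_lit 0x81760ff7b7429e9830)))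
  _ _ _ (by decide +kernel)

theorem g3_104_m56 : GD 3 104 (-56) :=
  GD.split (i := 2) g2_100_m60 g2_108_m60 g2_100_m52 g2_108_m52 (by decide)

noncomputable def g2_100_m44 : GD 2 100 (-44) := chk_sound 
  (.cell (.lf (nat_lit 0x8007ef82f6e6db9d79)) (.lf (nat_lit 0x8008128306ed27bdaf)) (.nd (.lf (nat_lit 0x800566f4f7808689d8)) (.lf (nat_lit 0x8007639ca6ce82ffad)) (.lf (nat_lit 0x8057e484752cf68900)) (.lf (nat_lit 0x80080181067bc6be7e))) (.nd (.lf (nat_lit 0x80081b84a6390ceafd)) (.lf (nat_lit 0x80d8b2838f7fa8e8d5)) (.nd (.lf (nat_lit 0x800753c7c706e84802)) (.lf (nat_lit 0x800877834f5eab5972)) (.lf (nat_lit 0x80080183f70bfdc918)) (.lf (nat_lit 0x80685a828f07af5a62))) (.lf (nat_lit 0x800840807f48aa19fd))) (.lf (nat_lit 0x88fc138418787e6ed7)) (.lf (nat_lit 0x8175d6f14675a9486a)))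
  _ _ _ (by decide +kernel)

noncomputable def g2_108_m44 : GD 2 108 (-44) := chk_sound 
  (.cell (.lf (nat_lit 0x800800800689e17cf9)) (.lf (nat_lit 0x8008008006d0293dc1)) (.nd (.lf (nat_lit 0x81f57df6377b88399a)) (.lf (nat_lit 0x8006f2b3466d87ff10)) (.lf (nat_lit 0x8027ce89952cf668e7)) (.lf (nat_lit 0x8076feb235b19e0ea7))) (.nd (.lf (nat_lit 0x8008008004aa17bb36)) (.lf (nat_lit 0x84b800800f8da42952)) (.nd (.lf (nat_lit 0x8038118db778013853)) (.lf (nat_lit 0x800845823f53ab69b1)) (.lf (nat_lit 0x80081d86799cfbb931)) (.lf (nat_lit 0x80084b815eceb40aa5))) (.lf (nat_lit 0x80083e81ff1cab8a70))) (.lf (nat_lit 0x840c5e8849fc78fe5c)) (.lf (nat_lit 0x84d758b5b5c3ede81c)))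
  _ _ _ (by decide +kernel)

noncomputable def g2_100_m36 : GD 2 100 (-36) := chk_sound 
  (.cell (.lf (nat_lit 0x8008018287ffd62dea)) (.lf (nat_lit 0x8008018368b2220d61)) (.nd (.lf (nat_lit 0x80c583f5e77e88c9b8)) (.lf (nat_lit 0x80a73ea3d75c816f9d)) (.lf (nat_lit 0x8007ce872554f5e984)) (.lf (nat_lit 0x8027f1829678c8ae67))) (.lf (nat_lit 0x84e8a988af45b258a0)) (.lf (nat_lit 0x8524979476ed97cee0)) (.nd (.lf (nat_lit 0x8087c48cfa5206b89b)) (.lf (nat_lit 0x8007b28dca9b08185c)) (.lf (nat_lit 0x8037e8870629fc3855)) (.lf (nat_lit 0x8007759b359cf6b827))))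
  _ _ _ (by decide +kernel)

noncomputable def g2_108_m36 : GD 2 108 (-36) := chk_sound 
  (.cell (.lf (nat_lit 0x8007f483470cdc5d74)) (.lf (nat_lit 0x8008008006f8274dab)) (.nd (.lf (nat_lit 0x818580f7f7b9864921)) (.nd (.lf (nat_lit 0x8007fd81a80e307e43)) (.lf (nat_lit 0x80080681c77e3fdee6)) (.nd (.lf (nat_lit 0x8007f380788d357e7a)) (.lf (nat_lit 0x8007ff8177cc486f33)) (.nd (.lf (nat_lit 0x819652d2378470bdcc)) (.lf (nat_lit 0x800800800740688fd4)) (.lf (nat_lit 0x809646d43702877dab)) (.lf (nat_lit 0x8007e981d604b35f0d))) (.lf (nat_lit 0x8007f680269a91cfcc))) (.lf (nat_lit 0x80080980c72675efed))) (.lf (nat_lit 0x8007d4865550f798d5)) (.lf (nat_lit 0x8007f181e5c8c78e40))) (.lf (nat_lit 0x87cf42a959c87478d4)) (.lf (nat_lit 0x82b4b6988894927f02)) (.nd (.lf (nat_lit 0x8007ff83da0f064952)) (.lf (nat_lit 0x8057ca8a8a540708ed)) (.nd (.lf (nat_lit 0x829762cdc646e13842)) (.lf (nat_lit 0x8007d58795d3fac850))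 (.lf (nat_lit 0x80080184876af40b50)) (.lf (nat_lit 0x800801828645ecebd3))) (.lf (nat_lit 0x80c74ba25599f4980c))))
  _ _ _ (by decide +kernel)

theorem g3_104_m40 : GD 3 104 (-40) :=
  GD.split (i := 2) g2_100_m44 g2_108_m44 g2_100_m36 g2_108_m36 (by decide)

noncomputable def g2_100_m28 : GD 2 100 (-28) := chk_sound 
  (.cell (.lf (nat_lit 0x80280080080dd46e03)) (.lf (nat_lit 0x8007e783f9cc189c58)) (.nd (.lf (nat_lit 0x800578f527559de83e)) (.nd (.lf (nat_lit 0x80966acc58616c9e17)) (.lf (nat_lit 0x80080981d76f471f24)) (.nd (.nd (.lf (nat_lit 0x800673cd782870ae19)) (.lf (nat_lit 0x80879593585f662fb8)) (.lf (nat_lit 0x80065ad447b2862dc5)) (.lf (nat_lit 0x8007ff81d6aaaa2f6f))) (.lf (nat_lit 0x80080c8067557daff8)) (.lf (nat_lit 0x809729aaf63bb36e87)) (.lf (nat_lit 0x8007f080b668b9fef3))) (.lf (nat_lit 0x80a8008006b9913fd2))) (.lf (nat_lit 0x8007ff8325a2ec0b92)) (.lf (nat_lit 0x8007f882d667caee49)))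 (.lf (nat_lit 0x816a148c20ca559815)) (.lf (nat_lit 0x800605b125bc7a3ebc)) (.nd (.lf (nat_lit 0x8077cd8c5a14056881)) (.lf (nat_lit 0x8087ab8f7a8407b82b)) (.nd (.lf (nat_lit 0x8077cf903686fc7877)) (.lf (nat_lit 0x8077dd8ae66bfc9898)) (.lf (nat_lit 0x80080882c88ae9dc76)) (.lf (nat_lit 0x8007ea8276a4e9ac4d))) (.lf (nat_lit 0x8057bb8ec5c6f9b879))))
  _ _ _ (by decide +kernel)

noncomputable def g2_108_m28 : GD 2 108 (-28) := chk_sound 
  (.cell (.lf (nat_lit 0x8007ff81d840d72dda)) (.lf (nat_lit 0x800800830820229d76)) (.nd (.lf (nat_lit 0x8057af8f6a80079817)) (.nd (.lf (nat_lit 0x8007f581985a2e7e27)) (.lf (nat_lit 0x80080a8287aa3dfed7)) (.nd (.lf (nat_lit 0x80062bdca80b72fd25)) (.lf (nat_lit 0x8007fb81481e49bf3e)) (.lf (nat_lit 0x800609e3b7a082ec99)) (.lf (nat_lit 0x8007f68136a3a5af85))) (.lf (nat_lit 0x80080a809733799ff3))) (.lf (nat_lit 0x8007f884257df82918)) (.lf (nat_lit 0x8007ff82266ecbae42)))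 (.lf (nat_lit 0x81788782ff92a7c85f)) (.lf (nat_lit 0x9e0550af673c8e5e90)) (.nd (.lf (nat_lit 0x8007e286aa1d05e904)) (.lf (nat_lit 0x8067d487ea6a06a88b)) (.nd (.lf (nat_lit 0x8047be949683fbe843)) (.lf (nat_lit 0x8097b195d632fa983a)) (.lf (nat_lit 0x8007ff84d893ef0bed)) (.lf (nat_lit 0x8008018366caeacc3c))) (.lf (nat_lit 0x8007f38455b4fa782c))))
  _ _ _ (by decide +kernel)

noncomputable def g2_100_m20 : GD 2 100 (-20) := chk_sound 
  (.cell (.lf (nat_lit 0x9bb6248197b2d4ad6d)) (.lf (nat_lit 0x8007ed85ca450edaf0)) (.nd (.lf (nat_lit 0x8005d2f977dc890922)) (.nd (.lf (nat_lit 0x800627e2188b6e7ca3)) (.lf (nat_lit 0x80080580f7ee47df2f)) (.lf (nat_lit 0x816611e8e81182ac28)) (.lf (nat_lit 0x8027ee81b6dda1efa1))) (.lf (nat_lit 0x8007ea82b654e12ced)) (.lf (nat_lit 0x80080180267bce2e26))) (.lf (nat_lit 0x8008c284709952d8b9)) (.lf (nat_lit 0x81b674b5b5d1837ebf)) (.nd (.nd (.lf (nat_lit 0x80082883830522ca42))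 (.lf (nat_lit 0x80080185488d0d4b7b)) (.lf (nat_lit 0x8007e488893002d903)) (.lf (nat_lit 0x8077d989c9f9048846))) (.lf (nat_lit 0x8007c28c15b7f9f81b)) (.nd (.nd (.lf (nat_lit 0x80f88a840f3cb438c8)) (.lf (nat_lit 0x8007ec8b7735fe7898)) (.lf (nat_lit 0x80b84c822f5cac1972)) (.lf (nat_lit 0x8008018347aefaea32))) (.nd (.lf (nat_lit 0x8047e28bd69cfd288b)) (.lf (nat_lit 0x800801835650fcc883)) (.lf (nat_lit 0x800801822792f6caf1)) (.lf (nat_lit 0x8007ea833691f06b8a))) (.lf (nat_lit 0x800814818b30d3ed21)) (.lf (nat_lit 0x800801833723e79c9d))) (.lf (nat_lit 0x8007cf89a5e8faa8a7))))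
  _ _ _ (by decide +kernel)

noncomputable def g2_108_m20 : GD 2 108 (-20) := chk_sound 
  (.cell (.lf (nat_lit 0x80080c81587ed4fdf6)) (.lf (nat_lit 0x8008018338c11e3d19)) (.nd (.lf (nat_lit 0x80073aa6da480c682e)) (.nd (.lf (nat_lit 0x80f80080091f2bbde9)) (.lf (nat_lit 0x8007fd8188033beec5)) (.nd (.lf (nat_lit 0x80b5faea681e775beb)) (.lf (nat_lit 0x80a740a578b16a3f75)) (.lf (nat_lit 0x80c5d0f4f80e7b2a61)) (.lf (nat_lit 0x8037b88f9698b58f0e))) (.lf (nat_lit 0x80c800800767820ff9))) (.lf (nat_lit 0x8037e68605b2f49a54)) (.lf (nat_lit 0x8008008006b5ce6e30))) (.lf (nat_lit 0x82892486207f587837)) (.lf (nat_lit 0x80065fba56837f8ec5)) (.nd (.lf (nat_lit 0x8007ad96f9b205483a)) (.lf (nat_lit 0x8097b090aa4906b83a)) (.nd (.lf (nat_lit 0x8017ef8cd771fea899)) (.lf (nat_lit 0x82c75f9f5696f96864)) (.lf (nat_lit 0x800811829b39dc2c84)) (.lf (nat_lit 0x8007f380d748e89c8d))) (.lf (nat_lit 0x8097b99025ddfa2827))))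
  _ _ _ (by decide +kernel)

theorem g3_104_m24 : GD 3 104 (-24) :=
  GD.split (i := 2) g2_100_m28 g2_108_m28 g2_100_m20 g2_108_m20 (by decide)

noncomputable def g1_98_m14 : GD 1 98 (-14) := chk_sound 
  (.cell (.lf (nat_lit 0xa5b944824667d41d29)) (.lf (nat_lit 0x8007e2851a3f0aaa3b)) (.lf (nat_lit 0x800612f4e7689a09f9)) (.lf (nat_lit 0x80086282c0b94ff956)) (.lf (nat_lit 0x816657b1f4d68dee62)) (.nd (.lf (nat_lit 0x8007dc8d46b1fd289b)) (.lf (nat_lit 0x8057d38a0605fb6860)) (.nd (.lf (nat_lit 0x80f800800ee3b14aa7)) (.lf (nat_lit 0x8007f481c775fb7a07)) (.lf (nat_lit 0x87f78884cf2f9ecad9)) (.lf (nat_lit 0x8007f78267a7e56cdd))) (.lf (nat_lit 0x8007ff84d6b5f66abb))))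
  _ _ _ (by decide +kernel)

noncomputable def g1_102_m14 : GD 1 102 (-14) := chk_sound 
  (.cell (.lf (nat_lit 0x8007f182c6dfd58dd7)) (.lf (nat_lit 0x8007f684d9e712cbb1)) (.lf (nat_lit 0x800615f6b7b692b9f5)) (.lf (nat_lit 0x80084781209353e90e)) (.lf (nat_lit 0x81b627b5a5178efe53)) (.nd (.lf (nat_lit 0x8037bd959675fb9834)) (.lf (nat_lit 0x8007c28c5a5c06883d)) (.nd (.lf (nat_lit 0x80083e811f32abca27)) (.lf (nat_lit 0x8007e989c70afce951)) (.lf (nat_lit 0x838800800f6b9f0a43)) (.lf (nat_lit 0x800801822790e62ccc))) (.lf (nat_lit 0x8007e0872652f9d9b8))))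
  _ _ _ (by decide +kernel)

noncomputable def g1_98_m10 : GD 1 98 (-10) := chk_sound 
  (.cell (.lf (nat_lit 0x9bea1f8345eed34d01)) (.lf (nat_lit 0x8007e484da2707f9b4)) (.lf (nat_lit 0x80064cf367ada10a2b)) (.lf (nat_lit 0x80085b8170ca4fd9a8)) (.lf (nat_lit 0x81a6f1b2362a88cf06)) (.nd (.lf (nat_lit 0x8007ea8b46fafd98e7)) (.lf (nat_lit 0x8047d68c766bfc7891)) (.nd (.lf (nat_lit 0x81386b833f44b09950)) (.nd (.lf (nat_lit 0x800809850845f9ea66)) (.lf (nat_lit 0x8007f982378ef9fa60)) (.lf (nat_lit 0x800811813a57dc2d08)) (.lf (nat_lit 0x8007fb80e78ded1c28))) (.lf (nat_lit 0x81b800800f829cca15)) (.lf (nat_lit 0x8007ff814814e3bd03))) (.lf (nat_lit 0x800801833730f32b63))))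
  _ _ _ (by decide +kernel)

noncomputable def g1_102_m10 : GD 1 102 (-10) := chk_sound 
  (.cell (.lf (nat_lit 0x8007ef82767ad5ddbb)) (.lf (nat_lit 0x8007ff8349ed0fab4c)) (.lf (nat_lit 0x81361cf6e78f96a9bc)) (.lf (nat_lit 0x80086082c0a153e95b)) (.lf (nat_lit 0x8106c4b3c65a90aef1)) (.nd (.lf (nat_lit 0x8047eb87069cfda867)) (.lf (nat_lit 0x8007859ada2407f823)) (.nd (.lf (nat_lit 0x816893839f75ab18d7)) (.nd (.lf (nat_lit 0x8007ee85f735fe0913)) (.lf (nat_lit 0x8007e689f705fd392c)) (.lf (nat_lit 0x80080182b95de6bc92)) (.lf (nat_lit 0x80080184273deeabf0))) (.lf (nat_lit 0x80283a812f969ba9d5)) (.lf (nat_lit 0x8007fd8397e4e4cced))) (.lf (nat_lit 0x80080182d68cf9aa01))))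
  _ _ _ (by decide +kernel)

theorem g2_100_m12 : GD 2 100 (-12) :=
  GD.split (i := 1) g1_98_m14 g1_102_m14 g1_98_m10 g1_102_m10 (by decide)

noncomputable def g2_108_m12 : GD 2 108 (-12) := chk_sound 
  (.cell (.lf (nat_lit 0x80080182d7e0d55df5)) (.lf (nat_lit 0x80b80080096f17fc6d)) (.nd (.lf (nat_lit 0x80678797ba62087817)) (.nd (.lf (nat_lit 0x8007f0847a4d0feb14)) (.lf (nat_lit 0x800801818877394ea6)) (.nd (.lf (nat_lit 0x8005ddec79334de97c)) (.lf (nat_lit 0x811683d208627c7df1)) (.lf (nat_lit 0x80d5edf18748a459ec)) (.lf (nat_lit 0x8086f8b84738b64e33))) (.lf (nat_lit 0x80380080079f8fbfee))) (.lf (nat_lit 0x80080181c60eefdb5d)) (.lf (nat_lit 0x80080181d6d8d0ee17))) (.lf (nat_lit 0x81a89083007957d8c8)) (.lf (nat_lit 0x815666bf061f8b0e79)) (.nd (.lf (nat_lit 0x80b75cb2d68ff2b807)) (.lf (nat_lit 0x8007bc8e9a4f068837)) (.nd (.lf (nat_lit 0x800856848d80d92993)) (.nd (.lf (nat_lit 0x80080182d69ffdd86c))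 (.lf (nat_lit 0x8007d68b7647fc3870)) (.lf (nat_lit 0x800800846845f15bb2)) (.lf (nat_lit 0x8007f98406ddf09b9f))) (.lf (nat_lit 0x80086d814f6fa15a0b)) (.lf (nat_lit 0x80080183d7c5e62ccf))) (.lf (nat_lit 0x8037c78c25f3fae85e))))
  _ _ _ (by decide +kernel)

noncomputable def g2_100_m4 : GD 2 100 (-4) := chk_sound 
  (.cell (.lf (nat_lit 0x9719e78445bdd3bd12)) (.lf (nat_lit 0x8007db87a9f2060955)) (.nd (.lf (nat_lit 0x80e8008005e3fb5848)) (.nd (.lf (nat_lit 0x8007ea810a6c06e8de)) (.lf (nat_lit 0x8006edc2e93b769e98)) (.lf (nat_lit 0x8135e5f5f7c59629cc)) (.lf (nat_lit 0x8017ef844760c68ea4))) (.lf (nat_lit 0x800801826707e24d07)) (.lf (nat_lit 0x8008018296dad56dd8))) (.lf (nat_lit 0x81087082a0cd5289f4)) (.lf (nat_lit 0x8176eabb670387deea)) (.nd (.nd (.lf (nat_lit 0x80a84e8371ea32c9dc)) (.lf (nat_lit 0x80080185d86a049a08)) (.lf (nat_lit 0x8168aa85f12a4028d5)) (.nd (.lf (nat_lit 0x8007ff83076e00e8ac))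 (.lf (nat_lit 0x8007f085c97c0338de)) (.nd (.lf (nat_lit 0x80087b878d78db4908)) (.lf (nat_lit 0x8027f88608e401285a)) (.lf (nat_lit 0x80084283bd7cd40a7d)) (.lf (nat_lit 0x8007ff864699fd7899))) (.nd (.lf (nat_lit 0x8027e38ad998032822)) (.lf (nat_lit 0x8007999ac633f99821)) (.lf (nat_lit 0x8007e886e67dfd288d)) (.lf (nat_lit 0x8077c98f463cfba86a))))) (.nd (.lf (nat_lit 0x8007f08589df05392f)) (.lf (nat_lit 0x8097b9957654fb2840)) (.lf (nat_lit 0x8007d58d664cfc1871)) (.lf (nat_lit 0x8037f283b62cfc487c))) (.nd (.lf (nat_lit 0x80d89583af76abc8a3)) (.nd (.nd (.lf (nat_lit 0x800841835e29c1bb02)) (.lf (nat_lit 0x8007d98cf6acfd08af)) (.lf (nat_lit 0x800835827e93b51b1c)) (.lf (nat_lit 0x80080486282bf82ab9))) (.lf (nat_lit 0x8007e089568afd08a6)) (.lf (nat_lit 0x80f800800a10deecf4)) (.lf (nat_lit 0x8007ff83a80febbc50))) (.lf (nat_lit 0x849800800fbd989946)) (.lf (nat_lit 0x80080e82d8aee11d2a))) (.lf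 (nat_lit 0x800801831648fa6991))))
  _ _ _ (by decide +kernel)

noncomputable def g2_108_m4 : GD 2 108 (-4) := chk_sound 
  (.cell (.lf (nat_lit 0x8007f2822747d5ede2)) (.lf (nat_lit 0x8007ee83f9e7108b6c)) (.nd (.lf (nat_lit 0x810730aba5dcf2980e)) (.nd (.lf (nat_lit 0x805800800a600a19ff)) (.lf (nat_lit 0x8007c68ed9aa397e64)) (.lf (nat_lit 0x8135e9f5282a82ca72)) (.lf (nat_lit 0x80577f9fa857861fb8))) (.lf (nat_lit 0x8007ee8306c6e54cbb)) (.lf (nat_lit 0x800801823707d39dfa))) (.lf (nat_lit 0x81686082308957d952)) (.lf (nat_lit 0x8006e3bf77227f7ecd)) (.nd (.nd (.lf (nat_lit 0x80d84e82e1843c09ed)) (.lf (nat_lit 0x80080a8557810bcb4a)) (.lf (nat_lit 0x8138ac84e0cd4b08c5)) (.lf (nat_lit 0x813691e56908374801))) (.lf (nat_lit 0x8047db87d5effb581d)) (.nd (.lf (nat_lit 0x81090e851f90a52863)) (.nd (.nd (.lf (nat_lit 0x80081789b94efcd902)) (.lf (nat_lit 0x8067c292566bfbf844)) (.lf (nat_lit 0x800835850b8ae94ad5))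 (.lf (nat_lit 0x8007f3850756faca22))) (.lf (nat_lit 0x8007c590263cfba83d)) (.lf (nat_lit 0x80380d834972e8cc5b)) (.lf (nat_lit 0x8007fc84d767eebbf5))) (.lf (nat_lit 0x81486a816fb59a6948)) (.lf (nat_lit 0x80080983585fe36d05))) (.lf (nat_lit 0x8057c88c75f2fa98a0))))
  _ _ _ (by decide +kernel)

theorem g3_104_m8 : GD 3 104 (-8) :=
  GD.split (i := 2) g2_100_m12 g2_108_m12 g2_100_m4 g2_108_m4 (by decide)

noncomputable def g2_100_4 : GD 2 100 4 := chk_sound 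
  (.cell (.lf (nat_lit 0x85868b86c540d4ed15)) (.lf (nat_lit 0x80080183a9c4055968)) (.lf (nat_lit 0x80d632f637f8941a22)) (.lf (nat_lit 0x8008398080ec541a80)) (.lf (nat_lit 0x809715bea7c3866ee6)) (.nd (.nd (.lf (nat_lit 0x80b84d8391cb36ca14)) (.lf (nat_lit 0x8008078677b5027974)) (.lf (nat_lit 0x81087383e119435949)) (.lf (nat_lit 0x8007ef87f74dfe1910))) (.lf (nat_lit 0x8007f38766f9fde8e2)) (.nd (.lf (nat_lit 0x81e8d584b080565855)) (.nd (.lf (nat_lit 0x80082c807c51d8dbce)) (.lf (nat_lit 0x800806849848f69afb)) (.lf (nat_lit 0x84a7c9857e58a55c3f)) (.lf (nat_lit 0x80080982194ae62ca4))) (.lf (nat_lit 0x800850811fdf94e86d)) (.lf (nat_lit 0x800807825a68d5ad6f))) (.lf (nat_lit 0x8008018177c1f59b25))))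
  _ _ _ (by decide +kernel)

noncomputable def g2_108_4 : GD 2 108 4 := chk_sound 
  (.cell (.lf (nat_lit 0x8007ec8286c5d65dc6)) (.lf (nat_lit 0x8007f38579ce0c0ad5)) (.nd (.lf (nat_lit 0x8007cf8b8616fba829)) (.nd (.lf (nat_lit 0x8007d986ba47076950)) (.lf (nat_lit 0x8006a0d659ad4f1c90)) (.lf (nat_lit 0x80f5f2f8281587a9c5)) (.lf (nat_lit 0x8116c3cb190f7c3e44))) (.lf (nat_lit 0x8007ef835728e44ce5)) (.lf (nat_lit 0x8007f482573cd67dd8))) (.lf (nat_lit 0x80083780509f5869d2)) (.lf (nat_lit 0x80d6f2c0b7c5869ece)) (.nd (.nd (.lf (nat_lit 0x80282981f1613fc9fc)) (.lf (nat_lit 0x800801839787066a6d)) (.lf (nat_lit 0x8058508270c04d3915)) (.lf (nat_lit 0x800800849688fd9858))) (.lf (nat_lit 0x8007a296b600f9a822)) (.nd (.lf (nat_lit 0x81698d87407b5d282a)) (.nd (.lf (nat_lit 0x8007ff85d6f6fe58a3)) (.lf (nat_lit 0x8007e98aa6dcfd48f5)) (.lf (nat_lit 0x80082583bc1dd02cae)) (.lf (nat_lit 0x800806834829ec1c46)))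 (.lf (nat_lit 0x81088681bfd6963892)) (.lf (nat_lit 0x800815832957de8d38))) (.lf (nat_lit 0x8007e487c62cfb1918))))
  _ _ _ (by decide +kernel)

noncomputable def g2_100_12 : GD 2 100 12 := chk_sound 
  (.cell (.lf (nat_lit 0x8007db82e4ecd60d0e)) (.lf (nat_lit 0x80d7c1a5694f0aa9b4)) (.lf (nat_lit 0x80c66df507c99f7a07)) (.lf (nat_lit 0x81184481b10d56bafc)) (.lf (nat_lit 0x80d742c4e8db817ea5)) (.nd (.lf (nat_lit 0x8008088758cefb89e0)) (.lf (nat_lit 0x8007fc8967b7fda95f)) (.lf (nat_lit 0x822756af79fae56b44)) (.lf (nat_lit 0x80080783c85aee6c06))))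
  _ _ _ (by decide +kernel)

noncomputable def g2_108_12 : GD 2 108 12 := chk_sound 
  (.cell (.lf (nat_lit 0x8007ff83b665d69daa)) (.lf (nat_lit 0x8007ff83c99b088a5a)) (.nd (.lf (nat_lit 0x8006cdcaa9961d1804)) (.lf (nat_lit 0x80059ff7386678598f)) (.lf (nat_lit 0x8007f784a766e59cd2)) (.lf (nat_lit 0x809800800770d98db0))) (.lf (nat_lit 0x80083580d0b9599a46)) (.lf (nat_lit 0x801718c37865840eb9)) (.nd (.nd (.lf (nat_lit 0x80083180e15342ca2a)) (.lf (nat_lit 0x8008098356de06fa51)) (.lf (nat_lit 0x80886a82e0c24f7971)) (.lf (nat_lit 0x8007e88ca6fefdf896))) (.lf (nat_lit 0x8007e3858615fc1814)) (.nd (.lf (nat_lit 0x8008b982c05a5e68b1)) (.nd (.lf (nat_lit 0x809880829f85a58947)) (.lf (nat_lit 0x80080183c7bbfa4a55)) (.lf (nat_lit 0x81986d817fa69849b8)) (.lf (nat_lit 0x8007ff838972e5bca1))) (.lf (nat_lit 0x84fa3e85906d6da817)) (.lf (nat_lit 0x80080e828bdfcaad37))) (.lf (nat_lit 0x8007f0867749f9aa58))))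
  _ _ _ (by decide +kernel)

theorem g3_104_8 : GD 3 104 8 :=
  GD.split (i := 2) g2_100_4 g2_108_4 g2_100_12 g2_108_12 (by decide)

noncomputable def g2_100_20 : GD 2 100 20 := chk_sound 
  (.cell (.lf (nat_lit 0x8007e682c5dce16cb9)) (.lf (nat_lit 0x8007ff84f94004d9bc)) (.lf (nat_lit 0x80b70eeee861a52b16)) (.lf (nat_lit 0x80083780a12a59eb64)) (.lf (nat_lit 0x80b726d1096a817df8)) (.nd (.lf (nat_lit 0x80181485ba03f4aa94)) (.lf (nat_lit 0x80080787a827fd2998)) (.lf (nat_lit 0x82d772a0db16de2be9)) (.lf (nat_lit 0x800801842876ec6c38))))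
  _ _ _ (by decide +kernel)

noncomputable def g2_108_20 : GD 2 108 20 := chk_sound 
  (.cell (.lf (nat_lit 0x8007f383762ad6cd95)) (.lf (nat_lit 0x8007ec82d96a06ba1a)) (.lf (nat_lit 0x800664f7980a921a11)) (.lf (nat_lit 0x8408008000d45b2aac)) (.lf (nat_lit 0x800733c6b9317e5e83)) (.nd (.lf (nat_lit 0x8007fe88a7eefea902)) (.lf (nat_lit 0x8007b398a686fb3828)) (.lf (nat_lit 0x834681bee924e3ea72)) (.lf (nat_lit 0x8007ff83e850f45b4f))))
  _ _ _ (by decide +kernel)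

noncomputable def g2_100_28 : GD 2 100 28 := chk_sound 
  (.cell (.lf (nat_lit 0x80080180e5cfe18cb1)) (.lf (nat_lit 0x8007ea8768f803797a)) (.lf (nat_lit 0x809753ed185aaf3adf)) (.lf (nat_lit 0x8008228131435d6bb8)) (.lf (nat_lit 0x80f72bd7d9a3819d86)) (.nd (.lf (nat_lit 0x8287ef8e6ca3db7afe)) (.lf (nat_lit 0x80080f8808a2fcf986)) (.lf (nat_lit 0x825730a90cf2bd2c34)) (.lf (nat_lit 0x80080e8068cfecec1f))))
  _ _ _ (by decide +kernel)

noncomputable def g2_108_28 : GD 2 108 28 := chk_sound 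
  (.cell (.lf (nat_lit 0x8007ff83660dd6ed89)) (.lf (nat_lit 0x8007e587495006da28)) (.lf (nat_lit 0x80c696f6e82496da2c)) (.lf (nat_lit 0x80083a81a0ee5cfb04)) (.lf (nat_lit 0x812715cab9b37bee32)) (.nd (.lf (nat_lit 0x80080889189ffd695b)) (.lf (nat_lit 0x8017ed8966dafe285e)) (.lf (nat_lit 0x8007ff82b9b3f39afa)) (.lf (nat_lit 0x8007ff84b874eebbfa))))
  _ _ _ (by decide +kernel)

theorem g3_104_24 : GD 3 104 24 :=
  GD.split (i := 2) g2_100_20 g2_108_20 g2_100_28 g2_108_28 (by decide)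

noncomputable def g2_100_36 : GD 2 100 36 := chk_sound 
  (.cell (.lf (nat_lit 0x8007f08245dae23ca7)) (.lf (nat_lit 0x8058329f683f0829f8)) (.lf (nat_lit 0x8077a2d42852d7ba75)) (.lf (nat_lit 0x80983c81115960dbfb)) (.lf (nat_lit 0x814744d779e8811d79)) (.nd (.lf (nat_lit 0x80083e841dcacdda95)) (.lf (nat_lit 0x800813856904fce95f)) (.lf (nat_lit 0x85a67ca54e679bdb7b)) (.lf (nat_lit 0x80077f86291decec00))))
  _ _ _ (by decide +kernel)

noncomputable def g2_108_36 : GD 2 108 36 := chk_sound 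
  (.cell (.lf (nat_lit 0x8007e7823609d70d86)) (.lf (nat_lit 0x8007ec84094406ba30)) (.lf (nat_lit 0x80d6d0f5c84a9c0a4b)) (.lf (nat_lit 0x82c8008001075eab4f)) (.nd (.lf (nat_lit 0x800801812245502cb5)) (.lf (nat_lit 0x81169adc09b17a1d19)) (.lf (nat_lit 0x83e97585f1b77fecb4)) (.lf (nat_lit 0x8008018207cace1e55))) (.nd (.lf (nat_lit 0x803823842b28efea3d)) (.lf (nat_lit 0x8007e68fb727fe087d)) (.lf (nat_lit 0x804829846bfbdcabcf)) (.lf (nat_lit 0x8337e4856877ec6c35))))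
  _ _ _ (by decide +kernel)

noncomputable def g2_100_44 : GD 2 100 44 := chk_sound 
  (.cell (.lf (nat_lit 0x8007ff82c5efe2bca6)) (.lf (nat_lit 0x8008018678020399d1)) (.lf (nat_lit 0x80080483d81cfe1957)) (.lf (nat_lit 0x80082481116a63fc2e)) (.nd (.lf (nat_lit 0x80081f8072e752cd79)) (.lf (nat_lit 0x808654ea49cc6bdb81)) (.lf (nat_lit 0x826800800260869dab)) (.lf (nat_lit 0x8048008007e0d66de6))) (.nd (.lf (nat_lit 0x80e891854ed2bfb913)) (.lf (nat_lit 0x80081285f8d8fc799d)) (.lf (nat_lit 0x8815589f9eef8b1a0d)) (.lf (nat_lit 0x87a73c87f93eeccbe5))))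
  _ _ _ (by decide +kernel)

noncomputable def g2_108_44 : GD 2 108 44 := chk_sound 
  (.cell (.lf (nat_lit 0x80080181b616d71d8a)) (.lf (nat_lit 0x8007ee85093b06aa30)) (.lf (nat_lit 0x8006f9f4e86f9e0a6c)) (.lf (nat_lit 0x81184f817121603b90)) (.nd (.lf (nat_lit 0x8008348252864facfa)) (.lf (nat_lit 0x81b677e7d96d7d1c2e)) (.lf (nat_lit 0x87794283f20383fd1e)) (.lf (nat_lit 0x800800831805d04e3a))) (.nd (.lf (nat_lit 0x80a85b83be42c42a8c)) (.lf (nat_lit 0x8007ec889726fe38da)) (.lf (nat_lit 0x84f666a5ce7a9f7b27)) (.lf (nat_lit 0x84c7538778a4ec2c23))))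
  _ _ _ (by decide +kernel)

theorem g3_104_40 : GD 3 104 40 :=
  GD.split (i := 2) g2_100_36 g2_108_36 g2_100_44 g2_108_44 (by decide)

noncomputable def g2_100_52 : GD 2 100 52 := chk_sound 
  (.cell (.lf (nat_lit 0x800801827612e2ecb1)) (.lf (nat_lit 0x8007ff8447e30389d2)) (.lf (nat_lit 0x8007ee9be876f86a06)) (.lf (nat_lit 0x84b80080017b668c57)) (.nd (.lf (nat_lit 0x80582881935d541de8)) (.lf (nat_lit 0x80363eeee92c6b8b22)) (.lf (nat_lit 0x8007d980b2ab8a4ded)) (.lf (nat_lit 0x80080682e82cd81dcc))) (.nd (.lf (nat_lit 0x8008538310c54a5883)) (.lf (nat_lit 0x80080a83989cfbf9e0)) (.lf (nat_lit 0x8000e18164f89ca8ef)) (.lf (nat_lit 0x8d871485f938ed0bca))))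
  _ _ _ (by decide +kernel)

noncomputable def g2_108_52 : GD 2 108 52 := chk_sound 
  (.cell (.lf (nat_lit 0x8007e8825632d71d93)) (.lf (nat_lit 0x8007f584a89907eaac)) (.lf (nat_lit 0x80c6ddf47848a7a9e0)) (.lf (nat_lit 0x800828818138616bc7)) (.nd (.lf (nat_lit 0x80082781e2c34efd34)) (.lf (nat_lit 0x80c660ec29657b3bb2)) (.lf (nat_lit 0x8f0800800289904dac)) (.lf (nat_lit 0x80080681d835d23e20))) (.nd (.lf (nat_lit 0x80d841823f43b468a3)) (.lf (nat_lit 0x800801863750fec8c0)) (.lf (nat_lit 0x88b1999adbd39c996e)) (.lf (nat_lit 0x89571d8748b6ec1c10))))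
  _ _ _ (by decide +kernel)

noncomputable def g2_100_60 : GD 2 100 60 := chk_sound 
  (.cell (.lf (nat_lit 0x8017f682163ee30cc0)) (.lf (nat_lit 0x80080183d72407ba92)) (.lf (nat_lit 0x80280788a862fd198e)) (.lf (nat_lit 0x800826810189687c78)) (.nd (.lf (nat_lit 0x80080181144656ae96)) (.lf (nat_lit 0x800669ebe96e68bb70)) (.lf (nat_lit 0x824800800385943e81)) (.lf (nat_lit 0x8007ff83b864d9adb1))) (.nd (.lf (nat_lit 0x80a8438230f350ba53)) (.lf (nat_lit 0x8008118858b1fcb992)) (.lf (nat_lit 0x873a8b89f0da8b2a4e)) (.lf (nat_lit 0x9847b883e91aed3bb5))))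
  _ _ _ (by decide +kernel)

noncomputable def g2_108_60 : GD 2 108 60 := chk_sound 
  (.cell (.lf (nat_lit 0x8007fb81a656d71d9e)) (.lf (nat_lit 0x8017f786989c082ab3)) (.lf (nat_lit 0x812720ef881cb7d992)) (.lf (nat_lit 0x80683c817151623bf8)) (.nd (.lf (nat_lit 0x8008018203384f3da3)) (.lf (nat_lit 0x80064eeeb92675eb65)) (.lf (nat_lit 0x80075b8152da92ddf9)) (.lf (nat_lit 0x8007ff82f857d42e04))) (.nd (.lf (nat_lit 0x8118bd84b0ac4fb8b3)) (.lf (nat_lit 0x8007f68b676ffec899)) (.lf (nat_lit 0x89bea38754539cd99a)) (.lf (nat_lit 0x8007ff814875eb9c4e))))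
  _ _ _ (by decide +kernel)

theorem g3_104_56 : GD 3 104 56 :=
  GD.split (i := 2) g2_100_52 g2_108_52 g2_100_60 g2_108_60 (by decide)

noncomputable def g2_100_68 : GD 2 100 68 := chk_sound 
  (.cell (.lf (nat_lit 0x8037eb82c596d74d53)) (.lf (nat_lit 0x8007ff80e734084ab3)) (.lf (nat_lit 0x8007ff86e840fe8917)) (.lf (nat_lit 0x80082a80e19969bc95)) (.nd (.lf (nat_lit 0x80080d81453757ff11)) (.lf (nat_lit 0x800680e8f9a75e5b67)) (.lf (nat_lit 0x81480080045e964efd)) (.lf (nat_lit 0x8007f7977857d49dd0))) (.nd (.lf (nat_lit 0x800843827150537b60)) (.lf (nat_lit 0x80280f8968bcfd7944)) (.lf (nat_lit 0x88095886e0a485fab9)) (.lf (nat_lit 0x8008008008cdedec05))))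
  _ _ _ (by decide +kernel)

noncomputable def g2_108_68 : GD 2 108 68 := chk_sound 
  (.cell (.lf (nat_lit 0x8007fb833680d70dab)) (.lf (nat_lit 0x8017fb84d896081ab5)) (.lf (nat_lit 0x800734de87dad3492a)) (.lf (nat_lit 0x81483b81216962bc23)) (.nd (.lf (nat_lit 0x82180080041750be51)) (.lf (nat_lit 0x81a62bec397e6b9b52)) (.lf (nat_lit 0x8007ff80a393968e83)) (.lf (nat_lit 0x80e7bd8dd873d3cdf6))) (.nd (.lf (nat_lit 0x8008218180f3504a4d)) (.lf (nat_lit 0x82487fb1872ff448d2)) (.lf (nat_lit 0x8d0d088eb25d92e9fe)) (.lf (nat_lit 0x800809838883ebcc47))))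
  _ _ _ (by decide +kernel)

noncomputable def g2_100_76 : GD 2 100 76 := chk_sound 
  (.cell (.lf (nat_lit 0x8047f182b5ccd75d6a)) (.lf (nat_lit 0x80c80080075e095aeb)) (.lf (nat_lit 0x80080985c847fcb9bc)) (.lf (nat_lit 0x83d8008001aa6a6caf)) (.nd (.lf (nat_lit 0x8007ff80f66e59ff79)) (.nd (.lf (nat_lit 0x8008018348261f0d36)) (.lf (nat_lit 0x8007f986192b0b7b10)) (.lf (nat_lit 0x81c6dce78a056d0beb)) (.lf (nat_lit 0x8007da92e719fdb80d))) (.lf (nat_lit 0x81180080056e96bf71)) (.lf (nat_lit 0x8077e9993867d6eda5))) (.nd (.lf (nat_lit 0x80083d81516f542ba4)) (.lf (nat_lit 0x80080d89b8c6fe08fb)) (.lf (nat_lit 0x8007c980409e820b10)) (.lf (nat_lit 0x8007ff83a8ceedec03))))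
  _ _ _ (by decide +kernel)

noncomputable def g2_108_76 : GD 2 108 76 := chk_sound 
  (.cell (.lf (nat_lit 0x8008008006acd71db5)) (.lf (nat_lit 0x80080182b890080ab6)) (.lf (nat_lit 0x8007ed8b1758fe98ad)) (.lf (nat_lit 0x80083980817f630c48)) (.nd (.lf (nat_lit 0x80081d81f4f551fed0)) (.lf (nat_lit 0x815664dffa0745ead9)) (.lf (nat_lit 0x8008008003d996eeaf)) (.lf (nat_lit 0x80071ab228eac87da8))) (.nd (.lf (nat_lit 0x80e84d81e15a505b48)) (.lf (nat_lit 0x8007f483b758fea8e8)) (.lf (nat_lit 0x86cb8c902157881a5c)) (.lf (nat_lit 0x800804843895ebbc46))))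
  _ _ _ (by decide +kernel)

theorem g3_104_72 : GD 3 104 72 :=
  GD.split (i := 2) g2_100_68 g2_108_68 g2_100_76 g2_108_76 (by decide)

noncomputable def g2_100_84 : GD 2 100 84 := chk_sound 
  (.cell (.lf (nat_lit 0x800800800602d77d7d)) (.lf (nat_lit 0x8008048237900aab26)) (.lf (nat_lit 0x800806891819fdc95c)) (.lf (nat_lit 0x80082e80f1b96accc5)) (.nd (.lf (nat_lit 0x80080b8116c056df78)) (.lf (nat_lit 0x8046f1ca9a552deb0f)) (.lf (nat_lit 0x80f7858ef5b796ff75)) (.lf (nat_lit 0x80073bb1e8f9c90da6))) (.lf (nat_lit 0x8217e4df2bbda2bb26)))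
  _ _ _ (by decide +kernel)

noncomputable def g2_108_84 : GD 2 108 84 := chk_sound 
  (.cell (.lf (nat_lit 0x80c8008006d9d72dbe)) (.lf (nat_lit 0x8007f784188d084ac0)) (.lf (nat_lit 0x8087e38c56f5fdf88b)) (.lf (nat_lit 0x83d800800192634c66)) (.nd (.lf (nat_lit 0x80081c811536506ee1)) (.lf (nat_lit 0x819773a0cad3124a1b)) (.lf (nat_lit 0x80078d89f4dc965f2e)) (.lf (nat_lit 0x81868fcf692db38d0e))) (.nd (.lf (nat_lit 0x80c83b81f17c504b8a)) (.lf (nat_lit 0x8007f58a0770feb8bc)) (.lf (nat_lit 0x852b5890a15087aa93)) (.lf (nat_lit 0x8008008008a7eb9c48))))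
  _ _ _ (by decide +kernel)

noncomputable def g2_100_92 : GD 2 100 92 := chk_sound 
  (.cell (.lf (nat_lit 0x8007fa819637d78d8e)) (.lf (nat_lit 0x80080d82d6f8122bf6)) (.lf (nat_lit 0x8008018797e9feb902)) (.lf (nat_lit 0x80084b80a1c76aecd7)) (.lf (nat_lit 0x812712dd7ab17b4ca8)) (.lf (nat_lit 0x86c7e3df8ba8a47b1a)))
  _ _ _ (by decide +kernel)

noncomputable def g2_108_92 : GD 2 108 92 := chk_sound .out
  _ _ _ (by decide +kernel)

theorem g3_104_88 : GD 3 104 88 :=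
  GD.split (i := 2) g2_100_84 g2_108_84 g2_100_92 g2_108_92 (by decide)

noncomputable def g3_104_104 : GD 3 104 104 := chk_sound (.nd 
  (.cell (.lf (nat_lit 0x8007f083566bd79d9c)) (.lf (nat_lit 0x8007ff83c726134c1f)) (.lf (nat_lit 0x8007ff8bf7bafed8b4)) (.lf (nat_lit 0x8398008001cf6aece2)) (.nd (.lf (nat_lit 0x80b7ee8a475b4fef5b)) (.lf (nat_lit 0x8007e782fa63120b4f)) (.lf (nat_lit 0x810720a1876c937f8d)) (.nd (.lf (nat_lit 0x80b6bcd179beaa9d22)) (.lf (nat_lit 0x8008018217e1f50b3b)) (.lf (nat_lit 0x8007ff833835d80dcd)) (.lf (nat_lit 0x8007ff81b863e6ecbd)))) (.lf (nat_lit 0x8007e3e14bb6a1caf8))) .out .out .out)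
  _ _ _ (by decide +kernel)

noncomputable def g2_116_m76 : GD 2 116 (-76) := chk_sound 
  (.cell (.lf (nat_lit 0x80080585884df58b22)) (.lf (nat_lit 0x8057ee8429a31ebcec)) (.nd (.lf (nat_lit 0x80080082e77d18ecb4)) (.lf (nat_lit 0x80080d826759386e98)) (.lf (nat_lit 0x8056e4f9e7629dc8f1)) (.lf (nat_lit 0x80b713db7609811d28))) (.lf (nat_lit 0x818672cd03f8434ac7)) (.lf (nat_lit 0x828800800e1a958cfd)) (.lf (nat_lit 0x80081082870d06da60)))
  _ _ _ (by decide +kernel)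

noncomputable def g2_124_m76 : GD 2 124 (-76) := chk_sound .out
  _ _ _ (by decide +kernel)

noncomputable def g2_116_m68 : GD 2 116 (-68) := chk_sound 
  (.cell (.lf (nat_lit 0x8007fb84e6f7f43b2c)) (.lf (nat_lit 0x8007f5827a0328ed80)) (.nd (.lf (nat_lit 0x8008008007a51a4cd6)) (.lf (nat_lit 0x80080782d7d73f0ee3)) (.lf (nat_lit 0x8007cd8e464ffc2840)) (.lf (nat_lit 0x8116d2ddd626833cf9))) (.lf (nat_lit 0x82672fd9f47a43da42)) (.lf (nat_lit 0x832800800e479baca4)) (.lf (nat_lit 0x80180288d7ec02495e)))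
  _ _ _ (by decide +kernel)

noncomputable def g2_124_m68 : GD 2 124 (-68) := chk_sound 
  (.cell (.lf (nat_lit 0x8007ff85075ff7aac0)) (.lf (nat_lit 0x8007f6826a8f28ed44)) (.nd (.lf (nat_lit 0x80080883c79d19bcc8)) (.lf (nat_lit 0x8007ff8327df366e8a)) (.lf (nat_lit 0x8007d196190e033834)) (.lf (nat_lit 0x8126d7e2d645806ca2))) (.lf (nat_lit 0x80c750d1a3015ceac6)) (.lf (nat_lit 0x80082c815e2c996cd4)) (.lf (nat_lit 0x80081b86d6ae0609f8)))
  _ _ _ (by decide +kernel)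

theorem g3_120_m72 : GD 3 120 (-72) :=
  GD.split (i := 2) g2_116_m76 g2_124_m76 g2_116_m68 g2_124_m68 (by decide)

noncomputable def g2_116_m60 : GD 2 116 (-60) := chk_sound 
  (.cell (.lf (nat_lit 0x8007f8825696ef2bb3)) (.lf (nat_lit 0x811800800934291dbe)) (.nd (.lf (nat_lit 0x8007ff82e7e31bacf5)) (.lf (nat_lit 0x8028008007e13ffeec)) (.lf (nat_lit 0x8007de8805b6f9d8b0)) (.lf (nat_lit 0x81067ce2a667853c95))) (.nd (.lf (nat_lit 0x8405d1c1745a400b9f)) (.lf (nat_lit 0x800853817f4c93fb02)) (.lf (nat_lit 0x80080883957309999c)) (.lf (nat_lit 0x800828818ea7aacb8a))) (.lf (nat_lit 0x83599a8d3e31976c7f)) (.lf (nat_lit 0x8007e786a95d02a8b5)))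
  _ _ _ (by decide +kernel)

noncomputable def g2_124_m60 : GD 2 124 (-60) := chk_sound 
  (.cell (.lf (nat_lit 0x8007f284b6e7f2ab5e)) (.lf (nat_lit 0x8178008009f228ed86)) (.nd (.lf (nat_lit 0x8008078207c91b2cea)) (.lf (nat_lit 0x8007ff8287f3383e9e)) (.lf (nat_lit 0x80c6d9d38948231803)) (.lf (nat_lit 0x80068fe23664841ca5))) (.lf (nat_lit 0x838795cb826b61aa97)) (.lf (nat_lit 0x83aa038cddda8a5cf5)) (.lf (nat_lit 0x8008038627fa01c93d)))
  _ _ _ (by decide +kernel)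

noncomputable def g2_116_m52 : GD 2 116 (-52) := chk_sound 
  (.cell (.lf (nat_lit 0x8007e783e672ee0bc5)) (.lf (nat_lit 0x800801829851297de1)) (.nd (.lf (nat_lit 0x800673ceb83d3acc50)) (.lf (nat_lit 0x80078a96e6df586f5f)) (.lf (nat_lit 0x8007c98b1577f858ac)) (.lf (nat_lit 0x813663dbe66887dd10))) (.nd (.lf (nat_lit 0x839670a694a9269ba4)) (.lf (nat_lit 0x80085e81cf6a9a8a78)) (.nd (.lf (nat_lit 0x8008188215ab06c906)) (.lf (nat_lit 0x809858823f2fabba2e)) (.lf (nat_lit 0x80985f90baa3f77832)) (.lf (nat_lit 0x81084e82be6fba8b03))) (.lf (nat_lit 0x81e800800ecbac4b2f))) (.lf (nat_lit 0x849bed936c6571ad2f)) (.lf (nat_lit 0x8007b996c98d04b838)))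
  _ _ _ (by decide +kernel)

noncomputable def g2_124_m52 : GD 2 124 (-52) := chk_sound 
  (.cell (.lf (nat_lit 0x8007f28146bbf0cb8f)) (.lf (nat_lit 0x8007ff82692c292dc0)) (.nd (.lf (nat_lit 0x8008008008061c4d02)) (.lf (nat_lit 0x80080080081f390ea7)) (.lf (nat_lit 0x8027d28a25c0fa385b)) (.lf (nat_lit 0x814674e0b672862cbe))) (.lf (nat_lit 0x84f7f2c111be63ea41)) (.lf (nat_lit 0x800b728b5c806d2d79)) (.lf (nat_lit 0x814757a9e8e308c892)))
  _ _ _ (by decide +kernel)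

theorem g3_120_m56 : GD 3 120 (-56) :=
  GD.split (i := 2) g2_116_m60 g2_124_m60 g2_116_m52 g2_124_m52 (by decide)

noncomputable def g2_116_m44 : GD 2 116 (-44) := chk_sound 
  (.cell (.lf (nat_lit 0x8007f781b62ce81c47)) (.lf (nat_lit 0x80080a82f78429ade1)) (.nd (.lf (nat_lit 0x81c58ff43735a1e864)) (.lf (nat_lit 0x8005d6ebe7477d2ba4)) (.lf (nat_lit 0x8007c18c2587f8f83f)) (.nd (.lf (nat_lit 0x819621e286cf86fc95)) (.lf (nat_lit 0x8007fd82b7dfbadf1a)) (.lf (nat_lit 0x8007f381e6c9d65dc7)) (.lf (nat_lit 0x80080a81a891ccce60)))) (.nd (.lf (nat_lit 0x88c67c96d1d246aae1)) (.lf (nat_lit 0x80085f811f879f79d0)) (.lf (nat_lit 0x8008558643061e1934)) (.lf (nat_lit 0x80083381eef7ac7ac5))) (.lf (nat_lit 0xb3470a8adac9762ea6)) (.lf (nat_lit 0x819726af49aa0cf80d)))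
  _ _ _ (by decide +kernel)

noncomputable def g2_124_m44 : GD 2 124 (-44) := chk_sound 
  (.cell (.lf (nat_lit 0x8007ff846683ed8bda)) (.lf (nat_lit 0x8007f680985c297de1)) (.nd (.lf (nat_lit 0x8007f983f84c1ced0b)) (.lf (nat_lit 0x8007fd81b813370e91)) (.lf (nat_lit 0x8037c08d55a6f9783a)) (.nd (.nd (.lf (nat_lit 0x81362fe566ae877c4e)) (.lf (nat_lit 0x80c7b19245bda90f22)) (.lf (nat_lit 0x8008018265cadaed2d)) (.lf (nat_lit 0x8007f482e662cece17))) (.lf (nat_lit 0x8007f88057bdbaaf1b)) (.lf (nat_lit 0x8008018256ccda3d8b)) (.lf (nat_lit 0x80080e826895cf9e3c)))) (.lf (nat_lit 0x85e6e2a3e0be625931)) (.lf (nat_lit 0x8215e7980b3d73fecd)) (.nd (.lf (nat_lit 0x80080a84f7a9122c13)) (.lf (nat_lit 0x80080080086e157c68)) (.lf (nat_lit 0x805671f0b663b0b849)) (.lf (nat_lit 0x8007b39105ebfa3843))))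
  _ _ _ (by decide +kernel)

noncomputable def g2_116_m36 : GD 2 116 (-36) := chk_sound 
  (.cell (.lf (nat_lit 0x8007ff82d6b4e1bcff)) (.lf (nat_lit 0x80080e8336e3298dc9)) (.nd (.lf (nat_lit 0x80c745a46a590bd806)) (.lf (nat_lit 0x81359df5176e864a12)) (.lf (nat_lit 0x8087c589f561f82884)) (.lf (nat_lit 0x8215b7f3874c877a70))) (.lf (nat_lit 0x868f10a6ea7473692b)) (.lf (nat_lit 0x8225709dd93d6a2f1c)) (.nd (.lf (nat_lit 0x8007ed827977085a69)) (.lf (nat_lit 0x8007da88ba1d075982)) (.nd (.lf (nat_lit 0x80075fbc46d6eee801)) (.lf (nat_lit 0x80578d9815ccf86823)) (.lf (nat_lit 0x8007f981f775f6baef)) (.lf (nat_lit 0x8007ee80f66aee5bba))) (.lf (nat_lit 0x80071aabf5aef16804))))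
  _ _ _ (by decide +kernel)

noncomputable def g2_124_m36 : GD 2 124 (-36) := chk_sound 
  (.cell (.lf (nat_lit 0x8007f183e710e63cb7)) (.lf (nat_lit 0x80080a8357a729cde5)) (.nd (.lf (nat_lit 0x80080182095b115bc6)) (.lf (nat_lit 0x8007ed81395a168c51)) (.lf (nat_lit 0x8087c78aa58bf93836)) (.nd (.lf (nat_lit 0x800618e80709854c21)) (.lf (nat_lit 0x8007f282073bba6f13)) (.lf (nat_lit 0x8007eb8306b7d86da3)) (.lf (nat_lit 0x80080180e7fbcf1e4a)))) (.lf (nat_lit 0x852e36a5ac387c9961)) (.lf (nat_lit 0x800762a569de761f5e)) (.nd (.lf (nat_lit 0x8007f582d88b07eab1)) (.lf (nat_lit 0x8007fa82e9290f3b96)) (.lf (nat_lit 0x81c682ec5640b9284b)) (.lf (nat_lit 0x80d7789be5b2f70804))))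
  _ _ _ (by decide +kernel)

theorem g3_120_m40 : GD 3 120 (-40) :=
  GD.split (i := 2) g2_116_m44 g2_124_m44 g2_116_m36 g2_124_m36 (by decide)

noncomputable def g2_116_m28 : GD 2 116 (-28) := chk_sound 
  (.cell (.lf (nat_lit 0x80080183674bdd7d6a)) (.lf (nat_lit 0x8007ff82b66a292da7)) (.nd (.lf (nat_lit 0x800747a49a4d0ba807)) (.lf (nat_lit 0x8165b6f30789826a9e)) (.lf (nat_lit 0x8007d786f583f94854)) (.lf (nat_lit 0x8005f0e6c68bbd8940))) (.lf (nat_lit 0x81088e833f8fa658da)) (.lf (nat_lit 0x8056e4a7d8a087df7a)) (.nd (.lf (nat_lit 0x8007e686a98b047952)) (.lf (nat_lit 0x8047d5890a3d05f89f)) (.nd (.lf (nat_lit 0x80a7a39ec68ef9e819)) (.lf (nat_lit 0x8007fd85b5ecfb6830)) (.lf (nat_lit 0x80081184c991eefba7)) (.lf (nat_lit 0x8007f28316f4ebfc29))) (.lf (nat_lit 0x8007b88dd59bf9381c))))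
  _ _ _ (by decide +kernel)

noncomputable def g2_124_m28 : GD 2 124 (-28) := chk_sound 
  (.cell (.lf (nat_lit 0x8007f582a6e9e2bcf8)) (.lf (nat_lit 0x8007ff82271829cdd6)) (.nd (.lf (nat_lit 0x8077d08a8a4006b8f7)) (.lf (nat_lit 0x8195adf597d879da1a)) (.lf (nat_lit 0x8037e68645b1fa088e)) (.lf (nat_lit 0x81a5ededb760844b7f))) (.lf (nat_lit 0x80083e80df85a5e951)) (.lf (nat_lit 0x80c6f1aaa89778ef6e)) (.nd (.lf (nat_lit 0x82f7de88192004d9c3)) (.lf (nat_lit 0x8007ff8329c40a3a90)) (.nd (.lf (nat_lit 0x8097ac9fb94905e808)) (.lf (nat_lit 0x8007939945f8f8f821)) (.lf (nat_lit 0x8007ff8199e9f0fb3c)) (.lf (nat_lit 0x80080182971eed8c0a))) (.lf (nat_lit 0x813715aee5c8f0b809))))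
  _ _ _ (by decide +kernel)

noncomputable def g2_116_m20 : GD 2 116 (-20) := chk_sound 
  (.cell (.lf (nat_lit 0x80080683e89ed7edc7)) (.lf (nat_lit 0x80080c82178a245d8f)) (.nd (.lf (nat_lit 0x8007fa83aa5605d855)) (.nd (.lf (nat_lit 0x8007f682f8882a5dea)) (.lf (nat_lit 0x80080182c80c36ee90)) (.lf (nat_lit 0x8005e1ee47d381db76)) (.lf (nat_lit 0x80080381a7d7613fc3))) (.lf (nat_lit 0x80080080058ff8b90c)) (.lf (nat_lit 0x8007ff83057df42a38))) (.lf (nat_lit 0x81d8c4843f97a5c851)) (.lf (nat_lit 0x80e6cfb06800897f49)) (.nd (.lf (nat_lit 0x81c7f68989a9039894)) (.lf (nat_lit 0x8057cb8b8a48064886)) (.nd (.lf (nat_lit 0x8007f78f579dfed83d)) (.lf (nat_lit 0x8077b6942642fb2828)) (.lf (nat_lit 0x80081e833ca5d4cbc7)) (.lf (nat_lit 0x8007f681b788e99c7e))) (.lf (nat_lit 0x80078b98f5d6f86821))))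
  _ _ _ (by decide +kernel)

noncomputable def g2_124_m20 : GD 2 124 (-20) := chk_sound 
  (.cell (.lf (nat_lit 0x8007f882c794dead5d)) (.lf (nat_lit 0x8008018276ae29adc0)) (.lf (nat_lit 0x80f5c5f8481f814994)) (.lf (nat_lit 0x800885831f94a588d9)) (.lf (nat_lit 0x8006ecb0a7ff7e1f52)) (.nd (.lf (nat_lit 0x8007dd8b695c02e8a5)) (.lf (nat_lit 0x8047e6868a16066947)) (.lf (nat_lit 0x81c6c0ef36d3b91828)) (.lf (nat_lit 0x80076e9dd5bdf6b811))))
  _ _ _ (by decide +kernel)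

theorem g3_120_m24 : GD 3 120 (-24) :=
  GD.split (i := 2) g2_116_m28 g2_124_m28 g2_116_m20 g2_124_m20 (by decide)

noncomputable def g2_116_m12 : GD 2 116 (-12) := chk_sound 
  (.cell (.lf (nat_lit 0x8007ff8218fed57ddf)) (.lf (nat_lit 0x80080182c81e20bd55)) (.lf (nat_lit 0x8165cef767db8309dc)) (.lf (nat_lit 0x8268e784806b5a8836)) (.lf (nat_lit 0x800601c536b47efe4b)) (.nd (.lf (nat_lit 0x80f71bcbb6cfe46804)) (.lf (nat_lit 0x8007ce8a3a28057869)) (.lf (nat_lit 0x8097ec872698fd986a)) (.lf (nat_lit 0x8007c98c05f5fb083e))))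
  _ _ _ (by decide +kernel)

noncomputable def g2_124_m12 : GD 2 124 (-12) := chk_sound 
  (.cell (.lf (nat_lit 0x800800800834db8d96)) (.lf (nat_lit 0x8007ff82771126fdaa)) (.lf (nat_lit 0x8105a1f787c284598e)) (.lf (nat_lit 0x82190284cf93a4e860)) (.lf (nat_lit 0x81063bc1f88a7bce98)) (.nd (.lf (nat_lit 0x8007d390996a034838)) (.lf (nat_lit 0x8057c88d0a270608af)) (.lf (nat_lit 0x8007c6938684fc2820)) (.lf (nat_lit 0x80078b99a5daf8581b))))
  _ _ _ (by decide +kernel)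

noncomputable def g2_116_m4 : GD 2 116 (-4) := chk_sound 
  (.cell (.lf (nat_lit 0x80080080089ed59dea)) (.lf (nat_lit 0x8007fd83c8ce1c2cee)) (.lf (nat_lit 0x8005ecf8581383a9be)) (.lf (nat_lit 0x81e8a583606c5a68b7)) (.lf (nat_lit 0x8126d6bad78889bef7)) (.nd (.lf (nat_lit 0x8007bf969690fbc813)) (.lf (nat_lit 0x8087b4900a5106b809)) (.lf (nat_lit 0x8007d190d6a2fcc863)) (.lf (nat_lit 0x8007dc886605fb984a))))
  _ _ _ (by decide +kernel)

noncomputable def g2_124_m4 : GD 2 124 (-4) := chk_sound 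
  (.cell (.lf (nat_lit 0x80480f83f973d60dbd)) (.lf (nat_lit 0x80080183279523cd86)) (.nd (.lf (nat_lit 0x80c7739dda3a092819)) (.lf (nat_lit 0x8135c1f748287929c8)) (.lf (nat_lit 0x8007e683f5b7f998f6)) (.lf (nat_lit 0x813603e7d6c8bc098a))) (.lf (nat_lit 0x80b8ae8390605b4818)) (.lf (nat_lit 0x8106a9bd282d85fee3)) (.nd (.lf (nat_lit 0x808784ab295509b80b)) (.lf (nat_lit 0x8087ac933a22066843)) (.lf (nat_lit 0x8007bd961695fbe82a)) (.lf (nat_lit 0x8007ab93a5f7fa0836))))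
  _ _ _ (by decide +kernel)

theorem g3_120_m8 : GD 3 120 (-8) :=
  GD.split (i := 2) g2_116_m12 g2_124_m12 g2_116_m4 g2_124_m4 (by decide)

noncomputable def g2_116_4 : GD 2 116 4 := chk_sound 
  (.cell (.lf (nat_lit 0x8007ff82a843d5cdee)) (.lf (nat_lit 0x8007f181e97016cc50)) (.lf (nat_lit 0x8005f5f8f7fa84b999)) (.lf (nat_lit 0x81886c8230775a5930)) (.lf (nat_lit 0x8006edbf974d80ded3)) (.nd (.lf (nat_lit 0x8057d2902694fcd821)) (.lf (nat_lit 0x80b77d9bea3708981d)) (.nd (.lf (nat_lit 0x82494385ff93a30831)) (.nd (.lf (nat_lit 0x8007ef83f6ecfe9860)) (.lf (nat_lit 0x8007f38806abfcb917)) (.lf (nat_lit 0x80082b823c07d97c0e)) (.lf (nat_lit 0x8007fa8227d5eddc19))) (.lf (nat_lit 0x817892824fa89e792a)) (.lf (nat_lit 0x8007ff83095de06d14))) (.lf (nat_lit 0x8067c68e0601fad87a))))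
  _ _ _ (by decide +kernel)

noncomputable def g2_124_4 : GD 2 124 4 := chk_sound 
  (.cell (.lf (nat_lit 0x800814818939d60dcb)) (.lf (nat_lit 0x8007fa8418391ffd46)) (.nd (.lf (nat_lit 0x8007ba8dca53069859)) (.lf (nat_lit 0x8125c5f7283f78d9d1)) (.lf (nat_lit 0x8027de86e5d2f8d968)) (.lf (nat_lit 0x8077789bf5c2f469a4))) (.lf (nat_lit 0x8088a582e0645b388b)) (.lf (nat_lit 0x8136a3bf677283feca)) (.nd (.lf (nat_lit 0x8006e0e4e8d7349802)) (.lf (nat_lit 0x8057e5867a4705a849)) (.lf (nat_lit 0x8017cd90f6a0fcd833)) (.lf (nat_lit 0x8007d7890609fb38ae))))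
  _ _ _ (by decide +kernel)

noncomputable def g2_116_12 : GD 2 116 12 := chk_sound 
  (.cell (.lf (nat_lit 0x8038008007f4d61deb)) (.lf (nat_lit 0x8007ec80f96b13ec08)) (.lf (nat_lit 0x7fd607f9380c85499c)) (.lf (nat_lit 0x80b8478140895a89a0)) (.lf (nat_lit 0x8106dabe27f686cee2)) (.nd (.lf (nat_lit 0x8077d19256b8fce837)) (.lf (nat_lit 0x8097aa930a18062819)) (.nd (.lf (nat_lit 0x8208fe84505c5e583c)) (.lf (nat_lit 0x80080182a74ffc89b3)) (.lf (nat_lit 0x80e8ce828fc39a3896)) (.lf (nat_lit 0x80581b838a6fda1d21))) (.lf (nat_lit 0x8047e588b663fb8935))))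
  _ _ _ (by decide +kernel)

noncomputable def g2_124_12 : GD 2 124 12 := chk_sound 
  (.cell (.lf (nat_lit 0x8007ff829906d60dd5)) (.lf (nat_lit 0x8007fb82481d1edd33)) (.lf (nat_lit 0x8005c9f8c81b7de971)) (.lf (nat_lit 0x80282e80e0695af8f7)) (.lf (nat_lit 0x8136dabb16f1860ee9)) (.nd (.lf (nat_lit 0x8037d19146a0fcd806)) (.lf (nat_lit 0x8007769d7a2908b80c)) (.lf (nat_lit 0x8007e389b6befdc875)) (.lf (nat_lit 0x8007d789262afb68e0))))
  _ _ _ (by decide +kernel)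

theorem g3_120_8 : GD 3 120 8 :=
  GD.split (i := 2) g2_116_4 g2_124_4 g2_116_12 g2_124_12 (by decide)

noncomputable def g2_116_20 : GD 2 116 20 := chk_sound 
  (.cell (.lf (nat_lit 0x80080182d7b5d64de6)) (.lf (nat_lit 0x8007f380b95a112bc1)) (.lf (nat_lit 0x80060cf96828842998)) (.lf (nat_lit 0x80084f8100a05afa06)) (.lf (nat_lit 0x80072cbd389f7deef2)) (.nd (.lf (nat_lit 0x8067da91e6fafd8851)) (.lf (nat_lit 0x8006fcb979eb131804)) (.lf (nat_lit 0x83a690a1c79af6798f)) (.lf (nat_lit 0x8007f58426d3fb39cb))))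
  _ _ _ (by decide +kernel)

noncomputable def g2_124_20 : GD 2 124 20 := chk_sound 
  (.cell (.lf (nat_lit 0x8008108328d9d61ddb)) (.lf (nat_lit 0x80080183d8e11a5cc5)) (.lf (nat_lit 0x8005e0f9e80f7fd933)) (.lf (nat_lit 0x80b88c83207e5ae95d)) (.lf (nat_lit 0x80c6f0b2a817865f42)) (.nd (.lf (nat_lit 0x80b776b206c0f3c80c)) (.lf (nat_lit 0x8077c28c8a3905d819)) (.lf (nat_lit 0x8007e68b0709fd98f9)) (.lf (nat_lit 0x8007ff83765cfac988))))
  _ _ _ (by decide +kernel)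

noncomputable def g2_116_28 : GD 2 116 28 := chk_sound 
  (.cell (.lf (nat_lit 0x80080080078ad68de0)) (.lf (nat_lit 0x8007f58499420eeb82)) (.lf (nat_lit 0x800633f9b82a87999f)) (.lf (nat_lit 0x8008418080b85b8a61)) (.lf (nat_lit 0x816724bca94d7b3edd)) (.nd (.lf (nat_lit 0x8007f4875737fef86a)) (.lf (nat_lit 0x8106a8d0066bde3804)) (.lf (nat_lit 0x85174392e83bf96a14)) (.lf (nat_lit 0x8007f784c78bf77ad1))))
  _ _ _ (by decide +kernel)

noncomputable def g2_124_28 : GD 2 124 28 := chk_sound 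
  (.cell (.lf (nat_lit 0x8007ff8268b7d63dde)) (.lf (nat_lit 0x8007f08358d518eca8)) (.lf (nat_lit 0x818600faf8137f98f9)) (.lf (nat_lit 0x81480080008d5a99b9)) (.lf (nat_lit 0x80e72ab078767dff57)) (.nd (.lf (nat_lit 0x8007b5a186edfa3815)) (.lf (nat_lit 0x8007699f0a3b09881b)) (.lf (nat_lit 0x8007ff83c75bfd497b)) (.lf (nat_lit 0x8007ee8386a2f8aa47))))
  _ _ _ (by decide +kernel)

theorem g3_120_24 : GD 3 120 24 :=
  GD.split (i := 2) g2_116_20 g2_124_20 g2_116_28 g2_124_28 (by decide)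

noncomputable def g2_116_36 : GD 2 116 36 := chk_sound 
  (.cell (.lf (nat_lit 0x80080182b772d69ddd)) (.lf (nat_lit 0x8007ee82c92a0d1b4f)) (.lf (nat_lit 0x815659fa08158c099c)) (.lf (nat_lit 0x81185c8220d35c2ab3)) (.nd (.lf (nat_lit 0x80084281720f4dfc56)) (.lf (nat_lit 0x8006b1d359b978bda7)) (.lf (nat_lit 0x800b6e8f9220862c13)) (.lf (nat_lit 0x8008018267d7c98e8b))) (.nd (.nd (.lf (nat_lit 0x8008018111334b1a99)) (.lf (nat_lit 0x80681f837490139a7a)) (.lf (nat_lit 0x8008788200ba5629fe)) (.lf (nat_lit 0x8007ff88083aff28b7))) (.lf (nat_lit 0x80b773a669b909780e)) (.lf (nat_lit 0x8007ff8568c2f8ba86)) (.lf (nat_lit 0x800801839836f1abaa))))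
  _ _ _ (by decide +kernel)

noncomputable def g2_124_36 : GD 2 124 36 := chk_sound 
  (.cell (.lf (nat_lit 0x80080a80f89ed65ddf)) (.lf (nat_lit 0x8007ef8488c8179c8c)) (.lf (nat_lit 0x8065e0f928587cc96b)) (.lf (nat_lit 0x80382b80a0a45a6a0e)) (.lf (nat_lit 0x810739afc9037b5f4e)) (.nd (.lf (nat_lit 0x8008018247bdffd832)) (.lf (nat_lit 0x80079d94fa4a076817)) (.lf (nat_lit 0x8007f68717adfbe9ed)) (.lf (nat_lit 0x8007fb83c6eaf57af9))))
  _ _ _ (by decide +kernel)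

noncomputable def g2_116_44 : GD 2 116 44 := chk_sound 
  (.cell (.lf (nat_lit 0x8007f982a76bd6addb)) (.lf (nat_lit 0x8008018249170beb2c)) (.lf (nat_lit 0x80a648f968598849c4)) (.lf (nat_lit 0x80083781d0ec5c9afb)) (.nd (.lf (nat_lit 0x8308008002504cfca0)) (.lf (nat_lit 0x81267bde09ac791ceb)) (.lf (nat_lit 0x887afe8ca24488fc93)) (.lf (nat_lit 0x800801814801cb6e76))) (.nd (.nd (.lf (nat_lit 0x80083080f1404c0aca)) (.lf (nat_lit 0x80081d8322ad290a72)) (.lf (nat_lit 0x80080e8120c456fa3d)) (.lf (nat_lit 0x80082d880a87f76945))) (.lf (nat_lit 0x80b7869f59dc07d81a)) (.lf (nat_lit 0x800826844ae8eb4b3d)) (.lf (nat_lit 0x800803831819ec3c44))))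
  _ _ _ (by decide +kernel)

noncomputable def g2_124_44 : GD 2 124 44 := chk_sound 
  (.cell (.lf (nat_lit 0x8007ff823890d66ddf)) (.lf (nat_lit 0x8007f082c986135bee)) (.lf (nat_lit 0x8005f2f858947a39a7)) (.lf (nat_lit 0x8008418210bd5a3a5b)) (.nd (.lf (nat_lit 0x8008008002294bdc62)) (.lf (nat_lit 0x800689cec9bd773ddb)) (.lf (nat_lit 0x856d5b923411980c05)) (.lf (nat_lit 0x808713adc8ed9c1f24))) (.nd (.nd (.lf (nat_lit 0x80a82481412f4bda9c)) (.lf (nat_lit 0x80583a83b2c72d3b21)) (.lf (nat_lit 0x80587a8280b45589d8)) (.lf (nat_lit 0x80081e8dd921fdc85f))) (.lf (nat_lit 0x8007b68dba6906e817)) (.lf (nat_lit 0x80180c86e919f7aa95)) (.lf (nat_lit 0x8007f1824730f1fb8b))))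
  _ _ _ (by decide +kernel)

theorem g3_120_40 : GD 3 120 40 :=
  GD.split (i := 2) g2_116_36 g2_124_36 g2_116_44 g2_124_44 (by decide)

noncomputable def g2_116_52 : GD 2 116 52 := chk_sound 
  (.cell (.lf (nat_lit 0x80a800800771d6bddb)) (.lf (nat_lit 0x8007ff8519060b2b13)) (.nd (.lf (nat_lit 0x800752a81605f4d808)) (.lf (nat_lit 0x80a758a19a500ab80d)) (.lf (nat_lit 0x8007fa83b7cbea5c71)) (.lf (nat_lit 0x8008018097e8e25d1e))) (.lf (nat_lit 0x8308008001075cdb3c)) (.nd (.lf (nat_lit 0x80083d80428f4c1ce0)) (.lf (nat_lit 0x8005fdeb094278eba9)) (.lf (nat_lit 0x876aad89d2778bfd00)) (.lf (nat_lit 0x805800800839ce4e53))) (.nd (.lf (nat_lit 0x80082482ad92d7d9a8)) (.lf (nat_lit 0x818612f1d8264e983f)) (.lf (nat_lit 0x8715dfa2ee35ad4ad2)) (.lf (nat_lit 0x85b79686283eebec3e))))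
  _ _ _ (by decide +kernel)

noncomputable def g2_124_52 : GD 2 124 52 := chk_sound 
  (.cell (.lf (nat_lit 0x80080382988ad67ddf)) (.lf (nat_lit 0x8027f483c983124bd1)) (.lf (nat_lit 0x8125d4f8b8657a6973)) (.lf (nat_lit 0x80083c8060d659eaa0)) (.nd (.lf (nat_lit 0x8288008002684abca4)) (.lf (nat_lit 0x8005fbe93950780bd6)) (.lf (nat_lit 0x883cce9053d7992c73)) (.lf (nat_lit 0x80d611e0b93485acb4))) (.nd (.nd (.lf (nat_lit 0x80785582a1404c0ac6)) (.lf (nat_lit 0x80080080022e384b28)) (.lf (nat_lit 0x8008708220c3556a10)) (.lf (nat_lit 0x80e8748bcc29ebe8a9))) (.lf (nat_lit 0x80b654e439d23b183f)) (.lf (nat_lit 0x807833840cc4dafaf9)) (.lf (nat_lit 0x8007fb81a778eeabfb))))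
  _ _ _ (by decide +kernel)

noncomputable def g2_116_60 : GD 2 116 60 := chk_sound 
  (.cell (.lf (nat_lit 0x800801835780d6addd)) (.lf (nat_lit 0x8007f583e8fd0afb10)) (.lf (nat_lit 0x810656f8d86d87c9f2)) (.lf (nat_lit 0x8008018141215d0b75)) (.nd (.lf (nat_lit 0x80e8008002c74b5d15)) (.lf (nat_lit 0x8125eeee292f76db41)) (.lf (nat_lit 0x88ba6c8732b48f0d5b)) (.lf (nat_lit 0x81b6e4b92836cbbd40))) (.nd (.lf (nat_lit 0x8128a784ff1bb788f3)) (.lf (nat_lit 0x805628fb376c71484c)) (.lf (nat_lit 0x9c113e8a2a73a779a7)) (.lf (nat_lit 0x8007ff83b826ea3c74))))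
  _ _ _ (by decide +kernel)

noncomputable def g2_124_60 : GD 2 124 60 := chk_sound 
  (.cell (.lf (nat_lit 0x80080080088cd69ddd)) (.lf (nat_lit 0x8017f1850980117bb9)) (.lf (nat_lit 0x8005c2f9583b76e90d)) (.lf (nat_lit 0x80084481e0ef59badd)) (.nd (.lf (nat_lit 0x8008318252a149ecdc)) (.lf (nat_lit 0x80e5d6eda95f648abd)) (.lf (nat_lit 0x8aec598e33c89a6cd4)) (.lf (nat_lit 0x8005dae9992e7e6bcd))) (.nd (.lf (nat_lit 0x805884871e20d0b8bb)) (.lf (nat_lit 0x82d71eccca5d22285b)) (.lf (nat_lit 0x86c4ee940e4aaf5a1e)) (.lf (nat_lit 0x8008018547c4ebac4f))))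
  _ _ _ (by decide +kernel)

theorem g3_120_56 : GD 3 120 56 :=
  GD.split (i := 2) g2_116_52 g2_124_52 g2_116_60 g2_124_60 (by decide)

noncomputable def g2_116_68 : GD 2 116 68 := chk_sound 
  (.cell (.lf (nat_lit 0x8007ff819796d6bdde)) (.lf (nat_lit 0x8008018339010b8b25)) (.lf (nat_lit 0x81265dfa48488cc979)) (.lf (nat_lit 0x80082281613b5d2ba7)) (.nd (.lf (nat_lit 0x80a8238183114b1d5a)) (.lf (nat_lit 0x800603eea9646bdaf2)) (.lf (nat_lit 0x88ea3784b2ef921da2)) (.lf (nat_lit 0x81260ae138c7a3bc34))) (.nd (.lf (nat_lit 0x80088a8390ba4d08bc)) (.lf (nat_lit 0x81d64bfc17237ce85e)) (.lf (nat_lit 0x89ff0791e53998d9ad)) (.lf (nat_lit 0x800808838841ea3c73))))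
  _ _ _ (by decide +kernel)

noncomputable def g2_124_68 : GD 2 124 68 := chk_sound 
  (.cell (.lf (nat_lit 0x80080181e894d6addb)) (.lf (nat_lit 0x8007f982f97e10cba7)) (.lf (nat_lit 0x8005f4f9487378a962)) (.lf (nat_lit 0x80084b805106598b11)) (.nd (.lf (nat_lit 0x8008298212d4493d0b)) (.lf (nat_lit 0x8007f682aaf30cc9d3)) (.lf (nat_lit 0x876c088bc3d19b9d26)) (.lf (nat_lit 0x8005dae7696877fbec))) (.nd (.lf (nat_lit 0x8178a984c0c54b688f)) (.lf (nat_lit 0x83b63ff159da551839)) (.lf (nat_lit 0x8b6f8f9aa78e96692e)) (.lf (nat_lit 0x8008018317e5eb8c55))))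
  _ _ _ (by decide +kernel)

noncomputable def g2_116_76 : GD 2 116 76 := chk_sound 
  (.cell (.lf (nat_lit 0x8007fd8367b0d6bddf)) (.lf (nat_lit 0x8007f383f9080c3b3b)) (.lf (nat_lit 0x800668fa181397f8ff)) (.lf (nat_lit 0x83e8008001525d4bd1)) (.nd (.lf (nat_lit 0x80882d81d3684afda4)) (.lf (nat_lit 0x804671d56a78387aa3)) (.lf (nat_lit 0x81e64e89137796de2d)) (.lf (nat_lit 0x80c5ebe7d97b7adbe7))) (.nd (.lf (nat_lit 0x8008508151044d5a3e)) (.lf (nat_lit 0x821663fc47117e9869)) (.lf (nat_lit 0x8acea794c48196c9d3)) (.lf (nat_lit 0x80080883585dea1c74))))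
  _ _ _ (by decide +kernel)

noncomputable def g2_124_76 : GD 2 124 76 := chk_sound .out
  _ _ _ (by decide +kernel)

theorem g3_120_72 : GD 3 120 72 :=
  GD.split (i := 2) g2_116_68 g2_124_68 g2_116_76 g2_124_76 (by decide)

noncomputable def g2_132_m44 : GD 2 132 (-44) := chk_sound 
  (.cell (.lf (nat_lit 0x8007f182e6dbf1bb7b)) (.lf (nat_lit 0x800800800951291db8)) (.nd (.lf (nat_lit 0x80080180c8241cbd0a)) (.lf (nat_lit 0x8007f9821835327e5b)) (.lf (nat_lit 0x8007b8929610faa82b)) (.nd (.lf (nat_lit 0x80f640e706ca84dc3c)) (.lf (nat_lit 0x80a7d48de718b55f29)) (.lf (nat_lit 0x8007ef81d6d7df1d39)) (.lf (nat_lit 0x8007ff82088fd2be14)))) (.lf (nat_lit 0x99af2d8c78e65b79ce)) (.lf (nat_lit 0x80067fa0ab9877eea9)) (.nd (.lf (nat_lit 0x82676e94b76012bbdb)) (.lf (nat_lit 0x800801839826183cab)) (.lf (nat_lit 0x8087b39aa693faf820)) (.lf (nat_lit 0x8027d18e09c6043857))))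
  _ _ _ (by decide +kernel)

noncomputable def g2_140_m44 : GD 2 140 (-44) := chk_sound .out
  _ _ _ (by decide +kernel)

noncomputable def g2_132_m36 : GD 2 132 (-36) := chk_sound 
  (.cell (.lf (nat_lit 0x8008008006a4ee0bda)) (.lf (nat_lit 0x8007f381a897297ddc)) (.lf (nat_lit 0x81a607f7979f7e0a05)) (.lf (nat_lit 0x855d0fa12d9885099b)) (.lf (nat_lit 0x8167a6a6ca146d3f3b)) (.nd (.lf (nat_lit 0x80080a82f7950e4ba2)) (.lf (nat_lit 0x8007f780586e164c7b)) (.lf (nat_lit 0x819649fc1736875846)) (.lf (nat_lit 0x80b765a64623f6080d))))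
  _ _ _ (by decide +kernel)

noncomputable def g2_140_m36 : GD 2 140 (-36) := chk_sound .out
  _ _ _ (by decide +kernel)

theorem g3_136_m40 : GD 3 136 (-40) :=
  GD.split (i := 2) g2_132_m44 g2_140_m44 g2_132_m36 g2_140_m36 (by decide)

noncomputable def g2_132_m28 : GD 2 132 (-28) := chk_sound 
  (.cell (.lf (nat_lit 0x8007ff83573fe74ca9)) (.lf (nat_lit 0x8038008007f429cde8)) (.nd (.lf (nat_lit 0x8027f88308f117bc88)) (.lf (nat_lit 0x8007f982e85730be44)) (.lf (nat_lit 0x8087b38f7588f8687a)) (.nd (.nd (.lf (nat_lit 0x8005f6f3873ea34982)) (.lf (nat_lit 0x800757a2065288ff7a)) (.lf (nat_lit 0x8007ed81a574e2cc66)) (.lf (nat_lit 0x81480080063dd1cde5))) (.lf (nat_lit 0x8097c88db697b28f29)) (.lf (nat_lit 0x80080180c6addabd7c)) (.lf (nat_lit 0x8008018257a6d0fe2f)))) (.lf (nat_lit 0x810872823f70a539bc)) (.lf (nat_lit 0x80f78bac09986bbf37)) (.nd (.lf (nat_lit 0x80080086686506ca7e)) (.lf (nat_lit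 0x8008018419220c6b39)) (.lf (nat_lit 0x81965eebb86940682e)) (.lf (nat_lit 0x8067ad9295daf9a84e))))
  _ _ _ (by decide +kernel)

noncomputable def g2_140_m28 : GD 2 140 (-28) := chk_sound .out
  _ _ _ (by decide +kernel)

noncomputable def g2_132_m20 : GD 2 132 (-20) := chk_sound 
  (.cell (.lf (nat_lit 0x80080182d721e42ce6)) (.lf (nat_lit 0x80280582f7712a0de5)) (.nd (.lf (nat_lit 0x8007ff8319a40e2b40)) (.lf (nat_lit 0x8007ec82c93f1f7d18)) (.lf (nat_lit 0x8007b98d5592f90848)) (.nd (.nd (.lf (nat_lit 0x8037c68b9a4e062830)) (.lf (nat_lit 0x8046f7b9670384df00)) (.lf (nat_lit 0x8007ff8265bfdf3cd8)) (.lf (nat_lit 0x8007ec81165bd28de3))) (.lf (nat_lit 0x8007c48e469eb31f25)) (.lf (nat_lit 0x8098008006c2d9ed8e)) (.lf (nat_lit 0x8007f681b778d06e33)))) (.lf (nat_lit 0x80587e82bf83a57955)) (.lf (nat_lit 0x8006caaed8806e1f3e)) (.nd (.nd (.lf (nat_lit 0x8008278111dc44cb89)) (.lf (nat_lit 0x8007ff8317dc1c9d07))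 (.lf (nat_lit 0x8007ff836690067a07)) (.lf (nat_lit 0x8007fa8659100479bd))) (.lf (nat_lit 0x8007f28309a107fa39)) (.lf (nat_lit 0x8067ca91e978039812)) (.lf (nat_lit 0x8067ba8f25d2f9e873))))
  _ _ _ (by decide +kernel)

noncomputable def g2_140_m20 : GD 2 140 (-20) := chk_sound .out
  _ _ _ (by decide +kernel)

theorem g3_136_m24 : GD 3 136 (-24) :=
  GD.split (i := 2) g2_132_m28 g2_140_m28 g2_132_m20 g2_140_m20 (by decide)

noncomputable def g2_132_m12 : GD 2 132 (-12) := chk_sound 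
  (.cell (.lf (nat_lit 0x8028008007dfe00d49)) (.lf (nat_lit 0x80080482f70e2a1dd9)) (.nd (.lf (nat_lit 0x8007f3850a06090a1b)) (.lf (nat_lit 0x8007e68269ff0dbafb)) (.lf (nat_lit 0x8057d988c5a3f9e81c)) (.lf (nat_lit 0x8175e0f2d7b0819acd))) (.lf (nat_lit 0x81088582cf93a548ec)) (.lf (nat_lit 0x80a70db4387b798f37)) (.nd (.lf (nat_lit 0x8007df8c393902d8cc)) (.lf (nat_lit 0x8027db88b9ea059930)) (.lf (nat_lit 0x80075fb569590e3808)) (.lf (nat_lit 0x8007cf8b55c7fa5827))))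
  _ _ _ (by decide +kernel)

noncomputable def g2_140_m12 : GD 2 140 (-12) := chk_sound .out
  _ _ _ (by decide +kernel)

noncomputable def g2_132_m4 : GD 2 132 (-4) := chk_sound 
  (.cell (.lf (nat_lit 0x802805836894dc7d7f)) (.lf (nat_lit 0x80081183a6c52a1dcb)) (.nd (.lf (nat_lit 0x8007d5875a2a077980)) (.lf (nat_lit 0x8007e5868a3d0949eb)) (.lf (nat_lit 0x8007c58b75a7f99860)) (.lf (nat_lit 0x8195c7f737c98409db))) (.lf (nat_lit 0x80983f815fa2a50883)) (.lf (nat_lit 0x8106a1bd986e766ed6)) (.nd (.lf (nat_lit 0x8037d48ff96003183d)) (.lf (nat_lit 0x8007eb8629fd04c8b4)) (.lf (nat_lit 0x8006d3e5a725ca3801)) (.lf (nat_lit 0x8077b68ed5b4f97859))))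
  _ _ _ (by decide +kernel)

noncomputable def g2_140_m4 : GD 2 140 (-4) := chk_sound 
  (.cell (.lf (nat_lit 0x80080082c82ee1bd29)) (.lf (nat_lit 0x8007ff8357932a5dec)) (.lf (nat_lit 0x8005e1f898077c59a1)) (.lf (nat_lit 0x80583380ef91a5b90c)) (.lf (nat_lit 0x80f707bce9467e9eda)) (.nd (.lf (nat_lit 0x8007dd8b8956029866)) (.lf (nat_lit 0x8047d68aa9de04c8cf)) (.lf (nat_lit 0x8007b798096b048826)) (.lf (nat_lit 0x8067bf8ce59ef9485b))))
  _ _ _ (by decide +kernel)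

theorem g3_136_m8 : GD 3 136 (-8) :=
  GD.split (i := 2) g2_132_m12 g2_140_m12 g2_132_m4 g2_140_m4 (by decide)

noncomputable def g2_132_4 : GD 2 132 4 := chk_sound 
  (.cell (.lf (nat_lit 0x800809823933d97d97)) (.lf (nat_lit 0x8007ff82068e29fdbd)) (.lf (nat_lit 0x8095b5f9e7c282f8c1)) (.lf (nat_lit 0x81d971871f85a4281d)) (.lf (nat_lit 0x8046a4bdf814725ed0)) (.nd (.lf (nat_lit 0x8047bc98295f046829)) (.lf (nat_lit 0x8067b79129fa056844)) (.lf (nat_lit 0x803780ac76acf5d80a)) (.lf (nat_lit 0x8087cb8c75d4fa5860))))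
  _ _ _ (by decide +kernel)

noncomputable def g2_140_4 : GD 2 140 4 := chk_sound 
  (.cell (.lf (nat_lit 0x8007ff821818e0bd3c)) (.lf (nat_lit 0x8007ff82574b2a7de7)) (.lf (nat_lit 0x80a5eff8a8217a19a6)) (.lf (nat_lit 0x80f888825f98a578b4)) (.lf (nat_lit 0x81a696bf6a0e74be73)) (.nd (.lf (nat_lit 0x8007f283395a021857)) (.lf (nat_lit 0x8007ac9509de059844)) (.lf (nat_lit 0x8007bf971967044822)) (.lf (nat_lit 0x8056debc2a02154807))))
  _ _ _ (by decide +kernel)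

noncomputable def g2_132_12 : GD 2 132 12 := chk_sound 
  (.cell (.lf (nat_lit 0x80081a8219b8d6cd9f)) (.lf (nat_lit 0x80080183870c271dab)) (.lf (nat_lit 0x8155a9f827ea824971)) (.lf (nat_lit 0x81e8a58300605b5847)) (.lf (nat_lit 0x80766ac5a790835e81)) (.nd (.lf (nat_lit 0x8067b49a995e04e823)) (.lf (nat_lit 0x8007c48d5a05050821)) (.lf (nat_lit 0x8007c793669ffc7834)) (.lf (nat_lit 0x8007dd8965dbfa48c7))))
  _ _ _ (by decide +kernel)

noncomputable def g2_140_12 : GD 2 140 12 := chk_sound .out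
  _ _ _ (by decide +kernel)

theorem g3_136_8 : GD 3 136 8 :=
  GD.split (i := 2) g2_132_4 g2_140_4 g2_132_12 g2_140_12 (by decide)

noncomputable def g2_132_20 : GD 2 132 20 := chk_sound 
  (.cell (.lf (nat_lit 0x80880080099ad6cda8)) (.lf (nat_lit 0x8007ff8307a9239d84)) (.lf (nat_lit 0x8195a7f9b8427c78b3)) (.lf (nat_lit 0x8138908290655b18a6)) (.lf (nat_lit 0x81172da646dc835f80)) (.nd (.lf (nat_lit 0x8057d590c96003281d)) (.lf (nat_lit 0x8007e284ca2204d81a)) (.lf (nat_lit 0x8007ed8366affdc89f)) (.lf (nat_lit 0x8037d789e5edf9c928))))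
  _ _ _ (by decide +kernel)

noncomputable def g2_140_20 : GD 2 140 20 := chk_sound .out
  _ _ _ (by decide +kernel)

noncomputable def g2_132_28 : GD 2 132 28 := chk_sound 
  (.cell (.lf (nat_lit 0x80081382f981d6bdaf)) (.lf (nat_lit 0x80080b83178e235d7e)) (.lf (nat_lit 0x8005a6f9585c7648a8)) (.lf (nat_lit 0x80c85481c06d5aa8ff)) (.lf (nat_lit 0x800763a0176b827fb2)) (.nd (.lf (nat_lit 0x8037b59b194f04d81c)) (.lf (nat_lit 0x800799955a3b073824)) (.lf (nat_lit 0x8007f188d6d1fd0919)) (.lf (nat_lit 0x8037e0891601f9497c))))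
  _ _ _ (by decide +kernel)

noncomputable def g2_140_28 : GD 2 140 28 := chk_sound .out
  _ _ _ (by decide +kernel)

theorem g3_136_24 : GD 3 136 24 :=
  GD.split (i := 2) g2_132_20 g2_140_20 g2_132_28 g2_140_28 (by decide)

noncomputable def g2_132_36 : GD 2 132 36 := chk_sound 
  (.cell (.lf (nat_lit 0x80080182996fd6cdb3)) (.lf (nat_lit 0x8028008008521f3d38)) (.lf (nat_lit 0x8005a4f8484b6d08a5)) (.lf (nat_lit 0x84d80080007c5a1952)) (.lf (nat_lit 0x80776ba0e80a7fafb5)) (.nd (.nd (.lf (nat_lit 0x80081b8100fd4eda4e)) (.lf (nat_lit 0x8008018203332d5bc4)) (.lf (nat_lit 0x80d890837093565949)) (.lf (nat_lit 0x8007e19388bc022814))) (.lf (nat_lit 0x8027c18bda50063827)) (.lf (nat_lit 0x800801828723fcc98b)) (.lf (nat_lit 0x8007df863615f8d9c2))))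
  _ _ _ (by decide +kernel)

noncomputable def g2_140_36 : GD 2 140 36 := chk_sound .out
  _ _ _ (by decide +kernel)

noncomputable def g2_132_44 : GD 2 132 44 := chk_sound 
  (.cell (.lf (nat_lit 0x8007ff82f963d6ddb5)) (.lf (nat_lit 0x80080182f8481edd31)) (.lf (nat_lit 0x8005f7e3696b39e82c)) (.lf (nat_lit 0x81a88182b09159999f)) (.lf (nat_lit 0x80e753a288a87d2fa4)) (.nd (.nd (.lf (nat_lit 0x80084e8091094eba6b)) (.lf (nat_lit 0x80582782628835eb8a)) (.lf (nat_lit 0x80088282b09d55e979)) (.nd (.lf (nat_lit 0x83d8008000db4eb9d4)) (.lf (nat_lit 0x80082087c60106e98d)) (.lf (nat_lit 0x8178998390905498eb)) (.lf (nat_lit 0x804811b0d827f6480a)))) (.lf (nat_lit 0x80779494da75084828)) (.lf (nat_lit 0x800813858927f95a3d)) (.lf (nat_lit 0x8007ec84c649f63a85))))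
  _ _ _ (by decide +kernel)

noncomputable def g2_140_44 : GD 2 140 44 := chk_sound .out
  _ _ _ (by decide +kernel)

theorem g3_136_40 : GD 3 136 40 :=
  GD.split (i := 2) g2_132_36 g2_140_36 g2_132_44 g2_140_44 (by decide)

end Pool.Agent.P.MP_f12b6c_an.Dg
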