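import Pool.Agent.P.MP_f12b6c_an.T3DgTree

/-!
The test of one cell of the diagonal statement and the passage to `Diag`.
-/

namespace Pool.Agent.P.MP_f12b6c_an.Dg

/-- Evaluate a number and pass it on. -/
noncomputable def gN (n : ℕ) (k : ℕ → Bool) : Bool :=
  @Nat.rec (fun _ => Bool) (k (nat_lit 0)) (fun m _ => k (Nat.succ m)) n

/-- Evaluate an integer and pass it on. -/
noncomputable def gZ (z : ℤ) (k : ℤ → Bool) : Bool :=
  @Int.rec (fun _ => Bool) (fun n => gN n fun n => k (Int.ofNat n))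
    (fun n => gN n fun n => k (Int.negSucc n)) z

/-- Evaluate a list of integers and pass it on. -/
noncomputable def gL (l : List ℤ) : (List ℤ → Bool) → Bool :=
  @List.rec ℤ (fun _ => (List ℤ → Bool) → Bool) (fun k => k [])
    (fun c _ r k => gZ c fun c => r fun l => k (c :: l)) l

/-- Evaluate a list of rows and pass it on. -/
noncomputable def gLL (l : List (List ℤ)) : (List (List ℤ) → Bool) → Bool :=
  @List.rec (List ℤ) (fun _ => (List (List ℤ) → Bool) → Bool) (fun k => k [])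
    (fun c _ r k => gL c fun c => r fun l => k (c :: l)) l

/-- Evaluate six lists of rows and pass them on. -/
noncomputable def g6 (Q : Six (List (List ℤ))) (k : Six (List (List ℤ)) → Bool) : Bool :=
  gLL Q.f00 fun a => gLL Q.f01 fun b => gLL Q.f02 fun c => gLL Q.f11 fun d => gLL Q.f12 fun e =>
    gLL Q.f22 fun f => k ⟨a, b, c, d, e, f⟩

theorem gN_eq (n : ℕ) (k : ℕ → Bool) : gN n k = k n := by
  cases n <;> rfl

theorem gZ_eq (z : ℤ) (k : ℤ → Bool) : gZ z k = k z := by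
  rcases z with n | n
  · exact gN_eq n fun n => k (Int.ofNat n)
  · exact gN_eq n fun n => k (Int.negSucc n)

theorem gL_eq : ∀ (l : List ℤ) (k : List ℤ → Bool), gL l k = k l
  | [], _ => rfl
  | c :: l, k => by
    show gZ c (fun c => gL l fun l => k (c :: l)) = _
    rw [gZ_eq, gL_eq l]

theorem gLL_eq : ∀ (l : List (List ℤ)) (k : List (List ℤ) → Bool), gLL l k = k l
  | [], _ => rfl
  | c :: l, k => by
    show gL c (fun c => gLL l fun l => k (c :: l)) = _
    rw [gL_eq, gLL_eq l]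

theorem g6_eq (Q : Six (List (List ℤ))) (k : Six (List (List ℤ)) → Bool) : g6 Q k = k Q := by
  simp only [g6, gLL_eq]

/-- The test of a cell of radius `2 ^ j`; `tq` computes the model and `tk` checks it. -/
noncomputable def clF (C : DC) (M E : ℕ) (tq : ℤ → ℤ → Six (List (List ℤ)))
    (tk : ℤ → ℤ → Six (List (List ℤ)) → Bool) (j : ℕ) (a b : ℤ) (f0 f1 f2 f3 f4 f5 : FT) : Bool :=
  gZ a fun a => gZ b fun b => g6 (tq a b) fun Q => and (and (Nat.ble j 2) (tk a b Q))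
    (six (leaf C (mkD C.P 32 M E (Int.ofNat (nat_lit 4294967296)) (Int.ofNat (nat_lit 1728315392))
      (Nat.sub 2 j) (Nat.mul (Nat.succ (Nat.sub 2 j)) (Nat.succ C.P.D)) Q)) f0 f1 f2 f3 f4 f5)

/-- The statement at the midpoint `(x, y) / 128`. -/
def TD (F : ℝ → ℝ → Mat 3) (x y : ℝ) : Prop :=
  DiagAt (1 / 2) 4 (6593 / 4096) (1 / 2 ^ 54) (1 / 32) (1 / 16) F (x / 128) (y / 128)

theorem clF_sound {C : DC} (hC : C.Ok) {MQ M E ε L : ℕ} {tq : ℤ → ℤ → Six (List (List ℤ))}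
    {tk : ℤ → ℤ → Six (List (List ℤ)) → Bool} {F : ℝ → ℝ → Mat 3}
    (hM : M = C.P.ns * C.P.n * MQ) (hE : 1024 * (1 + L + 6 * ε) ≤ E)
    (hT : ∀ a b Q, tk a b Q = true → TopS F 128 28 a b 8 Q ε L ∧
      ∀ l ∈ [Q.f00, Q.f01, Q.f02, Q.f11, Q.f12, Q.f22], ∃ N,
        Rep2 C.P.K C.P.n (C.P.D + 1) MQ N fun s t => opsR.h2 s t l) (t : CT) (j : ℕ) (a b : ℤ)
    (H : goC (clF C M E tq tk) 18496 t j a b = true) : GoodC (TD F) 18496 j a b := by
  refine goC_sound (fun j a b f0 f1 f2 f3 f4 f5 H s t hs ht _ => ?_) t j a b H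
  rw [clF, gZ_eq, gZ_eq, g6_eq, Bool.and_eq_true, Bool.and_eq_true] at H
  obtain ⟨⟨h1, h2⟩, h3⟩ := H
  have hj : j ≤ 2 := Nat.le_of_ble_eq_true h1
  obtain ⟨i, hi⟩ := Nat.exists_eq_add_of_le' hj
  obtain ⟨t1, t2⟩ := hT a b _ h2
  have e : Nat.sub 2 j = i := by show 2 - j = i; omega
  have hK := hC.P.1
  rw [e, hM] at h3
  have := cell_sound hC rfl (k := 1 / 2) (r1 := 4) (r2 := 6593 / 4096) (c0 := 1 / 2 ^ 54)
    (dt := 1 / 16) (h := 128) (ε := ε) (L := L) (q := 28) (i := i) (j := j) (a := a) (b := b) (F := F)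
    (by norm_num) (by omega) (by norm_num) (by norm_num) (by norm_num) (by norm_num)
    (Nat.cast_nonneg _) (by
      have : ((1024 * (1 + L + 6 * ε) : ℕ) : ℝ) ≤ E := Nat.cast_le.2 hE
      push_cast at this ⊢
      linarith) (by rw [← hi]; exact t1) t2 h3 hs ht
  rw [← hi] at this
  rw [TD, show (1 : ℝ) / 32 = 2 ^ 2 / 128 by norm_num]
  exact this

theorem diag_of_root {F : ℝ → ℝ → Mat 3} (h : GoodC (TD F) 18496 8 0 0) :
    Diag (1 / 2) 4 (6593 / 4096) (1 / 2 ^ 54) (1 / 32) (1 / 16) (17 / 16) F := by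
  refine diag_of_at (by norm_num) (by norm_num) fun m1 m2 hm => ?_
  have b1 : |m1 / 2| ≤ 1 := abs_le.2 ⟨by nlinarith [sq_nonneg m2], by nlinarith [sq_nonneg m2]⟩
  have b2 : |m2 / 2| ≤ 1 := abs_le.2 ⟨by nlinarith [sq_nonneg m1], by nlinarith [sq_nonneg m1]⟩
  have := h _ _ b1 b2 (by push_cast; nlinarith)
  rw [TD] at this
  convert this using 1 <;> push_cast <;> ring

end Pool.Agent.P.MP_f12b6c_an.Dg
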