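import Pool.Agent.P.MP_f12b6c_an.T3Poly

/-!
The stereographic chart and the reduction of `Model` to statements in the chart.
-/

namespace Pool.Agent.P.MP_f12b6c_an

open Matrix

/-- The stereographic chart of the unit sphere. -/
noncomputable def cht (s t : ℝ) : E 3 :=
  WithLp.toLp 2 ![2 * s / (1 + s ^ 2 + t ^ 2), 2 * t / (1 + s ^ 2 + t ^ 2),
    (1 - s ^ 2 - t ^ 2) / (1 + s ^ 2 + t ^ 2)]

/-- The reduced Hessian in the chart. -/
noncomputable def Mc (k r1 r2 : ℝ) (p : E 3 → ℝ) (s t : ℝ) : Mat 3 := Mt k 0 r1 r2 p (cht s t)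

/-- The pair matrix of two symmetric matrices. -/
noncomputable def Wm (k r1 r2 : ℝ) (U V : Mat 3) (t : ℝ) : Mat 3 :=
  (1 - t • gen k 0)ᵀ * U * (1 - t • gen k 0) + (1 + t • gen k 0)ᵀ * V * (1 + t • gen k 0)
    + (2 * t) • cro r1 r2

/-- The statement for pairs of points away from the diagonal; the zone around the diagonal is
only left out if `dg` holds. -/
def Far (k r1 r2 T c del delt e : ℝ) (dg : Prop) (FU FV : ℝ → ℝ → Mat 3) : Prop :=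
  ∀ p1 p2 q1 q2 t : ℝ, p1 ^ 2 + p2 ^ 2 ≤ 1 → q1 ^ 2 + q2 ^ 2 ≤ e ^ 2 → 0 ≤ t →
    ¬ (dg ∧ |p1 - q1| ≤ 2 * del ∧ |p2 - q2| ≤ 2 * del ∧ t ≤ delt) →
    ∃ A : Mat 3, A.PosSemidef ∧ A.trace ≤ 1 ∧
      c ≤ (A * Wm k r1 r2 (FU p1 p2) (FV q1 q2) t).trace ∧ (T ≤ t → A 1 1 = 0)

/-- The statement for pairs of points near the diagonal. -/
def Diag (k r1 r2 c del delt e : ℝ) (F : ℝ → ℝ → Mat 3) : Prop :=
  ∀ m1 m2 d1 d2 t : ℝ, m1 ^ 2 + m2 ^ 2 ≤ e ^ 2 → |d1| ≤ del → |d2| ≤ del → |t| ≤ delt →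
    ∃ A : Mat 3, A.PosSemidef ∧ A.trace ≤ 1 ∧
      c * max (max (|d1| / del) (|d2| / del)) (|t| / delt) ≤
        (A * Wm k r1 r2 (F (m1 + d1) (m2 + d2)) (-F (m1 - d1) (m2 - d2)) t).trace

theorem Nm_eq_Wm (k r1 r2 : ℝ) (p : E 3 → ℝ) (u v : E 3) (t : ℝ) :
    Nm k 0 r1 r2 p u v t = Wm k r1 r2 (Mt k 0 r1 r2 p u) (-Mt k 0 r1 r2 p v) t := by
  unfold Nm Wm
  rw [Matrix.mul_neg, Matrix.neg_mul, sub_eq_add_neg]

private lemma t3g_0 (s t : ℝ) : cht s t 0 = 2 * s / (1 + s ^ 2 + t ^ 2) := rfl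
private lemma t3g_1 (s t : ℝ) : cht s t 1 = 2 * t / (1 + s ^ 2 + t ^ 2) := rfl
private lemma t3g_2 (s t : ℝ) : cht s t 2 = (1 - s ^ 2 - t ^ 2) / (1 + s ^ 2 + t ^ 2) := rfl

private lemma t3g_sq (y : E 3) : ‖y‖ ^ 2 = y 0 ^ 2 + y 1 ^ 2 + y 2 ^ 2 := by
  rw [EuclideanSpace.norm_sq_eq]
  simp [Fin.sum_univ_three]

private lemma t3g_surj {y : E 3} (hy : ‖y‖ = 1) (h : -1 < y 2) :
    ∃ s t : ℝ, y = cht s t ∧ (s ^ 2 + t ^ 2) * (1 + y 2) = 1 - y 2 := by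
  have h1 : y 0 ^ 2 + y 1 ^ 2 + y 2 ^ 2 = 1 := by rw [← t3g_sq, hy]; norm_num
  have h2 : 1 + y 2 ≠ 0 := by linarith
  have h3 : (y 0 / (1 + y 2)) ^ 2 + (y 1 / (1 + y 2)) ^ 2 = (1 - y 2) / (1 + y 2) := by
    field_simp
    linear_combination h1
  have h4 : 1 + (y 0 / (1 + y 2)) ^ 2 + (y 1 / (1 + y 2)) ^ 2 = 2 / (1 + y 2) := by
    rw [add_assoc, h3]; field_simp; ring
  have h5 : 1 - (y 0 / (1 + y 2)) ^ 2 - (y 1 / (1 + y 2)) ^ 2 = 2 * y 2 / (1 + y 2) := by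
    rw [sub_sub, h3]; field_simp; ring
  refine ⟨y 0 / (1 + y 2), y 1 / (1 + y 2), ?_, by rw [h3]; field_simp⟩
  ext i
  fin_cases i
  · show y 0 = cht _ _ 0
    rw [t3g_0, h4]; field_simp
  · show y 1 = cht _ _ 1
    rw [t3g_1, h4]; field_simp
  · show y 2 = cht _ _ 2
    rw [t3g_2, h4, h5]; field_simp

private lemma t3g_cover {y : E 3} (hy : ‖y‖ = 1) {e : ℝ} (he : 0 < e) :
    (∃ s t : ℝ, y = cht s t ∧ s ^ 2 + t ^ 2 ≤ e ^ 2) ∨
      ∃ s t : ℝ, y = sigE (cht s t) ∧ s ^ 2 + t ^ 2 ≤ (1 / e) ^ 2 := by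
  have h1 : y 0 ^ 2 + y 1 ^ 2 + y 2 ^ 2 = 1 := by rw [← t3g_sq, hy]; norm_num
  have he2 : 0 < e ^ 2 := by positivity
  rcases le_total (1 - y 2) (e ^ 2 * (1 + y 2)) with h | h
  · have h2 : -1 < y 2 := by nlinarith
    obtain ⟨s, t, e1, e2⟩ := t3g_surj hy h2
    refine Or.inl ⟨s, t, e1, ?_⟩
    have h3 : 0 < 1 + y 2 := by linarith
    exact le_of_mul_le_mul_right (by rw [e2]; exact h) h3
  · have e0 : sigE y 2 = -y 2 := rfl
    have h2 : -1 < sigE y 2 := by rw [e0]; nlinarith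
    obtain ⟨s, t, e1, e2⟩ := t3g_surj (y := sigE y) (by rw [norm_sigE, hy]) h2
    refine Or.inr ⟨s, t, by rw [← e1, sigE_sigE], ?_⟩
    rw [e0] at e2 h2
    have h3 : 0 < 1 + -y 2 := by linarith
    refine le_of_mul_le_mul_right ?_ h3
    rw [e2, div_pow, one_pow, div_mul_eq_mul_div, le_div_iff₀ he2]
    linarith

theorem norm_cht (s t : ℝ) : ‖cht s t‖ = 1 := by
  have h : ‖cht s t‖ ^ 2 = 1 := by
    rw [t3g_sq, t3g_0, t3g_1, t3g_2]
    field_simp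
    ring
  exact (pow_eq_one_iff_of_nonneg (norm_nonneg _) two_ne_zero).1 h

private lemma t3g_lip (a b c d : ℝ) : ‖cht a b - cht c d‖ ≤ 2 * (|a - c| + |b - d|) := by
  have h : ‖cht a b - cht c d‖ ^ 2 =
      4 * ((a - c) ^ 2 + (b - d) ^ 2) / ((1 + a ^ 2 + b ^ 2) * (1 + c ^ 2 + d ^ 2)) := by
    rw [t3g_sq]
    simp only [PiLp.sub_apply, t3g_0, t3g_1, t3g_2]
    field_simp
    ring
  have h1 : 1 ≤ (1 + a ^ 2 + b ^ 2) * (1 + c ^ 2 + d ^ 2) :=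
    one_le_mul_of_one_le_of_one_le (by nlinarith) (by nlinarith)
  refine (abs_le_of_sq_le_sq' ?_ (by positivity)).2
  rw [h]
  refine (div_le_self (by positivity) h1).trans ?_
  nlinarith [sq_abs (a - c), sq_abs (b - d), mul_nonneg (abs_nonneg (a - c)) (abs_nonneg (b - d))]

private lemma t3g_sig (N : Mat 3) : sig * N * sig =
    !![N 0 0, -N 0 1, -N 0 2; -N 1 0, N 1 1, N 1 2; -N 2 0, N 2 1, N 2 2] := by
  ext i j
  fin_cases i <;> fin_cases j <;> simp [sig, Matrix.mul_apply, Fin.sum_univ_three, vecMul, dotProduct]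

/-- The entries of the pair matrix. -/
theorem Wm_eq (k r1 r2 : ℝ) (U V : Mat 3) (t : ℝ) : Wm k r1 r2 U V t =
    !![U 0 0 + V 0 0, U 0 1 + V 0 1 - t * k * (U 0 2 - V 0 2) + 2 * t * r1, U 0 2 + V 0 2 + 2 * t * r2;
      U 1 0 + V 1 0 - t * k * (U 2 0 - V 2 0) + 2 * t * r1,
      U 1 1 + V 1 1 - t * k * (U 1 2 + U 2 1 - V 1 2 - V 2 1) + (t * k) ^ 2 * (U 2 2 + V 2 2),
      U 1 2 + V 1 2 - t * k * (U 2 2 - V 2 2);
      U 2 0 + V 2 0 + 2 * t * r2, U 2 1 + V 2 1 - t * k * (U 2 2 - V 2 2), U 2 2 + V 2 2] := by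
  have e1 : (1 - t • gen k 0 : Mat 3) = !![1, 0, 0; 0, 1, 0; 0, -(t * k), 1] := by
    ext i j; fin_cases i <;> fin_cases j <;> simp [gen]
  have e2 : (1 + t • gen k 0 : Mat 3) = !![1, 0, 0; 0, 1, 0; 0, t * k, 1] := by
    ext i j; fin_cases i <;> fin_cases j <;> simp [gen]
  have e3 : ∀ x : ℝ, (!![1, 0, 0; 0, 1, 0; 0, x, 1] : Mat 3)ᵀ = !![1, 0, 0; 0, 1, x; 0, 0, 1] := by
    intro x; ext i j; fin_cases i <;> fin_cases j <;> rfl
  unfold Wm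
  rw [e1, e2, e3, e3]
  ext i j
  fin_cases i <;> fin_cases j <;>
    simp [cro, Matrix.mul_apply, Fin.sum_univ_three, vecMul, dotProduct] <;> ring

private lemma t3g_flip (k r1 r2 : ℝ) (U V : Mat 3) (t : ℝ) :
    Wm k r1 r2 (-(sig * U * sig)) (sig * V * sig) t = sig * Wm k r1 r2 V (-U) (-t) * sig := by
  rw [t3g_sig, t3g_sig, t3g_sig, Wm_eq, Wm_eq]
  ext i j
  fin_cases i <;> fin_cases j <;> simp <;> ring

private lemma t3g_conj {A : Mat 3} (h : A.PosSemidef) (N : Mat 3) :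
    (sig * A * sig).PosSemidef ∧ (sig * A * sig).trace = A.trace ∧
      (sig * A * sig * (sig * N * sig)).trace = (A * N).trace := by
  have h1 : sigᴴ = sig := by
    ext i j
    fin_cases i <;> fin_cases j <;> simp [sig]
  refine ⟨by simpa only [h1] using h.mul_mul_conjTranspose_same sig, ?_, ?_⟩
  · rw [t3g_sig]
    simp [Matrix.trace, Fin.sum_univ_three]
  · rw [t3g_sig, t3g_sig]
    simp [Matrix.trace, Matrix.mul_apply, Fin.sum_univ_three, add_assoc]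

private lemma t3g_diag {k r1 r2 c del delt e : ℝ} {F : ℝ → ℝ → Mat 3} (hc : 0 < c) (hd : 0 < del)
    (ht : 0 < delt) (he : 0 < e) (h : Diag k r1 r2 c del delt ((1 + e) / 2) F) {a b a' b' t : ℝ}
    (h1 : (a ^ 2 + b ^ 2 ≤ 1 ∧ a' ^ 2 + b' ^ 2 ≤ e ^ 2) ∨
      (a' ^ 2 + b' ^ 2 ≤ 1 ∧ a ^ 2 + b ^ 2 ≤ e ^ 2))
    (h2 : |a - a'| ≤ 2 * del) (h3 : |b - b'| ≤ 2 * del) (h4 : |t| ≤ delt) :
    ∃ A : Mat 3, A.PosSemidef ∧ A.trace ≤ 1 ∧
      c / (8 * del + delt) * (2 * (|a - a'| + |b - b'|) + |t|) ≤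
        (A * Wm k r1 r2 (F a b) (-F a' b') t).trace := by
  have key : ∀ x y x' y' : ℝ, x ^ 2 + y ^ 2 ≤ 1 → x' ^ 2 + y' ^ 2 ≤ e ^ 2 →
      x * x' + y * y' ≤ e := fun x y x' y' g1 g2 => by
    refine (abs_le_of_sq_le_sq' ?_ he.le).2
    nlinarith [sq_nonneg (x * y' - y * x'), mul_le_mul g1 g2 (by positivity) zero_le_one]
  have hm : ((a + a') / 2) ^ 2 + ((b + b') / 2) ^ 2 ≤ ((1 + e) / 2) ^ 2 := by
    rcases h1 with ⟨g1, g2⟩ | ⟨g1, g2⟩ <;> nlinarith [key _ _ _ _ g1 g2]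
  have a1 : |(a - a') / 2| = |a - a'| / 2 := by rw [abs_div, abs_two]
  have a2 : |(b - b') / 2| = |b - b'| / 2 := by rw [abs_div, abs_two]
  obtain ⟨A, g1, g2, g3⟩ := h ((a + a') / 2) ((b + b') / 2) ((a - a') / 2) ((b - b') / 2) t hm
    (by rw [a1]; linarith) (by rw [a2]; linarith) h4
  refine ⟨A, g1, g2, le_trans ?_ (g3.trans_eq ?_)⟩
  · rw [a1, a2]
    generalize hM : max (max (|a - a'| / 2 / del) (|b - b'| / 2 / del)) (|t| / delt) = M
    have b1 : |a - a'| / 2 / del ≤ M := hM ▸ (le_max_left _ _).trans (le_max_left _ _)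
    have b2 : |b - b'| / 2 / del ≤ M := hM ▸ (le_max_right _ _).trans (le_max_left _ _)
    have b3 : |t| / delt ≤ M := hM ▸ le_max_right _ _
    rw [div_le_iff₀ hd] at b1 b2
    rw [div_le_iff₀ ht] at b3
    rw [div_mul_eq_mul_div, div_le_iff₀ (by positivity), mul_assoc]
    exact mul_le_mul_of_nonneg_left (by linarith) hc.le
  · have q1 : (a + a') / 2 + (a - a') / 2 = a := by ring
    have q2 : (b + b') / 2 + (b - b') / 2 = b := by ring
    have q3 : (a + a') / 2 - (a - a') / 2 = a' := by ring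
    have q4 : (b + b') / 2 - (b - b') / 2 = b' := by ring
    rw [q1, q2, q3, q4]

/-- The reduction of `Model` to four far statements and one diagonal statement. -/
theorem model_of_cert {k r1 r2 T c del delt e : ℝ} {p : E 3 → ℝ} (hk : 0 < k) (hk1 : k < 1)
    (hr : 0 < r2) (hc : 0 < c) (hd : 0 < del) (ht : 0 < delt) (hT : delt < T) (he : 0 < e)
    (hp : ContDiff ℝ 3 p) (ho : ∀ y, p (sigE y) = -p y)
    (f1 : Far k r1 r2 T c del delt e True (Mc k r1 r2 p) fun s t => -Mc k r1 r2 p s t)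
    (f2 : Far k r1 r2 T c del delt e True (fun s t => -(sig * Mc k r1 r2 p s t * sig))
      fun s t => sig * Mc k r1 r2 p s t * sig)
    (f3 : Far k r1 r2 T c del delt (1 / e) False (Mc k r1 r2 p)
      fun s t => sig * Mc k r1 r2 p s t * sig)
    (f4 : Far k r1 r2 T c del delt (1 / e) False (fun s t => -(sig * Mc k r1 r2 p s t * sig))
      fun s t => -Mc k r1 r2 p s t)
    (dg : Diag k r1 r2 c del delt ((1 + e) / 2) (Mc k r1 r2 p)) :
    Model k r1 r2 T (c / (8 * del + delt + 2 + T)) p := by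
  have hT0 : 0 < T := ht.trans hT
  have hs : ∀ s t, Mt k 0 r1 r2 p (sigE (cht s t)) = -(sig * Mc k r1 r2 p s t * sig) :=
    fun s t => Mt_sig k 0 r1 r2 (hp.of_le (by norm_num)) ho _
  have main : ∀ u v : E 3, ‖u‖ = 1 → ‖v‖ = 1 → ∀ t, 0 ≤ t →
      (∃ A : Mat 3, A.PosSemidef ∧ A.trace ≤ 1 ∧ c ≤ (A * Nm k 0 r1 r2 p u v t).trace ∧
        (T ≤ t → A 1 1 = 0)) ∨
      (t ≤ delt ∧ ∃ A : Mat 3, A.PosSemidef ∧ A.trace ≤ 1 ∧
        c / (8 * del + delt) * (‖u - v‖ + t) ≤ (A * Nm k 0 r1 r2 p u v t).trace) := by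
    intro u v hu hv t h0
    have hq : 0 ≤ c / (8 * del + delt) := by positivity
    rw [Nm_eq_Wm]
    rcases t3g_cover hu one_pos with ⟨a, b, rfl, h1⟩ | ⟨a, b, rfl, h1⟩
    · rw [one_pow] at h1
      rcases t3g_cover hv he with ⟨a', b', rfl, h2⟩ | ⟨a', b', rfl, h2⟩
      · by_cases hz : True ∧ |a - a'| ≤ 2 * del ∧ |b - b'| ≤ 2 * del ∧ t ≤ delt
        · obtain ⟨A, g1, g2, g3⟩ := t3g_diag (t := t) hc hd ht he dg (Or.inl ⟨h1, h2⟩) hz.2.1
            hz.2.2.1 (by rw [abs_of_nonneg h0]; exact hz.2.2.2)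
          refine Or.inr ⟨hz.2.2.2, A, g1, g2, le_trans ?_ g3⟩
          rw [abs_of_nonneg h0]
          exact mul_le_mul_of_nonneg_left (by linarith [t3g_lip a b a' b']) hq
        · exact Or.inl (f1 a b a' b' t h1 h2 h0 hz)
      · rw [hs, neg_neg]
        exact Or.inl (f3 a b a' b' t h1 h2 h0 fun hz => hz.1)
    · rw [div_one, one_pow] at h1
      rcases t3g_cover (y := sigE v) (by rw [norm_sigE, hv]) he with ⟨a', b', e1, h2⟩ | ⟨a', b', e1, h2⟩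
      · obtain rfl : v = sigE (cht a' b') := by rw [← e1, sigE_sigE]
        rw [hs, hs, neg_neg]
        by_cases hz : True ∧ |a - a'| ≤ 2 * del ∧ |b - b'| ≤ 2 * del ∧ t ≤ delt
        · obtain ⟨A, g1, g2, g3⟩ := t3g_diag (t := -t) hc hd ht he dg (Or.inr ⟨h1, h2⟩)
            (by rw [abs_sub_comm]; exact hz.2.1) (by rw [abs_sub_comm]; exact hz.2.2.1)
            (by rw [abs_neg, abs_of_nonneg h0]; exact hz.2.2.2)
          obtain ⟨c1, c2, c3⟩ := t3g_conj g1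
            (Wm k r1 r2 (Mc k r1 r2 p a' b') (-Mc k r1 r2 p a b) (-t))
          refine Or.inr ⟨hz.2.2.2, sig * A * sig, c1, c2.trans_le g2, ?_⟩
          rw [t3g_flip, c3]
          refine le_trans ?_ g3
          rw [abs_neg, abs_of_nonneg h0]
          have e2 : sigE (cht a b) - sigE (cht a' b') = sigE (cht a b - cht a' b') := by
            ext i
            fin_cases i <;> simp [sigE] <;> ring
          rw [e2, norm_sigE, norm_sub_rev]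
          exact mul_le_mul_of_nonneg_left (by linarith [t3g_lip a' b' a b]) hq
        · exact Or.inl (f2 a b a' b' t h1 h2 h0 hz)
      · obtain rfl : v = cht a' b' := by rw [← sigE_sigE v, e1, sigE_sigE]
        rw [hs]
        exact Or.inl (f4 a b a' b' t h1 h2 h0 fun hz => hz.1)
  have hpos : 0 < 8 * del + delt + 2 + T := by positivity
  refine ⟨hk, hk1, hr, hT0, by positivity, hp, ho, fun u v hu hv t h0 h1 => ?_,
    fun u v hu hv t h1 => ?_⟩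
  · have hn : ‖u - v‖ ≤ 2 := by linarith [norm_sub_le u v]
    rcases main u v hu hv t h0 with ⟨A, g1, g2, g3, -⟩ | ⟨-, A, g1, g2, g3⟩
    · refine ⟨A, g1, g2, le_trans ?_ g3⟩
      rw [div_mul_eq_mul_div, div_le_iff₀ hpos]
      exact mul_le_mul_of_nonneg_left (by linarith) hc.le
    · refine ⟨A, g1, g2, le_trans ?_ g3⟩
      exact mul_le_mul_of_nonneg_right
        (div_le_div_of_nonneg_left hc.le (by positivity) (by linarith)) (by positivity)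
  · rcases main u v hu hv t (hT0.le.trans h1) with ⟨A, g1, g2, g3, g4⟩ | ⟨g, -⟩
    · exact ⟨A, g1, g2, g4 h1, (div_le_self hc.le (by linarith)).trans g3⟩
    · linarith

/-- The reduced Hessian of a polynomial profile in the chart scaled by `h`. -/
theorem Mc_pol {kn kd r1 r2 : ℤ} {D L : ℕ} {l : List Mono} (hl : degLe (L + 2) l) (hD : D ≠ 0)
    (hk0 : 0 ≤ kn) (hk : kn < kd) {h : ℝ} (hh : 0 < h) (S T : ℝ) :
    0 < opsR.den kn kd L (2 * h * T) (h ^ 2 - (S ^ 2 + T ^ 2)) (h ^ 2 + (S ^ 2 + T ^ 2)) ∧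
    Mc (kn / kd) (r1 / D) (r2 / D) (pol D l) (S / h) (T / h) =
      (1 / (D * opsR.den kn kd L (2 * h * T) (h ^ 2 - (S ^ 2 + T ^ 2)) (h ^ 2 + (S ^ 2 + T ^ 2)))) •
        (opsR.num kn kd r1 r2 L l (2 * h * S) (2 * h * T) (h ^ 2 - (S ^ 2 + T ^ 2))
          (h ^ 2 + (S ^ 2 + T ^ 2))).mat := by
  have hw : 0 < h ^ 2 + (S ^ 2 + T ^ 2) := by positivity
  have e0 : (h ^ 2 + (S ^ 2 + T ^ 2)) * cht (S / h) (T / h) 0 = 2 * h * S := by
    rw [t3g_0]; field_simp; ring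
  have e1 : (h ^ 2 + (S ^ 2 + T ^ 2)) * cht (S / h) (T / h) 1 = 2 * h * T := by
    rw [t3g_1]; field_simp; ring
  have e2 : (h ^ 2 + (S ^ 2 + T ^ 2)) * cht (S / h) (T / h) 2 = h ^ 2 - (S ^ 2 + T ^ 2) := by
    rw [t3g_2]; field_simp; ring
  have k0 : (0 : ℝ) ≤ kn := by exact_mod_cast hk0
  have k1 : (kn : ℝ) < kd := by exact_mod_cast hk
  have k2 : (0 : ℝ) < kd := k0.trans_lt k1
  have hn : cht (S / h) (T / h) 0 ^ 2 + cht (S / h) (T / h) 1 ^ 2 + cht (S / h) (T / h) 2 ^ 2 = 1 := by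
    rw [← t3g_sq, norm_cht]; norm_num
  have hd : 0 < 1 + (kn : ℝ) / kd * (cht (S / h) (T / h) 1 * cht (S / h) (T / h) 2) := by
    have q0 : (0 : ℝ) ≤ kn / kd := by positivity
    have q1 : (kn : ℝ) / kd ≤ 1 := (div_le_one k2).2 k1.le
    have q2 : -(1 / 2) ≤ cht (S / h) (T / h) 1 * cht (S / h) (T / h) 2 := by
      nlinarith [sq_nonneg (cht (S / h) (T / h) 1 + cht (S / h) (T / h) 2),
        sq_nonneg (cht (S / h) (T / h) 0)]
    nlinarith [mul_le_mul_of_nonneg_left q2 q0]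
  refine ⟨?_, ?_⟩
  · rw [← e1, ← e2, opsR_den]
    refine mul_pos (pow_pos hw _) (pow_pos ?_ _)
    generalize h ^ 2 + (S ^ 2 + T ^ 2) = w at hw
    have : (kd : ℝ) * (w * w) + kn * (w * cht (S / h) (T / h) 1 * (w * cht (S / h) (T / h) 2)) =
        kd * (w * w) * (1 + (kn : ℝ) / kd * (cht (S / h) (T / h) 1 * cht (S / h) (T / h) 2)) := by
      field_simp
    rw [this]
    positivity
  · have := Mt_pol (kn := kn) (r1 := r1) (r2 := r2) hl hD (by omega : kd ≠ 0) (cht (S / h) (T / h))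
      hw.ne' hd.ne'
    rwa [e0, e1, e2] at this

end Pool.Agent.P.MP_f12b6c_an
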