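import Pool.Agent.P.MP_f12b6c_an.T3Lan
import Pool.Agent.P.MP_f12b6c_an.T3Geo

/-!
The test for one cell of midpoints and one patch of directions near the diagonal.
-/

namespace Pool.Agent.P.MP_f12b6c_an.Dg

open Matrix

/-- Integer vectors. -/
structure V3 where
  x : ℤ
  y : ℤ
  z : ℤ

/-- Nine coefficients. -/
structure C9 where
  a0 : ℤ
  a1 : ℤ
  a2 : ℤ
  a3 : ℤ
  b0 : ℤ
  b1 : ℤ
  b2 : ℤ
  c0 : ℤ
  c1 : ℤ

/-- The cubic form in the direction. -/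
def cubF {R : Type} (o : Ops R) (W2 W1 : ℤ) (c : C9) (X Y Z : R) : R :=
  o.ad (o.sb (o.sm W2 (o.ad (o.mu X (o.ad (o.mu X (o.ad (o.sm c.a0 X) (o.sm c.a1 Y)))
      (o.sm c.a2 (o.mu Y Y)))) (o.sm c.a3 (o.mu Y (o.mu Y Y)))))
    (o.sm W1 (o.mu Z (o.ad (o.mu X (o.ad (o.sm c.b0 X) (o.sm c.b1 Y))) (o.sm c.b2 (o.mu Y Y))))))
    (o.mu (o.mu Z Z) (o.ad (o.sm c.c0 X) (o.sm c.c1 Y)))

/-- The lane of a monomial. -/
def DP.ln (P : DP) (i j : ℕ) : ℕ := Nat.add i (Nat.mul P.n j)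

/-- A packed affine function. -/
noncomputable def DP.af (P : DP) (a b c : ℤ) : ℤ :=
  iadd (iadd a (ishl b P.K)) (ishl c (Nat.mul P.K P.n))

/-- The bound of an affine function. -/
noncomputable def ab3 (a b c : ℤ) : ℕ := Nat.add (Nat.add (iabs a) (iabs b)) (iabs c)

/-- The numbers attached to one polynomial, modulo a power of two. -/
structure EN where
  P0 : ℕ
  D1 : ℕ
  D2 : ℕ
  R3 : ℕ
  R2 : ℕ
  R1 : ℕ

/-- Sum. -/
def EN.ad (a b : EN) : EN :=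
  ⟨Nat.add a.P0 b.P0, Nat.add a.D1 b.D1, Nat.add a.D2 b.D2, Nat.add a.R3 b.R3, Nat.add a.R2 b.R2,
    Nat.add a.R1 b.R1⟩

/-- Multiple. -/
noncomputable def EN.sm (P : DP) (c : ℤ) (a : EN) : EN :=
  ⟨P.sm c a.P0, P.sm c a.D1, P.sm c a.D2, P.sm c a.R3, P.sm c a.R2, P.sm c a.R1⟩

/-- Representatives. -/
noncomputable def En.toN (P : DP) (a : En) : EN :=
  ⟨P.sm a.P0 1, P.sm a.D1 1, P.sm a.D2 1, P.sm a.R3 1, P.sm a.R2 1, P.sm a.R1 1⟩

/-- The numbers describe a polynomial with the values `yp`, `ym` at `(s, t) ± (d1, d2)`. -/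
def EN.Ok (P : DP) (δ : ℤ) (s t d1 d2 : ℝ) (M : ℕ) (e : EN) (yp ym : ℝ) : Prop :=
  ∃ y0 y1 y2 : ℝ, LanN P (mon P.n s t) M e.P0 y0 ∧ LanN P (mon P.n s t) M e.D1 y1 ∧
    LanN P (mon P.n s t) M e.D2 y2 ∧
    LanN P (v3 P.n δ s t d1 d2) M e.R3 (yp - ym - 2 * (d1 * y1 + d2 * y2)) ∧
    LanN P (v2 P.n δ s t d1 d2) M e.R2 (yp + ym - 2 * y0) ∧
    LanN P (v1 P.n δ s t d1 d2) M e.R1 (yp - ym)

section

variable {P : DP} {δ : ℤ} {s t d1 d2 : ℝ} {M M' : ℕ} {p m p' m' : ℝ}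

theorem En.Ok.toN (hP : P.Ok) {e : En} (h : e.Ok P δ s t d1 d2 M p m) :
    (e.toN P).Ok P δ s t d1 d2 M p m :=
  let ⟨_, _, _, h0, h1, h2, h3, h4, h5⟩ := h
  ⟨_, _, _, h0.toN hP, h1.toN hP, h2.toN hP, h3.toN hP, h4.toN hP, h5.toN hP⟩

theorem EN.Ok.ad {e e' : EN} (h : e.Ok P δ s t d1 d2 M p m) (h' : e'.Ok P δ s t d1 d2 M' p' m') :
    (e.ad e').Ok P δ s t d1 d2 (M + M') (p + p') (m + m') := by
  obtain ⟨a0, a1, a2, h0, h1, h2, h3, h4, h5⟩ := h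
  obtain ⟨b0, b1, b2, g0, g1, g2, g3, g4, g5⟩ := h'
  exact ⟨_, _, _, h0.add g0, h1.add g1, h2.add g2, (h3.add g3).congr (by ring),
    (h4.add g4).congr (by ring), (h5.add g5).congr (by ring)⟩

theorem EN.Ok.sm {e : EN} (h : e.Ok P δ s t d1 d2 M p m) (hP : P.Ok) (c : ℤ) :
    (e.sm P c).Ok P δ s t d1 d2 (c.natAbs * M) (c * p) (c * m) := by
  obtain ⟨a0, a1, a2, h0, h1, h2, h3, h4, h5⟩ := h
  exact ⟨_, _, _, h0.smul hP c, h1.smul hP c, h2.smul hP c, (h3.smul hP c).congr (by ring),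
    (h4.smul hP c).congr (by ring), (h5.smul hP c).congr (by ring)⟩

theorem EN.Ok.mono {e : EN} (h : e.Ok P δ s t d1 d2 M p m) (hM : M ≤ M') :
    e.Ok P δ s t d1 d2 M' p m := by
  obtain ⟨a0, a1, a2, h0, h1, h2, h3, h4, h5⟩ := h
  exact ⟨_, _, _, h0.mono hM, h1.mono hM, h2.mono hM, h3.mono hM, h4.mono hM, h5.mono hM⟩

end

/-- The operations modulo a power of two. -/
noncomputable def opsN (Q : DP) : Ops ℕ :=
  ⟨Nat.add, fun a b => Nat.add a (Q.ng b), Nat.mul, Q.sm, 1⟩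

/-- An integer with a representative. -/
structure RN (Q : DP) where
  n : ℕ
  N : ℤ
  ok : (n : ℤ) ≡ N [ZMOD 2 ^ (Q.K * Q.ns)]

/-- The operations on integers with representatives. -/
noncomputable def opsRN {Q : DP} (hQ : Q.Ok) : Ops (RN Q) where
  ad a b := ⟨Nat.add a.n b.n, iadd a.N b.N, by rw [iadd_eq]; exact a.ok.add b.ok⟩
  sb a b := ⟨Nat.add a.n (Q.ng b.n), isub a.N b.N, by
    rw [isub_eq, sub_eq_add_neg]; exact a.ok.add ((Q.ng_eq hQ b.n).trans b.ok.neg)⟩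
  mu a b := ⟨Nat.mul a.n b.n, imul a.N b.N, by rw [imul_eq]; exact a.ok.mul b.ok⟩
  sm c a := ⟨Q.sm c a.n, imul c a.N, by rw [imul_eq]; exact (Q.sm_eq hQ c a.n).trans (a.ok.mul_left c)⟩
  one := ⟨1, Int.ofNat 1, Int.ModEq.refl _⟩

/-- All constants. -/
structure DC where
  P : DP
  Q : DP
  k3 : ℕ
  k2 : ℕ
  k1 : ℕ

/-- The constants fit together. -/
structure DC.Ok (C : DC) : Prop where
  P : C.P.Ok
  Q : C.Q.Ok
  k3 : C.k3 = mask C.P.K C.P.ns [C.P.ln 3 0, C.P.ln 2 1, C.P.ln 1 2, C.P.ln 0 3]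
  k2 : C.k2 = mask C.P.K C.P.ns [C.P.ln 2 0, C.P.ln 1 1, C.P.ln 0 2]
  k1 : C.k1 = mask C.P.K C.P.ns [C.P.ln 1 0, C.P.ln 0 1]

/-- The test at one corner for the biased number. -/
def cor1 (P : DP) (T k M : ℕ) : Bool :=
  Nat.ble (Nat.add T (Nat.mul k (P.lo1 (P.ps M)))) (Nat.mul k (Nat.mod M P.bm))

/-- The test at one corner. -/
noncomputable def cor (P : DP) (T k H1 H2 H3 : ℕ) (x y z : ℤ) : Bool :=
  cor1 P T k (P.bi (Nat.add (Nat.add (P.sm x H1) (P.sm y H2)) (P.sm z H3)))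

/-- The tests at the four corners. -/
noncomputable def cor4 (P : DP) (T k H1 H2 H3 : ℕ) (o a b : V3) : Bool :=
  and (and
    (cor P T k H1 H2 H3 (isub (isub o.x a.x) b.x) (isub (isub o.y a.y) b.y) (isub (isub o.z a.z) b.z))
    (cor P T k H1 H2 H3 (isub (iadd o.x a.x) b.x) (isub (iadd o.y a.y) b.y) (isub (iadd o.z a.z) b.z)))
    (and
    (cor P T k H1 H2 H3 (iadd (isub o.x a.x) b.x) (iadd (isub o.y a.y) b.y) (iadd (isub o.z a.z) b.z))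
    (cor P T k H1 H2 H3 (iadd (iadd o.x a.x) b.x) (iadd (iadd o.y a.y) b.y) (iadd (iadd o.z a.z) b.z)))

/-- The coefficients of the cubic form. -/
noncomputable def mkC (P : DP) (M3 M2 M1 : ℕ) : C9 :=
  ⟨P.ex M3 (P.ln 3 0), P.ex M3 (P.ln 2 1), P.ex M3 (P.ln 1 2), P.ex M3 (P.ln 0 3),
    P.ex M2 (P.ln 2 0), P.ex M2 (P.ln 1 1), P.ex M2 (P.ln 0 2), P.ex M1 (P.ln 1 0),
    P.ex M1 (P.ln 0 1)⟩

/-- The bound for all terms of higher order. -/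
def rem1 (C : DC) (W S e M3 M2 M1 M0 : ℕ) : ℕ :=
  Nat.sub (Nat.add (Nat.add (Nat.add
    (Nat.mul (Nat.mul (Nat.mul W W) (Nat.mul e (Nat.mul e e))) (C.P.ab M3 C.k3))
    (Nat.mul (Nat.mul (Nat.mul (Nat.mul 2 W) S) (Nat.mul e e)) (C.P.ab M2 C.k2)))
    (Nat.mul (Nat.mul (Nat.mul S S) e) (C.P.ab M1 C.k1))) (C.Q.lo1 (C.Q.ps M0))) (Nat.mod M0 C.Q.bm)

/-- The bound for all terms of higher order from three biased numbers. -/
noncomputable def remT (C : DC) (W S e M3 M2 M1 : ℕ) (o a b : V3) : ℕ :=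
  rem1 C W S e M3 M2 M1 (C.Q.bi (cubF (opsN C.Q) (Int.ofNat (Nat.mul W W)) (Int.ofNat (Nat.mul 2 W))
    (mkC C.P M3 M2 M1) (C.Q.sm (C.Q.af o.x a.x b.x) 1) (C.Q.sm (C.Q.af o.y a.y b.y) 1)
    (C.Q.sm (C.Q.af o.z a.z b.z) 1)))

/-- The test for the contracted polynomials. -/
noncomputable def lf2 (C : DC) (δ W M E S e : ℕ) (cc : ℤ) (h g f : EN) (o a b : V3) : Bool :=
  and (and (and (Nat.ble (ab3 o.x a.x b.x) e) (Nat.ble (ab3 o.y a.y b.y) e))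
      (and (Nat.ble (ab3 o.z a.z b.z) S) (Nat.ble e S)))
    (and (and (Nat.ble (Nat.succ (Nat.mul (Nat.mul 3 S) (Nat.add (Nat.mul (Nat.mul δ W) M)
        (Nat.add (iabs cc) (Nat.mul 2 M))))) C.P.h)
      (Nat.ble (Nat.succ (Nat.mul (Nat.mul (Nat.add (Nat.mul 4 (Nat.mul W W)) (Nat.add (Nat.mul 6 W) 2))
        (Nat.mul S (Nat.mul S S))) M)) C.Q.h))
    (cor4 C.P (Nat.add (Nat.mul E (Nat.mul S (Nat.mul S S)))
      (remT C W S e (C.P.bi h.R3) (C.P.bi g.R2) (C.P.bi f.R1) o a b))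
      (Nat.mul (Nat.mul 2 W) (Nat.mul S S)) (Nat.mul (Nat.mul δ W) h.D1)
      (Nat.mul (Nat.mul δ W) h.D2) (Nat.add (C.P.sm cc 1) (C.P.ng (Nat.mul 2 g.P0))) o a b))

private theorem t3d_af (P : DP) (a b c : ℤ) {e : ℕ} (h : ab3 a b c ≤ e) :
    Rep2 P.K P.n 1 e (P.af a b c) fun u v => a + b * u + c * v := by
  have := ((Rep2.const (K := P.K) (n := P.n) a).add (Rep2.var0.smul b)).add (Rep2.var1.smul c)
  refine (this.mono (by simp) ?_).congr ?_ fun _ _ => rfl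
  · simpa [ab3, iabs_eq] using h
  · simp [DP.af, iadd_eq, ishl_eq]

private theorem t3d_ab {a b c : ℤ} {e S : ℕ} (h : ab3 a b c ≤ e) (h' : e ≤ S) :
    (isub (isub a b) c).natAbs ≤ S ∧ (isub (iadd a b) c).natAbs ≤ S ∧
      (iadd (isub a b) c).natAbs ≤ S ∧ (iadd (iadd a b) c).natAbs ≤ S := by
  have : a.natAbs + b.natAbs + c.natAbs ≤ e := by simpa [ab3, iabs_eq] using h
  simp only [isub_eq, iadd_eq]
  omega

private theorem t3d_mul {r B c l : ℝ} (h : |r| ≤ B) (hc : |c| ≤ l) : -(l * B) ≤ c * r := by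
  refine neg_le_of_abs_le ?_
  rw [abs_mul]
  exact mul_le_mul hc h (abs_nonneg _) ((abs_nonneg _).trans hc)

private theorem t3d_fin {S W E l z e η T A0 A1 A2 A3 r1 r2 r3 C Mn G Rm : ℝ} (hS : 0 < S) (l0 : 0 ≤ l)
    (l1 : l ≤ 1) (hW : 0 ≤ W) (ηS : S * η = l * e) (z1 : |z| ≤ 1)
    (d3 : |r3| ≤ η ^ 3 * A3) (d2 : |r2| ≤ η ^ 2 * A2) (d1 : |r1| ≤ η * A1) (d0 : A0 ≤ C)
    (main : T ≤ Mn) (hT : T = E * (S * (S * S)) + Rm) (h0 : 0 ≤ Rm)
    (hR : W * W * (e * (e * e)) * A3 + 2 * W * S * (e * e) * A2 + S * S * e * A1 - A0 ≤ Rm)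
    (hG : S ^ 3 * G = l * Mn + l ^ 3 * C + S ^ 3 * W ^ 2 * r3 +
      -(2 * W * S ^ 3) * (l * z) * r2 + S ^ 3 * (l * z) ^ 2 * r1) : l * E ≤ G := by
  have lz : |l * z| ≤ l := by
    rw [abs_mul, abs_of_nonneg l0]; exact mul_le_of_le_one_right l0 z1
  have f3 := t3d_mul d3 (show |S ^ 3 * W ^ 2| ≤ S ^ 3 * W ^ 2 from
    (abs_of_nonneg (by positivity)).le)
  have f2 := t3d_mul d2 (show |-(2 * W * S ^ 3) * (l * z)| ≤ 2 * W * S ^ 3 * l by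
    rw [abs_mul, abs_neg, abs_of_nonneg (by positivity)]
    exact mul_le_mul_of_nonneg_left lz (by positivity))
  have f1 := t3d_mul d1 (show |S ^ 3 * (l * z) ^ 2| ≤ S ^ 3 * l ^ 2 by
    rw [abs_mul, abs_pow, abs_pow, abs_of_pos hS]
    exact mul_le_mul_of_nonneg_left (pow_le_pow_left₀ (abs_nonneg _) lz 2) (by positivity))
  have l3 : l ^ 3 ≤ l := pow_le_of_le_one l0 l1 (by norm_num)
  have g3 : S ^ 3 * W ^ 2 * (η ^ 3 * A3) = l ^ 3 * (W * W * (e * (e * e)) * A3) := by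
    rw [show S ^ 3 * W ^ 2 * (η ^ 3 * A3) = (S * η) ^ 3 * (W ^ 2 * A3) by ring, ηS]; ring
  have g2 : 2 * W * S ^ 3 * l * (η ^ 2 * A2) = l ^ 3 * (2 * W * S * (e * e) * A2) := by
    rw [show 2 * W * S ^ 3 * l * (η ^ 2 * A2) = (S * η) ^ 2 * (2 * W * S * l * A2) by ring, ηS]; ring
  have g1 : S ^ 3 * l ^ 2 * (η * A1) = l ^ 3 * (S * S * e * A1) := by
    rw [show S ^ 3 * l ^ 2 * (η * A1) = (S * η) * (S ^ 2 * l ^ 2 * A1) by ring, ηS]; ring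
  have k3 := mul_le_mul_of_nonneg_right l3 h0
  have k2 := mul_le_mul_of_nonneg_left hR (pow_nonneg l0 3)
  have k0 := mul_le_mul_of_nonneg_left d0 (pow_nonneg l0 3)
  have k := mul_le_mul_of_nonneg_left (hT.symm.trans_le main) l0
  refine le_of_mul_le_mul_left ?_ (pow_pos hS 3)
  rw [g3] at f3
  rw [g2] at f2
  rw [g1] at f1
  linarith

private theorem t3d_lane {P : DP} (hP : P.Ok) {i j : ℕ} (h : i + j ≤ 3) :
    P.ln i j < P.ns ∧ P.ln i j % P.n = i ∧ P.ln i j / P.n = j := by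
  have h1 := hP.n
  have h2 := hP.ns'
  have h3 := hP.D
  have h4 : i < P.n := by omega
  refine ⟨?_, ?_, ?_⟩
  · show i + P.n * j < _
    have : P.n * (i + j) ≤ P.n * (P.D + 1) := Nat.mul_le_mul_left _ (by omega)
    nlinarith
  · show (i + P.n * j) % _ = _
    rw [Nat.add_mul_mod_self_left, Nat.mod_eq_of_lt h4]
  · show (i + P.n * j) / _ = _
    rw [Nat.add_mul_div_left _ _ (by omega), Nat.div_eq_of_lt h4, zero_add]

private theorem t3d_cor {P : DP} (hP : P.Ok) {T k M S H1 H2 H3 : ℕ} {x y z : ℤ} {s t y1 y2 y3 : ℝ}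
    (hs : |s| ≤ 1) (ht : |t| ≤ 1) (h1 : LanN P (mon P.n s t) M H1 y1)
    (h2 : LanN P (mon P.n s t) M H2 y2) (h3 : LanN P (mon P.n s t) M H3 y3)
    (hM : 3 * S * M < P.h) (hx : x.natAbs ≤ S) (hy : y.natAbs ≤ S) (hz : z.natAbs ≤ S)
    (h : cor P T k H1 H2 H3 x y z = true) : (T : ℝ) ≤ k * (x * y1 + y * y2 + z * y3) := by
  have a := (((h1.smul hP x).add (h2.smul hP y)).add (h3.smul hP z)).lo_le hP hs ht
    (lt_of_le_of_lt (by
      rw [← add_mul, ← add_mul]; exact Nat.mul_le_mul_right _ (by omega)) hM)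
  have b := (Nat.cast_le (α := ℝ)).2 (Nat.le_of_ble_eq_true h)
  simp only [Nat.add_eq, Nat.mul_eq, Nat.cast_add, Nat.cast_mul] at a b
  linarith [mul_le_mul_of_nonneg_left a (Nat.cast_nonneg k)]

private theorem t3d_cub {W S M : ℕ} {c : C9}
    (h : ∀ x ∈ [c.a0, c.a1, c.a2, c.a3, c.b0, c.b1, c.b2, c.c0, c.c1], x.natAbs ≤ M) :
    cubF opsM (Int.ofNat (W * W)) (Int.ofNat (2 * W)) c S S S ≤
      (4 * (W * W) + (6 * W + 2)) * (S * (S * S)) * M := by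
  simp only [List.forall_mem_cons] at h
  obtain ⟨n0, n1, n2, n3, n4, n5, n6, n7, n8, -⟩ := h
  simp only [cubF, opsM, iabs_eq, Nat.add_eq, Nat.mul_eq, Int.ofNat_eq_natCast, Int.natAbs_natCast]
  calc _ ≤ W * W * (S * (S * (M * S + M * S) + M * (S * S)) + M * (S * (S * S))) +
      2 * W * (S * (S * (M * S + M * S) + M * (S * S))) + S * S * (M * S + M * S) := by gcongr
    _ = _ := by ring

theorem lf2_sound {C : DC} (hC : C.Ok) {δ W M E S e : ℕ} {cc : ℤ} {h g f : EN} {o a b : V3}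
    (hδ : 1 ≤ δ) (hS : 0 < S) (H : lf2 C δ W M E S e cc h g f o a b = true) {u v x y z : ℝ}
    (hu : |u| ≤ 1) (hv : |v| ≤ 1)
    (ex : S * x = o.x + a.x * u + b.x * v) (ey : S * y = o.y + a.y * u + b.y * v)
    (ez : S * z = o.z + a.z * u + b.z * v) :
    |x| ≤ 1 ∧ |y| ≤ 1 ∧ |z| ≤ 1 ∧ ∀ {s t l p0 m0 p1 m1 p2 m2 : ℝ}, |s| ≤ 1 → |t| ≤ 1 → 0 ≤ l → l ≤ 1 →
      h.Ok C.P δ s t (δ * (l * x)) (δ * (l * y)) M p0 m0 →
      g.Ok C.P δ s t (δ * (l * x)) (δ * (l * y)) M p1 m1 →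
      f.Ok C.P δ s t (δ * (l * x)) (δ * (l * y)) M p2 m2 →
      l * E ≤ W ^ 2 * (p0 - m0) - 2 * (l * z) * W * (p1 + m1) + (l * z) ^ 2 * (p2 - m2) +
        2 * (l * z) * W * cc := by
  obtain ⟨P, Q, k3', k2', k1'⟩ := C
  obtain ⟨hP, hQ, hk3, hk2, hk1⟩ := hC
  dsimp only at hP hQ hk3 hk2 hk1 ⊢
  subst hk3 hk2 hk1
  obtain ⟨H1, H⟩ := Bool.and_eq_true_iff.1 H
  obtain ⟨H2, H⟩ := Bool.and_eq_true_iff.1 H
  obtain ⟨H3, H4⟩ := Bool.and_eq_true_iff.1 H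
  obtain ⟨k1, k2⟩ := Bool.and_eq_true_iff.1 H3
  obtain ⟨k3, k4⟩ := Bool.and_eq_true_iff.1 H4
  simp only [Bool.and_eq_true, Nat.ble_eq] at H1 H2
  obtain ⟨⟨b1, b2⟩, b3, b4⟩ := H1
  obtain ⟨b5, b6⟩ := H2
  replace b5 : 3 * S * (δ * W * M + (cc.natAbs + 2 * M)) < P.h := by rw [← iabs_eq]; exact b5
  replace b6 : (4 * (W * W) + (6 * W + 2)) * (S * (S * S)) * M < Q.h := b6
  clear H H3 H4
  have r1 := t3d_af Q _ _ _ b1
  have r2 := t3d_af Q _ _ _ b2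
  have r3 := t3d_af Q _ _ _ b3
  have hS' : (0 : ℝ) < S := by exact_mod_cast hS
  have he : (e : ℝ) ≤ S := by exact_mod_cast b4
  have q1 : |S * x| ≤ e := ex ▸ r1.abs_le hu hv
  have q2 : |S * y| ≤ e := ey ▸ r2.abs_le hu hv
  have q3 : |S * z| ≤ S := ez ▸ r3.abs_le hu hv
  rw [abs_mul, abs_of_pos hS'] at q1 q2 q3
  have z1 : |z| ≤ 1 := (mul_le_iff_le_one_right hS').1 q3
  refine ⟨(mul_le_iff_le_one_right hS').1 (q1.trans he), (mul_le_iff_le_one_right hS').1 (q2.trans he),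
    z1, ?_⟩
  intro s t l p0 m0 p1 m1 p2 m2 hs ht l0 l1 ⟨_, y1, y2, _, a1, a2, a3, _, _⟩
    ⟨y0, _, _, a0, _, _, _, a4, _⟩ ⟨_, _, _, _, _, _, _, _, a5⟩
  have hδ' : (δ : ℝ) ≠ 0 := by positivity
  -- the corners
  have c1 := (a1.smul hP (Int.ofNat (δ * W))).mono (M' := δ * W * M + (cc.natAbs + 2 * M))
    (Nat.le_add_right _ _)
  have c2 := (a2.smul hP (Int.ofNat (δ * W))).mono (M' := δ * W * M + (cc.natAbs + 2 * M))
    (Nat.le_add_right _ _)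
  have c0 : Lan P.K P.ns (mon P.n s t) cc.natAbs cc cc :=
    (Lan.single (j := 0) (b := cc) (by have := hP.ns'; omega) (by simp)).congr (by simp [ishl_eq])
      (by simp [mon])
  have c3 := ((c0.toN hP).add (a0.smul hP (Int.negSucc 1))).mono
    (M' := δ * W * M + (cc.natAbs + 2 * M)) (Nat.le_add_left _ _)
  have i1 := t3d_ab b1 b4
  have i2 := t3d_ab b2 b4
  have i3 := t3d_ab b3 le_rfl
  have j1 := t3d_cor hP hs ht c1 c2 c3 b5 i1.1 i2.1 i3.1 k1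
  have j2 := t3d_cor hP hs ht c1 c2 c3 b5 i1.2.1 i2.2.1 i3.2.1 k2
  have j3 := t3d_cor hP hs ht c1 c2 c3 b5 i1.2.2.1 i2.2.2.1 i3.2.2.1 k3
  have j4 := t3d_cor hP hs ht c1 c2 c3 b5 i1.2.2.2 i2.2.2.2 i3.2.2.2 k4
  generalize hT : Nat.add (Nat.mul E _) _ = T at j1 j2 j3 j4
  have main : (T : ℝ) ≤ 2 * W * (S * S) *
      (S * x * (δ * W * y1) + S * y * (δ * W * y2) + S * z * (cc - 2 * y0)) := by
    simp only [isub_eq, iadd_eq, Nat.mul_eq, Int.ofNat_eq_natCast, Int.negSucc_eq] at j1 j2 j3 j4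
    push_cast at j1 j2 j3 j4
    obtain ⟨u1, u2⟩ := abs_le.1 hu
    obtain ⟨v1, v2⟩ := abs_le.1 hv
    rw [ex, ey, ez]
    have := add_le_add (add_le_add
      (mul_le_mul_of_nonneg_left j1 (mul_nonneg (sub_nonneg.2 u2) (sub_nonneg.2 v2)))
      (mul_le_mul_of_nonneg_left j2 (mul_nonneg (neg_le_iff_add_nonneg'.1 u1) (sub_nonneg.2 v2))))
      (add_le_add
      (mul_le_mul_of_nonneg_left j3 (mul_nonneg (sub_nonneg.2 u2) (neg_le_iff_add_nonneg'.1 v1)))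
      (mul_le_mul_of_nonneg_left j4 (mul_nonneg (neg_le_iff_add_nonneg'.1 u1)
        (neg_le_iff_add_nonneg'.1 v1))))
    linarith
  -- the remainders
  obtain ⟨η, hη⟩ : ∃ η : ℝ, η = l * e / S := ⟨_, rfl⟩
  have η0 : 0 ≤ η := by rw [hη]; positivity
  have η1 : η ≤ 1 := by 
    rw [hη, div_le_one hS']; exact (mul_le_of_le_one_left (Nat.cast_nonneg e) l1).trans he
  have ηS : S * η = l * e := by rw [hη]; field_simp
  have hd : ∀ w : ℝ, S * |w| ≤ e → |δ * (l * w)| ≤ η * (δ : ℤ) := fun w hw => by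
    rw [abs_mul, abs_mul, abs_of_nonneg l0, Nat.abs_cast, Int.cast_natCast, mul_comm η]
    refine mul_le_mul_of_nonneg_left (le_of_mul_le_mul_left ?_ hS') (Nat.cast_nonneg _)
    rw [ηS, mul_left_comm]; exact mul_le_mul_of_nonneg_left hw l0
  have st := fun j => St.mon (δ := δ) (by positivity) η0 η1 hs ht (hd x q1) (hd y q2) P.n j
  have hM : M < P.h := by
    have := (Nat.mul_le_mul_right _ (show 3 ≤ 3 * S by omega)).trans_lt b5
    omega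
  have L := fun i j (h : i + j ≤ 3) => (t3d_lane hP h).1
  have hn : 3 < P.n := by have := hP.n; have := hP.D; omega
  have d3 := a3.abs_le hP hM (fun j => (t3n_div (st j).n3 (by positivity) (st j).b3).1)
    (L := [P.ln 3 0, P.ln 2 1, P.ln 1 2, P.ln 0 3]) (by simp [DP.ln]; omega) (by simp [L])
  have d2 := a4.abs_le hP hM (fun j => (t3n_div (st j).n2 (by positivity) (st j).b2).1)
    (L := [P.ln 2 0, P.ln 1 1, P.ln 0 2]) (by simp [DP.ln]; omega) (by simp [L])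
  have d1 := a5.abs_le hP hM (fun j => (t3n_div (st j).n1 η0 (st j).b1).1)
    (L := [P.ln 1 0, P.ln 0 1]) (by simp [DP.ln]; omega) (by simp [L])
  have hc := t3d_cub (W := W) (S := S) (c := mkC P (P.bi h.R3) (P.bi g.R2) (P.bi f.R1)) (by
    simp only [List.forall_mem_cons, mkC]
    exact ⟨a3.ex_le hP hM (L 3 0 le_rfl), a3.ex_le hP hM (L 2 1 le_rfl), a3.ex_le hP hM (L 1 2 le_rfl),
      a3.ex_le hP hM (L 0 3 le_rfl), a4.ex_le hP hM (L 2 0 (by omega)),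
      a4.ex_le hP hM (L 1 1 (by omega)), a4.ex_le hP hM (L 0 2 (by omega)),
      a5.ex_le hP hM (L 1 0 (by omega)), a5.ex_le hP hM (L 0 1 (by omega)), by simp⟩)
  replace L := fun i j (h : i + j ≤ 3) => t3d_lane hP h
  simp only [List.map_cons, List.map_nil, List.sum_cons, List.sum_nil] at d3 d2 d1
  have w3' : ((w3 δ 3 : ℤ) : ℝ) = 2 * δ ^ 3 := by simp [w3, w1]; ring
  have w2' : ((w2 δ 2 : ℤ) : ℝ) = 2 * δ ^ 2 := by simp [w2]; ring
  have w1' : ((w1 δ 1 : ℤ) : ℝ) = 2 * δ := by simp [w1]; ring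
  have e3 : ∀ i j, i + j = 3 → v3 P.n δ s t (δ * (l * x)) (δ * (l * y)) (P.ln i j) =
      (l * x) ^ i * (l * y) ^ j := fun i j hij => by
    simp only [v3, mon, mon1, mon2, (L i j hij.le).2.1, (L i j hij.le).2.2, hij, w3']
    rw [div_eq_iff (by positivity)]
    obtain rfl : j = 3 - i := by omega
    have : i ≤ 3 := by omega
    interval_cases i <;> simp <;> ring
  have e2 : ∀ i j, i + j = 2 → v2 P.n δ s t (δ * (l * x)) (δ * (l * y)) (P.ln i j) =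
      (l * x) ^ i * (l * y) ^ j := fun i j hij => by
    simp only [v2, mon, (L i j (by omega)).2.1, (L i j (by omega)).2.2, hij, w2']
    rw [div_eq_iff (by positivity)]
    obtain rfl : j = 2 - i := by omega
    have : i ≤ 2 := by omega
    interval_cases i <;> simp <;> ring
  have e1 : ∀ i j, i + j = 1 → v1 P.n δ s t (δ * (l * x)) (δ * (l * y)) (P.ln i j) =
      (l * x) ^ i * (l * y) ^ j := fun i j hij => by
    simp only [v1, mon, (L i j (by omega)).2.1, (L i j (by omega)).2.2, hij, w1']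
    rw [div_eq_iff (by positivity)]
    obtain rfl : j = 1 - i := by omega
    have : i ≤ 1 := by omega
    interval_cases i <;> simp <;> ring
  rw [e3 3 0 rfl, e3 2 1 rfl, e3 1 2 rfl, e3 0 3 rfl] at d3
  rw [e2 2 0 rfl, e2 1 1 rfl, e2 0 2 rfl] at d2
  rw [e1 1 0 rfl, e1 0 1 rfl] at d1
  -- the cubic form
  generalize hc' : mkC P (P.bi h.R3) (P.bi g.R2) (P.bi f.R1) = c at hc
  have rc : Rep2 Q.K Q.n 3 (cubF opsM (Int.ofNat (W * W)) (Int.ofNat (2 * W)) c S S S)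
      (cubF opsZ (Int.ofNat (W * W)) (Int.ofNat (2 * W)) c (Q.af o.x a.x b.x) (Q.af o.y a.y b.y)
        (Q.af o.z a.z b.z)) fun u v => cubF opsR (Int.ofNat (W * W)) (Int.ofNat (2 * W)) c
        (o.x + a.x * u + b.x * v) (o.y + a.y * u + b.y * v) (o.z + a.z * u + b.z * v) :=
    (cubF (opsT Q.K Q.n) (Int.ofNat (W * W)) (Int.ofNat (2 * W)) c ⟨_, _, _, _, r1.mono le_rfl b4⟩
      ⟨_, _, _, _, r2.mono le_rfl b4⟩ ⟨_, _, _, _, r3⟩).ok
  have tn : ∀ N : ℤ, (Q.sm N 1 : ℤ) ≡ N [ZMOD 2 ^ (Q.K * Q.ns)] := fun N => by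
    simpa using Q.sm_eq hQ N 1
  have d0 := LanN.lo_le (n := cubF (opsN Q) (Int.ofNat (W * W)) (Int.ofNat (2 * W)) c
    (Q.sm (Q.af o.x a.x b.x) 1) (Q.sm (Q.af o.y a.y b.y) 1) (Q.sm (Q.af o.z a.z b.z) 1)) hQ hu hv
    ⟨_, rep_lan (rc.mono (by have := hQ.D; omega) le_rfl) hQ.n hQ.ns' u v,
      (cubF (opsRN hQ) (Int.ofNat (W * W)) (Int.ofNat (2 * W)) c ⟨_, _, tn _⟩ ⟨_, _, tn _⟩
        ⟨_, _, tn _⟩).ok⟩ (hc.trans_lt b6)
  rw [← ex, ← ey, ← ez] at d0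
  have tm : ∀ n m : ℕ, (n : ℝ) - m ≤ Nat.sub n m := fun n m => by
    rw [sub_le_iff_le_add]; exact_mod_cast (le_tsub_add : n ≤ n - m + m)
  subst hc'
  refine t3d_fin (Rm := remT ⟨P, Q, mask P.K P.ns [P.ln 3 0, P.ln 2 1, P.ln 1 2, P.ln 0 3],
    mask P.K P.ns [P.ln 2 0, P.ln 1 1, P.ln 0 2], mask P.K P.ns [P.ln 1 0, P.ln 0 1]⟩ W S e
    (P.bi h.R3) (P.bi g.R2) (P.bi f.R1) o a b) hS' l0 l1 (Nat.cast_nonneg W) ηS z1 d3 d2 d1 d0 main ?_ (Nat.cast_nonneg _)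
    (le_trans (le_of_eq ?_) (tm _ _)) ?_
  · rw [← hT]
    simp only [Nat.add_eq, Nat.mul_eq, Nat.cast_add, Nat.cast_mul]
  · simp only [Nat.add_eq, Nat.mul_eq, Nat.cast_add, Nat.cast_mul, Nat.cast_ofNat]
    ring
  · simp only [cubF, opsR, mkC, Int.ofNat_eq_natCast, Int.cast_natCast, Nat.cast_mul, Nat.cast_ofNat,
      Int.cast_mul, Int.cast_ofNat]
    ring

/-- The data of a cell. -/
structure CD where
  E : Six EN
  δ : ℕ
  W : ℕ
  M : ℕ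
  Ec : ℕ
  C1 : ℤ
  C2 : ℤ

/-- The larger of two numbers. -/
def mx (a b : ℕ) : ℕ := Nat.add a (Nat.sub b a)

/-- The sum of the absolute values of the entries. -/
noncomputable def sumA (A : Six ℤ) : ℕ :=
  Nat.add (ab3 A.f00 A.f11 A.f22) (Nat.mul 2 (ab3 A.f01 A.f02 A.f12))

/-- The test for a witness matrix. -/
noncomputable def lfA (C : DC) (c : CD) (A : Six ℤ) (o a b : V3) (S : ℕ) : Bool :=
  lf2 C c.δ c.W (Nat.mul (sumA A) c.M) (Nat.mul c.Ec (Nat.succ (sumA A))) S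
    (mx (ab3 o.x a.x b.x) (ab3 o.y a.y b.y)) (iadd (imul A.f01 c.C1) (imul A.f02 c.C2))
    ((((c.E.f00.sm C.P A.f00).ad (c.E.f11.sm C.P A.f11)).ad (c.E.f22.sm C.P A.f22)).ad
      (((c.E.f01.sm C.P (iadd A.f01 A.f01)).ad (c.E.f02.sm C.P (iadd A.f02 A.f02))).ad
        (c.E.f12.sm C.P (iadd A.f12 A.f12))))
    (((c.E.f02.sm C.P A.f01).ad (c.E.f12.sm C.P A.f11)).ad (c.E.f22.sm C.P A.f12))
    (c.E.f22.sm C.P A.f11) o a b

/-- The product of a triangular matrix and its transpose. -/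
noncomputable def mkA (a b c d e f : ℤ) : Six ℤ :=
  ⟨imul a a, imul a b, imul a c, iadd (imul b b) (imul d d), iadd (imul b c) (imul d e),
    iadd (iadd (imul c c) (imul e e)) (imul f f)⟩

/-- A signed digit. -/
noncomputable def dg (w s : ℕ) : ℤ :=
  snn (Nat.land (Nat.shiftRight w s) (nat_lit 4095)) (nat_lit 2048)

/-- The test for a packed witness. -/
noncomputable def leaf (P : DC) (c : CD) (a b : V3) (w : ℕ) (o : V3) (S : ℕ) : Bool :=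
  lfA P c (mkA (dg w 0) (dg w 12) (dg w 24) (dg w 36) (dg w 48) (dg w 60)) o a b S

/-- The cell data describe the matrices `U`, `V` up to the factor `σ` and small errors. -/
def CD.Pt (P : DP) (c : CD) (σ ε L s t ξ ζ : ℝ) (U V : Mat 3) : Prop :=
  ∃ p m : Six ℝ, c.E.f00.Ok P c.δ s t (c.δ * ξ) (c.δ * ζ) c.M p.f00 m.f00 ∧
    c.E.f01.Ok P c.δ s t (c.δ * ξ) (c.δ * ζ) c.M p.f01 m.f01 ∧
    c.E.f02.Ok P c.δ s t (c.δ * ξ) (c.δ * ζ) c.M p.f02 m.f02 ∧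
    c.E.f11.Ok P c.δ s t (c.δ * ξ) (c.δ * ζ) c.M p.f11 m.f11 ∧
    c.E.f12.Ok P c.δ s t (c.δ * ξ) (c.δ * ζ) c.M p.f12 m.f12 ∧
    c.E.f22.Ok P c.δ s t (c.δ * ξ) (c.δ * ζ) c.M p.f22 m.f22 ∧
    ∀ i j, |σ * U i j - p.mat i j| ≤ ε ∧ |σ * V i j - m.mat i j| ≤ ε ∧
      |σ * U i j - p.mat i j - (σ * V i j - m.mat i j)| ≤ L

private theorem t3d_psd (a b c d e f : ℤ) : ((mkA a b c d e f).map Int.cast).mat.PosSemidef := by
  have := posSemidef_self_mul_conjTranspose (!![a, 0, 0; b, d, 0; c, e, f] : Mat 3)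
  convert this using 1
  ext i j
  fin_cases i <;> fin_cases j <;>
    simp [mkA, Six.map, Six.mat, Matrix.mul_apply, Fin.sum_univ_three, imul_eq, iadd_eq] <;> ring

private theorem t3d_tr (A : Six ℝ) (k r1 r2 t : ℝ) (U V : Mat 3) :
    (A.mat * Wm k r1 r2 U (-V) t).trace =
      A.f00 * (U 0 0 - V 0 0) + A.f11 * (U 1 1 - V 1 1) + A.f22 * (U 2 2 - V 2 2) +
      A.f01 * (U 0 1 - V 0 1) + A.f01 * (U 1 0 - V 1 0) + A.f02 * (U 0 2 - V 0 2) +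
      A.f02 * (U 2 0 - V 2 0) + A.f12 * (U 1 2 - V 1 2) + A.f12 * (U 2 1 - V 2 1) -
      t * k * (A.f01 * (U 0 2 + V 0 2 + U 2 0 + V 2 0) + A.f11 * (U 1 2 + V 1 2 + U 2 1 + V 2 1) +
        A.f12 * (2 * (U 2 2 + V 2 2))) + (t * k) ^ 2 * (A.f11 * (U 2 2 - V 2 2)) +
      4 * t * (A.f01 * r1 + A.f02 * r2) := by
  rw [Wm_eq]
  simp [Six.mat, Matrix.trace, Fin.sum_univ_three]
  ring

theorem leaf_sound {P : DC} (hP : P.Ok) {c : CD} {o a b : V3} {w S : ℕ} (hδ : 1 ≤ c.δ)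
    (hW : 1 ≤ c.W) (hS : 0 < S) (H : leaf P c a b w o S = true) {u v x y z : ℝ} (hu : |u| ≤ 1)
    (hv : |v| ≤ 1) (ex : S * x = o.x + a.x * u + b.x * v) (ey : S * y = o.y + a.y * u + b.y * v)
    (ez : S * z = o.z + a.z * u + b.z * v) {k r1 r2 dt c0 σ ε L s t l : ℝ} {U V : Mat 3}
    (hk : k * dt * c.W = 1) (h1 : (c.C1 : ℝ) = 2 * c.W * σ * dt * r1)
    (h2 : (c.C2 : ℝ) = 2 * c.W * σ * dt * r2) (hσ : 0 < σ)
    (hE : c.W ^ 2 * (c0 * σ + L + 6 * ε) ≤ c.Ec) (hs : |s| ≤ 1) (ht : |t| ≤ 1) (l0 : 0 ≤ l)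
    (l1 : l ≤ 1) (hL : 0 ≤ L)
    (hp : |x| ≤ 1 → |y| ≤ 1 → c.Pt P.P σ ε (l * L) s t (l * x) (l * y) U V) :
    ∃ A : Mat 3, A.PosSemidef ∧ A.trace ≤ 1 ∧
      c0 * l ≤ (A * Wm k r1 r2 U (-V) (dt * (l * z))).trace := by
  unfold leaf at H
  have hA := t3d_psd (dg w 0) (dg w 12) (dg w 24) (dg w 36) (dg w 48) (dg w 60)
  generalize mkA _ _ _ _ _ _ = A at H hA
  obtain ⟨x1, y1, z1, key⟩ := lf2_sound hP hδ hS H hu hv ex ey ez
  obtain ⟨p, m, e00, e01, e02, e11, e12, e22, er⟩ := hp x1 y1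
  have sA : sumA A = A.f00.natAbs + A.f11.natAbs + A.f22.natAbs +
      2 * (A.f01.natAbs + A.f02.natAbs + A.f12.natAbs) := by simp [sumA, ab3, iabs_eq]
  have dbl : ∀ n : ℤ, (iadd n n).natAbs = 2 * n.natAbs := fun n => by rw [iadd_eq]; omega
  have key' := key hs ht l0 l1
    (((((e00.sm hP.P A.f00).ad (e11.sm hP.P A.f11)).ad (e22.sm hP.P A.f22)).ad (((e01.sm hP.P (iadd A.f01 A.f01)).ad
      (e02.sm hP.P (iadd A.f02 A.f02))).ad (e12.sm hP.P (iadd A.f12 A.f12)))).mono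
      (by rw [Nat.mul_eq, sA, dbl, dbl, dbl]; exact le_of_eq (by ring)))
    ((((e02.sm hP.P A.f01).ad (e12.sm hP.P A.f11)).ad (e22.sm hP.P A.f12)).mono (by
      rw [Nat.mul_eq, ← add_mul, ← add_mul]; exact Nat.mul_le_mul_right _ (by omega)))
    ((e22.sm hP.P A.f11).mono (Nat.mul_le_mul_right _ (by omega)))
  have sR : (sumA A : ℝ) = |(A.f00 : ℝ)| + |(A.f11 : ℝ)| + |(A.f22 : ℝ)| +
      2 * (|(A.f01 : ℝ)| + |(A.f02 : ℝ)| + |(A.f12 : ℝ)|) := by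
    rw [sA]; simp only [Nat.cast_add, Nat.cast_mul, Nat.cast_natAbs, Int.cast_abs, Nat.cast_ofNat]
  have hpos : (0 : ℝ) < sumA A + 1 := by positivity
  refine ⟨(1 / (sumA A + 1) : ℝ) • (A.map Int.cast).mat, hA.smul (by positivity), ?_, ?_⟩
  · rw [trace_smul, smul_eq_mul, one_div, inv_mul_le_iff₀ hpos, sR]
    simp only [Six.mat, Six.map, trace_fin_three_of]
    linarith [le_abs_self (A.f00 : ℝ), le_abs_self (A.f11 : ℝ), le_abs_self (A.f22 : ℝ),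
      abs_nonneg (A.f01 : ℝ), abs_nonneg (A.f02 : ℝ), abs_nonneg (A.f12 : ℝ)]
  rw [Matrix.smul_mul, trace_smul, smul_eq_mul, one_div, le_inv_mul_iff₀ hpos, t3d_tr]
  have hW' : (1 : ℝ) ≤ c.W := by exact_mod_cast hW
  have hε : 0 ≤ ε := (abs_nonneg _).trans (er 0 0).1
  obtain ⟨τ, hτ⟩ : ∃ τ, τ = dt * (l * z) * k := ⟨_, rfl⟩
  have τW : c.W * τ = l * z := by rw [hτ]; linear_combination l * z * hk
  have τl : |τ| ≤ l := by
    have : c.W * |τ| ≤ l := by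
      rw [← Nat.abs_cast (R := ℝ) c.W, ← abs_mul, τW, abs_mul, abs_of_nonneg l0]
      exact mul_le_of_le_one_right l0 z1
    exact (le_mul_of_one_le_left (abs_nonneg _) hW').trans this
  have τ2 : |τ ^ 2| ≤ l := by
    rw [abs_pow, sq]; exact (mul_le_of_le_one_left (abs_nonneg _) (τl.trans l1)).trans τl
  have ab : ∀ {a b : ℝ}, |a| ≤ ε → |b| ≤ ε → |a + b| ≤ 2 * ε := fun h h' =>
    (abs_add_le _ _).trans (by linarith)
  have ac : ∀ {a b : ℝ}, |a| ≤ 2 * ε → |b| ≤ 2 * ε → |a + b| ≤ 4 * ε := fun h h' =>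
    (abs_add_le _ _).trans (by linarith)
  have am : ∀ (n : ℤ) {a B : ℝ}, |a| ≤ B → |n * a| ≤ |(n : ℝ)| * B := fun n _ _ h => by
    rw [abs_mul]; exact mul_le_mul_of_nonneg_left h (abs_nonneg _)
  have n00 := neg_le_of_abs_le (am A.f00 (er 0 0).2.2)
  have n11 := neg_le_of_abs_le (am A.f11 (er 1 1).2.2)
  have n22 := neg_le_of_abs_le (am A.f22 (er 2 2).2.2)
  have n01 := neg_le_of_abs_le (am A.f01 (er 0 1).2.2)
  have n10 := neg_le_of_abs_le (am A.f01 (er 1 0).2.2)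
  have n02 := neg_le_of_abs_le (am A.f02 (er 0 2).2.2)
  have n20 := neg_le_of_abs_le (am A.f02 (er 2 0).2.2)
  have n12 := neg_le_of_abs_le (am A.f12 (er 1 2).2.2)
  have n21 := neg_le_of_abs_le (am A.f12 (er 2 1).2.2)
  have nτ : |-τ| ≤ l := by rwa [abs_neg]
  have t1 := t3d_mul (am A.f01 (ac (ab (er 0 2).1 (er 0 2).2.1) (ab (er 2 0).1 (er 2 0).2.1))) nτ
  have t2 := t3d_mul (am A.f11 (ac (ab (er 1 2).1 (er 1 2).2.1) (ab (er 2 1).1 (er 2 1).2.1))) nτ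
  have t3 := t3d_mul (am A.f12 (ac (ab (er 2 2).1 (er 2 2).2.1) (ab (er 2 2).1 (er 2 2).2.1))) nτ
  have t4 := t3d_mul (am A.f11 (ab (er 2 2).1 ((abs_neg _).trans_le (er 2 2).2.1))) τ2
  have q1 : 0 ≤ l * ε * (6 * (sumA A + 1) - 4 * (|(A.f01 : ℝ)| + |(A.f11 : ℝ)| + |(A.f12 : ℝ)|) -
      2 * |(A.f11 : ℝ)|) := mul_nonneg (mul_nonneg l0 hε) (by
    rw [sR]
    linarith [abs_nonneg (A.f00 : ℝ), abs_nonneg (A.f22 : ℝ), abs_nonneg (A.f01 : ℝ),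
      abs_nonneg (A.f02 : ℝ), abs_nonneg (A.f12 : ℝ)])
  have q2 := mul_nonneg l0 hL
  have q3 := add_le_add (add_le_add (add_le_add (add_le_add n00 n11) (add_le_add n22 n01))
    (add_le_add (add_le_add n10 n02) (add_le_add n20 n12)))
    (add_le_add (add_le_add n21 t1) (add_le_add (add_le_add t2 t3) t4))
  have q4 := mul_le_mul_of_nonneg_left (le_trans (a := -(l * (sumA A + 1) * (L + 6 * ε)))
    (by rw [sR] at q1 ⊢; linarith) q3) (sq_nonneg (c.W : ℝ))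
  have q5 := mul_le_mul_of_nonneg_left hE (mul_nonneg l0 hpos.le)
  refine le_of_mul_le_mul_left ?_ (show 0 < σ * c.W ^ 2 by positivity)
  rw [← hτ, ← τW]
  rw [← τW] at key'
  simp only [iadd_eq, imul_eq, Nat.mul_eq, Nat.cast_mul, Nat.cast_succ, Int.cast_add, Int.cast_mul,
    h1, h2] at key'
  simp only [Six.mat, Six.map, of_apply, cons_val', cons_val_zero, cons_val_one, cons_val_two,
    cons_val_fin_one, head_cons, tail_cons, Nat.succ_eq_add_one, head_fin_const] at q4 ⊢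
  linarith

end Pool.Agent.P.MP_f12b6c_an.Dg
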