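import Pool.Agent.P.MP_f12b6c_an.T3DgLeaf

/-!
Subdivision of the faces of the cube of directions and of the disc of midpoints.
-/

namespace Pool.Agent.P.MP_f12b6c_an.Dg

open Matrix

/-- Trees of patches of directions. -/
inductive FT
  | lf (w : ℕ) : FT
  | nd (a b c d : FT) : FT

/-- The centre of a quarter of a patch. -/
noncomputable def kid (f g : ℤ → ℤ → ℤ) (o a b : V3) : V3 :=
  ⟨g (f (iadd o.x o.x) a.x) b.x, g (f (iadd o.y o.y) a.y) b.y, g (f (iadd o.z o.z) a.z) b.z⟩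

/-- The test of a tree of patches. -/
noncomputable def goF (lf : ℕ → V3 → ℕ → Bool) (a b : V3) (t : FT) : V3 → ℕ → Bool :=
  @FT.rec (fun _ => V3 → ℕ → Bool) (fun w o S => lf w o S)
    (fun _ _ _ _ r0 r1 r2 r3 o S =>
      and (and (r0 (kid isub isub o a b) (Nat.add S S)) (r1 (kid iadd isub o a b) (Nat.add S S)))
        (and (r2 (kid isub iadd o a b) (Nat.add S S)) (r3 (kid iadd iadd o a b) (Nat.add S S)))) t

/-- The statement holds for all directions of a patch. -/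
def GoodF (T : ℝ → ℝ → ℝ → Prop) (a b o : V3) (S : ℕ) : Prop :=
  ∀ u v x y z : ℝ, |u| ≤ 1 → |v| ≤ 1 → S * x = o.x + a.x * u + b.x * v →
    S * y = o.y + a.y * u + b.y * v → S * z = o.z + a.z * u + b.z * v → T x y z

private theorem t3e_half {u : ℝ} (hu : |u| ≤ 1) : |2 * u + 1| ≤ 1 ∨ |2 * u - 1| ≤ 1 := by
  obtain ⟨h1, h2⟩ := abs_le.1 hu
  rcases le_total u 0 with h | h
  · exact Or.inl (abs_le.2 ⟨by linarith, by linarith⟩)
  · exact Or.inr (abs_le.2 ⟨by linarith, by linarith⟩)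

theorem goF_sound {lf : ℕ → V3 → ℕ → Bool} {T : ℝ → ℝ → ℝ → Prop} {a b : V3}
    (h : ∀ w o S, 0 < S → lf w o S = true → GoodF T a b o S) (t : FT) :
    ∀ o S, 0 < S → goF lf a b t o S = true → GoodF T a b o S := by
  induction t with
  | lf w => exact h w
  | nd t0 t1 t2 t3 i0 i1 i2 i3 =>
    intro o S hS H u v x y z hu hv ex ey ez
    have H' : (goF lf a b t0 (kid isub isub o a b) (S + S) && goF lf a b t1 (kid iadd isub o a b) (S + S)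
      && (goF lf a b t2 (kid isub iadd o a b) (S + S) &&
        goF lf a b t3 (kid iadd iadd o a b) (S + S))) = true := H
    simp only [Bool.and_eq_true] at H'
    obtain ⟨⟨k0, k1⟩, k2, k3⟩ := H'
    rcases t3e_half hu with gu | gu <;> rcases t3e_half hv with gv | gv
    · refine i0 _ _ (by omega) k0 _ _ x y z gu gv ?_ ?_ ?_ <;>
        simp only [kid, iadd_eq, isub_eq] <;> push_cast <;> linarith
    · refine i2 _ _ (by omega) k2 _ _ x y z gu gv ?_ ?_ ?_ <;>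
        simp only [kid, iadd_eq, isub_eq] <;> push_cast <;> linarith
    · refine i1 _ _ (by omega) k1 _ _ x y z gu gv ?_ ?_ ?_ <;>
        simp only [kid, iadd_eq, isub_eq] <;> push_cast <;> linarith
    · refine i3 _ _ (by omega) k3 _ _ x y z gu gv ?_ ?_ ?_ <;>
        simp only [kid, iadd_eq] <;> push_cast <;> linarith

/-- The test of one face. -/
noncomputable def face (lf : V3 → V3 → ℕ → V3 → ℕ → Bool) (a b o : V3) (t : FT) : Bool :=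
  goF (lf a b) a b t o 1

/-- The test of the six faces. -/
noncomputable def six (lf : V3 → V3 → ℕ → V3 → ℕ → Bool) (f0 f1 f2 f3 f4 f5 : FT) : Bool :=
  and (and (and (face lf ⟨1, 0, 0⟩ ⟨0, 1, 0⟩ ⟨0, 0, 1⟩ f0) (face lf ⟨1, 0, 0⟩ ⟨0, 1, 0⟩ ⟨0, 0, -1⟩ f1))
    (and (face lf ⟨0, 1, 0⟩ ⟨0, 0, 1⟩ ⟨1, 0, 0⟩ f2) (face lf ⟨0, 1, 0⟩ ⟨0, 0, 1⟩ ⟨-1, 0, 0⟩ f3)))
    (and (face lf ⟨1, 0, 0⟩ ⟨0, 0, 1⟩ ⟨0, 1, 0⟩ f4) (face lf ⟨1, 0, 0⟩ ⟨0, 0, 1⟩ ⟨0, -1, 0⟩ f5))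

theorem six_sound {lf : V3 → V3 → ℕ → V3 → ℕ → Bool} {T : ℝ → ℝ → ℝ → Prop}
    (h : ∀ a b w o S, 0 < S → lf a b w o S = true → GoodF T a b o S) {f0 f1 f2 f3 f4 f5 : FT}
    (H : six lf f0 f1 f2 f3 f4 f5 = true) {x y z : ℝ} (hx : |x| ≤ 1) (hy : |y| ≤ 1) (hz : |z| ≤ 1)
    (h1 : |x| = 1 ∨ |y| = 1 ∨ |z| = 1) : T x y z := by
  simp only [six, face, Bool.and_eq_true] at H
  obtain ⟨⟨⟨k0, k1⟩, k2, k3⟩, k4, k5⟩ := H
  simp only [abs_eq zero_le_one] at h1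
  rcases h1 with (rfl | rfl) | (rfl | rfl) | rfl | rfl
  · exact goF_sound (h _ _) _ _ _ one_pos k2 y z _ _ _ hy hz (by simp) (by simp) (by simp)
  · exact goF_sound (h _ _) _ _ _ one_pos k3 y z _ _ _ hy hz (by simp) (by simp) (by simp)
  · exact goF_sound (h _ _) _ _ _ one_pos k4 x z _ _ _ hx hz (by simp) (by simp) (by simp)
  · exact goF_sound (h _ _) _ _ _ one_pos k5 x z _ _ _ hx hz (by simp) (by simp) (by simp)
  · exact goF_sound (h _ _) _ _ _ one_pos k0 x y _ _ _ hx hy (by simp) (by simp) (by simp)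
  · exact goF_sound (h _ _) _ _ _ one_pos k1 x y _ _ _ hx hy (by simp) (by simp) (by simp)

/-- The statement for one midpoint. -/
def DiagAt (k r1 r2 c del dt : ℝ) (F : ℝ → ℝ → Mat 3) (m1 m2 : ℝ) : Prop :=
  ∀ l x y z : ℝ, 0 ≤ l → l ≤ 1 → |x| ≤ 1 → |y| ≤ 1 → |z| ≤ 1 → |x| = 1 ∨ |y| = 1 ∨ |z| = 1 →
    ∃ A : Mat 3, A.PosSemidef ∧ A.trace ≤ 1 ∧ c * l ≤ (A * Wm k r1 r2
      (F (m1 + del * (l * x)) (m2 + del * (l * y))) (-F (m1 - del * (l * x)) (m2 - del * (l * y)))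
      (dt * (l * z))).trace

theorem diag_of_at {k r1 r2 c del dt e : ℝ} {F : ℝ → ℝ → Mat 3} (hd : 0 < del) (ht : 0 < dt)
    (h : ∀ m1 m2, m1 ^ 2 + m2 ^ 2 ≤ e ^ 2 → DiagAt k r1 r2 c del dt F m1 m2) :
    Diag k r1 r2 c del dt e F := by
  intro m1 m2 d1 d2 t hm h1 h2 h3
  generalize hl : max (max (|d1| / del) (|d2| / del)) (|t| / dt) = l
  have b1 : |d1| / del ≤ l := hl ▸ (le_max_left _ _).trans (le_max_left _ _)
  have b2 : |d2| / del ≤ l := hl ▸ (le_max_right _ _).trans (le_max_left _ _)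
  have b3 : |t| / dt ≤ l := hl ▸ le_max_right _ _
  have l0 : 0 ≤ l := le_trans (by positivity) b3
  rcases l0.eq_or_lt with rfl | lp
  · exact ⟨0, PosSemidef.zero, by simp, by simp⟩
  have l1 : l ≤ 1 := hl ▸ max_le (max_le ((div_le_one hd).2 h1) ((div_le_one hd).2 h2))
    ((div_le_one ht).2 h3)
  have e : ∀ {d D : ℝ}, 0 < D → |d / D / l| = |d| / D / l := fun hD => by
    rw [abs_div, abs_div, abs_of_pos hD, abs_of_pos lp]
  have := h m1 m2 hm l (d1 / del / l) (d2 / del / l) (t / dt / l) l0 l1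
    (by rw [e hd, div_le_one lp]; exact b1) (by rw [e hd, div_le_one lp]; exact b2)
    (by rw [e ht, div_le_one lp]; exact b3) (by
      rw [e hd, e hd, e ht, div_eq_one_iff_eq lp.ne', div_eq_one_iff_eq lp.ne',
        div_eq_one_iff_eq lp.ne', ← hl]
      rcases max_choice (max (|d1| / del) (|d2| / del)) (|t| / dt) with g | g
      · rw [g]; rcases max_choice (|d1| / del) (|d2| / del) with g | g <;> simp [g]
      · simp [g])
  have f : ∀ {d D : ℝ}, 0 < D → D * (l * (d / D / l)) = d := fun hD => by field_simp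
  rwa [f hd, f hd, f ht] at this

/-- Trees of cells. -/
inductive CT
  | out : CT
  | cell (f0 f1 f2 f3 f4 f5 : FT) : CT
  | nd (a b c d : CT) : CT

/-- The square with centre `(a, b)` and radius `r` does not meet the disc. -/
noncomputable def outT (e2 r : ℕ) (a b : ℤ) : Bool :=
  Nat.ble (Nat.succ e2) (Nat.add (Nat.mul (Nat.sub (iabs a) r) (Nat.sub (iabs a) r))
    (Nat.mul (Nat.sub (iabs b) r) (Nat.sub (iabs b) r)))

/-- The test of a tree of cells; the radius is `2 ^ j`. -/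
noncomputable def goC (cl : ℕ → ℤ → ℤ → FT → FT → FT → FT → FT → FT → Bool) (e2 : ℕ) (t : CT) :
    ℕ → ℤ → ℤ → Bool :=
  @CT.rec (fun _ => ℕ → ℤ → ℤ → Bool) (fun j a b => outT e2 (Nat.shiftLeft 1 j) a b)
    (fun f0 f1 f2 f3 f4 f5 j a b => cl j a b f0 f1 f2 f3 f4 f5)
    (fun _ _ _ _ r0 r1 r2 r3 j a b => @Nat.rec (fun _ => Bool) false (fun i _ =>
      and (and (r0 i (isub a (ishl 1 i)) (isub b (ishl 1 i))) (r1 i (iadd a (ishl 1 i)) (isub b (ishl 1 i))))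
        (and (r2 i (isub a (ishl 1 i)) (iadd b (ishl 1 i))) (r3 i (iadd a (ishl 1 i)) (iadd b (ishl 1 i)))))
      j) t

/-- The statement holds on the part of a square inside the disc. -/
def GoodC (T : ℝ → ℝ → Prop) (e2 j : ℕ) (a b : ℤ) : Prop :=
  ∀ s t : ℝ, |s| ≤ 1 → |t| ≤ 1 → (a + 2 ^ j * s) ^ 2 + (b + 2 ^ j * t) ^ 2 ≤ e2 →
    T (a + 2 ^ j * s) (b + 2 ^ j * t)

theorem GoodC.split {T : ℝ → ℝ → Prop} {e2 i : ℕ} {a b a0 a1 b0 b1 : ℤ} (h0 : GoodC T e2 i a0 b0)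
    (h1 : GoodC T e2 i a1 b0) (h2 : GoodC T e2 i a0 b1) (h3 : GoodC T e2 i a1 b1)
    (e : a0 = a - 2 ^ i ∧ a1 = a + 2 ^ i ∧ b0 = b - 2 ^ i ∧ b1 = b + 2 ^ i) :
    GoodC T e2 (i + 1) a b := by
  obtain ⟨rfl, rfl, rfl, rfl⟩ := e
  intro s t hs ht
  have e0 : ∀ (c : ℤ) (u : ℝ), (c : ℝ) + 2 ^ (i + 1) * u = (c - 2 ^ i : ℤ) + 2 ^ i * (2 * u + 1) :=
    fun c u => by push_cast; ring
  have e1 : ∀ (c : ℤ) (u : ℝ), (c : ℝ) + 2 ^ (i + 1) * u = (c + 2 ^ i : ℤ) + 2 ^ i * (2 * u - 1) :=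
    fun c u => by push_cast; ring
  rcases t3e_half hs with gu | gu <;> rcases t3e_half ht with gv | gv
  · rw [e0 a, e0 b]; exact h0 _ _ gu gv
  · rw [e0 a, e1 b]; exact h2 _ _ gu gv
  · rw [e1 a, e0 b]; exact h1 _ _ gu gv
  · rw [e1 a, e1 b]; exact h3 _ _ gu gv

theorem GoodC.out {T : ℝ → ℝ → Prop} {e2 j : ℕ} {a b : ℤ} (h : outT e2 (Nat.shiftLeft 1 j) a b = true) :
    GoodC T e2 j a b := by
  intro s t hs ht H
  have h' : e2 + 1 ≤ (iabs a - 1 <<< j) * (iabs a - 1 <<< j) + (iabs b - 1 <<< j) * (iabs b - 1 <<< j) :=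
    Nat.le_of_ble_eq_true h
  have key : ∀ (c : ℤ) (u : ℝ), |u| ≤ 1 →
      (((iabs c - 1 <<< j) * (iabs c - 1 <<< j) : ℕ) : ℝ) ≤ (c + 2 ^ j * u) ^ 2 := fun c u hu => by
    rw [iabs_eq, Nat.one_shiftLeft]
    rcases le_total c.natAbs (2 ^ j) with g | g
    · rw [Nat.sub_eq_zero_of_le g]; simp; positivity
    · rw [Nat.cast_mul, Nat.cast_sub g, ← sq, Nat.cast_natAbs, Int.cast_abs]
      have g' : ((2 ^ j : ℕ) : ℝ) ≤ |(c : ℝ)| := by
        rw [← Int.cast_abs, ← Nat.cast_natAbs]; exact_mod_cast g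
      refine sq_le_sq.2 ?_
      have a1 := abs_sub_abs_le_abs_add (c : ℝ) (2 ^ j * u)
      have a2 : |2 ^ j * u| ≤ 2 ^ j := by
        rw [abs_mul, abs_of_pos (by positivity)]; exact mul_le_of_le_one_right (by positivity) hu
      rw [abs_of_nonneg (sub_nonneg.2 g')]
      push_cast
      linarith
  have : ((e2 + 1 : ℕ) : ℝ) ≤ _ := Nat.cast_le.2 h'
  rw [Nat.cast_add, Nat.cast_add, Nat.cast_one] at this
  linarith [key a s hs, key b t ht]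

theorem goC_sound {cl : ℕ → ℤ → ℤ → FT → FT → FT → FT → FT → FT → Bool} {T : ℝ → ℝ → Prop} {e2 : ℕ}
    (h : ∀ j a b f0 f1 f2 f3 f4 f5, cl j a b f0 f1 f2 f3 f4 f5 = true → GoodC T e2 j a b) (t : CT) :
    ∀ j a b, goC cl e2 t j a b = true → GoodC T e2 j a b := by
  induction t with
  | out => exact fun j a b H => GoodC.out H
  | cell f0 f1 f2 f3 f4 f5 => exact fun j a b H => h j a b _ _ _ _ _ _ H
  | nd t0 t1 t2 t3 i0 i1 i2 i3 =>
    intro j a b H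
    cases j with
    | zero => exact absurd H Bool.false_ne_true
    | succ i =>
      have H' : (goC cl e2 t0 i (isub a (ishl 1 i)) (isub b (ishl 1 i)) &&
        goC cl e2 t1 i (iadd a (ishl 1 i)) (isub b (ishl 1 i)) &&
        (goC cl e2 t2 i (isub a (ishl 1 i)) (iadd b (ishl 1 i)) &&
        goC cl e2 t3 i (iadd a (ishl 1 i)) (iadd b (ishl 1 i)))) = true := H
      simp only [Bool.and_eq_true] at H'
      exact (i0 _ _ _ H'.1.1).split (i1 _ _ _ H'.1.2) (i2 _ _ _ H'.2.1) (i3 _ _ _ H'.2.2)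
        (by simp [isub_eq, iadd_eq, ishl_eq])

/-- The polynomials `Q` approximate `2 ^ q • F` on the square with centre `(a, b) / h` and radius
`ρ / h`. -/
def TopS (F : ℝ → ℝ → Mat 3) (h : ℝ) (q : ℕ) (a b : ℤ) (ρ : ℕ) (Q : Six (List (List ℤ)))
    (ε L : ℝ) : Prop :=
  ∀ s t s' t' x : ℝ, |s| ≤ 1 → |t| ≤ 1 → |s'| ≤ 1 → |t'| ≤ 1 → |s - s'| ≤ x → |t - t'| ≤ x → ∀ i j,
    |2 ^ q * F ((a + ρ * s) / h) ((b + ρ * t) / h) i j - (Q.map (opsR.h2 s t)).mat i j| ≤ ε ∧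
    |2 ^ q * F ((a + ρ * s) / h) ((b + ρ * t) / h) i j - (Q.map (opsR.h2 s t)).mat i j -
      (2 ^ q * F ((a + ρ * s') / h) ((b + ρ * t') / h) i j - (Q.map (opsR.h2 s' t')).mat i j)| ≤ L * x

/-- The data of the cell with the polynomials `Q`; the offset is `2 ^ i` times the radius. -/
noncomputable def mkD (P : DP) (W M E : ℕ) (C1 C2 : ℤ) (i s : ℕ) (Q : Six (List (List ℤ))) : CD :=
  ⟨Q.map fun r => (mkE P (Nat.shiftLeft 1 i) (Nat.succ i) r).toN P, Nat.shiftLeft 1 i, W, Nat.shiftLeft M s,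
    Nat.shiftLeft E s, ishl C1 s, ishl C2 s⟩

theorem cell_sound {C : DC} (hC : C.Ok) {P : DP} (hP' : P = C.P) {W MQ E q i j : ℕ} {C1 C2 a b : ℤ} {Q : Six (List (List ℤ))}
    {F : ℝ → ℝ → Mat 3} {k r1 r2 c0 dt h ε L : ℝ} (hh : 0 < h) (hi : i + 1 ≤ P.K) (hW : 1 ≤ W)
    (hk : k * dt * W = 1) (h1 : (C1 : ℝ) = 2 * W * 2 ^ q * dt * r1)
    (h2 : (C2 : ℝ) = 2 * W * 2 ^ q * dt * r2) (hL : 0 ≤ L)
    (hE : W ^ 2 * (c0 * 2 ^ q + L + 6 * ε) ≤ E) (hT : TopS F h q a b (2 ^ (i + j + 1)) Q ε L)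
    (hQ : ∀ l ∈ [Q.f00, Q.f01, Q.f02, Q.f11, Q.f12, Q.f22], ∃ N,
      Rep2 P.K P.n (P.D + 1) MQ N fun s t => opsR.h2 s t l) {f0 f1 f2 f3 f4 f5 : FT}
    (H : six (leaf C (mkD P W (P.ns * P.n * MQ) E C1 C2 i ((i + 1) * (P.D + 1)) Q))
      f0 f1 f2 f3 f4 f5 = true) {s t : ℝ} (hs : |s| ≤ 1) (ht : |t| ≤ 1) :
    DiagAt k r1 r2 c0 (2 ^ (i + j) / h) dt F ((a + 2 ^ j * s) / h) ((b + 2 ^ j * t) / h) := by
  intro l x y z l0 l1 hx hy hz hm
  have hP : P.Ok := hP' ▸ hC.P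
  generalize hc : mkD P W (P.ns * P.n * MQ) E C1 C2 i ((i + 1) * (P.D + 1)) Q = c at H
  obtain ⟨R, hR⟩ : ∃ R : ℝ, R = 2 ^ ((i + 1) * (P.D + 1)) := ⟨_, rfl⟩
  have R0 : 0 < R := by rw [hR]; positivity
  have cδ : c.δ = 2 ^ i := by rw [← hc]; exact Nat.one_shiftLeft i
  have cW : c.W = W := by rw [← hc]; rfl
  refine six_sound (T := fun x y z => ∃ A : Mat 3, A.PosSemidef ∧ A.trace ≤ 1 ∧ c0 * l ≤
    (A * Wm k r1 r2 (F ((a + 2 ^ j * s) / h + 2 ^ (i + j) / h * (l * x))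
      ((b + 2 ^ j * t) / h + 2 ^ (i + j) / h * (l * y))) (-F ((a + 2 ^ j * s) / h - 2 ^ (i + j) / h *
      (l * x)) ((b + 2 ^ j * t) / h - 2 ^ (i + j) / h * (l * y))) (dt * (l * z))).trace)
    (fun e1 e2 w o S hS G u v x y z hu hv ex ey ez => ?_) H hx hy hz hm
  refine leaf_sound hC (by rw [cδ]; exact Nat.one_le_two_pow) (cW ▸ hW) hS G hu hv ex ey ez
    (σ := R * 2 ^ q) (ε := R * ε) (L := R * L) (cW ▸ hk) ?_ ?_ (by positivity) ?_ hs ht l0 l1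
    (by positivity) fun hx hy => ?_
  · rw [cW, ← hc]; show ((ishl C1 _ : ℤ) : ℝ) = _
    rw [ishl_eq]; push_cast; rw [h1, hR]; ring
  · rw [cW, ← hc]; show ((ishl C2 _ : ℤ) : ℝ) = _
    rw [ishl_eq]; push_cast; rw [h2, hR]; ring
  · rw [cW, ← hc]; show _ ≤ ((E <<< _ : ℕ) : ℝ)
    rw [Nat.shiftLeft_eq]; push_cast; rw [← hR]
    linarith [mul_le_mul_of_nonneg_right hE R0.le]
  have hd : ∀ w : ℝ, |w| ≤ 1 → |(c.δ : ℝ) * (l * w)| ≤ 2 ^ i * l := fun w hw => by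
    rw [cδ, abs_mul, abs_mul, Nat.abs_cast, abs_of_nonneg l0]; push_cast
    exact mul_le_mul_of_nonneg_left (mul_le_of_le_one_right l0 hw) (by positivity)
  have p1 : (1 : ℝ) ≤ 2 ^ i := one_le_pow₀ one_le_two
  have hd' : ∀ w : ℝ, |w| ≤ 1 → |(c.δ : ℝ) * (l * w)| ≤ c.δ := fun w hw =>
    (hd w hw).trans (by rw [cδ]; push_cast; exact mul_le_of_le_one_right (by positivity) l1)
  have ok : ∀ r ∈ [Q.f00, Q.f01, Q.f02, Q.f11, Q.f12, Q.f22],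
      ((mkE P c.δ (i + 1) r).toN P).Ok P c.δ s t (c.δ * (l * x)) (c.δ * (l * y)) c.M
        (R * opsR.h2 ((s + c.δ * (l * x)) / 2 ^ (i + 1)) ((t + c.δ * (l * y)) / 2 ^ (i + 1)) r)
        (R * opsR.h2 ((s - c.δ * (l * x)) / 2 ^ (i + 1)) ((t - c.δ * (l * y)) / 2 ^ (i + 1)) r) :=
    fun r hr => by
      obtain ⟨N, hN⟩ := hQ r hr
      rw [hR]
      exact ((mkE_ok hP hN (by rw [cδ]; exact Nat.one_le_two_pow) (by rw [cδ, pow_succ, mul_comm]) hi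
        hs ht (hd' x hx) (hd' y hy)).toN hP).mono (by rw [← hc]; exact (Nat.shiftLeft_eq _ _).ge)
  simp only [List.forall_mem_cons] at ok
  obtain ⟨o0, o1, o2, o3, o4, o5, -⟩ := ok
  have in1 : ∀ {s d : ℝ}, |s| ≤ 1 → |d| ≤ 2 ^ i * l → |(s + d) / 2 ^ (i + 1)| ≤ 1 := fun g1 g2 => by
    rw [abs_div, abs_of_pos (show (0 : ℝ) < 2 ^ (i + 1) by positivity), div_le_one (by positivity),
      pow_succ]
    exact (abs_add_le _ _).trans (by nlinarith)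
  have in2 : ∀ {s d : ℝ}, |s| ≤ 1 → |d| ≤ 2 ^ i * l → |(s - d) / 2 ^ (i + 1)| ≤ 1 := fun g1 g2 => by
    rw [sub_eq_add_neg]; exact in1 g1 (by rwa [abs_neg])
  have df : ∀ {s d : ℝ}, |d| ≤ 2 ^ i * l → |(s + d) / 2 ^ (i + 1) - (s - d) / 2 ^ (i + 1)| ≤ l :=
    fun {s d} g => by
      rw [show (s + d) / 2 ^ (i + 1) - (s - d) / 2 ^ (i + 1) = d / 2 ^ i by field_simp; ring, abs_div,
        abs_of_pos (show (0 : ℝ) < 2 ^ i by positivity), div_le_iff₀' (by positivity)]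
      exact g
  have T1 := hT _ _ _ _ l (in1 hs (hd x hx)) (in1 ht (hd y hy)) (in2 hs (hd x hx)) (in2 ht (hd y hy))
    (df (hd x hx)) (df (hd y hy))
  have T2 := hT _ _ _ _ 0 (in2 hs (hd x hx)) (in2 ht (hd y hy)) (in2 hs (hd x hx)) (in2 ht (hd y hy))
    (by simp) (by simp)
  have g1 : ∀ (a : ℤ) (s w : ℝ), (a + (2 ^ (i + j + 1) : ℕ) * ((s + c.δ * w) / 2 ^ (i + 1))) / h =
      (a + 2 ^ j * s) / h + 2 ^ (i + j) / h * w := fun a s w => by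
    rw [cδ]; push_cast; field_simp; ring
  have g2 : ∀ (a : ℤ) (s w : ℝ), (a + (2 ^ (i + j + 1) : ℕ) * ((s - c.δ * w) / 2 ^ (i + 1))) / h =
      (a + 2 ^ j * s) / h - 2 ^ (i + j) / h * w := fun a s w => by
    rw [cδ]; push_cast; field_simp; ring
  rw [g1, g1, g2, g2] at T1
  rw [g2, g2] at T2
  have cE : c.E = Q.map fun r => (mkE P c.δ (i + 1) r).toN P := by rw [← hc]; rfl
  have sc : ∀ (G : List (List ℤ) → ℝ) (i j : Fin 3),
      (Q.map fun r => R * G r).mat i j = R * (Q.map G).mat i j := fun G i j => by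
    fin_cases i <;> fin_cases j <;> rfl
  refine ⟨Q.map fun r => R * opsR.h2 ((s + c.δ * (l * x)) / 2 ^ (i + 1))
    ((t + c.δ * (l * y)) / 2 ^ (i + 1)) r, Q.map fun r => R * opsR.h2
    ((s - c.δ * (l * x)) / 2 ^ (i + 1)) ((t - c.δ * (l * y)) / 2 ^ (i + 1)) r, ?_⟩
  rw [cE, ← hP']
  refine ⟨o0, o1, o2, o3, o4, o5, fun i j => ?_⟩
  rw [sc, sc, mul_assoc R, mul_assoc R, ← mul_sub, ← mul_sub, ← mul_sub, abs_mul, abs_mul, abs_mul,
    abs_of_pos R0, mul_left_comm l]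
  exact ⟨mul_le_mul_of_nonneg_left (T1 i j).1 R0.le, mul_le_mul_of_nonneg_left (T2 i j).1 R0.le,
    mul_le_mul_of_nonneg_left ((T1 i j).2.trans_eq (mul_comm _ _)) R0.le⟩

end Pool.Agent.P.MP_f12b6c_an.Dg
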