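import Pool.Agent.P.MP_f12b6c_an.T3Dg01
import Pool.Agent.P.MP_f12b6c_an.T3Dg02
import Pool.Agent.P.MP_f12b6c_an.T3Dg03
import Pool.Agent.P.MP_f12b6c_an.T3Dg04
import Pool.Agent.P.MP_f12b6c_an.T3Dg05
import Pool.Agent.P.MP_f12b6c_an.T3Dg06
import Pool.Agent.P.MP_f12b6c_an.T3Dg07
import Pool.Agent.P.MP_f12b6c_an.T3Dg08
import Pool.Agent.P.MP_f12b6c_an.T3Dg09
import Pool.Agent.P.MP_f12b6c_an.T3Dg10
import Pool.Agent.P.MP_f12b6c_an.T3Dg11
import Pool.Agent.P.MP_f12b6c_an.T3Dg12

/-! The diagonal statement for the profile. -/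

namespace Pool.Agent.P.MP_f12b6c_an.Dg

theorem g4_m48_m144 : GD 4 (-48) (-144) :=
  GD.split (i := 3) (a0 := -56) (a1 := -40) (b0 := -152) (b1 := -136)
    (chk_sound .out _ _ _ (by decide +kernel))
    (chk_sound .out _ _ _ (by decide +kernel))
    (chk_sound .out _ _ _ (by decide +kernel))
    g3_m40_m136
    (by decide)

theorem g4_m16_m144 : GD 4 (-16) (-144) :=
  GD.split (i := 3) (a0 := -24) (a1 := -8) (b0 := -152) (b1 := -136)
    (chk_sound .out _ _ _ (by decide +kernel))
    (chk_sound .out _ _ _ (by decide +kernel))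
    g3_m24_m136
    g3_m8_m136
    (by decide)

theorem g5_m32_m160 : GD 5 (-32) (-160) :=
  GD.split (i := 4) (a0 := -48) (a1 := -16) (b0 := -176) (b1 := -144)
    (chk_sound .out _ _ _ (by decide +kernel))
    (chk_sound .out _ _ _ (by decide +kernel))
    g4_m48_m144
    g4_m16_m144
    (by decide)

theorem g6_m64_m192 : GD 6 (-64) (-192) :=
  GD.split (i := 5) (a0 := -96) (a1 := -32) (b0 := -224) (b1 := -160)
    (chk_sound .out _ _ _ (by decide +kernel))
    (chk_sound .out _ _ _ (by decide +kernel))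
    (chk_sound .out _ _ _ (by decide +kernel))
    g5_m32_m160
    (by decide)

theorem g4_m144_m48 : GD 4 (-144) (-48) :=
  GD.split (i := 3) (a0 := -152) (a1 := -136) (b0 := -56) (b1 := -40)
    (chk_sound .out _ _ _ (by decide +kernel))
    (chk_sound .out _ _ _ (by decide +kernel))
    (chk_sound .out _ _ _ (by decide +kernel))
    g3_m136_m40
    (by decide)

theorem g4_m144_m16 : GD 4 (-144) (-16) :=
  GD.split (i := 3) (a0 := -152) (a1 := -136) (b0 := -24) (b1 := -8)
    (chk_sound .out _ _ _ (by decide +kernel))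
    g3_m136_m24
    (chk_sound .out _ _ _ (by decide +kernel))
    g3_m136_m8
    (by decide)

theorem g5_m160_m32 : GD 5 (-160) (-32) :=
  GD.split (i := 4) (a0 := -176) (a1 := -144) (b0 := -48) (b1 := -16)
    (chk_sound .out _ _ _ (by decide +kernel))
    g4_m144_m48
    (chk_sound .out _ _ _ (by decide +kernel))
    g4_m144_m16
    (by decide)

theorem g6_m192_m64 : GD 6 (-192) (-64) :=
  GD.split (i := 5) (a0 := -224) (a1 := -160) (b0 := -96) (b1 := -32)
    (chk_sound .out _ _ _ (by decide +kernel))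
    (chk_sound .out _ _ _ (by decide +kernel))
    (chk_sound .out _ _ _ (by decide +kernel))
    g5_m160_m32
    (by decide)

theorem g4_m112_m112 : GD 4 (-112) (-112) :=
  GD.split (i := 3) (a0 := -120) (a1 := -104) (b0 := -120) (b1 := -104)
    (chk_sound .out _ _ _ (by decide +kernel))
    (chk_sound .out _ _ _ (by decide +kernel))
    (chk_sound .out _ _ _ (by decide +kernel))
    g3_m104_m104
    (by decide)

theorem g4_m80_m112 : GD 4 (-80) (-112) :=
  GD.split (i := 3) (a0 := -88) (a1 := -72) (b0 := -120) (b1 := -104)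
    (chk_sound .out _ _ _ (by decide +kernel))
    g3_m72_m120
    g3_m88_m104
    g3_m72_m104
    (by decide)

theorem g4_m112_m80 : GD 4 (-112) (-80) :=
  GD.split (i := 3) (a0 := -120) (a1 := -104) (b0 := -88) (b1 := -72)
    (chk_sound .out _ _ _ (by decide +kernel))
    g3_m104_m88
    g3_m120_m72
    g3_m104_m72
    (by decide)

theorem g4_m80_m80 : GD 4 (-80) (-80) :=
  GD.split (i := 3) (a0 := -88) (a1 := -72) (b0 := -88) (b1 := -72)
    g3_m88_m88
    g3_m72_m88
    g3_m88_m72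
    g3_m72_m72
    (by decide)

theorem g5_m96_m96 : GD 5 (-96) (-96) :=
  GD.split (i := 4) (a0 := -112) (a1 := -80) (b0 := -112) (b1 := -80)
    g4_m112_m112
    g4_m80_m112
    g4_m112_m80
    g4_m80_m80
    (by decide)

theorem g4_m48_m112 : GD 4 (-48) (-112) :=
  GD.split (i := 3) (a0 := -56) (a1 := -40) (b0 := -120) (b1 := -104)
    g3_m56_m120
    g3_m40_m120
    g3_m56_m104
    g3_m40_m104
    (by decide)

theorem g4_m16_m112 : GD 4 (-16) (-112) :=
  GD.split (i := 3) (a0 := -24) (a1 := -8) (b0 := -120) (b1 := -104)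
    g3_m24_m120
    g3_m8_m120
    g3_m24_m104
    g3_m8_m104
    (by decide)

theorem g4_m48_m80 : GD 4 (-48) (-80) :=
  GD.split (i := 3) (a0 := -56) (a1 := -40) (b0 := -88) (b1 := -72)
    g3_m56_m88
    g3_m40_m88
    g3_m56_m72
    g3_m40_m72
    (by decide)

theorem g4_m16_m80 : GD 4 (-16) (-80) :=
  GD.split (i := 3) (a0 := -24) (a1 := -8) (b0 := -88) (b1 := -72)
    g3_m24_m88
    g3_m8_m88
    g3_m24_m72
    g3_m8_m72
    (by decide)

theorem g5_m32_m96 : GD 5 (-32) (-96) :=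
  GD.split (i := 4) (a0 := -48) (a1 := -16) (b0 := -112) (b1 := -80)
    g4_m48_m112
    g4_m16_m112
    g4_m48_m80
    g4_m16_m80
    (by decide)

theorem g4_m112_m48 : GD 4 (-112) (-48) :=
  GD.split (i := 3) (a0 := -120) (a1 := -104) (b0 := -56) (b1 := -40)
    g3_m120_m56
    g3_m104_m56
    g3_m120_m40
    g3_m104_m40
    (by decide)

theorem g4_m80_m48 : GD 4 (-80) (-48) :=
  GD.split (i := 3) (a0 := -88) (a1 := -72) (b0 := -56) (b1 := -40)
    g3_m88_m56
    g3_m72_m56
    g3_m88_m40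
    g3_m72_m40
    (by decide)

theorem g4_m112_m16 : GD 4 (-112) (-16) :=
  GD.split (i := 3) (a0 := -120) (a1 := -104) (b0 := -24) (b1 := -8)
    g3_m120_m24
    g3_m104_m24
    g3_m120_m8
    g3_m104_m8
    (by decide)

theorem g4_m80_m16 : GD 4 (-80) (-16) :=
  GD.split (i := 3) (a0 := -88) (a1 := -72) (b0 := -24) (b1 := -8)
    g3_m88_m24
    g3_m72_m24
    g3_m88_m8
    g3_m72_m8
    (by decide)

theorem g5_m96_m32 : GD 5 (-96) (-32) :=
  GD.split (i := 4) (a0 := -112) (a1 := -80) (b0 := -48) (b1 := -16)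
    g4_m112_m48
    g4_m80_m48
    g4_m112_m16
    g4_m80_m16
    (by decide)

theorem g4_m48_m48 : GD 4 (-48) (-48) :=
  GD.split (i := 3) (a0 := -56) (a1 := -40) (b0 := -56) (b1 := -40)
    g3_m56_m56
    g3_m40_m56
    g3_m56_m40
    g3_m40_m40
    (by decide)

theorem g4_m16_m48 : GD 4 (-16) (-48) :=
  GD.split (i := 3) (a0 := -24) (a1 := -8) (b0 := -56) (b1 := -40)
    g3_m24_m56
    g3_m8_m56
    g3_m24_m40
    g3_m8_m40
    (by decide)

theorem g4_m48_m16 : GD 4 (-48) (-16) :=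
  GD.split (i := 3) (a0 := -56) (a1 := -40) (b0 := -24) (b1 := -8)
    g3_m56_m24
    g3_m40_m24
    g3_m56_m8
    g3_m40_m8
    (by decide)

theorem g4_m16_m16 : GD 4 (-16) (-16) :=
  GD.split (i := 3) (a0 := -24) (a1 := -8) (b0 := -24) (b1 := -8)
    g3_m24_m24
    g3_m8_m24
    g3_m24_m8
    g3_m8_m8
    (by decide)

theorem g5_m32_m32 : GD 5 (-32) (-32) :=
  GD.split (i := 4) (a0 := -48) (a1 := -16) (b0 := -48) (b1 := -16)
    g4_m48_m48
    g4_m16_m48
    g4_m48_m16
    g4_m16_m16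
    (by decide)

theorem g6_m64_m64 : GD 6 (-64) (-64) :=
  GD.split (i := 5) (a0 := -96) (a1 := -32) (b0 := -96) (b1 := -32)
    g5_m96_m96
    g5_m32_m96
    g5_m96_m32
    g5_m32_m32
    (by decide)

theorem g7_m128_m128 : GD 7 (-128) (-128) :=
  GD.split (i := 6) (a0 := -192) (a1 := -64) (b0 := -192) (b1 := -64)
    (chk_sound .out _ _ _ (by decide +kernel))
    g6_m64_m192
    g6_m192_m64
    g6_m64_m64
    (by decide)

theorem g4_16_m144 : GD 4 16 (-144) :=
  GD.split (i := 3) (a0 := 8) (a1 := 24) (b0 := -152) (b1 := -136)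
    (chk_sound .out _ _ _ (by decide +kernel))
    (chk_sound .out _ _ _ (by decide +kernel))
    g3_8_m136
    g3_24_m136
    (by decide)

theorem g4_48_m144 : GD 4 48 (-144) :=
  GD.split (i := 3) (a0 := 40) (a1 := 56) (b0 := -152) (b1 := -136)
    (chk_sound .out _ _ _ (by decide +kernel))
    (chk_sound .out _ _ _ (by decide +kernel))
    g3_40_m136
    (chk_sound .out _ _ _ (by decide +kernel))
    (by decide)

theorem g5_32_m160 : GD 5 32 (-160) :=
  GD.split (i := 4) (a0 := 16) (a1 := 48) (b0 := -176) (b1 := -144)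
    (chk_sound .out _ _ _ (by decide +kernel))
    (chk_sound .out _ _ _ (by decide +kernel))
    g4_16_m144
    g4_48_m144
    (by decide)

theorem g6_64_m192 : GD 6 64 (-192) :=
  GD.split (i := 5) (a0 := 32) (a1 := 96) (b0 := -224) (b1 := -160)
    (chk_sound .out _ _ _ (by decide +kernel))
    (chk_sound .out _ _ _ (by decide +kernel))
    g5_32_m160
    (chk_sound .out _ _ _ (by decide +kernel))
    (by decide)

theorem g4_16_m112 : GD 4 16 (-112) :=
  GD.split (i := 3) (a0 := 8) (a1 := 24) (b0 := -120) (b1 := -104)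
    g3_8_m120
    g3_24_m120
    g3_8_m104
    g3_24_m104
    (by decide)

theorem g4_48_m112 : GD 4 48 (-112) :=
  GD.split (i := 3) (a0 := 40) (a1 := 56) (b0 := -120) (b1 := -104)
    g3_40_m120
    g3_56_m120
    g3_40_m104
    g3_56_m104
    (by decide)

theorem g4_16_m80 : GD 4 16 (-80) :=
  GD.split (i := 3) (a0 := 8) (a1 := 24) (b0 := -88) (b1 := -72)
    g3_8_m88
    g3_24_m88
    g3_8_m72
    g3_24_m72
    (by decide)

theorem g4_48_m80 : GD 4 48 (-80) :=
  GD.split (i := 3) (a0 := 40) (a1 := 56) (b0 := -88) (b1 := -72)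
    g3_40_m88
    g3_56_m88
    g3_40_m72
    g3_56_m72
    (by decide)

theorem g5_32_m96 : GD 5 32 (-96) :=
  GD.split (i := 4) (a0 := 16) (a1 := 48) (b0 := -112) (b1 := -80)
    g4_16_m112
    g4_48_m112
    g4_16_m80
    g4_48_m80
    (by decide)

theorem g4_80_m112 : GD 4 80 (-112) :=
  GD.split (i := 3) (a0 := 72) (a1 := 88) (b0 := -120) (b1 := -104)
    g3_72_m120
    (chk_sound .out _ _ _ (by decide +kernel))
    g3_72_m104
    g3_88_m104
    (by decide)

theorem g4_112_m112 : GD 4 112 (-112) :=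
  GD.split (i := 3) (a0 := 104) (a1 := 120) (b0 := -120) (b1 := -104)
    (chk_sound .out _ _ _ (by decide +kernel))
    (chk_sound .out _ _ _ (by decide +kernel))
    g3_104_m104
    (chk_sound .out _ _ _ (by decide +kernel))
    (by decide)

theorem g4_80_m80 : GD 4 80 (-80) :=
  GD.split (i := 3) (a0 := 72) (a1 := 88) (b0 := -88) (b1 := -72)
    g3_72_m88
    g3_88_m88
    g3_72_m72
    g3_88_m72
    (by decide)

theorem g4_112_m80 : GD 4 112 (-80) :=
  GD.split (i := 3) (a0 := 104) (a1 := 120) (b0 := -88) (b1 := -72)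
    g3_104_m88
    (chk_sound .out _ _ _ (by decide +kernel))
    g3_104_m72
    g3_120_m72
    (by decide)

theorem g5_96_m96 : GD 5 96 (-96) :=
  GD.split (i := 4) (a0 := 80) (a1 := 112) (b0 := -112) (b1 := -80)
    g4_80_m112
    g4_112_m112
    g4_80_m80
    g4_112_m80
    (by decide)

theorem g4_16_m48 : GD 4 16 (-48) :=
  GD.split (i := 3) (a0 := 8) (a1 := 24) (b0 := -56) (b1 := -40)
    g3_8_m56
    g3_24_m56
    g3_8_m40
    g3_24_m40
    (by decide)

theorem g4_48_m48 : GD 4 48 (-48) :=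
  GD.split (i := 3) (a0 := 40) (a1 := 56) (b0 := -56) (b1 := -40)
    g3_40_m56
    g3_56_m56
    g3_40_m40
    g3_56_m40
    (by decide)

theorem g4_16_m16 : GD 4 16 (-16) :=
  GD.split (i := 3) (a0 := 8) (a1 := 24) (b0 := -24) (b1 := -8)
    g3_8_m24
    g3_24_m24
    g3_8_m8
    g3_24_m8
    (by decide)

theorem g4_48_m16 : GD 4 48 (-16) :=
  GD.split (i := 3) (a0 := 40) (a1 := 56) (b0 := -24) (b1 := -8)
    g3_40_m24
    g3_56_m24
    g3_40_m8
    g3_56_m8
    (by decide)

theorem g5_32_m32 : GD 5 32 (-32) :=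
  GD.split (i := 4) (a0 := 16) (a1 := 48) (b0 := -48) (b1 := -16)
    g4_16_m48
    g4_48_m48
    g4_16_m16
    g4_48_m16
    (by decide)

theorem g4_80_m48 : GD 4 80 (-48) :=
  GD.split (i := 3) (a0 := 72) (a1 := 88) (b0 := -56) (b1 := -40)
    g3_72_m56
    g3_88_m56
    g3_72_m40
    g3_88_m40
    (by decide)

theorem g4_112_m48 : GD 4 112 (-48) :=
  GD.split (i := 3) (a0 := 104) (a1 := 120) (b0 := -56) (b1 := -40)
    g3_104_m56
    g3_120_m56
    g3_104_m40
    g3_120_m40
    (by decide)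

theorem g4_80_m16 : GD 4 80 (-16) :=
  GD.split (i := 3) (a0 := 72) (a1 := 88) (b0 := -24) (b1 := -8)
    g3_72_m24
    g3_88_m24
    g3_72_m8
    g3_88_m8
    (by decide)

theorem g4_112_m16 : GD 4 112 (-16) :=
  GD.split (i := 3) (a0 := 104) (a1 := 120) (b0 := -24) (b1 := -8)
    g3_104_m24
    g3_120_m24
    g3_104_m8
    g3_120_m8
    (by decide)

theorem g5_96_m32 : GD 5 96 (-32) :=
  GD.split (i := 4) (a0 := 80) (a1 := 112) (b0 := -48) (b1 := -16)
    g4_80_m48
    g4_112_m48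
    g4_80_m16
    g4_112_m16
    (by decide)

theorem g6_64_m64 : GD 6 64 (-64) :=
  GD.split (i := 5) (a0 := 32) (a1 := 96) (b0 := -96) (b1 := -32)
    g5_32_m96
    g5_96_m96
    g5_32_m32
    g5_96_m32
    (by decide)

theorem g4_144_m48 : GD 4 144 (-48) :=
  GD.split (i := 3) (a0 := 136) (a1 := 152) (b0 := -56) (b1 := -40)
    (chk_sound .out _ _ _ (by decide +kernel))
    (chk_sound .out _ _ _ (by decide +kernel))
    g3_136_m40
    (chk_sound .out _ _ _ (by decide +kernel))
    (by decide)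

theorem g4_144_m16 : GD 4 144 (-16) :=
  GD.split (i := 3) (a0 := 136) (a1 := 152) (b0 := -24) (b1 := -8)
    g3_136_m24
    (chk_sound .out _ _ _ (by decide +kernel))
    g3_136_m8
    (chk_sound .out _ _ _ (by decide +kernel))
    (by decide)

theorem g5_160_m32 : GD 5 160 (-32) :=
  GD.split (i := 4) (a0 := 144) (a1 := 176) (b0 := -48) (b1 := -16)
    g4_144_m48
    (chk_sound .out _ _ _ (by decide +kernel))
    g4_144_m16
    (chk_sound .out _ _ _ (by decide +kernel))
    (by decide)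

theorem g6_192_m64 : GD 6 192 (-64) :=
  GD.split (i := 5) (a0 := 160) (a1 := 224) (b0 := -96) (b1 := -32)
    (chk_sound .out _ _ _ (by decide +kernel))
    (chk_sound .out _ _ _ (by decide +kernel))
    g5_160_m32
    (chk_sound .out _ _ _ (by decide +kernel))
    (by decide)

theorem g7_128_m128 : GD 7 128 (-128) :=
  GD.split (i := 6) (a0 := 64) (a1 := 192) (b0 := -192) (b1 := -64)
    g6_64_m192
    (chk_sound .out _ _ _ (by decide +kernel))
    g6_64_m64
    g6_192_m64
    (by decide)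

theorem g4_m144_16 : GD 4 (-144) 16 :=
  GD.split (i := 3) (a0 := -152) (a1 := -136) (b0 := 8) (b1 := 24)
    (chk_sound .out _ _ _ (by decide +kernel))
    g3_m136_8
    (chk_sound .out _ _ _ (by decide +kernel))
    g3_m136_24
    (by decide)

theorem g4_m144_48 : GD 4 (-144) 48 :=
  GD.split (i := 3) (a0 := -152) (a1 := -136) (b0 := 40) (b1 := 56)
    (chk_sound .out _ _ _ (by decide +kernel))
    g3_m136_40
    (chk_sound .out _ _ _ (by decide +kernel))
    (chk_sound .out _ _ _ (by decide +kernel))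
    (by decide)

theorem g5_m160_32 : GD 5 (-160) 32 :=
  GD.split (i := 4) (a0 := -176) (a1 := -144) (b0 := 16) (b1 := 48)
    (chk_sound .out _ _ _ (by decide +kernel))
    g4_m144_16
    (chk_sound .out _ _ _ (by decide +kernel))
    g4_m144_48
    (by decide)

theorem g6_m192_64 : GD 6 (-192) 64 :=
  GD.split (i := 5) (a0 := -224) (a1 := -160) (b0 := 32) (b1 := 96)
    (chk_sound .out _ _ _ (by decide +kernel))
    g5_m160_32
    (chk_sound .out _ _ _ (by decide +kernel))
    (chk_sound .out _ _ _ (by decide +kernel))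
    (by decide)

theorem g4_m112_16 : GD 4 (-112) 16 :=
  GD.split (i := 3) (a0 := -120) (a1 := -104) (b0 := 8) (b1 := 24)
    g3_m120_8
    g3_m104_8
    g3_m120_24
    g3_m104_24
    (by decide)

theorem g4_m80_16 : GD 4 (-80) 16 :=
  GD.split (i := 3) (a0 := -88) (a1 := -72) (b0 := 8) (b1 := 24)
    g3_m88_8
    g3_m72_8
    g3_m88_24
    g3_m72_24
    (by decide)

theorem g4_m112_48 : GD 4 (-112) 48 :=
  GD.split (i := 3) (a0 := -120) (a1 := -104) (b0 := 40) (b1 := 56)
    g3_m120_40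
    g3_m104_40
    g3_m120_56
    g3_m104_56
    (by decide)

theorem g4_m80_48 : GD 4 (-80) 48 :=
  GD.split (i := 3) (a0 := -88) (a1 := -72) (b0 := 40) (b1 := 56)
    g3_m88_40
    g3_m72_40
    g3_m88_56
    g3_m72_56
    (by decide)

theorem g5_m96_32 : GD 5 (-96) 32 :=
  GD.split (i := 4) (a0 := -112) (a1 := -80) (b0 := 16) (b1 := 48)
    g4_m112_16
    g4_m80_16
    g4_m112_48
    g4_m80_48
    (by decide)

theorem g4_m48_16 : GD 4 (-48) 16 :=
  GD.split (i := 3) (a0 := -56) (a1 := -40) (b0 := 8) (b1 := 24)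
    g3_m56_8
    g3_m40_8
    g3_m56_24
    g3_m40_24
    (by decide)

theorem g4_m16_16 : GD 4 (-16) 16 :=
  GD.split (i := 3) (a0 := -24) (a1 := -8) (b0 := 8) (b1 := 24)
    g3_m24_8
    g3_m8_8
    g3_m24_24
    g3_m8_24
    (by decide)

theorem g4_m48_48 : GD 4 (-48) 48 :=
  GD.split (i := 3) (a0 := -56) (a1 := -40) (b0 := 40) (b1 := 56)
    g3_m56_40
    g3_m40_40
    g3_m56_56
    g3_m40_56
    (by decide)

theorem g4_m16_48 : GD 4 (-16) 48 :=
  GD.split (i := 3) (a0 := -24) (a1 := -8) (b0 := 40) (b1 := 56)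
    g3_m24_40
    g3_m8_40
    g3_m24_56
    g3_m8_56
    (by decide)

theorem g5_m32_32 : GD 5 (-32) 32 :=
  GD.split (i := 4) (a0 := -48) (a1 := -16) (b0 := 16) (b1 := 48)
    g4_m48_16
    g4_m16_16
    g4_m48_48
    g4_m16_48
    (by decide)

theorem g4_m112_80 : GD 4 (-112) 80 :=
  GD.split (i := 3) (a0 := -120) (a1 := -104) (b0 := 72) (b1 := 88)
    g3_m120_72
    g3_m104_72
    (chk_sound .out _ _ _ (by decide +kernel))
    g3_m104_88
    (by decide)

theorem g4_m80_80 : GD 4 (-80) 80 :=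
  GD.split (i := 3) (a0 := -88) (a1 := -72) (b0 := 72) (b1 := 88)
    g3_m88_72
    g3_m72_72
    g3_m88_88
    g3_m72_88
    (by decide)

theorem g4_m112_112 : GD 4 (-112) 112 :=
  GD.split (i := 3) (a0 := -120) (a1 := -104) (b0 := 104) (b1 := 120)
    (chk_sound .out _ _ _ (by decide +kernel))
    g3_m104_104
    (chk_sound .out _ _ _ (by decide +kernel))
    (chk_sound .out _ _ _ (by decide +kernel))
    (by decide)

theorem g4_m80_112 : GD 4 (-80) 112 :=
  GD.split (i := 3) (a0 := -88) (a1 := -72) (b0 := 104) (b1 := 120)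
    g3_m88_104
    g3_m72_104
    (chk_sound .out _ _ _ (by decide +kernel))
    g3_m72_120
    (by decide)

theorem g5_m96_96 : GD 5 (-96) 96 :=
  GD.split (i := 4) (a0 := -112) (a1 := -80) (b0 := 80) (b1 := 112)
    g4_m112_80
    g4_m80_80
    g4_m112_112
    g4_m80_112
    (by decide)

theorem g4_m48_80 : GD 4 (-48) 80 :=
  GD.split (i := 3) (a0 := -56) (a1 := -40) (b0 := 72) (b1 := 88)
    g3_m56_72
    g3_m40_72
    g3_m56_88
    g3_m40_88
    (by decide)

theorem g4_m16_80 : GD 4 (-16) 80 :=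
  GD.split (i := 3) (a0 := -24) (a1 := -8) (b0 := 72) (b1 := 88)
    g3_m24_72
    g3_m8_72
    g3_m24_88
    g3_m8_88
    (by decide)

theorem g4_m48_112 : GD 4 (-48) 112 :=
  GD.split (i := 3) (a0 := -56) (a1 := -40) (b0 := 104) (b1 := 120)
    g3_m56_104
    g3_m40_104
    g3_m56_120
    g3_m40_120
    (by decide)

theorem g4_m16_112 : GD 4 (-16) 112 :=
  GD.split (i := 3) (a0 := -24) (a1 := -8) (b0 := 104) (b1 := 120)
    g3_m24_104
    g3_m8_104
    g3_m24_120
    g3_m8_120
    (by decide)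

theorem g5_m32_96 : GD 5 (-32) 96 :=
  GD.split (i := 4) (a0 := -48) (a1 := -16) (b0 := 80) (b1 := 112)
    g4_m48_80
    g4_m16_80
    g4_m48_112
    g4_m16_112
    (by decide)

theorem g6_m64_64 : GD 6 (-64) 64 :=
  GD.split (i := 5) (a0 := -96) (a1 := -32) (b0 := 32) (b1 := 96)
    g5_m96_32
    g5_m32_32
    g5_m96_96
    g5_m32_96
    (by decide)

theorem g4_m48_144 : GD 4 (-48) 144 :=
  GD.split (i := 3) (a0 := -56) (a1 := -40) (b0 := 136) (b1 := 152)
    (chk_sound .out _ _ _ (by decide +kernel))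
    g3_m40_136
    (chk_sound .out _ _ _ (by decide +kernel))
    (chk_sound .out _ _ _ (by decide +kernel))
    (by decide)

theorem g4_m16_144 : GD 4 (-16) 144 :=
  GD.split (i := 3) (a0 := -24) (a1 := -8) (b0 := 136) (b1 := 152)
    g3_m24_136
    g3_m8_136
    (chk_sound .out _ _ _ (by decide +kernel))
    (chk_sound .out _ _ _ (by decide +kernel))
    (by decide)

theorem g5_m32_160 : GD 5 (-32) 160 :=
  GD.split (i := 4) (a0 := -48) (a1 := -16) (b0 := 144) (b1 := 176)
    g4_m48_144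
    g4_m16_144
    (chk_sound .out _ _ _ (by decide +kernel))
    (chk_sound .out _ _ _ (by decide +kernel))
    (by decide)

theorem g6_m64_192 : GD 6 (-64) 192 :=
  GD.split (i := 5) (a0 := -96) (a1 := -32) (b0 := 160) (b1 := 224)
    (chk_sound .out _ _ _ (by decide +kernel))
    g5_m32_160
    (chk_sound .out _ _ _ (by decide +kernel))
    (chk_sound .out _ _ _ (by decide +kernel))
    (by decide)

theorem g7_m128_128 : GD 7 (-128) 128 :=
  GD.split (i := 6) (a0 := -192) (a1 := -64) (b0 := 64) (b1 := 192)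
    g6_m192_64
    g6_m64_64
    (chk_sound .out _ _ _ (by decide +kernel))
    g6_m64_192
    (by decide)

theorem g4_16_16 : GD 4 16 16 :=
  GD.split (i := 3) (a0 := 8) (a1 := 24) (b0 := 8) (b1 := 24)
    g3_8_8
    g3_24_8
    g3_8_24
    g3_24_24
    (by decide)

theorem g4_48_16 : GD 4 48 16 :=
  GD.split (i := 3) (a0 := 40) (a1 := 56) (b0 := 8) (b1 := 24)
    g3_40_8
    g3_56_8
    g3_40_24
    g3_56_24
    (by decide)

theorem g4_16_48 : GD 4 16 48 :=
  GD.split (i := 3) (a0 := 8) (a1 := 24) (b0 := 40) (b1 := 56)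
    g3_8_40
    g3_24_40
    g3_8_56
    g3_24_56
    (by decide)

theorem g4_48_48 : GD 4 48 48 :=
  GD.split (i := 3) (a0 := 40) (a1 := 56) (b0 := 40) (b1 := 56)
    g3_40_40
    g3_56_40
    g3_40_56
    g3_56_56
    (by decide)

theorem g5_32_32 : GD 5 32 32 :=
  GD.split (i := 4) (a0 := 16) (a1 := 48) (b0 := 16) (b1 := 48)
    g4_16_16
    g4_48_16
    g4_16_48
    g4_48_48
    (by decide)

theorem g4_80_16 : GD 4 80 16 :=
  GD.split (i := 3) (a0 := 72) (a1 := 88) (b0 := 8) (b1 := 24)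
    g3_72_8
    g3_88_8
    g3_72_24
    g3_88_24
    (by decide)

theorem g4_112_16 : GD 4 112 16 :=
  GD.split (i := 3) (a0 := 104) (a1 := 120) (b0 := 8) (b1 := 24)
    g3_104_8
    g3_120_8
    g3_104_24
    g3_120_24
    (by decide)

theorem g4_80_48 : GD 4 80 48 :=
  GD.split (i := 3) (a0 := 72) (a1 := 88) (b0 := 40) (b1 := 56)
    g3_72_40
    g3_88_40
    g3_72_56
    g3_88_56
    (by decide)

theorem g4_112_48 : GD 4 112 48 :=
  GD.split (i := 3) (a0 := 104) (a1 := 120) (b0 := 40) (b1 := 56)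
    g3_104_40
    g3_120_40
    g3_104_56
    g3_120_56
    (by decide)

theorem g5_96_32 : GD 5 96 32 :=
  GD.split (i := 4) (a0 := 80) (a1 := 112) (b0 := 16) (b1 := 48)
    g4_80_16
    g4_112_16
    g4_80_48
    g4_112_48
    (by decide)

theorem g4_16_80 : GD 4 16 80 :=
  GD.split (i := 3) (a0 := 8) (a1 := 24) (b0 := 72) (b1 := 88)
    g3_8_72
    g3_24_72
    g3_8_88
    g3_24_88
    (by decide)

theorem g4_48_80 : GD 4 48 80 :=
  GD.split (i := 3) (a0 := 40) (a1 := 56) (b0 := 72) (b1 := 88)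
    g3_40_72
    g3_56_72
    g3_40_88
    g3_56_88
    (by decide)

theorem g4_16_112 : GD 4 16 112 :=
  GD.split (i := 3) (a0 := 8) (a1 := 24) (b0 := 104) (b1 := 120)
    g3_8_104
    g3_24_104
    g3_8_120
    g3_24_120
    (by decide)

theorem g4_48_112 : GD 4 48 112 :=
  GD.split (i := 3) (a0 := 40) (a1 := 56) (b0 := 104) (b1 := 120)
    g3_40_104
    g3_56_104
    g3_40_120
    g3_56_120
    (by decide)

theorem g5_32_96 : GD 5 32 96 :=
  GD.split (i := 4) (a0 := 16) (a1 := 48) (b0 := 80) (b1 := 112)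
    g4_16_80
    g4_48_80
    g4_16_112
    g4_48_112
    (by decide)

theorem g4_80_80 : GD 4 80 80 :=
  GD.split (i := 3) (a0 := 72) (a1 := 88) (b0 := 72) (b1 := 88)
    g3_72_72
    g3_88_72
    g3_72_88
    g3_88_88
    (by decide)

theorem g4_112_80 : GD 4 112 80 :=
  GD.split (i := 3) (a0 := 104) (a1 := 120) (b0 := 72) (b1 := 88)
    g3_104_72
    g3_120_72
    g3_104_88
    (chk_sound .out _ _ _ (by decide +kernel))
    (by decide)

theorem g4_80_112 : GD 4 80 112 :=
  GD.split (i := 3) (a0 := 72) (a1 := 88) (b0 := 104) (b1 := 120)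
    g3_72_104
    g3_88_104
    g3_72_120
    (chk_sound .out _ _ _ (by decide +kernel))
    (by decide)

theorem g4_112_112 : GD 4 112 112 :=
  GD.split (i := 3) (a0 := 104) (a1 := 120) (b0 := 104) (b1 := 120)
    g3_104_104
    (chk_sound .out _ _ _ (by decide +kernel))
    (chk_sound .out _ _ _ (by decide +kernel))
    (chk_sound .out _ _ _ (by decide +kernel))
    (by decide)

theorem g5_96_96 : GD 5 96 96 :=
  GD.split (i := 4) (a0 := 80) (a1 := 112) (b0 := 80) (b1 := 112)
    g4_80_80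
    g4_112_80
    g4_80_112
    g4_112_112
    (by decide)

theorem g6_64_64 : GD 6 64 64 :=
  GD.split (i := 5) (a0 := 32) (a1 := 96) (b0 := 32) (b1 := 96)
    g5_32_32
    g5_96_32
    g5_32_96
    g5_96_96
    (by decide)

theorem g4_144_16 : GD 4 144 16 :=
  GD.split (i := 3) (a0 := 136) (a1 := 152) (b0 := 8) (b1 := 24)
    g3_136_8
    (chk_sound .out _ _ _ (by decide +kernel))
    g3_136_24
    (chk_sound .out _ _ _ (by decide +kernel))
    (by decide)

theorem g4_144_48 : GD 4 144 48 :=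
  GD.split (i := 3) (a0 := 136) (a1 := 152) (b0 := 40) (b1 := 56)
    g3_136_40
    (chk_sound .out _ _ _ (by decide +kernel))
    (chk_sound .out _ _ _ (by decide +kernel))
    (chk_sound .out _ _ _ (by decide +kernel))
    (by decide)

theorem g5_160_32 : GD 5 160 32 :=
  GD.split (i := 4) (a0 := 144) (a1 := 176) (b0 := 16) (b1 := 48)
    g4_144_16
    (chk_sound .out _ _ _ (by decide +kernel))
    g4_144_48
    (chk_sound .out _ _ _ (by decide +kernel))
    (by decide)

theorem g6_192_64 : GD 6 192 64 :=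
  GD.split (i := 5) (a0 := 160) (a1 := 224) (b0 := 32) (b1 := 96)
    g5_160_32
    (chk_sound .out _ _ _ (by decide +kernel))
    (chk_sound .out _ _ _ (by decide +kernel))
    (chk_sound .out _ _ _ (by decide +kernel))
    (by decide)

theorem g4_16_144 : GD 4 16 144 :=
  GD.split (i := 3) (a0 := 8) (a1 := 24) (b0 := 136) (b1 := 152)
    g3_8_136
    g3_24_136
    (chk_sound .out _ _ _ (by decide +kernel))
    (chk_sound .out _ _ _ (by decide +kernel))
    (by decide)

theorem g4_48_144 : GD 4 48 144 :=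
  GD.split (i := 3) (a0 := 40) (a1 := 56) (b0 := 136) (b1 := 152)
    g3_40_136
    (chk_sound .out _ _ _ (by decide +kernel))
    (chk_sound .out _ _ _ (by decide +kernel))
    (chk_sound .out _ _ _ (by decide +kernel))
    (by decide)

theorem g5_32_160 : GD 5 32 160 :=
  GD.split (i := 4) (a0 := 16) (a1 := 48) (b0 := 144) (b1 := 176)
    g4_16_144
    g4_48_144
    (chk_sound .out _ _ _ (by decide +kernel))
    (chk_sound .out _ _ _ (by decide +kernel))
    (by decide)

theorem g6_64_192 : GD 6 64 192 :=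
  GD.split (i := 5) (a0 := 32) (a1 := 96) (b0 := 160) (b1 := 224)
    g5_32_160
    (chk_sound .out _ _ _ (by decide +kernel))
    (chk_sound .out _ _ _ (by decide +kernel))
    (chk_sound .out _ _ _ (by decide +kernel))
    (by decide)

theorem g7_128_128 : GD 7 128 128 :=
  GD.split (i := 6) (a0 := 64) (a1 := 192) (b0 := 64) (b1 := 192)
    g6_64_64
    g6_192_64
    g6_64_192
    (chk_sound .out _ _ _ (by decide +kernel))
    (by decide)

theorem g8_0_0 : GD 8 0 0 :=
  GD.split (i := 7) (a0 := -128) (a1 := 128) (b0 := -128) (b1 := 128)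
    g7_m128_m128
    g7_128_m128
    g7_m128_128
    g7_128_128
    (by decide)

theorem diag_uL : Diag (1 / 2) 4 (6593 / 4096) (1 / 2 ^ 54) (1 / 32) (1 / 16) (17 / 16)
    (Mc (1 / 2) 4 (6593 / 4096) (pol 65536 uL)) :=
  diag_of_root g8_0_0

end Pool.Agent.P.MP_f12b6c_an.Dg
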