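import Pool.Agent.P.MP_f12b6c_an.T3Defs

/-! The group of elliptic rotations, polar coordinates and the spiral extension. -/

namespace Pool.Agent.P.MP_f12b6c_an

open Matrix

variable {k m w : ℝ}

theorem rot_zero : rot k m w 0 = 1 := by
  ext i j
  fin_cases i <;> fin_cases j <;> simp [rot, ell]

theorem rot_add (h : Par k m w) (s s' : ℝ) : rot k m w (s + s') = rot k m w s * rot k m w s' := by
  have hw := h.w_pos.ne'
  have hs := h.sq
  have key : m * (Real.sin (w * s) / w) * (k * (Real.sin (w * s') / w)) =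
      Real.sin (w * s) * Real.sin (w * s') := by
    field_simp
    rw [hs]; ring
  have key' : k * (Real.sin (w * s) / w) * (m * (Real.sin (w * s') / w)) =
      Real.sin (w * s) * Real.sin (w * s') := by
    rw [← key]; ring
  ext i j
  fin_cases i <;> fin_cases j <;>
    simp [rot, ell, Matrix.mul_apply, Fin.sum_univ_three, mul_add, Real.cos_add, Real.sin_add]
  · rw [key]; ring
  · ring
  · ring
  · rw [key']; ring

theorem flow_zero (x : E 3) : flow k m w 0 x = x := by
  simp [flow, rot_zero]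

theorem flow_add (h : Par k m w) (s s' : ℝ) (x : E 3) :
    flow k m w (s + s') x = flow k m w s (flow k m w s' x) := by
  simp only [flow, rot_add h, Real.exp_add, WithLp.ofLp_smul, mulVec_smul, WithLp.toLp_smul,
    mulVec_mulVec, mul_smul]

private theorem t3e_c0 (s : ℝ) (x : E 3) : flow k m w s x 0 = Real.exp s * x 0 := by
  simp [flow, rot, ell, dotProduct, Fin.sum_univ_three]

private theorem t3e_c1 (s : ℝ) (x : E 3) : flow k m w s x 1 =
    Real.exp s * (Real.cos (w * s) * x 1 - m * (Real.sin (w * s) / w) * x 2) := by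
  simp [flow, rot, ell, dotProduct, Fin.sum_univ_three, sub_eq_add_neg]

private theorem t3e_c2 (s : ℝ) (x : E 3) : flow k m w s x 2 =
    Real.exp s * (k * (Real.sin (w * s) / w) * x 1 + Real.cos (w * s) * x 2) := by
  simp [flow, rot, ell, dotProduct, Fin.sum_univ_three]

private theorem t3e_sq (x : E 3) : ‖x‖ ^ 2 = x 0 ^ 2 + x 1 ^ 2 + x 2 ^ 2 := by
  rw [EuclideanSpace.real_norm_sq_eq, Fin.sum_univ_three]

private theorem t3e_flow_null (s : ℝ) : flow k m w s (0 : E 3) = 0 := by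
  simp [flow]

theorem flow_bound (h : Par k m w) :
    ∃ C : ℝ, 0 < C ∧ ∀ s x, ‖flow k m w s x‖ ≤ C * Real.exp s * ‖x‖ := by
  have hw := h.w_pos
  have hm := h.m_pos
  have hk : 0 < k := hm.trans_le h.m_le
  refine ⟨2 + 2 * (k / w), by positivity, fun s x => ?_⟩
  refine abs_le_of_sq_le_sq' ?_ (by positivity) |>.2
  rw [mul_pow, mul_pow, t3e_sq, t3e_sq, t3e_c0, t3e_c1, t3e_c2]
  set a := k / w with ha
  have ha0 : 0 ≤ a := by positivity
  have hc : Real.cos (w * s) ^ 2 ≤ 1 := Real.cos_sq_le_one _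
  have hs : Real.sin (w * s) ^ 2 ≤ 1 := Real.sin_sq_le_one _
  have h1 : (k * (Real.sin (w * s) / w)) ^ 2 ≤ a ^ 2 := by
    have : k * (Real.sin (w * s) / w) = a * Real.sin (w * s) := by rw [ha]; ring
    rw [this, mul_pow]; nlinarith [sq_nonneg a]
  have h2 : (m * (Real.sin (w * s) / w)) ^ 2 ≤ a ^ 2 := by
    refine le_trans ?_ h1
    rw [mul_pow, mul_pow]
    exact mul_le_mul_of_nonneg_right (pow_le_pow_left₀ hm.le h.m_le 2) (sq_nonneg _)
  generalize k * (Real.sin (w * s) / w) = p at *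
  generalize m * (Real.sin (w * s) / w) = r at *
  generalize Real.cos (w * s) = c at *
  have e1 : (c * x 1 - r * x 2) ^ 2 ≤ 2 * x 1 ^ 2 + 2 * a ^ 2 * x 2 ^ 2 := by
    nlinarith [sq_nonneg (c * x 1 + r * x 2), mul_le_mul_of_nonneg_right hc (sq_nonneg (x 1)),
      mul_le_mul_of_nonneg_right h2 (sq_nonneg (x 2))]
  have e2 : (p * x 1 + c * x 2) ^ 2 ≤ 2 * a ^ 2 * x 1 ^ 2 + 2 * x 2 ^ 2 := by
    nlinarith [sq_nonneg (p * x 1 - c * x 2), mul_le_mul_of_nonneg_right hc (sq_nonneg (x 2)),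
      mul_le_mul_of_nonneg_right h1 (sq_nonneg (x 1))]
  have e3 : x 0 ^ 2 + (c * x 1 - r * x 2) ^ 2 + (p * x 1 + c * x 2) ^ 2 ≤
      (2 + 2 * a) ^ 2 * (x 0 ^ 2 + x 1 ^ 2 + x 2 ^ 2) := by
    have e4 : 2 + 2 * a ^ 2 ≤ (2 + 2 * a) ^ 2 := by nlinarith
    have e5 : 0 ≤ x 0 ^ 2 + x 1 ^ 2 + x 2 ^ 2 := by positivity
    have e6 := mul_le_mul_of_nonneg_right e4 e5
    nlinarith [sq_nonneg (x 0), mul_nonneg (sq_nonneg a) (sq_nonneg (x 0))]
  have e7 := mul_le_mul_of_nonneg_left e3 (sq_nonneg (Real.exp s))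
  nlinarith

private theorem t3e_inv (h : Par k m w) (s : ℝ) (x : E 3) :
    flow k m w (-s) (flow k m w s x) = x := by
  rw [← flow_add h, neg_add_cancel, flow_zero]

private theorem t3e_ne (h : Par k m w) (s : ℝ) {x : E 3} (hx : x ≠ 0) : flow k m w s x ≠ 0 := by
  intro h0
  apply hx
  rw [← t3e_inv h s x, h0, t3e_flow_null]

private theorem t3e_smooth : ContDiff ℝ 2 fun v : E 3 × ℝ => flow k m w v.2 v.1 := by
  rw [contDiff_euclidean]
  intro i
  have h0 : ∀ j : Fin 3, ContDiff ℝ 2 fun v : E 3 × ℝ => v.1 j := fun j =>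
    (contDiff_euclidean.1 contDiff_fst) j
  have a0 := h0 0
  have a1 := h0 1
  have a2 := h0 2
  fin_cases i
  · simp only [Fin.zero_eta, t3e_c0]; fun_prop
  · simp only [Fin.mk_one, t3e_c1]; fun_prop
  · simp only [Fin.reduceFinMk, t3e_c2]; fun_prop

/-- The squared norm of the image under the flow. -/
private noncomputable def t3e_phi (k m w : ℝ) (v : E 3 × ℝ) : ℝ := ‖flow k m w v.2 v.1‖ ^ 2

private theorem t3e_phi_smooth : ContDiff ℝ 2 (t3e_phi k m w) := t3e_smooth.norm_sq ℝ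

private theorem t3e_deriv (h : Par k m w) {x : E 3} (hx : x ≠ 0) (s : ℝ) :
    ∃ d : ℝ, 0 < d ∧ HasDerivAt (fun s => t3e_phi k m w (x, s)) d s := by
  have hw := h.w_pos.ne'
  have hc : HasDerivAt (fun s => Real.cos (w * s)) (-(k * m) * (Real.sin (w * s) / w)) s := by
    have := ((hasDerivAt_id s).const_mul w).cos
    simp only [id, mul_one] at this
    convert this using 1
    rw [← h.sq]; field_simp
  have hs : HasDerivAt (fun s => Real.sin (w * s) / w) (Real.cos (w * s)) s := by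
    have := (((hasDerivAt_id s).const_mul w).sin).div_const w
    simp only [id, mul_one] at this
    rwa [mul_div_cancel_right₀ _ hw] at this
  have he := Real.hasDerivAt_exp s
  have h0 : HasDerivAt (fun s => flow k m w s x 0) (flow k m w s x 0) s := by
    simp only [t3e_c0]; exact he.mul_const _
  have h1 : HasDerivAt (fun s => flow k m w s x 1) (flow k m w s x 1 - m * flow k m w s x 2) s := by
    simp only [t3e_c1, t3e_c2]
    exact (he.fun_mul ((hc.mul_const (x 1)).fun_sub ((hs.const_mul m).mul_const (x 2)))).congr_deriv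
      (by ring)
  have h2 : HasDerivAt (fun s => flow k m w s x 2) (flow k m w s x 2 + k * flow k m w s x 1) s := by
    simp only [t3e_c1, t3e_c2]
    exact (he.fun_mul (((hs.const_mul k).mul_const (x 1)).fun_add (hc.mul_const (x 2)))).congr_deriv
      (by ring)
  have h3 := ((h0.pow 2).add (h1.pow 2)).add (h2.pow 2)
  refine ⟨_, ?_, h3.congr_of_eventuallyEq (Filter.Eventually.of_forall fun s => ?_)⟩
  · have h4 : 0 < ‖flow k m w s x‖ ^ 2 := pow_pos (norm_pos_iff.2 (t3e_ne h s hx)) 2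
    rw [t3e_sq] at h4
    generalize flow k m w s x 0 = a at *
    generalize flow k m w s x 1 = b at *
    generalize flow k m w s x 2 = c at *
    have h5 : 0 ≤ k - m := sub_nonneg.2 h.m_le
    have h6 : 0 ≤ 1 - (k - m) := by linarith [h.k_le, h.m_pos]
    norm_num
    nlinarith [mul_nonneg h5 (sq_nonneg (b + c)), mul_nonneg h6 (sq_nonneg b),
      mul_nonneg h6 (sq_nonneg c), sq_nonneg a]
  · simp only [t3e_phi, t3e_sq, Pi.add_apply, Pi.pow_apply]

private theorem t3e_unique (h : Par k m w) {x : E 3} (hx : x ≠ 0) {s s' : ℝ}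
    (h1 : t3e_phi k m w (x, s) = t3e_phi k m w (x, s')) : s = s' := by
  choose d hd hd' using t3e_deriv h hx
  exact (strictMono_of_hasDerivAt_pos hd' hd).injective h1

private theorem t3e_exists (h : Par k m w) {x : E 3} (hx : x ≠ 0) :
    ∃ s, ‖flow k m w s x‖ = 1 := by
  obtain ⟨C, hC, hb⟩ := flow_bound h
  have hn : 0 < ‖x‖ := norm_pos_iff.2 hx
  have hc : Continuous fun s => ‖flow k m w s x‖ :=
    (t3e_smooth.continuous.comp (continuous_const.prodMk continuous_id)).norm
  have h1 : ‖flow k m w (-Real.log (C * ‖x‖)) x‖ ≤ 1 := by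
    refine (hb _ x).trans (le_of_eq ?_)
    rw [Real.exp_neg, Real.exp_log (by positivity)]
    field_simp
  have h2 : 1 ≤ ‖flow k m w (Real.log (C / ‖x‖)) x‖ := by
    have h3 := hb (-Real.log (C / ‖x‖)) (flow k m w (Real.log (C / ‖x‖)) x)
    rw [t3e_inv h, Real.exp_neg, Real.exp_log (by positivity)] at h3
    have h4 : C * (C / ‖x‖)⁻¹ = ‖x‖ := by field_simp
    rw [h4] at h3
    exact le_of_mul_le_mul_left (by rwa [mul_one]) hn
  exact intermediate_value_univ _ _ hc ⟨h1, h2⟩

theorem polar (h : Par k m w) {x : E 3} (hx : x ≠ 0) :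
    ∃ (s : ℝ) (y : E 3), ‖y‖ = 1 ∧ x = flow k m w s y := by
  obtain ⟨s, hs⟩ := t3e_exists h hx
  exact ⟨-s, _, hs, (t3e_inv h s x).symm⟩

theorem exists_spiral (h : Par k m w) {q : E 3 → ℝ} (hq : ContDiff ℝ 2 q) :
    ∃ U : E 3 → ℝ, Spiral k m w q U := by
  classical
  have hex : ∀ x : E 3, ∃ s, x ≠ 0 → ‖flow k m w s x‖ = 1 := fun x => by
    by_cases hx : x = 0
    · exact ⟨0, fun h => (h hx).elim⟩
    · obtain ⟨s, hs⟩ := t3e_exists h hx
      exact ⟨s, fun _ => hs⟩
  choose l hl using hex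
  have hphi : ∀ x, x ≠ 0 → t3e_phi k m w (x, l x) = 1 := fun x hx => by
    simp only [t3e_phi, hl x hx, one_pow]
  have hlc : ∀ x, x ≠ 0 → ContDiffAt ℝ 2 l x := by
    intro x hx
    have hf : ContDiffAt ℝ 2 (t3e_phi k m w) (x, l x) := t3e_phi_smooth.contDiffAt
    obtain ⟨d, hd, hd'⟩ := t3e_deriv h hx (l x)
    have h1 : HasDerivAt (fun s => t3e_phi k m w (x, s))
        (fderiv ℝ (t3e_phi k m w) (x, l x) (0, 1)) (l x) :=
      (hf.differentiableAt (by norm_num)).hasFDerivAt.comp_hasDerivAt (l x)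
        ((hasDerivAt_const (l x) x).prodMk (hasDerivAt_id (l x)))
    have h2 := h1.unique hd'
    have hi : (fderiv ℝ (t3e_phi k m w) (x, l x) ∘L .inr ℝ (E 3) ℝ).IsInvertible := by
      refine ⟨ContinuousLinearEquiv.unitsEquivAut ℝ (Units.mk0 d hd.ne'), ?_⟩
      ext
      simp [h2]
    refine (hf.contDiffAt_implicitFunction (by norm_num) hi).congr_of_eventuallyEq ?_
    filter_upwards [hf.eventually_apply_implicitFunction (by norm_num) hi,
      isOpen_ne.mem_nhds hx] with y hy hy0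
    exact t3e_unique h hy0 (by rw [hy, hphi x hx, hphi y hy0])
  refine ⟨fun x => if x = 0 then 0 else Real.exp (-(2 * l x)) * q (flow k m w (l x) x),
    fun x hx => ?_, fun s x => ?_, fun y hy => ?_⟩
  · have h1 := hlc x hx
    have h2 : ContDiffAt ℝ 2 (fun x => flow k m w (l x) x) x :=
      t3e_smooth.contDiffAt.comp x (contDiffAt_id.prodMk h1)
    have h3 : ContDiffAt ℝ 2 (fun x => Real.exp (-(2 * l x)) * q (flow k m w (l x) x)) x :=
      ((contDiffAt_const.mul h1).neg.exp).mul (hq.contDiffAt.comp x h2)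
    refine h3.congr_of_eventuallyEq ?_
    filter_upwards [isOpen_ne.mem_nhds hx] with y hy
    exact if_neg hy
  · by_cases hx : x = 0
    · simp [hx, t3e_flow_null]
    have hx' := t3e_ne h s hx
    have h1 : flow k m w (l x - s) (flow k m w s x) = flow k m w (l x) x := by
      rw [← flow_add h, sub_add_cancel]
    have h2 : l (flow k m w s x) = l x - s := by
      refine t3e_unique h hx' ?_
      rw [hphi _ hx']
      simp only [t3e_phi, h1, hl x hx, one_pow]
    simp only [if_neg hx, if_neg hx', h2, h1]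
    rw [← mul_assoc, ← Real.exp_add]
    congr 2
    ring
  · have hy0 : y ≠ 0 := by rintro rfl; simp at hy
    have h1 : l y = 0 := by
      refine t3e_unique h hy0 ?_
      rw [hphi _ hy0]
      simp only [t3e_phi, flow_zero, hy, one_pow]
    simp [hy0, h1, flow_zero]

theorem Spiral.bound (h : Par k m w) {q U : E 3 → ℝ} (hq : Continuous q) (hU : Spiral k m w q U) :
    ∃ C : ℝ, ∀ x, |U x| ≤ C * ‖x‖ ^ 2 := by
  obtain ⟨C, hC, hb⟩ := flow_bound h
  obtain ⟨B, hB⟩ := (isCompact_sphere (0 : E 3) 1).exists_bound_of_continuousOn hq.continuousOn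
  refine ⟨B * C ^ 2, fun x => ?_⟩
  by_cases hx : x = 0
  · have h1 := hU.cov 1 0
    rw [t3e_flow_null] at h1
    have h2 : 1 < Real.exp (2 * 1) := Real.one_lt_exp_iff.2 (by norm_num)
    have h3 : U 0 = 0 := by
      by_contra h4
      exact h2.ne (mul_right_cancel₀ h4 (by rw [one_mul]; exact h1))
    simp [hx, h3]
  obtain ⟨s, y, hy, rfl⟩ := polar h hx
  have h1 : |q y| ≤ B := hB y (by simpa using hy)
  have h2 := hb (-s) (flow k m w s y)
  rw [t3e_inv h, hy] at h2
  have he := Real.exp_pos s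
  have h3 : Real.exp s ≤ C * ‖flow k m w s y‖ := by
    have h4 := mul_le_mul_of_nonneg_left h2 he.le
    rw [Real.exp_neg] at h4
    calc Real.exp s = Real.exp s * 1 := (mul_one _).symm
      _ ≤ _ := h4
      _ = _ := by field_simp
  have h4 : Real.exp (2 * s) ≤ (C * ‖flow k m w s y‖) ^ 2 := by
    rw [two_mul, Real.exp_add, ← sq]
    exact pow_le_pow_left₀ he.le h3 2
  rw [hU.cov, hU.sphere y hy, abs_mul, abs_of_pos (Real.exp_pos _)]
  calc Real.exp (2 * s) * |q y| ≤ (C * ‖flow k m w s y‖) ^ 2 * B :=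
        mul_le_mul h4 h1 (abs_nonneg _) (sq_nonneg _)
    _ = _ := by ring

end Pool.Agent.P.MP_f12b6c_an
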