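import Pool.Agent.P.MP_f12b6c_an.T3Far01
import Pool.Agent.P.MP_f12b6c_an.T3Far02
import Pool.Agent.P.MP_f12b6c_an.T3Far03
import Pool.Agent.P.MP_f12b6c_an.T3Far04
import Pool.Agent.P.MP_f12b6c_an.T3Far05
import Pool.Agent.P.MP_f12b6c_an.T3Far06
import Pool.Agent.P.MP_f12b6c_an.T3Far07
import Pool.Agent.P.MP_f12b6c_an.T3Far08
import Pool.Agent.P.MP_f12b6c_an.T3Far09
import Pool.Agent.P.MP_f12b6c_an.T3Far10
import Pool.Agent.P.MP_f12b6c_an.T3Far11
import Pool.Agent.P.MP_f12b6c_an.T3Far12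

/-! All pairs of cells away from the diagonal. -/

namespace Pool.Agent.P.MP_f12b6c_an

set_option maxRecDepth 100000

/-- The checked positions of one tree. -/
def fkeys0 : List Key :=
  fkeys01x0 ++ (fkeys02x0 ++ (fkeys03x0 ++ (fkeys04x0 ++ (fkeys05x0 ++ (fkeys06x0 ++ (fkeys07x0 ++ (fkeys08x0 ++ (fkeys09x0 ++ (fkeys10x0 ++ (fkeys11x0 ++ (fkeys12x0)))))))))))

theorem ftop0 : run (fam tabC tabZ 1 true fkeys0) .nil 0 0 0 0
    (nat_lit 0x17998999999999994454515993999999999944545c51593999999999445153434799989999493499397899939497989999999445451599939999999993999949945944515939999999999445451534939499799994998394398999999437949999999999944545c5159993999999459944515993999939999999999445c515348937949999949983794399899994939974999915993999489399749999859994999345159993999999315993999999999993854585c51593949983997434)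
    0 0 2048 0 0 2048 0 1024 = true := by decide +kernel

theorem fpf0 {F : ℝ → ℝ → Mat 3} {r1 r2 dt : ℝ} (B : Base F r1 r2 dt tabC tabZ tab) :
    PF F r1 r2 dt 1 true 0 0 2048 0 0 2048 0 1024 :=
  B.nil.run (l := fkeys0) ((fall01x0 B).append ((fall02x0 B).append ((fall03x0 B).append ((fall04x0 B).append ((fall05x0 B).append ((fall06x0 B).append ((fall07x0 B).append ((fall08x0 B).append ((fall09x0 B).append ((fall10x0 B).append ((fall11x0 B).append (fall12x0 B)))))))))))) ftop0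

/-- The checked positions of one tree. -/
def fkeys1 : List Key :=
  fkeys01x1 ++ (fkeys02x1 ++ (fkeys03x1 ++ (fkeys04x1 ++ (fkeys05x1 ++ (fkeys06x1 ++ (fkeys07x1 ++ (fkeys08x1 ++ (fkeys09x1 ++ (fkeys10x1 ++ (fkeys11x1 ++ (fkeys12x1)))))))))))

theorem ftop1 : run (fam tabC tabZ 2 true fkeys1) .nil 0 0 0 0
    (nat_lit 0x17998999999999994858515993999999999944545c515939999999999485851534347999479999999489349397994979899999994454515999399999999944515939999999999948585c515349394993999999999999399994454585c51599939999999445159999945c515399999999999994854585c51534893794999983794399899399749999948939974999999445159993999999999445858515993999999999445451593949983997434)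
    0 0 2048 0 0 2048 0 1024 = true := by decide +kernel

theorem fpf1 {F : ℝ → ℝ → Mat 3} {r1 r2 dt : ℝ} (B : Base F r1 r2 dt tabC tabZ tab) :
    PF F r1 r2 dt 2 true 0 0 2048 0 0 2048 0 1024 :=
  B.nil.run (l := fkeys1) ((fall01x1 B).append ((fall02x1 B).append ((fall03x1 B).append ((fall04x1 B).append ((fall05x1 B).append ((fall06x1 B).append ((fall07x1 B).append ((fall08x1 B).append ((fall09x1 B).append ((fall10x1 B).append ((fall11x1 B).append (fall12x1 B)))))))))))) ftop1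

/-- The checked positions of one tree. -/
def fkeys2 : List Key :=
  fkeys01x2 ++ (fkeys02x2 ++ (fkeys03x2 ++ (fkeys04x2 ++ (fkeys05x2 ++ (fkeys06x2 ++ (fkeys07x2 ++ (fkeys08x2 ++ (fkeys09x2 ++ (fkeys10x2 ++ (fkeys11x2 ++ (fkeys12x2)))))))))))

theorem ftop2 : run (fam tabC tabZ 3 true fkeys2) .nil 0 0 0 0
    (nat_lit 0x19999399997994398889999437949989999488379493988999948399749934)
    0 0 2048 0 0 2048 0 1024 = true := by decide +kernel

theorem fpf2 {F : ℝ → ℝ → Mat 3} {r1 r2 dt : ℝ} (B : Base F r1 r2 dt tabC tabZ tab) :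
    PF F r1 r2 dt 3 true 0 0 2048 0 0 2048 0 1024 :=
  B.nil.run (l := fkeys2) ((fall01x2 B).append ((fall02x2 B).append ((fall03x2 B).append ((fall04x2 B).append ((fall05x2 B).append ((fall06x2 B).append ((fall07x2 B).append ((fall08x2 B).append ((fall09x2 B).append ((fall10x2 B).append ((fall11x2 B).append (fall12x2 B)))))))))))) ftop2

/-- The checked positions of one tree. -/
def fkeys3 : List Key :=
  fkeys01x3 ++ (fkeys02x3 ++ (fkeys03x3 ++ (fkeys04x3 ++ (fkeys05x3 ++ (fkeys06x3 ++ (fkeys07x3 ++ (fkeys08x3 ++ (fkeys09x3 ++ (fkeys10x3 ++ (fkeys11x3))))))))))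

theorem ftop3 : run (fam tabC tabZ 4 true fkeys3) .nil 0 0 0 0
    (nat_lit 0x19979989999488349399993988899999399437949993999934)
    0 0 2048 0 0 2048 0 1024 = true := by decide +kernel

theorem fpf3 {F : ℝ → ℝ → Mat 3} {r1 r2 dt : ℝ} (B : Base F r1 r2 dt tabC tabZ tab) :
    PF F r1 r2 dt 4 true 0 0 2048 0 0 2048 0 1024 :=
  B.nil.run (l := fkeys3) ((fall01x3 B).append ((fall02x3 B).append ((fall03x3 B).append ((fall04x3 B).append ((fall05x3 B).append ((fall06x3 B).append ((fall07x3 B).append ((fall08x3 B).append ((fall09x3 B).append ((fall10x3 B).append (fall11x3 B))))))))))) ftop3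

/-- The checked positions of one tree. -/
def fkeys4 : List Key :=
  fkeys07x4

theorem ftop4 : run (fam tabC tabZ 1 false fkeys4) .nil 0 0 0 0
    (nat_lit 0x19)
    0 0 2048 0 0 2048 1024 1024 = true := by decide +kernel

theorem fpf4 {F : ℝ → ℝ → Mat 3} {r1 r2 dt : ℝ} (B : Base F r1 r2 dt tabC tabZ tab) :
    PF F r1 r2 dt 1 false 0 0 2048 0 0 2048 1024 1024 :=
  B.nil.run (l := fkeys4) (fall07x4 B) ftop4

/-- The checked positions of one tree. -/
def fkeys5 : List Key :=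
  fkeys01x5

theorem ftop5 : run (fam tabC tabZ 2 false fkeys5) .nil 0 0 0 0
    (nat_lit 0x19)
    0 0 2048 0 0 2048 1024 1024 = true := by decide +kernel

theorem fpf5 {F : ℝ → ℝ → Mat 3} {r1 r2 dt : ℝ} (B : Base F r1 r2 dt tabC tabZ tab) :
    PF F r1 r2 dt 2 false 0 0 2048 0 0 2048 1024 1024 :=
  B.nil.run (l := fkeys5) (fall01x5 B) ftop5

/-- The checked positions of one tree. -/
def fkeys6 : List Key :=
  fkeys04x6

theorem ftop6 : run (fam tabC tabZ 3 false fkeys6) .nil 0 0 0 0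
    (nat_lit 0x19)
    0 0 2048 0 0 2048 1024 1024 = true := by decide +kernel

theorem fpf6 {F : ℝ → ℝ → Mat 3} {r1 r2 dt : ℝ} (B : Base F r1 r2 dt tabC tabZ tab) :
    PF F r1 r2 dt 3 false 0 0 2048 0 0 2048 1024 1024 :=
  B.nil.run (l := fkeys6) (fall04x6 B) ftop6

/-- The checked positions of one tree. -/
def fkeys7 : List Key :=
  fkeys10x7

theorem ftop7 : run (fam tabC tabZ 4 false fkeys7) .nil 0 0 0 0
    (nat_lit 0x19)
    0 0 2048 0 0 2048 1024 1024 = true := by decide +kernel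

theorem fpf7 {F : ℝ → ℝ → Mat 3} {r1 r2 dt : ℝ} (B : Base F r1 r2 dt tabC tabZ tab) :
    PF F r1 r2 dt 4 false 0 0 2048 0 0 2048 1024 1024 :=
  B.nil.run (l := fkeys7) (fall10x7 B) ftop7

theorem far_fam1 {F : ℝ → ℝ → Mat 3} {r1 r2 dt : ℝ} (B : Base F r1 r2 dt tabC tabZ tab) :
    Far (1 / 2) r1 r2 16 (1 / 2 ^ 54) (1 / 32) dt (famE 1) (famD 1) (famU F 1) (famV F 1) :=
  far_of_PF (fpf0 B) (fpf4 B)

theorem far_fam2 {F : ℝ → ℝ → Mat 3} {r1 r2 dt : ℝ} (B : Base F r1 r2 dt tabC tabZ tab) :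
    Far (1 / 2) r1 r2 16 (1 / 2 ^ 54) (1 / 32) dt (famE 2) (famD 2) (famU F 2) (famV F 2) :=
  far_of_PF (fpf1 B) (fpf5 B)

theorem far_fam3 {F : ℝ → ℝ → Mat 3} {r1 r2 dt : ℝ} (B : Base F r1 r2 dt tabC tabZ tab) :
    Far (1 / 2) r1 r2 16 (1 / 2 ^ 54) (1 / 32) dt (famE 3) (famD 3) (famU F 3) (famV F 3) :=
  far_of_PF (fpf2 B) (fpf6 B)

theorem far_fam4 {F : ℝ → ℝ → Mat 3} {r1 r2 dt : ℝ} (B : Base F r1 r2 dt tabC tabZ tab) :
    Far (1 / 2) r1 r2 16 (1 / 2 ^ 54) (1 / 32) dt (famE 4) (famD 4) (famU F 4) (famV F 4) :=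
  far_of_PF (fpf3 B) (fpf7 B)

end Pool.Agent.P.MP_f12b6c_an
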