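import Pool.Agent.P.MP_f12b6c_an.S4Visc

/-! A classical solution off the origin that is `O(|x|²)` is a viscosity solution. -/

namespace Pool.Agent.P.MP_f12b6c_an

open Filter Topology Matrix Metric
open scoped RealInnerProductSpace

lemma t3o_quad {n : ℕ} (φ : E n → ℝ) (x : E n) (v : Fin n → ℝ) :
    v ⬝ᵥ hess φ x *ᵥ v = fderiv ℝ (fderiv ℝ φ) x (WithLp.toLp 2 v) (WithLp.toLp 2 v) := by
  have e : (WithLp.toLp 2 v : E n) = ∑ i, v i • EuclideanSpace.single i 1 := by
    ext j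
    simp [Finset.sum_apply, Pi.single_apply]
  rw [e]
  simp only [map_sum, map_smul, _root_.sum_apply, _root_.smul_apply,
    smul_eq_mul, dotProduct, mulVec, hess, of_apply, Finset.mul_sum]
  rw [Finset.sum_comm]
  exact Finset.sum_congr rfl fun i _ => Finset.sum_congr rfl fun j _ => by ring

lemma t3o_hess_q {n : ℕ} (c : ℝ) (b x : E n) :
    hess (fun y : E n => c * ‖y‖ ^ 2 + ⟪b, y⟫) x = (2 * c) • (1 : Mat n) := by
  have h1 : fderiv ℝ (fun y : E n => c * ‖y‖ ^ 2 + ⟪b, y⟫) =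
      fun y => (2 * c) • innerSL ℝ y + innerSL ℝ b := by
    funext y
    refine (((hasStrictFDerivAt_norm_sq y).hasFDerivAt.const_mul c).add
      (innerSL ℝ b).hasFDerivAt).fderiv.trans ?_
    ext v
    simp
    ring
  have h2 := (((innerSL ℝ (E := E n)).hasFDerivAt (x := x)).const_smul (2 * c)).add_const
    (innerSL ℝ b)
  ext i j
  simp only [hess, of_apply, h1]
  erw [h2.fderiv]
  change (2 * c) • ⟪EuclideanSpace.single i (1 : ℝ), EuclideanSpace.single j (1 : ℝ)⟫ = _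
  rw [EuclideanSpace.inner_single_left]
  simp [Matrix.one_apply, PiLp.single_apply]

lemma t3o_upper {n : ℕ} {lam Lam : ℝ} {F : Mat n → ℝ} {u : E n → ℝ} (hlam : 0 < lam)
    (hLam : lam ≤ Lam) (hF : UnifElliptic lam Lam F) (hc : Continuous u)
    (h2 : ∀ x, x ≠ 0 → ContDiffAt ℝ 2 u x) (h0 : ∀ x, x ≠ 0 → F (hess u x) = 0)
    (hd : DifferentiableAt ℝ u 0) (e : E n) (he : ‖e‖ = 1) {φ : E n → ℝ}
    (hφ : ContDiffAt ℝ 2 φ 0) (hm : IsLocalMax (fun y => u y - φ y) 0) : 0 ≤ F (hess φ 0) := by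
  refine le_of_forall_pos_le_add fun η hη => ?_
  obtain ⟨ε, hε, hεη⟩ : ∃ ε : ℝ, 0 < ε ∧ Lam * (3 * ε) = η :=
    ⟨η / (3 * Lam), by have := hlam.trans_le hLam; positivity, by
      have := hlam.trans_le hLam; field_simp⟩
  have hcont := (((hφ.fderiv_right (m := 1) (by norm_num)).fderiv_right (m := 0)
    (by norm_num)).sub (contDiffAt_const (c := fderiv ℝ (fderiv ℝ φ) 0))).continuousAt.norm
  have hev : ∀ᶠ y in 𝓝 (0 : E n), (ContDiffAt ℝ 2 φ y ∧ u y - φ y ≤ u 0 - φ 0) ∧
      ‖fderiv ℝ (fderiv ℝ φ) y - fderiv ℝ (fderiv ℝ φ) 0‖ < ε :=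
    ((hφ.eventually (by simp)).and hm).and
      (hcont.eventually_lt continuousAt_const (by simpa using hε))
  obtain ⟨r, hr, hb⟩ := nhds_basis_closedBall.eventually_iff.1 hev
  set b : E n := -((ε * r / 2) • e) with hbdef
  set q : E n → ℝ := fun y => ε * ‖y‖ ^ 2 + ⟪b, y⟫ with hq
  have hqc : ContDiff ℝ 2 q :=
    (contDiff_const.mul (contDiff_norm_sq ℝ)).add (contDiff_const.inner ℝ contDiff_id)
  obtain ⟨x, hx, hmax⟩ := (isCompact_closedBall (0 : E n) r).exists_isMaxOn
    (f := fun y => u y - (φ y + q y)) ⟨0, mem_closedBall_self hr.le⟩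
    (hc.continuousOn.sub (ContinuousOn.add
      (fun y hy => (hb hy).1.1.continuousAt.continuousWithinAt) hqc.continuous.continuousOn))
  have hq0 : q 0 = 0 := by simp [hq]
  have hxr : ‖x‖ < r := by
    refine (mem_closedBall_zero_iff.1 hx).lt_of_ne fun h => ?_
    have a1 : u 0 - (φ 0 + q 0) ≤ u x - (φ x + q x) := hmax (mem_closedBall_self hr.le)
    have a2 := (hb hx).1.2
    have a3 : |⟪b, x⟫| ≤ ε * r / 2 * r := by
      refine (abs_real_inner_le_norm _ _).trans (le_of_eq ?_)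
      rw [h, hbdef, norm_neg, norm_smul, he, mul_one, Real.norm_of_nonneg (by positivity)]
    have a4 : q x = ε * r ^ 2 + ⟪b, x⟫ := by simp [hq, h]
    have a5 : 0 < ε * r ^ 2 := by positivity
    nlinarith [neg_abs_le ⟪b, x⟫]
  have hloc : IsLocalMax (fun y => u y - (φ y + q y)) x :=
    hmax.isLocalMax (closedBall_mem_nhds_of_mem (mem_ball_zero_iff.2 hxr))
  have hx0 : x ≠ 0 := by
    rintro rfl
    have d1 : DifferentiableAt ℝ (fun y => u y - φ y) 0 := hd.sub (hφ.differentiableAt (by simp))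
    have d2 : HasFDerivAt q (innerSL ℝ b) 0 := by
      refine (((hasStrictFDerivAt_norm_sq (0 : E n)).hasFDerivAt.const_mul ε).add
        (innerSL ℝ b).hasFDerivAt).congr_fderiv ?_
      simp
    have d3 := d1.hasFDerivAt.sub d2
    rw [hm.fderiv_eq_zero] at d3
    have d4 := (hloc.congr (g := (fun y => u y - φ y) - q)
      (.of_forall fun y => by simp only [Pi.sub_apply]; ring)).hasFDerivAt_eq_zero d3
    have d5 := congrArg (fun L : E n →L[ℝ] ℝ => L e) d4
    have : 0 < ε * r := by positivity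
    simp [hbdef, he, hε.ne', hr.ne'] at d5
  have hφx := (hb hx).1.1
  have k1 : F (hess u x) ≤ F (hess (fun y => φ y + q y) x) :=
    s4visc_le hlam hF (hφx.add hqc.contDiffAt) (h2 x hx0)
      (hloc.neg.congr (.of_forall fun y => by simp only; ring))
  rw [h0 x hx0, hess_add hφx hqc.contDiffAt, hq, t3o_hess_q] at k1
  have k2 : (hess φ 0 - hess φ x + ε • (1 : Mat n)).PosSemidef := by
    refine PosSemidef.of_dotProduct_mulVec_nonneg ?_ fun v => ?_
    · rw [IsHermitian, conjTranspose_eq_transpose_of_trivial]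
      exact ((hess_symm hφ).sub (hess_symm hφx)).add (isSymm_one.smul ε)
    · have a1 := (hb hx).2
      have a2 := (fderiv ℝ (fderiv ℝ φ) x - fderiv ℝ (fderiv ℝ φ) 0).le_opNorm₂
        (WithLp.toLp 2 v) (WithLp.toLp 2 v)
      have a3 : v ⬝ᵥ v = ‖(WithLp.toLp 2 v : E n)‖ ^ 2 := by
        rw [← real_inner_self_eq_norm_sq, EuclideanSpace.inner_eq_star_dotProduct]; simp
      rw [star_trivial, add_mulVec, sub_mulVec, dotProduct_add, dotProduct_sub, t3o_quad, t3o_quad,
        smul_mulVec, one_mulVec, dotProduct_smul, a3, smul_eq_mul]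
      simp only [_root_.sub_apply, Real.norm_eq_abs] at a2
      nlinarith [le_abs_self (fderiv ℝ (fderiv ℝ φ) x (WithLp.toLp 2 v) (WithLp.toLp 2 v) -
        fderiv ℝ (fderiv ℝ φ) 0 (WithLp.toLp 2 v) (WithLp.toLp 2 v)),
        mul_nonneg (sub_nonneg.2 a1.le) (sq_nonneg ‖(WithLp.toLp 2 v : E n)‖)]
  have k3 := (hF _ _ ((hess_symm hφx).add (isSymm_one.smul (2 * ε))) k2).1
  have k4 := (hF _ _ (hess_symm hφ) (psd_smul_one (c := 3 * ε) (by positivity))).2
  have k5 : hess φ x + (2 * ε) • (1 : Mat n) + (hess φ 0 - hess φ x + ε • (1 : Mat n)) =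
      hess φ 0 + (3 * ε) • (1 : Mat n) := by module
  rw [k5] at k3
  have k6 := mul_le_mul_of_nonneg_left (opNorm_smul_one_le (n := n) (c := 3 * ε) (by positivity))
    (hlam.le.trans hLam)
  have k7 : 0 ≤ lam * opNorm (hess φ 0 - hess φ x + ε • (1 : Mat n)) :=
    mul_nonneg hlam.le (norm_nonneg _)
  linarith

lemma t3o_dual {n : ℕ} {lam Lam : ℝ} {F : Mat n → ℝ} (hF : UnifElliptic lam Lam F) :
    UnifElliptic lam Lam fun M => -F (-M) := fun M N hM hN => by
  have h := hF (-(M + N)) N (hM.add (psd_isSymm hN)).neg hN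
  rw [show -(M + N) + N = -M by abel] at h
  constructor <;> linarith [h.1, h.2]

/-- A classical solution off the origin that is differentiable at the origin is a viscosity
solution. -/
theorem visc_of_diff {n : ℕ} {lam Lam : ℝ} {F : Mat (n + 1) → ℝ} {u : E (n + 1) → ℝ}
    (hlam : 0 < lam) (hLam : lam ≤ Lam) (hF : UnifElliptic lam Lam F)
    (h2 : ∀ x, x ≠ 0 → ContDiffAt ℝ 2 u x) (h0 : ∀ x, x ≠ 0 → F (hess u x) = 0)
    (hd : DifferentiableAt ℝ u 0) : IsViscSol F u := by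
  have hc : Continuous u := continuous_iff_continuousAt.2 fun x => by
    rcases eq_or_ne x 0 with rfl | hx
    · exact hd.continuousAt
    · exact (h2 x hx).continuousAt
  have he : ‖(EuclideanSpace.single 0 1 : E (n + 1))‖ = 1 := by simp
  refine ⟨hc.continuousOn, fun x _ φ hφ => ?_⟩
  rcases eq_or_ne x 0 with rfl | hx
  · refine ⟨fun h => t3o_upper hlam hLam hF hc h2 h0 hd _ he hφ h, fun h => ?_⟩
    have := t3o_upper (u := fun y => -u y) (φ := fun y => -φ y) hlam hLam (t3o_dual hF) hc.neg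
      (fun x hx => (h2 x hx).neg) (fun x hx => by simp [hess_neg, h0 x hx]) hd.neg _ he hφ.neg
      (h.neg.congr (.of_forall fun y => by simp only; ring))
    simpa [hess_neg] using this
  exact ⟨fun h => (h0 x hx).symm.trans_le (s4visc_le hlam hF hφ (h2 x hx)
      (h.neg.congr (.of_forall fun y => by simp only; ring))),
    fun h => (s4visc_le hlam hF (h2 x hx) hφ
      (h.congr (.of_forall fun y => sub_eq_add_neg _ _))).trans_eq (h0 x hx)⟩

/-- A classical solution off the origin that is `O(|x|²)` is a viscosity solution. -/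
theorem visc_of_quadratic {n : ℕ} {lam Lam : ℝ} {F : Mat (n + 1) → ℝ} {u : E (n + 1) → ℝ}
    (hlam : 0 < lam) (hLam : lam ≤ Lam) (hF : UnifElliptic lam Lam F)
    (h2 : ∀ x, x ≠ 0 → ContDiffAt ℝ 2 u x) (h0 : ∀ x, x ≠ 0 → F (hess u x) = 0)
    (hq : ∃ C : ℝ, ∀ x, |u x| ≤ C * ‖x‖ ^ 2) : IsViscSol F u := by
  obtain ⟨C, hC⟩ := hq
  refine visc_of_diff hlam hLam hF h2 h0 (HasFDerivAt.differentiableAt (f' := 0) ?_)
  have u0 : u 0 = 0 := by simpa using hC 0
  rw [hasFDerivAt_iff_isLittleO_nhds_zero]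
  refine Asymptotics.IsBigO.trans_isLittleO (g := fun x : E (n + 1) => ‖x‖ ^ 2)
    (Asymptotics.IsBigO.of_bound C (.of_forall fun x => by simpa [u0] using hC x))
    (Asymptotics.isLittleO_norm_pow_id (by norm_num))

end Pool.Agent.P.MP_f12b6c_an
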