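import Pool.Agent.P.MP_f12b6c_an.T3Hess
import Pool.Agent.P.MP_f12b6c_an.T3Origin
import Pool.Agent.P.MP_f12b6c_an.T3All

/-! The pair condition for the nilpotent model gives a singular solution in `ℝ³`. -/

namespace Pool.Agent.P.MP_f12b6c_an

open Matrix Filter Topology

lemma t3f_unit {k m w : ℝ} (h : Par k m w) (s : ℝ) :
    Real.cos (w * s) ^ 2 + k * m * (Real.sin (w * s) / w) ^ 2 = 1 := by
  have hw := h.w_pos.ne'
  rw [← h.sq, div_pow, mul_div_cancel₀ _ (pow_ne_zero 2 hw)]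
  exact Real.cos_sq_add_sin_sq _

lemma t3f_sum {k m w : ℝ} (h : Par k m w) (s : ℝ) :
    ∑ i, ∑ j, rot k m w s i j ^ 2 ≤ 3 + (m ^ 2 + k ^ 2) / (k * m) := by
  have hk : 0 < k := h.m_pos.trans_le h.m_le
  have hkm : 0 < k * m := mul_pos hk h.m_pos
  have hu := t3f_unit h s
  have hc : Real.cos (w * s) ^ 2 ≤ 1 := Real.cos_sq_le_one _
  have hc0 : 0 ≤ Real.cos (w * s) ^ 2 := sq_nonneg _
  set c := Real.cos (w * s) with hcdef
  set τ := Real.sin (w * s) / w with hτ
  have e : ∑ i, ∑ j, rot k m w s i j ^ 2 = 1 + 2 * c ^ 2 + (m ^ 2 + k ^ 2) * τ ^ 2 := by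
    simp [rot, ell, Fin.sum_univ_succ, ← hcdef, ← hτ]
    ring
  have h1 : τ ^ 2 ≤ 1 / (k * m) := by
    rw [le_div_iff₀ hkm]
    nlinarith
  have h2 : (m ^ 2 + k ^ 2) * τ ^ 2 ≤ (m ^ 2 + k ^ 2) / (k * m) := by
    rw [div_eq_mul_one_div]
    exact mul_le_mul_of_nonneg_left h1 (by positivity)
  rw [e]
  linarith

lemma t3f_rot_period {k m w : ℝ} (h : Par k m w) (j : ℕ) :
    rot k m w (j * (2 * Real.pi) / w) = 1 := by
  have hw := h.w_pos.ne'
  have e : w * (j * (2 * Real.pi) / w) = j * (2 * Real.pi) := by field_simp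
  have hs : Real.sin (j * (2 * Real.pi)) = 0 := by
    have := Real.sin_add_nat_mul_two_pi 0 j
    simpa using this
  unfold rot
  rw [e, Real.cos_nat_mul_two_pi, hs]
  ext a b
  fin_cases a <;> fin_cases b <;> simp [ell]

lemma t3f_hess_cont {n : ℕ} {U : E n → ℝ} {x : E n} (hU : ContDiffAt ℝ 2 U x) :
    ContinuousAt (hess U) x := by
  have h1 : ContDiffAt ℝ 1 (fderiv ℝ U) x := hU.fderiv_right (by norm_num)
  have h2 : ContinuousAt (fderiv ℝ (fderiv ℝ U)) x := (h1.fderiv_right (m := 0) (by norm_num)).continuousAt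
  refine continuousAt_pi.2 fun i => continuousAt_pi.2 fun j => ?_
  exact (h2.clm_apply continuousAt_const).clm_apply continuousAt_const

lemma t3f_const {k m w : ℝ} {q U : E 3 → ℝ} (h : Par k m w) (hU : Spiral k m w q U)
    (h0 : ContDiffAt ℝ 2 U 0) {u : E 3} (hu : u ≠ 0) : hess U u = hess U 0 := by
  obtain ⟨C, -, hC⟩ := flow_bound h
  have hs : Tendsto (fun j : ℕ => -((j : ℝ) * (2 * Real.pi) / w)) atTop atBot := by
    refine tendsto_neg_atTop_atBot.comp ?_
    refine Tendsto.atTop_div_const h.w_pos ?_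
    exact tendsto_natCast_atTop_atTop.atTop_mul_const (by positivity)
  have he : Tendsto (fun j : ℕ => C * Real.exp (-((j : ℝ) * (2 * Real.pi) / w)) * ‖u‖) atTop (𝓝 0) := by
    have := ((Real.tendsto_exp_atBot.comp hs).const_mul C).mul_const ‖u‖
    simpa using this
  have hx : Tendsto (fun j : ℕ => flow k m w (-((j : ℝ) * (2 * Real.pi) / w)) u) atTop (𝓝 0) :=
    squeeze_zero_norm (fun j => hC _ _) he
  have hl := (t3f_hess_cont h0).tendsto.comp hx
  have e : (hess U ∘ fun j : ℕ => flow k m w (-((j : ℝ) * (2 * Real.pi) / w)) u)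
      = fun _ => hess U u := by
    funext j
    simp only [Function.comp]
    rw [hU.hess_flow h _ hu, neg_neg, t3f_rot_period h j]
    simp
  rw [e] at hl
  exact tendsto_nhds_unique tendsto_const_nhds hl

theorem Model.sing {k r1 r2 T c0 : ℝ} {p : E 3 → ℝ} (h : Model k r1 r2 T c0 p) : Sing 3 := by
  obtain ⟨m, hm, hmk, hinj, K, hK⟩ := h.seen_all
  have hk := h.k_pos
  have hP : Par k m (Real.sqrt (k * m)) :=
    ⟨Real.sqrt_pos.2 (mul_pos hk hm), hm, hmk, h.k_lt.le, Real.sq_sqrt (mul_pos hk hm).le⟩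
  set w := Real.sqrt (k * m)
  have hp2 : ContDiff ℝ 2 p := h.smooth.of_le (by norm_num)
  have hq := prof_contDiff k m r1 r2 hp2
  obtain ⟨U, hU⟩ := exists_spiral hP hq
  have hM : ∀ y : E 3, ‖y‖ = 1 →
      hess U y = Mt k m r1 r2 p y + cro (r2 / m) (-(r1 / k)) := fun y hy => by
    rw [hU.hess_sphere hP hq hy, sph_prof hk.ne' hm.ne' r1 r2 hp2]
  have hne : ∀ y : E 3, ‖y‖ = 1 → y ≠ 0 := fun y hy h0 => by
    rw [h0, norm_zero] at hy
    exact zero_ne_one hy
  have n0 : ‖(EuclideanSpace.single 0 1 : E 3)‖ = 1 := by simp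
  have n1 : ‖(EuclideanSpace.single 1 1 : E 3)‖ = 1 := by simp
  obtain ⟨lam, Lam, F, hlam, hle, hF, hF0⟩ := exists_F {N | ∃ x : E 3, x ≠ 0 ∧ N = hess U x}
    ⟨_, _, hne _ n0, rfl⟩ (K * (3 + (m ^ 2 + k ^ 2) / (k * m)) ^ 2) (by
      rintro _ ⟨x, hx, rfl⟩ _ ⟨x', hx', rfl⟩
      obtain ⟨s, u, hu, rfl⟩ := polar hP hx
      obtain ⟨s', v, hv, rfl⟩ := polar hP hx'
      have hg : rot k m w (-s') * rot k m w s' = 1 := by
        rw [← rot_add hP, neg_add_cancel, rot_zero]
      have hs := (hK u v hu hv _ _ (t3f_unit hP (s' - s))).congr hg (t3f_sum hP _) (t3f_sum hP _)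
      have e : rot k m w (-s) = rot k m w (s' - s) * rot k m w (-s') := by
        rw [← rot_add hP]
        congr 1
        ring
      have e2 : hess U (flow k m w s u) - hess U (flow k m w s' v) = (rot k m w (-s'))ᵀ *
          ((rot k m w (s' - s))ᵀ * (Mt k m r1 r2 p u + cro (r2 / m) (-(r1 / k))) * rot k m w (s' - s)
            - (Mt k m r1 r2 p v + cro (r2 / m) (-(r1 / k)))) * rot k m w (-s') := by
        rw [hU.hess_flow hP s (hne u hu), hU.hess_flow hP s' (hne v hv), hM u hu, hM v hv, e,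
          transpose_mul]
        simp only [mul_sub, sub_mul, mul_assoc]
      rw [e2]
      exact hs)
  refine ⟨lam, Lam, F, U, hlam, hle, hF, visc_of_quadratic (n := 2) hlam hle hF hU.smooth
    (fun x hx => hF0 _ ⟨x, hx, rfl⟩) (hU.bound hP hq.continuous), ?_⟩
  intro r hr hc
  have h0 : ContDiffAt ℝ 2 U 0 := hc.contDiffAt (Metric.ball_mem_nhds _ hr)
  have e0 := t3f_const hP hU h0 (hne _ n0)
  have e1 := t3f_const hP hU h0 (hne _ n1)
  refine hinj _ _ n0 n1 ?_ ?_
  · intro hh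
    have := congrArg (fun y : E 3 => y 0) hh
    simp at this
  · have := e0.trans e1.symm
    rw [hM _ n0, hM _ n1] at this
    exact add_right_cancel this

end Pool.Agent.P.MP_f12b6c_an
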