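import Pool.Agent.P.MP_f12b6c_an.T3Soft
import Pool.Agent.P.MP_f12b6c_an.T3Alg

/-! From the nilpotent model to all pairs of Hessians. -/

namespace Pool.Agent.P.MP_f12b6c_an

open Matrix Filter Topology

variable {k r1 r2 T c0 : ℝ} {p : E 3 → ℝ}

/-- The matrix form of `soft_lip`. -/
private lemma t3g_soft {V : Type} [NormedAddCommGroup V] [NormedSpace ℝ V] {f : ℝ × V → Mat 3}
    {K : Set V} (hK : IsCompact K) (hc : Convex ℝ K)
    (hf : ∀ i j, ∀ x ∈ K, ContDiffAt ℝ 1 (fun z => f z i j) (0, x)) :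
    ∃ L : ℝ, 0 ≤ L ∧ ∀ ε : ℝ, 0 < ε → ∃ δ : ℝ, 0 < δ ∧ ∀ m : ℝ, |m| < δ → ∀ i j, ∀ x ∈ K,
      |f (m, x) i j| ≤ L ∧ |f (m, x) i j - f (0, x) i j| ≤ ε ∧ ∀ y ∈ K,
      |f (m, x) i j - f (m, y) i j| ≤ L * ‖x - y‖ ∧
      |f (m, x) i j - f (m, y) i j - (f (0, x) i j - f (0, y) i j)| ≤ ε * ‖x - y‖ := by
  choose L hL0 hL using fun i j => soft_lip (f := fun z => f z i j) hK hc (hf i j)
  have hle : ∀ i j, L i j ≤ ∑ a, ∑ b, L a b := fun i j =>
    (Finset.single_le_sum (f := fun b => L i b) (fun b _ => hL0 i b) (Finset.mem_univ j)).trans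
      (Finset.single_le_sum (f := fun a => ∑ b, L a b)
        (fun a _ => Finset.sum_nonneg fun b _ => hL0 a b) (Finset.mem_univ i))
  refine ⟨∑ a, ∑ b, L a b, (hL0 0 0).trans (hle 0 0), fun ε hε => ?_⟩
  choose δ hδ0 hδ using fun i j => hL i j ε hε
  have hev : ∀ᶠ m in 𝓝 (0 : ℝ), ∀ i j, |m| < δ i j := by
    refine eventually_all.2 fun i => eventually_all.2 fun j => ?_
    refine Metric.eventually_nhds_iff.2 ⟨δ i j, hδ0 i j, fun y hy => ?_⟩
    simpa [Real.dist_eq] using hy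
  obtain ⟨d, hd0, hd⟩ := Metric.eventually_nhds_iff.1 hev
  refine ⟨d, hd0, fun m hm i j x hx => ?_⟩
  have h1 := hδ i j m (hd (by simpa [Real.dist_eq] using hm) i j) x hx
  refine ⟨h1.1.trans (hle i j), h1.2.1, fun y hy => ⟨(h1.2.2 y hy).1.trans ?_, (h1.2.2 y hy).2⟩⟩
  exact mul_le_mul_of_nonneg_right (hle i j) (norm_nonneg _)

private lemma t3g_quad {M : Mat 3} {L C : ℝ} {x y : Fin 3 → ℝ} (hM : ∀ i j, |M i j| ≤ L)
    (hx : ∀ i, |x i| ≤ C) (hy : ∀ i, |y i| ≤ C) : |x ⬝ᵥ M *ᵥ y| ≤ 9 * L * C ^ 2 := by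
  have hL : 0 ≤ L := (abs_nonneg _).trans (hM 0 0)
  have hC : 0 ≤ C := (abs_nonneg _).trans (hx 0)
  have h : ∀ i j, |x i * (M i j * y j)| ≤ L * C ^ 2 := fun i j => by
    rw [abs_mul, abs_mul]
    calc |x i| * (|M i j| * |y j|) ≤ C * (L * C) :=
          mul_le_mul (hx i) (mul_le_mul (hM i j) (hy j) (abs_nonneg _) hL) (by positivity) hC
      _ = L * C ^ 2 := by ring
  have e : x ⬝ᵥ M *ᵥ y = ∑ i, ∑ j, x i * (M i j * y j) := by
    simp only [dotProduct, mulVec, Finset.mul_sum]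
  rw [e]
  refine (Finset.abs_sum_le_sum_abs _ _).trans ((Finset.sum_le_sum fun i _ =>
    (Finset.abs_sum_le_sum_abs _ _).trans (Finset.sum_le_sum fun j _ => h i j)).trans
      (le_of_eq ?_))
  simp only [Finset.sum_const, Finset.card_univ, Fintype.card_fin, nsmul_eq_mul]
  push_cast
  ring

private lemma t3g_conj {M B : Mat 3} {L C : ℝ} (hM : ∀ i j, |M i j| ≤ L)
    (hB : ∀ i j, |B i j| ≤ C) : |(Bᵀ * M * B).trace| ≤ 27 * L * C ^ 2 := by
  have h : ∀ i, |(Bᵀ * M * B) i i| ≤ 9 * L * C ^ 2 := fun i => by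
    have e : (Bᵀ * M * B) i i = (fun a => B a i) ⬝ᵥ M *ᵥ (fun a => B a i) := by
      simp only [Matrix.mul_apply, transpose_apply, dotProduct, mulVec, Fin.sum_univ_three]
      ring
    rw [e]
    exact t3g_quad hM (fun a => hB a i) (fun a => hB a i)
  have h0 := abs_le.1 (h 0)
  have h1 := abs_le.1 (h 1)
  have h2 := abs_le.1 (h 2)
  rw [Matrix.trace_fin_three, abs_le]
  constructor <;> linarith [h0.1, h0.2, h1.1, h1.2, h2.1, h2.2]

private lemma t3g_B {m : ℝ} (hk : 0 < k) (hm : 0 < m) {t : ℝ} (ht : k * m * t ^ 2 ≤ 1)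
    (i j : Fin 3) : |(1 + t • gen k m) i j| ≤ 1 + (1 + 1 / (k * m)) * (k + m) := by
  have hkm : 0 < k * m := mul_pos hk hm
  have h1 : t ^ 2 ≤ 1 / (k * m) := by
    rw [le_div_iff₀ hkm]; linarith
  have h2 : |t| ≤ 1 + 1 / (k * m) := by
    have := sq_abs t
    nlinarith [sq_nonneg (|t| - 1), abs_nonneg t]
  have h3 : 0 ≤ 1 + 1 / (k * m) := by positivity
  have h4 : |t| * k ≤ (1 + 1 / (k * m)) * (k + m) :=
    mul_le_mul h2 (by linarith) hk.le h3
  have h5 : |t| * m ≤ (1 + 1 / (k * m)) * (k + m) :=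
    mul_le_mul h2 (by linarith) hm.le h3
  have h6 : 0 ≤ (1 + 1 / (k * m)) * (k + m) := by positivity
  generalize (1 + 1 / (k * m)) * (k + m) = D at h4 h5 h6 ⊢
  fin_cases i <;> fin_cases j <;>
    simp [gen, abs_mul, abs_of_pos hk, abs_of_pos hm] <;> linarith

private lemma t3g_trace_cro (a b : ℝ) : (cro a b).trace = 0 := by
  simp [cro, Matrix.trace_fin_three]

private lemma t3g_comp {G : ℝ × E 3 → ℝ} {x : E 3 × ℝ} (h : ContDiffAt ℝ 1 G (0, x.1)) :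
    ContDiffAt ℝ 1 (fun z : ℝ × (E 3 × ℝ) => G (z.1, z.2.1)) (0, x) := by
  have h2 : ContDiffAt ℝ 1 (fun z : ℝ × (E 3 × ℝ) => (z.1, z.2.1)) (0, x) := by fun_prop
  exact ContDiffAt.comp (g := G) (0, x) h h2

/-- The bounds for the reduced Hessian on the closed unit ball. -/
private lemma t3g_ball (h : Model k r1 r2 T c0 p) :
    ∃ L : ℝ, 0 ≤ L ∧ ∀ ε : ℝ, 0 < ε → ∃ δ : ℝ, 0 < δ ∧ ∀ m : ℝ, |m| < δ → ∀ u : E 3, ‖u‖ = 1 →
      ∀ i j, |Mt k m r1 r2 p u i j| ≤ L ∧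
        |Mt k m r1 r2 p u i j - Mt k 0 r1 r2 p u i j| ≤ ε := by
  obtain ⟨L, hL0, hL⟩ := t3g_soft (f := fun z : ℝ × E 3 => Mt k z.1 r1 r2 p z.2)
    (isCompact_closedBall (0 : E 3) 1) (convex_closedBall _ _)
    (fun i j x hx => Mt_contDiffAt h.k_pos h.k_lt h.smooth (by simpa using hx) i j)
  refine ⟨L, hL0, fun ε hε => ?_⟩
  obtain ⟨δ, hδ0, hδ⟩ := hL ε hε
  refine ⟨δ, hδ0, fun m hm u hu i j => ?_⟩
  have h1 := hδ m hm i j u (by simp [hu])
  exact ⟨h1.1, h1.2.1⟩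

/-- Rotation angle at most a quarter turn, parameter at most `T`. -/
theorem Model.seen_near (h : Model k r1 r2 T c0 p) : ∃ δ : ℝ, 0 < δ ∧ ∃ K : ℝ, ∀ m, |m| < δ →
    ∀ u v : E 3, ‖u‖ = 1 → ‖v‖ = 1 → ∀ t, 0 ≤ t → t ≤ T → Seen K (Nm k m r1 r2 p u v t) ∧
      (u ≠ v → Nm k m r1 r2 p u v t ≠ 0) := by
  have hc0 := h.c_pos
  let Φ : ℝ × (E 3 × ℝ) → Mat 3 := fun z =>
    (1 + z.2.2 • gen k z.1)ᵀ * Mt k z.1 r1 r2 p z.2.1 * (1 + z.2.2 • gen k z.1)
      - z.2.2 • cro r1 r2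
  have hN : ∀ m u v t, Nm k m r1 r2 p u v t = Φ (m, (u, -t)) - Φ (m, (v, t)) := by
    intro m u v t
    simp only [Φ, Nm, neg_smul, ← sub_eq_add_neg, two_mul, add_smul]
    abel
  have hB : ∀ i j, ContDiff ℝ 1 fun z : ℝ × (E 3 × ℝ) => (1 + z.2.2 • gen k z.1) i j := by
    intro i j
    fin_cases i <;> fin_cases j <;> simp [gen] <;> fun_prop
  have hf : ∀ i j, ∀ x ∈ Metric.closedBall (0 : E 3) 1 ×ˢ Set.Icc (-T) T,
      ContDiffAt ℝ 1 (fun z => Φ z i j) (0, x) := by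
    intro i j x hx
    have hM : ∀ a b, ContDiffAt ℝ 1 (fun z : ℝ × (E 3 × ℝ) => Mt k z.1 r1 r2 p z.2.1 a b) (0, x) := by
      intro a b
      have h1 := Mt_contDiffAt (r1 := r1) (r2 := r2) h.k_pos h.k_lt h.smooth
        (y := x.1) (by simpa using hx.1) a b
      simpa only using t3g_comp h1
    simp only [Φ, Matrix.sub_apply, Matrix.mul_apply, transpose_apply]
    refine ContDiffAt.sub (ContDiffAt.sum fun b _ => ContDiffAt.mul
      (ContDiffAt.sum fun a _ => ContDiffAt.mul (hB a i).contDiffAt (hM a b))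
      (hB b j).contDiffAt) ?_
    simp only [Matrix.smul_apply, smul_eq_mul]
    fun_prop
  obtain ⟨L, hL0, hL⟩ := t3g_soft ((isCompact_closedBall (0 : E 3) 1).prod isCompact_Icc)
    ((convex_closedBall _ _).prod (convex_Icc _ _)) hf
  obtain ⟨δ, hδ0, hδ⟩ := hL (c0 / 36) (by positivity)
  refine ⟨δ, hδ0, (3 : ℕ) + 1 * (6 * L) / (c0 / 2), fun m hm u v hu hv t ht0 htT => ?_⟩
  obtain ⟨A, hA, hA1, hA2⟩ := h.near u v hu hv t ht0 htT
  have hx : (u, -t) ∈ Metric.closedBall (0 : E 3) 1 ×ˢ Set.Icc (-T) T :=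
    ⟨by simp [hu], by constructor <;> simp only <;> linarith⟩
  have hy : (v, t) ∈ Metric.closedBall (0 : E 3) 1 ×ˢ Set.Icc (-T) T :=
    ⟨by simp [hv], by constructor <;> simp only <;> linarith⟩
  have hd : ‖((u, -t) : E 3 × ℝ) - (v, t)‖ ≤ 2 * (‖u - v‖ + t) := by
    rw [Prod.mk_sub_mk, Prod.norm_mk, Real.norm_eq_abs]
    have := norm_nonneg (u - v)
    refine max_le (by linarith) (abs_le.2 ⟨by linarith, by linarith⟩)
  set ρ := ‖u - v‖ + t with hρ
  have h1 : ∀ i j, |Nm k m r1 r2 p u v t i j| ≤ L * (2 * ρ) := fun i j => by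
    rw [hN, Matrix.sub_apply]
    exact ((hδ m hm i j _ hx).2.2 _ hy).1.trans (mul_le_mul_of_nonneg_left hd hL0)
  have h2 : ∀ i j, |(Nm k m r1 r2 p u v t - Nm k 0 r1 r2 p u v t) i j| ≤ c0 / 36 * (2 * ρ) :=
    fun i j => by
      rw [hN, hN, Matrix.sub_apply, Matrix.sub_apply, Matrix.sub_apply]
      exact ((hδ m hm i j _ hx).2.2 _ hy).2.trans (mul_le_mul_of_nonneg_left hd (by positivity))
  have h3 := (abs_le.1 (abs_trace_mul_le hA hA1 h2)).1
  rw [mul_sub, trace_sub] at h3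
  have h4 : c0 / 2 * ρ ≤ (A * Nm k m r1 r2 p u v t).trace := by
    push_cast at h3
    linarith
  have h5 : -(6 * L * ρ) ≤ (Nm k m r1 r2 p u v t).trace := by
    rw [Matrix.trace_fin_three]
    linarith [(abs_le.1 (h1 0 0)).1, (abs_le.1 (h1 1 1)).1, (abs_le.1 (h1 2 2)).1]
  refine ⟨seen_of hA hA1 (by positivity) (by positivity) h4 h5, fun huv h0 => ?_⟩
  rw [h0, mul_zero, trace_zero] at h4
  have h6 : 0 < ‖u - v‖ := norm_pos_iff.2 (sub_ne_zero.2 huv)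
  have h7 : 0 < c0 / 2 * ρ := mul_pos (by positivity) (by linarith)
  linarith

private lemma t3g_small {a a' b c d s ε η L : ℝ} (ha : |a - a'| ≤ ε) (hb : |b| ≤ L) (hc : |c| ≤ L)
    (hd : |d| ≤ L) (hs : |s| ≤ η) (hη : η ≤ 1) :
    |a - a' + s * b| ≤ ε + 3 * η * L ∧ |a - a' + s * b + s * c + s * s * d| ≤ ε + 3 * η * L := by
  have hL : 0 ≤ L := (abs_nonneg _).trans hb
  have hη0 : 0 ≤ η := (abs_nonneg _).trans hs
  have h1 : ∀ x : ℝ, |x| ≤ L → |s * x| ≤ η * L := fun x hx => by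
    rw [abs_mul]; exact mul_le_mul hs hx (abs_nonneg _) hη0
  have h2 : |s * s * d| ≤ η * L := by
    rw [mul_assoc, abs_mul]
    exact (mul_le_mul (hs.trans hη) (h1 d hd) (abs_nonneg _) zero_le_one).trans (by rw [one_mul])
  have h3 := abs_le.1 (h1 b hb)
  have h4 := abs_le.1 (h1 c hc)
  have h5 := abs_le.1 h2
  have h6 := abs_le.1 ha
  have h7 : 0 ≤ η * L := by positivity
  constructor <;> rw [abs_le] <;> constructor <;>
    linarith [h3.1, h3.2, h4.1, h4.2, h5.1, h5.2, h6.1, h6.2]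

/-- The corner entries of the conjugated matrix depend little on the parameter. -/
private lemma t3g_corner {M M' : Mat 3} {m t ε η L : ℝ} (hM : ∀ i j, |M i j| ≤ L)
    (hD : ∀ i j, |M i j - M' i j| ≤ ε) (hs : |t * m| ≤ η) (hη : η ≤ 1) (i j : Fin 3) (hi : i ≠ 1)
    (hj : j ≠ 1) :
    |((1 + t • gen k m)ᵀ * M * (1 + t • gen k m) : Mat 3) i j
      - ((1 + t • gen k 0)ᵀ * M' * (1 + t • gen k 0) : Mat 3) i j| ≤ ε + 3 * η * L := by
  have hs' : |-(t * m)| ≤ η := by rwa [abs_neg]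
  have hL : 0 ≤ L := (abs_nonneg _).trans (hM 0 0)
  have h0 : |(0 : ℝ)| ≤ L := by simpa using hL
  fin_cases i
  · fin_cases j
    · refine le_of_eq_of_le (congrArg abs ?_) (t3g_small (hD 0 0) h0 h0 h0 hs' hη).1
      simp [gen, Matrix.mul_apply, Fin.sum_univ_three]
    · exact absurd rfl hj
    · refine le_of_eq_of_le (congrArg abs ?_) (t3g_small (hD 0 2) (hM 0 1) h0 h0 hs' hη).1
      simp [gen, Matrix.mul_apply, Fin.sum_univ_three]
      ring
  · exact absurd rfl hi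
  · fin_cases j
    · refine le_of_eq_of_le (congrArg abs ?_) (t3g_small (hD 2 0) (hM 1 0) h0 h0 hs' hη).1
      simp [gen, Matrix.mul_apply, Fin.sum_univ_three]
      ring
    · exact absurd rfl hj
    · refine le_of_eq_of_le (congrArg abs ?_)
        (t3g_small (hD 2 2) (hM 1 2) (hM 2 1) (hM 1 1) hs' hη).2
      simp [gen, Matrix.mul_apply, Fin.sum_univ_three]
      ring

/-- Rotation angle at most a quarter turn, parameter at least `T`. -/
theorem Model.seen_far (h : Model k r1 r2 T c0 p) : ∃ δ : ℝ, 0 < δ ∧ ∀ m, 0 < m → m < δ →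
    ∃ K : ℝ, ∀ u v : E 3, ‖u‖ = 1 → ‖v‖ = 1 → ∀ t, T ≤ t → k * m * t ^ 2 ≤ 1 →
      Seen K (Nm k m r1 r2 p u v t) := by
  have hc0 := h.c_pos
  have hk := h.k_pos
  obtain ⟨L, hL0, hL⟩ := t3g_ball h
  obtain ⟨δ, hδ0, hδ⟩ := hL (c0 / 72) (by positivity)
  obtain ⟨η, hη0, hη1, hηL⟩ : ∃ η : ℝ, 0 < η ∧ η ≤ 1 ∧ η * L ≤ c0 / 216 := by
    refine ⟨min 1 (c0 / (216 * (L + 1))), by positivity, min_le_left _ _, ?_⟩
    refine (mul_le_mul_of_nonneg_right (min_le_right _ _) hL0).trans ?_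
    rw [div_mul_eq_mul_div, div_le_div_iff₀ (by positivity) (by positivity)]
    nlinarith
  refine ⟨min δ (k * η ^ 2), by positivity, fun m hm hmδ => ?_⟩
  have hm1 : |m| < δ := by rw [abs_of_pos hm]; exact hmδ.trans_le (min_le_left _ _)
  have hm2 : m < k * η ^ 2 := hmδ.trans_le (min_le_right _ _)
  set C := 1 + (1 + 1 / (k * m)) * (k + m) with hC
  refine ⟨(3 : ℕ) + 1 * (54 * L * C ^ 2) / (c0 / 2), fun u v hu hv t htT ht => ?_⟩
  obtain ⟨A, hA, hA1, hA0, hA2⟩ := h.far u v hu hv t htT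
  have hs : |t * m| ≤ η := by
    refine abs_le_of_sq_le_sq' ?_ hη0.le |> abs_le.2
    have h1 : k * (t * m) ^ 2 ≤ k * η ^ 2 := by nlinarith
    exact le_of_mul_le_mul_left h1 hk
  have hs' : |-t * m| ≤ η := by rwa [neg_mul, abs_neg]
  have hcol : ∀ i, A i 1 = 0 := by
    have h1 := (hA.dotProduct_mulVec_zero_iff (Pi.single 1 1)).1 (by simpa using hA0)
    intro i
    simpa using congrFun h1 i
  have hrow : ∀ i, A 1 i = 0 := fun i => by
    rw [← (psd_isSymm hA).apply 1 i]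
    exact hcol i
  let D : Mat 3 := Matrix.of fun i j =>
    if i ≠ 1 ∧ j ≠ 1 then (Nm k m r1 r2 p u v t - Nm k 0 r1 r2 p u v t) i j else 0
  have hD : ∀ i j, |D i j| ≤ c0 / 18 := by
    intro i j
    simp only [D, of_apply]
    split_ifs with hij
    · have h1 := abs_le.1 (t3g_corner (k := k) (fun a b => (hδ m hm1 u hu a b).1)
        (fun a b => (hδ m hm1 u hu a b).2) hs' hη1 i j hij.1 hij.2)
      have h2 := abs_le.1 (t3g_corner (k := k) (fun a b => (hδ m hm1 v hv a b).1)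
        (fun a b => (hδ m hm1 v hv a b).2) hs hη1 i j hij.1 hij.2)
      simp only [neg_smul, ← sub_eq_add_neg] at h1
      simp only [Nm, Matrix.sub_apply, Matrix.add_apply]
      rw [abs_le]
      constructor <;> linarith [h1.1, h1.2, h2.1, h2.2]
    · simp only [abs_zero]; positivity
  have he : (A * D).trace
      = (A * Nm k m r1 r2 p u v t).trace - (A * Nm k 0 r1 r2 p u v t).trace := by
    rw [← trace_sub, ← mul_sub]
    simp [D, Matrix.trace_fin_three, Matrix.mul_apply, Fin.sum_univ_three, hcol, hrow]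
  have h3 := (abs_le.1 (abs_trace_mul_le hA hA1 hD)).1
  rw [he] at h3
  have h4 : c0 / 2 * 1 ≤ (A * Nm k m r1 r2 p u v t).trace := by
    push_cast at h3
    linarith
  have h5 : -(54 * L * C ^ 2 * 1) ≤ (Nm k m r1 r2 p u v t).trace := by
    have h6 := abs_le.1 (t3g_conj (fun a b => (hδ m hm1 u hu a b).1)
      (t3g_B hk hm (t := -t) (by rwa [neg_sq])))
    have h7 := abs_le.1 (t3g_conj (fun a b => (hδ m hm1 v hv a b).1) (t3g_B hk hm ht))
    simp only [neg_smul, ← sub_eq_add_neg] at h6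
    simp only [Nm, trace_add, trace_sub, trace_smul, t3g_trace_cro, smul_zero]
    linarith [h6.1, h7.2]
  exact seen_of hA hA1 (by positivity) (by positivity) h4 h5

/-- Rotation angle within a quarter turn of the half turn. -/
theorem Model.seen_opp (h : Model k r1 r2 T c0 p) : ∃ δ : ℝ, 0 < δ ∧ ∀ m, 0 < m → m < δ →
    ∃ K : ℝ, ∀ u v : E 3, ‖u‖ = 1 → ‖v‖ = 1 → ∀ t, k * m * t ^ 2 ≤ 1 →
      Seen K (-((1 - t • gen k m)ᵀ * Mt k m r1 r2 p u * (1 - t • gen k m))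
        - (1 + t • gen k m)ᵀ * Mt k m r1 r2 p v * (1 + t • gen k m)
        - (2 : ℝ) • cro (r2 / m) (-(r1 / k))) := by
  have hr := h.r_pos
  have hk := h.k_pos
  have hk1 := h.k_lt
  obtain ⟨L, hL0, hL⟩ := t3g_ball h
  obtain ⟨δ, hδ0, hδ⟩ := hL 1 one_pos
  obtain ⟨η, hη0, hηL⟩ : ∃ η : ℝ, 0 < η ∧ 9 * L * η ≤ r2 := by
    refine ⟨r2 / (9 * (L + 1)), by positivity, ?_⟩
    rw [← mul_div_assoc, div_le_iff₀ (by positivity)]
    nlinarith
  refine ⟨min δ (min k (η ^ 2)), by positivity, fun m hm hmδ => ?_⟩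
  have hm1 : |m| < δ := by rw [abs_of_pos hm]; exact hmδ.trans_le (min_le_left _ _)
  have hm2 : m < k := hmδ.trans_le ((min_le_right _ _).trans (min_le_left _ _))
  have hm3 : m < η ^ 2 := hmδ.trans_le ((min_le_right _ _).trans (min_le_right _ _))
  obtain ⟨κ, hκ0, hκ⟩ : ∃ κ : ℝ, 0 < κ ∧ κ ^ 2 * m = k :=
    ⟨Real.sqrt (k / m), by positivity, by rw [Real.sq_sqrt (by positivity)]; field_simp⟩
  have hκ1 : 1 ≤ κ := by
    by_contra hlt
    push Not at hlt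
    have : κ ^ 2 < 1 := by nlinarith
    nlinarith
  have hκm : κ * m ≤ η := by
    refine (abs_le_of_sq_le_sq' ?_ hη0.le).2
    have : (κ * m) ^ 2 = k * m := by rw [← hκ]; ring
    nlinarith
  set C := 1 + (1 + 1 / (k * m)) * (k + m) with hC
  refine ⟨(3 : ℕ) + (κ ^ 2 + 1) * (54 * L * C ^ 2) / (2 * κ * r2 / m), fun u v hu hv t ht => ?_⟩
  have htk : |t * k| ≤ κ := by
    refine abs_le_of_sq_le_sq' ?_ hκ0.le |> abs_le.2
    have h1 : m * (t * k) ^ 2 ≤ m * κ ^ 2 := by nlinarith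
    exact le_of_mul_le_mul_left h1 hm
  let a : Fin 3 → ℝ := ![κ, -1, 0]
  have hA : (vecMulVec a a).PosSemidef := by
    simpa using posSemidef_vecMulVec_self_star (R := ℝ) a
  have hA1 : (vecMulVec a a).trace ≤ κ ^ 2 + 1 := by
    simp [a, Matrix.trace_fin_three, sq]
  have hq : ∀ (s : ℝ) (M : Mat 3), |s * k| ≤ κ → (∀ i j, |M i j| ≤ L) →
      |(vecMulVec a a * ((1 + s • gen k m)ᵀ * M * (1 + s • gen k m))).trace| ≤ 9 * L * κ ^ 2 := by
    intro s M hs hM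
    have hb : ∀ i, |(![κ, -1, -(s * k)] : Fin 3 → ℝ) i| ≤ κ := by
      intro i
      fin_cases i
      · simpa using (abs_of_pos hκ0).le
      · simpa using hκ1
      · simpa [abs_mul] using hs
    refine le_of_eq_of_le (congrArg abs ?_) (t3g_quad hM hb hb)
    simp [a, gen, Matrix.trace_fin_three, Matrix.mul_apply, Fin.sum_univ_three,
      dotProduct, mulVec]
    ring
  have hcr : (vecMulVec a a * cro (r2 / m) (-(r1 / k))).trace = -(2 * κ * r2 / m) := by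
    simp [a, cro, Matrix.trace_fin_three, Matrix.mul_apply, Fin.sum_univ_three]
    ring
  have h1 := abs_le.1 (hq (-t) _ (by rwa [neg_mul, abs_neg]) fun a b => (hδ m hm1 u hu a b).1)
  have h2 := abs_le.1 (hq t _ htk fun a b => (hδ m hm1 v hv a b).1)
  have h6 := abs_le.1 (t3g_conj (fun a b => (hδ m hm1 u hu a b).1)
    (t3g_B hk hm (t := -t) (by rwa [neg_sq])))
  have h7 := abs_le.1 (t3g_conj (fun a b => (hδ m hm1 v hv a b).1) (t3g_B hk hm ht))
  simp only [neg_smul, ← sub_eq_add_neg] at h1 h6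
  have h8 : 9 * L * κ ^ 2 ≤ κ * r2 / m := by
    rw [le_div_iff₀ hm]
    have h9 : 9 * L * (κ * m) ≤ r2 := (mul_le_mul_of_nonneg_left hκm (by positivity)).trans hηL
    nlinarith
  refine seen_of (ρ := 1) hA hA1 (by positivity) (by positivity) ?_ ?_
  · rw [mul_sub, mul_sub, mul_neg, Matrix.mul_smul, trace_sub, trace_sub, trace_neg, trace_smul,
      hcr, smul_eq_mul]
    have e : 2 * κ * r2 / m = 2 * (κ * r2 / m) := by ring
    rw [e]
    linarith [h1.2, h2.2]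
  · simp only [trace_sub, trace_neg, trace_smul, t3g_trace_cro, smul_zero]
    linarith [h6.2, h7.2]

end Pool.Agent.P.MP_f12b6c_an
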