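import Pool.Agent.P.MP_f12b6c_an.T3Sub

/-!
Soundness of the check of the table of cell models.
-/

namespace Pool.Agent.P.MP_f12b6c_an

open Matrix

/-- `Q` is a model of `F` with scale `2 ^ 28` and error `2 ^ 11` on the top cell. -/
def TopM (F : ℝ → ℝ → Mat 3) (X Y : ℕ) (Q : Six LL) : Prop :=
  ∀ a b : ℝ, |a| ≤ 1 → |b| ≤ 1 → ∀ i j,
    |2 ^ 28 * F (cx X 32 a) (cx Y 32 b) i j - (Q.map (opsR.h2 a b)).mat i j| ≤ 2 ^ 11

theorem qf_eq (N : Mat 3) (v0 v1 v2 : ℝ) : qf N v0 v1 v2 =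
    N 0 0 * (v0 * v0) + N 0 1 * (v0 * v1) + N 0 2 * (v0 * v2) + N 1 0 * (v1 * v0) +
      N 1 1 * (v1 * v1) + N 1 2 * (v1 * v2) + N 2 0 * (v2 * v0) + N 2 1 * (v2 * v1) +
        N 2 2 * (v2 * v2) := by
  simp [qf, dotProduct, mulVec, Fin.sum_univ_three]
  ring

private theorem t3g_one {e E x y : ℝ} (h : |E| ≤ e) : |E * (x * y)| ≤ e * ((x ^ 2 + y ^ 2) / 2) := by
  rw [abs_mul]
  refine mul_le_mul h (abs_le.2 ⟨?_, ?_⟩) (abs_nonneg _) ((abs_nonneg _).trans h)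
  · nlinarith [sq_nonneg (x + y)]
  · nlinarith [sq_nonneg (x - y)]

private theorem t3g_ent {N M : Mat 3} {c e : ℝ} (h : ∀ i j, |c * N i j - M i j| ≤ e) (v0 v1 v2 : ℝ) :
    |c * qf N v0 v1 v2 - qf M v0 v1 v2| ≤ 3 * e * (v0 ^ 2 + v1 ^ 2 + v2 ^ 2) := by
  have a00 := abs_le.1 (t3g_one (x := v0) (y := v0) (h 0 0))
  have a01 := abs_le.1 (t3g_one (x := v0) (y := v1) (h 0 1))
  have a02 := abs_le.1 (t3g_one (x := v0) (y := v2) (h 0 2))
  have a10 := abs_le.1 (t3g_one (x := v1) (y := v0) (h 1 0))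
  have a11 := abs_le.1 (t3g_one (x := v1) (y := v1) (h 1 1))
  have a12 := abs_le.1 (t3g_one (x := v1) (y := v2) (h 1 2))
  have a20 := abs_le.1 (t3g_one (x := v2) (y := v0) (h 2 0))
  have a21 := abs_le.1 (t3g_one (x := v2) (y := v1) (h 2 1))
  have a22 := abs_le.1 (t3g_one (x := v2) (y := v2) (h 2 2))
  rw [qf_eq, qf_eq]
  exact abs_le.2 ⟨by linarith [a00.1, a01.1, a02.1, a10.1, a11.1, a12.1, a20.1, a21.1, a22.1],
    by linarith [a00.2, a01.2, a02.2, a10.2, a11.2, a12.2, a20.2, a21.2, a22.2]⟩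

private theorem t3g_lin {V : ℕ} {f : ℝ → ℝ → ℝ} (hV : Rep2 96 10 1 1 V f) (a0 : ℤ) (r : ℕ) {m A : ℕ}
    (hm : a0.natAbs + r ≤ m) (hA : (A : ℤ) = a0 + r * V) :
    Rep2 96 10 1 m A fun a b => a0 + r * f a b := by
  have := (Rep2.const (K := 96) (n := 10) a0).add (hV.smul r)
  refine (this.mono (by norm_num) (by simpa using hm)).congr hA.symm fun s t => ?_
  push_cast
  rfl

private theorem t3g_X : Rep2 96 10 1 1 vX fun a _ => a :=
  Rep2.var0.congr (by decide +kernel) fun _ _ => rfl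

private theorem t3g_Y : Rep2 96 10 1 1 vY fun _ b => b :=
  Rep2.var1.congr (by decide +kernel) fun _ _ => rfl

private theorem t3g_ins {X x r V : ℕ} (h : insd X x r = true) (hV : 16 ≤ V) {f : ℝ → ℝ → ℝ}
    (hf : Rep2 96 10 1 1 V f) :
    Rep2 96 10 1 (2 ^ 4) ((r * V + (x + r) - (X + 16) : ℕ) : ℤ)
      (fun a b => 2 ^ 4 * (((x : ℝ) + r - X - 16 + r * f a b) / 16)) ∧
    ∀ a : ℝ, |a| ≤ 1 → |((x : ℝ) + r - X - 16 + r * a) / 16| ≤ 1 ∧
      cx x (2 * r) a = cx X 32 (((x : ℝ) + r - X - 16 + r * a) / 16) := by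
  obtain ⟨h1, h⟩ := bnd_iff.1 h
  obtain ⟨h2, h3⟩ := bnd_iff.1 h
  have g1 : X ≤ x := Nat.le_of_ble_eq_true h1
  have g2 : 1 ≤ r := Nat.le_of_ble_eq_true h2
  have g3 : x + (r + r) ≤ X + 32 := Nat.le_of_ble_eq_true h3
  have g4 : 16 ≤ r * V := by nlinarith
  refine ⟨(t3g_lin hf ((x : ℤ) + r - X - 16) r (by omega) ?_).congr rfl fun s t => ?_, fun a ha => ⟨?_, ?_⟩⟩
  · rw [Nat.cast_sub (by omega)]
    push_cast
    ring
  · push_cast
    ring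
  · have b1 : (X : ℝ) ≤ x := by exact_mod_cast g1
    have b3 : (x : ℝ) + (r + r) ≤ X + 32 := by exact_mod_cast g3
    have b4 : |(r : ℝ) * a| ≤ r := by
      rw [abs_mul, Nat.abs_cast]
      exact mul_le_of_le_one_right (Nat.cast_nonneg _) ha
    have := abs_le.1 b4
    exact abs_le.2 ⟨by linarith, by linarith⟩
  · unfold cx
    push_cast
    ring

private theorem t3g_l0 (x : ℕ) : lane (spread x) (nat_lit 7104) = dig x 74 := lane_dig x 74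

private theorem t3g_l1 (x : ℕ) : lane (spread x) (nat_lit 6720) = dig x 70 := lane_dig x 70

private theorem t3g_l2 (x : ℕ) : lane (spread x) (nat_lit 7296) = dig x 76 := lane_dig x 76

theorem fine_sound {F : ℝ → ℝ → Mat 3} {X Y : ℕ} {Q : Six LL} {P : Six (LN × LN)}
    (hT : TopM F X Y Q) (hP : PQ6 4 9 Q P) {x x0 y0 w : ℕ} (h : fine P X Y x x0 y0 w = true) :
    Md F x x0 y0 w := by
  obtain ⟨h0, h⟩ := bnd_iff.1 h
  have hw : w % 2 = 0 := Nat.eq_of_beq_eq_true h0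
  obtain ⟨r, rfl⟩ : ∃ r, w = 2 * r := ⟨w / 2, by omega⟩
  have e : Nat.div (2 * r) (nat_lit 2) = r := Nat.mul_div_cancel_left r (by norm_num : 0 < 2)
  rw [e] at h
  obtain ⟨h1, h⟩ := bnd_iff.1 h
  obtain ⟨h2, h⟩ := bnd_iff.1 h
  rw [fN_eq, fN_eq, fN_eq, t3g_l0, t3g_l1, t3g_l2] at h
  obtain ⟨a1, a2⟩ := t3g_ins h1 (by decide +kernel) t3g_X
  obtain ⟨b1, b2⟩ := t3g_ins h2 (by decide +kernel) t3g_Y
  intro a b ha hb _ v0 v1 v2
  have k1 := six_sound hP a1 b1 (le_refl 44) h ha hb v0 v1 v2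
  obtain ⟨a3, a4⟩ := a2 a ha
  obtain ⟨b3, b4⟩ := b2 b hb
  have k2 := t3g_ent (hT _ _ a3 b3) v0 v1 v2
  rw [← a4, ← b4] at k2
  have e1 : ∀ n : ℕ, ((Nat.shiftLeft n (nat_lit 44) : ℕ) : ℝ) = 2 ^ 44 * n := fun n => by
    rw [show Nat.shiftLeft n (nat_lit 44) = n * 2 ^ 44 from Nat.shiftLeft_eq n 44]
    push_cast
    ring
  rw [e1, e1, e1, show ((nat_lit 0x1800000000000 : ℕ) : ℝ) = 3 * 2 ^ 47 by norm_num] at k1
  unfold eq3
  have k3 := abs_le.1 k2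
  have k4 := abs_le.1 (le_sub_iff_add_le.2 k1)
  exact abs_le.2 ⟨by linarith [k3.1, k4.1], by linarith [k3.2, k4.2]⟩

private theorem t3g_kid {F : ℝ → ℝ → Mat 3} {x : ℕ} {P : Six (LN × LN)}
    (hP : PQ6 1 3 (rows6 (spread x)) P) {A B : ℕ} {σ τ : ℝ}
    (hA : Rep2 96 10 1 (2 ^ 1) A fun a _ => 2 ^ 1 * ((σ + a) / 2))
    (hB : Rep2 96 10 1 (2 ^ 1) B fun _ b => 2 ^ 1 * ((τ + b) / 2)) {U : Cel} (hU : U.Good F)
    (h : kidOK P (8 * dig x 74) (8 * dig x 70) (8 * dig x 76) A B U = true) {a b : ℝ}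
    (ha : |a| ≤ 1) (hb : |b| ≤ 1) (hd : cx U.x U.w a ^ 2 + cx U.y U.w b ^ 2 ≤ (9 / 8) ^ 2)
    (v0 v1 v2 : ℝ) : |2 ^ 20 * qf (F (cx U.x U.w a) (cx U.y U.w b)) v0 v1 v2 -
      mq x ((σ + a) / 2) ((τ + b) / 2) v0 v1 v2| ≤ eq3 x v0 v1 v2 := by
  have hI : ∀ (y w : ℕ) (c : ℝ), |c| ≤ 1 → InI y w (cx y w c) := fun y w c hc => by
    have := abs_le.1 hc
    have hw : (0 : ℝ) ≤ w := Nat.cast_nonneg _
    unfold InI cx
    constructor <;> nlinarith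
  rcases bdj_iff.1 h with h | h
  · have := outside_sound (r := 331776) h (hI _ _ _ ha) (hI _ _ _ hb)
    push_cast at this
    linarith
  · obtain ⟨h0, h⟩ := pos1_iff h
    rw [fN_eq, t3g_l0, t3g_l1, t3g_l2] at h
    have k1 := six_sound hP hA hB (by norm_num : 3 ≤ 44) h ha hb v0 v1 v2
    have k2 := abs_le.1 (hU.md h0 a b ha hb hd v0 v1 v2)
    rw [rows6_qf] at k1
    have e1 : ∀ n : ℕ, ((Nat.mul (nat_lit 8) n : ℕ) : ℝ) = 8 * n := fun n => by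
      rw [show Nat.mul (nat_lit 8) n = 8 * n from rfl]
      push_cast
      ring
    rw [e1, e1, e1] at k1
    push_cast at k1
    unfold eq3 at k2 ⊢
    have k4 := abs_le.1 (le_sub_iff_add_le.2 k1)
    exact abs_le.2 ⟨by linarith [k2.1, k4.1], by linarith [k2.2, k4.2]⟩

private theorem t3g_pm {V : ℕ} {f : ℝ → ℝ → ℝ} (hf : Rep2 96 10 1 1 V f) (hV : 1 ≤ V) :
    Rep2 96 10 1 (2 ^ 1) (Nat.pred V : ℕ) (fun a b => 2 ^ 1 * ((-1 + f a b) / 2)) ∧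
      Rep2 96 10 1 (2 ^ 1) (Nat.succ V : ℕ) fun a b => 2 ^ 1 * ((1 + f a b) / 2) := by
  refine ⟨(t3g_lin hf (-1) 1 (by norm_num) ?_).congr rfl fun s t => ?_,
    (t3g_lin hf 1 1 (by norm_num) ?_).congr rfl fun s t => ?_⟩
  · rw [Nat.pred_eq_sub_one, Nat.cast_sub hV]
    push_cast
    ring
  · push_cast
    ring
  · push_cast
    ring
  · push_cast
    ring

private theorem t3g_half (x r : ℕ) {a : ℝ} (ha : |a| ≤ 1) : ∃ c : ℝ, |c| ≤ 1 ∧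
    ((a = (-1 + c) / 2 ∧ cx x (2 * r) a = cx x r c) ∨
      (a = (1 + c) / 2 ∧ cx x (2 * r) a = cx (x + r) r c)) := by
  have := abs_le.1 ha
  rcases le_total a 0 with h | h
  · refine ⟨2 * a + 1, abs_le.2 ⟨by linarith, by linarith⟩, Or.inl ⟨by ring, ?_⟩⟩
    unfold cx
    push_cast
    ring
  · refine ⟨2 * a - 1, abs_le.2 ⟨by linarith, by linarith⟩, Or.inr ⟨by ring, ?_⟩⟩
    unfold cx
    push_cast
    ring

/-- The models of the four subcells are valid. -/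
def Cel.KG (F : ℝ → ℝ → Mat 3) (c0 c1 c2 c3 : QT) (x y w : ℕ) : Prop :=
  Cel.Good F ⟨c0, x, y, w - w / 2⟩ ∧ Cel.Good F ⟨c1, x + w / 2, y, w - w / 2⟩ ∧
    Cel.Good F ⟨c2, x, y + w / 2, w - w / 2⟩ ∧ Cel.Good F ⟨c3, x + w / 2, y + w / 2, w - w / 2⟩

theorem coarse_sound {F : ℝ → ℝ → Mat 3} {v x y w : ℕ} {c0 c1 c2 c3 : QT}
    (hk : Cel.KG F c0 c1 c2 c3 x y w) (h : coarse ⟨.node v c0 c1 c2 c3, x, y, w⟩ = true) :
    Md F v x y w := by
  obtain ⟨h0, h⟩ := bnd_iff.1 h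
  have hw : w % 2 = 0 := Nat.eq_of_beq_eq_true h0
  obtain ⟨r, rfl⟩ : ∃ r, w = 2 * r := ⟨w / 2, by omega⟩
  rw [fN_eq] at h
  obtain ⟨P, hP, h⟩ := prep_sound (s := 1) (d := 3) (by norm_num) h
  rw [t3g_l0, t3g_l1, t3g_l2] at h
  have h' : bnd (bnd (kidOK P (8 * dig v 74) (8 * dig v 70) (8 * dig v 76) (Nat.pred vX)
      (Nat.pred vY) ⟨c0, x, y, 2 * r - 2 * r / 2⟩) (kidOK P (8 * dig v 74) (8 * dig v 70)
      (8 * dig v 76) (Nat.succ vX) (Nat.pred vY) ⟨c1, x + 2 * r / 2, y, 2 * r - 2 * r / 2⟩))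
    (bnd (kidOK P (8 * dig v 74) (8 * dig v 70) (8 * dig v 76) (Nat.pred vX) (Nat.succ vY)
      ⟨c2, x, y + 2 * r / 2, 2 * r - 2 * r / 2⟩) (kidOK P (8 * dig v 74) (8 * dig v 70)
      (8 * dig v 76) (Nat.succ vX) (Nat.succ vY)
        ⟨c3, x + 2 * r / 2, y + 2 * r / 2, 2 * r - 2 * r / 2⟩)) = true := h
  unfold Cel.KG at hk
  rw [show 2 * r / 2 = r by omega, show 2 * r - r = r by omega] at h' hk
  obtain ⟨k01, k23⟩ := bnd_iff.1 h'
  obtain ⟨k0, k1⟩ := bnd_iff.1 k01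
  obtain ⟨k2, k3⟩ := bnd_iff.1 k23
  obtain ⟨x0, x1⟩ := t3g_pm t3g_X (by decide +kernel)
  obtain ⟨y0, y1⟩ := t3g_pm t3g_Y (by decide +kernel)
  intro a b ha hb hd v0 v1 v2
  obtain ⟨c, hc, ⟨e1, e2⟩ | ⟨e1, e2⟩⟩ := t3g_half x r ha <;>
    obtain ⟨d, hd', ⟨e3, e4⟩ | ⟨e3, e4⟩⟩ := t3g_half y r hb <;> rw [e2, e4] at hd ⊢ <;>
    rw [e1, e3]
  · exact t3g_kid hP x0 y0 hk.1 k0 hc hd' hd v0 v1 v2
  · exact t3g_kid hP x0 y1 hk.2.2.1 k2 hc hd' hd v0 v1 v2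
  · exact t3g_kid hP x1 y0 hk.2.1 k1 hc hd' hd v0 v1 v2
  · exact t3g_kid hP x1 y1 hk.2.2.2 k3 hc hd' hd v0 v1 v2

section Tree

variable {F : ℝ → ℝ → Mat 3}

theorem node_sound {fn : ℕ → ℕ → ℕ → ℕ → Bool}
    (hf : ∀ v x y w, fn v x y w = true → Md F v x y w) {v x y w : ℕ} {c0 c1 c2 c3 : QT}
    (hk : Cel.KG F c0 c1 c2 c3 x y w) (h : nodeOK fn ⟨.node v c0 c1 c2 c3, x, y, w⟩ = true) :
    Good F (.node v c0 c1 c2 c3) x y w := by
  refine ⟨fun h0 => ?_, hk⟩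
  rcases bdj_iff.1 h with h | h
  · exact absurd (Nat.eq_of_beq_eq_true h) h0
  · revert h
    generalize Nat.beq (Nat.land _ _) _ = m
    cases m
    · exact coarse_sound hk
    · exact hf _ _ _ _

theorem chkA_sound {fn : ℕ → ℕ → ℕ → ℕ → Bool} {st : ℕ → Bool} {tp : Cel → Bool}
    (hf : ∀ v x y w, fn v x y w = true → Md F v x y w)
    (ht : ∀ U : Cel, st U.w = true → tp U = true → U.Good F) (t : QT) :
    ∀ x y w, chkA fn st tp t x y w = true → Good F t x y w := by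
  induction t with
  | nil => exact fun _ _ _ _ => trivial
  | node v c0 c1 c2 c3 i0 i1 i2 i3 =>
    intro x y w h
    have h' : @Bool.rec (fun _ => Bool) (bnd (nodeOK fn ⟨.node v c0 c1 c2 c3, x, y, w⟩)
        (four (chkA fn st tp c0) (chkA fn st tp c1) (chkA fn st tp c2) (chkA fn st tp c3) x y
          (x + w / 2) (y + w / 2) (w - w / 2)))
      (tp ⟨.node v c0 c1 c2 c3, x, y, w⟩) (st w) = true := h
    cases hs : st w with
    | true =>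
      rw [hs] at h'
      exact ht ⟨_, x, y, w⟩ hs h'
    | false =>
      rw [hs] at h'
      obtain ⟨g, g'⟩ := bnd_iff.1 h'
      unfold four at g'
      rw [fN_eq, fN_eq, fN_eq] at g'
      obtain ⟨k01, k23⟩ := bnd_iff.1 g'
      obtain ⟨k0, k1⟩ := bnd_iff.1 k01
      obtain ⟨k2, k3⟩ := bnd_iff.1 k23
      exact node_sound hf ⟨i0 _ _ _ k0, i1 _ _ _ k1, i2 _ _ _ k2, i3 _ _ _ k3⟩ g

variable {tq : ℕ → ℕ → Six LL} {tk : ℕ → ℕ → Six LL → Bool}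

theorem chkB_sound (hT : ∀ X Y Q, tk X Y Q = true → TopM F X Y Q) {U : Cel}
    (h : chkB tq tk U = true) : U.Good F := by
  refine chkA_sound (fun _ _ _ _ h => absurd h (by simp)) (fun V _ g => ?_) _ _ _ _ h
  obtain ⟨g1, g2⟩ := bnd_iff.1 g
  obtain ⟨P, hP, g3⟩ := prep_sound (s := 4) (d := 9) le_rfl g2
  exact chkA_sound (fun _ _ _ _ => fine_sound (hT _ _ _ g1) hP)
    (fun _ h => absurd h (by simp)) _ _ _ _ g3

/-- The cells of level four with paths below `n` are valid. -/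
def Upto (F : ℝ → ℝ → Mat 3) (tab : QT) (n : ℕ) : Prop :=
  ∀ p < n, (nav 4 p (root tab)).Good F

theorem Upto.zero (F : ℝ → ℝ → Mat 3) (tab : QT) : Upto F tab 0 :=
  fun _ h => absurd h (Nat.not_lt_zero _)

theorem Upto.step (hT : ∀ X Y Q, tk X Y Q = true → TopM F X Y Q) {tab : QT} {p : ℕ}
    (hp : Upto F tab p) : ∀ {n : ℕ}, chkR tq tk tab p n = true → Upto F tab (p + n)
  | 0, _ => hp
  | n + 1, h => by
    obtain ⟨h1, h2⟩ := bnd_iff.1 h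
    intro q hq
    rcases Nat.lt_succ_iff_lt_or_eq.1 hq with g | rfl
    · exact Upto.step hT hp h2 q g
    · exact chkB_sound hT h1

private theorem t3g_nav (n p k : ℕ) (hk : k < 4) (U : Cel) :
    nav (n + 1) (4 * p + k) U = nav n p (U.kids fun c0 c1 c2 c3 =>
      @Bool.rec (fun _ => Cel) (@Bool.rec (fun _ => Cel) c3 c2 (Nat.beq k 2))
        (@Bool.rec (fun _ => Cel) c1 c0 (Nat.beq k 0)) (Nat.ble k 1)) := by
  have e1 : (4 * p + k) >>> 2 = p := by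
    rw [Nat.shiftRight_eq_div_pow]
    omega
  have e2 : (4 * p + k) &&& 3 = k := by
    rw [show 3 = 2 ^ 2 - 1 from rfl, Nat.and_two_pow_sub_one_eq_mod]
    omega
  show nav n ((4 * p + k) >>> 2) (U.kids fun c0 c1 c2 c3 =>
      @Bool.rec (fun _ => Cel) (@Bool.rec (fun _ => Cel) c3 c2 (Nat.beq ((4 * p + k) &&& 3) 2))
        (@Bool.rec (fun _ => Cel) c1 c0 (Nat.beq ((4 * p + k) &&& 3) 0))
        (Nat.ble ((4 * p + k) &&& 3) 1)) = _
  rw [e1, e2]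

theorem chkC_sound (n : ℕ) : ∀ U : Cel, chkC n U = true → (∀ p < 4 ^ n, (nav n p U).Good F) →
    U.Good F := by
  induction n with
  | zero => exact fun U _ h => h 0 (by norm_num)
  | succ n ih =>
    rintro ⟨t, x, y, w⟩ h hp
    cases t with
    | nil => trivial
    | node v c0 c1 c2 c3 =>
      obtain ⟨g, g'⟩ := bnd_iff.1 h
      obtain ⟨k01, k23⟩ := bnd_iff.1 g'
      obtain ⟨k0, k1⟩ := bnd_iff.1 k01
      obtain ⟨k2, k3⟩ := bnd_iff.1 k23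
      have key : ∀ p < 4 ^ n, ∀ k (hk : k < 4), _ := fun p h1 k hk =>
        t3g_nav n p k hk _ ▸ hp (4 * p + k) (by rw [pow_succ]; omega)
      exact node_sound (fun _ _ _ _ h => absurd h (by simp))
        ⟨ih _ k0 fun p h1 => key p h1 0 (by norm_num), ih _ k1 fun p h1 => key p h1 1 (by norm_num),
          ih _ k2 fun p h1 => key p h1 2 (by norm_num),
          ih _ k3 fun p h1 => key p h1 3 (by norm_num)⟩ g

theorem good_of_upto {tab : QT} (h : chkC 4 (root tab) = true) (hp : Upto F tab 256) :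
    Good F tab 0 0 2048 :=
  chkC_sound 4 (root tab) h hp

end Tree

end Pool.Agent.P.MP_f12b6c_an
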