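import Pool.Agent.P.MP_f12b6c_an.T3Exist

/-! The Hessian of a spiral extension. -/

namespace Pool.Agent.P.MP_f12b6c_an

open Matrix Filter Topology

variable {k m w : ℝ} {q U : E 3 → ℝ}

private lemma t3h_sum {n : ℕ} (a : E n) : a = ∑ i, a i • EuclideanSpace.single i (1 : ℝ) := by
  ext j
  simp [Finset.sum_apply, Pi.single_apply]

private lemma t3h_d1 {n : ℕ} (f : E n → ℝ) (x a : E n) :
    fderiv ℝ f x a = grad f x ⬝ᵥ a.ofLp := by
  conv_lhs => rw [t3h_sum a]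
  simp only [map_sum, map_smul, smul_eq_mul, dotProduct, grad]
  exact Finset.sum_congr rfl fun i _ => mul_comm _ _

private lemma t3h_d2 {n : ℕ} (f : E n → ℝ) (x a b : E n) :
    fderiv ℝ (fderiv ℝ f) x a b = a.ofLp ⬝ᵥ hess f x *ᵥ b.ofLp := by
  conv_lhs => rw [t3h_sum a, t3h_sum b]
  simp only [map_sum, map_smul, _root_.sum_apply, _root_.smul_apply,
    smul_eq_mul, dotProduct, mulVec, hess, of_apply, Finset.mul_sum]
  rw [Finset.sum_comm]
  exact Finset.sum_congr rfl fun i _ => Finset.sum_congr rfl fun j _ => by ring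

private lemma t3h_ev {n : ℕ} {f : E n → ℝ} {x : E n} (h : ContDiffAt ℝ 2 f x) :
    ∀ᶠ y in 𝓝 x, HasFDerivAt f (fderiv ℝ f y) y :=
  (h.eventually (by simp)).mono fun _ hy => (hy.differentiableAt (by simp)).hasFDerivAt

private lemma t3h_sec {n : ℕ} {f : E n → ℝ} {x : E n} (h : ContDiffAt ℝ 2 f x) :
    HasFDerivAt (fderiv ℝ f) (fderiv ℝ (fderiv ℝ f) x) x :=
  ((h.fderiv_right (m := 1) (by norm_num)).differentiableAt (by simp)).hasFDerivAt

private lemma t3h_comp {n : ℕ} {f g : E n → ℝ} (L : E n →L[ℝ] E n) (c : ℝ) {x : E n}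
    (h : ContDiffAt ℝ 2 f (L x)) (e : ∀ z, g z = c * f (L z)) (a b : E n) :
    fderiv ℝ (fderiv ℝ g) x a b = c * fderiv ℝ (fderiv ℝ f) (L x) (L a) (L b) := by
  obtain rfl : g = fun z => c * f (L z) := funext e
  have h1 : fderiv ℝ (fun z => c * f (L z)) =ᶠ[𝓝 x] fun z => c • (fderiv ℝ f (L z)).comp L := by
    filter_upwards [L.continuous.continuousAt.eventually (t3h_ev h)] with z hz
    exact ((hz.comp z L.hasFDerivAt).const_mul c).fderiv
  have h2 := ((((t3h_sec h).comp x L.hasFDerivAt).clm_comp (hasFDerivAt_const L x)).fun_const_smul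
    c).fderiv
  rw [h1.fderiv_eq]
  simp only [Function.comp_def] at h2
  rw [h2]
  simp

private lemma t3h_curve {n : ℕ} {f : E n → ℝ} {γ γ' : ℝ → E n} {a : E n}
    (h : ContDiffAt ℝ 2 f (γ 0)) (h1 : ∀ t, HasDerivAt γ (γ' t) t) (h2 : HasDerivAt γ' a 0)
    (h0 : ∀ t, f (γ t) = 0) : fderiv ℝ f (γ 0) (γ' 0) = 0 ∧
      fderiv ℝ (fderiv ℝ f) (γ 0) (γ' 0) (γ' 0) + fderiv ℝ f (γ 0) a = 0 := by
  have e1 : (fun t => fderiv ℝ f (γ t) (γ' t)) =ᶠ[𝓝 0] fun _ => 0 := by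
    filter_upwards [(h1 0).continuousAt.eventually (t3h_ev h)] with t ht
    have := ht.comp_hasDerivAt t (h1 t)
    rw [show f ∘ γ = fun _ => 0 from funext h0] at this
    exact this.unique (hasDerivAt_const t 0)
  refine ⟨e1.eq_of_nhds, ?_⟩
  have e2 := ((t3h_sec h).comp_hasDerivAt 0 (h1 0)).clm_apply h2
  exact (e2.congr_of_eventuallyEq e1.symm).unique (hasDerivAt_const 0 0)

private lemma t3h_ne (h : Par k m w) (s : ℝ) {x : E 3} (hx : x ≠ 0) : flow k m w s x ≠ 0 := by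
  intro e
  apply hx
  rw [← flow_zero (k := k) (m := m) (w := w) x, ← neg_add_cancel s, flow_add h, e]
  simp [flow]

theorem Spiral.hess_flow (h : Par k m w) (hU : Spiral k m w q U) (s : ℝ) {x : E 3} (hx : x ≠ 0) :
    hess U (flow k m w s x) = (rot k m w (-s))ᵀ * hess U x * rot k m w (-s) := by
  obtain ⟨L, hL⟩ : ∃ L : E 3 →L[ℝ] E 3, ∀ z, L z = flow k m w (-s) z :=
    ⟨Real.exp (-s) • toEuclideanCLM (n := Fin 3) (𝕜 := ℝ) (rot k m w (-s)), fun _ => rfl⟩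
  have e1 : L (flow k m w s x) = x := by rw [hL, ← flow_add h, neg_add_cancel, flow_zero]
  have e2 : ∀ z, U z = Real.exp (2 * s) * U (L z) := fun z => by
    rw [hL, ← hU.cov, ← flow_add h, add_neg_cancel, flow_zero]
  have e3 : Real.exp (2 * s) * Real.exp (-s) * Real.exp (-s) = 1 := by
    rw [← Real.exp_add, ← Real.exp_add, ← Real.exp_zero]
    congr 1
    ring
  ext i j
  have e4 := t3h_comp L _ (x := flow k m w s x) (e1.symm ▸ hU.smooth x hx) e2
    (EuclideanSpace.single i 1) (EuclideanSpace.single j 1)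
  rw [e1, t3h_d2 U x, hL, hL] at e4
  refine e4.trans ?_
  simp only [flow, WithLp.ofLp_smul, smul_dotProduct, mulVec_smul, dotProduct_smul, smul_eq_mul,
    PiLp.ofLp_single, mulVec_single_one]
  rw [← mul_assoc, ← mul_assoc, e3, one_mul, Matrix.mul_assoc]
  rfl

private lemma t3h_flow (h : Par k m w) (z : E 3) :
    HasDerivAt (fun s => flow k m w s z) (z + WithLp.toLp 2 (gen k m *ᵥ z.ofLp)) 0 := by
  have e : (fun s => flow k m w s z) = fun s => Real.exp s • ((WithLp.toLp 2 ![z 0, 0, 0] : E 3) +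
      Real.cos (w * s) • (WithLp.toLp 2 ![0, z 1, z 2] : E 3) +
      (Real.sin (w * s) / w) • WithLp.toLp 2 (gen k m *ᵥ z.ofLp)) := by
    funext s
    unfold flow
    congr 1
    ext i
    fin_cases i <;> simp [rot, ell, gen, mulVec, dotProduct, Fin.sum_univ_three] <;> ring
  have d0 : HasDerivAt (fun s => w * s) w 0 := by simpa using (hasDerivAt_id (0 : ℝ)).const_mul w
  rw [e]
  refine ((Real.hasDerivAt_exp 0).fun_smul (((hasDerivAt_const _ _).fun_add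
    (d0.cos.smul_const _)).fun_add ((d0.sin.div_const w).smul_const _))).congr_deriv ?_
  ext i
  fin_cases i <;> simp [h.w_pos.ne'] <;> ring

private lemma t3h_euler (h : Par k m w) (hU : Spiral k m w q U) {z : E 3} (hz : z ≠ 0) :
    fderiv ℝ U z (z + WithLp.toLp 2 (gen k m *ᵥ z.ofLp)) = 2 * U z := by
  have d1 : HasFDerivAt U (fderiv ℝ U z) (flow k m w 0 z) := by
    rw [flow_zero]
    exact ((hU.smooth z hz).differentiableAt (by simp)).hasFDerivAt
  have d2 := d1.comp_hasDerivAt 0 (t3h_flow h z)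
  have d3 : HasDerivAt (fun s : ℝ => 2 * s) 2 0 := by
    simpa using (hasDerivAt_id (0 : ℝ)).const_mul 2
  rw [show (U ∘ fun s => flow k m w s z) = fun s => Real.exp (2 * s) * U z from
    funext fun s => hU.cov s z] at d2
  simpa using d2.unique (d3.exp.mul_const (U z))

private lemma t3h_euler2 (h : Par k m w) (hU : Spiral k m w q U) {y : E 3} (hy : y ≠ 0)
    (a : Fin 3 → ℝ) : a ⬝ᵥ hess U y *ᵥ (y.ofLp + gen k m *ᵥ y.ofLp) +
      grad U y ⬝ᵥ (a + gen k m *ᵥ a) = 2 * (grad U y ⬝ᵥ a) := by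
  obtain ⟨A, hA⟩ : ∃ A : E 3 →L[ℝ] E 3, ∀ z, A z = z + WithLp.toLp 2 (gen k m *ᵥ z.ofLp) :=
    ⟨ContinuousLinearMap.id ℝ _ + toEuclideanCLM (n := Fin 3) (𝕜 := ℝ) (gen k m), fun _ => rfl⟩
  have e1 : (fun z => 2 * U z) =ᶠ[𝓝 y] fun z => fderiv ℝ U z (A z) := by
    filter_upwards [isOpen_ne.mem_nhds hy] with z hz
    rw [hA, t3h_euler h hU hz]
  have d1 := ((t3h_sec (hU.smooth y hy)).clm_apply A.hasFDerivAt).congr_of_eventuallyEq e1
  have d2 := d1.unique ((t3h_ev (hU.smooth y hy)).self_of_nhds.const_mul 2)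
  have d3 := congrArg (fun L : E 3 →L[ℝ] ℝ => L (WithLp.toLp 2 a)) d2
  simp only [_root_.add_apply, ContinuousLinearMap.comp_apply, ContinuousLinearMap.flip_apply,
    _root_.smul_apply, smul_eq_mul, hA, t3h_d1, t3h_d2] at d3
  rw [add_comm]
  exact d3

private lemma t3h_tan {f : E 3 → ℝ} {y : E 3} (hy : ‖y‖ = 1) (h : ContDiffAt ℝ 2 f y)
    (h0 : ∀ z, ‖z‖ = 1 → f z = 0) {t : Fin 3 → ℝ} (ht : y.ofLp ⬝ᵥ t = 0) :
    grad f y ⬝ᵥ t = 0 ∧ t ⬝ᵥ hess f y *ᵥ t = (grad f y ⬝ᵥ y.ofLp) * (t ⬝ᵥ t) := by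
  have nn : ∀ z : E 3, ‖z‖ ^ 2 = z.ofLp ⬝ᵥ z.ofLp := fun z => by
    rw [EuclideanSpace.real_norm_sq_eq]
    exact Finset.sum_congr rfl fun _ _ => sq _
  by_cases t0 : t = 0
  · simp [t0]
  obtain ⟨r, hr, e, he, rfl⟩ : ∃ r : ℝ, r ≠ 0 ∧ ∃ e : E 3, ‖e‖ = 1 ∧ t = r • e.ofLp := by
    have h1 : ‖(WithLp.toLp 2 t : E 3)‖ ≠ 0 := by simpa using t0
    refine ⟨_, h1, ‖(WithLp.toLp 2 t : E 3)‖⁻¹ • WithLp.toLp 2 t, ?_, ?_⟩
    · rw [norm_smul, norm_inv, norm_norm, inv_mul_cancel₀ h1]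
    · rw [WithLp.ofLp_smul, smul_smul, mul_inv_cancel₀ h1, one_smul]
  have yy := nn y
  have ee := nn e
  rw [hy, one_pow] at yy
  rw [he, one_pow] at ee
  have ye : y.ofLp ⬝ᵥ e.ofLp = 0 := by simpa [hr] using ht
  have k1 := t3h_curve (f := f) (γ := fun s => Real.cos s • y + Real.sin s • e)
    (γ' := fun s => (-Real.sin s) • y + Real.cos s • e) (a := -y) (by simpa using h)
    (fun s => ((Real.hasDerivAt_cos s).smul_const y).fun_add ((Real.hasDerivAt_sin s).smul_const e))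
    ((((Real.hasDerivAt_sin 0).fun_neg.smul_const y).fun_add
      ((Real.hasDerivAt_cos 0).smul_const e)).congr_deriv (by simp)) fun s => h0 _ (by
        rw [← sq_eq_sq₀ (norm_nonneg _) zero_le_one, nn]
        simp only [WithLp.ofLp_add, WithLp.ofLp_smul, add_dotProduct, dotProduct_add,
          smul_dotProduct, dotProduct_smul, smul_eq_mul, ← yy, ← ee, ye, dotProduct_comm e.ofLp]
        nlinarith [Real.sin_sq_add_cos_sq s])
  simp only [Real.cos_zero, Real.sin_zero, one_smul, zero_smul, add_zero, neg_zero, zero_add,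
    map_neg, t3h_d1, t3h_d2] at k1
  simp only [smul_dotProduct, dotProduct_smul, mulVec_smul, smul_eq_mul, k1.1, ← ee]
  exact ⟨mul_zero _, by linear_combination r * r * k1.2⟩

private lemma t3h_vv (u v z : Fin 3 → ℝ) : vecMulVec u v *ᵥ z = (v ⬝ᵥ z) • u := by
  ext i
  simp [mulVec, dotProduct, vecMulVec_apply, Fin.sum_univ_three]
  ring

private lemma t3h_zero {D : Mat 3} (hs : D.IsSymm) {y z : Fin 3 → ℝ} (hd : y ⬝ᵥ z ≠ 0)
    (h1 : D *ᵥ z = 0) (h2 : ∀ t, y ⬝ᵥ t = 0 → t ⬝ᵥ D *ᵥ t = 0) : D = 0 := by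
  have h3 : ∀ a, a ⬝ᵥ D *ᵥ a = 0 := by
    intro a
    have := h2 (a - (y ⬝ᵥ a / y ⬝ᵥ z) • z) (by
      rw [dotProduct_sub, dotProduct_smul, smul_eq_mul, div_mul_cancel₀ _ hd, sub_self])
    rwa [mulVec_sub, mulVec_smul, h1, smul_zero, sub_zero, sub_dotProduct, smul_dotProduct,
      dotProduct_mulVec z, ← mulVec_transpose, hs.eq, h1, zero_dotProduct, smul_zero,
      sub_zero] at this
  ext i j
  have a1 := h3 (Pi.single i 1)
  have a2 := h3 (Pi.single j 1)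
  have a3 := h3 (Pi.single i 1 + Pi.single j 1)
  have a4 := hs.apply i j
  simp only [mulVec_add, add_dotProduct, dotProduct_add, mulVec_single_one, single_dotProduct,
    one_mul, col_apply] at a1 a2 a3
  rw [Matrix.zero_apply]
  linarith

private lemma t3h_alg {X M H : Mat 3} (hM : M.IsSymm) (hH : H.IsSymm) {G g y : Fin 3 → ℝ} {v : ℝ}
    (yy : y ⬝ᵥ y = 1) (hd : 1 + y ⬝ᵥ X *ᵥ y ≠ 0)
    (h1 : ∀ a, a ⬝ᵥ M *ᵥ (y + X *ᵥ y) + G ⬝ᵥ (a + X *ᵥ a) = 2 * (G ⬝ᵥ a))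
    (h2 : G ⬝ᵥ (y + X *ᵥ y) = 2 * v) (h3 : ∀ t, y ⬝ᵥ t = 0 → (G - g) ⬝ᵥ t = 0 ∧
      t ⬝ᵥ (M - H) *ᵥ t = ((G - g) ⬝ᵥ y) * (t ⬝ᵥ t)) : M = sph X 0 v g H y := by
  obtain ⟨c, hc⟩ : ∃ c, c = (G - g) ⬝ᵥ y := ⟨_, rfl⟩
  have yw : y ⬝ᵥ (y + X *ᵥ y) = 1 + y ⬝ᵥ X *ᵥ y := by rw [dotProduct_add, yy]
  have e1 : G = g + c • y := by
    ext i
    have := (h3 (Pi.single i 1 - y i • y) (by simp [dotProduct_sub, yy])).1
    rw [dotProduct_sub, dotProduct_smul, ← hc] at this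
    simp only [dotProduct_single, mul_one, Pi.sub_apply, smul_eq_mul] at this
    simp only [Pi.add_apply, Pi.smul_apply, smul_eq_mul]
    linarith
  have e2 : sphC X 0 v g y = c := by
    rw [e1, add_dotProduct, smul_dotProduct, yw, smul_eq_mul] at h2
    rw [sphC, zero_mulVec, dotProduct_zero, div_eq_iff hd]
    linarith
  have e3 : M *ᵥ (y + X *ᵥ y) = G - Xᵀ *ᵥ G := by
    ext i
    have := h1 (Pi.single i 1)
    rw [dotProduct_add G, dotProduct_mulVec G, ← mulVec_transpose] at this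
    simp only [dotProduct_single, single_dotProduct, mul_one, one_mul] at this
    rw [Pi.sub_apply]
    linarith
  rw [← sub_eq_zero]
  refine t3h_zero (y := y) (z := y + X *ᵥ y) (hM.sub ?_) (yw ▸ hd) ?_ fun t ht => ?_
  · unfold sph
    refine ((hH.add (isSymm_one.smul _)).add (IsSymm.smul ?_ _)).sub (IsSymm.smul ?_ _)
    · rw [IsSymm, transpose_add, transpose_vecMulVec, transpose_vecMulVec, add_comm]
    · exact transpose_vecMulVec _ _
  · have e4 : sphE X 0 v g H y =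
        G - Xᵀ *ᵥ G - H *ᵥ (y + X *ᵥ y) - c • (y + X *ᵥ y) := by
      rw [sphE, e2, e1, zero_mulVec, mulVec_add Xᵀ, mulVec_smul, add_mulVec]
      module
    rw [sub_mulVec, e3, sph, e2]
    generalize sphE X 0 v g H y = e at e4 ⊢
    generalize y + X *ᵥ y = z at yw e4 ⊢
    simp only [sub_mulVec, add_mulVec, smul_mulVec, one_mulVec, t3h_vv, yw, smul_add, smul_smul]
    rw [one_div_mul_cancel hd, dotProduct_comm e z, show z ⬝ᵥ e / (1 + y ⬝ᵥ X *ᵥ y) ^ 2 *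
      (1 + y ⬝ᵥ X *ᵥ y) = 1 / (1 + y ⬝ᵥ X *ᵥ y) * z ⬝ᵥ e by field_simp, e4]
    module
  · have e4 := (h3 t ht).2
    rw [← hc, sub_mulVec, dotProduct_sub] at e4
    rw [sph, e2]
    simp only [sub_mulVec, add_mulVec, smul_mulVec, one_mulVec, t3h_vv, ht, dotProduct_sub,
      dotProduct_add, dotProduct_smul, dotProduct_comm t y, smul_eq_mul, mul_zero, zero_mul,
      add_zero, sub_zero]
    linarith

theorem Spiral.hess_sphere (h : Par k m w) (hq : ContDiff ℝ 2 q) (hU : Spiral k m w q U)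
    {y : E 3} (hy : ‖y‖ = 1) :
    hess U y = sph (gen k m) 0 (q y) (grad q y) (hess q y) y.ofLp := by
  have y0 : y ≠ 0 := by
    rintro rfl
    simp at hy
  have c1 := hU.smooth y y0
  have c2 : ContDiffAt ℝ 2 q y := hq.contDiffAt
  have yy : y.ofLp ⬝ᵥ y.ofLp = 1 := by
    have := EuclideanSpace.real_norm_sq_eq y
    rw [hy, one_pow] at this
    rw [this]
    exact Finset.sum_congr rfl fun _ _ => (sq _).symm
  refine t3h_alg (G := grad U y) (hess_symm c1) (hess_symm c2) yy (ne_of_gt ?_)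
    (t3h_euler2 h hU y0) ?_ fun t ht => ?_
  · have e : y.ofLp ⬝ᵥ gen k m *ᵥ y.ofLp = (k - m) * (y 1 * y 2) := by
      simp [gen, mulVec, dotProduct, Fin.sum_univ_three]
      ring
    simp only [dotProduct, Fin.sum_univ_three] at yy
    rw [e]
    nlinarith [h.m_pos, h.m_le, h.k_le, sq_nonneg (y 1 + y 2), sq_nonneg (y 0),
      mul_nonneg (sub_nonneg.2 h.m_le) (sq_nonneg (y 1 + y 2)),
      mul_nonneg (sub_nonneg.2 h.m_le) (sq_nonneg (y 0))]
  · rw [← hU.sphere y hy, ← t3h_euler h hU y0, t3h_d1]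
    rfl
  · have k1 := t3h_tan hy (c1.add c2.neg) (fun z hz => by rw [hU.sphere z hz, add_neg_cancel]) ht
    have e1 : grad (fun x => U x + -q x) y = grad U y - grad q y := by
      ext i
      simp only [grad, Pi.sub_apply]
      rw [((t3h_ev c1).self_of_nhds.fun_add (t3h_ev c2).self_of_nhds.fun_neg).fderiv]
      simp [sub_eq_add_neg]
    rwa [e1, hess_add c1 c2.neg, hess_neg, ← sub_eq_add_neg] at k1

end Pool.Agent.P.MP_f12b6c_an
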