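import Pool.Agent.P.MP_f12b6c_an.T3Poly
import Pool.Agent.P.MP_f12b6c_an.S4Simd

/-!
Polynomials in two variables packed into one integer.
-/

namespace Pool.Agent.P.MP_f12b6c_an

open Finset

/-- `N` packs, with `K` bits per slot and `n` slots per row, a polynomial of degree at most `g`
and coefficient sum at most `M` that represents the function `F`. -/
def Rep2 (K n g M : ℕ) (N : ℤ) (F : ℝ → ℝ → ℝ) : Prop :=
  ∃ l : List (ℤ × ℕ × ℕ), (∀ q ∈ l, q.2.1 + q.2.2 ≤ g) ∧ (l.map fun q => q.1.natAbs).sum ≤ M ∧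
    N = (l.map fun q => q.1 * 2 ^ (K * (q.2.1 + n * q.2.2))).sum ∧
    ∀ s t, F s t = (l.map fun q => (q.1 : ℝ) * (s ^ q.2.1 * t ^ q.2.2)).sum

variable {K n : ℕ}

theorem Rep2.const (c : ℤ) : Rep2 K n 0 c.natAbs c fun _ _ => (c : ℝ) :=
  ⟨[(c, 0, 0)], by simp, by simp, by simp, by simp⟩

theorem Rep2.var0 : Rep2 K n 1 1 (2 ^ K) fun s _ => s :=
  ⟨[(1, 1, 0)], by simp, by simp, by simp, by simp⟩

theorem Rep2.var1 : Rep2 K n 1 1 (2 ^ (K * n)) fun _ t => t :=
  ⟨[(1, 0, 1)], by simp, by simp, by simp, by simp⟩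

theorem Rep2.mono {g g' M M' : ℕ} {N : ℤ} {F : ℝ → ℝ → ℝ} (h : Rep2 K n g M N F) (hg : g ≤ g')
    (hM : M ≤ M') : Rep2 K n g' M' N F := by
  obtain ⟨l, h1, h2, h3, h4⟩ := h
  exact ⟨l, fun q hq => (h1 q hq).trans hg, h2.trans hM, h3, h4⟩

theorem Rep2.congr {g M : ℕ} {N N' : ℤ} {F F' : ℝ → ℝ → ℝ} (h : Rep2 K n g M N F) (hN : N = N')
    (hF : ∀ s t, F s t = F' s t) : Rep2 K n g M N' F' := by
  obtain ⟨l, h1, h2, h3, h4⟩ := h
  exact ⟨l, h1, h2, hN ▸ h3, fun s t => (hF s t).symm.trans (h4 s t)⟩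

theorem Rep2.add {g g' M M' : ℕ} {N N' : ℤ} {F F' : ℝ → ℝ → ℝ} (h : Rep2 K n g M N F)
    (h' : Rep2 K n g' M' N' F') :
    Rep2 K n (max g g') (M + M') (N + N') fun s t => F s t + F' s t := by
  obtain ⟨l, h1, h2, rfl, h4⟩ := h
  obtain ⟨l', g1, g2, rfl, g4⟩ := h'
  refine ⟨l ++ l', fun q hq => ?_, ?_, ?_, fun s t => ?_⟩
  · rcases List.mem_append.1 hq with hq | hq
    · exact (h1 q hq).trans (le_max_left _ _)
    · exact (g1 q hq).trans (le_max_right _ _)
  · rw [List.map_append, List.sum_append]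
    exact add_le_add h2 g2
  · rw [List.map_append, List.sum_append]
  · rw [List.map_append, List.sum_append, ← h4, ← g4]

private theorem t3k_sum {α R : Type} [CommSemiring R] (m : α → α → α) (φ : α → R)
    (hφ : ∀ p q, φ (m p q) = φ p * φ q) (l l' : List α) :
    ((l.flatMap fun p => l'.map (m p)).map φ).sum = (l.map φ).sum * (l'.map φ).sum := by
  induction l with
  | nil => simp
  | cons p l ih =>
    rw [List.flatMap_cons, List.map_append, List.sum_append, ih, List.map_cons, List.sum_cons,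
      add_mul, List.map_map, ← List.sum_map_mul_left l' φ (φ p),
      List.map_congr_left (f := φ ∘ m p) fun q _ => hφ p q]

theorem Rep2.mul {g g' M M' : ℕ} {N N' : ℤ} {F F' : ℝ → ℝ → ℝ} (h : Rep2 K n g M N F)
    (h' : Rep2 K n g' M' N' F') :
    Rep2 K n (g + g') (M * M') (N * N') fun s t => F s t * F' s t := by
  obtain ⟨l, h1, h2, rfl, h4⟩ := h
  obtain ⟨l', g1, g2, rfl, g4⟩ := h'
  let m : ℤ × ℕ × ℕ → ℤ × ℕ × ℕ → ℤ × ℕ × ℕ := fun p q =>
    (p.1 * q.1, p.2.1 + q.2.1, p.2.2 + q.2.2)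
  refine ⟨l.flatMap fun p => l'.map (m p), fun q hq => ?_, ?_, ?_, fun s t => ?_⟩
  · obtain ⟨a, ha, hq⟩ := List.mem_flatMap.1 hq
    obtain ⟨b, hb, rfl⟩ := List.mem_map.1 hq
    have := h1 a ha
    have := g1 b hb
    simp only [m]
    omega
  · rw [t3k_sum m _ fun p q => Int.natAbs_mul p.1 q.1]
    exact Nat.mul_le_mul h2 g2
  · refine (t3k_sum m _ (fun p q => ?_) l l').symm
    simp only [m]
    ring
  · show F s t * F' s t = _
    rw [h4, g4]
    refine (t3k_sum m _ (fun p q => ?_) l l').symm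
    simp only [m]
    push_cast
    ring

theorem Rep2.smul {g M : ℕ} {N : ℤ} {F : ℝ → ℝ → ℝ} (h : Rep2 K n g M N F) (c : ℤ) :
    Rep2 K n g (c.natAbs * M) (c * N) fun s t => (c : ℝ) * F s t := by
  simpa using (Rep2.const c).mul h

theorem Rep2.sub {g g' M M' : ℕ} {N N' : ℤ} {F F' : ℝ → ℝ → ℝ} (h : Rep2 K n g M N F)
    (h' : Rep2 K n g' M' N' F') :
    Rep2 K n (max g g') (M + M') (N - N') fun s t => F s t - F' s t := by
  simpa [sub_eq_add_neg] using h.add (h'.smul (-1))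

private theorem t3k_mon {s t : ℝ} (hs : |s| ≤ 1) (ht : |t| ≤ 1) (i j : ℕ) : |s ^ i * t ^ j| ≤ 1 := by
  rw [abs_mul, abs_pow, abs_pow]
  exact mul_le_one₀ (pow_le_one₀ (abs_nonneg _) hs) (by positivity) (pow_le_one₀ (abs_nonneg _) ht)

theorem Rep2.abs_le {g M : ℕ} {N : ℤ} {F : ℝ → ℝ → ℝ} (h : Rep2 K n g M N F) {s t : ℝ}
    (hs : |s| ≤ 1) (ht : |t| ≤ 1) : |F s t| ≤ (M : ℝ) := by
  obtain ⟨l, -, hM, -, h4⟩ := h
  rw [h4]
  refine le_trans ?_ (Nat.cast_le.2 hM)
  clear hM h4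
  induction l with
  | nil => simp
  | cons p l ih =>
    rw [List.map_cons, List.sum_cons, List.map_cons, List.sum_cons, Nat.cast_add]
    refine (abs_add_le _ _).trans (add_le_add ?_ ih)
    rw [abs_mul, Nat.cast_natAbs, Int.cast_abs]
    exact mul_le_of_le_one_right (abs_nonneg _) (t3k_mon hs ht _ _)

private theorem t3k_pow {s s' : ℝ} (hs : |s| ≤ 1) (hs' : |s'| ≤ 1) :
    ∀ i : ℕ, |s ^ i - s' ^ i| ≤ i * |s - s'|
  | 0 => by simp
  | i + 1 => by
    have e : s ^ (i + 1) - s' ^ (i + 1) = s * (s ^ i - s' ^ i) + s' ^ i * (s - s') := by ring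
    have h1 : |s * (s ^ i - s' ^ i)| ≤ i * |s - s'| := by
      rw [abs_mul]
      exact (mul_le_of_le_one_left (abs_nonneg _) hs).trans (t3k_pow hs hs' i)
    have h2 : |s' ^ i * (s - s')| ≤ |s - s'| := by
      rw [abs_mul, abs_pow]
      exact mul_le_of_le_one_left (abs_nonneg _) (pow_le_one₀ (abs_nonneg _) hs')
    rw [e]
    push_cast
    linarith [abs_add_le (s * (s ^ i - s' ^ i)) (s' ^ i * (s - s'))]

theorem Rep2.lip {g M : ℕ} {N : ℤ} {F : ℝ → ℝ → ℝ} (h : Rep2 K n g M N F) {s t s' t' x : ℝ}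
    (hs : |s| ≤ 1) (ht : |t| ≤ 1) (hs' : |s'| ≤ 1) (ht' : |t'| ≤ 1) (h0 : |s - s'| ≤ x)
    (h1 : |t - t'| ≤ x) : |F s t - F s' t'| ≤ (g : ℝ) * M * x := by
  obtain ⟨l, hg, hM, -, h4⟩ := h
  have hx : 0 ≤ x := (abs_nonneg _).trans h0
  rw [h4, h4]
  refine le_trans ?_ (mul_le_mul_of_nonneg_right
    (mul_le_mul_of_nonneg_left (Nat.cast_le.2 hM) (Nat.cast_nonneg g)) hx)
  clear hM h4
  induction l with
  | nil => simp
  | cons p l ih =>
    have ih' := ih fun q hq => hg q (List.mem_cons_of_mem _ hq)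
    have hp : (p.2.1 : ℝ) + p.2.2 ≤ g := by exact_mod_cast hg p List.mem_cons_self
    simp only [List.map_cons, List.sum_cons, Nat.cast_add]
    have m1 : |s ^ p.2.1 * t ^ p.2.2 - s' ^ p.2.1 * t' ^ p.2.2| ≤ g * x := by
      have e : s ^ p.2.1 * t ^ p.2.2 - s' ^ p.2.1 * t' ^ p.2.2 =
          t ^ p.2.2 * (s ^ p.2.1 - s' ^ p.2.1) + s' ^ p.2.1 * (t ^ p.2.2 - t' ^ p.2.2) := by ring
      have a1 : |t ^ p.2.2 * (s ^ p.2.1 - s' ^ p.2.1)| ≤ p.2.1 * x := by
        rw [abs_mul, abs_pow]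
        exact (mul_le_of_le_one_left (abs_nonneg _) (pow_le_one₀ (abs_nonneg _) ht)).trans
          ((t3k_pow hs hs' _).trans (mul_le_mul_of_nonneg_left h0 (Nat.cast_nonneg _)))
      have a2 : |s' ^ p.2.1 * (t ^ p.2.2 - t' ^ p.2.2)| ≤ p.2.2 * x := by
        rw [abs_mul, abs_pow]
        exact (mul_le_of_le_one_left (abs_nonneg _) (pow_le_one₀ (abs_nonneg _) hs')).trans
          ((t3k_pow ht ht' _).trans (mul_le_mul_of_nonneg_left h1 (Nat.cast_nonneg _)))
      rw [e]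
      refine (abs_add_le _ _).trans ?_
      nlinarith
    have m2 : |(p.1 : ℝ) * (s ^ p.2.1 * t ^ p.2.2) - p.1 * (s' ^ p.2.1 * t' ^ p.2.2)| ≤
        g * (p.1.natAbs : ℝ) * x := by
      rw [← mul_sub, abs_mul, Nat.cast_natAbs, Int.cast_abs]
      nlinarith [abs_nonneg (p.1 : ℝ)]
    rw [add_sub_add_comm]
    refine (abs_add_le _ _).trans ?_
    linarith

/-- The coefficients by slots. -/
theorem Rep2.slots {g M ns : ℕ} {N : ℤ} {F : ℝ → ℝ → ℝ} (h : Rep2 K n g M N F) (hg : g < n)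
    (hn : n * g < ns) : ∃ c : ℕ → ℤ, (∀ j, |c j| ≤ M) ∧ (∀ j, g < j % n + j / n → c j = 0) ∧
      N = ∑ j ∈ range ns, c j * 2 ^ (K * j) ∧
      ∀ s t, F s t = ∑ j ∈ range ns, (c j : ℝ) * (s ^ (j % n) * t ^ (j / n)) := by
  obtain ⟨l, h1, h2, rfl, h4⟩ := h
  simp only [h4]
  clear h4
  induction l generalizing M with
  | nil => exact ⟨0, fun j => by simp, fun j _ => rfl, by simp, by simp⟩
  | cons q l ih =>
    obtain ⟨c, c1, c0, c2, c3⟩ := ih (fun q hq => h1 q (List.mem_cons_of_mem _ hq)) le_rfl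
    have hq := h1 q List.mem_cons_self
    have q1 : q.2.1 < n := by omega
    have p1 : q.2.1 + n * q.2.2 < ns := by
      obtain ⟨u, hu⟩ := Nat.exists_eq_add_of_le hq
      have : n * g = n * q.2.1 + n * q.2.2 + n * u := by rw [hu]; ring
      have : q.2.1 ≤ n * q.2.1 := Nat.le_mul_of_pos_left _ (by omega)
      omega
    have p2 : (q.2.1 + n * q.2.2) % n = q.2.1 := by
      rw [Nat.add_mul_mod_self_left, Nat.mod_eq_of_lt q1]
    have p3 : (q.2.1 + n * q.2.2) / n = q.2.2 := by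
      rw [Nat.add_mul_div_left _ _ (by omega), Nat.div_eq_of_lt q1, zero_add]
    simp only [List.map_cons, List.sum_cons] at h2 ⊢
    simp only [c2, c3]
    generalize q.2.1 + n * q.2.2 = p at p1 p2 p3 ⊢
    refine ⟨fun j => (if j = p then q.1 else 0) + c j, fun j => ?_, fun j hj => ?_, ?_, fun s t => ?_⟩
    · refine (abs_add_le _ _).trans ?_
      have := c1 j
      have h3 : ((q.1.natAbs + (l.map fun q => q.1.natAbs).sum : ℕ) : ℤ) ≤ M := by exact_mod_cast h2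
      rw [Nat.cast_add, Int.natCast_natAbs] at h3
      split_ifs
      · linarith
      · rw [abs_zero]; linarith [abs_nonneg q.1]
    · show (if j = p then q.1 else 0) + c j = 0
      rw [c0 j hj, if_neg (by rintro rfl; omega), add_zero]
    · simp only [add_mul, sum_add_distrib, ite_mul, zero_mul, sum_ite_eq', mem_range, p1, if_true]
    · simp only [Int.cast_add, Int.cast_ite, Int.cast_zero, add_mul, sum_add_distrib, ite_mul,
        zero_mul, sum_ite_eq', mem_range, p1, if_true]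
      rw [p2, p3]

/-- From coefficients by slots back to a packed polynomial. -/
theorem Rep2.of_slots {g ns : ℕ} (c : ℕ → ℤ) (hc : ∀ j, g < j % n + j / n → c j = 0) :
    Rep2 K n g (∑ j ∈ range ns, (c j).natAbs) (∑ j ∈ range ns, c j * 2 ^ (K * j))
      fun s t => ∑ j ∈ range ns, (c j : ℝ) * (s ^ (j % n) * t ^ (j / n)) := by
  induction ns with
  | zero => exact ⟨[], by simp, by simp, by simp, by simp⟩
  | succ m ih =>
    simp only [sum_range_succ]
    by_cases h : c m = 0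
    · simpa [h] using ih
    · have h1 : Rep2 K n g (c m).natAbs (c m * 2 ^ (K * m))
          fun s t => (c m : ℝ) * (s ^ (m % n) * t ^ (m / n)) :=
        ⟨[(c m, m % n, m / n)], by simpa using not_lt.1 fun h' => h (hc m h'), by simp,
          by simp [Nat.mod_add_div], by simp⟩
      simpa using ih.add h1

/-- The bias `2 ^ (K - 13)` in each of `ns` slots. -/
def omK (K ns : ℕ) : ℕ :=
  Nat.shiftLeft (Nat.div (Nat.sub (Nat.shiftLeft 1 (Nat.mul K ns)) 1)
    (Nat.sub (Nat.shiftLeft 1 K) 1)) (Nat.sub K 13)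

/-- The sum of the absolute values from the biased number `M` and its sign bits `s`. -/
def absK2 (K ns M s : ℕ) : ℕ :=
  Nat.sub (Nat.add (Nat.mul 2 (Nat.mod (Nat.land M (Nat.sub s (Nat.shiftRight s (Nat.sub K 13))))
    (Nat.sub (Nat.shiftLeft 1 K) 1))) (Nat.shiftLeft ns (Nat.sub K 13)))
    (Nat.mod M (Nat.sub (Nat.shiftLeft 1 K) 1))

/-- The sum of the absolute values from the biased number. -/
def absK1 (K ns M : ℕ) : ℕ := absK2 K ns M (Nat.land M (omK K ns))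

/-- The sum of the absolute values of the balanced digits. -/
noncomputable def absK (K ns : ℕ) (N : ℤ) : ℕ :=
  absK1 K ns (itoNat (iadd N (Int.ofNat (omK K ns))))

theorem omK_eq {K : ℕ} (hK : 1 ≤ K) (ns : ℕ) : omK K ns = sumB K (fun _ => 2 ^ (K - 13)) ns := by
  have h1 : 1 < 2 ^ K := Nat.one_lt_two_pow (by omega)
  have h2 := Nat.geomSum_eq (m := 2 ^ K) h1 ns
  show ((1 <<< (K * ns) - 1) / (1 <<< K - 1)) <<< (K - 13) = _
  rw [Nat.shiftLeft_eq, Nat.one_shiftLeft, Nat.one_shiftLeft, pow_mul, ← h2, s4s_sum, sum_mul]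
  exact sum_congr rfl fun j _ => by rw [← pow_mul, mul_comm]

theorem absK_eq {K ns M : ℕ} (hK : 14 ≤ K) (hn : ns ≤ 4000) {a : ℕ → ℤ} (ha : ∀ j, |a j| ≤ M)
    (hM : M < 2 ^ (K - 13)) :
    absK K ns (∑ j ∈ range ns, a j * 2 ^ (K * j)) = ∑ j ∈ range ns, (a j).natAbs := by
  have hB : 2 ^ K = 8192 * 2 ^ (K - 13) := by
    rw [show 8192 = 2 ^ 13 from rfl, ← pow_add]
    congr 1
    omega
  have hom := omK_eq (K := K) (by omega) ns
  obtain ⟨h, hh⟩ : ∃ h, h = 2 ^ (K - 13) := ⟨_, rfl⟩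
  rw [← hh] at hM hB
  have hD : ∀ j, (a j + h).toNat < 2 * h := fun j => by
    have := abs_le.1 (ha j)
    omega
  have hD' : ∀ j, (((a j + h).toNat : ℕ) : ℤ) = a j + h := fun j => by
    have := abs_le.1 (ha j)
    omega
  have e1 : itoNat (iadd (∑ j ∈ range ns, a j * 2 ^ (K * j)) (Int.ofNat (omK K ns))) =
      sumB K (fun j => (a j + h).toNat) ns := by
    rw [itoNat_eq, iadd_eq, hom, ← hh, Int.ofNat_eq_natCast]
    have : ∑ j ∈ range ns, a j * 2 ^ (K * j) + ((sumB K (fun _ => h) ns : ℕ) : ℤ) =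
        ((sumB K (fun j => (a j + h).toNat) ns : ℕ) : ℤ) := by
      rw [s4s_sum, s4s_sum]
      push_cast
      simp only [hD', add_mul, sum_add_distrib]
    rw [this, Int.toNat_natCast]
  have small : ∀ f : ℕ → ℕ, (∀ j, f j ≤ 2 * h) → ∑ j ∈ range ns, f j < 2 ^ K - 1 := by
    intro f h2
    have : ∑ j ∈ range ns, f j ≤ _ := sum_le_card_nsmul (range ns) f (2 * h) fun j _ => h2 j
    rw [card_range, smul_eq_mul] at this
    have h3 : ns * (2 * h) ≤ 4000 * (2 * h) := Nat.mul_le_mul_right _ hn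
    omega
  have e2 : sumB K (fun j => (a j + h).toNat) ns &&& omK K ns =
      sumB K (fun j => 2 ^ (K - 13) * if h ≤ (a j + h).toNat then 1 else 0) ns := by
    rw [hom, s4s_land _ _ _ _ (fun j => by have := hD j; omega) (fun j => by omega)]
    subst hh
    exact s4s_congr _ _ fun j => (s4s_digit (hD j)).1
  have e3 : sumB K (fun j => (a j + h).toNat) ns &&&
      (sumB K (fun j => 2 ^ (K - 13) * if h ≤ (a j + h).toNat then 1 else 0) ns -
        sumB K (fun j => 2 ^ (K - 13) * if h ≤ (a j + h).toNat then 1 else 0) ns >>> (K - 13)) =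
      sumB K (fun j => (a j).toNat) ns := by
    rw [s4s_shift, s4s_sub _ _ _ _ (fun j => Nat.le_mul_of_pos_left _ (by positivity)),
      s4s_land _ _ _ _ (fun j => by have := hD j; omega) (fun j => by split_ifs <;> omega)]
    refine s4s_congr _ _ fun j => ?_
    subst hh
    rw [(s4s_digit (hD j)).2]
    omega
  unfold absK absK1
  rw [e1]
  show 2 * ((_ &&& ((_ &&& omK K ns) - (_ &&& omK K ns) >>> (K - 13))) % (1 <<< K - 1)) +
    ns <<< (K - 13) - _ % (1 <<< K - 1) = _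
  rw [e2, e3, Nat.one_shiftLeft, Nat.shiftLeft_eq, ← hh, s4s_mod, s4s_mod,
    Nat.mod_eq_of_lt (small _ fun j => by have := abs_le.1 (ha j); omega),
    Nat.mod_eq_of_lt (small _ fun j => (hD j).le)]
  refine Nat.sub_eq_of_eq_add ?_
  rw [mul_sum, ← sum_add_distrib]
  have : ns * h = ∑ _j ∈ range ns, h := by simp
  rw [this, ← sum_add_distrib]
  exact sum_congr rfl fun j _ => by have := abs_le.1 (ha j); omega

/-- The coefficient sum may be replaced by the computed one. -/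
theorem Rep2.tight {g M ns : ℕ} {N : ℤ} {F : ℝ → ℝ → ℝ} (h : Rep2 K n g M N F) (hg : g < n)
    (hn : n * g < ns) (hK : 14 ≤ K) (hs : ns ≤ 4000) (hM : M < 2 ^ (K - 13)) :
    Rep2 K n g (absK K ns N) N F := by
  obtain ⟨c, c1, c0, c2, c3⟩ := h.slots hg hn
  rw [c2, absK_eq hK hs c1 hM]
  exact (Rep2.of_slots c c0).congr rfl fun s t => (c3 s t).symm

/-- The operations of the integers. -/
noncomputable def opsZ : Ops ℤ := ⟨iadd, isub, imul, imul, Int.ofNat 1⟩

/-- The operations on majorants. -/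
noncomputable def opsM : Ops ℕ := ⟨Nat.add, Nat.add, Nat.mul, fun c a => Nat.mul (iabs c) a, 1⟩

/-- The operations on degrees. -/
def opsG : Ops ℕ := ⟨max, max, Nat.add, fun _ a => a, 0⟩

/-- A packed polynomial with its function, degree and majorant. -/
structure RT2 (K n : ℕ) where
  N : ℤ
  F : ℝ → ℝ → ℝ
  g : ℕ
  M : ℕ
  ok : Rep2 K n g M N F

/-- The operations on packed polynomials. -/
noncomputable def opsT (K n : ℕ) : Ops (RT2 K n) where
  ad a b := ⟨iadd a.N b.N, fun s t => a.F s t + b.F s t, max a.g b.g, Nat.add a.M b.M,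
    iadd_eq a.N b.N ▸ a.ok.add b.ok⟩
  sb a b := ⟨isub a.N b.N, fun s t => a.F s t - b.F s t, max a.g b.g, Nat.add a.M b.M,
    isub_eq a.N b.N ▸ a.ok.sub b.ok⟩
  mu a b := ⟨imul a.N b.N, fun s t => a.F s t * b.F s t, Nat.add a.g b.g, Nat.mul a.M b.M,
    imul_eq a.N b.N ▸ a.ok.mul b.ok⟩
  sm c a := ⟨imul c a.N, fun s t => (c : ℝ) * a.F s t, a.g, Nat.mul (iabs c) a.M,
    imul_eq c a.N ▸ iabs_eq c ▸ a.ok.smul c⟩
  one := ⟨Int.ofNat 1, fun _ _ => 1, 0, 1, (Rep2.const 1).congr rfl fun _ _ => Int.cast_one⟩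

theorem homN (K n : ℕ) : (opsT K n).Hom opsZ RT2.N :=
  ⟨fun _ _ => rfl, fun _ _ => rfl, fun _ _ => rfl, fun _ _ => rfl, rfl⟩

theorem homM (K n : ℕ) : (opsT K n).Hom opsM RT2.M :=
  ⟨fun _ _ => rfl, fun _ _ => rfl, fun _ _ => rfl, fun _ _ => rfl, rfl⟩

theorem homG (K n : ℕ) : (opsT K n).Hom opsG RT2.g :=
  ⟨fun _ _ => rfl, fun _ _ => rfl, fun _ _ => rfl, fun _ _ => rfl, rfl⟩

theorem homF (K n : ℕ) (s t : ℝ) : (opsT K n).Hom opsR fun a => a.F s t :=
  ⟨fun _ _ => rfl, fun _ _ => rfl, fun _ _ => rfl, fun _ _ => rfl, rfl⟩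

/-- Evaluation of a list of coefficients with a given lowest one. -/
noncomputable def Ops.h1c {R : Type} (o : Ops R) (x : R) (l : List ℤ) : ℤ → R :=
  @List.rec ℤ (fun _ => ℤ → R) (fun c => o.sm c o.one)
    (fun c' _ r c => o.ad (o.sm c o.one) (o.mu x (r c'))) l

/-- Evaluation of a list of coefficients, lowest first. -/
noncomputable def Ops.h1 {R : Type} (o : Ops R) (x : R) (l : List ℤ) : R :=
  @List.rec ℤ (fun _ => R) (o.sm 0 o.one) (fun c tl _ => o.h1c x tl c) l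

/-- Evaluation of a list of rows with a given lowest one; `my` multiplies by the second
variable. -/
noncomputable def Ops.h2c {R : Type} (o : Ops R) (x : R) (my : R → R) (l : List (List ℤ)) :
    List ℤ → R :=
  @List.rec (List ℤ) (fun _ => List ℤ → R) (fun c => o.h1 x c)
    (fun c' _ r c => o.ad (o.h1 x c) (my (r c'))) l

/-- Evaluation of a list of rows of coefficients; `my` multiplies by the second variable. -/
noncomputable def Ops.h2f {R : Type} (o : Ops R) (x : R) (my : R → R) (l : List (List ℤ)) : R :=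
  @List.rec (List ℤ) (fun _ => R) (o.sm 0 o.one) (fun c tl _ => o.h2c x my tl c) l

/-- Evaluation of a list of rows of coefficients, lowest first. -/
noncomputable def Ops.h2 {R : Type} (o : Ops R) (x y : R) (l : List (List ℤ)) : R :=
  o.h2f x (o.mu y) l

section Horner

variable {R S : Type} {o : Ops R} {o' : Ops S} {φ : R → S}

theorem Ops.Hom.h1c (h : o.Hom o' φ) (x : R) : ∀ l c, φ (o.h1c x l c) = o'.h1c (φ x) l c
  | [], c => by
    show φ (o.sm c o.one) = o'.sm c o'.one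
    rw [h.sm, h.one]
  | c' :: l, c => by
    show φ (o.ad (o.sm c o.one) (o.mu x (o.h1c x l c'))) =
      o'.ad (o'.sm c o'.one) (o'.mu (φ x) (o'.h1c (φ x) l c'))
    rw [h.ad, h.sm, h.one, h.mu, h.h1c x l]

theorem Ops.Hom.h1 (h : o.Hom o' φ) (x : R) : ∀ l, φ (o.h1 x l) = o'.h1 (φ x) l
  | [] => by
    show φ (o.sm 0 o.one) = o'.sm 0 o'.one
    rw [h.sm, h.one]
  | c :: l => h.h1c x l c

theorem Ops.Hom.h2c (h : o.Hom o' φ) (x : R) {my : R → R} {my' : S → S}
    (hm : ∀ r, φ (my r) = my' (φ r)) : ∀ l c, φ (o.h2c x my l c) = o'.h2c (φ x) my' l c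
  | [], c => h.h1 x c
  | c' :: l, c => by
    show φ (o.ad (o.h1 x c) (my (o.h2c x my l c'))) =
      o'.ad (o'.h1 (φ x) c) (my' (o'.h2c (φ x) my' l c'))
    rw [h.ad, h.h1, hm, h.h2c x hm l]

theorem Ops.Hom.h2 (h : o.Hom o' φ) (x y : R) : ∀ l, φ (o.h2 x y l) = o'.h2 (φ x) (φ y) l
  | [] => by
    show φ (o.sm 0 o.one) = o'.sm 0 o'.one
    rw [h.sm, h.one]
  | c :: l => h.h2c x (h.mu y) l c

end Horner

theorem opsR_h1_nil (x : ℝ) : opsR.h1 x [] = 0 := by
  show ((0 : ℤ) : ℝ) * 1 = 0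
  simp

theorem opsR_h1_cons (x : ℝ) (c : ℤ) (l : List ℤ) : opsR.h1 x (c :: l) = c + x * opsR.h1 x l := by
  cases l with
  | nil =>
    rw [opsR_h1_nil]
    show (c : ℝ) * 1 = _
    simp
  | cons c' l =>
    show (c : ℝ) * 1 + x * opsR.h1c x l c' = c + x * opsR.h1c x l c'
    rw [mul_one]

theorem opsR_h2_nil (x y : ℝ) : opsR.h2 x y [] = 0 := opsR_h1_nil x

theorem opsR_h2_cons (x y : ℝ) (c : List ℤ) (l : List (List ℤ)) :
    opsR.h2 x y (c :: l) = opsR.h1 x c + y * opsR.h2 x y l := by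
  cases l with
  | nil =>
    rw [opsR_h2_nil]
    show opsR.h1 x c = _
    simp
  | cons c' l => rfl

/-- Substitution of two packed polynomials into a list of rows. -/
theorem Rep2.h2 {g M g' M' : ℕ} {N N' : ℤ} {F F' : ℝ → ℝ → ℝ} (h : Rep2 K n g M N F)
    (h' : Rep2 K n g' M' N' F') (l : List (List ℤ)) :
    Rep2 K n (opsG.h2 g g' l) (opsM.h2 M M' l) (opsZ.h2 N N' l)
      fun s t => opsR.h2 (F s t) (F' s t) l := by
  have := ((opsT K n).h2 ⟨N, F, g, M, h⟩ ⟨N', F', g', M', h'⟩ l).ok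
  rw [(homG K n).h2, (homM K n).h2, (homN K n).h2] at this
  exact this.congr rfl fun s t => (homF K n s t).h2 _ _ l

/-- A polynomial whose packed form vanishes vanishes. -/
theorem Rep2.zero {g M : ℕ} {F : ℝ → ℝ → ℝ} (h : Rep2 K n g M 0 F) (hg : g < n)
    (hn : n * g < 4000) (hK : 14 ≤ K) (hM : M < 2 ^ (K - 13)) (s t : ℝ) : F s t = 0 := by
  have e : absK K 4000 0 = 0 := by
    simpa using absK_eq (K := K) (ns := 4000) (M := M) hK le_rfl (a := fun _ => 0) (by simp) hM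
  obtain ⟨l, -, h2, -, h4⟩ := h.tight hg hn hK le_rfl hM
  rw [e, Nat.le_zero, List.sum_eq_zero_iff] at h2
  rw [h4]
  refine List.sum_eq_zero fun x hx => ?_
  obtain ⟨q, hq, rfl⟩ := List.mem_map.1 hx
  have := h2 _ (List.mem_map.2 ⟨q, hq, rfl⟩)
  rw [Int.natAbs_eq_zero.1 this]
  simp

/-- Multiplication of an integer by a power of two. -/
noncomputable def ishl (a : ℤ) (s : ℕ) : ℤ :=
  @Int.rec (fun _ => ℤ) (fun m => Int.ofNat (Nat.shiftLeft m s))
    (fun m => nneg (Nat.shiftLeft (Nat.succ m) s)) a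

theorem ishl_eq (a : ℤ) (s : ℕ) : ishl a s = a * 2 ^ s := by
  rcases a with m | m
  · show ((m <<< s : ℕ) : ℤ) = _
    rw [Nat.shiftLeft_eq]; simp
  · show nneg ((m + 1) <<< s) = _
    rw [nneg_eq, Nat.shiftLeft_eq, Int.negSucc_eq]; push_cast; ring

end Pool.Agent.P.MP_f12b6c_an
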