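import Pool.Agent.P.MP_f12b6c_an.T3Kron

/-!
Packed numbers whose lanes carry arbitrary values, and the odd and even parts of a polynomial
around a point.
-/

namespace Pool.Agent.P.MP_f12b6c_an.Dg

open Finset

/-- `N` packs integers of size at most `M` whose sum with the weights `v` is `y`. -/
def Lan (K ns : ℕ) (v : ℕ → ℝ) (M : ℕ) (N : ℤ) (y : ℝ) : Prop :=
  ∃ a : ℕ → ℤ, (∀ j, |a j| ≤ M) ∧ N = ∑ j ∈ range ns, a j * 2 ^ (K * j) ∧
    y = ∑ j ∈ range ns, (a j : ℝ) * v j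

section

variable {K ns M M' : ℕ} {v : ℕ → ℝ} {N N' : ℤ} {y y' : ℝ}

theorem Lan.mono (h : Lan K ns v M N y) (hM : M ≤ M') : Lan K ns v M' N y := by
  obtain ⟨a, h1, h2, h3⟩ := h
  exact ⟨a, fun j => (h1 j).trans (by exact_mod_cast hM), h2, h3⟩

theorem Lan.congr (h : Lan K ns v M N y) (hN : N = N') (hy : y = y') : Lan K ns v M N' y' :=
  hN ▸ hy ▸ h

theorem Lan.add (h : Lan K ns v M N y) (h' : Lan K ns v M' N' y') :
    Lan K ns v (M + M') (iadd N N') (y + y') := by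
  obtain ⟨a, h1, rfl, rfl⟩ := h
  obtain ⟨b, g1, rfl, rfl⟩ := h'
  refine ⟨fun j => a j + b j, fun j => (abs_add_le _ _).trans ?_, ?_, ?_⟩
  · push_cast; exact add_le_add (h1 j) (g1 j)
  · simp only [iadd_eq, add_mul, sum_add_distrib]
  · simp only [Int.cast_add, add_mul, sum_add_distrib]

theorem Lan.smul (h : Lan K ns v M N y) (c : ℤ) :
    Lan K ns v (c.natAbs * M) (imul c N) (c * y) := by
  obtain ⟨a, h1, rfl, rfl⟩ := h
  refine ⟨fun j => c * a j, fun j => ?_, ?_, ?_⟩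
  · rw [abs_mul]; push_cast; exact mul_le_mul_of_nonneg_left (h1 j) (abs_nonneg _)
  · simp only [imul_eq, mul_sum, mul_assoc]
  · simp only [Int.cast_mul, mul_sum, mul_assoc]

theorem Lan.sub (h : Lan K ns v M N y) (h' : Lan K ns v M' N' y') :
    Lan K ns v (M + M') (isub N N') (y - y') :=
  ((h.add (h'.smul (-1))).mono (by simp)).congr
    (by rw [iadd_eq, imul_eq, isub_eq]; ring) (by push_cast; ring)

theorem Lan.single {j : ℕ} (hj : j < ns) {b : ℤ} (hb : |b| ≤ M) :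
    Lan K ns v M (ishl b (Nat.mul K j)) (b * v j) := by
  refine ⟨fun i => if i = j then b else 0, fun i => ?_, ?_, ?_⟩
  · show |if i = j then b else 0| ≤ _
    split_ifs
    · exact hb
    · simp
  · simp [ishl_eq, hj]
  · simp [hj, apply_ite (Int.cast : ℤ → ℝ)]

end

/-- The monomial of lane `j`. -/
noncomputable def mon (n : ℕ) (s t : ℝ) (j : ℕ) : ℝ := s ^ (j % n) * t ^ (j / n)

theorem mon_abs {n : ℕ} {s t : ℝ} (hs : |s| ≤ 1) (ht : |t| ≤ 1) (j : ℕ) : |mon n s t j| ≤ 1 := by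
  rw [mon, abs_mul, abs_pow, abs_pow]
  exact mul_le_one₀ (pow_le_one₀ (abs_nonneg _) hs) (by positivity) (pow_le_one₀ (abs_nonneg _) ht)

theorem rep_lan {K n g M ns : ℕ} {N : ℤ} {F : ℝ → ℝ → ℝ} (h : Rep2 K n g M N F) (hg : g < n)
    (hn : n * g < ns) (s t : ℝ) : Lan K ns (mon n s t) M N (F s t) := by
  obtain ⟨c, h1, -, h2, h3⟩ := h.slots hg hn
  exact ⟨c, h1, h2, h3 s t⟩

/-- The constants of the packing. -/
structure DP where
  K : ℕ
  n : ℕ
  ns : ℕ
  D : ℕ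
  hs : ℕ
  h : ℕ
  bm : ℕ
  om : ℕ
  o1 : ℕ
  m1 : ℕ
  m2 : ℕ

/-- The mask of all lanes outside a list. -/
def mask (K ns : ℕ) (L : List ℕ) : ℕ := sumB K (fun j => if j ∈ L then 0 else 2 ^ K - 1) ns

/-- The constants fit together. -/
structure DP.Ok (P : DP) : Prop where
  K : 16 ≤ P.K
  ns : P.ns ≤ 4000
  n : P.D + 1 < P.n
  ns' : P.n * (P.D + 1) < P.ns
  D : 2 ≤ P.D
  hs : P.hs = P.K - 13
  h : P.h = 2 ^ (P.K - 13)
  bm : P.bm = 2 ^ P.K - 1
  om : P.om = sumB P.K (fun _ => 2 ^ (P.K - 13)) P.ns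
  o1 : P.o1 = 2 ^ (P.K * P.ns) - 1
  m1 : P.m1 = mask P.K P.ns [0]
  m2 : P.m2 = mask P.K P.ns [0, 2, P.n * 2]

/-- The natural number `n` is congruent to a packed number. -/
def LanN (P : DP) (v : ℕ → ℝ) (M n : ℕ) (y : ℝ) : Prop :=
  ∃ N : ℤ, Lan P.K P.ns v M N y ∧ (n : ℤ) ≡ N [ZMOD 2 ^ (P.K * P.ns)]

/-- The negative modulo the power of two. -/
def DP.ng (P : DP) (n : ℕ) : ℕ := Nat.succ (Nat.sub P.o1 (Nat.land n P.o1))

/-- The product with an integer modulo the power of two. -/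
noncomputable def DP.sm (P : DP) (c : ℤ) (n : ℕ) : ℕ :=
  @Int.rec (fun _ => ℕ) (fun m => Nat.mul m n) (fun m => P.ng (Nat.mul (Nat.succ m) n)) c

/-- The biased number. -/
def DP.bi (P : DP) (n : ℕ) : ℕ := Nat.land (Nat.add n P.om) P.o1

/-- The positive parts from the sign bits. -/
def DP.ps1 (P : DP) (M s : ℕ) : ℕ := Nat.land M (Nat.sub s (Nat.shiftRight s P.hs))

/-- The positive parts of the lanes. -/
def DP.ps (P : DP) (M : ℕ) : ℕ := P.ps1 M (Nat.land M P.om)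

/-- The sum of the lanes in a mask. -/
def DP.ms (P : DP) (M k : ℕ) : ℕ := Nat.mod (Nat.land M k) P.bm

/-- The sum of the absolute values of the lanes in a mask. -/
def DP.ab (P : DP) (M k : ℕ) : ℕ :=
  Nat.sub (Nat.add (Nat.mul 2 (P.ms (P.ps M) k)) (P.ms P.om k)) (P.ms M k)

/-- The value of one lane. -/
noncomputable def DP.ex (P : DP) (M j : ℕ) : ℤ :=
  snn (Nat.land (Nat.shiftRight M (Nat.mul P.K j)) P.bm) P.h

/-- The part that is subtracted in the lower bound. -/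
def DP.lo1 (P : DP) (p : ℕ) : ℕ :=
  Nat.add (Nat.add (Nat.mul P.ns P.h) (P.ms p P.m1)) (P.ms p P.m2)

section

variable {P : DP} {v : ℕ → ℝ} {M M' n n' : ℕ} {y y' : ℝ}

theorem DP.ng_eq (hP : P.Ok) (n : ℕ) : (P.ng n : ℤ) ≡ -n [ZMOD 2 ^ (P.K * P.ns)] := by
  have h1 : n % 2 ^ (P.K * P.ns) < 2 ^ (P.K * P.ns) := Nat.mod_lt _ (by positivity)
  have h2 : (P.ng n : ℤ) = 2 ^ (P.K * P.ns) - n % 2 ^ (P.K * P.ns) := by
    show ((P.o1 - (n &&& P.o1) + 1 : ℕ) : ℤ) = _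
    rw [hP.o1, Nat.and_two_pow_sub_one_eq_mod]
    have : ((n % 2 ^ (P.K * P.ns) : ℕ) : ℤ) = n % 2 ^ (P.K * P.ns) := by push_cast; rfl
    have e : ((2 ^ (P.K * P.ns) : ℕ) : ℤ) = 2 ^ (P.K * P.ns) := by push_cast; rfl
    omega
  rw [h2, ← zero_sub]
  exact (Int.modEq_zero_iff_dvd.2 dvd_rfl).sub (Int.mod_modEq _ _)

theorem DP.sm_eq (hP : P.Ok) (c : ℤ) (n : ℕ) : (P.sm c n : ℤ) ≡ c * n [ZMOD 2 ^ (P.K * P.ns)] := by
  rcases c with m | m
  · exact Int.ModEq.refl _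
  · refine (P.ng_eq hP ((m + 1) * n)).trans ?_
    rw [Int.negSucc_eq]; push_cast; rw [neg_mul]

theorem Lan.toN (hP : P.Ok) {N : ℤ} (h : Lan P.K P.ns v M N y) : LanN P v M (P.sm N 1) y :=
  ⟨N, h, by simpa using P.sm_eq hP N 1⟩

theorem LanN.mono (h : LanN P v M n y) (hM : M ≤ M') : LanN P v M' n y :=
  let ⟨N, h1, h2⟩ := h; ⟨N, h1.mono hM, h2⟩

theorem LanN.congr (h : LanN P v M n y) (hy : y = y') : LanN P v M n y' := hy ▸ h

theorem LanN.add (h : LanN P v M n y) (h' : LanN P v M' n' y') :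
    LanN P v (M + M') (Nat.add n n') (y + y') :=
  let ⟨_, h1, h2⟩ := h
  let ⟨_, g1, g2⟩ := h'
  ⟨_, h1.add g1, by rw [iadd_eq]; exact h2.add g2⟩

theorem LanN.smul (hP : P.Ok) (h : LanN P v M n y) (c : ℤ) :
    LanN P v (c.natAbs * M) (P.sm c n) (c * y) :=
  let ⟨_, h1, h2⟩ := h
  ⟨_, h1.smul c, by rw [imul_eq]; exact (P.sm_eq hP c n).trans (h2.mul_left c)⟩

private theorem t3n_lt {K : ℕ} {f : ℕ → ℕ} (hf : ∀ j, f j < 2 ^ K) (n : ℕ) :
    sumB K f n < 2 ^ (K * n) := by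
  induction n with
  | zero => simp [sumB]
  | succ n ih =>
    rw [sumB, Nat.mul_succ, pow_add]
    have := hf n
    nlinarith

private theorem t3n_dig {K : ℕ} : ∀ (j n : ℕ) (f : ℕ → ℕ), (∀ j, f j < 2 ^ K) → j < n →
    sumB K f n >>> (K * j) % 2 ^ K = f j
  | _, 0, _, _, h => absurd h (Nat.not_lt_zero _)
  | 0, n + 1, f, hf, _ => by
    rw [mul_zero, Nat.shiftRight_zero, s4s_low, Nat.mul_add_mod, Nat.mod_eq_of_lt (hf 0)]
  | j + 1, n + 1, f, hf, h => by
    rw [Nat.mul_succ, add_comm (K * j), Nat.shiftRight_add, s4s_shiftK _ _ _ (hf 0),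
      t3n_dig j n _ (fun j => hf _) (by omega)]

private theorem t3n_B (hP : P.Ok) : 2 ^ P.K = 8192 * P.h := by
  rw [hP.h, show 8192 = 2 ^ 13 from rfl, ← pow_add]
  congr 1
  have := hP.K
  omega

private theorem t3n_ms (hP : P.Ok) {f : ℕ → ℕ} (hf : ∀ j, f j ≤ 2 * P.h) (L : List ℕ) :
    P.ms (sumB P.K f P.ns) (mask P.K P.ns L) = ∑ j ∈ range P.ns, if j ∈ L then 0 else f j := by
  have hB := t3n_B hP
  have h0 : 0 < P.h := by rw [hP.h]; positivity
  have e : ∀ j, f j &&& (if j ∈ L then 0 else 2 ^ P.K - 1) = if j ∈ L then 0 else f j := fun j => by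
    split_ifs
    · simp
    · rw [Nat.and_two_pow_sub_one_eq_mod, Nat.mod_eq_of_lt (by have := hf j; omega)]
  show (sumB P.K f P.ns &&& mask P.K P.ns L) % P.bm = _
  rw [mask, s4s_land _ _ _ _ (fun j => by have := hf j; omega) (fun j => by split_ifs <;> omega),
    s4s_congr _ _ e, hP.bm, s4s_mod]
  refine Nat.mod_eq_of_lt ?_
  have := sum_le_card_nsmul (range P.ns) (fun j => if j ∈ L then 0 else f j) (2 * P.h)
    fun j _ => by have := hf j; split_ifs <;> omega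
  rw [card_range, smul_eq_mul] at this
  have h3 : P.ns * (2 * P.h) ≤ 4000 * (2 * P.h) := Nat.mul_le_mul_right _ hP.ns
  omega

private theorem t3n_key (hP : P.Ok) (h : LanN P v M n y) (hM : M < P.h) :
    ∃ a : ℕ → ℤ, (∀ j, |a j| ≤ M) ∧ y = ∑ j ∈ range P.ns, (a j : ℝ) * v j ∧
      P.bi n = sumB P.K (fun j => (a j + P.h).toNat) P.ns ∧
      P.ps (P.bi n) = sumB P.K (fun j => (a j).toNat) P.ns ∧ ∀ j < P.ns, P.ex (P.bi n) j = a j := by
  obtain ⟨_, ⟨a, ha, rfl, hy⟩, hn⟩ := h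
  have hB := t3n_B hP
  have hD : ∀ j, (a j + P.h).toNat < 2 * P.h := fun j => by
    have := abs_le.1 (ha j)
    omega
  have hD' : ∀ j, (((a j + P.h).toNat : ℕ) : ℤ) = a j + P.h := fun j => by
    have := abs_le.1 (ha j)
    omega
  have hD2 : ∀ j, (a j + P.h).toNat < 2 ^ P.K := fun j => by have := hD j; omega
  have e1 : P.bi n = sumB P.K (fun j => (a j + P.h).toNat) P.ns := by
    show (n + P.om) &&& P.o1 = _
    rw [hP.o1, Nat.and_two_pow_sub_one_eq_mod, ← Nat.mod_eq_of_lt (t3n_lt hD2 P.ns)]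
    refine (Int.natCast_modEq_iff (n := 2 ^ (P.K * P.ns))).1 ?_
    rw [hP.om, ← hP.h, s4s_sum, s4s_sum]
    push_cast
    simp only [hD', add_mul, sum_add_distrib]
    exact hn.add_right _
  refine ⟨a, ha, hy, e1, ?_, fun j hj => ?_⟩
  · have e2 : P.bi n &&& P.om = sumB P.K
        (fun j => 2 ^ (P.K - 13) * if P.h ≤ (a j + P.h).toNat then 1 else 0) P.ns := by
      rw [e1, hP.om, s4s_land _ _ _ _ hD2 (fun j => by rw [← hP.h]; omega)]
      rw [hP.h] at hD ⊢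
      exact s4s_congr _ _ fun j => (s4s_digit (hD j)).1
    show P.bi n &&& ((P.bi n &&& P.om) - (P.bi n &&& P.om) >>> P.hs) = _
    rw [e2, hP.hs, s4s_shift, s4s_sub _ _ _ _ (fun j => Nat.le_mul_of_pos_left _ (by positivity)), e1,
      s4s_land _ _ _ _ hD2 (fun j => by rw [← hP.h]; split_ifs <;> omega)]
    refine s4s_congr _ _ fun j => ?_
    rw [hP.h] at hD ⊢
    rw [(s4s_digit (hD j)).2]
    generalize 2 ^ (P.K - 13) = z
    omega
  · show snn (P.bi n >>> (P.K * j) &&& P.bm) P.h = _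
    rw [hP.bm, Nat.and_two_pow_sub_one_eq_mod, e1, t3n_dig j _ _ hD2 hj, snn_eq, hD']
    ring

theorem LanN.ex_le (hP : P.Ok) (h : LanN P v M n y) (hM : M < P.h) {j : ℕ} (hj : j < P.ns) :
    (P.ex (P.bi n) j).natAbs ≤ M := by
  obtain ⟨a, h1, -, -, -, h5⟩ := t3n_key hP h hM
  have := abs_le.1 (h1 j)
  rw [h5 j hj]
  omega

theorem LanN.abs_le (hP : P.Ok) (h : LanN P v M n y) (hM : M < P.h) {η : ℝ} (hv : ∀ j, |v j| ≤ η)
    {L : List ℕ} (hL : L.Nodup) (hL' : ∀ j ∈ L, j < P.ns) :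
    |y - (L.map fun j => (P.ex (P.bi n) j : ℝ) * v j).sum| ≤
      η * P.ab (P.bi n) (mask P.K P.ns L) := by
  obtain ⟨a, h1, rfl, h3, h4, h5⟩ := t3n_key hP h hM
  have b : ∀ j, (a j).natAbs < P.h := fun j => by have := _root_.abs_le.1 (h1 j); omega
  have e : P.ab (P.bi n) (mask P.K P.ns L) =
      ∑ j ∈ range P.ns, if j ∈ L then 0 else (a j).natAbs := by
    show 2 * P.ms _ _ + P.ms _ _ - P.ms _ _ = _
    rw [h4, h3, hP.om, ← hP.h, t3n_ms hP (fun j => by have := b j; omega),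
      t3n_ms hP (fun j => by omega), t3n_ms hP (fun j => by have := b j; omega)]
    refine Nat.sub_eq_of_eq_add ?_
    rw [mul_sum, ← sum_add_distrib, ← sum_add_distrib]
    exact sum_congr rfl fun j _ => by have := b j; split_ifs <;> omega
  have e' : (L.map fun j => (P.ex (P.bi n) j : ℝ) * v j).sum =
      ∑ j ∈ range P.ns, if j ∈ L then (a j : ℝ) * v j else 0 := by
    rw [← sum_filter, ← List.sum_toFinset _ hL]
    refine sum_congr (by ext j; simpa using hL' j) fun j hj => ?_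
    rw [h5 j (mem_range.1 (mem_filter.1 hj).1)]
  rw [e, e', ← sum_sub_distrib, Nat.cast_sum, mul_sum]
  refine (abs_sum_le_sum_abs _ _).trans (sum_le_sum fun j _ => ?_)
  split_ifs
  · simp
  · rw [sub_zero, abs_mul, mul_comm, Nat.cast_natAbs, Int.cast_abs]
    exact mul_le_mul_of_nonneg_right (hv j) (abs_nonneg _)

theorem LanN.lo_le (hP : P.Ok) {s t : ℝ} (hs : |s| ≤ 1) (ht : |t| ≤ 1)
    (h : LanN P (mon P.n s t) M n y) (hM : M < P.h) :
    ((Nat.mod (P.bi n) P.bm : ℕ) : ℝ) - P.lo1 (P.ps (P.bi n)) ≤ y := by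
  obtain ⟨a, h1, rfl, h3, h4, -⟩ := t3n_key hP h hM
  have b : ∀ j, (a j).natAbs < P.h := fun j => by have := _root_.abs_le.1 (h1 j); omega
  have e2 : Nat.mod (P.bi n) P.bm = ∑ j ∈ range P.ns, (a j + P.h).toNat := by
    show P.bi n % P.bm = _
    rw [h3, hP.bm, s4s_mod]
    refine Nat.mod_eq_of_lt ?_
    have := sum_le_card_nsmul (range P.ns) (fun j => (a j + P.h).toNat) (2 * P.h)
      fun j _ => by have := b j; omega
    rw [card_range, smul_eq_mul] at this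
    have h3 : P.ns * (2 * P.h) ≤ 4000 * (2 * P.h) := Nat.mul_le_mul_right _ hP.ns
    have := t3n_B hP
    omega
  have e3 : P.lo1 (P.ps (P.bi n)) = ∑ j ∈ range P.ns, (P.h + (if j ∈ [0] then 0 else (a j).toNat) +
      if j ∈ [0, 2, P.n * 2] then 0 else (a j).toNat) := by
    show P.ns * P.h + P.ms _ _ + P.ms _ _ = _
    rw [h4, hP.m1, hP.m2, t3n_ms hP (fun j => by have := b j; omega),
      t3n_ms hP (fun j => by have := b j; omega), sum_add_distrib, sum_add_distrib]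
    simp
  rw [e2, e3, Nat.cast_sum, Nat.cast_sum, ← sum_sub_distrib]
  refine sum_le_sum fun j _ => ?_
  have h5 := hP.n
  have h6 := hP.D
  obtain ⟨m3, m4⟩ := _root_.abs_le.1 (mon_abs (n := P.n) hs ht j)
  have q0 : (((a j + P.h).toNat : ℕ) : ℝ) = a j + P.h := by
    have : (((a j + P.h).toNat : ℕ) : ℤ) = a j + P.h := by have := b j; omega
    exact_mod_cast this
  rw [q0]
  by_cases j0 : j = 0
  · subst j0; simp [mon]
  rw [if_neg (by simpa using j0)]
  rcases le_total 0 (a j) with p | p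
  · have q : (((a j).toNat : ℕ) : ℝ) = a j := by exact_mod_cast Int.toNat_of_nonneg p
    have p' : (0 : ℝ) ≤ a j := by exact_mod_cast p
    split_ifs with hev
    · have : 0 ≤ mon P.n s t j := by
        simp only [List.mem_cons, List.not_mem_nil, or_false, j0, false_or] at hev
        rcases hev with rfl | rfl
        · simp [mon, Nat.mod_eq_of_lt (show 2 < P.n by omega),
            Nat.div_eq_of_lt (show 2 < P.n by omega), sq_nonneg]
        · simp [mon, Nat.mul_div_cancel_left 2 (show 0 < P.n by omega), sq_nonneg]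
      push_cast; rw [q]; nlinarith
    · push_cast; rw [q]; nlinarith
  · have p' : (a j : ℝ) ≤ 0 := by exact_mod_cast p
    rw [Int.toNat_of_nonpos p, ite_self]
    push_cast
    nlinarith

end

/-- Weights of the odd part. -/
def w1 (δ : ℤ) (N : ℕ) : ℤ := (1 + δ) ^ N - (1 - δ) ^ N

/-- Weights of the even part without its value at the centre. -/
def w2 (δ : ℤ) (N : ℕ) : ℤ := (1 + δ) ^ N + (1 - δ) ^ N - 2

/-- Weights of the odd part without its linear term. -/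
def w3 (δ : ℤ) (N : ℕ) : ℤ := w1 δ N - 2 * N * δ

/-- Bounds for the values `p`, `m` at two opposite points, the value `z` at the centre and the
linear term `l`. -/
structure St (δ : ℤ) (η : ℝ) (N : ℕ) (p m z l : ℝ) : Prop where
  n1 : 0 ≤ w1 δ N
  n2 : 0 ≤ w2 δ N
  n3 : 0 ≤ w3 δ N
  b0 : |p + m| ≤ w2 δ N + 2
  b1 : |p - m| ≤ η * w1 δ N
  b2 : |p + m - 2 * z| ≤ η ^ 2 * w2 δ N
  b3 : |p - m - 2 * l| ≤ η ^ 3 * w3 δ N

private theorem t3n_comb {a d x y X Y e : ℝ} (ha : |a| ≤ 1) (hd : |d| ≤ e) (hx : |x| ≤ X)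
    (hy : |y| ≤ Y) : |a * x + d * y| ≤ X + e * Y := by
  refine (abs_add_le _ _).trans (add_le_add ?_ ?_)
  · rw [abs_mul]; exact (mul_le_of_le_one_left (abs_nonneg _) ha).trans hx
  · rw [abs_mul]; exact mul_le_mul hd hy (abs_nonneg _) ((abs_nonneg _).trans hd)

theorem St.step {δ : ℤ} {η : ℝ} {N : ℕ} {p m z l a d : ℝ} (h : St δ η N p m z l) (hδ : 0 ≤ δ)
    (h0 : 0 ≤ η) (h1 : η ≤ 1) (ha : |a| ≤ 1) (hd : |d| ≤ η * δ) :
    St δ η (N + 1) ((a + d) * p) ((a - d) * m) (a * z) (a * l + d * z) := by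
  have e1 : w1 δ (N + 1) = w1 δ N + δ * (w2 δ N + 2) := by simp only [w1, w2]; ring
  have e2 : w2 δ (N + 1) = w2 δ N + δ * w1 δ N := by simp only [w1, w2]; ring
  have e3 : w3 δ (N + 1) = w3 δ N + δ * w2 δ N := by simp only [w3, e1]; push_cast; ring
  have n1 := h.n1
  have n2 := h.n2
  have n3 := h.n3
  refine ⟨by rw [e1]; positivity, by rw [e2]; positivity, by rw [e3]; positivity, ?_, ?_, ?_, ?_⟩
  · have r : (0 : ℝ) ≤ δ * w1 δ N := by positivity
    have := t3n_comb ha hd h.b0 h.b1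
    rw [e2, show (a + d) * p + (a - d) * m = a * (p + m) + d * (p - m) by ring]
    push_cast
    nlinarith [mul_le_mul_of_nonneg_right (mul_le_one₀ h1 h0 h1) r]
  · have := t3n_comb ha hd h.b1 h.b0
    rw [e1, show (a + d) * p - (a - d) * m = a * (p - m) + d * (p + m) by ring]
    push_cast
    linarith
  · have := t3n_comb ha hd h.b2 h.b1
    rw [e2, show (a + d) * p + (a - d) * m - 2 * (a * z) = a * (p + m - 2 * z) + d * (p - m) by ring]
    push_cast
    linarith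
  · have := t3n_comb ha hd h.b3 h.b2
    rw [e3, show (a + d) * p - (a - d) * m - 2 * (a * l + d * z) =
      a * (p - m - 2 * l) + d * (p + m - 2 * z) by ring]
    push_cast
    linarith

theorem St.pow {δ : ℤ} {η : ℝ} {N : ℕ} {p m z l a d : ℝ} (h : St δ η N p m z l) (hδ : 0 ≤ δ)
    (h0 : 0 ≤ η) (h1 : η ≤ 1) (ha : |a| ≤ 1) (hd : |d| ≤ η * δ) : ∀ i : ℕ,
    St δ η (N + i) ((a + d) ^ i * p) ((a - d) ^ i * m) (a ^ i * z)
      (a ^ i * l + d * (i * a ^ (i - 1)) * z)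
  | 0 => by simpa using h
  | i + 1 => by
    have := (h.pow hδ h0 h1 ha hd i).step hδ h0 h1 ha hd
    have e : a * (i * a ^ (i - 1)) = i * a ^ i := by
      cases i with
      | zero => simp
      | succ i => rw [Nat.add_sub_cancel]; ring
    convert this using 1
    · rfl
    · ring
    · ring
    · ring
    · rw [Nat.add_sub_cancel]; push_cast; linear_combination -(d * z) * e

/-- The derivative of the monomial of lane `j` in the first variable. -/
noncomputable def mon1 (n : ℕ) (s t : ℝ) (j : ℕ) : ℝ :=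
  ((j % n : ℕ) : ℝ) * (s ^ (j % n - 1) * t ^ (j / n))

/-- The derivative of the monomial of lane `j` in the second variable. -/
noncomputable def mon2 (n : ℕ) (s t : ℝ) (j : ℕ) : ℝ :=
  ((j / n : ℕ) : ℝ) * (s ^ (j % n) * t ^ (j / n - 1))

theorem St.mon {δ : ℤ} {η s t d1 d2 : ℝ} (hδ : 0 ≤ δ) (h0 : 0 ≤ η) (h1 : η ≤ 1) (hs : |s| ≤ 1)
    (ht : |t| ≤ 1) (g1 : |d1| ≤ η * δ) (g2 : |d2| ≤ η * δ) (n j : ℕ) :
    St δ η (j % n + j / n) (mon n (s + d1) (t + d2) j) (mon n (s - d1) (t - d2) j) (mon n s t j)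
      (d1 * mon1 n s t j + d2 * mon2 n s t j) := by
  have b : St δ η 0 1 1 1 0 := by
    constructor <;> simp [w1, w2, w3] <;> norm_num
  have := (b.pow hδ h0 h1 ht g2 (j / n)).pow hδ h0 h1 hs g1 (j % n)
  convert this using 1
  · ring
  all_goals simp only [Dg.mon, mon1, mon2]; ring

/-- Normalised odd parts. -/
noncomputable def v1 (n : ℕ) (δ : ℤ) (s t d1 d2 : ℝ) (j : ℕ) : ℝ :=
  (mon n (s + d1) (t + d2) j - mon n (s - d1) (t - d2) j) / w1 δ (j % n + j / n)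

/-- Normalised even parts without the value at the centre. -/
noncomputable def v2 (n : ℕ) (δ : ℤ) (s t d1 d2 : ℝ) (j : ℕ) : ℝ :=
  (mon n (s + d1) (t + d2) j + mon n (s - d1) (t - d2) j - 2 * mon n s t j) / w2 δ (j % n + j / n)

/-- Normalised odd parts without the linear term. -/
noncomputable def v3 (n : ℕ) (δ : ℤ) (s t d1 d2 : ℝ) (j : ℕ) : ℝ :=
  (mon n (s + d1) (t + d2) j - mon n (s - d1) (t - d2) j -
    2 * (d1 * mon1 n s t j + d2 * mon2 n s t j)) / w3 δ (j % n + j / n)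

theorem t3n_div {x η : ℝ} {w : ℤ} (hw : 0 ≤ w) (hη : 0 ≤ η) (h : |x| ≤ η * w) :
    |x / w| ≤ η ∧ w * (x / w) = x := by
  rcases hw.eq_or_lt with rfl | hw
  · have : x = 0 := by simpa using h
    simp [this, hη]
  · have : (0 : ℝ) < w := by exact_mod_cast hw
    exact ⟨by rwa [abs_div, abs_of_pos this, div_le_iff₀ this], by field_simp⟩

/-- The numbers attached to one polynomial. -/
structure En where
  P0 : ℤ
  D1 : ℤ
  D2 : ℤ
  R3 : ℤ
  R2 : ℤ
  R1 : ℤ

/-- The numbers describe a polynomial with the values `yp`, `ym` at `(s, t) ± (d1, d2)`. -/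
def En.Ok (P : DP) (δ : ℤ) (s t d1 d2 : ℝ) (M : ℕ) (e : En) (yp ym : ℝ) : Prop :=
  ∃ y0 y1 y2 : ℝ, Lan P.K P.ns (mon P.n s t) M e.P0 y0 ∧ Lan P.K P.ns (mon P.n s t) M e.D1 y1 ∧
    Lan P.K P.ns (mon P.n s t) M e.D2 y2 ∧
    Lan P.K P.ns (v3 P.n δ s t d1 d2) M e.R3 (yp - ym - 2 * (d1 * y1 + d2 * y2)) ∧
    Lan P.K P.ns (v2 P.n δ s t d1 d2) M e.R2 (yp + ym - 2 * y0) ∧
    Lan P.K P.ns (v1 P.n δ s t d1 d2) M e.R1 (yp - ym)

/-- The derivative of a row. -/
noncomputable def rowD (x : ℤ) (l : List ℤ) : ℕ → ℤ :=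
  @List.rec ℤ (fun _ => ℕ → ℤ) (fun _ => Int.ofNat 0)
    (fun c _ r i => iadd (ism i c) (imul x (r (Nat.succ i)))) l

/-- The derivative in the first variable. -/
noncomputable def der1 (x y : ℤ) (l : List (List ℤ)) : ℤ :=
  @List.rec (List ℤ) (fun _ => ℤ) (Int.ofNat 0)
    (fun c _ r => iadd (rowD x c.tail 1) (imul y r)) l

/-- The derivative in the second variable. -/
noncomputable def der2 (x y : ℤ) (l : List (List ℤ)) : ℕ → ℤ :=
  @List.rec (List ℤ) (fun _ => ℕ → ℤ) (fun _ => Int.ofNat 0)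
    (fun c _ r i => iadd (ism i (opsZ.h1 x c)) (imul y (r (Nat.succ i)))) l

theorem homZR : opsZ.Hom opsR (Int.cast : ℤ → ℝ) :=
  ⟨fun a b => by show ((iadd a b : ℤ) : ℝ) = a + b; rw [iadd_eq, Int.cast_add],
    fun a b => by show ((isub a b : ℤ) : ℝ) = a - b; rw [isub_eq, Int.cast_sub],
    fun a b => by show ((imul a b : ℤ) : ℝ) = a * b; rw [imul_eq, Int.cast_mul],
    fun a b => by show ((imul a b : ℤ) : ℝ) = a * b; rw [imul_eq, Int.cast_mul],
    Int.cast_one⟩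

theorem rowD_der (x : ℤ) : ∀ (l : List ℤ) (i : ℕ),
    HasDerivAt (fun a : ℝ => a ^ (i + 1) * opsR.h1 a l) (x ^ i * rowD x l (i + 1)) x
  | [], i => by
    simp only [opsR_h1_nil, mul_zero]
    exact (hasDerivAt_const _ _).congr_deriv (by show _ = _ * ((0 : ℤ) : ℝ); simp)
  | c :: l, i => by
    have h := ((hasDerivAt_pow (i + 1) (x : ℝ)).mul_const (c : ℝ)).fun_add (rowD_der x l (i + 1))
    have e : rowD x (c :: l) (i + 1) = iadd (ism (i + 1) c) (imul x (rowD x l (i + 1 + 1))) := rfl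
    rw [e, iadd_eq, ism_eq, imul_eq]
    simp only [opsR_h1_cons, mul_add, ← mul_assoc, ← pow_succ]
    exact h.congr_deriv (by push_cast; ring)

theorem der1_der (x y : ℤ) : ∀ l : List (List ℤ),
    HasDerivAt (fun a : ℝ => opsR.h2 a y l) (der1 x y l) x
  | [] => by
    simp only [opsR_h2_nil]
    exact (hasDerivAt_const _ _).congr_deriv (by show _ = ((0 : ℤ) : ℝ); simp)
  | c :: l => by
    have h1 : HasDerivAt (fun a : ℝ => opsR.h1 a c) (rowD x c.tail 1) x := by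
      cases c with
      | nil =>
        simp only [opsR_h1_nil]
        exact (hasDerivAt_const _ _).congr_deriv (by show _ = ((0 : ℤ) : ℝ); simp)
      | cons b c =>
        have := (rowD_der x c 0).const_add (b : ℝ)
        simpa [opsR_h1_cons] using this
    have e : der1 x y (c :: l) = iadd (rowD x c.tail 1) (imul y (der1 x y l)) := rfl
    rw [e, iadd_eq, imul_eq]
    simp only [opsR_h2_cons]
    push_cast
    exact h1.fun_add ((der1_der x y l).const_mul _)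

theorem der2_aux (x y : ℤ) : ∀ (l : List (List ℤ)) (i : ℕ),
    HasDerivAt (fun b : ℝ => b ^ (i + 1) * opsR.h2 x b l) (y ^ i * der2 x y l (i + 1)) y
  | [], i => by
    simp only [opsR_h2_nil, mul_zero]
    exact (hasDerivAt_const _ _).congr_deriv (by show _ = _ * ((0 : ℤ) : ℝ); simp)
  | c :: l, i => by
    have h := ((hasDerivAt_pow (i + 1) (y : ℝ)).mul_const (opsR.h1 x c)).fun_add
      (der2_aux x y l (i + 1))
    have e : der2 x y (c :: l) (i + 1) =
      iadd (ism (i + 1) (opsZ.h1 x c)) (imul y (der2 x y l (i + 1 + 1))) := rfl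
    rw [e, iadd_eq, ism_eq, imul_eq]
    simp only [opsR_h2_cons, mul_add, ← mul_assoc, ← pow_succ]
    exact h.congr_deriv (by push_cast; rw [homZR.h1]; ring)

theorem der2_der (x y : ℤ) (l : List (List ℤ)) :
    HasDerivAt (fun b : ℝ => opsR.h2 x b l) (der2 x y l.tail 1) y := by
  cases l with
  | nil =>
    simp only [opsR_h2_nil]
    exact (hasDerivAt_const _ _).congr_deriv (by show _ = ((0 : ℤ) : ℝ); simp)
  | cons c l =>
    have := (der2_aux x y l 0).const_add (opsR.h1 x c)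
    simpa [opsR_h2_cons] using this

theorem rep_sum {K n g : ℕ} (c : ℕ → ℤ) (I J : ℕ → ℕ) (hc : ∀ j, c j ≠ 0 → I j + J j ≤ g)
    (ns : ℕ) : Rep2 K n g (∑ j ∈ range ns, (c j).natAbs)
      (∑ j ∈ range ns, c j * 2 ^ (K * (I j + n * J j)))
      fun s t => ∑ j ∈ range ns, (c j : ℝ) * (s ^ I j * t ^ J j) := by
  induction ns with
  | zero => exact ⟨[], by simp, by simp, by simp, by simp⟩
  | succ m ih =>
    simp only [sum_range_succ]
    by_cases h : c m = 0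
    · simpa [h] using ih
    · have h1 : Rep2 K n g (c m).natAbs (c m * 2 ^ (K * (I m + n * J m)))
          fun s t => (c m : ℝ) * (s ^ I m * t ^ J m) :=
        ⟨[(c m, I m, J m)], by simpa using hc m h, by simp, by simp, by simp⟩
      simpa using ih.add h1

/-- The numbers from the values at three points and the two derivatives. -/
noncomputable def mkE1 (P : DP) (δ : ℕ) (Pp Pm P0 D1 D2 : ℤ) : En :=
  ⟨P0, D1, D2, isub (isub Pp Pm) (ism (Nat.mul 2 δ) (iadd (ishl D1 P.K) (ishl D2 (Nat.mul P.K P.n)))),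
    isub (iadd Pp Pm) (ishl P0 1), isub Pp Pm⟩

/-- The numbers for given packed variables. -/
noncomputable def mkE0 (P : DP) (δ a b : ℕ) (x y u w : ℤ) (Q : List (List ℤ)) : En :=
  mkE1 P δ (ishl (opsZ.h2 (imul u x) (imul u y) Q) b) (ishl (opsZ.h2 (imul w x) (imul w y) Q) b)
    (ishl (opsZ.h2 x y Q) b) (ishl (der1 x y Q) a) (ishl (der2 x y Q.tail 1) a)

/-- The numbers of the polynomial `Q` in the variables divided by `2 ^ k`. -/
noncomputable def mkE (P : DP) (δ k : ℕ) (Q : List (List ℤ)) : En :=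
  mkE0 P δ (Nat.mul k P.D) (Nat.mul k (Nat.succ P.D))
    (Int.ofNat (Nat.shiftLeft 1 (Nat.sub P.K k)))
    (Int.ofNat (Nat.shiftLeft 1 (Nat.sub (Nat.mul P.K P.n) k)))
    (Int.ofNat (Nat.succ δ)) (snn 1 δ) Q

private theorem t3n_w {δ : ℤ} {r : ℕ} (h1 : 1 ≤ δ) (h2 : 2 * δ ≤ r) (N : ℕ) :
    w1 δ N ≤ 2 * r ^ N ∧ w2 δ N ≤ 2 * r ^ N ∧ w3 δ N ≤ 2 * r ^ N := by
  have a : (1 + δ) ^ N ≤ r ^ N := pow_le_pow_left₀ (by omega) (by omega) N
  have b : |(1 - δ) ^ N| ≤ r ^ N := by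
    rw [abs_pow]; exact pow_le_pow_left₀ (abs_nonneg _) (abs_le.2 ⟨by omega, by omega⟩) N
  have c : 0 ≤ 2 * N * δ := by positivity
  have := abs_le.1 b
  unfold w3 w1 w2
  exact ⟨by linarith, by linarith, by linarith⟩

theorem mkE_ok {P : DP} (hP : P.Ok) {δ k MQ : ℕ} {Q : List (List ℤ)} {N : ℤ}
    (hQ : Rep2 P.K P.n (P.D + 1) MQ N fun s t => opsR.h2 s t Q) (h1 : 1 ≤ δ) (h2 : 2 * δ ≤ 2 ^ k)
    (hk : k ≤ P.K) {s t d1 d2 : ℝ} (hs : |s| ≤ 1) (ht : |t| ≤ 1) (g1 : |d1| ≤ δ) (g2 : |d2| ≤ δ) :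
    (mkE P δ k Q).Ok P δ s t d1 d2 (P.ns * P.n * MQ * 2 ^ (k * (P.D + 1)))
      (2 ^ (k * (P.D + 1)) * opsR.h2 ((s + d1) / 2 ^ k) ((t + d2) / 2 ^ k) Q)
      (2 ^ (k * (P.D + 1)) * opsR.h2 ((s - d1) / 2 ^ k) ((t - d2) / 2 ^ k) Q) := by
  have hn := hP.n
  have hns := hP.ns'
  obtain ⟨c, c1, c0, -, c3⟩ := hQ.slots hn hns
  obtain ⟨b, hb⟩ : ∃ b : ℕ → ℤ, b = fun j => c j * (2 ^ k) ^ (P.D + 1 - (j % P.n + j / P.n)) :=
    ⟨_, rfl⟩
  have b0 : ∀ j, b j ≠ 0 → j % P.n + j / P.n ≤ P.D + 1 := fun j h =>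
    not_lt.1 fun h' => h (by simp [hb, c0 j h'])
  have G : ∀ x y : ℝ, 2 ^ (k * (P.D + 1)) * opsR.h2 (x / 2 ^ k) (y / 2 ^ k) Q =
      ∑ j ∈ range P.ns, (b j : ℝ) * mon P.n x y j := fun x y => by
    rw [c3, mul_sum]
    refine sum_congr rfl fun j _ => ?_
    rcases lt_or_ge (P.D + 1) (j % P.n + j / P.n) with h | h
    · simp [hb, c0 j h]
    · obtain ⟨u, hu⟩ := Nat.exists_eq_add_of_le h
      simp only [hb, mon]
      rw [hu, Nat.add_sub_cancel_left, div_pow, div_pow]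
      push_cast
      field_simp
      ring
  have bw : ∀ j, ∀ w : ℤ, 0 ≤ w → w ≤ 2 * ((2 ^ k : ℕ) : ℤ) ^ (j % P.n + j / P.n) →
      |b j * w| ≤ 2 * MQ * 2 ^ (k * (P.D + 1)) := fun j w h0 hw => by
    by_cases h : b j = 0
    · rw [h, zero_mul, abs_zero]; positivity
    · obtain ⟨u, hu⟩ := Nat.exists_eq_add_of_le (b0 j h)
      simp only [hb]
      rw [hu, Nat.add_sub_cancel_left, abs_mul, abs_mul, abs_of_nonneg h0, abs_of_nonneg
        (show (0 : ℤ) ≤ (2 ^ k) ^ u by positivity)]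
      refine (mul_le_mul (mul_le_mul_of_nonneg_right (c1 j) (by positivity)) hw h0
        (by positivity)).trans_eq ?_
      push_cast
      ring
  have hM : 2 * MQ * 2 ^ (k * (P.D + 1)) ≤ P.ns * P.n * MQ * 2 ^ (k * (P.D + 1)) :=
    Nat.mul_le_mul_right _ (Nat.mul_le_mul_right _ (by nlinarith [hP.D]))
  have hM' : ∀ j, ∀ w : ℤ, 0 ≤ w → w ≤ 2 * ((2 ^ k : ℕ) : ℤ) ^ (j % P.n + j / P.n) →
      |b j * w| ≤ (P.ns * P.n * MQ * 2 ^ (k * (P.D + 1)) : ℕ) := fun j w h0 hw =>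
    (bw j w h0 hw).trans (by exact_mod_cast hM)
  have bs : ∀ I : ℕ → ℕ, (∀ j, b j ≠ 0 → I j ≤ P.D + 1) → ∑ j ∈ range P.ns, (b j * I j).natAbs ≤
      P.ns * P.n * MQ * 2 ^ (k * (P.D + 1)) := fun I hI => by
    refine (sum_le_card_nsmul _ _ (P.n * MQ * 2 ^ (k * (P.D + 1))) fun j _ => ?_).trans_eq
      (by simp [mul_assoc])
    by_cases h : b j = 0
    · simp [h]
    · have a1 := bw j 2 (by norm_num) (le_mul_of_one_le_right (by norm_num)
        (one_le_pow₀ (by exact_mod_cast Nat.one_le_two_pow)))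
      have a2 : (b j).natAbs ≤ MQ * 2 ^ (k * (P.D + 1)) := by
        rw [abs_mul, abs_two] at a1
        zify
        linarith
      rw [Int.natAbs_mul, Int.natAbs_natCast, mul_comm, mul_assoc]
      exact Nat.mul_le_mul (by have := hI j h; omega) a2
  obtain ⟨B, hB⟩ : ∃ B : ℝ, B = 2 ^ P.K := ⟨_, rfl⟩
  have mB : ∀ (γ : ℝ) j, mon P.n (γ * B) (γ * B ^ P.n) j =
      γ ^ (j % P.n + j / P.n) * 2 ^ (P.K * j) := fun γ j => by
    rw [mon, mul_pow, mul_pow, ← pow_mul, pow_mul 2, ← hB]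
    conv_rhs => rw [← Nat.mod_add_div j P.n]
    simp only [Nat.mod_add_div]
    rw [show B ^ j = B ^ (j % P.n) * B ^ (P.n * (j / P.n)) by rw [← pow_add, Nat.mod_add_div]]
    ring
  obtain ⟨x, hx⟩ : ∃ x, x = Int.ofNat (Nat.shiftLeft 1 (Nat.sub P.K k)) := ⟨_, rfl⟩
  obtain ⟨y, hy⟩ : ∃ y, y = Int.ofNat (Nat.shiftLeft 1 (Nat.sub (Nat.mul P.K P.n) k)) := ⟨_, rfl⟩
  have ex : (x : ℝ) = B / 2 ^ k := by
    rw [hx, hB, eq_div_iff (by positivity)]
    show (((1 <<< (P.K - k) : ℕ) : ℤ) : ℝ) * _ = _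
    rw [Nat.one_shiftLeft]; push_cast; rw [← pow_add, Nat.sub_add_cancel hk]
  have ey : (y : ℝ) = B ^ P.n / 2 ^ k := by
    rw [hy, hB, eq_div_iff (by positivity)]
    show (((1 <<< (P.K * P.n - k) : ℕ) : ℤ) : ℝ) * _ = _
    rw [Nat.one_shiftLeft]; push_cast
    rw [← pow_add, Nat.sub_add_cancel (hk.trans (Nat.le_mul_of_pos_right _ (by omega))), pow_mul]
  have eP : ∀ γ : ℤ, (ishl (opsZ.h2 (imul γ x) (imul γ y) Q) (k * (P.D + 1)) : ℝ) =
      ∑ j ∈ range P.ns, (b j : ℝ) * (γ ^ (j % P.n + j / P.n) * 2 ^ (P.K * j)) := fun γ => by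
    simp only [← mB]
    rw [← G, ishl_eq, Int.cast_mul, homZR.h2, imul_eq, imul_eq]
    push_cast
    rw [ex, ey, mul_comm, mul_div_assoc, mul_div_assoc]
  have e0 : (ishl (opsZ.h2 x y Q) (k * (P.D + 1)) : ℝ) =
      ∑ j ∈ range P.ns, (b j : ℝ) * 2 ^ (P.K * j) := by
    simpa [imul_eq] using eP 1
  have pw : (2 : ℝ) ^ (k * (P.D + 1)) * (1 / 2 ^ k) = 2 ^ (k * P.D) := by
    rw [mul_add, mul_one, pow_add]; field_simp
  have e1 : (ishl (der1 x y Q) (k * P.D) : ℝ) =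
      ∑ j ∈ range P.ns, (b j : ℝ) * mon1 P.n B (B ^ P.n) j := by
    have a1 := (((der1_der x y Q).comp_of_eq B ((hasDerivAt_id B).div_const (2 ^ k)) ex).const_mul
      (2 ^ (k * (P.D + 1))))
    have a2 : HasDerivAt (fun a => ∑ j ∈ range P.ns, (b j : ℝ) * mon P.n a (B ^ P.n) j)
        (∑ j ∈ range P.ns, (b j : ℝ) * mon1 P.n B (B ^ P.n) j) B :=
      HasDerivAt.fun_sum fun j _ => (((hasDerivAt_pow (j % P.n) B).mul_const _).const_mul
        _).congr_deriv (by rw [mon1, mul_assoc])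
    simp only [← G, ← ey] at a2
    rw [← a1.unique a2, ishl_eq, Int.cast_mul, Int.cast_pow, Int.cast_ofNat, ← pw]
    ring
  have e2 : (ishl (der2 x y Q.tail 1) (k * P.D) : ℝ) =
      ∑ j ∈ range P.ns, (b j : ℝ) * mon2 P.n B (B ^ P.n) j := by
    have a1 := (((der2_der x y Q).comp_of_eq (B ^ P.n)
      ((hasDerivAt_id (B ^ P.n)).div_const (2 ^ k)) ey).const_mul (2 ^ (k * (P.D + 1))))
    have a2 : HasDerivAt (fun a => ∑ j ∈ range P.ns, (b j : ℝ) * mon P.n B a j)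
        (∑ j ∈ range P.ns, (b j : ℝ) * mon2 P.n B (B ^ P.n) j) (B ^ P.n) :=
      HasDerivAt.fun_sum fun j _ => (((hasDerivAt_pow (j / P.n) (B ^ P.n)).const_mul _).const_mul
        _).congr_deriv (by rw [mon2]; ring)
    simp only [← G, ← ex] at a2
    rw [← a1.unique a2, ishl_eq, Int.cast_mul, Int.cast_pow, Int.cast_ofNat, ← pw]
    ring
  have eu : ∀ j, B * mon1 P.n B (B ^ P.n) j + B ^ P.n * mon2 P.n B (B ^ P.n) j =
      (j % P.n + j / P.n : ℕ) * 2 ^ (P.K * j) := fun j => by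
    have e : ∀ (a : ℝ) (i : ℕ), a * (i * a ^ (i - 1)) = i * a ^ i := fun a i => by
      cases i with
      | zero => simp
      | succ i => rw [Nat.add_sub_cancel]; ring
    have := mB 1 j
    rw [one_mul, one_mul, one_pow, one_mul] at this
    rw [← this, mon, mon1, mon2]
    push_cast
    linear_combination (B ^ P.n) ^ (j / P.n) * e B (j % P.n) + B ^ (j % P.n) * e (B ^ P.n) (j / P.n)
  have st := fun j => St.mon (δ := δ) (η := 1) (by positivity) zero_le_one le_rfl hs ht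
    (by simpa using g1) (by simpa using g2) P.n j
  have wb := fun j => t3n_w (δ := δ) (r := 2 ^ k) (by exact_mod_cast h1) (by exact_mod_cast h2)
    (j % P.n + j / P.n)
  have u1 : ((Int.ofNat (Nat.succ δ) : ℤ) : ℝ) = 1 + δ := by simp [add_comm]
  have u2 : ((snn 1 δ : ℤ) : ℝ) = 1 - δ := by simp [snn_eq]
  have ee : mkE P δ k Q = mkE1 P δ
      (ishl (opsZ.h2 (imul (Int.ofNat (Nat.succ δ)) x) (imul (Int.ofNat (Nat.succ δ)) y) Q)
        (k * (P.D + 1))) (ishl (opsZ.h2 (imul (snn 1 δ) x) (imul (snn 1 δ) y) Q) (k * (P.D + 1)))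
      (ishl (opsZ.h2 x y Q) (k * (P.D + 1))) (ishl (der1 x y Q) (k * P.D))
      (ishl (der2 x y Q.tail 1) (k * P.D)) := by rw [hx, hy]; rfl
  have ep := eP (Int.ofNat (Nat.succ δ))
  have em := eP (snn 1 δ)
  rw [u1] at ep
  rw [u2] at em
  rw [ee, G, G]
  generalize ishl (opsZ.h2 (imul (Int.ofNat (Nat.succ δ)) x) _ Q) _ = Pp at ep
  generalize ishl (opsZ.h2 (imul (snn 1 δ) x) _ Q) _ = Pm at em
  generalize ishl (opsZ.h2 x y Q) _ = P0 at e0
  generalize ishl (der1 x y Q) _ = D1 at e1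
  generalize ishl (der2 x y Q.tail 1) _ = D2 at e2
  refine ⟨∑ j ∈ range P.ns, (b j : ℝ) * mon P.n s t j, ∑ j ∈ range P.ns, (b j : ℝ) * mon1 P.n s t j,
    ∑ j ∈ range P.ns, (b j : ℝ) * mon2 P.n s t j, ⟨b, fun j => ?_, ?_, rfl⟩, ?_, ?_,
    ⟨fun j => b j * w3 δ (j % P.n + j / P.n), fun j => hM' j _ (st j).n3 (wb j).2.2, ?_, ?_⟩,
    ⟨fun j => b j * w2 δ (j % P.n + j / P.n), fun j => hM' j _ (st j).n2 (wb j).2.1, ?_, ?_⟩,
    ⟨fun j => b j * w1 δ (j % P.n + j / P.n), fun j => hM' j _ (st j).n1 (wb j).1, ?_, ?_⟩⟩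
  · simpa using hM' j 1 zero_le_one (one_le_mul_of_one_le_of_one_le (by norm_num)
      (one_le_pow₀ (by exact_mod_cast Nat.one_le_two_pow)))
  · show P0 = _
    exact_mod_cast e0
  · refine ((rep_lan (rep_sum (K := P.K) (n := P.n) (g := P.D + 1) (fun j => b j * (j % P.n : ℕ))
      (fun j => j % P.n - 1) (fun j => j / P.n) (fun j h => by
        have := b0 j (left_ne_zero_of_mul h); omega) P.ns) hn hns s t).mono
      (bs _ fun j h => le_trans (Nat.le_add_right _ _) (b0 j h))).congr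
      (Int.cast_injective (α := ℝ) ?_) ?_
    · show _ = (D1 : ℝ)
      rw [e1, Int.cast_sum]
      refine sum_congr rfl fun j _ => ?_
      rw [mon1, hB, Int.cast_mul, Int.cast_mul, Int.cast_natCast, Int.cast_pow, Int.cast_ofNat]; ring
    · exact sum_congr rfl fun j _ => by rw [mon1, Int.cast_mul, Int.cast_natCast]; ring
  · refine ((rep_lan (rep_sum (K := P.K) (n := P.n) (g := P.D + 1) (fun j => b j * (j / P.n : ℕ))
      (fun j => j % P.n) (fun j => j / P.n - 1) (fun j h => le_trans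
        (Nat.add_le_add_left (Nat.sub_le _ _) _) (b0 j (left_ne_zero_of_mul h))) P.ns) hn hns s t).mono
      (bs _ fun j h => le_trans (Nat.le_add_left _ _) (b0 j h))).congr
      (Int.cast_injective (α := ℝ) ?_) ?_
    · show _ = (D2 : ℝ)
      rw [e2, Int.cast_sum]
      refine sum_congr rfl fun j _ => ?_
      rw [mon2, hB, Int.cast_mul, Int.cast_mul, Int.cast_natCast, Int.cast_pow, Int.cast_ofNat]; ring
    · exact sum_congr rfl fun j _ => by rw [mon2, Int.cast_mul, Int.cast_natCast]; ring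
  · refine Int.cast_injective (α := ℝ) ?_
    show ((isub (isub Pp Pm) (ism (2 * δ) (iadd (ishl D1 P.K) (ishl D2 (P.K * P.n)))) : ℤ) : ℝ) = _
    simp only [isub_eq, iadd_eq, ism_eq, ishl_eq, w3, w1, Int.cast_sub, Int.cast_add, Int.cast_mul,
      Int.cast_pow, Int.cast_sum, Int.cast_natCast, Int.cast_ofNat, Int.cast_one, Nat.cast_mul,
      Nat.cast_ofNat]
    rw [ep, em, e1, e2, pow_mul, ← hB, sum_mul, sum_mul, ← sum_add_distrib, mul_sum,
      ← sum_sub_distrib, ← sum_sub_distrib]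
    refine sum_congr rfl fun j _ => ?_
    linear_combination -2 * δ * b j * eu j
  · simp only [mul_add, mul_sum, ← sum_add_distrib, ← sum_sub_distrib]
    refine sum_congr rfl fun j _ => ?_
    rw [Int.cast_mul, mul_assoc, v3, (t3n_div (st j).n3 (by positivity) (st j).b3).2]
    ring
  · refine Int.cast_injective (α := ℝ) ?_
    show ((isub (iadd Pp Pm) (ishl P0 1) : ℤ) : ℝ) = _
    simp only [isub_eq, iadd_eq, ishl_eq, w2]
    push_cast
    rw [ep, em, e0, sum_mul, ← sum_add_distrib, ← sum_sub_distrib]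
    exact sum_congr rfl fun j _ => by ring
  · simp only [mul_sum, ← sum_add_distrib, ← sum_sub_distrib]
    refine sum_congr rfl fun j _ => ?_
    rw [Int.cast_mul, mul_assoc, v2, (t3n_div (st j).n2 (by positivity) (st j).b2).2]
    ring
  · refine Int.cast_injective (α := ℝ) ?_
    show ((isub Pp Pm : ℤ) : ℝ) = _
    simp only [isub_eq, w1]
    push_cast
    rw [ep, em, ← sum_sub_distrib]
    exact sum_congr rfl fun j _ => by ring
  · simp only [← sum_sub_distrib]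
    refine sum_congr rfl fun j _ => ?_
    rw [Int.cast_mul, mul_assoc, v1, (t3n_div (st j).n1 zero_le_one (st j).b1).2]
    ring

end Pool.Agent.P.MP_f12b6c_an.Dg
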