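import Pool.Agent.P.MP_f12b6c_an.T3Geo
import Pool.Agent.P.MP_f12b6c_an.S4Simd

/-!
The leaf tests for pairs of cells. Numbers are packed in lanes of `96` bits.
-/

namespace Pool.Agent.P.MP_f12b6c_an

/-- Spreads three bytes over the lanes `0, 1, 3`. -/
def lC1 : ℕ := nat_lit 0x10000000000000000000000000000000000000000000001000000000000000000000100
/-- The mask for three bytes. -/
def lM1 : ℕ := nat_lit 0xff0000000000000000000000000000000000000000000000ff0000000000000000000000ff00
/-- The offset of the first vector. -/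
def lO1 : ℕ := nat_lit 0xffffffffffffffffffffffffffffffffffffffffffffff7fffffffffffffffffffffff8000
/-- Spreads two bytes over the lanes `0, 1`. -/
def lC2 : ℕ := nat_lit 0x1000000000000000000000100
/-- The mask for two bytes. -/
def lM2 : ℕ := nat_lit 0xff0000000000000000000000ff00
/-- A large power of the base. -/
def lBIG : ℕ := nat_lit 0x10000000000000000000000000000000000000000000000000000000000000000000000000000000000000000000000000000000000000000000000000000000000000000000000000000000000000000000000000000000000000000000000000000000000000000000000000000000000000000000000000000000000000000000000000000000000000000000000000000000000000000000000000000000000000000000000000000000000000000000000000000000000000000000000000000000000000000000000000000000000000000000000000000000000000000000000000000000000000000000000000000000000000000000000000000000000000000000000000000000000000000000000000000000000000000000000000000000000000000000000000000000000000000000000000000000000000000000000000000000000000000000000000000000000000000000000000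00000000000000000000000000000000000000000000000000000000000000000000000000000000000000000000000000000000000000000000000000000000000000000000000000000000000000000000000000000000000000000000000000000000000000000000000000000000000000000000000000000000000000000000000000000000000000000000000000000000000000000000000000000000000000000000000000000000000000000000000000000000000000000000000000000000000000000000000000000000000000000000000000000000000000000000000000000000000000000000000000000000000000000000000000000000000000000000000000000000000000000000000000000000000000000000000000000000000000000000000000000000000000000000000000000000000000000000000000000000000000000000000000000000000000000000000000000000000000000000000000000000000000000000000000000000000000000000000000000000000000000000000000000000000000000000000000000000000000000000000000000000000000000000000000000000000000000000000000000000000000000000000000000000000000000000000000000000000000000000000000000000000000000000000000000000000000000000000000000000000000000000000000000000000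00000000000000000000000000000000000000000000000000000000000000000000000000000000000000000000000000000000000000000000000000000000000000000000000000000000000000000000000000000000000000000000000000000000000000000000000000000000000000000000000000000000000000000000000000000000000000000000000000000000000000000000000000000000000000000000000000000000000000000000000000000000000000000000000000000000000000000000000000000000000000000000000000000000000000000000000000000000000000000000000000000000000000000000000000000000000000000000000000000000000000000000000000000000000000000000000000000000000000000000000000000000000000000000000000000000000000000000000000000000000000000000000000000000000000000000000000000000000000000000000000000000000000000000000000000000000000000000000000000000000000000000000000000000000000000000000000000000000000000000000000000000000000000000000000000000000000000000000000000000000000000000000000000000000000000000000000000000000000000000000000000000000000000000000000000000000000000000000000000000000000000000000000000000000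0000000000000000000000000000000000000000000000000000000000000000000000000000000000000000000000000000000000000000000000000000000000000000000000000000000000000000000000000000000000000000000000000000000000000000000000000000000000000000000000000000000000000000000000000000000000000000000000000000000000000000000000000000000000000000000000000000000000000000000000000000000000000000000000000000000000000000000000000000000000000000000000000000000000000000000000000000000000000000000000000000000000000000000000000000000000000000000000000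
/-- The bias `2 ^ 80` in every lane. -/
def lBIAS : ℕ := nat_lit 0x100000000000000000000000100000000000000000000000100000000000000000000000100000000000000000000000100000000000000000000000100000000000000000000000100000000000000000000000100000000000000000000000100000000000000000000000100000000000000000000000100000000000000000000000100000000000000000000000100000000000000000000000100000000000000000000000100000000000000000000000100000000000000000000000100000000000000000000000100000000000000000000000100000000000000000000000100000000000000000000000100000000000000000000000100000000000000000000000100000000000000000000000100000000000000000000000100000000000000000000000100000000000000000000000100000000000000000000000100000000000000000000000100000000000000000000000100000000000000000000000100000000000000000000000100000000000000000000000100000000000000000000000100000000000000000000000100000000000000000000000100000000000000000000000100000000000000000000000100000000000000000000000100000000000000000000000100000000000000000000000100000000000000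00000000010000000000000000000000010000000000000000000000010000000000000000000000010000000000000000000000010000000000000000000000010000000000000000000000010000000000000000000000010000000000000000000000010000000000000000000000010000000000000000000000010000000000000000000000010000000000000000000000010000000000000000000000010000000000000000000000010000000000000000000000010000000000000000000000010000000000000000000000010000000000000000000000010000000000000000000000010000000000000000000000010000000000000000000000010000000000000000000000010000000000000000000000010000000000000000000000010000000000000000000000010000000000000000000000010000000000000000000000010000000000000000000000010000000000000000000000010000000000000000000000010000000000000000000000010000000000000000000000010000000000000000000000010000000000000000000000010000000000000000000000010000000000000000000000010000000000000000000000010000000000000000000000010000000000000000000000010000000000000000000000010000000000000000000000010000000000000000000000010000000000000000000000010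0000000000000000000000100000000000000000000000100000000000000000000000100000000000000000000000100000000000000000000000100000000000000000000000100000000000000000000000100000000000000000000000100000000000000000000000100000000000000000000000100000000000000000000000100000000000000000000000100000000000000000000000100000000000000000000000100000000000000000000000100000000000000000000000100000000000000000000000100000000000000000000000100000000000000000000000100000000000000000000000100000000000000000000000100000000000000000000000100000000000000000000000100000000000000000000000100000000000000000000000100000000000000000000000100000000000000000000000100000000000000000000000100000000000000000000000100000000000000000000000100000000000000000000000100000000000000000000000100000000000000000000000100000000000000000000000100000000000000000000000100000000000000000000000100000000000000000000000100000000000000000000000100000000000000000000000100000000000000000000000100000000000000000000000100000000000000000000000100000000000000000000000100000000000000000000000100000000000000000000000100000000000000000000000100000000000000000000000100000000000000000000000100000000000000000000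
/-- The mask of the lanes `7 m + 6`. -/
def lMK : ℕ := nat_lit 0xffffffffffffffffffffffff000000000000000000000000000000000000000000000000000000000000000000000000000000000000000000000000000000000000000000000000000000000000000000000000ffffffffffffffffffffffff000000000000000000000000000000000000000000000000000000000000000000000000000000000000000000000000000000000000000000000000000000000000000000000000ffffffffffffffffffffffff000000000000000000000000000000000000000000000000000000000000000000000000000000000000000000000000000000000000000000000000000000000000000000000000ffffffffffffffffffffffff000000000000000000000000000000000000000000000000000000000000000000000000000000000000000000000000000000000000000000000000000000000000000000000000ffffffffffffffffffffffff000000000000000000000000000000000000000000000000000000000000000000000000000000000000000000000000000000000000000000000000000000000000000000000000ffffffffffffffffffffffff00000000000000000000000000000000000000000000000000000000000000000000000000000000000000000000000000000000000000000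0000000000000000000000000000000ffffffffffffffffffffffff000000000000000000000000000000000000000000000000000000000000000000000000000000000000000000000000000000000000000000000000000000000000000000000000ffffffffffffffffffffffff000000000000000000000000000000000000000000000000000000000000000000000000000000000000000000000000000000000000000000000000000000000000000000000000ffffffffffffffffffffffff000000000000000000000000000000000000000000000000000000000000000000000000000000000000000000000000000000000000000000000000000000000000000000000000ffffffffffffffffffffffff000000000000000000000000000000000000000000000000000000000000000000000000000000000000000000000000000000000000000000000000000000000000000000000000ffffffffffffffffffffffff000000000000000000000000000000000000000000000000000000000000000000000000000000000000000000000000000000000000000000000000000000000000000000000000ffffffffffffffffffffffff000000000000000000000000000000000000000000000000000000000000000000000000000000000000000000000000000000000000000000000000000000000000000000000000ffff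ffffffffffffffffffff000000000000000000000000000000000000000000000000000000000000000000000000000000000000000000000000000000000000000000000000000000000000000000000000ffffffffffffffffffffffff000000000000000000000000000000000000000000000000000000000000000000000000000000000000000000000000000000000000000000000000000000000000000000000000ffffffffffffffffffffffff000000000000000000000000000000000000000000000000000000000000000000000000000000000000000000000000000000000000000000000000000000000000000000000000ffffffffffffffffffffffff000000000000000000000000000000000000000000000000000000000000000000000000000000000000000000000000000000000000000000000000000000000000000000000000ffffffffffffffffffffffff000000000000000000000000000000000000000000000000000000000000000000000000000000000000000000000000000000000000000000000000000000000000000000000000ffffffffffffffffffffffff000000000000000000000000000000000000000000000000000000000000000000000000000000000000000000000000000000000000000000000000000000000000000000000000ffffffffffffffffffffffff000000000000000000000000000000000000000000000000000000000000000000000000000000000000000000000000000000000000000000000000000000000000000000000000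
/-- The sign bits of the lanes of nonconstant monomials. -/
def lHM : ℕ := nat_lit 0x100000000000000000000000100000000000000000000000100000000000000000000000000000000000000000000000000000000000000000000000000000000000000000000000000000000000000000000000100000000000000000000000100000000000000000000000100000000000000000000000000000000000000000000000000000000000000000000000000000000000000000000000000000000000000000000000100000000000000000000000100000000000000000000000100000000000000000000000000000000000000000000000000000000000000000000000000000000000000000000000000000000000000000000000100000000000000000000000100000000000000000000000100000000000000000000000000000000000000000000000000000000000000000000000000000000000000000000000000000000000000000000000100000000000000000000000100000000000000000000000100000000000000000000000000000000000000000000000000000000000000000000000000000000000000000000000000000000000000000000000100000000000000000000000100000000000000000000000100000000000000000000000000000000000000000000000000000000000000000000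00000000000000000000000000000000000000000000000000010000000000000000000000010000000000000000000000010000000000000000000000000000000000000000000000000000000000000000000000000000000000000000000000000000000000000000000000010000000000000000000000010000000000000000000000010000000000000000000000000000000000000000000000000000000000000000000000000000000000000000000000000000000000000000000000010000000000000000000000010000000000000000000000010000000000000000000000000000000000000000000000000000000000000000000000000000000000000000000000000000000000000000000000010000000000000000000000010000000000000000000000010000000000000000000000000000000000000000000000000000000000000000000000000000000000000000000000000000000000000000000000010000000000000000000000010000000000000000000000010000000000000000000000000000000000000000000000000000000000000000000000000000000000000000000000000000000000000000000000010000000000000000000000010000000000000000000000010000000000000000000000000000000000000000000000000000000000000000000000000000000000000000000000000000000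0000000000000000100000000000000000000000100000000000000000000000100000000000000000000000000000000000000000000000000000000000000000000000000000000000000000000000000000000000000000000000100000000000000000000000100000000000000000000000100000000000000000000000000000000000000000000000000000000000000000000000000000000000000000000000000000000000000000000000100000000000000000000000100000000000000000000000100000000000000000000000000000000000000000000000000000000000000000000000000000000000000000000000000000000000000000000000100000000000000000000000100000000000000000000000100000000000000000000000000000000000000000000000000000000000000000000000000000000000000000000000000000000000000000000000100000000000000000000000100000000000000000000000100000000000000000000000000000000000000000000000000000000000000000000000000000000000000000000000000000000000000000000000100000000000000000000000100000000000000000000000100000000000000000000000000000000000000000000000000000000000000000000000000000000000000000000000000000000000000000000000000000000000000000000000100000000000000000000000100000000000000000000000000000000000000000000000000000000000000000000000000000000000000000000000000000000000000000000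
/-- The mask of the lanes of monomials that change sign. -/
def lOD : ℕ := nat_lit 0xffffffffffffffffffffffffffffffffffffffffffffffffffffffffffffffffffffffff000000000000000000000000000000000000000000000000000000000000000000000000000000000000000000000000ffffffffffffffffffffffffffffffffffffffffffffffffffffffffffffffffffffffff000000000000000000000000000000000000000000000000000000000000000000000000000000000000000000000000000000000000000000000000ffffffffffffffffffffffff000000000000000000000000000000000000000000000000000000000000000000000000000000000000000000000000000000000000000000000000ffffffffffffffffffffffffffffffffffffffffffffffffffffffffffffffffffffffff000000000000000000000000000000000000000000000000000000000000000000000000000000000000000000000000ffffffffffffffffffffffffffffffffffffffffffffffffffffffffffffffffffffffff000000000000000000000000000000000000000000000000000000000000000000000000000000000000000000000000ffffffffffffffffffffffffffffffffffffffffffffffffffffffffffffffffffffffff000000000000000000000000000000000000000000000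000000000000000000000000000000000000000000000000000ffffffffffffffffffffffffffffffffffffffffffffffffffffffffffffffffffffffff000000000000000000000000000000000000000000000000000000000000000000000000000000000000000000000000000000000000000000000000ffffffffffffffffffffffff000000000000000000000000000000000000000000000000000000000000000000000000000000000000000000000000000000000000000000000000ffffffffffffffffffffffffffffffffffffffffffffffffffffffffffffffffffffffff000000000000000000000000000000000000000000000000000000000000000000000000000000000000000000000000ffffffffffffffffffffffffffffffffffffffffffffffffffffffffffffffffffffffff000000000000000000000000000000000000000000000000000000000000000000000000000000000000000000000000ffffffffffffffffffffffffffffffffffffffffffffffffffffffffffffffffffffffff000000000000000000000000000000000000000000000000000000000000000000000000000000000000000000000000000000000000000000000000ffffffffffffffffffffffff00000000000000000000000000000000000000000000000000000000000000000000000000000000000000000000000000000000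0000000000000000ffffffffffffffffffffffffffffffffffffffffffffffffffffffffffffffffffffffff000000000000000000000000000000000000000000000000000000000000000000000000000000000000000000000000ffffffffffffffffffffffffffffffffffffffffffffffffffffffffffffffffffffffff000000000000000000000000000000000000000000000000000000000000000000000000000000000000000000000000ffffffffffffffffffffffffffffffffffffffffffffffffffffffffffffffffffffffff000000000000000000000000000000000000000000000000000000000000000000000000000000000000000000000000ffffffffffffffffffffffffffffffffffffffffffffffffffffffffffffffffffffffff000000000000000000000000000000000000000000000000000000000000000000000000000000000000000000000000000000000000000000000000ffffffffffffffffffffffff000000000000000000000000000000000000000000000000000000000000000000000000000000000000000000000000000000000000000000000000ffffffffffffffffffffffffffffffffffffffffffffffffffffffffffffffffffffffff000000000000000000000000000000000000000000000000000000000000000000000000000000000000000000000000000000000000000000000000ffffffffffffffffffffffff000000000000000000000000000000000000000000000000000000000000000000000000000000000000000000000000000000000000000000000000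
/-- The base minus one. -/
def lB1 : ℕ := nat_lit 0xffffffffffffffffffffffff

/-- The final comparison. -/
def fin3 (nh N pos : ℕ) : Bool :=
  Nat.ble nh (Nat.mod (Nat.sub (Nat.sub N pos) (Nat.land pos lOD)) lB1)

/-- The positive parts of the lanes. -/
def fin2 (nh N s : ℕ) : Bool :=
  fin3 nh N (Nat.land N (Nat.sub s (Nat.shiftRight s (nat_lit 80))))

/-- Test that the lower bound of the packed polynomial is positive. -/
def fin1 (nh N : ℕ) : Bool := fin2 nh N (Nat.land N lHM)

/-- The three coefficients of the time variable. -/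
def far3 (RC base W del bu bv Xu Xv D : ℕ) : Bool :=
  fin1 (nat_lit 0x3900000000000000000001) (Nat.add (Nat.add
    (Nat.land (Nat.add (Nat.add (Nat.add (Nat.mul Xu bu) (Nat.mul Xv bv)) (Nat.mul D W)) lBIAS) lMK)
    (Nat.shiftRight (Nat.land (Nat.sub
      (Nat.add (Nat.mul (Nat.sub (Nat.add Xu lBIG) Xv) (Nat.add del del)) lBIAS)
      (Nat.mul RC (Nat.add (Nat.mul base base) W))) lMK) (nat_lit 96)))
    (Nat.shiftRight (Nat.land (Nat.add (Nat.mul D (Nat.mul del del)) lBIAS) lMK) (nat_lit 192)))

/-- The products with the cell numbers. -/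
def far2 (RC base W del P Q bu bv : ℕ) : Bool :=
  far3 RC base W del bu bv (Nat.mul P bu) (Nat.mul Q bv) (Nat.add P Q)

/-- The shifted vectors. -/
def far1 (PU QV Rr TC RC base gam hs w1 tw : ℕ) : Bool :=
  far2 RC base (Nat.add (Nat.mul gam gam) (Nat.mul hs hs)) (Nat.mul Rr w1) (Nat.add PU TC)
    (Nat.add QV TC) (Nat.sub base tw) (Nat.add base tw)

/-- Decoding of the witness. -/
def far0 (PU QV T0 Rr TC RC x w1 : ℕ) : Bool :=
  far1 PU QV Rr TC RC
    (Nat.add (Nat.land (Nat.mul (Nat.shiftRight x (nat_lit 24)) lC1) lM1) lO1)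
    (Nat.sub (Nat.land (Nat.mul (Nat.land (Nat.shiftRight x (nat_lit 8)) (nat_lit 65535)) lC2) lM2)
      (nat_lit 32768))
    (Nat.shiftLeft (Nat.land x (nat_lit 255)) (nat_lit 8)) w1 (Nat.mul T0 w1)

/-- The test for a pair of cells and a bounded time interval. -/
def farLeaf (PU QV T0 Rr TC RC x : ℕ) : Bool :=
  far0 PU QV T0 Rr TC RC x (Nat.succ (Nat.shiftRight x (nat_lit 40)))

/-- The test with a decoded witness, for an unbounded time interval. -/
def inf1 (D gam hs : ℕ) : Bool :=
  fin1 (nat_lit 0x1300000000000000000001)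
    (Nat.land (Nat.add (Nat.mul D (Nat.add (Nat.mul gam gam) (Nat.mul hs hs))) lBIAS) lMK)

/-- The test for a pair of cells and an unbounded time interval. -/
def infLeaf (PU QV TI x : ℕ) : Bool :=
  inf1 (Nat.add (Nat.add PU QV) TI)
    (Nat.land (Nat.mul (Nat.shiftRight x (nat_lit 8)) lC2) lM2)
    (Nat.shiftLeft (Nat.land x (nat_lit 255)) (nat_lit 8))

/-- The quadratic form stored in slot `m`. -/
def slotQ (c : ℕ → ℤ) (m : ℕ) (x0 x1 x2 : ℝ) : ℝ :=
  c (7 * m) * x1 ^ 2 + 2 * c (7 * m + 2) * (x0 * x1) + 2 * c (7 * m + 3) * (x1 * x2)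
    + c (7 * m + 4) * x0 ^ 2 + 2 * c (7 * m + 5) * (x0 * x2) + c (7 * m + 6) * x2 ^ 2

/-- The values of the nineteen monomials. -/
structure MonOK (μ : ℕ → ℝ) : Prop where
  one : μ 0 = 1
  abs : ∀ m, |μ m| ≤ 1
  ev : 0 ≤ μ 2 ∧ 0 ≤ μ 7 ∧ 0 ≤ μ 11 ∧ 0 ≤ μ 16

/-- The packed number `P` is a lower model of `F` for the monomial values `μ`. -/
def Low (μ : ℕ → ℝ) (P : ℕ) (F : Mat 3) : Prop :=
  P < 2 * 2 ^ (96 * 133) ∧ ∃ c : ℕ → ℤ, (∀ l, |c l| ≤ 2 ^ 27) ∧
    (P : ℤ) ≡ ∑ l ∈ Finset.range 133, c l * 2 ^ (96 * l) [ZMOD 2 ^ (96 * 133)] ∧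
    ∀ x0 x1 x2 : ℝ, ∑ m ∈ Finset.range 19, μ m * slotQ c m x0 x1 x2 ≤
      2 ^ 20 * (![x0, x1, x2] ⬝ᵥ F.mulVec ![x0, x1, x2])

/-- `N` packs the matrix `s • cro r1 r2` with denominator `2 ^ 20`. -/
def CroP (s r1 r2 : ℝ) (N : ℕ) : Prop :=
  ∃ a b : ℤ, |a| ≤ 2 ^ 29 ∧ |b| ≤ 2 ^ 29 ∧ (N : ℤ) = a * 2 ^ (96 * 2) + b * 2 ^ (96 * 5) ∧
    (a : ℝ) = 2 ^ 20 * (s * r1) ∧ (b : ℝ) = 2 ^ 20 * (s * r2)


open Finset Matrix

/-- `N` has the lanes `c` below lane `133`. -/
def Rp (N : ℤ) (c : ℕ → ℤ) : Prop :=
  N ≡ ∑ l ∈ range 133, c l * 2 ^ (96 * l) [ZMOD 2 ^ (96 * 133)]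

/-- Shift of the lanes. -/
def shL (i : ℕ) (c : ℕ → ℤ) (l : ℕ) : ℤ := if i ≤ l then c (l - i) else 0

/-- A packed vector. -/
def pk (x0 x1 x2 : ℤ) : ℤ := x1 * 2 ^ (96 * 3) + x0 * 2 ^ (96 * 1) + x2

/-- The lanes of a product with a packed vector. -/
def mulV (c : ℕ → ℤ) (x0 x1 x2 : ℤ) (l : ℕ) : ℤ := x1 * shL 3 c l + x0 * shL 1 c l + x2 * c l

theorem Rp.add {N N' : ℤ} {c c' : ℕ → ℤ} (h : Rp N c) (h' : Rp N' c') :
    Rp (N + N') (fun l => c l + c' l) := by
  unfold Rp at *
  simp only [add_mul, sum_add_distrib]
  exact h.add h'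

theorem Rp.smul {N : ℤ} {c : ℕ → ℤ} (h : Rp N c) (a : ℤ) : Rp (a * N) (fun l => a * c l) := by
  unfold Rp at *
  simp only [mul_assoc, ← mul_sum]
  exact h.mul_left a

theorem Rp.sub {N N' : ℤ} {c c' : ℕ → ℤ} (h : Rp N c) (h' : Rp N' c') :
    Rp (N - N') (fun l => c l - c' l) := by
  unfold Rp at *
  simp only [sub_mul, sum_sub_distrib]
  exact h.sub h'

private lemma t3l_step (B : ℤ) (c : ℕ → ℤ) (n : ℕ) :
    (∑ l ∈ range n, c l * B ^ l) * B = ∑ l ∈ range (n + 1), shL 1 c l * B ^ l := by
  rw [sum_range_succ', sum_mul]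
  simp only [shL, Nat.add_sub_cancel, Nat.le_add_left, if_true, Nat.one_le_iff_ne_zero, ne_eq,
    not_true_eq_false, if_false, zero_mul, add_zero]
  exact sum_congr rfl fun l _ => by ring

theorem Rp.sh1 {N : ℤ} {c : ℕ → ℤ} (h : Rp N c) : Rp (N * 2 ^ 96) (shL 1 c) := by
  unfold Rp at *
  simp only [pow_mul] at *
  generalize (2 : ℤ) ^ 96 = B at *
  refine (h.mul_right B).trans ?_
  rw [t3l_step, sum_range_succ]
  exact (Int.modEq_iff_dvd.2 (by rw [sub_add_cancel_left, dvd_neg]; exact Dvd.intro_left _ rfl))

private lemma t3l_sh3 (c : ℕ → ℤ) : shL 1 (shL 1 (shL 1 c)) = shL 3 c := by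
  funext l
  unfold shL
  split_ifs <;> first | rfl | omega

theorem Rp.mulV {N : ℤ} {c : ℕ → ℤ} (h : Rp N c) (x0 x1 x2 : ℤ) :
    Rp (N * pk x0 x1 x2) (mulV c x0 x1 x2) := by
  have h3 := h.sh1.sh1.sh1
  rw [t3l_sh3] at h3
  have := ((h3.smul x1).add (h.sh1.smul x0)).add (h.smul x2)
  have e : N * pk x0 x1 x2 =
      x1 * (N * 2 ^ 96 * 2 ^ 96 * 2 ^ 96) + x0 * (N * 2 ^ 96) + x2 * N := by
    unfold pk
    simp only [pow_mul]
    generalize (2 : ℤ) ^ 96 = B
    ring
  rw [e]
  exact this

private lemma t3l_shb {c : ℕ → ℤ} {M : ℤ} (h : ∀ l, |c l| ≤ M) (i l : ℕ) : |shL i c l| ≤ M := by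
  unfold shL
  split_ifs
  · exact h _
  · rw [abs_zero]; exact (abs_nonneg _).trans (h 0)

theorem mulV_bound {c : ℕ → ℤ} {M L : ℤ} (h : ∀ l, |c l| ≤ M) {x0 x1 x2 : ℤ}
    (hx : |x0| + |x1| + |x2| ≤ L) (l : ℕ) : |mulV c x0 x1 x2 l| ≤ M * L := by
  have hM : 0 ≤ M := (abs_nonneg _).trans (h 0)
  have a1 := mul_le_mul_of_nonneg_left (t3l_shb h 3 l) (abs_nonneg x1)
  have a2 := mul_le_mul_of_nonneg_left (t3l_shb h 1 l) (abs_nonneg x0)
  have a3 := mul_le_mul_of_nonneg_left (h l) (abs_nonneg x2)
  rw [← abs_mul] at a1 a2 a3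
  have a4 := mul_le_mul_of_nonneg_left hx hM
  unfold mulV
  refine ((abs_add_le _ _).trans (add_le_add (abs_add_le _ _) le_rfl)).trans ?_
  nlinarith

theorem mulV_lane (c : ℕ → ℤ) (x0 x1 x2 y0 y1 y2 : ℤ) (m : ℕ) :
    mulV (mulV c x0 x1 x2) y0 y1 y2 (7 * m + 6) =
      c (7 * m) * (x1 * y1) + c (7 * m + 2) * (x0 * y1 + x1 * y0)
        + c (7 * m + 3) * (x1 * y2 + x2 * y1) + c (7 * m + 4) * (x0 * y0)
        + c (7 * m + 5) * (x0 * y2 + x2 * y0) + c (7 * m + 6) * (x2 * y2) := by
  have s : ∀ (c : ℕ → ℤ) (i j : ℕ), shL i c (7 * m + (j + i)) = c (7 * m + j) := fun c i j => by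
    unfold shL
    rw [if_pos (by omega)]
    congr 1
    omega
  have e1 := s (mulV c x0 x1 x2) 3 3
  have e2 := s (mulV c x0 x1 x2) 1 5
  have e3 := s c 3 0
  have e4 := s c 1 2
  have e5 := s c 3 2
  have e6 := s c 1 4
  have e7 := s c 3 3
  have e8 := s c 1 5
  norm_num at e1 e2 e3 e4 e5 e6 e7 e8
  rw [mulV, e1, e2]
  simp only [mulV]
  rw [e3, e4, e5, e6, e7, e8]
  ring

theorem t3l_lt (f : ℕ → ℕ) (hf : ∀ j, f j < 2 ^ 96) (n : ℕ) : sumB 96 f n < 2 ^ (96 * n) := by
  induction n with
  | zero => simp [sumB]
  | succ n ih =>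
    rw [sumB, Nat.mul_succ, pow_add]
    have := hf n
    generalize 2 ^ (96 * n) = X at *
    generalize 2 ^ 96 = B at *
    nlinarith

private lemma t3l_bias : lBIAS = sumB 96 (fun _ => 2 ^ 80) 133 := by decide +kernel

private lemma t3l_mk : lMK = sumB 96 (fun l => if l % 7 = 6 then 2 ^ 96 - 1 else 0) 133 := by
  decide +kernel

/-- The biased digit. -/
def bdig (e : ℤ) : ℕ := (e + 2 ^ 80).toNat

theorem t3l_dig {e : ℤ} (h : |e| < 2 ^ 80) : bdig e < 2 * 2 ^ 80 ∧ (bdig e : ℤ) = e + 2 ^ 80 := by
  have := abs_lt.1 h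
  unfold bdig
  omega

theorem mask_eq {N : ℕ} {c : ℕ → ℤ} (h : Rp ((N : ℤ) - lBIAS) c) (hc : ∀ l, |c l| < 2 ^ 80) :
    N &&& lMK = sumB 96 (fun l => if l % 7 = 6 then bdig (c l) else 0) 133 := by
  have hd : ∀ l, bdig (c l) < 2 ^ 96 := fun l => (t3l_dig (hc l)).1.trans (by norm_num)
  have h1 : (N : ℤ) ≡ (sumB 96 (fun l => bdig (c l)) 133 : ℕ) [ZMOD ((2 ^ (96 * 133) : ℕ) : ℤ)] := by
    have := h.add_right (lBIAS : ℤ)
    rw [sub_add_cancel, t3l_bias, s4s_sum] at this
    rw [s4s_sum]
    simp only [Nat.cast_sum, Nat.cast_mul, Nat.cast_pow, Nat.cast_ofNat, (t3l_dig (hc _)).2,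
      add_mul, sum_add_distrib] at this ⊢
    exact this
  have h2 : N % 2 ^ (96 * 133) = sumB 96 (fun l => bdig (c l)) 133 := by
    rw [← Nat.mod_eq_of_lt (t3l_lt _ hd 133)]
    exact Int.natCast_modEq_iff.1 h1
  have h3 : lMK < 2 ^ (96 * 133) := by
    rw [t3l_mk]
    exact t3l_lt _ (fun l => by split_ifs <;> norm_num) 133
  have h4 : N &&& lMK = (N % 2 ^ (96 * 133)) &&& lMK := by
    rw [← Nat.and_two_pow_sub_one_eq_mod, Nat.and_assoc, Nat.and_comm (2 ^ (96 * 133) - 1),
      Nat.and_two_pow_sub_one_eq_mod, Nat.mod_eq_of_lt h3]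
  rw [h4, h2, t3l_mk, s4s_land _ _ _ _ hd (fun l => by split_ifs <;> norm_num)]
  refine s4s_congr _ _ fun l => ?_
  split_ifs
  · rw [Nat.and_two_pow_sub_one_eq_mod, Nat.mod_eq_of_lt (hd l)]
  · simp

/-- The lanes of nonconstant monomials. -/
def isH (l : ℕ) : Prop := 4 ≤ l % 7 ∧ l ≠ 6

instance : DecidablePred isH := fun l => inferInstanceAs (Decidable (4 ≤ l % 7 ∧ l ≠ 6))

/-- The lanes of monomials that change sign. -/
def isO (l : ℕ) : Prop :=
  4 ≤ l % 7 ∧ (l % 7 = 5 ∨ (l / 7 ≠ 0 ∧ l / 7 ≠ 2 ∧ l / 7 ≠ 7 ∧ l / 7 ≠ 11 ∧ l / 7 ≠ 16))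

instance : DecidablePred isO := fun l => inferInstanceAs (Decidable
  (4 ≤ l % 7 ∧ (l % 7 = 5 ∨ (l / 7 ≠ 0 ∧ l / 7 ≠ 2 ∧ l / 7 ≠ 7 ∧ l / 7 ≠ 11 ∧ l / 7 ≠ 16))))

private lemma t3l_hm : lHM = sumB 96 (fun l => if isH l then 2 ^ 80 else 0) 133 := by
  decide +kernel

private lemma t3l_od : lOD = sumB 96 (fun l => if isO l then 2 ^ 96 - 1 else 0) 133 := by
  decide +kernel

/-- The lower bound read off from lane `l` with digit `E`. -/
def lowD (l E : ℕ) : ℕ :=
  E - (if isH l then E - 2 ^ 80 else 0) - if isO l then (if isH l then E - 2 ^ 80 else 0) else 0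

theorem fin_sound {nh : ℕ} {E : ℕ → ℕ} (hE : ∀ l, E l < 2 * 2 ^ 80)
    (h : fin1 nh (sumB 96 E 133) = true) : nh ≤ ∑ l ∈ range 133, lowD l (E l) := by
  have hE' : ∀ l, E l < 2 ^ 96 := fun l => (hE l).trans (by norm_num)
  have e1 : sumB 96 E 133 &&& lHM = sumB 96
      (fun l => 2 ^ 80 * if isH l then (if 2 ^ 80 ≤ E l then 1 else 0) else 0) 133 := by
    rw [t3l_hm, s4s_land _ _ _ _ hE' (fun l => by split_ifs <;> norm_num)]
    refine s4s_congr _ _ fun l => ?_
    by_cases hl : isH l
    · rw [if_pos hl, if_pos hl]; exact (s4s_digit (hE l)).1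
    · rw [if_neg hl, if_neg hl]; simp
  have e2 : sumB 96 E 133 &&& ((sumB 96 E 133 &&& lHM) - (sumB 96 E 133 &&& lHM) >>> 80) =
      sumB 96 (fun l => if isH l then E l - 2 ^ 80 else 0) 133 := by
    rw [e1, s4s_shift, s4s_sub _ _ _ _ (fun j => Nat.le_mul_of_pos_left _ (by positivity)),
      s4s_land _ _ _ _ hE' (fun l => by split_ifs <;> norm_num)]
    refine s4s_congr _ _ fun l => ?_
    by_cases hl : isH l
    · simp only [if_pos hl]; exact (s4s_digit (hE l)).2
    · simp only [if_neg hl]; simp
  have e3 : sumB 96 (fun l => if isH l then E l - 2 ^ 80 else 0) 133 &&& lOD = sumB 96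
      (fun l => if isO l then (if isH l then E l - 2 ^ 80 else 0) else 0) 133 := by
    have hp : ∀ l, (if isH l then E l - 2 ^ 80 else 0) < 2 ^ 96 := fun l => by
      have := hE' l
      split_ifs <;> omega
    rw [t3l_od, s4s_land _ _ _ _ hp (fun l => by split_ifs <;> norm_num)]
    refine s4s_congr _ _ fun l => ?_
    by_cases hl : isO l
    · simp only [if_pos hl]
      rw [Nat.and_two_pow_sub_one_eq_mod, Nat.mod_eq_of_lt (hp l)]
    · simp only [if_neg hl]; simp
  have h1 : nh ≤ (sumB 96 E 133 - (sumB 96 E 133 &&& ((sumB 96 E 133 &&& lHM) -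
      (sumB 96 E 133 &&& lHM) >>> 80)) - ((sumB 96 E 133 &&& ((sumB 96 E 133 &&& lHM) -
      (sumB 96 E 133 &&& lHM) >>> 80)) &&& lOD)) % (2 ^ 96 - 1) := Nat.le_of_ble_eq_true h
  rw [e2, e3, s4s_sub _ _ _ _ (fun l => by split_ifs <;> omega),
    s4s_sub _ _ _ _ (fun l => by have := hE l; split_ifs <;> omega), s4s_mod] at h1
  exact h1.trans (Nat.mod_le _ _)

theorem lowD_le {l : ℕ} {e : ℤ} {ν : ℝ} (he : |e| < 2 ^ 80) (hl : 4 ≤ l % 7) (h6 : l = 6 → ν = 1)
    (h1 : |ν| ≤ 1) (h0 : ¬ isO l → 0 ≤ ν) : (lowD l (bdig e) : ℝ) ≤ 2 ^ 80 + ν * e := by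
  obtain ⟨d1, d2⟩ := t3l_dig he
  obtain ⟨n1, n2⟩ := abs_le.1 h1
  by_cases hl6 : l = 6
  · have : (lowD l (bdig e) : ℤ) = e + 2 ^ 80 := by
      rw [← d2, lowD, if_neg (fun h : isH l => h.2 hl6)]
      simp
    have h' : (lowD l (bdig e) : ℝ) = e + 2 ^ 80 := by exact_mod_cast this
    rw [h', h6 hl6]
    linarith
  · have hH : isH l := ⟨hl, hl6⟩
    rcases le_total 0 e with p | p
    · have p' : (0 : ℝ) ≤ e := by exact_mod_cast p
      by_cases hO : isO l
      · have : (lowD l (bdig e) : ℤ) = 2 ^ 80 - e := by
          rw [lowD, if_pos hH, if_pos hO]; omega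
        have h' : (lowD l (bdig e) : ℝ) = 2 ^ 80 - e := by exact_mod_cast this
        rw [h']; nlinarith
      · have : (lowD l (bdig e) : ℤ) = 2 ^ 80 := by
          rw [lowD, if_pos hH, if_neg hO]; omega
        have h' : (lowD l (bdig e) : ℝ) = 2 ^ 80 := by exact_mod_cast this
        rw [h']; nlinarith [h0 hO]
    · have p' : (e : ℝ) ≤ 0 := by exact_mod_cast p
      have : (lowD l (bdig e) : ℤ) = e + 2 ^ 80 := by
        rw [lowD, if_pos hH]; split_ifs <;> omega
      have h' : (lowD l (bdig e) : ℝ) = e + 2 ^ 80 := by exact_mod_cast this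
      rw [h']; nlinarith

theorem t3l_seven (g : ℕ → ℝ) (n : ℕ) : ∑ l ∈ range (7 * n), g l =
    ∑ m ∈ range n, (g (7 * m) + g (7 * m + 1) + g (7 * m + 2) + g (7 * m + 3) + g (7 * m + 4)
      + g (7 * m + 5) + g (7 * m + 6)) := by
  induction n with
  | zero => rfl
  | succ n ih =>
    rw [sum_range_succ _ n, ← ih, Nat.mul_succ]
    simp only [sum_range_succ]
    ring

private lemma t3l_low0 (l : ℕ) : lowD l 0 = 0 := by simp [lowD]

theorem t3l_shift (f : ℕ → ℕ) (h0 : f 0 = 0) (h : f 133 = 0) :
    sumB 96 f 133 >>> 96 = sumB 96 (fun l => f (l + 1)) 133 := by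
  have e : sumB 96 f (133 + 1) = sumB 96 f 133 + f 133 * 2 ^ (96 * 133) := rfl
  rw [← s4s_shiftK 96 f 133 (by rw [h0]; positivity), e, h, zero_mul, add_zero]

theorem t3l_add (f g : ℕ → ℕ) (n : ℕ) :
    sumB 96 f n + sumB 96 g n = sumB 96 (fun l => f l + g l) n := by
  simp only [s4s_sum, add_mul, sum_add_distrib]

private lemma t3l_ev {μ : ℕ → ℝ} (hμ : MonOK μ) {m i : ℕ} (h4 : 4 ≤ i) (h7 : i < 7)
    (h : ¬ isO (7 * m + i)) : i ≠ 5 ∧ 0 ≤ μ m := by
  have e1 : (7 * m + i) % 7 = i := by omega
  have e2 : (7 * m + i) / 7 = m := by omega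
  unfold isO at h
  rw [e1, e2] at h
  refine ⟨fun h5 => h ⟨h4, Or.inl h5⟩, ?_⟩
  obtain ⟨v1, v2, v3, v4⟩ := hμ.ev
  by_contra hn
  refine h ⟨h4, Or.inr ⟨?_, ?_, ?_, ?_, ?_⟩⟩ <;> rintro rfl
  · rw [hμ.one] at hn; exact hn zero_le_one
  all_goals contradiction

private lemma t3l_six {μ : ℕ → ℝ} (hμ : MonOK μ) {e : ℤ} (he : |e| < 2 ^ 80) (m : ℕ) :
    (lowD (7 * m + 6) (bdig e) : ℝ) ≤ 2 ^ 80 + μ m * e :=
  lowD_le he (by omega) (fun h => by rw [show m = 0 by omega, hμ.one]) (hμ.abs m)
    fun h => (t3l_ev hμ (by norm_num) (by norm_num) h).2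

theorem one_sound {μ : ℕ → ℝ} (hμ : MonOK μ) {N : ℕ} {c : ℕ → ℤ} (r : Rp ((N : ℤ) - lBIAS) c)
    (b : ∀ l, |c l| < 2 ^ 80) (h : fin1 (19 * 2 ^ 80 + 1) (N &&& lMK) = true) :
    1 ≤ ∑ m ∈ range 19, μ m * c (7 * m + 6) := by
  rw [mask_eq r b] at h
  have h1 := fin_sound (fun l => by
    split_ifs
    · exact (t3l_dig (b l)).1
    · positivity) h
  have h2 : ((19 * 2 ^ 80 + 1 : ℕ) : ℝ) ≤ ∑ l ∈ range (7 * 19),
      (lowD l (if l % 7 = 6 then bdig (c l) else 0) : ℝ) := by exact_mod_cast h1
  rw [t3l_seven] at h2
  have h3 := h2.trans (sum_le_sum (g := fun m => 2 ^ 80 + μ m * c (7 * m + 6)) fun m _ => by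
    rw [if_neg (by omega), if_neg (by omega), if_neg (by omega), if_neg (by omega),
      if_neg (by omega), if_neg (by omega), if_pos (by omega)]
    simp only [t3l_low0, Nat.cast_zero, zero_add]
    exact t3l_six hμ (b _) m)
  rw [sum_add_distrib, sum_const, card_range] at h3
  norm_num at h3 ⊢
  linarith

theorem three_sound {μ : ℕ → ℝ} (hμ : MonOK μ) {τ : ℝ} (hτ : |τ| ≤ 1) {N0 N1 N2 : ℕ}
    {c0 c1 c2 : ℕ → ℤ} (r0 : Rp ((N0 : ℤ) - lBIAS) c0) (r1 : Rp ((N1 : ℤ) - lBIAS) c1)
    (r2 : Rp ((N2 : ℤ) - lBIAS) c2) (b0 : ∀ l, |c0 l| < 2 ^ 80) (b1 : ∀ l, |c1 l| < 2 ^ 80)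
    (b2 : ∀ l, |c2 l| < 2 ^ 80)
    (h : fin1 (57 * 2 ^ 80 + 1)
      ((N0 &&& lMK) + (N1 &&& lMK) >>> 96 + (N2 &&& lMK) >>> (96 + 96)) = true) :
    1 ≤ ∑ m ∈ range 19, μ m * (c0 (7 * m + 6) - τ * c1 (7 * m + 6) + τ ^ 2 * c2 (7 * m + 6)) := by
  rw [mask_eq r0 b0, mask_eq r1 b1, mask_eq r2 b2, Nat.shiftRight_add,
    t3l_shift _ rfl rfl, t3l_shift _ rfl rfl, t3l_shift _ rfl rfl, t3l_add, t3l_add] at h
  have h1 := fin_sound (fun l => by
    have := (t3l_dig (b0 l)).1
    have := (t3l_dig (b1 (l + 1))).1
    have := (t3l_dig (b2 (l + 1 + 1))).1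
    split_ifs <;> omega) h
  have h2 : ((57 * 2 ^ 80 + 1 : ℕ) : ℝ) ≤ ∑ l ∈ range (7 * 19),
      (lowD l ((if l % 7 = 6 then bdig (c0 l) else 0) + (if (l + 1) % 7 = 6 then bdig (c1 (l + 1))
        else 0) + if (l + 1 + 1) % 7 = 6 then bdig (c2 (l + 1 + 1)) else 0) : ℝ) := by
    exact_mod_cast h1
  rw [t3l_seven] at h2
  have h3 := h2.trans (sum_le_sum (g := fun m => 3 * 2 ^ 80 +
      μ m * (c0 (7 * m + 6) - τ * c1 (7 * m + 6) + τ ^ 2 * c2 (7 * m + 6))) fun m _ => by
    have a := hμ.abs m
    have a4 := lowD_le (l := 7 * m + 4) (ν := τ ^ 2 * μ m) (b2 (7 * m + 6)) (by omega) (by omega)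
      (by rw [abs_mul, abs_pow]
          exact mul_le_one₀ (pow_le_one₀ (abs_nonneg _) hτ) (abs_nonneg _) a)
      fun h => mul_nonneg (sq_nonneg _) (t3l_ev hμ (by norm_num) (by norm_num) h).2
    have a5 := lowD_le (l := 7 * m + 5) (ν := -τ * μ m) (b1 (7 * m + 6)) (by omega) (by omega)
      (by rw [abs_mul, abs_neg]; exact mul_le_one₀ hτ (abs_nonneg _) a)
      fun h => absurd rfl (t3l_ev hμ (by norm_num) (by norm_num) h).1
    have a6 := t3l_six hμ (b0 (7 * m + 6)) m
    have m0 : 7 * m % 7 = 0 := by omega
    have m1 : ∀ i, (7 * m + i) % 7 = i % 7 := fun i => by omega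
    simp only [add_assoc, m0, m1]
    norm_num [t3l_low0]
    linarith)
  rw [sum_add_distrib, sum_const, card_range] at h3
  norm_num at h3 ⊢
  linarith

/-- The sum of the quadratic forms. -/
noncomputable def sumQ (μ : ℕ → ℝ) (c : ℕ → ℤ) (x0 x1 x2 : ℝ) : ℝ :=
  ∑ m ∈ range 19, μ m * slotQ c m x0 x1 x2

private lemma t3l_b2 {c : ℕ → ℤ} (h : ∀ l, |c l| ≤ 2 ^ 31) {x0 x1 x2 y0 y1 y2 : ℤ}
    (hx : |x0| + |x1| + |x2| ≤ 2 ^ 21) (hy : |y0| + |y1| + |y2| ≤ 2 ^ 21) (l : ℕ) :
    -2 ^ 73 ≤ mulV (mulV c x0 x1 x2) y0 y1 y2 l ∧ mulV (mulV c x0 x1 x2) y0 y1 y2 l ≤ 2 ^ 73 :=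
  abs_le.1 ((mulV_bound (mulV_bound h hx) hy l).trans (by norm_num))

theorem t3l_pk (x0 x1 x2 : ℤ) : pk x0 x1 x2 =
    x1 * 497323236409786642155382248146820840100456150797347717440463976893159497012533375533056
      + x0 * 79228162514264337593543950336 + x2 := by
  unfold pk
  rw [pow_mul]
  norm_num

private lemma t3l_pkle {n : ℕ} {x0 x1 x2 : ℤ} (h : (n : ℤ) = pk x0 x1 x2)
    (hx : |x0| + |x1| + |x2| ≤ 2 ^ 21) : n ≤ (2 ^ 96) ^ 4 := by
  rw [t3l_pk] at h
  have := le_abs_self x0
  have := le_abs_self x1
  have := le_abs_self x2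
  have := abs_nonneg x0
  have := abs_nonneg x1
  have := abs_nonneg x2
  norm_num
  omega

private lemma t3l_big : lBIG = 2 ^ (96 * 133) * (2 ^ 96) ^ 5 := by decide +kernel

private lemma t3l_rbig : Rp lBIG (fun _ => 0) := by
  unfold Rp
  rw [t3l_big]
  simp only [zero_mul, sum_const_zero, Nat.cast_mul, Nat.cast_pow, Nat.cast_ofNat]
  exact Int.modEq_zero_iff_dvd.2 (Dvd.intro _ rfl)

private lemma t3l_biasle :
    (2 ^ 96) ^ 6 * ((2 ^ 96) ^ 4 * (2 ^ 96) ^ 4 + ((2 ^ 96) ^ 4 * (2 ^ 96) ^ 4
      + (2 ^ 96) ^ 4 * (2 ^ 96) ^ 4)) ≤ lBIAS := by decide +kernel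

theorem Rp.of_eq {N N' : ℤ} {c : ℕ → ℤ} (h : Rp N c) (e : N' = N) : Rp N' c := e ▸ h

theorem far2_sound {μ : ℕ → ℝ} (hμ : MonOK μ) {τ : ℝ} (hτ : |τ| ≤ 1)
    {P Q RC base gam hs del bu bv : ℕ} {cP cQ cR : ℕ → ℤ} {w0 w1 w2 u v g0 g2 : ℤ}
    (rP : Rp P cP) (rQ : Rp Q cQ) (rR : Rp RC cR) (bP : ∀ l, |cP l| ≤ 2 ^ 30)
    (bQ : ∀ l, |cQ l| ≤ 2 ^ 30) (bR : ∀ l, |cR l| ≤ 2 ^ 31) (hQ : Q ≤ 3 * 2 ^ (96 * 133))
    (hR : RC ≤ (2 ^ 96) ^ 6) (eb : (base : ℤ) = pk w0 w1 w2) (eu : (bu : ℤ) = pk w0 w1 u)
    (ev : (bv : ℤ) = pk w0 w1 v) (eg : (gam : ℤ) = pk g0 0 g2)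
    (nb : |w0| + |w1| + |w2| ≤ 2 ^ 21) (nu : |w0| + |w1| + |u| ≤ 2 ^ 21)
    (nv : |w0| + |w1| + |v| ≤ 2 ^ 21) (ng : |g0| + |0| + |g2| ≤ 2 ^ 21) (nh : hs ≤ 2 ^ 21)
    (nd : del ≤ 2 ^ 20) (h : far2 RC base (gam * gam + hs * hs) del P Q bu bv = true) :
    1 ≤ sumQ μ cP w0 w1 (u - τ * del) + sumQ μ cQ w0 w1 (v + τ * del)
      + (sumQ μ cP g0 0 g2 + sumQ μ cQ g0 0 g2) + (sumQ μ cP 0 0 hs + sumQ μ cQ 0 0 hs)
      + τ * (sumQ μ cR w0 w1 w2 + sumQ μ cR g0 0 g2 + sumQ μ cR 0 0 hs) := by
  have e0 : ∀ n : ℤ, pk 0 0 n = n := fun n => by simp [pk]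
  have n0 : ∀ n : ℕ, n ≤ 2 ^ 21 → |(0 : ℤ)| + |0| + |(n : ℤ)| ≤ 2 ^ 21 := fun n hn => by
    rw [abs_zero, Nat.abs_cast]; omega
  have rD := rP.add rQ
  have bD : ∀ l, |cP l + cQ l| ≤ 2 ^ 31 := fun l =>
    (abs_add_le _ _).trans (by linarith [bP l, bQ l])
  have bP' : ∀ l, |cP l| ≤ 2 ^ 31 := fun l => (bP l).trans (by norm_num)
  have bQ' : ∀ l, |cQ l| ≤ 2 ^ 31 := fun l => (bQ l).trans (by norm_num)
  have t1 : Q * bv ≤ P * bu + lBIG := by
    refine (Nat.mul_le_mul hQ (t3l_pkle ev nv)).trans (le_add_left ?_)
    rw [t3l_big]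
    generalize 2 ^ (96 * 133) = X
    norm_num
    omega
  have t2 : RC * (base * base + (gam * gam + hs * hs)) ≤
      (P * bu + lBIG - Q * bv) * (del + del) + lBIAS := by
    have a1 := t3l_pkle eb nb
    have a2 := t3l_pkle eg ng
    have a3 : hs ≤ (2 ^ 96) ^ 4 := nh.trans (by norm_num)
    exact (Nat.mul_le_mul hR (add_le_add (Nat.mul_le_mul a1 a1)
      (add_le_add (Nat.mul_le_mul a2 a2) (Nat.mul_le_mul a3 a3)))).trans (le_add_left t3l_biasle)
  have r0 := (((((rP.mulV w0 w1 u).mulV w0 w1 u).add ((rQ.mulV w0 w1 v).mulV w0 w1 v)).add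
      ((rD.mulV g0 0 g2).mulV g0 0 g2)).add ((rD.mulV 0 0 hs).mulV 0 0 hs)).of_eq
      (N' := ((P * bu * bu + Q * bv * bv + (P + Q) * (gam * gam + hs * hs) + lBIAS : ℕ) : ℤ)
        - lBIAS) (by
    rw [← eu, ← ev, ← eg, e0]
    push_cast
    ring)
  have r1 := (((((((rP.mulV w0 w1 u).mulV 0 0 (del + del : ℕ)).sub
      ((rQ.mulV w0 w1 v).mulV 0 0 (del + del : ℕ))).add (t3l_rbig.smul (del + del))).sub
      ((rR.mulV w0 w1 w2).mulV w0 w1 w2)).sub ((rR.mulV g0 0 g2).mulV g0 0 g2)).sub
      ((rR.mulV 0 0 hs).mulV 0 0 hs)).of_eq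
      (N' := (((P * bu + lBIG - Q * bv) * (del + del) + lBIAS
        - RC * (base * base + (gam * gam + hs * hs)) : ℕ) : ℤ) - lBIAS) (by
    rw [← eu, ← ev, ← eg, ← eb, e0, e0, Nat.cast_sub t2, Nat.cast_add, Nat.cast_mul,
      Nat.cast_sub t1]
    push_cast
    ring)
  have r2 := ((rD.mulV 0 0 del).mulV 0 0 del).of_eq
      (N' := (((P + Q) * (del * del) + lBIAS : ℕ) : ℤ) - lBIAS) (by
    rw [e0]
    push_cast
    ring)
  have k := three_sound hμ hτ r0 r1 r2
    (fun l => by
      have := t3l_b2 bP' nu nu l
      have := t3l_b2 bQ' nv nv l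
      have := t3l_b2 bD ng ng l
      have := t3l_b2 bD (n0 _ nh) (n0 _ nh) l
      rw [abs_lt]; omega)
    (fun l => by
      have := t3l_b2 bP' nu (n0 (del + del) (by omega)) l
      have := t3l_b2 bQ' nv (n0 (del + del) (by omega)) l
      have := t3l_b2 bR nb nb l
      have := t3l_b2 bR ng ng l
      have := t3l_b2 bR (n0 _ nh) (n0 _ nh) l
      rw [abs_lt, mul_zero]; omega)
    (fun l => by
      have := t3l_b2 bD (n0 del (by omega)) (n0 del (by omega)) l
      rw [abs_lt]; omega) h
  refine k.trans (le_of_eq ?_)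
  simp only [sumQ, mul_sum, ← sum_add_distrib]
  refine sum_congr rfl fun m _ => ?_
  simp only [mulV_lane, slotQ]
  push_cast
  ring

theorem t3l_split (k a b c d : ℕ) (hb : b < 2 ^ k) (hd : d < 2 ^ k) :
    (2 ^ k * a + b) &&& (2 ^ k * c + d) = 2 ^ k * (a &&& c) + (b &&& d) := by
  refine Nat.eq_of_testBit_eq fun i => ?_
  rw [Nat.testBit_and, Nat.testBit_two_pow_mul_add _ hb, Nat.testBit_two_pow_mul_add _ hd,
    Nat.testBit_two_pow_mul_add _ (Nat.and_lt_two_pow _ hd)]
  split_ifs <;> rw [Nat.testBit_and]

private lemma t3l_ff (z : ℕ) : z &&& 65280 = 256 * (z / 256 % 256) := by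
  have h := t3l_split 8 (z / 256) (z % 256) (2 ^ 8 - 1) 0 (by omega) (by norm_num)
  rw [Nat.and_two_pow_sub_one_eq_mod, Nat.and_zero, show 2 ^ 8 * (z / 256) + z % 256 = z by omega]
    at h
  exact h

private lemma t3l_sp2 {y : ℕ} (hy : y < 2 ^ 16) :
    (y * lC2) &&& lM2 = 2 ^ 96 * (256 * (y / 256)) + 256 * (y % 256) := by
  have e1 : y * lC2 = 2 ^ 96 * y + 256 * y := by
    rw [show lC2 = 2 ^ 96 + 256 from rfl]; ring
  rw [e1, show lM2 = 2 ^ 96 * 65280 + 65280 from rfl, t3l_split _ _ _ _ _ (by omega) (by norm_num),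
    t3l_ff, t3l_ff]
  omega

private lemma t3l_sp3 {y : ℕ} (hy : y < 2 ^ 24) : (y * lC1) &&& lM1 =
    2 ^ 96 * (2 ^ 96 * (2 ^ 96 * (256 * (y / 65536))) + 256 * (y / 256 % 256)) + 256 * (y % 256) := by
  have e1 : y * lC1 =
      2 ^ 96 * (2 ^ 96 * (2 ^ 96 * (y / 256) + 2 ^ 88 * (y % 256)) + y) + 256 * y := by
    rw [show lC1 = 2 ^ 96 * (2 ^ 96 * 2 ^ 88) + 2 ^ 96 + 256 from rfl]
    omega
  rw [e1, show lM1 = 2 ^ 96 * (2 ^ 96 * (2 ^ 96 * 65280 + 0) + 65280) + 65280 from rfl,
    t3l_split _ _ _ _ _ (by omega) (by norm_num), t3l_split _ _ _ _ _ (by omega) (by norm_num),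
    t3l_split _ _ _ _ _ (by omega) (by norm_num), t3l_ff, t3l_ff, t3l_ff, Nat.and_zero]
  omega

/-- The lanes of a packed cross matrix. -/
def crL (a b : ℤ) (l : ℕ) : ℤ := if l = 2 then a else if l = 5 then b else 0

private lemma t3l_cro {μ : ℕ → ℝ} (hμ : MonOK μ) {s r1 r2 : ℝ} {N : ℕ} (h : CroP s r1 r2 N) :
    N ≤ (2 ^ 96) ^ 6 ∧ ∃ c : ℕ → ℤ, Rp N c ∧ (∀ l, |c l| ≤ 2 ^ 29) ∧ ∀ x0 x1 x2 : ℝ,
      sumQ μ c x0 x1 x2 = 2 ^ 20 * (s * (2 * r1 * (x0 * x1) + 2 * r2 * (x0 * x2))) := by
  obtain ⟨a, b, ha, hb, hN, ea, eb⟩ := h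
  refine ⟨?_, crL a b, ?_, fun l => ?_, fun x0 x1 x2 => ?_⟩
  · rw [pow_mul, pow_mul] at hN
    have := le_abs_self a
    have := le_abs_self b
    norm_num at hN ⊢
    omega
  · have e : ∀ l, crL a b l * 2 ^ (96 * l) = (if l = 2 then a * 2 ^ (96 * l) else 0)
        + if l = 5 then b * 2 ^ (96 * l) else 0 := fun l => by
      unfold crL
      split_ifs <;> omega
    unfold Rp
    simp only [e, sum_add_distrib, sum_ite_eq', mem_range]
    rw [hN, if_pos (by norm_num), if_pos (by norm_num)]
  · unfold crL
    split_ifs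
    · exact ha
    · exact hb
    · norm_num
  · unfold sumQ
    rw [sum_eq_single_of_mem 0 (by norm_num) fun m _ hm => ?_, hμ.one]
    · simp only [slotQ, crL]
      norm_num
      rw [ea, eb]
      ring
    · simp only [slotQ, crL]
      rw [if_neg (by omega), if_neg (by omega), if_neg (by omega), if_neg (by omega),
        if_neg (by omega), if_neg (by omega), if_neg (by omega), if_neg (by omega),
        if_neg (by omega), if_neg (by omega), if_neg (by omega), if_neg (by omega)]
      simp

theorem t3l_sumQ (μ : ℕ → ℝ) (c d : ℕ → ℤ) (x0 x1 x2 : ℝ) :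
    sumQ μ (fun l => c l + d l) x0 x1 x2 = sumQ μ c x0 x1 x2 + sumQ μ d x0 x1 x2 := by
  simp only [sumQ, ← sum_add_distrib, slotQ]
  refine sum_congr rfl fun m _ => ?_
  push_cast
  ring

theorem t3l_quad (k r1 r2 t : ℝ) (U V : Mat 3) (x0 x1 x2 : ℝ) :
    ![x0, x1, x2] ⬝ᵥ (Wm k r1 r2 U V t).mulVec ![x0, x1, x2] =
      ![x0, x1, x2 - t * k * x1] ⬝ᵥ U.mulVec ![x0, x1, x2 - t * k * x1]
        + ![x0, x1, x2 + t * k * x1] ⬝ᵥ V.mulVec ![x0, x1, x2 + t * k * x1]
        + 2 * t * (2 * r1 * (x0 * x1) + 2 * r2 * (x0 * x2)) := by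
  rw [Wm_eq]
  simp [mulVec, dotProduct, Fin.sum_univ_three]
  ring

theorem t3l_wit (W : Mat 3) (x y z : Fin 3 → ℝ) (hn : x ⬝ᵥ x + y ⬝ᵥ y + z ⬝ᵥ z ≤ 2 ^ 34)
    (h : 1 ≤ 2 ^ 20 * (x ⬝ᵥ W.mulVec x + y ⬝ᵥ W.mulVec y + z ⬝ᵥ W.mulVec z)) :
    ∃ A : Mat 3, A.PosSemidef ∧ A.trace ≤ 1 ∧ 1 / 2 ^ 54 ≤ (A * W).trace ∧
      (x 1 = 0 → y 1 = 0 → z 1 = 0 → A 1 1 = 0) := by
  have p : ∀ x : Fin 3 → ℝ, (vecMulVec x x).PosSemidef := fun x => by
    simpa only [star_trivial] using posSemidef_vecMulVec_self_star x
  refine ⟨(1 / 2 ^ 34 : ℝ) • (vecMulVec x x + vecMulVec y y + vecMulVec z z),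
    (((p x).add (p y)).add (p z)).smul (by positivity), ?_, ?_, fun a b c => ?_⟩
  · simp only [trace, dotProduct, Fin.sum_univ_three, diag_apply, Matrix.smul_apply,
      Matrix.add_apply, vecMulVec_apply, smul_eq_mul] at hn ⊢
    linarith
  · simp only [trace, dotProduct, mulVec, Fin.sum_univ_three, diag_apply, Matrix.smul_apply,
      Matrix.add_apply, vecMulVec_apply, smul_eq_mul, Matrix.mul_apply] at h ⊢
    linarith
  · simp only [Matrix.smul_apply, Matrix.add_apply, vecMulVec_apply, a, b, c]
    simp

private lemma t3l_gam {y : ℕ} (hy : y < 2 ^ 16) : ∃ g0 g2 : ℤ,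
    ((((y * lC2) &&& lM2) - 32768 : ℕ) : ℤ) = pk g0 0 g2 ∧ 0 ≤ g0 ∧ g0 ≤ 65280 ∧ |g2| ≤ 32768 := by
  rw [t3l_sp2 hy]
  simp only [t3l_pk, abs_le]
  by_cases h : 32768 ≤ 2 ^ 96 * (256 * (y / 256)) + 256 * (y % 256)
  · exact ⟨256 * (y / 256 : ℕ), 256 * (y % 256 : ℕ) - 32768, by omega, by omega, by omega,
      by omega, by omega⟩
  · exact ⟨0, 0, by omega, le_rfl, by norm_num, by norm_num, by norm_num⟩

private lemma t3l_base {y : ℕ} (hy : y < 2 ^ 24) : ∃ w0 w2 : ℤ,
    ((((y * lC1) &&& lM1) + lO1 : ℕ) : ℤ) = pk w0 (256 * (y / 65536 + 1 : ℕ)) w2 ∧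
      |w0| ≤ 32768 ∧ |w2| ≤ 32768 := by
  rw [t3l_sp3 hy, show lO1 =
    127314748520905380391777855525586135065716774604121015662162629655381417420943295971819520
    from rfl]
  simp only [t3l_pk, abs_le]
  exact ⟨256 * (y / 256 % 256 : ℕ) - 32768, 256 * (y % 256 : ℕ) - 32768, by omega,
    ⟨by omega, by omega⟩, by omega, by omega⟩

private lemma t3l_sq {a : ℤ} {M : ℝ} (h : |(a : ℝ)| ≤ M) : (a : ℝ) * a ≤ M * M := by
  rw [← abs_mul_abs_self]
  exact mul_self_le_mul_self (abs_nonneg _) h

theorem farLeaf_sound {k r1 r2 t0 ρ τ : ℝ} {μ : ℕ → ℝ} {PU QV T0 Rr TC RC x : ℕ} {FU FV : Mat 3}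
    (hμ : MonOK μ) (hU : Low μ PU FU) (hV : Low μ QV FV)
    (hT : (T0 : ℝ) = 256 * (k * t0)) (hT' : T0 ≤ 4096) (hR : (Rr : ℝ) = 256 * (k * ρ))
    (hR' : Rr ≤ 4096) (hC : CroP t0 r1 r2 TC) (hD : CroP (2 * ρ) r1 r2 RC) (hx : x < 2 ^ 48)
    (hτ : |τ| ≤ 1) (h : farLeaf PU QV T0 Rr TC RC x = true) :
    ∃ A : Mat 3, A.PosSemidef ∧ A.trace ≤ 1 ∧
      1 / 2 ^ 54 ≤ (A * Wm k r1 r2 FU FV (t0 + ρ * τ)).trace := by
  obtain ⟨hU1, cU, bU, rU, lU⟩ := hU
  obtain ⟨hV1, cV, bV, rV, lV⟩ := hV
  obtain ⟨hC1, cT, rT, bT, eT⟩ := t3l_cro hμ hC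
  obtain ⟨hD1, cR, rR, bR, eR⟩ := t3l_cro hμ hD
  have hy : x >>> 24 < 2 ^ 24 := by rw [Nat.shiftRight_eq_div_pow]; omega
  have hz : (x >>> 8) &&& 65535 < 2 ^ 16 := Nat.and_lt_two_pow _ (by norm_num)
  have hh : x &&& 255 < 2 ^ 8 := Nat.and_lt_two_pow _ (by norm_num)
  have hw : x >>> 40 + 1 = x >>> 24 / 65536 + 1 := by
    rw [Nat.shiftRight_eq_div_pow, Nat.shiftRight_eq_div_pow]; omega
  obtain ⟨w0, w2, eb, b0, b2⟩ := t3l_base hy
  obtain ⟨g0, g2, eg, c0, c1, c2⟩ := t3l_gam hz
  have h1 : far1 PU QV Rr TC RC (((x >>> 24 * lC1) &&& lM1) + lO1)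
      (((((x >>> 8) &&& 65535) * lC2) &&& lM2) - 32768) ((x &&& 255) <<< 8) (x >>> 40 + 1)
      (T0 * (x >>> 40 + 1)) = true := h
  rw [hw, Nat.shiftLeft_eq] at h1
  have w1 : 1 ≤ x >>> 24 / 65536 + 1 ∧ x >>> 24 / 65536 + 1 ≤ 256 := by omega
  generalize x >>> 24 / 65536 + 1 = w at eb h1 w1
  generalize ((x >>> 24 * lC1) &&& lM1) + lO1 = base at eb h1
  generalize ((((x >>> 8) &&& 65535) * lC2) &&& lM2) - 32768 = gam at eg h1
  generalize x &&& 255 = e at hh h1
  have t1 : T0 * w ≤ 4096 * 256 := Nat.mul_le_mul hT' w1.2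
  have t2 : Rr * w ≤ 4096 * 256 := Nat.mul_le_mul hR' w1.2
  have a0 := abs_le.1 b0
  have a2 := abs_le.1 b2
  have t3 : T0 * w ≤ base := by
    rw [t3l_pk] at eb
    omega
  have aw : |(256 * w : ℤ)| ≤ 65536 := abs_le.2 ⟨by omega, by omega⟩
  have au : |w2 - (T0 * w : ℕ)| ≤ 1081344 := abs_le.2 ⟨by omega, by omega⟩
  have av : |w2 + (T0 * w : ℕ)| ≤ 1081344 := abs_le.2 ⟨by omega, by omega⟩
  have ag : |g0| ≤ 65280 := abs_le.2 ⟨by omega, c1⟩
  have hQ : QV + TC ≤ 3 * 2 ^ (96 * 133) := by
    have : (2 ^ 96) ^ 6 ≤ 2 ^ (96 * 133) := by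
      rw [← pow_mul]; exact Nat.pow_le_pow_right (by norm_num) (by norm_num)
    generalize 2 ^ (96 * 133) = X at this hV1 ⊢
    generalize (2 ^ 96) ^ 6 = Y at this hC1
    omega
  have s := far2_sound hμ hτ (u := w2 - (T0 * w : ℕ)) (v := w2 + (T0 * w : ℕ))
    (bu := base - T0 * w) (bv := base + T0 * w) (del := Rr * w) (hs := e * 2 ^ 8)
    ((Rp.add rU rT).of_eq (Nat.cast_add _ _)) ((Rp.add rV rT).of_eq (Nat.cast_add _ _)) rR
    (fun l => (abs_add_le _ _).trans (by linarith [bU l, bT l]))
    (fun l => (abs_add_le _ _).trans (by linarith [bV l, bT l]))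
    (fun l => (bR l).trans (by norm_num)) hQ hD1 eb
    (by rw [Nat.cast_sub t3, eb, pk, pk]; ring) (by rw [Nat.cast_add, eb, pk, pk]; ring) eg
    (by linarith) (by linarith) (by linarith) (by rw [abs_zero]; linarith) (by omega)
    (by omega) h1
  simp only [t3l_sumQ, eT, eR] at s
  push_cast at s
  rw [hT, hR] at s
  have q0 : |(w0 : ℝ)| ≤ 32768 := by exact_mod_cast b0
  have q1 : |((256 * w : ℤ) : ℝ)| ≤ 65536 := by exact_mod_cast aw
  have q2 : |(w2 : ℝ)| ≤ 32768 := by exact_mod_cast b2
  have q3 : |(g0 : ℝ)| ≤ 65280 := by exact_mod_cast ag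
  have q4 : |(g2 : ℝ)| ≤ 32768 := by exact_mod_cast c2
  have q5 : |((e * 256 : ℤ) : ℝ)| ≤ 65280 := by
    exact_mod_cast (abs_le.2 ⟨by omega, by omega⟩ : |(e * 256 : ℤ)| ≤ 65280)
  obtain ⟨A, p1, p2, p3, -⟩ := t3l_wit (Wm k r1 r2 FU FV (t0 + ρ * τ)) ![w0, 256 * w, w2]
    ![g0, 0, g2] ![0, 0, e * 256]
    (by
      have := t3l_sq q0
      have := t3l_sq q1
      have := t3l_sq q2
      have := t3l_sq q3
      have := t3l_sq q4
      have := t3l_sq q5
      push_cast at *
      simp [dotProduct, Fin.sum_univ_three]
      linarith)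
    (by
      have u1 := lU w0 (256 * w) (w2 - (t0 + ρ * τ) * k * (256 * w))
      have v1 := lV w0 (256 * w) (w2 + (t0 + ρ * τ) * k * (256 * w))
      have u2 := lU g0 0 g2
      have v2 := lV g0 0 g2
      have u3 := lU 0 0 (e * 256)
      have v3 := lV 0 0 (e * 256)
      rw [show (w2 : ℝ) - 256 * (k * t0) * w - τ * (256 * (k * ρ) * w)
          = w2 - (t0 + ρ * τ) * k * (256 * w) by ring,
        show (w2 : ℝ) + 256 * (k * t0) * w + τ * (256 * (k * ρ) * w)
          = w2 + (t0 + ρ * τ) * k * (256 * w) by ring] at s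
      simp only [t3l_quad, mul_zero, sub_zero, add_zero]
      unfold sumQ at s
      linarith)
  exact ⟨A, p1, p2, p3⟩

theorem infLeaf_sound {k r1 r2 t1 t : ℝ} {μ : ℕ → ℝ} {PU QV TI x : ℕ} {FU FV : Mat 3}
    (hμ : MonOK μ) (hU : Low μ PU FU) (hV : Low μ QV FV) (hr : 0 ≤ r2)
    (hC : CroP (2 * t1) r1 r2 TI) (hx : x < 2 ^ 24) (ht : t1 ≤ t)
    (h : infLeaf PU QV TI x = true) :
    ∃ A : Mat 3, A.PosSemidef ∧ A.trace ≤ 1 ∧
      1 / 2 ^ 54 ≤ (A * Wm k r1 r2 FU FV t).trace ∧ A 1 1 = 0 := by
  obtain ⟨-, cU, bU, rU, lU⟩ := hU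
  obtain ⟨-, cV, bV, rV, lV⟩ := hV
  obtain ⟨-, cT, rT, bT, eT⟩ := t3l_cro hμ hC
  have hz : x >>> 8 < 2 ^ 16 := by rw [Nat.shiftRight_eq_div_pow]; omega
  have hh : x &&& 255 < 2 ^ 8 := Nat.and_lt_two_pow _ (by norm_num)
  have h1 : inf1 (PU + QV + TI) ((x >>> 8 * lC2) &&& lM2) ((x &&& 255) <<< 8) = true := h
  have eg : (((x >>> 8 * lC2) &&& lM2 : ℕ) : ℤ) =
      pk (256 * (x >>> 8 / 256) : ℕ) 0 (256 * (x >>> 8 % 256) : ℕ) := by
    rw [t3l_sp2 hz, t3l_pk]
    omega
  have c0 : 256 * (x >>> 8 / 256) ≤ 65280 := by omega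
  have c2 : 256 * (x >>> 8 % 256) ≤ 65280 := by omega
  have c3 : (x &&& 255) <<< 8 ≤ 65280 := by rw [Nat.shiftLeft_eq]; omega
  generalize 256 * (x >>> 8 / 256) = g0 at eg c0
  generalize 256 * (x >>> 8 % 256) = g2 at eg c2
  generalize (x >>> 8 * lC2) &&& lM2 = gam at eg h1
  generalize (x &&& 255) <<< 8 = e at c3 h1
  have rD := (Rp.add rU rV).add rT
  have bD : ∀ l, |cU l + cV l + cT l| ≤ 2 ^ 31 := fun l =>
    (abs_add_three _ _ _).trans (by linarith [bU l, bV l, bT l])
  have ng : |(g0 : ℤ)| + |0| + |(g2 : ℤ)| ≤ 2 ^ 21 := by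
    rw [abs_zero, Nat.abs_cast, Nat.abs_cast]; omega
  have ne : |(0 : ℤ)| + |0| + |(e : ℤ)| ≤ 2 ^ 21 := by
    rw [abs_zero, Nat.abs_cast]; omega
  have r := (((rD.mulV g0 0 g2).mulV g0 0 g2).add ((rD.mulV 0 0 e).mulV 0 0 e)).of_eq
      (N' := (((PU + QV + TI) * (gam * gam + e * e) + lBIAS : ℕ) : ℤ) - lBIAS) (by
    rw [← eg, show pk 0 0 e = e by simp [pk]]
    push_cast
    ring)
  have s := one_sound hμ r (fun l => by
    have := t3l_b2 bD ng ng l
    have := t3l_b2 bD ne ne l
    rw [abs_lt]; omega) h1
  have s' : 1 ≤ sumQ μ cU g0 0 g2 + sumQ μ cV g0 0 g2 + sumQ μ cT g0 0 g2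
      + (sumQ μ cU 0 0 e + sumQ μ cV 0 0 e + sumQ μ cT 0 0 e) := by
    refine s.trans (le_of_eq ?_)
    simp only [sumQ, ← sum_add_distrib]
    refine sum_congr rfl fun m _ => ?_
    simp only [mulV_lane, slotQ]
    push_cast
    ring
  rw [eT, eT] at s'
  have q0 : (g0 : ℝ) * g0 ≤ 65280 * 65280 := by exact_mod_cast Nat.mul_le_mul c0 c0
  have q2 : (g2 : ℝ) * g2 ≤ 65280 * 65280 := by exact_mod_cast Nat.mul_le_mul c2 c2
  have q3 : (e : ℝ) * e ≤ 65280 * 65280 := by exact_mod_cast Nat.mul_le_mul c3 c3
  obtain ⟨A, p1, p2, p3, p4⟩ := t3l_wit (Wm k r1 r2 FU FV t) ![0, 0, 0] ![g0, 0, g2] ![0, 0, e]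
    (by
      simp [dotProduct, Fin.sum_univ_three]
      linarith)
    (by
      have u2 := lU g0 0 g2
      have v2 := lV g0 0 g2
      have u3 := lU 0 0 e
      have v3 := lV 0 0 e
      have m : 0 ≤ (t - t1) * (r2 * ((g0 : ℝ) * g2)) :=
        mul_nonneg (sub_nonneg.2 ht) (by positivity)
      have z : ∀ W : Mat 3, ![0, 0, 0] ⬝ᵥ W.mulVec ![0, 0, 0] = 0 := fun W => by
        simp [dotProduct, Fin.sum_univ_three]
      rw [z]
      simp only [t3l_quad, mul_zero, sub_zero, add_zero]
      unfold sumQ at s'
      linarith)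
  exact ⟨A, p1, p2, p3, p4 rfl rfl rfl⟩

end Pool.Agent.P.MP_f12b6c_an
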