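import Pool.Agent.P.MP_f12b6c_an.T3Alg

/-!
Polynomial profiles given by lists of monomials, and the reduced Hessian as a quotient of
polynomials written over arbitrary operations.
-/

namespace Pool.Agent.P.MP_f12b6c_an

open Matrix

/-- A monomial in three variables with an integer coefficient. -/
structure Mono where
  c : ℤ
  i : ℕ
  j : ℕ
  k : ℕ

/-- The value of a list of monomials. -/
noncomputable def evL : List Mono → ℝ → ℝ → ℝ → ℝ
  | [], _, _, _ => 0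
  | q :: l, a, b, c => (q.c : ℝ) * (a ^ q.i * b ^ q.j * c ^ q.k) + evL l a b c

/-- Derivative in the first variable. -/
def dL0 : List Mono → List Mono
  | [] => []
  | ⟨_, 0, _, _⟩ :: l => dL0 l
  | ⟨c, n + 1, j, k⟩ :: l => ⟨c * (n + 1 : ℕ), n, j, k⟩ :: dL0 l

/-- Derivative in the second variable. -/
def dL1 : List Mono → List Mono
  | [] => []
  | ⟨_, _, 0, _⟩ :: l => dL1 l
  | ⟨c, i, n + 1, k⟩ :: l => ⟨c * (n + 1 : ℕ), i, n, k⟩ :: dL1 l

/-- Derivative in the third variable. -/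
def dL2 : List Mono → List Mono
  | [] => []
  | ⟨_, _, _, 0⟩ :: l => dL2 l
  | ⟨c, i, j, n + 1⟩ :: l => ⟨c * (n + 1 : ℕ), i, j, n⟩ :: dL2 l

/-- All monomials have degree at most `L`. -/
def degLe (L : ℕ) (l : List Mono) : Prop := ∀ q ∈ l, q.i + q.j + q.k ≤ L

instance (L : ℕ) (l : List Mono) : Decidable (degLe L l) := by unfold degLe; infer_instance

/-- All monomials are odd in the last two variables. -/
def oddL (l : List Mono) : Prop := ∀ q ∈ l, (q.j + q.k) % 2 = 1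

instance (l : List Mono) : Decidable (oddL l) := by unfold oddL; infer_instance

/-- The profile with integer coefficients `l` and denominator `D`. -/
noncomputable def pol (D : ℕ) (l : List Mono) (y : E 3) : ℝ := evL l (y 0) (y 1) (y 2) / D

theorem degLe_dL0 {L : ℕ} : ∀ {l : List Mono}, degLe (L + 1) l → degLe L (dL0 l)
  | [], _ => fun _ hq => by simp [dL0] at hq
  | ⟨_, 0, _, _⟩ :: l, h => by
    rw [dL0]; exact degLe_dL0 fun q hq => h q (List.mem_cons_of_mem _ hq)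
  | ⟨c, n + 1, j, k⟩ :: l, h => by
    rw [dL0]
    intro q hq
    rcases List.mem_cons.1 hq with rfl | hq
    · have := h _ List.mem_cons_self
      simp only at this ⊢
      omega
    · exact degLe_dL0 (fun q hq => h q (List.mem_cons_of_mem _ hq)) q hq

theorem degLe_dL1 {L : ℕ} : ∀ {l : List Mono}, degLe (L + 1) l → degLe L (dL1 l)
  | [], _ => fun _ hq => by simp [dL1] at hq
  | ⟨_, _, 0, _⟩ :: l, h => by
    rw [dL1]; exact degLe_dL1 fun q hq => h q (List.mem_cons_of_mem _ hq)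
  | ⟨c, i, n + 1, k⟩ :: l, h => by
    rw [dL1]
    intro q hq
    rcases List.mem_cons.1 hq with rfl | hq
    · have := h _ List.mem_cons_self
      simp only at this ⊢
      omega
    · exact degLe_dL1 (fun q hq => h q (List.mem_cons_of_mem _ hq)) q hq

theorem degLe_dL2 {L : ℕ} : ∀ {l : List Mono}, degLe (L + 1) l → degLe L (dL2 l)
  | [], _ => fun _ hq => by simp [dL2] at hq
  | ⟨_, _, _, 0⟩ :: l, h => by
    rw [dL2]; exact degLe_dL2 fun q hq => h q (List.mem_cons_of_mem _ hq)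
  | ⟨c, i, j, n + 1⟩ :: l, h => by
    rw [dL2]
    intro q hq
    rcases List.mem_cons.1 hq with rfl | hq
    · have := h _ List.mem_cons_self
      simp only at this ⊢
      omega
    · exact degLe_dL2 (fun q hq => h q (List.mem_cons_of_mem _ hq)) q hq

private lemma t3p_d0 (q : Mono) (l : List Mono) (a b c : ℝ) : evL (dL0 (q :: l)) a b c =
    (q.c : ℝ) * ((q.i : ℝ) * a ^ (q.i - 1) * b ^ q.j * c ^ q.k) + evL (dL0 l) a b c := by
  obtain ⟨e, _ | n, j, k⟩ := q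
  · simp [dL0]
  · simp only [dL0, evL, Nat.add_sub_cancel]; push_cast; ring

private lemma t3p_d1 (q : Mono) (l : List Mono) (a b c : ℝ) : evL (dL1 (q :: l)) a b c =
    (q.c : ℝ) * (a ^ q.i * ((q.j : ℝ) * b ^ (q.j - 1)) * c ^ q.k) + evL (dL1 l) a b c := by
  obtain ⟨e, i, _ | n, k⟩ := q
  · simp [dL1]
  · simp only [dL1, evL, Nat.add_sub_cancel]; push_cast; ring

private lemma t3p_d2 (q : Mono) (l : List Mono) (a b c : ℝ) : evL (dL2 (q :: l)) a b c =
    (q.c : ℝ) * (a ^ q.i * b ^ q.j * ((q.k : ℝ) * c ^ (q.k - 1))) + evL (dL2 l) a b c := by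
  obtain ⟨e, i, j, _ | n⟩ := q
  · simp [dL2]
  · simp only [dL2, evL, Nat.add_sub_cancel]; push_cast; ring

private lemma t3p_cd (n : WithTop ℕ∞) : ∀ l : List Mono,
    ContDiff ℝ n fun y : E 3 => evL l (y 0) (y 1) (y 2)
  | [] => contDiff_const
  | q :: l => by
    have := t3p_cd n l
    simp only [evL]
    fun_prop

theorem pol_contDiff (n : WithTop ℕ∞) (D : ℕ) (l : List Mono) : ContDiff ℝ n (pol D l) :=
  (t3p_cd n l).div_const _

private lemma t3p_fd (y v : E 3) : ∀ l : List Mono,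
    fderiv ℝ (fun y : E 3 => evL l (y 0) (y 1) (y 2)) y v =
      evL (dL0 l) (y 0) (y 1) (y 2) * v 0 + evL (dL1 l) (y 0) (y 1) (y 2) * v 1 +
        evL (dL2 l) (y 0) (y 1) (y 2) * v 2
  | [] => by simp [evL, dL0, dL1, dL2]
  | q :: l => by
    have ih := t3p_fd y v l
    have hd := ((t3p_cd 1 l).differentiable (by simp) y).hasFDerivAt
    have hp : ∀ n : Fin 3, HasFDerivAt (fun y : E 3 => y n)
        (EuclideanSpace.proj (𝕜 := ℝ) n : E 3 →L[ℝ] ℝ) y :=
      fun n => (EuclideanSpace.proj (𝕜 := ℝ) n : E 3 →L[ℝ] ℝ).hasFDerivAt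
    have h := ((((((hp 0).pow q.i).fun_mul ((hp 1).pow q.j)).fun_mul
      ((hp 2).pow q.k)).const_mul (q.c : ℝ)).fun_add hd).fderiv
    simp only [evL]
    rw [h, t3p_d0, t3p_d1, t3p_d2]
    simp only [_root_.add_apply, _root_.smul_apply, ih, smul_eq_mul,
      nsmul_eq_mul, PiLp.proj_apply]
    ring

private lemma t3p_pfd (D : ℕ) (l : List Mono) (y v : E 3) :
    fderiv ℝ (pol D l) y v =
      pol D (dL0 l) y * v 0 + pol D (dL1 l) y * v 1 + pol D (dL2 l) y * v 2 := by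
  have hd := ((t3p_cd 1 l).differentiable (by simp) y).hasFDerivAt
  have h : fderiv ℝ (pol D l) y = _ := (hd.mul_const ((D : ℝ)⁻¹)).fderiv
  rw [h]
  simp only [_root_.smul_apply, t3p_fd, smul_eq_mul, pol]
  ring

theorem grad_pol (D : ℕ) (l : List Mono) (y : E 3) :
    grad (pol D l) y = ![pol D (dL0 l) y, pol D (dL1 l) y, pol D (dL2 l) y] := by
  funext i
  fin_cases i <;> simp [grad, t3p_pfd]

private lemma t3p_hess (D : ℕ) (l : List Mono) (y : E 3) (i j : Fin 3) :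
    hess (pol D l) y i j =
      fderiv ℝ (fun z => fderiv ℝ (pol D l) z (EuclideanSpace.single j 1)) y
        (EuclideanSpace.single i 1) := by
  have h1 : DifferentiableAt ℝ (fderiv ℝ (pol D l)) y :=
    (((pol_contDiff 2 D l).fderiv_right (m := 1) (by norm_num)).differentiable (by simp)) y
  rw [fderiv_clm_apply h1 (differentiableAt_const _)]
  simp [hess]

theorem hess_pol (D : ℕ) (l : List Mono) (y : E 3) :
    hess (pol D l) y =
      !![pol D (dL0 (dL0 l)) y, pol D (dL0 (dL1 l)) y, pol D (dL0 (dL2 l)) y;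
         pol D (dL0 (dL1 l)) y, pol D (dL1 (dL1 l)) y, pol D (dL1 (dL2 l)) y;
         pol D (dL0 (dL2 l)) y, pol D (dL1 (dL2 l)) y, pol D (dL2 (dL2 l)) y] := by
  have e0 : (fun z => fderiv ℝ (pol D l) z (EuclideanSpace.single 0 1)) = pol D (dL0 l) :=
    funext fun z => by simp [t3p_pfd]
  have e1 : (fun z => fderiv ℝ (pol D l) z (EuclideanSpace.single 1 1)) = pol D (dL1 l) :=
    funext fun z => by simp [t3p_pfd]
  have e2 : (fun z => fderiv ℝ (pol D l) z (EuclideanSpace.single 2 1)) = pol D (dL2 l) :=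
    funext fun z => by simp [t3p_pfd]
  have hs := hess_symm ((pol_contDiff 2 D l).contDiffAt (x := y))
  have h00 : hess (pol D l) y 0 0 = pol D (dL0 (dL0 l)) y := by
    rw [t3p_hess, e0]; simp [t3p_pfd]
  have h01 : hess (pol D l) y 0 1 = pol D (dL0 (dL1 l)) y := by
    rw [t3p_hess, e1]; simp [t3p_pfd]
  have h02 : hess (pol D l) y 0 2 = pol D (dL0 (dL2 l)) y := by
    rw [t3p_hess, e2]; simp [t3p_pfd]
  have h11 : hess (pol D l) y 1 1 = pol D (dL1 (dL1 l)) y := by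
    rw [t3p_hess, e1]; simp [t3p_pfd]
  have h12 : hess (pol D l) y 1 2 = pol D (dL1 (dL2 l)) y := by
    rw [t3p_hess, e2]; simp [t3p_pfd]
  have h22 : hess (pol D l) y 2 2 = pol D (dL2 (dL2 l)) y := by
    rw [t3p_hess, e2]; simp [t3p_pfd]
  have h10 := (hs.apply 0 1).trans h01
  have h20 := (hs.apply 0 2).trans h02
  have h21 := (hs.apply 1 2).trans h12
  ext i j
  fin_cases i <;> fin_cases j <;> simp [h00, h01, h02, h11, h12, h22, h10, h20, h21]

theorem pol_odd (D : ℕ) {l : List Mono} (h : oddL l) (y : E 3) :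
    pol D l (sigE y) = -pol D l y := by
  have key : ∀ l : List Mono, oddL l → ∀ a b c : ℝ, evL l a (-b) (-c) = -evL l a b c := by
    intro l
    induction l with
    | nil => intro _ a b c; simp [evL]
    | cons q l ih =>
      intro h a b c
      have h1 := h q List.mem_cons_self
      have h2 : (-b) ^ q.j * (-c) ^ q.k = -(b ^ q.j * c ^ q.k) := by
        rw [neg_pow b, neg_pow c, mul_mul_mul_comm, ← pow_add,
          (Nat.odd_iff.2 h1).neg_one_pow, neg_one_mul]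
      simp only [evL]
      rw [ih (fun q hq => h q (List.mem_cons_of_mem _ hq)), mul_assoc (a ^ q.i), h2]
      ring
  unfold pol
  have e0 : sigE y 0 = y 0 := rfl
  have e1 : sigE y 1 = -y 1 := rfl
  have e2 : sigE y 2 = -y 2 := rfl
  rw [e0, e1, e2, key l h, neg_div]

/-- Arithmetic operations on a type. -/
structure Ops (R : Type) where
  ad : R → R → R
  sb : R → R → R
  mu : R → R → R
  sm : ℤ → R → R
  one : R

/-- A map that respects the operations. -/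
structure Ops.Hom {R S : Type} (o : Ops R) (o' : Ops S) (φ : R → S) : Prop where
  ad : ∀ a b, φ (o.ad a b) = o'.ad (φ a) (φ b)
  sb : ∀ a b, φ (o.sb a b) = o'.sb (φ a) (φ b)
  mu : ∀ a b, φ (o.mu a b) = o'.mu (φ a) (φ b)
  sm : ∀ n a, φ (o.sm n a) = o'.sm n (φ a)
  one : φ o.one = o'.one

/-- The operations of the real numbers. -/
noncomputable def opsR : Ops ℝ := ⟨(· + ·), (· - ·), (· * ·), fun n a => (n : ℝ) * a, 1⟩

/-- Powers. -/
def Ops.pw {R : Type} (o : Ops R) (x : R) : ℕ → R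
  | 0 => o.one
  | n + 1 => o.mu x (o.pw x n)

/-- The homogenisation of degree `L` of a list of monomials. -/
def Ops.hom {R : Type} (o : Ops R) (L : ℕ) (a b c w : R) : List Mono → R
  | [] => o.sm 0 o.one
  | q :: l => o.ad (o.sm q.c (o.mu (o.mu (o.pw a q.i) (o.pw b q.j))
      (o.mu (o.pw c q.k) (o.pw w (L - (q.i + q.j + q.k)))))) (o.hom L a b c w l)

/-- The six entries of a symmetric `3 × 3` matrix. -/
structure Six (R : Type) where
  f00 : R
  f01 : R
  f02 : R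
  f11 : R
  f12 : R
  f22 : R

/-- Entrywise map. -/
def Six.map {R S : Type} (φ : R → S) (h : Six R) : Six S :=
  ⟨φ h.f00, φ h.f01, φ h.f02, φ h.f11, φ h.f12, φ h.f22⟩

/-- The symmetric matrix with the given entries. -/
def Six.mat (h : Six ℝ) : Mat 3 :=
  !![h.f00, h.f01, h.f02; h.f01, h.f11, h.f12; h.f02, h.f12, h.f22]

/-- The numerator of the reduced Hessian from the homogenised jet `v`, `g`, `h` and the power
`u` of `w`; here `k = kn / kd`. -/
def Ops.num1 {R : Type} (o : Ops R) (kn kd r1 r2 : ℤ) (a b c w u v g0 g1 g2 : R) (h : Six R) :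
    Six R :=
  let d := o.ad (o.sm kd (o.mu w w)) (o.sm kn (o.mu b c))
  let z0 := o.sm kd a
  let z1 := o.sm kd b
  let z2 := o.ad (o.sm kd c) (o.sm kn b)
  let s := o.ad (o.sm r1 b) (o.sm r2 c)
  let C := o.ad (o.sb (o.sm (2 * kd) v) (o.ad (o.ad (o.mu g0 z0) (o.mu g1 z1)) (o.mu g2 z2)))
    (o.mu (o.mu z0 s) u)
  let e0 := o.ad (o.sb (o.sm kd g0)
    (o.ad (o.ad (o.mu h.f00 z0) (o.mu h.f01 z1)) (o.mu h.f02 z2))) (o.sm kd (o.mu s u))
  let e1 := o.ad (o.sb (o.sb (o.sm kd g1) (o.sm kn g2))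
    (o.ad (o.ad (o.mu h.f01 z0) (o.mu h.f11 z1)) (o.mu h.f12 z2))) (o.sm r1 (o.mu z0 u))
  let e2 := o.ad (o.sb (o.sm kd g2)
    (o.ad (o.ad (o.mu h.f02 z0) (o.mu h.f12 z1)) (o.mu h.f22 z2))) (o.sm r2 (o.mu z0 u))
  let E0 := o.mu d e0
  let E1 := o.sb (o.mu d e1) (o.sm kn (o.mu C c))
  let E2 := o.sb (o.mu d e2) (o.sm kn (o.mu C b))
  let Z := o.ad (o.ad (o.mu z0 E0) (o.mu z1 E1)) (o.mu z2 E2)
  let d2 := o.mu d d
  let d3 := o.mu d2 d
  let dC := o.mu d2 C
  ⟨o.sb (o.ad (o.ad (o.mu d3 h.f00) dC) (o.mu d (o.sm 2 (o.mu a E0)))) (o.mu Z (o.mu a a)),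
    o.sb (o.ad (o.mu d3 h.f01) (o.mu d (o.ad (o.mu a E1) (o.mu b E0)))) (o.mu Z (o.mu a b)),
    o.sb (o.ad (o.mu d3 h.f02) (o.mu d (o.ad (o.mu a E2) (o.mu c E0)))) (o.mu Z (o.mu a c)),
    o.sb (o.ad (o.ad (o.mu d3 h.f11) dC) (o.mu d (o.sm 2 (o.mu b E1)))) (o.mu Z (o.mu b b)),
    o.sb (o.ad (o.mu d3 h.f12) (o.mu d (o.ad (o.mu b E2) (o.mu c E1)))) (o.mu Z (o.mu b c)),
    o.sb (o.ad (o.ad (o.mu d3 h.f22) dC) (o.mu d (o.sm 2 (o.mu c E2)))) (o.mu Z (o.mu c c))⟩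

/-- The numerator of the reduced Hessian at the point `(a, b, c) / w` for a profile of degree at
most `L + 2`. -/
def Ops.num {R : Type} (o : Ops R) (kn kd r1 r2 : ℤ) (L : ℕ) (l : List Mono) (a b c w : R) :
    Six R :=
  o.num1 kn kd r1 r2 a b c w (o.pw w L) (o.hom (L + 2) a b c w l)
    (o.hom (L + 1) a b c w (dL0 l)) (o.hom (L + 1) a b c w (dL1 l)) (o.hom (L + 1) a b c w (dL2 l))
    ⟨o.hom L a b c w (dL0 (dL0 l)), o.hom L a b c w (dL0 (dL1 l)), o.hom L a b c w (dL0 (dL2 l)),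
      o.hom L a b c w (dL1 (dL1 l)), o.hom L a b c w (dL1 (dL2 l)), o.hom L a b c w (dL2 (dL2 l))⟩

/-- The denominator of the reduced Hessian, up to the denominator of the coefficients. -/
def Ops.den {R : Type} (o : Ops R) (kn kd : ℤ) (L : ℕ) (b c w : R) : R :=
  o.mu (o.pw w L) (o.pw (o.ad (o.sm kd (o.mu w w)) (o.sm kn (o.mu b c))) 3)

section Maps

variable {R S : Type} {o : Ops R} {o' : Ops S} {φ : R → S}

theorem Ops.Hom.pw (h : o.Hom o' φ) (x : R) : ∀ n, φ (o.pw x n) = o'.pw (φ x) n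
  | 0 => h.one
  | n + 1 => by rw [Ops.pw, Ops.pw, h.mu, h.pw x n]

theorem Ops.Hom.hom (h : o.Hom o' φ) (L : ℕ) (a b c w : R) :
    ∀ l, φ (o.hom L a b c w l) = o'.hom L (φ a) (φ b) (φ c) (φ w) l
  | [] => by rw [Ops.hom, Ops.hom, h.sm, h.one]
  | q :: l => by
    simp only [Ops.hom, h.ad, h.sm, h.mu, h.pw, h.hom L a b c w l]

theorem Ops.Hom.num (h : o.Hom o' φ) (kn kd r1 r2 : ℤ) (L : ℕ) (l : List Mono) (a b c w : R) :
    (o.num kn kd r1 r2 L l a b c w).map φ =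
      o'.num kn kd r1 r2 L l (φ a) (φ b) (φ c) (φ w) := by
  simp only [Ops.num, Ops.num1, Six.map, h.ad, h.sb, h.mu, h.sm, h.pw, h.hom]

theorem Ops.Hom.den (h : o.Hom o' φ) (kn kd : ℤ) (L : ℕ) (b c w : R) :
    φ (o.den kn kd L b c w) = o'.den kn kd L (φ b) (φ c) (φ w) := by
  simp only [Ops.den, h.ad, h.mu, h.sm, h.pw]

end Maps

theorem opsR_pw (x : ℝ) : ∀ n, opsR.pw x n = x ^ n
  | 0 => (pow_zero x).symm
  | n + 1 => by rw [Ops.pw, opsR_pw x n, pow_succ']; rfl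

theorem opsR_hom {L : ℕ} (a b c w : ℝ) : ∀ {l : List Mono}, degLe L l →
    opsR.hom L (w * a) (w * b) (w * c) w l = w ^ L * evL l a b c
  | [], _ => by simp [Ops.hom, evL, opsR]
  | q :: l, h => by
    obtain ⟨m, hm⟩ := Nat.exists_eq_add_of_le (h q List.mem_cons_self)
    rw [Ops.hom, opsR_hom a b c w (fun q hq => h q (List.mem_cons_of_mem _ hq)), evL]
    simp only [opsR_pw]
    rw [hm, Nat.add_sub_cancel_left]
    simp only [opsR]
    ring

theorem opsR_den (kn kd : ℤ) (L : ℕ) (b c w : ℝ) :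
    opsR.den kn kd L b c w = w ^ L * ((kd : ℝ) * (w * w) + kn * (b * c)) ^ 3 := by
  simp only [Ops.den, opsR_pw]
  rfl

private lemma t3p_sph {k r1 r2 a b c v g0 g1 g2 d C E0 E1 E2 : ℝ} {h : Six ℝ}
    (hd : d = 1 + k * (b * c)) (hd0 : d ≠ 0)
    (hC : C = 2 * v - (g0 * a + g1 * b + g2 * (c + k * b)) + a * (r1 * b + r2 * c))
    (h0 : E0 = d * (g0 - (h.f00 * a + h.f01 * b + h.f02 * (c + k * b)) + (r1 * b + r2 * c)))
    (h1 : E1 = d * (g1 - k * g2 - (h.f01 * a + h.f11 * b + h.f12 * (c + k * b)) + r1 * a) -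
      k * (C * c))
    (h2 : E2 = d * (g2 - (h.f02 * a + h.f12 * b + h.f22 * (c + k * b)) + r2 * a) - k * (C * b)) :
    sph (gen k 0) (cro r1 r2) v ![g0, g1, g2] h.mat ![a, b, c] =
      (1 / d ^ 3) • Six.mat
        ⟨d ^ 3 * h.f00 + d ^ 2 * C + d * (2 * (a * E0)) - (a * E0 + b * E1 + (c + k * b) * E2) * (a * a),
          d ^ 3 * h.f01 + d * (a * E1 + b * E0) - (a * E0 + b * E1 + (c + k * b) * E2) * (a * b),
          d ^ 3 * h.f02 + d * (a * E2 + c * E0) - (a * E0 + b * E1 + (c + k * b) * E2) * (a * c),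
          d ^ 3 * h.f11 + d ^ 2 * C + d * (2 * (b * E1)) - (a * E0 + b * E1 + (c + k * b) * E2) * (b * b),
          d ^ 3 * h.f12 + d * (b * E2 + c * E1) - (a * E0 + b * E1 + (c + k * b) * E2) * (b * c),
          d ^ 3 * h.f22 + d ^ 2 * C + d * (2 * (c * E2)) -
            (a * E0 + b * E1 + (c + k * b) * E2) * (c * c)⟩ := by
  have e : (1 : ℝ) + ![a, b, c] ⬝ᵥ gen k 0 *ᵥ ![a, b, c] = d := by
    rw [hd]; simp [gen, dotProduct, mulVec, Fin.sum_univ_three]; ring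
  have ez : ![a, b, c] + gen k 0 *ᵥ ![a, b, c] = ![a, b, c + k * b] := by
    funext i
    fin_cases i <;> simp [gen, dotProduct, mulVec, Fin.sum_univ_three, mul_comm]
  have sC : sphC (gen k 0) (cro r1 r2) v ![g0, g1, g2] ![a, b, c] = C / d := by
    unfold sphC
    rw [e, ez, hC]
    congr 1
    simp [cro, dotProduct, mulVec, Fin.sum_univ_three]
    ring
  have sE : sphE (gen k 0) (cro r1 r2) v ![g0, g1, g2] h.mat ![a, b, c] =
      ![E0 / d, E1 / d, E2 / d] := by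
    unfold sphE
    have m1 : (gen k 0)ᵀ *ᵥ ![g0, g1, g2] = ![0, k * g2, 0] := by
      funext i
      fin_cases i <;> simp [gen, dotProduct, mulVec, Fin.sum_univ_three, -cons_mulVec]
    have m2 : h.mat *ᵥ ![a, b, c + k * b] = ![h.f00 * a + h.f01 * b + h.f02 * (c + k * b),
        h.f01 * a + h.f11 * b + h.f12 * (c + k * b), h.f02 * a + h.f12 * b + h.f22 * (c + k * b)] := by
      funext i
      fin_cases i <;> simp [Six.mat, mul_comm, add_assoc]
    have m3 : cro r1 r2 *ᵥ ![a, b, c] = ![r1 * b + r2 * c, r1 * a, r2 * a] := by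
      funext i
      fin_cases i <;> simp [cro, mul_comm]
    have m4 : (gen k 0 + (gen k 0)ᵀ) *ᵥ ![a, b, c] = ![0, k * c, k * b] := by
      funext i
      fin_cases i <;> simp [gen, dotProduct, mulVec, Fin.sum_univ_three, transpose_apply, mul_comm]
    rw [sC, ez, m1, m2, m3, m4, h0, h1, h2]
    funext i
    fin_cases i <;> simp <;> field_simp
  unfold sph
  rw [sC, sE, e, ez]
  ext i j
  fin_cases i <;> fin_cases j <;>
    simp [Six.mat, dotProduct, Fin.sum_univ_three, vecMulVec] <;> field_simp <;> ring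

/-- The reduced Hessian of a polynomial profile as a quotient. -/
theorem Mt_pol {kn kd r1 r2 : ℤ} {D L : ℕ} {l : List Mono} (hl : degLe (L + 2) l) (hD : D ≠ 0)
    (hk : kd ≠ 0) (y : E 3) {w : ℝ} (hw : w ≠ 0) (hd : 1 + (kn : ℝ) / kd * (y 1 * y 2) ≠ 0) :
    Mt (kn / kd) 0 (r1 / D) (r2 / D) (pol D l) y =
      (1 / (D * opsR.den kn kd L (w * y 1) (w * y 2) w)) •
        (opsR.num kn kd r1 r2 L l (w * y 0) (w * y 1) (w * y 2) w).mat := by
  have hy : y.ofLp = ![y 0, y 1, y 2] := by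
    funext i
    fin_cases i <;> rfl
  have l0 := degLe_dL0 hl
  have l1 := degLe_dL1 hl
  have l2 := degLe_dL2 hl
  have hH : hess (pol D l) y = Six.mat ⟨pol D (dL0 (dL0 l)) y, pol D (dL0 (dL1 l)) y,
    pol D (dL0 (dL2 l)) y, pol D (dL1 (dL1 l)) y, pol D (dL1 (dL2 l)) y,
    pol D (dL2 (dL2 l)) y⟩ := hess_pol D l y
  unfold Mt
  have e := t3p_sph (k := kn / kd) (r1 := r1 / D) (r2 := r2 / D) (a := y 0) (v := pol D l y)
    (g0 := pol D (dL0 l) y) (g1 := pol D (dL1 l) y) (g2 := pol D (dL2 l) y)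
    (h := ⟨pol D (dL0 (dL0 l)) y, pol D (dL0 (dL1 l)) y,
    pol D (dL0 (dL2 l)) y, pol D (dL1 (dL1 l)) y, pol D (dL1 (dL2 l)) y,
    pol D (dL2 (dL2 l)) y⟩) rfl hd rfl rfl rfl rfl
  rw [← hy] at e
  rw [grad_pol, hH, e, Ops.num, opsR_den, opsR_pw,
    opsR_hom _ _ _ _ hl, opsR_hom _ _ _ _ l0, opsR_hom _ _ _ _ l1, opsR_hom _ _ _ _ l2,
    opsR_hom _ _ _ _ (degLe_dL0 l0), opsR_hom _ _ _ _ (degLe_dL0 l1),
    opsR_hom _ _ _ _ (degLe_dL0 l2), opsR_hom _ _ _ _ (degLe_dL1 l1),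
    opsR_hom _ _ _ _ (degLe_dL1 l2), opsR_hom _ _ _ _ (degLe_dL2 l2)]
  clear e hH hy
  simp only [pol, pow_succ w]
  have hu : w ^ L ≠ 0 := pow_ne_zero _ hw
  have hD' : (D : ℝ) ≠ 0 := Nat.cast_ne_zero.2 hD
  have hk' : (kd : ℝ) ≠ 0 := Int.cast_ne_zero.2 hk
  generalize w ^ L = u at hu
  generalize evL l (y 0) (y 1) (y 2) = v
  generalize evL (dL0 l) (y 0) (y 1) (y 2) = g0
  generalize evL (dL1 l) (y 0) (y 1) (y 2) = g1
  generalize evL (dL2 l) (y 0) (y 1) (y 2) = g2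
  generalize evL (dL0 (dL0 l)) (y 0) (y 1) (y 2) = h00
  generalize evL (dL0 (dL1 l)) (y 0) (y 1) (y 2) = h01
  generalize evL (dL0 (dL2 l)) (y 0) (y 1) (y 2) = h02
  generalize evL (dL1 (dL1 l)) (y 0) (y 1) (y 2) = h11
  generalize evL (dL1 (dL2 l)) (y 0) (y 1) (y 2) = h12
  generalize evL (dL2 (dL2 l)) (y 0) (y 1) (y 2) = h22
  generalize y 0 = a
  generalize y 1 = b at hd
  generalize y 2 = c at hd
  obtain ⟨k, hkk⟩ : ∃ k : ℝ, (kn : ℝ) = k * kd := ⟨kn / kd, by field_simp⟩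
  have ek : (kn : ℝ) / kd = k := by rw [hkk]; field_simp
  rw [ek] at hd ⊢
  have ed : (kd : ℝ) * (w * w) + kn * (w * b * (w * c)) = kd * (w * w) * (1 + k * (b * c)) := by
    rw [hkk]; ring
  have hs : ∀ (x x' : ℝ) (A B : Six ℝ), A.map (fun t => x * t) = B.map (fun t => x' * t) →
      x • A.mat = x' • B.mat := by
    intro x x' A B h
    simp only [Six.map, Six.mk.injEq] at h
    obtain ⟨a1, a2, a3, a4, a5, a6⟩ := h
    ext i j
    fin_cases i <;> fin_cases j <;> simp [Six.mat, a1, a2, a3, a4, a5, a6]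
  refine hs _ _ _ _ ?_
  simp only [Ops.num1, opsR, Six.map, Six.mk.injEq, Int.cast_mul, Int.cast_ofNat]
  rw [ed, hkk]
  generalize 1 + k * (b * c) = d at hd
  refine ⟨?_, ?_, ?_, ?_, ?_, ?_⟩ <;> field_simp

end Pool.Agent.P.MP_f12b6c_an
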