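import Pool.Agent.P.MP_f12b6c_an.T3Defs

/-! Soft lemmas: perturbation of Lipschitz bounds. -/

namespace Pool.Agent.P.MP_f12b6c_an

open Matrix

private lemma t3s_mvt {V : Type} [NormedAddCommGroup V] [NormedSpace ℝ V] {K : Set V}
    (hc : Convex ℝ K) {g : V → ℝ} {D : V → (ℝ × V →L[ℝ] ℝ)} {C : ℝ}
    (hg : ∀ x ∈ K, HasFDerivAt g ((D x).comp (ContinuousLinearMap.inr ℝ ℝ V)) x)
    (hD : ∀ x ∈ K, ‖D x‖ ≤ C) {x y : V} (hx : x ∈ K) (hy : y ∈ K) :
    |g x - g y| ≤ C * ‖x - y‖ := by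
  refine hc.norm_image_sub_le_of_norm_hasFDerivWithin_le
    (fun z hz => (hg z hz).hasFDerivWithinAt) (fun z hz => ?_) hy hx
  refine ContinuousLinearMap.opNorm_le_bound _ ((norm_nonneg _).trans (hD z hz)) fun v => ?_
  refine ((D z).le_opNorm _).trans ?_
  have : ‖(ContinuousLinearMap.inr ℝ ℝ V) v‖ = ‖v‖ := by simp
  exact mul_le_mul (hD z hz) this.le (norm_nonneg _) ((norm_nonneg _).trans (hD z hz))

theorem soft_lip {V : Type} [NormedAddCommGroup V] [NormedSpace ℝ V] {f : ℝ × V → ℝ} {K : Set V}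
    (hK : IsCompact K) (hc : Convex ℝ K) (hf : ∀ x ∈ K, ContDiffAt ℝ 1 f (0, x)) :
    ∃ L : ℝ, 0 ≤ L ∧ ∀ ε : ℝ, 0 < ε → ∃ δ : ℝ, 0 < δ ∧ ∀ m : ℝ, |m| < δ → ∀ x ∈ K,
      |f (m, x)| ≤ L ∧ |f (m, x) - f (0, x)| ≤ ε ∧ ∀ y ∈ K,
      |f (m, x) - f (m, y)| ≤ L * ‖x - y‖ ∧
      |f (m, x) - f (m, y) - (f (0, x) - f (0, y))| ≤ ε * ‖x - y‖ := by
  have hι : Continuous fun x : V => ((0 : ℝ), x) := by fun_prop
  have hπ : Continuous fun z : ℝ × V => ((0 : ℝ), z.2) := by fun_prop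
  have c1 : ∀ x ∈ K, ContinuousAt f (0, x) := fun x hx => (hf x hx).continuousAt
  have c2 : ∀ x ∈ K, ContinuousAt (fderiv ℝ f) (0, x) := fun x hx =>
    (hf x hx).continuousAt_fderiv one_ne_zero
  obtain ⟨B1, hB1⟩ := hK.exists_bound_of_continuousOn (f := fun x => f (0, x))
    fun x hx => (ContinuousAt.comp (f := fun x : V => ((0 : ℝ), x)) (c1 x hx)
      hι.continuousAt).continuousWithinAt
  obtain ⟨B2, hB2⟩ := hK.exists_bound_of_continuousOn (f := fun x => fderiv ℝ f (0, x))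
    fun x hx => (ContinuousAt.comp (f := fun x : V => ((0 : ℝ), x)) (c2 x hx)
      hι.continuousAt).continuousWithinAt
  refine ⟨|B1| + |B2| + 1, by positivity, fun ε hε => ?_⟩
  have he : 0 < min ε 1 := lt_min hε one_pos
  have key : ∀ᶠ m in nhds (0 : ℝ), ∀ x ∈ K, DifferentiableAt ℝ f (m, x) ∧
      ‖f (m, x) - f (0, x)‖ < min ε 1 ∧ ‖fderiv ℝ f (m, x) - fderiv ℝ f (0, x)‖ < min ε 1 := by
    refine hK.eventually_forall_of_forall_eventually fun x hx => ?_
    have e1 : ∀ᶠ z in nhds ((0 : ℝ), x), DifferentiableAt ℝ f z :=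
      ((hf x hx).eventually (by simp)).mono fun z hz => hz.differentiableAt one_ne_zero
    have a1 : ContinuousAt (fun z : ℝ × V => ‖f z - f (0, z.2)‖) (0, x) :=
      ((c1 x hx).sub (ContinuousAt.comp (f := fun z : ℝ × V => ((0 : ℝ), z.2)) (c1 x hx)
        hπ.continuousAt)).norm
    have a2 : ContinuousAt (fun z : ℝ × V => ‖fderiv ℝ f z - fderiv ℝ f (0, z.2)‖) (0, x) :=
      ((c2 x hx).sub (ContinuousAt.comp (f := fun z : ℝ × V => ((0 : ℝ), z.2)) (c2 x hx)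
        hπ.continuousAt)).norm
    have e2 := a1.eventually (gt_mem_nhds (show _ < min ε 1 by simpa using he))
    have e3 := a2.eventually (gt_mem_nhds (show _ < min ε 1 by simpa using he))
    filter_upwards [e1, e2, e3] with z h1 h2 h3 using ⟨h1, h2, h3⟩
  obtain ⟨δ, hδ, hkey⟩ := Metric.eventually_nhds_iff.1 key
  refine ⟨δ, hδ, fun m hm x hx => ?_⟩
  have hm' := hkey (y := m) (by simpa [Real.dist_eq] using hm)
  have h0 := hkey (y := 0) (by simpa using hδ)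
  have d1 : ∀ z ∈ K, HasFDerivAt (fun z => f (m, z))
      ((fderiv ℝ f (m, z)).comp (ContinuousLinearMap.inr ℝ ℝ V)) z := fun z hz =>
    (hm' z hz).1.hasFDerivAt.comp z (hasFDerivAt_prodMk_right m z)
  have d0 : ∀ z ∈ K, HasFDerivAt (fun z => f (0, z))
      ((fderiv ℝ f (0, z)).comp (ContinuousLinearMap.inr ℝ ℝ V)) z := fun z hz =>
    (h0 z hz).1.hasFDerivAt.comp z (hasFDerivAt_prodMk_right 0 z)
  have b1 := (hm' x hx).2.1
  have b2 := hB1 x hx
  rw [Real.norm_eq_abs] at b1 b2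
  have m1 := min_le_left ε 1
  have m2 := min_le_right ε 1
  refine ⟨?_, by linarith, fun y hy => ⟨?_, ?_⟩⟩
  · have := abs_sub_abs_le_abs_sub (f (m, x)) (f (0, x))
    linarith [le_abs_self B1, abs_nonneg B2]
  · refine t3s_mvt hc d1 (fun z hz => ?_) hx hy
    have := norm_sub_norm_le (fderiv ℝ f (m, z)) (fderiv ℝ f (0, z))
    linarith [(hm' z hz).2.2, hB2 z hz, le_abs_self B2, abs_nonneg B1]
  · have := t3s_mvt hc (g := fun z => f (m, z) - f (0, z))
      (D := fun z => fderiv ℝ f (m, z) - fderiv ℝ f (0, z)) (C := ε)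
      (fun z hz => by
        rw [ContinuousLinearMap.sub_comp]
        exact (d1 z hz).sub (d0 z hz))
      (fun z hz => by linarith [(hm' z hz).2.2]) hx hy
    rwa [show f (m, x) - f (0, x) - (f (m, y) - f (0, y)) =
      f (m, x) - f (m, y) - (f (0, x) - f (0, y)) by ring] at this

theorem Seen.mono {n : ℕ} {K K' : ℝ} {N : Mat n} (h : Seen K N) (hK : K ≤ K') : Seen K' N := by
  obtain ⟨A, h1, h2, h3⟩ := h
  exact ⟨A, h1, h2.trans hK, h3⟩

theorem seen_of {n : ℕ} {A N : Mat n} {a c L ρ : ℝ} (hA : A.PosSemidef) (ha : A.trace ≤ a)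
    (hc : 0 < c) (hL : 0 ≤ L) (h1 : c * ρ ≤ (A * N).trace) (h2 : -(L * ρ) ≤ N.trace) :
    Seen (n + a * L / c) N := by
  have hq : 0 ≤ L / c := div_nonneg hL hc.le
  refine ⟨1 + (L / c) • A, ?_, ?_, ?_⟩
  · rw [add_sub_cancel_left]
    exact hA.smul hq
  · rw [trace_add, trace_smul, trace_one, Fintype.card_fin, smul_eq_mul, mul_div_assoc, mul_comm a]
    exact add_le_add le_rfl (mul_le_mul_of_nonneg_left ha hq)
  · rw [add_mul, one_mul, smul_mul_assoc, trace_add, trace_smul, smul_eq_mul]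
    have h3 := mul_le_mul_of_nonneg_left h1 hq
    have h4 : L / c * (c * ρ) = L * ρ := by field_simp
    linarith

private lemma t3s_gram {n : ℕ} {C : ℝ} {g : Mat n} (h : ∑ i, ∑ j, g i j ^ 2 ≤ C) :
    (C • (1 : Mat n) - g * gᵀ).PosSemidef := by
  refine PosSemidef.of_dotProduct_mulVec_nonneg ?_ fun x => ?_
  · refine IsHermitian.sub (isHermitian_one.smul (IsSelfAdjoint.all C)) ?_
    simpa using isHermitian_mul_conjTranspose_self g
  · have e : x ⬝ᵥ (g * gᵀ) *ᵥ x = ∑ j, (∑ i, g i j * x i) ^ 2 := by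
      rw [← mulVec_mulVec, dotProduct_mulVec, ← mulVec_transpose]
      simp [dotProduct, mulVec, sq]
    have e2 : ∑ j, (∑ i, g i j * x i) ^ 2 ≤ (∑ i, ∑ j, g i j ^ 2) * ∑ i, x i ^ 2 := by
      rw [Finset.sum_comm, Finset.sum_mul]
      exact Finset.sum_le_sum fun j _ => Finset.sum_mul_sq_le_sq_mul_sq _ _ _
    have e3 : x ⬝ᵥ x = ∑ i, x i ^ 2 := by simp [dotProduct, sq]
    have e4 : 0 ≤ ∑ i, x i ^ 2 := Finset.sum_nonneg fun _ _ => sq_nonneg _
    rw [star_trivial, sub_mulVec, dotProduct_sub, e, smul_mulVec, one_mulVec, dotProduct_smul,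
      smul_eq_mul, e3]
    nlinarith

theorem Seen.congr {n : ℕ} {K C : ℝ} {N g g' : Mat n} (h : Seen K N) (hg : g * g' = 1)
    (h1 : ∑ i, ∑ j, g i j ^ 2 ≤ C) (h2 : ∑ i, ∑ j, g' i j ^ 2 ≤ C) :
    Seen (K * C ^ 2) (gᵀ * N * g) := by
  obtain ⟨A, a1, a2, a3⟩ := h
  have hA : A.PosSemidef := by simpa using a1.add PosSemidef.one
  have hC : 0 ≤ C :=
    le_trans (Finset.sum_nonneg fun _ _ => Finset.sum_nonneg fun _ _ => sq_nonneg _) h1
  have hg' : g' * g = 1 := mul_eq_one_comm.1 hg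
  have hgt : g'ᵀ * gᵀ = 1 := by rw [← transpose_mul, hg, transpose_one]
  have hgt' : gᵀ * g'ᵀ = 1 := by rw [← transpose_mul, hg', transpose_one]
  refine ⟨C • (g' * A * g'ᵀ), ?_, ?_, ?_⟩
  · have p1 := (a1.mul_mul_conjTranspose_same g').smul hC
    have p2 := (t3s_gram h1).mul_mul_conjTranspose_same g'
    have e : C • (g' * A * g'ᵀ) - 1 =
        C • (g' * (A - 1) * g'ᵀ) + g' * (C • (1 : Mat n) - g * gᵀ) * g'ᵀ := by
      rw [mul_sub g' (C • (1 : Mat n)), sub_mul (g' * C • (1 : Mat n)), ← mul_assoc g' g, hg',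
        one_mul, hgt', mul_sub, sub_mul, mul_one, smul_sub, mul_smul_comm, mul_one, smul_mul_assoc]
      abel
    rw [e]
    simpa using p1.add p2
  · have h2' : ∑ i, ∑ j, g'ᵀ i j ^ 2 ≤ C := by
      rw [Finset.sum_comm]
      simpa using h2
    have p := s4f_trace_mul hA (t3s_gram h2')
    rw [transpose_transpose, mul_sub, trace_sub, mul_smul_comm, mul_one, trace_smul,
      smul_eq_mul] at p
    rw [trace_smul, smul_eq_mul, mul_assoc, trace_mul_comm, mul_assoc]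
    have q1 := mul_le_mul_of_nonneg_left a2 hC
    have q2 : C * (A * (g'ᵀ * g')).trace ≤ C * (C * K) :=
      mul_le_mul_of_nonneg_left (by linarith) hC
    linarith
  · have e : g' * A * g'ᵀ * (gᵀ * N * g) = g' * (A * N * g) := by
      calc g' * A * g'ᵀ * (gᵀ * N * g) = g' * A * (g'ᵀ * gᵀ) * N * g := by
            simp only [mul_assoc]
        _ = g' * (A * N * g) := by rw [hgt, mul_one]; simp only [mul_assoc]
    rw [smul_mul_assoc, trace_smul, smul_eq_mul, e, trace_mul_comm, mul_assoc, hg, mul_one]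
    exact mul_nonneg hC a3

theorem abs_trace_mul_le {n : ℕ} {A N : Mat n} {a b : ℝ} (hA : A.PosSemidef) (ha : A.trace ≤ a)
    (hN : ∀ i j, |N i j| ≤ b) : |(A * N).trace| ≤ n ^ 2 * a * b := by
  have hE : ∀ i j, |A i j| ≤ a := fun i j =>
    (s4f_entry A i j).trans ((s4f_op_le_trace hA).trans ha)
  have ha0 : 0 ≤ a := hA.trace_nonneg.trans ha
  simp only [Matrix.trace, diag_apply, Matrix.mul_apply]
  calc |∑ i, ∑ j, A i j * N j i| ≤ ∑ i, ∑ j, |A i j * N j i| :=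
        (Finset.abs_sum_le_sum_abs _ _).trans
          (Finset.sum_le_sum fun i _ => Finset.abs_sum_le_sum_abs _ _)
    _ ≤ ∑ _i : Fin n, ∑ _j : Fin n, a * b :=
        Finset.sum_le_sum fun i _ => Finset.sum_le_sum fun j _ => by
          rw [abs_mul]
          exact mul_le_mul (hE i j) (hN j i) (abs_nonneg _) ha0
    _ = n ^ 2 * a * b := by simp; ring

end Pool.Agent.P.MP_f12b6c_an
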