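import Pool.Agent.P.MP_f12b6c_an.T3Chk

/-!
Soundness of the comparison of two matrix polynomials.
-/

namespace Pool.Agent.P.MP_f12b6c_an

theorem fN_eq (n : ℕ) (k : ℕ → Bool) : fN n k = k n := by
  cases n <;> rfl

/-- The pair `p` holds the two parts of the rescaled rows `l`. -/
def PQ (s d : ℕ) (l : LL) (p : LN × LN) : Prop :=
  ∀ (A B : ℕ) (u v : ℝ → ℝ → ℝ), Rep2 96 10 1 (2 ^ s) A (fun a b => 2 ^ s * u a b) →
    Rep2 96 10 1 (2 ^ s) B (fun a b => 2 ^ s * v a b) →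
    Rep2 96 10 9 (2 ^ 80) ((hn2 A B p.1 : ℤ) - hn2 A B p.2)
      fun a b => 2 ^ (s * d) * opsR.h2 (u a b) (v a b) l

/-- The same for six entries. -/
def PQ6 (s d : ℕ) (Q : Six LL) (P : Six (LN × LN)) : Prop :=
  PQ s d Q.f00 P.f00 ∧ PQ s d Q.f01 P.f01 ∧ PQ s d Q.f02 P.f02 ∧ PQ s d Q.f11 P.f11 ∧
    PQ s d Q.f12 P.f12 ∧ PQ s d Q.f22 P.f22

private theorem t3s_fL : ∀ (l : List ℕ) (k : List ℕ → Bool), fL l k = k l
  | [], _ => rfl
  | c :: l, k => by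
    show fN c (fun c => fL l fun l => k (c :: l)) = _
    rw [fN_eq, t3s_fL l]

private theorem t3s_fLL : ∀ (l : LN) (k : LN → Bool), fLL l k = k l
  | [], _ => rfl
  | c :: l, k => by
    show fL c (fun c => fLL l fun l => k (c :: l)) = _
    rw [t3s_fL, t3s_fLL l]

private theorem t3s_parts (c : ℤ) :
    c.natAbs = itoNat c + ineg c ∧ c = (itoNat c : ℤ) - (ineg c : ℤ) := by
  rcases c with m | m
  · exact ⟨rfl, (sub_zero _).symm⟩
  · refine ⟨(Nat.zero_add _).symm, ?_⟩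
    show Int.negSucc m = ((0 : ℕ) : ℤ) - ((m + 1 : ℕ) : ℤ)
    rw [Int.negSucc_eq]
    push_cast
    ring

private theorem t3s_nil {α : Type} {l : List α} (h : len l ≤ 0) : l = [] := by
  cases l with
  | nil => rfl
  | cons c l => exact absurd h (Nat.not_succ_le_zero _)

private theorem t3s_zero (d : ℕ) : Rep2 96 10 d 0 0 fun _ _ => 0 :=
  ⟨[], by simp, by simp, by simp, by simp⟩

private theorem t3s_cst (c : ℤ) (n : ℕ) :
    Rep2 96 10 0 (itoNat c * 2 ^ n + ineg c * 2 ^ n)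
      (((itoNat c * 2 ^ n : ℕ) : ℤ) - ((ineg c * 2 ^ n : ℕ) : ℤ)) fun _ _ => 2 ^ n * (c : ℝ) := by
  obtain ⟨h1, h2⟩ := t3s_parts c
  refine ((Rep2.const (c * 2 ^ n)).mono le_rfl (le_of_eq ?_)).congr ?_ fun _ _ => ?_
  · rw [Int.natAbs_mul, Int.natAbs_pow, h1, add_mul]
    rfl
  · push_cast
    rw [← sub_mul, ← h2]
  · push_cast
    ring

private theorem t3s_h1 (g : ℤ → ℕ) (s x : ℕ) (c : ℤ) (l : List ℤ) (d : ℕ) :
    hn1 x (psc1 g s (c :: l) d) = g c * 2 ^ (s * d) + x * hn1 x (psc1 g s l (d - 1)) := by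
  rw [← Nat.shiftLeft_eq]
  rfl

private theorem t3s_h2 (g : ℤ → ℕ) (s x y : ℕ) (c : List ℤ) (l : LL) (d : ℕ) :
    hn2 x y (psc2 g s (c :: l) d) = hn1 x (psc1 g s c d) + y * hn2 x y (psc2 g s l (d - 1)) := rfl

private theorem t3s_row {s A : ℕ} {u : ℝ → ℝ → ℝ}
    (hA : Rep2 96 10 1 (2 ^ s) A fun a b => 2 ^ s * u a b) : ∀ (l : List ℤ) (d : ℕ),
    len l ≤ d + 1 →
    Rep2 96 10 d (hn1 (2 ^ s) (psc1 itoNat s l d) + hn1 (2 ^ s) (psc1 ineg s l d))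
      ((hn1 A (psc1 itoNat s l d) : ℤ) - hn1 A (psc1 ineg s l d))
      fun a b => 2 ^ (s * d) * opsR.h1 (u a b) l
  | [], d, _ => (t3s_zero d).congr rfl fun _ _ => by rw [opsR_h1_nil, mul_zero]
  | c :: l, 0, h => by
    obtain rfl : l = [] := t3s_nil (Nat.le_of_succ_le_succ h)
    simp only [t3s_h1]
    exact (t3s_cst c (s * 0)).congr rfl fun _ _ => by
      rw [opsR_h1_cons, opsR_h1_nil, mul_zero (u _ _), add_zero]
  | c :: l, e + 1, h => by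
    have ih := t3s_row hA l e (Nat.le_of_succ_le_succ h)
    simp only [t3s_h1, Nat.add_sub_cancel]
    refine (((t3s_cst c (s * (e + 1))).add (hA.mul ih)).mono (by omega) (le_of_eq (by ring))).congr
      (by push_cast; ring) fun _ _ => ?_
    rw [opsR_h1_cons]
    ring

private theorem t3s_rows {s A B : ℕ} {u v : ℝ → ℝ → ℝ}
    (hA : Rep2 96 10 1 (2 ^ s) A fun a b => 2 ^ s * u a b)
    (hB : Rep2 96 10 1 (2 ^ s) B fun a b => 2 ^ s * v a b) : ∀ (l : LL) (d : ℕ), tri l d = true →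
    Rep2 96 10 d
      (hn2 (2 ^ s) (2 ^ s) (psc2 itoNat s l d) + hn2 (2 ^ s) (2 ^ s) (psc2 ineg s l d))
      ((hn2 A B (psc2 itoNat s l d) : ℤ) - hn2 A B (psc2 ineg s l d))
      fun a b => 2 ^ (s * d) * opsR.h2 (u a b) (v a b) l
  | [], d, _ => (t3s_zero d).congr rfl fun _ _ => by rw [opsR_h2_nil, mul_zero]
  | c :: l, 0, h => by
    obtain ⟨h1, h⟩ := bnd_iff.1 h
    obtain ⟨h2, -⟩ := bnd_iff.1 h
    obtain rfl : l = [] := t3s_nil (Nat.le_of_ble_eq_true h2)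
    simp only [t3s_h2]
    exact (t3s_row hA c 0 (Nat.le_of_ble_eq_true h1)).congr rfl fun _ _ => by
      rw [opsR_h2_cons, opsR_h2_nil, mul_zero (v _ _), add_zero]
  | c :: l, e + 1, h => by
    obtain ⟨h1, h⟩ := bnd_iff.1 h
    obtain ⟨-, h3⟩ := bnd_iff.1 h
    have ih := t3s_rows hA hB l e h3
    simp only [t3s_h2, Nat.add_sub_cancel]
    refine (((t3s_row hA c (e + 1) (Nat.le_of_ble_eq_true h1)).add (hB.mul ih)).mono (by omega)
      (le_of_eq (by ring))).congr (by push_cast; ring) fun _ _ => ?_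
    rw [opsR_h2_cons]
    ring

private theorem t3s_prep1 {s d : ℕ} (hd : d ≤ 9) {l : LL} {k : LN × LN → Bool}
    (h : prep1 s d l k = true) : ∃ p, PQ s d l p ∧ k p = true := by
  obtain ⟨h1, h⟩ := bnd_iff.1 h
  rw [t3s_fLL, t3s_fLL] at h
  obtain ⟨h2, h3⟩ := bnd_iff.1 h
  have h4 : hn2 (1 <<< s) (1 <<< s) (psc2 itoNat s l d) + hn2 (1 <<< s) (1 <<< s) (psc2 ineg s l d)
    ≤ 2 ^ 80 := Nat.le_of_ble_eq_true h2
  rw [Nat.one_shiftLeft] at h4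
  exact ⟨_, fun A B u v hA hB => (t3s_rows hA hB l d h1).mono hd h4, h3⟩

theorem prep_sound {s d : ℕ} (hd : d ≤ 9) {Q : Six LL} {k : Six (LN × LN) → Bool}
    (h : prep s d Q k = true) : ∃ P, PQ6 s d Q P ∧ k P = true := by
  obtain ⟨a, ha, h⟩ := t3s_prep1 hd h
  obtain ⟨b, hb, h⟩ := t3s_prep1 hd h
  obtain ⟨c, hc, h⟩ := t3s_prep1 hd h
  obtain ⟨e, he, h⟩ := t3s_prep1 hd h
  obtain ⟨f, hf, h⟩ := t3s_prep1 hd h
  obtain ⟨g, hg, h⟩ := t3s_prep1 hd h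
  exact ⟨⟨a, b, c, e, f, g⟩, ⟨ha, hb, hc, he, hf, hg⟩, h⟩

theorem lane_dig (x l : ℕ) : lane (spread x) (96 * l) = dig x l := by
  show (spread x >>> (96 * l)) &&& (2 ^ 96 - 1) = _
  rw [Nat.and_two_pow_sub_one_eq_mod, Nat.shiftRight_eq_div_pow]
  rfl

private theorem t3s_lane (x j m : ℕ) :
    lane (Nat.shiftRight (spread x) (96 * j)) (672 * m) = dig x (7 * m + j) := by
  rw [← lane_dig, show 96 * (7 * m + j) = 96 * j + 672 * m by ring]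
  show ((spread x >>> (96 * j)) >>> (672 * m)) &&& _ = (spread x >>> (96 * j + 672 * m)) &&& _
  rw [Nat.shiftRight_add]

private theorem t3s_cof (x j m : ℕ) (h1 : j < 7) (h2 : j ≠ 1) :
    cof (Nat.shiftRight (spread x) (96 * j)) (672 * m) = cf x (7 * m + j) := by
  unfold cof cf
  rw [snn_eq, t3s_lane, if_neg (by omega)]
  rfl

private theorem t3s_poly (s : ℕ) (a b : ℝ) :
    opsR.h2 a b (rows s) = ∑ m ∈ Finset.range 10, mon a b m * cof s (672 * m) := by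
  simp only [rows, opsR_h2_cons, opsR_h2_nil, opsR_h1_cons, opsR_h1_nil, Finset.sum_range_succ,
    Finset.sum_range_zero, mon, Nat.reduceMul]
  ring

private theorem t3s_ent (x j : ℕ) (h1 : j < 7) (h2 : j ≠ 1) (a b : ℝ) :
    opsR.h2 a b (rows (Nat.shiftRight (spread x) (96 * j))) =
      ∑ m ∈ Finset.range 10, mon a b m * cf x (7 * m + j) := by
  rw [t3s_poly]
  exact Finset.sum_congr rfl fun m _ => by rw [t3s_cof x j m h1 h2]

private theorem t3s_qf (h : Six ℝ) (v0 v1 v2 : ℝ) : qf h.mat v0 v1 v2 =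
    h.f00 * v0 ^ 2 + 2 * h.f01 * (v0 * v1) + 2 * h.f02 * (v0 * v2) + h.f11 * v1 ^ 2 +
      2 * h.f12 * (v1 * v2) + h.f22 * v2 ^ 2 := by
  simp [qf, Six.mat, Matrix.mulVec, dotProduct, Fin.sum_univ_three]
  ring

theorem rows6_qf (x : ℕ) (a b v0 v1 v2 : ℝ) :
    qf ((rows6 (spread x)).map (opsR.h2 a b)).mat v0 v1 v2 = mq x a b v0 v1 v2 := by
  rw [t3s_qf]
  show opsR.h2 a b (rows (Nat.shiftRight (spread x) (96 * 4))) * v0 ^ 2 +
    2 * opsR.h2 a b (rows (Nat.shiftRight (spread x) (96 * 2))) * (v0 * v1) +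
    2 * opsR.h2 a b (rows (Nat.shiftRight (spread x) (96 * 5))) * (v0 * v2) +
    opsR.h2 a b (rows (Nat.shiftRight (spread x) (96 * 0))) * v1 ^ 2 +
    2 * opsR.h2 a b (rows (Nat.shiftRight (spread x) (96 * 3))) * (v1 * v2) +
    opsR.h2 a b (rows (Nat.shiftRight (spread x) (96 * 6))) * v2 ^ 2 = _
  rw [t3s_ent x 4 (by norm_num) (by norm_num), t3s_ent x 2 (by norm_num) (by norm_num),
    t3s_ent x 5 (by norm_num) (by norm_num), t3s_ent x 0 (by norm_num) (by norm_num),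
    t3s_ent x 3 (by norm_num) (by norm_num), t3s_ent x 6 (by norm_num) (by norm_num)]
  simp only [mq, slotQ, Finset.mul_sum, Finset.sum_mul, ← Finset.sum_add_distrib, add_zero]
  exact Finset.sum_congr rfl fun m _ => by ring

private theorem t3s_pkB : pkB = 2 ^ 26 * (1 + 2 ^ 96 * (1 + 2 ^ 96 * (1 + 2 ^ 96 *
    (1 + (2 ^ 96) ^ 7 * (1 + 2 ^ 96 * (1 + 2 ^ 96 * (1 + (2 ^ 96) ^ 8 *
      (1 + 2 ^ 96 * (1 + (2 ^ 96) ^ 9))))))))) := by decide +kernel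

private theorem t3s_pk1 (s p r k : ℕ) : pk1 s p r (96 * k) = lane s p + (2 ^ 96) ^ k * r := by
  rw [← pow_mul, mul_comm _ r, ← Nat.shiftLeft_eq]
  rfl

private theorem t3s_pk {s : ℕ} (h : ∀ m, lane s (672 * m) < 2 ^ 27) :
    Rep2 96 10 3 (10 * 2 ^ 26) ((pkN s : ℤ) - pkB) fun a b => opsR.h2 a b (rows s) := by
  have hc : ∀ m, cof s (672 * m) = (lane s (672 * m) : ℤ) - 2 ^ 26 := fun m => by
    unfold cof
    rw [snn_eq]
    rfl
  have hb : ∀ m, (cof s (672 * m)).natAbs ≤ 2 ^ 26 := fun m => by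
    have := h m
    rw [hc]
    omega
  refine ⟨[(cof s (672 * 0), 0, 0), (cof s (672 * 1), 1, 0), (cof s (672 * 2), 2, 0),
    (cof s (672 * 3), 3, 0), (cof s (672 * 4), 0, 1), (cof s (672 * 5), 1, 1),
    (cof s (672 * 6), 2, 1), (cof s (672 * 7), 0, 2), (cof s (672 * 8), 1, 2),
    (cof s (672 * 9), 0, 3)], by simp, ?_, ?_, fun a b => ?_⟩
  · simp only [List.map_cons, List.map_nil, List.sum_cons, List.sum_nil]
    have := hb 0; have := hb 1; have := hb 2; have := hb 3; have := hb 4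
    have := hb 5; have := hb 6; have := hb 7; have := hb 8; have := hb 9
    omega
  · have e : pkN s = pk1 s (672 * 0) (pk1 s (672 * 1) (pk1 s (672 * 2) (pk1 s (672 * 3)
      (pk1 s (672 * 4) (pk1 s (672 * 5) (pk1 s (672 * 6) (pk1 s (672 * 7)
        (pk1 s (672 * 8) (lane s (672 * 9)) (96 * 9)) (96 * 1)) (96 * 8))
          (96 * 1)) (96 * 1)) (96 * 7)) (96 * 1)) (96 * 1)) (96 * 1) := rfl
    rw [e, t3s_pkB]
    simp only [t3s_pk1, List.map_cons, List.map_nil, List.sum_cons, List.sum_nil, hc, pow_mul,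
      Nat.cast_add, Nat.cast_mul, Nat.cast_pow, Nat.cast_ofNat, Nat.cast_one]
    generalize (2 : ℤ) ^ 96 = X
    generalize (2 : ℤ) ^ 26 = Y
    ring
  · refine (t3s_poly s a b).trans ?_
    simp only [List.map_cons, List.map_nil, List.sum_cons, List.sum_nil, Finset.sum_range_succ,
      Finset.sum_range_zero, mon]
    ring

private theorem t3s_one {s d A B sh x j : ℕ} {l : LL} {p : LN × LN} {u v : ℝ → ℝ → ℝ}
    (hP : PQ s d l p) (hA : Rep2 96 10 1 (2 ^ s) A fun a b => 2 ^ s * u a b)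
    (hB : Rep2 96 10 1 (2 ^ s) B fun a b => 2 ^ s * v a b) (hs : sh ≤ 44) {a b : ℝ}
    (ha : |a| ≤ 1) (hb : |b| ≤ 1) :
    |2 ^ (s * d) * opsR.h2 (u a b) (v a b) l -
      2 ^ sh * opsR.h2 a b (rows (Nat.shiftRight (spread x) (96 * j)))| ≤
      (ent A B sh p (Nat.shiftRight (spread x) (96 * j)) : ℝ) := by
  have h1 := t3s_pk (s := Nat.shiftRight (spread x) (96 * j)) fun m => by
    rw [t3s_lane]
    exact (dig_lt _ _).1
  generalize Nat.shiftRight (spread x) (96 * j) = t at h1 ⊢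
  have h2 : 2 ^ sh ≤ 2 ^ 44 := Nat.pow_le_pow_right (by norm_num) hs
  have h3 := (((hP A B u v hA hB).sub (h1.smul (2 ^ sh))).mono (g' := 9) (by norm_num)
    (M' := 2 ^ 82) (by
      rw [Int.natAbs_pow]
      show 2 ^ 80 + 2 ^ sh * (10 * 2 ^ 26) ≤ 2 ^ 82
      omega)).tight (ns := 91) (by norm_num) (by norm_num) (by norm_num) (by norm_num) (by norm_num)
  have e : ent A B sh p t = absK 96 91 ((hn2 A B p.1 : ℤ) - hn2 A B p.2 -
      2 ^ sh * ((pkN t : ℤ) - pkB)) := by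
    show absK 96 91 (snn (hn2 A B p.1 + pkB <<< sh) (hn2 A B p.2 + pkN t <<< sh)) = _
    rw [snn_eq, Nat.shiftLeft_eq, Nat.shiftLeft_eq]
    refine congrArg (absK 96 91) ?_
    push_cast
    ring
  rw [e]
  have h4 := h3.abs_le ha hb
  push_cast at h4
  exact h4

private theorem t3s_cross {E r : ℝ} (h : |E| ≤ r) (x y : ℝ) :
    -(r * (x ^ 2 + y ^ 2)) ≤ 2 * E * (x * y) ∧ 2 * E * (x * y) ≤ r * (x ^ 2 + y ^ 2) := by
  obtain ⟨h1, h2⟩ := abs_le.1 h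
  have a1 := mul_nonneg (sub_nonneg.2 h2) (sq_nonneg (x + y))
  have a2 := mul_nonneg (sub_nonneg.2 h2) (sq_nonneg (x - y))
  have a3 := mul_nonneg (sub_nonneg.2 h1) (sq_nonneg (x + y))
  have a4 := mul_nonneg (sub_nonneg.2 h1) (sq_nonneg (x - y))
  constructor <;> nlinarith

private theorem t3s_diag {E r : ℝ} (h : |E| ≤ r) (x : ℝ) :
    -(r * x ^ 2) ≤ E * x ^ 2 ∧ E * x ^ 2 ≤ r * x ^ 2 := by
  obtain ⟨h1, h2⟩ := abs_le.1 h
  have a1 := mul_le_mul_of_nonneg_right h1 (sq_nonneg x)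
  exact ⟨by linarith, mul_le_mul_of_nonneg_right h2 (sq_nonneg x)⟩

private theorem t3s_six {E0 E1 E2 E3 E4 E5 : ℝ} {a b c d e f e0 e1 e2 t0 t1 t2 : ℕ}
    (h0 : |E0| ≤ a) (h1 : |E1| ≤ b) (h2 : |E2| ≤ c) (h3 : |E3| ≤ d) (h4 : |E4| ≤ e)
    (h5 : |E5| ≤ f) (h : six1 a b c d e f e0 e1 e2 t0 t1 t2 = true) (v0 v1 v2 : ℝ) :
    |E0 * v0 ^ 2 + 2 * E1 * (v0 * v1) + 2 * E2 * (v0 * v2) + E3 * v1 ^ 2 + 2 * E4 * (v1 * v2) +
      E5 * v2 ^ 2| + (e0 * v0 ^ 2 + e1 * v1 ^ 2 + e2 * v2 ^ 2) ≤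
      t0 * v0 ^ 2 + t1 * v1 ^ 2 + t2 * v2 ^ 2 := by
  obtain ⟨g0, h⟩ := bnd_iff.1 h
  obtain ⟨g1, g2⟩ := bnd_iff.1 h
  have k0 : a + b + (c + e0) ≤ t0 := Nat.le_of_ble_eq_true g0
  have k1 : b + d + (e + e1) ≤ t1 := Nat.le_of_ble_eq_true g1
  have k2 : c + e + (f + e2) ≤ t2 := Nat.le_of_ble_eq_true g2
  have m0 : ((a : ℝ) + b + (c + e0)) * v0 ^ 2 ≤ t0 * v0 ^ 2 :=
    mul_le_mul_of_nonneg_right (by exact_mod_cast k0) (sq_nonneg _)
  have m1 : ((b : ℝ) + d + (e + e1)) * v1 ^ 2 ≤ t1 * v1 ^ 2 :=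
    mul_le_mul_of_nonneg_right (by exact_mod_cast k1) (sq_nonneg _)
  have m2 : ((c : ℝ) + e + (f + e2)) * v2 ^ 2 ≤ t2 * v2 ^ 2 :=
    mul_le_mul_of_nonneg_right (by exact_mod_cast k2) (sq_nonneg _)
  obtain ⟨p0, q0⟩ := t3s_diag h0 v0
  obtain ⟨p1, q1⟩ := t3s_cross h1 v0 v1
  obtain ⟨p2, q2⟩ := t3s_cross h2 v0 v2
  obtain ⟨p3, q3⟩ := t3s_diag h3 v1
  obtain ⟨p4, q4⟩ := t3s_cross h4 v1 v2
  obtain ⟨p5, q5⟩ := t3s_diag h5 v2
  rw [← le_sub_iff_add_le, abs_le]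
  constructor <;> linarith

theorem six_sound {s d A B sh x e0 e1 e2 t0 t1 t2 : ℕ} {Q : Six LL} {P : Six (LN × LN)}
    {u v : ℝ → ℝ → ℝ} (hP : PQ6 s d Q P) (hA : Rep2 96 10 1 (2 ^ s) A fun a b => 2 ^ s * u a b)
    (hB : Rep2 96 10 1 (2 ^ s) B fun a b => 2 ^ s * v a b) (hs : sh ≤ 44)
    (h : six A B sh P (spread x) e0 e1 e2 t0 t1 t2 = true) {a b : ℝ} (ha : |a| ≤ 1) (hb : |b| ≤ 1)
    (v0 v1 v2 : ℝ) :
    |2 ^ (s * d) * qf (Q.map (opsR.h2 (u a b) (v a b))).mat v0 v1 v2 - 2 ^ sh * mq x a b v0 v1 v2| +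
      (e0 * v0 ^ 2 + e1 * v1 ^ 2 + e2 * v2 ^ 2) ≤ t0 * v0 ^ 2 + t1 * v1 ^ 2 + t2 * v2 ^ 2 := by
  obtain ⟨p0, p1, p2, p3, p4, p5⟩ := hP
  have := t3s_six (t3s_one (x := x) (j := 4) p0 hA hB hs ha hb)
    (t3s_one (x := x) (j := 2) p1 hA hB hs ha hb) (t3s_one (x := x) (j := 5) p2 hA hB hs ha hb)
    (t3s_one (x := x) (j := 0) p3 hA hB hs ha hb) (t3s_one (x := x) (j := 3) p4 hA hB hs ha hb)
    (t3s_one (x := x) (j := 6) p5 hA hB hs ha hb) h v0 v1 v2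
  rw [← rows6_qf, t3s_qf, t3s_qf]
  refine le_of_eq_of_le (congrArg (fun z => |z| + _) ?_) this
  show 2 ^ (s * d) * (opsR.h2 (u a b) (v a b) Q.f00 * v0 ^ 2 +
      2 * opsR.h2 (u a b) (v a b) Q.f01 * (v0 * v1) + 2 * opsR.h2 (u a b) (v a b) Q.f02 * (v0 * v2) +
      opsR.h2 (u a b) (v a b) Q.f11 * v1 ^ 2 + 2 * opsR.h2 (u a b) (v a b) Q.f12 * (v1 * v2) +
      opsR.h2 (u a b) (v a b) Q.f22 * v2 ^ 2) -
    2 ^ sh * (opsR.h2 a b (rows (Nat.shiftRight (spread x) (96 * 4))) * v0 ^ 2 +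
      2 * opsR.h2 a b (rows (Nat.shiftRight (spread x) (96 * 2))) * (v0 * v1) +
      2 * opsR.h2 a b (rows (Nat.shiftRight (spread x) (96 * 5))) * (v0 * v2) +
      opsR.h2 a b (rows (Nat.shiftRight (spread x) (96 * 0))) * v1 ^ 2 +
      2 * opsR.h2 a b (rows (Nat.shiftRight (spread x) (96 * 3))) * (v1 * v2) +
      opsR.h2 a b (rows (Nat.shiftRight (spread x) (96 * 6))) * v2 ^ 2) = _
  ring

end Pool.Agent.P.MP_f12b6c_an
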