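import Pool.Agent.P.MP_f12b6c_an.T3TabG

/-! The check of a part of the table. -/

namespace Pool.Agent.P.MP_f12b6c_an

theorem tabc35 : chkR tqA tkA tab 35 3 = true := by decide +kernel

theorem tabc38 : chkR tqA tkA tab 38 3 = true := by decide +kernel

theorem tabc41 : chkR tqA tkA tab 41 3 = true := by decide +kernel

theorem tabc44 : chkR tqA tkA tab 44 1 = true := by decide +kernel

theorem tabc45 : chkR tqA tkA tab 45 6 = true := by decide +kernel

theorem tabc51 : chkR tqA tkA tab 51 3 = true := by decide +kernel

theorem tabc54 : chkR tqA tkA tab 54 3 = true := by decide +kernel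

theorem tabc57 : chkR tqA tkA tab 57 3 = true := by decide +kernel

theorem tabc60 : chkR tqA tkA tab 60 7 = true := by decide +kernel

theorem tabu2 (h : Upto uF tab 35) : Upto uF tab 67 :=
  (Upto.step tkA_sound
    (Upto.step tkA_sound
    (Upto.step tkA_sound
    (Upto.step tkA_sound
    (Upto.step tkA_sound
    (Upto.step tkA_sound
    (Upto.step tkA_sound
    (Upto.step tkA_sound
    (Upto.step tkA_sound h tabc35 : Upto uF tab 38) tabc38 : Upto uF tab 41) tabc41 : Upto uF tab 44) tabc44 : Upto uF tab 45) tabc45 : Upto uF tab 51) tabc51 : Upto uF tab 54) tabc54 : Upto uF tab 57) tabc57 : Upto uF tab 60) tabc60 : Upto uF tab 67)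

end Pool.Agent.P.MP_f12b6c_an
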