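import Pool.Agent.P.MP_f12b6c_an.T3TabG

/-! The check of a part of the table. -/

namespace Pool.Agent.P.MP_f12b6c_an

theorem tabc67 : chkR tqA tkA tab 67 3 = true := by decide +kernel

theorem tabc70 : chkR tqA tkA tab 70 3 = true := by decide +kernel

theorem tabc73 : chkR tqA tkA tab 73 2 = true := by decide +kernel

theorem tabc75 : chkR tqA tkA tab 75 1 = true := by decide +kernel

theorem tabc76 : chkR tqA tkA tab 76 6 = true := by decide +kernel

theorem tabc82 : chkR tqA tkA tab 82 1 = true := by decide +kernel

theorem tabc83 : chkR tqA tkA tab 83 3 = true := by decide +kernel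

theorem tabc86 : chkR tqA tkA tab 86 3 = true := by decide +kernel

theorem tabc89 : chkR tqA tkA tab 89 3 = true := by decide +kernel

theorem tabc92 : chkR tqA tkA tab 92 2 = true := by decide +kernel

theorem tabc94 : chkR tqA tkA tab 94 5 = true := by decide +kernel

theorem tabu3 (h : Upto uF tab 67) : Upto uF tab 99 :=
  (Upto.step tkA_sound
    (Upto.step tkA_sound
    (Upto.step tkA_sound
    (Upto.step tkA_sound
    (Upto.step tkA_sound
    (Upto.step tkA_sound
    (Upto.step tkA_sound
    (Upto.step tkA_sound
    (Upto.step tkA_sound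
    (Upto.step tkA_sound
    (Upto.step tkA_sound h tabc67 : Upto uF tab 70) tabc70 : Upto uF tab 73) tabc73 : Upto uF tab 75) tabc75 : Upto uF tab 76) tabc76 : Upto uF tab 82) tabc82 : Upto uF tab 83) tabc83 : Upto uF tab 86) tabc86 : Upto uF tab 89) tabc89 : Upto uF tab 92) tabc92 : Upto uF tab 94) tabc94 : Upto uF tab 99)

end Pool.Agent.P.MP_f12b6c_an
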