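import Pool.Agent.P.MP_f12b6c_an.T3TabG

/-! The check of a part of the table. -/

namespace Pool.Agent.P.MP_f12b6c_an

theorem tabc99 : chkR tqA tkA tab 99 3 = true := by decide +kernel

theorem tabc102 : chkR tqA tkA tab 102 3 = true := by decide +kernel

theorem tabc105 : chkR tqA tkA tab 105 3 = true := by decide +kernel

theorem tabc108 : chkR tqA tkA tab 108 6 = true := by decide +kernel

theorem tabc114 : chkR tqA tkA tab 114 4 = true := by decide +kernel

theorem tabc118 : chkR tqA tkA tab 118 2 = true := by decide +kernel

theorem tabc120 : chkR tqA tkA tab 120 1 = true := by decide +kernel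

theorem tabc121 : chkR tqA tkA tab 121 3 = true := by decide +kernel

theorem tabc124 : chkR tqA tkA tab 124 7 = true := by decide +kernel

theorem tabu4 (h : Upto uF tab 99) : Upto uF tab 131 :=
  (Upto.step tkA_sound
    (Upto.step tkA_sound
    (Upto.step tkA_sound
    (Upto.step tkA_sound
    (Upto.step tkA_sound
    (Upto.step tkA_sound
    (Upto.step tkA_sound
    (Upto.step tkA_sound
    (Upto.step tkA_sound h tabc99 : Upto uF tab 102) tabc102 : Upto uF tab 105) tabc105 : Upto uF tab 108) tabc108 : Upto uF tab 114) tabc114 : Upto uF tab 118) tabc118 : Upto uF tab 120) tabc120 : Upto uF tab 121) tabc121 : Upto uF tab 124) tabc124 : Upto uF tab 131)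

end Pool.Agent.P.MP_f12b6c_an
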