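import Pool.Agent.P.MP_f12b6c_an.T3TabG

/-! The check of a part of the table. -/

namespace Pool.Agent.P.MP_f12b6c_an

theorem tabc131 : chkR tqA tkA tab 131 3 = true := by decide +kernel

theorem tabc134 : chkR tqA tkA tab 134 1 = true := by decide +kernel

theorem tabc135 : chkR tqA tkA tab 135 2 = true := by decide +kernel

theorem tabc137 : chkR tqA tkA tab 137 3 = true := by decide +kernel

theorem tabc140 : chkR tqA tkA tab 140 7 = true := by decide +kernel

theorem tabc147 : chkR tqA tkA tab 147 3 = true := by decide +kernel

theorem tabc150 : chkR tqA tkA tab 150 3 = true := by decide +kernel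

theorem tabc153 : chkR tqA tkA tab 153 3 = true := by decide +kernel

theorem tabc156 : chkR tqA tkA tab 156 5 = true := by decide +kernel

theorem tabc161 : chkR tqA tkA tab 161 2 = true := by decide +kernel

theorem tabu5 (h : Upto uF tab 131) : Upto uF tab 163 :=
  (Upto.step tkA_sound
    (Upto.step tkA_sound
    (Upto.step tkA_sound
    (Upto.step tkA_sound
    (Upto.step tkA_sound
    (Upto.step tkA_sound
    (Upto.step tkA_sound
    (Upto.step tkA_sound
    (Upto.step tkA_sound
    (Upto.step tkA_sound h tabc131 : Upto uF tab 134) tabc134 : Upto uF tab 135) tabc135 : Upto uF tab 137) tabc137 : Upto uF tab 140) tabc140 : Upto uF tab 147) tabc147 : Upto uF tab 150) tabc150 : Upto uF tab 153) tabc153 : Upto uF tab 156) tabc156 : Upto uF tab 161) tabc161 : Upto uF tab 163)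

end Pool.Agent.P.MP_f12b6c_an
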