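import Pool.Agent.P.MP_f12b6c_an.T3TabG

/-! The check of a part of the table. -/

namespace Pool.Agent.P.MP_f12b6c_an

theorem tabc163 : chkR tqA tkA tab 163 3 = true := by decide +kernel

theorem tabc166 : chkR tqA tkA tab 166 3 = true := by decide +kernel

theorem tabc169 : chkR tqA tkA tab 169 3 = true := by decide +kernel

theorem tabc172 : chkR tqA tkA tab 172 1 = true := by decide +kernel

theorem tabc173 : chkR tqA tkA tab 173 6 = true := by decide +kernel

theorem tabc179 : chkR tqA tkA tab 179 1 = true := by decide +kernel

theorem tabc180 : chkR tqA tkA tab 180 2 = true := by decide +kernel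

theorem tabc182 : chkR tqA tkA tab 182 3 = true := by decide +kernel

theorem tabc185 : chkR tqA tkA tab 185 3 = true := by decide +kernel

theorem tabc188 : chkR tqA tkA tab 188 7 = true := by decide +kernel

theorem tabu6 (h : Upto uF tab 163) : Upto uF tab 195 :=
  (Upto.step tkA_sound
    (Upto.step tkA_sound
    (Upto.step tkA_sound
    (Upto.step tkA_sound
    (Upto.step tkA_sound
    (Upto.step tkA_sound
    (Upto.step tkA_sound
    (Upto.step tkA_sound
    (Upto.step tkA_sound
    (Upto.step tkA_sound h tabc163 : Upto uF tab 166) tabc166 : Upto uF tab 169) tabc169 : Upto uF tab 172) tabc172 : Upto uF tab 173) tabc173 : Upto uF tab 179) tabc179 : Upto uF tab 180) tabc180 : Upto uF tab 182) tabc182 : Upto uF tab 185) tabc185 : Upto uF tab 188) tabc188 : Upto uF tab 195)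

end Pool.Agent.P.MP_f12b6c_an
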