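import Pool.Agent.P.MP_f12b6c_an.T3TabG

/-! The check of a part of the table. -/

namespace Pool.Agent.P.MP_f12b6c_an

theorem tabc195 : chkR tqA tkA tab 195 3 = true := by decide +kernel

theorem tabc198 : chkR tqA tkA tab 198 3 = true := by decide +kernel

theorem tabc201 : chkR tqA tkA tab 201 3 = true := by decide +kernel

theorem tabc204 : chkR tqA tkA tab 204 6 = true := by decide +kernel

theorem tabc210 : chkR tqA tkA tab 210 1 = true := by decide +kernel

theorem tabc211 : chkR tqA tkA tab 211 3 = true := by decide +kernel

theorem tabc214 : chkR tqA tkA tab 214 2 = true := by decide +kernel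

theorem tabc216 : chkR tqA tkA tab 216 4 = true := by decide +kernel

theorem tabc220 : chkR tqA tkA tab 220 5 = true := by decide +kernel

theorem tabc225 : chkR tqA tkA tab 225 2 = true := by decide +kernel

theorem tabu7 (h : Upto uF tab 195) : Upto uF tab 227 :=
  (Upto.step tkA_sound
    (Upto.step tkA_sound
    (Upto.step tkA_sound
    (Upto.step tkA_sound
    (Upto.step tkA_sound
    (Upto.step tkA_sound
    (Upto.step tkA_sound
    (Upto.step tkA_sound
    (Upto.step tkA_sound
    (Upto.step tkA_sound h tabc195 : Upto uF tab 198) tabc198 : Upto uF tab 201) tabc201 : Upto uF tab 204) tabc204 : Upto uF tab 210) tabc210 : Upto uF tab 211) tabc211 : Upto uF tab 214) tabc214 : Upto uF tab 216) tabc216 : Upto uF tab 220) tabc220 : Upto uF tab 225) tabc225 : Upto uF tab 227)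

end Pool.Agent.P.MP_f12b6c_an
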