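import Pool.Agent.P.MP_f12b6c_an.T3TabG

/-! The check of a part of the table. -/

namespace Pool.Agent.P.MP_f12b6c_an

theorem tabc227 : chkR tqA tkA tab 227 1 = true := by decide +kernel

theorem tabc228 : chkR tqA tkA tab 228 5 = true := by decide +kernel

theorem tabc233 : chkR tqA tkA tab 233 3 = true := by decide +kernel

theorem tabc236 : chkR tqA tkA tab 236 7 = true := by decide +kernel

theorem tabc243 : chkR tqA tkA tab 243 3 = true := by decide +kernel

theorem tabc246 : chkR tqA tkA tab 246 2 = true := by decide +kernel

theorem tabc248 : chkR tqA tkA tab 248 1 = true := by decide +kernel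

theorem tabc249 : chkR tqA tkA tab 249 3 = true := by decide +kernel

theorem tabc252 : chkR tqA tkA tab 252 4 = true := by decide +kernel

theorem tabu8 (h : Upto uF tab 227) : Upto uF tab 256 :=
  (Upto.step tkA_sound
    (Upto.step tkA_sound
    (Upto.step tkA_sound
    (Upto.step tkA_sound
    (Upto.step tkA_sound
    (Upto.step tkA_sound
    (Upto.step tkA_sound
    (Upto.step tkA_sound
    (Upto.step tkA_sound h tabc227 : Upto uF tab 228) tabc228 : Upto uF tab 233) tabc233 : Upto uF tab 236) tabc236 : Upto uF tab 243) tabc243 : Upto uF tab 246) tabc246 : Upto uF tab 248) tabc248 : Upto uF tab 249) tabc249 : Upto uF tab 252) tabc252 : Upto uF tab 256)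

end Pool.Agent.P.MP_f12b6c_an
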