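import Pool.Agent.P.MP_f12b6c_an.T3TabC1
import Pool.Agent.P.MP_f12b6c_an.T3TabC2
import Pool.Agent.P.MP_f12b6c_an.T3TabC3
import Pool.Agent.P.MP_f12b6c_an.T3TabC4
import Pool.Agent.P.MP_f12b6c_an.T3TabC5
import Pool.Agent.P.MP_f12b6c_an.T3TabC6
import Pool.Agent.P.MP_f12b6c_an.T3TabC7
import Pool.Agent.P.MP_f12b6c_an.T3TabC8

/-! The table is valid. -/

namespace Pool.Agent.P.MP_f12b6c_an

theorem tab_good : Good uF tab 0 0 2048 :=
  good_of_upto (by decide +kernel) (tabu8 (tabu7 (tabu6 (tabu5 (tabu4 (tabu3 (tabu2 (tabu1 (Upto.zero uF tab)))))))))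

end Pool.Agent.P.MP_f12b6c_an
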