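import Pool.Agent.P.MP_f12b6c_an.T3TabG

/-! The check of a part of the table. -/

namespace Pool.Agent.P.MP_f12b6c_an

theorem tabc0 : chkR tqA tkA tab 0 6 = true := by decide +kernel

theorem tabc6 : chkR tqA tkA tab 6 1 = true := by decide +kernel

theorem tabc7 : chkR tqA tkA tab 7 2 = true := by decide +kernel

theorem tabc9 : chkR tqA tkA tab 9 2 = true := by decide +kernel

theorem tabc11 : chkR tqA tkA tab 11 8 = true := by decide +kernel

theorem tabc19 : chkR tqA tkA tab 19 3 = true := by decide +kernel

theorem tabc22 : chkR tqA tkA tab 22 3 = true := by decide +kernel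

theorem tabc25 : chkR tqA tkA tab 25 3 = true := by decide +kernel

theorem tabc28 : chkR tqA tkA tab 28 2 = true := by decide +kernel

theorem tabc30 : chkR tqA tkA tab 30 5 = true := by decide +kernel

theorem tabu1 (h : Upto uF tab 0) : Upto uF tab 35 :=
  (Upto.step tkA_sound
    (Upto.step tkA_sound
    (Upto.step tkA_sound
    (Upto.step tkA_sound
    (Upto.step tkA_sound
    (Upto.step tkA_sound
    (Upto.step tkA_sound
    (Upto.step tkA_sound
    (Upto.step tkA_sound
    (Upto.step tkA_sound h tabc0 : Upto uF tab 6) tabc6 : Upto uF tab 7) tabc7 : Upto uF tab 9) tabc9 : Upto uF tab 11) tabc11 : Upto uF tab 19) tabc19 : Upto uF tab 22) tabc22 : Upto uF tab 25) tabc25 : Upto uF tab 28) tabc28 : Upto uF tab 30) tabc30 : Upto uF tab 35)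

end Pool.Agent.P.MP_f12b6c_an
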