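import Pool.Agent.P.MP_f12b6c_an.T3U
import Pool.Agent.P.MP_f12b6c_an.T3Good
import Pool.Agent.P.MP_f12b6c_an.T3Tab

/-! The top models for the check of the table. -/

namespace Pool.Agent.P.MP_f12b6c_an

/-- The reduced Hessian of the profile in the chart. -/
noncomputable def uF : ℝ → ℝ → Mat 3 := Mc (1 / 2) 4 (6593 / 4096) (pol 65536 uL)

theorem uD_M : uD.M = uF := by
  funext s t
  show Mc (((1 : ℤ) : ℝ) / ((2 : ℤ) : ℝ)) (((262144 : ℤ) : ℝ) / ((65536 : ℕ) : ℝ))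
    (((105488 : ℤ) : ℝ) / ((65536 : ℕ) : ℝ)) (pol 65536 uL) s t = _
  unfold uF
  norm_num

/-- The parameters of the top models. -/
def tpA : TP := ⟨288, 42, 1723, 41, 28, 40, 9, 1099511627776⟩

theorem tpA_ok : tpA.Ok uD := by decide +kernel

/-- The centre of a top cell. -/
noncomputable def cA (X : ℕ) : ℤ := snn (Nat.succ (Nat.div X (nat_lit 16))) (nat_lit 64)

/-- The top model. -/
noncomputable def tqA (X Y : ℕ) : Six LL := topQ uD tpA (cA X) (cA Y) (nat_lit 1)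

/-- The check of a top model. -/
noncomputable def tkA (X Y : ℕ) (Q : Six LL) : Bool :=
  ban (Nat.beq (Nat.mod X (nat_lit 16)) (nat_lit 0)) (ban (Nat.beq (Nat.mod Y (nat_lit 16)) (nat_lit 0))
    (topOK uD tpA (cA X) (cA Y) (nat_lit 1) Q (nat_lit 2048)))

theorem cA_eq {X : ℕ} (h : X % 16 = 0) (a : ℝ) :
    cx X 32 a = ((cA X : ℝ) + (1 : ℕ) * a) / (uD.h : ℝ) := by
  obtain ⟨m, rfl⟩ : ∃ m, X = 16 * m := ⟨X / 16, by omega⟩
  have e : cA (16 * m) = (m : ℤ) + 1 - 64 := by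
    rw [cA, snn_eq]
    show (((16 * m / 16 + 1 : ℕ) : ℤ)) - (64 : ℕ) = _
    rw [Nat.mul_div_cancel_left m (by norm_num : 0 < 16)]
    push_cast
    ring
  have e2 : (uD.h : ℝ) = 32 := by
    show ((32 : ℕ) : ℝ) = 32
    norm_num
  rw [e, e2, cx]
  push_cast
  ring

theorem tkA_sound (X Y : ℕ) (Q : Six LL) (h : tkA X Y Q = true) : TopM uF X Y Q := by
  obtain ⟨h1, h⟩ := ban_eq.1 h
  obtain ⟨h2, h⟩ := ban_eq.1 h
  intro a b ha hb i j
  have := (top_sound uD_ok tpA_ok h).val a b ha hb i j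
  rw [topErr, uD_M, ← cA_eq (Nat.eq_of_beq_eq_true h1), ← cA_eq (Nat.eq_of_beq_eq_true h2)] at this
  refine le_trans (le_of_eq ?_) (this.trans_eq (by norm_num))
  rfl

end Pool.Agent.P.MP_f12b6c_an
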