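import Pool.Agent.P.MP_f12b6c_an.T3Geo
import Pool.Agent.P.MP_f12b6c_an.T3Kron

/-!
Polynomial models of the reduced Hessian on square cells of the chart.
-/

namespace Pool.Agent.P.MP_f12b6c_an

open Matrix

/-- The data of a profile: `k = kn / kd`, cocycle `r1 / D`, `r2 / D`, coefficients `l / D` of
degree at most `L + 2`, the scale `h` of the chart; the numerators in the chart are
`Nn - b * (e + S + T) ^ gw`. -/
structure UD where
  kn : ℤ
  kd : ℤ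
  r1 : ℤ
  r2 : ℤ
  D : ℕ
  L : ℕ
  h : ℕ
  l : List Mono
  b : ℕ
  e : ℕ
  gw : ℕ
  Nn : Six (List (List ℕ))

/-- The reduced Hessian in the chart. -/
noncomputable def UD.M (u : UD) (s t : ℝ) : Mat 3 :=
  Mc (u.kn / u.kd) (u.r1 / u.D) (u.r2 / u.D) (pol u.D u.l) s t

/-- `h² + S² + T²`. -/
def Ops.cw {R : Type} (o : Ops R) (h : ℕ) (S T : R) : R :=
  o.ad (o.sm (Int.ofNat (Nat.mul h h)) o.one) (o.ad (o.mu S S) (o.mu T T))

/-- `h² - S² - T²`. -/
def Ops.cc {R : Type} (o : Ops R) (h : ℕ) (S T : R) : R :=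
  o.sb (o.sm (Int.ofNat (Nat.mul h h)) o.one) (o.ad (o.mu S S) (o.mu T T))

/-- The numerators in the chart. -/
def Ops.numC {R : Type} (o : Ops R) (u : UD) (S T : R) : Six R :=
  o.num u.kn u.kd u.r1 u.r2 u.L u.l (o.sm (Int.ofNat (Nat.mul 2 u.h)) S)
    (o.sm (Int.ofNat (Nat.mul 2 u.h)) T) (o.cc u.h S T) (o.cw u.h S T)

/-- The denominator in the chart. -/
def Ops.denC {R : Type} (o : Ops R) (u : UD) (S T : R) : R :=
  o.sm (Int.ofNat u.D)
    (o.den u.kn u.kd u.L (o.sm (Int.ofNat (Nat.mul 2 u.h)) T) (o.cc u.h S T) (o.cw u.h S T))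

/-- The polynomial that makes the coefficients positive. -/
def Ops.wb {R : Type} (o : Ops R) (u : UD) (S T : R) : R :=
  o.sm (Int.ofNat u.b) (o.pw (o.ad (o.sm (Int.ofNat u.e) o.one) (o.ad S T)) u.gw)

/-- Natural rows as integer rows. -/
def tCast (l : List (List ℕ)) : List (List ℤ) := l.map (List.map Int.ofNat)

/-- A numerator from its rows. -/
noncomputable def Ops.nr {R : Type} (o : Ops R) (u : UD) (S T : R) (l : List (List ℕ)) : R :=
  o.sb (o.h2 S T (tCast l)) (o.wb u S T)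

theorem Ops.Hom.nr {R S : Type} {o : Ops R} {o' : Ops S} {φ : R → S} (h : o.Hom o' φ) (u : UD)
    (a b : R) (l : List (List ℕ)) : φ (o.nr u a b l) = o'.nr u (φ a) (φ b) l := by
  simp only [Ops.nr, Ops.wb, h.h2, h.pw, h.ad, h.sb, h.sm, h.one]

theorem Rep2.nr {K n g M g' M' : ℕ} {N N' : ℤ} {F F' : ℝ → ℝ → ℝ} (h : Rep2 K n g M N F)
    (h' : Rep2 K n g' M' N' F') (u : UD) (l : List (List ℕ)) :
    Rep2 K n (opsG.nr u g g' l) (opsM.nr u M M' l) (opsZ.nr u N N' l)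
      fun s t => opsR.nr u (F s t) (F' s t) l := by
  have := ((opsT K n).nr u ⟨N, F, g, M, h⟩ ⟨N', F', g', M', h'⟩ l).ok
  rw [(homG K n).nr, (homM K n).nr, (homN K n).nr] at this
  exact this.congr rfl fun s t => (homF K n s t).nr _ _ _ l

theorem Ops.Hom.numC {R S : Type} {o : Ops R} {o' : Ops S} {φ : R → S} (h : o.Hom o' φ) (u : UD)
    (a b : R) : (o.numC u a b).map φ = o'.numC u (φ a) (φ b) := by
  simp only [Ops.numC, h.num, Ops.cc, Ops.cw, h.ad, h.sb, h.mu, h.sm, h.one]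

theorem Ops.Hom.denC {R S : Type} {o : Ops R} {o' : Ops S} {φ : R → S} (h : o.Hom o' φ) (u : UD)
    (a b : R) : φ (o.denC u a b) = o'.denC u (φ a) (φ b) := by
  simp only [Ops.denC, h.den, Ops.cc, Ops.cw, h.ad, h.sb, h.mu, h.sm, h.one]

/-- The data are consistent. -/
structure UD.Ok (u : UD) : Prop where
  deg : degLe (u.L + 2) u.l
  odd : oddL u.l
  hD : u.D ≠ 0
  k0 : 0 ≤ u.kn
  k1 : u.kn < u.kd
  hh : u.h ≠ 0
  num : ∀ S T : ℝ, opsR.numC u S T = u.Nn.map (opsR.nr u S T)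

/-- A property of all six entries. -/
def Six.All {R : Type} (P : R → Prop) (a : Six R) : Prop :=
  P a.f00 ∧ P a.f01 ∧ P a.f02 ∧ P a.f11 ∧ P a.f12 ∧ P a.f22

/-- A relation between corresponding entries. -/
def Six.All2 {R S : Type} (P : R → S → Prop) (a : Six R) (b : Six S) : Prop :=
  P a.f00 b.f00 ∧ P a.f01 b.f01 ∧ P a.f02 b.f02 ∧ P a.f11 b.f11 ∧ P a.f12 b.f12 ∧ P a.f22 b.f22

instance {R : Type} (P : R → Prop) [DecidablePred P] (a : Six R) : Decidable (a.All P) := by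
  unfold Six.All; infer_instance

instance {R S : Type} (P : R → S → Prop) [∀ x y, Decidable (P x y)] (a : Six R) (b : Six S) :
    Decidable (a.All2 P b) := by
  unfold Six.All2; infer_instance

/-- The finite check of the numerators. -/
def UD.Chk (u : UD) (K n : ℕ) : Prop :=
  14 ≤ K ∧ n * n < 4000 ∧
    (opsZ.numC u (2 ^ K) (2 ^ (K * n))).All2 (fun a l => a = opsZ.nr u (2 ^ K) (2 ^ (K * n)) l) u.Nn ∧
    (opsG.numC u 1 1).All2 (fun a l => max a (opsG.nr u 1 1 l) < n) u.Nn ∧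
    (opsM.numC u 1 1).All2 (fun a l => a + opsM.nr u 1 1 l < 2 ^ (K - 13)) u.Nn

noncomputable instance (u : UD) (K n : ℕ) : Decidable (u.Chk K n) := by
  unfold UD.Chk; infer_instance

theorem UD.Chk.num {u : UD} {K n : ℕ} (h : u.Chk K n) (S T : ℝ) :
    opsR.numC u S T = u.Nn.map (opsR.nr u S T) := by
  obtain ⟨hK, hn, h1, h2, h3⟩ := h
  let x : RT2 K n := ⟨2 ^ K, fun s _ => s, 1, 1, Rep2.var0⟩
  let y : RT2 K n := ⟨2 ^ (K * n), fun _ t => t, 1, 1, Rep2.var1⟩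
  have key : ∀ (a : RT2 K n) (l : List (List ℕ)), a.N = opsZ.nr u (2 ^ K) (2 ^ (K * n)) l →
      max a.g (opsG.nr u 1 1 l) < n → a.M + opsM.nr u 1 1 l < 2 ^ (K - 13) →
      a.F S T = opsR.nr u S T l := by
    intro a l e g m
    have r := a.ok.sub (Rep2.var0.nr Rep2.var1 u l)
    rw [e, sub_self] at r
    exact sub_eq_zero.1 (r.zero g ((Nat.mul_le_mul_left n g.le).trans_lt hn) hK m S T)
  have e1 : opsZ.numC u (2 ^ K) (2 ^ (K * n)) = _ := ((homN K n).numC u x y).symm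
  have e2 : opsG.numC u 1 1 = _ := ((homG K n).numC u x y).symm
  have e3 : opsM.numC u 1 1 = _ := ((homM K n).numC u x y).symm
  have e4 : opsR.numC u S T = _ := ((homF K n S T).numC u x y).symm
  rw [e1] at h1
  rw [e2] at h2
  rw [e3] at h3
  rw [e4]
  generalize (opsT K n).numC u x y = A at h1 h2 h3
  obtain ⟨a1, a2, a3, a4, a5, a6⟩ := h1
  obtain ⟨b1, b2, b3, b4, b5, b6⟩ := h2
  obtain ⟨c1, c2, c3, c4, c5, c6⟩ := h3
  simp only [Six.map, Six.mk.injEq]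
  exact ⟨key _ _ a1 b1 c1, key _ _ a2 b2 c2, key _ _ a3 b3 c3, key _ _ a4 b4 c4, key _ _ a5 b5 c5,
    key _ _ a6 b6 c6⟩

theorem opsR_denC (u : UD) (S T : ℝ) : opsR.denC u S T =
    u.D * ((u.h ^ 2 + (S ^ 2 + T ^ 2)) ^ u.L *
      (u.kd * ((u.h ^ 2 + (S ^ 2 + T ^ 2)) * (u.h ^ 2 + (S ^ 2 + T ^ 2))) +
        u.kn * (2 * u.h * T * (u.h ^ 2 - (S ^ 2 + T ^ 2)))) ^ 3) := by
  rw [Ops.denC, opsR_den]
  simp only [Ops.cc, Ops.cw, opsR, Int.ofNat_eq_natCast, Nat.mul_eq, Int.cast_natCast]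
  push_cast
  simp only [sq, mul_one]

theorem UD.Ok.M_eq {u : UD} (hu : u.Ok) (S T : ℝ) :
    u.M (S / u.h) (T / u.h) = (1 / opsR.denC u S T) • (u.Nn.map (opsR.nr u S T)).mat := by
  have h := (Mc_pol (r1 := u.r1) (r2 := u.r2) hu.deg hu.hD hu.k0 hu.k1
    (h := u.h) (Nat.cast_pos.2 (Nat.pos_of_ne_zero hu.hh)) S T).2
  rw [← hu.num, UD.M, h, opsR_denC, opsR_den]
  simp only [Ops.numC, Ops.cc, Ops.cw, opsR, Int.ofNat_eq_natCast, Nat.mul_eq, Int.cast_natCast]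
  push_cast
  simp only [sq, mul_one]

/-- Parameters of the check: layout `K`, `n`, `ns`, total degree `g`, scale `2 ^ q`, bound `X` for
the coordinates, degree and coefficient sum of the models. -/
structure TP where
  K : ℕ
  n : ℕ
  ns : ℕ
  g : ℕ
  q : ℕ
  X : ℕ
  gq : ℕ
  MQ : ℕ

/-- The parameters fit the profile. -/
def TP.Ok (u : UD) (p : TP) : Prop :=
  14 ≤ p.K ∧ p.ns ≤ 4000 ∧ p.g < p.n ∧ p.n * p.g < p.ns ∧ p.gq + opsG.denC u 1 1 ≤ p.g ∧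
    u.Nn.All (fun l => opsG.nr u 1 1 l ≤ p.g) ∧
    u.Nn.All fun l => 2 ^ p.q * opsM.nr u p.X p.X l + p.MQ * opsM.denC u p.X p.X < 2 ^ (p.K - 13)

noncomputable instance (u : UD) (p : TP) : Decidable (p.Ok u) := by
  unfold TP.Ok; infer_instance

/-- Conjunction. -/
noncomputable def ban (a b : Bool) : Bool := @Bool.rec (fun _ => Bool) false b a

theorem ban_eq {a b : Bool} : ban a b = true ↔ a = true ∧ b = true := by
  cases a <;> simp [ban]

/-- The packed first coordinate. -/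
noncomputable def pkS (p : TP) (c : ℤ) (r : ℕ) : ℤ := iadd c (Int.ofNat (Nat.shiftLeft r p.K))

/-- The packed second coordinate. -/
noncomputable def pkT (p : TP) (c : ℤ) (r : ℕ) : ℤ :=
  iadd c (Int.ofNat (Nat.shiftLeft r (Nat.mul p.K p.n)))

/-- Evaluate a number and pass it on. -/
noncomputable def tF {α : Type} (n : ℕ) (k : ℕ → α) : α :=
  @Nat.rec (fun _ => α) (k (nat_lit 0)) (fun m _ => k (Nat.succ m)) n

theorem tF_eq {α : Type} (n : ℕ) (k : ℕ → α) : tF n k = k n := by cases n <;> rfl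

/-- Evaluation of a list of natural coefficients. -/
noncomputable def tH (x : ℕ) (l : List ℕ) : ℕ :=
  @List.rec ℕ (fun _ => ℕ) (nat_lit 0) (fun c _ r => Nat.add c (Nat.mul x r)) l

/-- The values of the rows, multiplied by `2 ^ q`. -/
noncomputable def tRows (q x : ℕ) (l : List (List ℕ)) : List ℕ :=
  @List.rec (List ℕ) (fun _ => List ℕ) [] (fun c _ r => Nat.shiftLeft (tH x c) q :: r) l

/-- Combine neighbouring coefficients. -/
noncomputable def tPair (y : ℕ) (l : List ℕ) : Bool → ℕ → List ℕ :=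
  @List.rec ℕ (fun _ => Bool → ℕ → List ℕ) (fun b a => @Bool.rec (fun _ => List ℕ) [] [a] b)
    (fun c _ r b a => @Bool.rec (fun _ => List ℕ) (r true c)
      (Nat.add a (Nat.mul y c) :: r false (nat_lit 0)) b) l

/-- Evaluation that does not touch the variable for a single coefficient. -/
noncomputable def tLast (y : ℕ) (l : List ℕ) : ℕ :=
  @List.rec ℕ (fun _ => ℕ) (nat_lit 0) (fun c tl _ =>
    @List.rec ℕ (fun _ => ℕ) c (fun _ _ _ => Nat.add c (Nat.mul y (tH y tl))) tl) l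

/-- Evaluation by repeated halving. -/
noncomputable def tEs (m : ℕ) : ℕ → List ℕ → ℕ :=
  @Nat.rec (fun _ => ℕ → List ℕ → ℕ) tLast
    (fun _ ih y l => ih (Nat.mul y y) (tPair y l false (nat_lit 0))) m

/-- The bias minus the common part of the numerators. -/
noncomputable def cellW (u : UD) (p : TP) (S T : ℕ) : ℕ :=
  Nat.shiftLeft (Nat.mul u.b (Nat.pow (Nat.add u.e (Nat.add S T)) u.gw)) p.q

/-- A packed numerator in a cell, multiplied by `2 ^ q` and biased. -/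
noncomputable def cellA (u : UD) (p : TP) (S T : ℕ) (l : List (List ℕ)) : ℕ :=
  Nat.add (tEs (nat_lit 6) T (tRows p.q S l)) (Nat.sub (omK p.K p.ns) (cellW u p S T))

/-- `S² + T²`. -/
def cellM (S T : ℕ) : ℕ := Nat.add (Nat.mul S S) (Nat.mul T T)

/-- `h² + S² + T²`. -/
def cellR (u : UD) (S T : ℕ) : ℕ := Nat.add (Nat.mul u.h u.h) (cellM S T)

/-- The positive part of the quartic factor. -/
noncomputable def cellP (u : UD) (S T : ℕ) : ℕ :=
  Nat.add (Nat.mul (iabs u.kd) (Nat.mul (cellR u S T) (cellR u S T)))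
    (Nat.mul (Nat.mul (iabs u.kn) (Nat.mul (Nat.mul 2 u.h) T)) (Nat.mul u.h u.h))

/-- The negative part of the quartic factor. -/
noncomputable def cellQ (u : UD) (S T : ℕ) : ℕ :=
  Nat.mul (Nat.mul (iabs u.kn) (Nat.mul (Nat.mul 2 u.h) T)) (cellM S T)

/-- The packed denominator in a cell. -/
noncomputable def cellD (u : UD) (S T : ℕ) : ℕ :=
  Nat.mul (Nat.pow (cellR u S T) u.L)
    (Nat.mul u.D (Nat.pow (Nat.sub (cellP u S T) (cellQ u S T)) 3))

/-- The negative part of an integer. -/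
noncomputable def tNeg (a : ℤ) : ℕ :=
  @Int.rec (fun _ => ℕ) (fun _ => nat_lit 0) (fun m => Nat.succ m) a

/-- Pack the parts `g` of a row. -/
noncomputable def tPk1 (g : ℤ → ℕ) (K : ℕ) (l : List ℤ) : ℕ :=
  @List.rec ℤ (fun _ => ℕ) (nat_lit 0) (fun c _ r => Nat.add (g c) (Nat.shiftLeft r K)) l

/-- Pack the parts `g` of a list of rows. -/
noncomputable def tPk (g : ℤ → ℕ) (K m : ℕ) (l : List (List ℤ)) : ℕ :=
  @List.rec (List ℤ) (fun _ => ℕ) (nat_lit 0)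
    (fun c _ r => Nat.add (tPk1 g K c) (Nat.shiftLeft r m)) l

/-- A packed model. -/
noncomputable def packQ (p : TP) (l : List (List ℤ)) : ℤ :=
  snn (tPk itoNat p.K (Nat.mul p.K p.n) l) (tPk tNeg p.K (Nat.mul p.K p.n) l)

/-- The sum of the absolute values in a row. -/
noncomputable def tS1 (l : List ℤ) : ℕ :=
  @List.rec ℤ (fun _ => ℕ) (nat_lit 0) (fun c _ r => Nat.add (iabs c) r) l

/-- The sum of the absolute values. -/
noncomputable def tSum (l : List (List ℤ)) : ℕ :=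
  @List.rec (List ℤ) (fun _ => ℕ) (nat_lit 0) (fun c _ r => Nat.add (tS1 c) r) l

/-- The length of a row. -/
noncomputable def tLen (l : List ℤ) : ℕ :=
  @List.rec ℤ (fun _ => ℕ) (nat_lit 0) (fun _ _ r => Nat.succ r) l

/-- The rows have total degree less than the argument. -/
noncomputable def tTri (l : List (List ℤ)) : ℕ → Bool :=
  @List.rec (List ℤ) (fun _ => ℕ → Bool) (fun _ => true)
    (fun c _ r d => ban (Nat.ble (nat_lit 1) d) (ban (Nat.ble (tLen c) d) (r (Nat.pred d)))) l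

/-- The biased residual. -/
noncomputable def tRes (A Dn : ℕ) (Q : ℤ) : ℕ :=
  @Int.rec (fun _ => ℕ) (fun m => Nat.sub A (Nat.mul m Dn))
    (fun m => Nat.add A (Nat.mul (Nat.succ m) Dn)) Q

/-- The check of one entry; `lo` is eight times a lower bound of the denominator. -/
noncomputable def entOK (p : TP) (A Dn : ℕ) (Q : List (List ℤ)) (eps lo : ℕ) : Bool :=
  ban (tTri Q (Nat.succ p.gq)) (ban (Nat.ble (tSum Q) p.MQ)
    (Nat.ble (Nat.mul 8 (absK1 p.K p.ns (tRes A Dn (packQ p Q)))) (Nat.mul eps lo)))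

/-- The lower bound of `h² + S² + T²` in a cell with `|c1| = a`, `|c2| = b`. -/
def wLo (h a b r : ℕ) : ℕ := h * h + ((a - r) * (a - r) + (b - r) * (b - r))

/-- The upper bound of `h² + S² + T²` in a cell. -/
def wHi (h a b r : ℕ) : ℕ := h * h + ((a + r) * (a + r) + (b + r) * (b + r))

/-- The variation of `h² + S² + T²` in a cell. -/
def wLip (a b r : ℕ) : ℕ := 2 * r * (a + r + (b + r))

/-- Eight times the lower bound of the denominator; `kn`, `kd` are the parts of `k`. -/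
def dLo (D L kn kd w : ℕ) : ℕ := D * (w ^ L * ((2 * kd - kn) * (w * w)) ^ 3)

/-- The conditions on the geometry of a cell. -/
def GeoOk (u : UD) (p : TP) (kn kd a b r : ℕ) : Prop :=
  a + r ≤ p.X ∧ b + r ≤ p.X ∧ u.L * wLip a b r ≤ 4 * wLo u.h a b r ∧
    3 * (wHi u.h a b r * ((2 * kd + kn) * wLip a b r + 2 * kn * u.h * r)) ≤
      2 * ((2 * kd - kn) * (wLo u.h a b r * wLo u.h a b r))

instance (u : UD) (p : TP) (kn kd a b r : ℕ) : Decidable (GeoOk u p kn kd a b r) := by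
  unfold GeoOk; infer_instance

/-- The check of the six entries. -/
noncomputable def topOK1 (u : UD) (p : TP) (S T : ℕ) (Q : Six (List (List ℤ))) (eps lo : ℕ) :
    Bool :=
  ban (Nat.ble (cellQ u S T) (cellP u S T)) (ban (Nat.ble (cellW u p S T) (omK p.K p.ns))
    (ban (entOK p (cellA u p S T u.Nn.f00) (cellD u S T) Q.f00 eps lo)
      (ban (entOK p (cellA u p S T u.Nn.f01) (cellD u S T) Q.f01 eps lo)
        (ban (entOK p (cellA u p S T u.Nn.f02) (cellD u S T) Q.f02 eps lo)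
          (ban (entOK p (cellA u p S T u.Nn.f11) (cellD u S T) Q.f11 eps lo)
            (ban (entOK p (cellA u p S T u.Nn.f12) (cellD u S T) Q.f12 eps lo)
              (entOK p (cellA u p S T u.Nn.f22) (cellD u S T) Q.f22 eps lo)))))))

/-- The check of a model `Q` on the cell with centre `(c1, c2)` and radius `r`. -/
noncomputable def topOK (u : UD) (p : TP) (c1 c2 : ℤ) (r : ℕ) (Q : Six (List (List ℤ)))
    (eps : ℕ) : Bool :=
  ban (decide (GeoOk u p (iabs u.kn) (iabs u.kd) (iabs c1) (iabs c2) r))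
    (ban (Nat.ble (iabs c1) (Nat.shiftLeft r p.K))
      (ban (Nat.ble (iabs c2) (Nat.shiftLeft r (Nat.mul p.K p.n)))
        (tF (itoNat (pkS p c1 r)) fun S => tF (itoNat (pkT p c2 r)) fun T =>
          topOK1 u p S T Q eps
            (dLo u.D u.L (iabs u.kn) (iabs u.kd) (wLo u.h (iabs c1) (iabs c2) r)))))

/-- The error of a model. -/
noncomputable def topErr (u : UD) (q : ℕ) (c1 c2 : ℤ) (r : ℕ) (Q : Six (List (List ℤ)))
    (a b : ℝ) : Mat 3 :=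
  (2 : ℝ) ^ q • u.M ((c1 + r * a) / u.h) ((c2 + r * b) / u.h) - (Q.map (opsR.h2 a b)).mat

/-- What the check of a model gives. -/
structure TopInv (u : UD) (p : TP) (c1 c2 : ℤ) (r : ℕ) (Q : Six (List (List ℤ))) (eps : ℕ) :
    Prop where
  deg : Q.All fun l => opsG.h2 1 1 l ≤ p.gq
  maj : Q.All fun l => opsM.h2 1 1 l ≤ p.MQ
  val : ∀ a b : ℝ, |a| ≤ 1 → |b| ≤ 1 → ∀ i j, |topErr u p.q c1 c2 r Q a b i j| ≤ eps
  lip : ∀ a b a' b' x : ℝ, |a| ≤ 1 → |b| ≤ 1 → |a'| ≤ 1 → |b'| ≤ 1 → |a - a'| ≤ x → |b - b'| ≤ x →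
    ∀ i j, |topErr u p.q c1 c2 r Q a b i j - topErr u p.q c1 c2 r Q a' b' i j| ≤
      (p.g + 8 : ℕ) * eps * x

private lemma t3t_co {c : ℤ} {r : ℕ} {a : ℝ} (ha : |a| ≤ 1) :
    (((c.natAbs - r : ℕ) : ℝ)) ≤ |c + r * a| ∧ |c + r * a| ≤ (c.natAbs + r : ℕ) := by
  have h1 : |(r : ℝ) * a| ≤ r := by
    rw [abs_mul, Nat.abs_cast]
    exact mul_le_of_le_one_right (Nat.cast_nonneg _) ha
  have h2 : ((c.natAbs : ℕ) : ℝ) = |(c : ℝ)| := by rw [Nat.cast_natAbs, Int.cast_abs]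
  refine ⟨?_, ?_⟩
  · rcases le_total c.natAbs r with h | h
    · rw [Nat.sub_eq_zero_of_le h, Nat.cast_zero]
      exact abs_nonneg _
    · rw [Nat.cast_sub h, h2]
      have := abs_add_le ((c : ℝ) + r * a) (-(r * a))
      rw [add_neg_cancel_right, abs_neg] at this
      linarith
  · rw [Nat.cast_add, h2]
    linarith [abs_add_le (c : ℝ) (r * a)]

private lemma t3t_inv {lo w w' y : ℝ} (h0 : 0 < lo) (h : lo ≤ w) (h' : lo ≤ w')
    (hy : |w - w'| ≤ y) : |lo / w| ≤ 1 ∧ |lo / w - lo / w'| ≤ y / lo := by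
  have p : 0 < w := h0.trans_le h
  have p' : 0 < w' := h0.trans_le h'
  refine ⟨by rw [abs_of_pos (by positivity)]; exact (div_le_one p).2 h, ?_⟩
  have e : lo / w - lo / w' = lo / w * (lo / w') * ((w' - w) / lo) := by field_simp
  rw [e, abs_mul, abs_div (w' - w), abs_sub_comm, abs_of_pos h0, abs_of_pos (by positivity)]
  exact (mul_le_of_le_one_left (by positivity) (mul_le_one₀ ((div_le_one p).2 h) (by positivity)
    ((div_le_one p').2 h'))).trans (div_le_div_of_nonneg_right hy h0.le)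

private lemma t3t_mon {L : ℕ} {s t s' t' x y : ℝ} (hs : |s| ≤ 1) (ht : |t| ≤ 1) (hs' : |s'| ≤ 1)
    (ht' : |t'| ≤ 1) (h0 : |s - s'| ≤ x) (h1 : |t - t'| ≤ y) :
    |s ^ L * t ^ 3| ≤ 1 ∧ |s ^ L * t ^ 3 - s' ^ L * t' ^ 3| ≤ L * x + 3 * y := by
  have a1 : |s ^ L - s' ^ L| ≤ L * x := by
    have r : Rep2 0 0 L 1 1 fun s _ => s ^ L := ⟨[(1, L, 0)], by simp, by simp, by simp, by simp⟩
    simpa using r.lip hs hs hs' hs' h0 h0
  have a2 : |t ^ 3 - t' ^ 3| ≤ 3 * y := by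
    have r : Rep2 0 0 3 1 1 fun s _ => s ^ 3 := ⟨[(1, 3, 0)], by simp, by simp, by simp, by simp⟩
    simpa using r.lip ht ht ht' ht' h1 h1
  have b1 : |t ^ 3| ≤ 1 := by rw [abs_pow]; exact pow_le_one₀ (abs_nonneg _) ht
  have b2 : ∀ s : ℝ, |s| ≤ 1 → |s ^ L| ≤ 1 := fun s hs => by
    rw [abs_pow]; exact pow_le_one₀ (abs_nonneg _) hs
  refine ⟨by rw [abs_mul]; exact mul_le_one₀ (b2 s hs) (abs_nonneg _) b1, ?_⟩
  have e : s ^ L * t ^ 3 - s' ^ L * t' ^ 3 = t ^ 3 * (s ^ L - s' ^ L) + s' ^ L * (t ^ 3 - t' ^ 3) := by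
    ring
  rw [e]
  refine (abs_add_le _ _).trans (add_le_add ?_ ?_) <;> rw [abs_mul]
  · exact (mul_le_of_le_one_left (abs_nonneg _) b1).trans a1
  · exact (mul_le_of_le_one_left (abs_nonneg _) (b2 s' hs')).trans a2

private lemma t3t_d {h S T kn kd w : ℝ} (k0 : 0 ≤ kn) (k1 : kn ≤ kd) (w0 : 0 ≤ w)
    (hw : w ≤ h ^ 2 + (S ^ 2 + T ^ 2)) :
    (2 * kd - kn) * (w * w) / 2 ≤ kd * ((h ^ 2 + (S ^ 2 + T ^ 2)) * (h ^ 2 + (S ^ 2 + T ^ 2))) +
      kn * (2 * h * T * (h ^ 2 - (S ^ 2 + T ^ 2))) := by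
  have h1 := mul_le_mul hw hw w0 (w0.trans hw)
  have h2 : -((h ^ 2 + (S ^ 2 + T ^ 2)) * (h ^ 2 + (S ^ 2 + T ^ 2))) ≤
      2 * (2 * h * T * (h ^ 2 - (S ^ 2 + T ^ 2))) := by
    nlinarith [sq_nonneg (2 * h * T + (h ^ 2 - (S ^ 2 + T ^ 2))), sq_nonneg (h * S)]
  nlinarith [mul_le_mul_of_nonneg_left h1 (by linarith : 0 ≤ 2 * kd - kn),
    mul_le_mul_of_nonneg_left h2 k0]

private lemma t3t_dl {h S T S' T' kn kd W y z : ℝ} (k0 : 0 ≤ kn) (k1 : 0 ≤ kd)
    (hw : h ^ 2 + (S ^ 2 + T ^ 2) ≤ W) (hw' : h ^ 2 + (S' ^ 2 + T' ^ 2) ≤ W)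
    (hy : |S ^ 2 + T ^ 2 - (S' ^ 2 + T' ^ 2)| ≤ y) (hz : |2 * h * T - 2 * h * T'| ≤ z) :
    |kd * ((h ^ 2 + (S ^ 2 + T ^ 2)) * (h ^ 2 + (S ^ 2 + T ^ 2))) +
      kn * (2 * h * T * (h ^ 2 - (S ^ 2 + T ^ 2))) -
      (kd * ((h ^ 2 + (S' ^ 2 + T' ^ 2)) * (h ^ 2 + (S' ^ 2 + T' ^ 2))) +
        kn * (2 * h * T' * (h ^ 2 - (S' ^ 2 + T' ^ 2))))| ≤ W * ((2 * kd + kn) * y + kn * z) := by
  have b1 : |2 * h * T| ≤ W :=
    abs_le.2 ⟨by nlinarith [sq_nonneg (h + T), sq_nonneg S], by nlinarith [sq_nonneg (h - T), sq_nonneg S]⟩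
  have b2 : |h ^ 2 - (S' ^ 2 + T' ^ 2)| ≤ W :=
    abs_le.2 ⟨by nlinarith [sq_nonneg h], by nlinarith [sq_nonneg S', sq_nonneg T']⟩
  have b3 : |h ^ 2 + (S ^ 2 + T ^ 2) + (h ^ 2 + (S' ^ 2 + T' ^ 2))| ≤ 2 * W := by
    rw [abs_of_nonneg (by positivity)]; linarith
  have W0 : 0 ≤ W := (abs_nonneg _).trans b1
  generalize S ^ 2 + T ^ 2 = m at *
  generalize S' ^ 2 + T' ^ 2 = m' at *
  generalize 2 * h * T = b at *
  generalize 2 * h * T' = b' at *
  generalize h ^ 2 = H at *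
  have e : kd * ((H + m) * (H + m)) + kn * (b * (H - m)) - (kd * ((H + m') * (H + m')) +
      kn * (b' * (H - m'))) = kd * ((H + m + (H + m')) * (m - m')) +
        kn * ((H - m') * (b - b') - b * (m - m')) := by ring
  have c1 : |(H + m + (H + m')) * (m - m')| ≤ 2 * W * y := by
    rw [abs_mul]; exact mul_le_mul b3 hy (abs_nonneg _) (by positivity)
  have c2 : |(H - m') * (b - b')| ≤ W * z := by
    rw [abs_mul]; exact mul_le_mul b2 hz (abs_nonneg _) W0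
  have c3 : |b * (m - m')| ≤ W * y := by
    rw [abs_mul]; exact mul_le_mul b1 hy (abs_nonneg _) W0
  have c4 := (abs_sub _ _).trans (add_le_add c2 c3)
  rw [e]
  refine (abs_add_le _ _).trans ?_
  rw [abs_mul kd, abs_mul kn, abs_of_nonneg k0, abs_of_nonneg k1]
  nlinarith [mul_le_mul_of_nonneg_left c1 k1, mul_le_mul_of_nonneg_left c4 k0]

private lemma t3t_den {u : UD} (hu : u.Ok) {p : TP} {c1 c2 : ℤ} {r : ℕ}
    (hg : GeoOk u p u.kn.natAbs u.kd.natAbs c1.natAbs c2.natAbs r) :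
    ∃ (lo : ℝ) (μ : ℝ → ℝ → ℝ), 0 < lo ∧
      (dLo u.D u.L u.kn.natAbs u.kd.natAbs (wLo u.h c1.natAbs c2.natAbs r) : ℝ) = 8 * lo ∧
      ∀ a b a' b' x : ℝ, |a| ≤ 1 → |b| ≤ 1 → |a'| ≤ 1 → |b'| ≤ 1 → |a - a'| ≤ x → |b - b'| ≤ x →
        0 < opsR.denC u (c1 + r * a) (c2 + r * b) ∧
        μ a b = lo / opsR.denC u (c1 + r * a) (c2 + r * b) ∧ |μ a b| ≤ 1 ∧
        |μ a b - μ a' b'| ≤ 8 * x := by
  obtain ⟨-, -, g1, g2⟩ := hg
  have k0 : (0 : ℝ) ≤ u.kn := by exact_mod_cast hu.k0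
  have k1 : (u.kn : ℝ) < u.kd := by exact_mod_cast hu.k1
  have e0 : ((u.kn.natAbs : ℕ) : ℝ) = u.kn := by
    rw [Nat.cast_natAbs, Int.cast_abs, abs_of_nonneg k0]
  have e1 : ((u.kd.natAbs : ℕ) : ℝ) = u.kd := by
    rw [Nat.cast_natAbs, Int.cast_abs, abs_of_nonneg (k0.trans k1.le)]
  have e2 : ((2 * u.kd.natAbs - u.kn.natAbs : ℕ) : ℝ) = 2 * u.kd - u.kn := by
    rw [Nat.cast_sub (by have := hu.k0; have := hu.k1; omega), e0, Nat.cast_mul, e1, Nat.cast_ofNat]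
  have D0 : (0 : ℝ) < u.D := Nat.cast_pos.2 (Nat.pos_of_ne_zero hu.hD)
  have h0 : (0 : ℝ) < u.h := Nat.cast_pos.2 (Nat.pos_of_ne_zero hu.hh)
  have g1' : (u.L : ℝ) * wLip c1.natAbs c2.natAbs r ≤ 4 * wLo u.h c1.natAbs c2.natAbs r := by
    exact_mod_cast g1
  have g2' := (Nat.cast_le (α := ℝ)).2 g2
  simp only [Nat.cast_mul, Nat.cast_add, e0, e1, e2, Nat.cast_ofNat] at g2'
  have w0 : (0 : ℝ) < wLo u.h c1.natAbs c2.natAbs r := by
    unfold wLo; push_cast; positivity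
  have bw : ∀ a b : ℝ, |a| ≤ 1 → |b| ≤ 1 →
      (wLo u.h c1.natAbs c2.natAbs r : ℝ) ≤ u.h ^ 2 + ((c1 + r * a) ^ 2 + (c2 + r * b) ^ 2) ∧
      (u.h : ℝ) ^ 2 + ((c1 + r * a) ^ 2 + (c2 + r * b) ^ 2) ≤ wHi u.h c1.natAbs c2.natAbs r := by
    intro a b ha hb
    obtain ⟨p1, p2⟩ := t3t_co (c := c1) (r := r) ha
    obtain ⟨p3, p4⟩ := t3t_co (c := c2) (r := r) hb
    rw [← sq_abs (c1 + r * a : ℝ), ← sq_abs (c2 + r * b : ℝ)]
    simp only [wLo, wHi, Nat.cast_mul, ← sq]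
    simp only [Nat.cast_add (R := ℝ) (u.h ^ 2), Nat.cast_add (R := ℝ) (_ ^ 2), Nat.cast_pow]
    exact ⟨by gcongr, by gcongr⟩
  have eD : (dLo u.D u.L u.kn.natAbs u.kd.natAbs (wLo u.h c1.natAbs c2.natAbs r) : ℝ) =
      8 * (u.D * ((wLo u.h c1.natAbs c2.natAbs r : ℝ) ^ u.L * ((2 * u.kd - u.kn) *
        ((wLo u.h c1.natAbs c2.natAbs r : ℝ) * wLo u.h c1.natAbs c2.natAbs r) / 2) ^ 3)) := by
    simp only [dLo, Nat.cast_mul, Nat.cast_pow, e2]
    ring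
  generalize (wLo u.h c1.natAbs c2.natAbs r : ℝ) = w at *
  have d0 : 0 < (2 * (u.kd : ℝ) - u.kn) * (w * w) / 2 := by
    have : 0 < 2 * (u.kd : ℝ) - u.kn := by linarith
    positivity
  refine ⟨u.D * (w ^ u.L * ((2 * u.kd - u.kn) * (w * w) / 2) ^ 3), fun a b =>
    u.D * (w ^ u.L * ((2 * u.kd - u.kn) * (w * w) / 2) ^ 3) /
      opsR.denC u (c1 + r * a) (c2 + r * b), by positivity, eD, ?_⟩
  intro a b a' b' x ha hb ha' hb' hx hx'
  have x0 : 0 ≤ x := (abs_nonneg _).trans hx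
  have lw : |(c1 + r * a) ^ 2 + (c2 + r * b) ^ 2 - ((c1 + r * a') ^ 2 + (c2 + r * b') ^ 2)| ≤
      wLip c1.natAbs c2.natAbs r * x := by
    have q : ∀ (c : ℤ) (a a' : ℝ), |a| ≤ 1 → |a'| ≤ 1 → |a - a'| ≤ x →
        |(c + r * a) ^ 2 - (c + r * a') ^ 2| ≤ 2 * r * ((c.natAbs + r : ℕ) : ℝ) * x := by
      intro c a a' ha ha' hx
      have e : (c + r * a) ^ 2 - (c + r * a') ^ 2 = r * ((c + r * a + (c + r * a')) * (a - a')) := by
        ring
      have p := (abs_add_le _ _).trans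
        (add_le_add (t3t_co (c := c) (r := r) ha).2 (t3t_co (c := c) (r := r) ha').2)
      rw [e, abs_mul, abs_mul, Nat.abs_cast]
      have := mul_le_mul_of_nonneg_left (mul_le_mul p hx (abs_nonneg _) (by positivity))
        (Nat.cast_nonneg (α := ℝ) r)
      linarith
    rw [add_sub_add_comm]
    refine (abs_add_le _ _).trans ((add_le_add (q c1 a a' ha ha' hx) (q c2 b b' hb hb' hx')).trans_eq ?_)
    unfold wLip
    push_cast
    ring
  have lz : |2 * (u.h : ℝ) * (c2 + r * b) - 2 * u.h * (c2 + r * b')| ≤ 2 * u.h * r * x := by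
    have e : 2 * (u.h : ℝ) * (c2 + r * b) - 2 * u.h * (c2 + r * b') = 2 * u.h * r * (b - b') := by ring
    rw [e, abs_mul, abs_of_nonneg (by positivity)]
    exact mul_le_mul_of_nonneg_left hx' (by positivity)
  obtain ⟨b1, b2⟩ := bw a b ha hb
  obtain ⟨b3, b4⟩ := bw a' b' ha' hb'
  have ld := t3t_dl k0 (k0.trans k1.le) b2 b4 lw lz
  have m1 := t3t_d k0 k1.le w0.le b1
  have m2 := t3t_d k0 k1.le w0.le b3
  have i1 := t3t_inv w0 b1 b3 (y := wLip c1.natAbs c2.natAbs r * x)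
    (by rw [add_sub_add_left_eq_sub]; exact lw)
  have i2 := t3t_inv d0 m1 m2 ld
  have i3 := (t3t_inv w0 b3 b3 le_rfl).1
  have i4 := (t3t_inv d0 m2 m2 le_rfl).1
  have mm := t3t_mon (L := u.L) i1.1 i2.1 i3 i4 i1.2 i2.2
  have pw := w0.trans_le b1
  have pd := d0.trans_le m1
  simp only [opsR_denC]
  have ee : ∀ W d : ℝ, u.D * (w ^ u.L * ((2 * u.kd - u.kn) * (w * w) / 2) ^ 3) /
      (u.D * (W ^ u.L * d ^ 3)) = (w / W) ^ u.L * ((2 * u.kd - u.kn) * (w * w) / 2 / d) ^ 3 := by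
    intro W d
    rw [mul_div_mul_left _ _ D0.ne', div_pow w, div_pow _ d, div_mul_div_comm]
  refine ⟨by positivity, trivial, by rw [ee]; exact mm.1, ?_⟩
  rw [ee, ee]
  refine mm.2.trans ?_
  have z1 : u.L * (wLip c1.natAbs c2.natAbs r * x / w) ≤ 4 * x := by
    rw [← mul_div_assoc, div_le_iff₀ w0]
    linarith only [mul_le_mul_of_nonneg_right g1' x0]
  have z2 : 3 * (wHi u.h c1.natAbs c2.natAbs r * ((2 * u.kd + u.kn) *
      (wLip c1.natAbs c2.natAbs r * x) + u.kn * (2 * u.h * r * x)) /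
      ((2 * (u.kd : ℝ) - u.kn) * (w * w) / 2)) ≤ 4 * x := by
    rw [← mul_div_assoc, div_le_iff₀ d0]
    linarith only [mul_le_mul_of_nonneg_right g2' x0]
  linarith

private lemma t3t_rep (p : TP) (c : ℤ) (r : ℕ) :
    Rep2 p.K p.n 1 (c.natAbs + r) (pkS p c r) (fun a _ => c + r * a) ∧
      Rep2 p.K p.n 1 (c.natAbs + r) (pkT p c r) fun _ b => c + r * b := by
  refine ⟨⟨[(c, 0, 0), (r, 1, 0)], by simp, by simp, ?_, by simp⟩,
    ⟨[(c, 0, 0), (r, 0, 1)], by simp, by simp, ?_, by simp⟩⟩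
  · simp [pkS, iadd_eq, Nat.shiftLeft_eq]
  · simp [pkT, iadd_eq, Nat.shiftLeft_eq]

private lemma t3t_z1 (x c : ℤ) (l : List ℤ) : opsZ.h1 x (c :: l) = c + x * opsZ.h1 x l := by
  cases l with
  | nil =>
    show imul c (Int.ofNat 1) = c + x * imul 0 (Int.ofNat 1)
    simp [imul_eq]
  | cons c' l =>
    show iadd (imul c (Int.ofNat 1)) (imul x (opsZ.h1c x l c')) = c + x * opsZ.h1c x l c'
    simp [imul_eq, iadd_eq]

private lemma t3t_z2 (x y : ℤ) (c : List ℤ) (l : List (List ℤ)) :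
    opsZ.h2 x y (c :: l) = opsZ.h1 x c + y * opsZ.h2 x y l := by
  cases l with
  | nil =>
    show opsZ.h1 x c = opsZ.h1 x c + y * imul 0 (Int.ofNat 1)
    simp [imul_eq]
  | cons c' l =>
    show iadd (opsZ.h1 x c) (imul y (opsZ.h2 x y (c' :: l))) = _
    rw [iadd_eq, imul_eq]

private lemma t3t_H (x : ℕ) : ∀ l : List ℕ, (tH x l : ℤ) = opsZ.h1 x (l.map Int.ofNat)
  | [] => rfl
  | c :: l => by
    rw [List.map_cons, t3t_z1, ← t3t_H x l]
    show ((c + x * tH x l : ℕ) : ℤ) = _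
    simp

private lemma t3t_rows (q x y : ℕ) : ∀ l : List (List ℕ),
    (tH y (tRows q x l) : ℤ) = 2 ^ q * opsZ.h2 x y (tCast l)
  | [] => by
    show ((0 : ℕ) : ℤ) = 2 ^ q * imul 0 (Int.ofNat 1)
    simp [imul_eq]
  | c :: l => by
    have ih := t3t_rows q x y l
    rw [tCast, List.map_cons, t3t_z2, ← t3t_H, ← tCast]
    show ((tH x c <<< q + y * tH y (tRows q x l) : ℕ) : ℤ) = _
    rw [Nat.shiftLeft_eq]
    push_cast
    rw [ih]
    ring

private lemma t3t_pair (y : ℕ) : ∀ l : List ℕ, (∀ a, tH (y * y) (tPair y l false a) = tH y l) ∧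
    ∀ a, tH (y * y) (tPair y l true a) = a + y * tH y l
  | [] => ⟨fun _ => rfl, fun _ => rfl⟩
  | c :: l => by
    obtain ⟨h1, h2⟩ := t3t_pair y l
    refine ⟨fun _ => h2 c, fun a => ?_⟩
    show a + y * c + y * y * tH (y * y) (tPair y l false 0) = a + y * (c + y * tH y l)
    rw [h1]
    ring

private lemma t3t_es : ∀ (m y : ℕ) (l : List ℕ), tEs m y l = tH y l
  | 0, _, [] => rfl
  | 0, _, [_] => rfl
  | 0, _, _ :: _ :: _ => rfl
  | m + 1, y, l => (t3t_es m (y * y) (tPair y l false 0)).trans ((t3t_pair y l).1 0)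

private lemma t3t_pw (x : ℤ) : ∀ n, opsZ.pw x n = x ^ n
  | 0 => (pow_zero x).symm
  | n + 1 => by
    show imul x (opsZ.pw x n) = _
    rw [imul_eq, t3t_pw x n, pow_succ']

private lemma t3t_cellA {u : UD} {p : TP} {S T : ℕ} (h : cellW u p S T ≤ omK p.K p.ns)
    (l : List (List ℕ)) : (cellA u p S T l : ℤ) = 2 ^ p.q * opsZ.nr u S T l + omK p.K p.ns := by
  have e : (cellW u p S T : ℤ) = 2 ^ p.q * opsZ.wb u S T := by
    show (((u.b * (u.e + (S + T)) ^ u.gw) <<< p.q : ℕ) : ℤ) =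
      2 ^ p.q * imul u.b (opsZ.pw (iadd (imul u.e (Int.ofNat 1)) (iadd S T)) u.gw)
    simp only [Nat.shiftLeft_eq, t3t_pw, imul_eq, iadd_eq, Int.ofNat_eq_natCast]
    push_cast
    ring
  show ((tEs 6 T (tRows p.q S l) + (omK p.K p.ns - cellW u p S T) : ℕ) : ℤ) =
    2 ^ p.q * isub (opsZ.h2 S T (tCast l)) (opsZ.wb u S T) + _
  rw [t3t_es, Nat.cast_add, Nat.cast_sub h, t3t_rows, e, isub_eq]
  ring

private lemma t3t_cellD {u : UD} (hu : u.Ok) {S T : ℕ} (h : cellQ u S T ≤ cellP u S T) :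
    (cellD u S T : ℤ) = opsZ.denC u S T := by
  have k0 : ((u.kn.natAbs : ℕ) : ℤ) = u.kn := Int.natAbs_of_nonneg hu.k0
  have k1 : ((u.kd.natAbs : ℕ) : ℤ) = u.kd := Int.natAbs_of_nonneg (hu.k0.trans hu.k1.le)
  have e1 : (cellR u S T : ℤ) = opsZ.cw u.h S T := by
    simp only [cellR, cellM, Ops.cw, opsZ, imul_eq, iadd_eq, Nat.add_eq, Nat.mul_eq,
      Int.ofNat_eq_natCast]
    push_cast
    ring
  have e2 : (cellP u S T : ℤ) - cellQ u S T =
      opsZ.ad (opsZ.sm u.kd (opsZ.mu (opsZ.cw u.h S T) (opsZ.cw u.h S T)))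
        (opsZ.sm u.kn (opsZ.mu (opsZ.sm (Int.ofNat (Nat.mul 2 u.h)) T) (opsZ.cc u.h S T))) := by
    simp only [cellP, cellQ, cellR, cellM, Ops.cc, Ops.cw, opsZ, iabs_eq, imul_eq, iadd_eq, isub_eq,
      Nat.add_eq, Nat.mul_eq, Nat.cast_add, Nat.cast_mul, k0, k1, Int.ofNat_eq_natCast]
    push_cast
    ring
  show ((cellR u S T ^ u.L * (u.D * (cellP u S T - cellQ u S T) ^ 3) : ℕ) : ℤ) = _
  rw [Ops.denC, Ops.den, t3t_pw, t3t_pw, Nat.cast_mul, Nat.cast_mul, Nat.cast_pow, Nat.cast_pow,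
    Nat.cast_sub h, e1, e2]
  have e3 : ∀ x y : ℤ, x * (u.D * y) = opsZ.sm (Int.ofNat u.D) (opsZ.mu x y) := fun x y => by
    show _ = imul u.D (imul x y)
    rw [imul_eq, imul_eq]
    ring
  exact e3 _ _

private lemma t3t_pk1 (K : ℕ) : ∀ l : List ℤ,
    (tPk1 itoNat K l : ℤ) - tPk1 tNeg K l = opsZ.h1 (2 ^ K) l
  | [] => rfl
  | c :: l => by
    have e : (itoNat c : ℤ) - tNeg c = c := by
      rcases c with m | m
      · show (m : ℤ) - (0 : ℕ) = _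
        simp
      · show ((0 : ℕ) : ℤ) - (m + 1 : ℕ) = _
        rw [Int.negSucc_eq]; simp
    rw [t3t_z1, ← t3t_pk1 K l]
    show ((itoNat c + tPk1 itoNat K l <<< K : ℕ) : ℤ) - (tNeg c + tPk1 tNeg K l <<< K : ℕ) = _
    rw [Nat.shiftLeft_eq, Nat.shiftLeft_eq]
    push_cast
    linear_combination e

private lemma t3t_pk (K m : ℕ) : ∀ l : List (List ℤ),
    (tPk itoNat K m l : ℤ) - tPk tNeg K m l = opsZ.h2 (2 ^ K) (2 ^ m) l
  | [] => rfl
  | c :: l => by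
    rw [t3t_z2, ← t3t_pk K m l, ← t3t_pk1]
    show ((tPk1 itoNat K c + tPk itoNat K m l <<< m : ℕ) : ℤ) -
      (tPk1 tNeg K c + tPk tNeg K m l <<< m : ℕ) = _
    rw [Nat.shiftLeft_eq, Nat.shiftLeft_eq]
    push_cast
    ring

private lemma t3t_packQ (p : TP) (l : List (List ℤ)) :
    packQ p l = opsZ.h2 (2 ^ p.K) (2 ^ (p.K * p.n)) l := by
  rw [packQ, snn_eq, t3t_pk]
  rfl

private lemma t3t_s1 : ∀ (l : List ℤ) (c : ℤ), opsM.h1c 1 l c = tS1 (c :: l)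
  | [], c => Nat.mul_one _
  | c' :: l, c => by
    show iabs c * 1 + 1 * opsM.h1c 1 l c' = iabs c + tS1 (c' :: l)
    rw [t3t_s1 l c', mul_one, one_mul]

private lemma t3t_s2 : ∀ l : List ℤ, opsM.h1 1 l = tS1 l
  | [] => rfl
  | c :: l => t3t_s1 l c

private lemma t3t_s3 : ∀ (l : List (List ℤ)) (c : List ℤ),
    opsM.h2c 1 (opsM.mu 1) l c = tSum (c :: l)
  | [], c => t3t_s2 c
  | c' :: l, c => by
    show opsM.h1 1 c + 1 * opsM.h2c 1 (opsM.mu 1) l c' = tS1 c + tSum (c' :: l)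
    rw [t3t_s3 l c', t3t_s2, one_mul]

private lemma t3t_sum : ∀ l : List (List ℤ), opsM.h2 1 1 l = tSum l
  | [] => rfl
  | c :: l => t3t_s3 l c

private lemma t3t_g1 : ∀ (l : List ℤ) (c : ℤ), opsG.h1c 1 l c = tLen l
  | [], _ => rfl
  | c' :: l, _ => by
    show max 0 (1 + opsG.h1c 1 l c') = tLen l + 1
    rw [t3t_g1 l c']
    omega

private lemma t3t_g2 : ∀ l : List ℤ, opsG.h1 1 l = tLen l - 1
  | [] => rfl
  | c :: l => t3t_g1 l c

private lemma t3t_g3 : ∀ (l : List (List ℤ)) (c : List ℤ) (d : ℕ), tTri (c :: l) d = true →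
    opsG.h2c 1 (opsG.mu 1) l c < d
  | [], c, d, h => by
    obtain ⟨h1, h2⟩ := ban_eq.1 h
    have h3 : 1 ≤ d := Nat.le_of_ble_eq_true h1
    have h4 := Nat.le_of_ble_eq_true (ban_eq.1 h2).1
    show opsG.h1 1 c < d
    rw [t3t_g2]
    omega
  | c' :: l, c, d, h => by
    obtain ⟨h1, h2⟩ := ban_eq.1 h
    have h3 : 1 ≤ d := Nat.le_of_ble_eq_true h1
    have h4 := Nat.le_of_ble_eq_true (ban_eq.1 h2).1
    have h5 : _ < d - 1 := t3t_g3 l c' _ (ban_eq.1 h2).2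
    show max (opsG.h1 1 c) (1 + opsG.h2c 1 (opsG.mu 1) l c') < d
    rw [t3t_g2]
    omega

private lemma t3t_tri {d : ℕ} : ∀ {l : List (List ℤ)}, tTri l (d + 1) = true → opsG.h2 1 1 l ≤ d
  | [], _ => Nat.zero_le _
  | c :: l, h => Nat.le_of_lt_succ (t3t_g3 l c _ h)

private lemma t3t_res (A Dn : ℕ) (Q : ℤ) : tRes A Dn Q = ((A : ℤ) - Q * Dn).toNat := by
  rcases Q with m | m
  · show A - m * Dn = _
    rw [← Int.toNat_sub]
    simp
  · show A + (m + 1) * Dn = _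
    have : (A : ℤ) - Int.negSucc m * Dn = ((A + (m + 1) * Dn : ℕ) : ℤ) := by
      rw [Int.negSucc_eq]; push_cast; ring
    rw [this, Int.toNat_natCast]

private lemma t3t_ent {u : UD} (hu : u.Ok) {p : TP} (hp : p.Ok u) {c1 c2 : ℤ} {r eps S T : ℕ}
    (h1 : c1.natAbs + r ≤ p.X) (h2 : c2.natAbs + r ≤ p.X) (eS : (S : ℤ) = pkS p c1 r)
    (eT : (T : ℤ) = pkT p c2 r) (w1 : cellQ u S T ≤ cellP u S T)
    (w2 : cellW u p S T ≤ omK p.K p.ns) {N : List (List ℕ)} {Q : List (List ℤ)}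
    (hg : opsG.nr u 1 1 N ≤ p.g)
    (hM : 2 ^ p.q * opsM.nr u p.X p.X N + p.MQ * opsM.denC u p.X p.X < 2 ^ (p.K - 13))
    {lo8 : ℕ} {lo : ℝ} {μ : ℝ → ℝ → ℝ} (l0 : 0 < lo) (l8 : (lo8 : ℝ) = 8 * lo)
    (hμ : ∀ a b a' b' x : ℝ, |a| ≤ 1 → |b| ≤ 1 → |a'| ≤ 1 → |b'| ≤ 1 → |a - a'| ≤ x → |b - b'| ≤ x →
        0 < opsR.denC u (c1 + r * a) (c2 + r * b) ∧
        μ a b = lo / opsR.denC u (c1 + r * a) (c2 + r * b) ∧ |μ a b| ≤ 1 ∧
        |μ a b - μ a' b'| ≤ 8 * x)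
    (h : entOK p (cellA u p S T N) (cellD u S T) Q eps lo8 = true) :
    opsG.h2 1 1 Q ≤ p.gq ∧ opsM.h2 1 1 Q ≤ p.MQ ∧
      ∀ E : ℝ → ℝ → ℝ, (∀ a b, E a b = 2 ^ p.q * (1 / opsR.denC u (c1 + r * a) (c2 + r * b) *
        opsR.nr u (c1 + r * a) (c2 + r * b) N) - opsR.h2 a b Q) →
      ∀ a b a' b' x : ℝ, |a| ≤ 1 → |b| ≤ 1 → |a'| ≤ 1 → |b'| ≤ 1 → |a - a'| ≤ x → |b - b'| ≤ x →
        |E a b| ≤ eps ∧ |E a b - E a' b'| ≤ (p.g + 8 : ℕ) * eps * x := by
  obtain ⟨pK, pn, pg, pns, pd, -, -⟩ := hp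
  rw [entOK, ban_eq, ban_eq] at h
  obtain ⟨q1, q2, q3⟩ := h
  have q1' := t3t_tri q1
  have q2' := Nat.le_of_ble_eq_true q2
  have q3' : 8 * absK1 p.K p.ns _ ≤ eps * lo8 := Nat.le_of_ble_eq_true q3
  rw [← t3t_sum] at q2'
  refine ⟨q1', q2', fun E hE a b a' b' x ha hb ha' hb' hx hx' => ?_⟩
  have rS := (t3t_rep p c1 r).1.mono le_rfl h1
  have rT := (t3t_rep p c2 r).2.mono le_rfl h2
  have rN := ((rS.nr rT u N).mono hg le_rfl).smul (2 ^ p.q)
  have rQ := (Rep2.var0.h2 (K := p.K) (n := p.n) Rep2.var1 Q).mono q1' q2'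
  have rD : Rep2 p.K p.n (opsG.denC u 1 1) (opsM.denC u p.X p.X)
      (opsZ.denC u (pkS p c1 r) (pkT p c2 r))
      fun a b => opsR.denC u (c1 + r * a) (c2 + r * b) := by
    have := ((opsT p.K p.n).denC u ⟨_, _, _, _, rS⟩ ⟨_, _, _, _, rT⟩).ok
    rw [(homG _ _).denC, (homM _ _).denC, (homN _ _).denC] at this
    exact this.congr rfl fun s t => (homF _ _ s t).denC _ _ _
  have rR := (rN.sub ((rQ.mul rD).mono pd le_rfl)).tight (by rw [max_self]; exact pg)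
    (by rw [max_self]; exact pns) pK pn (by simpa [Int.natAbs_pow] using hM)
  rw [t3t_res, t3t_cellA w2, t3t_cellD hu w1, t3t_packQ, eS, eT, add_sub_right_comm] at q3'
  rw [max_self, absK, itoNat_eq, iadd_eq, Int.ofNat_eq_natCast] at rR
  generalize absK1 p.K p.ns _ = A at q3' rR
  have hA : (A : ℝ) ≤ eps * lo := by
    have := (Nat.cast_le (α := ℝ)).2 q3'
    push_cast at this
    rw [l8] at this
    linarith
  have v1 := rR.abs_le ha hb
  have v2 := rR.abs_le ha' hb'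
  have v3 := rR.lip ha hb ha' hb' hx hx'
  obtain ⟨m1, m2, m3, m4⟩ := hμ a b a' b' x ha hb ha' hb' hx hx'
  obtain ⟨m5, m6, -, -⟩ := hμ a' b' a' b' 0 ha' hb' ha' hb' (by simp) (by simp)
  have x0 : 0 ≤ x := (abs_nonneg _).trans hx
  have ee : ∀ a b : ℝ, 0 < opsR.denC u (c1 + r * a) (c2 + r * b) →
      μ a b = lo / opsR.denC u (c1 + r * a) (c2 + r * b) →
      E a b = (((2 ^ p.q : ℤ) : ℝ) * opsR.nr u (c1 + r * a) (c2 + r * b) N -
        opsR.h2 a b Q * opsR.denC u (c1 + r * a) (c2 + r * b)) * μ a b / lo := by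
    intro a b g1 g2
    rw [hE, g2]
    push_cast
    field_simp
  rw [ee a b m1 m2, ee a' b' m5 m6]
  beta_reduce at v1 v2 v3
  generalize ((2 ^ p.q : ℤ) : ℝ) * opsR.nr u (c1 + r * a) (c2 + r * b) N -
    opsR.h2 a b Q * opsR.denC u (c1 + r * a) (c2 + r * b) = y at v1 v3 ⊢
  generalize ((2 ^ p.q : ℤ) : ℝ) * opsR.nr u (c1 + r * a') (c2 + r * b') N -
    opsR.h2 a' b' Q * opsR.denC u (c1 + r * a') (c2 + r * b') = y' at v2 v3 ⊢
  refine ⟨?_, ?_⟩
  · rw [abs_div, abs_of_pos l0, div_le_iff₀ l0, abs_mul]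
    exact ((mul_le_of_le_one_right (abs_nonneg _) m3).trans v1).trans hA
  · have e : y * μ a b - y' * μ a' b' = (y - y') * μ a b + y' * (μ a b - μ a' b') := by ring
    have c1 : |(y - y') * μ a b| ≤ p.g * A * x := by
      rw [abs_mul]; exact (mul_le_of_le_one_right (abs_nonneg _) m3).trans v3
    have c2 : |y' * (μ a b - μ a' b')| ≤ A * (8 * x) := by
      rw [abs_mul]; exact mul_le_mul v2 m4 (abs_nonneg _) (Nat.cast_nonneg _)
    rw [← sub_div, abs_div, abs_of_pos l0, div_le_iff₀ l0, e]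
    refine (abs_add_le _ _).trans ((add_le_add c1 c2).trans ?_)
    have := mul_le_mul_of_nonneg_left hA (by positivity : (0 : ℝ) ≤ (p.g + 8) * x)
    push_cast
    linarith

/-- Soundness of the check of a model. -/
theorem top_sound {u : UD} (hu : u.Ok) {p : TP} (hp : p.Ok u) {c1 c2 : ℤ} {r : ℕ}
    {Q : Six (List (List ℤ))} {eps : ℕ} (h : topOK u p c1 c2 r Q eps = true) :
    TopInv u p c1 c2 r Q eps := by
  simp only [topOK, tF_eq, topOK1, ban_eq, iabs_eq, decide_eq_true_eq, Nat.ble_eq] at h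
  obtain ⟨hg, p1, p2, w1, w2, t1, t2, t3, t4, t5, t6⟩ := h
  have eS : (itoNat (pkS p c1 r) : ℤ) = pkS p c1 r := by
    rw [itoNat_eq, pkS, iadd_eq, Int.ofNat_eq_natCast]
    omega
  have eT : (itoNat (pkT p c2 r) : ℤ) = pkT p c2 r := by
    rw [itoNat_eq, pkT, iadd_eq, Int.ofNat_eq_natCast]
    omega
  obtain ⟨lo, μ, l0, l8, hμ⟩ := t3t_den hu hg
  obtain ⟨g1, g2, g3, g4, g5, g6⟩ := hp.2.2.2.2.2.1
  obtain ⟨m1, m2, m3, m4, m5, m6⟩ := hp.2.2.2.2.2.2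
  obtain ⟨a1, b1, s1⟩ := t3t_ent hu hp hg.1 hg.2.1 eS eT w1 w2 g1 m1 l0 l8 hμ t1
  obtain ⟨a2, b2, s2⟩ := t3t_ent hu hp hg.1 hg.2.1 eS eT w1 w2 g2 m2 l0 l8 hμ t2
  obtain ⟨a3, b3, s3⟩ := t3t_ent hu hp hg.1 hg.2.1 eS eT w1 w2 g3 m3 l0 l8 hμ t3
  obtain ⟨a4, b4, s4⟩ := t3t_ent hu hp hg.1 hg.2.1 eS eT w1 w2 g4 m4 l0 l8 hμ t4
  obtain ⟨a5, b5, s5⟩ := t3t_ent hu hp hg.1 hg.2.1 eS eT w1 w2 g5 m5 l0 l8 hμ t5
  obtain ⟨a6, b6, s6⟩ := t3t_ent hu hp hg.1 hg.2.1 eS eT w1 w2 g6 m6 l0 l8 hμ t6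
  have key : ∀ a b a' b' x : ℝ, |a| ≤ 1 → |b| ≤ 1 → |a'| ≤ 1 → |b'| ≤ 1 → |a - a'| ≤ x →
      |b - b'| ≤ x → ∀ i j, |topErr u p.q c1 c2 r Q a b i j| ≤ eps ∧
        |topErr u p.q c1 c2 r Q a b i j - topErr u p.q c1 c2 r Q a' b' i j| ≤
          (p.g + 8 : ℕ) * eps * x := by
    intro a b a' b' x ha hb ha' hb' hx hx' i j
    simp only [topErr, hu.M_eq]
    fin_cases i <;> fin_cases j
    · exact s1 _ (fun _ _ => rfl) a b a' b' x ha hb ha' hb' hx hx'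
    · exact s2 _ (fun _ _ => rfl) a b a' b' x ha hb ha' hb' hx hx'
    · exact s3 _ (fun _ _ => rfl) a b a' b' x ha hb ha' hb' hx hx'
    · exact s2 _ (fun _ _ => rfl) a b a' b' x ha hb ha' hb' hx hx'
    · exact s4 _ (fun _ _ => rfl) a b a' b' x ha hb ha' hb' hx hx'
    · exact s5 _ (fun _ _ => rfl) a b a' b' x ha hb ha' hb' hx hx'
    · exact s3 _ (fun _ _ => rfl) a b a' b' x ha hb ha' hb' hx hx'
    · exact s5 _ (fun _ _ => rfl) a b a' b' x ha hb ha' hb' hx hx'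
    · exact s6 _ (fun _ _ => rfl) a b a' b' x ha hb ha' hb' hx hx'
  exact ⟨⟨a1, a2, a3, a4, a5, a6⟩, ⟨b1, b2, b3, b4, b5, b6⟩,
    fun a b ha hb i j => (key a b a b 0 ha hb ha hb (by simp) (by simp) i j).1,
    fun a b a' b' x ha hb ha' hb' hx hx' i j => (key a b a' b' x ha hb ha' hb' hx hx' i j).2⟩

/-- One in every slot of degree at most `D`. -/
noncomputable def triM (K n D : ℕ) : ℕ :=
  @Nat.rec (fun _ => ℕ) 1 (fun m ih => Nat.add
    (Nat.div (Nat.sub (Nat.shiftLeft 1 (Nat.mul K (Nat.add m 2))) 1) (Nat.sub (Nat.shiftLeft 1 K) 1))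
    (Nat.shiftLeft ih (Nat.mul K n))) D

/-- The number of slots of a model. -/
def TP.t (p : TP) : ℕ := Nat.succ (Nat.mul p.n p.gq)

/-- The mask of the bits from `s` on in the slots of low degree. -/
noncomputable def tMask (p : TP) (s : ℕ) : ℕ :=
  Nat.mul (triM p.K p.n p.gq) (Nat.sub (Nat.shiftLeft 1 p.K) (Nat.shiftLeft 1 s))

/-- The complement of the bias after division by `2 ^ s`. -/
noncomputable def tCmp (p : TP) (s : ℕ) : ℕ :=
  Nat.sub (Nat.shiftLeft 1 (Nat.mul p.K p.t))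
    (Nat.shiftLeft (triM p.K p.n p.gq) (Nat.sub (Nat.sub p.K 13) s))

/-- Drop the slots of high degree of a biased number and divide the others by `2 ^ s`. -/
noncomputable def trc0 (p : TP) (A s : ℕ) : ℕ :=
  Nat.add (Nat.shiftRight (Nat.land A (tMask p s)) s) (tCmp p s)

/-- Drop the slots of high degree and divide the others by `2 ^ s`. -/
noncomputable def trc (p : TP) (N s : ℕ) : ℕ := trc0 p (Nat.add N (omK p.K p.t)) s

/-- The product of two series in fixed point arithmetic. -/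
noncomputable def fmu (p : TP) (a b : ℕ) : ℕ := trc p (Nat.mul a b) 64

/-- One in fixed point arithmetic plus a series. -/
noncomputable def fon (a : ℕ) : ℕ := Nat.add 18446744073709551616 a

/-- The geometric series up to degree fifteen. -/
noncomputable def fgeo (p : TP) (x x2 : ℕ) : ℕ :=
  fmu p (fmu p (fon x) (fon x2)) (fmu p (fon (fmu p x2 x2)) (fon (fmu p (fmu p x2 x2) (fmu p x2 x2))))

/-- The inverse series from the scaled denominator and the inverse of its lowest term. -/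
noncomputable def finv (p : TP) (x v : ℕ) : ℕ := trc p (Nat.mul v (fgeo p x (fmu p x x))) 64

/-- The digits of a row. -/
noncomputable def rowL (K k b m : ℕ) : ℕ → List ℤ :=
  @Nat.rec (fun _ => ℕ → List ℤ) (fun _ => [])
    (fun _ ih Y => snn (Nat.land Y k) b :: ih (Nat.shiftRight Y K)) m

/-- The rows of a triangle of digits. -/
noncomputable def rowsL (K n b m : ℕ) : ℕ → List (List ℤ) :=
  @Nat.rec (fun _ => ℕ → List (List ℤ)) (fun _ => [])
    (fun m ih Y => rowL K (Nat.sub (Nat.shiftLeft 1 K) 1) b (Nat.succ m)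
      (Nat.land Y (Nat.sub (Nat.shiftLeft 1 (Nat.mul K (Nat.succ m))) 1)) ::
      ih (Nat.shiftRight Y (Nat.mul K n))) m

/-- The bias for the last step. -/
noncomputable def tRnd (p : TP) : ℕ := Nat.add (omK p.K p.t) (Nat.shiftLeft (triM p.K p.n p.gq) 159)

/-- The scale of the denominator. -/
noncomputable def tS0 (u : UD) : ℕ := Nat.sub (Nat.log2 (cellD u 0 0)) 66

/-- The rows of the quotient series of one entry. -/
noncomputable def quoL (u : UD) (p : TP) (J A : ℕ) : List (List ℤ) :=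
  rowsL p.K p.n (Nat.shiftLeft 1 (Nat.sub p.K 173)) (Nat.succ p.gq)
    (Nat.shiftRight (Nat.land (Nat.add (Nat.mul (trc0 p A (tS0 u)) J) (tRnd p)) (tMask p 160)) 160)

/-- The rows of the six quotients. -/
noncomputable def topQ2 (u : UD) (p : TP) (S T J : ℕ) : Six (List (List ℤ)) :=
  ⟨quoL u p J (cellA u p S T u.Nn.f00), quoL u p J (cellA u p S T u.Nn.f01),
    quoL u p J (cellA u p S T u.Nn.f02), quoL u p J (cellA u p S T u.Nn.f11),
    quoL u p J (cellA u p S T u.Nn.f12), quoL u p J (cellA u p S T u.Nn.f22)⟩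

/-- The rows of the six quotients from the scaled denominator `d` and the inverse `v` of its
lowest term. -/
noncomputable def topQ1 (u : UD) (p : TP) (S T d v : ℕ) : Six (List (List ℤ)) :=
  topQ2 u p S T (finv p (Nat.sub (fon (Nat.shiftLeft 4 (Nat.mul p.K p.t))) (trc p (Nat.mul v d) 96)) v)

/-- The rows of the six quotients from the scaled denominator. -/
noncomputable def topQ0 (u : UD) (p : TP) (S T d : ℕ) : Six (List (List ℤ)) :=
  topQ1 u p S T d (Nat.div (Nat.shiftLeft 1 160) (Nat.land d (Nat.sub (Nat.shiftLeft 1 p.K) 1)))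

/-- The Taylor model of degree `gq ≤ 15` of a cell. -/
noncomputable def topQ (u : UD) (p : TP) (c1 c2 : ℤ) (r : ℕ) : Six (List (List ℤ)) :=
  tF (itoNat (pkS p c1 r)) fun S => tF (itoNat (pkT p c2 r)) fun T =>
    topQ0 u p S T (trc p (cellD u S T) (tS0 u))

end Pool.Agent.P.MP_f12b6c_an
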