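import Pool.Agent.P.MP_f12b6c_an.T3Cell

/-!
The tree of pairs of cells and time intervals, read from a stream of digits.
-/

namespace Pool.Agent.P.MP_f12b6c_an

/-- A quadtree with the corner and the width of its cell. -/
structure Cel where
  t : QT
  x : ℕ
  y : ℕ
  w : ℕ

/-- The model at the root. -/
noncomputable def QT.val (t : QT) : ℕ :=
  @QT.rec (fun _ => ℕ) (nat_lit 0) (fun x _ _ _ _ _ _ _ _ => x) t

/-- Pass the four subtrees on. -/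
noncomputable def QT.kids {β : Type} (t : QT) (k : QT → QT → QT → QT → β) : β :=
  @QT.rec (fun _ => β) (k .nil .nil .nil .nil) (fun _ c0 c1 c2 c3 _ _ _ _ => k c0 c1 c2 c3) t

/-- Pass the four subcells on, given the half width `h`, the new width `w` and the midpoints. -/
noncomputable def Cel.kids1 {β : Type} (t : QT) (x y x' y' w : ℕ) (k : Cel → Cel → Cel → Cel → β) :
    β :=
  t.kids fun c0 c1 c2 c3 => k ⟨c0, x, y, w⟩ ⟨c1, x', y, w⟩ ⟨c2, x, y', w⟩ ⟨c3, x', y', w⟩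

/-- Pass the four subcells on. -/
noncomputable def Cel.kids {β : Type} (U : Cel) (k : Cel → Cel → Cel → Cel → β) : β :=
  Cel.kids1 U.t U.x U.y (Nat.add U.x (Nat.div U.w (nat_lit 2)))
    (Nat.add U.y (Nat.div U.w (nat_lit 2))) (Nat.sub U.w (Nat.div U.w (nat_lit 2))) k

/-- `r` if the test holds, and `0` otherwise. -/
noncomputable def gate (b : Bool) (r : ℕ) : ℕ := @Bool.rec (fun _ => ℕ) (nat_lit 0) r b

/-- Conjunction. -/
noncomputable def bnd (a b : Bool) : Bool := @Bool.rec (fun _ => Bool) false b a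

/-- Disjunction. -/
noncomputable def bdj (a b : Bool) : Bool := @Bool.rec (fun _ => Bool) b true a

/-- The distance of an interval from the centre. -/
def gap (x w : ℕ) : ℕ := Nat.add (Nat.sub x (nat_lit 1024)) (Nat.sub (nat_lit 1024) (Nat.add x w))

/-- The cell misses the disc with squared radius `r2`. -/
def outside (r2 x y w : ℕ) : Bool :=
  Nat.ble (Nat.succ r2) (Nat.add (Nat.mul (gap x w) (gap x w)) (Nat.mul (gap y w) (gap y w)))

/-- Two intervals lie within distance `32`. -/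
noncomputable def near1 (x w x' w' : ℕ) : Bool :=
  bnd (Nat.ble (Nat.add x w) (Nat.add x' (nat_lit 32))) (Nat.ble (Nat.add x' w') (Nat.add x (nat_lit 32)))

/-- The parameters of a tree. -/
structure Fam where
  eU : ℕ → ℕ
  eV : ℕ → ℕ
  cc : ℕ
  md : Bool
  rv : ℕ
  dz : ℕ
  ok : ℕ → ℕ → ℕ → ℕ → ℕ → ℕ → ℕ → ℕ → Bool

/-- Evaluate a number, fail if it is zero, and pass it on. -/
noncomputable def pos1 (x : ℕ) (k : ℕ → Bool) : Bool :=
  @Nat.rec (fun _ => Bool) false (fun m _ => k (Nat.succ m)) x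

/-- The leaf test for a bounded interval. -/
noncomputable def lfar (f : Fam) (x y sm df wit : ℕ) : Bool :=
  pos1 x fun x => pos1 y fun y =>
    farLeaf (f.eU x) (f.eV y) sm df (Nat.mul sm f.cc) (Nat.mul (Nat.add df df) f.cc) wit

/-- The leaf test for an unbounded interval. -/
noncomputable def linf (f : Fam) (x y lo wit : ℕ) : Bool :=
  pos1 x fun x => pos1 y fun y =>
    infLeaf (f.eU x) (f.eV y) (Nat.mul (Nat.mul (nat_lit 4) lo) f.cc) wit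

/-- The type of the recursion. -/
abbrev GoT : Type := ℕ → Cel → Cel → ℕ → ℕ → ℕ

/-- The rare tags. -/
noncomputable def step6 (f : Fam) (tag s : ℕ) (U V : Cel) (lo hi : ℕ) : ℕ :=
  @Nat.rec (fun _ => ℕ)
    (gate (bnd f.md (bnd (Nat.ble (Nat.succ hi) f.dz)
      (bnd (near1 U.x U.w V.x V.w) (near1 U.y U.w V.y V.w)))) s)
    (fun tag _ => @Nat.rec (fun _ => ℕ) (gate (outside (nat_lit 262144) U.x U.y U.w) s)
      (fun tag _ => @Nat.rec (fun _ => ℕ) (gate (outside f.rv V.x V.y V.w) s)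
        (fun _ _ => gate (f.ok U.x U.y U.w V.x V.y V.w lo hi) s) tag) tag) tag

/-- Split the time interval at `mid`. -/
noncomputable def stepT (r : GoT) (s : ℕ) (U V : Cel) (lo mid hi : ℕ) : ℕ :=
  r (r s U V lo mid) U V mid hi

/-- The splitting tags. -/
noncomputable def step3 (f : Fam) (r : GoT) (tag s : ℕ) (U V : Cel) (lo hi : ℕ) : ℕ :=
  @Nat.rec (fun _ => ℕ)
    (V.kids fun c0 c1 c2 c3 => r (r (r (r s U c0 lo hi) U c1 lo hi) U c2 lo hi) U c3 lo hi)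
    (fun tag _ => @Nat.rec (fun _ => ℕ)
      (U.kids fun c0 c1 c2 c3 => r (r (r (r s c0 V lo hi) c1 V lo hi) c2 V lo hi) c3 V lo hi)
      (fun tag _ => @Nat.rec (fun _ => ℕ)
        (gate f.md (stepT r (Nat.shiftRight s (nat_lit 4)) U V lo (Nat.add lo (Nat.shiftRight
          (Nat.mul (Nat.sub hi lo) (Nat.land s (nat_lit 15))) (nat_lit 4))) hi))
        (fun tag _ => step6 f tag s U V lo hi) tag) tag) tag

/-- One step, given the tag and the rest of the stream. -/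
noncomputable def step0 (f : Fam) (r : GoT) (tag s : ℕ) (U V : Cel) (lo hi : ℕ) : ℕ :=
  @Nat.rec (fun _ => ℕ) (nat_lit 0)
    (fun tag _ => @Nat.rec (fun _ => ℕ)
      (gate (bnd f.md (lfar f U.t.val V.t.val (Nat.add lo hi) (Nat.sub hi lo)
        (Nat.land s (nat_lit 0xffffffffffff)))) (Nat.shiftRight s (nat_lit 48)))
      (fun tag _ => @Nat.rec (fun _ => ℕ)
        (gate (linf f U.t.val V.t.val lo (Nat.land s (nat_lit 0xffffff)))
          (Nat.shiftRight s (nat_lit 24)))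
        (fun tag _ => step3 f r tag s U V lo hi) tag) tag) tag

/-- Check a tree; the value is the rest of the stream, and `0` in case of failure. -/
noncomputable def go (f : Fam) (fuel : ℕ) : GoT :=
  @Nat.rec (fun _ => GoT) (fun _ _ _ _ _ => nat_lit 0)
    (fun _ r s U V lo hi => @Nat.rec (fun _ => ℕ) (nat_lit 0)
      (fun m _ => step0 f r (Nat.land (Nat.succ m) (nat_lit 15))
        (Nat.shiftRight (Nat.succ m) (nat_lit 4)) U V lo hi) s) fuel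

/-- Descend `n` levels along the digits of `p` in base four, lowest first. -/
noncomputable def nav (n : ℕ) : ℕ → Cel → Cel :=
  @Nat.rec (fun _ => ℕ → Cel → Cel) (fun _ U => U)
    (fun _ r p U => r (Nat.shiftRight p (nat_lit 2)) (U.kids fun c0 c1 c2 c3 =>
      @Bool.rec (fun _ => Cel) (@Bool.rec (fun _ => Cel) c3 c2 (Nat.beq (Nat.land p (nat_lit 3)) (nat_lit 2)))
        (@Bool.rec (fun _ => Cel) c1 c0 (Nat.beq (Nat.land p (nat_lit 3)) (nat_lit 0)))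
        (Nat.ble (Nat.land p (nat_lit 3)) (nat_lit 1)))) n

/-- The cell has the given corner and width. -/
noncomputable def Cel.is (U : Cel) (x y w : ℕ) : Bool :=
  bnd (Nat.beq U.x x) (bnd (Nat.beq U.y y) (Nat.beq U.w w))

/-- Check a tree that starts from two subtrees of the table. -/
noncomputable def run1 (f : Fam) (s : ℕ) (U V : Cel) (x y w x' y' w' lo hi : ℕ) : Bool :=
  bnd (U.is x y w) (bnd (V.is x' y' w') (bnd (Nat.ble lo hi) (bnd (Nat.ble hi (nat_lit 1024))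
    (Nat.ble (nat_lit 1) (go f (nat_lit 64) s ⟨U.t, x, y, w⟩ ⟨V.t, x', y', w'⟩ lo hi)))))

/-- Check a tree that starts from the subtrees of `tab` with the paths `p`, `p'`. -/
noncomputable def run (f : Fam) (tab : QT) (n p n' p' s x y w x' y' w' lo hi : ℕ) : Bool :=
  run1 f s (nav n p ⟨tab, nat_lit 0, nat_lit 0, nat_lit 2048⟩)
    (nav n' p' ⟨tab, nat_lit 0, nat_lit 0, nat_lit 2048⟩) x y w x' y' w' lo hi

/-- The position of a node. -/
structure Key where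
  x : ℕ
  y : ℕ
  w : ℕ
  x' : ℕ
  y' : ℕ
  w' : ℕ
  lo : ℕ
  hi : ℕ

/-- Membership in a list of positions. -/
noncomputable def memK (l : List Key) (x y w x' y' w' lo hi : ℕ) : Bool :=
  @List.rec Key (fun _ => Bool) false (fun k _ r => bdj
    (bnd (Nat.beq k.x x) (bnd (Nat.beq k.y y) (bnd (Nat.beq k.x' x') (bnd (Nat.beq k.y' y')
      (bnd (Nat.beq k.lo lo) (bnd (Nat.beq k.hi hi) (bnd (Nat.beq k.w w) (Nat.beq k.w' w'))))))))
    r) l

/-- The four families; `i` is `1, 2, 3, 4`. -/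
noncomputable def fam (cc dz : ℕ) (i : ℕ) (md : Bool) (l : List Key) : Fam :=
  match i with
  | 1 => ⟨eU1, eV1, cc, md, nat_lit 331776, dz, memK l⟩
  | 2 => ⟨eU2, eV2, cc, md, nat_lit 331776, dz, memK l⟩
  | 3 => ⟨eU1, eV2, cc, md, nat_lit 207936, nat_lit 0, memK l⟩
  | _ => ⟨eU2, eV1, cc, md, nat_lit 207936, nat_lit 0, memK l⟩

/-- The coordinate `s` lies in the interval with left end `x` and width `w`. -/
def InI (x w : ℕ) (s : ℝ) : Prop := (x : ℝ) - 1024 ≤ 512 * s ∧ 512 * s ≤ (x : ℝ) + w - 1024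

/-- The far statement on a pair of cells and a time interval. -/
def PP (r1 r2 e dt : ℝ) (dg : Prop) (FU FV : ℝ → ℝ → Mat 3) (md : Bool)
    (x y w x' y' w' lo hi : ℕ) : Prop :=
  ∀ p1 p2 q1 q2 t : ℝ, InI x w p1 → InI y w p2 → InI x' w' q1 → InI y' w' q2 →
    p1 ^ 2 + p2 ^ 2 ≤ 1 → q1 ^ 2 + q2 ^ 2 ≤ e ^ 2 → (lo : ℝ) ≤ 64 * t → (md = true → 64 * t ≤ hi) →
    ¬ (dg ∧ |p1 - q1| ≤ 2 * (1 / 32) ∧ |p2 - q2| ≤ 2 * (1 / 32) ∧ t ≤ dt) →
    ∃ A : Mat 3, A.PosSemidef ∧ A.trace ≤ 1 ∧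
      1 / 2 ^ 54 ≤ (A * Wm (1 / 2) r1 r2 (FU p1 p2) (FV q1 q2) t).trace ∧ (md = false → A 1 1 = 0)

/-- The parameters fit the functions. -/
structure Fam.Ok (f : Fam) (F : ℝ → ℝ → Mat 3) (r1 r2 e dt : ℝ) (dg : Prop)
    (FU FV : ℝ → ℝ → Mat 3) : Prop where
  hr : 0 ≤ r2
  he : e ^ 2 ≤ (9 / 8) ^ 2
  rv : 262144 * e ^ 2 ≤ f.rv
  dz : f.dz = 0 ∨ (dg ∧ (f.dz : ℝ) ≤ 64 * dt + 1)
  cc : ∀ n : ℕ, n ≤ 4096 → CroP ((n : ℝ) / 128) r1 r2 (n * f.cc)
  hU : ∀ x s t a b a' b', (∀ v0 v1 v2,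
    |2 ^ 20 * qf (F s t) v0 v1 v2 - mq x a b v0 v1 v2| ≤ eq3 x v0 v1 v2) →
      Low (mon2 a b a' b') (f.eU x) (FU s t)
  hV : ∀ x s t a b a' b', (∀ v0 v1 v2,
    |2 ^ 20 * qf (F s t) v0 v1 v2 - mq x a' b' v0 v1 v2| ≤ eq3 x v0 v1 v2) →
      Low (mon2 a b a' b') (f.eV x) (FV s t)
  ok : ∀ x y w x' y' w' lo hi, f.ok x y w x' y' w' lo hi = true →
    PP r1 r2 e dt dg FU FV f.md x y w x' y' w' lo hi

/-- The models of the cell are valid. -/
def Cel.Good (F : ℝ → ℝ → Mat 3) (U : Cel) : Prop := MP_f12b6c_an.Good F U.t U.x U.y U.w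

theorem bnd_iff {a b : Bool} : bnd a b = true ↔ a = true ∧ b = true := by
  cases a <;> simp [bnd]

theorem bdj_iff {a b : Bool} : bdj a b = true ↔ a = true ∨ b = true := by
  cases a <;> simp [bdj]

theorem gate_ne {b : Bool} {r : ℕ} (h : gate b r ≠ 0) : b = true ∧ r ≠ 0 := by
  cases b
  · exact absurd rfl h
  · exact ⟨rfl, h⟩

theorem pos1_iff {x : ℕ} {k : ℕ → Bool} (h : pos1 x k = true) : x ≠ 0 ∧ k x = true := by
  cases x with
  | zero => exact absurd h (by simp [pos1])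
  | succ m => exact ⟨Nat.succ_ne_zero m, h⟩

theorem InI.ex {x w : ℕ} {s : ℝ} (h : InI x w s) : ∃ a : ℝ, |a| ≤ 1 ∧ s = cx x w a := by
  obtain ⟨h1, h2⟩ := h
  rcases Nat.eq_zero_or_pos w with rfl | hw
  · refine ⟨0, by simp, ?_⟩
    simp only [cx, Nat.cast_zero] at h2 ⊢
    linarith
  · have hw' : (0 : ℝ) < w := by exact_mod_cast hw
    refine ⟨(512 * s + 1024 - x) * 2 / w - 1, abs_le.2 ⟨?_, ?_⟩, ?_⟩
    · have : 0 ≤ (512 * s + 1024 - x) * 2 / w := div_nonneg (by linarith) hw'.le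
      linarith
    · have : (512 * s + 1024 - x) * 2 / w ≤ 2 := by
        rw [div_le_iff₀ hw']
        linarith
      linarith
    · unfold cx
      field_simp
      ring

theorem InI.split {x w : ℕ} {s : ℝ} (h : InI x w s) :
    InI x (w - w / 2) s ∨ InI (x + w / 2) (w - w / 2) s := by
  obtain ⟨h1, h2⟩ := h
  have e1 : ((w - w / 2 : ℕ) : ℝ) = w - (w / 2 : ℕ) := Nat.cast_sub (Nat.div_le_self _ _)
  have e2 : (2 : ℝ) * (w / 2 : ℕ) ≤ w := by exact_mod_cast Nat.mul_div_le w 2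
  unfold InI
  rw [e1, Nat.cast_add]
  rcases le_total (512 * s) ((x : ℝ) + (w / 2 : ℕ) - 1024) with h | h
  · exact Or.inl ⟨h1, by linarith⟩
  · exact Or.inr ⟨h, by linarith⟩

theorem gap_le {x w : ℕ} {s : ℝ} (h : InI x w s) : ((gap x w : ℕ) : ℝ) ^ 2 ≤ (512 * s) ^ 2 := by
  obtain ⟨h1, h2⟩ := h
  have e : gap x w = (x - 1024) + (1024 - (x + w)) := rfl
  rw [e, ← sq_abs (512 * s)]
  refine pow_le_pow_left₀ (Nat.cast_nonneg _) ?_ 2
  rcases le_total 1024 x with h | h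
  · rw [Nat.sub_eq_zero_of_le (h.trans (Nat.le_add_right _ _)), add_zero, Nat.cast_sub h]
    exact le_trans (by push_cast; linarith) (le_abs_self _)
  · rw [Nat.sub_eq_zero_of_le h, zero_add]
    rcases le_total 1024 (x + w) with h' | h'
    · rw [Nat.sub_eq_zero_of_le h', Nat.cast_zero]
      exact abs_nonneg _
    · rw [Nat.cast_sub h']
      exact le_trans (by push_cast; linarith) (neg_le_abs _)

theorem outside_sound {r x y w : ℕ} (h : outside r x y w = true) {s t : ℝ} (hs : InI x w s)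
    (ht : InI y w t) : (r : ℝ) < 262144 * (s ^ 2 + t ^ 2) := by
  have h1 : r + 1 ≤ gap x w * gap x w + gap y w * gap y w := Nat.le_of_ble_eq_true h
  have h2 : (r : ℝ) + 1 ≤ (gap x w : ℝ) * gap x w + (gap y w : ℝ) * gap y w := by exact_mod_cast h1
  nlinarith [gap_le hs, gap_le ht]

theorem near1_sound {x w x' w' : ℕ} (h : near1 x w x' w' = true) {s t : ℝ} (hs : InI x w s)
    (ht : InI x' w' t) : |s - t| ≤ 2 * (1 / 32) := by
  obtain ⟨h1, h2⟩ := bnd_iff.1 h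
  have a1 : x + w ≤ x' + 32 := Nat.le_of_ble_eq_true h1
  have a2 : x' + w' ≤ x + 32 := Nat.le_of_ble_eq_true h2
  have b1 : (x : ℝ) + w ≤ x' + 32 := by exact_mod_cast a1
  have b2 : (x' : ℝ) + w' ≤ x + 32 := by exact_mod_cast a2
  obtain ⟨c1, c2⟩ := hs
  obtain ⟨c3, c4⟩ := ht
  exact abs_le.2 ⟨by linarith, by linarith⟩

theorem Cel.Good.md {F : ℝ → ℝ → Mat 3} {U : Cel} (h : U.Good F) (h0 : U.t.val ≠ 0) :
    Md F U.t.val U.x U.y U.w := by
  obtain ⟨t, x, y, w⟩ := U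
  cases t with
  | nil => exact absurd rfl h0
  | node v c0 c1 c2 c3 => exact h.1 h0

theorem Cel.Good.kids {F : ℝ → ℝ → Mat 3} {U : Cel} (h : U.Good F) {β : Type}
    (k : Cel → Cel → Cel → Cel → β) : ∃ t0 t1 t2 t3 : QT,
      U.kids k = k ⟨t0, U.x, U.y, U.w - U.w / 2⟩ ⟨t1, U.x + U.w / 2, U.y, U.w - U.w / 2⟩
        ⟨t2, U.x, U.y + U.w / 2, U.w - U.w / 2⟩ ⟨t3, U.x + U.w / 2, U.y + U.w / 2, U.w - U.w / 2⟩ ∧
      Cel.Good F ⟨t0, U.x, U.y, U.w - U.w / 2⟩ ∧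
      Cel.Good F ⟨t1, U.x + U.w / 2, U.y, U.w - U.w / 2⟩ ∧
      Cel.Good F ⟨t2, U.x, U.y + U.w / 2, U.w - U.w / 2⟩ ∧
      Cel.Good F ⟨t3, U.x + U.w / 2, U.y + U.w / 2, U.w - U.w / 2⟩ := by
  obtain ⟨t, x, y, w⟩ := U
  cases t with
  | nil => exact ⟨.nil, .nil, .nil, .nil, rfl, trivial, trivial, trivial, trivial⟩
  | node v c0 c1 c2 c3 => exact ⟨c0, c1, c2, c3, rfl, h.2⟩

section Sound

variable {f : Fam} {F FU FV : ℝ → ℝ → Mat 3} {r1 r2 e dt : ℝ} {dg : Prop}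

private theorem t3t_low (H : f.Ok F r1 r2 e dt dg FU FV) {U V : Cel} (hU : U.Good F) (hV : V.Good F)
    (u0 : U.t.val ≠ 0) (v0 : V.t.val ≠ 0) {p1 p2 q1 q2 : ℝ} (a1 : InI U.x U.w p1)
    (a2 : InI U.y U.w p2) (a3 : InI V.x V.w q1) (a4 : InI V.y V.w q2) (a5 : p1 ^ 2 + p2 ^ 2 ≤ 1)
    (a6 : q1 ^ 2 + q2 ^ 2 ≤ e ^ 2) : ∃ μ, MonOK μ ∧ Low μ (f.eU U.t.val) (FU p1 p2) ∧
      Low μ (f.eV V.t.val) (FV q1 q2) := by
  obtain ⟨a, ha, rfl⟩ := a1.ex
  obtain ⟨b, hb, rfl⟩ := a2.ex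
  obtain ⟨a', ha', rfl⟩ := a3.ex
  obtain ⟨b', hb', rfl⟩ := a4.ex
  exact ⟨mon2 a b a' b', mon2_ok ha hb ha' hb',
    H.hU _ _ _ _ _ _ _ (hU.md u0 a b ha hb (a5.trans (by norm_num))),
    H.hV _ _ _ _ _ _ _ (hV.md v0 a' b' ha' hb' (a6.trans H.he))⟩

private theorem t3t_far (H : f.Ok F r1 r2 e dt dg FU FV) {U V : Cel} (hU : U.Good F) (hV : V.Good F)
    {lo hi s : ℕ} (h1 : lo ≤ hi) (h2 : hi ≤ 1024) (hm : f.md = true)
    (h : lfar f U.t.val V.t.val (lo + hi) (hi - lo) (s &&& 0xffffffffffff) = true) :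
    PP r1 r2 e dt dg FU FV f.md U.x U.y U.w V.x V.y V.w lo hi := by
  intro p1 p2 q1 q2 t a1 a2 a3 a4 a5 a6 a7 a8 _
  obtain ⟨u0, h⟩ := pos1_iff h
  obtain ⟨v0, h⟩ := pos1_iff h
  obtain ⟨μ, m1, m2, m3⟩ := t3t_low H hU hV u0 v0 a1 a2 a3 a4 a5 a6
  have a9 := a8 hm
  obtain ⟨τ, τ1, τ2⟩ : ∃ τ : ℝ, |τ| ≤ 1 ∧
      t = ((lo + hi : ℕ) : ℝ) / 128 + ((hi - lo : ℕ) : ℝ) / 128 * τ := by
    rw [Nat.cast_sub h1, Nat.cast_add]
    rcases h1.eq_or_lt with rfl | h3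
    · exact ⟨0, by simp, by linarith⟩
    · have h4 : (0 : ℝ) < hi - lo := sub_pos.2 (by exact_mod_cast h3)
      refine ⟨(128 * t - (lo + hi)) / (hi - lo), ?_, by field_simp; ring⟩
      rw [abs_div, abs_of_pos h4, div_le_one h4]
      exact abs_le.2 ⟨by linarith, by linarith⟩
  have c2 := H.cc ((hi - lo) + (hi - lo)) (by omega)
  rw [show (((hi - lo) + (hi - lo) : ℕ) : ℝ) / 128 = 2 * (((hi - lo : ℕ) : ℝ) / 128) by
    push_cast; ring] at c2
  obtain ⟨A, g1, g2, g3⟩ := farLeaf_sound (k := 1 / 2) m1 m2 m3 (T0 := lo + hi) (Rr := hi - lo)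
    (by ring) (by omega) (by ring) (by omega) (H.cc (lo + hi) (by omega)) c2
    (Nat.lt_succ_of_le Nat.and_le_right) τ1 h
  exact ⟨A, g1, g2, τ2 ▸ g3, fun h0 => absurd (hm.symm.trans h0) (by simp)⟩

private theorem t3t_inf (H : f.Ok F r1 r2 e dt dg FU FV) {U V : Cel} (hU : U.Good F) (hV : V.Good F)
    {lo hi s : ℕ} (h1 : lo ≤ hi) (h2 : hi ≤ 1024)
    (h : linf f U.t.val V.t.val lo (s &&& 0xffffff) = true) :
    PP r1 r2 e dt dg FU FV f.md U.x U.y U.w V.x V.y V.w lo hi := by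
  intro p1 p2 q1 q2 t a1 a2 a3 a4 a5 a6 a7 _ _
  obtain ⟨u0, h⟩ := pos1_iff h
  obtain ⟨v0, h⟩ := pos1_iff h
  obtain ⟨μ, m1, m2, m3⟩ := t3t_low H hU hV u0 v0 a1 a2 a3 a4 a5 a6
  have c2 := H.cc (4 * lo) (by omega)
  rw [show ((4 * lo : ℕ) : ℝ) / 128 = 2 * ((lo : ℝ) / 64) by push_cast; ring] at c2
  obtain ⟨A, g1, g2, g3, g4⟩ := infLeaf_sound (k := 1 / 2) (t := t) m1 m2 m3 H.hr c2
    (Nat.lt_succ_of_le Nat.and_le_right) (by linarith) h
  exact ⟨A, g1, g2, g3, fun _ => g4⟩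

private theorem t3t_6 (H : f.Ok F r1 r2 e dt dg FU FV) {U V : Cel} {tag s lo hi : ℕ}
    (h : step6 f tag s U V lo hi ≠ 0) :
    PP r1 r2 e dt dg FU FV f.md U.x U.y U.w V.x V.y V.w lo hi := by
  rcases tag with _ | _ | _ | tag
  · obtain ⟨g1, g⟩ := bnd_iff.1 (gate_ne h).1
    obtain ⟨g2, g⟩ := bnd_iff.1 g
    obtain ⟨g3, g4⟩ := bnd_iff.1 g
    have g5 : hi + 1 ≤ f.dz := Nat.le_of_ble_eq_true g2
    intro p1 p2 q1 q2 t a1 a2 a3 a4 _ _ _ a8 a9
    rcases H.dz with h0 | ⟨h0, h1⟩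
    · omega
    · have g6 : (hi : ℝ) + 1 ≤ f.dz := by exact_mod_cast g5
      exact absurd ⟨h0, near1_sound g3 a1 a3, near1_sound g4 a2 a4, by linarith [a8 g1]⟩ a9
  · intro p1 p2 q1 q2 t a1 a2 _ _ a5 _ _ _ _
    have := outside_sound (r := 262144) (gate_ne h).1 a1 a2
    push_cast at this
    linarith
  · intro p1 p2 q1 q2 t _ _ a3 a4 _ a6 _ _ _
    have := outside_sound (gate_ne h).1 a3 a4
    linarith [H.rv]
  · exact H.ok _ _ _ _ _ _ _ _ (gate_ne h).1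

private theorem t3t_3 (H : f.Ok F r1 r2 e dt dg FU FV) {r : GoT}
    (r0 : ∀ s U V lo hi, r s U V lo hi ≠ 0 → s ≠ 0)
    (ih : ∀ s U V lo hi, U.Good F → V.Good F → lo ≤ hi → hi ≤ 1024 → r s U V lo hi ≠ 0 →
      PP r1 r2 e dt dg FU FV f.md U.x U.y U.w V.x V.y V.w lo hi)
    {U V : Cel} (hU : U.Good F) (hV : V.Good F) {tag s lo hi : ℕ} (h1 : lo ≤ hi) (h2 : hi ≤ 1024)
    (h : step3 f r tag s U V lo hi ≠ 0) :
    PP r1 r2 e dt dg FU FV f.md U.x U.y U.w V.x V.y V.w lo hi := by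
  rcases tag with _ | _ | _ | tag
  · obtain ⟨t0, t1, t2, t3, e0, g0, g1, g2, g3⟩ := hV.kids
      fun c0 c1 c2 c3 => r (r (r (r s U c0 lo hi) U c1 lo hi) U c2 lo hi) U c3 lo hi
    have k3 := fun h0 => h (e0.trans h0)
    have k2 := r0 _ _ _ _ _ k3
    have k1 := r0 _ _ _ _ _ k2
    have k0 := r0 _ _ _ _ _ k1
    intro p1 p2 q1 q2 t a1 a2 a3 a4
    rcases a3.split with b | b <;> rcases a4.split with c | c
    · exact ih _ _ _ _ _ hU g0 h1 h2 k0 p1 p2 q1 q2 t a1 a2 b c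
    · exact ih _ _ _ _ _ hU g2 h1 h2 k2 p1 p2 q1 q2 t a1 a2 b c
    · exact ih _ _ _ _ _ hU g1 h1 h2 k1 p1 p2 q1 q2 t a1 a2 b c
    · exact ih _ _ _ _ _ hU g3 h1 h2 k3 p1 p2 q1 q2 t a1 a2 b c
  · obtain ⟨t0, t1, t2, t3, e0, g0, g1, g2, g3⟩ := hU.kids
      fun c0 c1 c2 c3 => r (r (r (r s c0 V lo hi) c1 V lo hi) c2 V lo hi) c3 V lo hi
    have k3 := fun h0 => h (e0.trans h0)
    have k2 := r0 _ _ _ _ _ k3
    have k1 := r0 _ _ _ _ _ k2
    have k0 := r0 _ _ _ _ _ k1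
    intro p1 p2 q1 q2 t a1 a2
    rcases a1.split with b | b <;> rcases a2.split with c | c
    · exact ih _ _ _ _ _ g0 hV h1 h2 k0 p1 p2 q1 q2 t b c
    · exact ih _ _ _ _ _ g2 hV h1 h2 k2 p1 p2 q1 q2 t b c
    · exact ih _ _ _ _ _ g1 hV h1 h2 k1 p1 p2 q1 q2 t b c
    · exact ih _ _ _ _ _ g3 hV h1 h2 k3 p1 p2 q1 q2 t b c
  · have k1 : r (r (s >>> 4) U V lo (lo + ((hi - lo) * (s &&& 15)) >>> 4)) U V
      (lo + ((hi - lo) * (s &&& 15)) >>> 4) hi ≠ 0 := (gate_ne h).2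
    have k0 := r0 _ _ _ _ _ k1
    have k2 : ((hi - lo) * (s &&& 15)) >>> 4 ≤ hi - lo := by
      have : (hi - lo) * (s &&& 15) ≤ (hi - lo) * 15 := Nat.mul_le_mul_left _ Nat.and_le_right
      rw [Nat.shiftRight_eq_div_pow]
      omega
    generalize ((hi - lo) * (s &&& 15)) >>> 4 = d at k0 k1 k2
    intro p1 p2 q1 q2 t a1 a2 a3 a4 a5 a6 a7 a8
    rcases le_total (64 * t) ((lo + d : ℕ) : ℝ) with b | b
    · exact ih _ _ _ _ _ hU hV (by omega) (by omega) k0 p1 p2 q1 q2 t a1 a2 a3 a4 a5 a6 a7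
        fun _ => b
    · exact ih _ _ _ _ _ hU hV (by omega) h2 k1 p1 p2 q1 q2 t a1 a2 a3 a4 a5 a6 b a8
  · exact t3t_6 H h

theorem go_ne (f : Fam) (fuel s : ℕ) (U V : Cel) (lo hi : ℕ) (h : go f fuel s U V lo hi ≠ 0) :
    s ≠ 0 := by
  rintro rfl
  cases fuel <;> exact h rfl

theorem go_sound (H : f.Ok F r1 r2 e dt dg FU FV) (fuel : ℕ) : ∀ s U V lo hi, U.Good F → V.Good F →
    lo ≤ hi → hi ≤ 1024 → go f fuel s U V lo hi ≠ 0 →
      PP r1 r2 e dt dg FU FV f.md U.x U.y U.w V.x V.y V.w lo hi := by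
  induction fuel with
  | zero => exact fun _ _ _ _ _ _ _ _ _ h => absurd rfl h
  | succ n ih =>
    intro s U V lo hi hU hV h1 h2 h
    cases s with
    | zero => exact absurd rfl h
    | succ m =>
      have h' : step0 f (go f n) (Nat.land (Nat.succ m) 15) (Nat.shiftRight (Nat.succ m) 4)
        U V lo hi ≠ 0 := h
      generalize Nat.land (Nat.succ m) 15 = tag at h'
      generalize Nat.shiftRight (Nat.succ m) 4 = s at h'
      rcases tag with _ | _ | _ | tag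
      · exact absurd rfl h'
      · obtain ⟨g1, g2⟩ := bnd_iff.1 (gate_ne h').1
        exact t3t_far H hU hV h1 h2 g1 g2
      · exact t3t_inf H hU hV h1 h2 (gate_ne h').1
      · exact t3t_3 H (go_ne f n) ih hU hV h1 h2 h'

theorem nav_good (n : ℕ) : ∀ p U, U.Good F → (nav n p U).Good F := by
  induction n with
  | zero => exact fun _ _ h => h
  | succ n ih =>
    intro p U h
    refine ih _ _ ?_
    obtain ⟨t0, t1, t2, t3, e0, g0, g1, g2, g3⟩ := h.kids fun c0 c1 c2 c3 =>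
      @Bool.rec (fun _ => Cel)
        (@Bool.rec (fun _ => Cel) c3 c2 (Nat.beq (Nat.land p (nat_lit 3)) (nat_lit 2)))
        (@Bool.rec (fun _ => Cel) c1 c0 (Nat.beq (Nat.land p (nat_lit 3)) (nat_lit 0)))
        (Nat.ble (Nat.land p (nat_lit 3)) (nat_lit 1))
    rw [e0]
    cases Nat.ble (Nat.land p (nat_lit 3)) (nat_lit 1)
    · cases Nat.beq (Nat.land p (nat_lit 3)) (nat_lit 2)
      exacts [g3, g2]
    · cases Nat.beq (Nat.land p (nat_lit 3)) (nat_lit 0)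
      exacts [g1, g0]

private theorem t3t_is {U : Cel} {x y w : ℕ} (hU : U.Good F) (h : U.is x y w = true) :
    Cel.Good F ⟨U.t, x, y, w⟩ := by
  obtain ⟨g1, g⟩ := bnd_iff.1 h
  obtain ⟨g2, g3⟩ := bnd_iff.1 g
  rw [← Nat.eq_of_beq_eq_true g1, ← Nat.eq_of_beq_eq_true g2, ← Nat.eq_of_beq_eq_true g3]
  exact hU

theorem run_sound (H : f.Ok F r1 r2 e dt dg FU FV) {tab : QT} (ht : Good F tab 0 0 2048)
    {n p n' p' s x y w x' y' w' lo hi : ℕ}
    (h : run f tab n p n' p' s x y w x' y' w' lo hi = true) :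
    PP r1 r2 e dt dg FU FV f.md x y w x' y' w' lo hi := by
  obtain ⟨g1, g⟩ := bnd_iff.1 h
  obtain ⟨g2, g⟩ := bnd_iff.1 g
  obtain ⟨g3, g⟩ := bnd_iff.1 g
  obtain ⟨g4, g5⟩ := bnd_iff.1 g
  exact go_sound H _ s ⟨_, x, y, w⟩ ⟨_, x', y', w'⟩ lo hi (t3t_is (nav_good n p ⟨tab, 0, 0, 2048⟩ ht) g1)
    (t3t_is (nav_good n' p' ⟨tab, 0, 0, 2048⟩ ht) g2) (Nat.le_of_ble_eq_true g3)
    (Nat.le_of_ble_eq_true g4) (Nat.one_le_iff_ne_zero.1 (Nat.le_of_ble_eq_true g5))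

end Sound

/-- A property holds at all positions of a list. -/
def AllK (P : ℕ → ℕ → ℕ → ℕ → ℕ → ℕ → ℕ → ℕ → Prop) : List Key → Prop
  | [] => True
  | k :: l => P k.x k.y k.w k.x' k.y' k.w' k.lo k.hi ∧ AllK P l

theorem AllK.append {P : ℕ → ℕ → ℕ → ℕ → ℕ → ℕ → ℕ → ℕ → Prop} :
    ∀ {l l' : List Key}, AllK P l → AllK P l' → AllK P (l ++ l')
  | [], _, _, h => h
  | _ :: _, _, h, h' => ⟨h.1, h.2.append h'⟩

theorem memK_sound {P : ℕ → ℕ → ℕ → ℕ → ℕ → ℕ → ℕ → ℕ → Prop} :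
    ∀ {l : List Key}, AllK P l → ∀ x y w x' y' w' lo hi, memK l x y w x' y' w' lo hi = true →
      P x y w x' y' w' lo hi
  | [], _, _, _, _, _, _, _, _, _, h => absurd h (by simp [memK])
  | k :: l, hl, x, y, w, x', y', w', lo, hi, h => by
    rcases bdj_iff.1 h with g | g
    · obtain ⟨g1, g⟩ := bnd_iff.1 g
      obtain ⟨g2, g⟩ := bnd_iff.1 g
      obtain ⟨g3, g⟩ := bnd_iff.1 g
      obtain ⟨g4, g⟩ := bnd_iff.1 g
      obtain ⟨g5, g⟩ := bnd_iff.1 g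
      obtain ⟨g6, g⟩ := bnd_iff.1 g
      obtain ⟨g7, g8⟩ := bnd_iff.1 g
      rw [← Nat.eq_of_beq_eq_true g1, ← Nat.eq_of_beq_eq_true g2, ← Nat.eq_of_beq_eq_true g3,
        ← Nat.eq_of_beq_eq_true g4, ← Nat.eq_of_beq_eq_true g5, ← Nat.eq_of_beq_eq_true g6,
        ← Nat.eq_of_beq_eq_true g7, ← Nat.eq_of_beq_eq_true g8]
      exact hl.1
    · exact memK_sound hl.2 _ _ _ _ _ _ _ _ g

/-- The function for the first cell in family `i`. -/
noncomputable def famU (F : ℝ → ℝ → Mat 3) (i : ℕ) : ℝ → ℝ → Mat 3 :=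
  match i with
  | 1 => F
  | 2 => fun s t => -(sig * F s t * sig)
  | 3 => F
  | _ => fun s t => -(sig * F s t * sig)

/-- The function for the second cell in family `i`. -/
noncomputable def famV (F : ℝ → ℝ → Mat 3) (i : ℕ) : ℝ → ℝ → Mat 3 :=
  match i with
  | 1 => fun s t => -F s t
  | 2 => fun s t => sig * F s t * sig
  | 3 => fun s t => sig * F s t * sig
  | _ => fun s t => -F s t

/-- The radius for the second cell in family `i`. -/
noncomputable def famE (i : ℕ) : ℝ :=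
  match i with
  | 1 => 9 / 8
  | 2 => 9 / 8
  | _ => 1 / (9 / 8)

/-- The diagonal is left out in the first two families. -/
def famD (i : ℕ) : Prop :=
  match i with
  | 1 => True
  | 2 => True
  | _ => False

/-- The far statement of family `i`. -/
def PF (F : ℝ → ℝ → Mat 3) (r1 r2 dt : ℝ) (i : ℕ) (md : Bool) :
    ℕ → ℕ → ℕ → ℕ → ℕ → ℕ → ℕ → ℕ → Prop :=
  PP r1 r2 (famE i) dt (famD i) (famU F i) (famV F i) md

/-- The data common to all trees are correct. -/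
structure Base (F : ℝ → ℝ → Mat 3) (r1 r2 dt : ℝ) (cc dz : ℕ) (tab : QT) : Prop where
  hr : 0 ≤ r2
  dz : (dz : ℝ) ≤ 64 * dt + 1
  cc : ∀ n : ℕ, n ≤ 4096 → CroP ((n : ℝ) / 128) r1 r2 (n * cc)
  tab : Good F tab 0 0 2048

theorem Base.nil {F : ℝ → ℝ → Mat 3} {r1 r2 dt : ℝ} {cc dz : ℕ} {tab : QT}
    (B : Base F r1 r2 dt cc dz tab) : Base F r1 r2 dt cc dz .nil := ⟨B.hr, B.dz, B.cc, trivial⟩

theorem Base.run {F : ℝ → ℝ → Mat 3} {r1 r2 dt : ℝ} {cc dz : ℕ} {tab : QT}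
    (B : Base F r1 r2 dt cc dz tab)
    {i : ℕ} {md : Bool} {l : List Key} (hl : AllK (PF F r1 r2 dt i md) l)
    {n p n' p' s x y w x' y' w' lo hi : ℕ}
    (h : run (fam cc dz i md l) tab n p n' p' s x y w x' y' w' lo hi = true) :
    PF F r1 r2 dt i md x y w x' y' w' lo hi := by
  rcases i with _ | _ | _ | _ | i
  · exact run_sound (f := fam cc dz 0 md l) ⟨B.hr, by norm_num [famE], by norm_num [famE, fam],
      Or.inl rfl, B.cc, fun _ _ _ _ _ _ _ => low_U2, fun _ _ _ _ _ _ _ => low_V1, memK_sound hl⟩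
      B.tab h
  · exact run_sound (f := fam cc dz 1 md l) ⟨B.hr, by norm_num [famE], by norm_num [famE, fam],
      Or.inr ⟨trivial, B.dz⟩, B.cc, fun _ _ _ _ _ _ _ => low_U1, fun _ _ _ _ _ _ _ => low_V1,
      memK_sound hl⟩ B.tab h
  · exact run_sound (f := fam cc dz 2 md l) ⟨B.hr, by norm_num [famE], by norm_num [famE, fam],
      Or.inr ⟨trivial, B.dz⟩, B.cc, fun _ _ _ _ _ _ _ => low_U2, fun _ _ _ _ _ _ _ => low_V2,
      memK_sound hl⟩ B.tab h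
  · exact run_sound (f := fam cc dz 3 md l) ⟨B.hr, by norm_num [famE], by norm_num [famE, fam],
      Or.inl rfl, B.cc, fun _ _ _ _ _ _ _ => low_U1, fun _ _ _ _ _ _ _ => low_V2, memK_sound hl⟩
      B.tab h
  · exact run_sound (f := fam cc dz (i + 4) md l) ⟨B.hr,
      show (1 / (9 / 8) : ℝ) ^ 2 ≤ (9 / 8) ^ 2 by norm_num,
      show 262144 * (1 / (9 / 8) : ℝ) ^ 2 ≤ (207936 : ℕ) by norm_num,
      Or.inl rfl, B.cc, fun _ _ _ _ _ _ _ => low_U2, fun _ _ _ _ _ _ _ => low_V1, memK_sound hl⟩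
      B.tab h

theorem far_of_PF {F : ℝ → ℝ → Mat 3} {r1 r2 dt : ℝ} {i : ℕ}
    (h1 : PF F r1 r2 dt i true 0 0 2048 0 0 2048 0 1024)
    (h2 : PF F r1 r2 dt i false 0 0 2048 0 0 2048 1024 1024) :
    Far (1 / 2) r1 r2 16 (1 / 2 ^ 54) (1 / 32) dt (famE i) (famD i) (famU F i) (famV F i) := by
  have he : famE i ^ 2 ≤ 4 := by
    rcases i with _ | _ | _ | i
    exacts [by norm_num [famE], by norm_num [famE], by norm_num [famE],
      show (1 / (9 / 8) : ℝ) ^ 2 ≤ 4 by norm_num]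
  have key : ∀ s t : ℝ, s ^ 2 + t ^ 2 ≤ 4 → InI 0 2048 s ∧ InI 0 2048 t := fun s t h => by
    have a1 := abs_le.1 (abs_le_of_sq_le_sq (a := s) (b := 2) (by nlinarith) (by norm_num))
    have a2 := abs_le.1 (abs_le_of_sq_le_sq (a := t) (b := 2) (by nlinarith) (by norm_num))
    unfold InI
    push_cast
    exact ⟨⟨by linarith, by linarith⟩, by linarith, by linarith⟩
  intro p1 p2 q1 q2 t a1 a2 a3 a4
  obtain ⟨b1, b2⟩ := key p1 p2 (by linarith)
  obtain ⟨b3, b4⟩ := key q1 q2 (a2.trans he)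
  rcases lt_or_ge t 16 with h | h
  · obtain ⟨A, g1, g2, g3, -⟩ := h1 p1 p2 q1 q2 t b1 b2 b3 b4 a1 a2 (by push_cast; linarith)
      (fun _ => by push_cast; linarith) a4
    exact ⟨A, g1, g2, g3, fun h' => absurd h' (not_le.2 h)⟩
  · obtain ⟨A, g1, g2, g3, g4⟩ := h2 p1 p2 q1 q2 t b1 b2 b3 b4 a1 a2 (by push_cast; linarith)
      (fun h' => absurd h' (by simp)) a4
    exact ⟨A, g1, g2, g3, fun _ => g4 rfl⟩

end Pool.Agent.P.MP_f12b6c_an
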